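import Mathlib
import Pool.Agent.Lib.MP_ef7581_lc.Mat

/-!
States (partial solutions), their images in the auxiliary graphs, and counting.
-/

set_option autoImplicit false
set_option linter.unusedSectionVars false

namespace Pool.Agent.Lib.MP_ef7581_lc

open Finset

/-- A family of edges living in disjoint blocks is a matching. -/
theorem exists_mate {α ι : Type} [DecidableEq α] [DecidableEq ι] (a b : ι → α)
    (blk : α → ι → Prop) (hblk : ∀ x i j, blk x i → blk x j → i = j) (S : Finset ι)
    (ha : ∀ j ∈ S, blk (a j) j) (hb : ∀ j ∈ S, blk (b j) j) :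
    ∃ m : α → α, (∀ x, m (m x) = x) ∧ (∀ j ∈ S, m (a j) = b j ∧ m (b j) = a j) ∧
      ∀ x, m x ≠ x → ∃ j ∈ S, x = a j ∨ x = b j := by
  induction S using Finset.induction_on with
  | empty => exact ⟨id, fun _ => rfl, by simp, fun x hx => absurd rfl hx⟩
  | insert i S hi ih =>
    obtain ⟨m, h1, h2, h3⟩ := ih (fun j hj => ha j (mem_insert_of_mem hj))
      (fun j hj => hb j (mem_insert_of_mem hj))
    have fix : ∀ x, blk x i → m x = x := by
      intro x hx
      by_contra h
      obtain ⟨j, hj, e | e⟩ := h3 x h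
      · exact hi (hblk x i j hx (e ▸ ha j (mem_insert_of_mem hj)) ▸ hj)
      · exact hi (hblk x i j hx (e ▸ hb j (mem_insert_of_mem hj)) ▸ hj)
    have ai := ha i (mem_insert_self _ _)
    have bi := hb i (mem_insert_self _ _)
    refine ⟨link (a i) (b i) m, inv_link h1 (fix _ ai) (fix _ bi), ?_, ?_⟩
    · intro j hj
      rcases mem_insert.1 hj with rfl | hj'
      · exact ⟨link_left _ _ _, link_right _⟩
      · have ne : ∀ x y, blk x j → blk y i → x ≠ y := fun x y hx hy e =>
          hi (hblk x i j (e ▸ hy) hx ▸ hj')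
        rw [link_ne (ne _ _ (ha j hj) ai) (ne _ _ (ha j hj) bi),
          link_ne (ne _ _ (hb j hj) ai) (ne _ _ (hb j hj) bi)]
        exact h2 j hj'
    · intro x hx
      by_cases e1 : x = a i
      · exact ⟨i, mem_insert_self _ _, Or.inl e1⟩
      by_cases e2 : x = b i
      · exact ⟨i, mem_insert_self _ _, Or.inr e2⟩
      rw [link_ne e1 e2] at hx
      obtain ⟨j, hj, e⟩ := h3 x hx
      exact ⟨j, mem_insert_of_mem hj, e⟩

theorem IsM.flip {α : Type} {E : α → α → Prop} {m : α → α} (h : IsM E m) {x y : α}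
    (e : m x = y) : m y = x := by rw [← e, h.1]

namespace AP

variable {J V : Type} (P : AP J V)

/-- `u, v` is a good pair for `j`. -/
def Good (j : J) (u v : V) : Prop :=
  P.col j u ≠ none ∧ P.col j v ≠ none ∧ P.col j u ≠ P.col j v ∧ ¬ P.H u v

variable {P}

theorem Good.symm {j : J} {u v : V} (h : P.Good j u v) : P.Good j v u :=
  ⟨h.2.1, h.1, h.2.2.1.symm, fun e => h.2.2.2 (P.symm _ _ e)⟩

theorem Good.ne {j : J} {u v : V} (h : P.Good j u v) : u ≠ v := fun e => h.2.2.1 (e ▸ rfl)

theorem serv_C {j : J} {s : Finset V} {c : V} (hc : c ∈ s) (h : P.col j c = none) : P.Serv j s :=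
  ⟨c, hc, Or.inl h⟩

theorem serv_of {j : J} {s : Finset V} {u v : V} (hu : u ∈ s) (hv : v ∈ s)
    (h : P.col j u ≠ P.col j v) (hH : ¬ P.H u v) : P.Serv j s :=
  ⟨u, hu, Or.inr ⟨v, hv, h, hH⟩⟩

theorem Good.serv {j : J} {s : Finset V} {u v : V} (h : P.Good j u v) (hu : u ∈ s) (hv : v ∈ s) :
    P.Serv j s := serv_of hu hv h.2.2.1 h.2.2.2

theorem Serv.mono {j : J} {s t : Finset V} (h : P.Serv j s) (hst : s ⊆ t) : P.Serv j t := by
  obtain ⟨u, hu, h | ⟨v, hv, h⟩⟩ := h
  · exact ⟨u, hst hu, Or.inl h⟩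
  · exact ⟨u, hst hu, Or.inr ⟨v, hst hv, h⟩⟩

theorem Serv.cases {j : J} {s : Finset V} (h : P.Serv j s) :
    (∃ c ∈ s, P.col j c = none) ∨ ∃ u ∈ s, ∃ v ∈ s, P.Good j u v := by
  by_cases hc : ∃ c ∈ s, P.col j c = none
  · exact Or.inl hc
  · push Not at hc
    obtain ⟨u, hu, h | ⟨v, hv, h⟩⟩ := h
    · exact absurd h (hc u hu)
    · exact Or.inr ⟨u, hu, v, hv, hc u hu, hc v hv, h.1, h.2⟩

theorem not_serv_empty (j : J) : ¬ P.Serv j ∅ := by rintro ⟨u, hu, _⟩; simp at hu

theorem same_not_H {j : J} {u v : V} (h : P.col j u = P.col j v) (hn : P.col j u ≠ none) :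
    ¬ P.H u v := fun e => P.compat j u v e hn h

theorem Disj.eq {f : J → Finset V} (h : Disj f) {i j : J} {v : V} (hi : v ∈ f i) (hj : v ∈ f j) :
    i = j := by
  by_contra e
  exact disjoint_left.1 (h i j e) hi hj

theorem disj_of {f : J → Finset V} (h : ∀ i j v, v ∈ f i → v ∈ f j → i = j) : Disj f :=
  fun i j e => disjoint_left.2 fun v hi hj => e (h i j v hi hj)

theorem E_symm (R : Rx J V) {x y : Nd J V} (h : P.E R x y) : P.E R y x := by
  rcases x with j | u | j <;> rcases y with i | v | i <;> simp only [E] at h ⊢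
  · exact h
  · exact h
  · exact h
  · exact h.symm
  · exact h

theorem om_symm (l : ℕ) (x y : Nd J V) : P.om l x y = P.om l y x := by
  rcases x with j | u | j <;> rcases y with i | v | i <;> simp only [om]

/-- The possible mates of an agent. -/
theorem mate_ag {R : Rx J V} {m : Nd J V → Nd J V} (h : IsM (P.E R) m) (j : J) :
    m (ag j) = ag j ∨ (∃ v, m (ag j) = vx v ∧ (P.col j v = none ∨ R.nc j v)) ∨
      (m (ag j) = dm j ∧ R.du j) := by
  by_cases e : m (ag j) = ag j
  · exact Or.inl e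
  have := h.2 _ e
  rcases hm : m (ag j) with i | v | i <;> rw [hm] at this <;> simp only [E] at this
  · exact Or.inr (Or.inl ⟨v, rfl, this⟩)
  · obtain ⟨rfl, h2⟩ := this; exact Or.inr (Or.inr ⟨rfl, h2⟩)

/-- The possible mates of a vertex. -/
theorem mate_vx {R : Rx J V} {m : Nd J V → Nd J V} (h : IsM (P.E R) m) (v : V) :
    m (vx v) = vx v ∨ (∃ j, m (vx v) = ag j ∧ m (ag j) = vx v) ∨
      ∃ u, u ≠ v ∧ m (vx v) = vx u ∧ (R.pe v u ∨ R.pe u v) := by
  by_cases e : m (vx v) = vx v
  · exact Or.inl e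
  have := h.2 _ e
  rcases hm : m (vx v) with i | u | i <;> rw [hm] at this <;> simp only [E] at this
  · exact Or.inr (Or.inl ⟨i, rfl, by rw [← h.1 (vx v), hm]⟩)
  · exact Or.inr (Or.inr ⟨u, fun e' => e (by rw [hm, e']), rfl, this⟩)

theorem mate_dm {R : Rx J V} {m : Nd J V → Nd J V} (h : IsM (P.E R) m) (j : J) :
    m (dm j) = dm j ∨ (m (dm j) = ag j ∧ m (ag j) = dm j) := by
  by_cases e : m (dm j) = dm j
  · exact Or.inl e
  have := h.2 _ e
  rcases hm : m (dm j) with i | u | i <;> rw [hm] at this <;> simp only [E] at this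
  obtain ⟨rfl, _⟩ := this
  exact Or.inr ⟨rfl, by rw [← h.1 (dm i), hm]⟩

theorem edge_av {R : Rx J V} {m : Nd J V → Nd J V} (h : IsM (P.E R) m) {j : J} {v : V}
    (e : m (ag j) = vx v) : P.col j v = none ∨ R.nc j v := by
  have := h.2 (ag j) (by rw [e]; simp)
  rwa [e] at this

theorem edge_vv {R : Rx J V} {m : Nd J V → Nd J V} (h : IsM (P.E R) m) {u v : V}
    (e : m (vx u) = vx v) (hne : u ≠ v) : R.pe u v ∨ R.pe v u := by
  have := h.2 (vx u) (by rw [e]; simpa using hne.symm)
  rwa [e] at this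

theorem edge_ad {R : Rx J V} {m : Nd J V → Nd J V} (h : IsM (P.E R) m) {j : J}
    (e : m (ag j) = dm j) : R.du j := by
  have := h.2 (ag j) (by rw [e]; simp)
  rw [e] at this; exact this.2

variable [Fintype J] [Fintype V] [DecidableEq J] [DecidableEq V]

variable (P)

open Classical in
/-- Number of served agents. -/
noncomputable def sv (f : J → Finset V) : ℕ := (univ.filter fun j => P.Serv j (f j)).card

/-- Number of agents holding a C-vertex. -/
def cf (f : J → Finset V) : ℕ := (univ.filter fun j => ∃ c ∈ f j, P.col j c = none).card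

/-- Normal form of a state. -/
def Norm (f : J → Finset V) : Prop :=
  Disj f ∧ ∀ j, f j = ∅ ∨ (∃ c, f j = {c} ∧ P.col j c = none) ∨ ∃ u v, f j = {u, v} ∧ P.Good j u v

/-- Number of matched agents. -/
def mA (m : Nd J V → Nd J V) : ℕ := (univ.filter fun j : J => m (ag j) ≠ ag j).card
/-- Number of matched vertices. -/
def mV (m : Nd J V → Nd J V) : ℕ := (univ.filter fun v : V => m (vx v) ≠ vx v).card
/-- Number of vertices matched to vertices. -/
def vv (m : Nd J V → Nd J V) : ℕ :=
  (univ.filter fun v : V => ∃ u, u ≠ v ∧ m (vx v) = vx u).card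
/-- Agents matched to a non-C vertex. -/
def NC (m : Nd J V → Nd J V) : Finset J :=
  univ.filter fun j : J => ∃ v, m (ag j) = vx v ∧ P.col j v ≠ none
/-- Agents matched to their dummy. -/
def DU (m : Nd J V → Nd J V) : Finset J := univ.filter fun j : J => m (ag j) = dm j

variable {P}

theorem card_filter_nd (p : Nd J V → Prop) [DecidablePred p] :
    (univ.filter p).card = (univ.filter fun j : J => p (ag j)).card +
      (univ.filter fun v : V => p (vx v)).card + (univ.filter fun j : J => p (dm j)).card := by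
  simp only [card_filter, Fintype.sum_sum_type]; ring

theorem mA_eq {R : Rx J V} {m : Nd J V → Nd J V} (h : IsM (P.E R) m) :
    mA m = P.cw m + (P.NC m).card + (DU m).card := by
  unfold mA cw NC DU
  simp only [card_filter, ← sum_add_distrib]
  refine sum_congr rfl fun j _ => ?_
  rcases mate_ag h j with e | ⟨v, e, _⟩ | ⟨e, _⟩
  · simp [e]
  · by_cases hc : P.col j v = none <;> simp [e, hc]
  · simp [e]

theorem mV_eq {R : Rx J V} {m : Nd J V → Nd J V} (h : IsM (P.E R) m) :
    mV m = P.cw m + (P.NC m).card + vv m := by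
  have h1 : (univ.filter fun v : V => ∃ j, m (vx v) = ag j).card =
      (univ.filter fun j : J => ∃ v, m (ag j) = vx v).card := by
    apply card_bij (fun v hv => (mem_filter.1 hv).2.choose)
    · intro v hv
      exact mem_filter.2 ⟨mem_univ _, v, IsM.flip h (mem_filter.1 hv).2.choose_spec⟩
    · intro u hu v hv e
      have a := IsM.flip h (mem_filter.1 hu).2.choose_spec
      have b := IsM.flip h (mem_filter.1 hv).2.choose_spec
      rw [e, b] at a; simpa using a.symm
    · intro j hj
      obtain ⟨v, hv⟩ := (mem_filter.1 hj).2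
      have hv' : v ∈ univ.filter fun v : V => ∃ j, m (vx v) = ag j :=
        mem_filter.2 ⟨mem_univ _, j, IsM.flip h hv⟩
      refine ⟨v, hv', ?_⟩
      have a := (mem_filter.1 hv').2.choose_spec
      exact Sum.inl.inj (a.symm.trans (IsM.flip h hv))
  have h2 : (univ.filter fun j : J => ∃ v, m (ag j) = vx v).card = P.cw m + (P.NC m).card := by
    unfold cw NC
    simp only [card_filter, ← sum_add_distrib]
    refine sum_congr rfl fun j _ => ?_
    rcases mate_ag h j with e | ⟨v, e, _⟩ | ⟨e, _⟩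
    · simp [e]
    · by_cases hc : P.col j v = none <;> simp [e, hc]
    · simp [e]
  rw [← h2, ← h1]
  unfold mV vv
  simp only [card_filter, ← sum_add_distrib]
  refine sum_congr rfl fun v _ => ?_
  rcases mate_vx h v with e | ⟨j, e, _⟩ | ⟨u, hu, e, _⟩
  · simp [e]
  · simp [e]
  · simp [e, hu]

theorem cov_eq3 {R : Rx J V} {m : Nd J V → Nd J V} (h : IsM (P.E R) m) :
    cov m = mA m + mV m + (DU m).card := by
  unfold cov mA mV DU
  rw [card_filter_nd]
  congr 2
  refine filter_congr fun j _ => ?_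
  rcases mate_dm h j with e | ⟨e, e'⟩
  · simp only [e, ne_eq, not_true_eq_false, false_iff]
    intro e'; rw [IsM.flip h e'] at e; simp at e
  · simp [e, e']

theorem cov_eq {R : Rx J V} {m : Nd J V → Nd J V} (h : IsM (P.E R) m) :
    cov m = 2 * mA m + vv m := by
  rw [cov_eq3 h, mV_eq h, mA_eq h]; ring

theorem wt2_eq {R : Rx J V} {m : Nd J V → Nd J V} (h : IsM (P.E R) m) (l : ℕ) :
    wt2 (P.om l) m = (l + 1) * cov m + 2 * P.cw m := by
  have h1 : (univ.filter fun v : V => ∃ j, m (vx v) = ag j ∧ P.col j v = none).card = P.cw m := by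
    unfold cw
    apply card_bij (fun v hv => (mem_filter.1 hv).2.choose)
    · intro v hv
      exact mem_filter.2 ⟨mem_univ _, v, IsM.flip h (mem_filter.1 hv).2.choose_spec.1,
        (mem_filter.1 hv).2.choose_spec.2⟩
    · intro u hu v hv e
      have a := IsM.flip h (mem_filter.1 hu).2.choose_spec.1
      have b := IsM.flip h (mem_filter.1 hv).2.choose_spec.1
      rw [e, b] at a; simpa using a.symm
    · intro j hj
      obtain ⟨v, hv, hc⟩ := (mem_filter.1 hj).2
      have hv' : v ∈ univ.filter fun v : V => ∃ j, m (vx v) = ag j ∧ P.col j v = none :=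
        mem_filter.2 ⟨mem_univ _, j, IsM.flip h hv, hc⟩
      refine ⟨v, hv', ?_⟩
      have a := (mem_filter.1 hv').2.choose_spec.1
      exact Sum.inl.inj (a.symm.trans (IsM.flip h hv))
  rw [two_mul (P.cw m)]
  nth_rewrite 2 [← h1]
  unfold wt2 cov cw
  simp only [card_filter, Fintype.sum_sum_type, mul_add, mul_sum]
  have a : ∀ j : J, (if m (ag j) = ag j then 0 else P.om l (ag j) (m (ag j))) =
      (l + 1) * (if m (ag j) ≠ ag j then 1 else 0) +
        if ∃ v, m (ag j) = vx v ∧ P.col j v = none then 1 else 0 := by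
    intro j
    rcases mate_ag h j with e | ⟨v, e, _⟩ | ⟨e, _⟩
    · simp [e]
    · by_cases hc : P.col j v = none <;> simp [e, hc, om]
    · simp [e, om]
  have b : ∀ v : V, (if m (vx v) = vx v then 0 else P.om l (vx v) (m (vx v))) =
      (l + 1) * (if m (vx v) ≠ vx v then 1 else 0) +
        if ∃ j, m (vx v) = ag j ∧ P.col j v = none then 1 else 0 := by
    intro v
    rcases mate_vx h v with e | ⟨j, e, _⟩ | ⟨u, hu, e, _⟩
    · simp [e]
    · by_cases hc : P.col j v = none <;> simp [e, hc, om]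
    · simp [e, hu, om]
  have c : ∀ j : J, (if m (dm j) = dm j then 0 else P.om l (dm j) (m (dm j))) =
      (l + 1) * (if m (dm j) ≠ dm j then 1 else 0) := by
    intro j
    rcases mate_dm h j with e | ⟨e, _⟩
    · simp [e]
    · simp [e, om]
  simp only [a, b, c, sum_add_distrib]; ring

end AP

end Pool.Agent.Lib.MP_ef7581_lc
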