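import Mathlib
import Pool.Agent.Lib.MP_ef7581_lc.St

/-!
Normal forms, images of states, partial solutions in the critical case.
-/

set_option autoImplicit false
set_option linter.unusedSectionVars false

namespace Pool.Agent.Lib.MP_ef7581_lc

open Finset

namespace AP

variable {J V : Type} {P : AP J V} [Fintype J] [Fintype V] [DecidableEq J] [DecidableEq V]

/-- The free vertices of a state. -/
def free (f : J → Finset V) : Finset V := univ.filter fun v => ∀ j, v ∉ f j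

theorem mem_free {f : J → Finset V} {v : V} : v ∈ free f ↔ ∀ j, v ∉ f j := by simp [free]

theorem card_free {f : J → Finset V} (h : Disj f) :
    (free f).card + ∑ j, (f j).card = Fintype.card V := by
  rw [← card_biUnion (fun i _ j _ e => h i j e), ← card_univ,
    ← card_filter_add_card_filter_not (s := univ) (fun v => ∀ j, v ∉ f j)]
  congr 2
  ext v; simp

theorem exists_norm {f : J → Finset V} (h : Disj f) : ∃ g, P.Norm g ∧ (∀ j, g j ⊆ f j) ∧
    (∀ j, P.Serv j (f j) → P.Serv j (g j)) ∧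
    ∀ j, (∃ c ∈ f j, P.col j c = none) → ∃ c ∈ g j, P.col j c = none := by
  have : ∀ j, ∃ s : Finset V, s ⊆ f j ∧
      (s = ∅ ∨ (∃ c, s = {c} ∧ P.col j c = none) ∨ ∃ u v, s = {u, v} ∧ P.Good j u v) ∧
      (P.Serv j (f j) → P.Serv j s) ∧
      ((∃ c ∈ f j, P.col j c = none) → ∃ c ∈ s, P.col j c = none) := by
    intro j
    by_cases hc : ∃ c ∈ f j, P.col j c = none
    · obtain ⟨c, hc, hn⟩ := hc
      exact ⟨{c}, by simpa using hc, Or.inr (Or.inl ⟨c, rfl, hn⟩),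
        fun _ => serv_C (mem_singleton_self c) hn, fun _ => ⟨c, mem_singleton_self c, hn⟩⟩
    by_cases hs : P.Serv j (f j)
    · obtain ⟨u, hu, v, hv, hg⟩ := hs.cases.resolve_left hc
      refine ⟨{u, v}, ?_, Or.inr (Or.inr ⟨u, v, rfl, hg⟩), fun _ => hg.serv (by simp) (by simp),
        fun h => absurd h hc⟩
      intro x hx; simp only [mem_insert, mem_singleton] at hx; rcases hx with rfl | rfl <;> assumption
    · exact ⟨∅, empty_subset _, Or.inl rfl, fun h => absurd h hs, fun h => absurd h hc⟩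
  choose g h1 h2 h3 h4 using this
  exact ⟨g, ⟨fun i j e => disjoint_of_subset_left (h1 i) (disjoint_of_subset_right (h1 j)
    (h i j e)), h2⟩, h1, h3, h4⟩

theorem Norm.card {f : J → Finset V} (h : P.Norm f) :
    (free f).card + 2 * P.sv f = Fintype.card V + P.cf f := by
  classical
  rw [← card_free h.1, add_assoc]
  congr 1
  unfold sv cf
  simp only [card_filter, mul_sum, ← sum_add_distrib]
  refine sum_congr rfl fun j _ => ?_
  rcases h.2 j with e | ⟨c, e, hc⟩ | ⟨u, v, e, hg⟩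
  · simp [e, not_serv_empty]
  · have : P.Serv j {c} := serv_C (mem_singleton_self c) hc
    simp [e, this, hc]
  · have : P.Serv j {u, v} := hg.serv (by simp) (by simp)
    simp [e, this, hg.1, hg.2.1, card_pair hg.ne]

theorem Norm.serv_iff {f : J → Finset V} (h : P.Norm f) (j : J) : P.Serv j (f j) ↔ f j ≠ ∅ := by
  rcases h.2 j with e | ⟨c, e, hc⟩ | ⟨u, v, e, hg⟩
  · simp [e, not_serv_empty]
  · have : P.Serv j {c} := serv_C (mem_singleton_self c) hc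
    simp [e, this]
  · have : P.Serv j {u, v} := hg.serv (by simp) (by simp)
    simp [e, this]

/-- How a state `f` is represented by the matching `μ`. -/
structure Img (P : AP J V) (f : J → Finset V) (μ : Nd J V → Nd J V)
    (Q2 Q3 Q4 : J → V → V → Prop) : Prop where
  cases : ∀ j, (f j = ∅ ∧ μ (ag j) = ag j) ∨
    (∃ c, f j = {c} ∧ P.col j c = none ∧ μ (ag j) = vx c) ∨
    (∃ u v, f j = {u, v} ∧ P.Good j u v ∧ Q2 j u v ∧ μ (ag j) = vx v ∧ μ (vx u) = vx u) ∨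
    (∃ u v, f j = {u, v} ∧ P.Good j u v ∧ Q3 j u v ∧ μ (ag j) = ag j ∧ μ (vx u) = vx v) ∨
    (∃ u v, f j = {u, v} ∧ P.Good j u v ∧ Q4 j u v ∧ μ (ag j) = dm j ∧ μ (vx u) = vx u ∧
      μ (vx v) = vx v)
  used : ∀ v, μ (vx v) ≠ vx v → ∃ j, v ∈ f j
  cov : cov μ = 2 * P.sv f
  cw : P.cw μ = P.cf f

theorem exists_img {f : J → Finset V} (h : P.Norm f) (R : Rx J V) (Q2 Q3 Q4 : J → V → V → Prop)
    (ch : ∀ j u v, f j = {u, v} → P.Good j u v → ∃ u' v', f j = {u', v'} ∧ P.Good j u' v' ∧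
      ((Q2 j u' v' ∧ R.nc j v') ∨ (Q3 j u' v' ∧ (R.pe u' v' ∨ R.pe v' u')) ∨
        (Q4 j u' v' ∧ R.du j))) :
    ∃ μ, IsM (P.E R) μ ∧ Img P f μ Q2 Q3 Q4 := by
  classical
  have : ∀ j, ∃ a b : Nd J V, (f j = ∅ ∧ a = ag j ∧ b = ag j) ∨
      (∃ c, f j = {c} ∧ P.col j c = none ∧ a = ag j ∧ b = vx c) ∨
      (∃ u v, f j = {u, v} ∧ P.Good j u v ∧ Q2 j u v ∧ R.nc j v ∧ a = ag j ∧ b = vx v) ∨
      (∃ u v, f j = {u, v} ∧ P.Good j u v ∧ Q3 j u v ∧ (R.pe u v ∨ R.pe v u) ∧ a = vx u ∧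
        b = vx v) ∨
      (∃ u v, f j = {u, v} ∧ P.Good j u v ∧ Q4 j u v ∧ R.du j ∧ a = ag j ∧ b = dm j) := by
    intro j
    rcases h.2 j with e | ⟨c, e, hc⟩ | ⟨u, v, e, hg⟩
    · exact ⟨_, _, Or.inl ⟨e, rfl, rfl⟩⟩
    · exact ⟨_, _, Or.inr (Or.inl ⟨c, e, hc, rfl, rfl⟩)⟩
    · obtain ⟨u, v, e, hg, h2 | h3 | h4⟩ := ch j u v e hg
      · exact ⟨_, _, Or.inr (Or.inr (Or.inl ⟨u, v, e, hg, h2.1, h2.2, rfl, rfl⟩))⟩
      · exact ⟨_, _, Or.inr (Or.inr (Or.inr (Or.inl ⟨u, v, e, hg, h3.1, h3.2, rfl, rfl⟩)))⟩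
      · exact ⟨_, _, Or.inr (Or.inr (Or.inr (Or.inr ⟨u, v, e, hg, h4.1, h4.2, rfl, rfl⟩)))⟩
  choose a b hab using this
  let blk : Nd J V → J → Prop := fun x j => x = ag j ∨ x = dm j ∨ ∃ v ∈ f j, x = vx v
  have hblk : ∀ x i j, blk x i → blk x j → i = j := by
    rintro x i j (rfl | rfl | ⟨v, hv, rfl⟩) (e | e | ⟨u, hu, e⟩) <;> simp at e
    · exact e
    · exact e
    · subst e; exact h.1.eq hv hu
  have ha : ∀ j, blk (a j) j := by
    intro j
    rcases hab j with ⟨_, e, _⟩ | ⟨c, _, _, e, _⟩ | ⟨u, v, _, _, _, _, e, _⟩ |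
      ⟨u, v, e', _, _, _, e, _⟩ | ⟨u, v, _, _, _, _, e, _⟩ <;> simp [blk, e]
    simp [e']
  have hb : ∀ j, blk (b j) j := by
    intro j
    rcases hab j with ⟨_, _, e⟩ | ⟨c, e', _, _, e⟩ | ⟨u, v, e', _, _, _, _, e⟩ |
      ⟨u, v, e', _, _, _, _, e⟩ | ⟨u, v, _, _, _, _, _, e⟩ <;> simp [blk, e]
    all_goals simp [e']
  obtain ⟨μ, h1, h2, h3⟩ := exists_mate a b blk hblk univ (fun j _ => ha j) (fun j _ => hb j)
  have fix : ∀ x j, blk x j → x ≠ a j → x ≠ b j → μ x = x := by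
    intro x j hx e1 e2
    by_contra hn
    obtain ⟨i, _, e | e⟩ := h3 x hn
    · exact e1 (hblk x i j (e ▸ ha i) hx ▸ e)
    · exact e2 (hblk x i j (e ▸ hb i) hx ▸ e)
  have hM : IsM (P.E R) μ := by
    refine ⟨h1, fun x hx => ?_⟩
    obtain ⟨j, _, e⟩ := h3 x hx
    have key : a j ≠ b j → P.E R (a j) (b j) := by
      rcases hab j with ⟨_, e1, e2⟩ | ⟨c, _, hc, e1, e2⟩ | ⟨u, v, _, _, _, hn, e1, e2⟩ |
        ⟨u, v, e', _, _, hn, e1, e2⟩ | ⟨u, v, _, _, _, hn, e1, e2⟩ <;> rw [e1, e2] <;> intro hne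
      · exact absurd rfl hne
      · exact Or.inl hc
      · exact Or.inr hn
      · exact hn
      · exact ⟨rfl, hn⟩
    rcases e with rfl | rfl
    · rw [(h2 j (mem_univ _)).1] at hx ⊢; exact key hx.symm
    · rw [(h2 j (mem_univ _)).2] at hx ⊢; exact E_symm R (key hx)
  have hcases : ∀ j, (f j = ∅ ∧ μ (ag j) = ag j) ∨
    (∃ c, f j = {c} ∧ P.col j c = none ∧ μ (ag j) = vx c) ∨
    (∃ u v, f j = {u, v} ∧ P.Good j u v ∧ Q2 j u v ∧ μ (ag j) = vx v ∧ μ (vx u) = vx u) ∨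
    (∃ u v, f j = {u, v} ∧ P.Good j u v ∧ Q3 j u v ∧ μ (ag j) = ag j ∧ μ (vx u) = vx v) ∨
    (∃ u v, f j = {u, v} ∧ P.Good j u v ∧ Q4 j u v ∧ μ (ag j) = dm j ∧ μ (vx u) = vx u ∧
      μ (vx v) = vx v) := by
    intro j
    have e0 := (h2 j (mem_univ _)).1
    rcases hab j with ⟨e, e1, e2⟩ | ⟨c, e, hc, e1, e2⟩ | ⟨u, v, e, hg, hq, hn, e1, e2⟩ |
        ⟨u, v, e, hg, hq, hn, e1, e2⟩ | ⟨u, v, e, hg, hq, hn, e1, e2⟩ <;> rw [e1, e2] at e0
    · exact Or.inl ⟨e, e0⟩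
    · exact Or.inr (Or.inl ⟨c, e, hc, e0⟩)
    · exact Or.inr (Or.inr (Or.inl ⟨u, v, e, hg, hq, e0,
        fix _ j (by simp [blk, e]) (by simp [e1]) (by simpa [e2] using hg.ne)⟩))
    · exact Or.inr (Or.inr (Or.inr (Or.inl ⟨u, v, e, hg, hq,
        fix _ j (by simp [blk]) (by simp [e1]) (by simp [e2]), e0⟩)))
    · exact Or.inr (Or.inr (Or.inr (Or.inr ⟨u, v, e, hg, hq, e0,
        fix _ j (by simp [blk, e]) (by simp [e1]) (by simp [e2]),
        fix _ j (by simp [blk, e]) (by simp [e1]) (by simp [e2])⟩)))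
  refine ⟨μ, hM, hcases, ?_, ?_, ?_⟩
  · intro v hv
    obtain ⟨j, _, e | e⟩ := h3 _ hv
    · have := ha j; rw [← e] at this; exact ⟨j, by simpa [blk] using this⟩
    · have := hb j; rw [← e] at this; exact ⟨j, by simpa [blk] using this⟩
  · have e1 : (univ.filter fun x => μ x ≠ x) =
        (univ.filter fun j => P.Serv j (f j)).biUnion fun j => {a j, b j} := by
      ext x
      simp only [mem_filter, mem_univ, true_and, mem_biUnion, mem_insert, mem_singleton]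
      have key : ∀ j, P.Serv j (f j) ↔ a j ≠ b j := by
        intro j
        rw [h.serv_iff]
        rcases hab j with ⟨e, e1, e2⟩ | ⟨c, e, hc, e1, e2⟩ | ⟨u, v, e, hg, hq, hn, e1, e2⟩ |
          ⟨u, v, e, hg, hq, hn, e1, e2⟩ | ⟨u, v, e, hg, hq, hn, e1, e2⟩ <;> simp [e, e1, e2]
        exact hg.ne
      constructor
      · intro hx
        obtain ⟨j, _, e⟩ := h3 x hx
        refine ⟨j, (key j).2 fun e' => hx ?_, e⟩
        rcases e with rfl | rfl
        · rw [(h2 j (mem_univ _)).1, e']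
        · rw [(h2 j (mem_univ _)).2, e']
      · rintro ⟨j, hj, rfl | rfl⟩
        · rw [(h2 j (mem_univ _)).1]; exact ((key j).1 hj).symm
        · rw [(h2 j (mem_univ _)).2]; exact (key j).1 hj
    unfold Pool.Agent.Lib.MP_ef7581_lc.cov sv
    rw [e1, card_biUnion, mul_comm, ← smul_eq_mul, ← sum_const]
    · refine sum_congr (by congr) fun j hj => card_pair ?_
      have hj := (mem_filter.1 hj).2
      rw [h.serv_iff] at hj
      rcases hab j with ⟨e, e1, e2⟩ | ⟨c, e, hc, e1, e2⟩ | ⟨u, v, e, hg, hq, hn, e1, e2⟩ |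
          ⟨u, v, e, hg, hq, hn, e1, e2⟩ | ⟨u, v, e, hg, hq, hn, e1, e2⟩ <;> simp [e1, e2]
      · exact hj e
      · exact hg.ne
    · intro i _ j _ hij
      rw [Function.onFun, disjoint_left]
      intro x hi hj
      simp only [mem_insert, mem_singleton] at hi hj
      apply hij
      apply hblk x
      · rcases hi with rfl | rfl; exacts [ha i, hb i]
      · rcases hj with rfl | rfl; exacts [ha j, hb j]
  · unfold AP.cw cf
    congr 1
    refine filter_congr fun j _ => ?_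
    rcases hcases j with ⟨e, e0⟩ | ⟨c, e, hc, e0⟩ | ⟨u, v, e, hg, _, e0, _⟩ |
        ⟨u, v, e, hg, _, e0, _⟩ | ⟨u, v, e, hg, _, e0, _⟩
    · simp [e, e0]
    · simp [e, e0]
    · simp [e, e0, hg.1, hg.2.1]
    · simp [e, e0, hg.1, hg.2.1]
    · simp [e, e0, hg.1, hg.2.1]

end AP

end Pool.Agent.Lib.MP_ef7581_lc
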