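import Mathlib
import Pool.Agent.Lib.MP_ef7581_lc.Img

/-!
Partial solutions `PS f A S` (all agents outside `A` are served without using `S`), their normal
form in the critical case, and the gadget.
-/

set_option autoImplicit false
set_option linter.unusedSectionVars false

namespace Pool.Agent.Lib.MP_ef7581_lc

open Finset

namespace AP

variable {J V : Type} {P : AP J V} [Fintype J] [Fintype V] [DecidableEq J] [DecidableEq V]

/-- All agents outside `A` are served by disjoint sets avoiding `S`. -/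
structure PS (P : AP J V) (f : J → Finset V) (A : Finset J) (S : Finset V) : Prop where
  disj : ∀ i j v, i ∉ A → j ∉ A → v ∈ f i → v ∈ f j → i = j
  serv : ∀ j, j ∉ A → P.Serv j (f j)
  avoid : ∀ j v, j ∉ A → v ∈ S → v ∉ f j

/-- Two agents and four vertices that block each other. -/
def Gadget (P : AP J V) : Prop :=
  ∃ f i j x y e e', i ≠ j ∧ P.PS f {i, j} {x, y, e, e'} ∧ P.H x y ∧ P.col i x ≠ none ∧
    P.col j x ≠ none ∧ P.col i e = P.col i x ∧ P.col i e' = P.col i y ∧
    P.col j e = P.col j y ∧ P.col j e' = P.col j x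

theorem PS.mono {f : J → Finset V} {A A' : Finset J} {S S' : Finset V} (h : P.PS f A S)
    (hA : ∀ j ∈ A, j ∈ A') (hS : ∀ v ∈ S', v ∈ S) : P.PS f A' S' :=
  ⟨fun i j v hi hj => h.disj i j v (fun e => hi (hA i e)) (fun e => hj (hA j e)),
    fun j hj => h.serv j fun e => hj (hA j e),
    fun j v hj hv => h.avoid j v (fun e => hj (hA j e)) (hS v hv)⟩

theorem PS.feasible {f : J → Finset V} {S : Finset V} (h : P.PS f ∅ S) : P.Feasible :=
  ⟨f, disj_of fun i j v => h.disj i j v (by simp) (by simp), fun j => h.serv j (by simp)⟩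

/-- Release the vertices of `j`. -/
theorem PS.unserve {f : J → Finset V} {A : Finset J} {S : Finset V} (h : P.PS f A S) {j : J}
    (hj : j ∉ A) : P.PS f (insert j A) (f j ∪ S) := by
  refine ⟨fun i i' v hi hi' => h.disj i i' v (fun e => hi (mem_insert_of_mem e))
    (fun e => hi' (mem_insert_of_mem e)), fun i hi => h.serv i fun e => hi (mem_insert_of_mem e),
    fun i v hi hv => ?_⟩
  rw [mem_insert, not_or] at hi
  rcases mem_union.1 hv with hv | hv
  · exact fun e => hi.1 (h.disj i j v hi.2 hj e hv)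
  · exact h.avoid i v hi.2 hv

/-- Serve `j` by `s`. -/
theorem PS.serve {f : J → Finset V} {A : Finset J} {S : Finset V} (h : P.PS f A S) {j : J}
    {s : Finset V} (hs : ∀ v ∈ s, v ∈ S) (hj : P.Serv j s) {A' : Finset J} {S' : Finset V}
    (hA : ∀ i ∈ A, i = j ∨ i ∈ A') (hS : ∀ v ∈ S', v ∈ S ∧ v ∉ s) :
    P.PS (Function.update f j s) A' S' := by
  have hA' : ∀ i, i ∉ A' → i ≠ j → i ∉ A := fun i h1 h2 e => (hA i e).elim h2 h1
  refine ⟨fun i i' v hi hi' => ?_, fun i hi => ?_, fun i v hi hv => ?_⟩
  · by_cases e : i = j <;> by_cases e' : i' = j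
    · intros; rw [e, e']
    · subst e; rw [Function.update_self, Function.update_of_ne e']
      exact fun h1 h2 => absurd h2 (h.avoid i' v (hA' i' hi' e') (hs v h1))
    · subst e'; rw [Function.update_self, Function.update_of_ne e]
      exact fun h1 h2 => absurd h1 (h.avoid i v (hA' i hi e) (hs v h2))
    · rw [Function.update_of_ne e', Function.update_of_ne e]
      exact h.disj i i' v (hA' i hi e) (hA' i' hi' e')
  · by_cases e : i = j
    · subst e; rwa [Function.update_self]
    · rw [Function.update_of_ne e]; exact h.serv i (hA' i hi e)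
  · by_cases e : i = j
    · subst e; rw [Function.update_self]; exact (hS v hv).2
    · rw [Function.update_of_ne e]; exact h.avoid i v (hA' i hi e) (hS v hv).1

/-- Serve `j` by a good pair. -/
theorem PS.serve2 {f : J → Finset V} {A : Finset J} {S : Finset V} (h : P.PS f A S) {j : J}
    {u v : V} (hu : u ∈ S) (hv : v ∈ S) (hj : P.Good j u v) {A' : Finset J} {S' : Finset V}
    (hA : ∀ i ∈ A, i = j ∨ i ∈ A') (hS : ∀ x ∈ S', x ∈ S ∧ x ≠ u ∧ x ≠ v) :
    P.PS (Function.update f j {u, v}) A' S' :=
  h.serve (fun x hx => by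
      simp only [mem_insert, mem_singleton] at hx; rcases hx with rfl | rfl <;> assumption)
    (hj.serv (by simp) (by simp)) hA (fun x hx => ⟨(hS x hx).1, by simpa using (hS x hx).2⟩)

/-- One agent left, a good pair free. -/
theorem PS.sol1 {f : J → Finset V} {S : Finset V} {i : J} (h : P.PS f {i} S) {u v : V}
    (hu : u ∈ S) (hv : v ∈ S) (hi : P.Good i u v) : P.Feasible :=
  (h.serve2 hu hv hi (A' := ∅) (S' := ∅) (by simp) (by simp)).feasible

/-- Two agents left, two disjoint good pairs free. -/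
theorem PS.sol2 {f : J → Finset V} {A : Finset J} {S : Finset V} (h : P.PS f A S) {i j : J}
    (hA : ∀ a ∈ A, a = i ∨ a = j) {u v u' v' : V} (hu : u ∈ S) (hv : v ∈ S) (hu' : u' ∈ S)
    (hv' : v' ∈ S) (hi : P.Good i u v) (hj : P.Good j u' v') (d1 : u' ≠ u) (d2 : u' ≠ v)
    (d3 : v' ≠ u) (d4 : v' ≠ v) : P.Feasible :=
  (h.serve2 hu hv hi (A' := {j}) (S' := {u', v'}) (by simpa using hA)
    (by simp [*])).sol1 (by simp) (by simp) hj

/-- Three agents left, three disjoint good pairs free. -/
theorem PS.sol3 {f : J → Finset V} {A : Finset J} {S : Finset V} (h : P.PS f A S) {i j m : J}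
    (hA : ∀ a ∈ A, a = i ∨ a = j ∨ a = m) {u v u' v' u'' v'' : V} (hu : u ∈ S) (hv : v ∈ S)
    (hu' : u' ∈ S) (hv' : v' ∈ S) (hu'' : u'' ∈ S) (hv'' : v'' ∈ S) (hi : P.Good i u v)
    (hj : P.Good j u' v') (hm : P.Good m u'' v'') (d : List.Pairwise (· ≠ ·) [u, v, u', v', u'', v'']) :
    P.Feasible := by
  simp only [List.pairwise_cons, List.mem_cons, List.not_mem_nil, or_false, forall_eq_or_imp,
    forall_eq] at d
  obtain ⟨⟨_, a1, a2, a3, a4⟩, ⟨b1, b2, b3, b4⟩, ⟨_, c1, c2⟩, ⟨c3, c4⟩, _⟩ := d
  exact (h.serve2 hu hv hi (A' := {j, m}) (S' := {u', v', u'', v''}) (by simpa using hA)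
    (by simp [*, a1.symm, a2.symm, a3.symm, a4.symm, b1.symm, b2.symm, b3.symm, b4.symm])).sol2
    (i := j) (j := m) (by simp) (by simp) (by simp) (by simp) (by simp) hj hm c1.symm c3.symm
    c2.symm c4.symm

/-- Normal form of a tight partial solution in the critical case. -/
structure Tight (P : AP J V) (f : J → Finset V) (A : Finset J) (S : Finset V)
    (η : Nd J V → Nd J V) : Prop where
  maxC : P.MaxC η
  card : S.card = 2 * A.card
  cover : ∀ v, v ∈ S ∨ ∃ j, j ∉ A ∧ v ∈ f j
  inA : ∀ j ∈ A, η (ag j) = ag j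
  inS : ∀ v ∈ S, η (vx v) = vx v
  cases : ∀ j, j ∉ A → (∃ c, f j = {c} ∧ P.col j c = none ∧ η (ag j) = vx c) ∨
    ∃ u v, f j = {u, v} ∧ P.Good j u v ∧ η (ag j) = ag j ∧ η (vx u) = vx u ∧ η (vx v) = vx v
  size : cov η + 2 * Fintype.card V = 4 * Fintype.card J

theorem PS.tight {f : J → Finset V} {A : Finset J} {S : Finset V} (h : P.PS f A S) (hc : P.Crit)
    (hS : 2 * A.card ≤ S.card) : ∃ η, Tight P f A S η := by
  classical
  have d0 : Disj (fun j => if j ∈ A then ∅ else f j) := by
    refine disj_of fun i j v hi hj => ?_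
    by_cases e : i ∈ A
    · simp [e] at hi
    by_cases e' : j ∈ A
    · simp [e'] at hj
    simp only [e, e', if_false] at hi hj
    exact h.disj i j v e e' hi hj
  obtain ⟨g, hg, g1, g2, g3⟩ := exists_norm (P := P) d0
  have gA : ∀ j ∈ A, g j = ∅ := fun j hj => by simpa [hj] using g1 j
  have gf : ∀ j, j ∉ A → g j ⊆ f j := fun j hj => by simpa [hj] using g1 j
  have gs : ∀ j, j ∉ A → P.Serv j (g j) := fun j hj => g2 j (by simpa [hj] using h.serv j hj)
  have hsv : P.sv g + A.card = Fintype.card J := by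
    unfold sv
    rw [← card_univ, ← card_filter_add_card_filter_not (s := univ) (fun j => P.Serv j (g j))]
    congr 2
    ext j
    simp only [mem_filter, mem_univ, true_and]
    exact ⟨fun hj => by rw [gA j hj]; exact not_serv_empty j, fun hj => by_contra fun e => hj (gs j e)⟩
  have hfree : S ⊆ free g := by
    intro v hv
    rw [mem_free]
    intro j
    by_cases e : j ∈ A
    · simp [gA j e]
    · exact fun e' => h.avoid j v e hv (gf j e e')
  let g' : J → Finset V := fun j => if ∃ c ∈ g j, P.col j c = none then g j else ∅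
  have hg' : P.Norm g' := by
    refine ⟨disj_of fun i j v hi hj => ?_, fun j => ?_⟩
    · have sub : ∀ j, g' j ⊆ g j := fun j => by simp only [g']; split_ifs <;> simp
      exact hg.1.eq (sub i hi) (sub j hj)
    · simp only [g']; split_ifs
      · exact hg.2 j
      · exact Or.inl rfl
  obtain ⟨η, hη, im⟩ := exists_img hg' (R0 J V) (fun _ _ _ => False) (fun _ _ _ => False)
    (fun _ _ _ => False) (by
      intro j u v e hgd
      exfalso
      simp only [g'] at e
      split_ifs at e with hh
      · rw [e] at hh; simp [hgd.1, hgd.2.1] at hh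
      · exact absurd e.symm (by simp))
  have hsv' : P.sv g' = P.cf g := by
    unfold sv cf
    congr 1
    refine filter_congr fun j _ => ?_
    simp only [g']; split_ifs with hh
    · simp only [hh, iff_true]; obtain ⟨c, hc, hn⟩ := hh; exact serv_C hc hn
    · simp only [hh, iff_false]; exact not_serv_empty j
  have c1 := hc η hη
  have c2 := im.cov
  have c3 := hg.card
  have c4 := card_le_card hfree
  have hSe : S = free g := eq_of_subset_of_card_le hfree (by omega)
  have fg : ∀ j, j ∉ A → f j = g j := by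
    intro j hj
    refine Subset.antisymm (fun v hv => ?_) (gf j hj)
    by_contra hn
    refine h.avoid j v hj ?_ hv
    rw [hSe, mem_free]
    intro i hi
    by_cases e : i ∈ A
    · simp [gA i e] at hi
    · exact hn (h.disj i j v e hj (gf i e hi) hv ▸ hi)
  have unc : ∀ v, (∀ j, v ∉ g' j) → η (vx v) = vx v := fun v hv => by
    by_contra e; obtain ⟨j, hj⟩ := im.used v e; exact hv j hj
  have em : ∀ j, g' j = ∅ → η (ag j) = ag j := by
    intro j e
    rcases im.cases j with ⟨_, e0⟩ | ⟨c, e', _⟩ | ⟨u, v, _, _, h, _⟩ | ⟨u, v, _, _, h, _⟩ |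
      ⟨u, v, _, _, h, _⟩
    · exact e0
    · rw [e] at e'; exact absurd e'.symm (by simp)
    all_goals exact h.elim
  have sub : ∀ j, g' j ⊆ g j := fun j => by simp only [g']; split_ifs <;> simp
  refine ⟨η, ⟨hη, fun m' hm' => ?_⟩, by omega, fun v => ?_, fun j hj => em j ?_, fun v hv => ?_,
    fun j hj => ?_, by omega⟩
  · have := hc m' hm'; omega
  · by_cases e : v ∈ S
    · exact Or.inl e
    · rw [hSe, mem_free] at e
      push Not at e
      obtain ⟨j, hj⟩ := e
      have hA : j ∉ A := fun e => by simp [gA j e] at hj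
      exact Or.inr ⟨j, hA, gf j hA hj⟩
  · simp [g', gA j hj]
  · rw [hSe, mem_free] at hv
    exact unc v fun j e => hv j (sub j e)
  · rw [fg j hj]
    rcases hg.2 j with e | ⟨c, e, hn⟩ | ⟨u, v, e, hgd⟩
    · exact absurd (e ▸ gs j hj) (not_serv_empty j)
    · left
      have e1 : g' j = {c} := by simp [g', e, hn]
      rcases im.cases j with ⟨e', _⟩ | ⟨c', e', _, e0⟩ | ⟨u, v, _, _, h, _⟩ | ⟨u, v, _, _, h, _⟩ |
        ⟨u, v, _, _, h, _⟩
      · rw [e1] at e'; exact absurd e' (by simp)
      · rw [e1, singleton_inj] at e'; subst e'; exact ⟨c, e, hn, e0⟩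
      all_goals exact h.elim
    · right
      have e1 : g' j = ∅ := by simp [g', e, hgd.1, hgd.2.1]
      have u0 : ∀ x ∈ g j, η (vx x) = vx x := fun x hx => unc x fun i hi => by
        have := hg.1.eq (sub i hi) hx
        subst this; rw [e1] at hi; simp at hi
      exact ⟨u, v, e, hgd, em j e1, u0 u (by simp [e]), u0 v (by simp [e])⟩

end AP

end Pool.Agent.Lib.MP_ef7581_lc
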