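import Mathlib
import Pool.Agent.Lib.MP_ef7581_lc.Crit
import Pool.Agent.Lib.MP_ef7581_lc.DM

/-!
Gadget analysis, part 1: Boolean colours, local exchange lemmas, the case of two `H`-edges.
-/

set_option autoImplicit false
set_option linter.unusedSectionVars false

namespace Pool.Agent.Lib.MP_ef7581_lc

open Finset

namespace AP

variable {J V : Type} {P : AP J V} [Fintype J] [Fintype V] [DecidableEq J] [DecidableEq V]

/-- Two-valued colour. -/
def bc (P : AP J V) (j : J) (v : V) : Fin 2 := if P.col j v = some true then 1 else 0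

theorem bc_of_col {j : J} {u v : V} (h : P.col j u = P.col j v) : P.bc j u = P.bc j v := by
  unfold bc; rw [h]

theorem col_iff' {j : J} {u v : V} (hu : P.col j u ≠ none) (hv : P.col j v ≠ none) :
    P.col j u = P.col j v ↔ P.bc j u = P.bc j v := by
  refine ⟨bc_of_col, ?_⟩
  unfold bc
  rcases h1 : P.col j u with _ | _ | _ <;> rcases h2 : P.col j v with _ | _ | _ <;> simp_all

theorem col_iff {j : J} {u v : V} (hj : P.JD j) (hu : P.W u) (hv : P.W v) :
    P.col j u = P.col j v ↔ P.bc j u = P.bc j v := col_iff' (dm0 hj hu) (dm0 hj hv)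

theorem good_of {j : J} {u v : V} (hj : P.JD j) (hu : P.W u) (hv : P.W v)
    (h : P.bc j u ≠ P.bc j v) (hH : ¬ P.H u v) : P.Good j u v :=
  ⟨dm0 hj hu, dm0 hj hv, fun e => h (bc_of_col e), hH⟩

theorem Good.bc_ne {j : J} {u v : V} (h : P.Good j u v) : P.bc j u ≠ P.bc j v := fun e =>
  h.2.2.1 ((col_iff' h.1 h.2.1).2 e)

theorem H_bc {j : J} {u v : V} (hj : P.JD j) (hu : P.W u) (hv : P.W v) (h : P.H u v) :
    P.bc j u ≠ P.bc j v := fun e => P.compat j u v h (dm0 hj hu) ((col_iff hj hu hv).2 e)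

theorem nH_same {j : J} {u v : V} (hj : P.JD j) (hu : P.W u) (hv : P.W v)
    (h : P.bc j u = P.bc j v) : ¬ P.H u v := fun e => H_bc hj hu hv e h

theorem ne_bc {j : J} {u v : V} (h : P.bc j u ≠ P.bc j v) : u ≠ v := fun e => h (e ▸ rfl)

theorem nH_symm {u v : V} (h : ¬ P.H u v) : ¬ P.H v u := fun e => h (P.symm _ _ e)

/-- Same colour for all deficient agents. -/
def Same (P : AP J V) (u v : V) : Prop := ∀ a, P.JD a → P.bc a u = P.bc a v

/-- Different colours for all deficient agents. -/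
def Opp (P : AP J V) (u v : V) : Prop := ∀ a, P.JD a → P.bc a u ≠ P.bc a v

theorem Ks_iff {x v : V} (hx : P.W x) : P.Ks x v ↔ P.W v ∧ (P.Same v x ∨ P.Opp v x) := by
  constructor
  · rintro (⟨h1, h2⟩ | ⟨h1, h2⟩)
    · exact ⟨h1, Or.inl fun a ha => bc_of_col (h2 a ha)⟩
    · exact ⟨h1, Or.inr fun a ha e => h2 a ha ((col_iff ha h1 hx).2 e)⟩
  · rintro ⟨h1, h2 | h2⟩
    · exact Or.inl ⟨h1, fun a ha => (col_iff ha h1 hx).2 (h2 a ha)⟩
    · exact Or.inr ⟨h1, fun a ha e => h2 a ha (bc_of_col e)⟩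

theorem Ks.w {x v : V} (h : P.Ks x v) : P.W v := h.elim (·.1) (·.1)

theorem Ks_rel {x u v : V} (hx : P.W x) (hu : P.Ks x u) (hv : P.Ks x v) :
    P.Same u v ∨ P.Opp u v := by
  obtain ⟨-, h1 | h1⟩ := (Ks_iff hx).1 hu <;> obtain ⟨-, h2 | h2⟩ := (Ks_iff hx).1 hv
  · exact Or.inl fun a ha => by have := h1 a ha; have := h2 a ha; omega
  · exact Or.inr fun a ha => by have := h1 a ha; have := h2 a ha; omega
  · exact Or.inr fun a ha => by have := h1 a ha; have := h2 a ha; omega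
  · exact Or.inl fun a ha => by have := h1 a ha; have := h2 a ha; omega

theorem Ks_of_H {x u k : V} (hx : P.W x) (hu : P.W u) (hk : P.Ks x k) (h : P.H u k) :
    P.Ks x u := by
  obtain ⟨h0, h1 | h1⟩ := (Ks_iff hx).1 hk
  · exact (Ks_iff hx).2 ⟨hu, Or.inr fun a ha => by
      have := h1 a ha; have := H_bc ha hu h0 h; omega⟩
  · exact (Ks_iff hx).2 ⟨hu, Or.inl fun a ha => by
      have := h1 a ha; have := H_bc ha hu h0 h; omega⟩

theorem Ks_self {x : V} (hx : P.W x) : P.Ks x x := Or.inl ⟨hx, fun _ _ => rfl⟩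

theorem FK_nH {x u k : V} (hx : P.W x) (hu : P.Fs x u) (hk : P.Ks x k) : ¬ P.H u k :=
  fun h => hu.2 (Ks_of_H hx hu.1 hk h)

theorem FK_ne {x u k : V} (hu : P.Fs x u) (hk : P.Ks x k) : u ≠ k := fun e => hu.2 (e ▸ hk)

theorem FK_good {x u k : V} {a : J} (hx : P.W x) (ha : P.JD a) (hu : P.Fs x u) (hk : P.Ks x k)
    (h : P.bc a u ≠ P.bc a k) : P.Good a u k := good_of ha hu.1 hk.w h (FK_nH hx hu hk)

theorem Fs_of_sep {x e : V} {i j : J} (hx : P.W x) (he : P.W e) (hi : P.JD i) (hj : P.JD j)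
    (h1 : P.bc i e = P.bc i x) (h2 : P.bc j e ≠ P.bc j x) : P.Fs x e :=
  ⟨he, fun h => ((Ks_iff hx).1 h).2.elim (fun s => h2 (s j hj)) (fun s => s i hi h1)⟩

theorem ExactSol.feasible {x : V} (hx : P.W x) (h : P.ExactSol x) : P.Feasible := by
  obtain ⟨f, h1, h2⟩ := h
  refine ⟨f, h1, fun j => ?_⟩
  rcases h2 j with ⟨c, hc, e⟩ | ⟨u, hu, v, hv, a, b, e⟩
  · exact serv_C hc e
  · exact serv_of hu hv e (FK_nH hx a b)

/-- Replace the C-part of an incomplete solution by the C-edges of `m`. -/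
theorem PS.transfer {f : J → Finset V} {A : Finset J} {S : Finset V} (h : P.PS f A S)
    (U : J → Prop) {m : Nd J V → Nd J V} (hm : ∀ x, m (m x) = x)
    (hC : ∀ j, ¬ U j → ∃ c, m (ag j) = vx c ∧ P.col j c = none) (S' : Finset V)
    (hS : ∀ v ∈ S', (∀ i, m (vx v) ≠ ag i) ∧ ∀ j, U j → j ∉ A → v ∉ f j)
    (hf : ∀ j, U j → j ∉ A → ∀ v ∈ f j, ∀ i, m (vx v) ≠ ag i) : ∃ f', P.PS f' A S' := by
  classical
  choose c hc1 hc2 using hC
  have fl : ∀ j (hj : ¬ U j), m (vx (c j hj)) = ag j := fun j hj => by rw [← hc1 j hj, hm]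
  refine ⟨fun j => if hj : U j then f j else {c j hj}, fun i j v hi hj => ?_, fun j hj => ?_,
    fun j v hj hv => ?_⟩
  · by_cases ui : U i <;> by_cases uj : U j <;> simp only [ui, uj, dif_pos, dif_neg,
      not_false_eq_true, mem_singleton]
    · exact h.disj i j v hi hj
    · rintro a rfl; exact absurd (fl j uj) (hf i ui hi _ a j)
    · rintro rfl a; exact absurd (fl i ui) (hf j uj hj _ a i)
    · rintro rfl a
      have := fl j uj
      rw [← a, fl i ui] at this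
      exact Sum.inl.inj this
  · by_cases uj : U j <;> simp only [uj, dif_pos, dif_neg, not_false_eq_true]
    · exact h.serv j hj
    · exact serv_C (mem_singleton_self _) (hc2 j uj)
  · by_cases uj : U j <;> simp only [uj, dif_pos, dif_neg, not_false_eq_true, mem_singleton]
    · exact (hS v hv).2 j uj hj
    · rintro rfl; exact (hS _ hv).1 j (fl j uj)

theorem Tight.jd {f : J → Finset V} {A : Finset J} {S : Finset V} {η : Nd J V → Nd J V}
    (T : Tight P f A S η) {j : J} (h : η (ag j) = ag j) : P.JD j := ⟨η, T.maxC, h⟩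

theorem Tight.w {f : J → Finset V} {A : Finset J} {S : Finset V} {η : Nd J V → Nd J V}
    (T : Tight P f A S η) {v : V} (h : η (vx v) = vx v) : P.W v := ⟨η, T.maxC, h⟩

/-- An unmatched agent outside `A` holds a pair. -/
theorem Tight.pair {f : J → Finset V} {A : Finset J} {S : Finset V} {η : Nd J V → Nd J V}
    (T : Tight P f A S η) {j : J} (hj : j ∉ A) (h : η (ag j) = ag j) :
    ∃ u v, f j = {u, v} ∧ P.Good j u v ∧ η (vx u) = vx u ∧ η (vx v) = vx v := by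
  rcases T.cases j hj with ⟨c, -, -, e⟩ | ⟨u, v, a, b, -, c, d⟩
  · rw [h] at e; cases e
  · exact ⟨u, v, a, b, c, d⟩

/-- An unmatched vertex outside `S` lies in a pair. -/
theorem Tight.in_pair {f : J → Finset V} {A : Finset J} {S : Finset V} {η : Nd J V → Nd J V}
    (T : Tight P f A S η) {v : V} (hv : v ∉ S) (h : η (vx v) = vx v) :
    ∃ j u, j ∉ A ∧ η (ag j) = ag j ∧ f j = {v, u} ∧ P.Good j v u ∧ η (vx u) = vx u := by
  obtain ⟨j, hj, hvj⟩ := (T.cover v).resolve_left hv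
  rcases T.cases j hj with ⟨c, a, -, e⟩ | ⟨u, u', a, b, c, d, e⟩
  · rw [a, mem_singleton] at hvj
    subst hvj
    rw [IsM.flip T.maxC.1 e] at h; cases h
  · rw [a, mem_insert, mem_singleton] at hvj
    rcases hvj with rfl | rfl
    · exact ⟨j, u', hj, c, a, b, e⟩
    · exact ⟨j, u, hj, c, by rw [a, pair_comm], b.symm, d⟩

/-- The colour pattern of a gadget. -/
structure Pat (P : AP J V) (i j : J) (x y e e' : V) : Prop where
  di : P.JD i
  dj : P.JD j
  wx : P.W x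
  wy : P.W y
  we : P.W e
  we' : P.W e'
  opp : P.Opp x y
  c1 : P.bc i e = P.bc i x
  c2 : P.bc i e' = P.bc i y
  c3 : P.bc j e = P.bc j y
  c4 : P.bc j e' = P.bc j x

theorem Opp.symm {u v : V} (h : P.Opp u v) : P.Opp v u := fun a ha => (h a ha).symm

theorem Pat.swap1 {i j : J} {x y e e' : V} (h : P.Pat i j x y e e') : P.Pat j i y x e e' :=
  ⟨h.dj, h.di, h.wy, h.wx, h.we, h.we', h.opp.symm, h.c3, h.c4, h.c1, h.c2⟩

theorem Pat.swap2 {i j : J} {x y e e' : V} (h : P.Pat i j x y e e') : P.Pat j i x y e' e :=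
  ⟨h.dj, h.di, h.wx, h.wy, h.we', h.we, h.opp, h.c4, h.c3, h.c2, h.c1⟩

theorem Pat.swap3 {i j : J} {x y e e' : V} (h : P.Pat i j x y e e') (ho : P.Opp e e') :
    P.Pat i j e e' x y :=
  ⟨h.di, h.dj, h.we, h.we', h.wx, h.wy, ho, h.c1.symm, h.c2.symm, h.c4.symm, h.c3.symm⟩

theorem Pat.ne {i j : J} {x y e e' : V} (h : P.Pat i j x y e e') :
    i ≠ j ∧ x ≠ y ∧ x ≠ e ∧ x ≠ e' ∧ y ≠ e ∧ y ≠ e' ∧ e ≠ e' := by
  have a := h.opp i h.di
  have b := h.opp j h.dj
  have := h.c1; have := h.c2; have := h.c3; have := h.c4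
  refine ⟨?_, ?_, ?_, ?_, ?_, ?_, ?_⟩ <;> rintro rfl <;> omega

/-- A gadget whose second pair is not an `H`-edge. -/
def G2 (P : AP J V) : Prop :=
  ∃ f i j x y e e', P.PS f {i, j} {x, y, e, e'} ∧ P.Pat i j x y e e' ∧ P.H x y ∧ ¬ P.H e e'

theorem H_opp {u v : V} (hu : P.W u) (hv : P.W v) (h : P.H u v) : P.Opp u v :=
  fun _ ha => H_bc ha hu hv h

theorem L3 {f : J → Finset V} {A : Finset J} {S : Finset V} {i j : J} {x y e e' w : V}
    (h : P.PS f A S) (hA : ∀ a ∈ A, a = i ∨ a = j) (p : P.Pat i j x y e e') (he : P.H e e')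
    (hw : P.W w) (n1 : ¬ P.H w y) (n2 : ¬ P.H w e) (n3 : ¬ P.H w e') (d1 : w ≠ y) (d2 : w ≠ e)
    (d3 : w ≠ e') (m1 : y ∈ S) (m2 : e ∈ S) (m3 : e' ∈ S) (m4 : w ∈ S) : P.Feasible ∨ P.G2 := by
  have a := p.opp i p.di
  have b := p.opp j p.dj
  have := p.c1; have := p.c2; have := p.c3; have := p.c4
  obtain ⟨-, -, -, -, q1, q2, q3⟩ := p.ne
  have g1 : P.Good i y e := good_of p.di p.wy p.we (by omega) (nH_same p.dj p.wy p.we (by omega))
  have g2 : P.Good j y e' :=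
    good_of p.dj p.wy p.we' (by omega) (nH_same p.di p.wy p.we' (by omega))
  by_cases k1 : P.bc j w = P.bc j y
  · exact Or.inl (h.sol2 hA m1 m2 m3 m4 g1 (good_of p.dj p.we' hw (by omega) (nH_symm n3))
      q2.symm q3.symm d1 d2)
  by_cases k2 : P.bc i w = P.bc i y
  · exact Or.inl (h.sol2 (fun a ha => (hA a ha).symm) m1 m3 m2 m4 g2
      (good_of p.di p.we hw (by omega) (nH_symm n2)) q1.symm q3 d1 d3)
  refine Or.inr ⟨f, i, j, e, e', w, y, h.mono (by simpa using hA) (by simp [*]),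
    ⟨p.di, p.dj, p.we, p.we', hw, p.wy, H_opp p.we p.we' he, ?_, ?_, ?_, ?_⟩, he, n1⟩ <;> omega

theorem L3' {f : J → Finset V} {A : Finset J} {S : Finset V} {i j : J} {x y e e' w t : V}
    (h : P.PS f A S) (hA : ∀ a ∈ A, a = i ∨ a = j) (p : P.Pat i j x y e e') (hx : P.H x y)
    (he : P.H e e') (hw : P.W w) (n : ∀ v ∈ ({x, y, e, e'} : Finset V), ¬ P.H w v ∧ w ≠ v)
    (ht : t ∈ ({x, y, e, e'} : Finset V)) (m : ∀ v ∈ ({x, y, e, e'} : Finset V), v ≠ t → v ∈ S)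
    (m4 : w ∈ S) : P.Feasible ∨ P.G2 := by
  obtain ⟨-, q1, q2, q3, q4, q5, q6⟩ := p.ne
  simp only [mem_insert, mem_singleton, forall_eq_or_imp, forall_eq] at n ht m
  obtain ⟨⟨n1, d1⟩, ⟨n2, d2⟩, ⟨n3, d3⟩, n4, d4⟩ := n
  obtain ⟨m0, m1, m2, m3⟩ := m
  have p3 := p.swap3 (H_opp p.we p.we' he)
  rcases ht with rfl | rfl | rfl | rfl
  · exact L3 h hA p he hw n2 n3 n4 d2 d3 d4 (m1 q1.symm) (m2 q2.symm) (m3 q3.symm) m4
  · exact L3 h (fun a ha => (hA a ha).symm) p.swap1 he hw n1 n3 n4 d1 d3 d4 (m0 q1) (m2 q4.symm)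
      (m3 q5.symm) m4
  · exact L3 h hA p3 hx hw n4 n1 n2 d4 d1 d2 (m3 q6.symm) (m0 q2) (m1 q4) m4
  · exact L3 h (fun a ha => (hA a ha).symm) p3.swap1 hx hw n3 n1 n2 d3 d1 d2 (m2 q6) (m0 q3)
      (m1 q5) m4

theorem L4aux {f : J → Finset V} {A : Finset J} {S : Finset V} {i j a : J} {x y e e' w w' : V}
    (h : P.PS f A S) (hA : ∀ b ∈ A, b = i ∨ b = j ∨ b = a) (p : P.Pat i j x y e e') (hx : P.H x y)
    (he : P.H e e') (hw : P.W w) (n : ∀ v ∈ ({x, y, e, e'} : Finset V), ¬ P.H w v ∧ w ≠ v)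
    (hw' : P.W w') (n' : w' ∉ ({x, y, e, e'} : Finset V)) (hww : w ≠ w')
    (m : ∀ v ∈ ({x, y, e, e'} : Finset V), v ∈ S) (m4 : w ∈ S) (m5 : w' ∈ S) (ha : P.JD a)
    (hae : P.bc a e = P.bc a x) : P.Feasible ∨ P.G2 := by
  have a1 := p.opp i p.di
  have a2 := p.opp j p.dj
  have a3 := p.opp a ha
  have a4 := H_bc ha p.we p.we' he
  have := p.c1; have := p.c2; have := p.c3; have := p.c4
  have p' : P.Pat a j x y e e' :=
    ⟨ha, p.dj, p.wx, p.wy, p.we, p.we', p.opp, hae, by omega, p.c3, p.c4⟩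
  have key : ∃ t ∈ ({x, y, e, e'} : Finset V), P.Good i w' t := by
    by_cases k : P.bc i w' = P.bc i x
    · by_cases k2 : P.H w' y
      · refine ⟨e', by simp, good_of p.di hw' p.we' (by omega) (nH_same p.dj hw' p.we' ?_)⟩
        have := H_bc p.dj hw' p.wy k2
        omega
      · exact ⟨y, by simp, good_of p.di hw' p.wy (by omega) k2⟩
    · by_cases k2 : P.H w' x
      · refine ⟨e, by simp, good_of p.di hw' p.we (by omega) (nH_same p.dj hw' p.we ?_)⟩
        have := H_bc p.dj hw' p.wx k2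
        omega
      · exact ⟨x, by simp, good_of p.di hw' p.wx k k2⟩
  obtain ⟨t, ht, hg⟩ := key
  have h2 := h.serve2 m5 (m t ht) hg (A' := {a, j}) (S' := (S.erase w').erase t)
    (fun b hb => by have := hA b hb; simp only [mem_insert, mem_singleton]; tauto)
    (fun v hv => by simp only [mem_erase] at hv; tauto)
  refine L3' h2 (by simp) p' hx he hw n ht (fun v hv hvt => ?_) ?_
  · exact mem_erase.2 ⟨hvt, mem_erase.2 ⟨fun e => n' (e ▸ hv), m v hv⟩⟩
  · exact mem_erase.2 ⟨(n t ht).2, mem_erase.2 ⟨hww, m4⟩⟩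

theorem L4 {f : J → Finset V} {A : Finset J} {S : Finset V} {i j a : J} {x y e e' w w' : V}
    (h : P.PS f A S) (hA : ∀ b ∈ A, b = i ∨ b = j ∨ b = a) (p : P.Pat i j x y e e') (hx : P.H x y)
    (he : P.H e e') (hw : P.W w) (n : ∀ v ∈ ({x, y, e, e'} : Finset V), ¬ P.H w v ∧ w ≠ v)
    (hw' : P.W w') (n' : w' ∉ ({x, y, e, e'} : Finset V)) (hww : w ≠ w')
    (m : ∀ v ∈ ({x, y, e, e'} : Finset V), v ∈ S) (m4 : w ∈ S) (m5 : w' ∈ S) (ha : P.JD a) :
    P.Feasible ∨ P.G2 := by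
  by_cases k : P.bc a e = P.bc a x
  · exact L4aux h hA p hx he hw n hw' n' hww m m4 m5 ha k
  · have e1 : ({x, y, e', e} : Finset V) = {x, y, e, e'} := by rw [pair_comm e' e]
    have a4 := H_bc ha p.we p.we' he
    exact L4aux h (fun b hb => by have := hA b hb; tauto) p.swap2 hx (P.symm _ _ he) hw (e1 ▸ n) hw'
      (e1 ▸ n') hww (e1 ▸ m) m4 m5 ha (by omega)

theorem Pat.card {i j : J} {x y e e' : V} (p : P.Pat i j x y e e') :
    2 * ({i, j} : Finset J).card ≤ ({x, y, e, e'} : Finset V).card := by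
  obtain ⟨q0, q1, q2, q3, q4, q5, q6⟩ := p.ne
  rw [card_pair q0, card_insert_of_notMem (by simp [*]), card_insert_of_notMem (by simp [*]),
    card_pair q6]

/-- The case of two `H`-edges. -/
theorem tc1 (hc : P.Char) (hcr : P.Crit) {f : J → Finset V} {i j : J} {x y e e' : V}
    (h : P.PS f {i, j} {x, y, e, e'}) (p : P.Pat i j x y e e') (hx : P.H x y) (he : P.H e e') :
    P.Feasible ∨ P.G2 := by
  have a1 := p.opp j p.dj
  have := p.c3
  by_cases hT : P.TwoStruct x e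
  · exact Or.inl ((hc.2.2 hcr).2.2 x e hT)
  have hF : P.Fs x e := Fs_of_sep p.wx p.we p.di p.dj p.c1 (by omega)
  obtain ⟨w, hw, k1, k2⟩ : ∃ w, P.W w ∧ ¬ P.Ks x w ∧ ¬ P.Ks e w := by
    by_contra hn
    push Not at hn
    exact hT ⟨p.wx, hF, fun v hv => by have := hn v hv; tauto⟩
  have kx := Ks_self p.wx
  have ke := Ks_self p.we
  have ky := Ks_of_H p.wx p.wy kx (P.symm _ _ hx)
  have ke' := Ks_of_H p.we p.we' ke (P.symm _ _ he)
  have n : ∀ v ∈ ({x, y, e, e'} : Finset V), ¬ P.H w v ∧ w ≠ v := by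
    simp only [mem_insert, mem_singleton, forall_eq_or_imp, forall_eq]
    exact ⟨⟨FK_nH p.wx ⟨hw, k1⟩ kx, FK_ne ⟨hw, k1⟩ kx⟩, ⟨FK_nH p.wx ⟨hw, k1⟩ ky, FK_ne ⟨hw, k1⟩ ky⟩,
      ⟨FK_nH p.we ⟨hw, k2⟩ ke, FK_ne ⟨hw, k2⟩ ke⟩, FK_nH p.we ⟨hw, k2⟩ ke', FK_ne ⟨hw, k2⟩ ke'⟩
  have wT : w ∉ ({x, y, e, e'} : Finset V) := fun hh => (n w hh).2 rfl
  obtain ⟨η, T⟩ := h.tight hcr p.card
  by_cases hη : η (vx w) = vx w
  · obtain ⟨a, w', ha, ha2, e1, g, hw'⟩ := T.in_pair wT hη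
    exact L4 (h.unserve ha) (a := a) (by simp) p hx he hw n (T.w hw')
      (fun hh => h.avoid a w' ha hh (by simp [e1])) g.ne (fun v hv => mem_union_right _ hv)
      (by simp [e1]) (by simp [e1]) (T.jd ha2)
  obtain ⟨m, w0, hm, h0, h1, -⟩ := dm5 T.maxC hw
  have hC : ∀ a, ¬ η (ag a) = ag a → ∃ c, m (ag a) = vx c ∧ P.col a c = none := fun a ha =>
    (hm.cm.ag_cases a).resolve_left (fun e1 => ha (((h1 _).1 e1).elim (fun e2 => by cases e2)
      And.left))
  have fx : ∀ v, η (vx v) = vx v → v ≠ w0 → ∀ b, m (vx v) ≠ ag b := fun v hv hne b => by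
    rw [(h1 _).2 (Or.inr ⟨hv, by simpa using hne⟩)]; simp
  have fw : ∀ b, m (vx w) ≠ ag b := fun b => by rw [(h1 _).2 (Or.inl rfl)]; simp
  have fp : ∀ a, η (ag a) = ag a → a ∉ ({i, j} : Finset J) → ∀ v ∈ f a, η (vx v) = vx v := by
    intro a h1 h2 v hv
    obtain ⟨u, u', e1, -, e2, e3⟩ := T.pair h2 h1
    rw [e1, mem_insert, mem_singleton] at hv
    rcases hv with rfl | rfl <;> assumption
  by_cases hw0 : w0 ∈ ({x, y, e, e'} : Finset V)
  · obtain ⟨f', h'⟩ := h.transfer (fun a => η (ag a) = ag a) hm.1.1 hC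
      (insert w (({x, y, e, e'} : Finset V).erase w0))
      (fun v hv => by
        rcases mem_insert.1 hv with rfl | hv
        · exact ⟨fw, fun a a1 a2 a3 => hη (fp a a1 a2 v a3)⟩
        · rw [mem_erase] at hv
          exact ⟨fx v (T.inS v hv.2) hv.1, fun a _ a2 => h.avoid a v a2 hv.2⟩)
      (fun a a1 a2 v hv => fx v (fp a a1 a2 v hv) (fun e1 => h.avoid a v a2 (e1 ▸ hw0) hv))
    exact L3' h' (by simp) p hx he hw n hw0
      (fun v hv hne => mem_insert_of_mem (mem_erase.2 ⟨hne, hv⟩)) (mem_insert_self _ _)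
  · obtain ⟨a, w', ha, ha2, e1, g, hw'⟩ := T.in_pair hw0 h0
    have h2 := h.unserve ha
    have out : ∀ b, b ∉ insert a ({i, j} : Finset J) → b ∉ ({i, j} : Finset J) :=
      fun b hb hh => hb (mem_insert_of_mem hh)
    obtain ⟨f', h'⟩ := h2.transfer (fun a => η (ag a) = ag a) hm.1.1 hC
      (insert w (insert w' ({x, y, e, e'} : Finset V)))
      (fun v hv => by
        rcases mem_insert.1 hv with rfl | hv
        · exact ⟨fw, fun b a1 a2 a3 => hη (fp b a1 (out b a2) v a3)⟩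
        rcases mem_insert.1 hv with rfl | hv
        · exact ⟨fx v hw' g.ne.symm, fun b _ a2 => h2.avoid b v a2 (by simp [e1])⟩
        · exact ⟨fx v (T.inS v hv) (fun e2 => hw0 (e2 ▸ hv)),
            fun b _ a2 => h2.avoid b v a2 (mem_union_right _ hv)⟩)
      (fun b a1 a2 v hv => fx v (fp b a1 (out b a2) v hv)
        (fun e2 => h2.avoid b v a2 (by simp [e1, e2]) hv))
    exact L4 h' (a := a) (by simp) p hx he hw n (T.w hw')
      (fun hh => h.avoid a w' ha hh (by simp [e1])) (fun e2 => hη (e2 ▸ hw'))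
      (fun v hv => mem_insert_of_mem (mem_insert_of_mem hv)) (by simp) (by simp) (T.jd ha2)

end AP

end Pool.Agent.Lib.MP_ef7581_lc
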