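import Mathlib
import Pool.Agent.Lib.MP_ef7581_lc.Gad1

/-!
Gadget analysis, part 2: a flexible matching closest to a given maximum C-matching.
-/

set_option autoImplicit false
set_option linter.unusedSectionVars false

namespace Pool.Agent.Lib.MP_ef7581_lc

open Finset

namespace AP

variable {J V : Type} {P : AP J V} [Fintype J] [Fintype V] [DecidableEq J] [DecidableEq V]

open Classical in
/-- Sign of a node: `1` on `F`, `-1` on `K`. -/
noncomputable def sg (P : AP J V) (x : V) : Nd J V → ℤ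
  | Sum.inr (Sum.inl v) => if P.Fs x v then 1 else if P.Ks x v then -1 else 0
  | _ => 0

theorem sg_F {x v : V} (h : P.Fs x v) : P.sg x (vx v) = 1 := by simp [sg, h]

theorem sg_K {x v : V} (h : P.Ks x v) : P.sg x (vx v) = -1 := by
  have : ¬ P.Fs x v := fun e => e.2 h
  simp [sg, h, this]

theorem FK_cases {v : V} (x : V) (h : P.W v) : P.Fs x v ∨ P.Ks x v := by
  by_cases k : P.Ks x v
  · exact Or.inr k
  · exact Or.inl ⟨h, k⟩

/-- Signed number of unmatched vertices. -/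
noncomputable def dl (P : AP J V) (x : V) (m : Nd J V → Nd J V) : ℤ :=
  ∑ v : V, if m (vx v) = vx v then P.sg x (vx v) else 0

theorem dl_eq (x : V) (m : Nd J V → Nd J V) :
    P.dl x m = (unc (P.Fs x) m : ℤ) - unc (P.Ks x) m := by
  classical
  unfold dl unc
  simp only [card_filter]
  push_cast
  rw [← sum_sub_distrib]
  refine sum_congr rfl fun v _ => ?_
  by_cases h : m (vx v) = vx v <;> by_cases h1 : P.Fs x v <;> by_cases h2 : P.Ks x v <;>
    simp [h, h1, h2, sg]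
  exact h1.2 h2

theorem dl_cv (x : V) (m : Nd J V → Nd J V) :
    P.dl x m + cv (P.sg x) m = ∑ v : V, P.sg x (vx v) := by
  unfold dl cv
  simp only [Fintype.sum_sum_type]
  have a : ∀ j : J, (if m (Sum.inl j) = Sum.inl j then 0 else P.sg x (Sum.inl j)) = 0 :=
    fun j => by simp [sg]
  have b : ∀ j : J, (if m (Sum.inr (Sum.inr j)) = Sum.inr (Sum.inr j) then 0
      else P.sg x (Sum.inr (Sum.inr j))) = 0 := fun j => by simp [sg]
  simp only [a, b, sum_const_zero, zero_add, add_zero, ← sum_add_distrib]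
  exact sum_congr rfl fun v _ => by split_ifs <;> simp

/-- Indicator of the agents. -/
def ia : Nd J V → ℤ
  | Sum.inl _ => 1
  | _ => 0

theorem cv_ia (m : Nd J V → Nd J V) : cv ia m = mA m := by
  unfold cv mA
  simp only [Fintype.sum_sum_type, card_filter, ia]
  push_cast
  simp only [ite_self, sum_const_zero, add_zero]
  exact sum_congr rfl fun j _ => by split_ifs <;> simp_all

theorem gamF_mA {x : V} {m : Nd J V → Nd J V} (h : IsM (P.E (P.GamF x)) m) : mA m = P.cw m := by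
  have h1 : P.NC m = ∅ := filter_eq_empty_iff.2 fun j _ ⟨v, e, hc⟩ =>
    (edge_av h e).elim hc (fun f => f)
  have h2 : DU m = ∅ := filter_eq_empty_iff.2 fun j _ e => edge_ad h e
  rw [mA_eq h, h1, h2]; simp

/-- Forget the pair edges. -/
def drop (m : Nd J V → Nd J V) : Nd J V → Nd J V :=
  fun z => if side z = -1 ∧ side (m z) = -1 then z else m z

theorem drop_cm {x : V} {m : Nd J V → Nd J V} (h : IsM (P.E (P.GamF x)) m) : P.CM (drop m) := by
  constructor
  · intro z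
    by_cases hz : side z = -1 ∧ side (m z) = -1
    · simp [drop, hz]
    · have e : drop m z = m z := if_neg hz
      rw [e]
      unfold drop
      rw [h.1, if_neg (fun k => hz ⟨k.2, k.1⟩)]
  · intro z hz
    by_cases hc : side z = -1 ∧ side (m z) = -1
    · exact absurd (if_pos hc) hz
    · have e : drop m z = m z := if_neg hc
      rw [e] at hz ⊢
      have := h.2 z hz
      rcases z with j | u | j <;> rcases hm : m _ with i | v | i <;> rw [hm] at this hc <;>
        simp_all [E, GamF, R0, side]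

theorem drop_mA (m : Nd J V → Nd J V) : mA (drop m) = mA m := by
  unfold mA
  exact congrArg card (filter_congr fun j _ => by simp [drop, side])

theorem gamF_le (hcr : P.Crit) {x : V} {m : Nd J V → Nd J V} (h : IsM (P.E (P.GamF x)) m) :
    mA m + Fintype.card V ≤ 2 * Fintype.card J := by
  have h1 := hcr _ (drop_cm h)
  have h2 := cov_eq (drop_cm h)
  rw [drop_mA] at h2
  omega

theorem CM.vv_zero {m : Nd J V → Nd J V} (h : P.CM m) : vv m = 0 :=
  card_eq_zero.2 (filter_eq_empty_iff.2 fun _ _ ⟨_, hu, e⟩ =>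
    (edge_vv h e hu.symm).elim (fun f => f) (fun f => f))

theorem vv_pos {m : Nd J V → Nd J V} : 0 < vv m ↔ ∃ u v, u ≠ v ∧ m (vx u) = vx v := by
  unfold vv
  rw [card_pos]
  constructor
  · rintro ⟨v, hv⟩
    obtain ⟨u, a, b⟩ := (mem_filter.1 hv).2
    exact ⟨v, u, a.symm, b⟩
  · rintro ⟨u, v, a, b⟩
    exact ⟨u, mem_filter.2 ⟨mem_univ _, v, a.symm, b⟩⟩

theorem CM.gamF {m : Nd J V → Nd J V} (h : P.CM m) (x : V) : IsM (P.E (P.GamF x)) m := by
  refine IsM.mono h fun a b => ?_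
  rcases a with j | u | j <;> rcases b with i | v | i <;> simp [E, GamF, R0]

/-- Flexibility relative to `η`. -/
def Fx (P : AP J V) (x : V) (η m : Nd J V → Nd J V) : Prop :=
  IsM (P.E (P.GamF x)) m ∧ cv ia m = cv ia η ∧
    (cv (P.sg x) m < cv (P.sg x) η ∨ (cv (P.sg x) m = cv (P.sg x) η ∧ 0 < vv m))

theorem exists_two_ends (hcr : P.Crit) {x : V} {η : Nd J V → Nd J V} (hη : P.CM η)
    (hsz : cov η + 2 * Fintype.card V = 4 * Fintype.card J) (hδ : P.dl x η = 0) (hF : P.Flex x) :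
    ∃ m e e', P.Fx x η m ∧ e' ≠ e ∧ IsEnd η m e ∧ IsEnd η m e' ∧
      (∀ z, IsEnd η m z → z = e ∨ z = e') ∧ ∀ g : Nd J V → ℤ, cv g m = cv g η +
      (((if m e = e then 0 else g e) - (if η e = e then 0 else g e)) +
        ((if m e' = e' then 0 else g e') - (if η e' = e' then 0 else g e'))) := by
  classical
  have c0 := cov_eq hη
  have c1 := hη.vv_zero
  have hη' := hη.gamF x
  have ne : (univ.filter fun m => P.Fx x η m).Nonempty := by
    obtain ⟨m, h1, h2, h3, h4⟩ := hF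
    refine ⟨m, mem_filter.2 ⟨mem_univ _, h1, ?_, ?_⟩⟩
    · rw [cv_ia, cv_ia, gamF_mA h1]; omega
    · have a1 := dl_cv (P := P) x m
      have a2 := dl_cv (P := P) x η
      have a3 := dl_eq (P := P) x m
      rcases h4 with h4 | h4
      · have := vv_pos.2 h4; omega
      · omega
  obtain ⟨m, hm, hmin⟩ := exists_min_image _ (fun m => (univ.filter fun z => η z ≠ m z).card) ne
  have hm := (mem_filter.1 hm).2
  have one : ∀ X, Cl X η → Cl X m → (∃ z, z ∉ X ∧ η z ≠ m z) → ¬ P.Fx x η (mix X η m) := by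
    rintro X - - ⟨z, z1, z2⟩ hX
    refine absurd (hmin _ (mem_filter.2 ⟨mem_univ _, hX⟩)) (not_le.2 (card_lt_card ?_))
    rw [ssubset_iff_of_subset]
    · exact ⟨z, by simp [z2], by simp [mix_out z1]⟩
    · intro y hy
      simp only [mem_filter, mem_univ, true_and] at hy ⊢
      by_cases k : y ∈ X
      · rwa [mix_in k] at hy
      · rw [mix_out k] at hy; exact absurd rfl hy
  have key : ∀ X, Cl X η → Cl X m → (∃ z ∈ X, η z ≠ m z) → ∀ z, z ∉ X → η z = m z := by
    rintro X c1 c2 ⟨z0, z1, z2⟩ z hz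
    by_contra hn
    have c1' := c1.compl hη.1
    have c2' := c2.compl hm.1.1
    have n1 := one X c1 c2 ⟨z, hz, hn⟩
    have n2 := one Xᶜ c1' c2' ⟨z0, by simpa using z1, z2⟩
    have i1 := hη'.mix hm.1 c1 c2
    have i2 := hη'.mix hm.1 c1' c2'
    have a1 := cv_mix_add ia X η m
    have a2 := cv_mix_add (P.sg x) X η m
    have b1 := gamF_le hcr i1
    have b2 := gamF_le hcr i2
    have b3 := hm.2.1
    have e1 := cv_ia (mix X η m)
    have e2 := cv_ia (mix Xᶜ η m)
    have e3 := cv_ia η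
    have k1 : ¬ _ := fun h => n1 ⟨i1, by omega, h⟩
    have k2 : ¬ _ := fun h => n2 ⟨i2, by omega, h⟩
    rcases hm.2.2 with h | ⟨h, h'⟩
    · omega
    · obtain ⟨u, v, huv, e⟩ := vv_pos.1 h'
      by_cases hu : vx u ∈ X
      · have := vv_pos.2 ⟨u, v, huv, (mix_in (μ := η) hu).trans e⟩
        omega
      · have := vv_pos.2 ⟨u, v, huv, (mix_in (μ := η) (mem_compl.2 hu)).trans e⟩
        omega
  obtain ⟨e, he⟩ : ∃ e, IsEnd η m e := by
    by_contra hn
    push Not at hn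
    have same : ∀ g, cv g m = cv g η := fun g => sum_congr rfl fun z _ => by
      have := hn z
      unfold IsEnd at this
      by_cases h1 : η z = z <;> by_cases h2 : m z = z <;> simp_all
    have a1 := same (fun _ => 1)
    have a2 := same (P.sg x)
    have a3 := hm.2.1
    have a4 := hm.2.2
    have a5 := cov_eq hm.1
    rw [← cov_eq_cv, ← cov_eq_cv] at a1
    rw [cv_ia, cv_ia] at a3
    omega
  obtain ⟨X, e', m1, m2, m3, k1, k2, m4, m5, -⟩ := exists_path hη.1 hm.1.1 he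
  have out := key X k1 k2 ⟨e, m1, he.ne⟩
  have hX : mix X η m = m := funext fun z => by
    by_cases k : z ∈ X
    · exact mix_in k
    · rw [mix_out k, out z k]
  refine ⟨m, e, e', hm, m3, he, m4, fun z hz => m5 z (by_contra fun k => hz.ne (out z k)) hz,
    fun g => ?_⟩
  have := cv_mix_path g m1 m2 m3 m5
  rwa [hX] at this

theorem flex_types (hcr : P.Crit) {x : V} {η : Nd J V → Nd J V} (hη : P.MaxC η)
    (hsz : cov η + 2 * Fintype.card V = 4 * Fintype.card J) (hδ : P.dl x η = 0) (hF : P.Flex x) :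
    ∃ (m : Nd J V → Nd J V) (g r : V), (∀ z, m (m z) = z) ∧
      (∀ a, ¬ η (ag a) = ag a → ∃ c, m (ag a) = vx c ∧ P.col a c = none) ∧
      η (vx g) = vx g ∧ P.Ks x g ∧ (∀ v, η (vx v) = vx v → v ≠ g → v ≠ r → m (vx v) = vx v) ∧
      ((η (vx r) ≠ vx r ∧ P.Fs x r ∧ m (vx r) = vx r) ∨
        (η (vx r) = vx r ∧ r ≠ g ∧ ∃ p q, P.W p ∧ P.W q ∧ P.Opp p q ∧ ¬ P.H p q ∧ p ≠ q ∧
          m (vx p) = vx q)) := by
  obtain ⟨m, e, e', hm, hne, he, he', hall, hcv⟩ := exists_two_ends hcr hη.cm hsz hδ hF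
  have c0 := cov_eq hη.cm
  have c1 := hη.cm.vv_zero
  have c2 := cov_eq hm.1
  have c3 := hm.2.1
  have c4 := hm.2.2
  have a1 := hcv (fun _ => 1)
  have a2 := hcv ia
  have a3 := hcv (P.sg x)
  rw [← cov_eq_cv, ← cov_eq_cv] at a1
  have c5 := c3
  rw [cv_ia, cv_ia] at c5
  have nd : ∀ j, ¬ IsEnd η m (dm j) := fun j h => by
    have h1 := hη.cm.dm_fix j
    rcases mate_dm hm.1 j with h2 | ⟨-, h2⟩
    · unfold IsEnd at h; simp [h1, h2] at h
    · exact edge_ad hm.1 h2
  obtain ⟨u, u', rfl, rfl⟩ : ∃ u u', e = vx u ∧ e' = vx u' := by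
    rcases e with j | u | j <;> rcases e' with i | u' | i
    all_goals first
      | exact ⟨_, _, rfl, rfl⟩
      | exact absurd he (nd _)
      | exact absurd he' (nd _)
      | (exfalso
         rcases he with ⟨b1, b2⟩ | ⟨b1, b2⟩ <;> rcases he' with ⟨b3, b4⟩ | ⟨b3, b4⟩ <;>
           simp only [b1, b2, b3, b4, if_true, if_false, ia, sg] at a1 a2 a3 <;> omega)
  have hW : ∀ v, m (vx v) = vx v → P.W v := fun v hv => by
    refine ⟨drop m, hη.of_le (drop_cm hm.1) ?_, by simp [drop, hv]⟩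
    have := cov_eq (drop_cm hm.1)
    rw [drop_mA] at this
    omega
  have hC : ∀ a, ¬ η (ag a) = ag a → ∃ c, m (ag a) = vx c ∧ P.col a c = none := fun a ha => by
    rcases mate_ag hm.1 a with e1 | ⟨c, e1, e2⟩ | ⟨-, e1⟩
    · rcases hall _ (Or.inr ⟨ha, e1⟩) with e2 | e2 <;> cases e2
    · exact ⟨c, e1, e2.resolve_right id⟩
    · exact e1.elim
  have hfix : ∀ v, η (vx v) = vx v → v ≠ u → v ≠ u' → m (vx v) = vx v := fun v h1 h2 h3 => by
    by_contra hn
    rcases hall _ (Or.inl ⟨h1, hn⟩) with e2 | e2 <;> cases e2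
    exacts [h2 rfl, h3 rfl]
  have hne' : u' ≠ u := fun e => hne (by rw [e])
  have hp : 0 < vv m → ∃ p q, P.W p ∧ P.W q ∧ P.Opp p q ∧ ¬ P.H p q ∧ p ≠ q ∧
      m (vx p) = vx q := fun h => by
    obtain ⟨p, q, hpq, e1⟩ := vv_pos.1 h
    have o : ∀ p q, P.Xs x p → P.Ys x q → P.Opp p q := fun p q h1 h2 a ha e2 =>
      h2.2 a ha (((col_iff ha h1.1 h2.1).2 e2).symm.trans (h1.2 a ha))
    rcases edge_vv hm.1 e1 hpq with ⟨h1, h2, h3⟩ | ⟨h1, h2, h3⟩
    · exact ⟨p, q, h1.1, h2.1, o _ _ h1 h2, h3, hpq, e1⟩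
    · exact ⟨q, p, h1.1, h2.1, o _ _ h1 h2, h3, hpq.symm, IsM.flip hm.1 e1⟩
  rcases he with ⟨b1, b2⟩ | ⟨b1, b2⟩ <;> rcases he' with ⟨b3, b4⟩ | ⟨b3, b4⟩ <;>
    simp only [b1, b2, b3, b4, if_true, if_false] at a1 a3
  · have hpq := hp (by omega)
    rcases FK_cases x (⟨η, hη, b1⟩ : P.W u) with k | k
    · rcases FK_cases x (⟨η, hη, b3⟩ : P.W u') with k' | k'
      · rw [sg_F k, sg_F k'] at a3; omega
      · exact ⟨m, u', u, hm.1.1, hC, b3, k', fun v h1 h2 h3 => hfix v h1 h3 h2,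
          Or.inr ⟨b1, hne'.symm, hpq⟩⟩
    · exact ⟨m, u, u', hm.1.1, hC, b1, k, hfix, Or.inr ⟨b3, hne', hpq⟩⟩
  · rcases FK_cases x (⟨η, hη, b1⟩ : P.W u) with k | k <;>
      rcases FK_cases x (hW u' b4) with k' | k'
    · rw [sg_F k, sg_F k'] at a3; omega
    · rw [sg_F k, sg_K k'] at a3; omega
    · exact ⟨m, u, u', hm.1.1, hC, b1, k, hfix, Or.inl ⟨b3, k', b4⟩⟩
    · rw [sg_K k, sg_K k'] at a3; omega
  · rcases FK_cases x (hW u b2) with k | k <;>
      rcases FK_cases x (⟨η, hη, b3⟩ : P.W u') with k' | k'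
    · rw [sg_F k, sg_F k'] at a3; omega
    · exact ⟨m, u', u, hm.1.1, hC, b3, k', fun v h1 h2 h3 => hfix v h1 h3 h2, Or.inl ⟨b1, k, b2⟩⟩
    · rw [sg_K k, sg_F k'] at a3; omega
    · rw [sg_K k, sg_K k'] at a3; omega
  · omega

end AP

end Pool.Agent.Lib.MP_ef7581_lc
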