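import Mathlib
import Pool.Agent.Lib.MP_ef7581_lc.Gad2

/-!
Gadget analysis, part 3: a gadget gives a solution.
-/

set_option autoImplicit false
set_option linter.unusedSectionVars false

namespace Pool.Agent.Lib.MP_ef7581_lc

open Finset

namespace AP

variable {J V : Type} {P : AP J V} [Fintype J] [Fintype V] [DecidableEq J] [DecidableEq V]

theorem lemFF {f : J → Finset V} {A : Finset J} {S : Finset V} {o a : J} {z x y u v : V}
    (h : P.PS f A S) (hA : ∀ b ∈ A, b = o ∨ b = a) (hz : P.W z) (ho : P.JD o) (ha : P.JD a)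
    (kx : P.Ks z x) (ky : P.Ks z y) (op : P.Opp x y) (fu : P.Fs z u) (fv : P.Fs z v)
    (c1 : P.bc a u = P.bc a x) (c2 : P.bc a v = P.bc a y) (m1 : x ∈ S) (m2 : y ∈ S) (m3 : u ∈ S)
    (m4 : v ∈ S) (hn : P.bc o u = P.bc o x ∨ P.bc o v = P.bc o y) : P.Feasible := by
  have a1 := op o ho
  have a2 := op a ha
  have xy : x ≠ y := ne_bc a1
  have uv : u ≠ v := ne_bc (P := P) (j := a) (by omega)
  by_cases k : P.bc o u = P.bc o x
  · exact h.sol2 hA m3 m2 m4 m1 (FK_good hz ho fu ky (by omega)) (FK_good hz ha fv kx (by omega))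
      uv.symm (FK_ne fv ky) (FK_ne fu kx).symm xy
  · exact h.sol2 hA m4 m1 m3 m2 (FK_good hz ho fv kx (by omega)) (FK_good hz ha fu ky (by omega))
      uv (FK_ne fu kx) (FK_ne fv ky).symm xy.symm

theorem Pat.fs {i j : J} {x y e e' : V} (p : P.Pat i j x y e e') : P.Fs x e ∧ P.Fs x e' := by
  have a1 := p.opp i p.di
  have a2 := p.opp j p.dj
  have := p.c2; have := p.c3
  exact ⟨Fs_of_sep p.wx p.we p.di p.dj p.c1 (by omega),
    Fs_of_sep p.wx p.we' p.dj p.di p.c4 (by omega)⟩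

theorem Pat.ky {i j : J} {x y e e' : V} (p : P.Pat i j x y e e') : P.Ks x y :=
  (Ks_iff p.wx).2 ⟨p.wy, Or.inr p.opp.symm⟩

theorem lem2FF {f : J → Finset V} {A : Finset J} {S : Finset V} {i j a : J} {x y e e' u v : V}
    (h : P.PS f A S) (hA : ∀ b ∈ A, b = i ∨ b = j ∨ b = a) (p : P.Pat i j x y e e')
    (nH : ¬ P.H e e') (ha : P.JD a) (fu : P.Fs x u) (fv : P.Fs x v) (nH' : ¬ P.H u v)
    (c1 : P.bc a u = P.bc a x) (c2 : P.bc a v = P.bc a y)
    (m : ∀ w ∈ ({x, y, e, e'} : Finset V), w ∈ S ∧ w ≠ u ∧ w ≠ v) (m3 : u ∈ S) (m4 : v ∈ S) :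
    P.Feasible := by
  have a1 := p.opp i p.di
  have a2 := p.opp j p.dj
  have a3 := p.opp a ha
  have := p.c1; have := p.c2; have := p.c3; have := p.c4
  obtain ⟨fe, fe'⟩ := p.fs
  have kx := Ks_self p.wx
  have ky := p.ky
  obtain ⟨-, q1, q2, q3, q4, q5, q6⟩ := p.ne
  simp only [mem_insert, mem_singleton, forall_eq_or_imp, forall_eq] at m
  obtain ⟨⟨mx, x1, x2⟩, ⟨my, y1, y2⟩, ⟨me, e1, e2⟩, me', e3, e4⟩ := m
  by_cases k1 : P.bc j u = P.bc j x ∨ P.bc j v = P.bc j y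
  · exact lemFF (h.serve2 me me' (good_of p.di p.we p.we' (by omega) nH) (A' := {j, a})
      (S' := {x, y, u, v}) (by simpa using hA) (by simp [*, e1.symm, e2.symm, e3.symm, e4.symm]))
      (by simp) p.wx p.dj ha kx ky p.opp fu fv c1 c2 (by simp) (by simp) (by simp) (by simp) k1
  by_cases k2 : P.bc i u = P.bc i x ∨ P.bc i v = P.bc i y
  · exact lemFF (h.serve2 me me' (good_of p.dj p.we p.we' (by omega) nH) (A' := {i, a})
      (S' := {x, y, u, v}) (fun b hb => by have := hA b hb; simp; tauto)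
      (by simp [*, e1.symm, e2.symm, e3.symm, e4.symm]))
      (by simp) p.wx p.di ha kx ky p.opp fu fv c1 c2 (by simp) (by simp) (by simp) (by simp) k2
  by_cases k3 : P.bc a e = P.bc a x ∨ P.bc a e' = P.bc a y
  · exact lemFF (h.serve2 m3 m4 (good_of p.dj fu.1 fv.1 (by omega) nH') (A' := {a, i})
      (S' := {x, y, e, e'}) (fun b hb => by have := hA b hb; simp; tauto) (by simp [*]))
      (by simp) p.wx ha p.di kx ky p.opp fe fe' p.c1 p.c2 (by simp) (by simp) (by simp) (by simp) k3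
  · exact lemFF (h.serve2 m3 m4 (good_of p.di fu.1 fv.1 (by omega) nH') (A' := {a, j})
      (S' := {x, y, e, e'}) (fun b hb => by have := hA b hb; simp; tauto) (by simp [*]))
      (by simp) p.wx ha p.dj kx ky p.opp fe' fe p.c4 p.c3 (by simp) (by simp) (by simp) (by simp)
      (by omega)

theorem lemKK {f : J → Finset V} {A : Finset J} {S : Finset V} {i j a : J} {x y e e' u v : V}
    (h : P.PS f A S) (hA : ∀ b ∈ A, b = i ∨ b = j ∨ b = a) (p : P.Pat i j x y e e')
    (ha : P.JD a) (g : ∀ b, P.JD b → P.Good b u v)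
    (m : ∀ w ∈ ({x, y, e, e'} : Finset V), w ∈ S ∧ w ≠ u ∧ w ≠ v) (m3 : u ∈ S) (m4 : v ∈ S)
    {z : V} (hz : P.W z) (kx : P.Ks z x) (ky : P.Ks z y) (fe : P.Fs z e) (fe' : P.Fs z e') :
    P.Feasible := by
  have a1 := p.opp i p.di
  have a2 := p.opp j p.dj
  have a3 := p.opp a ha
  have := p.c1; have := p.c2; have := p.c3; have := p.c4
  obtain ⟨-, q1, q2, q3, q4, q5, q6⟩ := p.ne
  have uv := (g a ha).ne
  simp only [mem_insert, mem_singleton, forall_eq_or_imp, forall_eq] at m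
  obtain ⟨⟨mx, x1, x2⟩, ⟨my, y1, y2⟩, ⟨me, e1, e2⟩, me', e3, e4⟩ := m
  by_cases k : P.bc a e = P.bc a y
  · exact h.sol3 (i := a) (j := j) (m := i) (fun b hb => by have := hA b hb; tauto) me mx me' my
      m3 m4 (FK_good hz ha fe kx (by omega)) (FK_good hz p.dj fe' ky (by omega)) (g i p.di)
      (by simp [*, q2.symm, q4.symm, q5.symm])
  · exact h.sol3 (i := a) (j := i) (m := j) (fun b hb => by have := hA b hb; tauto) me my me' mx
      m3 m4 (FK_good hz ha fe ky k) (FK_good hz p.di fe' kx (by omega)) (g j p.dj)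
      (by simp [*, q1.symm, q2.symm, q3.symm, q4.symm])

theorem lemRF {f : J → Finset V} {A : Finset J} {S : Finset V} {i j : J} {z x y e e' φ : V}
    (h : P.PS f A S) (hA : ∀ b ∈ A, b = i ∨ b = j) (p : P.Pat i j x y e e') (nH : ¬ P.H e e')
    (hz : P.W z) (ky : P.Ks z y) (fe' : P.Fs z e') (fφ : P.Fs z φ)
    (m1 : y ∈ S) (m2 : e ∈ S) (m3 : e' ∈ S) (m4 : φ ∈ S) (d1 : φ ≠ e) (d2 : φ ≠ e') :
    P.Feasible := by
  have a1 := p.opp i p.di
  have a2 := p.opp j p.dj
  have := p.c1; have := p.c2; have := p.c3; have := p.c4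
  obtain ⟨-, -, -, -, q4, q5, q6⟩ := p.ne
  by_cases k1 : P.bc i φ = P.bc i x
  · exact h.sol2 hA m4 m1 m2 m3 (FK_good hz p.di fφ ky (by omega))
      (good_of p.dj p.we p.we' (by omega) nH) d1.symm q4.symm d2.symm q5.symm
  by_cases k2 : P.bc j φ = P.bc j x
  · exact h.sol2 (fun b hb => (hA b hb).symm) m4 m1 m2 m3 (FK_good hz p.dj fφ ky (by omega))
      (good_of p.di p.we p.we' (by omega) nH) d1.symm q4.symm d2.symm q5.symm
  · exact h.sol2 hA m2 m4 m3 m1
      (good_of p.di p.we fφ.1 (by omega) (nH_same p.dj p.we fφ.1 (by omega)))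
      (FK_good hz p.dj fe' ky (by omega)) q6.symm d2.symm q4 (FK_ne fφ ky).symm

/-- A gadget of the second kind all of whose other pairs are mixed. -/
structure Cfg (P : AP J V) (z : V) (η : Nd J V → Nd J V) (f : J → Finset V) (i j : J)
    (x y e e' : V) : Prop where
  ps : P.PS f {i, j} {x, y, e, e'}
  pat : P.Pat i j x y e e'
  kx : P.Ks z x
  ky : P.Ks z y
  fe : P.Fs z e
  fe' : P.Fs z e'
  nH : ¬ P.H e e'
  inS : ∀ v ∈ ({x, y, e, e'} : Finset V), η (vx v) = vx v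
  pair : ∀ a, η (ag a) = ag a → a ∉ ({i, j} : Finset J) → ∃ u k, f a = {u, k} ∧
    P.bc a u ≠ P.bc a k ∧ P.Fs z u ∧ P.Ks z k ∧ η (vx u) = vx u ∧ η (vx k) = vx k
  cover : ∀ v, η (vx v) = vx v → v ∈ ({x, y, e, e'} : Finset V) ∨
    ∃ a, η (ag a) = ag a ∧ a ∉ ({i, j} : Finset J) ∧ v ∈ f a

section

variable {z : V} {η : Nd J V → Nd J V} {f : J → Finset V} {i j : J} {x y e e' : V}

theorem Cfg.swap (c : P.Cfg z η f i j x y e e') : P.Cfg z η f j i y x e e' := by
  have e1 : ({j, i} : Finset J) = {i, j} := pair_comm _ _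
  have e2 : ({y, x, e, e'} : Finset V) = {x, y, e, e'} := insert_comm _ _ _
  exact ⟨e1 ▸ e2 ▸ c.ps, c.pat.swap1, c.ky, c.kx, c.fe, c.fe', c.nH, e2 ▸ c.inS, e1 ▸ c.pair,
    e1 ▸ e2 ▸ c.cover⟩

theorem Cfg.locate (c : P.Cfg z η f i j x y e e') {g : V} (hg : η (vx g) = vx g)
    (hS : g ∉ ({x, y, e, e'} : Finset V)) : ∃ a u k, η (ag a) = ag a ∧ a ∉ ({i, j} : Finset J) ∧
      f a = {u, k} ∧ P.bc a u ≠ P.bc a k ∧ P.Fs z u ∧ P.Ks z k ∧ η (vx u) = vx u ∧
      η (vx k) = vx k ∧ (g = u ∨ g = k) := by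
  obtain ⟨a, h1, h2, h3⟩ := (c.cover g hg).resolve_left hS
  obtain ⟨u, k, e1, r⟩ := c.pair a h1 h2
  exact ⟨a, u, k, h1, h2, e1, r.1, r.2.1, r.2.2.1, r.2.2.2.1, r.2.2.2.2, by simpa [e1] using h3⟩

theorem Cfg.rename (c : P.Cfg z η f i j x y e e') (hz : P.W z) (hη : P.MaxC η) {g : V}
    (hg : η (vx g) = vx g) (kg : P.Ks z g) (hs : P.Same g x) :
    ∃ f', P.Cfg z η f' i j g y e e' := by
  by_cases hS : g ∈ ({x, y, e, e'} : Finset V)
  · simp only [mem_insert, mem_singleton] at hS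
    rcases hS with rfl | rfl | rfl | rfl
    · exact ⟨f, c⟩
    · exact absurd (hs i c.pat.di).symm (c.pat.opp i c.pat.di)
    · exact absurd kg c.fe.2
    · exact absurd kg c.fe'.2
  obtain ⟨a, u, k, h1, h2, e1, h3, fu, -, h4, -, rfl | rfl⟩ := c.locate hg hS
  · exact absurd kg fu.2
  have ha : P.JD a := ⟨η, hη, h1⟩
  have uS : u ∉ ({x, y, e, e'} : Finset V) := fun hh => c.ps.avoid a u h2 hh (by simp [e1])
  obtain ⟨-, q1, q2, q3, -⟩ := c.pat.ne
  have s1 := hs a ha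
  have s2 := hs i c.pat.di
  have s3 := hs j c.pat.dj
  have hS' := hS
  have uS' := uS
  simp only [mem_insert, mem_singleton, not_or] at hS' uS'
  refine ⟨Function.update f a {u, x}, (c.ps.unserve h2).serve2 (by simp [e1]) (by simp)
    (FK_good hz ha fu c.kx (by omega)) (by simp) ?_,
    ⟨c.pat.di, c.pat.dj, kg.w, c.pat.wy, c.pat.we, c.pat.we', fun b hb => ?_, ?_, c.pat.c2,
      c.pat.c3, ?_⟩, kg, c.ky, c.fe, c.fe', c.nH, ?_, fun b b1 b2 => ?_, fun v hv => ?_⟩
  · simp [e1, hS'.1, (FK_ne fu kg).symm, q1.symm, q2.symm, q3.symm, Ne.symm uS'.2.1,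
      Ne.symm uS'.2.2.1, Ne.symm uS'.2.2.2]
  · rw [hs b hb]; exact c.pat.opp b hb
  · rw [s2]; exact c.pat.c1
  · rw [s3]; exact c.pat.c4
  · have := c.inS
    simp only [mem_insert, mem_singleton, forall_eq_or_imp, forall_eq] at this ⊢
    exact ⟨hg, this.2⟩
  · by_cases hb : b = a
    · subst hb
      exact ⟨u, x, Function.update_self _ _ _, by omega, fu, c.kx, h4, c.inS x (by simp)⟩
    · rw [Function.update_of_ne hb]; exact c.pair b b1 b2
  · rcases c.cover v hv with hh | ⟨b, b1, b2, b3⟩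
    · rcases mem_insert.1 hh with rfl | hh
      · exact Or.inr ⟨a, h1, h2, by simp⟩
      · exact Or.inl (mem_insert_of_mem hh)
    · by_cases hb : b = a
      · subst hb
        rw [e1, mem_insert, mem_singleton] at b3
        rcases b3 with rfl | rfl
        · exact Or.inr ⟨b, h1, h2, by simp⟩
        · exact Or.inl (by simp)
      · exact Or.inr ⟨b, b1, b2, by rwa [Function.update_of_ne hb]⟩

theorem Cfg.same_y (c : P.Cfg z η f i j x y e e') {g : V} (h : P.Opp g x) : P.Same g y :=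
  fun a ha => by have := h a ha; have := c.pat.opp a ha; omega

theorem Cfg.tr (c : P.Cfg z η f i j x y e e') {m : Nd J V → Nd J V} {r : V}
    (hm : ∀ z, m (m z) = z)
    (hC : ∀ a, ¬ η (ag a) = ag a → ∃ c, m (ag a) = vx c ∧ P.col a c = none)
    (hfix : ∀ v, η (vx v) = vx v → v ≠ x → v ≠ r → m (vx v) = vx v) {A : Finset J} {S : Finset V}
    (h : P.PS f A S) (hi : i ∈ A) (hj : j ∈ A) (hx : x ∈ S) (hr : r ∈ S ∨ η (vx r) ≠ vx r)
    (S' : Finset V) (hS : ∀ v ∈ S', (v ∈ S ∧ m (vx v) = vx v) ∨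
      ((∀ b, m (vx v) ≠ ag b) ∧ (η (vx v) ≠ vx v ∨ m (vx v) ≠ vx v))) : ∃ f', P.PS f' A S' := by
  have key : ∀ b, η (ag b) = ag b → b ∉ A → ∀ v ∈ f b, η (vx v) = vx v ∧ m (vx v) = vx v := by
    intro b b1 b2 v hv
    have b3 : b ∉ ({i, j} : Finset J) := by
      simp only [mem_insert, mem_singleton]
      rintro (rfl | rfl) <;> contradiction
    obtain ⟨u, k, e1, -, -, -, e2, e3⟩ := c.pair b b1 b3
    have e4 : η (vx v) = vx v := by
      rw [e1, mem_insert, mem_singleton] at hv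
      rcases hv with rfl | rfl <;> assumption
    refine ⟨e4, hfix v e4 (fun e5 => h.avoid b v b2 (e5 ▸ hx) hv) (fun e5 => ?_)⟩
    subst e5
    exact hr.elim (fun hh => h.avoid b v b2 hh hv) (fun hh => hh e4)
  refine h.transfer (fun a => η (ag a) = ag a) hm hC S' (fun v hv => ?_)
    (fun b b1 b2 v hv a => by rw [(key b b1 b2 v hv).2]; simp)
  rcases hS v hv with ⟨h1, h2⟩ | ⟨h1, h2⟩
  · exact ⟨fun a => by rw [h2]; simp, fun b _ b2 => h.avoid b v b2 h1⟩
  · exact ⟨h1, fun b b1 b2 b3 => h2.elim (fun hh => hh (key b b1 b2 v b3).1)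
      (fun hh => hh (key b b1 b2 v b3).2)⟩

theorem Cfg.two (c : P.Cfg z η f i j x y e e') (hz : P.W z) (hη : P.MaxC η)
    {m : Nd J V → Nd J V} {r p q : V} (hm : ∀ z, m (m z) = z)
    (hC : ∀ a, ¬ η (ag a) = ag a → ∃ c, m (ag a) = vx c ∧ P.col a c = none)
    (hfix : ∀ v, η (vx v) = vx v → v ≠ x → v ≠ r → m (vx v) = vx v) (hr : η (vx r) = vx r)
    (hrx : r ≠ x) (g : ∀ b, P.JD b → P.Good b p q) (hpq : m (vx p) = vx q) :
    P.Feasible := by
  have p0 := c.pat
  have a1 := p0.opp i p0.di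
  have a2 := p0.opp j p0.dj
  have := p0.c1; have := p0.c2; have := p0.c3; have := p0.c4
  obtain ⟨-, q1, q2, q3, q4, q5, q6⟩ := p0.ne
  have pq := (g i p0.di).ne
  have hqp : m (vx q) = vx p := by rw [← hpq, hm]
  have np : ∀ v, m (vx v) = vx v → v ≠ p ∧ v ≠ q := fun v hv =>
    ⟨fun e1 => pq (by rw [e1, hpq] at hv; simpa using hv.symm),
      fun e1 => pq (by rw [e1, hqp] at hv; simpa using hv)⟩
  have tr : ∀ {A : Finset J} {S : Finset V}, P.PS f A S → i ∈ A → j ∈ A → x ∈ S → r ∈ S →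
      (∀ v ∈ S, η (vx v) = vx v) → ∃ f', P.PS f' A (insert p (insert q ((S.erase x).erase r))) :=
    fun h hi hj hx hr' hS => c.tr hm hC hfix h hi hj hx (Or.inl hr') _ (fun v hv => by
      rcases mem_insert.1 hv with rfl | hv
      · exact Or.inr ⟨fun b => by rw [hpq]; simp, Or.inr (by rw [hpq]; simpa using pq.symm)⟩
      rcases mem_insert.1 hv with rfl | hv
      · exact Or.inr ⟨fun b => by rw [hqp]; simp, Or.inr (by rw [hqp]; simpa using pq)⟩
      simp only [mem_erase] at hv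
      exact Or.inl ⟨hv.2.2, hfix v (hS v hv.2.2) hv.2.1 hv.1⟩)
  have fy : y ≠ r → y ≠ p ∧ y ≠ q := fun h => np y (hfix y (c.inS y (by simp)) q1.symm h)
  have fe : e ≠ r → e ≠ p ∧ e ≠ q := fun h => np e (hfix e (c.inS e (by simp)) q2.symm h)
  have fe' : e' ≠ r → e' ≠ p ∧ e' ≠ q := fun h => np e' (hfix e' (c.inS e' (by simp)) q3.symm h)
  by_cases hS : r ∈ ({x, y, e, e'} : Finset V)
  · obtain ⟨f', h'⟩ := tr c.ps (by simp) (by simp) (by simp) hS c.inS
    simp only [mem_insert, mem_singleton] at hS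
    rcases hS with rfl | rfl | rfl | rfl
    · exact absurd rfl hrx
    · exact h'.sol2 (i := i) (j := j) (by simp) (u := e) (v := e') (u' := p) (v' := q)
        (by simp [q2.symm, q4.symm]) (by simp [q3.symm, q5.symm]) (by simp) (by simp)
        (good_of p0.di p0.we p0.we' (by omega) c.nH) (g j p0.dj) (fe q4.symm).1.symm
        (fe' q5.symm).1.symm (fe q4.symm).2.symm (fe' q5.symm).2.symm
    · exact h'.sol2 (i := j) (j := i) (by simp) (u := e') (v := y) (u' := p) (v' := q)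
        (by simp [q3.symm, q6.symm]) (by simp [q1.symm, q4]) (by simp) (by simp)
        (FK_good hz p0.dj c.fe' c.ky (by omega)) (g i p0.di) (fe' q6.symm).1.symm
        (fy q4).1.symm (fe' q6.symm).2.symm (fy q4).2.symm
    · exact h'.sol2 (i := i) (j := j) (by simp) (u := e) (v := y) (u' := p) (v' := q)
        (by simp [q2.symm, q6]) (by simp [q1.symm, q5]) (by simp) (by simp)
        (FK_good hz p0.di c.fe c.ky (by omega)) (g j p0.dj) (fe q6).1.symm
        (fy q5).1.symm (fe q6).2.symm (fy q5).2.symm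
  obtain ⟨a, u, k, h1, h2, e1, h3, fu, kk, h4, h5, h6⟩ := c.locate hr hS
  have ha : P.JD a := ⟨η, hη, h1⟩
  have a3 := p0.opp a ha
  have uS : u ∉ ({x, y, e, e'} : Finset V) := fun hh => c.ps.avoid a u h2 hh (by simp [e1])
  have kS : k ∉ ({x, y, e, e'} : Finset V) := fun hh => c.ps.avoid a k h2 hh (by simp [e1])
  have uk := FK_ne fu kk
  obtain ⟨f', h'⟩ := tr (c.ps.unserve h2) (by simp) (by simp) (by simp)
    (mem_union_left _ (by rcases h6 with rfl | rfl <;> simp [e1])) (fun v hv => by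
      rcases mem_union.1 hv with hv | hv
      · rw [e1, mem_insert, mem_singleton] at hv
        rcases hv with rfl | rfl <;> assumption
      · exact c.inS v hv)
  simp only [mem_insert, mem_singleton, not_or] at hS uS kS
  obtain ⟨y1, y2⟩ := fy (Ne.symm hS.2.1)
  obtain ⟨e2, e3⟩ := fe (Ne.symm hS.2.2.1)
  obtain ⟨e4, e5⟩ := fe' (Ne.symm hS.2.2.2)
  have my : y ∈ insert p (insert q (((f a ∪ {x, y, e, e'}).erase x).erase r)) := by
    simp [q1.symm, Ne.symm hS.2.1]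
  have me : e ∈ insert p (insert q (((f a ∪ {x, y, e, e'}).erase x).erase r)) := by
    simp [q2.symm, Ne.symm hS.2.2.1]
  have me' : e' ∈ insert p (insert q (((f a ∪ {x, y, e, e'}).erase x).erase r)) := by
    simp [q3.symm, Ne.symm hS.2.2.2]
  rcases h6 with rfl | rfl
  · obtain ⟨k1, k2⟩ := np k (hfix k h5 kS.1 uk.symm)
    have mk : k ∈ insert p (insert q (((f a ∪ {x, y, e, e'}).erase x).erase r)) := by
      simp [e1, kS.1, uk.symm]
    rcases Ks_rel hz kk c.kx with s | s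
    · have s1 := s i p0.di
      have s2 := s j p0.dj
      refine lemKK h' (by simp) (x := k) ⟨p0.di, p0.dj, kk.w, p0.wy, p0.we, p0.we',
        fun b hb => by rw [s b hb]; exact p0.opp b hb, by omega, p0.c2, p0.c3, by omega⟩ ha g ?_
        (by simp) (by simp) hz kk c.ky c.fe c.fe'
      simp only [mem_insert, mem_singleton, forall_eq_or_imp, forall_eq] at my me me' mk ⊢
      exact ⟨⟨mk, k1, k2⟩, ⟨my, y1, y2⟩, ⟨me, e2, e3⟩, me', e4, e5⟩
    · have s2 := s j p0.dj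
      exact h'.sol3 (i := i) (j := j) (m := a) (by simp) me my me' mk (by simp) (by simp)
        (FK_good hz p0.di c.fe c.ky (by omega)) (FK_good hz p0.dj c.fe' kk (by omega)) (g a ha)
        (by simp [*, q4.symm, Ne.symm kS.2.1, Ne.symm kS.2.2.1, Ne.symm kS.2.2.2])
  · obtain ⟨k1, k2⟩ := np u (hfix u h4 uS.1 uk)
    have mu : u ∈ insert p (insert q (((f a ∪ {x, y, e, e'}).erase x).erase r)) := by
      simp [e1, uS.1, uk]
    exact lemRF (h'.serve2 (mem_insert_self _ _) (mem_insert_of_mem (mem_insert_self _ _)) (g a ha)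
      (A' := {i, j}) (S' := {y, e, e', u}) (by simp)
      (by simp only [mem_insert, mem_singleton, forall_eq_or_imp, forall_eq] at my me me' mu ⊢
          exact ⟨⟨my, y1, y2⟩, ⟨me, e2, e3⟩, ⟨me', e4, e5⟩, mu, k1, k2⟩))
      (by simp) p0 c.nH hz c.ky c.fe' fu (by simp) (by simp) (by simp) (by simp)
      uS.2.2.1 uS.2.2.2

theorem Cfg.front (c : P.Cfg z η f i j x y e e') (hz : P.W z) (hη : P.MaxC η) {g : V}
    (hg : η (vx g) = vx g) (kg : P.Ks z g) : ∃ f' i' j' y', P.Cfg z η f' i' j' g y' e e' := by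
  rcases Ks_rel hz kg c.kx with s | s
  · obtain ⟨f', c'⟩ := c.rename hz hη hg kg s
    exact ⟨f', i, j, y, c'⟩
  · obtain ⟨f', c'⟩ := c.swap.rename hz hη hg kg (c.same_y s)
    exact ⟨f', j, i, x, c'⟩

theorem Cfg.dl_zero (c : P.Cfg z η f i j x y e e') : P.dl z η = 0 := by
  classical
  obtain ⟨-, q1, q2, q3, q4, q5, q6⟩ := c.pat.ne
  set B := univ.filter fun a => η (ag a) = ag a ∧ a ∉ ({i, j} : Finset J) with hB
  have mB : ∀ a, a ∈ B ↔ η (ag a) = ag a ∧ a ∉ ({i, j} : Finset J) := fun a => by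
    rw [hB, mem_filter]; simp only [mem_univ, true_and]
  have e1 : (univ.filter fun v => η (vx v) = vx v) = {x, y, e, e'} ∪ B.biUnion f := by
    ext v
    rw [mem_filter, mem_union, mem_biUnion]
    constructor
    · intro hv
      exact (c.cover v hv.2).imp_right fun ⟨a, h1, h2, h3⟩ => ⟨a, (mB a).2 ⟨h1, h2⟩, h3⟩
    · rintro (hv | ⟨a, ha, hv⟩)
      · exact ⟨mem_univ _, c.inS v hv⟩
      · obtain ⟨u, k, e1, -, -, -, e2, e3⟩ := c.pair a ((mB a).1 ha).1 ((mB a).1 ha).2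
        rw [e1, mem_insert, mem_singleton] at hv
        rcases hv with rfl | rfl <;> exact ⟨mem_univ _, by assumption⟩
  unfold dl
  rw [← sum_filter, e1, sum_union, sum_biUnion, sum_eq_zero (s := B)]
  · rw [sum_insert (by simp [*]), sum_insert (by simp [*]), sum_pair q6, sg_K c.kx, sg_K c.ky,
      sg_F c.fe, sg_F c.fe']
    norm_num
  · intro a ha
    obtain ⟨u, k, e1, -, fu, kk, -⟩ := c.pair a ((mB a).1 ha).1 ((mB a).1 ha).2
    rw [e1, sum_pair (FK_ne fu kk), sg_F fu, sg_K kk]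
    norm_num
  · intro a ha b hb hab
    exact disjoint_left.2 fun v h1 h2 =>
      hab (c.ps.disj a b v ((mB a).1 ha).2 ((mB b).1 hb).2 h1 h2)
  · refine disjoint_left.2 fun v h1 h2 => ?_
    obtain ⟨a, ha, hv⟩ := mem_biUnion.1 h2
    exact c.ps.avoid a v ((mB a).1 ha).2 h1 hv

end

/-- The case of one `H`-edge. -/
theorem tc0 (hc : P.Char) (hcr : P.Crit) (hg : P.G2) : P.Feasible := by
  obtain ⟨f, i, j, x, y, e, e', h, p, -, nH⟩ := hg
  by_contra hn
  obtain ⟨η, T⟩ := h.tight hcr p.card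
  obtain ⟨fe, fe'⟩ := p.fs
  have kx := Ks_self p.wx
  have hF := (((hc.2.2 hcr).2.1 x p.wx).2).resolve_right fun k => hn (k.feasible p.wx)
  have c : P.Cfg x η f i j x y e e' := by
    refine ⟨h, p, kx, p.ky, fe, fe', nH, T.inS, fun a h1 h2 => ?_, fun v hv => ?_⟩
    · obtain ⟨u, v, e1, g, hu, hv⟩ := T.pair h2 h1
      have ha := T.jd h1
      have gb := g.bc_ne
      have a3 := p.opp a ha
      have m : ∀ w ∈ ({x, y, e, e'} : Finset V), w ∈ f a ∪ {x, y, e, e'} ∧ w ≠ u ∧ w ≠ v :=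
        fun w hw => ⟨mem_union_right _ hw, fun k => h.avoid a w h2 hw (by simp [e1, k]),
          fun k => h.avoid a w h2 hw (by simp [e1, k])⟩
      have mu : u ∈ f a ∪ {x, y, e, e'} := by simp [e1]
      have mv : v ∈ f a ∪ {x, y, e, e'} := by simp [e1]
      rcases FK_cases x (T.w hu) with k | k <;> rcases FK_cases x (T.w hv) with k' | k'
      · exfalso
        by_cases k1 : P.bc a u = P.bc a x
        · exact hn (lem2FF (h.unserve h2) (by simp) p nH ha k k' g.2.2.2 k1 (by omega) m mu mv)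
        · exact hn (lem2FF (h.unserve h2) (by simp) p nH ha k' k g.symm.2.2.2 (by omega) (by omega)
            (fun w hw => ⟨(m w hw).1, (m w hw).2.2, (m w hw).2.1⟩) mv mu)
      · exact ⟨u, v, e1, gb, k, k', hu, hv⟩
      · exact ⟨v, u, by rw [e1, pair_comm], gb.symm, k', k, hv, hu⟩
      · have o := (Ks_rel p.wx k k').resolve_left fun s => gb (s a ha)
        exact absurd (lemKK (h.unserve h2) (by simp) p ha
          (fun b hb => good_of hb k.w k'.w (o b hb) g.2.2.2) m mu mv p.wx kx p.ky fe fe') hn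
    · by_cases hS : v ∈ ({x, y, e, e'} : Finset V)
      · exact Or.inl hS
      · obtain ⟨a, u, h1, h2, e1, -⟩ := T.in_pair hS hv
        exact Or.inr ⟨a, h2, h1, by simp [e1]⟩
  obtain ⟨m, g, r, hm, hC, hg, kg, hfix, hr⟩ := flex_types hcr T.maxC T.size c.dl_zero hF
  obtain ⟨f', i', j', y', c'⟩ := c.front p.wx T.maxC hg kg
  rcases hr with ⟨r1, r2, r3⟩ | ⟨r1, r2, u, v, wu, wv, o, nH', -, e1⟩
  · obtain ⟨-, q1, q2, q3, -⟩ := c'.pat.ne
    have nr : ∀ v ∈ ({g, y', e, e'} : Finset V), v ≠ r := fun v hv k => r1 (k ▸ c'.inS v hv)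
    have fx : ∀ v ∈ ({g, y', e, e'} : Finset V), v ≠ g → m (vx v) = vx v := fun v hv k =>
      hfix v (c'.inS v hv) k (nr v hv)
    obtain ⟨f'', h''⟩ := c'.tr hm hC hfix c'.ps (by simp) (by simp) (by simp) (Or.inr r1)
      {y', e, e', r} (by
        simp only [mem_insert, mem_singleton, forall_eq_or_imp, forall_eq]
        exact ⟨Or.inl ⟨by simp, fx _ (by simp) q1.symm⟩, Or.inl ⟨by simp, fx _ (by simp) q2.symm⟩,
          Or.inl ⟨by simp, fx _ (by simp) q3.symm⟩, Or.inr ⟨fun b => by rw [r3]; simp, Or.inl r1⟩⟩)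
    exact hn (lemRF h'' (by simp) c'.pat nH p.wx c'.ky fe' r2 (by simp) (by simp) (by simp)
      (by simp) (nr e (by simp)).symm (nr e' (by simp)).symm)
  · exact hn (c'.two p.wx T.maxC hm hC hfix r1 r2 (fun b hb => good_of hb wu wv (o b hb) nH') e1)

theorem gadget_feasible (hc : P.Char) (hcr : P.Crit) (hg : P.Gadget) : P.Feasible := by
  obtain ⟨f, i, j, x, y, e, e', hij, h, hx, ci, cj, c1, c2, c3, c4⟩ := hg
  have ni := P.compat i x y hx ci
  have nj := P.compat j x y hx cj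
  have card : 2 * ({i, j} : Finset J).card ≤ ({x, y, e, e'} : Finset V).card := by
    have q1 : x ≠ y := fun k => ni (k ▸ rfl)
    have q2 : x ≠ e := fun k => nj (k ▸ c3)
    have q3 : x ≠ e' := fun k => ni (k ▸ c2)
    have q4 : y ≠ e := fun k => ni (k ▸ c1.symm)
    have q5 : y ≠ e' := fun k => nj (k ▸ c4.symm)
    have q6 : e ≠ e' := fun k => ni (c1.symm.trans (k ▸ c2))
    rw [card_pair hij, card_insert_of_notMem (by simp [*]), card_insert_of_notMem (by simp [*]),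
      card_pair q6]
  obtain ⟨η, T⟩ := h.tight hcr card
  have wx := T.w (T.inS x (by simp))
  have wy := T.w (T.inS y (by simp))
  have p : P.Pat i j x y e e' := ⟨T.jd (T.inA i (by simp)), T.jd (T.inA j (by simp)), wx, wy,
    T.w (T.inS e (by simp)), T.w (T.inS e' (by simp)), H_opp wx wy hx, bc_of_col c1, bc_of_col c2,
    bc_of_col c3, bc_of_col c4⟩
  by_cases he : P.H e e'
  · exact (tc1 hc hcr h p hx he).elim id (tc0 hc hcr)
  · exact tc0 hc hcr ⟨f, i, j, x, y, e, e', h, p, hx, he⟩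

end AP

end Pool.Agent.Lib.MP_ef7581_lc
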