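import Mathlib
import Pool.Agent.Lib.MP_ef7581_lc.St

/-!
Closest improving matchings and the exchange lemmas (swing, split, shortcut).
-/

set_option autoImplicit false
set_option linter.unusedSectionVars false

namespace Pool.Agent.Lib.MP_ef7581_lc

open Finset

variable {α : Type} [Fintype α] [DecidableEq α]

def gK (ω : α → α → ℕ) (x y : α) : ℤ := if y = x then 0 else ω x y
def gD (μ : α → α) (x y : α) : ℤ :=
  (if y ≠ x ∧ y ≠ μ x then 1 else 0) + (if μ x ≠ x ∧ μ x ≠ y then 1 else 0)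
def gE (μ : α → α) (x y : α) : ℤ := if (μ x = x ∧ y ≠ x) ∨ (μ x ≠ x ∧ y = x) then 1 else 0

theorem sm_gK (ω : α → α → ℕ) (m : α → α) : sm (gK ω) m = wt2 ω m := by
  unfold sm gK wt2; push_cast; rfl

theorem sm_gE (μ m : α → α) : sm (gE μ) m = ((univ.filter fun x => IsEnd μ m x).card : ℤ) := by
  unfold sm gE IsEnd; simp

theorem gD_nonneg (μ : α → α) (x y : α) : 0 ≤ gD μ x y := by unfold gD; positivity

theorem D_nonneg (μ m : α → α) : 0 ≤ sm (gD μ) m := sum_nonneg fun _ _ => gD_nonneg _ _ _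

theorem D_self (μ : α → α) : sm (gD μ) μ = 0 := by unfold sm gD; simp

theorem D_pos {μ m : α → α} {x : α} (h : μ x ≠ m x) : 1 ≤ sm (gD μ) m := by
  refine le_trans ?_ (single_le_sum (f := fun x => gD μ x (m x)) (fun _ _ => gD_nonneg _ _ _)
    (mem_univ x))
  unfold gD
  by_cases e : m x = x
  · have : μ x ≠ x := by rwa [e] at h
    simp [e, this]
  · have := h.symm
    simp only [ne_eq, e, not_false_eq_true, this, and_self, if_true]; split_ifs <;> omega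

theorem D_ge4 {μ m : α → α} (hμ : ∀ x, μ (μ x) = x) (hm : ∀ x, m (m x) = x) {y e : α}
    (h1 : μ y ≠ y) (h2 : μ y ≠ m y) (h3 : m e ≠ e) (h4 : m e ≠ μ e) : 4 ≤ sm (gD μ) m := by
  unfold sm gD
  rw [sum_add_distrib]
  have a : (2 : ℤ) ≤ ∑ x, if m x ≠ x ∧ m x ≠ μ x then 1 else 0 := by
    refine le_trans ?_ (sum_le_sum_of_subset_of_nonneg (subset_univ {e, m e})
      (fun _ _ _ => by positivity))
    have : e ≠ μ (m e) := fun h => h4 (by rw [← hμ (m e), ← h])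
    rw [sum_pair h3.symm, hm]; simp [h3, h4, h3.symm, this]
  have b : (2 : ℤ) ≤ ∑ x, if μ x ≠ x ∧ μ x ≠ m x then 1 else 0 := by
    refine le_trans ?_ (sum_le_sum_of_subset_of_nonneg (subset_univ {y, μ y})
      (fun _ _ _ => by positivity))
    have : y ≠ m (μ y) := fun h => h2 (by rw [← hm (μ y), ← h])
    rw [sum_pair h1.symm, hμ]; simp [h1, h2, h1.symm, this]
  linarith

theorem D_cut_new {μ m : α → α} (hμ : ∀ x, μ (μ x) = x) (hm : ∀ x, m (m x) = x) {x y : α}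
    (e : m x = y) (hxy : x ≠ y) (hn : μ x ≠ y) : sm (gD μ) (cut x m) = sm (gD μ) m - 2 := by
  have hn' : μ y ≠ x := fun h => hn (by rw [← h, hμ])
  rw [sm_cut _ hm hxy e]; unfold gD
  simp [hxy, hxy.symm, hn, hn', hn.symm, hn'.symm]; ring

theorem D_cut_old {μ m : α → α} (hμ : ∀ x, μ (μ x) = x) (hm : ∀ x, m (m x) = x) {x y : α}
    (e : m x = y) (hxy : x ≠ y) (hn : μ x = y) : sm (gD μ) (cut x m) = sm (gD μ) m + 2 := by
  have hn' : μ y = x := by rw [← hn, hμ]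
  rw [sm_cut _ hm hxy e]; unfold gD
  simp [hxy, hxy.symm, hn, hn']; ring

theorem D_link_new {μ m : α → α} (hμ : ∀ x, μ (μ x) = x) {x y : α} (hx : m x = x) (hy : m y = y)
    (hxy : x ≠ y) (hn : μ x ≠ y) : sm (gD μ) (link x y m) = sm (gD μ) m + 2 := by
  have hn' : μ y ≠ x := fun h => hn (by rw [← h, hμ])
  rw [sm_link _ hxy hx hy]; unfold gD
  simp [hxy, hxy.symm, hn, hn', hn.symm, hn'.symm]; ring

theorem D_mix_add (μ m : α → α) (X : Finset α) :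
    sm (gD μ) (mix X μ m) + sm (gD μ) (mix Xᶜ μ m) = sm (gD μ) m := by
  rw [sm_mix_add, D_self, zero_add]

theorem K_cut {ω : α → α → ℕ} (hω : ∀ x y, ω x y = ω y x) {m : α → α} (hm : ∀ x, m (m x) = x)
    {x y : α} (e : m x = y) (hxy : x ≠ y) : sm (gK ω) (cut x m) = sm (gK ω) m - 2 * ω x y := by
  rw [sm_cut _ hm hxy e]; unfold gK; simp [hxy, hxy.symm, hω y x]; ring

theorem K_link {ω : α → α → ℕ} (hω : ∀ x y, ω x y = ω y x) {m : α → α} {x y : α} (hx : m x = x)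
    (hy : m y = y) (hxy : x ≠ y) : sm (gK ω) (link x y m) = sm (gK ω) m + 2 * ω x y := by
  rw [sm_link _ hxy hx hy]; unfold gK; simp [hxy, hxy.symm, hω y x]; ring

/-- The standing assumptions and a closest improving matching `ν`. -/
structure Opt {β : Type} [LinearOrder β] (E : α → α → Prop) (ω : α → α → ℕ) (c : (α → α) → β)
    (μ ν : α → α) : Prop where
  symE : ∀ x y, E x y → E y x
  symw : ∀ x y, ω x y = ω y x
  hμ : IsM E μ
  hν : IsM E ν
  imp : sm (gK ω) μ < sm (gK ω) ν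
  closer : ∀ m, IsM E m → sm (gD μ) m < sm (gD μ) ν → sm (gK ω) m ≤ sm (gK ω) μ
  ends : ∀ m, IsM E m → sm (gK ω) μ < sm (gK ω) m → sm (gD μ) m ≤ sm (gD μ) ν →
    sm (gE μ) m ≤ sm (gE μ) ν
  best : ∀ m, IsM E m → sm (gD μ) m ≤ sm (gD μ) ν → sm (gE μ) ν ≤ sm (gE μ) m →
    sm (gK ω) m ≤ sm (gK ω) ν
  cost : ∀ m, IsM E m → sm (gD μ) m ≤ sm (gD μ) ν → sm (gE μ) ν ≤ sm (gE μ) m →
    sm (gK ω) ν ≤ sm (gK ω) m → c ν ≤ c m

theorem exists_opt {β : Type} [LinearOrder β] {E : α → α → Prop} {ω : α → α → ℕ}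
    (c : (α → α) → β) {μ : α → α} (symE : ∀ x y, E x y → E y x) (symw : ∀ x y, ω x y = ω y x)
    (hμ : IsM E μ) (h : ∃ m, IsM E m ∧ wt2 ω μ < wt2 ω m) : ∃ ν, Opt E ω c μ ν := by
  classical
  let S0 : Finset (α → α) := univ.filter fun m => IsM E m ∧ sm (gK ω) μ < sm (gK ω) m
  have n0 : S0.Nonempty := by
    obtain ⟨m, h1, h2⟩ := h
    exact ⟨m, mem_filter.2 ⟨mem_univ _, h1, by rw [sm_gK, sm_gK]; exact_mod_cast h2⟩⟩
  obtain ⟨m1, a1, b1⟩ := exists_min_image S0 (sm (gD μ)) n0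
  let S1 := S0.filter fun m => sm (gD μ) m ≤ sm (gD μ) m1
  obtain ⟨m2, a2, b2⟩ := exists_max_image S1 (sm (gE μ)) ⟨m1, mem_filter.2 ⟨a1, le_rfl⟩⟩
  let S2 := S1.filter fun m => sm (gE μ) m2 ≤ sm (gE μ) m
  obtain ⟨m3, a3, b3⟩ := exists_max_image S2 (sm (gK ω)) ⟨m2, mem_filter.2 ⟨a2, le_rfl⟩⟩
  let S3 := S2.filter fun m => sm (gK ω) m3 ≤ sm (gK ω) m
  obtain ⟨ν, a4, b4⟩ := exists_min_image S3 c ⟨m3, mem_filter.2 ⟨a3, le_rfl⟩⟩
  obtain ⟨p2, k3⟩ := mem_filter.1 a4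
  obtain ⟨p1, k2⟩ := mem_filter.1 p2
  obtain ⟨p0, k1⟩ := mem_filter.1 p1
  obtain ⟨_, hν, imp⟩ := mem_filter.1 p0
  have in0 : ∀ m, IsM E m → sm (gK ω) μ < sm (gK ω) m → m ∈ S0 := fun m h1 h2 =>
    mem_filter.2 ⟨mem_univ _, h1, h2⟩
  refine ⟨ν, symE, symw, hμ, hν, imp, fun m hm hd => ?_, fun m hm hi hd => ?_,
    fun m hm hd he => ?_, fun m hm hd he hk => ?_⟩
  · by_contra hc
    have := b1 m (in0 m hm (not_le.1 hc)); omega
  · exact (b2 m (mem_filter.2 ⟨in0 m hm hi, hd.trans k1⟩)).trans k2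
  · by_cases hi : sm (gK ω) μ < sm (gK ω) m
    · exact (b3 m (mem_filter.2 ⟨mem_filter.2 ⟨in0 m hm hi, hd.trans k1⟩, k2.trans he⟩)).trans k3
    · omega
  · exact b4 m (mem_filter.2 ⟨mem_filter.2 ⟨mem_filter.2 ⟨in0 m hm (imp.trans_le hk), hd.trans k1⟩,
      k2.trans he⟩, k3.trans hk⟩)

namespace Opt

variable {β : Type} [LinearOrder β] {E : α → α → Prop} {ω : α → α → ℕ} {c : (α → α) → β}
  {μ ν : α → α}

theorem two (h : Opt E ω c μ ν) {m1 m2 : α → α} (h1 : IsM E m1) (h2 : IsM E m2)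
    (d1 : sm (gD μ) m1 < sm (gD μ) ν) (d2 : sm (gD μ) m2 < sm (gD μ) ν)
    (k : sm (gK ω) μ + sm (gK ω) ν ≤ sm (gK ω) m1 + sm (gK ω) m2) : False := by
  have := h.closer m1 h1 d1; have := h.closer m2 h2 d2; have := h.imp; omega

/-- The difference of `μ` and `ν` is connected. -/
theorem closed (h : Opt E ω c μ ν) {X : Finset α} (c1 : Cl X μ) (c2 : Cl X ν) {x y : α}
    (hx : x ∈ X) (hd : μ x ≠ ν x) (hy : μ y ≠ ν y) : y ∈ X := by
  by_contra hn
  have e := D_mix_add μ ν X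
  have a : 1 ≤ sm (gD μ) (mix X μ ν) := D_pos (x := x) (by rwa [mix_in hx])
  have b : 1 ≤ sm (gD μ) (mix Xᶜ μ ν) := D_pos (x := y) (by rwa [mix_in (mem_compl.2 hn)])
  exact h.two (h.hμ.mix h.hν c1 c2) (h.hμ.mix h.hν (c1.compl h.hμ.1) (c2.compl h.hν.1))
    (by omega) (by omega) (sm_mix_add _ _ _ _).ge

theorem other_end (h : Opt E ω c μ ν) {e : α} (he : IsEnd μ ν e) :
    ∃ e', e' ≠ e ∧ IsEnd μ ν e' ∧ ∀ x, IsEnd μ ν x → x = e ∨ x = e' := by
  obtain ⟨X, e', m1, _, m3, c1, c2, m4, m5, _⟩ := exists_path h.hμ.1 h.hν.1 he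
  exact ⟨e', m3, m4, fun x hx => m5 x (h.closed c1 c2 m1 he.ne hx.ne) hx⟩

theorem three (h : Opt E ω c μ ν) {a b d : α} (ha : IsEnd μ ν a) (hb : IsEnd μ ν b)
    (hd : IsEnd μ ν d) : a = b ∨ a = d ∨ b = d := by
  obtain ⟨e', _, _, h3⟩ := h.other_end ha
  rcases h3 b hb with rfl | rfl
  · exact Or.inl rfl
  · rcases h3 d hd with rfl | rfl <;> simp

theorem card_ends (h : Opt E ω c μ ν) : (univ.filter fun x => IsEnd μ ν x).card ≤ 2 := by
  by_cases hne : ∃ e, IsEnd μ ν e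
  · obtain ⟨e, he⟩ := hne
    obtain ⟨e', _, _, h3⟩ := h.other_end he
    refine le_trans (card_le_card (t := {e, e'}) fun x hx => ?_) card_le_two
    simpa using h3 x (mem_filter.1 hx).2
  · push Not at hne
    rw [filter_false_of_mem fun x _ => hne x]; simp

/-- The swing of the new edge `x y` to `x y'`. -/
theorem swing (h : Opt E ω c μ ν) {x y y' : α} (e : ν x = y) (hxy : x ≠ y) (hn : μ x ≠ y)
    (u1 : μ y' = y') (u2 : ν y' = y') (hE : E x y') (hw : ω x y ≤ ω x y') :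
    μ y = y ∧ ω x y' ≤ ω x y ∧ c ν ≤ c (link x y' (cut x ν)) := by
  have hxy' : x ≠ y' := fun e' => hxy (by rw [← e, e', u2])
  have hn' : μ x ≠ y' := fun e' => hxy' (by rw [← h.hμ.1 x, e', u1])
  have c1 : cut x ν x = x := cut_self _ _
  have c2 : cut x ν y' = y' := cut_fix u2
  have hM : IsM E (link x y' (cut x ν)) := (h.hν.cut x).link c1 c2 hE (h.symE _ _ hE)
  have hD : sm (gD μ) (link x y' (cut x ν)) = sm (gD μ) ν := by
    rw [D_link_new h.hμ.1 c1 c2 hxy' hn', D_cut_new h.hμ.1 h.hν.1 e hxy hn]; ring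
  have hK : sm (gK ω) (link x y' (cut x ν)) = sm (gK ω) ν - 2 * ω x y + 2 * ω x y' := by
    rw [K_link h.symw c1 c2 hxy', K_cut h.symw h.hν.1 e hxy]
  have hN : sm (gE μ) (link x y' (cut x ν)) = sm (gE μ) ν + if μ y = y then 0 else 2 := by
    rw [sm_link _ hxy' c1 c2, sm_cut _ h.hν.1 hxy e]; unfold gE
    by_cases a : μ x = x <;> by_cases b : μ y = y <;>
      simp [a, b, u1, hxy, hxy.symm, hxy', hxy'.symm] <;> ring
  have hw' : (ω x y : ℤ) ≤ ω x y' := by exact_mod_cast hw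
  have k1 := h.ends _ hM (by have := h.imp; omega) hD.le
  have hy : μ y = y := by
    by_contra b; rw [hN, if_neg b] at k1; omega
  rw [if_pos hy] at hN
  have k2 := h.best _ hM hD.le (by omega)
  exact ⟨hy, by omega, h.cost _ hM hD.le (by omega) (by omega)⟩

/-- Cutting a new edge `x y` at a `μ`-covered node `x`. -/
theorem split (h : Opt E ω c μ ν) {x y e0 : α} (e : ν x = y) (hxy : x ≠ y) (hn : μ x ≠ y)
    (hx : μ x ≠ x) (he0 : IsEnd μ ν e0) : ∃ X e, x ∈ X ∧ y ∉ X ∧ Cl X μ ∧ Cl X (cut x ν) ∧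
      e ∈ X ∧ IsEnd μ ν e ∧ ∀ z ∈ X, IsEnd μ ν z → z = e := by
  obtain ⟨X, e', m1, m2, m3, c1, c2, m4, m5, m6⟩ :=
    exists_path h.hμ.1 (inv_cut h.hν.1 x) (e := x) (Or.inr ⟨hx, cut_self _ _⟩)
  have cy : cut x ν y = y := e ▸ cut_mate x ν
  have nx : ∀ z, IsEnd μ ν z → z ≠ x := by
    rintro z (⟨a, _⟩ | ⟨_, b⟩) rfl
    · exact hx a
    · exact hxy (b.symm.trans e)
  have tr : ∀ z, z ≠ x → z ≠ y → (IsEnd μ (cut x ν) z ↔ IsEnd μ ν z) := fun z h1 h2 => by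
    unfold IsEnd; rw [cut_ne h1 (e ▸ h2)]
  have hy : y ∉ X := by
    intro hy
    have c3 : Cl X ν := by
      intro z hz
      by_cases a : z = x
      · rw [a, e]; exact hy
      by_cases b : z = y
      · rw [b, h.hν.flip e]; exact m1
      rw [← cut_ne (m := ν) a (by rwa [e])]; exact c2 z hz
    have hyc : μ y ≠ y := by have := m6 y hy; rwa [cy] at this
    have ey : y = e' := (m5 y hy (Or.inr ⟨hyc, cy⟩)).resolve_left hxy.symm
    have n0 : e0 ≠ y := by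
      rintro rfl
      rcases he0 with ⟨a, _⟩ | ⟨_, b⟩
      · exact hyc a
      · exact hxy ((h.hν.flip e).symm.trans b)
    have := m5 e0 (h.closed c1 c3 m1 (e ▸ hn) he0.ne) ((tr e0 (nx e0 he0) n0).2 he0)
    rcases this with a | a
    · exact nx e0 he0 a
    · exact n0 (a.trans ey.symm)
  refine ⟨X, e', m1, hy, c1, c2, m2, (tr e' m3 fun a => hy (a ▸ m2)).1 m4, fun z hz hz' => ?_⟩
  exact (m5 z hz ((tr z (nx z hz') fun a => hy (a ▸ hz)).2 hz')).resolve_left (nx z hz')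

/-- No shortcut from `y` to a `μ`-free node of the part of `x`. -/
theorem shortcut (h : Opt E ω c μ ν) {x y e : α} (exy : ν x = y) (hxy : x ≠ y) (hn : μ x ≠ y)
    (hx : μ x ≠ x) {X : Finset α} (m1 : x ∈ X) (m2 : y ∉ X) (c1 : Cl X μ) (c2 : Cl X (cut x ν))
    (m3 : e ∈ X) (he : μ e = e) (hE : E y e) (hw : ω x y ≤ ω y e) : False := by
  have hM0 := h.hν.cut x
  have hye : y ≠ e := fun a => m2 (a ▸ m3)
  have f1 : mix Xᶜ μ (cut x ν) y = y := by rw [mix_in (mem_compl.2 m2), ← exy, cut_mate]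
  have f2 : mix Xᶜ μ (cut x ν) e = e := by rw [mix_out (by simpa using m3), he]
  have d0 := D_cut_new h.hμ.1 h.hν.1 exy hxy hn
  have d1 := D_mix_add μ (cut x ν) X
  have d2 := D_link_new h.hμ.1 f1 f2 hye (fun a => hye (by rw [← h.hμ.1 y, a, he]))
  have d3 : 1 ≤ sm (gD μ) (mix X μ (cut x ν)) := D_pos (x := x) (by rwa [mix_in m1, cut_self])
  have d4 := D_nonneg μ (mix Xᶜ μ (cut x ν))
  have k0 := K_cut h.symw h.hν.1 exy hxy
  have k1 := sm_mix_add (gK ω) X μ (cut x ν)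
  have k2 := K_link h.symw f1 f2 hye
  have hw' : (ω x y : ℤ) ≤ ω y e := by exact_mod_cast hw
  exact h.two ((h.hμ.mix hM0 (c1.compl h.hμ.1) (c2.compl hM0.1)).link f1 f2 hE (h.symE _ _ hE))
    (h.hμ.mix hM0 c1 c2) (by omega) (by omega) (by omega)

/-- Freeing `v` through the alternating path `o, u, v` and swinging `x y` to `x v`. -/
theorem virt (h : Opt E ω c μ ν) {x y o u v e0 : α} (exy : ν x = y) (hxy : x ≠ y) (hn : μ x ≠ y)
    (hy : μ y ≠ y) (he0 : IsEnd μ ν e0) (hall : ∀ z, IsEnd μ ν z → μ z = z)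
    (p1 : ν v = u) (p2 : μ v = u) (huv : v ≠ u) (o1 : μ o = o) (o2 : ν o = o) (E1 : E o u)
    (E2 : E x v) (hw : ω v u + ω x y ≤ ω o u + ω x v) :
    ω o u + ω x v ≤ ω v u + ω x y ∧ ∃ m, c ν ≤ c m ∧ m y = μ y ∧
      ∀ z, z ≠ o → z ≠ u → z ≠ v → z ≠ x → m z = μ z ∨ m z = ν z := by
  have eyx := h.hν.flip exy
  have hn' : μ y ≠ x := fun a => hn (h.hμ.flip a)
  obtain ⟨Y, e, m1, m2, c1, c2, m3, m4, _⟩ := h.split eyx hxy.symm hn' hy he0
  have hM0 := h.hν.cut y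
  have he := hall e m4
  have he' : ν e ≠ e := fun a => m4.ne (he.trans a.symm)
  have xv : x ≠ v := fun a => hn (by rw [a, p2, ← p1, ← a, exy])
  have xu : x ≠ u := fun a => hn (by rw [a, h.hμ.flip p2, ← h.hν.flip p1, ← a, exy])
  have yv : y ≠ v := fun a => xu (by rw [← eyx, a, p1])
  have yu : y ≠ u := fun a => xv (by rw [← eyx, a, h.hν.flip p1])
  have ov : o ≠ v := fun a => huv (by rw [← p1, ← a, o2])
  have ou : o ≠ u := fun a => huv (by rw [← h.hν.flip p1, ← a, o2])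
  have ox : o ≠ x := fun a => hxy (by rw [← exy, ← a, o2])
  have oy : o ≠ y := fun a => hy (a ▸ o1)
  set m0 := mix Yᶜ μ (cut y ν) with hm0
  have hM1 : IsM E m0 := h.hμ.mix hM0 (c1.compl h.hμ.1) (c2.compl hM0.1)
  have g0 : ∀ z, z ≠ x → m0 z = μ z ∨ m0 z = ν z := by
    intro z hz
    by_cases a : z ∈ Y
    · left; exact mix_out (by simpa using a)
    · right; rw [hm0, mix_in (mem_compl.2 a), cut_ne (fun b : z = y => a (b ▸ m1)) (by rwa [eyx])]
  have f1 : m0 v = u := by rcases g0 v xv.symm with a | a <;> rw [a] <;> assumption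
  have f2 : m0 o = o := by rcases g0 o ox with a | a <;> rw [a] <;> assumption
  have f3 : m0 x = x := by rw [hm0, mix_in (mem_compl.2 m2), ← eyx, cut_mate]
  have q1 : cut v m0 o = o := cut_fix f2
  have q2 : cut v m0 u = u := f1 ▸ cut_mate v m0
  have q3 : link o u (cut v m0) x = x := by rw [link_ne ox.symm xu, cut_fix f3]
  have q4 : link o u (cut v m0) v = v := by rw [link_ne ov.symm huv, cut_self]
  have hM2 : IsM E (link o u (cut v m0)) := (hM1.cut v).link q1 q2 E1 (h.symE _ _ E1)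
  have hM3 := hM2.link q3 q4 E2 (h.symE _ _ E2)
  have d0 := D_cut_new h.hμ.1 h.hν.1 eyx hxy.symm hn'
  have d1 := D_mix_add μ (cut y ν) Y
  have d2 := D_cut_old h.hμ.1 hM1.1 f1 huv p2
  have d3 := D_link_new h.hμ.1 q1 q2 ou (by rw [o1]; exact ou)
  have d4 := D_link_new h.hμ.1 q3 q4 xv (fun a => xu (by rw [← h.hμ.flip a, p2]))
  have ey : e ≠ y := fun a => hy (a ▸ he)
  have ce : mix Y μ (cut y ν) e = ν e := by
    rw [mix_in m3, cut_ne ey (fun a => m2 (by rw [← eyx, ← a]; exact m3))]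
  have d5 : 4 ≤ sm (gD μ) (mix Y μ (cut y ν)) :=
    D_ge4 h.hμ.1 (h.hμ.mix hM0 c1 c2).1 (y := y) (e := e) hy (by rwa [mix_in m1, cut_self])
      (by rwa [ce]) (by rw [ce, he]; exact he')
  have d6 := D_nonneg μ m0
  have k0 := K_cut h.symw h.hν.1 eyx hxy.symm
  have k1 := sm_mix_add (gK ω) Y μ (cut y ν)
  have k2 := K_cut h.symw hM1.1 f1 huv
  have k3 := K_link h.symw q1 q2 ou
  have k4 := K_link h.symw q3 q4 xv
  have k5 := h.closer _ (h.hμ.mix hM0 c1 c2) (by rw [← hm0] at d1; omega)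
  have hw' : (ω v u : ℤ) + ω x y ≤ ω o u + ω x v := by exact_mod_cast hw
  have ws : (ω y x : ℤ) = ω x y := by rw [h.symw]
  rw [← hm0] at d1 k1
  have n1 : sm (gE μ) ν ≤ sm (gE μ) (link x v (link o u (cut v m0))) := by
    rw [sm_gE, sm_gE]
    have eo : IsEnd μ (link x v (link o u (cut v m0))) o :=
      Or.inl ⟨o1, by rw [link_ne ox ov, link_left]; exact ou.symm⟩
    obtain ⟨_, e', _, _, t3, _, _, t4, _⟩ := exists_path h.hμ.1 hM3.1 eo
    have : 2 ≤ (univ.filter fun z => IsEnd μ (link x v (link o u (cut v m0))) z).card := by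
      rw [← card_pair t3]
      exact card_le_card fun z hz => by
        simp only [mem_insert, mem_singleton] at hz
        rcases hz with rfl | rfl
        exacts [mem_filter.2 ⟨mem_univ _, t4⟩, mem_filter.2 ⟨mem_univ _, eo⟩]
    exact_mod_cast h.card_ends.trans this
  have b1 := h.best _ hM3 (by omega) n1
  refine ⟨by omega, _, h.cost _ hM3 (by omega) n1 (by omega), ?_, fun z z1 z2 z3 z4 => ?_⟩
  · rw [link_ne hxy.symm yv, link_ne oy.symm yu, cut_ne yv (f1 ▸ yu), hm0,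
      mix_out (by simpa using m1)]
  · rw [link_ne z4 z3, link_ne z1 z2, cut_ne z3 (f1 ▸ z2)]; exact g0 z z4

theorem outer (h : Opt E ω c μ ν) {x y a b z : α} (exy : ν x = y) (hxy : x ≠ y) (hn : μ x ≠ y)
    (hx : μ x ≠ x) (hy : μ y ≠ y) (ea : IsEnd μ ν a) (ha : μ a = a) (hb : μ b = b)
    (hall : ∀ e, IsEnd μ ν e → e = a ∨ e = b) (E1 : E x a) (E2 : E y b) (w1 : ω x y ≤ ω x a)
    (w2 : ω x y ≤ ω y b) (hz : μ z ≠ ν z) :
    ∃ O, Cl O μ ∧ Cl O (cut x ν) ∧ z ∉ O ∧ ((x ∈ O ∧ y ∉ O ∧ a ∈ O) ∨ (y ∈ O ∧ x ∉ O ∧ b ∈ O)) := by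
  have eyx := h.hν.flip exy
  have hn' : μ y ≠ x := fun a => hn (h.hμ.flip a)
  have cc : cut y ν = cut x ν := by
    funext z; unfold cut; rw [exy, eyx]; simp only [or_comm]
  obtain ⟨X, e, m1, m2, c1, c2, m3, m4, _⟩ := h.split exy hxy hn hx ea
  obtain ⟨Y, e', n1, n2, d1, d2, n3, n4, _⟩ := h.split eyx hxy.symm hn' hy ea
  have k1 : a ∈ X := by
    rcases hall e m4 with rfl | rfl
    · exact m3
    · exact (h.shortcut exy hxy hn hx m1 m2 c1 c2 m3 hb E2 w2).elim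
  have k2 : b ∈ Y := by
    rcases hall e' n4 with rfl | rfl
    · exact (h.shortcut eyx hxy.symm hn' hy n1 n2 d1 d2 n3 ha E1 (h.symw x y ▸ w1)).elim
    · exact n3
  rw [cc] at d2
  by_cases hX : z ∈ X
  · refine ⟨Y, d1, d2, fun hY => ?_, Or.inr ⟨n1, n2, k2⟩⟩
    have e1 : Cl (X ∩ Y) μ := fun t ht =>
      mem_inter.2 ⟨c1 t (mem_inter.1 ht).1, d1 t (mem_inter.1 ht).2⟩
    have e2 : Cl (X ∩ Y) ν := fun t ht => by
      have ht' := mem_inter.1 ht
      rw [← cut_ne (m := ν) (a := x) (fun a => n2 (a ▸ ht'.2))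
        (fun a => m2 (by rw [← exy, ← a]; exact ht'.1))]
      exact mem_inter.2 ⟨c2 t ht'.1, d2 t ht'.2⟩
    exact n2 (mem_inter.1 (h.closed e1 e2 (mem_inter.2 ⟨hX, hY⟩) hz (y := x) (by rwa [exy]))).2
  · exact ⟨X, c1, c2, hX, Or.inl ⟨m1, m2, k1⟩⟩

theorem two_core (h : Opt E ω c μ ν) {x y a b x' y' a' b' : α} (exy : ν x = y) (hxy : x ≠ y)
    (hn : μ x ≠ y) (hx : μ x ≠ x) (exy' : ν x' = y') (hxy' : x' ≠ y') (hn' : μ x' ≠ y')
    (ea : IsEnd μ ν a) (ha : μ a = a) (hb : μ b = b) (hy : μ y ≠ y) (hy' : μ y' ≠ y')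
    (hab : (a' = a ∧ b' = b) ∨ (a' = b ∧ b' = a)) (hne : a ≠ b) (E2 : E y b) (w2 : ω x y ≤ ω y b)
    (E2' : E y' b') (w2' : ω x' y' ≤ ω y' b') {O O' : Finset α} (c1 : Cl O μ) (c2 : Cl O (cut x ν))
    (d1 : Cl O' μ) (d2 : Cl O' (cut x' ν)) (m1 : x ∈ O) (m2 : y ∉ O) (m3 : a ∈ O) (m4 : x' ∉ O)
    (n1 : x' ∈ O') (n2 : y' ∉ O') (n3 : a' ∈ O') (n4 : x ∉ O') (hyx : y ≠ x') : False := by
  have eyx := h.hν.flip exy
  have eyx' := h.hν.flip exy'
  have xx : x ≠ x' := fun e => m4 (e ▸ m1)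
  have xy : x ≠ y' := fun e => hyx (by rw [← exy, e, eyx'])
  have yy : y ≠ y' := fun e => xx (by rw [← eyx, e, eyx'])
  have m5 : y' ∉ O := fun e => m4 (by
    have := c2 _ e; rwa [cut_ne xy.symm (by rw [exy]; exact yy.symm), eyx'] at this)
  have n5 : y ∉ O' := fun e => n4 (by
    have := d2 _ e; rwa [cut_ne hyx (by rw [exy']; exact yy), eyx] at this)
  have hM0 := h.hν.cut x
  have q0 : cut x ν x' = y' := by rw [cut_ne xx.symm (by rw [exy]; exact hyx.symm), exy']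
  have hM1 := hM0.cut x'
  rcases hab with ⟨rfl, rfl⟩ | ⟨rfl, rfl⟩
  · have e1 : Cl (O ∩ O') μ := fun t ht =>
      mem_inter.2 ⟨c1 t (mem_inter.1 ht).1, d1 t (mem_inter.1 ht).2⟩
    have e2 : Cl (O ∩ O') ν := fun t ht => by
      have ht' := mem_inter.1 ht
      refine mem_inter.2 ⟨?_, ?_⟩
      · rw [← cut_ne (m := ν) (a := x) (fun a => n4 (a ▸ ht'.2))
          (fun a => m2 (by rw [← exy, ← a]; exact ht'.1))]
        exact c2 t ht'.1
      · rw [← cut_ne (m := ν) (a := x') (fun a => m4 (a ▸ ht'.1))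
          (fun a => n2 (by rw [← exy', ← a]; exact ht'.2))]
        exact d2 t ht'.2
    exact n4 (mem_inter.1 (h.closed e1 e2 (mem_inter.2 ⟨m3, n3⟩) ea.ne (y := x) (by rwa [exy]))).2
  · have u1 : Cl (O ∪ O') μ := c1.union d1
    have u2 : Cl (O ∪ O') (cut x' (cut x ν)) := by
      intro t ht
      rcases cut_cases x' t (cut x ν) with e | e
      · rwa [e]
      rcases cut_cases x t ν with e' | e'
      · rwa [e, e']
      rcases mem_union.1 ht with a | a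
      · rw [e]; exact mem_union_left _ (c2 t a)
      · by_cases t1 : t = x'
        · rwa [t1, cut_self, ← t1]
        · rw [e, e', ← cut_ne (m := ν) t1 (fun b => n2 (by rw [← exy', ← b]; exact a))]
          exact mem_union_right _ (d2 t a)
    set m0 := mix (O ∪ O')ᶜ μ (cut x' (cut x ν)) with hm0
    have hM2 : IsM E m0 := h.hμ.mix hM1 (u1.compl h.hμ.1) (u2.compl hM1.1)
    have f1 : m0 y = y := by
      rw [hm0, mix_in (by simp [m2, n5])]; exact cut_fix (exy ▸ cut_mate x ν)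
    have f2 : m0 y' = y' := by
      rw [hm0, mix_in (by simp [n2, m5])]; exact q0 ▸ cut_mate x' (cut x ν)
    have f3 : m0 a' = a' := by rw [hm0, mix_out (by simp [n3]), hb]
    have f4 : m0 b' = b' := by rw [hm0, mix_out (by simp [m3]), ha]
    have ya : y ≠ a' := fun e => hy (e ▸ hb)
    have yb : y ≠ b' := fun e => hy (e ▸ ha)
    have ya' : y' ≠ a' := fun e => hy' (e ▸ hb)
    have yb' : y' ≠ b' := fun e => hy' (e ▸ ha)
    have f5 : link y a' m0 y' = y' := by rw [link_ne yy.symm ya', f2]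
    have f6 : link y a' m0 b' = b' := by rw [link_ne yb.symm hne, f4]
    have hM3 := (hM2.link f1 f3 E2 (h.symE _ _ E2)).link f5 f6 E2' (h.symE _ _ E2')
    have p0 := D_cut_new h.hμ.1 h.hν.1 exy hxy hn
    have p1 := D_cut_new h.hμ.1 hM0.1 q0 hxy' hn'
    have p2 := D_mix_add μ (cut x' (cut x ν)) (O ∪ O')
    have p3 := D_link_new h.hμ.1 f1 f3 ya (fun e => ya (by rw [← h.hμ.flip e, hb]))
    have p4 := D_link_new h.hμ.1 f5 f6 yb' (fun e => yb' (by rw [← h.hμ.flip e, ha]))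
    have p5 : 1 ≤ sm (gD μ) (mix (O ∪ O') μ (cut x' (cut x ν))) :=
      D_pos (x := x) (by rwa [mix_in (mem_union_left _ m1), cut_fix (cut_self _ _)])
    have p6 := D_nonneg μ m0
    have k0 := K_cut h.symw h.hν.1 exy hxy
    have k1 := K_cut h.symw hM0.1 q0 hxy'
    have k2 := sm_mix_add (gK ω) (O ∪ O') μ (cut x' (cut x ν))
    have k3 := K_link h.symw f1 f3 ya
    have k4 := K_link h.symw f5 f6 yb'
    have w3 : (ω x y : ℤ) ≤ ω y a' := by exact_mod_cast w2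
    have w4 : (ω x' y' : ℤ) ≤ ω y' b' := by exact_mod_cast w2'
    rw [← hm0] at p2 k2
    exact h.two hM3 (h.hμ.mix hM1 u1 u2) (by omega) (by omega) (by omega)

/-- Two new edges whose nodes are linked to the two ends crosswise cannot coexist. -/
theorem two_edges (h : Opt E ω c μ ν) {x y a b x' y' a' b' : α} (exy : ν x = y) (hxy : x ≠ y)
    (hn : μ x ≠ y) (hx : μ x ≠ x) (hy : μ y ≠ y) (exy' : ν x' = y') (hxy' : x' ≠ y')
    (hn' : μ x' ≠ y') (hx' : μ x' ≠ x') (hy' : μ y' ≠ y') (ea : IsEnd μ ν a) (eb : IsEnd μ ν b)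
    (ha : μ a = a) (hb : μ b = b) (hne : a ≠ b) (hab : (a' = a ∧ b' = b) ∨ (a' = b ∧ b' = a))
    (E1 : E x a) (E2 : E y b) (w1 : ω x y ≤ ω x a) (w2 : ω x y ≤ ω y b)
    (E1' : E x' a') (E2' : E y' b') (w1' : ω x' y' ≤ ω x' a') (w2' : ω x' y' ≤ ω y' b')
    (xx : x ≠ x') (xy : x ≠ y') : False := by
  have eyx := h.hν.flip exy
  have eyx' := h.hν.flip exy'
  have yx : y ≠ x' := fun e => xy (by rw [← eyx, e, exy'])
  have yy : y ≠ y' := fun e => xx (by rw [← eyx, e, eyx'])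
  have hall : ∀ e, IsEnd μ ν e → e = a ∨ e = b := fun e he => by
    rcases h.three ea eb he with t | t | t
    exacts [absurd t hne, Or.inl t.symm, Or.inr t.symm]
  have m1 : μ y ≠ x := fun a => hn (h.hμ.flip a)
  have m1' : μ y' ≠ x' := fun a => hn' (h.hμ.flip a)
  have cc : cut x ν = cut y ν := by
    funext z; unfold cut; rw [exy, eyx]; simp only [or_comm]
  have cc' : cut x' ν = cut y' ν := by
    funext z; unfold cut; rw [exy', eyx']; simp only [or_comm]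
  obtain ⟨O, c1, c2, z1, o1⟩ := h.outer exy hxy hn hx hy ea ha hb hall E1 E2 w1 w2 (z := x')
    (by rwa [exy'])
  have ea' : IsEnd μ ν a' ∧ μ a' = a' ∧ μ b' = b' ∧ ∀ e, IsEnd μ ν e → e = a' ∨ e = b' := by
    rcases hab with ⟨rfl, rfl⟩ | ⟨rfl, rfl⟩
    exacts [⟨ea, ha, hb, hall⟩, ⟨eb, hb, ha, fun e he => (hall e he).symm⟩]
  obtain ⟨O', d1, d2, z2, o2⟩ := h.outer exy' hxy' hn' hx' hy' ea'.1 ea'.2.1 ea'.2.2.1 ea'.2.2.2
    E1' E2' w1' w2' (z := x) (by rwa [exy])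
  have z1' : y' ∉ O := fun e => z1 (by
    have := c2 _ e; rwa [cut_ne xy.symm (by rw [exy]; exact yy.symm), eyx'] at this)
  have z2' : y ∉ O' := fun e => z2 (by
    have := d2 _ e; rwa [cut_ne yx (by rw [exy']; exact yy), eyx] at this)
  rcases o1 with ⟨s1, s2, s3⟩ | ⟨s1, s2, s3⟩ <;> rcases o2 with ⟨t1, t2, t3⟩ | ⟨t1, t2, t3⟩
  · exact h.two_core exy hxy hn hx exy' hxy' hn' ea ha hb hy hy' hab hne E2 w2 E2' w2' c1 c2 d1 d2
      s1 s2 s3 z1 t1 t2 t3 z2 yx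
  · exact h.two_core exy hxy hn hx eyx' hxy'.symm m1' ea ha hb hy hx' (by tauto) hne E2 w2 E1'
      (h.symw x' y' ▸ w1') c1 c2 d1 (cc' ▸ d2) s1 s2 s3 z1' t1 t2 t3 z2 yy
  · exact h.two_core eyx hxy.symm m1 hy exy' hxy' hn' eb hb ha hx hy' (by tauto) hne.symm E1
      (h.symw x y ▸ w1) E2' w2' c1 (cc ▸ c2) d1 d2 s1 s2 s3 z1 t1 t2 t3 z2' xx
  · exact h.two_core eyx hxy.symm m1 hy eyx' hxy'.symm m1' eb hb ha hx hx' (by tauto) hne.symm E1
      (h.symw x y ▸ w1) E1' (h.symw x' y' ▸ w1') c1 (cc ▸ c2) d1 (cc' ▸ d2) s1 s2 s3 z1' t1 t2 t3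
      z2' xy

end Opt

end Pool.Agent.Lib.MP_ef7581_lc
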