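import Mathlib
import Pool.Agent.Lib.MP_ef7581_lc.Opt
import Pool.Agent.Lib.MP_ef7581_lc.Img

/-!
Counting for closest improving matchings, the hard head lemma, and realisation of a matching as a
state.
-/

set_option autoImplicit false
set_option linter.unusedSectionVars false

namespace Pool.Agent.Lib.MP_ef7581_lc

open Finset

theorem ext_inj {α β : Type} [DecidableEq α] [DecidableEq β] (s s0 : Finset α) (t : Finset β)
    (f0 : α → β) (hs : s0 ⊆ s) (h1 : ∀ x ∈ s0, f0 x ∈ t) (h2 : Set.InjOn f0 s0)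
    (hc : s.card ≤ t.card) :
    ∃ f : α → β, (∀ x ∈ s, f x ∈ t) ∧ Set.InjOn f s ∧ ∀ x ∈ s0, f x = f0 x := by
  have c1 : (s \ s0).card ≤ (t \ s0.image f0).card := by
    rw [card_sdiff_of_subset hs, card_sdiff_of_subset (image_subset_iff.2 h1),
      card_image_of_injOn h2]
    omega
  obtain ⟨g⟩ := Function.Embedding.nonempty_of_card_le (α := {x // x ∈ s \ s0})
    (β := {y // y ∈ t \ s0.image f0}) (by simpa only [Fintype.card_coe] using c1)
  refine ⟨fun x => if h : x ∈ s \ s0 then (g ⟨x, h⟩).1 else f0 x, fun x hx => ?_,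
    fun x hx y hy e => ?_, fun x hx => dif_neg (by simp [hx])⟩
  · by_cases h : x ∈ s \ s0
    · simp only [h, dif_pos]; exact (mem_sdiff.1 (g ⟨x, h⟩).2).1
    · simp only [h, dif_neg, not_false_eq_true]
      exact h1 x (by_contra fun e => h (mem_sdiff.2 ⟨hx, e⟩))
  · have m0 : ∀ z ∈ s, z ∉ s \ s0 → z ∈ s0 := fun z hz h => by_contra fun e => h (mem_sdiff.2 ⟨hz, e⟩)
    by_cases h : x ∈ s \ s0 <;> by_cases h' : y ∈ s \ s0 <;>
      simp only [h, h', dif_pos, dif_neg, not_false_eq_true] at e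
    · simpa using g.injective (Subtype.ext e)
    · exact absurd (e ▸ mem_image_of_mem f0 (m0 y hy h')) (mem_sdiff.1 (g ⟨x, h⟩).2).2
    · exact absurd (e ▸ mem_image_of_mem f0 (m0 x hx h)) (mem_sdiff.1 (g ⟨y, h'⟩).2).2
    · exact h2 (m0 x hx h) (m0 y hy h') e

/-- Hall's theorem for requests that are generic or belong to a small special family. -/
theorem hall_req {α β : Type} [DecidableEq α] [DecidableEq β] [Inhabited β] (I : Finset α)
    (Q : Finset β) (acc : α → β → Prop) (hc : I.card ≤ Q.card)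
    (hs : ∀ s ⊆ I, s.Nonempty → (∀ j ∈ s, ∃ p ∈ Q, ¬ acc j p) →
      ∃ j ∈ s, ∃ t ⊆ Q, s.card ≤ t.card ∧ ∀ p ∈ t, acc j p) :
    ∃ π : α → β, Set.InjOn π I ∧ ∀ j ∈ I, π j ∈ Q ∧ acc j (π j) := by
  classical
  have := (all_card_le_biUnion_card_iff_exists_injective
    (fun j : {x // x ∈ I} => Q.filter (acc j.1))).1 (by
      intro s
      rcases s.eq_empty_or_nonempty with rfl | hne
      · simp
      by_cases hg : ∃ j ∈ s, ∀ p ∈ Q, acc j.1 p
      · obtain ⟨j, hj, hg⟩ := hg
        calc s.card ≤ I.card := by simpa using card_le_univ s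
          _ ≤ Q.card := hc
          _ ≤ _ := card_le_card fun p hp => mem_biUnion.2 ⟨j, hj, mem_filter.2 ⟨hp, hg p hp⟩⟩
      · push Not at hg
        obtain ⟨j, hj, t, ht, h1, h2⟩ := hs (s.map (Function.Embedding.subtype _))
          (fun x hx => by obtain ⟨y, _, rfl⟩ := mem_map.1 hx; exact y.2) (by simpa using hne)
          (fun x hx => by obtain ⟨y, hy, rfl⟩ := mem_map.1 hx; exact hg y hy)
        obtain ⟨y, hy, rfl⟩ := mem_map.1 hj
        rw [card_map] at h1
        exact h1.trans (card_le_card fun p hp =>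
          mem_biUnion.2 ⟨y, hy, mem_filter.2 ⟨ht hp, h2 p hp⟩⟩))
  obtain ⟨f, f1, f2⟩ := this
  refine ⟨fun x => if h : x ∈ I then f ⟨x, h⟩ else default, fun x hx y hy e => ?_, fun j hj => ?_⟩
  · simp only [mem_coe.1 hx, mem_coe.1 hy, dif_pos] at e
    simpa using f1 e
  · simp only [hj, dif_pos]; exact mem_filter.1 (f2 ⟨j, hj⟩)

section count
variable {α ι : Type} [Fintype ι] [DecidableEq α]

/-- Nodes covered by `ν` only. -/
def gn (φ : ι → α) (μ ν : α → α) : ℕ := (univ.filter fun i => μ (φ i) = φ i ∧ ν (φ i) ≠ φ i).card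
/-- Nodes covered by neither matching. -/
def bo (φ : ι → α) (μ ν : α → α) : Finset ι := univ.filter fun i => μ (φ i) = φ i ∧ ν (φ i) = φ i

theorem mem_bo {φ : ι → α} {μ ν : α → α} {i : ι} :
    i ∈ bo φ μ ν ↔ μ (φ i) = φ i ∧ ν (φ i) = φ i := by simp [bo]

theorem cnt1 (φ : ι → α) (μ ν : α → α) :
    (univ.filter fun i => ν (φ i) ≠ φ i).card + gn φ ν μ =
      (univ.filter fun i => μ (φ i) ≠ φ i).card + gn φ μ ν := by
  unfold gn
  simp only [card_filter, ← sum_add_distrib]
  refine sum_congr rfl fun i _ => ?_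
  by_cases a : μ (φ i) = φ i <;> by_cases b : ν (φ i) = φ i <;> simp [a, b]

theorem cnt2 (φ : ι → α) (μ ν : α → α) :
    (univ.filter fun i => μ (φ i) ≠ φ i).card + gn φ μ ν + (bo φ μ ν).card = Fintype.card ι := by
  unfold gn bo
  rw [← card_univ, card_eq_sum_ones univ, card_filter, card_filter, card_filter, ← sum_add_distrib,
    ← sum_add_distrib]
  refine sum_congr rfl fun i _ => ?_
  by_cases a : μ (φ i) = φ i <;> by_cases b : ν (φ i) = φ i <;> simp [a, b]

theorem cnt3 (φ : ι → α) (μ ν : α → α) :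
    (univ.filter fun i => IsEnd μ ν (φ i)).card = gn φ μ ν + gn φ ν μ := by
  unfold gn
  rw [card_filter, card_filter, card_filter, ← sum_add_distrib]
  refine sum_congr rfl fun i _ => ?_
  by_cases a : μ (φ i) = φ i <;> by_cases b : ν (φ i) = φ i <;> simp [a, b, IsEnd]

end count

namespace AP

variable {J V : Type} {P : AP J V} [Fintype J] [Fintype V] [DecidableEq J] [DecidableEq V]

theorem cov_split (m : Nd J V → Nd J V) :
    cov m = mA m + mV m + (univ.filter fun j : J => m (dm j) ≠ dm j).card := card_filter_nd _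

section
variable {β : Type} [LinearOrder β] {R : Rx J V} {l : ℕ} {c : (Nd J V → Nd J V) → β}
  {μ ν : Nd J V → Nd J V}

theorem opt_ends (h : Opt (P.E R) (P.om l) c μ ν) :
    gn ag μ ν + gn ag ν μ + gn vx μ ν + gn vx ν μ + gn dm μ ν + gn dm ν μ ≤ 2 := by
  have := h.card_ends
  rw [card_filter_nd, cnt3 ag, cnt3 vx, cnt3 dm] at this
  omega

theorem opt_imp (h : Opt (P.E R) (P.om l) c μ ν) :
    (l + 1) * cov μ + 2 * P.cw μ < (l + 1) * cov ν + 2 * P.cw ν := by
  have := h.imp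
  rw [sm_gK, sm_gK, wt2_eq h.hμ, wt2_eq h.hν] at this
  exact_mod_cast this

theorem opt_cov (μ ν : Nd J V → Nd J V) :
    cov ν + (gn ag ν μ + gn vx ν μ + gn dm ν μ) = cov μ + (gn ag μ ν + gn vx μ ν + gn dm μ ν) := by
  have a := cnt1 ag μ ν; have b := cnt1 vx μ ν; have d := cnt1 dm μ ν
  rw [cov_split, cov_split]; unfold mA mV; omega

theorem opt_owner (h : Opt (P.E R) (P.om l) c μ ν) (h0 : cov μ + 2 ≤ 2 * Fintype.card J) :
    vv ν ≤ 2 * (bo ag μ ν).card := by
  have a := cnt1 ag μ ν; have b := cnt2 ag μ ν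
  have d := opt_ends h; have e := opt_cov μ ν
  have f := cov_eq h.hμ; have g := cov_eq h.hν
  unfold mA at f g; omega

theorem opt_pool (h : Opt (P.E R) (P.om l) c μ ν)
    (h0 : cov μ + (l + 2) ≤ Fintype.card V + P.cw μ) :
    (P.NC ν).card + 2 * (DU ν).card ≤ (bo vx μ ν).card := by
  have a := cnt1 vx μ ν; have b := cnt2 vx μ ν
  have d := opt_ends h; have e := opt_cov μ ν
  have f := cov_eq3 h.hν; have g := mA_eq h.hν
  have i := opt_imp h
  unfold mV at f
  have k : cov ν + gn vx ν μ ≤ Fintype.card V + P.cw ν := by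
    rcases le_or_gt (cov ν) (cov μ) with t | t
    · have := Nat.mul_le_mul_left (l + 1) t; omega
    · have t' : cov ν ≤ cov μ + 2 := by omega
      have := Nat.mul_le_mul_left (l + 1) t'
      rw [mul_add] at this; omega
  omega

/-- A new edge at a matched agent cannot have a head that all unmatched agents see. -/
theorem opt_hard (h : Opt (P.E R) (P.om l) c μ ν) (h0 : cov μ + 2 ≤ 2 * Fintype.card J) {j : J}
    {v : V} (e : ν (ag j) = vx v) (hn : μ (ag j) ≠ vx v) (hj : μ (ag j) ≠ ag j)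
    (hv : μ (vx v) ≠ vx v) (hc : P.col j v ≠ none)
    (ho : ∀ o, μ (ag o) = ag o → P.col o v = none ∨ R.nc o v) : False := by
  have hw : ∀ o, P.om l (vx v) (ag j) ≤ P.om l (vx v) (ag o) := fun o => by
    simp only [om, hc, if_false]; split_ifs <;> omega
  have hall : ∀ o, μ (ag o) = ag o → IsEnd μ ν (ag o) := fun o h1 => Or.inl ⟨h1, fun h2 =>
    hj (h.swing (h.hν.flip e) (by simp) (fun a => hn (h.hμ.flip a)) h1 h2 (ho o h1) (hw o)).1⟩
  have f := cov_eq h.hμ
  have hex : ∃ o, μ (ag o) = ag o := by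
    by_contra hn
    push Not at hn
    have : mA μ = Fintype.card J := by
      unfold mA; rw [filter_true_of_mem fun j _ => hn j, card_univ]
    omega
  obtain ⟨o, h1⟩ := hex
  obtain ⟨X, z, m1, m2, c1, c2, m3, m4, _⟩ := h.split e (by simp) hn hj (hall o h1)
  have out : ∀ o, μ (ag o) = ag o → ag o ∉ X := fun o h1 hX =>
    h.shortcut e (by simp) hn hj m1 m2 c1 c2 hX h1 (ho o h1) (by rw [om_symm]; exact hw o)
  have uni : ∀ x, IsEnd μ ν x → x ∉ X → x = ag o := fun x hx hX => by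
    rcases h.three hx (hall o h1) m4 with a | a | a
    · exact a
    · exact absurd (a ▸ m3) hX
    · exact absurd (a ▸ m3) (out o h1)
  have hA : Fintype.card J ≤ mA μ + 1 := by
    unfold mA
    rw [← card_univ, ← card_filter_add_card_filter_not (s := univ) (fun j => μ (ag j) ≠ ag j)]
    refine Nat.add_le_add_left (card_le_one.2 fun a ha b hb => ?_) _
    simp only [mem_filter, mem_univ, true_and, not_not] at ha hb
    have := (uni _ (hall a ha) (out a ha)).trans (uni _ (hall b hb) (out b hb)).symm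
    simpa using this
  have hM0 := h.hν.cut (ag j)
  set m1' := mix Xᶜ μ (cut (ag j) ν) with hm
  have hM : IsM (P.E R) m1' := h.hμ.mix hM0 (c1.compl h.hμ.1) (c2.compl hM0.1)
  have en : ∀ x, IsEnd μ m1' x → x = vx v ∨ x = ag o := fun x hx => by
    have hX : x ∉ X := fun a => hx.ne (by rw [hm, mix_out (by simpa using a)])
    by_cases a : x = vx v
    · exact Or.inl a
    · right; apply uni x _ hX
      unfold IsEnd at hx ⊢
      rwa [hm, mix_in (mem_compl.2 hX), cut_ne (fun b : x = ag j => hX (b ▸ m1)) (by rwa [e])] at hx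
  have v1 : m1' (vx v) = vx v := by rw [hm, mix_in (mem_compl.2 m2), ← e, cut_mate]
  have o1 : m1' (ag o) ≠ ag o := by
    rw [hm, mix_in (mem_compl.2 (out o h1)), cut_ne (fun b : ag o = ag j => hj (b ▸ h1)) (by rw [e]; simp)]
    rcases hall o h1 with a | a
    exacts [a.2, absurd h1 a.1]
  have a1 := cnt1 id μ m1'
  have a2 := cnt1 ag μ m1'
  have b1 : 1 ≤ gn id m1' μ := card_pos.2 ⟨vx v, by simp [v1, hv]⟩
  have b2 : gn id μ m1' ≤ 1 := card_le_one.2 fun a ha b hb => by
    simp only [mem_filter, mem_univ, true_and, id] at ha hb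
    have ta := (en a (Or.inl ha)).resolve_left fun t => hv (t ▸ ha.1)
    have tb := (en b (Or.inl hb)).resolve_left fun t => hv (t ▸ hb.1)
    rw [ta, tb]
  have b3 : 1 ≤ gn ag μ m1' := card_pos.2 ⟨o, by simp [h1, o1]⟩
  have b4 : gn ag m1' μ = 0 := by
    unfold gn; rw [card_eq_zero, filter_eq_empty_iff]
    intro a _ ha
    rcases en _ (Or.inr ⟨ha.2, ha.1⟩) with t | t
    · simp at t
    · exact ha.2 (t ▸ h1)
  have g := cov_eq hM
  unfold cov at f g h0; unfold mA at f g hA; simp only [id] at a1; omega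

end

/-- The chosen ends of the pair edges of `ν`. -/
def Pq (ν : Nd J V → Nd J V) (L : V → Prop) [DecidablePred L] : Finset V :=
  univ.filter fun q => L q ∧ ∃ u, u ≠ q ∧ ν (vx q) = vx u

open Classical in
/-- The state built from `ν`, partners `π` and owners `φ`. -/
noncomputable def rz (ν : Nd J V → Nd J V) (π : J → Finset V) (L : V → Prop) (φ : V → J) (j : J) :
    Finset V :=
  π j ∪ univ.filter fun v => ν (vx v) = ag j ∨
    ∃ q u, L q ∧ u ≠ q ∧ ν (vx q) = vx u ∧ φ q = j ∧ (v = q ∨ v = u)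

structure Asg (ν : Nd J V → Nd J V) (π : J → Finset V) (L : V → Prop) [DecidablePred L]
    (φ : V → J) : Prop where
  inv : ∀ x, ν (ν x) = x
  disj : Disj π
  unc : ∀ j p, p ∈ π j → ν (vx p) = vx p
  side : ∀ q u, ν (vx q) = vx u → u ≠ q → (L q ↔ ¬ L u)
  free : ∀ q ∈ Pq ν L, ν (ag (φ q)) = ag (φ q)
  inj : Set.InjOn φ (Pq ν L)

section
variable {ν : Nd J V → Nd J V} {π : J → Finset V} {L : V → Prop} [DecidablePred L] {φ : V → J}

theorem mem_Pq {q : V} : q ∈ Pq ν L ↔ L q ∧ ∃ u, u ≠ q ∧ ν (vx q) = vx u := by simp [Pq]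

theorem mem_rz {j : J} {v : V} : v ∈ rz ν π L φ j ↔ v ∈ π j ∨ ν (vx v) = ag j ∨
    ∃ q u, L q ∧ u ≠ q ∧ ν (vx q) = vx u ∧ φ q = j ∧ (v = q ∨ v = u) := by
  simp only [rz, mem_union, mem_filter, mem_univ, true_and]

theorem vv_eq (inv : ∀ x, ν (ν x) = x) (side : ∀ q u, ν (vx q) = vx u → u ≠ q → (L q ↔ ¬ L u)) :
    vv ν = 2 * (Pq ν L).card := by
  have h1 : (univ.filter fun q => ¬ L q ∧ ∃ u, u ≠ q ∧ ν (vx q) = vx u).card = (Pq ν L).card := by
    let g : V → V := fun q => match ν (vx q) with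
      | Sum.inr (Sum.inl u) => u
      | _ => q
    have hg : ∀ q u, ν (vx q) = vx u → g q = u := fun q u e => by simp only [g, e]
    have fl : ∀ q u, ν (vx q) = vx u → ν (vx u) = vx q := fun q u e => by rw [← e, inv]
    refine card_nbij' g g ?_ ?_ ?_ ?_
    · intro q hq
      simp only [coe_filter, mem_univ, true_and, Set.mem_ofPred_eq, Pq] at hq ⊢
      obtain ⟨a, u, b, e⟩ := hq
      rw [hg q u e]
      exact ⟨by_contra fun t => a ((side q u e b).2 t), q, b.symm, fl q u e⟩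
    · intro q hq
      simp only [coe_filter, mem_univ, true_and, Set.mem_ofPred_eq, Pq] at hq ⊢
      obtain ⟨a, u, b, e⟩ := hq
      rw [hg q u e]
      exact ⟨(side q u e b).1 a, q, b.symm, fl q u e⟩
    · intro q hq
      simp only [coe_filter, mem_univ, true_and, Set.mem_ofPred_eq] at hq
      obtain ⟨a, u, b, e⟩ := hq
      rw [hg q u e, hg u q (fl q u e)]
    · intro q hq
      simp only [coe_filter, mem_univ, true_and, Set.mem_ofPred_eq, Pq] at hq
      obtain ⟨a, u, b, e⟩ := hq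
      rw [hg q u e, hg u q (fl q u e)]
  rw [two_mul]
  nth_rewrite 1 [← h1]
  unfold vv Pq
  simp only [card_filter, ← sum_add_distrib]
  refine sum_congr rfl fun q _ => ?_
  by_cases a : L q <;> simp [a]

theorem Asg.mem_unc (h : Asg ν π L φ) {j : J} {p : V} (hp : ν (vx p) = vx p) :
    p ∈ rz ν π L φ j ↔ p ∈ π j := by
  rw [mem_rz]
  refine ⟨?_, Or.inl⟩
  rintro (a | a | ⟨q, u, _, b, e, _, rfl | rfl⟩)
  · exact a
  · rw [hp] at a; simp at a
  · rw [hp] at e; exact absurd (by simpa using e.symm) b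
  · have := h.inv (vx q); rw [e, hp] at this; exact absurd (by simpa using this) b

theorem Asg.disj_rz (h : Asg ν π L φ) : Disj (rz ν π L φ) := by
  refine disj_of fun i j v hi hj => ?_
  by_cases hv : ν (vx v) = vx v
  · exact h.disj.eq ((h.mem_unc hv).1 hi) ((h.mem_unc hv).1 hj)
  have fl : ∀ q u, ν (vx q) = vx u → ν (vx u) = vx q := fun q u e => by rw [← e, h.inv]
  rw [mem_rz] at hi hj
  rcases hi with a | a | ⟨q, u, a1, a2, a3, rfl, a5⟩
  · exact absurd (h.unc _ _ a) hv
  · rcases hj with b | b | ⟨q, u, b1, b2, b3, rfl, rfl | rfl⟩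
    · exact absurd (h.unc _ _ b) hv
    · simpa using a.symm.trans b
    · rw [a] at b3; simp at b3
    · have := fl _ _ b3; rw [a] at this; simp at this
  · rcases hj with b | b | ⟨q', u', b1, b2, b3, rfl, b5⟩
    · exact absurd (h.unc _ _ b) hv
    · rcases a5 with rfl | rfl
      · rw [b] at a3; simp at a3
      · have := fl _ _ a3; rw [b] at this; simp at this
    · rcases a5 with rfl | rfl <;> rcases b5 with rfl | rfl
      · rfl
      · exact absurd a1 ((h.side _ _ b3 b2).1 b1)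
      · exact absurd b1 ((h.side _ _ a3 a2).1 a1)
      · have := (fl _ _ a3).symm.trans (fl _ _ b3)
        simp only [Sum.inr.injEq, Sum.inl.injEq] at this; rw [this]

theorem Asg.head (h : Asg ν π L φ) {j : J} {v : V} (e : ν (ag j) = vx v) : v ∈ rz ν π L φ j :=
  mem_rz.2 (Or.inr (Or.inl (by rw [← e, h.inv])))

theorem rz_part {j : J} {p : V} (e : p ∈ π j) : p ∈ rz ν π L φ j := mem_rz.2 (Or.inl e)

theorem rz_pair {q u : V} (h1 : L q) (h2 : u ≠ q) (e : ν (vx q) = vx u) :
    q ∈ rz ν π L φ (φ q) ∧ u ∈ rz ν π L φ (φ q) :=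
  ⟨mem_rz.2 (Or.inr (Or.inr ⟨q, u, h1, h2, e, rfl, Or.inl rfl⟩)),
    mem_rz.2 (Or.inr (Or.inr ⟨q, u, h1, h2, e, rfl, Or.inr rfl⟩))⟩

theorem Asg.card_act {R : Rx J V} (h : Asg ν π L φ) (hν : IsM (P.E R) ν) :
    cov ν = 2 * ((univ.filter fun j : J => ν (ag j) ≠ ag j) ∪ (Pq ν L).image φ).card := by
  rw [card_union_of_disjoint, card_image_of_injOn h.inj, cov_eq hν, vv_eq h.inv h.side, mul_add]
  · rfl
  · rw [disjoint_left]
    intro j h1 h2
    obtain ⟨q, hq, rfl⟩ := mem_image.1 h2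
    exact (mem_filter.1 h1).2 (h.free q hq)

theorem Asg.real {R : Rx J V} (h : Asg ν π L φ) (hν : IsM (P.E R) ν)
    (s1 : ∀ j, ν (ag j) ≠ ag j → P.Serv j (rz ν π L φ j))
    (s2 : ∀ q ∈ Pq ν L, P.Serv (φ q) (rz ν π L φ (φ q))) :
    cov ν ≤ 2 * P.sv (rz ν π L φ) ∧ P.cw ν ≤ P.cf (rz ν π L φ) := by
  classical
  constructor
  · rw [h.card_act hν]
    refine Nat.mul_le_mul_left 2 (card_le_card fun j hj => ?_)
    simp only [mem_filter, mem_univ, true_and]
    rcases mem_union.1 hj with a | a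
    · exact s1 j (mem_filter.1 a).2
    · obtain ⟨q, hq, rfl⟩ := mem_image.1 a; exact s2 q hq
  · refine card_le_card fun j hj => ?_
    simp only [mem_filter, mem_univ, true_and] at hj ⊢
    obtain ⟨v, e, hc⟩ := hj
    exact ⟨v, h.head e, hc⟩

theorem Asg.onto {R : Rx J V} (h : Asg ν π L φ) (hν : IsM (P.E R) ν)
    (hc : 2 * Fintype.card J ≤ cov ν) (j : J) : ν (ag j) ≠ ag j ∨ ∃ q ∈ Pq ν L, φ q = j := by
  rw [h.card_act hν] at hc
  have := eq_univ_of_card _ (le_antisymm (card_le_univ _) (Nat.le_of_mul_le_mul_left hc two_pos))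
  have hj := this ▸ mem_univ j
  rcases mem_union.1 hj with a | a
  · exact Or.inl (mem_filter.1 a).2
  · exact Or.inr (mem_image.1 a)

end

end AP

end Pool.Agent.Lib.MP_ef7581_lc
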