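import Mathlib
import Pool.Agent.Lib.MP_ef7581_lc.Real

/-!
The common frame for the reference graphs: facts about the image `μ` of a state and the exchange
consequences for a closest improving matching `ν`.
-/

set_option autoImplicit false
set_option linter.unusedSectionVars false

namespace Pool.Agent.Lib.MP_ef7581_lc

open Finset

theorem sw_facts {α : Type} [DecidableEq α] {ν : α → α} (hν : ∀ x, ν (ν x) = x) {x y y' : α}
    (e : ν x = y) (hxy : x ≠ y) (u : ν y' = y') :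
    link x y' (cut x ν) x = y' ∧ link x y' (cut x ν) y' = x ∧ link x y' (cut x ν) y = y ∧
      ∀ z, z ≠ x → z ≠ y → z ≠ y' → link x y' (cut x ν) z = ν z := by
  refine ⟨link_left _ _ _, link_right _, ?_, fun z h1 h2 h3 => ?_⟩
  · rw [link_ne hxy.symm (fun a => hxy (by rw [← hν x, e, a, u])), ← e, cut_mate]
  · rw [link_ne h1 h3, cut_ne h1 (by rwa [e])]

/-- Parameters of a frame. -/
structure Dat (J V : Type) where
  Z : V → Prop
  HM : J → Prop
  mj : J → Bool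
  Pi : V → Prop
  ρ : Finset V
  hid : J → V
  own : V → J
  O : J → Prop

namespace AP

variable {J V : Type} (P : AP J V) (D : Dat J V)

/-- Majority colour. -/
def A (j : J) (v : V) : Prop := P.col j v = some (D.mj j)
/-- Minority colour. -/
def B (j : J) (v : V) : Prop := P.col j v = some (!D.mj j)
def RD : Rx J V := P.Gam D.Z fun j x => D.HM j ∧ x = D.mj j

variable {P D}

theorem tri3 (j : J) (v : V) : P.col j v = none ∨ P.A D j v ∨ P.B D j v := by
  unfold A B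
  rcases P.col j v with _ | b
  · simp
  · cases b <;> cases D.mj j <;> simp

theorem A.ne {j : J} {v : V} (h : P.A D j v) : P.col j v ≠ none := by rw [h]; simp
theorem B.ne {j : J} {v : V} (h : P.B D j v) : P.col j v ≠ none := by rw [h]; simp
theorem A.notB {j : J} {v : V} (h : P.A D j v) : ¬ P.B D j v := by
  unfold B; rw [h]; cases D.mj j <;> simp
theorem A.neB {j : J} {u v : V} (h : P.A D j u) (h' : P.B D j v) : P.col j u ≠ P.col j v := by
  rw [h, h']; cases D.mj j <;> simp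
theorem A.AA {j : J} {u v : V} (h : P.A D j u) (h' : P.A D j v) : ¬ P.H u v :=
  same_not_H (h.trans h'.symm) h.ne
theorem B.BB {j : J} {u v : V} (h : P.B D j u) (h' : P.B D j v) : ¬ P.H u v :=
  same_not_H (h.trans h'.symm) h.ne
theorem A.good {j : J} {u v : V} (h : P.A D j u) (h' : P.B D j v) (hH : ¬ P.H u v) :
    P.Good j u v := ⟨h.ne, h'.ne, h.neB h', hH⟩
theorem A.nbr {j : J} {u v : V} (h : P.A D j u) (hH : P.H u v) : P.col j v = none ∨ P.B D j v := by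
  rcases tri3 (P := P) (D := D) j v with a | a | a
  exacts [Or.inl a, absurd hH (h.AA a), Or.inr a]
theorem B.nbr {j : J} {u v : V} (h : P.B D j u) (hH : P.H u v) : P.col j v = none ∨ P.A D j v := by
  rcases tri3 (P := P) (D := D) j v with a | a | a
  exacts [Or.inl a, Or.inr a, absurd hH (h.BB a)]
theorem Good.AB {j : J} {u v : V} (h : P.Good j u v) :
    (P.A D j u ∧ P.B D j v) ∨ (P.B D j u ∧ P.A D j v) := by
  rcases tri3 (P := P) (D := D) j u with a | a | a <;>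
    rcases tri3 (P := P) (D := D) j v with b | b | b
  all_goals first | exact absurd a h.1 | exact absurd b h.2.1 | tauto |
    exact absurd (a.trans b.symm) h.2.2.1

theorem nc_iff {j : J} {v : V} : (P.RD D).nc j v ↔
    D.HM j ∧ ((P.B D j v ∧ D.Z v) ∨ (P.A D j v ∧ ¬ D.Z v)) := by
  simp only [RD, Gam, A, B]
  constructor
  · rintro ⟨x, ⟨h, rfl⟩, h2⟩; exact ⟨h, h2⟩
  · rintro ⟨h, h2⟩; exact ⟨_, ⟨h, rfl⟩, h2⟩

theorem du_iff {j : J} : (P.RD D).du j ↔ ¬ D.HM j := by simp [RD, Gam]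

theorem pe_iff {q z : V} : (P.RD D).pe q z ↔ ¬ D.Z q ∧ D.Z z ∧ ¬ P.H q z := Iff.rfl

theorem E_side {j : J} {v : V} (h : D.HM j) (hb : P.B D j v) (hz : D.Z v) :
    P.E (P.RD D) (ag j) (vx v) := Or.inr (nc_iff.2 ⟨h, Or.inl ⟨hb, hz⟩⟩)

theorem om_av (l : ℕ) (j : J) (v : V) :
    P.om l (ag j) (vx v) = if P.col j v = none then l + 2 else l + 1 := rfl
theorem om_va (l : ℕ) (j : J) (v : V) :
    P.om l (vx v) (ag j) = if P.col j v = none then l + 2 else l + 1 := rfl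
theorem om_vv (l : ℕ) (u v : V) : P.om l (vx u) (vx v : Nd J V) = l + 1 := rfl
theorem om_ad (l : ℕ) (i j : J) : P.om l (ag j) (dm i : Nd J V) = l + 1 := rfl
theorem om_ge (l : ℕ) (x y : Nd J V) : l + 1 ≤ P.om l x y := by
  rcases x with j | u | j <;> rcases y with i | v | i <;> simp only [om] <;>
    first | rfl | (split_ifs <;> omega)

variable [Fintype J] [Fintype V] [DecidableEq J] [DecidableEq V]

variable (P D)

/-- Agents with a persisting side edge and an assigned hidden vertex. -/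
def Per (μ ν : Nd J V → Nd J V) (j : J) : Prop :=
  ¬ D.O j ∧ ∃ v, μ (ag j) = vx v ∧ ν (ag j) = vx v ∧ P.col j v ≠ none

/-- Persisting pair edges. -/
def PP (μ ν : Nd J V → Nd J V) (q : V) : Prop :=
  ¬ D.Z q ∧ ∃ u, u ≠ q ∧ μ (vx q) = vx u ∧ ν (vx q) = vx u

/-- Agents unmatched in both matchings that own no persisting pair. -/
def Fre (μ ν : Nd J V → Nd J V) (o : J) : Prop :=
  μ (ag o) = ag o ∧ ν (ag o) = ag o ∧ ∀ q, PP D μ ν q → D.own q ≠ o

open Classical in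
noncomputable def wgt (μ ν : Nd J V → Nd J V) (p : V) : ℕ :=
  if ∃ j, P.Per D μ ν j ∧ D.hid j = p then 2 else if p ∈ D.ρ then 1 else 0

open Classical in
noncomputable def S1 (μ ν : Nd J V → Nd J V) : Finset J :=
  univ.filter fun j => μ (ag j) ≠ ag j ∧ ∃ v, ν (ag j) = vx v ∧ P.col j v ≠ none ∧ μ (ag j) ≠ vx v

open Classical in
noncomputable def S2 (μ ν : Nd J V → Nd J V) : Finset V :=
  univ.filter fun q => PP D μ ν q ∧ ν (ag (D.own q)) ≠ ag (D.own q)

noncomputable def c4 (μ ν : Nd J V → Nd J V) : ℕ :=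
  ∑ p, if ν (vx p) = vx p then 0 else P.wgt D μ ν p

/-- The tie-breaking cost. -/
noncomputable def cst (μ ν : Nd J V → Nd J V) : ℕ ×ₗ ℕ ×ₗ ℕ ×ₗ ℕ :=
  toLex ((P.S1 μ ν).card, toLex ((S2 D μ ν).card, toLex (vv ν, P.c4 D μ ν)))

structure Fr (μ : Nd J V → Nd J V) : Prop where
  piU : ∀ p, D.Pi p → μ (vx p) = vx p
  piZ : ∀ p, D.Pi p → D.Z p
  piA : ∀ o p, μ (ag o) = ag o → D.Pi p → P.A D o p
  hm0 : ∀ o, μ (ag o) = ag o → D.HM o
  zPi : ∀ p, μ (vx p) = vx p → D.Z p → D.Pi p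
  nz : ∀ q, ¬ D.Z q → ∃ p ∈ D.ρ, P.H p q
  zρ : ∀ v, D.Z v → ∀ p ∈ D.ρ, ¬ P.H p v
  ρPi : ∀ p ∈ D.ρ, D.Pi p
  cnt : cov μ + 2 ≤ 2 * Fintype.card J
  side : ∀ j v, μ (ag j) = vx v → P.col j v ≠ none → D.HM j ∧ P.B D j v ∧ D.Z v ∧
    (¬ D.O j → P.A D j (D.hid j) ∧ ¬ P.H (D.hid j) v ∧ D.Pi (D.hid j) ∧ D.hid j ∉ D.ρ)
  hinj : ∀ i j u v, μ (ag i) = vx u → P.col i u ≠ none → μ (ag j) = vx v → P.col j v ≠ none →
    ¬ D.O i → ¬ D.O j → D.hid i = D.hid j → i = j
  own : ∀ q u, μ (vx q) = vx u → u ≠ q → ¬ D.Z q →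
    μ (ag (D.own q)) = ag (D.own q) ∧ P.A D (D.own q) u ∧ P.B D (D.own q) q
  oinj : ∀ q u q' u', μ (vx q) = vx u → u ≠ q → ¬ D.Z q → μ (vx q') = vx u' → u' ≠ q' →
    ¬ D.Z q' → D.own q = D.own q' → q = q'

/-- Closest improving matchings of a frame. -/
abbrev Op (l : ℕ) (μ ν : Nd J V → Nd J V) : Prop := Opt (P.E (P.RD D)) (P.om l) (P.cst D μ) μ ν

variable {P D}

theorem cst_le {μ ν m : Nd J V → Nd J V} (h : P.cst D μ ν ≤ P.cst D μ m) :
    (P.S1 μ ν).card < (P.S1 μ m).card ∨ (P.S1 μ ν).card = (P.S1 μ m).card ∧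
      ((S2 D μ ν).card < (S2 D μ m).card ∨ (S2 D μ ν).card = (S2 D μ m).card ∧
        (vv ν < vv m ∨ vv ν = vv m ∧ P.c4 D μ ν ≤ P.c4 D μ m)) := by
  simpa only [cst, Prod.Lex.toLex_le_toLex] using h

theorem mem_S1 {μ ν : Nd J V → Nd J V} {j : J} : j ∈ P.S1 μ ν ↔
    μ (ag j) ≠ ag j ∧ ∃ v, ν (ag j) = vx v ∧ P.col j v ≠ none ∧ μ (ag j) ≠ vx v := by
  simp only [S1, mem_filter, mem_univ, true_and]

theorem mem_S2 {μ ν : Nd J V → Nd J V} {q : V} : q ∈ S2 D μ ν ↔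
    PP D μ ν q ∧ ν (ag (D.own q)) ≠ ag (D.own q) := by
  simp only [S2, mem_filter, mem_univ, true_and]

theorem mem_NC {ν : Nd J V → Nd J V} {j : J} :
    j ∈ P.NC ν ↔ ∃ v, ν (ag j) = vx v ∧ P.col j v ≠ none := by simp [NC]

theorem mem_DU {ν : Nd J V → Nd J V} {j : J} : j ∈ DU ν ↔ ν (ag j) = dm j := by simp [DU]

variable {l : ℕ} {μ ν : Nd J V → Nd J V}

theorem pair_edge {m : Nd J V → Nd J V} (h : IsM (P.E (P.RD D)) m) {q u : V} (e : m (vx q) = vx u)
    (hne : u ≠ q) : ¬ P.H q u ∧ (¬ D.Z q ↔ D.Z u) := by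
  rcases edge_vv h e hne.symm with ⟨a, b, c⟩ | ⟨a, b, c⟩
  · exact ⟨c, by tauto⟩
  · exact ⟨fun x => c (P.symm _ _ x), by tauto⟩

theorem Fr.nzB (F : P.Fr D μ) {o : J} {q : V} (ho : μ (ag o) = ag o) (hq : ¬ D.Z q) :
    P.col o q = none ∨ P.B D o q := by
  obtain ⟨p, hp, hH⟩ := F.nz q hq
  exact (F.piA o p ho (F.ρPi p hp)).nbr hH

/-- A C-vertex free in both matchings kills a new edge of weight `l + 1` at `j`. -/
theorem no_C (h : P.Op D l μ ν) {j : J} {y : Nd J V} {p : V} (e : ν (ag j) = y) (hy : ag j ≠ y)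
    (hn : μ (ag j) ≠ y) (hw : P.om l (ag j) y = l + 1) (u1 : μ (vx p) = vx p)
    (u2 : ν (vx p) = vx p) : P.col j p ≠ none := fun hc => by
  have := (h.swing e hy hn u1 u2 (Or.inl hc) (hw ▸ om_ge _ _ _)).2.1
  rw [hw, om_av, if_pos hc] at this; omega

/-- Swinging a new side edge to another vertex of `Pi`. -/
theorem Fr.s1 (F : P.Fr D μ) (h : P.Op D l μ ν) {j : J} {v p : V} (e : ν (ag j) = vx v)
    (hc : P.col j v ≠ none) (hn : μ (ag j) ≠ vx v) (hm : D.HM j) (hp : D.Pi p)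
    (u2 : ν (vx p) = vx p) (hA : ¬ P.A D j p) :
    μ (vx v) = vx v ∧ P.wgt D μ ν v ≤ P.wgt D μ ν p := by
  classical
  have u1 := F.piU p hp
  have hw : P.om l (ag j) (vx v) = l + 1 := by rw [om_av, if_neg hc]
  have hB : P.B D j p := ((tri3 j p).resolve_left (no_C h e (by simp) hn hw u1 u2)).resolve_left hA
  obtain ⟨a, _, b⟩ := h.swing e (by simp) hn u1 u2 (E_side hm hB (F.piZ p hp)) (hw ▸ om_ge _ _ _)
  refine ⟨a, ?_⟩
  obtain ⟨f1, f2, f3, f4⟩ := sw_facts h.hν.1 e (by simp) u2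
  set m := link (ag j) (vx p) (cut (ag j) ν)
  have fa : ∀ i, i ≠ j → m (ag i) = ν (ag i) := fun i hi => f4 _ (by simpa) (by simp) (by simp)
  have fv : ∀ q, q ≠ v → q ≠ p → m (vx q) = ν (vx q) := fun q h1 h2 =>
    f4 _ (by simp) (by simpa) (by simpa)
  have hn' : μ (ag j) ≠ vx p := fun t => by have := h.hμ.flip t; rw [u1] at this; simp at this
  have ev := h.hν.flip e
  have k1 : P.S1 μ m ⊆ P.S1 μ ν := fun i hi => by
    rw [mem_S1] at hi ⊢
    by_cases t : i = j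
    · subst t; exact ⟨hi.1, v, e, hc, hn⟩
    · rwa [fa i t] at hi
  have k2 : S2 D μ m ⊆ S2 D μ ν := fun q hq => by
    rw [mem_S2] at hq ⊢
    obtain ⟨⟨z, u, t1, t2, t3⟩, t4⟩ := hq
    have q1 : q ≠ v := fun t => by rw [t, a] at t2; exact t1 (by rw [t]; simpa using t2.symm)
    have q2 : q ≠ p := fun t => by rw [t, u1] at t2; exact t1 (by rw [t]; simpa using t2.symm)
    refine ⟨⟨z, u, t1, t2, fv q q1 q2 ▸ t3⟩, ?_⟩
    by_cases t : D.own q = j
    · rw [t, e]; simp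
    · rwa [fa _ t] at t4
  have k3 : vv m ≤ vv ν := card_le_card fun q hq => by
    simp only [mem_filter, mem_univ, true_and] at hq ⊢
    obtain ⟨u, t1, t2⟩ := hq
    have q1 : q ≠ v := fun t => by rw [t, f3] at t2; exact t1 (by rw [t]; simpa using t2.symm)
    have q2 : q ≠ p := fun t => by rw [t, f2] at t2; simp at t2
    exact ⟨u, t1, fv q q1 q2 ▸ t2⟩
  have k4 : ∀ i, P.Per D μ m i ↔ P.Per D μ ν i := fun i => by
    unfold Per
    by_cases t : i = j
    · subst t; rw [f1, e]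
      constructor <;> rintro ⟨_, x, x1, x2, _⟩
      · exact absurd (x1.trans x2.symm) hn'
      · exact absurd (x1.trans x2.symm) hn
    · rw [fa i t]
  have k5 : ∀ x, P.wgt D μ m x = P.wgt D μ ν x := fun x => by simp only [wgt, k4]
  have vp : v ≠ p := fun t => by rw [t, u2] at ev; simp at ev
  have k6 : P.c4 D μ m + P.wgt D μ ν v = P.c4 D μ ν + P.wgt D μ ν p := by
    unfold c4
    simp only [k5]
    rw [← add_sum_erase _ _ (mem_univ v), ← add_sum_erase _ _ (mem_univ v),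
      ← add_sum_erase _ _ (mem_erase.2 ⟨vp.symm, mem_univ p⟩),
      ← add_sum_erase _ _ (mem_erase.2 ⟨vp.symm, mem_univ p⟩),
      sum_congr rfl fun x hx => by
        rw [fv x (mem_erase.1 (mem_erase.1 hx).2).1 (mem_erase.1 hx).1]]
    simp [f2, f3, ev, u2]; ring
  have := cst_le b
  have := card_le_card k1; have := card_le_card k2
  omega

/-- A new side edge between `μ`-covered nodes accepts every free vertex of `Pi`. -/
theorem Fr.generic (F : P.Fr D μ) (h : P.Op D l μ ν) {j : J} {v p : V} (e : ν (ag j) = vx v)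
    (hc : P.col j v ≠ none) (hn : μ (ag j) ≠ vx v) (hm : D.HM j) (hz : D.Z v)
    (hj : μ (ag j) ≠ ag j) (hv : μ (vx v) ≠ vx v) (hp : D.Pi p) (u2 : ν (vx p) = vx p) :
    P.A D j p ∧ ¬ P.H p v :=
  ⟨by_contra fun a => hv (F.s1 h e hc hn hm hp u2 a).1, fun hH =>
    opt_hard h F.cnt e hn hj hv hc fun o ho => ((F.piA o p ho hp).nbr hH).imp_right fun b =>
      nc_iff.2 ⟨F.hm0 o ho, Or.inl ⟨b, hz⟩⟩⟩

/-- New pair edges are good for free agents. -/
theorem Fr.newpair (F : P.Fr D μ) (h : P.Op D l μ ν) {q z : V} {o : J} (e : ν (vx q) = vx z)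
    (hne : z ≠ q) (hq : ¬ D.Z q) (hn : μ (vx q) ≠ vx z) (ho : Fre D μ ν o) : ¬ P.B D o z := by
  intro hB
  have hz := (pair_edge h.hν e hne).2.1 hq
  have ez := h.hν.flip e
  obtain ⟨a, _, b⟩ := h.swing ez (by simpa) (fun t => hn (h.hμ.flip t)) ho.1 ho.2.1
    (E_symm _ (E_side (F.hm0 o ho.1) hB hz)) (om_ge _ _ _)
  obtain ⟨f1, f2, f3, f4⟩ := sw_facts h.hν.1 ez (by simpa) ho.2.1
  set m := link (vx z) (ag o) (cut (vx z) ν)
  have fa : ∀ i, i ≠ o → m (ag i) = ν (ag i) := fun i hi => f4 _ (by simp) (by simp) (by simpa)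
  have fv : ∀ x, x ≠ z → x ≠ q → m (vx x) = ν (vx x) := fun q h1 h2 =>
    f4 _ (by simpa) (by simpa) (by simp)
  have k1 : P.S1 μ m ⊆ P.S1 μ ν := fun i hi => by
    rw [mem_S1] at hi ⊢
    rwa [fa i fun t => hi.1 (t ▸ ho.1)] at hi
  have kv : ∀ x u, u ≠ x → m (vx x) = vx u → ν (vx x) = vx u ∧ x ≠ q := fun x u t1 t2 => by
    have q1 : x ≠ q := fun t => by rw [t, f3] at t2; exact t1 (by rw [t]; simpa using t2.symm)
    have q2 : x ≠ z := fun t => by rw [t, f1] at t2; simp at t2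
    exact ⟨fv x q2 q1 ▸ t2, q1⟩
  have k2 : S2 D μ m ⊆ S2 D μ ν := fun x hx => by
    rw [mem_S2] at hx ⊢
    obtain ⟨⟨z, u, t1, t2, t3⟩, t4⟩ := hx
    have pp : PP D μ ν x := ⟨z, u, t1, t2, (kv x u t1 t3).1⟩
    exact ⟨pp, fa _ (ho.2.2 x pp) ▸ t4⟩
  have k3 : vv m < vv ν := card_lt_card ((ssubset_iff_of_subset fun x hx => by
    simp only [mem_filter, mem_univ, true_and] at hx ⊢
    obtain ⟨u, t1, t2⟩ := hx
    exact ⟨u, t1, (kv x u t1 t2).1⟩).2 ⟨q, by simpa using ⟨z, hne, by simpa using e⟩, by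
      simp only [mem_filter, mem_univ, true_and]
      rintro ⟨u, t1, t2⟩; exact (kv q u t1 t2).2 rfl⟩)
  have := cst_le b
  have := card_le_card k1; have := card_le_card k2
  omega

/-- The head of the owner of a persisting pair cannot be taken over. -/
theorem Fr.ownerless (F : P.Fr D μ) (h : P.Op D l μ ν) {q b : V} {y : Nd J V} (hq : PP D μ ν q)
    (e : ν (ag (D.own q)) = vx b) (hc : P.col (D.own q) b ≠ none) (u1 : μ y = y) (u2 : ν y = y)
    (hy : ∀ x, PP D μ ν x → ag (D.own x) ≠ y) (hE : P.E (P.RD D) (vx b) y) : False := by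
  obtain ⟨z0, u0, s1, s2, s3⟩ := hq
  have ho := (F.own q u0 s2 s1 z0).1
  have eb := h.hν.flip e
  obtain ⟨a, _, c⟩ := h.swing eb (by simp) (fun t => by
    have := h.hμ.flip t; rw [ho] at this; simp at this) u1 u2 hE
    (by rw [om_va, if_neg hc]; exact om_ge _ _ _)
  obtain ⟨f1, f2, f3, f4⟩ := sw_facts h.hν.1 eb (by simp) u2
  set m := link (vx b) y (cut (vx b) ν)
  have k1 : P.S1 μ m ⊆ P.S1 μ ν := fun i hi => by
    rw [mem_S1] at hi ⊢
    rwa [f4 (ag i) (by simp) (fun t => hi.1 (t ▸ ho)) (fun t => hi.1 (t ▸ u1))] at hi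
  have k2 : S2 D μ m ⊂ S2 D μ ν := (ssubset_iff_of_subset fun x hx => by
    rw [mem_S2] at hx ⊢
    obtain ⟨⟨z, u, t1, t2, t3⟩, t4⟩ := hx
    have q1 : vx x ≠ y := fun t => by rw [← t, t2] at u1; exact t1 (by simpa using u1)
    have q2 : x ≠ b := fun t => by
      rw [t, f1] at t3; rw [t3, h.hμ.flip t2] at u1; exact t1 (by simpa using u1.symm)
    have pp : PP D μ ν x := ⟨z, u, t1, t2, f4 _ (by simpa) (by simp) q1 ▸ t3⟩
    refine ⟨pp, ?_⟩
    rwa [f4 _ (by simp) (fun t => t4 (by rw [t, f3])) (hy x pp)] at t4).2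
      ⟨q, mem_S2.2 ⟨⟨z0, u0, s1, s2, s3⟩, by rw [e]; simp⟩, fun t => (mem_S2.1 t).2 f3⟩
  have := cst_le c
  have := card_le_card k1; have := card_lt_card k2
  omega

theorem Fr.ownA (F : P.Fr D μ) (h : P.Op D l μ ν) {q b : V} {o : J} (hq : PP D μ ν q)
    (e : ν (ag (D.own q)) = vx b) (hc : P.col (D.own q) b ≠ none) (hz : D.Z b) (ho : Fre D μ ν o) :
    P.A D o b := by
  by_contra hA
  refine F.ownerless h hq e hc ho.1 ho.2.1 (fun x hx t => ho.2.2 x hx (by simpa using t)) ?_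
  rcases tri3 (P := P) (D := D) o b with a | a | a
  exacts [Or.inl a, absurd a hA, E_side (F.hm0 o ho.1) a hz]

/-- A conflict kills the new side edges between `μ`-covered nodes. -/
theorem Fr.kill (F : P.Fr D μ) (h : P.Op D l μ ν) {q u v : V} {o i : J} {e0 : Nd J V}
    (he0 : IsEnd μ ν e0) (hall : ∀ z, IsEnd μ ν z → μ z = z) (p1 : ν (vx q) = vx u)
    (p2 : μ (vx q) = vx u) (hne : u ≠ q) (hq : ¬ D.Z q) (o1 : μ (ag o) = ag o)
    (o2 : ν (ag o) = ag o) (hB : P.B D o u) (e : ν (ag i) = vx v) (hn : μ (ag i) ≠ vx v)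
    (hi : μ (ag i) ≠ ag i) (hv : μ (vx v) ≠ vx v) (hb : P.B D i v) (hz : D.Z v)
    (hA : ¬ P.A D i q) : False := by
  have E1 := E_side (F.hm0 o o1) hB ((pair_edge h.hν p1 hne).2.1 hq)
  rcases (tri3 (P := P) (D := D) i q) with a | a | a
  · have := (h.virt e (by simp) hn hv he0 hall p1 p2 (by simpa using hne.symm) o1 o2 E1 (Or.inl a)
      (by simp only [om_av, om_vv, a, hB.ne, hb.ne, if_true, if_false]; omega)).1
    simp only [om_av, om_vv, a, hB.ne, hb.ne, if_true, if_false] at this; omega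
  · exact hA a
  · obtain ⟨_, m, c, m1, m2⟩ := h.virt (h.hν.flip e) (by simp) (fun t => hn (h.hμ.flip t)) hi he0
      hall p1 p2 (by simpa using hne.symm) o1 o2 E1 (Or.inr ⟨hq, hz, a.BB hb⟩)
      (by simp only [om_av, om_va, om_vv, hB.ne, hb.ne, if_false]; omega)
    have k1 : P.S1 μ m ⊂ P.S1 μ ν := (ssubset_iff_of_subset fun x hx => by
      rw [mem_S1] at hx ⊢
      rcases m2 (ag x) (fun t => hx.1 (t ▸ o1)) (by simp) (by simp) (by simp) with t | t
      · obtain ⟨_, w, w1, _, w2⟩ := hx; exact absurd (t.symm.trans w1) w2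
      · rwa [t] at hx).2 ⟨i, mem_S1.2 ⟨hi, v, e, hb.ne, hn⟩, fun t => by
        obtain ⟨_, w, w1, _, w2⟩ := mem_S1.1 t; exact w2 (m1.symm.trans w1)⟩
    have := cst_le c
    have := card_lt_card k1
    omega

end AP

end Pool.Agent.Lib.MP_ef7581_lc
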