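import Mathlib
import Pool.Agent.Lib.MP_ef7581_lc.Fr

/-!
Owners of pair edges and partners of side edges.
-/

set_option autoImplicit false
set_option linter.unusedSectionVars false

namespace Pool.Agent.Lib.MP_ef7581_lc

open Finset

namespace AP

variable {J V : Type} {P : AP J V} {D : Dat J V} [Fintype J] [Fintype V] [DecidableEq J]
  [DecidableEq V] {l : ℕ} {μ ν : Nd J V → Nd J V}

theorem exists_unm {R : Rx J V} (h : IsM (P.E R) μ) (h0 : cov μ + 2 ≤ 2 * Fintype.card J) :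
    ∃ o, μ (ag o) = ag o := by
  by_contra hn
  push Not at hn
  have : mA μ = Fintype.card J := by
    unfold mA; rw [filter_true_of_mem fun j _ => hn j, card_univ]
  have := cov_eq h
  omega

theorem Fr.piH (F : P.Fr D μ) (hμ : IsM (P.E (P.RD D)) μ) {p q : V} (hp : D.Pi p) (hq : D.Pi q) :
    ¬ P.H p q := by
  obtain ⟨o, ho⟩ := exists_unm hμ F.cnt
  exact (F.piA o p ho hp).AA (F.piA o q ho hq)

open Classical in
theorem Fr.owners (F : P.Fr D μ) (h : P.Op D l μ ν) : ∃ φ : V → J,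
    (∀ q ∈ Pq ν (fun v => ¬ D.Z v), μ (ag (φ q)) = ag (φ q) ∧ ν (ag (φ q)) = ag (φ q)) ∧
    Set.InjOn φ (Pq ν fun v => ¬ D.Z v) ∧
    ∀ q u, ¬ D.Z q → u ≠ q → ν (vx q) = vx u → P.Serv (φ q) {q, u} ∨
      (PP D μ ν q ∧ ν (ag (D.own q)) ≠ ag (D.own q) ∧ Fre D μ ν (φ q) ∧ P.B D (φ q) u) := by
  have hc : (Pq ν fun v => ¬ D.Z v).card ≤ (bo ag μ ν).card := by
    have a := opt_owner h F.cnt
    rw [vv_eq (L := fun v => ¬ D.Z v) h.hν.1 fun q u e hne => by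
      have := (pair_edge h.hν e hne).2; tauto] at a
    omega
  obtain ⟨φ, f1, f2, f3⟩ := ext_inj (Pq ν fun v => ¬ D.Z v)
    ((Pq ν fun v => ¬ D.Z v).filter fun q => PP D μ ν q ∧ ν (ag (D.own q)) = ag (D.own q))
    (bo ag μ ν) D.own (filter_subset _ _) (fun q hq => by
      obtain ⟨_, ⟨z, u, t1, t2, _⟩, t4⟩ := mem_filter.1 hq
      exact mem_bo.2 ⟨(F.own q u t2 t1 z).1, t4⟩) (fun q hq q' hq' e => by
      obtain ⟨_, ⟨z, u, t1, t2, _⟩, _⟩ := mem_filter.1 (mem_coe.1 hq)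
      obtain ⟨_, ⟨z', u', t1', t2', _⟩, _⟩ := mem_filter.1 (mem_coe.1 hq')
      exact F.oinj q u q' u' t2 t1 z t2' t1' z' e) hc
  refine ⟨φ, fun q hq => mem_bo.1 (f1 q hq), f2, fun q u hz hne e => ?_⟩
  have hq : q ∈ Pq ν fun v => ¬ D.Z v := mem_Pq.2 ⟨hz, u, hne, e⟩
  have hH := (pair_edge h.hν e hne).1
  obtain ⟨b1, b2⟩ := mem_bo.1 (f1 q hq)
  rcases F.nzB b1 hz with a | a
  · exact Or.inl (serv_C (by simp) a)
  rcases tri3 (P := P) (D := D) (φ q) u with b | b | b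
  · exact Or.inl (serv_C (by simp) b)
  · exact Or.inl ((b.good a fun t => hH (P.symm _ _ t)).serv (by simp) (by simp))
  right
  have hn : ¬ (PP D μ ν q ∧ ν (ag (D.own q)) = ag (D.own q)) := fun t => by
    rw [f3 q (mem_filter.2 ⟨hq, t⟩)] at b
    obtain ⟨⟨_, u', t1, t2, t3⟩, _⟩ := t
    rw [e] at t3
    have : u = u' := by simpa using t3
    exact (F.own q u' t2 t1 hz).2.1.notB (this ▸ b)
  have fr : Fre D μ ν (φ q) := ⟨b1, b2, fun q' pp e' => by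
    have hq' : q' ∈ Pq ν fun v => ¬ D.Z v := by
      obtain ⟨z, u', t1, _, t3⟩ := pp; exact mem_Pq.2 ⟨z, u', t1, t3⟩
    have m0 : PP D μ ν q' ∧ ν (ag (D.own q')) = ag (D.own q') := ⟨pp, by rw [e', b2]⟩
    have := f2 hq' hq ((f3 q' (mem_filter.2 ⟨hq', m0⟩)).trans e')
    exact hn (this ▸ m0)⟩
  have pp : PP D μ ν q := ⟨hz, u, hne, by_contra fun t => F.newpair h e hne hz t fr b, e⟩
  exact ⟨pp, fun t => hn ⟨pp, t⟩, fr, b⟩

variable (P D) in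
/-- Agents that keep their hidden vertex. -/
def Kept (μ ν : Nd J V → Nd J V) (j : J) : Prop :=
  P.Per D μ ν j ∧ ν (vx (D.hid j)) = vx (D.hid j)

variable (P D) in
/-- Special requests. -/
def Sp (μ ν : Nd J V → Nd J V) (j : J) : Prop :=
  μ (ag j) = ag j ∨ (∃ v, ν (ag j) = vx v ∧ μ (vx v) = vx v ∧ P.wgt D μ ν v = 0) ∨
    (P.Per D μ ν j ∧ ν (vx (D.hid j)) ≠ vx (D.hid j))

theorem Fr.per (F : P.Fr D μ) {j : J} (h : P.Per D μ ν j) : ∃ v, μ (ag j) = vx v ∧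
    ν (ag j) = vx v ∧ P.A D j (D.hid j) ∧ P.B D j v ∧ ¬ P.H (D.hid j) v ∧ D.Pi (D.hid j) ∧
      D.hid j ∉ D.ρ := by
  obtain ⟨o, v, a, b, c⟩ := h
  obtain ⟨_, s2, _, s4⟩ := F.side j v a c
  obtain ⟨t1, t2, t3, t4⟩ := s4 o
  exact ⟨v, a, b, t1, s2, t2, t3, t4⟩

theorem Fr.perInj (F : P.Fr D μ) {i j : J} (hi : P.Per D μ ν i) (hj : P.Per D μ ν j)
    (e : D.hid i = D.hid j) : i = j := by
  obtain ⟨o, v, a, _, c⟩ := hi
  obtain ⟨o', v', a', _, c'⟩ := hj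
  exact F.hinj i j v v' a c a' c' o o' e

theorem wgt_zero {v : V} (h : P.wgt D μ ν v = 0) :
    (∀ j, P.Per D μ ν j → D.hid j ≠ v) ∧ v ∉ D.ρ := by
  unfold wgt at h
  split_ifs at h with a b
  exact ⟨fun j hj e => a ⟨j, hj, e⟩, b⟩

theorem Fr.sp_end (F : P.Fr D μ) (h : P.Op D l μ ν) : ∃ ε : J → Nd J V,
    (∀ j ∈ P.NC ν, P.Sp D μ ν j → IsEnd μ ν (ε j) ∧
      (ε j = ag j ∨ ∃ p, ε j = vx p ∧ p ∉ D.ρ ∧ (ν (ag j) = vx p ∨ D.Pi p))) ∧
    ∀ i ∈ P.NC ν, ∀ j ∈ P.NC ν, P.Sp D μ ν i → P.Sp D μ ν j → ε i = ε j → i = j := by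
  have : ∀ j, ∃ e : Nd J V, j ∈ P.NC ν → P.Sp D μ ν j → IsEnd μ ν e ∧
      (e = ag j ∨ (∃ v, e = vx v ∧ ν (ag j) = vx v ∧ P.wgt D μ ν v = 0) ∨
        (e = vx (D.hid j) ∧ P.Per D μ ν j)) := by
    intro j
    by_cases hj : j ∈ P.NC ν ∧ P.Sp D μ ν j
    · obtain ⟨h1, a | ⟨v, a, b, c⟩ | ⟨a, b⟩⟩ := hj
      · obtain ⟨v, e, _⟩ := mem_NC.1 h1
        exact ⟨_, fun _ _ => ⟨Or.inl ⟨a, by rw [e]; simp⟩, Or.inl rfl⟩⟩
      · exact ⟨_, fun _ _ => ⟨Or.inl ⟨b, by rw [h.hν.flip a]; simp⟩, Or.inr (Or.inl ⟨v, rfl, a, c⟩)⟩⟩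
      · obtain ⟨_, _, _, _, _, _, t, _⟩ := F.per a
        exact ⟨_, fun _ _ => ⟨Or.inl ⟨F.piU _ t, b⟩, Or.inr (Or.inr ⟨rfl, a⟩)⟩⟩
    · exact ⟨ag j, fun a b => absurd ⟨a, b⟩ hj⟩
  choose ε hε using this
  refine ⟨ε, fun j h1 h2 => ⟨(hε j h1 h2).1, ?_⟩, fun i i1 j j1 i2 j2 e => ?_⟩
  · rcases (hε j h1 h2).2 with a | ⟨v, a, b, c⟩ | ⟨a, b⟩
    · exact Or.inl a
    · exact Or.inr ⟨v, a, (wgt_zero c).2, Or.inl b⟩
    · obtain ⟨_, _, _, _, _, _, t, t'⟩ := F.per b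
      exact Or.inr ⟨_, a, t', Or.inr t⟩
  · rcases (hε i i1 i2).2 with a | ⟨v, a, b, c⟩ | ⟨a, b⟩ <;>
      rcases (hε j j1 j2).2 with a' | ⟨v', a', b', c'⟩ | ⟨a', b'⟩ <;> rw [a, a'] at e <;>
      simp only [Sum.inl.injEq, Sum.inr.injEq, reduceCtorEq] at e
    · exact e
    · subst e; simpa using (h.hν.flip b).symm.trans (h.hν.flip b')
    · exact absurd e.symm ((wgt_zero c).1 j b')
    · exact absurd e ((wgt_zero c').1 i b)
    · exact F.perInj b b' e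

/-- Injections into the ends are small. -/
theorem ends_card {β ι : Type} [LinearOrder β] {R : Rx J V} {c : (Nd J V → Nd J V) → β}
    (h : Opt (P.E R) (P.om l) c μ ν) (s : Finset ι) (ε : ι → Nd J V) (ρ : Finset V)
    (h1 : ∀ j ∈ s, IsEnd μ ν (ε j) ∧ ∀ p ∈ ρ, ε j ≠ vx p) (h2 : Set.InjOn ε s)
    (h3 : ∀ p ∈ ρ, μ (vx p) = vx p) :
    s.card + (ρ.filter fun p => ν (vx p) ≠ vx p).card ≤ 2 := by
  refine le_trans ?_ h.card_ends
  rw [← card_image_of_injOn h2, ← card_image_of_injective (f := fun v : V => (vx v : Nd J V))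
    (ρ.filter fun p => ν (vx p) ≠ vx p) (fun a b e => by simpa using e), ← card_union_of_disjoint]
  · refine card_le_card fun x hx => mem_filter.2 ⟨mem_univ _, ?_⟩
    rcases mem_union.1 hx with a | a
    · obtain ⟨j, hj, rfl⟩ := mem_image.1 a; exact (h1 j hj).1
    · obtain ⟨p, hp, rfl⟩ := mem_image.1 a
      exact Or.inl ⟨h3 p (mem_filter.1 hp).1, (mem_filter.1 hp).2⟩
  · rw [disjoint_left]
    intro x a b
    obtain ⟨j, hj, rfl⟩ := mem_image.1 a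
    obtain ⟨p, hp, e⟩ := mem_image.1 b
    exact (h1 j hj).2 p (mem_filter.1 hp).1 e.symm

theorem Fr.sp_card (F : P.Fr D μ) (h : P.Op D l μ ν) (s : Finset J)
    (hs : ∀ j ∈ s, j ∈ P.NC ν ∧ P.Sp D μ ν j) :
    s.card + (D.ρ.filter fun p => ν (vx p) ≠ vx p).card ≤ 2 := by
  obtain ⟨ε, e1, e2⟩ := F.sp_end h
  refine ends_card h s ε D.ρ (fun j hj => ⟨(e1 j (hs j hj).1 (hs j hj).2).1, fun p hp e => ?_⟩)
    (fun i hi j hj => e2 i (hs i hi).1 j (hs j hj).1 (hs i hi).2 (hs j hj).2)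
    fun p hp => F.piU p (F.ρPi p hp)
  rcases (e1 j (hs j hj).1 (hs j hj).2).2 with a | ⟨q, a, b, _⟩ <;> rw [a] at e
  · simp at e
  · exact b ((by simpa using e : q = p) ▸ hp)

theorem Fr.nonsp (F : P.Fr D μ) (h : P.Op D l μ ν) {j : J} {v p : V} (e : ν (ag j) = vx v)
    (hm : D.HM j) (hb : P.B D j v) (hz : D.Z v) (hk : ¬ P.Kept D μ ν j) (hO : ¬ D.O j)
    (hs : ¬ P.Sp D μ ν j) (hp : D.Pi p) (u : ν (vx p) = vx p)
    (hh : ∀ i, P.Per D μ ν i → D.hid i ≠ p) (hρ : v ∈ D.ρ → p ∈ D.ρ → P.A D j p) :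
    P.A D j p ∧ ¬ P.H p v := by
  unfold Sp at hs
  push Not at hs
  have hn : μ (ag j) ≠ vx v := fun t =>
    hk ⟨⟨hO, v, t, e, hb.ne⟩, hs.2.2 ⟨hO, v, t, e, hb.ne⟩⟩
  by_cases hv : μ (vx v) = vx v
  · refine ⟨by_contra fun hA => ?_, F.piH h.hμ hp (F.zPi v hv hz)⟩
    have a := (F.s1 h e hb.ne hn hm hp u hA).2
    have b := hs.2.1 v e hv
    unfold wgt at a b
    rw [if_neg (show ¬ ∃ i, P.Per D μ ν i ∧ D.hid i = p from fun ⟨i, t1, t2⟩ => hh i t1 t2)] at a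
    split_ifs at a b with t1 t2 t3 t4 <;> first | omega | exact hA (hρ ‹_› ‹_›)
  · exact F.generic h e hb.ne hn hm hz hs.1 hv hp u

open Classical in
theorem Fr.partners (F : P.Fr D μ) (h : P.Op D l μ ν) [Inhabited V] (Rs : Finset V)
    (nored : ∀ j v, ν (ag j) = vx v → P.col j v ≠ none → D.HM j ∧ P.B D j v ∧ D.Z v)
    (hcnt : (P.NC ν).card + Rs.card ≤ (univ.filter fun p => D.Pi p ∧ ν (vx p) = vx p).card)
    (hRs : Rs = ∅ ∨ ∀ j ∈ P.NC ν, ¬ P.Sp D μ ν j ∧ ¬ D.O j)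
    (hacc : ∀ j ∈ P.NC ν, P.Sp D μ ν j → ∃ t ⊆ D.ρ, 2 ≤ t.card ∧ ∀ p ∈ t, P.A D j p)
    (hρ : ∀ j v p, ν (ag j) = vx v → P.col j v ≠ none → v ∈ D.ρ → p ∈ D.ρ → ν (vx p) = vx p →
      P.A D j p)
    (hO : ∀ j, D.O j → 3 ≤ D.ρ.card ∧ (∀ p ∈ D.ρ, P.A D j p) ∧ ∀ i, D.O i → i = j) :
    ∃ π : J → V, Set.InjOn π (P.NC ν) ∧ ∀ j v, ν (ag j) = vx v → P.col j v ≠ none →
      D.Pi (π j) ∧ ν (vx (π j)) = vx (π j) ∧ (π j ∈ Rs → π j ∉ D.ρ) ∧ P.A D j (π j) ∧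
        ¬ P.H (π j) v ∧ (P.Kept D μ ν j → π j ∉ D.ρ) := by
  let I := (P.NC ν).filter fun j => ¬ P.Kept D μ ν j
  let Q := univ.filter fun p => D.Pi p ∧ ν (vx p) = vx p ∧ p ∉ Rs ∧
    ∀ i, P.Per D μ ν i → D.hid i ≠ p
  have hQ : ∀ p ∈ D.ρ, ν (vx p) = vx p → Rs = ∅ → p ∈ Q := fun p hp u hR =>
    mem_filter.2 ⟨mem_univ _, F.ρPi p hp, u, by simp [hR], fun i hi e => by
      obtain ⟨_, _, _, _, _, _, _, t⟩ := F.per hi; exact t (e ▸ hp)⟩
  have hc : I.card ≤ Q.card := by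
    have a := card_filter_add_card_filter_not (s := P.NC ν) (fun j => P.Kept D μ ν j)
    have b : (univ.filter fun p => D.Pi p ∧ ν (vx p) = vx p) ⊆
        Q ∪ Rs ∪ ((P.NC ν).filter fun j => P.Kept D μ ν j).image D.hid := by
      intro p hp
      obtain ⟨_, p1, p2⟩ := mem_filter.1 hp
      simp only [mem_union, mem_image, mem_filter]
      by_cases t : p ∈ Rs
      · exact Or.inl (Or.inr t)
      by_cases t' : ∀ i, P.Per D μ ν i → D.hid i ≠ p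
      · exact Or.inl (Or.inl (mem_filter.2 ⟨mem_univ _, p1, p2, t, t'⟩))
      · push Not at t'
        obtain ⟨i, hi, rfl⟩ := t'
        obtain ⟨_, v, _, x2, x3⟩ := id hi
        exact Or.inr ⟨i, ⟨mem_NC.2 ⟨v, x2, x3⟩, hi, p2⟩, rfl⟩
    have c := (card_le_card b).trans ((card_union_le _ _).trans
      (Nat.add_le_add (card_union_le _ _) card_image_le))
    simp only [I]; omega
  obtain ⟨π, p1, p2⟩ := hall_req I Q
    (fun j p => P.A D j p ∧ ∀ v, ν (ag j) = vx v → ¬ P.H p v) hc (by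
      intro s hs ⟨j0, hj0⟩ hng
      have key : ∀ j ∈ s, j ∈ P.NC ν ∧ (D.O j ∨ P.Sp D μ ν j) := by
        intro j hj
        obtain ⟨j1, j2⟩ := mem_filter.1 (hs hj)
        refine ⟨j1, by_contra fun t => ?_⟩
        push Not at t
        obtain ⟨p, hp, hn⟩ := hng j hj
        obtain ⟨_, q1, q2, _, q4⟩ := mem_filter.1 hp
        obtain ⟨v, e, hc⟩ := mem_NC.1 j1
        obtain ⟨n1, n2, n3⟩ := nored j v e hc
        have := F.nonsp h e n1 n2 n3 j2 t.1 t.2 q1 q2 q4 fun a b => hρ j v p e hc a b q2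
        exact hn ⟨this.1, fun w hw => by
          rw [e] at hw; exact (by simpa using hw : v = w) ▸ this.2⟩
      have hR : Rs = ∅ := hRs.resolve_right fun t => by
        have := t j0 (key j0 hj0).1; have := (key j0 hj0).2; tauto
      have acc : ∀ j ∈ s, ∀ p ∈ D.ρ, ∀ v, ν (ag j) = vx v → ¬ P.H p v := fun j hj p hp v e => by
        obtain ⟨w, e', hc⟩ := mem_NC.1 (key j hj).1
        have : w = v := by simpa using e'.symm.trans e
        exact F.zρ v (this ▸ (nored j w e' hc).2.2) p hp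
      by_cases hOs : ∃ j ∈ s, D.O j
      · obtain ⟨j, hj, oj⟩ := hOs
        obtain ⟨o1, o2, o3⟩ := hO j oj
        refine ⟨j, hj, D.ρ.filter fun p => ¬ ν (vx p) ≠ vx p, fun p hp => ?_, ?_, fun p hp => ?_⟩
        · exact hQ p (mem_filter.1 hp).1 (not_not.1 (mem_filter.1 hp).2) hR
        · have a := F.sp_card h (s.erase j) fun i hi => ⟨(key i (mem_erase.1 hi).2).1,
            (key i (mem_erase.1 hi).2).2.resolve_left fun t => (mem_erase.1 hi).1 (o3 i t)⟩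
          have b := card_filter_add_card_filter_not (s := D.ρ) (fun p => ν (vx p) ≠ vx p)
          have c := card_erase_add_one hj
          omega
        · exact ⟨o2 p (mem_filter.1 hp).1, acc j hj p (mem_filter.1 hp).1⟩
      · push Not at hOs
        have sp : ∀ j ∈ s, j ∈ P.NC ν ∧ P.Sp D μ ν j := fun j hj =>
          ⟨(key j hj).1, (key j hj).2.resolve_left (hOs j hj)⟩
        obtain ⟨t, t1, t2, t3⟩ := hacc j0 (sp j0 hj0).1 (sp j0 hj0).2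
        refine ⟨j0, hj0, t.filter fun p => ¬ ν (vx p) ≠ vx p, fun p hp => ?_, ?_, fun p hp => ?_⟩
        · exact hQ p (t1 (mem_filter.1 hp).1) (not_not.1 (mem_filter.1 hp).2) hR
        · have a := F.sp_card h s sp
          have b := card_filter_add_card_filter_not (s := t) (fun p => ν (vx p) ≠ vx p)
          have c := card_le_card (filter_subset_filter (fun p => ν (vx p) ≠ vx p) t1)
          omega
        · exact ⟨t3 p (mem_filter.1 hp).1, acc j0 hj0 p (t1 (mem_filter.1 hp).1)⟩)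
  refine ⟨fun j => if P.Kept D μ ν j then D.hid j else π j, fun i hi j hj e => ?_,
    fun j v e hc => ?_⟩
  · by_cases a : P.Kept D μ ν i <;> by_cases b : P.Kept D μ ν j <;>
      simp only [a, b, if_true, if_false] at e
    · exact F.perInj a.1 b.1 e
    · exact absurd e ((mem_filter.1 (p2 j (mem_filter.2 ⟨hj, b⟩)).1).2.2.2.2 i a.1)
    · exact absurd e.symm ((mem_filter.1 (p2 i (mem_filter.2 ⟨hi, a⟩)).1).2.2.2.2 j b.1)
    · exact p1 (mem_filter.2 ⟨hi, a⟩) (mem_filter.2 ⟨hj, b⟩) e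
  · by_cases a : P.Kept D μ ν j <;> simp only [a, if_true, if_false]
    · obtain ⟨w, _, x2, x3, _, x5, x6, x7⟩ := F.per a.1
      have : w = v := by simpa using x2.symm.trans e
      exact ⟨x6, a.2, fun _ => x7, x3, this ▸ x5, fun _ => x7⟩
    · obtain ⟨q1, q2, q3⟩ := p2 j (mem_filter.2 ⟨mem_NC.2 ⟨v, e, hc⟩, a⟩)
      obtain ⟨_, r1, r2, r3, _⟩ := mem_filter.1 q1
      exact ⟨r1, r2, fun t => absurd t r3, q2, q3 v e, False.elim⟩

end AP

end Pool.Agent.Lib.MP_ef7581_lc
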