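import Mathlib
import Pool.Agent.Lib.MP_ef7581_lc.Part

/-!
Assembling a state, and the frame of an independent reference triple.
-/

set_option autoImplicit false
set_option linter.unusedSectionVars false

namespace Pool.Agent.Lib.MP_ef7581_lc

open Finset

namespace AP

variable {J V : Type} {P : AP J V} {D : Dat J V} [Fintype J] [Fintype V] [DecidableEq J]
  [DecidableEq V] {l : ℕ} {μ ν : Nd J V → Nd J V}

/-- Partner sets. -/
def mkP (ν : Nd J V → Nd J V) (I : Finset J) (π : J → V) (Rs : Finset V) (j : J) : Finset V :=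
  if ν (ag j) = dm j then Rs else if j ∈ I then {π j} else ∅

theorem mem_mkP {I : Finset J} {π : J → V} {Rs : Finset V} {j : J} {p : V} :
    p ∈ mkP ν I π Rs j ↔ (ν (ag j) = dm j ∧ p ∈ Rs) ∨ (ν (ag j) ≠ dm j ∧ j ∈ I ∧ p = π j) := by
  unfold mkP; split_ifs <;> simp [*]

open Classical in
theorem asg_mk (hν : IsM (P.E (P.RD D)) ν) {φ : V → J}
    (f1 : ∀ q ∈ Pq ν (fun v => ¬ D.Z v), ν (ag (φ q)) = ag (φ q))
    (f2 : Set.InjOn φ (Pq ν fun v => ¬ D.Z v)) {I : Finset J} {π : J → V} {Rs : Finset V}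
    (p1 : Set.InjOn π I) (p2 : ∀ j ∈ I, ν (vx (π j)) = vx (π j) ∧ π j ∉ Rs)
    (r1 : ∀ p ∈ Rs, ν (vx p) = vx p)
    (r2 : Rs = ∅ ∨ ∀ i j, ν (ag i) = dm i → ν (ag j) = dm j → i = j) :
    Asg ν (mkP ν I π Rs) (fun v => ¬ D.Z v) φ := by
  refine ⟨hν.1, disj_of fun i j v hi hj => ?_, fun j p hp => ?_, fun q u e hne => ?_, f1, f2⟩
  · rcases mem_mkP.1 hi with ⟨a, b⟩ | ⟨a, b, rfl⟩ <;> rcases mem_mkP.1 hj with ⟨a', b'⟩ | ⟨a', b', e⟩
    · rcases r2 with r | r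
      · simp [r] at b
      · exact r i j a a'
    · exact absurd (e ▸ b) (p2 j b').2
    · exact absurd b' (p2 i b).2
    · exact p1 b b' e
  · rcases mem_mkP.1 hp with ⟨_, b⟩ | ⟨_, b, rfl⟩
    exacts [r1 p b, (p2 j b).1]
  · have := (pair_edge hν e hne).2; tauto

open Classical in
theorem finish (hν : IsM (P.E (P.RD D)) ν) {φ : V → J} {I : Finset J} {π : J → V} {Rs : Finset V}
    (ha : Asg ν (mkP ν I π Rs) (fun v => ¬ D.Z v) φ)
    (s1 : ∀ j v, ν (ag j) = vx v → P.col j v ≠ none → j ∈ I ∧ P.Good j (π j) v)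
    (s2 : ∀ j, ν (ag j) = dm j → P.Serv j Rs)
    (s3 : ∀ q u, ¬ D.Z q → u ≠ q → ν (vx q) = vx u → P.Serv (φ q) {q, u} ∨
      (φ q ∈ I ∧ P.Good (φ q) (π (φ q)) u)) :
    ∃ g, Disj g ∧ cov ν ≤ 2 * P.sv g ∧ P.cw ν ≤ P.cf g := by
  refine ⟨_, ha.disj_rz, ha.real hν (fun j hj => ?_) fun q hq => ?_⟩
  · rcases mate_ag hν j with e | ⟨v, e, _⟩ | ⟨e, _⟩
    · exact absurd e hj
    · by_cases hc : P.col j v = none
      · exact serv_C (ha.head e) hc
      · obtain ⟨a, b⟩ := s1 j v e hc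
        exact b.serv (rz_part (mem_mkP.2 (Or.inr ⟨by rw [e]; simp, a, rfl⟩))) (ha.head e)
    · exact (s2 j e).mono fun p hp => rz_part (mem_mkP.2 (Or.inl ⟨e, hp⟩))
  · obtain ⟨z, u, hne, e⟩ := mem_Pq.1 hq
    have m := rz_pair (π := mkP ν I π Rs) (L := fun v => ¬ D.Z v) (φ := φ) z hne e
    rcases s3 q u z hne e with a | ⟨a, b⟩
    · refine a.mono fun x hx => ?_
      simp only [mem_insert, mem_singleton] at hx
      rcases hx with rfl | rfl
      exacts [m.1, m.2]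
    · exact b.serv (rz_part (mem_mkP.2 (Or.inr ⟨by rw [ha.free q hq]; simp, a, rfl⟩))) m.2

theorem dm_end {R : Rx J V} (hμ : IsM (P.E R) μ) (hν : IsM (P.E R) ν) {j : J}
    (h1 : μ (ag j) ≠ dm j) (h2 : ν (ag j) = dm j) : μ (dm j) = dm j ∧ IsEnd μ ν (dm j) := by
  have := (mate_dm hμ j).resolve_right fun t => h1 t.2
  exact ⟨this, Or.inl ⟨this, by rw [hν.flip h2]; simp⟩⟩

open Classical in
theorem Fr.pool (h : P.Op D l μ ν) (hall : ∀ p, μ (vx p) = vx p → ν (vx p) = vx p → D.Pi p)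
    (h0 : cov μ + (l + 2) ≤ Fintype.card V + P.cw μ) :
    (P.NC ν).card + 2 * (DU ν).card ≤ (univ.filter fun p => D.Pi p ∧ ν (vx p) = vx p).card :=
  (opt_pool h h0).trans (card_le_card fun p hp => mem_filter.2 ⟨mem_univ _,
    hall p (mem_bo.1 hp).1 (mem_bo.1 hp).2, (mem_bo.1 hp).2⟩)

theorem frameA (F : P.Fr D μ) (h : P.Op D l μ ν) (h3 : D.ρ.card = 3)
    (hall : ∀ p, μ (vx p) = vx p → D.Pi p)
    (hmaj : ∀ j, D.HM j → ∃ t ⊆ D.ρ, 2 ≤ t.card ∧ ∀ p ∈ t, P.A D j p)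
    (hnm : ∀ j, ¬ D.HM j → ∀ p ∈ D.ρ, ∀ q ∈ D.ρ, p ≠ q → P.col j p ≠ none → P.col j p ≠ P.col j q)
    (nodum : ∀ j, μ (ag j) ≠ dm j)
    (hO : ∀ j, D.O j → (∀ p ∈ D.ρ, P.A D j p) ∧ (∀ i, D.O i → i = j) ∧ ∀ i, ν (ag i) ≠ dm i)
    (noconf : ∀ q u o, μ (vx q) = vx u → u ≠ q → ¬ D.Z q → μ (ag o) = ag o → ¬ P.B D o u)
    (h0 : cov μ + (l + 2) ≤ Fintype.card V + P.cw μ) :
    ∃ g, Disj g ∧ cov ν ≤ 2 * P.sv g ∧ P.cw ν ≤ P.cf g := by
  classical
  have hρU : ∀ p ∈ D.ρ, μ (vx p) = vx p := fun p hp => F.piU p (F.ρPi p hp)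
  have hsp := card_filter_add_card_filter_not (s := D.ρ) (fun p => ν (vx p) ≠ vx p)
  obtain ⟨a, ha⟩ : (D.ρ.filter fun p => ¬ ν (vx p) ≠ vx p).Nonempty := by
    have := F.sp_card h ∅ (by simp)
    rw [← card_pos]; omega
  obtain ⟨a1, a2⟩ := mem_filter.1 ha
  rw [not_not] at a2
  have : Inhabited V := ⟨a⟩
  have nored : ∀ j v, ν (ag j) = vx v → P.col j v ≠ none → D.HM j ∧ P.B D j v ∧ D.Z v := by
    intro j v e hc
    obtain ⟨hm, t | ⟨t1, t2⟩⟩ := nc_iff.1 ((edge_av h.hν e).resolve_left hc)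
    · exact ⟨hm, t⟩
    exfalso
    have hv : μ (vx v) ≠ vx v := fun x => t2 (F.piZ v (hall v x))
    have hn : μ (ag j) ≠ vx v := fun x => t2 (F.side j v x hc).2.2.1
    by_cases hA : P.A D j a
    · have := (h.swing (h.hν.flip e) (by simp) (fun x => hn (h.hμ.flip x)) (hρU a a1) a2
        (Or.inl ⟨t2, F.piZ a (F.ρPi a a1), t1.AA hA⟩) (by rw [om_va, if_neg hc, om_vv])).1
      obtain ⟨p, hp, hH⟩ := F.nz v t2
      exact (F.piA j p this (F.ρPi p hp)).AA t1 hH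
    · exact hv (F.s1 h e hc hn hm (F.ρPi a a1) a2 hA).1
  have hρ : ∀ j v p, ν (ag j) = vx v → P.col j v ≠ none → v ∈ D.ρ → p ∈ D.ρ → ν (vx p) = vx p →
      P.A D j p := by
    intro j v p e hc hv hp u
    obtain ⟨n1, n2, _⟩ := nored j v e hc
    obtain ⟨t, t1, t2, t3⟩ := hmaj j n1
    have : t = D.ρ.erase v := eq_of_subset_of_card_le
      (fun x hx => mem_erase.2 ⟨fun y => (t3 x hx).notB (y ▸ n2), t1 hx⟩)
      (by rw [card_erase_of_mem hv]; omega)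
    refine t3 p (this ▸ mem_erase.2 ⟨fun y => ?_, hp⟩)
    have := h.hν.flip e; rw [← y, u] at this; simp at this
  obtain ⟨φ, f1, f2, f3⟩ := F.owners h
  have s3 : ∀ q u, ¬ D.Z q → u ≠ q → ν (vx q) = vx u → P.Serv (φ q) {q, u} := by
    intro q u z hne e
    rcases f3 q u z hne e with t | ⟨⟨_, u', t1, t2, t3⟩, _, fr, b⟩
    · exact t
    · rw [e] at t3
      exact absurd ((by simpa using t3 : u = u') ▸ b) (noconf q u' _ t2 t1 z fr.1)
  have pool := Fr.pool h (fun p x _ => hall p x) h0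
  have hacc : ∀ j ∈ P.NC ν, P.Sp D μ ν j → ∃ t ⊆ D.ρ, 2 ≤ t.card ∧ ∀ p ∈ t, P.A D j p := by
    intro j hj _
    obtain ⟨v, e, hc⟩ := mem_NC.1 hj
    exact hmaj j (nored j v e hc).1
  have hO' : ∀ j, D.O j → 3 ≤ D.ρ.card ∧ (∀ p ∈ D.ρ, P.A D j p) ∧ ∀ i, D.O i → i = j :=
    fun j hj => ⟨h3.ge, (hO j hj).1, (hO j hj).2.1⟩
  by_cases hd : ∃ j, ν (ag j) = dm j
  · obtain ⟨j, ej⟩ := hd
    have dC : ∀ i, ν (ag i) = dm i → ∀ p ∈ D.ρ, ν (vx p) = vx p → P.col i p ≠ none :=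
      fun i ei p hp u => no_C h ei (by simp) (nodum i) (om_ad _ _ _) (hρU p hp) u
    have hnj := hnm j (du_iff.1 (edge_ad h.hν ej))
    have c1 : 1 ≤ (D.ρ.filter fun p => ν (vx p) ≠ vx p).card := by
      by_contra hc
      have e0 : ∀ p ∈ D.ρ, P.col j p ≠ none := fun p hp => dC j ej p hp (by
        by_contra u; exact hc (card_pos.2 ⟨p, mem_filter.2 ⟨hp, u⟩⟩))
      obtain ⟨x, y, z, xy, xz, yz, e⟩ := card_eq_three.1 h3
      have mx : x ∈ D.ρ := by simp [e]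
      have my : y ∈ D.ρ := by simp [e]
      have mz : z ∈ D.ρ := by simp [e]
      have k1 := hnj x mx y my xy (e0 x mx)
      have k2 := hnj x mx z mz xz (e0 x mx)
      have k3 := hnj y my z mz yz (e0 y my)
      have k4 := e0 x mx; have k5 := e0 y my; have k6 := e0 z mz
      revert k1 k2 k3 k4 k5 k6
      rcases P.col j x with _ | _ | _ <;> rcases P.col j y with _ | _ | _ <;>
        rcases P.col j z with _ | _ | _ <;> simp
    have two : ∀ x, IsEnd μ ν x → (∀ p ∈ D.ρ, x ≠ vx p) → x = dm j := by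
      intro x hx hx'
      by_contra hne
      have := ends_card h {x, dm j} id D.ρ (by
        simp only [mem_insert, mem_singleton, forall_eq_or_imp, forall_eq, id]
        exact ⟨⟨hx, hx'⟩, (dm_end h.hμ h.hν (nodum j) ej).2, by simp⟩) (Set.injOn_id _) hρU
      rw [card_pair hne] at this; omega
    have c2 := ends_card h {dm j} id D.ρ (by
      simp only [mem_singleton, forall_eq, id]
      exact ⟨(dm_end h.hμ h.hν (nodum j) ej).2, by simp⟩) (Set.injOn_id _) hρU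
    rw [card_singleton] at c2
    have uni : ∀ i, ν (ag i) = dm i → i = j := fun i ei => by
      simpa using two _ (dm_end h.hμ h.hν (nodum i) ei).2 (by simp)
    have c3 : 1 ≤ (DU ν).card := card_pos.2 ⟨j, mem_DU.2 ej⟩
    obtain ⟨π, p1, p2⟩ := F.partners h (D.ρ.filter fun p => ¬ ν (vx p) ≠ vx p) nored (by omega)
      (Or.inr fun i hi => ⟨fun sp => by
        obtain ⟨ε, e1, _⟩ := F.sp_end h
        obtain ⟨x1, x2⟩ := e1 i hi sp
        rcases x2 with x | ⟨p, x, hp, _⟩ <;> rw [x] at x1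
        · simpa using two _ x1 (by simp)
        · simpa using two _ x1 (fun q hq t => hp ((by simpa using t : p = q) ▸ hq)),
        fun o => (hO i o).2.2 j ej⟩) hacc hρ hO'
    refine finish h.hν (asg_mk h.hν (Rs := D.ρ.filter fun p => ¬ ν (vx p) ≠ vx p)
      (fun q hq => (f1 q hq).2) f2 p1 (fun i hi => ?_)
      (fun p hp => not_not.1 (mem_filter.1 hp).2) (Or.inr fun i i' a b => (uni i a).trans (uni i' b).symm))
      (fun i v e hc => ?_) (fun i ei => ?_) fun q u z hne e => Or.inl (s3 q u z hne e)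
    · obtain ⟨v, e, hc⟩ := mem_NC.1 hi
      obtain ⟨_, x2, x3, _⟩ := p2 i v e hc
      exact ⟨x2, fun t => x3 t (mem_filter.1 t).1⟩
    · obtain ⟨_, _, _, x4, x5, _⟩ := p2 i v e hc
      exact ⟨mem_NC.2 ⟨v, e, hc⟩, x4.good (nored i v e hc).2.1 x5⟩
    · obtain ⟨x, hx, y, hy, xy⟩ := one_lt_card.1
        (show 1 < (D.ρ.filter fun p => ¬ ν (vx p) ≠ vx p).card by omega)
      obtain ⟨x1, x2⟩ := mem_filter.1 hx
      obtain ⟨y1, _⟩ := mem_filter.1 hy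
      rw [uni i ei]
      exact serv_of hx hy (hnj x x1 y y1 xy (dC j ej x x1 (not_not.1 x2)))
        (F.piH h.hμ (F.ρPi x x1) (F.ρPi y y1))
  · push Not at hd
    obtain ⟨π, p1, p2⟩ := F.partners h ∅ nored (by rw [card_empty]; omega) (Or.inl rfl) hacc hρ hO'
    refine finish h.hν (asg_mk h.hν (Rs := ∅) (fun q hq => (f1 q hq).2) f2 p1 (fun i hi => ?_)
      (by simp) (Or.inl rfl))
      (fun i v e hc => ?_) (fun i ei => absurd ei (hd i)) fun q u z hne e => Or.inl (s3 q u z hne e)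
    · obtain ⟨v, e, hc⟩ := mem_NC.1 hi
      exact ⟨(p2 i v e hc).2.1, by simp⟩
    · obtain ⟨_, _, _, x4, x5, _⟩ := p2 i v e hc
      exact ⟨mem_NC.2 ⟨v, e, hc⟩, x4.good (nored i v e hc).2.1 x5⟩

end AP

end Pool.Agent.Lib.MP_ef7581_lc
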