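import Mathlib
import Pool.Agent.Lib.MP_ef7581_lc.FrameA

/-!
The frame of a complete bipartite free set.
-/

set_option autoImplicit false
set_option linter.unusedSectionVars false

namespace Pool.Agent.Lib.MP_ef7581_lc

open Finset

namespace AP

variable {J V : Type} {P : AP J V} {D : Dat J V} [Fintype J] [Fintype V] [DecidableEq J]
  [DecidableEq V] {l : ℕ} {μ ν : Nd J V → Nd J V}

/-- A conflict of the owner assignment. -/
def Cf (P : AP J V) (D : Dat J V) (μ ν : Nd J V → Nd J V) (φ : V → J) (q : V) : Prop :=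
  PP D μ ν q ∧ ν (ag (D.own q)) ≠ ag (D.own q) ∧ Fre D μ ν (φ q) ∧
    ∃ u, ν (vx q) = vx u ∧ P.B D (φ q) u

theorem Fr.cf_end (F : P.Fr D μ) {φ : V → J} {q : V} (h : Cf P D μ ν φ q) :
    μ (ag (D.own q)) = ag (D.own q) ∧ IsEnd μ ν (ag (D.own q)) := by
  obtain ⟨⟨z, u, t1, t2, _⟩, t4, _⟩ := h
  exact ⟨(F.own q u t2 t1 z).1, Or.inl ⟨(F.own q u t2 t1 z).1, t4⟩⟩

theorem Fr.cf_inj (F : P.Fr D μ) {φ : V → J} {q q' : V} (h : Cf P D μ ν φ q)
    (h' : Cf P D μ ν φ q') (e : D.own q = D.own q') : q = q' := by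
  obtain ⟨⟨z, u, t1, t2, _⟩, _⟩ := h
  obtain ⟨⟨z', u', t1', t2', _⟩, _⟩ := h'
  exact F.oinj q u q' u' t2 t1 z t2' t1' z' e

open Classical in
/-- All requests are special and accept the whole reference pair. -/
theorem Fr.small (F : P.Fr D μ) (h : P.Op D l μ ν) (h2 : D.ρ.card = 2) (hO : ∀ j, ¬ D.O j)
    (hN : ∀ j v, μ (ag j) = vx v → P.col j v ≠ none → ∀ p ∈ D.ρ, P.A D j p)
    (hd : ∀ j, ν (ag j) ≠ dm j)
    (hnew : ∀ j v, ν (ag j) = vx v → P.B D j v → μ (ag j) ≠ vx v → μ (ag j) = ag j)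
    (y : V) (hred : ∀ j u, ν (ag j) = vx u → P.A D j u → ν (vx y) = vx y ∧ ¬ D.Pi y ∧ P.Good j y u ∧
      ∀ i w, ν (ag i) = vx w → P.A D i w → i = j)
    {φ : V → J} (f1 : ∀ q ∈ Pq ν (fun v => ¬ D.Z v), ν (ag (φ q)) = ag (φ q))
    (f2 : Set.InjOn φ (Pq ν fun v => ¬ D.Z v))
    (f3 : ∀ q u, ¬ D.Z q → u ≠ q → ν (vx q) = vx u → P.Serv (φ q) {q, u} ∨
      (PP D μ ν q ∧ ν (ag (D.own q)) ≠ ag (D.own q) ∧ Fre D μ ν (φ q) ∧ P.B D (φ q) u))
    (εC : V → Nd J V) (c1 : ∀ q, Cf P D μ ν φ q → IsEnd μ ν (εC q) ∧ (∀ j ∈ P.NC ν, εC q ≠ ag j) ∧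
      ∀ x, D.Z x → εC q ≠ vx x)
    (c2 : ∀ q q', Cf P D μ ν φ q → Cf P D μ ν φ q' → εC q = εC q' → q = q') :
    ∃ g, Disj g ∧ cov ν ≤ 2 * P.sv g ∧ P.cw ν ≤ P.cf g := by
  have : Inhabited V := ⟨y⟩
  let Red : J → Prop := fun j => ∃ u, ν (ag j) = vx u ∧ P.A D j u
  let Rq : Finset J := univ.filter fun j =>
    (j ∈ P.NC ν ∧ ¬ P.Kept D μ ν j ∧ ¬ Red j) ∨ ∃ q, Cf P D μ ν φ q ∧ φ q = j
  have side : ∀ j v, ν (ag j) = vx v → P.col j v ≠ none → ¬ Red j → P.B D j v ∧ D.Z v := by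
    intro j v e hc hr
    obtain ⟨_, t | t⟩ := nc_iff.1 ((edge_av h.hν e).resolve_left hc)
    exacts [t, absurd ⟨v, e, t.1⟩ hr]
  have sp : ∀ j ∈ P.NC ν, ¬ P.Kept D μ ν j → ¬ Red j → P.Sp D μ ν j := by
    intro j hj hk hr
    obtain ⟨v, e, hc⟩ := mem_NC.1 hj
    by_cases t : μ (ag j) = vx v
    · exact Or.inr (Or.inr ⟨⟨hO j, v, t, e, hc⟩, fun x => hk ⟨⟨hO j, v, t, e, hc⟩, x⟩⟩)
    · exact Or.inl (hnew j v e (side j v e hc hr).1 t)
  have cfN : ∀ q, Cf P D μ ν φ q → φ q ∉ P.NC ν := fun q hq t => by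
    obtain ⟨v, e, _⟩ := mem_NC.1 t
    rw [hq.2.2.1.2.1] at e; simp at e
  obtain ⟨ε, e1, e2⟩ := F.sp_end h
  have : ∀ j, ∃ q, (∃ q, Cf P D μ ν φ q ∧ φ q = j) → Cf P D μ ν φ q ∧ φ q = j := fun j => by
    by_cases t : ∃ q, Cf P D μ ν φ q ∧ φ q = j
    · obtain ⟨q, hq⟩ := t; exact ⟨q, fun _ => hq⟩
    · exact ⟨y, fun x => absurd x t⟩
  choose cq hcq using this
  have cs : ∀ j ∈ Rq, (j ∈ P.NC ν ∧ ¬ P.Kept D μ ν j ∧ ¬ Red j) ∨
      (j ∉ P.NC ν ∧ Cf P D μ ν φ (cq j) ∧ φ (cq j) = j) := fun j hj =>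
    (mem_filter.1 hj).2.imp_right fun t => ⟨(hcq j t).2 ▸ cfN _ (hcq j t).1, hcq j t⟩
  have mixed : ∀ i q, i ∈ P.NC ν → ¬ P.Kept D μ ν i → ¬ Red i → Cf P D μ ν φ q → ε i ≠ εC q := by
    intro i q a b c hq e
    obtain ⟨v, ev, hc⟩ := mem_NC.1 a
    rcases (e1 i a (sp i a b c)).2 with x | ⟨p, x, _, x3⟩ <;> rw [x] at e
    · exact (c1 q hq).2.1 i a e.symm
    · refine (c1 q hq).2.2 p ?_ e.symm
      rcases x3 with x3 | x3
      · rw [ev] at x3; exact (by simpa using x3 : v = p) ▸ (side i v ev hc c).2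
      · exact F.piZ p x3
  have cnt := ends_card h Rq (fun j => if j ∈ P.NC ν then ε j else εC (cq j)) D.ρ (by
      intro j hj
      rcases cs j hj with ⟨a, b, c⟩ | ⟨a, b, c⟩ <;> simp only [a, if_true, if_false]
      · refine ⟨(e1 j a (sp j a b c)).1, fun p hp e => ?_⟩
        rcases (e1 j a (sp j a b c)).2 with x | ⟨q, x, x2, _⟩ <;> rw [x] at e
        · simp at e
        · exact x2 ((by simpa using e : q = p) ▸ hp)
      · exact ⟨(c1 _ b).1, fun p hp => (c1 _ b).2.2 p (F.piZ p (F.ρPi p hp))⟩) (by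
      intro i hi j hj e
      rcases cs i hi with ⟨a, b, c⟩ | ⟨a, b, c⟩ <;> rcases cs j hj with ⟨a', b', c'⟩ | ⟨a', b', c'⟩ <;>
        simp only [a, a', if_true, if_false] at e
      · exact e2 i a j a' (sp i a b c) (sp j a' b' c') e
      · exact absurd e (mixed i _ a b c b')
      · exact absurd e.symm (mixed j _ a' b' c' b)
      · rw [← c, ← c', c2 _ _ b b' e]) fun p hp => F.piU p (F.ρPi p hp)
  have hsp := card_filter_add_card_filter_not (s := D.ρ) (fun p => ν (vx p) ≠ vx p)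
  obtain ⟨π0, q1, q2, _⟩ := ext_inj Rq ∅ (D.ρ.filter fun p => ¬ ν (vx p) ≠ vx p) (fun _ => y)
    (empty_subset _) (by simp) (by simp) (by omega)
  let I : Finset J := univ.filter fun j => j ∈ P.NC ν ∨ j ∈ Rq
  let π : J → V := fun j => if j ∈ Rq then π0 j else if Red j then y else D.hid j
  have tri : ∀ j ∈ I, (j ∈ Rq ∧ π j = π0 j) ∨ (Red j ∧ π j = y) ∨
      (P.Kept D μ ν j ∧ π j = D.hid j) := by
    intro j hj
    by_cases a : j ∈ Rq
    · exact Or.inl ⟨a, if_pos a⟩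
    by_cases b : Red j
    · exact Or.inr (Or.inl ⟨b, by simp only [π, a, b, if_true, if_false]⟩)
    refine Or.inr (Or.inr ⟨by_contra fun c => a (mem_filter.2 ⟨mem_univ _, Or.inl
      ⟨(mem_filter.1 hj).2.resolve_right a, c, b⟩⟩), by simp only [π, a, b, if_false]⟩)
  have ry : ∀ j, Red j → ν (vx y) = vx y ∧ ¬ D.Pi y ∧ ∀ i, Red i → i = j := fun j ⟨u, a, b⟩ =>
    ⟨(hred j u a b).1, (hred j u a b).2.1, fun i ⟨w, a', b'⟩ => (hred j u a b).2.2.2 i w a' b'⟩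
  have kp : ∀ j, P.Kept D μ ν j → D.Pi (D.hid j) ∧ D.hid j ∉ D.ρ := fun j hj => by
    obtain ⟨_, _, _, _, _, _, x⟩ := F.per hj.1; exact x
  have r0 : ∀ j ∈ Rq, π0 j ∈ D.ρ := fun j hj => (mem_filter.1 (q1 j hj)).1
  refine finish h.hν (asg_mk h.hν (Rs := ∅) (I := I) (π := π) f1 f2 (fun i hi j hj e => ?_)
    (fun j hj => ⟨?_, by simp⟩) (by simp) (Or.inl rfl)) (fun j v e hc => ?_)
    (fun j e => absurd e (hd j)) fun q u z hne e => (f3 q u z hne e).imp_right fun t => ?_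
  · rcases tri i hi with ⟨a, b⟩ | ⟨a, b⟩ | ⟨a, b⟩ <;> rcases tri j hj with ⟨a', b'⟩ | ⟨a', b'⟩ | ⟨a', b'⟩ <;>
      rw [b, b'] at e
    · exact q2 a a' e
    · exact absurd (e ▸ F.ρPi _ (r0 i a)) (ry j a').2.1
    · exact absurd (e ▸ r0 i a) (kp j a').2
    · exact absurd (e ▸ F.ρPi _ (r0 j a')) (ry i a).2.1
    · exact (ry j a').2.2 i a
    · exact absurd (e ▸ (kp j a').1) (ry i a).2.1
    · exact absurd (e ▸ r0 j a') (kp i a).2
    · exact absurd (e ▸ (kp i a).1) (ry j a').2.1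
    · exact F.perInj a.1 a'.1 e
  · rcases tri j hj with ⟨a, b⟩ | ⟨a, b⟩ | ⟨a, b⟩ <;> rw [b]
    exacts [not_not.1 (mem_filter.1 (q1 j a)).2, (ry j a).1, a.2]
  · have hj : j ∈ P.NC ν := mem_NC.2 ⟨v, e, hc⟩
    have hI : j ∈ I := mem_filter.2 ⟨mem_univ _, Or.inl hj⟩
    refine ⟨hI, ?_⟩
    rcases tri j hI with ⟨a, b⟩ | ⟨⟨u, a, a'⟩, b⟩ | ⟨a, b⟩ <;> rw [b]
    · obtain ⟨_, x2, x3⟩ := (cs j a).resolve_right fun t => t.1 hj
      obtain ⟨s1, s2⟩ := side j v e hc x3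
      refine A.good ?_ s1 (F.zρ v s2 _ (r0 j a))
      by_cases t : μ (ag j) = vx v
      · exact hN j v t hc _ (r0 j a)
      · exact F.piA j _ (hnew j v e s1 t) (F.ρPi _ (r0 j a))
    · rw [e] at a; exact (by simpa using a : v = u) ▸ (hred j u (by rw [e, a]) a').2.2.1
    · obtain ⟨w, _, x2, x3, x4, x5, _⟩ := F.per a.1
      rw [e] at x2; exact (by simpa using x2 : v = w) ▸ x3.good x4 x5
  · have hq : φ q ∈ Rq := mem_filter.2 ⟨mem_univ _, Or.inr ⟨q, ⟨t.1, t.2.1, t.2.2.1, u, e, t.2.2.2⟩, rfl⟩⟩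
    refine ⟨mem_filter.2 ⟨mem_univ _, Or.inr hq⟩, ?_⟩
    rw [show π (φ q) = π0 (φ q) from if_pos hq]
    exact (F.piA _ _ t.2.2.1.1 (F.ρPi _ (r0 _ hq))).good t.2.2.2
      (F.zρ u ((pair_edge h.hν e hne).2.1 z) _ (r0 _ hq))

theorem frameB (F : P.Fr D μ) (h : P.Op D l μ ν) {p p' y : V} (hpp : p ≠ p') (hρ : D.ρ = {p, p'})
    (TB : V → Prop) (hy : TB y) (hall : ∀ v, μ (vx v) = vx v → D.Pi v ∨ TB v)
    (tbU : ∀ v, TB v → μ (vx v) = vx v) (tbH : ∀ v, TB v → ∀ x ∈ D.ρ, P.H x v)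
    (hO : ∀ j, ¬ D.O j)
    (hN : ∀ j v, μ (ag j) = vx v → P.col j v ≠ none → ∀ p ∈ D.ρ, P.A D j p)
    (hmaj : ∀ j, D.HM j → (∀ x ∈ D.ρ, P.col j x = none ∨ P.A D j x) ∧ ∃ x ∈ D.ρ, P.A D j x)
    (hnm : ∀ j, ¬ D.HM j → (P.col j p ≠ none ∧ P.col j p' ≠ none ∧ P.col j p ≠ P.col j p') ∨
      (P.col j p = none ∧ P.col j p' = none) ∨ (∃ x ∈ D.ρ, P.col j x = none) ∧ P.col j y = none)
    (nodum : ∀ j, μ (ag j) ≠ dm j) (h0 : cov μ + (l + 2) ≤ Fintype.card V + P.cw μ) :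
    ∃ g, Disj g ∧ cov ν ≤ 2 * P.sv g ∧ P.cw ν ≤ P.cf g := by
  classical
  have : Inhabited V := ⟨y⟩
  have h2 : D.ρ.card = 2 := by rw [hρ, card_pair hpp]
  have mp : p ∈ D.ρ := by simp [hρ]
  have mp' : p' ∈ D.ρ := by simp [hρ]
  have hρU : ∀ p ∈ D.ρ, μ (vx p) = vx p := fun p hp => F.piU p (F.ρPi p hp)
  have tbZ : ∀ v, TB v → ¬ D.Z v := fun v hv z => F.zρ v z p mp (tbH v hv p mp)
  have ρy : ∀ v, TB v → ∀ x ∈ D.ρ, x ≠ v := fun v hv x hx e => P.irrefl v (e ▸ tbH v hv x hx)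
  have red : ∀ j u, ν (ag j) = vx u → P.A D j u → ∃ a b, ((a = p ∧ b = p') ∨ (a = p' ∧ b = p)) ∧
      P.H a u ∧ P.col j a = none ∧ P.A D j b ∧ ¬ D.Z u ∧ μ (ag j) ≠ ag j ∧ μ (vx u) ≠ vx u ∧
      μ (ag j) ≠ vx u ∧ ν (vx a) ≠ vx a ∧ ν (vx b) ≠ vx b := by
    intro j u e hA
    obtain ⟨hm, t | ⟨_, z⟩⟩ := nc_iff.1 ((edge_av h.hν e).resolve_left hA.ne)
    · exact absurd t.1 hA.notB
    obtain ⟨a, ha, hH⟩ := F.nz u z
    obtain ⟨m1, b, hb, m2⟩ := hmaj j hm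
    have ca : P.col j a = none := (m1 a ha).resolve_right fun t => t.AA hA hH
    have ab : a ≠ b := fun t => m2.ne (t ▸ ca)
    have hj : μ (ag j) ≠ ag j := fun t => (F.piA j a t (F.ρPi a ha)).ne ca
    have hn : μ (ag j) ≠ vx u := fun x => z (F.side j u x hA.ne).2.2.1
    refine ⟨a, b, ?_, hH, ca, m2, z, hj, fun t => ?_, hn, fun t => ?_, fun t => ?_⟩
    · simp only [hρ, mem_insert, mem_singleton] at ha hb
      rcases ha with rfl | rfl <;> rcases hb with rfl | rfl <;> simp_all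
    · rcases hall u t with x | x
      exacts [z (F.piZ u x), m2.AA hA (tbH u x b hb)]
    · exact no_C h e (by simp) hn (by rw [om_av, if_neg hA.ne]) (hρU a ha) t ca
    · exact hj (h.swing (h.hν.flip e) (by simp) (fun x => hn (h.hμ.flip x)) (hρU b hb) t
        (Or.inl ⟨z, F.piZ b (F.ρPi b hb), hA.AA m2⟩) (by rw [om_va, if_neg hA.ne, om_vv])).1
  have dC : ∀ i, ν (ag i) = dm i → ∀ x, μ (vx x) = vx x → P.col i x = none → IsEnd μ ν (vx x) :=
    fun i ei x hx c => Or.inl ⟨hx, fun u => no_C h ei (by simp) (nodum i) (om_ad _ _ _) hx u c⟩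
  have dpat : ∀ j, ν (ag j) = dm j →
      P.col j p ≠ none ∧ P.col j p' ≠ none ∧ P.col j p ≠ P.col j p' := by
    intro j ej
    have de := (dm_end h.hμ h.hν (nodum j) ej).2
    rcases hnm j (du_iff.1 (edge_ad h.hν ej)) with t | ⟨a, b⟩ | ⟨⟨x, hx, a⟩, b⟩
    · exact t
    · simpa [hpp] using h.three (dC j ej p (hρU p mp) a) (dC j ej p' (hρU p' mp') b) de
    · simpa [ρy y hy x hx] using h.three (dC j ej x (hρU x hx) a) (dC j ej y (tbU y hy) b) de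
  obtain ⟨φ, f1, f2, f3⟩ := F.owners h
  by_cases ha : ∃ y', TB y' ∧ ν (vx y') = vx y'
  · obtain ⟨y', t1, t2⟩ := ha
    have yB : ∀ j v, ν (ag j) = vx v → P.col j v ≠ none → μ (ag j) ≠ vx v → P.B D j y' := by
      intro j v e hc hn
      obtain ⟨_, x, hx, m2⟩ := hmaj j (nc_iff.1 ((edge_av h.hν e).resolve_left hc)).1
      exact (m2.nbr (tbH y' t1 x hx)).resolve_left
        (no_C h e (by simp) hn (by rw [om_av, if_neg hc]) (tbU y' t1) t2)
    have zB : ∀ j v, ν (ag j) = vx v → P.B D j v → D.Z v := fun j v e hb => by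
      obtain ⟨_, t | t⟩ := nc_iff.1 ((edge_av h.hν e).resolve_left hb.ne)
      exacts [t.2, absurd hb t.1.notB]
    refine F.small h h2 hO hN (fun j ej => ?_) (fun j v e hb hn => ?_) y' (fun j u e hA => ?_)
      (fun q hq => (f1 q hq).2) f2 f3 (fun q => ag (D.own q))
      (fun q hq => ⟨(F.cf_end hq).2, fun j hj e => ?_, by simp⟩)
      fun q q' a b e => F.cf_inj a b (by simpa using e)
    · obtain ⟨a, b, c⟩ := dpat j ej
      have k1 := P.compat j p y' (tbH y' t1 p mp) a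
      have k2 := P.compat j p' y' (tbH y' t1 p' mp') b
      have k3 := no_C h ej (by simp) (nodum j) (om_ad _ _ _) (tbU y' t1) t2
      revert a b c k1 k2 k3
      rcases P.col j p with _ | _ | _ <;> rcases P.col j p' with _ | _ | _ <;>
        rcases P.col j y' with _ | _ | _ <;> simp
    · exact (h.swing (h.hν.flip e) (by simp) (fun x => hn (h.hμ.flip x)) (tbU y' t1) t2
        (Or.inr ⟨tbZ y' t1, zB j v e hb, (yB j v e hb.ne hn).BB hb⟩)
        (by rw [om_va, if_neg hb.ne, om_vv])).1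
    · obtain ⟨a, b, r1, r2, r3, r4, r5, r6, r7, r8, r9, r10⟩ := red j u e hA
      have ma : a ∈ D.ρ ∧ b ∈ D.ρ ∧ a ≠ b := by
        rcases r1 with ⟨rfl, rfl⟩ | ⟨rfl, rfl⟩
        exacts [⟨mp, mp', hpp⟩, ⟨mp', mp, hpp.symm⟩]
      refine ⟨t2, fun t => tbZ y' t1 (F.piZ _ t), (hA.good (yB j u e hA.ne r8) fun t =>
        P.tri _ _ _ r2 t (tbH y' t1 a ma.1)).symm, fun i w e' hA' => by_contra fun hij => ?_⟩
      obtain ⟨a', b', s1, s2, s3, s4, s5, s6, s7, s8, s9, s10⟩ := red i w e' hA'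
      have mb' : b' ∈ D.ρ := by rcases s1 with ⟨_, rfl⟩ | ⟨_, rfl⟩ <;> assumption
      refine h.two_edges e (by simp) r8 r6 r7 e' (by simp) s8 s6 s7 (a := vx a) (b := vx b)
        (a' := vx a') (b' := vx b') (Or.inl ⟨hρU a ma.1, r9⟩) (Or.inl ⟨hρU b ma.2.1, r10⟩)
        (hρU a ma.1) (hρU b ma.2.1) (by simpa using ma.2.2) ?_ (Or.inl r3)
        (Or.inl ⟨r5, F.piZ b (F.ρPi b ma.2.1), hA.AA r4⟩) (by simp [om_av, r3, hA.ne])
        (by simp [om_av, om_vv, hA.ne]) (Or.inl s3) (Or.inl ⟨s5, F.piZ b' (F.ρPi b' mb'), hA'.AA s4⟩)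
        (by simp [om_av, s3, hA'.ne]) (by simp [om_av, om_vv, hA'.ne])
        (by simpa using fun t => hij t.symm) (by simp)
      rcases r1 with ⟨rfl, rfl⟩ | ⟨rfl, rfl⟩ <;> rcases s1 with ⟨rfl, rfl⟩ | ⟨rfl, rfl⟩ <;> simp
    · obtain ⟨b, eb, hc⟩ := mem_NC.1 hj
      have e' : D.own q = j := by simpa using e
      subst e'
      have ho := (F.cf_end hq).1
      have hb : P.B D (D.own q) b := ((tri3 _ b).resolve_left hc).resolve_left fun t => by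
        obtain ⟨_, _, _, _, _, _, _, r6, _⟩ := red _ b eb t; exact r6 ho
      exact F.ownerless h hq.1 eb hc (tbU y' t1) t2 (by simp) (Or.inr ⟨tbZ y' t1, zB _ b eb hb,
        (yB _ b eb hc (by rw [ho]; simp)).BB hb⟩)
  push Not at ha
  have ey : IsEnd μ ν (vx y) := Or.inl ⟨tbU y hy, ha y hy⟩
  have nored : ∀ j v, ν (ag j) = vx v → P.col j v ≠ none → D.HM j ∧ P.B D j v ∧ D.Z v := by
    intro j v e hc
    obtain ⟨hm, t | ⟨t1, _⟩⟩ := nc_iff.1 ((edge_av h.hν e).resolve_left hc)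
    · exact ⟨hm, t⟩
    obtain ⟨a, b, r1, _, _, _, _, _, _, _, r9, r10⟩ := red j v e t1
    have : ν (vx p) ≠ vx p ∧ ν (vx p') ≠ vx p' := by
      rcases r1 with ⟨rfl, rfl⟩ | ⟨rfl, rfl⟩
      exacts [⟨r9, r10⟩, ⟨r10, r9⟩]
    simpa [hpp, ρy y hy p mp, ρy y hy p' mp'] using
      h.three (Or.inl ⟨hρU p mp, this.1⟩) (Or.inl ⟨hρU p' mp', this.2⟩) ey
  have unc : ∀ x, IsEnd μ ν x → x ≠ vx y → (∀ z ∈ D.ρ, x ≠ vx z) →
      ∀ z ∈ D.ρ, ν (vx z) = vx z := fun x hx h1 h2 z hz => by_contra fun t => by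
    rcases h.three hx ey (Or.inl ⟨hρU z hz, t⟩) with a | a | a
    exacts [h1 a, h2 z hz a, ρy y hy z hz (by simpa using a.symm)]
  by_cases hcf : ∃ q, Cf P D μ ν φ q
  · obtain ⟨q, hq⟩ := hcf
    obtain ⟨o1, o2⟩ := F.cf_end hq
    have en : ∀ x, IsEnd μ ν x → x = vx y ∨ x = ag (D.own q) := fun x hx => by
      rcases h.three hx ey o2 with a | a | a
      exacts [Or.inl a, Or.inr a, absurd a (by simp)]
    have up := unc _ o2 (by simp) (by simp)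
    refine F.small h h2 hO hN (fun j ej => ?_) (fun j v e hb hn => by_contra fun hj => ?_) y
      (fun j u e hA => absurd (nored j u e hA.ne).2.1 hA.notB)
      (fun q hq => (f1 q hq).2) f2 f3 (fun _ => vx y)
      (fun q hq => ⟨ey, by simp, fun x hx e => tbZ y hy ((by simpa using e : y = x) ▸ hx)⟩)
      fun q1 q2 a b _ => F.cf_inj a b ?_
    · simpa using en _ (dm_end h.hμ h.hν (nodum j) ej).2
    · obtain ⟨n1, _, n3⟩ := nored j v e hb.ne
      have hv : μ (vx v) ≠ vx v := fun t => by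
        rcases en (vx v) (Or.inl ⟨t, by rw [h.hν.flip e]; simp⟩) with a | a
        · exact tbZ y hy ((by simpa using a : v = y) ▸ n3)
        · simp at a
      obtain ⟨⟨z, u, t1, t2, t3⟩, _, fr, u', t4, t5⟩ := hq
      rw [t3] at t4
      obtain ⟨x, hx, hH⟩ := F.nz q z
      refine F.kill h ey (fun x hx => ?_) t3 t2 t1 z fr.1 fr.2.1
        ((by simpa using t4 : u = u') ▸ t5) e hn hj hv hb n3 fun t =>
          (F.generic h e hb.ne hn n1 n3 hj hv (F.ρPi x hx) (up x hx)).1.AA t hH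
      rcases en x hx with rfl | rfl
      exacts [tbU y hy, o1]
    · have a1 := (en _ (F.cf_end a).2).resolve_left (by simp)
      have b1 := (en _ (F.cf_end b).2).resolve_left (by simp)
      simpa using a1.trans b1.symm
  have s3 : ∀ q u, ¬ D.Z q → u ≠ q → ν (vx q) = vx u → P.Serv (φ q) {q, u} := fun q u z hne e =>
    (f3 q u z hne e).resolve_right fun t => hcf ⟨q, t.1, t.2.1, t.2.2.1, u, e, t.2.2.2⟩
  have pool := Fr.pool h (fun v x x' => (hall v x).resolve_right fun t => ha v t x') h0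
  have hacc : ∀ j ∈ P.NC ν, P.Sp D μ ν j → ∃ t ⊆ D.ρ, 2 ≤ t.card ∧ ∀ p ∈ t, P.A D j p := by
    intro j hj sp
    refine ⟨D.ρ, Subset.rfl, h2.ge, fun x hx => ?_⟩
    rcases sp with a | ⟨v, a, b, c⟩ | ⟨⟨_, v, a, _, b⟩, _⟩
    · exact F.piA j x a (F.ρPi x hx)
    · obtain ⟨w, e, hc⟩ := mem_NC.1 hj
      have : w = v := by simpa using e.symm.trans a
      subst this
      obtain ⟨n1, _, n3⟩ := nored j w e hc
      have u := unc (vx w) (Or.inl ⟨b, by rw [h.hν.flip e]; simp⟩)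
        (fun t => tbZ y hy ((by simpa using t : w = y) ▸ n3))
        (fun z hz t => (wgt_zero c).2 ((by simpa using t : w = z) ▸ hz)) x hx
      exact ((hmaj j n1).1 x hx).resolve_left (no_C h e (by simp)
        (fun t => by rw [h.hμ.flip t] at b; simp at b) (by rw [om_av, if_neg hc]) (hρU x hx) u)
    · exact hN j v a b x hx
  have hρ' : ∀ j v p, ν (ag j) = vx v → P.col j v ≠ none → v ∈ D.ρ → p ∈ D.ρ → ν (vx p) = vx p →
      P.A D j p := fun j v _ e hc hv _ _ =>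
    absurd (nored j v e hc).2.1 (((hmaj j (nored j v e hc).1).1 v hv).resolve_left hc).notB
  by_cases hd : ∃ j, ν (ag j) = dm j
  · obtain ⟨j, ej⟩ := hd
    have de := (dm_end h.hμ h.hν (nodum j) ej).2
    have en : ∀ x, IsEnd μ ν x → x = vx y ∨ x = dm j := fun x hx => by
      rcases h.three hx ey de with a | a | a
      exacts [Or.inl a, Or.inr a, absurd a (by simp)]
    have uni : ∀ i, ν (ag i) = dm i → i = j := fun i ei => by
      simpa using en _ (dm_end h.hμ h.hν (nodum i) ei).2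
    have c3 : 1 ≤ (DU ν).card := card_pos.2 ⟨j, mem_DU.2 ej⟩
    obtain ⟨π, p1, p2⟩ := F.partners h D.ρ nored (by omega)
      (Or.inr fun i hi => ⟨fun sp => by
        obtain ⟨ε, e1, _⟩ := F.sp_end h
        obtain ⟨x1, x2⟩ := e1 i hi sp
        obtain ⟨w, e, hc⟩ := mem_NC.1 hi
        rcases x2 with x | ⟨z, x, hz, x3⟩ <;> rw [x] at x1
        · simpa using en _ x1
        · have : z = y := by simpa using en _ x1
          subst this
          rcases x3 with x3 | x3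
          · rw [e] at x3; exact tbZ z hy ((by simpa using x3 : w = z) ▸ (nored i w e hc).2.2)
          · exact tbZ z hy (F.piZ z x3), hO i⟩) hacc hρ' fun j hj => absurd hj (hO j)
    refine finish h.hν (asg_mk h.hν (Rs := D.ρ) (fun q hq => (f1 q hq).2) f2 p1 (fun i hi => ?_)
      (unc _ de (by simp) (by simp)) (Or.inr fun i i' a b => (uni i a).trans (uni i' b).symm))
      (fun i v e hc => ?_) (fun i ei => ?_) fun q u z hne e => Or.inl (s3 q u z hne e)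
    · obtain ⟨v, e, hc⟩ := mem_NC.1 hi
      obtain ⟨_, x2, x3, _⟩ := p2 i v e hc
      exact ⟨x2, fun t => x3 t t⟩
    · obtain ⟨_, _, _, x4, x5, _⟩ := p2 i v e hc
      exact ⟨mem_NC.2 ⟨v, e, hc⟩, x4.good (nored i v e hc).2.1 x5⟩
    · exact serv_of mp mp' (dpat i ei).2.2 (F.piH h.hμ (F.ρPi p mp) (F.ρPi p' mp'))
  · push Not at hd
    obtain ⟨π, p1, p2⟩ := F.partners h ∅ nored (by rw [card_empty]; omega) (Or.inl rfl) hacc hρ'
      fun j hj => absurd hj (hO j)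
    refine finish h.hν (asg_mk h.hν (Rs := ∅) (fun q hq => (f1 q hq).2) f2 p1 (fun i hi => ?_)
      (by simp) (Or.inl rfl))
      (fun i v e hc => ?_) (fun i ei => absurd ei (hd i)) fun q u z hne e => Or.inl (s3 q u z hne e)
    · obtain ⟨v, e, hc⟩ := mem_NC.1 hi
      exact ⟨(p2 i v e hc).2.1, by simp⟩
    · obtain ⟨_, _, _, x4, x5, _⟩ := p2 i v e hc
      exact ⟨mem_NC.2 ⟨v, e, hc⟩, x4.good (nored i v e hc).2.1 x5⟩

end AP

end Pool.Agent.Lib.MP_ef7581_lc
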