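import Mathlib
import Pool.Agent.Lib.MP_ef7581_lc.FrameB

/-!
From a state to a frame.
-/

set_option autoImplicit false
set_option linter.unusedSectionVars false

namespace Pool.Agent.Lib.MP_ef7581_lc

open Finset

namespace AP

variable {J V : Type} {P : AP J V} [Fintype J] [Fintype V] [DecidableEq J] [DecidableEq V]

open Classical in
/-- The majority colour as a function. -/
noncomputable def mjOf (Maj : J → Bool → Prop) (j : J) : Bool := decide (Maj j true)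

theorem maj_iff {Maj : J → Bool → Prop} (hu : ∀ j, Maj j true → Maj j false → False) {j : J}
    {x : Bool} : Maj j x ↔ (∃ y, Maj j y) ∧ x = mjOf Maj j := by
  unfold mjOf
  have := hu j
  cases x <;> by_cases a : Maj j true <;> by_cases b : Maj j false <;> simp_all

open Classical in
/-- The frame parameters of a state `f` with image `μ`. -/
noncomputable def mkD (P : AP J V) (f : J → Finset V) (μ : Nd J V → Nd J V) (Z : V → Prop)
    (Maj : J → Bool → Prop) (ρ : Finset V) (O : J → Prop) (j0 : J) (v0 : V) : Dat J V where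
  Z := Z
  HM j := ∃ y, Maj j y
  mj := mjOf Maj
  Pi p := μ (vx p) = vx p ∧ Z p
  ρ := ρ
  hid j := if h : ∃ u ∈ f j, P.col j u = some (mjOf Maj j) then h.choose else v0
  own q := if h : ∃ j, q ∈ f j then h.choose else j0
  O := O

theorem RD_mkD {f : J → Finset V} {μ : Nd J V → Nd J V} {Z : V → Prop} {Maj : J → Bool → Prop}
    (hu : ∀ j, Maj j true → Maj j false → False) {ρ : Finset V} {O : J → Prop} {j0 : J} {v0 : V} :
    P.RD (mkD P f μ Z Maj ρ O j0 v0) = P.Gam Z Maj := by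
  unfold RD mkD
  congr 1
  funext j x
  exact propext (maj_iff hu).symm

/-- The image of a state in a reference graph. -/
def ImgD (P : AP J V) (D : Dat J V) (f : J → Finset V) (μ : Nd J V → Nd J V) : Prop :=
  Img P f μ (fun j u v => D.HM j ∧ P.A D j u ∧ P.B D j v ∧ D.Z v)
    (fun j u v => D.HM j ∧ P.A D j u ∧ P.B D j v ∧ ¬ D.Z v ∧ D.Z u) (fun j _ _ => ¬ D.HM j)

theorem exists_imgD {D : Dat J V} {f : J → Finset V} (hf : P.Norm f)
    (ch : ∀ j u v, f j = {u, v} → P.Good j u v → D.HM j → P.A D j u → P.B D j v → ¬ D.Z v → D.Z u) :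
    ∃ μ, IsM (P.E (P.RD D)) μ ∧ ImgD P D f μ := by
  refine exists_img hf _ _ _ _ fun j u v e hg => ?_
  have key : ∀ u v, f j = {u, v} → P.Good j u v → D.HM j → P.A D j u → P.B D j v →
      ∃ u' v', f j = {u', v'} ∧ P.Good j u' v' ∧
      (((D.HM j ∧ P.A D j u' ∧ P.B D j v' ∧ D.Z v') ∧ (P.RD D).nc j v') ∨
        ((D.HM j ∧ P.A D j u' ∧ P.B D j v' ∧ ¬ D.Z v' ∧ D.Z u') ∧
          ((P.RD D).pe u' v' ∨ (P.RD D).pe v' u')) ∨ (¬ D.HM j ∧ (P.RD D).du j)) := by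
    intro u v e hg hm a b
    by_cases z : D.Z v
    · exact ⟨u, v, e, hg, Or.inl ⟨⟨hm, a, b, z⟩, nc_iff.2 ⟨hm, Or.inl ⟨b, z⟩⟩⟩⟩
    · have zu := ch j u v e hg hm a b z
      exact ⟨u, v, e, hg, Or.inr (Or.inl ⟨⟨hm, a, b, z, zu⟩, Or.inr ⟨z, zu, hg.symm.2.2.2⟩⟩)⟩
  by_cases hm : D.HM j
  · rcases hg.AB (D := D) with ⟨a, b⟩ | ⟨a, b⟩
    · exact key u v e hg hm a b
    · exact key v u (by rw [e, pair_comm]) hg.symm hm b a
  · exact ⟨u, v, e, hg, Or.inr (Or.inr ⟨hm, du_iff.2 hm⟩)⟩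

section
variable {D : Dat J V} {f : J → Finset V} {μ : Nd J V → Nd J V}

theorem ImgD.side (im : ImgD P D f μ) {j : J} {v : V} (e : μ (ag j) = vx v)
    (hc : P.col j v ≠ none) : ∃ u, f j = {u, v} ∧ P.Good j u v ∧ D.HM j ∧ P.A D j u ∧ P.B D j v ∧
      D.Z v ∧ μ (vx u) = vx u := by
  rcases im.cases j with ⟨_, e0⟩ | ⟨c, _, hc', e0⟩ | ⟨u, w, e1, hg, hq, e0, e2⟩ |
    ⟨u, w, _, _, _, e0, _⟩ | ⟨u, w, _, _, _, e0, _⟩ <;> rw [e] at e0 <;>
    simp only [Sum.inr.injEq, Sum.inl.injEq, reduceCtorEq] at e0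
  · exact absurd (e0 ▸ hc') hc
  · subst e0; exact ⟨u, e1, hg, hq.1, hq.2.1, hq.2.2.1, hq.2.2.2, e2⟩

theorem ImgD.unm (im : ImgD P D f μ) {j : J} (e : μ (ag j) = ag j) : f j = ∅ ∨
    ∃ u v, f j = {u, v} ∧ P.Good j u v ∧ D.HM j ∧ P.A D j u ∧ P.B D j v ∧ ¬ D.Z v ∧ D.Z u ∧
      μ (vx u) = vx v := by
  rcases im.cases j with ⟨e1, e0⟩ | ⟨c, _, hc', e0⟩ | ⟨u, w, e1, hg, hq, e0, e2⟩ |
    ⟨u, w, e1, hg, hq, e0, e2⟩ | ⟨u, w, _, _, _, e0, _⟩
  · exact Or.inl e1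
  · rw [e] at e0; simp at e0
  · rw [e] at e0; simp at e0
  · exact Or.inr ⟨u, w, e1, hg, hq.1, hq.2.1, hq.2.2.1, hq.2.2.2.1, hq.2.2.2.2, e2⟩
  · rw [e] at e0; simp at e0

theorem ImgD.dum (im : ImgD P D f μ) {j : J} (e : μ (ag j) = dm j) :
    ∃ u v, f j = {u, v} ∧ P.Good j u v ∧ ¬ D.HM j ∧ μ (vx u) = vx u ∧ μ (vx v) = vx v := by
  rcases im.cases j with ⟨e1, e0⟩ | ⟨c, _, hc', e0⟩ | ⟨u, w, e1, hg, hq, e0, e2⟩ |
    ⟨u, w, e1, hg, hq, e0, e2⟩ | ⟨u, w, e1, hg, hq, _, e2⟩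
  · rw [e] at e0; simp at e0
  · rw [e] at e0; simp at e0
  · rw [e] at e0; simp at e0
  · rw [e] at e0; simp at e0
  · exact ⟨u, w, e1, hg, hq, e2⟩

/-- Uncovered vertices are free or hidden. -/
theorem ImgD.unc (im : ImgD P D f μ) (hμ : ∀ x, μ (μ x) = x) {p : V} (e : μ (vx p) = vx p) :
    p ∈ free f ∨ (∃ j v, f j = {p, v} ∧ P.Good j p v ∧ D.HM j ∧ P.A D j p ∧ P.B D j v ∧ D.Z v ∧
      μ (ag j) = vx v) ∨ ∃ j v, f j = {p, v} ∧ P.Good j p v ∧ ¬ D.HM j ∧ μ (ag j) = dm j := by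
  by_cases hp : p ∈ free f
  · exact Or.inl hp
  right
  rw [mem_free] at hp
  push Not at hp
  obtain ⟨j, hj⟩ := hp
  have fl : ∀ x y, μ x = y → μ y = x := fun x y t => by rw [← t, hμ]
  rcases im.cases j with ⟨e1, e0⟩ | ⟨c, e1, hc', e0⟩ | ⟨u, w, e1, hg, hq, e0, e2⟩ |
    ⟨u, w, e1, hg, hq, e0, e2⟩ | ⟨u, w, e1, hg, hq, e0, e2⟩ <;> rw [e1] at hj <;>
    simp only [mem_insert, mem_singleton, notMem_empty] at hj
  · subst hj; have := fl _ _ e0; rw [e] at this; simp at this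
  · rcases hj with rfl | rfl
    · exact Or.inl ⟨j, w, e1, hg, hq.1, hq.2.1, hq.2.2.1, hq.2.2.2, e0⟩
    · have := fl _ _ e0; rw [e] at this; simp at this
  · rcases hj with rfl | rfl
    · rw [e] at e2; exact absurd (by simpa using e2) hg.ne
    · have := fl _ _ e2; rw [e] at this; exact absurd (by simpa using this.symm) hg.ne
  · rcases hj with rfl | rfl
    · exact Or.inr ⟨j, w, e1, hg, hq, e0⟩
    · exact Or.inr ⟨j, u, by rw [e1, pair_comm], hg.symm, hq, e0⟩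

theorem ImgD.freeU (im : ImgD P D f μ) {p : V} (hp : p ∈ free f) : μ (vx p) = vx p := by
  by_contra e
  obtain ⟨j, hj⟩ := im.used p e
  exact mem_free.1 hp j hj

theorem ImgD.pair (im : ImgD P D f μ) (hμ : ∀ x, μ (μ x) = x) {q u : V} (e : μ (vx q) = vx u)
    (hne : u ≠ q) (z : ¬ D.Z q) : ∃ j, f j = {u, q} ∧ P.Good j u q ∧ D.HM j ∧ P.A D j u ∧
      P.B D j q ∧ D.Z u ∧ μ (ag j) = ag j := by
  obtain ⟨j, hj⟩ := im.used q (by rw [e]; simpa using hne)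
  have fl : ∀ x y, μ x = y → μ y = x := fun x y t => by rw [← t, hμ]
  rcases im.cases j with ⟨e1, e0⟩ | ⟨c, e1, hc', e0⟩ | ⟨a, w, e1, hg, hq, e0, e2⟩ |
    ⟨a, w, e1, hg, hq, e0, e2⟩ | ⟨a, w, e1, hg, hq, e0, e2⟩ <;> rw [e1] at hj <;>
    simp only [mem_insert, mem_singleton, notMem_empty] at hj
  · subst hj; have := fl _ _ e0; rw [e] at this; simp at this
  · rcases hj with rfl | rfl
    · rw [e] at e2; exact absurd (by simpa using e2) hne
    · exact absurd hq.2.2.2 z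
  · rcases hj with rfl | rfl
    · exact absurd hq.2.2.2.2 z
    · have := (fl _ _ e2).symm.trans e
      have : a = u := by simpa using this
      subst this
      exact ⟨j, e1, hg, hq.1, hq.2.1, hq.2.2.1, hq.2.2.2.2, e0⟩
  · rcases hj with rfl | rfl
    · rw [e] at e2; exact absurd (by simpa using e2.1) hne
    · rw [e] at e2; exact absurd (by simpa using e2.2) hne

end

theorem fr_of_img {f : J → Finset V} {μ : Nd J V → Nd J V} {Z : V → Prop} {Maj : J → Bool → Prop}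
    {ρ : Finset V} {O : J → Prop} {j0 : J} {v0 : V} (D : Dat J V)
    (hD : D = mkD P f μ Z Maj ρ O j0 v0) (hf : Disj f)
    (hμ : ∀ x, μ (μ x) = x) (im : ImgD P D f μ)
    (piA : ∀ o p, μ (ag o) = ag o → μ (vx p) = vx p → Z p → P.A D o p)
    (hm0 : ∀ o, μ (ag o) = ag o → D.HM o) (nz : ∀ q, ¬ Z q → ∃ p ∈ ρ, P.H p q)
    (zρ : ∀ v, Z v → ∀ p ∈ ρ, ¬ P.H p v) (ρU : ∀ p ∈ ρ, μ (vx p) = vx p ∧ Z p)
    (cnt : P.sv f < Fintype.card J)
    (hidZ : ∀ j u v, f j = {u, v} → μ (ag j) = vx v → μ (vx u) = vx u → ¬ O j → Z u ∧ u ∉ ρ) :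
    P.Fr D μ := by
  have hid : ∀ j u v, f j = {u, v} → P.A D j u → P.B D j v → D.hid j = u := by
    intro j u v e a b
    subst hD
    have h : ∃ u ∈ f j, P.col j u = some (mjOf Maj j) := ⟨u, by simp [e], a⟩
    have h2 := h.choose_spec
    simp only [mkD, h, dif_pos]
    show h.choose = u
    generalize h.choose = w at h2
    have h3 := h2.1
    rw [e] at h3
    rcases mem_insert.1 h3 with t | t
    · exact t
    · rw [mem_singleton] at t
      exact absurd b (A.notB (by rw [← t]; exact h2.2))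
  have own : ∀ j q, q ∈ f j → D.own q = j := by
    intro j q hq
    subst hD
    have h : ∃ j, q ∈ f j := ⟨j, hq⟩
    simp only [mkD, h, dif_pos]
    exact hf.eq h.choose_spec hq
  have hZ : D.Z = Z := by rw [hD]; rfl
  have hρ : D.ρ = ρ := by rw [hD]; rfl
  have hO : D.O = O := by rw [hD]; rfl
  have hP : ∀ p, D.Pi p ↔ μ (vx p) = vx p ∧ Z p := by intro p; rw [hD]; rfl
  refine ⟨fun p hp => ((hP p).1 hp).1, fun p hp => hZ ▸ ((hP p).1 hp).2,
    fun o p ho hp => piA o p ho ((hP p).1 hp).1 ((hP p).1 hp).2, hm0,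
    fun p a b => (hP p).2 ⟨a, hZ ▸ b⟩, by rw [hZ, hρ]; exact nz, by rw [hZ, hρ]; exact zρ,
    fun p hp => (hP p).2 (ρU p (hρ ▸ hp)), by rw [im.cov]; omega, fun j v e hc => ?_,
    fun i j u v e c e' c' _ _ t => ?_, fun q u e hne z => ?_, fun q u q' u' e hne z e' hne' z' t => ?_⟩
  · obtain ⟨u, e1, hg, hm, a, b, z, u1⟩ := im.side e hc
    refine ⟨hm, b, z, fun o => ?_⟩
    rw [hid j u v e1 a b, hρ]
    obtain ⟨k1, k2⟩ := hidZ j u v e1 e u1 (hO ▸ o)
    exact ⟨a, hg.2.2.2, (hP u).2 ⟨u1, k1⟩, k2⟩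
  · obtain ⟨x, e1, _, _, a, b, _⟩ := im.side e c
    obtain ⟨x', e1', _, _, a', b', _⟩ := im.side e' c'
    rw [hid i x u e1 a b, hid j x' v e1' a' b'] at t
    exact hf.eq (v := x) (by simp [e1]) (by simp [e1', t])
  · obtain ⟨j, e1, _, _, a, b, _, m⟩ := im.pair hμ e hne z
    rw [own j q (by simp [e1])]
    exact ⟨m, a, b⟩
  · obtain ⟨j, e1, _, _, a, b, _, m⟩ := im.pair hμ e hne z
    obtain ⟨j', e1', _, _, a', b', _, m'⟩ := im.pair hμ e' hne' z'
    rw [own j q (by simp [e1]), own j' q' (by simp [e1'])] at t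
    subst t
    have : q ∈ ({u', q'} : Finset V) := by rw [← e1', e1]; simp
    rcases mem_insert.1 this with s | s
    · exact absurd b (s ▸ a').notB
    · exact mem_singleton.1 s

end AP

end Pool.Agent.Lib.MP_ef7581_lc
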