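import Mathlib
import Pool.Agent.Lib.MP_ef7581_lc.Mk

/-!
Extremal states of the Lagrangian relaxation and the step from level `l` to level `l + 1`.
-/

set_option autoImplicit false
set_option linter.unusedSectionVars false

namespace Pool.Agent.Lib.MP_ef7581_lc

open Finset

namespace AP

variable {J V : Type} {P : AP J V} [Fintype J] [Fintype V] [DecidableEq J] [DecidableEq V]

theorem card_update (p : J → Finset V → Prop) [∀ j s, Decidable (p j s)] (f : J → Finset V) (j : J)
    (s : Finset V) : (univ.filter fun i => p i (Function.update f j s i)).card +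
      (if p j (f j) then 1 else 0) = (univ.filter fun i => p i (f i)).card + if p j s then 1 else 0 := by
  rw [card_filter, card_filter, ← add_sum_erase _ _ (mem_univ j), ← add_sum_erase _ _ (mem_univ j),
    Function.update_self, sum_congr rfl fun i hi => by rw [Function.update_of_ne (mem_erase.1 hi).1]]
  ring

open Classical in
theorem sv_update (f : J → Finset V) (j : J) (s : Finset V) :
    P.sv (Function.update f j s) + (if P.Serv j (f j) then 1 else 0) =
      P.sv f + if P.Serv j s then 1 else 0 := by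
  unfold sv; convert card_update (fun j s => P.Serv j s) f j s

theorem cf_update (f : J → Finset V) (j : J) (s : Finset V) :
    P.cf (Function.update f j s) + (if ∃ c ∈ f j, P.col j c = none then 1 else 0) =
      P.cf f + if ∃ c ∈ s, P.col j c = none then 1 else 0 :=
  card_update (fun j s => ∃ c ∈ s, P.col j c = none) f j s

theorem Disj.update {f : J → Finset V} (h : Disj f) {j : J} {s : Finset V}
    (hs : ∀ v ∈ s, v ∈ free f ∨ v ∈ f j) : Disj (Function.update f j s) := by
  have key : ∀ i v, i ≠ j → v ∈ s → v ∉ f i := fun i v hi hv e =>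
    (hs v hv).elim (fun a => mem_free.1 a i e) fun a => hi (h.eq e a)
  refine disj_of fun i i' v => ?_
  by_cases e : i = j <;> by_cases e' : i' = j
  · intros; rw [e, e']
  · subst e; rw [Function.update_self, Function.update_of_ne e']
    exact fun h1 h2 => absurd h2 (key i' v e' h1)
  · subst e'; rw [Function.update_self, Function.update_of_ne e]
    exact fun h1 h2 => absurd h1 (key i v e h2)
  · rw [Function.update_of_ne e', Function.update_of_ne e]; exact h.eq

theorem free_update {f : J → Finset V} (h : Disj f) {j : J} {s : Finset V} {v : V}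
    (h1 : v ∈ free f ∨ v ∈ f j) (h2 : v ∉ s) : v ∈ free (Function.update f j s) := by
  rw [mem_free]
  intro i
  by_cases e : i = j
  · subst e; rwa [Function.update_self]
  · rw [Function.update_of_ne e]
    exact fun t => h1.elim (fun a => mem_free.1 a i t) fun a => e (h.eq t a)

theorem Norm.update {f : J → Finset V} (h : P.Norm f) {j : J} {s : Finset V}
    (hs : ∀ v ∈ s, v ∈ free f ∨ v ∈ f j)
    (hn : s = ∅ ∨ (∃ c, s = {c} ∧ P.col j c = none) ∨ ∃ u v, s = {u, v} ∧ P.Good j u v) :
    P.Norm (Function.update f j s) := by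
  refine ⟨h.1.update hs, fun i => ?_⟩
  by_cases e : i = j
  · subst e; rwa [Function.update_self]
  · rw [Function.update_of_ne e]; exact h.2 i

/-- Lexicographically extremal states at level `l`. -/
structure Ext (P : AP J V) (l : ℕ) (f : J → Finset V) : Prop where
  norm : P.Norm f
  best : ∀ g, Disj g → l * P.sv g + P.cf g < l * P.sv f + P.cf f ∨
    (l * P.sv g + P.cf g = l * P.sv f + P.cf f ∧ P.sv g ≤ P.sv f)

theorem exists_ext (P : AP J V) (l : ℕ) : ∃ f, Ext P l f := by
  classical
  obtain ⟨f, hf, h⟩ := exists_max_image (univ.filter fun f : J → Finset V => Disj f)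
    (fun f => toLex (l * P.sv f + P.cf f, P.sv f))
    ⟨fun _ => ∅, mem_filter.2 ⟨mem_univ _, fun _ _ _ => by simp⟩⟩
  obtain ⟨g, hg, _, g2, g3⟩ := exists_norm (P := P) (mem_filter.1 hf).2
  have a : P.sv f ≤ P.sv g := card_le_card fun j hj => by
    simp only [mem_filter, mem_univ, true_and] at hj ⊢; exact g2 j hj
  have b : P.cf f ≤ P.cf g := card_le_card fun j hj => by
    simp only [mem_filter, mem_univ, true_and] at hj ⊢; exact g3 j hj
  have c := Nat.mul_le_mul_left l a
  refine ⟨g, hg, fun g' hg' => ?_⟩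
  have := h g' (mem_filter.2 ⟨mem_univ _, hg'⟩)
  rw [Prod.Lex.toLex_le_toLex] at this
  simp only at this
  omega

section
variable {l : ℕ} {f : J → Finset V}

theorem Ext.le (h : Ext P l f) {g : J → Finset V} (hg : Disj g) (a : P.sv f ≤ P.sv g)
    (b : P.cf f ≤ P.cf g) : P.sv g = P.sv f ∧ P.cf g = P.cf f := by
  have := h.best g hg
  have c := Nat.mul_le_mul_left l a
  omega

theorem Ext.of_le (h : Ext P l f) {g : J → Finset V} (hg : P.Norm g) (a : P.sv f ≤ P.sv g)
    (b : P.cf f ≤ P.cf g) : Ext P l g := by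
  obtain ⟨c, d⟩ := h.le hg.1 a b
  exact ⟨hg, by rw [c, d]; exact h.best⟩

theorem Ext.nonC (h : Ext P l f) {j : J} (hj : ∀ c ∈ f j, P.col j c ≠ none) {t : V}
    (ht : t ∈ free f) : P.col j t ≠ none := fun hc => by
  classical
  have a := sv_update (P := P) f j {t}
  have b := cf_update (P := P) f j {t}
  have c := h.le (h.norm.1.update (j := j) (s := {t}) (by simp [ht]))
  rw [if_pos (serv_C (mem_singleton_self t) hc)] at a
  rw [if_neg (by simpa using hj), if_pos (by simpa using hc)] at b
  split_ifs at a <;> omega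

theorem Ext.mono (h : Ext P l f) {o : J} (ho : f o = ∅) {u v : V} (hu : u ∈ free f)
    (hv : v ∈ free f) (hH : ¬ P.H u v) : P.col o u = P.col o v := by
  classical
  by_contra hc
  have a := sv_update (P := P) f o {u, v}
  have b := cf_update (P := P) f o {u, v}
  have c := h.le (h.norm.1.update (j := o) (s := {u, v}) (by simp [hu, hv]))
  rw [if_pos (show P.Serv o {u, v} from serv_of (by simp) (by simp) hc hH), ho, if_neg (not_serv_empty o)] at a
  rw [ho, if_neg (by simp)] at b
  split_ifs at b <;> omega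

theorem Ext.upd (h : Ext P l f) {j : J} (hj : ∀ c ∈ f j, P.col j c ≠ none) {u v : V}
    (hg : P.Good j u v) (hu : u ∈ free f ∨ u ∈ f j) (hv : v ∈ free f ∨ v ∈ f j) :
    Ext P l (Function.update f j {u, v}) := by
  classical
  have a := sv_update (P := P) f j {u, v}
  have b := cf_update (P := P) f j {u, v}
  rw [if_pos (show P.Serv j {u, v} from hg.serv (by simp) (by simp))] at a
  rw [if_neg (by simpa using hj)] at b
  exact h.of_le (h.norm.update (by simp [hu, hv]) (Or.inr (Or.inr ⟨u, v, rfl, hg⟩)))
    (by split_ifs at a <;> omega) (by omega)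

theorem trans_aux {j o : J} (hj : ∀ c ∈ f j, P.col j c ≠ none) (ho : f o = ∅)
    (hne : o ≠ j) {s : Finset V} (hs : P.Serv o s) :
    P.sv f ≤ P.sv (Function.update (Function.update f j ∅) o s) ∧
    P.cf f + (if ∃ c ∈ s, P.col o c = none then 1 else 0) =
      P.cf (Function.update (Function.update f j ∅) o s) := by
  classical
  have a := sv_update (P := P) f j ∅
  have b := cf_update (P := P) f j ∅
  have a' := sv_update (P := P) (Function.update f j ∅) o s
  have b' := cf_update (P := P) (Function.update f j ∅) o s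
  rw [Function.update_of_ne hne, ho] at a' b'
  rw [if_neg (not_serv_empty j)] at a
  rw [if_neg (not_serv_empty o), if_pos hs] at a'
  rw [if_neg (by simpa using hj), if_neg (by simp)] at b
  rw [if_neg (by simp)] at b'
  constructor
  · split_ifs at a <;> omega
  · omega

theorem sub_free {j o : J} (h : Disj f) {s : Finset V} (hs : ∀ v ∈ s, v ∈ free f ∨ v ∈ f j) :
    ∀ v ∈ s, v ∈ free (Function.update f j ∅) ∨ v ∈ Function.update f j ∅ o := fun v hv =>
  Or.inl (free_update h (hs v hv) (by simp))

theorem Ext.transfer (h : Ext P l f) {j o : J} (hj : ∀ c ∈ f j, P.col j c ≠ none) (ho : f o = ∅)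
    (hne : o ≠ j) {u v : V} (hg : P.Good o u v) (hu : u ∈ free f ∨ u ∈ f j)
    (hv : v ∈ free f ∨ v ∈ f j) : Ext P l (Function.update (Function.update f j ∅) o {u, v}) := by
  obtain ⟨a, b⟩ := trans_aux hj ho hne (s := {u, v}) (hg.serv (by simp) (by simp))
  exact h.of_le ((h.norm.update (by simp) (Or.inl rfl)).update
    (sub_free h.norm.1 (by simp [hu, hv])) (Or.inr (Or.inr ⟨u, v, rfl, hg⟩))) a (by omega)

theorem Ext.transC (h : Ext P l f) {j o : J} (hj : ∀ c ∈ f j, P.col j c ≠ none) (ho : f o = ∅)
    {c : V} (hc : c ∈ f j) : P.col o c ≠ none := fun e => by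
  have hne : o ≠ j := fun t => by rw [← t, ho] at hc; simp at hc
  obtain ⟨a, b⟩ := trans_aux hj ho hne (s := {c}) (serv_C (by simp) e)
  rw [if_pos (by simpa using e)] at b
  have := h.le ((h.norm.1.update (j := j) (s := ∅) (by simp)).update (j := o) (s := {c})
    (sub_free h.norm.1 (by simp [hc]))) a (by omega)
  omega

theorem free_transfer (h : Disj f) {j o : J} {s : Finset V} {v : V} (h1 : v ∈ free f ∨ v ∈ f j)
    (h2 : v ∉ s) : v ∈ free (Function.update (Function.update f j ∅) o s) :=
  free_update (h.update (by simp)) (Or.inl (free_update h h1 (by simp))) h2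

theorem pair_nonC {j : J} {u v : V} (e : f j = {u, v}) (hg : P.Good j u v) :
    ∀ c ∈ f j, P.col j c ≠ none := by
  rw [e]; simpa using ⟨hg.1, hg.2.1⟩

/-- A realised improving matching contradicts extremality. -/
theorem Ext.conclude (h : Ext P l f) {β : Type} [LinearOrder β] {R : Rx J V}
    {c : (Nd J V → Nd J V) → β} {μ ν : Nd J V → Nd J V} (ho : Opt (P.E R) (P.om l) c μ ν)
    (e1 : cov μ = 2 * P.sv f) (e2 : P.cw μ = P.cf f)
    (hg : ∃ g, Disj g ∧ cov ν ≤ 2 * P.sv g ∧ P.cw ν ≤ P.cf g) : False := by
  obtain ⟨g, g1, g2, g3⟩ := hg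
  have a := opt_imp ho
  have b := opt_cov μ ν
  have d := opt_ends ho
  have e := h.best g g1
  have k1 := Nat.mul_le_mul_left l g2
  rw [e1, e2, add_mul, add_mul, mul_left_comm] at a
  rw [mul_left_comm] at k1
  rcases le_or_gt (P.sv g) (P.sv f) with t | t
  · omega
  · have := Nat.mul_le_mul_left l (show P.sv f + 1 ≤ P.sv g from t)
    rw [mul_add] at this
    rcases le_or_gt (cov ν) (2 * P.sv f) with s | s
    · omega
    · omega

theorem Phi.improve {R : Rx J V} {μ : Nd J V → Nd J V} (h : P.Phi R l) (hμ : IsM (P.E R) μ)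
    (e1 : cov μ = 2 * P.sv f) (e2 : P.cw μ = P.cf f)
    (hlt : (l + 1) * P.sv f + P.cf f + Fintype.card V < (l + 3) * Fintype.card J) :
    ∃ m, IsM (P.E R) m ∧ wt2 (P.om l) μ < wt2 (P.om l) m := by
  obtain ⟨m, h1, h2⟩ := h
  refine ⟨m, h1, ?_⟩
  rw [wt2_eq hμ, e1, e2, mul_left_comm]
  omega

end

end AP

end Pool.Agent.Lib.MP_ef7581_lc
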