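import Mathlib
import Pool.Agent.Lib.MP_ef7581_lc.Ext

/-!
The step for extremal states with at least three free vertices.
-/

set_option autoImplicit false
set_option linter.unusedSectionVars false

namespace Pool.Agent.Lib.MP_ef7581_lc

open Finset

namespace AP

variable {J V : Type} {P : AP J V} [Fintype J] [Fintype V] [DecidableEq J] [DecidableEq V]

theorem majA_uniq (a b c : V) (j : J) : P.MajA a b c j true → P.MajA a b c j false → False := by
  unfold MajA
  rcases P.col j a with _ | _ | _ <;> rcases P.col j b with _ | _ | _ <;>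
    rcases P.col j c with _ | _ | _ <;> simp

theorem majB_uniq (a b c : V) (j : J) : P.MajB a b c j true → P.MajB a b c j false → False := by
  unfold MajB
  rcases P.col j a with _ | _ | _ <;> rcases P.col j b with _ | _ | _ <;> simp

theorem maj2_uniq (a b : V) (j : J) : P.Maj2 a b j true → P.Maj2 a b j false → False := by
  unfold Maj2
  rcases P.col j a with _ | _ | _ <;> simp

/-- What is used about the parameters of a reference triple. -/
structure TriD (P : AP J V) (D : Dat J V) : Prop where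
  h3 : D.ρ.card = 3
  hZ : ∀ v, D.Z v ↔ ∀ p ∈ D.ρ, ¬ P.H p v
  hmaj : ∀ j, D.HM j → ∃ a ∈ D.ρ, ∃ b ∈ D.ρ, a ≠ b ∧ P.A D j a ∧ P.A D j b
  hnm : ∀ j, ¬ D.HM j → ∀ p ∈ D.ρ, ∀ q ∈ D.ρ, p ≠ q → P.col j p ≠ none → P.col j p ≠ P.col j q

theorem triD_mk {f : J → Finset V} {μ : Nd J V → Nd J V} {a b c : V} (ab : a ≠ b) (ac : a ≠ c)
    (bc : b ≠ c) (O : J → Prop) (j0 : J) (v0 : V) :
    TriD P (mkD P f μ (P.Z3 a b c) (P.MajA a b c) {a, b, c} O j0 v0) := by
  refine ⟨card_eq_three.2 ⟨a, b, c, ab, ac, bc, rfl⟩, fun v => by simp [mkD, Z3], ?_, ?_⟩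
  · rintro j ⟨x, hx⟩
    have e := ((maj_iff (majA_uniq a b c)).1 hx).2
    subst e
    rcases hx with t | t | t
    · exact ⟨a, by simp [mkD], b, by simp [mkD], ab, t⟩
    · exact ⟨a, by simp [mkD], c, by simp [mkD], ac, t⟩
    · exact ⟨b, by simp [mkD], c, by simp [mkD], bc, t⟩
  · intro j hj p hp q hq pq hn e
    apply hj
    obtain ⟨x, hx⟩ := Option.ne_none_iff_exists'.1 hn
    have hx' := e ▸ hx
    refine ⟨x, ?_⟩
    simp only [mkD, mem_insert, mem_singleton] at hp hq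
    unfold MajA
    rcases hp with rfl | rfl | rfl <;> rcases hq with rfl | rfl | rfl <;> simp_all

theorem TriD.hm {D : Dat J V} (T : TriD P D) {j : J} (h : ∀ p ∈ D.ρ, P.col j p ≠ none) :
    D.HM j := by
  by_contra hn
  obtain ⟨x, y, z, xy, xz, yz, e⟩ := card_eq_three.1 T.h3
  have mx : x ∈ D.ρ := by simp [e]
  have my : y ∈ D.ρ := by simp [e]
  have mz : z ∈ D.ρ := by simp [e]
  have k1 := T.hnm j hn x mx y my xy (h x mx)
  have k2 := T.hnm j hn x mx z mz xz (h x mx)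
  have k3 := T.hnm j hn y my z mz yz (h y my)
  have k4 := h x mx; have k5 := h y my; have k6 := h z mz
  revert k1 k2 k3 k4 k5 k6
  rcases P.col j x with _ | _ | _ <;> rcases P.col j y with _ | _ | _ <;>
    rcases P.col j z with _ | _ | _ <;> simp

theorem TriD.maj' {D : Dat J V} (T : TriD P D) (j : J) (h : D.HM j) :
    ∃ t ⊆ D.ρ, 2 ≤ t.card ∧ ∀ p ∈ t, P.A D j p := by
  obtain ⟨a, ha, b, hb, ab, h1, h2⟩ := T.hmaj j h
  exact ⟨{a, b}, by simp [insert_subset_iff, ha, hb], (card_pair ab).ge, by simp [h1, h2]⟩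

theorem TriD.other {D : Dat J V} (T : TriD P D) {j : J} (h : D.HM j) (x : V) :
    ∃ a ∈ D.ρ, a ≠ x ∧ P.A D j a := by
  obtain ⟨a, ha, b, hb, ab, h1, h2⟩ := T.hmaj j h
  by_cases e : a = x
  · exact ⟨b, hb, fun t => ab (e.trans t.symm), h2⟩
  · exact ⟨a, ha, e, h1⟩

theorem TriD.nz {D : Dat J V} (T : TriD P D) {q : V} (h : ¬ D.Z q) : ∃ p ∈ D.ρ, P.H p q := by
  rw [T.hZ] at h; push Not at h; exact h

section
variable {l : ℕ} {D : Dat J V} (T : TriD P D)
  (hI : ∀ g, Ext P l g → ∀ u ∈ free g, ∀ v ∈ free g, ¬ P.H u v)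
include T hI

theorem a_unserved {f : J → Finset V} (h : Ext P l f) (hρ : D.ρ ⊆ free f) {o : J} (ho : f o = ∅) :
    D.HM o ∧ ∀ x ∈ free f, P.A D o x := by
  have hm : D.HM o := T.hm fun p hp => h.nonC (by simp [ho]) (hρ hp)
  obtain ⟨a, ha, _, _, _, h1, _⟩ := T.hmaj o hm
  exact ⟨hm, fun x hx => (h.mono ho hx (hρ ha) (hI f h x hx a (hρ ha))).trans h1⟩

theorem a_rigid {f : J → Finset V} (h : Ext P l f) (hρ : D.ρ ⊆ free f) {j : J} {u v : V}
    (e : f j = {u, v}) (hg : P.Good j u v) (hm : D.HM j) (hb : P.B D j v) (z : ¬ D.Z v) :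
    ∀ x ∈ free f, P.A D j x := by
  intro x hx
  by_contra hA
  have hn := pair_nonC e hg
  have xB : P.B D j x := ((tri3 j x).resolve_left (h.nonC hn hx)).resolve_left hA
  obtain ⟨a, ha, hH⟩ := T.nz z
  obtain ⟨a', ha', ne, hA'⟩ := T.other hm a
  have vf : v ∉ free f := fun t => mem_free.1 t j (by simp [e])
  refine hI _ (h.upd hn (hA'.good xB (hI f h _ (hρ ha') _ hx)) (Or.inl (hρ ha')) (Or.inl hx)) a
    (free_update h.norm.1 (Or.inl (hρ ha)) ?_) v (free_update h.norm.1 (Or.inr (by simp [e])) ?_) hH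
  · simp only [mem_insert, mem_singleton, not_or]
    exact ⟨ne.symm, fun t => xB.BB hb (t ▸ hH)⟩
  · simp only [mem_insert, mem_singleton, not_or]
    exact ⟨fun t => vf (t ▸ hρ ha'), fun t => vf (t ▸ hx)⟩

theorem a_hidden {f : J → Finset V} (h : Ext P l f) (hρ : D.ρ ⊆ free f) {j : J} {u v : V}
    (e : f j = {u, v}) (hg : P.Good j u v) (hm : D.HM j) (hb : P.B D j v) (z : D.Z v) :
    D.Z u ∧ ∀ o, f o = ∅ → P.A D o u := by
  have hn := pair_nonC e hg
  have vf : v ∉ free f := fun t => mem_free.1 t j (by simp [e])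
  have uf : u ∉ free f := fun t => mem_free.1 t j (by simp [e])
  have key : ∀ x ∈ D.ρ, ∃ g, Ext P l g ∧ x ∈ free g ∧ u ∈ free g ∧ ∀ o, f o = ∅ → g o = ∅ := by
    intro x hx
    obtain ⟨a, ha, ne, hA⟩ := T.other hm x
    refine ⟨_, h.upd hn (hA.good hb ((T.hZ v).1 z a ha)) (Or.inl (hρ ha)) (Or.inr (by simp [e])),
      free_update h.norm.1 (Or.inl (hρ hx)) ?_, free_update h.norm.1 (Or.inr (by simp [e])) ?_,
      fun o ho => ?_⟩
    · simp only [mem_insert, mem_singleton, not_or]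
      exact ⟨ne.symm, fun t => vf (t ▸ hρ hx)⟩
    · simp only [mem_insert, mem_singleton, not_or]
      exact ⟨fun t => uf (t ▸ hρ ha), hg.ne⟩
    · rw [Function.update_of_ne, ho]
      rintro rfl; rw [ho] at e; exact absurd e.symm (by simp)
  refine ⟨(T.hZ u).2 fun x hx => ?_, fun o ho => ?_⟩
  · obtain ⟨g, g1, g2, g3, _⟩ := key x hx
    exact hI g g1 x g2 u g3
  · obtain ⟨x, hx, _⟩ := T.hmaj j hm
    obtain ⟨g, g1, g2, g3, g4⟩ := key x hx
    exact (g1.mono (g4 o ho) g3 g2 (hI g g1 u g3 x g2)).trans ((a_unserved T hI h hρ ho).2 x (hρ hx))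

theorem a_noconf {f : J → Finset V} (h : Ext P l f) (hρ : D.ρ ⊆ free f) {j o : J} {u v : V}
    (e : f j = {u, v}) (hg : P.Good j u v) (z : ¬ D.Z v) (zu : D.Z u) (ho : f o = ∅) :
    ¬ P.B D o u := by
  intro hB
  obtain ⟨a, ha, hH⟩ := T.nz z
  obtain ⟨hm, hA⟩ := a_unserved T hI h hρ ho
  obtain ⟨a', ha', ne, hA'⟩ := T.other hm a
  have hne : o ≠ j := by rintro rfl; rw [ho] at e; exact absurd e.symm (by simp)
  have vf : v ∉ free f := fun t => mem_free.1 t j (by simp [e])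
  have uf : u ∉ free f := fun t => mem_free.1 t j (by simp [e])
  refine hI _ (h.transfer (pair_nonC e hg) ho hne (hA'.good hB ((T.hZ u).1 zu a' ha'))
    (Or.inl (hρ ha')) (Or.inr (by simp [e]))) a (free_transfer h.norm.1 (Or.inl (hρ ha)) ?_) v
    (free_transfer h.norm.1 (Or.inr (by simp [e])) ?_) hH
  · simp only [mem_insert, mem_singleton, not_or]
    exact ⟨ne.symm, fun t => uf (t ▸ hρ ha)⟩
  · simp only [mem_insert, mem_singleton, not_or]
    exact ⟨fun t => vf (t ▸ hρ ha'), hg.ne.symm⟩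

theorem a_swap {f : J → Finset V} (h : Ext P l f) (hρ : D.ρ ⊆ free f) {j o : J} {u v : V}
    (e : f j = {u, v}) (hg : P.Good j u v) (z : ¬ D.Z v) (zu : D.Z u) (ho : f o = ∅) :
    ∃ g, Ext P l g ∧ free f ⊆ free g ∧ g j = ∅ ∧ ∀ i, i ≠ j → f i ≠ ∅ → g i = f i := by
  obtain ⟨a, ha, hH⟩ := T.nz z
  have hn := pair_nonC e hg
  have hne : o ≠ j := by rintro rfl; rw [ho] at e; exact absurd e.symm (by simp)
  have uA : P.A D o u := ((tri3 o u).resolve_left (h.transC hn ho (by simp [e]))).resolve_right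
    (a_noconf T hI h hρ e hg z zu ho)
  have vB : P.B D o v := (((a_unserved T hI h hρ ho).2 a (hρ ha)).nbr hH).resolve_left
    (h.transC hn ho (by simp [e]))
  refine ⟨_, h.transfer hn ho hne (uA.good vB hg.2.2.2) (Or.inr (by simp [e])) (Or.inr (by simp [e])),
    fun x hx => free_transfer h.norm.1 (Or.inl hx) (e ▸ mem_free.1 hx j), ?_, fun i h1 h2 => ?_⟩
  · rw [Function.update_of_ne hne.symm, Function.update_self]
  · rw [Function.update_of_ne (fun t : i = o => h2 (t ▸ ho)), Function.update_of_ne h1]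

end

theorem stepA {l : ℕ} (hI : ∀ g, Ext P l g → ∀ u ∈ free g, ∀ v ∈ free g, ¬ P.H u v)
    {f : J → Finset V} (h : Ext P l f) {o : J} (ho : f o = ∅) (h3 : 3 ≤ (free f).card)
    (hl : l + 2 ≤ (free f).card) (hP : ∀ a b c, P.Phi (P.GamA a b c) l)
    (hlt : (l + 1) * P.sv f + P.cf f + Fintype.card V < (l + 3) * Fintype.card J) : False := by
  classical
  obtain ⟨a, ha, b, hb, c, hc, ab, ac, bc⟩ := two_lt_card.1 (show 2 < (free f).card from h3)
  have hρ : ({a, b, c} : Finset V) ⊆ free f := by simp [insert_subset_iff, ha, hb, hc]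
  obtain ⟨μ, hμ, im⟩ := exists_imgD (D := mkD P f id (P.Z3 a b c) (P.MajA a b c) {a, b, c}
    (fun _ => False) o a) h.norm fun j u v e hg hm hA hB z => by
      have T := triD_mk (P := P) (f := f) (μ := id) ab ac bc (fun _ => False) o a
      exact (T.hZ u).2 fun p hp => (a_rigid T hI h hρ e hg hm hB z p (hρ hp)).AA hA
  set D := mkD P f μ (P.Z3 a b c) (P.MajA a b c) {a, b, c} (fun _ => False) o a with hD
  have T : TriD P D := triD_mk ab ac bc _ _ _
  change IsM (P.E (P.RD D)) μ at hμ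
  change ImgD P D f μ at im
  have hρ' : D.ρ ⊆ free f := hρ
  have nodum : ∀ j, μ (ag j) ≠ dm j := fun j e => by
    obtain ⟨u, v, e1, hg, hn, _⟩ := im.dum e
    exact hn (T.hm fun p hp => h.nonC (pair_nonC e1 hg) (hρ' hp))
  have swap : ∀ i, μ (ag i) = ag i →
      ∃ g, Ext P l g ∧ free f ⊆ free g ∧ g i = ∅ ∧ ∀ j, j ≠ i → f j ≠ ∅ → g j = f j := by
    intro i hi
    rcases im.unm hi with e | ⟨u, v, e, hg, _, _, _, z, zu, _⟩
    · exact ⟨f, h, Subset.rfl, e, fun _ _ _ => rfl⟩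
    · exact a_swap T hI h hρ' e hg z zu ho
  have hall : ∀ p, μ (vx p) = vx p → D.Z p := fun p e => by
    rcases im.unc hμ.1 e with t | ⟨j, v, e1, hg, hm, _, hb, z, _⟩ | ⟨j, _, _, _, _, t⟩
    · exact (T.hZ p).2 fun x hx => hI f h x (hρ' hx) p t
    · exact (a_hidden T hI h hρ' e1 hg hm hb z).1
    · exact absurd t (nodum j)
  have cnt : P.sv f < Fintype.card J := by
    unfold sv; rw [← card_univ]
    exact card_lt_card (filter_ssubset.2 ⟨o, mem_univ _, by rw [ho]; exact not_serv_empty o⟩)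
  have F : P.Fr D μ := fr_of_img D hD h.norm.1 hμ.1 im (fun i p hi e _ => by
      obtain ⟨g, g1, g2, g3, g4⟩ := swap i hi
      rcases im.unc hμ.1 e with t | ⟨j, v, e1, hg, hm, _, hb, z, e2⟩ | ⟨j, _, _, _, _, t⟩
      · exact (a_unserved T hI g1 (hρ'.trans g2) g3).2 p (g2 t)
      · have : g j = {p, v} := by
          rw [g4 j (fun t => by rw [t, hi] at e2; simp at e2) (by rw [e1]; simp), e1]
        exact (a_hidden T hI g1 (hρ'.trans g2) this hg hm hb z).2 i g3
      · exact absurd t (nodum j))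
    (fun i hi => by
      obtain ⟨g, g1, g2, g3, _⟩ := swap i hi
      exact (a_unserved T hI g1 (hρ'.trans g2) g3).1)
    (fun q hq => T.nz hq) (fun v hv => (T.hZ v).1 hv)
    (fun p hp => ⟨im.freeU (hρ hp), hall p (im.freeU (hρ hp))⟩) cnt
    fun j u v e _ e2 _ => ⟨hall u e2, fun t => mem_free.1 (hρ t) j (by simp [e])⟩
  have hPhi : P.Phi (P.RD D) l := by rw [hD, RD_mkD (majA_uniq a b c)]; exact hP a b c
  obtain ⟨ν, hν⟩ := exists_opt (P.cst D μ) (fun _ _ => E_symm _) (om_symm l) hμ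
    (hPhi.improve hμ im.cov im.cw hlt)
  refine h.conclude hν im.cov im.cw (frameA F hν T.h3 (fun p e => ⟨e, hall p e⟩) T.maj' T.hnm nodum
    (fun j hj => hj.elim) (fun q u i e hne z hi => ?_) ?_)
  · obtain ⟨j, e1, hg, _, hA, _, zu, _⟩ := im.pair hμ.1 e hne z
    by_cases t : j = i
    · exact t ▸ hA.notB
    · obtain ⟨g, g1, g2, g3, g4⟩ := swap i hi
      exact a_noconf T hI g1 (hρ'.trans g2) (by rw [g4 j t (by rw [e1]; simp), e1]) hg z zu g3
  · have := h.norm.card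
    rw [im.cov, im.cw]; omega

end AP

end Pool.Agent.Lib.MP_ef7581_lc
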