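import Mathlib
import Pool.Agent.Lib.MP_ef7581_lc.StepA
import Pool.Agent.Lib.MP_ef7581_lc.Crit

/-!
The step for extremal states whose free set contains an edge, and the induction on the level.
-/

set_option autoImplicit false
set_option linter.unusedSectionVars false

namespace Pool.Agent.Lib.MP_ef7581_lc

open Finset

namespace AP

variable {J V : Type} {P : AP J V} [Fintype J] [Fintype V] [DecidableEq J] [DecidableEq V]

theorem opt_third {a b c : Option Bool} (ha : a ≠ none) (hb : b ≠ none) (hc : c ≠ none)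
    (h1 : a ≠ b) (h2 : c ≠ b) : a = c := by
  revert ha hb hc h1 h2
  rcases a with _ | _ | _ <;> rcases b with _ | _ | _ <;> rcases c with _ | _ | _ <;> simp

theorem b_nbr {l : ℕ} {g : J → Finset V} (h : Ext P l g) {o : J} (ho : g o = ∅) {p y x : V}
    (hp : p ∈ free g) (hy : y ∈ free g) (hx : x ∈ free g) (H1 : P.H p y) (H2 : ¬ P.H p x) :
    P.H x y := by
  by_contra t
  exact P.compat o p y H1 (h.nonC (by simp [ho]) hp)
    ((h.mono ho hp hx H2).trans (h.mono ho hx hy t))

theorem b_col {l : ℕ} {g : J → Finset V} (h : Ext P l g) {i : J} (hi : ∀ c ∈ g i, P.col i c ≠ none)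
    {p y x : V} (hp : p ∈ free g) (hy : y ∈ free g) (hx : x ∈ free g) (H1 : P.H p y)
    (H2 : P.H x y) : P.col i x = P.col i p :=
  opt_third (h.nonC hi hx) (h.nonC hi hy) (h.nonC hi hp) (P.compat i x y H2 (h.nonC hi hx))
    (P.compat i p y H1 (h.nonC hi hp))

theorem stepB_core {l : ℕ} {f : J → Finset V} (h : Ext P l f) {o : J} (ho : f o = ∅) {p p' y : V}
    (hp : p ∈ free f) (hp' : p' ∈ free f) (hy : y ∈ free f) (hpp : p ≠ p') (H1 : P.H p y)
    (H2 : P.H p' y) (hl : l + 2 ≤ (free f).card) (hP : P.Phi (P.GamB p p' y) l)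
    (hlt : (l + 1) * P.sv f + P.cf f + Fintype.card V < (l + 3) * Fintype.card J) : False := by
  classical
  have hρ : ({p, p'} : Finset V) ⊆ free f := by simp [insert_subset_iff, hp, hp']
  have base : ∀ (μ : Nd J V → Nd J V) i, (∀ c ∈ f i, P.col i c ≠ none) →
      (mkD P f μ (P.Z2 p p') (P.MajB p p' y) {p, p'} (fun _ => False) o p).HM i ∧
      P.A (mkD P f μ (P.Z2 p p') (P.MajB p p' y) {p, p'} (fun _ => False) o p) i p ∧
      P.A (mkD P f μ (P.Z2 p p') (P.MajB p p' y) {p, p'} (fun _ => False) o p) i p' := by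
    intro μ i hi
    obtain ⟨x, hx⟩ := Option.ne_none_iff_exists'.1 (h.nonC hi hp)
    have hx' := (b_col h hi hp hy hp' H1 H2).trans hx
    have m : P.MajB p p' y i x := Or.inl ⟨hx, hx'⟩
    obtain ⟨a, rfl⟩ := (maj_iff (majB_uniq p p' y)).1 m
    exact ⟨a, hx, hx'⟩
  obtain ⟨μ, hμ, im⟩ := exists_imgD (D := mkD P f id (P.Z2 p p') (P.MajB p p' y) {p, p'}
    (fun _ => False) o p) h.norm fun j u v e hg _ hA _ _ =>
      ⟨(base id j (pair_nonC e hg)).2.1.AA hA, (base id j (pair_nonC e hg)).2.2.AA hA⟩
  replace base := base μ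
  set D := mkD P f μ (P.Z2 p p') (P.MajB p p' y) {p, p'} (fun _ => False) o p with hD
  change IsM (P.E (P.RD D)) μ at hμ
  change ImgD P D f μ at im
  have hZ : ∀ v, D.Z v ↔ ¬ P.H p v ∧ ¬ P.H p' v := fun v => Iff.rfl
  have nodum : ∀ j, μ (ag j) ≠ dm j := fun j e => by
    obtain ⟨u, v, e1, hg, hn, _⟩ := im.dum e
    exact hn (base j (pair_nonC e1 hg)).1
  have unm : ∀ i, μ (ag i) = ag i → ∀ c ∈ f i, P.col i c ≠ none := fun i hi => by
    rcases im.unm hi with e | ⟨u, v, e, hg, _⟩
    · simp [e]
    · exact pair_nonC e hg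
  have cnt : P.sv f < Fintype.card J := by
    unfold sv; rw [← card_univ]
    exact card_lt_card (filter_ssubset.2 ⟨o, mem_univ _, by rw [ho]; exact not_serv_empty o⟩)
  have zA : ∀ j u v, f j = {u, v} → P.Good j u v → P.A D j u → D.Z u := fun j u v e hg hA =>
    ⟨(base j (pair_nonC e hg)).2.1.AA hA, (base j (pair_nonC e hg)).2.2.AA hA⟩
  have npp : ¬ P.H p p' := (base o (by simp [ho])).2.1.AA (base o (by simp [ho])).2.2
  have F : P.Fr D μ := fr_of_img D hD h.norm.1 hμ.1 im (fun i x hi e z => by
      rcases im.unc hμ.1 e with t | ⟨j, v, e1, hg, hm, hA, hb, zv, e2⟩ | ⟨j, _, _, _, _, t⟩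
      · exact (b_col h (unm i hi) hp hy t H1 (b_nbr h ho hp hy t H1 z.1)).trans
          (base i (unm i hi)).2.1
      · have hn := pair_nonC e1 hg
        have g1 := h.upd hn ((base j hn).2.1.good hb zv.1) (Or.inl hp) (Or.inr (by simp [e1]))
        have vf : v ∉ free f := fun t => mem_free.1 t j (by simp [e1])
        have xf : x ∉ free f := fun t => mem_free.1 t j (by simp [e1])
        have m1 : p' ∈ free (Function.update f j {p, v}) := free_update h.norm.1 (Or.inl hp') (by
          simp only [mem_insert, mem_singleton, not_or]; exact ⟨hpp.symm, fun t => vf (t ▸ hp')⟩)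
        have m2 : y ∈ free (Function.update f j {p, v}) := free_update h.norm.1 (Or.inl hy) (by
          simp only [mem_insert, mem_singleton, not_or]
          exact ⟨fun t => P.irrefl p (t ▸ H1), fun t => vf (t ▸ hy)⟩)
        have m3 : x ∈ free (Function.update f j {p, v}) :=
          free_update h.norm.1 (Or.inr (by simp [e1])) (by
            simp only [mem_insert, mem_singleton, not_or]; exact ⟨fun t => xf (t ▸ hp), hg.ne⟩)
        have oj : o ≠ j := by rintro rfl; rw [ho] at e1; exact absurd e1.symm (by simp)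
        have ij : i ≠ j := by rintro rfl; rw [hi] at e2; simp at e2
        exact (b_col g1 (by rw [Function.update_of_ne ij]; exact unm i hi) m1 m2 m3 H2
          (b_nbr g1 (by rw [Function.update_of_ne oj, ho]) m1 m2 m3 H2 z.2)).trans
          (base i (unm i hi)).2.2
      · exact absurd t (nodum j))
    (fun i hi => (base i (unm i hi)).1)
    (fun q hq => by unfold Z2 at hq; simp only [mem_insert, mem_singleton, exists_eq_or_imp,
      exists_eq_left]; tauto)
    (fun v hv => by simpa [Z2] using hv)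
    (fun x hx => ⟨im.freeU (hρ hx), by
      rcases mem_insert.1 hx with rfl | t
      · exact ⟨P.irrefl _, fun t => npp (P.symm _ _ t)⟩
      · rw [mem_singleton.1 t]; exact ⟨npp, P.irrefl _⟩⟩) cnt
    fun j u v e e1 e2 _ => ⟨by
      rcases im.unc hμ.1 e2 with t | ⟨j, v, e1, hg, _, hA, _⟩ | ⟨j, _, _, _, _, t⟩
      · exact absurd (by simp [e]) (mem_free.1 t j)
      · exact zA j u v e1 hg hA
      · exact absurd t (nodum j), fun t => mem_free.1 (hρ t) j (by simp [e])⟩
  have hPhi : P.Phi (P.RD D) l := by rw [hD, RD_mkD (majB_uniq p p' y)]; exact hP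
  obtain ⟨ν, hν⟩ := exists_opt (P.cst D μ) (fun _ _ => E_symm _) (om_symm l) hμ
    (hPhi.improve hμ im.cov im.cw hlt)
  refine h.conclude hν im.cov im.cw (frameB F hν hpp rfl (fun v => μ (vx v) = vx v ∧ ¬ D.Z v)
    ⟨im.freeU hy, fun t => t.1 H1⟩ (fun v e => ?_) (fun v hv => hv.1) (fun v hv x hx => ?_)
    (fun j hj => hj) (fun j v e hc x hx => ?_) (fun j hj => ?_) (fun j hj => ?_) nodum ?_)
  · by_cases z : D.Z v
    exacts [Or.inl ⟨e, z⟩, Or.inr ⟨e, z⟩]
  · rcases im.unc hμ.1 hv.1 with t | ⟨j, w, e1, hg, _, hA, _⟩ | ⟨j, _, _, _, _, t⟩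
    · by_contra hn
      have a := h.mono ho (hρ hx) t hn
      have b : P.A D o x := by
        rcases mem_insert.1 hx with rfl | t
        · exact (base o (by simp [ho])).2.1
        · rw [mem_singleton.1 t]; exact (base o (by simp [ho])).2.2
      have c : P.A D o v := a.symm.trans b
      exact hv.2 ⟨(base o (by simp [ho])).2.1.AA c, (base o (by simp [ho])).2.2.AA c⟩
    · exact absurd (zA j v w e1 hg hA) hv.2
    · exact absurd t (nodum j)
  · obtain ⟨u, e1, hg, _⟩ := im.side e hc
    rcases mem_insert.1 hx with rfl | t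
    · exact (base j (pair_nonC e1 hg)).2.1
    · rw [mem_singleton.1 t]; exact (base j (pair_nonC e1 hg)).2.2
  · obtain ⟨x, hx⟩ := hj
    have e := ((maj_iff (majB_uniq p p' y)).1 hx).2
    subst e
    change (∀ x ∈ ({p, p'} : Finset V), P.col j x = none ∨
      P.col j x = some (mjOf (P.MajB p p' y) j)) ∧
      ∃ x ∈ ({p, p'} : Finset V), P.col j x = some (mjOf (P.MajB p p' y) j)
    rcases hx with t | t | t <;> simp [t]
  · change ¬ ∃ x, P.MajB p p' y j x at hj
    change _ ∨ _ ∨ (∃ x ∈ ({p, p'} : Finset V), P.col j x = none) ∧ P.col j y = none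
    unfold MajB at hj
    simp only [mem_insert, mem_singleton, exists_eq_or_imp, exists_eq_left]
    revert hj
    rcases P.col j p with _ | _ | _ <;> rcases P.col j p' with _ | _ | _ <;>
      rcases P.col j y with _ | _ | _ <;> simp
  · have := h.norm.card
    rw [im.cov, im.cw]; omega

theorem stepB {l : ℕ} {f : J → Finset V} (h : Ext P l f) {o : J} (ho : f o = ∅) {x y : V}
    (hx : x ∈ free f) (hy : y ∈ free f) (hH : P.H x y) (h3 : 3 ≤ (free f).card)
    (hl : l + 2 ≤ (free f).card) (hP : ∀ a b c, P.Phi (P.GamB a b c) l)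
    (hlt : (l + 1) * P.sv f + P.cf f + Fintype.card V < (l + 3) * Fintype.card J) : False := by
  obtain ⟨t, ht, hn⟩ := exists_mem_notMem_of_card_lt_card (s := {x, y}) (t := free f)
    (lt_of_le_of_lt card_le_two h3)
  simp only [mem_insert, mem_singleton, not_or] at hn
  by_cases a : P.H x t
  · exact stepB_core h ho hy ht hx (Ne.symm hn.2) (P.symm _ _ hH) (P.symm _ _ a) hl (hP _ _ _) hlt
  · exact stepB_core h ho hx ht hy (Ne.symm hn.1) hH (b_nbr h ho hx hy ht hH a) hl (hP _ _ _) hlt

theorem Ext.val_eq {l : ℕ} {f g : J → Finset V} (h : Ext P l f) (h' : Ext P l g) :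
    P.sv g = P.sv f ∧ P.cf g = P.cf f := by
  have a := h.best g h'.norm.1
  have b := h'.best f h.norm.1
  have c : P.sv g = P.sv f := by omega
  rw [c] at a b; omega

theorem exists_unserved {f : J → Finset V} (h : P.Norm f) (hn : ¬ P.Feasible) : ∃ o, f o = ∅ := by
  by_contra t
  push Not at t
  exact hn ⟨f, h.1, fun j => (h.serv_iff j).2 (t j).ne_empty⟩

theorem cstate {m : Nd J V → Nd J V} (h : IsM (P.E (R0 J V)) m) :
    ∃ g, Disj g ∧ cov m = 2 * P.cf g := by
  refine ⟨fun j => univ.filter fun v => m (ag j) = vx v, disj_of fun i j v hi hj => ?_, ?_⟩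
  · simpa using (h.flip (mem_filter.1 hi).2).symm.trans (h.flip (mem_filter.1 hj).2)
  · have a : vv m = 0 := by
      unfold vv; rw [card_eq_zero, filter_eq_empty_iff]
      rintro v _ ⟨u, hu, e⟩
      exact (edge_vv h e hu.symm).elim id id
    rw [cov_eq h, a, add_zero]
    congr 1
    unfold mA cf
    congr 1
    refine filter_congr fun j _ => ?_
    rcases mate_ag h j with e | ⟨v, e, hc⟩ | ⟨_, e⟩
    · simp [e]
    · simp [e, hc.resolve_right id]
    · exact e.elim

/-- Reduction to the critical case. -/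
theorem feasible_of_tc (hc : P.Char)
    (tc : P.Crit → ∀ f o a b, a ≠ b → P.PS f {o} {a, b} → P.Feasible) : P.Feasible := by
  classical
  by_contra hn
  have key : ∀ l, l ≤ Fintype.card V + 1 → ∃ f, Disj f ∧
      (l + 2) * Fintype.card J ≤ l * P.sv f + P.cf f + Fintype.card V := by
    intro l
    induction l with
    | zero =>
      intro _
      obtain ⟨m, h1, h2⟩ := hc.1
      obtain ⟨g, g1, g2⟩ := cstate h1
      exact ⟨g, g1, by omega⟩
    | succ l ih =>
      intro hl
      obtain ⟨g, g1, g2⟩ := ih (by omega)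
      have all : ∀ f, Ext P l f → l + 2 ≤ (free f).card ∧ (¬ 3 ≤ (free f).card → False) := by
        intro f h
        obtain ⟨o, ho⟩ := exists_unserved h.norm hn
        have a := h.best g g1
        have b := h.norm.card
        have cnt : P.sv f < Fintype.card J := by
          unfold sv; rw [← card_univ]
          exact card_lt_card (filter_ssubset.2 ⟨o, mem_univ _, by rw [ho]; exact not_serv_empty o⟩)
        obtain ⟨u, hu⟩ := Nat.exists_eq_add_of_lt cnt
        rw [hu] at g2
        have e : (l + 2) * (P.sv f + u + 1) = l * P.sv f + l * u + l + 2 * P.sv f + 2 * u + 2 := by ring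
        refine ⟨by omega, fun h3 => ?_⟩
        have l0 : l = 0 := by omega
        subst l0
        have c2 : (free f).card = 2 := by omega
        obtain ⟨x, y, xy, e2⟩ := card_eq_two.1 c2
        refine hn (tc (fun m hm => ?_) f o x y xy ⟨fun i j v _ _ => h.norm.1.eq, fun j hj => ?_,
          fun j v _ hv => mem_free.1 (e2 ▸ hv) j⟩)
        · obtain ⟨g', k1, k2⟩ := cstate hm
          have := h.best g' k1
          omega
        · by_contra hs
          have : P.sv f + 2 ≤ Fintype.card J := by
            unfold sv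
            rw [← card_univ, ← card_filter_add_card_filter_not (s := univ) (fun j => P.Serv j (f j)),
              ← card_pair (show j ≠ o by simpa using hj)]
            refine Nat.add_le_add (by rfl) (card_le_card ?_)
            simp [insert_subset_iff, hs, ho, not_serv_empty]
          omega
      obtain ⟨f, h⟩ := exists_ext P l
      by_contra hlt
      push Not at hlt
      by_cases hI : ∀ g, Ext P l g → ∀ u ∈ free g, ∀ v ∈ free g, ¬ P.H u v
      · obtain ⟨o, ho⟩ := exists_unserved h.norm hn
        exact stepA hI h ho (by_contra (all f h).2) (all f h).1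
          (fun a b c => (hc.2.1 l (by omega) a b c).1) (hlt f h.norm.1)
      · push Not at hI
        obtain ⟨f, h, x, hx, y, hy, hH⟩ := hI
        obtain ⟨o, ho⟩ := exists_unserved h.norm hn
        exact stepB h ho hx hy hH (by_contra (all f h).2) (all f h).1
          (fun a b c => (hc.2.1 l (by omega) a b c).2) (hlt f h.norm.1)
  obtain ⟨f, f1, f2⟩ := key _ le_rfl
  obtain ⟨g, hg, _, g2, g3⟩ := exists_norm (P := P) f1
  obtain ⟨o, ho⟩ := exists_unserved hg hn
  have a : P.sv f ≤ P.sv g := card_le_card fun j hj => by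
    simp only [mem_filter, mem_univ, true_and] at hj ⊢; exact g2 j hj
  have b : P.cf f ≤ P.sv g := card_le_card fun j hj => by
    simp only [mem_filter, mem_univ, true_and] at hj ⊢
    obtain ⟨c, c1, c2⟩ := g3 j hj; exact serv_C c1 c2
  have cnt : P.sv g < Fintype.card J := by
    unfold sv; rw [← card_univ]
    exact card_lt_card (filter_ssubset.2 ⟨o, mem_univ _, by rw [ho]; exact not_serv_empty o⟩)
  have := Nat.mul_le_mul_left (Fintype.card V + 1) (show P.sv f + 1 ≤ Fintype.card J by omega)
  nlinarith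

end AP

end Pool.Agent.Lib.MP_ef7581_lc
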