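import Mathlib
import Pool.Agent.Lib.MP_ef7581_lc.StepB
import Pool.Agent.Lib.MP_ef7581_lc.DM

/-!
The critical case: basic tools.
-/

set_option autoImplicit false
set_option linter.unusedSectionVars false

namespace Pool.Agent.Lib.MP_ef7581_lc

open Finset

namespace AP

variable {J V : Type} {P : AP J V} [Fintype J] [Fintype V] [DecidableEq J] [DecidableEq V]

/-- Standing assumptions of the critical case. -/
structure TC (P : AP J V) : Prop where
  crit : P.Crit
  nf : ¬ P.Feasible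
  ng : ¬ P.Gadget

/-- Normal states with one unserved agent and two free vertices. -/
structure IS (P : AP J V) (f : J → Finset V) (o : J) (a b : V) : Prop where
  norm : P.Norm f
  em : f o = ∅
  srv : ∀ j, j ≠ o → f j ≠ ∅
  fr : free f = {a, b}
  ne : a ≠ b

section
variable {f : J → Finset V} {o : J} {a b : V}

theorem IS.ps (h : IS P f o a b) : P.PS f {o} {a, b} :=
  ⟨fun _ _ _ _ _ => h.norm.1.eq, fun j hj => (h.norm.serv_iff j).2 (h.srv j (by simpa using hj)),
    fun j _ _ hv => mem_free.1 (h.fr ▸ hv) j⟩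

theorem IS.symm (h : IS P f o a b) : IS P f o b a :=
  ⟨h.norm, h.em, h.srv, by rw [h.fr, pair_comm], h.ne.symm⟩

theorem IS.na (h : IS P f o a b) (j : J) : a ∉ f j := mem_free.1 (by simp [h.fr]) j
theorem IS.nb (h : IS P f o a b) (j : J) : b ∉ f j := mem_free.1 (by simp [h.fr]) j

theorem IS.sv (h : IS P f o a b) : P.sv f + 1 = Fintype.card J := by
  classical
  unfold AP.sv
  rw [← card_univ, ← card_erase_add_one (mem_univ o)]
  congr 2
  ext j
  simp only [mem_filter, mem_univ, true_and, mem_erase, and_true, h.norm.serv_iff]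
  exact ⟨fun t e => t (e ▸ h.em), h.srv j⟩

theorem IS.cf (h : IS P f o a b) : P.cf f + Fintype.card V = 2 * Fintype.card J := by
  have := h.norm.card
  rw [h.fr, card_pair h.ne] at this
  have := h.sv; omega

theorem IS.ne_o (h : IS P f o a b) {j : J} {u v : V} (e : f j = {u, v}) : j ≠ o := by
  rintro rfl; rw [h.em] at e; exact absurd e.symm (by simp)

theorem PS.toIS (h : P.PS f {o} {a, b}) (hab : a ≠ b) (hc : P.Crit) :
    ∃ g, IS P g o a b ∧ ∀ j, j ≠ o → g j = f j := by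
  obtain ⟨η, t⟩ := h.tight hc (by rw [card_singleton, card_pair hab])
  have e : ∀ j, j ≠ o → Function.update f o ∅ j = f j := fun j hj => Function.update_of_ne hj _ _
  have e0 : Function.update f o ∅ o = ∅ := Function.update_self _ _ _
  refine ⟨Function.update f o ∅, ⟨⟨disj_of fun i j v hi hj => ?_, fun j => ?_⟩, e0, fun j hj => ?_,
    ?_, hab⟩, e⟩
  · have i0 : i ≠ o := fun x => by rw [x, e0] at hi; simp at hi
    have j0 : j ≠ o := fun x => by rw [x, e0] at hj; simp at hj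
    exact h.disj i j v (by simpa) (by simpa) (e i i0 ▸ hi) (e j j0 ▸ hj)
  · by_cases x : j = o
    · rw [x, e0]; exact Or.inl rfl
    · rw [e j x]
      rcases t.cases j (by simpa) with ⟨c, c1, c2, _⟩ | ⟨u, v, c1, c2, _⟩
      exacts [Or.inr (Or.inl ⟨c, c1, c2⟩), Or.inr (Or.inr ⟨u, v, c1, c2⟩)]
  · rw [e j hj]; intro x; exact not_serv_empty j (x ▸ h.serv j (by simpa))
  · ext v
    rw [mem_free]
    constructor
    · intro hv
      rcases t.cover v with x | ⟨j, j1, j2⟩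
      · exact x
      · exact absurd (e j (by simpa using j1) ▸ j2) (hv j)
    · intro hv j
      by_cases x : j = o
      · rw [x, e0]; simp
      · rw [e j x]; exact h.avoid j v (by simpa) hv

theorem PS.jd {A : Finset J} {S : Finset V} (h : P.PS f A S) (hc : P.Crit)
    (hS : 2 * A.card ≤ S.card) : (∀ j ∈ A, P.JD j) ∧ (∀ v ∈ S, P.W v) ∧
      ∀ j, j ∉ A → (∀ c ∈ f j, P.col j c ≠ none) → P.JD j ∧ ∀ v ∈ f j, P.W v := by
  obtain ⟨η, t⟩ := h.tight hc hS
  refine ⟨fun j hj => ⟨η, t.maxC, t.inA j hj⟩, fun v hv => ⟨η, t.maxC, t.inS v hv⟩, fun j hj hn => ?_⟩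
  rcases t.cases j hj with ⟨c, c1, c2, _⟩ | ⟨u, v, c1, _, c2, c3, c4⟩
  · exact absurd c2 (hn c (by simp [c1]))
  · exact ⟨⟨η, t.maxC, c2⟩, by rw [c1]; simpa using ⟨⟨η, t.maxC, c3⟩, ⟨η, t.maxC, c4⟩⟩⟩

theorem IS.jd (h : IS P f o a b) (hc : P.Crit) : P.JD o ∧ P.W a ∧ P.W b ∧
    ∀ j u v, f j = {u, v} → P.Good j u v → P.JD j ∧ P.W u ∧ P.W v := by
  obtain ⟨x, y, z⟩ := h.ps.jd hc (by rw [card_singleton, card_pair h.ne])
  refine ⟨x o (by simp), y a (by simp), y b (by simp), fun j u v e hg => ?_⟩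
  obtain ⟨z1, z2⟩ := z j (by simpa using h.ne_o e) (pair_nonC e hg)
  exact ⟨z1, z2 u (by simp [e]), z2 v (by simp [e])⟩

theorem TC.mono (T : TC P) (h : P.PS f {o} {a, b}) (hH : ¬ P.H a b) : P.col o a = P.col o b := by
  by_contra hn
  exact T.nf ((h.serve (j := o) (s := {a, b}) (fun _ x => x) (serv_of (by simp) (by simp) hn hH)
    (A' := ∅) (S' := ∅) (by simp) (by simp)).feasible)

/-- Two agents on four vertices in crossing position. -/
theorem TC.cross (T : TC P) {A : Finset J} {S : Finset V} (h : P.PS f A S) {i j : J} (hij : i ≠ j)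
    (hA : ∀ x ∈ A, x = i ∨ x = j) {u v y p : V} (hu : u ∈ S) (hv : v ∈ S) (hy : y ∈ S) (hp : p ∈ S)
    (n1 : P.col i u ≠ none) (n2 : P.col i v ≠ none) (n3 : P.col j u ≠ none) (n4 : P.col j y ≠ none)
    (c1 : P.col i u = P.col i p) (c2 : P.col i v = P.col i y) (c3 : P.col i u ≠ P.col i v)
    (c4 : P.col j u = P.col j v) (c5 : P.col j y = P.col j p) (c6 : P.col j u ≠ P.col j y) :
    False := by
  by_cases h1 : P.H p v
  · exact T.ng ⟨f, i, j, p, v, u, y, hij, h.mono (by simpa using hA) (by simp [*]), h1, c1 ▸ n1,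
      c5 ▸ n4, c1, c2.symm, c4, c5⟩
  by_cases h2 : P.H u y
  · exact T.ng ⟨f, i, j, u, y, p, v, hij, h.mono (by simpa using hA) (by simp [*]), h2, n1, n3,
      c1.symm, c2, c5.symm, c4.symm⟩
  exact T.nf (h.sol2 hA hu hy hp hv ⟨n1, c2 ▸ n2, c2 ▸ c3, h2⟩
    ⟨c5 ▸ n4, c4 ▸ n3, by rw [← c5, ← c4]; exact c6.symm, h1⟩
    (fun e => c6 (by rw [c5, e])) (fun e => c3 (by rw [c1, c2, e])) (fun e => c3 (by rw [e]))
    (fun e => c6 (by rw [c4, e])))

theorem TC.crossAB (T : TC P) {D : Dat J V} {A : Finset J} {S : Finset V} (h : P.PS f A S) {i j : J}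
    (hA : ∀ x ∈ A, x = i ∨ x = j) {u v y p : V} (hu : u ∈ S) (hv : v ∈ S) (hy : y ∈ S) (hp : p ∈ S)
    (a1 : P.A D i u) (a2 : P.A D i p) (a3 : P.B D i v) (a4 : P.B D i y) (b1 : P.B D j u)
    (b2 : P.B D j v) (b3 : P.A D j y) (b4 : P.A D j p) : False :=
  T.cross h (fun e : i = j => a1.notB (e ▸ b1)) hA hu hv hy hp a1.ne a3.ne b1.ne b3.ne (a1.trans a2.symm)
    (a3.trans a4.symm) (a1.neB a3) (b1.trans b2.symm) (b3.trans b4.symm) (b3.neB b1).symm

theorem PS.un2 {A : Finset J} {S : Finset V} (h : P.PS f A S) {j : J} (hj : j ∉ A) {u v : V}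
    (hu : u ∈ f j) (hv : v ∈ f j) : P.PS f (insert j A) (insert u (insert v S)) :=
  (h.unserve hj).mono (fun _ x => x) fun x hx => by
    simp only [mem_insert] at hx
    rcases hx with rfl | rfl | hx
    exacts [mem_union_left _ hu, mem_union_left _ hv, mem_union_right _ hx]

end

theorem cpart {R : Rx J V} {ν : Nd J V → Nd J V} (h : IsM (P.E R) ν) : ∃ η, P.CM η ∧
    cov η = 2 * P.cw ν ∧ (∀ j, (∀ v, ν (ag j) = vx v → P.col j v ≠ none) → η (ag j) = ag j) ∧
      ∀ v, (∀ j, ν (vx v) = ag j → P.col j v ≠ none) → η (vx v) = vx v := by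
  classical
  let η : Nd J V → Nd J V := fun x => if P.E (R0 J V) x (ν x) then ν x else x
  have hη : P.CM η := by
    refine ⟨fun x => ?_, fun x hx => ?_⟩
    · by_cases e : P.E (R0 J V) x (ν x)
      · have : P.E (R0 J V) (ν x) x := E_symm _ e
        simp only [η, e, if_true, this, h.1]
      · simp only [η, e, if_false]
    · by_cases e : P.E (R0 J V) x (ν x)
      · simp only [η, e, if_true]
      · simp only [η, e, if_false] at hx; exact absurd rfl hx
  have ka : ∀ j, η (ag j) ≠ ag j ↔ ∃ v, ν (ag j) = vx v ∧ P.col j v = none := by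
    intro j
    rcases mate_ag h j with e | ⟨v, e, _⟩ | ⟨e, _⟩ <;> simp [η, e, E, R0]
  refine ⟨η, hη, ?_, fun j hj => by_contra fun t => ?_, fun v hv => ?_⟩
  · have a : vv η = 0 := by
      unfold vv; rw [card_eq_zero, filter_eq_empty_iff]
      rintro v _ ⟨u, hu, e⟩
      exact (edge_vv hη e hu.symm).elim id id
    rw [cov_eq hη, a, add_zero]
    congr 1
    unfold mA cw
    congr 1
    exact filter_congr fun j _ => ka j
  · obtain ⟨v, e, c⟩ := (ka j).1 t; exact hj v e c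
  · rcases mate_vx h v with e | ⟨j, e, _⟩ | ⟨u, _, e, _⟩
    · simp [η, e]
    · simp [η, e, E, R0, hv j e]
    · simp [η, e, E, R0]

/-- The closest improving matching in the critical case. -/
structure TO (P : AP J V) (μ ν : Nd J V → Nd J V) : Prop where
  cov : 2 * Fintype.card J ≤ cov ν
  all : ∀ z, IsEnd μ ν z → μ z = z
  ex : ∃ z, IsEnd μ ν z
  jd : ∀ j, (∀ v, ν (ag j) = vx v → P.col j v ≠ none) → P.JD j
  w : ∀ v, (∀ j, ν (vx v) = ag j → P.col j v ≠ none) → P.W v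

theorem tc_opt {β : Type} [LinearOrder β] {R : Rx J V} {c : (Nd J V → Nd J V) → β}
    {μ ν : Nd J V → Nd J V} (hc : P.Crit) (h : Opt (P.E R) (P.om 0) c μ ν)
    (e1 : cov μ + 2 = 2 * Fintype.card J) (e2 : P.cw μ + Fintype.card V = 2 * Fintype.card J) :
    TO P μ ν := by
  obtain ⟨η, h1, h2, h3, h4⟩ := cpart h.hν
  have a := opt_imp h
  have b := hc η h1
  have d := cnt1 id μ ν
  have e := cnt3 id μ ν
  have f := h.card_ends
  simp only [id] at d e
  change cov ν + _ = cov μ + _ at d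
  have g1 : 1 ≤ gn id μ ν := by omega
  obtain ⟨z, hz⟩ := card_pos.1 g1
  have ez : IsEnd μ ν z := Or.inl (mem_filter.1 hz).2
  obtain ⟨z', z1, z2, _⟩ := h.other_end ez
  have g2 : 2 ≤ (univ.filter fun x => IsEnd μ ν x).card := by
    rw [← card_pair z1]
    exact card_le_card (by simp [insert_subset_iff, ez, z2])
  have g3 : gn id ν μ = 0 := by omega
  have mx : P.MaxC η := ⟨h1, fun m hm => by have := hc m hm; omega⟩
  refine ⟨by omega, fun x hx => hx.elim And.left fun t => ?_, ⟨z, ez⟩, fun j hj => ⟨η, mx, h3 j hj⟩,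
    fun v hv => ⟨η, mx, h4 v hv⟩⟩
  have : 0 < gn id ν μ := card_pos.2 ⟨x, mem_filter.2 ⟨mem_univ _, t.2, t.1⟩⟩
  omega

theorem IS.opt {β : Type} [LinearOrder β] {R : Rx J V} (c : (Nd J V → Nd J V) → β)
    {f : J → Finset V} {o : J} {a b : V} (h : IS P f o a b) (hc : P.Crit) (hP : P.Phi R 0)
    {μ : Nd J V → Nd J V} (hμ : IsM (P.E R) μ) (e1 : cov μ = 2 * P.sv f) (e2 : P.cw μ = P.cf f) :
    ∃ ν, Opt (P.E R) (P.om 0) c μ ν ∧ TO P μ ν := by
  have := h.sv; have := h.cf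
  obtain ⟨ν, hν⟩ := exists_opt c (fun _ _ => E_symm _) (om_symm 0) hμ
    (hP.improve hμ e1 e2 (by omega))
  exact ⟨ν, hν, tc_opt hc hν (by omega) (by omega)⟩

theorem feasible_of_real {g : J → Finset V} (h : Disj g) (h2 : 2 * Fintype.card J ≤ 2 * P.sv g) :
    P.Feasible := by
  classical
  have : (univ.filter fun j => P.Serv j (g j)) = univ := eq_univ_of_card _ (le_antisymm
    (card_le_univ _) (by unfold sv at h2; convert Nat.le_of_mul_le_mul_left h2 two_pos))
  exact ⟨g, h, fun j => (mem_filter.1 (this.ge (mem_univ j))).2⟩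

/-- A realisation in which the agents of `A` may be unserved. -/
theorem Asg.ps {ν : Nd J V → Nd J V} {π : J → Finset V} {L : V → Prop} [DecidablePred L]
    {φ : V → J} {R : Rx J V} (h : Asg ν π L φ) (hν : IsM (P.E R) ν)
    (hc : 2 * Fintype.card J ≤ cov ν) (A : Finset J) (S : Finset V)
    (s1 : ∀ j, j ∉ A → ν (ag j) ≠ ag j → P.Serv j (rz ν π L φ j))
    (s2 : ∀ q ∈ Pq ν L, φ q ∉ A → P.Serv (φ q) (rz ν π L φ (φ q)))
    (s3 : ∀ v ∈ S, (∃ j ∈ A, v ∈ rz ν π L φ j) ∨ (ν (vx v) = vx v ∧ ∀ j, j ∉ A → v ∉ π j)) :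
    P.PS (rz ν π L φ) A S := by
  refine ⟨fun i j v _ _ => h.disj_rz.eq, fun j hj => ?_, fun j v hj hv e => ?_⟩
  · rcases h.onto hν hc j with a | ⟨q, hq, rfl⟩
    exacts [s1 j hj a, s2 q hq hj]
  · rcases s3 v hv with ⟨i, hi, a⟩ | ⟨a, b⟩
    · exact hj (h.disj_rz.eq a e ▸ hi)
    · exact b j hj ((h.mem_unc a).1 e)

end AP

end Pool.Agent.Lib.MP_ef7581_lc
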