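import Mathlib
import Pool.Agent.Lib.MP_ef7581_lc.TC0

/-!
The critical case with an independent free pair on which no deficient agent is split.
-/

set_option autoImplicit false
set_option linter.unusedSectionVars false

namespace Pool.Agent.Lib.MP_ef7581_lc

open Finset

namespace AP

variable {J V : Type} {P : AP J V} [Fintype J] [Fintype V] [DecidableEq J] [DecidableEq V]

theorem AB_of {D : Dat J V} {j : J} {v : V} (hj : P.JD j) (hv : P.W v) : P.A D j v ∨ P.B D j v :=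
  (tri3 j v).resolve_left (dm0 hj hv)

theorem TO.pairW {μ ν : Nd J V → Nd J V} (t : TO P μ ν) {q u : V} (e : ν (vx q) = vx u) : P.W q :=
  t.w q fun j e' => by rw [e] at e'; simp at e'

theorem TO.unmJ {μ ν : Nd J V → Nd J V} (t : TO P μ ν) {j : J} (e : ν (ag j) = ag j) : P.JD j :=
  t.jd j fun v e' => by rw [e] at e'; simp at e'

theorem TO.ncJ {μ ν : Nd J V → Nd J V} (t : TO P μ ν) {j : J} {v : V} (e : ν (ag j) = vx v)
    (hc : P.col j v ≠ none) : P.JD j :=
  t.jd j fun w e' => by rw [e] at e'; exact (by simpa using e' : v = w) ▸ hc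

theorem TO.duJ {μ ν : Nd J V → Nd J V} (t : TO P μ ν) {j : J} (e : ν (ag j) = dm j) : P.JD j :=
  t.jd j fun v e' => by rw [e] at e'; simp at e'

theorem frameR (T : TC P) {D : Dat J V} {μ ν : Nd J V → Nd J V} (F : P.Fr D μ) (h : P.Op D 0 μ ν)
    (t : TO P μ ν) (h2 : D.ρ.card = 2) (hall : ∀ p, μ (vx p) = vx p → D.Pi p) (hO : ∀ j, ¬ D.O j)
    (rig : ∀ j, P.JD j → D.HM j ∧ ∀ p ∈ D.ρ, P.A D j p)
    (h0 : cov μ + 2 ≤ Fintype.card V + P.cw μ) : False := by
  classical
  obtain ⟨a0, ha0⟩ : D.ρ.Nonempty := card_pos.1 (by omega)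
  have : Inhabited V := ⟨a0⟩
  have hρU : ∀ p ∈ D.ρ, μ (vx p) = vx p := fun p hp => F.piU p (F.ρPi p hp)
  have zA : ∀ j q, P.JD j → ¬ D.Z q → ¬ P.A D j q := fun j q hj z a => by
    obtain ⟨p, hp, hH⟩ := F.nz q z; exact ((rig j hj).2 p hp).AA a hH
  have nored : ∀ j v, ν (ag j) = vx v → P.col j v ≠ none → D.HM j ∧ P.B D j v ∧ D.Z v := by
    intro j v e hc
    obtain ⟨hm, s | ⟨t1, t2⟩⟩ := nc_iff.1 ((edge_av h.hν e).resolve_left hc)
    exacts [⟨hm, s⟩, absurd t1 (zA j v (t.ncJ e hc) t2)]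
  have hd : ∀ j, ν (ag j) ≠ dm j := fun j e => du_iff.1 (edge_ad h.hν e) (rig j (t.duJ e)).1
  obtain ⟨φ, f1, f2, f3⟩ := F.owners h
  have pool := Fr.pool h (fun p x _ => hall p x) h0
  obtain ⟨π, p1, p2⟩ := F.partners h ∅ nored (by rw [card_empty]; omega) (Or.inl rfl)
    (fun j hj _ => by
      obtain ⟨v, e, hc⟩ := mem_NC.1 hj
      exact ⟨D.ρ, Subset.rfl, h2.ge, (rig j (t.ncJ e hc)).2⟩)
    (fun j v p e hc _ hp _ => (rig j (t.ncJ e hc)).2 p hp) fun j hj => absurd hj (hO j)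
  have ha := asg_mk h.hν (Rs := ∅) (fun q hq => (f1 q hq).2) f2 p1 (fun i hi => by
    obtain ⟨v, e, hc⟩ := mem_NC.1 hi
    exact ⟨(p2 i v e hc).2.1, by simp⟩) (by simp) (Or.inl rfl)
  set g := rz ν (mkP ν (P.NC ν) π ∅) (fun v => ¬ D.Z v) φ with hg
  have gN : ∀ j v, ν (ag j) = vx v → P.col j v ≠ none → π j ∈ g j ∧ v ∈ g j := fun j v e hc =>
    ⟨rz_part (mem_mkP.2 (Or.inr ⟨hd j, mem_NC.2 ⟨v, e, hc⟩, rfl⟩)), ha.head e⟩
  have gP : ∀ q u, ¬ D.Z q → u ≠ q → ν (vx q) = vx u → q ∈ g (φ q) ∧ u ∈ g (φ q) :=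
    fun q u z hne e => rz_pair (L := fun v => ¬ D.Z v) z hne e
  have mkPS : ∀ (A : Finset J) (S : Finset V), (∀ q, Cf P D μ ν φ q → φ q ∈ A) →
      (∀ v ∈ S, ∃ j ∈ A, v ∈ g j) → P.PS g A S := by
    intro A S h1 h2
    refine ha.ps h.hν t.cov A S (fun j _ hj => ?_) (fun q hq hA => ?_) fun v hv => Or.inl (h2 v hv)
    · rcases mate_ag h.hν j with e | ⟨v, e, _⟩ | ⟨e, _⟩
      · exact absurd e hj
      · by_cases hc : P.col j v = none
        · exact serv_C (ha.head e) hc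
        · obtain ⟨_, _, _, x4, x5, _⟩ := p2 j v e hc
          exact (x4.good (nored j v e hc).2.1 x5).serv (gN j v e hc).1 (gN j v e hc).2
      · exact absurd e (hd j)
    · obtain ⟨z, u, hne, e⟩ := mem_Pq.1 hq
      rcases f3 q u z hne e with s | s
      · refine s.mono fun x hx => ?_
        simp only [mem_insert, mem_singleton] at hx
        rcases hx with rfl | rfl
        exacts [(gP _ u z hne e).1, (gP q _ z hne e).2]
      · exact absurd (h1 q ⟨s.1, s.2.1, s.2.2.1, u, e, s.2.2.2⟩) hA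
  by_cases hcf : ¬ ∃ q, Cf P D μ ν φ q
  · exact T.nf (mkPS ∅ ∅ (fun q hq => absurd ⟨q, hq⟩ hcf) (by simp)).feasible
  obtain ⟨q, hq⟩ := not_not.1 hcf
  have data : ∀ q, Cf P D μ ν φ q → ∃ u, u ≠ q ∧ ¬ D.Z q ∧ D.Z u ∧ μ (vx q) = vx u ∧
      ν (vx q) = vx u ∧ P.B D (φ q) u ∧ P.A D (D.own q) u ∧ P.B D (D.own q) q ∧
      ∀ j, P.JD j → P.B D j q := by
    rintro q ⟨⟨z, u, t1, t2, t3⟩, _, _, u', t4, t5⟩
    rw [t3] at t4
    exact ⟨u, t1, z, (pair_edge h.hν t3 t1).2.1 z, t2, t3, (by simpa using t4 : u = u') ▸ t5,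
      (F.own q u t2 t1 z).2.1, (F.own q u t2 t1 z).2.2,
      fun j hj => (AB_of hj (t.pairW t3)).resolve_left (zA j q hj z)⟩
  obtain ⟨u, u1, u2, u3, u4, u5, u6, u7, u8, u9⟩ := data q hq
  obtain ⟨e0, he0⟩ := t.ex
  have kill : ∀ i v, ν (ag i) = vx v → P.col i v ≠ none → ¬ P.Kept D μ ν i →
      P.Sp D μ ν i ∨ μ (vx v) = vx v := by
    intro i v e hc hk
    by_cases x : μ (ag i) = vx v
    · exact Or.inl (Or.inr (Or.inr ⟨⟨hO i, v, x, e, hc⟩, fun y => hk ⟨⟨hO i, v, x, e, hc⟩, y⟩⟩))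
    by_cases y : μ (ag i) = ag i
    · exact Or.inl (Or.inl y)
    exact Or.inr (by_contra fun z => F.kill h he0 t.all u5 u4 u1 u2 hq.2.2.1.1 hq.2.2.1.2.1 u6 e x y z
      (nored i v e hc).2.1 (nored i v e hc).2.2 (zA i q (t.ncJ e hc) u2))
  have hold : ∀ (A : Finset J) (S : Finset V), P.PS g A S → 2 * A.card ≤ S.card →
      (∀ v ∈ S, ν (vx v) ≠ vx v) → ∀ p ∈ D.ρ, ν (vx p) = vx p → ∃ i v, ν (ag i) = vx v ∧
        P.col i v ≠ none ∧ π i = p ∧ (P.Sp D μ ν i ∨ μ (vx v) = vx v) := by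
    intro A S ps hc hS p hp u
    obtain ⟨η, ti⟩ := ps.tight T.crit hc
    obtain ⟨j, _, j2⟩ := (ti.cover p).resolve_left fun x => hS p x u
    rcases mem_mkP.1 ((ha.mem_unc u).1 j2) with ⟨_, x⟩ | ⟨_, x, y⟩
    · simp at x
    · obtain ⟨v, e, hc⟩ := mem_NC.1 x
      exact ⟨j, v, e, hc, y.symm, kill j v e hc fun k => (p2 j v e hc).2.2.2.2.2 k (y ▸ hp)⟩
  obtain ⟨ε, e1, e2⟩ := F.sp_end h
  have hsp := card_filter_add_card_filter_not (s := D.ρ) (fun p => ν (vx p) ≠ vx p)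
  obtain ⟨o1, o2⟩ := F.cf_end hq
  have fr := hq.2.2.1
  have jo := t.unmJ fr.2.1
  have io : D.own q ≠ φ q := fun x => hq.2.1 (x ▸ fr.2.1)
  have cu := h.hν.flip u5
  by_cases hdb : ∃ q', Cf P D μ ν φ q' ∧ q' ≠ q
  · obtain ⟨q', hq', qq⟩ := hdb
    obtain ⟨u', v1, v2, v3, v4, v5, v6, v7, v8, v9⟩ := data q' hq'
    obtain ⟨o1', o2'⟩ := F.cf_end hq'
    have cu' := h.hν.flip v5
    have oo : D.own q ≠ D.own q' := fun x => qq (F.cf_inj hq hq' x).symm
    have en : ∀ x, IsEnd μ ν x → x = ag (D.own q) ∨ x = ag (D.own q') := fun x hx => by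
      rcases h.three hx o2 o2' with s | s | s
      exacts [Or.inl s, Or.inr s, absurd (by simpa using s) oo]
    have d1 : q ≠ u' := fun x => u2 (x ▸ v3)
    have d2 : q' ≠ u := fun x => v2 (x ▸ u3)
    have d3 : u ≠ u' := fun x => qq (by rw [x, cu'] at cu; simpa using cu)
    have ps := mkPS {φ q, φ q'} {q, u, q', u'} (fun x hx => by
      rcases en _ (F.cf_end hx).2 with s | s
      · rw [F.cf_inj hx hq (by simpa using s)]; simp
      · rw [F.cf_inj hx hq' (by simpa using s)]; simp) (by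
      simp only [mem_insert, mem_singleton, forall_eq_or_imp, forall_eq, exists_eq_or_imp,
        exists_eq_left]
      exact ⟨Or.inl (gP q u u2 u1 u5).1, Or.inl (gP q u u2 u1 u5).2, Or.inr (gP q' u' v2 v1 v5).1,
        Or.inr (gP q' u' v2 v1 v5).2⟩)
    have c4 : 2 * ({φ q, φ q'} : Finset J).card ≤ ({q, u, q', u'} : Finset V).card := by
      rw [card_insert_of_notMem (a := q) (by simp [u1.symm, qq.symm, d1]),
        card_insert_of_notMem (a := u) (by simp [d2.symm, d3]), card_pair v1.symm]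
      have := card_le_two (a := φ q) (b := φ q'); omega
    have hh : ∀ p ∈ D.ρ, ∃ i v, ν (ag i) = vx v ∧ P.col i v ≠ none ∧ π i = p ∧
        (i = D.own q ∨ i = D.own q') := by
      intro p hp
      obtain ⟨i, v, x1, x2, x3, x4⟩ := hold _ _ ps c4 (by simp [u5, v5, cu, cu', u1, v1, u1.symm,
        v1.symm]) p hp (by_contra fun x => by simpa using en _ (Or.inl ⟨hρU p hp, x⟩))
      refine ⟨i, v, x1, x2, x3, ?_⟩
      rcases x4 with x4 | x4
      · obtain ⟨y1, y | ⟨_, y, _⟩⟩ := e1 i (mem_NC.2 ⟨v, x1, x2⟩) x4 <;> rw [y] at y1 <;>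
          simpa using en _ y1
      · simpa using en _ (Or.inl ⟨x4, by rw [h.hν.flip x1]; simp⟩)
    have key : ∃ b, ν (ag (D.own q)) = vx b ∧ P.col (D.own q) b ≠ none ∧ π (D.own q) ∈ D.ρ := by
      obtain ⟨x, y, xy, e⟩ := card_eq_two.1 h2
      obtain ⟨i, v, x1, x2, x3, rfl | rfl⟩ := hh x (by simp [e])
      · exact ⟨v, x1, x2, by simp [x3, e]⟩
      obtain ⟨i, w, y1, y2, y3, rfl | rfl⟩ := hh y (by simp [e])
      · exact ⟨w, y1, y2, by simp [y3, e]⟩
      · exact absurd (x3.symm.trans y3) xy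
    obtain ⟨b, b1, b2, b3⟩ := key
    obtain ⟨_, b4, b5⟩ := nored _ b b1 b2
    have cb := h.hν.flip b1
    have up := (p2 _ b b1 b2).2.1
    have ps' := ps.un2 (j := D.own q) (by
      simp only [mem_insert, mem_singleton, not_or]
      exact ⟨io, fun x => hq.2.1 (x ▸ hq'.2.2.1.2.1)⟩) (gN _ b b1 b2).1 (gN _ b b1 b2).2
    have ne1 : ∀ x y, ν (vx x) = vx y → y ≠ x → b ≠ x ∧ π (D.own q) ≠ x := fun x y e hne =>
      ⟨fun s => by rw [s, e] at cb; simp at cb, fun s => by rw [s, e] at up; exact hne (by simpa using up)⟩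
    have ne2 : b ≠ π (D.own q) := fun s => by rw [← s, cb] at up; simp at up
    refine T.nf (ps'.sol3 (i := φ q) (j := φ q') (m := D.own q) (by simp) (u := b) (v := q)
      (u' := π (D.own q)) (v' := u') (u'' := u) (v'' := q') (by simp) (by simp) (by simp) (by simp)
      (by simp) (by simp) ((F.ownA h hq.1 b1 b2 b5 fr).good (u9 _ jo) (b4.BB u8))
      ((F.piA _ _ hq'.2.2.1.1 (F.ρPi _ b3)).good v6 (F.zρ _ v3 _ b3))
      (u7.good (v9 _ (t.ncJ b1 b2)) (u6.BB (v9 _ jo))) ?_)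
    simp [(ne1 q u u5 u1).1, ne2, (ne1 u' q' cu' v1.symm).1, (ne1 u q cu u1.symm).1,
      (ne1 q' u' v5 v1).1, (ne1 q u u5 u1).2.symm, d1, u1.symm, qq.symm, (ne1 u' q' cu' v1.symm).2,
      (ne1 u q cu u1.symm).2, (ne1 q' u' v5 v1).2, d3.symm, v1, d2.symm]
  push Not at hdb
  have ps := mkPS {φ q} {q, u} (fun x hx => by rw [hdb x hx]; simp) (by
    simpa using gP q u u2 u1 u5)
  have fin : ∀ i b, ν (ag i) = vx b → P.col i b ≠ none → P.A D (φ q) b →
      (P.A D i u ∨ π i ∈ D.ρ) → False := by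
    intro i b b1 b2 b3 b4
    have ji := t.ncJ b1 b2
    obtain ⟨x1, x2, _, x4, _⟩ := p2 i b b1 b2
    have ps' := ps.un2 (j := i) (by
      rw [mem_singleton]; rintro rfl; rw [fr.2.1] at b1; simp at b1) (gN _ b b1 b2).1 (gN _ b b1 b2).2
    rcases AB_of (D := D) ji (t.pairW cu) with s | s
    · exact T.crossAB ps' (i := i) (j := φ q) (by simp) (u := u) (v := q) (y := b) (p := π i)
        (by simp) (by simp) (by simp) (by simp) s x4 (u9 i ji) (nored i b b1 b2).2.1 u6 (u9 _ jo) b3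
        (F.piA _ _ fr.1 x1)
    · have b5 := b4.resolve_left fun x => x.notB s
      exact T.nf (ps'.sol2 (i := i) (j := φ q) (by simp) (u := π i) (v := u) (u' := b) (v' := q)
        (by simp) (by simp) (by simp) (by simp) (x4.good s (F.zρ u u3 _ b5))
        (b3.good (u9 _ jo) ((nored i b b1 b2).2.1.BB (u9 i ji)))
        (fun x => x4.notB (x ▸ (nored i b b1 b2).2.1)) (fun x => b3.notB (x ▸ u6))
        (fun x => x4.notB (x ▸ u9 i ji)) u1.symm)
  by_cases hN : D.own q ∈ P.NC ν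
  · obtain ⟨b, b1, b2⟩ := mem_NC.1 hN
    exact fin _ b b1 b2 (F.ownA h hq.1 b1 b2 (nored _ b b1 b2).2.2 fr) (Or.inl u7)
  have hh : ∀ p, ∃ i, p ∈ D.ρ → ν (vx p) = vx p → i ∈ P.NC ν ∧ π i = p ∧ P.Sp D μ ν i := by
    intro p
    by_cases x : p ∈ D.ρ ∧ ν (vx p) = vx p
    · obtain ⟨i, v, x1, x2, x3, x4⟩ := hold _ _ ps (by rw [card_singleton, card_pair u1.symm])
        (by simp [u5, cu, u1, u1.symm]) p x.1 x.2
      refine ⟨i, fun _ _ => ⟨mem_NC.2 ⟨v, x1, x2⟩, x3, x4.resolve_right fun y => ?_⟩⟩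
      exact fin i v x1 x2 (F.piA _ _ fr.1 (hall v y)) (Or.inr (x3 ▸ x.1))
    · exact ⟨φ q, fun a b => absurd ⟨a, b⟩ x⟩
  choose α hα using hh
  have hα' : ∀ p ∈ D.ρ.filter fun p => ¬ ν (vx p) ≠ vx p, α p ∈ P.NC ν ∧ π (α p) = p ∧
      P.Sp D μ ν (α p) := fun p hp => hα p (mem_filter.1 hp).1 (not_not.1 (mem_filter.1 hp).2)
  have := ends_card h (insert none ((D.ρ.filter fun p => ¬ ν (vx p) ≠ vx p).image some))
    (fun x => x.elim (ag (D.own q)) fun p => ε (α p)) D.ρ (by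
      intro x hx
      rcases mem_insert.1 hx with rfl | hx
      · exact ⟨o2, by simp⟩
      · obtain ⟨p, hp, rfl⟩ := mem_image.1 hx
        obtain ⟨y1, y2⟩ := e1 _ (hα' p hp).1 (hα' p hp).2.2
        refine ⟨y1, fun z hz s => ?_⟩
        rcases y2 with y | ⟨w, y, y3, _⟩ <;> simp only [Option.elim, y] at s
        · simp at s
        · exact y3 ((by simpa using s : w = z) ▸ hz)) (by
      have key : ∀ p ∈ D.ρ.filter fun p => ¬ ν (vx p) ≠ vx p, ε (α p) ≠ ag (D.own q) := by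
        intro p hp s
        rcases (e1 _ (hα' p hp).1 (hα' p hp).2.2).2 with y | ⟨w, y, _⟩ <;> rw [y] at s
        · exact hN ((by simpa using s : α p = D.own q) ▸ (hα' p hp).1)
        · simp at s
      intro x hx y hy s
      rcases mem_insert.1 (mem_coe.1 hx) with rfl | hx <;> rcases mem_insert.1 (mem_coe.1 hy) with rfl | hy
      · rfl
      · obtain ⟨p, hp, rfl⟩ := mem_image.1 hy; exact absurd s.symm (key p hp)
      · obtain ⟨p, hp, rfl⟩ := mem_image.1 hx; exact absurd s (key p hp)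
      · obtain ⟨p, hp, rfl⟩ := mem_image.1 hx
        obtain ⟨p', hp', rfl⟩ := mem_image.1 hy
        have := e2 _ (hα' p hp).1 _ (hα' p' hp').1 (hα' p hp).2.2 (hα' p' hp').2.2 s
        rw [← (hα' p hp).2.1, ← (hα' p' hp').2.1, this]) hρU
  rw [card_insert_of_notMem (by simp), card_image_of_injective _ (Option.some_injective _)] at this
  omega

/-- Majority data of a reference pair. -/
theorem maj2_facts {f : J → Finset V} {μ : Nd J V → Nd J V} {a b : V} {O : J → Prop} {j0 : J}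
    {v0 : V} (D : Dat J V) (hD : D = mkD P f μ (P.Z2 a b) (P.Maj2 a b) {a, b} O j0 v0) (j : J) :
    (D.HM j → P.A D j a ∧ P.A D j b) ∧ (P.col j a ≠ none → P.col j a = P.col j b → D.HM j) := by
  subst hD
  constructor
  · rintro ⟨x, hx⟩
    have e := ((maj_iff (maj2_uniq a b)).1 hx).2
    subst e; exact hx
  · intro h1 h2
    obtain ⟨x, hx⟩ := Option.ne_none_iff_exists'.1 h1
    exact ⟨x, hx, h2 ▸ hx⟩

theorem tcR (T : TC P) {f : J → Finset V} {o : J} {a b : V} (h : IS P f o a b) (hH : ¬ P.H a b)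
    (hR : ∀ j, P.JD j → P.col j a = P.col j b) (hP : P.Phi (P.Gam2 a b) 0) : False := by
  classical
  obtain ⟨jo, wa, wb, jp⟩ := h.jd T.crit
  have base : ∀ (μ : Nd J V → Nd J V) j, P.JD j →
      (mkD P f μ (P.Z2 a b) (P.Maj2 a b) {a, b} (fun _ => False) o a).HM j ∧
      P.A (mkD P f μ (P.Z2 a b) (P.Maj2 a b) {a, b} (fun _ => False) o a) j a ∧
      P.A (mkD P f μ (P.Z2 a b) (P.Maj2 a b) {a, b} (fun _ => False) o a) j b := fun μ j hj =>
    ⟨(maj2_facts _ rfl j).2 (dm0 hj wa) (hR j hj),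
      (maj2_facts _ rfl j).1 ((maj2_facts _ rfl j).2 (dm0 hj wa) (hR j hj))⟩
  obtain ⟨μ, hμ, im⟩ := exists_imgD (D := mkD P f id (P.Z2 a b) (P.Maj2 a b) {a, b}
    (fun _ => False) o a) h.norm fun j u v e hg _ hA _ _ =>
      ⟨(base id j (jp j u v e hg).1).2.1.AA hA, (base id j (jp j u v e hg).1).2.2.AA hA⟩
  replace base := base μ
  set D := mkD P f μ (P.Z2 a b) (P.Maj2 a b) {a, b} (fun _ => False) o a with hD
  change IsM (P.E (P.RD D)) μ at hμ
  change ImgD P D f μ at im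
  have zA : ∀ j u, P.JD j → P.A D j u → D.Z u := fun j u hj hA =>
    ⟨(base j hj).2.1.AA hA, (base j hj).2.2.AA hA⟩
  have nodum : ∀ j, μ (ag j) ≠ dm j := fun j e => by
    obtain ⟨u, v, e1, hg, hn, _⟩ := im.dum e
    exact hn (base j (jp j u v e1 hg).1).1
  have hall : ∀ p, μ (vx p) = vx p → D.Z p := fun p e => by
    rcases im.unc hμ.1 e with t | ⟨j, v, e1, hg, _, hA, _⟩ | ⟨j, _, _, _, _, t⟩
    · rw [h.fr] at t
      rcases mem_insert.1 t with rfl | t
      · exact zA o _ jo (base o jo).2.1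
      · rw [mem_singleton.1 t]; exact zA o _ jo (base o jo).2.2
    · exact zA j p (jp j p v e1 hg).1 hA
    · exact absurd t (nodum j)
  have unm : ∀ i, μ (ag i) = ag i → P.JD i := fun i hi => by
    rcases im.unm hi with e | ⟨u, v, e, hg, _⟩
    · exact (by_contra fun t => h.srv i t e : i = o) ▸ jo
    · exact (jp i u v e hg).1
  have dj : ∀ {i j : J} {x y : V}, i ≠ j → x ∈ f i → y ∈ f j → x ≠ y := fun hij hx hy e =>
    hij (h.norm.1.eq hx (e ▸ hy))
  have F : P.Fr D μ := fr_of_img D hD h.norm.1 hμ.1 im (fun i x hi e _ => by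
      rcases im.unc hμ.1 e with t | ⟨j, w, e1, hg, hm, hA, hb, zw, e2⟩ | ⟨j, _, _, _, _, t⟩
      · rw [h.fr] at t
        rcases mem_insert.1 t with rfl | t
        · exact (base i (unm i hi)).2.1
        · rw [mem_singleton.1 t]; exact (base i (unm i hi)).2.2
      · obtain ⟨jj, wx, ww⟩ := jp j x w e1 hg
        have mx : x ∈ f j := by simp [e1]
        have mw : w ∈ f j := by simp [e1]
        have ps := h.ps.un2 (j := j) (by simpa using h.ne_o e1) mx mw
        have xa : x ≠ a := fun s => h.na j (s ▸ mx)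
        have xb : x ≠ b := fun s => h.nb j (s ▸ mx)
        have wa' : w ≠ a := fun s => h.na j (s ▸ mw)
        have wb' : w ≠ b := fun s => h.nb j (s ▸ mw)
        have ox : P.A D o x := (T.mono (ps.serve2 (j := j) (u := a) (v := w) (by simp) (by simp)
          ((base j jj).2.1.good hb zw.1) (A' := {o}) (S' := {x, b}) (by simp)
          (by simp [xa, hg.ne, h.ne.symm, wb'.symm])) (hA.AA (base j jj).2.2)).trans (base o jo).2.2
        rcases im.unm hi with e3 | ⟨u, v, e3, hg', _, iu, iv, zv, zu, _⟩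
        · exact (by_contra fun t => h.srv i t e3 : i = o) ▸ ox
        have ij : i ≠ j := by rintro rfl; rw [hi] at e2; simp at e2
        obtain ⟨ji, wu, wv⟩ := jp i u v e3 hg'
        refine (AB_of ji wx).resolve_right fun ix => ?_
        have mu : u ∈ f i := by simp [e3]
        have mv : v ∈ f i := by simp [e3]
        have ps3 := ps.un2 (j := i) (by simpa using ⟨ij, h.ne_o e3⟩) mu mv
        have vB : ∀ k, P.JD k → P.B D k v := fun k hk =>
          (AB_of hk wv).resolve_left fun s => zv (zA k v hk s)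
        have d1 := dj ij mu mx; have d2 := dj ij mu mw; have d3 := dj ij mv mx; have d4 := dj ij mv mw
        have ua : u ≠ a := fun s => h.na i (s ▸ mu)
        have ub : u ≠ b := fun s => h.nb i (s ▸ mu)
        have va : v ≠ a := fun s => h.na i (s ▸ mv)
        have vb : v ≠ b := fun s => h.nb i (s ▸ mv)
        rcases AB_of (D := D) jo wu with s | s
        · exact T.nf (ps3.sol3 (i := o) (j := i) (m := j) (by simp) (u := u) (v := v) (u' := a)
            (v' := x) (u'' := b) (v'' := w) (by simp) (by simp) (by simp) (by simp) (by simp) (by simp)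
            (s.good (vB o jo) hg'.2.2.2) ((base i ji).2.1.good ix ((base j jj).2.1.AA hA))
            ((base j jj).2.2.good hb zw.2)
            (by simp [*, hg'.ne, hg.ne, h.ne, xa.symm, wa'.symm, wb'.symm]))
        rcases AB_of (D := D) ji ww with s' | s'
        · exact T.crossAB (ps3.serve2 (j := o) (u := b) (v := u) (by simp) (by simp)
            ((base o jo).2.2.good s zu.2) (A' := {j, i}) (S' := {x, v, w, a}) (by simp)
            (by simp [*, h.ne, d1.symm, d2.symm, hg'.ne.symm, ua.symm])) (i := j) (j := i) (by simp)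
            (u := x) (v := v) (y := w) (p := a) (by simp) (by simp) (by simp) (by simp)
            hA (base j jj).2.1 (vB j jj) hb ix iv s' (base i ji).2.1
        · exact T.nf (ps3.sol3 (i := j) (j := i) (m := o) (by simp) (u := x) (v := v) (u' := a)
            (v' := w) (u'' := b) (v'' := u) (by simp) (by simp) (by simp) (by simp) (by simp) (by simp)
            (hA.good (vB j jj) (ix.BB iv)) ((base i ji).2.1.good s' zw.1)
            ((base o jo).2.2.good s zu.2)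
            (by simp [*, hg.ne, h.ne, d1.symm, d2.symm, d3.symm, hg'.ne.symm, wa'.symm, ua.symm,
              ub.symm]))
      · exact absurd t (nodum j))
    (fun i hi => (base i (unm i hi)).1)
    (fun q hq => by unfold Z2 at hq; simp only [mem_insert, mem_singleton, exists_eq_or_imp,
      exists_eq_left]; tauto)
    (fun v hv => by simpa [Z2] using hv)
    (fun x hx => ⟨im.freeU (h.fr ▸ hx), hall x (im.freeU (h.fr ▸ hx))⟩) (by have := h.sv; omega)
    fun j u v e _ e2 _ => ⟨hall u e2, fun t => mem_free.1 (h.fr ▸ t) j (by simp [e])⟩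
  have hPhi : P.Phi (P.RD D) 0 := by rw [hD, RD_mkD (maj2_uniq a b)]; exact hP
  obtain ⟨ν, hν, t⟩ := h.opt (P.cst D μ) T.crit hPhi hμ im.cov im.cw
  refine frameR T F hν t (card_pair h.ne) (fun p e => ⟨e, hall p e⟩) (fun j hj => hj)
    (fun j hj => ⟨(base j hj).1, fun p hp => ?_⟩) ?_
  · rcases mem_insert.1 hp with rfl | s
    · exact (base j hj).2.1
    · rw [mem_singleton.1 s]; exact (base j hj).2.2
  · have := h.norm.card
    rw [h.fr, card_pair h.ne] at this
    rw [im.cov, im.cw]; omega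

end AP

end Pool.Agent.Lib.MP_ef7581_lc
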