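import Mathlib
import Pool.Agent.Lib.MP_ef7581_lc.TCR

/-!
The critical case with an independent free pair, a split deficient agent and a rigid side-served
agent.
-/

set_option autoImplicit false
set_option linter.unusedSectionVars false

namespace Pool.Agent.Lib.MP_ef7581_lc

open Finset

namespace AP

variable {J V : Type} {P : AP J V} [Fintype J] [Fintype V] [DecidableEq J] [DecidableEq V]

theorem third {ρ : Finset V} (h3 : ρ.card = 3) {x y : V} (hx : x ∈ ρ) (hy : y ∈ ρ) (xy : x ≠ y) :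
    ∃ z ∈ ρ, z ≠ x ∧ z ≠ y ∧ ∀ w ∈ ρ, w = x ∨ w = y ∨ w = z := by
  obtain ⟨z, hz, hn⟩ := exists_mem_notMem_of_card_lt_card (s := {x, y}) (t := ρ)
    (by rw [card_pair xy]; omega)
  simp only [mem_insert, mem_singleton, not_or] at hn
  have : ({x, y, z} : Finset V) = ρ := eq_of_subset_of_card_le (by simp [insert_subset_iff, *])
    (by rw [h3, card_eq_three.2 ⟨x, y, z, xy, Ne.symm hn.1, Ne.symm hn.2, rfl⟩])
  exact ⟨z, hz, hn.1, hn.2, fun w hw => by simpa [← this] using hw⟩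

/-- A split deficient agent forbids common `H`-neighbours in `W`. -/
theorem nonR_nbr {z : J} {a b v : V} (jz : P.JD z) (wa : P.W a) (wb : P.W b) (wv : P.W v)
    (hz : P.col z a ≠ P.col z b) (h1 : P.H a v) : ¬ P.H b v := fun h2 =>
  hz (opt_third (dm0 jz wa) (dm0 jz wv) (dm0 jz wb) (P.compat z a v h1 (dm0 jz wa))
    (P.compat z b v h2 (dm0 jz wb)))

/-- The pair of a rigid agent has no conflict with the unserved agent. -/
theorem nonR_noconf (T : TC P) {D : Dat J V} {f : J → Finset V} {o z j : J} {a b u v : V}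
    (h : IS P f o a b) (jz : P.JD z) (hz : P.col z a ≠ P.col z b) (e : f j = {u, v})
    (hg : P.Good j u v) (ja : P.A D j a) (jb : P.A D j b) (jv : P.B D j v) (oa : P.A D o a)
    (ob : P.A D o b) (h1 : ¬ P.H a u) (h2 : ¬ P.H b u) : ¬ P.B D o u := by
  intro hB
  obtain ⟨_, wa, wb, jp⟩ := h.jd T.crit
  have ps := h.ps.un2 (j := j) (by simpa using h.ne_o e) (u := u) (v := v) (by simp [e]) (by simp [e])
  have ua : u ≠ a := fun s => h.na j (by simp [e, s])
  have ub : u ≠ b := fun s => h.nb j (by simp [e, s])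
  have va : v ≠ a := fun s => h.na j (by simp [e, s])
  have vb : v ≠ b := fun s => h.nb j (by simp [e, s])
  by_cases hH : P.H a v
  · exact T.nf (ps.sol2 (i := o) (j := j) (by simp) (u := a) (v := u) (u' := b) (v' := v) (by simp)
      (by simp) (by simp) (by simp) (oa.good hB h1)
      (jb.good jv (nonR_nbr jz wa wb (jp j u v e hg).2.2 hz hH)) h.ne.symm ub.symm va hg.ne.symm)
  · exact T.nf (ps.sol2 (i := o) (j := j) (by simp) (u := b) (v := u) (u' := a) (v' := v) (by simp)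
      (by simp) (by simp) (by simp) (ob.good hB h2) (ja.good jv hH) h.ne ua.symm vb hg.ne.symm)

/-- Handing the pair of `j` to the unserved agent. -/
theorem IS.swap (T : TC P) {f : J → Finset V} {o j : J} {a b u v : V} (h : IS P f o a b)
    (e : f j = {u, v}) (hg : P.Good o u v) :
    ∃ g, IS P g j a b ∧ ∀ i, i ≠ j → i ≠ o → g i = f i := by
  have ps := h.ps.un2 (j := j) (by simpa using h.ne_o e) (u := u) (v := v) (by simp [e]) (by simp [e])
  have ua : a ≠ u := fun s => h.na j (by simp [e, s])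
  have ub : b ≠ u := fun s => h.nb j (by simp [e, s])
  have va : a ≠ v := fun s => h.na j (by simp [e, s])
  have vb : b ≠ v := fun s => h.nb j (by simp [e, s])
  obtain ⟨g, g1, g2⟩ := (ps.serve2 (j := o) (u := u) (v := v) (by simp) (by simp) hg (A' := {j})
    (S' := {a, b}) (by simp) (by simp [*])).toIS h.ne T.crit
  exact ⟨g, g1, fun i h1 h2 => by rw [g2 i h1, Function.update_of_ne h2]⟩

section
variable (T : TC P) {D : Dat J V} (Tr : TriD P D) {a b r v0 : V} {o0 : J} (hρ : D.ρ = {a, b, r})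
  (g0 : P.Good o0 r v0) (hA0 : ∀ p ∈ D.ρ, P.A D o0 p) (hB0 : P.B D o0 v0) (z0 : D.Z v0)
include T Tr hρ g0 hA0 hB0 z0

theorem i_base {f : J → Finset V} {o : J} (h : IS P f o a b) (e0 : f o0 = {r, v0}) :
    P.PS f {o0, o} (insert v0 D.ρ) ∧ (∀ p ∈ D.ρ, P.W p) ∧ (∀ j, j ≠ o0 → ∀ p ∈ f j, p ∉ insert v0 D.ρ) ∧
      (∀ j, P.JD j → D.HM j) ∧ ∀ p ∈ D.ρ, P.A D o p := by
  obtain ⟨jo, wa, wb, jp⟩ := h.jd T.crit
  have ps : P.PS f {o0, o} (insert v0 D.ρ) := (h.ps.un2 (j := o0) (by simpa using h.ne_o e0)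
    (u := r) (v := v0) (by simp [e0]) (by simp [e0])).mono (fun _ x => x) (by simp [hρ])
  have w : ∀ p ∈ D.ρ, P.W p := by simpa [hρ] using ⟨wa, wb, (jp o0 r v0 e0 g0).2.1⟩
  have hm : ∀ j, P.JD j → D.HM j := fun j hj => Tr.hm fun p hp => dm0 hj (w p hp)
  refine ⟨ps, w, fun j hj p hp s => ?_, hm, fun p hp => ?_⟩
  · by_cases x : j = o
    · rw [x, h.em] at hp; simp at hp
    · exact ps.avoid j p (by simp [hj, x]) s hp
  · obtain ⟨c, hc, ne, hA⟩ := Tr.other (hm o jo) p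
    obtain ⟨t, ht, t1, t2, _⟩ := third Tr.h3 hp hc ne.symm
    have nv : ∀ x ∈ D.ρ, x ≠ v0 := fun x hx s => (hA0 x hx).notB (s ▸ hB0)
    exact (T.mono (ps.serve2 (j := o0) (u := t) (v := v0) (by simp [ht]) (by simp)
      ((hA0 t ht).good hB0 ((Tr.hZ v0).1 z0 t ht)) (A' := {o}) (S' := {p, c}) (by simp)
      (by simp [hp, hc, t1.symm, t2.symm, nv p hp, nv c hc])) ((hA0 p hp).AA (hA0 c hc))).trans hA

theorem i_F1 {f : J → Finset V} {o j : J} {u v : V} (h : IS P f o a b) (e0 : f o0 = {r, v0})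
    (e : f j = {u, v}) (hg : P.Good j u v) (hA : P.A D j u) (hB : P.B D j v) (z : ¬ D.Z v) :
    ∀ p ∈ D.ρ, P.A D j p := by
  intro t ht
  by_cases j0 : j = o0
  · exact j0 ▸ hA0 t ht
  by_contra hn
  obtain ⟨ps, w, av, hm, oA⟩ := i_base T Tr hρ g0 hA0 hB0 z0 h e0
  clear hρ
  obtain ⟨jo, _, _, jp⟩ := h.jd T.crit
  obtain ⟨jj, wu, wv⟩ := jp j u v e hg
  obtain ⟨j0', _, wv0⟩ := jp o0 r v0 e0 g0
  have tB := (AB_of jj (w t ht)).resolve_left hn
  obtain ⟨c, hc, hH⟩ := Tr.nz z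
  have cA : P.A D j c := (hB.nbr (P.symm _ _ hH)).resolve_left (dm0 jj (w c hc))
  have ct : c ≠ t := fun s => hn (s ▸ cA)
  obtain ⟨c', hc', n1, n2, all⟩ := third Tr.h3 hc ht ct
  have cA' : P.A D j c' := by
    obtain ⟨x, hx, ne, xA⟩ := Tr.other (hm j jj) c
    rcases all x hx with s | s | s
    exacts [absurd s ne, absurd (s ▸ xA) hn, s ▸ xA]
  have ps3 := ps.un2 (j := j) (by simpa using ⟨j0, h.ne_o e⟩) (u := u) (v := v) (by simp [e])
    (by simp [e])
  have au := av j j0 u (by simp [e])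
  have avv := av j j0 v (by simp [e])
  have nu : ∀ x ∈ D.ρ, u ≠ x := fun x hx s => au (by simp [s, hx])
  have nv : ∀ x ∈ D.ρ, v ≠ x := fun x hx s => avv (by simp [s, hx])
  have n0 : ∀ x ∈ D.ρ, x ≠ v0 := fun x hx s => (hA0 x hx).notB (s ▸ hB0)
  have uv0 : u ≠ v0 := fun s => au (by simp [s])
  have vv0 : v ≠ v0 := fun s => avv (by simp [s])
  have ov : P.B D o v := ((oA c hc).nbr hH).resolve_left (dm0 jo wv)
  have o0v : P.B D o0 v := ((hA0 c hc).nbr hH).resolve_left (dm0 j0' wv)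
  have zv := (Tr.hZ v0).1 z0
  rcases AB_of (D := D) jo wu with s | s
  · exact T.nf (ps3.sol3 (i := o) (j := j) (m := o0) (by simp) (u := u) (v := v) (u' := c')
      (v' := t) (u'' := c) (v'' := v0) (by simp) (by simp) (by simp [hc']) (by simp [ht])
      (by simp [hc]) (by simp) (s.good ov hg.2.2.2) (cA'.good tB ((oA c' hc').AA (oA t ht)))
      ((hA0 c hc).good hB0 (zv c hc)) (by simp [*, hg.ne, ct.symm]))
  rcases AB_of (D := D) jj wv0 with s' | s'
  · exact T.crossAB (ps3.serve2 (j := o) (u := c') (v := u) (by simp [hc']) (by simp)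
      ((oA c' hc').good s (cA'.AA hA)) (A' := {o0, j}) (S' := {t, v, v0, c}) (by simp)
      (by simp [*, n1.symm, n2.symm, (nu t ht).symm, hg.ne.symm, (n0 c' hc').symm, uv0.symm,
        (nu c hc).symm])) (i := o0) (j := j) (by simp)
      (u := t) (v := v) (y := v0) (p := c) (by simp) (by simp) (by simp) (by simp)
      (hA0 t ht) (hA0 c hc) o0v hB0 tB hB s' cA
  · exact T.nf (ps3.sol3 (i := o) (j := j) (m := o0) (by simp) (u := c) (v := u) (u' := c')
      (v' := v0) (u'' := t) (v'' := v) (by simp [hc]) (by simp) (by simp [hc']) (by simp)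
      (by simp [ht]) (by simp) ((oA c hc).good s (cA.AA hA)) (cA'.good s' (zv c' hc'))
      ((hA0 t ht).good o0v (tB.BB hB))
      (by simp [*, hg.ne, n1.symm, (nu c hc).symm, (nv c hc).symm, (nv c' hc').symm,
        (n0 t ht).symm, vv0.symm, (nv t ht).symm]))

theorem i_hidden {f : J → Finset V} {o j : J} {u v : V} (h : IS P f o a b) (e0 : f o0 = {r, v0})
    (e : f j = {u, v}) (hg : P.Good j u v) (hA : P.A D j u) (hB : P.B D j v) (z : D.Z v) :
    P.A D o u := by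
  obtain ⟨ps, w, av, hm, oA⟩ := i_base T Tr hρ g0 hA0 hB0 z0 h e0
  by_cases j0 : j = o0
  · subst j0
    have : u ∈ ({r, v0} : Finset V) := by rw [← e0, e]; simp
    rcases mem_insert.1 this with s | s
    · exact oA u (by simp [hρ, s])
    · exact absurd hB0 (mem_singleton.1 s ▸ hA).notB
  clear hρ
  obtain ⟨jj, _⟩ := (h.jd T.crit).2.2.2 j u v e hg
  obtain ⟨c, hc, c', hc', cc, cA, cA'⟩ := Tr.hmaj j (hm j jj)
  obtain ⟨t, ht, t1, t2, _⟩ := third Tr.h3 hc hc' cc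
  have ps3 := ps.un2 (j := j) (by simpa using ⟨j0, h.ne_o e⟩) (u := u) (v := v) (by simp [e])
    (by simp [e])
  have au := av j j0 u (by simp [e])
  have avv := av j j0 v (by simp [e])
  have nu : ∀ x ∈ D.ρ, u ≠ x := fun x hx s => au (by simp [s, hx])
  have nv : ∀ x ∈ D.ρ, v ≠ x := fun x hx s => avv (by simp [s, hx])
  have n0 : ∀ x ∈ D.ρ, x ≠ v0 := fun x hx s => (hA0 x hx).notB (s ▸ hB0)
  have uv0 : u ≠ v0 := fun s => au (by simp [s])
  have vv0 : v ≠ v0 := fun s => avv (by simp [s])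
  exact (T.mono ((ps3.serve2 (j := o0) (u := t) (v := v0) (by simp [ht]) (by simp)
    ((hA0 t ht).good hB0 ((Tr.hZ v0).1 z0 t ht)) (A' := {j, o}) (S' := {u, v, c, c'}) (by simp)
    (by simp [*, t1.symm, t2.symm])).serve2 (j := j) (u := c) (v := v) (by simp) (by simp)
    (cA.good hB ((Tr.hZ v).1 z c hc)) (A' := {o}) (S' := {u, c'}) (by simp)
    (by simp [*, hg.ne, cc.symm, (nv c' hc').symm])) (hA.AA cA')).trans (oA c' hc')

end

theorem tcI (T : TC P) {f : J → Finset V} {o o0 z : J} {a b r v0 : V} (h : IS P f o a b)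
    (jz : P.JD z) (hz : P.col z a ≠ P.col z b) (e0 : f o0 = {r, v0}) (g0 : P.Good o0 r v0)
    (c1 : P.col o0 a = P.col o0 r) (c2 : P.col o0 b = P.col o0 r) (h1 : ¬ P.H a v0)
    (h2 : ¬ P.H b v0) (hP : P.Phi (P.GamA a b r) 0) : False := by
  classical
  have ar : a ≠ r := fun s => h.na o0 (by simp [e0, s])
  have br : b ≠ r := fun s => h.nb o0 (by simp [e0, s])
  have base : ∀ μ : Nd J V → Nd J V,
      (∀ p ∈ (mkD P f μ (P.Z3 a b r) (P.MajA a b r) {a, b, r} (· = o0) o a).ρ,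
        P.A (mkD P f μ (P.Z3 a b r) (P.MajA a b r) {a, b, r} (· = o0) o a) o0 p) ∧
      P.B (mkD P f μ (P.Z3 a b r) (P.MajA a b r) {a, b, r} (· = o0) o a) o0 v0 := by
    intro μ
    obtain ⟨x, hx⟩ := Option.ne_none_iff_exists'.1 g0.1
    have m : P.MajA a b r o0 x := Or.inl ⟨c1.trans hx, c2.trans hx⟩
    obtain ⟨_, rfl⟩ := (maj_iff (majA_uniq a b r)).1 m
    have hr : P.A (mkD P f μ (P.Z3 a b r) (P.MajA a b r) {a, b, r} (· = o0) o a) o0 r := hx
    refine ⟨fun p hp => ?_, ((tri3 o0 v0).resolve_left g0.2.1).resolve_left fun s =>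
      g0.2.2.1 (hr.trans s.symm)⟩
    simp only [mkD, mem_insert, mem_singleton] at hp
    rcases hp with rfl | rfl | rfl
    exacts [c1.trans hx, c2.trans hx, hx]
  have z0 : P.Z3 a b r v0 := ⟨h1, h2, g0.2.2.2⟩
  obtain ⟨μ, hμ, im⟩ := exists_imgD (D := mkD P f id (P.Z3 a b r) (P.MajA a b r) {a, b, r}
    (· = o0) o a) h.norm fun j u v e hg hm hA hB z => by
      have Tr := triD_mk (P := P) (f := f) (μ := id) h.ne ar br (· = o0) o a
      exact (Tr.hZ u).2 fun p hp =>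
        (i_F1 T Tr rfl g0 (base id).1 (base id).2 z0 h e0 e hg hA hB z p hp).AA hA
  obtain ⟨hA0, hB0⟩ := base μ
  set D := mkD P f μ (P.Z3 a b r) (P.MajA a b r) {a, b, r} (· = o0) o a with hD
  have Tr : TriD P D := triD_mk h.ne ar br _ _ _
  change IsM (P.E (P.RD D)) μ at hμ
  change ImgD P D f μ at im
  have hρ : D.ρ = {a, b, r} := rfl
  have ma : a ∈ D.ρ := by simp [hρ]
  have mb : b ∈ D.ρ := by simp [hρ]
  obtain ⟨_, _, av, hm, oA⟩ := i_base T Tr hρ g0 hA0 hB0 z0 h e0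
  obtain ⟨jo, _, _, jp⟩ := h.jd T.crit
  have nodum : ∀ j, μ (ag j) ≠ dm j := fun j e => by
    obtain ⟨u, v, e1, hg, hn, _⟩ := im.dum e
    exact hn (hm j (jp j u v e1 hg).1)
  have not0 : ∀ j u v, f j = {u, v} → P.B D j v → ¬ D.Z v → j ≠ o0 := by
    rintro j u v e hb z rfl
    have : v ∈ ({r, v0} : Finset V) := by rw [← e0, e]; simp
    rcases mem_insert.1 this with s | s
    · exact (hA0 r (by simp [hρ])).notB (s ▸ hb)
    · exact z (mem_singleton.1 s ▸ z0)
  have noc : ∀ g i, IS P g i a b → g o0 = {r, v0} → ∀ j u v, g j = {u, v} → P.Good j u v →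
      P.A D j u → P.B D j v → ¬ D.Z v → D.Z u → ¬ P.B D i u := by
    intro g i g1 g2 j u v e hg hA hB z zu
    have k := i_F1 T Tr hρ g0 hA0 hB0 z0 g1 g2 e hg hA hB z
    have k2 := (i_base T Tr hρ g0 hA0 hB0 z0 g1 g2).2.2.2.2
    exact nonR_noconf T g1 jz hz e hg (k a ma) (k b mb) hB (k2 a ma) (k2 b mb) zu.1 zu.2.1
  have swap : ∀ i, μ (ag i) = ag i →
      ∃ g, IS P g i a b ∧ g o0 = {r, v0} ∧ ∀ j, j ≠ i → j ≠ o → g j = f j := by
    intro i hi
    rcases im.unm hi with e | ⟨u, v, e, hg, _, hA, hB, z, zu, _⟩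
    · have : i = o := by_contra fun t => h.srv i t e
      subst this
      exact ⟨f, h, e0, fun _ _ _ => rfl⟩
    · obtain ⟨_, wu, wv⟩ := jp i u v e hg
      obtain ⟨c, hc, hH⟩ := Tr.nz z
      obtain ⟨g, g1, g2⟩ := h.swap T e (((AB_of jo wu).resolve_right
        (noc f o h e0 i u v e hg hA hB z zu)).good (((oA c hc).nbr hH).resolve_left (dm0 jo wv))
        hg.2.2.2)
      exact ⟨g, g1, by rw [g2 o0 (not0 i u v e hB z).symm (h.ne_o e0), e0], g2⟩
  have piA : ∀ i p, μ (ag i) = ag i → μ (vx p) = vx p → P.A D i p := fun i p hi e => by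
    obtain ⟨g, g1, g2, g3⟩ := swap i hi
    rcases im.unc hμ.1 e with t | ⟨j, v, e1, hg, _, hA, hb, z, e2⟩ | ⟨j, _, _, _, _, t⟩
    · refine (i_base T Tr hρ g0 hA0 hB0 z0 g1 g2).2.2.2.2 p ?_
      rw [h.fr] at t
      rcases mem_insert.1 t with s | s
      exacts [s ▸ ma, mem_singleton.1 s ▸ mb]
    · exact i_hidden T Tr hρ g0 hA0 hB0 z0 g1 g2 (by
        rw [g3 j (fun t => by rw [t, hi] at e2; simp at e2) (h.ne_o e1), e1]) hg hA hb z
    · exact absurd t (nodum j)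
  have uo : μ (ag o) = ag o := by
    rcases im.cases o with ⟨_, e⟩ | ⟨c, e, _⟩ | ⟨u, v, e, _⟩ | ⟨u, v, e, _⟩ | ⟨u, v, e, _⟩
    · exact e
    · rw [h.em] at e; exact absurd e.symm (by simp)
    all_goals exact absurd rfl (h.ne_o e)
  have hall : ∀ p, μ (vx p) = vx p → D.Z p := fun p e =>
    (Tr.hZ p).2 fun x hx => (oA x hx).AA (piA o p uo e)
  have ur : μ (vx r) = vx r := by
    rcases im.cases o0 with ⟨e, _⟩ | ⟨c, e, hc, _⟩ | ⟨u, v, e, _, q, _, e2⟩ | ⟨u, v, e, _, q, _⟩ |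
      ⟨u, v, e, hg, q, _⟩
    · rw [e0] at e; exact absurd e (by simp)
    · exact absurd hc (pair_nonC e0 g0 c (by simp [e]))
    · have : r ∈ ({u, v} : Finset V) := by rw [← e, e0]; simp
      rcases mem_insert.1 this with s | s
      · rw [s]; exact e2
      · exact absurd q.2.2.1 (mem_singleton.1 s ▸ hA0 r (by simp [hρ])).notB
    · exact absurd rfl (not0 o0 u v e q.2.2.1 q.2.2.2.1)
    · exact absurd (hm o0 (jp o0 u v e hg).1) q
  have ρU : ∀ p ∈ D.ρ, μ (vx p) = vx p := by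
    simpa [hρ] using ⟨im.freeU (by simp [h.fr]), im.freeU (by simp [h.fr]), ur⟩
  have F : P.Fr D μ := fr_of_img D hD h.norm.1 hμ.1 im (fun i p hi e _ => piA i p hi e)
    (fun i hi => by
      obtain ⟨g, g1, _⟩ := swap i hi
      exact hm i (g1.jd T.crit).1)
    (fun q hq => Tr.nz hq) (fun v hv => (Tr.hZ v).1 hv)
    (fun p hp => ⟨ρU p hp, hall p (ρU p hp)⟩) (by have := h.sv; omega)
    fun j u v e _ e2 n => ⟨hall u e2, fun t => av j n u (by simp [e]) (mem_insert_of_mem t)⟩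
  have hPhi : P.Phi (P.RD D) 0 := by rw [hD, RD_mkD (majA_uniq a b r)]; exact hP
  obtain ⟨ν, hν, t⟩ := h.opt (P.cst D μ) T.crit hPhi hμ im.cov im.cw
  obtain ⟨g, k1, k2, _⟩ := frameA F hν Tr.h3 (fun p e => ⟨e, hall p e⟩) Tr.maj' Tr.hnm nodum
    (fun j hj => ⟨(show j = o0 from hj) ▸ hA0, fun i hi => (show i = o0 from hi).trans hj.symm,
      fun i e => du_iff.1 (edge_ad hν.hν e) (hm i (t.duJ e))⟩) (fun q u i e hne z hi => by
      obtain ⟨j, e1, hg, _, hA, hB, zu, _⟩ := im.pair hμ.1 e hne z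
      by_cases s : j = i
      · exact s ▸ hA.notB
      · obtain ⟨g, g1, g2, g3⟩ := swap i hi
        exact noc g i g1 g2 j u q (by rw [g3 j s (h.ne_o e1), e1]) hg hA hB z zu) (by
      have := h.norm.card
      rw [h.fr, card_pair h.ne] at this
      rw [im.cov, im.cw]; omega)
  exact T.nf (feasible_of_real k1 (t.cov.trans k2))

end AP

end Pool.Agent.Lib.MP_ef7581_lc
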