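import Mathlib
import Pool.Agent.Lib.MP_ef7581_lc.TCi

/-!
The critical case with an independent free pair, a split deficient agent and no rigid side-served
agent.
-/

set_option autoImplicit false
set_option linter.unusedSectionVars false

namespace Pool.Agent.Lib.MP_ef7581_lc

open Finset

namespace AP

variable {J V : Type} {P : AP J V} [Fintype J] [Fintype V] [DecidableEq J] [DecidableEq V]

/-- Pair-served agents that are split on `a, b`. -/
def SP (P : AP J V) (f : J → Finset V) (a b : V) : Finset J :=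
  univ.filter fun j => f j ≠ ∅ ∧ (∀ c ∈ f j, P.col j c ≠ none) ∧ P.col j a ≠ P.col j b

theorem mem_SP {f : J → Finset V} {a b : V} {j : J} : j ∈ P.SP f a b ↔
    f j ≠ ∅ ∧ (∀ c ∈ f j, P.col j c ≠ none) ∧ P.col j a ≠ P.col j b := by simp [SP]

theorem ii_split (T : TC P) {D : Dat J V} {g : J → Finset V} {i j : J} {a b u v : V}
    (h : IS P g i a b) (hH : ¬ P.H a b) (ia : P.A D i a) (ib : P.A D i b) (e : g j = {u, v})
    (hg : P.Good j u v) (hs : P.col j a ≠ P.col j b) : P.A D i u := by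
  obtain ⟨ji, wa, wb, jp⟩ := h.jd T.crit
  obtain ⟨jj, wu, wv⟩ := jp j u v e hg
  refine (AB_of ji wu).resolve_right fun iu => ?_
  have ps := h.ps.un2 (j := j) (by simpa using h.ne_o e) (u := u) (v := v) (by simp [e]) (by simp [e])
  have ua : u ≠ a := fun s => h.na j (by simp [e, s])
  have ub : u ≠ b := fun s => h.nb j (by simp [e, s])
  have va : v ≠ a := fun s => h.na j (by simp [e, s])
  have vb : v ≠ b := fun s => h.nb j (by simp [e, s])
  rcases AB_of (D := D) ji wv with iv | iv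
  · exact T.nf (ps.sol2 (i := j) (j := i) (by simp) (u := a) (v := b) (u' := v) (v' := u) (by simp)
      (by simp) (by simp) (by simp) ⟨dm0 jj wa, dm0 jj wb, hs, hH⟩ (iv.good iu hg.symm.2.2.2)
      va vb ua ub)
  by_cases c : P.col j u = P.col j a
  · exact T.cross ps (h.ne_o e) (by simp) (u := u) (v := v) (y := b) (p := a) (by simp) (by simp)
      (by simp) (by simp) hg.1 hg.2.1 iu.ne ib.ne c
      (opt_third hg.2.1 (dm0 jj wa) (dm0 jj wb) (c ▸ hg.2.2.1.symm) hs.symm) hg.2.2.1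
      (iu.trans iv.symm) (ib.trans ia.symm) (ib.neB iu).symm
  · exact T.cross ps (h.ne_o e) (by simp) (u := u) (v := v) (y := a) (p := b) (by simp) (by simp)
      (by simp) (by simp) hg.1 hg.2.1 iu.ne ia.ne (opt_third hg.1 (dm0 jj wa) (dm0 jj wb) c hs.symm)
      (opt_third hg.2.1 hg.1 (dm0 jj wa) hg.2.2.1.symm (Ne.symm c)) hg.2.2.1
      (iu.trans iv.symm) (ia.trans ib.symm) (ia.neB iu).symm

theorem tcII (T : TC P) {f : J → Finset V} {o z : J} {a b : V} (h : IS P f o a b) (hH : ¬ P.H a b)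
    (jz : P.JD z) (hz : P.col z a ≠ P.col z b)
    (hns : ∀ j u v, f j = {u, v} → P.Good j u v → P.col j a = P.col j u → P.col j b = P.col j u →
      ¬ P.H a v → ¬ P.H b v → False) (hP : P.Phi (P.Gam2 a b) 0) :
    ∃ g i x y, IS P g i x y ∧ ¬ P.H x y ∧ (P.SP g x y).card < (P.SP f a b).card := by
  classical
  obtain ⟨jo, wa, wb, jp⟩ := h.jd T.crit
  obtain ⟨μ, hμ, im⟩ := exists_imgD (D := mkD P f id (P.Z2 a b) (P.Maj2 a b) {a, b}
    (fun _ => False) o a) h.norm fun j u v e hg hm hA _ _ =>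
      ⟨((maj2_facts _ rfl j).1 hm).1.AA hA, ((maj2_facts _ rfl j).1 hm).2.AA hA⟩
  set D := mkD P f μ (P.Z2 a b) (P.Maj2 a b) {a, b} (fun _ => False) o a with hD
  change IsM (P.E (P.RD D)) μ at hμ
  change ImgD P D f μ at im
  have mA := fun j => (maj2_facts D hD j).1
  have mH : ∀ j, P.JD j → ¬ D.HM j → P.col j a ≠ P.col j b := fun j hj hn e =>
    hn ((maj2_facts D hD j).2 (dm0 hj wa) e)
  have ho : D.HM o := by_contra fun t => mH o jo t (T.mono h.ps hH)
  have zA : ∀ j u, D.HM j → P.A D j u → D.Z u := fun j u hj hA =>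
    ⟨(mA j hj).1.AA hA, (mA j hj).2.AA hA⟩
  have nos : ∀ j u v, f j = {u, v} → P.Good j u v → D.HM j → P.A D j u → ¬ D.Z v :=
    fun j u v e hg hm hA z => hns j u v e hg ((mA j hm).1.trans hA.symm) ((mA j hm).2.trans hA.symm)
      z.1 z.2
  have nzB : ∀ j v, P.JD j → D.HM j → P.W v → ¬ D.Z v → P.B D j v := fun j v hj hm hv z =>
    (AB_of hj hv).resolve_left fun s => z (zA j v hm s)
  have noc : ∀ g i, IS P g i a b → D.HM i → ∀ j u v, g j = {u, v} → P.Good j u v → D.HM j →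
      P.B D j v → D.Z u → ¬ P.B D i u := fun g i g1 hi j u v e hg hm hB zu =>
    nonR_noconf T g1 jz hz e hg (mA j hm).1 (mA j hm).2 hB (mA i hi).1 (mA i hi).2 zu.1 zu.2
  have swap : ∀ i, μ (ag i) = ag i →
      D.HM i ∧ ∃ g, IS P g i a b ∧ ∀ j, j ≠ i → j ≠ o → g j = f j := by
    intro i hi
    rcases im.unm hi with e | ⟨u, v, e, hg, hm, hA, hB, z, zu, _⟩
    · have : i = o := by_contra fun t => h.srv i t e
      subst this
      exact ⟨ho, f, h, fun _ _ _ => rfl⟩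
    · obtain ⟨_, wu, wv⟩ := jp i u v e hg
      exact ⟨hm, h.swap T e (((AB_of jo wu).resolve_right
        (noc f o h ho i u v e hg hm hB zu)).good (nzB o v jo ho wv z) hg.2.2.2)⟩
  have piA : ∀ i p, μ (ag i) = ag i → μ (vx p) = vx p → P.A D i p := fun i p hi e => by
    obtain ⟨hm, g, g1, g3⟩ := swap i hi
    rcases im.unc hμ.1 e with t | ⟨j, v, e1, hg, hj, hA, _, z, _⟩ | ⟨j, v, e1, hg, hn, e2⟩
    · rw [h.fr] at t
      rcases mem_insert.1 t with s | s
      exacts [s ▸ (mA i hm).1, mem_singleton.1 s ▸ (mA i hm).2]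
    · exact absurd z (nos j p v e1 hg hj hA)
    · exact ii_split T g1 hH (mA i hm).1 (mA i hm).2 (by
        rw [g3 j (fun t => by rw [t, hi] at e2; simp at e2) (h.ne_o e1), e1]) hg
        (mH j (jp j p v e1 hg).1 hn)
  have uo : μ (ag o) = ag o := by
    rcases im.cases o with ⟨_, e⟩ | ⟨c, e, _⟩ | ⟨u, v, e, _⟩ | ⟨u, v, e, _⟩ | ⟨u, v, e, _⟩
    · exact e
    · rw [h.em] at e; exact absurd e.symm (by simp)
    all_goals exact absurd rfl (h.ne_o e)
  have hall : ∀ p, μ (vx p) = vx p → D.Z p := fun p e => zA o p ho (piA o p uo e)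
  have piH : ∀ p q, μ (vx p) = vx p → μ (vx q) = vx q → ¬ P.H p q := fun p q a b =>
    (piA o p uo a).AA (piA o q uo b)
  have tU : ∀ x ∈ ({a, b} : Finset V), μ (vx x) = vx x := fun x hx => im.freeU (h.fr ▸ hx)
  have F : P.Fr D μ := fr_of_img D hD h.norm.1 hμ.1 im (fun i p hi e _ => piA i p hi e)
    (fun i hi => (swap i hi).1)
    (fun q hq => by unfold Z2 at hq; simp only [mem_insert, mem_singleton, exists_eq_or_imp,
      exists_eq_left]; tauto)
    (fun v hv => by simpa [Z2] using hv)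
    (fun x hx => ⟨tU x hx, hall x (tU x hx)⟩) (by have := h.sv; omega)
    fun j u v e _ e2 _ => ⟨hall u e2, fun t => mem_free.1 (h.fr ▸ t) j (by simp [e])⟩
  have hPhi : P.Phi (P.RD D) 0 := by rw [hD, RD_mkD (maj2_uniq a b)]; exact hP
  obtain ⟨ν, hν, t⟩ := h.opt (P.cst D μ) T.crit hPhi hμ im.cov im.cw
  have acc : ∀ j v, ν (ag j) = vx v → P.col j v ≠ none → ∀ p ∈ ({a, b} : Finset V), P.Good j p v := by
    intro j v e hc p hp
    obtain ⟨hm, s | ⟨t1, t2⟩⟩ := nc_iff.1 ((edge_av hν.hν e).resolve_left hc)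
    · rcases mem_insert.1 hp with x | x
      · rw [x]; exact (mA j hm).1.good s.1 s.2.1
      · rw [mem_singleton.1 x]; exact (mA j hm).2.good s.1 s.2.2
    · exact absurd (zA j v hm t1) t2
  have per : ∀ j, μ (ag j) = dm j → ν (ag j) = dm j := fun j e => by
    have x := hμ.flip e
    refine ((mate_dm hν.hν j).resolve_left fun s => ?_).2
    have := t.all (dm j) (Or.inr ⟨by rw [x]; simp, s⟩)
    rw [x] at this; simp at this
  obtain ⟨φ, f1, f2, f3⟩ := F.owners hν
  have s3 : ∀ q u, ¬ D.Z q → u ≠ q → ν (vx q) = vx u → P.Serv (φ q) {q, u} := by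
    intro q u z hne e
    refine (f3 q u z hne e).resolve_right fun ⟨⟨_, u', t1, t2, t3⟩, _, fr, hb⟩ => ?_
    rw [e] at t3
    have : u = u' := by simpa using t3
    subst this
    obtain ⟨j, e1, hg, hm, hA, hB, zu, _⟩ := im.pair hμ.1 t2 hne z
    by_cases s : j = φ q
    · exact (s ▸ hA).notB hb
    · obtain ⟨hi, g, g1, g3⟩ := swap _ fr.1
      exact noc g _ g1 hi j u q (by rw [g3 j s (h.ne_o e1), e1]) hg hm hB zu hb
  let kp : J → Finset V := fun j =>
    if μ (ag j) = dm j then (f j).filter fun x => ν (vx x) = vx x else ∅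
  let Tu : Finset V := ({a, b} : Finset V).filter fun x => ν (vx x) = vx x
  have mkp : ∀ j x, x ∈ kp j ↔ μ (ag j) = dm j ∧ x ∈ f j ∧ ν (vx x) = vx x := fun j x => by
    simp only [kp]; split_ifs with s <;> simp [s]
  have cnt : ∀ (Bs : Finset J) (e : J → ℕ), (∀ j ∈ Bs, ν (ag j) = dm j ∧ (kp j).card + e j ≤ 2) →
      (P.NC ν).card + ∑ j ∈ Bs, e j ≤ Tu.card := by
    intro Bs e hB
    have p1 := opt_pool hν (by
      have := h.norm.card
      rw [h.fr, card_pair h.ne] at this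
      rw [im.cov, im.cw]; omega)
    have p2 : bo vx μ ν ⊆ Tu ∪ (DU ν).biUnion kp := by
      intro p hp
      obtain ⟨x1, x2⟩ := mem_bo.1 hp
      rcases im.unc hμ.1 x1 with s | ⟨j, v, e1, hg, hj, hA, _, z, _⟩ | ⟨j, v, e1, _, _, e2⟩
      · exact mem_union_left _ (mem_filter.2 ⟨h.fr ▸ s, x2⟩)
      · exact absurd z (nos j p v e1 hg hj hA)
      · exact mem_union_right _ (mem_biUnion.2 ⟨j, mem_DU.2 (per j e2),
          (mkp j p).2 ⟨e2, by simp [e1], x2⟩⟩)
    have p3 := (card_le_card p2).trans ((card_union_le _ _).trans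
      (Nat.add_le_add_left card_biUnion_le _))
    have sub : Bs ⊆ DU ν := fun j hj => mem_DU.2 (hB j hj).1
    have p4 : ∑ j ∈ DU ν \ Bs, (kp j).card ≤ (DU ν \ Bs).card * 2 := by
      refine sum_le_card_nsmul _ _ _ fun j _ => ?_
      simp only [kp]; split_ifs with s
      · obtain ⟨u, v, e1, _⟩ := im.dum s
        exact (card_filter_le _ _).trans (e1 ▸ card_le_two)
      · simp
    have p5 : ∑ j ∈ Bs, ((kp j).card + e j) ≤ Bs.card * 2 :=
      sum_le_card_nsmul _ _ _ fun j hj => (hB j hj).2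
    rw [sum_add_distrib] at p5
    have p6 := sum_sdiff (f := fun j => (kp j).card) sub
    have p7 := card_sdiff_add_card_eq_card sub
    omega
  let Bad : J → Prop := fun j => ν (ag j) = dm j ∧ ¬ (μ (ag j) = dm j ∧ ∀ x ∈ f j, ν (vx x) = vx x)
  have build : ∀ R : Finset V, R ⊆ Tu → (P.NC ν).card + R.card ≤ Tu.card → ∀ (A : Finset J),
      (∀ j ∈ A, ν (ag j) = dm j) → (∀ j, Bad j → j ∈ A) → ∃ g, P.PS g A (R ∪ A.biUnion kp) ∧
      (P.NC ν = ∅ → ∀ j, j ∉ A → (∀ c ∈ g j, P.col j c ≠ none) → ∀ x y, μ (vx x) = vx x →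
        μ (vx y) = vx y → P.col j x ≠ P.col j y → j ∈ P.SP f a b) := by
    intro R hR hc A hA hB
    obtain ⟨σ, q1, q2, _⟩ := ext_inj (P.NC ν) ∅ (Tu \ R) (fun _ => a) (empty_subset _) (by simp)
      (by simp) (by rw [card_sdiff_of_subset hR]; omega)
    have σT : ∀ j ∈ P.NC ν, σ j ∈ ({a, b} : Finset V) ∧ ν (vx (σ j)) = vx (σ j) := fun j hj =>
      mem_filter.1 (mem_sdiff.1 (q1 j hj)).1
    have nf : ∀ x ∈ ({a, b} : Finset V), ∀ j, x ∉ kp j := fun x hx j s =>
      mem_free.1 (h.fr ▸ hx) j ((mkp j x).1 s).2.1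
    let π : J → Finset V := fun j => if j ∈ P.NC ν then {σ j} else kp j
    have mπ : ∀ j x, x ∈ π j ↔ (j ∈ P.NC ν ∧ x = σ j) ∨ (j ∉ P.NC ν ∧ x ∈ kp j) := fun j x => by
      simp only [π]; split_ifs with s <;> simp [s]
    have ha : Asg ν π (fun v => ¬ D.Z v) φ := by
      refine ⟨hν.hν.1, disj_of fun i j v hi hj => ?_, fun j p hp => ?_, fun q u e hne => ?_,
        fun q hq => (f1 q hq).2, f2⟩
      · rcases (mπ i v).1 hi with ⟨x, y⟩ | ⟨x, y⟩ <;> rcases (mπ j v).1 hj with ⟨x', y'⟩ | ⟨x', y'⟩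
        · exact q2 x x' (y.symm.trans y')
        · exact absurd y' (nf v (y ▸ (σT i x).1) j)
        · exact absurd y (nf v (y' ▸ (σT j x').1) i)
        · exact h.norm.1.eq ((mkp i v).1 y).2.1 ((mkp j v).1 y').2.1
      · rcases (mπ j p).1 hp with ⟨x, y⟩ | ⟨_, y⟩
        exacts [y ▸ (σT j x).2, ((mkp j p).1 y).2.2]
      · have := (pair_edge hν.hν e hne).2; tauto
    have dN : ∀ j, ν (ag j) = dm j → j ∉ P.NC ν := fun j e s => by
      obtain ⟨v, e', _⟩ := mem_NC.1 s; rw [e] at e'; simp at e'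
    refine ⟨_, ha.ps hν.hν t.cov A _ (fun j hj hm => ?_) (fun q hq _ => ?_) fun v hv => ?_,
      fun hN j hj hc x y ux uy hxy => ?_⟩
    · rcases mate_ag hν.hν j with e | ⟨v, e, _⟩ | ⟨e, _⟩
      · exact absurd e hm
      · by_cases hc : P.col j v = none
        · exact serv_C (ha.head e) hc
        · have m := mem_NC.2 ⟨v, e, hc⟩
          exact (acc j v e hc _ (σT j m).1).serv (rz_part ((mπ j _).2 (Or.inl ⟨m, rfl⟩))) (ha.head e)
      · obtain ⟨x, y⟩ : μ (ag j) = dm j ∧ ∀ x ∈ f j, ν (vx x) = vx x :=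
          by_contra fun s => hj (hB j ⟨e, s⟩)
        obtain ⟨u, v, e1, hg, _⟩ := im.dum x
        have k : ∀ w ∈ f j, w ∈ rz ν π (fun v => ¬ D.Z v) φ j := fun w hw =>
          rz_part ((mπ j w).2 (Or.inr ⟨dN j e, (mkp j w).2 ⟨x, hw, y w hw⟩⟩))
        exact hg.serv (k u (by simp [e1])) (k v (by simp [e1]))
    · obtain ⟨z, u, hne, e⟩ := mem_Pq.1 hq
      have m := rz_pair (π := π) (L := fun v => ¬ D.Z v) (φ := φ) z hne e
      refine (s3 q u z hne e).mono fun x hx => ?_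
      simp only [mem_insert, mem_singleton] at hx
      rcases hx with rfl | rfl
      exacts [m.1, m.2]
    · rcases mem_union.1 hv with s | s
      · refine Or.inr ⟨(mem_filter.1 (hR s)).2, fun j _ x => ?_⟩
        rcases (mπ j v).1 x with ⟨x, y⟩ | ⟨_, y⟩
        exacts [(mem_sdiff.1 (q1 j x)).2 (y ▸ s), nf v (mem_filter.1 (hR s)).1 j y]
      · obtain ⟨j, hj, x⟩ := mem_biUnion.1 s
        exact Or.inl ⟨j, hj, rz_part ((mπ j v).2 (Or.inr ⟨dN j (hA j hj), x⟩))⟩
    · rcases ha.onto hν.hν t.cov j with hm | ⟨q, hq, rfl⟩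
      · rcases mate_ag hν.hν j with e | ⟨v, e, _⟩ | ⟨e, _⟩
        · exact absurd e hm
        · exact absurd (hN ▸ mem_NC.2 ⟨v, e, hc v (ha.head e)⟩) (notMem_empty j)
        · obtain ⟨x, _⟩ : μ (ag j) = dm j ∧ ∀ x ∈ f j, ν (vx x) = vx x :=
            by_contra fun s => hj (hB j ⟨e, s⟩)
          obtain ⟨u, v, e1, hg, hn, _⟩ := im.dum x
          exact mem_SP.2 ⟨by rw [e1]; simp, pair_nonC e1 hg, mH j (jp j u v e1 hg).1 hn⟩
      · exact absurd ((piA _ x (f1 q hq).1 ux).trans (piA _ y (f1 q hq).1 uy).symm) hxy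
  have fin : ∀ g i x y, P.PS g {i} {x, y} → x ≠ y → ¬ P.H x y → i ∈ P.SP f a b →
      (∀ j, j ≠ i → (∀ c ∈ g j, P.col j c ≠ none) → P.col j x ≠ P.col j y → j ∈ P.SP f a b) →
      ∃ g i x y, IS P g i x y ∧ ¬ P.H x y ∧ (P.SP g x y).card < (P.SP f a b).card := by
    intro g i x y ps xy hH hi hs
    obtain ⟨g', g1, g2⟩ := ps.toIS xy T.crit
    refine ⟨g', i, x, y, g1, hH, card_lt_card ((ssubset_iff_of_subset fun j hj => ?_).2
      ⟨i, hi, fun s => (mem_SP.1 s).1 g1.em⟩)⟩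
    obtain ⟨s1, s2, s3⟩ := mem_SP.1 hj
    have : j ≠ i := fun s => s1 (s ▸ g1.em)
    exact hs j this (g2 j this ▸ s2) s3
  have tu2 : Tu.card ≤ 2 := (card_filter_le _ _).trans card_le_two
  have full : 2 ≤ Tu.card → Tu = {a, b} := fun s =>
    eq_of_subset_of_card_le (filter_subset _ _) (card_le_two.trans s)
  have bad1 : ∀ j, Bad j → (kp j).card + 1 ≤ 2 := by
    intro j hj
    simp only [kp]; split_ifs with s
    · obtain ⟨u, v, e1, hg, _⟩ := im.dum s
      have : ((f j).filter fun x => ν (vx x) = vx x).card < (f j).card :=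
        card_lt_card (filter_ssubset.2 (by have := hj.2; push Not at this; exact this s))
      rw [e1, card_pair hg.ne] at this; rw [e1]; omega
    · simp
  by_cases b0 : ¬ ∃ j, Bad j
  · obtain ⟨g, ps, _⟩ := build ∅ (empty_subset _) (by simpa using cnt ∅ (fun _ => 0) (by simp)) ∅
      (by simp) fun j hj => absurd ⟨j, hj⟩ b0
    exact absurd ps.feasible T.nf
  obtain ⟨j, hj⟩ := not_not.1 b0
  by_cases b2 : ∃ j, Bad j ∧ kp j = ∅
  · obtain ⟨j, hj, e⟩ := b2
    have c := cnt {j} (fun _ => 2) (by simp [hj.1, e])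
    rw [sum_singleton] at c
    obtain ⟨g, ps, _⟩ := build Tu Subset.rfl (by omega) {j} (by simpa using hj.1) fun i hi => by
      rw [mem_singleton]
      by_contra s
      have := cnt {i, j} (fun x => if x = j then 2 else 1) (by
        simp only [mem_insert, mem_singleton, forall_eq_or_imp, forall_eq, s, if_false, if_true]
        exact ⟨⟨hi.1, bad1 i hi⟩, hj.1, by simp [e]⟩)
      rw [sum_pair s] at this; simp [s] at this; omega
    exact absurd (T.mono (ps.mono (fun _ x => x) fun v hv => mem_union_left _ (full (by omega) ▸ hv))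
      hH) (mH j (t.duJ hj.1) (du_iff.1 (edge_ad hν.hν hj.1)))
  push Not at b2
  have dat : ∀ j, Bad j → ∃ x c c', x ∈ kp j ∧ ((c = a ∧ c' = b) ∨ (c = b ∧ c' = a)) ∧
      P.Good j c x ∧ μ (vx x) = vx x ∧ j ∈ P.SP f a b ∧ x ∉ ({a, b} : Finset V) := by
    intro j hj
    obtain ⟨x, hx⟩ := b2 j hj
    obtain ⟨x1, x2, _⟩ := (mkp j x).1 hx
    obtain ⟨u, v, e1, hg, hn, u1, u2⟩ := im.dum x1
    obtain ⟨jj, _⟩ := jp j u v e1 hg
    have ux : μ (vx x) = vx x := by
      rw [e1] at x2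
      rcases mem_insert.1 x2 with s | s
      exacts [s ▸ u1, mem_singleton.1 s ▸ u2]
    have nx := pair_nonC e1 hg x x2
    have sp := mem_SP.2 ⟨by rw [e1]; simp, pair_nonC e1 hg, mH j jj hn⟩
    have xf : x ∉ ({a, b} : Finset V) := fun s => mem_free.1 (h.fr ▸ s) j x2
    by_cases s : P.col j a = P.col j x
    · exact ⟨x, b, a, hx, Or.inr ⟨rfl, rfl⟩, ⟨dm0 jj wb, nx, s ▸ (mH j jj hn).symm,
        piH _ _ (tU b (by simp)) ux⟩, ux, sp, xf⟩
    · exact ⟨x, a, b, hx, Or.inl ⟨rfl, rfl⟩, ⟨dm0 jj wa, nx, s, piH _ _ (tU a (by simp)) ux⟩, ux, sp, xf⟩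
  obtain ⟨x, c, c', x1, x2, x3, x4, x5, x6⟩ := dat j hj
  have cc : c ∈ ({a, b} : Finset V) ∧ c' ∈ ({a, b} : Finset V) ∧ c' ≠ c ∧
      ∀ w ∈ ({a, b} : Finset V), w = c ∨ w = c' := by
    rcases x2 with ⟨rfl, rfl⟩ | ⟨rfl, rfl⟩ <;> simp [h.ne, h.ne.symm]
  by_cases b3 : ∃ i, Bad i ∧ i ≠ j
  · obtain ⟨i, hi, ij⟩ := b3
    obtain ⟨y, d, d', y1, y2, y3, y4, y5, y6⟩ := dat i hi
    have c2 := cnt {i, j} (fun _ => 1) (by
      simp only [mem_insert, mem_singleton, forall_eq_or_imp, forall_eq]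
      exact ⟨⟨hi.1, bad1 i hi⟩, hj.1, bad1 j hj⟩)
    rw [sum_pair ij] at c2
    obtain ⟨g, ps, cl⟩ := build Tu Subset.rfl (by omega) {i, j} (by simpa using ⟨hi.1, hj.1⟩)
      fun k hk => by
        by_contra s
        have := cnt (insert k {i, j}) (fun _ => 1) (by
          simp only [mem_insert, mem_singleton, forall_eq_or_imp, forall_eq]
          exact ⟨⟨hk.1, bad1 k hk⟩, ⟨hi.1, bad1 i hi⟩, hj.1, bad1 j hj⟩)
        rw [sum_insert s, sum_pair ij] at this; omega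
    rw [full (by omega)] at ps
    have xy : x ≠ y := fun s => ij (h.norm.1.eq ((mkp i y).1 y1).2.1 (s ▸ ((mkp j x).1 x1).2.1))
    have md : d ∈ ({a, b} : Finset V) := by rcases y2 with ⟨rfl, _⟩ | ⟨rfl, _⟩ <;> simp
    have mx : x ∈ ({a, b} : Finset V) ∪ ({i, j} : Finset J).biUnion kp :=
      mem_union_right _ (mem_biUnion.2 ⟨j, by simp, x1⟩)
    have my : y ∈ ({a, b} : Finset V) ∪ ({i, j} : Finset J).biUnion kp :=
      mem_union_right _ (mem_biUnion.2 ⟨i, by simp, y1⟩)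
    by_cases s : c = d
    · subst s
      refine fin _ j x c' (ps.serve2 (j := i) (mem_union_left _ md) my y3 (by simp) ?_)
        (fun s => x6 (s ▸ cc.2.1)) (piH _ _ x4 (tU _ cc.2.1)) x5 fun k k1 k2 k3 => ?_
      · simp only [mem_insert, mem_singleton, forall_eq_or_imp, forall_eq]
        exact ⟨⟨mx, fun s => x6 (s ▸ md), xy⟩, mem_union_left _ cc.2.1, cc.2.2.1,
          fun s => y6 (s ▸ cc.2.1)⟩
      · by_cases k0 : k = i
        · exact k0 ▸ y5
        · rw [Function.update_of_ne k0] at k2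
          exact cl (card_eq_zero.1 (by omega)) k (by simp [k0, k1]) k2 _ _ x4 (tU _ cc.2.1) k3
    · exact absurd (ps.sol2 (i := i) (j := j) (by simp) (mem_union_left _ md) my
        (mem_union_left _ cc.1) mx y3 x3 s (fun s => y6 (s ▸ cc.1)) (fun s => x6 (s ▸ md)) xy) T.nf
  push Not at b3
  have c1 := cnt {j} (fun _ => 1) (by simp only [mem_singleton, forall_eq]; exact ⟨hj.1, bad1 j hj⟩)
  rw [sum_singleton] at c1
  by_cases uc : ν (vx c) = vx c
  · obtain ⟨g, ps, _⟩ := build {c} (singleton_subset_iff.2 (mem_filter.2 ⟨cc.1, uc⟩)) (by simpa using c1) {j}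
      (by simpa using hj.1) fun i hi => by simp [b3 i hi]
    exact absurd (ps.sol1 (by simp) (by simp [x1]) x3) T.nf
  · have e : Tu ⊆ {c'} := fun w hw => by
      rcases cc.2.2.2 w (mem_filter.1 hw).1 with s | s
      · exact absurd (s ▸ (mem_filter.1 hw).2) uc
      · simp [s]
    have e1 := card_le_card e
    rw [card_singleton] at e1
    have e2 : Tu = {c'} := eq_of_subset_of_card_le e (by rw [card_singleton]; omega)
    obtain ⟨g, ps, cl⟩ := build Tu Subset.rfl (by omega) {j} (by simpa using hj.1)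
      fun i hi => by simp [b3 i hi]
    exact fin g j x c' (ps.mono (fun _ x => x) (by simp [e2, x1])) (fun s => x6 (s ▸ cc.2.1))
      (piH _ _ x4 (tU _ cc.2.1)) x5 fun k k1 k2 k3 =>
        cl (card_eq_zero.1 (by omega)) k (by simp [k1]) k2 _ _ x4 (tU _ cc.2.1) k3

end AP

end Pool.Agent.Lib.MP_ef7581_lc
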