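import Mathlib
import Pool.Agent.Lib.MP_ef7581_lc.TCii

/-!
The critical case in which every tight free pair is an edge.
-/

set_option autoImplicit false
set_option linter.unusedSectionVars false

namespace Pool.Agent.Lib.MP_ef7581_lc

open Finset

namespace AP

variable {J V : Type} {P : AP J V} [Fintype J] [Fintype V] [DecidableEq J] [DecidableEq V]

theorem fk_nonH {x k e : V} (wx : P.W x) (hk : P.Ks x k) (he : P.Fs x e) : ¬ P.H k e := by
  intro hH
  apply he.2
  rcases hk with ⟨w, s⟩ | ⟨w, s⟩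
  · exact Or.inr ⟨he.1, fun j hj => by rw [← s j hj]; exact (P.compat j k e hH (dm0 hj w)).symm⟩
  · exact Or.inl ⟨he.1, fun j hj => opt_third (dm0 hj he.1) (dm0 hj w) (dm0 hj wx)
      (P.compat j k e hH (dm0 hj w)).symm (s j hj).symm⟩

theorem tcK (T : TC P) {f : J → Finset V} {o : J} {x y : V} (h : IS P f o x y) (hH : P.H x y)
    (noI : ∀ g z a b, P.PS g {z} {a, b} → a ≠ b → P.H a b) (hP : P.Phi (P.GamK x) 0) : False := by
  classical
  obtain ⟨jo, wx, wy, jp⟩ := h.jd T.crit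
  have cxy : ∀ j, P.JD j → P.col j x ≠ P.col j y := fun j hj => P.compat j x y hH (dm0 hj wx)
  have kx : P.Xs x x := ⟨wx, fun _ _ => rfl⟩
  have ky : P.Ys x y := ⟨wy, fun j hj => (cxy j hj).symm⟩
  have dis : ∀ v, P.Xs x v → ¬ P.Ys x v := fun v a b => b.2 o jo (a.2 o jo)
  have eqy : ∀ j v, P.JD j → P.W v → P.col j v ≠ P.col j x → P.col j v = P.col j y :=
    fun j v hj hv s => opt_third (dm0 hj hv) (dm0 hj wx) (dm0 hj wy) s (cxy j hj).symm
  have ff : ∀ m e e', f m = {e, e'} → P.Good m e e' → P.Fs x e → P.Fs x e' →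
      P.col m e = P.col m x → False := by
    intro m e e' e1 hg f1 f2 c
    obtain ⟨jm, we, we'⟩ := jp m e e' e1 hg
    have ps := h.ps.un2 (j := m) (by simpa using h.ne_o e1) (u := e) (v := e') (by simp [e1])
      (by simp [e1])
    have c' := eqy m e' jm we' (c ▸ hg.2.2.1.symm)
    have n1 : x ≠ e := fun s => h.na m (by simp [e1, s])
    have n2 : x ≠ e' := fun s => h.na m (by simp [e1, s])
    have n3 : y ≠ e := fun s => h.nb m (by simp [e1, s])
    have n4 : y ≠ e' := fun s => h.nb m (by simp [e1, s])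
    by_cases s : P.col o e = P.col o x
    · exact T.nf (ps.sol2 (i := o) (j := m) (by simp) (u := y) (v := e) (u' := x) (v' := e') (by simp)
        (by simp) (by simp) (by simp) ⟨dm0 jo wy, dm0 jo we, s ▸ (cxy o jo).symm,
          fk_nonH wx (Or.inr ky) f1⟩ ⟨dm0 jm wx, dm0 jm we', c' ▸ cxy m jm, fk_nonH wx (Or.inl kx) f2⟩
        h.ne n1 n4.symm hg.ne.symm)
    by_cases s' : P.col o e' = P.col o x
    · exact T.cross ps (h.ne_o e1) (by simp) (u := e) (v := y) (y := e') (p := x) (by simp) (by simp)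
        (by simp) (by simp) hg.1 (dm0 jm wy) (dm0 jo we) (dm0 jo we') c c'.symm (c ▸ cxy m jm)
        (eqy o e jo we s) s' (s' ▸ s)
    · exact T.nf (ps.sol2 (i := o) (j := m) (by simp) (u := x) (v := e') (u' := y) (v' := e) (by simp)
        (by simp) (by simp) (by simp) ⟨dm0 jo wx, dm0 jo we', Ne.symm s', fk_nonH wx (Or.inl kx) f2⟩
        ⟨dm0 jm wy, dm0 jm we, c ▸ (cxy m jm).symm, fk_nonH wx (Or.inr ky) f1⟩
        h.ne.symm n4 n1.symm hg.ne)
  obtain ⟨μ, hμ, im⟩ := exists_img h.norm (P.GamK x) (fun _ u _ => P.Ks x u) (fun _ _ _ => True)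
    (fun _ _ _ => False) fun j u v e hg => by
      obtain ⟨jj, wu, wv⟩ := jp j u v e hg
      by_cases ku : P.Ks x u <;> by_cases kv : P.Ks x v
      · refine ⟨u, v, e, hg, Or.inr (Or.inl ⟨trivial, ?_⟩)⟩
        rcases ku with a | a <;> rcases kv with b | b
        · exact absurd ((a.2 j jj).trans (b.2 j jj).symm) hg.2.2.1
        · exact Or.inl ⟨a, b, hg.2.2.2⟩
        · exact Or.inr ⟨b, a, hg.symm.2.2.2⟩
        · exact absurd ((eqy j u jj wu (a.2 j jj)).trans (eqy j v jj wv (b.2 j jj)).symm) hg.2.2.1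
      · exact ⟨u, v, e, hg, Or.inl ⟨ku, jj, wv, kv⟩⟩
      · exact ⟨v, u, by rw [e, pair_comm], hg.symm, Or.inl ⟨kv, jj, wu, ku⟩⟩
      · exfalso
        by_cases c : P.col j u = P.col j x
        · exact ff j u v e hg ⟨wu, ku⟩ ⟨wv, kv⟩ c
        · exact ff j v u (by rw [e, pair_comm]) hg.symm ⟨wv, kv⟩ ⟨wu, ku⟩
            (opt_third hg.2.1 hg.1 (dm0 jj wx) hg.2.2.1.symm (Ne.symm c))
  have uncK : ∀ v, μ (vx v) = vx v → P.Ks x v := by
    intro v e
    by_cases hv : v ∈ free f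
    · rw [h.fr] at hv
      rcases mem_insert.1 hv with s | s
      exacts [by rw [s]; exact Or.inl kx, by rw [mem_singleton.1 s]; exact Or.inr ky]
    rw [mem_free] at hv
    push Not at hv
    obtain ⟨j, hj⟩ := hv
    rcases im.cases j with ⟨e1, e0⟩ | ⟨c, e1, _, e0⟩ | ⟨u, w, e1, hg, hq, e0, e2⟩ |
      ⟨u, w, e1, hg, _, e0, e2⟩ | ⟨u, w, _, _, hq, _⟩
    · rw [e1] at hj; simp at hj
    · rw [e1, mem_singleton] at hj; subst hj; have := hμ.flip e0; rw [e] at this; simp at this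
    · rw [e1] at hj
      rcases mem_insert.1 hj with s | s
      · exact s ▸ hq
      · have := hμ.flip e0; rw [← mem_singleton.1 s, e] at this; simp at this
    · rw [e1] at hj
      rcases mem_insert.1 hj with s | s
      · rw [← s, e] at e2; exact absurd (s ▸ (by simpa using e2)) hg.ne
      · have := hμ.flip e2; rw [← mem_singleton.1 s, e] at this
        exact absurd (((by simpa using this : v = u).symm).trans (mem_singleton.1 s)) hg.ne
    · exact hq.elim
  have unm : ∀ i, μ (ag i) = ag i → P.JD i := fun i hi => by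
    rcases im.cases i with ⟨e1, _⟩ | ⟨c, _, _, e0⟩ | ⟨u, w, e1, hg, _⟩ | ⟨u, w, e1, hg, _⟩ |
      ⟨u, w, e1, hg, _⟩
    · exact (by_contra fun t => h.srv i t e1 : i = o) ▸ jo
    · rw [hi] at e0; simp at e0
    all_goals exact (jp i u w e1 hg).1
  have sd : ∀ j, ∃ u, ∀ e, μ (ag j) = vx e → P.col j e ≠ none →
      u ∈ f j ∧ P.Good j u e ∧ P.Ks x u ∧ μ (vx u) = vx u := by
    intro j
    rcases im.cases j with ⟨_, e0⟩ | ⟨c, _, hc, e0⟩ | ⟨u, w, e1, hg, hq, e0, e2⟩ | ⟨u, w, _, _, _, e0, _⟩ |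
      ⟨u, w, _, _, hq, _⟩
    · exact ⟨x, fun e s => by rw [e0] at s; simp at s⟩
    · exact ⟨x, fun e s c => by rw [e0] at s; exact absurd ((by simpa using s : _ = e) ▸ hc) c⟩
    · exact ⟨u, fun e s _ => by
        rw [e0] at s; exact ⟨by simp [e1], (by simpa using s : w = e) ▸ hg, hq, e2⟩⟩
    · exact ⟨x, fun e s => by rw [e0] at s; simp at s⟩
    · exact hq.elim
  choose hid hhid using sd
  obtain ⟨ν, hν, t⟩ := h.opt (fun _ => (0 : ℕ)) T.crit hP hμ im.cov im.cw
  have c0 : cov μ + 2 ≤ 2 * Fintype.card J := by have := h.sv; rw [im.cov]; omega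
  have ncF : ∀ j e, ν (ag j) = vx e → P.col j e ≠ none → P.JD j ∧ P.Fs x e := fun j e s c =>
    (edge_av hν.hν s).resolve_left c
  have new : ∀ j e, ν (ag j) = vx e → P.col j e ≠ none → μ (ag j) ≠ vx e → μ (ag j) = ag j :=
    fun j e s c n => by_contra fun hj => opt_hard hν c0 s n hj
      (fun u => (ncF j e s c).2.2 (uncK e u)) c fun i hi => Or.inr ⟨unm i hi, (ncF j e s c).2⟩
  have bound : ∀ (C : V → Prop) (z : V) (N : Finset J), z ∈ free f → C z → N ⊆ P.NC ν →
      (∀ j ∈ N, ∀ u e, ν (ag j) = vx e → P.Good j u e → P.Ks x u → C u) →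
      N.card ≤ ((bo vx μ ν).filter C).card + 1 := by
    intro C z N hz cz sub hC
    have a1 := card_filter_add_card_filter_not (s := N) (fun j => μ (ag j) = ag j)
    have a2 : (N.filter fun j => μ (ag j) = ag j).card ≤ gn ag μ ν := card_le_card fun j hj => by
      obtain ⟨v, e, _⟩ := mem_NC.1 (sub (mem_filter.1 hj).1)
      exact mem_filter.2 ⟨mem_univ _, (mem_filter.1 hj).2, by rw [e]; simp⟩
    have k : ∀ j ∈ N.filter fun j => ¬ μ (ag j) = ag j, hid j ∈ f j ∧ C (hid j) ∧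
        μ (vx (hid j)) = vx (hid j) := fun j hj => by
      obtain ⟨j1, j2⟩ := mem_filter.1 hj
      obtain ⟨v, e, c⟩ := mem_NC.1 (sub j1)
      obtain ⟨s1, s2, s3, s4⟩ := hhid j v (by_contra fun s => j2 (new j v e c s)) c
      exact ⟨s1, hC j j1 _ v e s2 s3, s4⟩
    have a3 : (insert z ((N.filter fun j => ¬ μ (ag j) = ag j).image hid)).card ≤
        ((bo vx μ ν).filter C).card + gn vx μ ν := by
      refine le_trans (card_le_card fun v hv => ?_) (card_union_le _ _)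
      have : μ (vx v) = vx v ∧ C v := by
        rcases mem_insert.1 hv with s | s
        · rw [s]; exact ⟨by_contra fun e => (im.used z e).elim fun j hj => mem_free.1 hz j hj, cz⟩
        · obtain ⟨j, hj, rfl⟩ := mem_image.1 s; exact ⟨(k j hj).2.2, (k j hj).2.1⟩
      by_cases u : ν (vx v) = vx v
      · exact mem_union_left _ (mem_filter.2 ⟨mem_bo.2 ⟨this.1, u⟩, this.2⟩)
      · exact mem_union_right _ (mem_filter.2 ⟨mem_univ _, this.1, u⟩)
    rw [card_insert_of_notMem (fun s => by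
      obtain ⟨j, hj, e⟩ := mem_image.1 s; exact mem_free.1 hz j (e ▸ (k j hj).1)),
      card_image_of_injOn fun i hi j hj e => h.norm.1.eq (k i hi).1
        ((show hid i = hid j from e) ▸ (k j hj).1)] at a3
    have := opt_ends hν
    omega
  have side : ∀ q u, ν (vx q) = vx u → u ≠ q → (P.Xs x q ↔ ¬ P.Xs x u) := fun q u e hne => by
    rcases edge_vv hν.hν e hne.symm with ⟨a, b, _⟩ | ⟨a, b, _⟩
    · exact ⟨fun _ s => dis u s b, fun _ => a⟩
    · exact ⟨fun s => absurd b (dis q s), fun s => absurd a s⟩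
  obtain ⟨φ, f1, f2, _⟩ := ext_inj (Pq ν (P.Xs x)) ∅ (bo ag μ ν) (fun _ => o) (empty_subset _)
    (by simp) (by simp) (by have := opt_owner hν c0; rw [vv_eq hν.hν.1 side] at this; omega)
  have build : ∀ (N N' : Finset J) (U U' : Finset V), Disjoint U U' → U ⊆ bo vx μ ν →
      U' ⊆ bo vx μ ν → (∀ j ∈ N, ∀ p ∈ U, ∀ e, ν (ag j) = vx e → P.Good j p e) →
      (∀ j ∈ N', ∀ p ∈ U', ∀ e, ν (ag j) = vx e → P.Good j p e) → N.card ≤ U.card →
      N'.card ≤ U'.card → ∀ (A : Finset J) (S : Finset V), (∀ j ∈ P.NC ν, j ∈ N ∨ j ∈ N' ∨ j ∈ A) →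
      (∀ v ∈ S, (∃ j ∈ A, ν (ag j) = vx v) ∨ (v ∈ bo vx μ ν ∧ v ∉ U ∧ v ∉ U')) → ∃ g, P.PS g A S := by
    intro N N' U U' dj u1 u2 a1 a2 c1 c2 A S hA hS
    obtain ⟨σ, q1, q2, _⟩ := ext_inj N ∅ U (fun _ => x) (empty_subset _) (by simp) (by simp) c1
    obtain ⟨σ', r1, r2, _⟩ := ext_inj N' ∅ U' (fun _ => x) (empty_subset _) (by simp) (by simp) c2
    let π : J → Finset V := fun j => if j ∈ N then {σ j} else if j ∈ N' then {σ' j} else ∅
    have mπ : ∀ j v, v ∈ π j ↔ (j ∈ N ∧ v = σ j) ∨ (j ∉ N ∧ j ∈ N' ∧ v = σ' j) := fun j v => by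
      simp only [π]; split_ifs <;> simp [*]
    have ha : Asg ν π (P.Xs x) φ := by
      refine ⟨hν.hν.1, disj_of fun i j v hi hj => ?_, fun j p hp => ?_, side,
        fun q hq => (mem_bo.1 (f1 q hq)).2, f2⟩
      · rcases (mπ i v).1 hi with ⟨a, b⟩ | ⟨_, a, b⟩ <;> rcases (mπ j v).1 hj with ⟨a', b'⟩ | ⟨_, a', b'⟩
        · exact q2 a a' (b.symm.trans b')
        · exact absurd (b' ▸ r1 j a') (disjoint_left.1 dj (b ▸ q1 i a))
        · exact absurd (b ▸ r1 i a) (disjoint_left.1 dj (b' ▸ q1 j a'))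
        · exact r2 a a' (b.symm.trans b')
      · rcases (mπ j p).1 hp with ⟨a, b⟩ | ⟨_, a, b⟩
        exacts [b ▸ (mem_bo.1 (u1 (q1 j a))).2, b ▸ (mem_bo.1 (u2 (r1 j a))).2]
    refine ⟨_, ha.ps hν.hν t.cov A S (fun j hj hm => ?_) (fun q hq _ => ?_) fun v hv => ?_⟩
    · rcases mate_ag hν.hν j with e | ⟨v, e, _⟩ | ⟨_, e⟩
      · exact absurd e hm
      · by_cases hc : P.col j v = none
        · exact serv_C (ha.head e) hc
        by_cases n : j ∈ N
        · exact (a1 j n _ (q1 j n) v e).serv (rz_part ((mπ j _).2 (Or.inl ⟨n, rfl⟩))) (ha.head e)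
        · have n' := ((hA j (mem_NC.2 ⟨v, e, hc⟩)).resolve_left n).resolve_right hj
          exact (a2 j n' _ (r1 j n') v e).serv (rz_part ((mπ j _).2 (Or.inr ⟨n, n', rfl⟩))) (ha.head e)
      · exact e.elim
    · obtain ⟨z, u, hne, e⟩ := mem_Pq.1 hq
      have m := rz_pair (π := π) (L := P.Xs x) (φ := φ) z hne e
      have jq := unm _ (mem_bo.1 (f1 q hq)).1
      rcases edge_vv hν.hν e hne.symm with ⟨_, b, c⟩ | ⟨_, b, _⟩
      · exact serv_of m.1 m.2 (z.2 _ jq ▸ (b.2 _ jq).symm) c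
      · exact absurd b (dis q z)
    · rcases hS v hv with ⟨j, hj, e⟩ | ⟨a, b, c⟩
      · exact Or.inl ⟨j, hj, ha.head e⟩
      · refine Or.inr ⟨(mem_bo.1 a).2, fun j _ s => ?_⟩
        rcases (mπ j v).1 s with ⟨a, e⟩ | ⟨_, a, e⟩
        exacts [b (e ▸ q1 j a), c (e ▸ r1 j a)]
  have fail : ∀ (N N' : Finset J) (U U' : Finset V), Disjoint U U' → U ⊆ bo vx μ ν →
      U' ⊆ bo vx μ ν → (∀ j ∈ N, ∀ p ∈ U, ∀ e, ν (ag j) = vx e → P.Good j p e) →
      (∀ j ∈ N', ∀ p ∈ U', ∀ e, ν (ag j) = vx e → P.Good j p e) → N.card ≤ U.card + 1 →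
      N.card + N'.card ≤ U.card + U'.card → N ⊆ P.NC ν → (∀ j ∈ P.NC ν, j ∈ N ∨ j ∈ N') →
      N.card ≤ U.card := by
    intro N N' U U' dj u1 u2 a1 a2 c1 c2 sub hA
    by_contra hc
    obtain ⟨j, hj⟩ : N.Nonempty := card_pos.1 (by omega)
    obtain ⟨w, hw⟩ : U'.Nonempty := card_pos.1 (by omega)
    obtain ⟨e, e1, e2⟩ := mem_NC.1 (sub hj)
    have kw := uncK w (mem_bo.1 (u2 hw)).1
    obtain ⟨g, ps⟩ := build (N.erase j) N' U (U'.erase w) (dj.mono_right (erase_subset _ _)) u1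
      ((erase_subset _ _).trans u2) (fun i hi => a1 i (mem_of_mem_erase hi))
      (fun i hi p hp => a2 i hi p (mem_of_mem_erase hp)) (by rw [card_erase_of_mem hj]; omega)
      (by rw [card_erase_of_mem hw]; omega) {j} {w, e} (fun i hi => by
        by_cases s : i = j
        · simp [s]
        · rcases hA i hi with a | a <;> simp [s, a]) (by
        simp only [mem_insert, mem_singleton, forall_eq_or_imp, forall_eq, exists_eq_left]
        exact ⟨Or.inr ⟨u2 hw, disjoint_right.1 dj hw, notMem_erase _ _⟩, Or.inl e1⟩)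
    exact fk_nonH wx kw (ncF j e e1 e2).2 (noI g j w e ps fun s => (ncF j e e1 e2).2.2 (s ▸ kw))
  let pY : J → Prop := fun j => ∀ e, ν (ag j) = vx e → P.col j e = P.col j x
  have dU : Disjoint ((bo vx μ ν).filter (P.Xs x)) ((bo vx μ ν).filter (P.Ys x)) :=
    disjoint_left.2 fun v a b => dis v (mem_filter.1 a).2 (mem_filter.1 b).2
  have hd : ∀ j ∈ P.NC ν, ∀ e, ν (ag j) = vx e → P.col j e ≠ none := fun j hj e s => by
    obtain ⟨v, s', c⟩ := mem_NC.1 hj
    rw [s] at s'; exact (by simpa using s' : e = v) ▸ c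
  have nY : ∀ j, ¬ pY j → ∀ e, ν (ag j) = vx e → P.col j e ≠ P.col j x := fun j hj e s c =>
    hj fun e' s' => by rw [s] at s'; exact (by simpa using s' : e = e') ▸ c
  have aX : ∀ j ∈ (P.NC ν).filter fun j => ¬ pY j, ∀ p ∈ (bo vx μ ν).filter (P.Xs x), ∀ e,
      ν (ag j) = vx e → P.Good j p e := fun j hj p hp e s => by
    obtain ⟨j1, j2⟩ := mem_filter.1 hj
    obtain ⟨jj, fe⟩ := ncF j e s (hd j j1 e s)
    have xp := (mem_filter.1 hp).2
    exact ⟨dm0 jj xp.1, hd j j1 e s, xp.2 j jj ▸ (nY j j2 e s).symm, fk_nonH wx (Or.inl xp) fe⟩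
  have aY : ∀ j ∈ (P.NC ν).filter pY, ∀ p ∈ (bo vx μ ν).filter (P.Ys x), ∀ e,
      ν (ag j) = vx e → P.Good j p e := fun j hj p hp e s => by
    obtain ⟨j1, j2⟩ := mem_filter.1 hj
    obtain ⟨jj, fe⟩ := ncF j e s (hd j j1 e s)
    have xp := (mem_filter.1 hp).2
    exact ⟨dm0 jj xp.1, hd j j1 e s, j2 e s ▸ xp.2 j jj, fk_nonH wx (Or.inr xp) fe⟩
  have tot := card_filter_add_card_filter_not (s := P.NC ν) pY
  have pool := opt_pool hν (by
    have := h.norm.card
    rw [h.fr, card_pair h.ne] at this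
    rw [im.cov, im.cw]; omega)
  have spl : (bo vx μ ν).card ≤ ((bo vx μ ν).filter (P.Xs x)).card +
      ((bo vx μ ν).filter (P.Ys x)).card :=
    le_trans (card_le_card fun v hv => by
      rcases uncK v (mem_bo.1 hv).1 with s | s
      exacts [mem_union_left _ (mem_filter.2 ⟨hv, s⟩), mem_union_right _ (mem_filter.2 ⟨hv, s⟩)])
      (card_union_le _ _)
  have cov : ∀ j ∈ P.NC ν, j ∈ (P.NC ν).filter (fun j => ¬ pY j) ∨ j ∈ (P.NC ν).filter pY :=
    fun j hj => by by_cases s : pY j <;> simp [hj, s]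
  have bX := bound (P.Xs x) x ((P.NC ν).filter fun j => ¬ pY j) (by simp [h.fr]) kx
    (filter_subset _ _) fun j hj u e s hg ku => ku.resolve_right fun yu => by
      obtain ⟨j1, j2⟩ := mem_filter.1 hj
      obtain ⟨jj, fe⟩ := ncF j e s (hd j j1 e s)
      exact hg.2.2.1 ((eqy j u jj yu.1 (yu.2 j jj)).trans (eqy j e jj fe.1 (nY j j2 e s)).symm)
  have bY := bound (P.Ys x) y ((P.NC ν).filter pY) (by simp [h.fr]) ky
    (filter_subset _ _) fun j hj u e s hg ku => ku.resolve_left fun xu => by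
      obtain ⟨j1, j2⟩ := mem_filter.1 hj
      exact hg.2.2.1 ((xu.2 j (ncF j e s (hd j j1 e s)).1).trans (j2 e s).symm)
  have r1 := fail _ _ _ _ dU (filter_subset _ _) (filter_subset _ _) aX aY bX (by omega)
    (filter_subset _ _) cov
  have r2 := fail _ _ _ _ dU.symm (filter_subset _ _) (filter_subset _ _) aY aX bY (by omega)
    (filter_subset _ _) fun j hj => (cov j hj).symm
  obtain ⟨g, ps⟩ := build _ _ _ _ dU (filter_subset _ _) (filter_subset _ _) aX aY r1 r2 ∅ ∅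
    (fun j hj => (cov j hj).imp_right Or.inl) (by simp)
  exact T.nf ps.feasible

theorem tc_false (T : TC P) (hc : P.Char) {f : J → Finset V} {o : J} {a b : V} (hab : a ≠ b)
    (h : P.PS f {o} {a, b}) : False := by
  have hc3 := hc.2.2 T.crit
  have key : ∀ n, ∀ g i x y, IS P g i x y → ¬ P.H x y → (P.SP g x y).card = n → False := by
    intro n
    induction n using Nat.strong_induction_on with
    | _ n ih =>
      intro g i x y hi hH hn
      by_cases hR : ∀ j, P.JD j → P.col j x = P.col j y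
      · exact tcR T hi hH hR (hc3.1 x y)
      push Not at hR
      obtain ⟨z, jz, hz⟩ := hR
      by_cases hs : ∃ j u v, g j = {u, v} ∧ P.Good j u v ∧ P.col j x = P.col j u ∧
          P.col j y = P.col j u ∧ ¬ P.H x v ∧ ¬ P.H y v
      · obtain ⟨j, u, v, s1, s2, s3, s4, s5, s6⟩ := hs
        exact tcI T hi jz hz s1 s2 s3 s4 s5 s6 (hc.2.1 0 (Nat.zero_le _) x y u).1
      · obtain ⟨g', i', x', y', k1, k2, k3⟩ := tcII T hi hH jz hz
          (fun j u v s1 s2 s3 s4 s5 s6 => hs ⟨j, u, v, s1, s2, s3, s4, s5, s6⟩) (hc3.1 x y)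
        exact ih _ (hn ▸ k3) g' i' x' y' k1 k2 rfl
  have noI : ∀ g z a b, P.PS g {z} {a, b} → a ≠ b → P.H a b := fun g z a b ps ab => by
    obtain ⟨g', g1, _⟩ := ps.toIS ab T.crit
    exact by_contra fun hH => key _ g' z a b g1 hH rfl
  obtain ⟨g, g1, _⟩ := h.toIS hab T.crit
  exact tcK T g1 (noI f o a b h hab) noI (hc3.2.1 a (g1.jd T.crit).2.1).1

/-- Completeness, given the gadget theorem. -/
theorem feasible_of_char_of_gadget (hc : P.Char) (hg : P.Crit → P.Gadget → P.Feasible) :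
    P.Feasible :=
  feasible_of_tc hc fun hcr _ _ _ _ hab h =>
    by_contra fun nf => tc_false ⟨hcr, nf, fun g => nf (hg hcr g)⟩ hc hab h

end AP

end Pool.Agent.Lib.MP_ef7581_lc
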