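import Mathlib
import Pool.Agent.Lib.MP_ef7581_lc.TCK
import Pool.Agent.Lib.MP_ef7581_lc.Gad3

/-!
Completeness of the characterisation.
-/

set_option autoImplicit false

namespace Pool.Agent.Lib.MP_ef7581_lc

theorem AP.feasible_of_char {J V : Type} [Fintype J] [Fintype V] [DecidableEq J] [DecidableEq V]
    (P : AP J V) (hc : P.Char) : P.Feasible :=
  AP.feasible_of_char_of_gadget hc (AP.gadget_feasible hc)

end Pool.Agent.Lib.MP_ef7581_lc
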