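import Mathlib

-- part Pool.Agent.Lib.MP_ef7581_lc.Defs
section

/-!
The abstract problem behind Disjoint Paths on 3P1-free graphs and its characterisation `Char`.
Agents `J` are the non-adjacent terminal pairs, `V` the non-terminals, `H` the complement graph,
`col j v = none` (colour C) if `v` sees both terminals, `some false / some true` if only one.
-/

set_option autoImplicit false

namespace Pool.Agent.Lib.MP_ef7581_lc

open Finset

/-! ### Matchings as involutions -/

/-- `m` is a matching along `E` (fixed points are the unmatched nodes). -/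
def IsM {α : Type} (E : α → α → Prop) (m : α → α) : Prop :=
  (∀ x, m (m x) = x) ∧ ∀ x, m x ≠ x → E x (m x)

/-- Twice the weight of `m`. -/
def wt2 {α : Type} [Fintype α] [DecidableEq α] (ω : α → α → ℕ) (m : α → α) : ℕ :=
  ∑ x, if m x = x then 0 else ω x (m x)

/-- Number of matched nodes (twice the size). -/
def cov {α : Type} [Fintype α] [DecidableEq α] (m : α → α) : ℕ :=
  (univ.filter fun x => m x ≠ x).card

/-! ### The abstract problem -/

structure AP (J V : Type) where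
  H : V → V → Prop
  col : J → V → Option Bool
  symm : ∀ u v, H u v → H v u
  irrefl : ∀ u, ¬ H u u
  tri : ∀ u v w, H u v → H v w → ¬ H u w
  compat : ∀ j u v, H u v → col j u ≠ none → col j u ≠ col j v

/-- Nodes of the auxiliary graphs: agents, vertices, one dummy per agent. -/
abbrev Nd (J V : Type) : Type := J ⊕ V ⊕ J

abbrev ag {J V : Type} (j : J) : Nd J V := Sum.inl j
abbrev vx {J V : Type} (v : V) : Nd J V := Sum.inr (Sum.inl v)
abbrev dm {J V : Type} (j : J) : Nd J V := Sum.inr (Sum.inr j)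

/-- Data of an auxiliary graph: non-C agent-vertex edges, pair edges, dummy edges. -/
structure Rx (J V : Type) where
  nc : J → V → Prop
  pe : V → V → Prop
  du : J → Prop

namespace AP

variable {J V : Type} (P : AP J V)

/-- The vertex set `s` serves agent `j`. -/
def Serv (j : J) (s : Finset V) : Prop :=
  ∃ u ∈ s, P.col j u = none ∨ ∃ v ∈ s, P.col j u ≠ P.col j v ∧ ¬ P.H u v

def Disj (f : J → Finset V) : Prop := ∀ i j, i ≠ j → Disjoint (f i) (f j)

def Feasible : Prop := ∃ f : J → Finset V, Disj f ∧ ∀ j, P.Serv j (f j)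

/-- Edges of the auxiliary graph (C-edges are always present). -/
def E (R : Rx J V) : Nd J V → Nd J V → Prop
  | Sum.inl j, Sum.inr (Sum.inl v) => P.col j v = none ∨ R.nc j v
  | Sum.inr (Sum.inl v), Sum.inl j => P.col j v = none ∨ R.nc j v
  | Sum.inr (Sum.inl u), Sum.inr (Sum.inl v) => R.pe u v ∨ R.pe v u
  | Sum.inl j, Sum.inr (Sum.inr i) => j = i ∧ R.du j
  | Sum.inr (Sum.inr i), Sum.inl j => j = i ∧ R.du j
  | _, _ => False

/-- Edge weights at level `l`: `l + 1`, and one more for C-edges. -/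
def om (l : ℕ) : Nd J V → Nd J V → ℕ
  | Sum.inl j, Sum.inr (Sum.inl v) => if P.col j v = none then l + 2 else l + 1
  | Sum.inr (Sum.inl v), Sum.inl j => if P.col j v = none then l + 2 else l + 1
  | _, _ => l + 1

/-- Only C-edges. -/
def R0 (J V : Type) : Rx J V := ⟨fun _ _ => False, fun _ _ => False, fun _ => False⟩

/-- The auxiliary graph of a reference: `Z` are the vertices with no `H`-neighbour in the
reference, `Maj j x` says that `x` is the majority colour of `j` on the reference. -/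
def Gam (Z : V → Prop) (Maj : J → Bool → Prop) : Rx J V where
  nc j v := ∃ x, Maj j x ∧ ((P.col j v = some (!x) ∧ Z v) ∨ (P.col j v = some x ∧ ¬ Z v))
  pe q z := ¬ Z q ∧ Z z ∧ ¬ P.H q z
  du j := ¬ ∃ x, Maj j x

def Z3 (a b c : V) (v : V) : Prop := ¬ P.H a v ∧ ¬ P.H b v ∧ ¬ P.H c v
def Z2 (a b : V) (v : V) : Prop := ¬ P.H a v ∧ ¬ P.H b v

def MajA (a b c : V) (j : J) (x : Bool) : Prop :=
  (P.col j a = some x ∧ P.col j b = some x) ∨ (P.col j a = some x ∧ P.col j c = some x) ∨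
    (P.col j b = some x ∧ P.col j c = some x)

def MajB (p q y : V) (j : J) (x : Bool) : Prop :=
  (P.col j p = some x ∧ P.col j q = some x) ∨
    (P.col j p = none ∧ P.col j q = some x ∧ P.col j y ≠ none) ∨
    (P.col j q = none ∧ P.col j p = some x ∧ P.col j y ≠ none)

def Maj2 (a b : V) (j : J) (x : Bool) : Prop := P.col j a = some x ∧ P.col j b = some x

def GamA (a b c : V) : Rx J V := P.Gam (P.Z3 a b c) (P.MajA a b c)
def GamB (p q y : V) : Rx J V := P.Gam (P.Z2 p q) (P.MajB p q y)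
def Gam2 (a b : V) : Rx J V := P.Gam (P.Z2 a b) (P.Maj2 a b)

variable [Fintype J] [Fintype V] [DecidableEq J] [DecidableEq V]

/-- The relaxation given by `R` passes at level `l`. -/
def Phi (R : Rx J V) (l : ℕ) : Prop :=
  ∃ m, IsM (P.E R) m ∧
    2 * ((l + 3) * Fintype.card J) ≤ wt2 (P.om l) m + 2 * Fintype.card V

/-- Number of C-edges of `m`. -/
def cw (m : Nd J V → Nd J V) : ℕ :=
  (univ.filter fun j : J => ∃ v, m (ag j) = vx v ∧ P.col j v = none).card

/-- Maximum matchings of C-edges. -/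
def MaxC (m : Nd J V → Nd J V) : Prop :=
  IsM (P.E (R0 J V)) m ∧ ∀ m', IsM (P.E (R0 J V)) m' → cov m' ≤ cov m

/-- Vertices missed by some maximum C-matching. -/
def W (v : V) : Prop := ∃ m, P.MaxC m ∧ m (vx v) = vx v

/-- Agents missed by some maximum C-matching. -/
def JD (j : J) : Prop := ∃ m, P.MaxC m ∧ m (ag j) = ag j

def Xs (x v : V) : Prop := P.W v ∧ ∀ j, P.JD j → P.col j v = P.col j x
def Ys (x v : V) : Prop := P.W v ∧ ∀ j, P.JD j → P.col j v ≠ P.col j x
def Ks (x v : V) : Prop := P.Xs x v ∨ P.Ys x v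
def Fs (x v : V) : Prop := P.W v ∧ ¬ P.Ks x v

def GamK (x : V) : Rx J V where
  nc j v := P.JD j ∧ P.Fs x v
  pe u v := P.Xs x u ∧ P.Ys x v ∧ ¬ P.H u v
  du _ := False

def GamF (x : V) : Rx J V where
  nc _ _ := False
  pe u v := P.Xs x u ∧ P.Ys x v ∧ ¬ P.H u v
  du _ := False

open Classical in
/-- Number of unmatched vertices with property `p`. -/
noncomputable def unc (p : V → Prop) (m : Nd J V → Nd J V) : ℕ :=
  (univ.filter fun v : V => p v ∧ m (vx v) = vx v).card

/-- Flexible vertex side. -/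
def Flex (x : V) : Prop :=
  ∃ m, IsM (P.E (P.GamF x)) m ∧ P.cw m + Fintype.card V = 2 * Fintype.card J ∧
    unc (P.Ks x) m ≤ unc (P.Fs x) m ∧
    ((∃ u v, u ≠ v ∧ m (vx u) = vx v) ∨ unc (P.Ks x) m < unc (P.Fs x) m)

/-- A solution all of whose pairs are mixed. -/
def ExactSol (x : V) : Prop :=
  ∃ f : J → Finset V, Disj f ∧ ∀ j, (∃ c ∈ f j, P.col j c = none) ∨
    ∃ u ∈ f j, ∃ v ∈ f j, P.Fs x u ∧ P.Ks x v ∧ P.col j u ≠ P.col j v

def TwoStruct (a b : V) : Prop :=
  P.W a ∧ P.Fs a b ∧ ∀ v, P.W v → P.Ks a v ∨ P.Ks b v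

/-- There is a C-matching of size at least `2k - n`. -/
def C0 : Prop :=
  ∃ m, IsM (P.E (R0 J V)) m ∧ 4 * Fintype.card J ≤ cov m + 2 * Fintype.card V

/-- Every C-matching has size at most `2k - n`. -/
def Crit : Prop :=
  ∀ m, IsM (P.E (R0 J V)) m → cov m + 2 * Fintype.card V ≤ 4 * Fintype.card J

/-- The characterisation of feasibility. -/
def Char : Prop :=
  P.C0 ∧
  (∀ l ≤ Fintype.card V, ∀ a b c, P.Phi (P.GamA a b c) l ∧ P.Phi (P.GamB a b c) l) ∧
  (P.Crit →
    (∀ a b, P.Phi (P.Gam2 a b) 0) ∧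
    (∀ x, P.W x → P.Phi (P.GamK x) 0 ∧ (P.Flex x ∨ P.ExactSol x)) ∧
    (∀ a b, P.TwoStruct a b → P.Feasible))

end AP

end Pool.Agent.Lib.MP_ef7581_lc
end

-- part Pool.Agent.Lib.MP_ef7581_lc.Mat
section

/-!
Toolkit on matchings given as involutions: mixing along closed sets, cutting and linking edges,
the path lemma, additive functionals.
-/

set_option autoImplicit false

namespace Pool.Agent.Lib.MP_ef7581_lc

open Finset

variable {α : Type} [DecidableEq α]

/-- `ν` on `X`, `μ` elsewhere. -/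
def mix (X : Finset α) (μ ν : α → α) : α → α := fun x => if x ∈ X then ν x else μ x

/-- `X` is closed under `m`. -/
def Cl (X : Finset α) (m : α → α) : Prop := ∀ x ∈ X, m x ∈ X

/-- Remove the edge at `a`. -/
def cut (a : α) (m : α → α) : α → α := fun x => if x = a ∨ x = m a then x else m x

/-- Add the edge `a b`. -/
def link (a b : α) (m : α → α) : α → α := fun x => if x = a then b else if x = b then a else m x

/-- `x` is covered by exactly one of the two matchings. -/
def IsEnd (μ ν : α → α) (x : α) : Prop := (μ x = x ∧ ν x ≠ x) ∨ (μ x ≠ x ∧ ν x = x)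

instance (μ ν : α → α) (x : α) : Decidable (IsEnd μ ν x) := by unfold IsEnd; infer_instance

omit [DecidableEq α] in
theorem Cl.not_mem {X : Finset α} {m : α → α} (h : Cl X m) (hm : ∀ x, m (m x) = x) {x : α}
    (hx : x ∉ X) : m x ∉ X := fun h' => hx (hm x ▸ h _ h')

theorem Cl.sdiff {X Y : Finset α} {m : α → α} (hX : Cl X m) (hY : Cl Y m)
    (hm : ∀ x, m (m x) = x) : Cl (X \ Y) m := fun x hx => by
  rw [mem_sdiff] at hx ⊢
  exact ⟨hX x hx.1, hY.not_mem hm hx.2⟩

theorem Cl.union {X Y : Finset α} {m : α → α} (hX : Cl X m) (hY : Cl Y m) : Cl (X ∪ Y) m :=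
  fun x hx => by
    rw [mem_union] at hx ⊢
    exact hx.imp (hX x) (hY x)

theorem Cl.compl [Fintype α] {X : Finset α} {m : α → α} (hX : Cl X m) (hm : ∀ x, m (m x) = x) :
    Cl Xᶜ m := fun x hx => by
  rw [mem_compl] at hx ⊢
  exact hX.not_mem hm hx

theorem mix_in {X : Finset α} {μ ν : α → α} {x : α} (h : x ∈ X) : mix X μ ν x = ν x := if_pos h
theorem mix_out {X : Finset α} {μ ν : α → α} {x : α} (h : x ∉ X) : mix X μ ν x = μ x := if_neg h

theorem IsM.mix {E : α → α → Prop} {μ ν : α → α} (hμ : IsM E μ) (hν : IsM E ν) {X : Finset α}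
    (c1 : Cl X μ) (c2 : Cl X ν) : IsM E (mix X μ ν) := by
  constructor
  · intro x
    by_cases h : x ∈ X
    · rw [mix_in h, mix_in (c2 x h), hν.1]
    · rw [mix_out h, mix_out (c1.not_mem hμ.1 h), hμ.1]
  · intro x
    by_cases h : x ∈ X
    · rw [mix_in h]; exact hν.2 x
    · rw [mix_out h]; exact hμ.2 x

theorem cut_self (a : α) (m : α → α) : cut a m a = a := by simp [cut]
theorem cut_mate (a : α) (m : α → α) : cut a m (m a) = m a := by simp [cut]
theorem cut_ne {a x : α} {m : α → α} (h1 : x ≠ a) (h2 : x ≠ m a) : cut a m x = m x := by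
  simp [cut, h1, h2]
theorem cut_fix {a x : α} {m : α → α} (h : m x = x) : cut a m x = x := by
  unfold cut; split_ifs <;> simp [h]
theorem cut_cases (a x : α) (m : α → α) : cut a m x = x ∨ cut a m x = m x := by
  unfold cut; split_ifs <;> simp

theorem inv_cut {m : α → α} (hm : ∀ x, m (m x) = x) (a : α) : ∀ x, cut a m (cut a m x) = x := by
  intro x
  by_cases h : x = a ∨ x = m a
  · simp [cut, h]
  · have h1 : cut a m x = m x := if_neg h
    rw [h1]
    push Not at h
    have h2 : m x ≠ a := fun e => h.2 (by rw [← e, hm])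
    have h3 : m x ≠ m a := fun e => h.1 (by rw [← hm x, e, hm])
    rw [cut_ne h2 h3, hm]

theorem IsM.cut {E : α → α → Prop} {m : α → α} (h : IsM E m) (a : α) : IsM E (cut a m) := by
  refine ⟨inv_cut h.1 a, fun x hx => ?_⟩
  rcases cut_cases a x m with e | e
  · exact absurd e hx
  · rw [e] at hx ⊢; exact h.2 x hx

theorem link_left (a b : α) (m : α → α) : link a b m a = b := by simp [link]
theorem link_right {a b : α} (m : α → α) : link a b m b = a := by
  unfold link; split_ifs with h <;> simp_all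
theorem link_ne {a b x : α} {m : α → α} (h1 : x ≠ a) (h2 : x ≠ b) : link a b m x = m x := by
  simp [link, h1, h2]

theorem inv_link {m : α → α} (hm : ∀ x, m (m x) = x) {a b : α} (ha : m a = a) (hb : m b = b) :
    ∀ x, link a b m (link a b m x) = x := by
  intro x
  by_cases h1 : x = a
  · subst h1; rw [link_left, link_right]
  by_cases h2 : x = b
  · subst h2; rw [link_right, link_left]
  rw [link_ne h1 h2, link_ne, hm]
  · intro e; exact h1 (by rw [← hm x, e, ha])
  · intro e; exact h2 (by rw [← hm x, e, hb])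

theorem IsM.link {E : α → α → Prop} {m : α → α} (h : IsM E m) {a b : α} (ha : m a = a)
    (hb : m b = b) (e1 : E a b) (e2 : E b a) : IsM E (link a b m) := by
  refine ⟨inv_link h.1 ha hb, fun x hx => ?_⟩
  by_cases h1 : x = a
  · subst h1; rwa [link_left]
  by_cases h2 : x = b
  · subst h2; rwa [link_right]
  rw [link_ne h1 h2] at hx ⊢
  exact h.2 x hx

omit [DecidableEq α] in
theorem IsM.mono {E E' : α → α → Prop} {m : α → α} (h : IsM E m) (hE : ∀ x y, E x y → E' x y) :
    IsM E' m := ⟨h.1, fun x hx => hE _ _ (h.2 x hx)⟩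

omit [DecidableEq α] in
theorem IsEnd.symm {μ ν : α → α} {x : α} (h : IsEnd μ ν x) : IsEnd ν μ x := by
  unfold IsEnd at *; tauto

omit [DecidableEq α] in
theorem IsEnd.ne {μ ν : α → α} {x : α} (h : IsEnd μ ν x) : μ x ≠ ν x := by
  rcases h with ⟨a, b⟩ | ⟨a, b⟩
  · rw [a]; exact b.symm
  · rw [b]; exact a

/-- The path lemma: an end lies in a closed set with exactly one further end. -/
theorem path_lemma [Fintype α] : ∀ (n : ℕ) (μ ν : α → α), (∀ x, μ (μ x) = x) → (∀ x, ν (ν x) = x) →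
    (univ.filter fun x => μ x ≠ x).card + (univ.filter fun x => ν x ≠ x).card ≤ n →
    ∀ e, IsEnd μ ν e → ∃ (X : Finset α) (e' : α), e ∈ X ∧ e' ∈ X ∧ e' ≠ e ∧ Cl X μ ∧ Cl X ν ∧
      IsEnd μ ν e' ∧ (∀ x ∈ X, IsEnd μ ν x → x = e ∨ x = e') ∧ ∀ x ∈ X, μ x ≠ ν x := by
  intro n
  induction n with
  | zero =>
    intro μ ν _ _ hn e he
    exfalso
    rcases he with ⟨_, b⟩ | ⟨a, _⟩
    · have : 0 < (univ.filter fun x => ν x ≠ x).card := card_pos.2 ⟨e, by simp [b]⟩
      omega
    · have : 0 < (univ.filter fun x => μ x ≠ x).card := card_pos.2 ⟨e, by simp [a]⟩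
      omega
  | succ n ih =>
    have key : ∀ μ ν : α → α, (∀ x, μ (μ x) = x) → (∀ x, ν (ν x) = x) →
        (univ.filter fun x => μ x ≠ x).card + (univ.filter fun x => ν x ≠ x).card ≤ n + 1 →
        ∀ e, μ e = e → ν e ≠ e → ∃ (X : Finset α) (e' : α), e ∈ X ∧ e' ∈ X ∧ e' ≠ e ∧ Cl X μ ∧
          Cl X ν ∧ IsEnd μ ν e' ∧ (∀ x ∈ X, IsEnd μ ν x → x = e ∨ x = e') ∧
          ∀ x ∈ X, μ x ≠ ν x := by
      intro μ ν hμ hν hn e h1 h2
      by_cases hy : μ (ν e) = ν e
      · refine ⟨{e, ν e}, ν e, by simp, by simp, h2, ?_, ?_, Or.inl ⟨hy, ?_⟩, ?_, ?_⟩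
        · intro x hx; simp only [mem_insert, mem_singleton] at hx ⊢
          rcases hx with rfl | rfl <;> simp [h1, hy]
        · intro x hx; simp only [mem_insert, mem_singleton] at hx ⊢
          rcases hx with rfl | rfl <;> simp [hν]
        · rw [hν]; exact h2.symm
        · intro x hx _; simpa using hx
        · intro x hx; simp only [mem_insert, mem_singleton] at hx
          rcases hx with rfl | rfl
          · rw [h1]; exact h2.symm
          · rw [hy, hν]; exact h2
      · have hlt : (univ.filter fun x => cut e ν x ≠ x).card <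
            (univ.filter fun x => ν x ≠ x).card := by
          apply card_lt_card
          rw [ssubset_iff_of_subset]
          · exact ⟨e, by simp [h2], by simp [cut_self]⟩
          · intro x hx
            simp only [mem_filter, mem_univ, true_and] at hx ⊢
            intro e'; exact hx (cut_fix e')
        obtain ⟨X, e', m1, m2, m3, c1, c2, m4, m5, m6⟩ :=
          ih μ (cut e ν) hμ (inv_cut hν e) (by omega) (ν e) (Or.inr ⟨hy, cut_mate e ν⟩)
        have heX : e ∉ X := fun h => m6 e h (by rw [h1, cut_self])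
        have hc : ∀ x ∈ X, x ≠ ν e → cut e ν x = ν x := fun x hx hne =>
          cut_ne (fun h => heX (h ▸ hx)) hne
        have he' : e' ≠ e := fun h => heX (h ▸ m2)
        refine ⟨insert e X, e', by simp, by simp [m2], he', ?_, ?_, ?_, ?_, ?_⟩
        · intro x hx; rw [mem_insert] at hx ⊢
          rcases hx with rfl | hx
          · exact Or.inl h1
          · exact Or.inr (c1 x hx)
        · intro x hx; rw [mem_insert] at hx ⊢
          rcases hx with rfl | hx
          · exact Or.inr m1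
          · by_cases h : x = ν e
            · left; rw [h, hν]
            · right; rw [← hc x hx h]; exact c2 x hx
        · unfold IsEnd at m4 ⊢; rwa [hc e' m2 m3] at m4
        · intro x hx hend; rw [mem_insert] at hx
          rcases hx with rfl | hx
          · exact Or.inl rfl
          · by_cases h : x = ν e
            · exfalso; subst h
              rcases hend with ⟨a, _⟩ | ⟨_, b⟩
              · exact hy a
              · rw [hν] at b; exact h2 b.symm
            · have := m5 x hx (by unfold IsEnd at hend ⊢; rwa [hc x hx h])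
              tauto
        · intro x hx; rw [mem_insert] at hx
          rcases hx with rfl | hx
          · rw [h1]; exact h2.symm
          · by_cases h : x = ν e
            · subst h; rw [hν]; intro h'
              exact h2 (by rw [← hμ (ν e), h', h1])
            · rw [← hc x hx h]; exact m6 x hx
    intro μ ν hμ hν hn e he
    rcases he with ⟨a, b⟩ | ⟨a, b⟩
    · exact key μ ν hμ hν hn e a b
    · obtain ⟨X, e', m1, m2, m3, c1, c2, m4, m5, m6⟩ := key ν μ hν hμ (by omega) e b a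
      exact ⟨X, e', m1, m2, m3, c2, c1, m4.symm, fun x hx h => m5 x hx h.symm,
        fun x hx => (m6 x hx).symm⟩

theorem exists_path [Fintype α] {μ ν : α → α} (hμ : ∀ x, μ (μ x) = x) (hν : ∀ x, ν (ν x) = x)
    {e : α} (he : IsEnd μ ν e) : ∃ (X : Finset α) (e' : α), e ∈ X ∧ e' ∈ X ∧ e' ≠ e ∧ Cl X μ ∧
      Cl X ν ∧ IsEnd μ ν e' ∧ (∀ x ∈ X, IsEnd μ ν x → x = e ∨ x = e') ∧ ∀ x ∈ X, μ x ≠ ν x :=
  path_lemma _ μ ν hμ hν le_rfl e he

/-! ### Additive functionals -/

variable [Fintype α]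

/-- Sum of a node function along a matching. -/
def sm (g : α → α → ℤ) (m : α → α) : ℤ := ∑ x, g x (m x)

theorem sm_sub_of_eq (g : α → α → ℤ) {m m' : α → α} (S : Finset α)
    (h : ∀ x, x ∉ S → m' x = m x) :
    sm g m' = sm g m + ∑ x ∈ S, (g x (m' x) - g x (m x)) := by
  unfold sm
  have : ∑ x, g x (m' x) - ∑ x, g x (m x) = ∑ x ∈ S, (g x (m' x) - g x (m x)) := by
    rw [← sum_sub_distrib]
    symm
    apply sum_subset (subset_univ S)
    intro x _ hx; rw [h x hx, sub_self]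
  linarith

theorem sm_mix (g : α → α → ℤ) (X : Finset α) (μ ν : α → α) :
    sm g (mix X μ ν) = sm g μ + ∑ x ∈ X, (g x (ν x) - g x (μ x)) := by
  rw [sm_sub_of_eq g X (m := μ) (fun x hx => mix_out hx)]
  congr 1
  exact sum_congr rfl fun x hx => by rw [mix_in hx]

theorem sm_mix_add (g : α → α → ℤ) (X : Finset α) (μ ν : α → α) :
    sm g (mix X μ ν) + sm g (mix Xᶜ μ ν) = sm g μ + sm g ν := by
  rw [sm_mix, sm_mix, add_add_add_comm, sum_add_sum_compl]
  unfold sm
  rw [sum_sub_distrib]; ring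

theorem sm_link (g : α → α → ℤ) {m : α → α} {a b : α} (hab : a ≠ b) (ha : m a = a)
    (hb : m b = b) : sm g (link a b m) = sm g m + (g a b - g a a) + (g b a - g b b) := by
  rw [sm_sub_of_eq g {a, b} (m := m) (m' := link a b m)]
  · rw [sum_pair hab, link_left, link_right, ha, hb]; ring
  · intro x hx; simp only [mem_insert, mem_singleton, not_or] at hx; exact link_ne hx.1 hx.2

theorem sm_cut (g : α → α → ℤ) {m : α → α} (hm : ∀ x, m (m x) = x) {a b : α} (hab : a ≠ b)
    (h : m a = b) : sm g (cut a m) = sm g m + (g a a - g a b) + (g b b - g b a) := by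
  subst h
  rw [sm_sub_of_eq g {a, m a} (m := m) (m' := cut a m)]
  · rw [sum_pair hab, cut_self, cut_mate, hm]; ring
  · intro x hx; simp only [mem_insert, mem_singleton, not_or] at hx; exact cut_ne hx.1 hx.2

theorem sm_indicator (p : α → α → Prop) [∀ x y, Decidable (p x y)] (m : α → α) :
    sm (fun x y => if p x y then 1 else 0) m = ((univ.filter fun x => p x (m x)).card : ℤ) := by
  unfold sm; simp

end Pool.Agent.Lib.MP_ef7581_lc
end

-- part Pool.Agent.Lib.MP_ef7581_lc.DM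
section

/-!
Dulmage-Mendelsohn type lemmas for maximum C-matchings.
-/

set_option autoImplicit false

namespace Pool.Agent.Lib.MP_ef7581_lc

open Finset

section General

variable {α : Type} [DecidableEq α] [Fintype α]

/-- Sum of `g` over the matched nodes. -/
def cv (g : α → ℤ) (m : α → α) : ℤ := ∑ x, if m x = x then 0 else g x

theorem cov_eq_cv (m : α → α) : (cov m : ℤ) = cv (fun _ => 1) m := by
  unfold cov cv
  rw [card_filter]
  push_cast
  exact sum_congr rfl fun x _ => by by_cases h : m x = x <;> simp [h]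

theorem cv_mix_add (g : α → ℤ) (X : Finset α) (μ ν : α → α) :
    cv g (mix X μ ν) + cv g (mix Xᶜ μ ν) = cv g μ + cv g ν :=
  sm_mix_add (fun x y => if y = x then 0 else g x) X μ ν

theorem cv_mix_path (g : α → ℤ) {X : Finset α} {μ ν : α → α} {e e' : α} (he : e ∈ X)
    (he' : e' ∈ X) (hne : e' ≠ e) (h : ∀ x ∈ X, IsEnd μ ν x → x = e ∨ x = e') :
    cv g (mix X μ ν) = cv g μ +
      (((if ν e = e then 0 else g e) - (if μ e = e then 0 else g e)) +
        ((if ν e' = e' then 0 else g e') - (if μ e' = e' then 0 else g e'))) := by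
  refine (sm_mix (fun x y => if y = x then 0 else g x) X μ ν).trans ?_
  congr 1
  rw [← sum_pair (f := fun x => (if ν x = x then 0 else g x) - (if μ x = x then 0 else g x))
    hne.symm]
  symm
  refine sum_subset (fun x hx => ?_) fun x hx hx' => ?_
  · rcases mem_insert.1 hx with rfl | hx
    · exact he
    · rwa [mem_singleton.1 hx]
  · have : ¬ IsEnd μ ν x := fun h' => hx' (by simpa using h x hx h')
    unfold IsEnd at this
    by_cases h1 : μ x = x <;> by_cases h2 : ν x = x <;> simp_all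

theorem cv_link (g : α → ℤ) {m : α → α} {a b : α} (hab : a ≠ b) (ha : m a = a) (hb : m b = b) :
    cv g (link a b m) = cv g m + g a + g b := by
  have := sm_link (fun x y => if y = x then 0 else g x) hab ha hb
  simpa [hab, hab.symm, sm, cv] using this

theorem cv_cut (g : α → ℤ) {m : α → α} (hm : ∀ x, m (m x) = x) {a b : α} (hab : a ≠ b)
    (h : m a = b) : cv g (cut a m) = cv g m - g a - g b := by
  have := sm_cut (fun x y => if y = x then 0 else g x) hm hab h
  simpa [hab, hab.symm, sub_eq_add_neg, sm, cv] using this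

theorem cov_link {m : α → α} {a b : α} (hab : a ≠ b) (ha : m a = a) (hb : m b = b) :
    cov (link a b m) = cov m + 2 := by
  have := cv_link (fun _ => 1) hab ha hb
  rw [← cov_eq_cv, ← cov_eq_cv] at this
  omega

theorem cov_cut {m : α → α} (hm : ∀ x, m (m x) = x) {a b : α} (hab : a ≠ b) (h : m a = b) :
    cov (cut a m) + 2 = cov m := by
  have := cv_cut (fun _ => 1) hm hab h
  rw [← cov_eq_cv, ← cov_eq_cv] at this
  omega

theorem cov_mix_add (X : Finset α) (μ ν : α → α) :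
    cov (mix X μ ν) + cov (mix Xᶜ μ ν) = cov μ + cov ν := by
  have := cv_mix_add (fun _ => 1) X μ ν
  simp only [← cov_eq_cv] at this
  omega

end General

/-- The side of a node. -/
def side {J V : Type} : Nd J V → ℤ
  | Sum.inl _ => 1
  | Sum.inr (Sum.inl _) => -1
  | Sum.inr (Sum.inr _) => 0

theorem eq_ag_of_side {J V : Type} {x : Nd J V} (h : side x = 1) : ∃ j, x = ag j := by
  rcases x with j | v | j
  · exact ⟨j, rfl⟩
  all_goals simp [side] at h

theorem eq_vx_of_side {J V : Type} {x : Nd J V} (h : side x = -1) : ∃ v, x = vx v := by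
  rcases x with j | v | j
  · simp [side] at h
  · exact ⟨v, rfl⟩
  · simp [side] at h

namespace AP

variable {J V : Type} (P : AP J V)

/-- C-matchings. -/
abbrev CM (m : Nd J V → Nd J V) : Prop := IsM (P.E (R0 J V)) m

variable {P}

theorem CM.ag_cases {m : Nd J V → Nd J V} (h : P.CM m) (j : J) :
    m (ag j) = ag j ∨ ∃ v, m (ag j) = vx v ∧ P.col j v = none := by
  by_cases h1 : m (ag j) = ag j
  · exact Or.inl h1
  have h2 := h.2 _ h1
  rcases h3 : m (ag j) with i | v | i <;> rw [h3] at h2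
  · exact h2.elim
  · exact Or.inr ⟨v, rfl, h2.resolve_right id⟩
  · exact h2.2.elim

theorem CM.vx_cases {m : Nd J V → Nd J V} (h : P.CM m) (v : V) :
    m (vx v) = vx v ∨ ∃ j, m (vx v) = ag j ∧ P.col j v = none := by
  by_cases h1 : m (vx v) = vx v
  · exact Or.inl h1
  have h2 := h.2 _ h1
  rcases h3 : m (vx v) with i | u | i <;> rw [h3] at h2
  · exact Or.inr ⟨i, rfl, h2.resolve_right id⟩
  · exact h2.elim (·.elim) (·.elim)
  · exact h2.elim

theorem CM.dm_fix {m : Nd J V → Nd J V} (h : P.CM m) (j : J) : m (dm j) = dm j := by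
  by_contra h1
  have h2 := h.2 _ h1
  rcases h3 : m (dm j) with i | u | i <;> rw [h3] at h2
  · exact h2.2
  · exact h2
  · exact h2

theorem CM.col_of {m : Nd J V → Nd J V} (h : P.CM m) {j : J} {v : V} (e : m (ag j) = vx v) :
    P.col j v = none := by
  rcases h.ag_cases j with h1 | ⟨u, h1, h2⟩ <;> rw [e] at h1
  · cases h1
  · cases h1; exact h2

theorem CM.flip {m : Nd J V → Nd J V} (h : P.CM m) {j : J} {v : V} :
    m (vx v) = ag j ↔ m (ag j) = vx v :=
  ⟨fun e => by rw [← e, h.1], fun e => by rw [← e, h.1]⟩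

variable [DecidableEq J] [DecidableEq V]

theorem CM.link_col {m : Nd J V → Nd J V} (h : P.CM m) {j : J} {v : V} (hj : m (ag j) = ag j)
    (hv : m (vx v) = vx v) (hc : P.col j v = none) : P.CM (link (ag j) (vx v) m) :=
  IsM.link h hj hv (Or.inl hc) (Or.inl hc)

variable [Fintype J] [Fintype V]

theorem CM.cv_side {m : Nd J V → Nd J V} (h : P.CM m) : cv side m = 0 := by
  refine sum_involution (fun x _ => m x) (fun x _ => ?_) (fun x _ hx e => hx (by simp [e]))
    (fun _ _ => mem_univ _) fun x _ => h.1 x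
  rcases x with j | v | j
  · rcases h.ag_cases j with e | ⟨v, e, -⟩
    · simp [e]
    · simp [e, h.flip.2 e, side]
  · rcases h.vx_cases v with e | ⟨j, e, -⟩
    · simp [e]
    · simp [e, h.flip.1 e, side]
  · simp [h.dm_fix j]

theorem MaxC.cm {m : Nd J V → Nd J V} (h : P.MaxC m) : P.CM m := h.1

theorem MaxC.of_le {m m' : Nd J V → Nd J V} (h : P.MaxC m) (h' : P.CM m') (hc : cov m ≤ cov m') :
    P.MaxC m' := ⟨h', fun μ hμ => (h.2 μ hμ).trans hc⟩

theorem MaxC.cov_eq {m m' : Nd J V → Nd J V} (h : P.MaxC m) (h' : P.MaxC m') : cov m = cov m' :=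
  le_antisymm (h'.2 _ h.1) (h.2 _ h'.1)

variable (P) in
theorem exists_maxC : ∃ m, P.MaxC m := by
  classical
  obtain ⟨m, h1, h2⟩ := exists_max_image (univ.filter fun m : Nd J V → Nd J V => P.CM m) cov
    ⟨id, mem_filter.2 ⟨mem_univ _, fun _ => rfl, fun _ h => (h rfl).elim⟩⟩
  exact ⟨m, (mem_filter.1 h1).2, fun m' h => h2 m' (mem_filter.2 ⟨mem_univ _, h⟩)⟩

theorem MaxC.mix {μ ν : Nd J V → Nd J V} (hμ : P.MaxC μ) (hν : P.MaxC ν) {X : Finset (Nd J V)}
    (c1 : Cl X μ) (c2 : Cl X ν) : P.MaxC (mix X μ ν) := by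
  have h1 := cov_mix_add X μ ν
  have h2 := hν.2 _ (IsM.mix hμ.1 hν.1 (c1.compl hμ.1.1) (c2.compl hν.1.1))
  exact hμ.of_le (IsM.mix hμ.1 hν.1 c1 c2) (by omega)

theorem MaxC.not_free {m : Nd J V → Nd J V} (h : P.MaxC m) {j : J} {v : V}
    (hj : m (ag j) = ag j) (hv : m (vx v) = vx v) : P.col j v ≠ none := fun hc => by
  have h1 := h.2 _ (h.cm.link_col hj hv hc)
  rw [cov_link (by simp) hj hv] at h1
  omega

/-- A free node can be moved: general form of `dm5`. -/
theorem MaxC.move {m μ : Nd J V → Nd J V} (h : P.MaxC m) (hμ : P.MaxC μ) {e : Nd J V}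
    (he : μ e = e) : ∃ m' e0, P.MaxC m' ∧ m e0 = e0 ∧ side e0 = side e ∧
      ∀ x, m' x = x ↔ x = e ∨ (m x = x ∧ x ≠ e0) := by
  by_cases h1 : m e = e
  · refine ⟨m, e, h, h1, rfl, fun x => ⟨fun hx => ?_, ?_⟩⟩
    · by_cases hxe : x = e
      · exact Or.inl hxe
      · exact Or.inr ⟨hx, hxe⟩
    · rintro (rfl | hx)
      · exact h1
      · exact hx.1
  obtain ⟨X, e', m1, m2, m3, c1, c2, m4, m5, m6⟩ := exists_path h.1.1 hμ.1.1 (Or.inr ⟨h1, he⟩)
  have hm := h.mix hμ c1 c2
  have h2 := cv_mix_path (fun _ => 1) m1 m2 m3 m5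
  rw [← cov_eq_cv, ← cov_eq_cv, hm.cov_eq h] at h2
  have h3 := cv_mix_path side m1 m2 m3 m5
  rw [hm.cm.cv_side, h.cm.cv_side] at h3
  have h4 : m e' = e' ∧ μ e' ≠ e' := by
    rcases m4 with h4 | h4
    · exact h4
    · simp [he, h1, h4.1, h4.2] at h2
  simp only [he, h1, h4.1, h4.2, if_true, if_false] at h3
  refine ⟨_, e', hm, h4.1, by omega, fun x => ?_⟩
  by_cases hx : x ∈ X
  · rw [mix_in hx]
    constructor
    · intro h5
      rcases m5 x hx (Or.inr ⟨fun h6 => m6 x hx (h6.trans h5.symm), h5⟩) with rfl | rfl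
      · exact Or.inl rfl
      · exact absurd h5 h4.2
    · rintro (rfl | ⟨h5, h6⟩)
      · exact he
      · rcases m5 x hx (Or.inl ⟨h5, fun h7 => m6 x hx (h5.trans h7.symm)⟩) with rfl | rfl
        · exact absurd h5 h1
        · exact absurd rfl h6
  · rw [mix_out hx]
    exact ⟨fun h5 => Or.inr ⟨h5, fun e => hx (e ▸ m2)⟩,
      fun h5 => h5.elim (fun e => absurd (e ▸ m1) hx) And.left⟩

variable (P) in
/-- Agents with a C-neighbour in `W`. -/
def JA (j : J) : Prop := ∃ v, P.W v ∧ P.col j v = none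

theorem dm0 {j : J} {v : V} (hj : P.JD j) (hv : P.W v) : P.col j v ≠ none := by
  obtain ⟨m, hm, h1⟩ := hj
  obtain ⟨μ, hμ, h2⟩ := hv
  obtain ⟨m', e0, h3, -, h4, h5⟩ := hm.move hμ h2
  refine h3.not_free ((h5 _).2 (Or.inr ⟨h1, ?_⟩)) ((h5 _).2 (Or.inl rfl))
  rintro rfl
  simp [side] at h4

theorem JA.not_JD {j : J} (h : P.JA j) : ¬ P.JD j := fun h' => by
  obtain ⟨v, h1, h2⟩ := h
  exact dm0 h' h1 h2

theorem dm1 {m : Nd J V → Nd J V} (h : P.MaxC m) {j : J} (hj : P.JA j) :
    ∃ v, P.W v ∧ m (ag j) = vx v := by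
  rcases h.cm.ag_cases j with e | ⟨u, e, -⟩
  · exact absurd ⟨m, h, e⟩ hj.not_JD
  refine ⟨u, ?_, e⟩
  by_contra hu
  have hD := hj.not_JD
  obtain ⟨v, ⟨μ, hμ, hv⟩, hc⟩ := hj
  have k1 : P.CM (cut (ag j) m) := IsM.cut h.1 _
  have k2 : cut (ag j) m (vx u) = vx u := e ▸ cut_mate _ _
  have k3 := cov_cut h.1.1 (by simp) e
  have k4 : μ (vx u) ≠ vx u := fun h' => hu ⟨μ, hμ, h'⟩
  obtain ⟨X, e', m1, m2, m3, c1, c2, m4, m5, m6⟩ := exists_path hμ.1.1 k1.1 (Or.inr ⟨k4, k2⟩)
  have hA : P.CM (mix X μ (cut (ag j) m)) := IsM.mix hμ.1 k1 c1 c2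
  have hAu : mix X μ (cut (ag j) m) (vx u) = vx u := by rw [mix_in m1, k2]
  have h2 := cv_mix_path (fun _ => 1) m1 m2 m3 m5
  rw [← cov_eq_cv, ← cov_eq_cv] at h2
  have h3 := cv_mix_path side m1 m2 m3 m5
  rw [hA.cv_side, hμ.cm.cv_side] at h3
  have h4 : μ e' ≠ e' ∧ cut (ag j) m e' = e' := by
    rcases m4 with h4 | h4
    · simp only [k2, k4, h4.1, h4.2, if_true, if_false] at h2
      exact absurd ⟨_, hμ.of_le hA (by omega), hAu⟩ hu
    · exact h4
  simp only [k2, k4, h4.1, h4.2, if_true, if_false] at h2 h3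
  obtain ⟨i, rfl⟩ := eq_ag_of_side (x := e') (by simp only [side] at h3 ⊢; omega)
  by_cases hj : ag j ∈ X
  · have hvX : vx v ∉ X := fun hx => by
      rcases m5 _ hx (Or.inl ⟨hv, fun h7 => m6 _ hx (hv.trans h7.symm)⟩) with h7 | h7
      · exact k4 (h7 ▸ hv)
      · cases h7
    have a1 : mix X μ (cut (ag j) m) (ag j) = ag j := by rw [mix_in hj, cut_self]
    have a2 : mix X μ (cut (ag j) m) (vx v) = vx v := by rw [mix_out hvX, hv]
    have a3 := cov_link (by simp) a1 a2
    refine hu ⟨_, hμ.of_le (hA.link_col a1 a2 hc) (by omega), ?_⟩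
    rw [link_ne (a := ag j) (b := vx v) (x := vx u) (by simp) fun h7 => hvX (h7 ▸ m1), hAu]
  · have h5 := cov_mix_add X μ (cut (ag j) m)
    have h6 := h.cov_eq hμ
    refine hD ⟨_, hμ.of_le (IsM.mix hμ.1 k1 (c1.compl hμ.1.1) (c2.compl k1.1)) (by omega), ?_⟩
    rw [mix_in (mem_compl.2 hj), cut_self]

theorem dm2 {m : Nd J V → Nd J V} (h : P.MaxC m) {j : J} {v : V} (e : m (ag j) = vx v)
    (hv : P.W v) : P.JA j := ⟨v, hv, h.cm.col_of e⟩

theorem dm3 {m : Nd J V → Nd J V} (h : P.MaxC m) {v : V} (hv : ¬ P.W v) :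
    ∃ j, m (vx v) = ag j := by
  rcases h.cm.vx_cases v with e | ⟨j, e, -⟩
  · exact absurd ⟨m, h, e⟩ hv
  · exact ⟨j, e⟩

theorem dm3' {m : Nd J V → Nd J V} (h : P.MaxC m) {j : J} (hj : ¬ P.JD j) :
    ∃ v, m (ag j) = vx v := by
  rcases h.cm.ag_cases j with e | ⟨v, e, -⟩
  · exact absurd ⟨m, h, e⟩ hj
  · exact ⟨v, e⟩

variable (P) in
/-- The nodes of `JA` and `W`. -/
def InD : Nd J V → Prop
  | Sum.inl j => P.JA j
  | Sum.inr (Sum.inl v) => P.W v
  | Sum.inr (Sum.inr _) => False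

variable (P) in
open Classical in
/-- The set of nodes of `JA` and `W`. -/
noncomputable def DS : Finset (Nd J V) := univ.filter P.InD

@[simp] theorem ag_mem_DS {j : J} : ag j ∈ P.DS ↔ P.JA j := by simp [DS, InD]
@[simp] theorem vx_mem_DS {v : V} : vx v ∈ P.DS ↔ P.W v := by simp [DS, InD]
@[simp] theorem dm_not_mem_DS {j : J} : dm j ∉ P.DS := by simp [DS, InD]

theorem MaxC.cl_DS {m : Nd J V → Nd J V} (h : P.MaxC m) : Cl P.DS m := by
  rintro (j | v | j) hx
  · obtain ⟨v, h1, h2⟩ := dm1 h (ag_mem_DS.1 hx)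
    rw [h2]
    exact vx_mem_DS.2 h1
  · rcases h.cm.vx_cases v with e | ⟨j, e, hc⟩ <;> rw [e]
    · exact hx
    · exact ag_mem_DS.2 ⟨v, vx_mem_DS.1 hx, hc⟩
  · exact absurd hx dm_not_mem_DS

/-- Gluing: `m1` on `JA` and `W`, `m2` elsewhere. -/
theorem dm4 {m1 m2 : Nd J V → Nd J V} (h1 : P.MaxC m1) (h2 : P.MaxC m2) :
    P.MaxC (mix P.DS m2 m1) := h2.mix h1 h2.cl_DS h1.cl_DS

/-- A free vertex moves; nothing changes outside `JA` and `W`. -/
theorem dm5 {m : Nd J V → Nd J V} (h : P.MaxC m) {w : V} (hw : P.W w) :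
    ∃ m' w0, P.MaxC m' ∧ m (vx w0) = vx w0 ∧
      (∀ x, m' x = x ↔ x = vx w ∨ (m x = x ∧ x ≠ vx w0)) ∧ ∀ x, x ∉ P.DS → m' x = m x := by
  obtain ⟨μ, hμ, e⟩ := hw
  obtain ⟨m', e0, h1, h2, h3, h4⟩ := h.move hμ e
  obtain ⟨w0, rfl⟩ := eq_vx_of_side (x := e0) h3
  refine ⟨mix P.DS m m', w0, dm4 h1 h, h2, fun x => ?_, fun x hx => mix_out hx⟩
  by_cases hx : x ∈ P.DS
  · rw [mix_in hx, h4]
  · rw [mix_out hx]
    refine ⟨fun h5 => Or.inr ⟨h5, fun e' => hx (e' ▸ vx_mem_DS.2 ⟨m, h, h2⟩)⟩, fun h5 => ?_⟩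
    exact h5.elim (fun e' => absurd (e' ▸ vx_mem_DS.2 ⟨μ, hμ, e⟩) hx) And.left

/-- A free agent moves; nothing changes on `JA` and `W`. -/
theorem dm5' {m : Nd J V → Nd J V} (h : P.MaxC m) {j : J} (hj : P.JD j) :
    ∃ m' j0, P.MaxC m' ∧ m (ag j0) = ag j0 ∧
      (∀ x, m' x = x ↔ x = ag j ∨ (m x = x ∧ x ≠ ag j0)) ∧ ∀ x, x ∈ P.DS → m' x = m x := by
  have hj' := hj
  obtain ⟨μ, hμ, e⟩ := hj
  obtain ⟨m', e0, h1, h2, h3, h4⟩ := h.move hμ e
  obtain ⟨j0, rfl⟩ := eq_ag_of_side (x := e0) h3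
  refine ⟨mix P.DS m' m, j0, dm4 h h1, h2, fun x => ?_, fun x hx => mix_in hx⟩
  by_cases hx : x ∈ P.DS
  · rw [mix_in hx]
    refine ⟨fun h5 => Or.inr ⟨h5, fun e' => ?_⟩, fun h5 => h5.elim (fun e' => ?_) And.left⟩
    · exact (ag_mem_DS.1 (e' ▸ hx)).not_JD ⟨m, h, h2⟩
    · exact absurd hj' (ag_mem_DS.1 (e' ▸ hx)).not_JD
  · rw [mix_out hx, h4]

end AP

end Pool.Agent.Lib.MP_ef7581_lc
end

-- part Pool.Agent.Lib.MP_ef7581_lc.Sound
section

/-!
Soundness: a feasible instance satisfies the characterisation.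
-/

set_option autoImplicit false

namespace Pool.Agent.Lib.MP_ef7581_lc

open Finset

/-- A family of pairwise disjoint (possibly degenerate) edges defines a matching. -/
theorem exists_match {J α : Type} (x y : J → α)
    (hd : ∀ i j, i ≠ j → x i ≠ x j ∧ x i ≠ y j ∧ y i ≠ y j) :
    ∃ m : α → α, (∀ z, m (m z) = z) ∧ (∀ j, m (x j) = y j) ∧ (∀ j, m (y j) = x j) ∧
      ∀ z, m z = z ∨ ∃ j, z = x j ∨ z = y j := by
  classical
  let m : α → α := fun z => if h : ∃ j, z = x j then y h.choose else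
    if h : ∃ j, z = y j then x h.choose else z
  have h1 : ∀ j, m (x j) = y j := fun j => by
    have h : ∃ i, x j = x i := ⟨j, rfl⟩
    have : h.choose = j := by
      by_contra hne
      exact (hd _ _ hne).1 h.choose_spec.symm
    simp only [m, dif_pos h, this]
  have h2 : ∀ j, m (y j) = x j := fun j => by
    by_cases h : ∃ i, y j = x i
    · obtain ⟨i, hi⟩ := h
      obtain rfl : i = j := by
        by_contra hne
        exact (hd _ _ hne).2.1 hi.symm
      rw [hi, h1, hi]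
    · have h' : ∃ i, y j = y i := ⟨j, rfl⟩
      have : h'.choose = j := by
        by_contra hne
        exact (hd _ _ hne).2.2 h'.choose_spec.symm
      simp only [m, dif_neg h, dif_pos h', this]
  have h3 : ∀ z, m z = z ∨ ∃ j, z = x j ∨ z = y j := fun z => by
    by_cases h : ∃ j, z = x j
    · exact Or.inr (h.imp fun _ => Or.inl)
    by_cases h' : ∃ j, z = y j
    · exact Or.inr (h'.imp fun _ => Or.inr)
    exact Or.inl (by simp only [m, dif_neg h, dif_neg h'])
  refine ⟨m, fun z => ?_, h1, h2, h3⟩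
  rcases h3 z with h | ⟨j, rfl | rfl⟩
  · rw [h, h]
  · rw [h1, h2]
  · rw [h2, h1]

theorem sum_match {J α : Type} [Fintype J] [Fintype α] [DecidableEq α] {x y : J → α}
    (hd : ∀ i j, i ≠ j → x i ≠ x j ∧ x i ≠ y j ∧ y i ≠ y j) {m : α → α}
    (h1 : ∀ j, m (x j) = y j) (h2 : ∀ j, m (y j) = x j)
    (h3 : ∀ z, m z = z ∨ ∃ j, z = x j ∨ z = y j) (ω : α → α → ℕ) :
    wt2 ω m = ∑ j, if x j = y j then 0 else ω (x j) (y j) + ω (y j) (x j) := by
  unfold wt2
  rw [← sum_subset (subset_univ (univ.biUnion fun j => {x j, y j})), sum_biUnion]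
  · refine sum_congr rfl fun j _ => ?_
    by_cases h : x j = y j
    · have := h1 j
      rw [← h] at this
      simp [← h, this]
    · rw [sum_pair h, h1, h2, if_neg h, if_neg h, if_neg (Ne.symm h)]
  · intro i _ j _ hij
    obtain ⟨a, b, c⟩ := hd i j hij
    have d := (hd j i hij.symm).2.1
    simp [Function.onFun, a.symm, b.symm, c.symm, d]
  · intro z _ hz
    rcases h3 z with h | ⟨j, h⟩
    · rw [if_pos h]
    · exact absurd (mem_biUnion.2 ⟨j, mem_univ _, by simpa using h⟩) hz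

theorem cov_eq_wt2 {α : Type} [Fintype α] [DecidableEq α] (m : α → α) :
    cov m = wt2 (fun _ _ => 1) m := by
  unfold cov wt2
  rw [card_filter]
  exact sum_congr rfl fun x _ => by by_cases h : m x = x <;> simp [h]

namespace AP

variable {J V : Type} {P : AP J V}

theorem E_symm {R : Rx J V} {x y : Nd J V} (h : P.E R x y) : P.E R y x := by
  rcases x with i | u | i <;> rcases y with j | v | j <;> first | exact h | exact h.symm

theorem le_om (l : ℕ) (x y : Nd J V) : l + 1 ≤ P.om l x y := by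
  rcases x with i | u | i <;> rcases y with j | v | j <;> simp only [om] <;>
    first | rfl | (split_ifs <;> omega)

variable (P) in
/-- A normalised solution: one C-vertex, or a pair of vertices of the two other colours. -/
structure Sol where
  a : J → V
  b : J → V
  disj : ∀ i j, i ≠ j → a i ≠ a j ∧ a i ≠ b j ∧ b i ≠ b j
  kind : ∀ j, (P.col j (a j) = none ∧ b j = a j) ∨
    (P.col j (a j) = some true ∧ P.col j (b j) = some false ∧ ¬ P.H (a j) (b j))

theorem Feasible.sol (h : P.Feasible) : Nonempty P.Sol := by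
  obtain ⟨f, hd, hs⟩ := h
  have : ∀ j, ∃ u ∈ f j, ∃ v ∈ f j, (P.col j u = none ∧ v = u) ∨
      (P.col j u = some true ∧ P.col j v = some false ∧ ¬ P.H u v) := fun j => by
    obtain ⟨u, hu, h | ⟨v, hv, h1, h2⟩⟩ := hs j
    · exact ⟨u, hu, u, hu, Or.inl ⟨h, rfl⟩⟩
    · rcases e1 : P.col j u with _ | _ | _
      · exact ⟨u, hu, u, hu, Or.inl ⟨e1, rfl⟩⟩
      all_goals rcases e2 : P.col j v with _ | _ | _
      · exact ⟨v, hv, v, hv, Or.inl ⟨e2, rfl⟩⟩
      · exact absurd (e1.trans e2.symm) h1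
      · exact ⟨v, hv, u, hu, Or.inr ⟨e2, e1, fun h => h2 (P.symm _ _ h)⟩⟩
      · exact ⟨v, hv, v, hv, Or.inl ⟨e2, rfl⟩⟩
      · exact ⟨u, hu, v, hv, Or.inr ⟨e1, e2, h2⟩⟩
      · exact absurd (e1.trans e2.symm) h1
  choose a ha b hb hk using this
  refine ⟨⟨a, b, fun i j hij => ?_, hk⟩⟩
  have := disjoint_left.1 (hd i j hij)
  exact ⟨fun e => this (ha i) (e ▸ ha j), fun e => this (ha i) (e ▸ hb j),
    fun e => this (hb i) (e ▸ hb j)⟩

namespace Sol

variable (S : P.Sol)

/-- `j` is served by a C-vertex. -/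
def C (j : J) : Prop := P.col j (S.a j) = none

instance : DecidablePred S.C := fun j => by unfold C; infer_instance

variable {S} in
theorem pair {j : J} (h : ¬ S.C j) :
    P.col j (S.a j) = some true ∧ P.col j (S.b j) = some false ∧ ¬ P.H (S.a j) (S.b j) :=
  (S.kind j).resolve_left fun h' => h h'.1

variable {S} in
theorem b_eq {j : J} (h : S.C j) : S.b j = S.a j := by
  rcases S.kind j with h' | h'
  · exact h'.2
  · exact absurd (h'.1.symm.trans h) (by simp)

variable {S} in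
theorem a_ne_b {j : J} (h : ¬ S.C j) : S.a j ≠ S.b j := fun e => by
  obtain ⟨h1, h2, -⟩ := pair h
  rw [e, h2] at h1
  cases h1

/-- The nodes that belong to agent `j`. -/
def Own (j : J) (z : Nd J V) : Prop := z = ag j ∨ z = dm j ∨ z = vx (S.a j) ∨ z = vx (S.b j)

theorem own_ag (j : J) : S.Own j (ag j) := Or.inl rfl
theorem own_dm (j : J) : S.Own j (dm j) := Or.inr (Or.inl rfl)
theorem own_a (j : J) : S.Own j (vx (S.a j)) := Or.inr (Or.inr (Or.inl rfl))
theorem own_b (j : J) : S.Own j (vx (S.b j)) := Or.inr (Or.inr (Or.inr rfl))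

variable {S} in
theorem own_unique {i j : J} {z : Nd J V} (hi : S.Own i z) (hj : S.Own j z) : i = j := by
  by_contra hij
  obtain ⟨a, b, c⟩ := S.disj i j hij
  have d := (S.disj j i (Ne.symm hij)).2.1
  rcases hi with rfl | rfl | rfl | rfl <;> rcases hj with h | h | h | h <;> simp_all

variable [Fintype J] [Fintype V] [DecidableEq J] [DecidableEq V]

/-- One edge for each agent, among its own nodes. -/
theorem build {R : Rx J V} (x y : J → Nd J V) (hx : ∀ j, S.Own j (x j)) (hy : ∀ j, S.Own j (y j))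
    (hE : ∀ j, x j ≠ y j → P.E R (x j) (y j)) :
    ∃ m, IsM (P.E R) m ∧ (∀ j, m (x j) = y j) ∧ (∀ j, m (y j) = x j) ∧
      (∀ j z, S.Own j z → z ≠ x j → z ≠ y j → m z = z) ∧
      ∀ ω, wt2 ω m = ∑ j, if x j = y j then 0 else ω (x j) (y j) + ω (y j) (x j) := by
  have hd : ∀ i j, i ≠ j → x i ≠ x j ∧ x i ≠ y j ∧ y i ≠ y j := fun i j hij =>
    ⟨fun e => hij (own_unique (hx i) (e ▸ hx j)), fun e => hij (own_unique (hx i) (e ▸ hy j)),
      fun e => hij (own_unique (hy i) (e ▸ hy j))⟩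
  obtain ⟨m, h0, h1, h2, h3⟩ := exists_match x y hd
  refine ⟨m, ⟨h0, fun z hz => ?_⟩, h1, h2, fun j z hz e1 e2 => ?_, sum_match hd h1 h2 h3⟩
  · rcases h3 z with h | ⟨j, rfl | rfl⟩
    · exact absurd h hz
    · rw [h1] at hz ⊢
      exact hE j hz.symm
    · rw [h2] at hz ⊢
      exact E_symm (hE j hz)
  · rcases h3 z with h | ⟨i, rfl | rfl⟩
    · exact h
    · exact absurd (own_unique (hx i) hz ▸ rfl) e1
    · exact absurd (own_unique (hy i) hz ▸ rfl) e2

/-- Number of C-served agents. -/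
def w : ℕ := #{j | S.C j}

omit [Fintype V] [DecidableEq J] in
theorem card_used : #(univ.image S.a ∪ ({j | ¬ S.C j} : Finset J).image S.b) + S.w =
    2 * Fintype.card J := by
  have ha : Function.Injective S.a := fun i j e => by
    by_contra h
    exact (S.disj i j h).1 e
  have hb : Function.Injective S.b := fun i j e => by
    by_contra h
    exact (S.disj i j h).2.2 e
  rw [card_union_of_disjoint, card_image_of_injective _ ha, card_image_of_injective _ hb]
  · have : S.w + #{j | ¬ S.C j} = #(univ : Finset J) := card_filter_add_card_filter_not _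
    rw [card_univ] at this ⊢
    omega
  · rw [disjoint_left]
    intro v h1 h2
    obtain ⟨i, -, rfl⟩ := mem_image.1 h1
    obtain ⟨j, hj, e⟩ := mem_image.1 h2
    by_cases hij : i = j
    · subst hij
      exact a_ne_b (mem_filter.1 hj).2 e.symm
    · exact (S.disj i j hij).2.1 e.symm

omit [DecidableEq J] in
theorem count : 2 * Fintype.card J ≤ S.w + Fintype.card V := by
  have := card_le_univ (univ.image S.a ∪ ({j | ¬ S.C j} : Finset J).image S.b)
  have := S.card_used
  omega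

omit [DecidableEq J] in
theorem all_used (h : S.w + Fintype.card V ≤ 2 * Fintype.card J) (v : V) :
    ∃ j, v = S.a j ∨ v = S.b j := by
  have h1 : univ.image S.a ∪ ({j | ¬ S.C j} : Finset J).image S.b = univ := by
    refine eq_univ_of_card _ (le_antisymm (card_le_univ _) ?_)
    have := S.card_used
    omega
  have h2 := h1 ▸ mem_univ v
  rcases mem_union.1 h2 with h | h <;> obtain ⟨j, -, e⟩ := mem_image.1 h
  · exact ⟨j, Or.inl e.symm⟩
  · exact ⟨j, Or.inr e.symm⟩

theorem exists_cm : ∃ m, P.CM m ∧ cov m = 2 * S.w ∧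
    ∀ j, ¬ S.C j → m (ag j) = ag j ∧ m (vx (S.a j)) = vx (S.a j) ∧ m (vx (S.b j)) = vx (S.b j) := by
  obtain ⟨m, h0, h1, -, h3, h4⟩ := S.build (R := R0 J V) ag
    (fun j => if S.C j then vx (S.a j) else ag j) S.own_ag
    (fun j => by split_ifs; exacts [S.own_a j, S.own_ag j])
    (fun j h => by
      by_cases hj : S.C j
      · simp only [if_pos hj]
        exact Or.inl hj
      · simp [hj] at h)
  refine ⟨m, h0, ?_, fun j hj => ⟨by simpa [hj] using h1 j, h3 j _ (S.own_a j) (by simp)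
    (by simp [hj]), h3 j _ (S.own_b j) (by simp) (by simp [hj])⟩⟩
  rw [cov_eq_wt2, h4, w, card_filter, mul_sum]
  exact sum_congr rfl fun j _ => by by_cases hj : S.C j <;> simp [hj]

theorem phi {R : Rx J V} (l : ℕ)
    (h : ∀ j, ¬ S.C j → ∃ x y, S.Own j x ∧ S.Own j y ∧ x ≠ y ∧ P.E R x y) : P.Phi R l := by
  have : ∀ j, ∃ x y, S.Own j x ∧ S.Own j y ∧ x ≠ y ∧ P.E R x y ∧
      2 * (l + 1) + 2 * (if S.C j then 1 else 0) ≤ P.om l x y + P.om l y x := fun j => by
    by_cases hj : S.C j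
    · refine ⟨_, _, S.own_ag j, S.own_a j, by simp, Or.inl hj, ?_⟩
      simp only [om, if_pos hj, if_pos (show P.col j (S.a j) = none from hj)]
      omega
    · obtain ⟨x, y, h1, h2, h3, h4⟩ := h j hj
      have := le_om (P := P) l x y
      have := le_om (P := P) l y x
      exact ⟨x, y, h1, h2, h3, h4, by rw [if_neg hj]; omega⟩
  choose x y h1 h2 h3 h4 h5 using this
  obtain ⟨m, h0, -, -, -, h6⟩ := S.build x y h1 h2 fun j _ => h4 j
  refine ⟨m, h0, ?_⟩
  have h7 : ∑ j, (2 * (l + 1) + 2 * (if S.C j then 1 else 0)) ≤ wt2 (P.om l) m := by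
    rw [h6]
    exact sum_le_sum fun j _ => by rw [if_neg (h3 j)]; exact h5 j
  rw [sum_add_distrib, ← mul_sum, ← mul_sum, ← card_filter, sum_const, card_univ, smul_eq_mul]
    at h7
  have := S.count
  unfold w at this
  nlinarith

include S in
theorem phi_gam (Z : V → Prop) (Maj : J → Bool → Prop) (l : ℕ) : P.Phi (P.Gam Z Maj) l := by
  refine S.phi l fun j hj => ?_
  by_cases hm : ∃ x, Maj j x
  · obtain ⟨x, hx⟩ := hm
    obtain ⟨h1, h2, h3⟩ := pair hj
    obtain ⟨u, v, hu, hv, c1, c2, hH⟩ : ∃ u v, S.Own j (vx u) ∧ S.Own j (vx v) ∧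
        P.col j u = some x ∧ P.col j v = some (!x) ∧ ¬ P.H v u := by
      cases x
      · exact ⟨_, _, S.own_b j, S.own_a j, h2, h1, h3⟩
      · exact ⟨_, _, S.own_a j, S.own_b j, h1, h2, fun h => h3 (P.symm _ _ h)⟩
    by_cases z1 : Z v
    · exact ⟨_, _, S.own_ag j, hv, by simp, Or.inr ⟨x, hx, Or.inl ⟨c2, z1⟩⟩⟩
    by_cases z2 : Z u
    · refine ⟨_, _, hv, hu, fun e => z1 ?_, Or.inl ⟨z1, z2, hH⟩⟩
      cases e
      exact z2
    · exact ⟨_, _, S.own_ag j, hu, by simp, Or.inr ⟨x, hx, Or.inr ⟨c1, z2⟩⟩⟩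
  · exact ⟨_, _, S.own_ag j, S.own_dm j, by simp, rfl, hm⟩

variable {S}

theorem crit (hc : P.Crit) : S.w + Fintype.card V = 2 * Fintype.card J ∧
    ∀ j, ¬ S.C j → P.JD j ∧ P.W (S.a j) ∧ P.W (S.b j) := by
  obtain ⟨m, h1, h2, h3⟩ := S.exists_cm
  have h4 := hc m h1
  have h5 := S.count
  have h6 : P.MaxC m := ⟨h1, fun m' hm' => by have := hc m' hm'; omega⟩
  exact ⟨by omega, fun j hj => ⟨⟨m, h6, (h3 j hj).1⟩, ⟨m, h6, (h3 j hj).2.1⟩,
    ⟨m, h6, (h3 j hj).2.2⟩⟩⟩

theorem kk_edge {x : V} (hx : P.W x) {j : J} (hj : ¬ S.C j) (hD : P.JD j) (ha : P.Ks x (S.a j))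
    (hb : P.Ks x (S.b j)) :
    (P.Xs x (S.a j) ∧ P.Ys x (S.b j) ∧ ¬ P.H (S.a j) (S.b j)) ∨
      (P.Xs x (S.b j) ∧ P.Ys x (S.a j) ∧ ¬ P.H (S.b j) (S.a j)) := by
  obtain ⟨h1, h2, h3⟩ := pair hj
  rcases ha with ha | ha <;> rcases hb with hb | hb
  · have := (ha.2 j hD).trans (hb.2 j hD).symm
    rw [h1, h2] at this
    cases this
  · exact Or.inl ⟨ha, hb, h3⟩
  · exact Or.inr ⟨hb, ha, fun h => h3 (P.symm _ _ h)⟩
  · have c1 := ha.2 j hD
    have c2 := hb.2 j hD
    have c3 := dm0 hD hx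
    rw [h1] at c1
    rw [h2] at c2
    rcases e : P.col j x with _ | _ | _ <;> simp_all

variable (S)

include S in
theorem phi_gamK (hc : P.Crit) {x : V} (hx : P.W x) : P.Phi (P.GamK x) 0 := by
  refine S.phi 0 fun j hj => ?_
  obtain ⟨hD, wa, wb⟩ := (crit hc).2 j hj
  by_cases ha : P.Ks x (S.a j)
  · by_cases hb : P.Ks x (S.b j)
    · exact ⟨_, _, S.own_a j, S.own_b j, by simpa using a_ne_b hj, kk_edge hx hj hD ha hb⟩
    · exact ⟨_, _, S.own_ag j, S.own_b j, by simp, Or.inr ⟨hD, wb, hb⟩⟩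
  · exact ⟨_, _, S.own_ag j, S.own_a j, by simp, Or.inr ⟨hD, wa, ha⟩⟩

include S in
theorem flex_or_exact (hc : P.Crit) {x : V} (hx : P.W x) : P.Flex x ∨ P.ExactSol x := by
  classical
  obtain ⟨hw, hp⟩ := crit (S := S) hc
  by_cases hmix : ∀ j, ¬ S.C j → (P.Ks x (S.a j) ↔ ¬ P.Ks x (S.b j))
  · refine Or.inr ⟨fun j => {S.a j, S.b j}, fun i j hij => ?_, fun j => ?_⟩
    · obtain ⟨a, b, c⟩ := S.disj i j hij
      have d := (S.disj j i hij.symm).2.1
      simp [a.symm, b.symm, c.symm, d]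
    · by_cases hj : S.C j
      · exact Or.inl ⟨S.a j, by simp, hj⟩
      obtain ⟨h1, h2, -⟩ := pair hj
      obtain ⟨-, wa, wb⟩ := hp j hj
      by_cases ha : P.Ks x (S.a j)
      · exact Or.inr ⟨S.b j, by simp, S.a j, by simp, ⟨wb, (hmix j hj).1 ha⟩, ha, by simp [h1, h2]⟩
      · exact Or.inr ⟨S.a j, by simp, S.b j, by simp, ⟨wa, ha⟩,
          not_not.1 fun hb => ha ((hmix j hj).2 hb), by simp [h1, h2]⟩
  left
  let KK : J → Prop := fun j => ¬ S.C j ∧ P.Ks x (S.a j) ∧ P.Ks x (S.b j)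
  obtain ⟨m, h0, h1, h2, h3, -⟩ := S.build (R := P.GamF x)
    (fun j => if KK j then vx (S.b j) else ag j)
    (fun j => if S.C j ∨ KK j then vx (S.a j) else ag j)
    (fun j => by split_ifs; exacts [S.own_b j, S.own_ag j])
    (fun j => by split_ifs; exacts [S.own_a j, S.own_ag j])
    (fun j h => by
      by_cases hk : KK j
      · simp only [hk, or_true, if_true]
        exact (kk_edge hx hk.1 (hp j hk.1).1 hk.2.1 hk.2.2).symm
      · by_cases hj : S.C j
        · simp only [hk, hj, true_or, if_true, if_false]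
          exact Or.inl hj
        · simp [hk, hj] at h)
  have c1 : ∀ j, S.C j → m (ag j) = vx (S.a j) := fun j hj => by
    simpa [KK, hj] using h1 j
  have c2 : ∀ j, ¬ S.C j → m (ag j) = ag j := fun j hj => by
    by_cases hk : KK j
    · exact h3 j _ (S.own_ag j) (by simp [hk]) (by simp [hk])
    · simpa [hk, hj] using h1 j
  have c3 : ∀ j, KK j → m (vx (S.b j)) = vx (S.a j) := fun j hk => by simpa [hk] using h1 j
  have c4 : ∀ j, ¬ S.C j → ¬ KK j →
      m (vx (S.a j)) = vx (S.a j) ∧ m (vx (S.b j)) = vx (S.b j) := fun j hj hk =>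
    ⟨h3 j _ (S.own_a j) (by simp [hk]) (by simp [hk, hj]),
      h3 j _ (S.own_b j) (by simp [hk]) (by simp [hk, hj])⟩
  have c5 : ∀ j, m (vx (S.a j)) = vx (S.a j) ∨ m (vx (S.b j)) = vx (S.b j) → ¬ S.C j ∧ ¬ KK j := by
    intro j h
    constructor
    · intro hj
      rw [b_eq hj, or_self, ← c1 j hj, h0.1, c1 j hj] at h
      cases h
    · intro hk
      have e := c3 j hk
      have e' : m (vx (S.a j)) = vx (S.b j) := by rw [← e, h0.1]
      rw [e, e'] at h
      exact a_ne_b hk.1 (by rcases h with h | h <;> simp_all)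
  obtain ⟨τ, t0, t1, t2, -⟩ := exists_match S.a S.b S.disj
  have hτ : Function.Injective τ := Function.Involutive.injective t0
  have hsub : (univ.filter fun v => P.Ks x v ∧ m (vx v) = vx v).image τ ⊆
      univ.filter fun v => P.Fs x v ∧ m (vx v) = vx v := by
    intro v hv
    obtain ⟨u, hu, rfl⟩ := mem_image.1 hv
    obtain ⟨-, k1, k2⟩ := mem_filter.1 hu
    obtain ⟨j, rfl | rfl⟩ := S.all_used hw.le u
    · obtain ⟨hj, hk⟩ := c5 j (Or.inl k2)
      rw [t1]
      exact mem_filter.2 ⟨mem_univ _, ⟨(hp j hj).2.2, fun h => hk ⟨hj, k1, h⟩⟩, (c4 j hj hk).2⟩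
    · obtain ⟨hj, hk⟩ := c5 j (Or.inr k2)
      rw [t2]
      exact mem_filter.2 ⟨mem_univ _, ⟨(hp j hj).2.1, fun h => hk ⟨hj, h, k1⟩⟩, (c4 j hj hk).1⟩
  refine ⟨m, h0, ?_, ?_, ?_⟩
  · rw [← hw]
    congr 1
    refine congrArg card (filter_congr fun j _ => ⟨?_, fun hj => ⟨_, c1 j hj, hj⟩⟩)
    rintro ⟨v, e, -⟩
    by_contra hj
    rw [c2 j hj] at e
    cases e
  · have := card_le_card hsub
    rw [card_image_of_injective _ hτ] at this
    unfold unc
    convert this
  · push Not at hmix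
    obtain ⟨j, hj, h | h⟩ := hmix
    · exact Or.inl ⟨_, _, (a_ne_b hj).symm, c3 j ⟨hj, h⟩⟩
    · right
      have hk : ¬ KK j := fun hk => h.1 hk.2.1
      have := card_lt_card ((ssubset_iff_of_subset hsub).2 ⟨S.a j,
        mem_filter.2 ⟨mem_univ _, ⟨(hp j hj).2.1, h.1⟩, (c4 j hj hk).1⟩, fun hv => by
          obtain ⟨u, hu, e⟩ := mem_image.1 hv
          rw [← t2] at e
          exact h.2 (hτ e ▸ (mem_filter.1 hu).2.1)⟩)
      rw [card_image_of_injective _ hτ] at this
      unfold unc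
      convert this

end Sol

variable [Fintype J] [Fintype V] [DecidableEq J] [DecidableEq V]

variable (P) in
theorem char_of_feasible (h : P.Feasible) : P.Char := by
  obtain ⟨S⟩ := h.sol
  refine ⟨?_, fun l _ a b c => ⟨S.phi_gam _ _ l, S.phi_gam _ _ l⟩, fun hc =>
    ⟨fun a b => S.phi_gam _ _ 0, fun x hx => ⟨S.phi_gamK hc hx, S.flex_or_exact hc hx⟩,
      fun _ _ _ => h⟩⟩
  obtain ⟨m, h1, h2, -⟩ := S.exists_cm
  have := S.count
  exact ⟨m, h1, by omega⟩

end AP

end Pool.Agent.Lib.MP_ef7581_lc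
end
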