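import Mathlib
import Pool.Agent.Lib.MP_ef7581_lc.Sound

-- part Pool.Agent.Lib.MP_ef7581_lc.DDefs
section

/-!
Disjoint Paths on (2P1+P2)-free graphs: the abstract problem and the tests.
`H` is the complement graph on items `V` and terminals `J × Bool`; it is diamond-free.
-/

set_option autoImplicit false

namespace Pool.Agent.Lib.MP_ef7581_lc.D2

open Finset Classical

noncomputable section

/-! ### Components of two matchings -/

section Comp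

variable {α : Type} [Fintype α] [DecidableEq α]

/-- The component of `x`. -/
def cmp (μ ν : α → α) (x : α) : Finset α :=
  univ.filter fun y => ∀ X : Finset α, Cl X μ → Cl X ν → x ∈ X → y ∈ X

/-- The nontrivial components. -/
def ncomp (μ ν : α → α) : Finset (Finset α) :=
  (univ.filter fun x => μ x ≠ ν x).image (cmp μ ν)

/-- Sum of the sizes of the components of all nodes. -/
def pot (μ ν : α → α) : ℕ := ∑ x, (cmp μ ν x).card

/-- Nodes covered by exactly one of the matchings. -/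
def ends (μ ν : α → α) : Finset α := univ.filter fun x => IsEnd μ ν x

/-- Number of nodes on edges of `ν` that are not edges of `μ`. -/
def newc (μ ν : α → α) : ℕ := (univ.filter fun x => ν x ≠ x ∧ ν x ≠ μ x).card

/-- Exchange the partners of `x` and `x'`. -/
def cross (x x' : α) (ν : α → α) : α → α := fun z =>
  if z = x then ν x' else if z = x' then ν x else if z = ν x then x' else if z = ν x' then x
  else ν z

/-- Covered by `ν` minus covered by `μ`, on `Y`. -/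
def dcov (μ ν : α → α) (Y : Finset α) : ℤ :=
  ((Y.filter fun x => ν x ≠ x).card : ℤ) - ((Y.filter fun x => μ x ≠ x).card : ℤ)

/-- A closed set avoiding `T`, on which the matchings differ and have the same size. -/
def ZeroSet (μ ν : α → α) (T Y : Finset α) : Prop :=
  Cl Y μ ∧ Cl Y ν ∧ Disjoint Y T ∧ (∃ x ∈ Y, μ x ≠ ν x) ∧ dcov μ ν Y = 0

end Comp

/-! ### The model -/

structure Geo (J V : Type) where
  H : V ⊕ J × Bool → V ⊕ J × Bool → Prop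
  symm : ∀ u v, H u v → H v u
  irrefl : ∀ u, ¬ H u u
  dia : ∀ u v x y, H u v → H u x → H v x → H u y → H v y → x ≠ y → H x y
  st : ∀ j, H (Sum.inr (j, false)) (Sum.inr (j, true))

/-- A sub-instance: active agents `A`, active items `W`, agents allowed to use long paths `geo`,
lists of single items `lst`, items `qm` that must be used as single items. -/
structure Sub (J V : Type) where
  A : Finset J
  W : Finset V
  geo : J → Prop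
  lst : J → V → Prop
  qm : V → Prop

/-- Services in normal form. -/
inductive Sv (V : Type) : Type
  | non
  | one (c : V)
  | two (a b : V)
  | three (a z b : V)

/-- Options of an auxiliary graph. -/
structure Ax (J V : Type) where
  nc : Prop
  pe : Prop
  zs : V → Prop
  mc : J → Prop

variable {J V : Type} [Fintype J] [Fintype V] [DecidableEq J] [DecidableEq V]

def Sv.its : Sv V → Finset V
  | Sv.non => ∅
  | Sv.one c => {c}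
  | Sv.two a b => {a, b}
  | Sv.three a z b => {a, z, b}

def Sub.rem (S : Sub J V) (B : Finset J) (U : Finset V) : Sub J V :=
  ⟨S.A \ B, S.W \ U, S.geo, S.lst, S.qm⟩

def Sub.add (S : Sub J V) (B : Finset J) (U : Finset V) : Sub J V :=
  ⟨S.A ∪ B, S.W ∪ U, S.geo, S.lst, S.qm⟩

/-- Only the agents of `B` and the items outside `U` stay active. -/
def Sub.res (S : Sub J V) (B : Finset J) (U : Finset V) : Sub J V :=
  ⟨B, S.W \ U, S.geo, S.lst, S.qm⟩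

/-- Agents outside `R` are replaced by dummies. -/
def Sub.lev (S : Sub J V) (R : J → Prop) : Sub J V :=
  ⟨S.A, S.W, fun j => S.geo j ∧ R j, fun j v => S.lst j v ∨ (¬ R j ∧ ¬ S.qm v), S.qm⟩

/-- Number of items used. -/
def use (B : Finset J) (f : J → Finset V) : ℕ := ∑ j ∈ B, (f j).card

/-- A state: the agents of `B` are served. -/
structure St (S : Sub J V) (sv : J → Finset V → Prop) (B : Finset J) (f : J → Finset V) :
    Prop where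
  sub : B ⊆ S.A
  inW : ∀ j ∈ B, f j ⊆ S.W
  srv : ∀ j ∈ B, sv j (f j)
  dis : ∀ i ∈ B, ∀ j ∈ B, i ≠ j → Disjoint (f i) (f j)
  qok : ∀ v ∈ S.W, S.qm v → ∃ j ∈ B, f j = {v} ∧ S.lst j v

/-- The items used by a normal state. -/
def itsB (B : Finset J) (g : J → Sv V) : Finset V := B.biUnion fun j => (g j).its

def NoTri (B : Finset J) (g : J → Sv V) : Prop := ∀ j ∈ B, ∀ a z b, g j ≠ Sv.three a z b

def ag2 (Γ : Finset (J × V × V)) : Finset J := Γ.image fun s => s.1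
def it2 (Γ : Finset (J × V × V)) : Finset V := Γ.biUnion fun s => {s.2.1, s.2.2}
def ag3 (Φ : Finset (J × V × V × V)) : Finset J := Φ.image fun s => s.1
def it3 (Φ : Finset (J × V × V × V)) : Finset V := Φ.biUnion fun s => {s.2.1, s.2.2.1, s.2.2.2}

/-- Different elements have different agents and disjoint items. -/
def Dis2 (Γ : Finset (J × V × V)) : Prop :=
  ∀ s ∈ Γ, ∀ s' ∈ Γ, s ≠ s' → s.1 ≠ s'.1 ∧ Disjoint ({s.2.1, s.2.2} : Finset V) {s'.2.1, s'.2.2}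

def Dis3 (Φ : Finset (J × V × V × V)) : Prop :=
  ∀ s ∈ Φ, ∀ s' ∈ Φ, s ≠ s' → s.1 ≠ s'.1 ∧
    Disjoint ({s.2.1, s.2.2.1, s.2.2.2} : Finset V) {s'.2.1, s'.2.2.1, s'.2.2.2}

/-- Number of agents matched to an item of their list. -/
def cw (S : Sub J V) (m : Nd J V → Nd J V) : ℕ :=
  (univ.filter fun j : J => ∃ v, m (ag j) = vx v ∧ S.lst j v).card

/-- Agents are matched to items or to their own dummy. -/
def Shape (m : Nd J V → Nd J V) : Prop :=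
  (∀ j, m (ag j) = ag j ∨ (∃ v, m (ag j) = vx v) ∨ m (ag j) = dm j) ∧
    ∀ j, m (dm j) = dm j ∨ m (dm j) = ag j

/-- Number of items of `X` matched to another item. -/
def npe (m : Nd J V → Nd J V) (X : Finset (Nd J V)) : ℕ :=
  (univ.filter fun v : V => vx v ∈ X ∧ ∃ u, u ≠ v ∧ m (vx v) = vx u).card

def axAll (J V : Type) : Ax J V := ⟨True, True, fun _ => False, fun _ => False⟩
def axN (J V : Type) : Ax J V := ⟨True, False, fun _ => False, fun _ => True⟩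
def axC (J V : Type) : Ax J V := ⟨False, False, fun _ => False, fun _ => True⟩

/-- Minority and majority item of the pair `two a b` for majority side `o`. -/
def mi (o : Bool) (a b : V) : V := if o then b else a
def ma (o : Bool) (a b : V) : V := if o then a else b

namespace Geo

variable (P : Geo J V)

def adj (j : J) (o : Bool) (x : V) : Prop := P.H (Sum.inr (j, o)) (Sum.inl x)
def HH (x y : V) : Prop := P.H (Sum.inl x) (Sum.inl y)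
def C (j : J) (x : V) : Prop := ¬ P.adj j false x ∧ ¬ P.adj j true x
def col (j : J) (o : Bool) (x : V) : Prop := P.adj j o x ∧ ¬ P.adj j (!o) x
def junk (j : J) (x : V) : Prop := P.adj j false x ∧ P.adj j true x

/-- A path with two inner vertices. -/
def Pr (j : J) (a b : V) : Prop :=
  a ≠ b ∧ ¬ P.HH a b ∧ ∃ o, ¬ P.adj j o a ∧ ¬ P.adj j (!o) b

/-- A path with three inner vertices. -/
def Tr (j : J) (a z b : V) : Prop :=
  a ≠ z ∧ z ≠ b ∧ ¬ P.HH a z ∧ ¬ P.HH z b ∧ ∃ o, ¬ P.adj j o a ∧ ¬ P.adj j (!o) b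

/-- The set `{x, y}` serves `j`. -/
def Ok (j : J) (x y : V) : Prop := P.C j x ∨ P.C j y ∨ P.Pr j x y

def Wf (S : Sub J V) : Prop := ∀ j, S.geo j → ∀ v, S.lst j v ↔ P.C j v

def Serv2 (S : Sub J V) (j : J) (s : Finset V) : Prop :=
  (∃ v ∈ s, S.lst j v) ∨ (S.geo j ∧ ∃ a ∈ s, ∃ b ∈ s, P.Pr j a b)

def Serv3 (S : Sub J V) (j : J) (s : Finset V) : Prop :=
  P.Serv2 S j s ∨ (S.geo j ∧ ∃ a ∈ s, ∃ z ∈ s, ∃ b ∈ s, P.Tr j a z b)

def Sol2 (S : Sub J V) (l : ℕ) : Prop :=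
  ∃ f, St S (P.Serv2 S) S.A f ∧ use S.A f + l ≤ S.W.card

def Sol3 (S : Sub J V) (l : ℕ) : Prop :=
  ∃ f, St S (P.Serv3 S) S.A f ∧ use S.A f + l ≤ S.W.card

/-- The plain sub-instance on `A`, `W`. -/
def pl (A : Finset J) (W : Finset V) : Sub J V := ⟨A, W, fun _ => True, P.C, fun _ => False⟩

/-- Feasibility of the whole instance. -/
def Feas : Prop := P.Sol3 (P.pl univ univ) 0

def Nrm (S : Sub J V) (j : J) : Sv V → Prop
  | Sv.non => False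
  | Sv.one c => S.lst j c
  | Sv.two a b => S.geo j ∧ P.col j true a ∧ P.col j false b ∧ ¬ P.HH a b
  | Sv.three a z b => S.geo j ∧ P.col j true a ∧ P.junk j z ∧ P.col j false b ∧ P.HH a b ∧
      ¬ P.HH a z ∧ ¬ P.HH z b

/-- A partial state in normal form (the items `qm` need not be used). -/
structure PSt (S : Sub J V) (B : Finset J) (g : J → Sv V) : Prop where
  sub : B ⊆ S.A
  inW : ∀ j ∈ B, (g j).its ⊆ S.W
  nrm : ∀ j ∈ B, P.Nrm S j (g j)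
  dis : ∀ i ∈ B, ∀ j ∈ B, i ≠ j → Disjoint (g i).its (g j).its
  nq : ∀ j ∈ B, ∀ v ∈ (g j).its, S.qm v → g j = Sv.one v

/-- A state in normal form. -/
def NSt (S : Sub J V) (B : Finset J) (g : J → Sv V) : Prop :=
  P.PSt S B g ∧ ∀ v ∈ S.W, S.qm v → ∃ j ∈ B, g j = Sv.one v

/-- A normal state using as few items as possible, triples allowed. -/
def Min3 (S : Sub J V) (B : Finset J) (g : J → Sv V) : Prop :=
  P.NSt S B g ∧ ∀ f, St S (P.Serv3 S) B f → use B (fun j => (g j).its) ≤ use B f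

/-- A normal state without triples using as few items as possible among such states. -/
def Min2 (S : Sub J V) (B : Finset J) (g : J → Sv V) : Prop :=
  P.NSt S B g ∧ NoTri B g ∧ ∀ f, St S (P.Serv2 S) B f → use B (fun j => (g j).its) ≤ use B f

/-! ### Frames -/

def Indep (ρ : Finset V) : Prop := ∀ x ∈ ρ, ∀ y ∈ ρ, ¬ P.HH x y
def Clq (ρ : Finset V) : Prop := ∀ x ∈ ρ, ∀ y ∈ ρ, x ≠ y → P.HH x y
def Frame (e : ℕ) (ρ : Finset V) : Prop := ρ.card = 6 * e + 6 ∧ (P.Indep ρ ∨ P.Clq ρ)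

def maj (e : ℕ) (ρ : Finset V) (j : J) (o : Bool) : Prop :=
  (ρ.filter fun r => ¬ P.adj j o r).card ≤ e
def rig (e : ℕ) (ρ : Finset V) (j : J) (o : Bool) : Prop := P.maj e ρ j o ∧ ¬ P.maj e ρ j (!o)
def blind (e : ℕ) (ρ : Finset V) (j : J) : Prop := P.maj e ρ j false ∧ P.maj e ρ j true
def flex (e : ℕ) (ρ : Finset V) (j : J) : Prop := ¬ P.maj e ρ j false ∧ ¬ P.maj e ρ j true
def heavy (e : ℕ) (ρ : Finset V) (x : V) : Prop :=
  (ρ.filter fun r => ¬ P.HH x r).card ≤ 2 * e + 1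
def Q0 (e : ℕ) (ρ : Finset V) (x : V) : Prop := P.Indep ρ ∧ P.heavy e ρ x

def rigid (S : Sub J V) (e : ℕ) (ρ : Finset V) (j : J) : Prop := S.geo j ∧ ∃ o, P.rig e ρ j o

def ncE (S : Sub J V) (e : ℕ) (ρ : Finset V) (j : J) (x : V) : Prop :=
  S.geo j ∧ (∃ o, P.rig e ρ j o ∧ P.col j (!o) x) ∧ ¬ P.heavy e ρ x ∧ ¬ S.qm x

def peE (S : Sub J V) (e : ℕ) (ρ : Finset V) (q z : V) : Prop :=
  P.Q0 e ρ q ∧ ¬ P.heavy e ρ z ∧ ¬ P.HH q z ∧ ¬ S.qm q ∧ ¬ S.qm z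

/-- Edges of the auxiliary graph of a frame. -/
def En (S : Sub J V) (e : ℕ) (ρ : Finset V) (X : Ax J V) : Nd J V → Nd J V → Prop
  | Sum.inl j, Sum.inr (Sum.inl v) =>
      j ∈ S.A ∧ v ∈ S.W ∧ (S.lst j v ∨ (X.nc ∧ P.ncE S e ρ j v))
  | Sum.inr (Sum.inl v), Sum.inl j =>
      j ∈ S.A ∧ v ∈ S.W ∧ (S.lst j v ∨ (X.nc ∧ P.ncE S e ρ j v))
  | Sum.inr (Sum.inl u), Sum.inr (Sum.inl v) =>
      u ∈ S.W ∧ v ∈ S.W ∧ X.pe ∧
        ((P.peE S e ρ u v ∧ ¬ X.zs v) ∨ (P.peE S e ρ v u ∧ ¬ X.zs u))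
  | Sum.inl j, Sum.inr (Sum.inr i) => j = i ∧ j ∈ S.A ∧ S.geo j ∧ P.flex e ρ j
  | Sum.inr (Sum.inr i), Sum.inl j => j = i ∧ j ∈ S.A ∧ S.geo j ∧ P.flex e ρ j
  | _, _ => False

/-- The nodes that have to be covered are covered. -/
def Cov (S : Sub J V) (e : ℕ) (ρ : Finset V) (X : Ax J V) (m : Nd J V → Nd J V) : Prop :=
  (∀ j ∈ S.A, (¬ P.rigid S e ρ j ∨ X.mc j) → m (ag j) ≠ ag j) ∧
    ∀ v ∈ S.W, S.qm v → m (vx v) ≠ vx v

def Pass (S : Sub J V) (e : ℕ) (ρ : Finset V) (X : Ax J V) (l : ℕ) : Prop :=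
  ∃ ν, IsM (P.En S e ρ X) ν ∧ cov ν = 2 * S.A.card ∧
    2 * S.A.card + l ≤ cw S ν + S.W.card ∧ P.Cov S e ρ X ν

/-- Installed pair services. -/
def SgOk (S : Sub J V) (Γ : Finset (J × V × V)) : Prop :=
  (∀ s ∈ Γ, s.1 ∈ S.A ∧ S.geo s.1 ∧ s.2.1 ∈ S.W ∧ s.2.2 ∈ S.W ∧ P.Pr s.1 s.2.1 s.2.2 ∧
    ¬ S.qm s.2.1 ∧ ¬ S.qm s.2.2) ∧ Dis2 Γ

def WitP (e : ℕ) (ρ : Finset V) (s : J × V × V) : Prop :=
  ∃ o, P.rig e ρ s.1 o ∧ P.Q0 e ρ s.2.1 ∧ P.col s.1 (!o) s.2.1 ∧ P.col s.1 o s.2.2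

def WitN (e : ℕ) (ρ : Finset V) (s : J × V × V) : Prop :=
  ∃ o, P.rig e ρ s.1 o ∧ P.col s.1 (!o) s.2.2 ∧ ¬ P.heavy e ρ s.2.2

def axW (s1 s2 : J × V × V) : Ax J V :=
  ⟨True, True, fun z => P.junk s1.1 z ∧ P.junk s2.1 z,
    fun j => P.junk j s1.2.2 ∧ P.junk j s2.2.2⟩

def TestF (S : Sub J V) (e l : ℕ) (ρ : Finset V) : Prop :=
  ∃ Γ : Finset (J × V × V), Γ.card ≤ 5 ∧ P.SgOk S Γ ∧
    ((∃ s1 ∈ Γ, ∃ s2 ∈ Γ, s1 ≠ s2 ∧ P.WitP e ρ s1 ∧ P.WitP e ρ s2 ∧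
        P.Pass (S.rem (ag2 Γ) (it2 Γ)) e ρ (P.axW s1 s2) l) ∨
      (∃ s1 ∈ Γ, ∃ s2 ∈ Γ, s1 ≠ s2 ∧ P.WitN e ρ s1 ∧ P.WitN e ρ s2 ∧
        P.Pass (S.rem (ag2 Γ) (it2 Γ)) e ρ (axN J V) l) ∨
      P.Pass (S.rem (ag2 Γ) (it2 Γ)) e ρ (axC J V) l)

def Test1 (S : Sub J V) (e l : ℕ) : Prop := ∀ ρ, P.Frame e ρ → P.TestF S e l ρ

/-- The test of the slack theorem. -/
def TestSL (rk : J → ℕ) (S : Sub J V) (e l : ℕ) : Prop :=
  P.Pass (S.lev fun _ => False) e ∅ (axC J V) l ∧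
    ∀ j0 ∈ S.A, P.Test1 (S.lev fun j => rk j ≤ rk j0) e l

/-! ### Images of states and classes of auxiliary matchings -/

/-- No triples and no pair service of a blind agent. -/
def Simple (e : ℕ) (ρ : Finset V) (B : Finset J) (g : J → Sv V) : Prop :=
  ∀ j ∈ B, (∃ c, g j = Sv.one c) ∨ ∃ a b, g j = Sv.two a b ∧ ¬ P.blind e ρ j

def OldA (e : ℕ) (ρ : Finset V) (B : Finset J) (g : J → Sv V) (j : J) (v : V) : Prop :=
  j ∈ B ∧ (g j = Sv.one v ∨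
    ∃ a b o, g j = Sv.two a b ∧ P.rig e ρ j o ∧ v = mi o a b ∧ ¬ P.heavy e ρ v)

/-- `j` owns the old pair edge with heavy end `q` and light end `z`. -/
def OldP (e : ℕ) (ρ : Finset V) (B : Finset J) (g : J → Sv V) (j : J) (q z : V) : Prop :=
  j ∈ B ∧ ∃ a b o, g j = Sv.two a b ∧ P.rig e ρ j o ∧ q = mi o a b ∧ z = ma o a b ∧
    P.heavy e ρ q

def OldD (e : ℕ) (ρ : Finset V) (B : Finset J) (g : J → Sv V) (j : J) : Prop :=
  j ∈ B ∧ (∃ a b, g j = Sv.two a b) ∧ P.flex e ρ j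

def Old (e : ℕ) (ρ : Finset V) (B : Finset J) (g : J → Sv V) : Nd J V → Nd J V → Prop
  | Sum.inl j, Sum.inr (Sum.inl v) => P.OldA e ρ B g j v
  | Sum.inr (Sum.inl v), Sum.inl j => P.OldA e ρ B g j v
  | Sum.inr (Sum.inl u), Sum.inr (Sum.inl v) =>
      ∃ j, P.OldP e ρ B g j u v ∨ P.OldP e ρ B g j v u
  | Sum.inl j, Sum.inr (Sum.inr i) => j = i ∧ P.OldD e ρ B g j
  | Sum.inr (Sum.inr i), Sum.inl j => j = i ∧ P.OldD e ρ B g j
  | _, _ => False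

/-- `μ` is the image of the state `g` on `B`. -/
def IsImg (e : ℕ) (ρ : Finset V) (B : Finset J) (g : J → Sv V) (μ : Nd J V → Nd J V) : Prop :=
  (∀ x, μ (μ x) = x) ∧ ∀ x y, x ≠ y → (μ x = y ↔ P.Old e ρ B g x y)

/-- The setting of one exchange step. -/
structure Ctx (S : Sub J V) (e : ℕ) (ρ : Finset V) (B : Finset J) (g : J → Sv V)
    (μ : Nd J V → Nd J V) : Prop where
  wf : P.Wf S
  fr : P.Frame e ρ
  st : P.PSt S B g
  si : P.Simple e ρ B g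
  im : P.IsImg e ρ B g μ

def Cls (S : Sub J V) (e : ℕ) (ρ : Finset V) (X : Ax J V) (μ : Nd J V → Nd J V) (w : ℕ)
    (ν : Nd J V → Nd J V) : Prop :=
  IsM (fun x y => P.En S e ρ X x y ∨ μ x = y) ν ∧ cov ν = 2 * S.A.card ∧ w ≤ cw S ν ∧
    P.Cov S e ρ X ν

def Best (S : Sub J V) (e : ℕ) (ρ : Finset V) (X : Ax J V) (μ : Nd J V → Nd J V) (w : ℕ)
    (ν : Nd J V → Nd J V) : Prop :=
  P.Cls S e ρ X μ w ν ∧ ∀ ν', P.Cls S e ρ X μ w ν' → newc μ ν < newc μ ν' ∨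
    (newc μ ν = newc μ ν' ∧ ((ends μ ν').card < (ends μ ν).card ∨
      ((ends μ ν').card = (ends μ ν).card ∧ pot μ ν ≤ pot μ ν')))

end Geo

/-- A pair service whose auxiliary edge is kept and whose hidden items stay uncovered. -/
def Intact (B : Finset J) (g : J → Sv V) (μ ν : Nd J V → Nd J V) (j : J) : Prop :=
  j ∈ B ∧ (∃ a b, g j = Sv.two a b) ∧ μ (ag j) ≠ ag j ∧ ν (ag j) = μ (ag j) ∧
    ∀ v ∈ (g j).its, μ (ag j) ≠ vx v → ν (vx v) = vx v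

def PoolS (S : Sub J V) (B : Finset J) (g : J → Sv V) (μ ν : Nd J V → Nd J V) : Finset V :=
  S.W.filter fun v => ν (vx v) = vx v ∧ ¬ ∃ j, Intact B g μ ν j ∧ v ∈ (g j).its

/-- Agents with a new key. -/
def Req (S : Sub J V) (μ ν : Nd J V → Nd J V) : Finset J :=
  S.A.filter fun j => ∃ x, ν (ag j) = vx x ∧ ¬ S.lst j x ∧ μ (ag j) ≠ vx x

namespace Geo

variable (P : Geo J V)

def RectA (S : Sub J V) (B : Finset J) (g : J → Sv V) (μ ν : Nd J V → Nd J V) (a1 a2 : ℕ) :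
    Prop :=
  ∀ R ⊆ Req S μ ν, ∀ Y ⊆ PoolS S B g μ ν, (∀ y ∈ Y, μ (vx y) = vx y) →
    (∀ j ∈ R, ∀ x, ν (ag j) = vx x → ∀ y ∈ Y, ¬ P.Ok j x y) → R.card < a1 ∨ Y.card < a2

def JointB (S : Sub J V) (e : ℕ) (ρ : Finset V) (μ ν : Nd J V → Nd J V) (a3 : ℕ) : Prop :=
  ∀ j j', j ≠ j' → P.rigid S e ρ j → P.rigid S e ρ j' →
    (univ.filter fun q => P.Q0 e ρ q ∧ ∃ z, z ≠ q ∧ ν (vx q) = vx z ∧ μ (vx q) ≠ vx z ∧
      ¬ P.Ok j q z ∧ ¬ P.Ok j' q z).card ≤ a3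

/-- Helpers `(agent, heavy item, light item)` outside the sub-instance. -/
def HelpOk (S : Sub J V) (e : ℕ) (ρ : Finset V) (Hh : Finset (J × V × V)) : Prop :=
  (∀ s ∈ Hh, s.1 ∉ S.A ∧ P.rigid S e ρ s.1 ∧ s.2.1 ∉ S.W ∧ s.2.2 ∉ S.W ∧
    P.peE S e ρ s.2.1 s.2.2 ∧ ¬ P.junk s.1 s.2.2) ∧ Dis2 Hh

/-- The helpers `Hs` remove the two obstacles. -/
def NoObs (S : Sub J V) (e : ℕ) (ρ : Finset V) (Hs : Finset (J × V × V))
    (ν : Nd J V → Nd J V) : Prop :=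
  (∀ j ∈ S.A, ν (ag j) = ag j → ∃ s ∈ Hs, ¬ P.junk j s.2.2) ∧
    ∀ q z, z ≠ q → ν (vx q) = vx z → P.Q0 e ρ q → ∃ s ∈ Hs, ¬ P.junk s.1 z

/-- The hypotheses of the realisation step; `Hh` are helpers outside, `Hi` helpers inside. -/
structure RCtx (S : Sub J V) (e : ℕ) (ρ : Finset V) (B : Finset J) (g : J → Sv V)
    (μ ν : Nd J V → Nd J V) (Hh Hi : Finset (J × V × V)) (nE a3 δ : ℕ) : Prop where
  cx : P.Ctx S e ρ B g μ
  hp : P.HelpOk S e ρ Hh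
  hi : ∀ s ∈ Hi, P.OldP e ρ B g s.1 s.2.1 s.2.2 ∧ ν (vx s.2.1) = vx s.2.2 ∧ ν (ag s.1) = ag s.1
  m : IsM (P.En S e ρ (axAll J V)) ν
  sz : cov ν = 2 * S.A.card
  cv : P.Cov S e ρ (axAll J V) ν
  en : (ends μ ν).card ≤ nE
  jb : P.JointB S e ρ μ ν a3
  ob : δ = 1 ∨ P.NoObs S e ρ (Hh ∪ Hi) ν

/-- An assignment of pair edges `(q, z)` to the uncovered agents and the outside helpers. -/
def Own (S : Sub J V) (e : ℕ) (ρ : Finset V) (ν : Nd J V → Nd J V) (Hh : Finset (J × V × V))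
    (d δ : ℕ) : Prop :=
  ∃ (own : J → V → V → Prop) (Dm Jt : Finset J), Dm.card ≤ d ∧ Jt ⊆ Dm ∧ Jt.card ≤ δ ∧
    (∀ j j' q z z', own j q z → own j' q z' → j = j') ∧
    ∀ j, (j ∈ ag2 Hh ∨ (j ∈ S.A ∧ ν (ag j) = ag j)) → ∃ q z, own j q z ∧
      ((P.Q0 e ρ q ∧ z ≠ q ∧ ν (vx q) = vx z) ∨ ∃ s ∈ Hh, s.2 = (q, z)) ∧
      (j ∉ Dm → P.Ok j q z) ∧ (j ∉ Jt → P.Ok j q z ∨ ¬ P.junk j z)

/-! ### Absorbing families -/

end Geo

/-- A member: agent, side, item of that side, item of the other side. -/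
abbrev Mb (J V : Type) : Type := J × Bool × V × V

def fagF {ι : Type} [Fintype ι] (F : ι → Mb J V) : Finset J := univ.image fun r => (F r).1
def fitF {ι : Type} [Fintype ι] (F : ι → Mb J V) : Finset V :=
  (univ.image fun r => (F r).2.2.1) ∪ univ.image fun r => (F r).2.2.2

/-- Different agents, different items. -/
def DisF {ι : Type} (F : ι → Mb J V) : Prop :=
  Function.Injective (fun r => (F r).1) ∧
    Function.Injective (Sum.elim (fun r => (F r).2.2.1) (fun r => (F r).2.2.2))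

/-- Size of the absorbing family. -/
def NU (c : ℕ) : ℕ := c + 55 * (4 * c + 12)
/-- Zones of the absorbing family. -/
def zM (c r : ℕ) : Prop := c ≤ r ∧ r < c + 53 * (4 * c + 12)
def zM2 (c r : ℕ) : Prop := c + 3 * (4 * c + 12) ≤ r ∧ r < c + 53 * (4 * c + 12)

namespace Geo

variable (P : Geo J V)

/-- `x` has the side of the member (colour A), the other side (colour B). -/
def cA (m : Mb J V) (x : V) : Prop := P.col m.1 m.2.1 x
def cB (m : Mb J V) (x : V) : Prop := P.col m.1 (!m.2.1) x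

/-- An absorbing family of type `ty`. -/
structure PFam {N : ℕ} (ty : ℕ) (F : Fin N → Mb J V) : Prop where
  dis : DisF F
  ind : ∀ x ∈ fitF F, ∀ y ∈ fitF F, ¬ P.HH x y
  own : ∀ r, P.cA (F r) (F r).2.2.1 ∧ P.cB (F r) (F r).2.2.2
  upa : ∀ r r', r < r' → P.cA (F r) (F r').2.2.1
  lt4 : ty < 4
  t0 : ty = 0 → ∀ r r', r < r' →
    P.cB (F r) (F r').2.2.2 ∧ P.cB (F r') (F r).2.2.1 ∧ P.cA (F r') (F r).2.2.2
  upb : ty ≠ 0 → ∀ r r', r < r' → P.cA (F r) (F r').2.2.2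
  t1 : ty = 1 → ∀ r r', r < r' →
    ¬ P.adj (F r').1 (F r').2.1 (F r).2.2.2 ∨ P.C (F r').1 (F r).2.2.1
  t2 : ty = 2 → ∀ r r', r < r' → P.cB (F r') (F r).2.2.1
  t3 : ty = 3 → ∀ r r', r < r' → P.cA (F r') (F r).2.2.1 ∧ P.cA (F r') (F r).2.2.2

/-- The member absorbs `z` directly. -/
def dir (m : Mb J V) (z : V) : Prop :=
  P.C m.1 z ∨ (P.cA m z ∧ ¬ P.HH z m.2.2.2) ∨ (P.cB m z ∧ ¬ P.HH z m.2.2.1)

def waste {N : ℕ} (F : Fin N → Mb J V) (z : V) : Prop :=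
  ∃ r r', r ≠ r' ∧ P.junk (F r).1 z ∧ P.junk (F r').1 z

def easy (c : ℕ) (F : Fin (NU c) → Mb J V) (z : V) : Prop :=
  4 * c + 12 < (univ.filter fun r : Fin (NU c) => zM c r ∧ P.dir (F r) z).card

def star (c : ℕ) (F : Fin (NU c) → Mb J V) (z : V) : Prop :=
  ¬ P.easy c F z ∧ ¬ P.waste F z ∧
    (univ.filter fun r : Fin (NU c) => zM2 c r ∧ ¬ P.HH z (F r).2.2.2).card < 20 * (4 * c + 12)

def hard (c : ℕ) (F : Fin (NU c) → Mb J V) (z : V) : Prop :=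
  ¬ P.easy c F z ∧ ¬ P.waste F z ∧ ¬ P.star c F z

/-- Items that a low member can take in place of its own. -/
def goodI {N : ℕ} (ty : ℕ) (F : Fin N → Mb J V) (R : Finset (Fin N)) (x : V) : Prop :=
  ∃ r ∈ R, x = (F r).2.2.1 ∨ (ty ≠ 0 ∧ x = (F r).2.2.2)

/-- The fresh members `R` (and the witness agents of `Wt`) absorb `Z` and release `n` good
items. -/
def Absorb (c ty : ℕ) (F : Fin (NU c) → Mb J V) (U : Finset (Fin (NU c)))
    (Wt : Finset (J × V × V)) (Z : Finset V) (n : ℕ) : Prop :=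
  ∃ (R : Finset (Fin (NU c))) (f : J → Finset V) (Gd : Finset V),
    Disjoint R U ∧ R.card ≤ 3 ∧ (∀ r ∈ R, c ≤ r.val) ∧ Gd.card = n ∧
    (∀ x ∈ Gd, goodI ty F R x) ∧
    St (P.pl ((R.image fun r => (F r).1) ∪ ag2 Wt)
      (((R.biUnion fun r => {(F r).2.2.1, (F r).2.2.2}) ∪ Z ∪ it2 Wt) \ Gd))
      (P.Serv2 (P.pl univ univ)) ((R.image fun r => (F r).1) ∪ ag2 Wt) f

/-- A witness service for the parity problem. -/
def WitU (c : ℕ) (F : Fin (NU c) → Mb J V) (s : J × V × V) : Prop :=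
  (∃ o, P.col s.1 o s.2.1 ∧ P.col s.1 (!o) s.2.2) ∧ ¬ P.HH s.2.1 s.2.2 ∧ P.hard c F s.2.1 ∧
    ¬ P.waste F s.2.2 ∧ ¬ P.star c F s.2.2 ∧ s.1 ∉ fagF F ∧ s.2.1 ∉ fitF F ∧ s.2.2 ∉ fitF F

def PhiOk (Φ : Finset (J × V × V × V)) : Prop :=
  (∀ s ∈ Φ, P.Serv3 (P.pl univ univ) s.1 {s.2.1, s.2.2.1, s.2.2.2}) ∧ Dis3 Φ

/-- The exposed items. -/
def expo (c : ℕ) (F : Fin (NU c) → Mb J V) : Finset V :=
  (univ.filter fun r : Fin (NU c) => r.val < c).image fun r => (F r).2.2.1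

/-- The instance that remains in the absorbing case. -/
def SU (c : ℕ) (F : Fin (NU c) → Mb J V) (Φ : Finset (J × V × V × V)) (D : Finset V)
    (Wt : Finset (J × V × V)) (q : Prop) : Sub J V :=
  ⟨univ \ (fagF F ∪ ag3 Φ ∪ ag2 Wt), univ \ ((fitF F \ expo c F) ∪ it3 Φ ∪ D ∪ it2 Wt),
    fun _ => True, P.C, fun v => q ∧ P.hard c F v ∧ v ∉ fitF F⟩

def UTest (rk : J → ℕ) (e c L : ℕ) : Prop :=
  ∃ (ty : ℕ) (F : Fin (NU c) → Mb J V) (Φ : Finset (J × V × V × V)) (D : Finset V),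
    P.PFam ty F ∧ Φ.card ≤ L ∧ D.card ≤ L ∧ P.PhiOk Φ ∧ Disjoint (ag3 Φ) (fagF F) ∧
    Disjoint (it3 Φ) (fitF F) ∧ Disjoint D (fitF F) ∧
    (∀ v, v ∉ fitF F → v ∉ it3 Φ → v ∉ D → ¬ P.waste F v ∧ ¬ P.star c F v) ∧
    ((∃ s, P.WitU c F s ∧ s.1 ∉ ag3 Φ ∧ s.2.1 ∉ it3 Φ ∧ s.2.2 ∉ it3 Φ ∧
        P.TestSL rk (P.SU c F Φ D {s} False) e c) ∨
      P.TestSL rk (P.SU c F Φ D ∅ False) e (c + 1) ∨
      P.TestSL rk (P.SU c F Φ D ∅ True) e c)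

/-- Two pair services see each other consistently. -/
def Cons (g : J → Sv V) (i k : J) : Prop :=
  ∃ a b a' b', g i = Sv.two a b ∧ g k = Sv.two a' b' ∧ P.col i true a' ∧ P.col i false b' ∧
    P.col k true a ∧ P.col k false b

end Geo

/-! ### Consistent families -/

/-- Base families `F`, universal families `G`, thresholds `h`, `h0`. -/
structure RG (J V : Type) (t M t' M0 : ℕ) where
  F : Fin t → Fin M → Mb J V
  G : Fin t' → Fin M0 → Mb J V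
  h : ℕ
  h0 : ℕ

def RG.mem {t M t' M0 : ℕ} (R : RG J V t M t' M0) :
    (Fin t × Fin M) ⊕ (Fin t' × Fin M0) → Mb J V :=
  Sum.elim (fun p => R.F p.1 p.2) (fun p => R.G p.1 p.2)

/-- Marks of pair edges. -/
abbrev Mk (t t' : ℕ) : Type := Option (Fin t ⊕ Fin t')

/-- Complete classes: a type and two terminals of base members. -/
abbrev Kl (t M : ℕ) : Type := Fin t × (Fin t × Fin M × Bool) × (Fin t × Fin M × Bool)

/-- Labels of uncovered nodes in the final test. -/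
abbrev Lb (t M : ℕ) : Type := (Kl t M × Fin 3) ⊕ Fin 3

/-- Item of side `s` of a member. -/
def sdI (m : Mb J V) (s : Bool) : V := if s then m.2.2.2 else m.2.2.1

/-- A matching together with labels of the uncovered nodes, in prescribed numbers. -/
def Lab {T D : Type} [Fintype T] [DecidableEq T] (E : T → T → Prop) (Ad : D → T → Prop)
    (n : D → ℕ) (m : T → T) : Prop :=
  IsM E m ∧ ∃ lab : T → Option D, (∀ x, lab x = none ↔ m x ≠ x) ∧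
    (∀ x d, lab x = some d → Ad d x) ∧
    ∀ d, (univ.filter fun x => lab x = some d).card = n d

namespace Geo

variable (P : Geo J V) {t M t' M0 : ℕ}

def CFam {N : ℕ} (F : Fin N → Mb J V) : Prop :=
  (∀ r r', P.cA (F r) (F r').2.2.1 ∧ P.cB (F r) (F r').2.2.2) ∧
    ∀ r, ¬ P.HH (F r).2.2.1 (F r).2.2.2

structure RGood (R : RG J V t M t' M0) : Prop where
  dis : DisF R.mem
  cF : ∀ τ, P.CFam (R.F τ)
  cG : ∀ i, P.CFam (R.G i)
  uni : ∀ i g τ, (univ.filter fun r =>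
    ¬ P.Ok (R.F τ r).1 (R.G i g).2.2.1 (R.G i g).2.2.2).card ≤ 1

def Xs {N : ℕ} (F : Fin N → Mb J V) (h : ℕ) (x : V) : Prop :=
  (univ.filter fun r => ¬ P.cA (F r) x).card < h
def Ys {N : ℕ} (F : Fin N → Mb J V) (h : ℕ) (y : V) : Prop :=
  (univ.filter fun r => ¬ P.cB (F r) y).card < h
def To {N : ℕ} (F : Fin N → Mb J V) (h : ℕ) (j : J) (o : Bool) : Prop :=
  (univ.filter fun r => ¬ (P.col j o (F r).2.2.1 ∧ P.col j (!o) (F r).2.2.2)).card < h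

/-- Agent `j` has type `τ`. -/
def Ty (R : RG J V t M t' M0) (τ : Fin t) (j : J) : Prop := ∃ o, P.To (R.F τ) R.h j o

def Xm (R : RG J V t M t' M0) : Mk t t' → V → Prop
  | none, _ => False
  | some (Sum.inl τ), x => P.Xs (R.F τ) R.h x
  | some (Sum.inr i), x => P.Xs (R.G i) R.h0 x

def Ym (R : RG J V t M t' M0) : Mk t t' → V → Prop
  | none, _ => False
  | some (Sum.inl τ), y => P.Ys (R.F τ) R.h y
  | some (Sum.inr i), y => P.Ys (R.G i) R.h0 y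

def Tm (R : RG J V t M t' M0) : Mk t t' → J → Prop
  | none, _ => False
  | some (Sum.inl τ), j => P.Ty R τ j
  | some (Sum.inr _), j => ∃ τ, P.Ty R τ j

/-- Single edges and pair edges. -/
def EK (A : Finset J) (W : Finset V) (pe : V → V → Prop) : Nd J V → Nd J V → Prop
  | Sum.inl j, Sum.inr (Sum.inl v) => j ∈ A ∧ v ∈ W ∧ P.C j v
  | Sum.inr (Sum.inl v), Sum.inl j => j ∈ A ∧ v ∈ W ∧ P.C j v
  | Sum.inr (Sum.inl u), Sum.inr (Sum.inl v) => u ∈ W ∧ v ∈ W ∧ ¬ P.HH u v ∧ (pe u v ∨ pe v u)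
  | _, _ => False

/-- A virtual solution. -/
def VS (R : RG J V t M t' M0) (A : Finset J) (W : Finset V) (ν : Nd J V → Nd J V) : Prop :=
  IsM (P.EK A W fun _ _ => True) ν ∧
    ∃ (sd : V → Prop) (mk : V → Mk t t') (own : J → V → Prop),
      (∀ x y, x ≠ y → ν (vx x) = vx y → (sd x ↔ ¬ sd y) ∧ mk x = mk y ∧
        (sd x → P.Xm R (mk x) x ∧ P.Ym R (mk x) y)) ∧
      (∀ j j' x, own j x → own j' x → j = j') ∧
      ∀ j ∈ A, ν (ag j) = ag j →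
        ∃ x y, own j x ∧ sd x ∧ x ≠ y ∧ ν (vx x) = vx y ∧ P.Tm R (mk x) j

def peU (R : RG J V t M t' M0) (x y : V) : Prop :=
  ∃ i, P.Xs (R.G i) R.h0 x ∧ P.Ys (R.G i) R.h0 y

def inK (R : RG J V t M t' M0) (κ : Kl t M) (x : V) : Prop :=
  P.adj (R.F κ.2.1.1 κ.2.1.2.1).1 κ.2.1.2.2 x ∧ P.adj (R.F κ.2.2.1 κ.2.2.2.1).1 κ.2.2.2.2 x

def Xk (R : RG J V t M t' M0) (κ : Kl t M) (x : V) : Prop :=
  P.Xs (R.F κ.1) R.h x ∧ P.inK R κ x
def Yk (R : RG J V t M t' M0) (κ : Kl t M) (y : V) : Prop :=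
  P.Ys (R.F κ.1) R.h y ∧ P.inK R κ y

def AdK (R : RG J V t M t' M0) (A : Finset J) (W : Finset V) : Lb t M → Nd J V → Prop
  | Sum.inl (κ, i), Sum.inr (Sum.inl v) =>
      v ∈ W ∧ ((i = 0 ∧ P.Xk R κ v) ∨ (i = 1 ∧ P.Yk R κ v))
  | Sum.inl (κ, i), Sum.inl j => j ∈ A ∧ i = 2 ∧ P.Ty R κ.1 j
  | Sum.inl _, Sum.inr (Sum.inr _) => False
  | Sum.inr i, Sum.inl j => (i = 0 ∧ j ∈ A ∧ ∃ τ, P.Ty R τ j) ∨ (i = 2 ∧ j ∉ A)
  | Sum.inr i, Sum.inr (Sum.inl v) => (i = 1 ∧ v ∈ W) ∨ (i = 2 ∧ v ∉ W)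
  | Sum.inr i, Sum.inr (Sum.inr _) => i = 2

def KTest (R : RG J V t M t' M0) (A : Finset J) (W : Finset V) : Prop :=
  ∃ n : Lb t M → ℕ,
    (∀ κ, n (Sum.inl (κ, 0)) = n (Sum.inl (κ, 1)) ∧ n (Sum.inl (κ, 0)) = n (Sum.inl (κ, 2)) ∧
      (n (Sum.inl (κ, 0)) ≠ 0 → ∀ x y, P.Xk R κ x → P.Yk R κ y → x ≠ y ∧ ¬ P.HH x y)) ∧
    A.card + (∑ κ, n (Sum.inl (κ, 0))) + n (Sum.inr 0) + n (Sum.inr 1) ≤ W.card ∧
    ∃ m, Lab (P.EK A W (P.peU R)) (P.AdK R A W) n m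

/-- The instance in which the agents without a type only take single items. -/
def SR (R : RG J V t M t' M0) (A : Finset J) (W : Finset V) : Sub J V :=
  ⟨A, W, fun j => ∃ τ, P.Ty R τ j, P.C, fun _ => False⟩

def RTest (rk : J → ℕ) (e c t0 c1 L : ℕ) : Prop :=
  ∃ t, t < t0 ∧ ∃ t', t' < t0 ∧ ∃ h, h < L ∧ ∃ h0, h0 < L ∧
    ∃ (F : Fin t → Fin (30 * h + c1) → Mb J V) (G : Fin t' → Fin (30 * h0 + c1) → Mb J V)
      (Φ : Finset (J × V × V × V)) (U : Finset J),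
      P.RGood ⟨F, G, h, h0⟩ ∧ Φ.card ≤ L ∧ U.card ≤ c ∧ P.PhiOk Φ ∧
      Disjoint (ag3 Φ) (fagF (RG.mem ⟨F, G, h, h0⟩)) ∧
      Disjoint (it3 Φ) (fitF (RG.mem ⟨F, G, h, h0⟩)) ∧
      P.KTest ⟨F, G, h, h0⟩ (univ \ (fagF (RG.mem ⟨F, G, h, h0⟩) ∪ ag3 Φ))
        (univ \ (fitF (RG.mem ⟨F, G, h, h0⟩) ∪ it3 Φ)) ∧
      (univ \ (fagF (RG.mem ⟨F, G, h, h0⟩) ∪ ag3 Φ) ⊆ U ∨
        P.TestSL rk (P.SR ⟨F, G, h, h0⟩ (univ \ (fagF (RG.mem ⟨F, G, h, h0⟩) ∪ ag3 Φ ∪ U))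
          (univ \ (fitF (RG.mem ⟨F, G, h, h0⟩) ∪ it3 Φ))) e c)

/-- The characterisation of feasibility. -/
def Char (rk : J → ℕ) (e c t0 c1 L : ℕ) : Prop :=
  P.UTest rk e c L ∨ P.RTest rk e c t0 c1 L

/-! ### The last step in the consistent case -/

/-- The pair `{x, y}` can be passed on to agents of type `τ`. -/
def Srv (R : RG J V t M t' M0) (h2 : ℕ) (τ : Fin t) (x y : V) : Prop :=
  h2 ≤ (univ.filter fun r => P.Ok (R.F τ r).1 x y).card ∨ P.peU R x y ∨ P.peU R y x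

def Compat (R : RG J V t M t' M0) (h2 : ℕ) (j : J) (x y : V) : Prop :=
  ∃ τ, P.Ty R τ j ∧ P.Srv R h2 τ x y

/-- Members having both `x` and `y` next to their terminal of side `s`. -/
def PS (R : RG J V t M t' M0) (τ : Fin t) (s : Bool) (x y : V) : Finset (Fin M) :=
  univ.filter fun r => P.adj (R.F τ r).1 (xor (R.F τ r).2.1 s) x ∧
    P.adj (R.F τ r).1 (xor (R.F τ r).2.1 s) y

/-- Odd service of `j` with hidden item `x`, key `y`, orientation `o` and class `k`. -/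
def OddC (R : RG J V t M t' M0) (g : J → Sv V) (j : J) (x y : V) (o : Bool)
    (k : Fin t × Bool × Bool) : Prop :=
  (g j = Sv.two x y ∨ g j = Sv.two y x) ∧ P.To (R.F k.1) R.h j o ∧ P.col j (xor o k.2.1) x ∧
    P.col j (!(xor o k.2.1)) y ∧
    10 * (univ.filter fun r => P.junk (R.F k.1 r).1 x).card < M ∧
    (k.2.2 = false → 2 * M ≤ 3 * (P.PS R k.1 k.2.1 x y).card) ∧
    (k.2.2 = true → M ≤ 4 * (P.PS R k.1 false x y).card ∧ M ≤ 4 * (P.PS R k.1 true x y).card)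

end Geo

/-- Data of the odd services. -/
abbrev OdT (J V : Type) (t : ℕ) : Type := J → Option (V × V × Bool × Fin t × Bool × Bool)

def OldK {t : ℕ} (B : Finset J) (g : J → Sv V) (od : OdT J V t) : Nd J V → Nd J V → Prop
  | Sum.inl j, Sum.inr (Sum.inl v) =>
      j ∈ B ∧ (g j = Sv.one v ∨ ∃ x o k, od j = some (x, v, o, k))
  | Sum.inr (Sum.inl v), Sum.inl j =>
      j ∈ B ∧ (g j = Sv.one v ∨ ∃ x o k, od j = some (x, v, o, k))
  | Sum.inr (Sum.inl u), Sum.inr (Sum.inl v) =>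
      ∃ j ∈ B, od j = none ∧ (g j = Sv.two u v ∨ g j = Sv.two v u)
  | _, _ => False

namespace Geo

variable (P : Geo J V) {t M t' M0 : ℕ}

/-- The setting of the last step. -/
structure KCtx (R : RG J V t M t' M0) (h2 : ℕ) (A : Finset J) (W : Finset V) (B : Finset J)
    (g : J → Sv V) (od : OdT J V t) (μ : Nd J V → Nd J V) : Prop where
  good : P.RGood R
  dA : Disjoint A (fagF R.mem)
  dW : Disjoint W (fitF R.mem)
  st : P.PSt (P.SR R A W) B g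
  nt : NoTri B g
  odd : ∀ j x y o k, od j = some (x, y, o, k) → j ∈ B ∧ P.OddC R g j x y o k
  con : ∀ j ∈ B, od j = none → ∀ a b, g j = Sv.two a b → P.Compat R h2 j a b
  inv : ∀ x, μ (μ x) = x
  im : ∀ x y, x ≠ y → (μ x = y ↔ OldK B g od x y)

/-- The matching reached after the selection of boundedly many components. -/
structure KOut (R : RG J V t M t' M0) (h2 : ℕ) (A : Finset J) (W : Finset V)
    (od : OdT J V t) (μ ν : Nd J V → Nd J V) (nE d : ℕ) : Prop where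
  m : IsM (fun x y => P.EK A W (fun _ _ => True) x y ∨ μ x = y) ν
  en : (ends μ ν).card ≤ nE
  own : ∃ own : J → V → Prop,
    (∀ j j' x x', own j x → own j' x' → j ≠ j' → x ≠ x' ∧ ν (vx x) ≠ vx x') ∧
    ∀ j ∈ A, ν (ag j) = ag j → ∃ x y, own j x ∧ x ≠ y ∧ ν (vx x) = vx y ∧ P.Compat R h2 j x y
  cls : ∀ k, (univ.filter fun j => ∃ x y o, od j = some (x, y, o, k) ∧ ν (vx x) ≠ vx x).card ≤
    (univ.filter fun j => ∃ x y o, od j = some (x, y, o, k) ∧ ν (ag j) ≠ vx y).card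
  jt : ∀ j j', j ≠ j' → (univ.filter fun x => ∃ y, x ≠ y ∧ ν (vx x) = vx y ∧ μ (vx x) ≠ vx y ∧
    ¬ P.Ok j x y ∧ ¬ P.Ok j' x y).card ≤ d

end Geo

end

end Pool.Agent.Lib.MP_ef7581_lc.D2
end

-- part Pool.Agent.Lib.MP_ef7581_lc.DStmts
section

/-!
The steps of the proof as propositions.
-/

set_option autoImplicit false

namespace Pool.Agent.Lib.MP_ef7581_lc.D2

open Finset Classical

/-! ### Pure combinatorics -/

def RamseyStmt : Prop :=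
  (∀ (κ : Type) [Finite κ] (m : ℕ), ∃ N : ℕ, ∀ c : Fin N → Fin N → κ,
    ∃ e : Fin m → Fin N, StrictMono e ∧
      ∀ i j i' j', i < j → i' < j' → c (e i) (e j) = c (e i') (e j')) ∧
  ∀ a b : ℕ, ∃ N : ℕ, ∀ (α : Type) (s : Finset α) (R : α → α → Prop),
    (∀ x y, R x y → R y x) → N ≤ s.card →
    (∃ T ⊆ s, T.card = a ∧ ∀ x ∈ T, ∀ y ∈ T, x ≠ y → R x y) ∨
      ∃ T ⊆ s, T.card = b ∧ ∀ x ∈ T, ∀ y ∈ T, x ≠ y → ¬ R x y

def ExtStmt : Prop :=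
  ∀ (t0 : ℕ) (mreq : ℕ → ℕ), (∀ h, h ≤ mreq h) → ∃ L : ℕ,
    ∀ (α : Type) (s : Finset α) (R : α → α → Prop), (∀ x y, R x y → R y x) →
    (∀ T ⊆ s, t0 ≤ T.card → ∃ x ∈ T, ∃ y ∈ T, x ≠ y ∧ R x y) →
    ∃ t, t < t0 ∧ ∃ h, 1 ≤ h ∧ h < L ∧ ∃ (F : Fin t → Fin (mreq h) → α) (Bad : Finset α),
      Function.Injective (fun p : Fin t × Fin (mreq h) => F p.1 p.2) ∧ (∀ τ r, F τ r ∈ s) ∧
      (∀ τ r r', r ≠ r' → R (F τ r) (F τ r')) ∧ Bad ⊆ s ∧ Bad.card ≤ L ∧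
      (∀ τ r, F τ r ∉ Bad) ∧
      ∀ x ∈ s, x ∉ Bad → (∀ τ r, x ≠ F τ r) →
        ∃ τ, (univ.filter fun r => ¬ R x (F τ r)).card < h

def SelStmt : Prop :=
  ∀ (ι : Type) [Fintype ι] (B : ℕ), ∃ K : ℕ, ∀ (I : Type) (s : Finset I) (v : I → ι → ℤ)
    (b : ι → ℤ), (∀ i ∈ s, ∀ d, -(B : ℤ) ≤ v i d) → (∀ d, -(B : ℤ) ≤ b d) →
    (∀ d, 0 ≤ b d + ∑ i ∈ s, v i d) →
    ∃ s' ⊆ s, s'.card ≤ K ∧ ∀ d, 0 ≤ b d + ∑ i ∈ s', v i d

/-- Hall's theorem with deficiency `d`. -/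
def HallStmt : Prop :=
  ∀ (α β : Type) (s : Finset α) (t : Finset β) (R : α → β → Prop) (d : ℕ),
    (∀ A ⊆ s, A.card ≤ (t.filter fun y => ∃ x ∈ A, R x y).card + d) →
    ∃ (s' : Finset α) (f : α → Option β), s' ⊆ s ∧ s.card ≤ s'.card + d ∧
      (∀ x ∈ s', ∃ y ∈ t, f x = some y ∧ R x y) ∧
      ∀ x ∈ s', ∀ x' ∈ s', f x = f x' → x = x'

def CompStmt : Prop :=
  ∀ (α : Type) [Fintype α] [DecidableEq α] (μ ν : α → α), (∀ x, μ (μ x) = x) →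
    (∀ x, ν (ν x) = x) →
    (∀ x, x ∈ cmp μ ν x ∧ Cl (cmp μ ν x) μ ∧ Cl (cmp μ ν x) ν) ∧
    (∀ x y, y ∈ cmp μ ν x → cmp μ ν y = cmp μ ν x) ∧
    (∀ x X, Cl X μ → Cl X ν → x ∈ X → cmp μ ν x ⊆ X) ∧
    (∀ x y, μ x ≠ ν x → y ∈ cmp μ ν x → μ y ≠ ν y) ∧
    (∀ x, (cmp μ ν x ∩ ends μ ν).card ≤ 2) ∧
    (ends μ ν).card ≤ 2 * (ncomp μ ν).card ∧
    (∀ x, dcov μ ν (cmp μ ν x) = 2 ∨ dcov μ ν (cmp μ ν x) = 0 ∨ dcov μ ν (cmp μ ν x) = -2) ∧
    (∃ χ : α → Bool, ∀ x x', x ≠ x' → χ x = χ x' → cmp μ ν x = cmp μ ν x' → ν x ≠ x →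
      ν x' ≠ x' → ν x ≠ x' ∧ pot μ (cross x x' ν) < pot μ ν) ∧
    (∀ x x', x ≠ x' → ν x ≠ x → ν x' ≠ x' → ν x ≠ x' →
      (∀ z, cross x x' ν (cross x x' ν z) = z) ∧ (∀ z, cross x x' ν z = z ↔ ν z = z) ∧
      cross x x' ν x = ν x' ∧ cross x x' ν x' = ν x ∧ cross x x' ν (ν x) = x' ∧
      cross x x' ν (ν x') = x ∧
      (∀ z, z ≠ x → z ≠ x' → z ≠ ν x → z ≠ ν x' → cross x x' ν z = ν z) ∧
      cov (cross x x' ν) = cov ν ∧ ends μ (cross x x' ν) = ends μ ν ∧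
      (μ x ≠ ν x → μ x' ≠ ν x' → newc μ (cross x x' ν) ≤ newc μ ν) ∧
      ∀ E : α → α → Prop, IsM E ν → E x (ν x') → E (ν x') x → E x' (ν x) → E (ν x) x' →
        IsM E (cross x x' ν)) ∧
    (∀ T Y, ZeroSet μ ν T Y → cov (mix Y ν μ) = cov ν ∧ cov (mix Y μ ν) = cov μ ∧
      newc μ (mix Y ν μ) < newc μ ν) ∧
    ∀ (n δ : ℕ) (T : Finset α), cov ν ≤ cov μ + 2 * δ → cov μ ≤ cov ν + 2 * δ →
      (¬ ∃ Y : Fin (n + 1) → Finset α, (∀ i, ZeroSet μ ν T (Y i)) ∧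
        ∀ i j, i ≠ j → Disjoint (Y i) (Y j)) →
      (ncomp μ ν).card ≤ 2 * T.card + 2 * n + δ

/-- Counting pair edges. -/
def PeStmt : Prop :=
  ∀ (J V : Type) [Fintype J] [Fintype V] [DecidableEq J] [DecidableEq V],
    (∀ m : Nd J V → Nd J V, (∀ x, m (m x) = x) → Shape m →
      cov m = 2 * (univ.filter fun j : J => m (ag j) ≠ ag j).card + npe m univ ∧
      (univ.filter fun v : V => m (vx v) ≠ vx v).card =
        (univ.filter fun j : J => ∃ v, m (ag j) = vx v).card + npe m univ) ∧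
    ∀ μ ν : Nd J V → Nd J V, (∀ x, μ (μ x) = x) → (∀ x, ν (ν x) = x) → Shape μ → Shape ν →
      ∀ x, npe μ (cmp μ ν x) ≤ npe ν (cmp μ ν x) + 2 ∧ npe ν (cmp μ ν x) ≤ npe μ (cmp μ ν x) + 2

/-! ### States -/

def NormStmt : Prop :=
  ∀ (J V : Type) [Fintype J] [Fintype V] [DecidableEq J] [DecidableEq V] (P : Geo J V)
    (S : Sub J V) (B : Finset J), P.Wf S →
    (∀ f, St S (P.Serv3 S) B f → ∃ g, P.NSt S B g ∧ ∀ j ∈ B, (g j).its ⊆ f j) ∧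
    (∀ f, St S (P.Serv2 S) B f → ∃ g, P.NSt S B g ∧ NoTri B g ∧ ∀ j ∈ B, (g j).its ⊆ f j) ∧
    (∀ f, St S (P.Serv3 S) B f → ∃ g, P.Min3 S B g) ∧
    (∀ f, St S (P.Serv2 S) B f → ∃ g, P.Min2 S B g) ∧
    (∀ g, P.NSt S B g → St S (P.Serv3 S) B fun j => (g j).its) ∧
    (∀ g, P.NSt S B g → NoTri B g → St S (P.Serv2 S) B fun j => (g j).its) ∧
    (∀ (sv : J → Finset V → Prop) f (R : Finset J) (f' : J → Finset V), St S sv B f → R ⊆ B →
      (∀ j ∈ R, sv j (f' j) ∧ f' j ⊆ R.biUnion f) →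
      (∀ i ∈ R, ∀ j ∈ R, i ≠ j → Disjoint (f' i) (f' j)) →
      (∀ v ∈ R.biUnion f, ¬ S.qm v) →
      St S sv B (fun j => if j ∈ R then f' j else f j) ∧
        use B (fun j => if j ∈ R then f' j else f j) + use R f = use B f + use R f') ∧
    (∀ g e ρ, P.Frame e ρ → (P.Min3 S B g ∨ P.Min2 S B g) → ∀ i ∈ B, ∀ j ∈ B, ∀ a b a' b',
      g i = Sv.two a b → g j = Sv.two a' b' → P.blind e ρ i → P.blind e ρ j → i = j)

def TripStmt : Prop :=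
  ∃ cT : ℕ, ∀ (J V : Type) [Fintype J] [Fintype V] [DecidableEq J] [DecidableEq V]
    (P : Geo J V) (S : Sub J V) (B : Finset J) (g : J → Sv V), P.Wf S → P.Min3 S B g →
    (B.filter fun j => ∃ a z b, g j = Sv.three a z b).card ≤ cT

/-! ### The slack theorem -/

def ImgStmt : Prop :=
  ∀ (J V : Type) [Fintype J] [Fintype V] [DecidableEq J] [DecidableEq V] (P : Geo J V)
    (S : Sub J V) (e : ℕ) (ρ : Finset V) (B : Finset J) (g : J → Sv V),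
    P.Wf S → P.Frame e ρ → P.PSt S B g → P.Simple e ρ B g →
    (∃ μ, P.IsImg e ρ B g μ) ∧ ∀ μ, P.IsImg e ρ B g μ →
      IsM (P.En S e ρ (axAll J V)) μ ∧ cov μ = 2 * B.card ∧
      use B (fun j => (g j).its) + cw S μ = 2 * B.card ∧
      (∀ j ∈ B, ¬ P.rigid S e ρ j → μ (ag j) ≠ ag j) ∧
      (∀ j, j ∉ B → μ (ag j) = ag j ∧ μ (dm j) = dm j) ∧
      (∀ v, v ∉ itsB B g → μ (vx v) = vx v) ∧
      (∀ j ∈ B, ∀ v, g j = Sv.one v → μ (vx v) = ag j ∧ μ (ag j) = vx v) ∧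
      (∀ j q z, P.OldP e ρ B g j q z → P.peE S e ρ q z ∧ P.rigid S e ρ j ∧ P.Pr j q z ∧
        ¬ P.junk j z ∧ (g j).its = {q, z} ∧ μ (ag j) = ag j ∧ μ (vx q) = vx z) ∧
      (∀ j ∈ B, μ (ag j) = ag j → ∃ q z, P.OldP e ρ B g j q z) ∧
      (∀ q z, q ≠ z → μ (vx q) = vx z → P.Q0 e ρ q → ∃ j, P.OldP e ρ B g j q z) ∧
      ∀ j ∈ B, ∀ v ∈ (g j).its, μ (vx v) = vx v →
        μ (ag j) = dm j ∨ (¬ P.Q0 e ρ v ∧ ∃ x, μ (ag j) = vx x ∧ P.ncE S e ρ j x)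

def NecStmt : Prop :=
  ∀ (J V : Type) [Fintype J] [Fintype V] [DecidableEq J] [DecidableEq V] (P : Geo J V)
    (S : Sub J V) (e l : ℕ), P.Wf S → P.Sol2 S l → P.Test1 S e l

def OptStmt : Prop :=
  ∀ (J V : Type) [Fintype J] [Fintype V] [DecidableEq J] [DecidableEq V] (P : Geo J V)
    (S : Sub J V) (e : ℕ) (ρ : Finset V) (B : Finset J) (g : J → Sv V) (μ ν : Nd J V → Nd J V)
    (X : Ax J V) (w K q0 : ℕ), P.Ctx S e ρ B g μ → P.Best S e ρ X μ w ν →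
    (ncomp μ ν).card ≤ K → (∀ z z', X.zs z → X.zs z' → z = z') →
    (∀ j j', P.rigid S e ρ j → P.rigid S e ρ j' → X.mc j → X.mc j' → j = j') →
    (X.pe ∨ ¬ X.nc ∨
      ((PoolS S B g μ ν).filter fun v => μ (vx v) = vx v ∧ P.Q0 e ρ v).card ≤ q0) →
    P.RectA S B g μ ν (6 * K + 3) (q0 + 10) ∧ P.JointB S e ρ μ ν (2 * K)

def OwnStmt : Prop :=
  ∀ (J V : Type) [Fintype J] [Fintype V] [DecidableEq J] [DecidableEq V] (P : Geo J V)
    (S : Sub J V) (e : ℕ) (ρ : Finset V) (B : Finset J) (g : J → Sv V) (μ ν : Nd J V → Nd J V)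
    (Hh Hi : Finset (J × V × V)) (nE a3 δ : ℕ), P.RCtx S e ρ B g μ ν Hh Hi nE a3 δ →
    P.Own S e ρ ν Hh (a3 + nE + 1 + (Hh ∪ Hi).card) δ

def RealStmt : Prop :=
  ∀ (J V : Type) [Fintype J] [Fintype V] [DecidableEq J] [DecidableEq V] (P : Geo J V)
    (S : Sub J V) (e : ℕ) (ρ : Finset V) (B : Finset J) (g : J → Sv V) (μ ν : Nd J V → Nd J V)
    (Hh Hi : Finset (J × V × V)) (nE a1 a2 a3 nH δ : ℕ), P.RCtx S e ρ B g μ ν Hh Hi nE a3 δ →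
    P.RectA S B g μ ν a1 a2 → Disjoint ρ (itsB B g) → (ρ \ S.W).card ≤ 12 →
    (Hh ∪ Hi).card ≤ nH → 12 + nE + 2 * (2 * nE + a3 + 1 + nH) + a1 ≤ e →
    2 * S.A.card + 2 * (2 * nE + a3 + 1 + nH) + a2 + nE ≤ cw S ν + S.W.card →
    ∃ f, St (S.add (ag2 Hh) (it2 Hh)) (P.Serv3 S) (S.A ∪ ag2 Hh) f ∧
      use (S.A ∪ ag2 Hh) f + cw S ν ≤ 2 * (S.A.card + Hh.card) + δ

def R0Stmt : Prop :=
  ∀ (J V : Type) [Fintype J] [Fintype V] [DecidableEq J] [DecidableEq V] (P : Geo J V)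
    (S : Sub J V) (e : ℕ) (ρ : Finset V) (B B' : Finset J) (U : Finset V) (g : J → Sv V)
    (μ : Nd J V → Nd J V), 100 ≤ e → P.Wf S → P.Frame e ρ → P.Min3 S B g → B' ⊆ B →
    itsB (B \ B') g ⊆ U → Disjoint U (itsB B' g) → P.Simple e ρ B' g → P.IsImg e ρ B' g μ →
    ρ ⊆ S.W → Disjoint ρ (itsB B g) → (ρ ∩ U).card ≤ 12 →
    use B' (fun j => (g j).its) + 70 ≤ (S.W \ U).card →
    ¬ ∃ ν, P.Cls (S.res B' U) e ρ (axAll J V) μ (cw S μ + 2) ν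

def CoreStmt : Prop :=
  ∀ (J V : Type) [Fintype J] [Fintype V] [DecidableEq J] [DecidableEq V] (P : Geo J V)
    (S : Sub J V) (e : ℕ) (ρ : Finset V) (j0 : J) (B' : Finset J) (g : J → Sv V)
    (Γ : Finset (J × V × V)) (μ : Nd J V → Nd J V) (X : Ax J V) (w κ : ℕ),
    100 ≤ e → P.Wf S → P.Frame e ρ → j0 ∈ S.A → P.Min3 S (S.A.erase j0) g → ρ ⊆ S.W →
    Disjoint ρ (itsB (S.A.erase j0) g) → Γ.card ≤ 5 → B' ⊆ S.A.erase j0 →
    (S.A.erase j0 \ B').card ≤ κ → P.Simple e ρ B' g → Disjoint B' (ag2 Γ) →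
    Disjoint (it2 Γ) (itsB B' g) → P.IsImg e ρ B' g μ →
    (∀ j ∈ B', X.mc j → μ (ag j) ≠ ag j) →
    use (S.A.erase j0) (fun j => (g j).its) + 90 ≤ S.W.card →
    (∃ ν, P.Cls (S.rem (ag2 Γ) (it2 Γ)) e ρ X μ w ν) →
    ∃ ν, P.Best (S.rem (ag2 Γ) (it2 Γ)) e ρ X μ w ν ∧ (ncomp μ ν).card ≤ 9 * κ + 5

def JumpStmt : Prop :=
  ∃ e c : ℕ, ∀ (J V : Type) [Fintype J] [Fintype V] [DecidableEq J] [DecidableEq V]
    (P : Geo J V) (S : Sub J V) (l : ℕ) (j0 : J) (f : J → Finset V), P.Wf S → c ≤ l →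
    j0 ∈ S.A → St S (P.Serv3 S) (S.A.erase j0) f →
    use (S.A.erase j0) f + l + 1 ≤ S.W.card → P.Test1 S e l → P.Sol3 S l

/-- Necessity of the slack test. -/
def SLN (e : ℕ) : Prop :=
  ∀ (J V : Type) [Fintype J] [Fintype V] [DecidableEq J] [DecidableEq V] (P : Geo J V)
    (rk : J → ℕ) (S : Sub J V) (l : ℕ), P.Wf S → P.Sol2 S l → P.TestSL rk S e l

/-- Sufficiency of the slack test. -/
def SLS (e c : ℕ) : Prop :=
  ∀ (J V : Type) [Fintype J] [Fintype V] [DecidableEq J] [DecidableEq V] (P : Geo J V)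
    (rk : J → ℕ) (S : Sub J V) (l : ℕ), Function.Injective rk → P.Wf S → c ≤ l →
    P.TestSL rk S e l → P.Sol3 S l

def SLStmt : Prop := ∃ e c : ℕ, SLN e ∧ SLS e c

/-! ### Classification of families and the absorbing case -/

def ClsStmt : Prop :=
  ∀ N : ℕ, ∃ t0 : ℕ, ∀ (J V : Type) [Fintype J] [Fintype V] [DecidableEq J] [DecidableEq V]
    (P : Geo J V) (A : Finset J) (W : Finset V) (g : J → Sv V), P.Min2 (P.pl A W) A g →
    (∃ (g' : J → Sv V) (ty : ℕ) (F : Fin N → Mb J V), P.NSt (P.pl A W) A g' ∧ NoTri A g' ∧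
      P.PFam ty F ∧ ∀ r, (F r).1 ∈ A ∧ (g' (F r).1).its = {(F r).2.2.1, (F r).2.2.2}) ∨
    ∀ T ⊆ A.filter fun j => ∃ a b, g j = Sv.two a b, t0 ≤ T.card →
      ∃ i ∈ T, ∃ k ∈ T, i ≠ k ∧ P.Cons g i k

/-- Single items, pairs of hard items, and the number of exceptional items. -/
def UnitStmt : Prop :=
  ∀ (J V : Type) [Fintype J] [Fintype V] [DecidableEq J] [DecidableEq V] (P : Geo J V)
    (c ty : ℕ) (F : Fin (NU c) → Mb J V), P.PFam ty F →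
    (univ.filter fun z => P.waste F z).card ≤ NU c * NU c ∧
    (univ.filter fun z => P.star c F z).card ≤ 1 ∧
    (∀ z, P.hard c F z →
      (univ.filter fun r : Fin (NU c) =>
        zM c r ∧ ¬ (P.cB (F r) z ∧ P.HH z (F r).2.2.1)).card ≤ 4 * c + 15) ∧
    ∀ U : Finset (Fin (NU c)), U.card ≤ 3 * c + 3 →
      (∀ z, z ∉ fitF F → P.easy c F z → P.Absorb c ty F U ∅ {z} 1) ∧
      (∀ z, z ∉ fitF F → P.hard c F z → ty ≠ 3 → P.Absorb c ty F U ∅ {z} 1) ∧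
      ∀ q q', q ∉ fitF F → q' ∉ fitF F → q ≠ q' → P.hard c F q → P.hard c F q' → ty = 3 →
        P.Absorb c ty F U ∅ {q, q'} 2

def WitStmt : Prop :=
  ∀ (J V : Type) [Fintype J] [Fintype V] [DecidableEq J] [DecidableEq V] (P : Geo J V)
    (c : ℕ) (F : Fin (NU c) → Mb J V) (U : Finset (Fin (NU c))) (s : J × V × V) (q : V),
    P.PFam 3 F → U.card ≤ 3 * c + 3 → P.WitU c F s → q ∉ fitF F → q ≠ s.2.1 → q ≠ s.2.2 →
    P.hard c F q → P.Absorb c 3 F U {s} {q} 1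

def UAStmt : Prop :=
  ∀ (J V : Type) [Fintype J] [Fintype V] [DecidableEq J] [DecidableEq V] (P : Geo J V)
    (c ty : ℕ) (F : Fin (NU c) → Mb J V) (Wt : Finset (J × V × V)) (Z X : Finset V),
    P.PFam ty F → (Wt = ∅ ∨ ∃ s, Wt = {s} ∧ P.WitU c F s) → Disjoint Z (fitF F) →
    Disjoint Z (it2 Wt) → (∀ z ∈ Z, ¬ P.waste F z ∧ ¬ P.star c F z) → X ⊆ Geo.expo c F →
    X.card ≤ Z.card → Z.card ≤ c + 1 →
    (ty ≠ 3 ∨ Even (Z.filter fun z => P.hard c F z).card ∨ Wt ≠ ∅) →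
    ∃ f, St (P.pl (fagF F ∪ ag2 Wt) ((fitF F \ X) ∪ Z ∪ it2 Wt)) (P.Serv2 (P.pl univ univ))
      (fagF F ∪ ag2 Wt) f

def USoundStmt : Prop :=
  ∀ e c L : ℕ, SLS e c → ∀ (J V : Type) [Fintype J] [Fintype V] [DecidableEq J] [DecidableEq V]
    (P : Geo J V) (rk : J → ℕ), Function.Injective rk → P.UTest rk e c L → P.Feas

def UNecStmt : Prop :=
  ∀ e c cT : ℕ, SLN e → ∃ L0 : ℕ, ∀ L, L0 ≤ L →
    ∀ (J V : Type) [Fintype J] [Fintype V] [DecidableEq J] [DecidableEq V]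
      (P : Geo J V) (rk : J → ℕ) (Φ : Finset (J × V × V × V)) (g : J → Sv V) (ty : ℕ)
      (F : Fin (NU c) → Mb J V), P.PhiOk Φ → Φ.card ≤ cT →
      P.NSt (P.pl (univ \ ag3 Φ) (univ \ it3 Φ)) (univ \ ag3 Φ) g → NoTri (univ \ ag3 Φ) g →
      P.PFam ty F →
      (∀ r, (F r).1 ∈ univ \ ag3 Φ ∧ (g (F r).1).its = {(F r).2.2.1, (F r).2.2.2}) →
      P.UTest rk e c L

/-! ### The consistent case -/

def RNecStmt : Prop :=
  ∀ e c cT t0 c1 : ℕ, SLN e → ∃ L0 : ℕ, ∀ L, L0 ≤ L →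
    ∀ (J V : Type) [Fintype J] [Fintype V] [DecidableEq J] [DecidableEq V]
      (P : Geo J V) (rk : J → ℕ) (Φ : Finset (J × V × V × V)) (g : J → Sv V),
      P.PhiOk Φ → Φ.card ≤ cT →
      P.NSt (P.pl (univ \ ag3 Φ) (univ \ it3 Φ)) (univ \ ag3 Φ) g → NoTri (univ \ ag3 Φ) g →
      (∀ T ⊆ (univ \ ag3 Φ).filter fun j => ∃ a b, g j = Sv.two a b, t0 ≤ T.card →
        ∃ i ∈ T, ∃ k ∈ T, i ≠ k ∧ P.Cons g i k) →
      P.RTest rk e c t0 c1 L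

def KVStmt : Prop :=
  ∀ (J V : Type) [Fintype J] [Fintype V] [DecidableEq J] [DecidableEq V] (P : Geo J V)
    (t M t' M0 : ℕ) (R : RG J V t M t' M0) (A : Finset J) (W : Finset V),
    P.KTest R A W → ∃ ν, P.VS R A W ν

def KCtxStmt : Prop :=
  ∀ (J V : Type) [Fintype J] [Fintype V] [DecidableEq J] [DecidableEq V] (P : Geo J V)
    (t M t' M0 : ℕ) (R : RG J V t M t' M0) (h2 : ℕ) (A : Finset J) (W : Finset V)
    (B : Finset J) (g : J → Sv V), 12 * h2 ≤ M → 1200 ≤ M → P.RGood R →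
    Disjoint A (fagF R.mem) → Disjoint W (fitF R.mem) → P.PSt (P.SR R A W) B g → NoTri B g →
    ∃ B' od μ, B' ⊆ B ∧ (B \ B').card ≤ 10 * t ∧ P.KCtx R h2 A W B' g od μ

def RSelStmt : Prop :=
  ∀ t0 cu : ℕ, ∃ nE d : ℕ,
    ∀ (J V : Type) [Fintype J] [Fintype V] [DecidableEq J] [DecidableEq V] (P : Geo J V)
      (t M t' M0 : ℕ) (R : RG J V t M t' M0) (h2 : ℕ) (A : Finset J) (W : Finset V)
      (B : Finset J) (g : J → Sv V) (od : OdT J V t) (μ : Nd J V → Nd J V),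
      t < t0 → t' < t0 → 2 * R.h + h2 ≤ M → 3 * h2 + 4 ≤ M → P.KCtx R h2 A W B g od μ →
      (A \ B).card ≤ cu → (∃ ν, P.VS R A W ν) → ∃ ν, P.KOut R h2 A W od μ ν nE d

def RRealStmt : Prop :=
  ∀ (J V : Type) [Fintype J] [Fintype V] [DecidableEq J] [DecidableEq V] (P : Geo J V)
    (t M t' M0 : ℕ) (R : RG J V t M t' M0) (h2 : ℕ) (A : Finset J) (W : Finset V)
    (B : Finset J) (g : J → Sv V) (od : OdT J V t) (μ ν : Nd J V → Nd J V) (nE d : ℕ),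
    P.KCtx R h2 A W B g od μ → P.KOut R h2 A W od μ ν nE d → 2 * nE + d + 2 ≤ h2 →
    10 * (R.h + 2 * nE + d + 3) ≤ M → 2 * R.h0 + d + nE + 2 ≤ M0 →
    ∃ f, St (P.pl (A ∪ fagF R.mem) (W ∪ fitF R.mem)) (P.Serv2 (P.pl univ univ))
      (A ∪ fagF R.mem) f

def RSoundStmt : Prop :=
  ∀ e c t0 : ℕ, SLS e c → ∃ c1 : ℕ, ∀ L,
    ∀ (J V : Type) [Fintype J] [Fintype V] [DecidableEq J] [DecidableEq V]
      (P : Geo J V) (rk : J → ℕ), Function.Injective rk → P.RTest rk e c t0 c1 L → P.Feas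

def MainStmt : Prop :=
  ∃ e c t0 c1 L : ℕ, ∀ (J V : Type) [Fintype J] [Fintype V] [DecidableEq J] [DecidableEq V]
    (P : Geo J V) (rk : J → ℕ), Function.Injective rk → (P.Feas ↔ P.Char rk e c t0 c1 L)

end Pool.Agent.Lib.MP_ef7581_lc.D2
end
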