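import Mathlib
import Pool.Agent.Shared.PolyTime.Typed
import Pool.Agent.Lib.MP_ef7581_lc.DStmts

-- part Pool.Agent.Lib.MP_ef7581_lc.PFam
section

/-!
Polynomial-time predicates (`PF` with values in `Prop`) and families of numbered finite types.
-/

set_option autoImplicit false

namespace Pool.Agent.Lib.MP_ef7581_lc

open Pool.Agent.Shared.PolyTime Finset

noncomputable instance encProp : Enc Prop := ⟨fun p => [@decide p (Classical.propDecidable p)]⟩

section Logic

variable {α β : Type} [Enc α] [Enc β]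

theorem pf_ofBool {f : α → Bool} (hf : PF f) {p : α → Prop} (h : ∀ a, p a ↔ f a = true) :
    PF p := by
  obtain ⟨F, hF, sF⟩ := hf
  refine ⟨F, hF, fun a => ?_⟩
  rw [sF]
  change [f a] = [_]
  congr 1
  rw [Bool.eq_iff_iff, ← h]
  simp

theorem pf_toBool {p : α → Prop} (hp : PF p) [DecidablePred p] : PF fun a => decide (p a) := by
  obtain ⟨F, hF, sF⟩ := hp
  refine ⟨F, hF, fun a => ?_⟩
  rw [sF]
  change [_] = [decide (p a)]
  congr 1
  rw [Bool.eq_iff_iff]
  simp

theorem pf_iff {p q : α → Prop} (hp : PF p) (h : ∀ a, q a ↔ p a) : PF q :=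
  hp.of_eq fun a => propext (h a).symm

theorem pf_and {p q : α → Prop} (hp : PF p) (hq : PF q) : PF fun a => p a ∧ q a := by
  classical
  exact pf_ofBool (PF.and' (pf_toBool hp) (pf_toBool hq)) fun a => by simp

theorem pf_or {p q : α → Prop} (hp : PF p) (hq : PF q) : PF fun a => p a ∨ q a := by
  classical
  exact pf_ofBool (PF.or' (pf_toBool hp) (pf_toBool hq)) fun a => by simp

theorem pf_not {p : α → Prop} (hp : PF p) : PF fun a => ¬ p a := by
  classical
  exact pf_ofBool (PF.not' (pf_toBool hp)) fun a => by simp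

theorem pf_imp {p q : α → Prop} (hp : PF p) (hq : PF q) : PF fun a => p a → q a :=
  pf_iff (pf_or (pf_not hp) hq) fun a => by tauto

theorem pf_eq {f g : α → ℕ} (hf : PF f) (hg : PF g) : PF fun a => f a = g a :=
  pf_ofBool (PF.beq hf hg) fun a => by simp

theorem pf_ne {f g : α → ℕ} (hf : PF f) (hg : PF g) : PF fun a => f a ≠ g a :=
  pf_not (pf_eq hf hg)

theorem pf_le {f g : α → ℕ} (hf : PF f) (hg : PF g) : PF fun a => f a ≤ g a :=
  pf_ofBool (PF.ble hf hg) fun a => by simp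

theorem pf_lt {f g : α → ℕ} (hf : PF f) (hg : PF g) : PF fun a => f a < g a :=
  pf_ofBool (PF.blt hf hg) fun a => by simp [Nat.blt_eq]

theorem pf_ite {p : α → Prop} {inst : ∀ a, Decidable (p a)} {f g : α → β} (hp : PF p)
    (hf : PF f) (hg : PF g) : PF fun a => @ite β (p a) (inst a) (f a) (g a) :=
  PF.ite' (pf_toBool hp) hf hg

theorem pf_exlt {N : α → ℕ} {q : α → ℕ → Prop} (hN : PF N)
    (hq : PF fun z : α × ℕ => q z.1 z.2) : PF fun a => ∃ i, i < N a ∧ q a i := by
  classical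
  exact pf_ofBool (PF.any (f := fun a i => decide (q a i)) hN.range (pf_toBool hq))
    fun a => by simp

theorem pf_exle {N : α → ℕ} {q : α → ℕ → Prop} (hN : PF N)
    (hq : PF fun z : α × ℕ => q z.1 z.2) : PF fun a => ∃ i, i ≤ N a ∧ q a i :=
  pf_iff (pf_exlt (hN.add (PF.const 1)) hq) fun a => by simp only [Nat.lt_add_one_iff]

theorem pf_allle {N : α → ℕ} {q : α → ℕ → Prop} (hN : PF N)
    (hq : PF fun z : α × ℕ => q z.1 z.2) : PF fun a => ∀ i, i ≤ N a → q a i :=
  pf_iff (pf_not (pf_exle (q := fun a i => ¬ q a i) hN (pf_not hq))) fun a => by simp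

theorem pf_exBool {q : α → Bool → Prop} (h0 : PF fun a => q a false) (h1 : PF fun a => q a true) :
    PF fun a => ∃ x, q a x :=
  pf_iff (pf_or h0 h1) fun a => by simp

end Logic

/-- A numbering of a finite type. -/
class Num (T : Type) where
  N : ℕ
  e : T ≃ Fin N

/-- The number of an element. -/
def idx {T : Type} [Num T] (x : T) : ℕ := (Num.e x).val

instance numFin (n : ℕ) : Num (Fin n) := ⟨n, Equiv.refl _⟩

instance numSum (S T : Type) [Num S] [Num T] : Num (S ⊕ T) :=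
  ⟨Num.N S + Num.N T, (Equiv.sumCongr Num.e Num.e).trans finSumFinEquiv⟩

section NumLemmas

variable {S T : Type} [Num S] [Num T]

theorem idx_fin {n : ℕ} (x : Fin n) : idx x = x.val := rfl
theorem N_fin (n : ℕ) : Num.N (Fin n) = n := rfl
theorem N_sum : Num.N (S ⊕ T) = Num.N S + Num.N T := rfl
theorem idx_inl (x : S) : idx (Sum.inl x : S ⊕ T) = idx x := rfl
theorem idx_inr (x : T) : idx (Sum.inr x : S ⊕ T) = Num.N S + idx x := rfl
theorem idx_lt (x : T) : idx x < Num.N T := (Num.e x).2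
theorem idx_inj {x y : T} : idx x = idx y ↔ x = y :=
  ⟨fun h => Num.e.injective (Fin.ext h), fun h => h ▸ rfl⟩
theorem idx_symm (i : ℕ) (h : i < Num.N T) : idx (Num.e.symm ⟨i, h⟩ : T) = i := by simp [idx]
theorem symm_idx (x : T) (h : idx x < Num.N T) : Num.e.symm ⟨idx x, h⟩ = x :=
  idx_inj.1 (idx_symm _ h)
theorem exists_idx {i : ℕ} (h : i < Num.N T) : ∃ x : T, idx x = i := ⟨_, idx_symm i h⟩

theorem card_eq_N [Fintype T] : Fintype.card T = Num.N T := by
  rw [Fintype.card_congr (Num.e (T := T)), Fintype.card_fin]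

theorem sum_range_idx [Fintype T] (F : ℕ → ℕ) :
    ∑ i ∈ range (Num.N T), F i = ∑ x : T, F (idx x) := by
  rw [Finset.sum_range, ← Equiv.sum_comp (Num.e (T := T))]
  rfl

/-- The table of a function on a numbered type. -/
def tabT {β : Type} (f : T → β) : List β :=
  (List.finRange (Num.N T)).map fun i => f (Num.e.symm i)

theorem length_tabT {β : Type} (f : T → β) : (tabT f).length = Num.N T := by simp [tabT]

theorem getD_tabT {β : Type} (f : T → β) (x : T) (d : β) : (tabT f).getD (idx x) d = f x := by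
  have h := idx_lt x
  rw [List.getD_eq_getElem _ _ (by rwa [length_tabT])]
  simp only [tabT, List.getElem_map, List.getElem_finRange]
  congr 1
  exact symm_idx x h

theorem getD_tabT_ge {β : Type} (f : T → β) {i : ℕ} (h : Num.N T ≤ i) (d : β) :
    (tabT f).getD i d = d := List.getD_eq_default _ _ (by rwa [length_tabT])

end NumLemmas

/-- A base point together with an element of its fibre. -/
structure Pt {α : Type} (T : α → Type) : Type where
  a : α
  x : T a

instance encPt {α : Type} [Enc α] (T : α → Type) [∀ a, Num (T a)] : Enc (Pt T) :=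
  ⟨fun p => Enc.enc (p.a, idx p.x)⟩

section Fam

variable {α β γ : Type} [Enc α] [Enc β] [Enc γ] {T : α → Type} [∀ a, Num (T a)]

theorem pf_pt : PF fun p : Pt T => (p.a, idx p.x) := ⟨fun x => x, PT.var 0, fun _ => rfl⟩

@[fun_prop] theorem pt_a {f : γ → Pt T} (hf : PF f) : PF fun c => (f c).a :=
  (pf_pt.comp hf).fst

theorem pt_x {f : γ → Pt T} (hf : PF f) : PF fun c => idx (f c).x :=
  (pf_pt.comp hf).snd

theorem pt_mk {g : γ → α} {s : ∀ c, T (g c)} (hg : PF g) (hs : PF fun c => idx (s c)) :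
    PF fun c => (⟨g c, s c⟩ : Pt T) := by
  obtain ⟨F, hF, sF⟩ := hg.pair hs
  exact ⟨F, hF, sF⟩

theorem pf_at (f : ∀ a, T a → β) (h : PF fun p : Pt T => f p.a p.x) {g : γ → α}
    {s : ∀ c, T (g c)} (hg : PF g) (hs : PF fun c => idx (s c)) : PF fun c => f (g c) (s c) :=
  h.comp (g := fun c => (⟨g c, s c⟩ : Pt T)) (pt_mk hg hs)

theorem pf_extend {f : ∀ a, T a → β} (d : β) (hN : PF fun a => Num.N (T a))
    (h : PF fun p : Pt T => f p.a p.x) :
    PF fun q : α × ℕ => if h : q.2 < Num.N (T q.1) then f q.1 (Num.e.symm ⟨q.2, h⟩) else d := by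
  obtain ⟨C, hC, sC⟩ : PF fun q : α × ℕ => Nat.blt q.2 (Num.N (T q.1)) :=
    PF.blt PF.id'.snd (hN.comp PF.id'.fst)
  obtain ⟨F, hF, sF⟩ := h
  refine ⟨fun x => PT.sel (C x) [] (Enc.enc d) (F x), PT.sel' hC PT.nil (PT.const _) hF,
    fun q => ?_⟩
  beta_reduce
  rw [sC]
  beta_reduce
  by_cases hq : q.2 < Num.N (T q.1)
  · have : Nat.blt q.2 (Num.N (T q.1)) = true := by simpa [Nat.blt_eq] using hq
    have h2 := sF ⟨q.1, Num.e.symm ⟨q.2, hq⟩⟩
    beta_reduce at h2
    rw [dif_pos hq, this, ← h2]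
    change F (Enc.enc q) = F (Enc.enc (q.1, idx (Num.e.symm ⟨q.2, hq⟩ : T q.1)))
    rw [idx_symm]
  · have : Nat.blt q.2 (Num.N (T q.1)) = false := by
      rw [Bool.eq_false_iff]; simpa [Nat.blt_eq] using hq
    rw [dif_neg hq, this]
    rfl

theorem pf_tabT [Inhabited β] {f : ∀ a, T a → β} (hN : PF fun a => Num.N (T a))
    (h : PF fun p : Pt T => f p.a p.x) : PF fun a => tabT (f a) := by
  refine (PF.map (f := fun a i => if h : i < Num.N (T a) then f a (Num.e.symm ⟨i, h⟩) else default)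
    hN.range (pf_extend default hN h)).of_eq fun a => ?_
  unfold tabT
  rw [← List.map_coe_finRange_eq_range, List.map_map]
  exact List.map_congr_left fun i _ => by simp

theorem pf_ex {q : ∀ a, T a → Prop} (hN : PF fun a => Num.N (T a))
    (h : PF fun p : Pt T => q p.a p.x) : PF fun a => ∃ x, q a x := by
  refine pf_iff (pf_exlt (q := fun a i => if h : i < Num.N (T a) then
    q a (Num.e.symm ⟨i, h⟩) else False) hN (pf_extend False hN h)) fun a => ⟨?_, ?_⟩
  · rintro ⟨x, hx⟩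
    exact ⟨idx x, idx_lt x, by rwa [dif_pos (idx_lt x), symm_idx]⟩
  · rintro ⟨i, hi, hx⟩
    rw [dif_pos hi] at hx
    exact ⟨_, hx⟩

theorem pf_all {q : ∀ a, T a → Prop} (hN : PF fun a => Num.N (T a))
    (h : PF fun p : Pt T => q p.a p.x) : PF fun a => ∀ x, q a x :=
  pf_iff (pf_not (pf_ex (q := fun a x => ¬ q a x) hN (pf_not h))) fun a => by simp

theorem pf_sumT [∀ a, Fintype (T a)] {f : ∀ a, T a → ℕ} (hN : PF fun a => Num.N (T a))
    (h : PF fun p : Pt T => f p.a p.x) : PF fun a => ∑ x, f a x := by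
  refine (pf_tabT hN h).sum.of_eq fun a => ?_
  unfold tabT
  rw [← List.ofFn_eq_map, List.sum_ofFn]
  exact Equiv.sum_comp (Num.e (T := T a)).symm (f a)

theorem pf_eqT {s t : ∀ a, T a} (hs : PF fun a => idx (s a)) (ht : PF fun a => idx (t a)) :
    PF fun a => s a = t a :=
  pf_iff (pf_eq hs ht) fun _ => idx_inj.symm

theorem pf_neT {s t : ∀ a, T a} (hs : PF fun a => idx (s a)) (ht : PF fun a => idx (t a)) :
    PF fun a => s a ≠ t a := pf_not (pf_eqT hs ht)

variable {S : α → Type} [∀ a, Num (S a)]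

theorem pf_inl {s : ∀ a, S a} (hs : PF fun a => idx (s a)) :
    PF fun a => idx (Sum.inl (s a) : S a ⊕ T a) := hs

theorem pf_inr {s : ∀ a, T a} (hN : PF fun a => Num.N (S a)) (hs : PF fun a => idx (s a)) :
    PF fun a => idx (Sum.inr (s a) : S a ⊕ T a) := hN.add hs

theorem pf_Nsum (h1 : PF fun a => Num.N (S a)) (h2 : PF fun a => Num.N (T a)) :
    PF fun a => Num.N (S a ⊕ T a) := h1.add h2

/-- Case distinction on an element of a sum. -/
theorem pf_cases [Inhabited β] (f : ∀ a, S a ⊕ T a → β)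
    (hS : PF fun a => Num.N (S a)) (hT : PF fun a => Num.N (T a))
    (h1 : PF fun p : Pt S => f p.a (Sum.inl p.x)) (h2 : PF fun p : Pt T => f p.a (Sum.inr p.x)) :
    PF fun p : Pt fun a => S a ⊕ T a => f p.a p.x := by
  have ha : PF fun p : Pt fun a => S a ⊕ T a => p.a := pt_a PF.id'
  have hs : PF fun p : Pt fun a => S a ⊕ T a => idx p.x := pt_x PF.id'
  have e1 := (pf_extend (f := fun a x => f a (Sum.inl x)) default hS h1).comp (ha.pair hs)
  have e2 := (pf_extend (f := fun a x => f a (Sum.inr x)) default hT h2).comp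
    (ha.pair (hs.sub (hS.comp ha)))
  refine (pf_ite (inst := fun a => inferInstance) (pf_lt hs (hS.comp ha)) e1 e2).of_eq ?_
  rintro ⟨a, x | x⟩
  · have h := idx_lt x
    simp only [idx_inl, h, if_true, dif_pos, symm_idx]
  · have h := idx_lt x
    simp only [idx_inr, add_lt_iff_neg_left, not_lt_zero, if_false, Nat.add_sub_cancel_left, h,
      dif_pos, symm_idx]

end Fam

/-- Base points with two elements of the fibre. -/
abbrev Pt2 {α : Type} (S T : α → Type) : Type := Pt fun p : Pt S => T p.a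

theorem pf_at2 {α β γ : Type} [Enc α] [Enc β] [Enc γ] {S T : α → Type} [∀ a, Num (S a)]
    [∀ a, Num (T a)] (f : ∀ a, S a → T a → β) (h : PF fun p : Pt2 S T => f p.a.a p.a.x p.x)
    {g : γ → α} {s : ∀ c, S (g c)} {t : ∀ c, T (g c)} (hg : PF g) (hs : PF fun c => idx (s c))
    (ht : PF fun c => idx (t c)) : PF fun c => f (g c) (s c) (t c) :=
  h.comp (g := fun c => (⟨⟨g c, s c⟩, t c⟩ : Pt2 S T)) (pt_mk (pt_mk hg hs) ht)

theorem pf_swap {α β : Type} [Enc α] [Enc β] {S T : α → Type} [∀ a, Num (S a)] [∀ a, Num (T a)]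
    (f : ∀ a, S a → T a → β) (h : PF fun p : Pt2 S T => f p.a.a p.a.x p.x) :
    PF fun p : Pt2 T S => f p.a.a p.x p.a.x :=
  h.comp (g := fun p : Pt2 T S => (⟨⟨p.a.a, p.x⟩, p.a.x⟩ : Pt2 S T))
    (pt_mk (pt_mk (pt_a (pt_a PF.id')) (pt_x PF.id')) (pt_x (pt_a PF.id')))

end Pool.Agent.Lib.MP_ef7581_lc
end

-- part Pool.Agent.Lib.MP_ef7581_lc.DGeo
section

/-!
Basic geometry of diamond-free graphs and of frames.
-/

set_option autoImplicit false
set_option linter.unusedSectionVars false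

namespace Pool.Agent.Lib.MP_ef7581_lc.D2

open Finset Classical

variable {J V : Type} [Fintype J] [Fintype V] [DecidableEq J] [DecidableEq V]

namespace Geo

variable {P : Geo J V}

theorem HH_symm {x y : V} (h : P.HH x y) : P.HH y x := P.symm _ _ h
theorem HH_comm {x y : V} : P.HH x y ↔ P.HH y x := ⟨HH_symm, HH_symm⟩
theorem HH_irrefl (x : V) : ¬ P.HH x x := P.irrefl _
theorem HH_ne {x y : V} (h : P.HH x y) : x ≠ y := fun e => HH_irrefl (P := P) y (e ▸ h)

theorem st' (j : J) (o : Bool) : P.H (Sum.inr (j, o)) (Sum.inr (j, !o)) := by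
  cases o
  · exact P.st j
  · exact P.symm _ _ (P.st j)

/-- The common neighbourhood of two points that contains two non-adjacent points is
independent. -/
theorem ind {u v a b x y : V ⊕ J × Bool} (huv : u ≠ v) (ua : P.H u a) (va : P.H v a)
    (ub : P.H u b) (vb : P.H v b) (hab : a ≠ b) (nab : ¬ P.H a b) (ux : P.H u x) (vx : P.H v x)
    (uy : P.H u y) (vy : P.H v y) : ¬ P.H x y := fun h =>
  nab (P.dia u v a b (P.dia x y u v h (P.symm _ _ ux) (P.symm _ _ uy) (P.symm _ _ vx)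
    (P.symm _ _ vy) huv) ua va ub vb hab)

/-- The version for two terminals and items. -/
theorem ind_t {j j' : J} {o o' : Bool} {a b x y : V} (h : (j, o) ≠ (j', o'))
    (ua : P.adj j o a) (va : P.adj j' o' a) (ub : P.adj j o b) (vb : P.adj j' o' b) (hab : a ≠ b)
    (nab : ¬ P.HH a b) (ux : P.adj j o x) (vx : P.adj j' o' x) (uy : P.adj j o y)
    (vy : P.adj j' o' y) : ¬ P.HH x y :=
  ind (fun e => h (Sum.inr_injective e)) ua va ub vb (fun e => hab (Sum.inl_injective e)) nab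
    ux vx uy vy

/-- Neighbourhoods of terminals are disjoint unions of cliques. -/
theorem cluster {j : J} {o : Bool} {x y z : V} (hx : P.adj j o x) (hy : P.adj j o y)
    (hz : P.adj j o z) (xy : P.HH x y) (xz : P.HH x z) (h : y ≠ z) : P.HH y z :=
  P.dia _ _ _ _ hx hy xy hz xz fun e => h (Sum.inl_injective e)

/-- A terminal and an item that are both adjacent to two adjacent items are adjacent. -/
theorem adj_of_edge {j : J} {o : Bool} {x y z : V} (xy : P.HH x y) (hx : P.adj j o x)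
    (hy : P.adj j o y) (zx : P.HH z x) (zy : P.HH z y) : P.adj j o z :=
  P.dia _ _ _ _ xy (P.symm _ _ hx) (P.symm _ _ hy) (HH_symm zx) (HH_symm zy) (by simp)

/-- An item adjacent to two non-adjacent neighbours of a terminal is not adjacent to it. -/
theorem not_adj_of_two {j : J} {o : Bool} {x y z : V} (h : x ≠ y) (xy : ¬ P.HH x y)
    (hx : P.adj j o x) (hy : P.adj j o y) (zx : P.HH z x) (zy : P.HH z y) : ¬ P.adj j o z :=
  fun hz => xy (cluster hz hx hy zx zy h)

theorem hh_dia {x y u v : V} (xy : P.HH x y) (xu : P.HH x u) (yu : P.HH y u) (xv : P.HH x v)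
    (yv : P.HH y v) (h : u ≠ v) : P.HH u v :=
  P.dia _ _ _ _ xy xu yu xv yv fun e => h (Sum.inl_injective e)

theorem junk_adj {j : J} {x : V} (h : P.junk j x) (o : Bool) : P.adj j o x := by
  cases o
  · exact h.1
  · exact h.2

theorem junk_of {j : J} {o : Bool} {x : V} (h1 : P.adj j o x) (h2 : P.adj j (!o) x) :
    P.junk j x := by
  cases o
  · exact ⟨h1, h2⟩
  · exact ⟨h2, h1⟩

theorem C_not {j : J} {x : V} (h : P.C j x) (o : Bool) : ¬ P.adj j o x := by
  cases o
  · exact h.1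
  · exact h.2

theorem C_of {j : J} {o : Bool} {x : V} (h1 : ¬ P.adj j o x) (h2 : ¬ P.adj j (!o) x) :
    P.C j x := by
  cases o
  · exact ⟨h1, h2⟩
  · exact ⟨h2, h1⟩

theorem label (j : J) (o : Bool) (x : V) :
    P.C j x ∨ P.col j o x ∨ P.col j (!o) x ∨ P.junk j x := by
  cases o <;> simp only [C, col, junk, Bool.not_false, Bool.not_true] <;> tauto

theorem col_ne {j : J} {o : Bool} {x y : V} (hx : P.col j o x) (hy : P.col j (!o) y) : x ≠ y :=
  fun e => hx.2 (e ▸ hy.1)

theorem col_not_C {j : J} {o : Bool} {x : V} (h : P.col j o x) : ¬ P.C j x :=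
  fun hc => C_not hc o h.1

theorem col_not_junk {j : J} {o : Bool} {x : V} (h : P.col j o x) : ¬ P.junk j x :=
  fun hc => h.2 (junk_adj hc _)

theorem junk_hh {j : J} {x y : V} (hx : P.junk j x) (hy : P.junk j y) (h : x ≠ y) : P.HH x y :=
  P.dia _ _ _ _ (P.st j) hx.1 hx.2 hy.1 hy.2 fun e => h (Sum.inl_injective e)

theorem Pr_symm {j : J} {a b : V} (h : P.Pr j a b) : P.Pr j b a := by
  obtain ⟨h1, h2, o, h3, h4⟩ := h
  exact ⟨h1.symm, fun h => h2 (HH_symm h), !o, h4, by simpa using h3⟩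

theorem Ok_symm {j : J} {a b : V} (h : P.Ok j a b) : P.Ok j b a := by
  rcases h with h | h | h
  · exact Or.inr (Or.inl h)
  · exact Or.inl h
  · exact Or.inr (Or.inr (Pr_symm h))

theorem Pr_of_col {j : J} {o : Bool} {a b : V} (ha : P.col j o a) (hb : P.col j (!o) b)
    (h : ¬ P.HH a b) : P.Pr j a b :=
  ⟨col_ne ha hb, h, !o, ha.2, hb.2⟩

/-- A refused pair lies in the neighbourhood of one terminal. -/
theorem refuse {j : J} {x y : V} (hxy : x ≠ y) (nh : ¬ P.HH x y) (h : ¬ P.Ok j x y) :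
    ∃ o, P.adj j o x ∧ P.adj j o y := by
  simp only [Ok, Pr, C, not_or, Bool.exists_bool, Bool.not_false, Bool.not_true] at h ⊢
  tauto

/-- Agents with two common junk items: a coloured item of one is free for the other. -/
theorem coline {j j' : J} {x y a : V} {o : Bool} (hj : j ≠ j') (hxy : x ≠ y) (x1 : P.junk j x)
    (y1 : P.junk j y) (x2 : P.junk j' x) (y2 : P.junk j' y) (ha : P.col j o a) : P.C j' a := by
  have e := junk_hh x1 y1 hxy
  have key : ∀ o1 o2, P.H (Sum.inr (j, o1)) (Sum.inr (j', o2)) := fun o1 o2 =>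
    P.dia _ _ _ _ e (P.symm _ _ (junk_adj x1 o1)) (P.symm _ _ (junk_adj y1 o1))
      (P.symm _ _ (junk_adj x2 o2)) (P.symm _ _ (junk_adj y2 o2)) (by simp [hj])
  have : ∀ o2, ¬ P.adj j' o2 a := fun o2 h =>
    ha.2 (P.dia _ _ _ _ (key o o2) (st' j o) (P.symm _ _ (key (!o) o2)) ha.1 h (by simp))
  exact ⟨this _, this _⟩

/-! ### Frames -/

theorem two_of_filters {ρ : Finset V} {p q : V → Prop} {a b : ℕ}
    (hp : (ρ.filter fun r => ¬ p r).card ≤ a) (hq : (ρ.filter fun r => ¬ q r).card ≤ b)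
    (h : a + b + 2 ≤ ρ.card) :
    ∃ r ∈ ρ, ∃ r' ∈ ρ, r ≠ r' ∧ p r ∧ q r ∧ p r' ∧ q r' := by
  have h1 : ρ ⊆ (ρ.filter fun r => p r ∧ q r) ∪
      ((ρ.filter fun r => ¬ p r) ∪ ρ.filter fun r => ¬ q r) := fun r hr => by
    simp only [mem_union, mem_filter]; tauto
  have h2 := card_le_card h1
  have h3 := card_union_le (ρ.filter fun r => p r ∧ q r)
    ((ρ.filter fun r => ¬ p r) ∪ ρ.filter fun r => ¬ q r)
  have h4 := card_union_le (ρ.filter fun r => ¬ p r) (ρ.filter fun r => ¬ q r)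
  obtain ⟨r, hr, r', hr', hne⟩ := one_lt_card.1 (show 1 < (ρ.filter fun r => p r ∧ q r).card by
    omega)
  rw [mem_filter] at hr hr'
  exact ⟨r, hr.1, r', hr'.1, hne, hr.2.1, hr.2.2, hr'.2.1, hr'.2.2⟩

variable {e : ℕ} {ρ : Finset V}

theorem rig_unique {j : J} {o o' : Bool} (h : P.rig e ρ j o) (h' : P.rig e ρ j o') : o = o' := by
  by_contra hne
  have : o' = !o := by cases o <;> cases o' <;> simp_all
  exact h.2 (this ▸ h'.1)

theorem kinds (j : J) : P.blind e ρ j ∨ P.flex e ρ j ∨ ∃ o, P.rig e ρ j o := by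
  simp only [blind, flex, rig, Bool.exists_bool, Bool.not_false, Bool.not_true]; tauto

theorem rig_not_flex {j : J} {o : Bool} (h : P.rig e ρ j o) : ¬ P.flex e ρ j := fun hf => by
  cases o
  · exact hf.1 h.1
  · exact hf.2 h.1

theorem rig_not_blind {j : J} {o : Bool} (h : P.rig e ρ j o) : ¬ P.blind e ρ j := fun hf => by
  cases o
  · exact h.2 hf.2
  · exact h.2 hf.1

/-- (F1) Heavy items are not on the majority side. -/
theorem Q0_not_adj (hf : P.Frame e ρ) {j : J} {o : Bool} {q : V} (hm : P.maj e ρ j o)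
    (hq : P.Q0 e ρ q) : ¬ P.adj j o q := by
  obtain ⟨r, hr, r', hr', hne, a1, b1, a2, b2⟩ :=
    two_of_filters (p := fun r => P.adj j o r) (q := fun r => P.HH q r) hm hq.2
      (by rw [hf.1]; omega)
  exact not_adj_of_two hne (hq.1 r hr r' hr') a1 a2 b1 b2

/-- (F1') A heavy minority item only exists in an independent frame. -/
theorem Q0_of_heavy (hf : P.Frame e ρ) {j : J} {o : Bool} {x : V} (hm : P.maj e ρ j o)
    (hx : ¬ P.adj j o x) (hh : P.heavy e ρ x) : P.Q0 e ρ x := by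
  rcases hf.2 with hi | hc
  · exact ⟨hi, hh⟩
  obtain ⟨r, hr, r', hr', hne, a1, b1, a2, b2⟩ :=
    two_of_filters (p := fun r => P.adj j o r) (q := fun r => P.HH x r) hm hh
      (by rw [hf.1]; omega)
  exact absurd (adj_of_edge (hc r hr r' hr' hne) a1 a2 b1 b2) hx

/-- (F2) Heavy items are pairwise non-adjacent. -/
theorem Q0_indep (hf : P.Frame e ρ) {q q' : V} (h : P.Q0 e ρ q) (h' : P.Q0 e ρ q') :
    ¬ P.HH q q' := fun hh => by
  obtain ⟨r, hr, r', hr', hne, a1, b1, a2, b2⟩ :=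
    two_of_filters (p := fun r => P.HH q r) (q := fun r => P.HH q' r) h.2 h'.2
      (by rw [hf.1]; omega)
  exact h.1 r hr r' hr' (hh_dia hh a1 b1 a2 b2 hne)

theorem Q0_not_mem (hf : P.Frame e ρ) {q : V} (h : P.Q0 e ρ q) : q ∉ ρ := fun hq => by
  have h1 : (ρ.filter fun r => ¬ P.HH q r) = ρ := filter_true_of_mem fun r hr => h.1 q hq r hr
  have h2 := h.2
  unfold heavy at h2
  rw [h1, hf.1] at h2
  omega

theorem clq_all (hc : P.Clq ρ) {j : J} {o : Bool} {r r' : V} (hr : r ∈ ρ) (hr' : r' ∈ ρ)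
    (hne : r ≠ r') (a1 : P.adj j o r) (a2 : P.adj j o r') : ∀ x ∈ ρ, P.adj j o x := fun x hx => by
  by_cases h1 : x = r
  · exact h1 ▸ a1
  by_cases h2 : x = r'
  · exact h2 ▸ a2
  exact adj_of_edge (hc r hr r' hr' hne) a1 a2 (hc x hx r hr h1) (hc x hx r' hr' h2)

theorem maj_of_all {j : J} {o : Bool} (h : ∀ x ∈ ρ, P.adj j o x) : P.maj e ρ j o := by
  unfold maj
  rw [filter_false_of_mem fun x hx => not_not.2 (h x hx)]
  simp

/-- (F3) Two rigid agents have at most one common junk item. -/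
theorem rig_junk (hf : P.Frame e ρ) {j j' : J} {o o' : Bool} {x y : V} (hj : j ≠ j')
    (h : P.rig e ρ j o) (h' : P.rig e ρ j' o') (x1 : P.junk j x) (y1 : P.junk j y)
    (x2 : P.junk j' x) (y2 : P.junk j' y) : x = y := by
  by_contra hxy
  have e1 := junk_hh x1 y1 hxy
  have key : ∀ o1 o2, P.H (Sum.inr (j, o1)) (Sum.inr (j', o2)) := fun o1 o2 =>
    P.dia _ _ _ _ e1 (P.symm _ _ (junk_adj x1 o1)) (P.symm _ _ (junk_adj y1 o1))
      (P.symm _ _ (junk_adj x2 o2)) (P.symm _ _ (junk_adj y2 o2)) (by simp [hj])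
  obtain ⟨r, hr, r', hr', hne, a1, b1, a2, b2⟩ :=
    two_of_filters (p := fun r => P.adj j o r) (q := fun r => P.adj j' o' r) h.1 h'.1
      (by rw [hf.1]; omega)
  rcases hf.2 with hi | hc
  · exact hi r hr r' hr' (P.dia _ _ _ _ (key o o') a1 b1 a2 b2 (by simp [hne]))
  · have k : ∀ r, P.adj j o r → P.adj j' o' r → P.adj j (!o) r := fun r a b =>
      P.dia _ _ _ _ (key o o') (st' j o) (P.symm _ _ (key (!o) o')) a b (by simp)
    exact h.2 (maj_of_all (clq_all hc hr hr' hne (k r a1 b1) (k r' a2 b2)))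

/-- (F4) A coloured item of a blind agent is free for every other blind agent. -/
theorem blind_C (hf : P.Frame e ρ) {j j' : J} {o : Bool} {a : V} (hj : j ≠ j')
    (h : P.blind e ρ j) (h' : P.blind e ρ j') (ha : P.col j o a) : P.C j' a := by
  have c : ∀ i, P.blind e ρ i → (ρ.filter fun r => ¬ P.junk i r).card ≤ 2 * e := fun i hi => by
    have h1 : (ρ.filter fun r => ¬ P.junk i r) ⊆
        (ρ.filter fun r => ¬ P.adj i false r) ∪ ρ.filter fun r => ¬ P.adj i true r :=
      fun r hr => by simp only [mem_union, mem_filter, junk] at hr ⊢; tauto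
    have h2 := card_le_card h1
    have h3 := card_union_le (ρ.filter fun r => ¬ P.adj i false r)
      (ρ.filter fun r => ¬ P.adj i true r)
    have h4 := hi.1
    have h5 := hi.2
    unfold maj at h4 h5
    omega
  obtain ⟨r, -, r', -, hne, a1, b1, a2, b2⟩ :=
    two_of_filters (p := fun r => P.junk j r) (q := fun r => P.junk j' r) (c j h) (c j' h')
      (by rw [hf.1]; omega)
  exact coline hj hne a1 a2 b1 b2 ha

theorem card_le_one_of {s : Finset V} (h : ∀ x ∈ s, ∀ y ∈ s, x = y) : s.card ≤ 1 :=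
  card_le_one.2 h

/-- Few frame items are adjacent to the minority terminal. -/
theorem rig_minor (hf : P.Frame e ρ) {j : J} {o : Bool} (h : P.rig e ρ j o) :
    (ρ.filter fun r => P.adj j (!o) r).card ≤ e + 1 := by
  rcases hf.2 with hi | hc
  · have h1 : (ρ.filter fun r => P.adj j (!o) r) ⊆
        (ρ.filter fun r => ¬ P.adj j o r) ∪ ρ.filter fun r => P.junk j r := fun r hr => by
      simp only [mem_union, mem_filter] at hr ⊢
      by_cases a : P.adj j o r
      · exact Or.inr ⟨hr.1, junk_of a hr.2⟩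
      · exact Or.inl ⟨hr.1, a⟩
    have h2 := card_le_card h1
    have h3 := card_union_le (ρ.filter fun r => ¬ P.adj j o r) (ρ.filter fun r => P.junk j r)
    have h4 : (ρ.filter fun r => P.junk j r).card ≤ 1 := card_le_one.2 fun x hx y hy => by
      rw [mem_filter] at hx hy
      by_contra hne
      exact hi x hx.1 y hy.1 (junk_hh hx.2 hy.2 hne)
    have h5 := h.1
    unfold maj at h5
    omega
  · have : (ρ.filter fun r => P.adj j (!o) r).card ≤ 1 := card_le_one.2 fun x hx y hy => by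
      rw [mem_filter] at hx hy
      by_contra hne
      exact h.2 (maj_of_all (clq_all hc hx.1 hy.1 hne hx.2 hy.2))
    omega

theorem light_many (hf : P.Frame e ρ) {j : J} {o : Bool} {x : V} (h : P.rig e ρ j o)
    (hl : ¬ P.heavy e ρ x) :
    e < (ρ.filter fun r => ¬ P.HH x r ∧ ¬ P.adj j (!o) r).card := by
  have h1 : (ρ.filter fun r => ¬ P.HH x r) ⊆
      (ρ.filter fun r => ¬ P.HH x r ∧ ¬ P.adj j (!o) r) ∪ ρ.filter fun r => P.adj j (!o) r :=
    fun r hr => by simp only [mem_union, mem_filter] at hr ⊢; tauto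
  have h2 := card_le_card h1
  have h3 := card_union_le (ρ.filter fun r => ¬ P.HH x r ∧ ¬ P.adj j (!o) r)
    (ρ.filter fun r => P.adj j (!o) r)
  have h4 := rig_minor hf h
  unfold heavy at hl
  omega

/-- (F6) A light key has many partners in the frame. -/
theorem key_many (hf : P.Frame e ρ) {j : J} {o : Bool} {x : V} (h : P.rig e ρ j o)
    (hx : P.col j (!o) x) (hl : ¬ P.heavy e ρ x) :
    e < (ρ.filter fun r => P.Pr j x r).card := by
  refine lt_of_lt_of_le (light_many hf h hl) (card_le_card fun r hr => ?_)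
  rw [mem_filter] at hr ⊢
  exact ⟨hr.1, fun e => hr.2.2 (e ▸ hx.1), hr.2.1, o, by simpa using hx.2, hr.2.2⟩

/-- (F7) A pair edge with a junk light end gives many triples. -/
theorem triple_many (hf : P.Frame e ρ) {j : J} {o : Bool} {q z : V} (h : P.rig e ρ j o)
    (hq : P.Q0 e ρ q) (hz : P.junk j z) (hl : ¬ P.heavy e ρ z) (nh : ¬ P.HH q z) :
    e < (ρ.filter fun r => P.Tr j q z r).card := by
  refine lt_of_lt_of_le (light_many hf h hl) (card_le_card fun r hr => ?_)
  rw [mem_filter] at hr ⊢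
  exact ⟨hr.1, fun e => hl (e ▸ hq.2), fun e => hr.2.2 (e ▸ junk_adj hz _), nh, hr.2.1, o,
    Q0_not_adj hf h.1 hq, hr.2.2⟩

theorem exists_not_mem {s U : Finset V} (h : U.card < s.card) : ∃ x ∈ s, x ∉ U := by
  by_contra hn
  push Not at hn
  exact absurd (card_le_card hn) (by omega)

/-- (F5) A flexible agent is served by the frame. -/
theorem flex_serv (hf : P.Frame e ρ) {j : J} (h : P.flex e ρ j) {U : Finset V}
    (hU : U.card ≤ e) : ∃ a ∈ ρ, ∃ b ∈ ρ, a ∉ U ∧ b ∉ U ∧ P.Ok j a b := by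
  have h1 := h.1
  have h2 := h.2
  unfold maj at h1 h2
  obtain ⟨a, ha, aU⟩ := exists_not_mem (s := ρ.filter fun r => ¬ P.adj j false r) (U := U)
    (by omega)
  obtain ⟨b, hb, bU⟩ := exists_not_mem (s := ρ.filter fun r => ¬ P.adj j true r) (U := U)
    (by omega)
  rw [mem_filter] at ha hb
  rcases hf.2 with hi | hc
  · refine ⟨a, ha.1, b, hb.1, aU, bU, ?_⟩
    by_cases hab : a = b
    · exact Or.inl ⟨ha.2, hab ▸ hb.2⟩
    · exact Or.inr (Or.inr ⟨hab, hi a ha.1 b hb.1, false, ha.2, hb.2⟩)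
  · have c : ∀ o, ¬ P.maj e ρ j o → (ρ.filter fun r => P.adj j o r).card ≤ 1 := fun o ho =>
      card_le_one.2 fun x hx y hy => by
        rw [mem_filter] at hx hy
        by_contra hne
        exact ho (maj_of_all (clq_all hc hx.1 hy.1 hne hx.2 hy.2))
    have c1 := c false h.1
    have c2 := c true h.2
    have c3 := card_union_le (ρ.filter fun r => P.adj j false r) (ρ.filter fun r => P.adj j true r)
    have c4 := card_union_le U
      ((ρ.filter fun r => P.adj j false r) ∪ ρ.filter fun r => P.adj j true r)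
    obtain ⟨x, hx, xU⟩ := exists_not_mem (s := ρ) (U := U ∪
      ((ρ.filter fun r => P.adj j false r) ∪ ρ.filter fun r => P.adj j true r))
      (by rw [hf.1]; omega)
    simp only [mem_union, mem_filter, not_or, not_and] at xU
    exact ⟨x, hx, x, hx, xU.1, xU.1, Or.inl ⟨xU.2.1 hx, xU.2.2 hx⟩⟩

/-- What a rigid agent can do with a pair edge. -/
theorem pe_cases (hf : P.Frame e ρ) {S : Sub J V} {j : J} {o : Bool} {q z : V}
    (h : P.rig e ρ j o) (hp : P.peE S e ρ q z) :
    P.Ok j q z ∨ P.junk j z ∨ P.col j (!o) z := by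
  by_cases a : P.adj j (!o) z
  · by_cases b : P.adj j o z
    · exact Or.inr (Or.inl (junk_of b a))
    · exact Or.inr (Or.inr ⟨a, by simpa using b⟩)
  · exact Or.inl (Or.inr (Or.inr ⟨fun e => hp.2.1 (e ▸ hp.1.2), hp.2.2.1, o,
      Q0_not_adj hf h.1 hp.1, a⟩))

theorem serv_of_Ok {S : Sub J V} (hw : P.Wf S) {j : J} (hg : S.geo j) {x y : V}
    (h : P.Ok j x y) : P.Serv2 S j {x, y} := by
  rcases h with h | h | h
  · exact Or.inl ⟨x, by simp, (hw j hg x).2 h⟩
  · exact Or.inl ⟨y, by simp, (hw j hg y).2 h⟩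
  · exact Or.inr ⟨hg, x, by simp, y, by simp, h⟩

theorem wf_pl (A : Finset J) (W : Finset V) : P.Wf (P.pl A W) := fun _ _ _ => Iff.rfl

theorem En_symm {S : Sub J V} {X : Ax J V} {x y : Nd J V} (h : P.En S e ρ X x y) :
    P.En S e ρ X y x := by
  rcases x with i | u | i <;> rcases y with j | v | j <;> simp only [En] at h ⊢
  · exact h
  · exact h
  · exact h
  · exact ⟨h.2.1, h.1, h.2.2.1, h.2.2.2.symm⟩
  · exact h

theorem En_shape {S : Sub J V} {X : Ax J V} {m : Nd J V → Nd J V}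
    (h : IsM (P.En S e ρ X) m) : Shape m := by
  refine ⟨fun j => ?_, fun j => ?_⟩
  · by_cases a : m (ag j) = ag j
    · exact Or.inl a
    have b := h.2 _ a
    rcases hm : m (ag j) with i | u | i <;> rw [hm] at b
    · exact b.elim
    · exact Or.inr (Or.inl ⟨u, rfl⟩)
    · exact Or.inr (Or.inr (by rw [b.1]))
  · by_cases a : m (dm j) = dm j
    · exact Or.inl a
    have b := h.2 _ a
    rcases hm : m (dm j) with i | u | i <;> rw [hm] at b
    · exact Or.inr (by rw [b.1])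
    · exact b.elim
    · exact b.elim

end Geo

end Pool.Agent.Lib.MP_ef7581_lc.D2
end

-- part Pool.Agent.Lib.MP_ef7581_lc.DComp
section

/-!
Components of the union of two matchings: ends, parity colouring, crossing, counting.
-/

set_option autoImplicit false
set_option linter.unusedSectionVars false

namespace Pool.Agent.Lib.MP_ef7581_lc.D2

open Finset Classical

namespace DComp

variable {α : Type} [Fintype α] [DecidableEq α] {μ ν : α → α}

theorem mem_cmp {x y : α} :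
    y ∈ cmp μ ν x ↔ ∀ X : Finset α, Cl X μ → Cl X ν → x ∈ X → y ∈ X := by simp [cmp]

theorem self_mem (x : α) : x ∈ cmp μ ν x := mem_cmp.2 fun _ _ _ h => h

theorem cl_left (x : α) : Cl (cmp μ ν x) μ := fun y hy =>
  mem_cmp.2 fun X h1 h2 hx => h1 y (mem_cmp.1 hy X h1 h2 hx)

theorem cl_right (x : α) : Cl (cmp μ ν x) ν := fun y hy =>
  mem_cmp.2 fun X h1 h2 hx => h2 y (mem_cmp.1 hy X h1 h2 hx)

theorem cmp_sub {x : α} {X : Finset α} (h1 : Cl X μ) (h2 : Cl X ν) (hx : x ∈ X) :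
    cmp μ ν x ⊆ X := fun _ hy => mem_cmp.1 hy X h1 h2 hx

theorem cmp_eq (hμ : ∀ x, μ (μ x) = x) (hν : ∀ x, ν (ν x) = x) {x y : α} (h : y ∈ cmp μ ν x) :
    cmp μ ν y = cmp μ ν x := by
  refine Subset.antisymm (cmp_sub (cl_left x) (cl_right x) h)
    (cmp_sub (cl_left y) (cl_right y) ?_)
  by_contra hx
  have := cmp_sub ((cl_left x).sdiff (cl_left y) hμ) ((cl_right x).sdiff (cl_right y) hν)
    (mem_sdiff.2 ⟨self_mem x, hx⟩) h
  exact (mem_sdiff.1 this).2 (self_mem y)

theorem cmp_ne (hμ : ∀ x, μ (μ x) = x) (hν : ∀ x, ν (ν x) = x) {x y : α} (hx : μ x ≠ ν x)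
    (h : y ∈ cmp μ ν x) : μ y ≠ ν y := by
  have := cmp_sub (μ := μ) (ν := ν) (X := univ.filter fun z => μ z ≠ ν z) (x := x)
    (fun z hz => ?_) (fun z hz => ?_) (by simpa using hx) h
  · simpa using this
  · simp only [mem_filter, mem_univ, true_and] at hz ⊢
    intro e
    rw [hμ] at e
    exact hz (by rw [← hν (μ z), ← e])
  · simp only [mem_filter, mem_univ, true_and] at hz ⊢
    intro e
    rw [hν] at e
    exact hz (by rw [← hμ (ν z), e])

theorem mem_ends {x : α} : x ∈ ends μ ν ↔ IsEnd μ ν x := by simp [ends]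

theorem ends_le (hμ : ∀ x, μ (μ x) = x) (hν : ∀ x, ν (ν x) = x) (x : α) :
    (cmp μ ν x ∩ ends μ ν).card ≤ 2 := by
  rcases (cmp μ ν x ∩ ends μ ν).eq_empty_or_nonempty with h | ⟨e, he⟩
  · simp [h]
  · rw [mem_inter, mem_ends] at he
    obtain ⟨X, e', h1, -, -, c1, c2, -, h2, -⟩ := exists_path hμ hν he.2
    refine le_trans (card_le_card (t := {e, e'}) fun z hz => ?_) card_le_two
    rw [mem_inter, mem_ends, ← cmp_eq hμ hν he.1] at hz
    simpa using h2 z (cmp_sub c1 c2 h1 hz.1) hz.2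

theorem mem_ncomp {C : Finset α} : C ∈ ncomp μ ν ↔ ∃ x, μ x ≠ ν x ∧ cmp μ ν x = C := by
  simp [ncomp]

theorem ends_le' (hμ : ∀ x, μ (μ x) = x) (hν : ∀ x, ν (ν x) = x) :
    (ends μ ν).card ≤ 2 * (ncomp μ ν).card := by
  have h : ends μ ν ⊆ (ncomp μ ν).biUnion fun C => C ∩ ends μ ν := fun e he =>
    mem_biUnion.2 ⟨cmp μ ν e, mem_ncomp.2 ⟨e, (mem_ends.1 he).ne, rfl⟩,
      mem_inter.2 ⟨self_mem e, he⟩⟩
  refine (card_le_card h).trans (card_biUnion_le.trans ?_)
  rw [mul_comm]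
  refine (sum_le_card_nsmul _ _ 2 fun C hC => ?_).trans (by simp)
  obtain ⟨x, -, rfl⟩ := mem_ncomp.1 hC
  exact ends_le hμ hν x

theorem even_cov {m : α → α} (hm : ∀ x, m (m x) = x) {X : Finset α} (hX : Cl X m) :
    Even (X.filter fun x => m x ≠ x).card := by
  rw [← ZMod.natCast_eq_zero_iff_even, card_eq_sum_ones, Nat.cast_sum]
  refine sum_involution (fun a _ => m a) (fun _ _ => by decide) (fun a ha _ => (mem_filter.1 ha).2)
    (fun a ha => ?_) fun a _ => hm a
  rw [mem_filter] at ha ⊢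
  exact ⟨hX a ha.1, by rw [hm]; exact ha.2.symm⟩

/-- The contribution of a node to `dcov`. -/
def dd (μ ν : α → α) (x : α) : ℤ := (if ν x ≠ x then 1 else 0) - if μ x ≠ x then 1 else 0

theorem dcov_eq (Y : Finset α) : dcov μ ν Y = ∑ x ∈ Y, dd μ ν x := by
  simp only [dcov, dd, sum_sub_distrib, card_filter]
  push_cast
  rfl

theorem abs_sum_le {Y : Finset α} (g : α → ℤ) (h1 : ∀ x, |g x| ≤ 1)
    (h0 : ∀ x, ¬ IsEnd μ ν x → g x = 0) : |∑ x ∈ Y, g x| ≤ (Y ∩ ends μ ν).card := by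
  rw [← sum_subset (inter_subset_left (s₂ := ends μ ν)) fun x hx hx' =>
    h0 x fun h => hx' (mem_inter.2 ⟨hx, mem_ends.2 h⟩)]
  refine (abs_sum_le_sum_abs _ _).trans ((sum_le_card_nsmul _ _ 1 fun x _ => h1 x).trans (by simp))

theorem dd_abs (x : α) : |dd μ ν x| ≤ 1 := by
  unfold dd; split_ifs <;> simp

theorem dd_zero (x : α) (h : ¬ IsEnd μ ν x) : dd μ ν x = 0 := by
  unfold dd IsEnd at *; split_ifs <;> simp_all

theorem dcov_cases (hμ : ∀ x, μ (μ x) = x) (hν : ∀ x, ν (ν x) = x) (x : α) :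
    dcov μ ν (cmp μ ν x) = 2 ∨ dcov μ ν (cmp μ ν x) = 0 ∨ dcov μ ν (cmp μ ν x) = -2 := by
  have h1 := abs_sum_le (μ := μ) (ν := ν) (Y := cmp μ ν x) _ dd_abs dd_zero
  have h2 := ends_le hμ hν x
  rw [← dcov_eq, abs_le] at h1
  obtain ⟨a, ha⟩ := even_cov hμ (cl_left (ν := ν) x)
  obtain ⟨b, hb⟩ := even_cov hν (cl_right (μ := μ) x)
  unfold dcov at h1 ⊢
  omega

/-- A proper colouring of the edges of `m`. -/
def Prp (χ : α → Bool) (m : α → α) : Prop := ∀ z, m z ≠ z → χ (m z) ≠ χ z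

theorem balance {m : α → α} {χ : α → Bool} (hm : ∀ x, m (m x) = x) (hχ : Prp χ m)
    {X : Finset α} (hX : Cl X m) :
    ∑ z ∈ X, (if m z ≠ z then (if χ z then 1 else -1) else 0 : ℤ) = 0 := by
  refine sum_involution (fun a _ => m a) (fun a _ => ?_) (fun a _ h e => h (by simp [e]))
    (fun a ha => hX a ha) fun a _ => hm a
  by_cases h : m a = a
  · simp [h]
  · have h1 := hχ a h
    have h2 : a ≠ m a := fun e => h e.symm
    cases h3 : χ a <;> simp_all

theorem fixed_pair {χ : α → Bool} (hμ : ∀ x, μ (μ x) = x) (hν : ∀ x, ν (ν x) = x)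
    (c1 : Prp χ μ) (c2 : Prp χ ν) {a b : α} (hab : a ≠ b) (ha : ν a = a) (hb : ν b = b)
    (h : b ∈ cmp μ ν a) : χ a ≠ χ b ∧ ∀ c ∈ cmp μ ν a, ν c = c → c = a ∨ c = b := by
  have h1 : μ a ≠ ν a := by
    intro e
    have := cmp_sub (μ := μ) (ν := ν) (X := {a}) (x := a) (by simp [Cl, e, ha]) (by simp [Cl, ha])
      (mem_singleton_self a) h
    exact hab (mem_singleton.1 this).symm
  have h2 : ∀ c ∈ cmp μ ν a, ν c = c → c ∈ cmp μ ν a ∩ ends μ ν := fun c hc e =>
    mem_inter.2 ⟨hc, mem_ends.2 (Or.inr ⟨fun h => cmp_ne hμ hν h1 hc (h.trans e.symm), e⟩)⟩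
  have h3 : ({a, b} : Finset α) = cmp μ ν a ∩ ends μ ν :=
    eq_of_subset_of_card_le (insert_subset (h2 a (self_mem a) ha)
      (singleton_subset_iff.2 (h2 b h hb))) (by rw [card_pair hab]; exact ends_le hμ hν a)
  refine ⟨fun e => ?_, fun c hc e => by simpa [← h3] using h2 c hc e⟩
  have s1 := balance hμ c1 (cl_left (ν := ν) a)
  have s2 := balance hν c2 (cl_right (μ := μ) a)
  have s3 := congrArg₂ (· - ·) s1 s2
  simp only [← sum_sub_distrib, sub_self] at s3
  rw [← sum_subset (inter_subset_left (s₂ := ends μ ν)), ← h3, sum_pair hab] at s3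
  · have h4 : μ a ≠ a := fun h => h1 (h.trans ha.symm)
    have h5 : μ b ≠ b := fun h' => cmp_ne hμ hν h1 h (h'.trans hb.symm)
    cases h6 : χ b <;> simp_all
  · intro z hz hz'
    have : ¬ IsEnd μ ν z := fun h => hz' (mem_inter.2 ⟨hz, mem_ends.2 h⟩)
    unfold IsEnd at this
    by_cases e1 : μ z = z <;> by_cases e2 : ν z = z <;> simp_all

theorem Prp.cut {χ : α → Bool} {m : α → α} (h : Prp χ m) (a : α) : Prp χ (cut a m) := by
  intro z hz
  rcases cut_cases a z m with e | e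
  · exact absurd e hz
  · rw [e] at hz ⊢; exact h z hz

theorem exists_prp (hμ : ∀ x, μ (μ x) = x) : ∀ (n : ℕ) (ν : α → α), (∀ x, ν (ν x) = x) →
    cov ν ≤ n → ∃ χ : α → Bool, Prp χ μ ∧ Prp χ ν := by
  have base : ∀ ν : α → α, (∀ x, ν x = x) → ∃ χ : α → Bool, Prp χ μ ∧ Prp χ ν := by
    intro ν h
    refine ⟨fun z => decide (Fintype.equivFin α z < Fintype.equivFin α (μ z)), fun z hz => ?_,
      fun z hz => absurd (h z) hz⟩
    have : Fintype.equivFin α (μ z) ≠ Fintype.equivFin α z := (Equiv.injective _).ne hz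
    simp only [hμ, ne_eq, decide_eq_decide]
    omega
  intro n
  induction n with
  | zero =>
    intro ν _ hn
    refine base ν fun x => ?_
    by_contra h
    have : 0 < cov ν := card_pos.2 ⟨x, by simp [h]⟩
    omega
  | succ n ih =>
    intro ν hν hn
    by_cases h : ∀ x, ν x = x
    · exact base ν h
    obtain ⟨x, hx⟩ := not_forall.1 h
    have hlt : cov (cut x ν) < cov ν := by
      apply card_lt_card
      rw [ssubset_iff_of_subset]
      · exact ⟨x, by simp [hx], by simp [cut_self]⟩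
      · intro z hz
        simp only [mem_filter, mem_univ, true_and] at hz ⊢
        intro e'; exact hz (cut_fix e')
    obtain ⟨χ, c1, c2⟩ := ih (cut x ν) (inv_cut hν x) (by omega)
    have fin : ∀ χ' : α → Bool, Prp χ' (cut x ν) → χ' x ≠ χ' (ν x) → Prp χ' ν := by
      intro χ' d1 d2 z hz
      by_cases e1 : z = x
      · subst e1; exact d2.symm
      by_cases e2 : z = ν x
      · subst e2; rwa [hν]
      have := d1 z
      rw [cut_ne e1 e2] at this
      exact this hz
    by_cases e : χ x = χ (ν x)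
    · have h1 : ν x ∉ cmp μ (cut x ν) x := fun h1 =>
        (fixed_pair hμ (inv_cut hν x) c1 c2 (Ne.symm hx) (cut_self x ν) (cut_mate x ν) h1).1 e
      have key : ∀ m : α → α, (∀ z, m (m z) = z) → Cl (cmp μ (cut x ν) x) m → Prp χ m →
          Prp (fun z => if z ∈ cmp μ (cut x ν) x then !χ z else χ z) m := by
        intro m hm hc hp z hz
        by_cases h2 : z ∈ cmp μ (cut x ν) x
        · simpa [h2, hc z h2] using hp z hz
        · simpa [h2, hc.not_mem hm h2] using hp z hz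
      exact ⟨_, key μ hμ (cl_left x) c1, fin _ (key _ (inv_cut hν x) (cl_right x) c2)
        (by simp [h1, self_mem, e])⟩
    · exact ⟨χ, c1, fin χ c2 e⟩

section cross
variable {x x' : α}

theorem cross_vals (hν : ∀ x, ν (ν x) = x) (h1 : x ≠ x') (h2 : ν x ≠ x) (h3 : ν x' ≠ x')
    (h4 : ν x ≠ x') :
    cross x x' ν x = ν x' ∧ cross x x' ν x' = ν x ∧ cross x x' ν (ν x) = x' ∧
      cross x x' ν (ν x') = x ∧
      ∀ z, z ≠ x → z ≠ x' → z ≠ ν x → z ≠ ν x' → cross x x' ν z = ν z := by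
  have h5 : ν x' ≠ x := fun e => h4 (by rw [← e, hν])
  have h6 : ν x' ≠ ν x := fun e => h1 (by rw [← hν x, ← e, hν])
  refine ⟨by simp [cross], by simp [cross, h1.symm], by simp [cross, h2, h4],
    by simp [cross, h3, h5, h6], fun z a b c d => by simp [cross, a, b, c, d]⟩

theorem four (x x' : α) (ν : α → α) (z : α) :
    z = x ∨ z = x' ∨ z = ν x ∨ z = ν x' ∨ (z ≠ x ∧ z ≠ x' ∧ z ≠ ν x ∧ z ≠ ν x') := by tauto

theorem pot_cross {χ : α → Bool} (hμ : ∀ x, μ (μ x) = x) (hν : ∀ x, ν (ν x) = x)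
    (c1 : Prp χ μ) (c2 : Prp χ ν) (h1 : x ≠ x') (hχ : χ x = χ x') (hc : cmp μ ν x = cmp μ ν x')
    (h2 : ν x ≠ x) (h3 : ν x' ≠ x') : ν x ≠ x' ∧ pot μ (cross x x' ν) < pot μ ν := by
  have h4 : ν x ≠ x' := fun e => c2 x h2 (by rw [e, hχ])
  have h5 : ν x' ≠ x := fun e => h4 (by rw [← e, hν])
  have h6 : ν x' ≠ ν x := fun e => h1 (by rw [← hν x, ← e, hν])
  obtain ⟨v1, v2, v3, v4, v5⟩ := cross_vals hν h1 h2 h3 h4
  refine ⟨h4, sum_lt_sum (fun z _ => card_le_card (cmp_sub (cl_left z) ?_ (self_mem z)))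
    ⟨x, mem_univ x, card_lt_card ?_⟩⟩
  · have k : ∀ u, u ∈ cmp μ ν z → u ∈ cmp μ ν x → cmp μ ν x = cmp μ ν z := fun u a b =>
      (cmp_eq hμ hν b).symm.trans (cmp_eq hμ hν a)
    have m1 : x ∈ cmp μ ν x := self_mem x
    have m2 : x' ∈ cmp μ ν x := hc ▸ self_mem x'
    have m3 := cl_right x x m1
    have m4 := cl_right x x' m2
    intro u hu
    rcases four x x' ν u with rfl | rfl | rfl | rfl | ⟨a, b, c, d⟩
    · rw [v1, ← k _ hu m1]; exact m4
    · rw [v2, ← k _ hu m2]; exact m3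
    · rw [v3, ← k _ hu m3]; exact m2
    · rw [v4, ← k _ hu m4]; exact m1
    · rw [v5 u a b c d]; exact cl_right z u hu
  set m := cut x (cut x' ν) with hm
  have im : ∀ z, m (m z) = z := inv_cut (inv_cut hν x') x
  have pm : Prp χ m := (c2.cut x').cut x
  have e0 : cut x' ν x = ν x := cut_ne h1 h5.symm
  have f1 : m x = x := cut_self _ _
  have f2 : m x' = x' := cut_fix (cut_self _ _)
  have f3 : m (ν x) = ν x := by rw [← e0]; exact cut_mate _ _
  have f4 : m (ν x') = ν x' := cut_fix (cut_mate _ _)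
  have f5 : ∀ z, z ≠ x → z ≠ x' → z ≠ ν x → z ≠ ν x' → m z = ν z := fun z a b c d => by
    rw [hm, cut_ne a (by rwa [e0]), cut_ne b d]
  have g1 : χ (ν x) = χ (ν x') := by
    have a := c2 x h2
    have b := c2 x' h3
    rw [← hχ] at b
    cases h7 : χ x <;> simp_all
  have n1 : x' ∉ cmp μ m x := fun h => (fixed_pair hμ im c1 pm h1 f1 f2 h).1 hχ
  have n2 : ν x ∉ cmp μ m (ν x') := fun h => (fixed_pair hμ im c1 pm h6 f4 f3 h).1 g1.symm
  have n3 : ν x ∉ cmp μ m x := fun h => by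
    have t := (fixed_pair hμ im c1 pm h2.symm f1 f3 h).2
    refine n1 (cmp_sub (ν := ν) (cl_left x) (fun u hu => ?_) (self_mem x) (hc ▸ self_mem x'))
    rcases four x x' ν u with rfl | rfl | rfl | rfl | ⟨a, b, c, d⟩
    · exact h
    · exact absurd hu n1
    · rw [hν]; exact self_mem x
    · exact ((t _ hu f4).elim h5 h6).elim
    · rw [← f5 u a b c d]; exact cl_right x u hu
  have n4 : x' ∉ cmp μ m (ν x') := fun h => by
    have t := (fixed_pair hμ im c1 pm h3 f4 f2 h).2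
    have n5 : x ∉ cmp μ m (ν x') := fun hu => (t _ hu f1).elim h5.symm h1
    refine n5 (cmp_sub (ν := ν) (cl_left _) (fun u hu => ?_) h (hc ▸ self_mem x))
    rcases four x x' ν u with rfl | rfl | rfl | rfl | ⟨a, b, c, d⟩
    · exact absurd hu n5
    · exact self_mem _
    · exact absurd hu n2
    · rwa [hν]
    · rw [← f5 u a b c d]; exact cl_right _ u hu
  have n6 : x' ∉ cmp μ (cross x x' ν) x := fun h => by
    have := cmp_sub (X := cmp μ m x ∪ cmp μ m (ν x')) ((cl_left _).union (cl_left _))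
      (fun u hu => ?_) (mem_union_left _ (self_mem x)) h
    · exact (mem_union.1 this).elim n1 n4
    rcases four x x' ν u with rfl | rfl | rfl | rfl | ⟨a, b, c, d⟩
    · rw [v1]; exact mem_union_right _ (self_mem _)
    · exact ((mem_union.1 hu).elim n1 n4).elim
    · exact ((mem_union.1 hu).elim n3 n2).elim
    · rw [v4]; exact mem_union_left _ (self_mem _)
    · rw [v5 u a b c d, ← f5 u a b c d]; exact (cl_right _).union (cl_right _) u hu
  refine (ssubset_iff_of_subset (cmp_sub (cl_left x) ?_ (self_mem x))).2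
    ⟨x', hc ▸ self_mem x', n6⟩
  have m2 : x' ∈ cmp μ ν x := hc ▸ self_mem x'
  intro u hu
  rcases four x x' ν u with rfl | rfl | rfl | rfl | ⟨a, b, c, d⟩
  · rw [v1]; exact cl_right _ _ m2
  · rw [v2]; exact cl_right _ _ (self_mem x)
  · rw [v3]; exact m2
  · rw [v4]; exact self_mem x
  · rw [v5 u a b c d]; exact cl_right _ u hu

theorem cross_facts (hμ : ∀ x, μ (μ x) = x) (hν : ∀ x, ν (ν x) = x) (h1 : x ≠ x') (h2 : ν x ≠ x)
    (h3 : ν x' ≠ x') (h4 : ν x ≠ x') :
    (∀ z, cross x x' ν (cross x x' ν z) = z) ∧ (∀ z, cross x x' ν z = z ↔ ν z = z) ∧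
      cross x x' ν x = ν x' ∧ cross x x' ν x' = ν x ∧ cross x x' ν (ν x) = x' ∧
      cross x x' ν (ν x') = x ∧
      (∀ z, z ≠ x → z ≠ x' → z ≠ ν x → z ≠ ν x' → cross x x' ν z = ν z) ∧
      cov (cross x x' ν) = cov ν ∧ ends μ (cross x x' ν) = ends μ ν ∧
      (μ x ≠ ν x → μ x' ≠ ν x' → newc μ (cross x x' ν) ≤ newc μ ν) ∧
      ∀ E : α → α → Prop, IsM E ν → E x (ν x') → E (ν x') x → E x' (ν x) → E (ν x) x' →
        IsM E (cross x x' ν) := by
  have h5 : ν x' ≠ x := fun e => h4 (by rw [← e, hν])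
  obtain ⟨v1, v2, v3, v4, v5⟩ := cross_vals hν h1 h2 h3 h4
  have i1 : ∀ z, cross x x' ν (cross x x' ν z) = z := fun z => by
    rcases four x x' ν z with rfl | rfl | rfl | rfl | ⟨a, b, c, d⟩
    · rw [v1, v4]
    · rw [v2, v3]
    · rw [v3, v2]
    · rw [v4, v1]
    · rw [v5 z a b c d, v5, hν]
      · exact fun e => c (by rw [← e, hν])
      · exact fun e => d (by rw [← e, hν])
      · exact fun e => a (by rw [← hν z, e, hν])
      · exact fun e => b (by rw [← hν z, e, hν])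
  have i2 : ∀ z, cross x x' ν z = z ↔ ν z = z := fun z => by
    rcases four x x' ν z with rfl | rfl | rfl | rfl | ⟨a, b, c, d⟩
    · rw [v1]; exact iff_of_false h5 h2
    · rw [v2]; exact iff_of_false h4 h3
    · rw [v3, hν]; exact iff_of_false h4.symm h2.symm
    · rw [v4, hν]; exact iff_of_false h5.symm h3.symm
    · rw [v5 z a b c d]
  refine ⟨i1, i2, v1, v2, v3, v4, v5, by simp only [cov, ne_eq, i2],
    by simp only [ends, IsEnd, ne_eq, i2], fun a1 a2 => card_le_card fun z hz => ?_,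
    fun E hE e1 e2 e3 e4 => ⟨i1, fun z hz => ?_⟩⟩
  · simp only [mem_filter, mem_univ, true_and, ne_eq, i2] at hz ⊢
    refine ⟨hz.1, ?_⟩
    rcases four x x' ν z with rfl | rfl | rfl | rfl | ⟨a, b, c, d⟩
    · exact a1.symm
    · exact a2.symm
    · rw [hν]; exact fun e => a1 (by rw [← hμ (ν x), ← e])
    · rw [hν]; exact fun e => a2 (by rw [← hμ (ν x'), ← e])
    · rw [← v5 z a b c d]; exact hz.2
  · rcases four x x' ν z with rfl | rfl | rfl | rfl | ⟨a, b, c, d⟩
    · rwa [v1]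
    · rwa [v2]
    · rwa [v3]
    · rwa [v4]
    · rw [v5 z a b c d] at hz ⊢; exact hE.2 z hz

end cross

theorem cov_mix (Y : Finset α) (μ ν : α → α) : (cov (mix Y μ ν) : ℤ) = cov μ + dcov μ ν Y := by
  have h := sm_mix (fun x y => if y ≠ x then 1 else 0) Y μ ν
  rw [sm_indicator (fun x y => y ≠ x), sm_indicator (fun x y => y ≠ x)] at h
  rw [dcov_eq]
  exact h

theorem zero_facts {T Y : Finset α} (h : ZeroSet μ ν T Y) : cov (mix Y ν μ) = cov ν ∧
    cov (mix Y μ ν) = cov μ ∧ newc μ (mix Y ν μ) < newc μ ν := by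
  obtain ⟨-, -, -, ⟨x, hx, hx'⟩, h0⟩ := h
  have a1 := cov_mix Y μ ν
  have a2 := cov_mix Y ν μ
  have a3 : dcov ν μ Y = -dcov μ ν Y := by unfold dcov; ring
  refine ⟨by omega, by omega, card_lt_card ((ssubset_iff_of_subset fun z hz => ?_).2 ?_)⟩
  · simp only [mem_filter, mem_univ, true_and] at hz ⊢
    by_cases e : z ∈ Y
    · exact absurd (mix_in e) hz.2
    · rwa [mix_out e] at hz
  · by_contra! h1
    have h2 : ∀ z ∈ Y, ν z ≠ z → ν z = μ z := fun z hz e => by
      by_contra e'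
      have := h1 z (by simp [e, e'])
      simp [mix_in hz] at this
    have h3 : (Y.filter fun z => ν z ≠ z) ⊂ Y.filter fun z => μ z ≠ z := by
      refine (ssubset_iff_of_subset fun z hz => ?_).2 ⟨x, ?_, ?_⟩
      · rw [mem_filter] at hz ⊢
        exact ⟨hz.1, h2 z hz.1 hz.2 ▸ hz.2⟩
      · refine mem_filter.2 ⟨hx, fun e => ?_⟩
        exact hx' (h2 x hx fun h => hx' (e.trans h.symm)).symm
      · exact fun e => hx' (h2 x hx (mem_filter.1 e).2).symm
    have := card_lt_card h3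
    unfold dcov at h0
    omega

theorem ncomp_disj (hμ : ∀ x, μ (μ x) = x) (hν : ∀ x, ν (ν x) = x) {C D : Finset α}
    (hC : C ∈ ncomp μ ν) (hD : D ∈ ncomp μ ν) (h : C ≠ D) : Disjoint C D := by
  obtain ⟨x, -, rfl⟩ := mem_ncomp.1 hC
  obtain ⟨y, -, rfl⟩ := mem_ncomp.1 hD
  exact disjoint_left.2 fun z a b => h ((cmp_eq hμ hν a).symm.trans (cmp_eq hμ hν b))

theorem sum_ncomp (hμ : ∀ x, μ (μ x) = x) (hν : ∀ x, ν (ν x) = x) :
    ∑ C ∈ ncomp μ ν, dcov μ ν C = (cov ν : ℤ) - cov μ := by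
  have h1 : (cov ν : ℤ) - cov μ = dcov μ ν univ := rfl
  rw [h1]
  simp only [dcov_eq]
  rw [← sum_biUnion (t := fun C => C) fun C hC D hD h => ncomp_disj hμ hν hC hD h]
  refine sum_subset (subset_univ _) fun z _ hz => dd_zero z fun h => hz ?_
  exact mem_biUnion.2 ⟨_, mem_ncomp.2 ⟨z, h.ne, rfl⟩, self_mem z⟩

theorem group_bound (hμ : ∀ x, μ (μ x) = x) (hν : ∀ x, ν (ν x) = x) (n δ : ℕ) (T : Finset α)
    (h1 : cov ν ≤ cov μ + 2 * δ) (h2 : cov μ ≤ cov ν + 2 * δ)
    (h : ¬ ∃ Y : Fin (n + 1) → Finset α, (∀ i, ZeroSet μ ν T (Y i)) ∧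
      ∀ i j, i ≠ j → Disjoint (Y i) (Y j)) :
    (ncomp μ ν).card ≤ 2 * T.card + 2 * n + δ := by
  set N := (ncomp μ ν).filter fun C => Disjoint C T with hN
  set B := (ncomp μ ν).filter fun C => ¬ Disjoint C T with hB
  set F : ℤ → Finset (Finset α) := fun k => N.filter fun C => dcov μ ν C = k with hF
  have mF : ∀ k C, C ∈ F k → C ∈ ncomp μ ν ∧ Disjoint C T ∧ dcov μ ν C = k := fun k C hC => by
    simpa [hF, hN, and_assoc] using hC
  have cs : ∀ C ∈ ncomp μ ν, dcov μ ν C = 2 ∨ dcov μ ν C = 0 ∨ dcov μ ν C = -2 := fun C hC => by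
    obtain ⟨x, -, rfl⟩ := mem_ncomp.1 hC
    exact dcov_cases hμ hν x
  have b1 : B.card ≤ T.card := by
    refine le_trans (card_le_card (t := T.image (cmp μ ν)) fun C hC => ?_) card_image_le
    rw [hB, mem_filter, not_disjoint_iff] at hC
    obtain ⟨hC, t, a, b⟩ := hC
    obtain ⟨x, -, rfl⟩ := mem_ncomp.1 hC
    exact mem_image.2 ⟨t, b, cmp_eq hμ hν a⟩
  have b2 : N.card + B.card = (ncomp μ ν).card := card_filter_add_card_filter_not _
  have b3 : ∀ g : ℤ → ℤ, ∑ C ∈ N, g (dcov μ ν C) =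
      (F 2).card * g 2 + (F 0).card * g 0 + (F (-2)).card * g (-2) := fun g => by
    simp only [hF, card_filter, Nat.cast_sum, sum_mul, ← sum_add_distrib]
    refine sum_congr rfl fun C hC => ?_
    rcases cs C (mem_filter.1 hC).1 with e | e | e <;> simp [e]
  have b4 := b3 fun _ => 1
  have b5 := b3 id
  simp only [sum_const, nsmul_eq_mul, mul_one] at b4
  simp only [id] at b5
  have b6 := sum_ncomp hμ hν
  rw [← sum_filter_add_sum_filter_not _ fun C => Disjoint C T, ← hN, ← hB, b5] at b6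
  have b7 : |∑ C ∈ B, dcov μ ν C| ≤ B.card * 2 := by
    refine (abs_sum_le_sum_abs _ _).trans ((sum_le_card_nsmul _ _ 2 fun C hC => ?_).trans (by simp))
    rcases cs C (mem_filter.1 hC).1 with e | e | e <;> simp [e]
  rw [abs_le] at b7
  have b8 : (F 0).card + min (F 2).card (F (-2)).card ≤ n := by
    by_contra! b8
    apply h
    set k := min (F 2).card (F (-2)).card with hk
    obtain ⟨e0⟩ : Nonempty (Fin (n + 1) ↪ F 0 ⊕ Fin k) :=
      Function.Embedding.nonempty_of_card_le (by simp; omega)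
    obtain ⟨e1⟩ : Nonempty (Fin k ↪ F 2) := Function.Embedding.nonempty_of_card_le (by simp [hk])
    obtain ⟨e2⟩ : Nonempty (Fin k ↪ F (-2)) :=
      Function.Embedding.nonempty_of_card_le (by simp [hk])
    have dj : ∀ {a b : ℤ} (C : F a) (D : F b), (a ≠ b ∨ C.1 ≠ D.1) → Disjoint C.1 D.1 := by
      intro a b C D hCD
      refine ncomp_disj hμ hν (mF _ _ C.2).1 (mF _ _ D.2).1 fun e => hCD.elim (fun h => h ?_)
        fun h => h e
      rw [← (mF _ _ C.2).2.2, e, (mF _ _ D.2).2.2]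
    have cl : ∀ {a : ℤ} (C : F a), Cl C.1 μ ∧ Cl C.1 ν ∧ ∃ x ∈ C.1, μ x ≠ ν x := by
      intro a C
      obtain ⟨x, hx, e⟩ := mem_ncomp.1 (mF _ _ C.2).1
      rw [← e]
      exact ⟨cl_left x, cl_right x, x, self_mem x, hx⟩
    refine ⟨fun i => Sum.elim (fun C => C.1) (fun t => (e1 t).1 ∪ (e2 t).1) (e0 i), fun i => ?_,
      fun i j hij => ?_⟩
    · beta_reduce
      rcases e0 i with C | t
      · exact ⟨(cl C).1, (cl C).2.1, (mF _ _ C.2).2.1, (cl C).2.2, (mF _ _ C.2).2.2⟩
      · obtain ⟨x, hx, hx'⟩ := (cl (e1 t)).2.2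
        refine ⟨(cl (e1 t)).1.union (cl (e2 t)).1, (cl (e1 t)).2.1.union (cl (e2 t)).2.1,
          disjoint_union_left.2 ⟨(mF _ _ (e1 t).2).2.1, (mF _ _ (e2 t).2).2.1⟩,
          ⟨x, mem_union_left _ hx, hx'⟩, ?_⟩
        simp only [Sum.elim_inr]
        rw [dcov_eq, sum_union (dj (e1 t) (e2 t) (Or.inl (by norm_num))), ← dcov_eq, ← dcov_eq,
          (mF _ _ (e1 t).2).2.2, (mF _ _ (e2 t).2).2.2]
        norm_num
    · have hne := e0.injective.ne hij
      revert hne
      beta_reduce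
      rcases e0 i with C | t <;> rcases e0 j with D | s <;> intro hne
      · exact dj C D (Or.inr fun e => hne (congrArg _ (Subtype.ext e)))
      · exact disjoint_union_right.2
          ⟨dj C (e1 s) (Or.inl (by norm_num)), dj C (e2 s) (Or.inl (by norm_num))⟩
      · exact disjoint_union_left.2
          ⟨dj (e1 t) D (Or.inl (by norm_num)), dj (e2 t) D (Or.inl (by norm_num))⟩
      · have hts : t ≠ s := fun e => hne (congrArg _ e)
        exact disjoint_union_left.2 ⟨disjoint_union_right.2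
          ⟨dj (e1 t) (e1 s) (Or.inr fun e => e1.injective.ne hts (Subtype.ext e)),
            dj (e1 t) (e2 s) (Or.inl (by norm_num))⟩, disjoint_union_right.2
          ⟨dj (e2 t) (e1 s) (Or.inl (by norm_num)),
            dj (e2 t) (e2 s) (Or.inr fun e => e2.injective.ne hts (Subtype.ext e))⟩⟩
  omega

/-! ### Pair edges -/

variable {J V : Type} [Fintype J] [Fintype V] [DecidableEq J] [DecidableEq V]

/-- The indicator of items matched to items. -/
noncomputable def pi (m : Nd J V → Nd J V) : Nd J V → ℤ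
  | Sum.inr (Sum.inl v) => if ∃ u, u ≠ v ∧ m (vx v) = vx u then 1 else 0
  | _ => 0

/-- Signs of the nodes. -/
def sg : Nd J V → ℤ
  | Sum.inl _ => -1
  | _ => 1

theorem npe_eq (m : Nd J V → Nd J V) (X : Finset (Nd J V)) :
    (npe m X : ℤ) = ∑ z ∈ X, pi m z := by
  rw [← sum_ite_mem_eq X (pi m)]
  simp only [Fintype.sum_sum_type, pi, ite_self, sum_const_zero, zero_add, add_zero, npe,
    card_filter, Nat.cast_sum]
  refine sum_congr rfl fun v _ => ?_
  by_cases h : (Sum.inr (Sum.inl v) : Nd J V) ∈ X <;> simp [h]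

theorem edge_cases {m : Nd J V → Nd J V} (hm : ∀ x, m (m x) = x) (hs : Shape m) (z : Nd J V) :
    m z = z ∨ (∃ j v, z = ag j ∧ m z = vx v) ∨ (∃ j v, z = vx v ∧ m z = ag j) ∨
      (∃ j, z = ag j ∧ m z = dm j) ∨ (∃ j, z = dm j ∧ m z = ag j) ∨
      ∃ u v, u ≠ v ∧ z = vx u ∧ m z = vx v := by
  rcases z with j | v | j
  · rcases hs.1 j with h | ⟨v, h⟩ | h
    · exact Or.inl h
    · exact Or.inr (Or.inl ⟨j, v, rfl, h⟩)
    · exact Or.inr (Or.inr (Or.inr (Or.inl ⟨j, rfl, h⟩)))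
  · rcases h : m (Sum.inr (Sum.inl v)) with j | u | j
    · exact Or.inr (Or.inr (Or.inl ⟨j, v, rfl, rfl⟩))
    · by_cases e : v = u
      · exact Or.inl (by rw [e])
      · exact Or.inr (Or.inr (Or.inr (Or.inr (Or.inr ⟨v, u, e, rfl, rfl⟩))))
    · have h1 := hm (Sum.inr (Sum.inl v))
      rw [h] at h1
      rcases hs.2 j with h2 | h2 <;> simp [h2] at h1
  · rcases hs.2 j with h | h
    · exact Or.inl h
    · exact Or.inr (Or.inr (Or.inr (Or.inr (Or.inl ⟨j, rfl, h⟩))))

theorem sum_edge {m : Nd J V → Nd J V} (hm : ∀ x, m (m x) = x) (hs : Shape m)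
    {X : Finset (Nd J V)} (hX : Cl X m) (g : Nd J V → ℤ) (g0 : ∀ z, m z = z → g z = 0)
    (g1 : ∀ j v, m (ag j) = vx v → m (vx v) = ag j → g (ag j) + g (vx v) = 0)
    (g2 : ∀ j, m (ag j) = dm j → m (dm j) = ag j → g (ag j) + g (dm j) = 0)
    (g3 : ∀ u v, u ≠ v → m (vx u) = vx v → g (vx u) = 0) : ∑ z ∈ X, g z = 0 := by
  refine sum_involution (fun a _ => m a) (fun a _ => ?_) (fun a _ h e => h (g0 a e))
    (fun a ha => hX a ha) fun a _ => hm a
  have h1 := hm a
  rcases edge_cases hm hs a with h | ⟨j, v, rfl, h⟩ | ⟨j, v, rfl, h⟩ | ⟨j, rfl, h⟩ | ⟨j, rfl, h⟩ |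
    ⟨u, v, e, rfl, h⟩ <;> rw [h] at h1 ⊢
  · rw [g0 a h, add_zero]
  · exact g1 j v h h1
  · rw [add_comm]; exact g1 j v h1 h
  · exact g2 j h h1
  · rw [add_comm]; exact g2 j h1 h
  · rw [g3 u v e h, g3 v u e.symm h1, add_zero]

theorem pi_fix {m : Nd J V → Nd J V} {z : Nd J V} (h : m z = z) : pi m z = 0 := by
  rcases z with j | v | j
  · rfl
  · simp only [pi, h]
    simp
  · rfl

theorem npe_sg {m : Nd J V → Nd J V} (hm : ∀ x, m (m x) = x) (hs : Shape m)
    {X : Finset (Nd J V)} (hX : Cl X m) :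
    (npe m X : ℤ) = ∑ z ∈ X, sg z * if m z ≠ z then 1 else 0 := by
  rw [npe_eq, ← sub_eq_zero, ← sum_sub_distrib]
  refine sum_edge hm hs hX _ (fun z h => by simp [h, pi_fix h]) (fun j v h h' => ?_)
    (fun j h h' => ?_) fun u v e h => ?_
  · simp [pi, sg, h, h']
  · simp [pi, sg, h, h']
  · simp [pi, sg, h, e.symm]

end DComp

open DComp

theorem compStmt : CompStmt := by
  intro α _ _ μ ν hμ hν
  obtain ⟨χ, c1, c2⟩ := exists_prp hμ _ ν hν le_rfl
  exact ⟨fun x => ⟨self_mem x, cl_left x, cl_right x⟩, fun _ _ => cmp_eq hμ hν,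
    fun _ _ => cmp_sub, fun _ _ => cmp_ne hμ hν, ends_le hμ hν, ends_le' hμ hν, dcov_cases hμ hν,
    ⟨χ, fun _ _ => pot_cross hμ hν c1 c2⟩, fun _ _ => cross_facts hμ hν, fun _ _ => zero_facts,
    group_bound hμ hν⟩

theorem peStmt : PeStmt := by
  intro J V _ _ _ _
  refine ⟨fun m hm hs => ?_, fun μ ν hμ hν s1 s2 x => ?_⟩
  · have hX : Cl univ m := fun _ _ => mem_univ _
    have h1 := npe_sg hm hs hX
    have h2 := sum_edge hm hs hX (fun z => DComp.pi m z + Sum.elim
      (fun j => if ∃ v, m (ag j) = vx v then 1 else 0)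
      (Sum.elim (fun v => if m (vx v) ≠ vx v then -1 else 0) fun _ => 0) z)
      (fun z h => by rcases z with j | v | j <;> simp [h, pi_fix h])
      (fun j v h h' => by simp [DComp.pi, h, h']) (fun j h h' => by simp [DComp.pi, h])
      fun u v e h => by simp [DComp.pi, h, e.symm]
    rw [sum_add_distrib, ← npe_eq] at h2
    have h3 : (cov m : ℤ) = ∑ z, if m z ≠ z then 1 else 0 := by
      simp only [cov, card_filter, Nat.cast_sum, Nat.cast_ite, Nat.cast_one, Nat.cast_zero]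
    simp only [Fintype.sum_sum_type, sg, Sum.elim_inl, Sum.elim_inr, sum_const_zero, add_zero,
      one_mul, neg_mul, sum_neg_distrib] at h1 h2 h3
    have h4 : ∑ v, (if m (vx v) ≠ vx v then (-1 : ℤ) else 0) =
        -∑ v, if m (vx v) ≠ vx v then 1 else 0 := by
      rw [← sum_neg_distrib]
      exact sum_congr rfl fun v _ => by split_ifs <;> simp
    constructor
    · zify
      rw [h3, h1, card_filter]
      push_cast
      ring
    · zify
      rw [card_filter, card_filter]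
      push_cast
      rw [h4] at h2
      linarith
  · have h1 := npe_sg hμ s1 (cl_left (ν := ν) x)
    have h2 := npe_sg hν s2 (cl_right (μ := μ) x)
    have h3 := abs_sum_le (μ := μ) (ν := ν) (Y := cmp μ ν x) (fun z => sg z * dd μ ν z)
      (fun z => by
        have := dd_abs (μ := μ) (ν := ν) z
        rcases z with j | v | j <;> simpa [sg] using this)
      fun z h => by rw [dd_zero z h, mul_zero]
    have h4 := ends_le hμ hν x
    simp only [dd, mul_sub, sum_sub_distrib] at h3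
    rw [← h1, ← h2, abs_le] at h3
    omega

end Pool.Agent.Lib.MP_ef7581_lc.D2
end
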