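import Mathlib
import Pool.Agent.Lib.MP_ef7581_lc.DComp

-- part Pool.Agent.Lib.MP_ef7581_lc.DLevel
section

/-!
The slack theorem from its jump step, and the assembly of the characterisation.
-/

set_option autoImplicit false
set_option linter.unusedSectionVars false

namespace Pool.Agent.Lib.MP_ef7581_lc.D2

open Finset Classical

namespace DLevel

variable {J V : Type} [Fintype J] [Fintype V] [DecidableEq J] [DecidableEq V]

theorem wf_lev {P : Geo J V} {S : Sub J V} (h : P.Wf S) (R : J → Prop) : P.Wf (S.lev R) := by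
  intro j hj v
  refine ⟨fun a => ?_, fun a => Or.inl ((h j hj.1 v).2 a)⟩
  rcases a with a | a
  · exact (h j hj.1 v).1 a
  · exact (a.1 hj.2).elim

theorem serv3_mono {P : Geo J V} {S S' : Sub J V} {j : J} {s : Finset V}
    (hg : S.geo j → S'.geo j) (hl : ∀ v, S.lst j v → S'.lst j v) (h : P.Serv3 S j s) :
    P.Serv3 S' j s := by
  rcases h with (⟨v, hv, a⟩ | ⟨a, b⟩) | ⟨a, b⟩
  · exact Or.inl (Or.inl ⟨v, hv, hl v a⟩)
  · exact Or.inl (Or.inr ⟨hg a, b⟩)
  · exact Or.inr ⟨hg a, b⟩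

theorem serv3_lev {P : Geo J V} {S : Sub J V} {R R' : J → Prop} {j : J} {s : Finset V}
    (hR : R j ↔ R' j) (h : P.Serv3 (S.lev R) j s) : P.Serv3 (S.lev R') j s :=
  serv3_mono (S := S.lev R) (fun a => ⟨a.1, hR.1 a.2⟩)
    (fun _ a => a.imp id fun b => ⟨fun c => b.1 (hR.2 c), b.2⟩) h

/-- The obligatory items are used through the lists of `S`. -/
theorem qok_lev {S : Sub J V} {R : J → Prop} {sv : J → Finset V → Prop} {B : Finset J}
    {f : J → Finset V} (h : St (S.lev R) sv B f) {v : V} (hv : v ∈ S.W) (hq : S.qm v) :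
    ∃ j ∈ B, f j = {v} ∧ S.lst j v := by
  obtain ⟨j, hj, a, b⟩ := h.qok v hv hq
  refine ⟨j, hj, a, ?_⟩
  rcases b with b | b
  · exact b
  · exact (b.2 hq).elim

theorem sol3_congr {P : Geo J V} {S : Sub J V} {R R' : J → Prop} {l : ℕ}
    (hR : ∀ j ∈ S.A, R j ↔ R' j) (h : P.Sol3 (S.lev R) l) : P.Sol3 (S.lev R') l := by
  obtain ⟨f, hf, hu⟩ := h
  refine ⟨f, ⟨hf.sub, hf.inW, fun j hj => serv3_lev (hR j hj) (hf.srv j hj), hf.dis, ?_⟩, hu⟩
  intro v hv hq
  obtain ⟨j, hj, a, b⟩ := qok_lev hf hv hq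
  exact ⟨j, hj, a, Or.inl b⟩

theorem sol3_of_lev {P : Geo J V} {S : Sub J V} {R : J → Prop} {l : ℕ}
    (hR : ∀ j ∈ S.A, R j) (h : P.Sol3 (S.lev R) l) : P.Sol3 S l := by
  obtain ⟨f, hf, hu⟩ := h
  refine ⟨f, ⟨hf.sub, hf.inW, fun j hj => ?_, hf.dis, fun v hv hq => qok_lev hf hv hq⟩, hu⟩
  refine serv3_mono (S := S.lev R) (fun a => a.1) (fun v a => ?_) (hf.srv j hj)
  rcases a with a | a
  · exact a
  · exact (a.1 (hR j hj)).elim

theorem sol2_lev {P : Geo J V} {S : Sub J V} {l : ℕ} (h : P.Sol2 S l) (R : J → Prop) :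
    P.Sol2 (S.lev R) l := by
  obtain ⟨f, hf, hu⟩ := h
  refine ⟨f, ⟨hf.sub, hf.inW, fun j hj => ?_, hf.dis, fun v hv hq => ?_⟩, hu⟩
  · rcases hf.srv j hj with ⟨v, hv, a⟩ | ⟨hg, a, ha, b, hb, hab⟩
    · exact Or.inl ⟨v, hv, Or.inl a⟩
    by_cases hR : R j
    · exact Or.inr ⟨⟨hg, hR⟩, a, ha, b, hb, hab⟩
    refine Or.inl ⟨a, ha, Or.inr ⟨hR, fun hq => ?_⟩⟩
    obtain ⟨i, hi, e1, -⟩ := hf.qok a (hf.inW j hj ha) hq
    have hij : i = j := by
      by_contra hne
      exact disjoint_left.1 (hf.dis i hi j hj hne) (by rw [e1]; exact mem_singleton_self a) ha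
    subst hij
    rw [e1, mem_singleton] at hb
    exact hab.1 hb.symm
  · obtain ⟨j, hj, a, b⟩ := hf.qok v hv hq
    exact ⟨j, hj, a, Or.inl b⟩

/-- The matching given by a one-to-one relation between agents and items. -/
noncomputable def mkm (r : J → V → Prop) : Nd J V → Nd J V
  | Sum.inl j => if h : ∃ v, r j v then vx h.choose else ag j
  | Sum.inr (Sum.inl v) => if h : ∃ j, r j v then ag h.choose else vx v
  | Sum.inr (Sum.inr j) => dm j

section mkm

variable {r : J → V → Prop}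

theorem mkm_ag (h1 : ∀ j v v', r j v → r j v' → v = v') {j : J} {v : V} (h : r j v) :
    mkm r (ag j) = vx v := by
  have hx : ∃ v, r j v := ⟨v, h⟩
  simp only [mkm, dif_pos hx]
  rw [h1 j _ _ hx.choose_spec h]

theorem mkm_vx (h2 : ∀ j j' v, r j v → r j' v → j = j') {j : J} {v : V} (h : r j v) :
    mkm r (vx v) = ag j := by
  have hx : ∃ j, r j v := ⟨j, h⟩
  simp only [mkm, dif_pos hx]
  rw [h2 _ _ _ hx.choose_spec h]

theorem mkm_ag' {j : J} (h : ¬ ∃ v, r j v) : mkm r (ag j) = ag j := by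
  simp only [mkm, dif_neg h]

theorem mkm_vx' {v : V} (h : ¬ ∃ j, r j v) : mkm r (vx v) = vx v := by
  simp only [mkm, dif_neg h]

theorem mkm_dm (j : J) : mkm r (dm j) = dm j := rfl

theorem mkm_inv (h1 : ∀ j v v', r j v → r j v' → v = v')
    (h2 : ∀ j j' v, r j v → r j' v → j = j') (x : Nd J V) : mkm r (mkm r x) = x := by
  rcases x with j | v | j
  · by_cases h : ∃ v, r j v
    · obtain ⟨v, h⟩ := h
      exact (congrArg _ (mkm_ag h1 h)).trans (mkm_vx h2 h)
    · exact (congrArg _ (mkm_ag' h)).trans (mkm_ag' h)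
  · by_cases h : ∃ j, r j v
    · obtain ⟨j, h⟩ := h
      exact (congrArg _ (mkm_vx h2 h)).trans (mkm_ag h1 h)
    · exact (congrArg _ (mkm_vx' h)).trans (mkm_vx' h)
  · rfl

end mkm

/-- A solution of the bottom level passes the test. -/
theorem pass_of_sol (hP : PeStmt) {P : Geo J V} {S : Sub J V} {e l : ℕ} (hg : ∀ j, ¬ S.geo j)
    (h : P.Sol2 S l) : P.Pass S e ∅ (axC J V) l := by
  obtain ⟨f, hf, hu⟩ := h
  have hc : ∀ j, j ∈ S.A → ∃ v, v ∈ f j ∧ S.lst j v := fun j hj => by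
    rcases hf.srv j hj with a | a
    · exact a
    · exact (hg j a.1).elim
  choose c hc1 hc2 using hc
  let r : J → V → Prop := fun j v => ∃ h : j ∈ S.A, c j h = v
  have h1 : ∀ j v v', r j v → r j v' → v = v' := by
    rintro j v v' ⟨a, rfl⟩ ⟨b, rfl⟩
    rfl
  have h2 : ∀ j j' v, r j v → r j' v → j = j' := by
    rintro j j' v ⟨a, e1⟩ ⟨b, e2⟩
    by_contra hne
    exact disjoint_left.1 (hf.dis j a j' b hne) (e1 ▸ hc1 j a) (e2 ▸ hc1 j' b)
  have hE : ∀ j v, r j v → P.En S e ∅ (axC J V) (ag j) (vx v) := by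
    rintro j v ⟨a, rfl⟩
    exact ⟨a, hf.inW j a (hc1 j a), Or.inl (hc2 j a)⟩
  have hM : IsM (P.En S e ∅ (axC J V)) (mkm r) := by
    refine ⟨mkm_inv h1 h2, fun x hx => ?_⟩
    rcases x with j | v | j
    · by_cases h : ∃ v, r j v
      · obtain ⟨v, h⟩ := h
        have := mkm_ag h1 h
        rw [this]
        exact hE j v h
      · exact (hx (mkm_ag' h)).elim
    · by_cases h : ∃ j, r j v
      · obtain ⟨j, h⟩ := h
        have := mkm_vx h2 h
        rw [this]
        exact Geo.En_symm (hE j v h)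
      · exact (hx (mkm_vx' h)).elim
    · exact (hx rfl).elim
  have hA : ∀ j (hj : j ∈ S.A), mkm r (ag j) = vx (c j hj) := fun j hj => mkm_ag h1 ⟨hj, rfl⟩
  have hA' : ∀ j, j ∉ S.A → mkm r (ag j) = ag j := fun j hj =>
    mkm_ag' fun ⟨_, a, _⟩ => hj a
  refine ⟨mkm r, hM, ?_, ?_, fun j hj _ => ?_, fun v hv hq => ?_⟩
  · have a := ((hP J V).1 (mkm r) hM.1 (Geo.En_shape hM)).1
    have b : npe (mkm r) univ = 0 := by
      unfold npe
      rw [card_eq_zero, filter_eq_empty_iff]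
      rintro v - ⟨-, u, huv, hu⟩
      by_cases h : ∃ j, r j v
      · obtain ⟨j, h⟩ := h
        rw [mkm_vx h2 h] at hu
        cases hu
      · rw [mkm_vx' h] at hu
        exact huv (Sum.inl.inj (Sum.inr.inj hu)).symm
    have d : (univ.filter fun j : J => mkm r (ag j) ≠ ag j) = S.A := by
      ext j
      rw [mem_filter]
      refine ⟨fun a => by_contra fun hj => a.2 (hA' j hj), fun hj => ⟨mem_univ _, ?_⟩⟩
      rw [hA j hj]
      intro a
      cases a
    rw [a, b, d, Nat.add_zero]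
  · have a : S.A.card ≤ cw S (mkm r) := by
      refine card_le_card fun j hj => ?_
      rw [mem_filter]
      exact ⟨mem_univ _, c j hj, hA j hj, hc2 j hj⟩
    have b : S.A.card ≤ use S.A f := by
      rw [card_eq_sum_ones]
      exact sum_le_sum fun j hj => card_pos.2 ⟨_, hc1 j hj⟩
    omega
  · rw [hA j hj]
    intro a
    cases a
  · obtain ⟨j, hj, a, -⟩ := hf.qok v hv hq
    have b : c j hj = v := mem_singleton.1 (a ▸ hc1 j hj)
    rw [mkm_vx h2 (⟨hj, b⟩ : r j v)]
    intro a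
    cases a

/-- The test of the bottom level gives a solution by single items. -/
theorem sol_of_pass {P : Geo J V} {S : Sub J V} {e l : ℕ} (hg : ∀ j, ¬ S.geo j)
    (h : P.Pass S e ∅ (axC J V) l) : P.Sol3 S l := by
  obtain ⟨ν, hM, -, hw, hc1, hc2⟩ := h
  have hA : ∀ j ∈ S.A, ∃ v, ν (ag j) = vx v ∧ v ∈ S.W ∧ S.lst j v := fun j hj => by
    have b := hM.2 _ (hc1 j hj (Or.inr trivial))
    rcases hm : ν (ag j) with i | u | i <;> rw [hm] at b
    · exact b.elim
    · exact ⟨u, rfl, b.2.1, b.2.2.elim id fun a => a.1.elim⟩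
    · exact (hg j b.2.2.1).elim
  let f : J → Finset V := fun j => univ.filter fun v => ν (ag j) = vx v
  have hf : ∀ j v, ν (ag j) = vx v → f j = {v} := fun j v a => by
    ext u
    rw [mem_filter, mem_singleton, a]
    exact ⟨fun b => (Sum.inl.inj (Sum.inr.inj b.2)).symm, fun b => ⟨mem_univ _, by rw [b]⟩⟩
  refine ⟨f, ⟨Subset.refl _, fun j hj => ?_, fun j hj => ?_, fun i hi j hj hne => ?_,
    fun v hv hq => ?_⟩, ?_⟩
  · obtain ⟨v, a, b, -⟩ := hA j hj
    rw [hf j v a]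
    exact singleton_subset_iff.2 b
  · obtain ⟨v, a, -, b⟩ := hA j hj
    rw [hf j v a]
    exact Or.inl (Or.inl ⟨v, mem_singleton_self v, b⟩)
  · obtain ⟨u, a, -, -⟩ := hA i hi
    obtain ⟨v, b, -, -⟩ := hA j hj
    rw [hf i u a, hf j v b, disjoint_singleton]
    rintro rfl
    have : ag i = (ag j : Nd J V) := by rw [← hM.1 (ag i), a, ← b, hM.1]
    exact hne (Sum.inl.inj this)
  · have b := hM.2 _ (hc2 v hv hq)
    rcases hm : ν (vx v) with i | u | i <;> rw [hm] at b
    · refine ⟨i, b.1, hf i v ?_, b.2.2.elim id fun a => a.1.elim⟩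
      rw [← hM.1 (vx v), hm]
    · exact b.2.2.1.elim
    · exact b.elim
  · have a : cw S ν ≤ S.A.card := by
      refine card_le_card fun j hj => ?_
      rw [mem_filter] at hj
      obtain ⟨-, v, a, -⟩ := hj
      have b := hM.2 (ag j) (by rw [a]; intro b; cases b)
      rw [a] at b
      exact b.1
    have b : use S.A f = S.A.card := by
      rw [card_eq_sum_ones]
      refine sum_congr rfl fun j hj => ?_
      obtain ⟨v, a, -, -⟩ := hA j hj
      rw [hf j v a, card_singleton]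
    omega

/-- One agent gets back its true list. -/
theorem step {P : Geo J V} {S : Sub J V} {l : ℕ} {R R' : J → Prop} {j0 : J} (hj0 : j0 ∈ S.A)
    (h0 : ¬ R j0) (hR : ∀ j ∈ S.A, j ≠ j0 → (R j ↔ R' j))
    (hJ : ∀ f, St (S.lev R') (P.Serv3 (S.lev R')) (S.A.erase j0) f →
      use (S.A.erase j0) f + l + 1 ≤ S.W.card → P.Sol3 (S.lev R') l)
    (h : P.Sol3 (S.lev R) l) : P.Sol3 (S.lev R') l := by
  obtain ⟨f, hf, hu⟩ := h
  by_cases hv : ∃ v ∈ f j0, S.lst j0 v
  · refine ⟨f, ⟨hf.sub, hf.inW, fun j hj => ?_, hf.dis, fun v hv hq => ?_⟩, hu⟩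
    · by_cases e1 : j = j0
      · subst e1
        obtain ⟨v, a, b⟩ := hv
        exact Or.inl (Or.inl ⟨v, a, Or.inl b⟩)
      · exact serv3_lev (hR j hj e1) (hf.srv j hj)
    · obtain ⟨j, hj, a, b⟩ := qok_lev hf hv hq
      exact ⟨j, hj, a, Or.inl b⟩
  refine hJ f ⟨erase_subset _ _, fun j hj => hf.inW j (mem_of_mem_erase hj), fun j hj => ?_,
    fun i hi j hj => hf.dis i (mem_of_mem_erase hi) j (mem_of_mem_erase hj),
    fun v hw hq => ?_⟩ ?_
  · exact serv3_lev (hR j (mem_of_mem_erase hj) (ne_of_mem_erase hj))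
      (hf.srv j (mem_of_mem_erase hj))
  · obtain ⟨j, hj, a, b⟩ := qok_lev hf hw hq
    refine ⟨j, mem_erase.2 ⟨?_, hj⟩, a, Or.inl b⟩
    rintro rfl
    exact hv ⟨v, by rw [a]; exact mem_singleton_self v, b⟩
  · have a : 1 ≤ (f j0).card := by
      rcases hf.srv j0 hj0 with (⟨v, a, -⟩ | ⟨a, -⟩) | ⟨a, -⟩
      · exact card_pos.2 ⟨v, a⟩
      · exact (h0 a.2).elim
      · exact (h0 a.2).elim
    have b : use (S.A.erase j0) f + (f j0).card = use S.A f := sum_erase_add _ _ hj0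
    have d : use S.A f + l ≤ S.W.card := hu
    omega

/-- The triples of a normal state. -/
noncomputable def trip (g : J → Sv V) : Finset (J × V × V × V) :=
  univ.filter fun s => g s.1 = Sv.three s.2.1 s.2.2.1 s.2.2.2

theorem mem_trip {g : J → Sv V} {s : J × V × V × V} :
    s ∈ trip g ↔ g s.1 = Sv.three s.2.1 s.2.2.1 s.2.2.2 := by
  unfold trip
  rw [mem_filter]
  exact ⟨fun a => a.2, fun a => ⟨mem_univ _, a⟩⟩

theorem trip_inj {g : J → Sv V} {s s' : J × V × V × V} (h : s ∈ trip g) (h' : s' ∈ trip g)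
    (e1 : s.1 = s'.1) : s = s' := by
  rw [mem_trip] at h h'
  obtain ⟨j, a, z, b⟩ := s
  obtain ⟨j', a', z', b'⟩ := s'
  dsimp only at h h' e1
  subst e1
  rw [h] at h'
  cases h'
  rfl

theorem mem_ag3 {g : J → Sv V} {j : J} : j ∈ ag3 (trip g) ↔ ∃ a z b, g j = Sv.three a z b := by
  unfold ag3
  rw [mem_image]
  constructor
  · rintro ⟨s, hs, rfl⟩
    exact ⟨_, _, _, mem_trip.1 hs⟩
  · rintro ⟨a, z, b, h⟩
    exact ⟨(j, a, z, b), mem_trip.2 h, rfl⟩

theorem mem_it3 {g : J → Sv V} {v : V} :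
    v ∈ it3 (trip g) ↔ ∃ j ∈ ag3 (trip g), v ∈ (g j).its := by
  unfold it3
  rw [mem_biUnion]
  constructor
  · rintro ⟨s, hs, hv⟩
    refine ⟨s.1, mem_ag3.2 ⟨_, _, _, mem_trip.1 hs⟩, ?_⟩
    rw [mem_trip.1 hs]
    exact hv
  · rintro ⟨j, hj, hv⟩
    obtain ⟨a, z, b, h⟩ := mem_ag3.1 hj
    rw [h] at hv
    exact ⟨(j, a, z, b), mem_trip.2 h, hv⟩

theorem card_trip (g : J → Sv V) : (trip g).card = (ag3 (trip g)).card :=
  (card_image_of_injOn fun _ h _ h' e1 => trip_inj h h' e1).symm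

theorem phiOk {P : Geo J V} {g : J → Sv V}
    (h : St (P.pl univ univ) (P.Serv3 (P.pl univ univ)) univ fun j => (g j).its) :
    P.PhiOk (trip g) := by
  refine ⟨fun s hs => ?_, fun s hs s' hs' hne => ?_⟩
  · have a := h.srv s.1 (mem_univ _)
    rw [mem_trip.1 hs] at a
    exact a
  · have a : s.1 ≠ s'.1 := fun e1 => hne (trip_inj hs hs' e1)
    refine ⟨a, ?_⟩
    have b := h.dis s.1 (mem_univ _) s'.1 (mem_univ _) a
    rw [mem_trip.1 hs, mem_trip.1 hs'] at b
    exact b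

theorem nrm_pl {P : Geo J V} {A A' : Finset J} {W W' : Finset V} {j : J} {s : Sv V}
    (h : P.Nrm (P.pl A W) j s) : P.Nrm (P.pl A' W') j s := by
  cases s <;> exact h

/-- Without its triples a minimal state stays minimal. -/
theorem min2 {P : Geo J V} {g : J → Sv V} (h : P.Min3 (P.pl univ univ) univ g)
    (hs : St (P.pl univ univ) (P.Serv3 (P.pl univ univ)) univ fun j => (g j).its) :
    P.Min2 (P.pl (univ \ ag3 (trip g)) (univ \ it3 (trip g))) (univ \ ag3 (trip g)) g := by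
  obtain ⟨⟨hp, -⟩, hm⟩ := h
  refine ⟨⟨⟨Subset.refl _, fun j hj v hv => ?_, fun j _ => nrm_pl (hp.nrm j (mem_univ _)),
    fun i _ j _ => hp.dis i (mem_univ _) j (mem_univ _), fun _ _ _ _ a => a.elim⟩,
    fun _ _ a => a.elim⟩, fun j hj a z b e1 => ?_, fun f hf => ?_⟩
  · refine mem_sdiff.2 ⟨mem_univ _, fun a => ?_⟩
    obtain ⟨i, hi, b⟩ := mem_it3.1 a
    have hne : i ≠ j := fun e1 => (mem_sdiff.1 hj).2 (e1 ▸ hi)
    exact disjoint_left.1 (hp.dis i (mem_univ _) j (mem_univ _) hne) b hv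
  · exact (mem_sdiff.1 hj).2 (mem_ag3.2 ⟨a, z, b, e1⟩)
  let f' : J → Finset V := fun j => if j ∈ ag3 (trip g) then (g j).its else f j
  have f1 : ∀ j ∈ ag3 (trip g), f' j = (g j).its := fun j hj => if_pos hj
  have f2 : ∀ j, j ∉ ag3 (trip g) → f' j = f j := fun j hj => if_neg hj
  have m2 : ∀ j, j ∉ ag3 (trip g) → j ∈ univ \ ag3 (trip g) := fun j hj =>
    mem_sdiff.2 ⟨mem_univ _, hj⟩
  have dd : ∀ i ∈ ag3 (trip g), ∀ j, j ∉ ag3 (trip g) → Disjoint (g i).its (f j) :=
    fun i hi j hj => disjoint_left.2 fun v a b =>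
      (mem_sdiff.1 (hf.inW j (m2 j hj) b)).2 (mem_it3.2 ⟨i, hi, a⟩)
  have hst : St (P.pl univ univ) (P.Serv3 (P.pl univ univ)) univ f' := by
    refine ⟨Subset.refl _, fun j _ => subset_univ _, fun j _ => ?_, fun i _ j _ hne => ?_,
      fun _ _ a => a.elim⟩
    · by_cases hj : j ∈ ag3 (trip g)
      · rw [f1 j hj]
        exact hs.srv j (mem_univ _)
      · rw [f2 j hj]
        exact Or.inl (hf.srv j (m2 j hj))
    · by_cases hi : i ∈ ag3 (trip g) <;> by_cases hj : j ∈ ag3 (trip g)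
      · rw [f1 i hi, f1 j hj]
        exact hp.dis i (mem_univ _) j (mem_univ _) hne
      · rw [f1 i hi, f2 j hj]
        exact dd i hi j hj
      · rw [f2 i hi, f1 j hj]
        exact (dd j hj i hi).symm
      · rw [f2 i hi, f2 j hj]
        exact hf.dis i (m2 i hi) j (m2 j hj) hne
  have a := hm f' hst
  have sp : ∀ u : J → Finset V,
      use (univ \ ag3 (trip g)) u + use (ag3 (trip g)) u = use univ u := fun u =>
    sum_sdiff (subset_univ _)
  have b : use (ag3 (trip g)) f' = use (ag3 (trip g)) fun j => (g j).its :=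
    sum_congr rfl fun j hj => by rw [f1 j hj]
  have d : use (univ \ ag3 (trip g)) f' = use (univ \ ag3 (trip g)) f :=
    sum_congr rfl fun j hj => by rw [f2 j (mem_sdiff.1 hj).2]
  have s1 := sp f'
  have s2 := sp fun j => (g j).its
  omega

end DLevel

open DLevel in
theorem slStmt (_hN : NormStmt) (hP : PeStmt) (h1 : NecStmt) (h2 : JumpStmt) : SLStmt := by
  obtain ⟨e, c, hJ⟩ := h2
  refine ⟨e, c, ?_, ?_⟩
  · intro J V _ _ _ _ P rk S l hw hs
    exact ⟨pass_of_sol hP (fun j a => a.2) (sol2_lev hs _),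
      fun j0 _ => h1 J V P _ e l (wf_lev hw _) (sol2_lev hs _)⟩
  · intro J V _ _ _ _ P rk S l hrk hw hl ht
    have key : ∀ n, P.Sol3 (S.lev fun j => rk j < n) l := by
      intro n
      induction n with
      | zero =>
        exact sol3_congr (fun j _ => ⟨fun a => a.elim, fun a => (Nat.not_lt_zero _ a).elim⟩)
          (sol_of_pass (fun j a => a.2) ht.1)
      | succ n ih =>
        by_cases h : ∃ j0 ∈ S.A, rk j0 = n
        · obtain ⟨j0, hj0, e0⟩ := h
          refine sol3_congr (R := fun j => rk j ≤ rk j0) (fun j _ => by omega) ?_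
          refine step hj0 (by omega) (fun j _ hne => ?_) (fun f hf hu => ?_) ih
          · have : rk j ≠ rk j0 := fun a => hne (hrk a)
            omega
          · exact hJ J V P _ l j0 f (wf_lev hw _) hl hj0 hf hu (ht.2 j0 hj0)
        · refine sol3_congr (fun j hj => ?_) ih
          have : rk j ≠ n := fun a => h ⟨j, hj, a⟩
          omega
    refine sol3_of_lev (fun j hj => ?_) (key (S.A.sup rk + 1))
    exact Nat.lt_succ_of_le (le_sup (f := rk) hj)

open DLevel in
theorem mainStmt (hS : SLStmt) (hN : NormStmt) (hT : TripStmt) (hC : ClsStmt) (h1 : USoundStmt)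
    (h2 : UNecStmt) (h3 : RSoundStmt) (h4 : RNecStmt) : MainStmt := by
  obtain ⟨e, c, hn, hs⟩ := hS
  obtain ⟨cT, hT⟩ := hT
  obtain ⟨t0, hC⟩ := hC (NU c)
  obtain ⟨c1, h3⟩ := h3 e c t0 hs
  obtain ⟨L0, h2⟩ := h2 e c cT hn
  obtain ⟨L1, h4⟩ := h4 e c cT t0 c1 hn
  refine ⟨e, c, t0, c1, max L0 L1, ?_⟩
  intro J V _ _ _ _ P rk hrk
  refine ⟨fun hf => ?_, fun hc => ?_⟩
  · obtain ⟨f, hf, -⟩ := hf
    have hw := Geo.wf_pl (P := P) univ univ
    obtain ⟨-, -, n3, -, n5, -⟩ := hN J V P (P.pl univ univ) univ hw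
    obtain ⟨g, hg⟩ := n3 f hf
    have hst := n5 g hg.1
    have hcard : (trip g).card ≤ cT := by
      rw [card_trip]
      refine le_trans (card_le_card fun j hj => ?_) (hT J V P _ univ g hw hg)
      rw [mem_filter]
      exact ⟨mem_univ _, mem_ag3.1 hj⟩
    have hm := min2 hg hst
    rcases hC J V P _ _ g hm with ⟨g', ty, F, a1, a2, a3, a4⟩ | a
    · exact Or.inl (h2 _ (le_max_left _ _) J V P rk (trip g) g' ty F (phiOk hst) hcard a1 a2 a3 a4)
    · exact Or.inr (h4 _ (le_max_right _ _) J V P rk (trip g) g (phiOk hst) hcard hm.1 hm.2.1 a)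
  · rcases hc with hc | hc
    · exact h1 e c _ hs J V P rk hrk hc
    · exact h3 _ J V P rk hrk hc

end Pool.Agent.Lib.MP_ef7581_lc.D2
end

-- part Pool.Agent.Lib.MP_ef7581_lc.DCls
section

/-!
Ramsey classification of pair services.
-/

set_option autoImplicit false
set_option linter.unusedSectionVars false
set_option linter.unusedVariables false

namespace Pool.Agent.Lib.MP_ef7581_lc.D2

open Finset Classical

namespace DCls

variable {J V : Type} [Fintype J] [Fintype V] [DecidableEq J] [DecidableEq V]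

/-- A homogeneous sequence of pair services; `x r s` is the item of colour `s` of agent `j r`. -/
structure Fam (P : Geo J V) {M : ℕ} (j : Fin M → J) (x : Fin M → Bool → V)
    (U D Fl : Bool → Bool → Prop) : Prop where
  own : ∀ r s, P.col (j r) s (x r s)
  nab : ∀ r, ¬ P.HH (x r true) (x r false)
  ij : Function.Injective j
  ix : ∀ r s r' s', x r s = x r' s' → r = r' ∧ s = s'
  up : ∀ r r', r < r' → ∀ t s, P.adj (j r) t (x r' s) ↔ U t s
  dn : ∀ r r', r < r' → ∀ t s, P.adj (j r') t (x r s) ↔ D t s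
  fl : ∀ r r', r < r' → ∀ s s', P.HH (x r s) (x r' s') ↔ Fl s s'
  s1 : ∀ r r', r ≠ r' → ∀ s s', P.C (j r) (x r' s) → ¬ P.C (j r') (x r s')
  s2 : ∀ r r', r ≠ r' → ∀ s, P.C (j r) (x r' s) → ¬ P.Pr (j r') (x r true) (x r false)

variable {P : Geo J V} {M : ℕ} {j : Fin M → J} {x : Fin M → Bool → V}
  {U D Fl : Bool → Bool → Prop}

theorem Fam.rev (h : Fam P j x U D Fl) :
    Fam P (fun r => j r.rev) (fun r => x r.rev) D U (fun s s' => Fl s' s) where
  own r s := h.own _ s
  nab r := h.nab _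
  ij := h.ij.comp Fin.rev_injective
  ix r s r' s' e := ⟨Fin.rev_injective (h.ix _ _ _ _ e).1, (h.ix _ _ _ _ e).2⟩
  up r r' hr t s := h.dn _ _ (Fin.rev_lt_rev.2 hr) t s
  dn r r' hr t s := h.up _ _ (Fin.rev_lt_rev.2 hr) t s
  fl r r' hr s s' := Geo.HH_comm.trans (h.fl _ _ (Fin.rev_lt_rev.2 hr) s' s)
  s1 r r' hr := h.s1 _ _ fun e => hr (Fin.rev_injective e)
  s2 r r' hr := h.s2 _ _ fun e => hr (Fin.rev_injective e)

theorem Fam.nab' (h : Fam P j x U D Fl) (r : Fin M) (s s' : Bool) : ¬ P.HH (x r s) (x r s') := by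
  cases s <;> cases s'
  · exact Geo.HH_irrefl _
  · exact fun e => h.nab r (Geo.HH_symm e)
  · exact h.nab r
  · exact Geo.HH_irrefl _

/-- no junk labels -/
theorem Fam.noK (h : Fam P j x U D Fl) (hM : 5 ≤ M) (s : Bool) : ¬ (U false s ∧ U true s) := by
  rintro ⟨h1, h2⟩
  have jk : ∀ r r' : Fin M, r < r' → P.junk (j r) (x r' s) := fun r r' hr =>
    ⟨(h.up r r' hr _ _).2 h1, (h.up r r' hr _ _).2 h2⟩
  have n01 : (⟨0, by omega⟩ : Fin M) ≠ ⟨1, by omega⟩ := by simp
  have nj := h.ij.ne n01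
  have nx : x ⟨2, by omega⟩ s ≠ x ⟨3, by omega⟩ s := fun e => by simpa using (h.ix _ _ _ _ e).1
  have a1 := jk ⟨0, by omega⟩ ⟨2, by omega⟩ (by simp)
  have a2 := jk ⟨0, by omega⟩ ⟨3, by omega⟩ (by simp)
  have a3 := jk ⟨1, by omega⟩ ⟨2, by omega⟩ (by simp)
  have a4 := jk ⟨1, by omega⟩ ⟨3, by omega⟩ (by simp)
  exact h.s1 _ _ n01 true true (Geo.coline nj.symm nx a3 a4 a1 a2 (h.own _ true))
    (Geo.coline nj nx a1 a2 a3 a4 (h.own _ true))

/-- a free label in one direction forces equal colours in the other direction -/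
theorem Fam.ofC (h : Fam P j x U D Fl) (hM : 5 ≤ M) {s : Bool} (h1 : ¬ U false s)
    (h2 : ¬ U true s) : ∃ o, ∀ s', D o s' ∧ ¬ D (!o) s' := by
  have n01 : (⟨0, by omega⟩ : Fin M) < ⟨1, by omega⟩ := by simp
  have hc : P.C (j ⟨0, by omega⟩) (x ⟨1, by omega⟩ s) :=
    ⟨fun e => h1 ((h.up _ _ n01 _ _).1 e), fun e => h2 ((h.up _ _ n01 _ _).1 e)⟩
  have k1 := h.rev.noK hM true
  have k2 := h.rev.noK hM false
  have c1 := h.s1 _ _ n01.ne s true hc
  have c2 := h.s1 _ _ n01.ne s false hc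
  have c3 := h.s2 _ _ n01.ne s hc
  have nx : x ⟨0, by omega⟩ true ≠ x ⟨0, by omega⟩ false := fun e => by
    simpa using (h.ix _ _ _ _ e).2
  have nab := h.nab ⟨0, by omega⟩
  simp only [Geo.C, Geo.Pr, h.dn _ _ n01, Bool.exists_bool, Bool.not_true, Bool.not_false,
    Bool.forall_bool] at c1 c2 c3 ⊢
  tauto

/-- if higher members see lower ones with exchanged colours, equal colours are non-adjacent -/
theorem Fam.flss (h : Fam P j x U D Fl) (hM : 5 ≤ M) (hD : ∀ s, D (!s) s) (s : Bool) :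
    ¬ Fl s s := fun e => by
  have l01 : (⟨0, by omega⟩ : Fin M) < ⟨1, by omega⟩ := by simp
  have l02 : (⟨0, by omega⟩ : Fin M) < ⟨2, by omega⟩ := by simp
  have l12 : (⟨1, by omega⟩ : Fin M) < ⟨2, by omega⟩ := by simp
  exact (h.own ⟨2, by omega⟩ s).2 (Geo.adj_of_edge ((h.fl _ _ l01 s s).2 e)
    ((h.dn _ _ l02 _ _).2 (hD s)) ((h.dn _ _ l12 _ _).2 (hD s))
    (Geo.HH_symm ((h.fl _ _ l02 s s).2 e)) (Geo.HH_symm ((h.fl _ _ l12 s s).2 e)))

theorem mem_fitF {N : ℕ} {F : Fin N → Mb J V} {y : V} (hy : y ∈ fitF F) :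
    ∃ r, y = (F r).2.2.1 ∨ y = (F r).2.2.2 := by
  simp only [fitF, mem_union, mem_image, mem_univ, true_and] at hy
  rcases hy with ⟨r, e⟩ | ⟨r, e⟩
  · exact ⟨r, Or.inl e.symm⟩
  · exact ⟨r, Or.inr e.symm⟩

theorem Fam.disF (h : Fam P j x U D Fl) {N : ℕ} (e : Fin N → Fin M) (he : Function.Injective e)
    (o : Bool) : DisF fun r => ((j (e r), o, x (e r) o, x (e r) (!o)) : Mb J V) := by
  refine ⟨h.ij.comp he, ?_⟩
  rintro (r | r) (r' | r') q <;> simp only [Sum.elim_inl, Sum.elim_inr] at q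
  · rw [he (h.ix _ _ _ _ q).1]
  · simpa using (h.ix _ _ _ _ q).2
  · simpa using (h.ix _ _ _ _ q).2
  · rw [he (h.ix _ _ _ _ q).1]

/-- The result when the original services can be used. -/
def Out (P : Geo J V) (N : ℕ) (j : Fin M → J) (x : Fin M → Bool → V) : Prop :=
  ∃ (ty : ℕ) (F : Fin N → Mb J V), P.PFam ty F ∧
    ∀ r, ∃ r' o, F r = (j r', o, x r' o, x r' (!o))

theorem Out.rev {N : ℕ} (h : Out P N (fun r => j r.rev) (fun r => x r.rev)) : Out P N j x := by
  obtain ⟨ty, F, h1, h2⟩ := h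
  exact ⟨ty, F, h1, fun r => by
    obtain ⟨r', o, e⟩ := h2 r
    exact ⟨_, o, e⟩⟩

theorem Fam.same {N : ℕ} (h : Fam P j x U D Fl) (hM : N + 5 ≤ M) {o : Bool}
    (hU : ∀ s, U o s ∧ ¬ U (!o) s) : Out P N j x := by
  let e : Fin N → Fin M := fun r => ⟨r + 2, by omega⟩
  have he : Function.Injective e := fun r r' q => Fin.ext (by simpa [e] using q)
  have hlt : ∀ r r', r < r' → e r < e r' := fun r r' q => by simpa [e] using q
  have cU : ∀ r r', r < r' → ∀ s, P.col (j r) o (x r' s) := fun r r' q s =>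
    ⟨(h.up r r' q _ _).2 (hU s).1, fun a => (hU s).2 ((h.up r r' q _ _).1 a)⟩
  have ind : ∀ r r' s s', ¬ P.HH (x (e r) s) (x (e r') s') := by
    intro r r' s s'
    have a0 : ∀ r s, P.adj (j ⟨0, by omega⟩) o (x (e r) s) := fun r s =>
      (cU _ _ (by simp [e, Fin.lt_def]) s).1
    have a1 : ∀ r s, P.adj (j ⟨1, by omega⟩) o (x (e r) s) := fun r s =>
      (cU _ _ (by simp [e, Fin.lt_def]) s).1
    exact Geo.ind_t (fun q => by simpa using h.ij (congrArg Prod.fst q)) (a0 r true) (a1 r true)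
      (a0 r false) (a1 r false) (fun q => by simpa using (h.ix _ _ _ _ q).2) (h.nab _)
      (a0 r s) (a1 r s) (a0 r' s') (a1 r' s')
  have k1 := h.rev.noK (by omega) true
  have k2 := h.rev.noK (by omega) false
  have key : ∀ ty, ty ≠ 0 → ty < 4 → (ty = 1 → ¬ D o (!o) ∨ (¬ D false o ∧ ¬ D true o)) →
      (ty = 2 → D (!o) o ∧ ¬ D o o) →
      (ty = 3 → (D o o ∧ ¬ D (!o) o) ∧ D o (!o) ∧ ¬ D (!o) (!o)) → Out P N j x := by
    intro ty t0 t4 t1 t2 t3
    refine ⟨ty, fun r => (j (e r), o, x (e r) o, x (e r) (!o)), ⟨h.disF e he o, ?_,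
      fun r => ⟨h.own _ _, h.own _ _⟩, fun r r' q => cU _ _ (hlt r r' q) _, t4,
      fun q => absurd q t0, fun _ r r' q => cU _ _ (hlt r r' q) _, fun q r r' q' => ?_,
      fun q r r' q' => ?_, fun q r r' q' => ?_⟩, fun r => ⟨_, _, rfl⟩⟩
    · intro y hy y' hy'
      obtain ⟨r, rfl | rfl⟩ := mem_fitF hy <;> obtain ⟨r', rfl | rfl⟩ := mem_fitF hy' <;>
        exact ind _ _ _ _
    · simpa only [Geo.C, h.dn _ _ (hlt r r' q')] using t1 q
    · simpa only [Geo.cB, Geo.col, h.dn _ _ (hlt r r' q'), Bool.not_not] using t2 q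
    · simpa only [Geo.cA, Geo.col, h.dn _ _ (hlt r r' q')] using t3 q
  by_cases c2 : D (!o) o ∧ ¬ D o o
  · exact key 2 (by omega) (by omega) (by omega) (fun _ => c2) (by omega)
  by_cases c3 : (D o o ∧ ¬ D (!o) o) ∧ D o (!o) ∧ ¬ D (!o) (!o)
  · exact key 3 (by omega) (by omega) (by omega) (by omega) fun _ => c3
  refine key 1 (by omega) (by omega) (fun _ => ?_) (by omega) (by omega)
  cases o <;> simp only [Bool.not_true, Bool.not_false] at * <;> tauto

theorem Fam.zero {N : ℕ} (h : Fam P j x U D Fl) (hM : N + 5 ≤ M)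
    (hU : ∀ s, U s s ∧ ¬ U (!s) s) (hD : ∀ s, D (!s) s ∧ ¬ D s s) : Out P N j x := by
  let e : Fin N → Fin M := fun r => ⟨r, by omega⟩
  have he : Function.Injective e := fun r r' q => Fin.ext (by simpa [e] using q)
  have hlt : ∀ r r', r < r' → e r < e r' := fun r r' q => q
  have f1 := h.flss (by omega) fun s => (hD s).1
  have f2 : ∀ s, ¬ Fl s (!s) := fun s q => by
    have d : ∀ r r' : Fin M, r < r' → P.adj (j r') (!s) (x r s) := fun r r' q =>
      (h.dn _ _ q _ _).2 (hD s).1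
    have u : ∀ r r' : Fin M, r < r' → P.adj (j r) (!s) (x r' (!s)) := fun r r' q =>
      (h.up _ _ q _ _).2 (hU _).1
    refine Geo.ind_t (j := j ⟨2, by omega⟩) (j' := j ⟨3, by omega⟩)
      (a := x ⟨0, by omega⟩ s) (b := x ⟨1, by omega⟩ s)
      (fun q => by simpa using h.ij (congrArg Prod.fst q)) (d _ _ (by simp)) (d _ _ (by simp))
      (d _ _ (by simp)) (d _ _ (by simp)) (fun q => by simpa using (h.ix _ _ _ _ q).1)
      (fun q => f1 s ((h.fl _ _ (by simp) _ _).1 q)) (d ⟨0, by omega⟩ _ (by simp))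
      (d _ _ (by simp)) (u _ ⟨4, by omega⟩ (by simp)) (u _ _ (by simp))
      ((h.fl _ _ (by simp) _ _).2 q)
  have f3 : ∀ s s', ¬ Fl s s' := by
    intro s s'
    cases s <;> cases s'
    · exact f1 _
    · exact f2 false
    · exact f2 true
    · exact f1 _
  have ind : ∀ r r' s s', ¬ P.HH (x r s) (x r' s') := by
    intro r r' s s' q
    rcases lt_trichotomy r r' with a | rfl | a
    · exact f3 _ _ ((h.fl _ _ a _ _).1 q)
    · exact h.nab' _ _ _ q
    · exact f3 _ _ ((h.fl _ _ a _ _).1 (Geo.HH_symm q))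
  refine ⟨0, fun r => (j (e r), true, x (e r) true, x (e r) (!true)), ⟨h.disF e he true, ?_,
    fun r => ⟨h.own _ _, h.own _ _⟩, fun r r' q => ?_, by omega, fun _ r r' q => ?_,
    fun q => absurd rfl q, by omega, by omega, by omega⟩, fun r => ⟨_, _, rfl⟩⟩
  · intro y hy y' hy'
    obtain ⟨r, rfl | rfl⟩ := mem_fitF hy <;> obtain ⟨r', rfl | rfl⟩ := mem_fitF hy' <;>
      exact ind _ _ _ _
  · simpa only [Geo.cA, Geo.col, h.up _ _ (hlt r r' q)] using hU true
  · simpa only [Geo.cA, Geo.cB, Geo.col, h.up _ _ (hlt r r' q), h.dn _ _ (hlt r r' q)] using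
      ⟨hU false, hD true, hD false⟩

/-- the classification of homogeneous sequences -/
theorem Fam.cases {N : ℕ} (h : Fam P j x U D Fl) (hM : N + 5 ≤ M) :
    Out P N j x ∨ ((∀ s, U s s ∧ ¬ U (!s) s) ∧ ∀ s, D s s ∧ ¬ D (!s) s) ∨
      ((∀ s, U (!s) s ∧ ¬ U s s) ∧ ∀ s, D (!s) s ∧ ¬ D s s) := by
  by_cases c1 : ∃ o, ∀ s, U o s ∧ ¬ U (!o) s
  · obtain ⟨o, ho⟩ := c1
    exact Or.inl (h.same hM ho)
  by_cases c2 : ∃ o, ∀ s, D o s ∧ ¬ D (!o) s
  · obtain ⟨o, ho⟩ := c2
    exact Or.inl (h.rev.same hM ho).rev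
  have u1 : ∀ s, U false s ∨ U true s := fun s => by
    by_contra q
    push Not at q
    exact c2 (h.ofC (by omega) q.1 q.2)
  have d1 : ∀ s, D false s ∨ D true s := fun s => by
    by_contra q
    push Not at q
    exact c1 (h.rev.ofC (by omega) q.1 q.2)
  have u2 := h.noK (by omega)
  have d2 := h.rev.noK (by omega)
  have hU : (∀ s, U s s ∧ ¬ U (!s) s) ∨ ∀ s, U (!s) s ∧ ¬ U s s := by
    simp only [Bool.exists_bool, Bool.forall_bool, Bool.not_true, Bool.not_false] at c1 u1 u2 ⊢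
    tauto
  have hD : (∀ s, D s s ∧ ¬ D (!s) s) ∨ ∀ s, D (!s) s ∧ ¬ D s s := by
    simp only [Bool.exists_bool, Bool.forall_bool, Bool.not_true, Bool.not_false] at c2 d1 d2 ⊢
    tauto
  rcases hU with hU | hU <;> rcases hD with hD | hD
  · exact Or.inr (Or.inl ⟨hU, hD⟩)
  · exact Or.inl (h.zero hM hU hD)
  · exact Or.inl (h.rev.zero hM hD hU).rev
  · exact Or.inr (Or.inr ⟨hU, hD⟩)

/-- two pair services cannot be replaced by fewer than four of their items -/
theorem swap (hN : NormStmt) {A : Finset J} {W : Finset V} {g : J → Sv V}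
    (hg : P.Min2 (P.pl A W) A g) {i k : J} (hi : i ∈ A) (hk : k ∈ A) (hik : i ≠ k) {a b a' b' : V}
    (ei : g i = Sv.two a b) (ek : g k = Sv.two a' b') {f1 f2 : Finset V}
    (h1 : P.Serv2 (P.pl A W) i f1) (h2 : P.Serv2 (P.pl A W) k f2) (s1 : f1 ⊆ {a', b'})
    (s2 : f2 ⊆ {a, b}) : 4 ≤ f1.card + f2.card := by
  obtain ⟨-, -, -, -, -, n6, n7, -⟩ := hN J V P (P.pl A W) A (Geo.wf_pl A W)
  have ni := hg.1.1.nrm i hi
  have nk := hg.1.1.nrm k hk
  have dj := hg.1.1.dis i hi k hk hik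
  rw [ei] at ni dj
  rw [ek] at nk dj
  obtain ⟨t1, t2⟩ := n7 _ _ {i, k} (fun j => if j = i then f1 else f2) (n6 g hg.1 hg.2.1)
    (by intro j hj; simp only [mem_insert, mem_singleton] at hj; rcases hj with rfl | rfl <;>
          assumption)
    (by
      intro j hj
      simp only [mem_insert, mem_singleton] at hj
      rcases hj with rfl | rfl
      · simp only [if_true, biUnion_insert, singleton_biUnion, ek]
        exact ⟨h1, s1.trans subset_union_right⟩
      · simp only [if_neg hik.symm, biUnion_insert, singleton_biUnion, ei]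
        exact ⟨h2, s2.trans subset_union_left⟩)
    (by
      intro j hj j' hj' hne
      simp only [mem_insert, mem_singleton] at hj hj'
      rcases hj with rfl | rfl <;> rcases hj' with rfl | rfl
      · exact absurd rfl hne
      · simp only [if_true, if_neg hik.symm]
        exact (dj.mono s2 s1).symm
      · simp only [if_true, if_neg hik.symm]
        exact dj.mono s2 s1
      · exact absurd rfl hne)
    (fun _ _ q => q)
  have t3 := hg.2.2 _ t1
  have c1 : ({a, b} : Finset V).card = 2 := card_pair (Geo.col_ne ni.2.1 ni.2.2.1)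
  have c2 : ({a', b'} : Finset V).card = 2 := card_pair (Geo.col_ne nk.2.1 nk.2.2.1)
  simp only [use, sum_pair hik, if_true, if_neg hik.symm, ei, ek, Sv.its, c1, c2] at t2 t3
  omega

theorem mem_pair (y : Bool → V) (s : Bool) : y s ∈ ({y true, y false} : Finset V) := by
  cases s <;> simp

/-- re-pairing couples when both directions exchange the colours -/
theorem repair (hN : NormStmt) {A : Finset J} {W : Finset V} {g : J → Sv V}
    (hg : P.Min2 (P.pl A W) A g) {N : ℕ} (h : Fam P j x U D Fl) (hM : 2 * N + 5 ≤ M)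
    (hA : ∀ r, j r ∈ A ∧ g (j r) = Sv.two (x r true) (x r false))
    (hU : ∀ s, U (!s) s ∧ ¬ U s s) (hD : ∀ s, D (!s) s ∧ ¬ D s s) :
    ∃ (g' : J → Sv V) (ty : ℕ) (F : Fin N → Mb J V), P.NSt (P.pl A W) A g' ∧ NoTri A g' ∧
      P.PFam ty F ∧ ∀ r, (F r).1 ∈ A ∧ (g' (F r).1).its = {(F r).2.2.1, (F r).2.2.2} := by
  obtain ⟨-, n2, -, -, -, n6, n7, -⟩ := hN J V P (P.pl A W) A (Geo.wf_pl A W)
  let c : Fin N → Bool → Fin M := fun i s => ⟨2 * i + (if s then 0 else 1), by split_ifs <;> omega⟩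
  have hc : ∀ i s i' s', c i s = c i' s' → i = i' ∧ s = s' := by
    intro i s i' s' q
    have q' := congrArg Fin.val q
    cases s <;> cases s' <;> simp [c] at q' ⊢ <;> omega
  have hc1 : ∀ i, c i true < c i false := fun i => by simp [c]
  have hc2 : ∀ i i' s s', i < i' → c i s < c i' s' := fun i i' s s' q => by
    have q' : (i : ℕ) < i' := q
    cases s <;> cases s' <;> simp [c] <;> omega
  have f1 := h.flss (by omega) fun s => (hD s).1
  have ind : ∀ r r' s, ¬ P.HH (x r s) (x r' s) := by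
    intro r r' s q
    rcases lt_trichotomy r r' with a | rfl | a
    · exact f1 _ ((h.fl _ _ a _ _).1 q)
    · exact Geo.HH_irrefl _ q
    · exact f1 _ ((h.fl _ _ a _ _).1 (Geo.HH_symm q))
  have oth : ∀ r r', r ≠ r' → ∀ s, P.col (j r) (!s) (x r' s) := by
    intro r r' q s
    rcases lt_or_gt_of_ne q with a | a
    · simpa only [Geo.col, h.up _ _ a, Bool.not_not] using hU s
    · simpa only [Geo.col, h.dn _ _ a, Bool.not_not] using hD s
  let jj : Fin N × Bool → J := fun p => j (c p.1 p.2)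
  have hjj : Function.Injective jj := fun p q e => Prod.ext (hc _ _ _ _ (h.ij e)).1
    (hc _ _ _ _ (h.ij e)).2
  let f' : J → Finset V := fun i => (univ.filter fun p => jj p = i).biUnion fun p =>
    {x (c p.1 true) p.2, x (c p.1 false) p.2}
  have hf' : ∀ p, f' (jj p) = {x (c p.1 true) p.2, x (c p.1 false) p.2} := fun p => by
    have : (univ.filter fun q => jj q = jj p) = {p} := by
      ext q; simp [hjj.eq_iff]
    simp only [f', this, singleton_biUnion]
  have hPr : ∀ p : Fin N × Bool, P.Pr (jj p) (x (c p.1 true) p.2) (x (c p.1 false) p.2) := by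
    rintro ⟨i, _ | _⟩
    · exact Geo.Pr_of_col (oth _ _ (hc1 i).ne' false) (h.own _ false) (ind _ _ _)
    · exact Geo.Pr_of_col (h.own _ true) (oth _ _ (hc1 i).ne true) (ind _ _ _)
  obtain ⟨t1, -⟩ := n7 _ _ (univ.image jj) f' (n6 g hg.1 hg.2.1)
    (by intro i hi; obtain ⟨p, -, rfl⟩ := mem_image.1 hi; exact (hA _).1)
    (by
      intro i hi
      obtain ⟨p, -, rfl⟩ := mem_image.1 hi
      rw [hf']
      refine ⟨Or.inr ⟨trivial, _, by simp, _, by simp, hPr p⟩, fun y hy => ?_⟩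
      have : ∃ t, y = x (c p.1 t) p.2 := by
        simp only [mem_insert, mem_singleton] at hy
        rcases hy with rfl | rfl <;> exact ⟨_, rfl⟩
      obtain ⟨t, rfl⟩ := this
      refine mem_biUnion.2 ⟨jj (p.1, t), mem_image_of_mem _ (mem_univ _), ?_⟩
      simp only [jj, (hA _).2, Sv.its]
      exact mem_pair _ _)
    (by
      intro i hi i' hi' hne
      obtain ⟨p, -, rfl⟩ := mem_image.1 hi
      obtain ⟨p', -, rfl⟩ := mem_image.1 hi'
      rw [hf', hf', disjoint_left]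
      intro y hy hy'
      simp only [mem_insert, mem_singleton] at hy hy'
      refine hne (congrArg jj ?_)
      rcases hy with rfl | rfl <;> rcases hy' with q | q <;>
        exact Prod.ext (hc _ _ _ _ (h.ix _ _ _ _ q).1).1 (h.ix _ _ _ _ q).2)
    (fun _ _ q => q)
  obtain ⟨g', g1, g2, g3⟩ := n2 _ t1
  refine ⟨g', 3, fun r => (j (c r true), false, x (c r false) true, x (c r true) true), g1, g2,
    ⟨⟨fun r r' q => (hc _ _ _ _ (h.ij q)).1, ?_⟩, ?_,
      fun r => ⟨oth _ _ (hc1 r).ne true, h.own _ true⟩,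
      fun r r' q => oth _ _ (hc2 _ _ _ _ q).ne true, by omega, by omega,
      fun _ r r' q => oth _ _ (hc2 _ _ _ _ q).ne true, by omega, by omega,
      fun _ r r' q => ⟨oth _ _ (hc2 _ _ _ _ q).ne' true, oth _ _ (hc2 _ _ _ _ q).ne' true⟩⟩,
    fun r => ⟨(hA _).1, ?_⟩⟩
  · rintro (r | r) (r' | r') q <;> simp only [Sum.elim_inl, Sum.elim_inr] at q
    · rw [(hc _ _ _ _ (h.ix _ _ _ _ q).1).1]
    · simpa using (hc _ _ _ _ (h.ix _ _ _ _ q).1).2
    · simpa using (hc _ _ _ _ (h.ix _ _ _ _ q).1).2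
    · rw [(hc _ _ _ _ (h.ix _ _ _ _ q).1).1]
  · intro y hy y' hy'
    obtain ⟨r, rfl | rfl⟩ := mem_fitF hy <;> obtain ⟨r', rfl | rfl⟩ := mem_fitF hy' <;>
      exact ind _ _ _
  · have a1 := g3 _ (hA (c r true)).1
    have a2 := g1.1.nrm _ (hA (c r true)).1
    have a3 := g2 _ (hA (c r true)).1
    have a4 : j (c r true) = jj (r, true) := rfl
    rw [if_pos (a4 ▸ mem_image_of_mem _ (mem_univ _)), a4, hf', ← a4] at a1
    have o1 := h.own (c r true) true
    have o2 := oth _ _ (hc1 r).ne true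
    dsimp only at a1 ⊢
    rw [pair_comm]
    rcases hgj : g' (j (c r true)) with _ | y | ⟨y, y'⟩ | ⟨y, z, y'⟩ <;> rw [hgj] at a1 a2
    · exact a2.elim
    · have := a1 (mem_singleton_self y)
      simp only [mem_insert, mem_singleton] at this
      rcases this with rfl | rfl
      · exact absurd a2 (Geo.col_not_C o1)
      · exact absurd a2 (Geo.col_not_C o2)
    · refine eq_of_subset_of_card_le a1 (card_le_two.trans ?_)
      exact (card_pair (Geo.col_ne a2.2.1 a2.2.2.1)).ge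
    · exact absurd hgj (a3 _ _ _)

end DCls

open DCls in
theorem clsStmt (hR : RamseyStmt) (hN : NormStmt) : ClsStmt := by
  intro N
  obtain ⟨t0, ht0⟩ := hR.1 ((Bool → Bool → Prop) × (Bool → Bool → Prop) × (Bool → Bool → Prop))
    (2 * N + 5)
  refine ⟨t0, fun J V _ _ _ _ P A W g hg => ?_⟩
  refine or_iff_not_imp_right.2 fun hT => ?_
  push Not at hT
  obtain ⟨T, hTA, hc, hT⟩ := hT
  obtain ⟨en⟩ : Nonempty (Fin t0 ↪ T) := Function.Embedding.nonempty_of_card_le (by simpa using hc)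
  have hex : ∀ r : Fin t0, ∃ y : Bool → V, g (en r) = Sv.two (y true) (y false) := fun r => by
    obtain ⟨a, b, e⟩ := (mem_filter.1 (hTA (en r).2)).2
    exact ⟨fun s => if s then a else b, e⟩
  choose y hy using hex
  have hA : ∀ r, (en r : J) ∈ A := fun r => (mem_filter.1 (hTA (en r).2)).1
  have hinj : Function.Injective fun r => (en r : J) := fun r r' q => en.injective (Subtype.ext q)
  obtain ⟨e, he, hom⟩ := ht0 fun r r' => (fun t s => P.adj (en r) t (y r' s),
    fun t s => P.adj (en r') t (y r s), fun s s' => P.HH (y r s) (y r' s'))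
  have l01 : (⟨0, by omega⟩ : Fin (2 * N + 5)) < ⟨1, by omega⟩ := by simp
  have nrm : ∀ r, P.col (en r) true (y r true) ∧ P.col (en r) false (y r false) ∧
      ¬ P.HH (y r true) (y r false) := fun r => by
    have := hg.1.1.nrm _ (hA r)
    rw [hy] at this
    exact this.2
  have own : ∀ r s, P.col (en r) s (y r s) := fun r s => by
    cases s
    · exact (nrm r).2.1
    · exact (nrm r).1
  have sw := fun r r' (q : r ≠ r') f1 f2 => swap hN hg (hA (e r)) (hA (e r'))
    (hinj.ne (he.injective.ne q)) (hy _) (hy _) (f1 := f1) (f2 := f2)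
  have fam : Fam P (fun r => (en (e r) : J)) (fun r => y (e r))
      (fun t s => P.adj (en (e ⟨0, by omega⟩)) t (y (e ⟨1, by omega⟩) s))
      (fun t s => P.adj (en (e ⟨1, by omega⟩)) t (y (e ⟨0, by omega⟩) s))
      (fun s s' => P.HH (y (e ⟨0, by omega⟩) s) (y (e ⟨1, by omega⟩) s')) := by
    refine ⟨fun r s => own _ s, fun r => (nrm _).2.2, hinj.comp he.injective,
      fun r s r' s' q => ?_, fun r r' q t s => ?_, fun r r' q t s => ?_, fun r r' q s s' => ?_,
      fun r r' q s s' c1 c2 => ?_, fun r r' q s c1 c2 => ?_⟩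
    · have q1 : r = r' := by
        by_contra hne
        have dj := hg.1.1.dis _ (hA (e r)) _ (hA (e r')) (hinj.ne (he.injective.ne hne))
        rw [hy, hy] at dj
        exact disjoint_left.1 dj (mem_pair _ s) (q ▸ mem_pair _ s')
      subst q1
      refine ⟨rfl, ?_⟩
      by_contra hne
      have : s' = !s := by cases s <;> cases s' <;> simp_all
      exact Geo.col_ne (own _ s) (this ▸ own _ s') q
    · exact iff_of_eq (congrFun (congrFun (congrArg Prod.fst (hom r r' _ _ q l01)) t) s)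
    · exact iff_of_eq (congrFun (congrFun (congrArg (fun p => p.2.1) (hom r r' _ _ q l01)) t) s)
    · exact iff_of_eq (congrFun (congrFun (congrArg (fun p => p.2.2) (hom r r' _ _ q l01)) s) s')
    · have := sw r r' q {y (e r') s} {y (e r) s'} (Or.inl ⟨_, mem_singleton_self _, c1⟩)
        (Or.inl ⟨_, mem_singleton_self _, c2⟩) (singleton_subset_iff.2 (mem_pair _ _))
        (singleton_subset_iff.2 (mem_pair _ _))
      simp at this
    · have := sw r r' q {y (e r') s} {y (e r) true, y (e r) false}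
        (Or.inl ⟨_, mem_singleton_self _, c1⟩) (Or.inr ⟨trivial, _, by simp, _, by simp, c2⟩)
        (singleton_subset_iff.2 (mem_pair _ _)) Subset.rfl
      have h2 : ({y (e r) true, y (e r) false} : Finset V).card ≤ 2 := card_le_two
      rw [card_singleton] at this
      omega
  rcases fam.cases (N := N) (by omega) with ⟨ty, F, h1, h2⟩ | ⟨hU, hD⟩ | ⟨hU, hD⟩
  · refine ⟨g, ty, F, hg.1, hg.2.1, h1, fun r => ?_⟩
    obtain ⟨r', o, q⟩ := h2 r
    rw [q]
    refine ⟨hA _, ?_⟩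
    dsimp only
    rw [hy]
    cases o
    · exact pair_comm _ _
    · rfl
  · exact absurd ⟨_, _, _, _, hy _, hy _, hU true, hU false, hD true, hD false⟩
      (hT _ (en _).2 _ (en _).2 (fam.ij.ne l01.ne))
  · exact repair hN hg fam le_rfl (fun r => ⟨hA _, hy _⟩) hU hD

end Pool.Agent.Lib.MP_ef7581_lc.D2
end
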