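import Mathlib
import Pool.Agent.Lib.MP_ef7581_lc.DStmts

/-!
Pure finite combinatorics: Ramsey, extraction of clique systems, selection, Hall with deficiency.
-/

set_option autoImplicit false

namespace Pool.Agent.Lib.MP_ef7581_lc.D2.DComb

open Finset

/-- Finite hypergraph Ramsey theorem. -/
theorem ramsey (κ : Type) [Finite κ] (k : ℕ) : ∀ m : ℕ, ∃ N : ℕ,
    ∀ (α : Type) [DecidableEq α] (X : Finset α) (χ : Finset α → κ), N ≤ X.card →
      ∃ Y ⊆ X, m ≤ Y.card ∧ ∀ A ⊆ Y, ∀ B ⊆ Y, A.card = k → B.card = k → χ A = χ B := by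
  induction k with
  | zero =>
    intro m
    refine ⟨m, fun α _ X χ h => ⟨X, Subset.refl _, h, ?_⟩⟩
    intro A _ B _ hA hB
    rw [card_eq_zero.mp hA, card_eq_zero.mp hB]
  | succ k ih =>
    have aux : ∀ t : ℕ, ∃ N : ℕ,
        ∀ (α : Type) [DecidableEq α] (X : Finset α) (χ : Finset α → κ), N ≤ X.card →
          ∃ T ⊆ X, T.card = t ∧ ∃ γ : α → Option κ, (∀ x ∈ T, γ x ≠ none) ∧
            ∀ A ⊆ T, A.card = k + 1 → ∃ x ∈ A, γ x = some (χ A) := by
      intro t
      induction t with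
      | zero =>
        refine ⟨0, fun α _ X χ _ => ⟨∅, empty_subset _, rfl, fun _ => none, by simp, ?_⟩⟩
        intro A hA hc
        rw [subset_empty.mp hA] at hc
        simp at hc
      | succ t iht =>
        obtain ⟨Nt, hNt⟩ := iht
        obtain ⟨R, hR⟩ := ih (max Nt k)
        refine ⟨R + 1, fun α _ X χ hX => ?_⟩
        obtain ⟨x, hx⟩ : X.Nonempty := card_pos.mp (by omega)
        obtain ⟨Y, hYX, hYc, hY⟩ := hR α (X.erase x) (fun A => χ (insert x A))
          (by rw [card_erase_of_mem hx]; omega)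
        obtain ⟨T, hTY, hTc, γ, hγ0, hγ⟩ := hNt α Y χ (le_trans (le_max_left _ _) hYc)
        obtain ⟨A0, hA0Y, hA0c⟩ := exists_subset_card_eq (le_trans (le_max_right Nt k) hYc)
        have hxT : x ∉ T := fun h => by simpa using hYX (hTY h)
        refine ⟨insert x T, ?_, by rw [card_insert_of_notMem hxT, hTc],
          Function.update γ x (some (χ (insert x A0))), ?_, ?_⟩
        · intro y hy
          rcases mem_insert.mp hy with rfl | hy
          · exact hx
          · exact mem_of_mem_erase (hYX (hTY hy))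
        · intro y hy
          by_cases hyx : y = x
          · subst hyx; simp
          · rw [Function.update_of_ne hyx]
            rcases mem_insert.mp hy with h | h
            · exact absurd h hyx
            · exact hγ0 y h
        · intro A hA hAc
          by_cases hxA : x ∈ A
          · refine ⟨x, hxA, ?_⟩
            have h1 : A.erase x ⊆ Y := by
              intro y hy
              rcases mem_insert.mp (hA (mem_of_mem_erase hy)) with h | h
              · exact absurd h (ne_of_mem_erase hy)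
              · exact hTY h
            have h2 : (A.erase x).card = k := by rw [card_erase_of_mem hxA]; omega
            have h3 := hY A0 hA0Y (A.erase x) h1 hA0c h2
            simp only [insert_erase hxA] at h3
            simp [h3]
          · have h1 : A ⊆ T := by
              intro y hy
              rcases mem_insert.mp (hA hy) with h | h
              · exact absurd (h ▸ hy) hxA
              · exact h
            obtain ⟨y, hy, hy2⟩ := hγ A h1 hAc
            refine ⟨y, hy, ?_⟩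
            have : y ≠ x := fun h => hxA (h ▸ hy)
            rw [Function.update_of_ne this, hy2]
    intro m
    classical
    have : Fintype κ := Fintype.ofFinite κ
    obtain ⟨N, hN⟩ := aux (Fintype.card (Option κ) * m)
    refine ⟨N, fun α _ X χ hX => ?_⟩
    obtain ⟨T, hTX, hTc, γ, _, hγ⟩ := hN α X χ hX
    obtain ⟨b, _, hb⟩ := exists_le_card_fiber_of_mul_le_card_of_maps_to
      (s := T) (t := (univ : Finset (Option κ))) (f := γ) (n := m)
      (fun a _ => mem_univ _) univ_nonempty (by rw [hTc, card_univ])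
    refine ⟨T.filter (fun x => γ x = b), (filter_subset _ _).trans hTX, hb, ?_⟩
    intro A hA B hB hAc hBc
    obtain ⟨x, hx, hx2⟩ := hγ A (hA.trans (filter_subset _ _)) hAc
    obtain ⟨y, hy, hy2⟩ := hγ B (hB.trans (filter_subset _ _)) hBc
    have h1 := (mem_filter.mp (hA hx)).2
    have h2 := (mem_filter.mp (hB hy)).2
    have : some (χ A) = some (χ B) := by rw [← hx2, ← hy2, h1, h2]
    exact Option.some.inj this

theorem ramsey_sm (κ : Type) [Finite κ] (k m : ℕ) : ∃ N : ℕ, ∀ χ : (Fin k → Fin N) → κ,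
    ∃ e : Fin m → Fin N, StrictMono e ∧ ∀ s s' : Fin k → Fin m, StrictMono s → StrictMono s' →
      χ (e ∘ s) = χ (e ∘ s') := by
  classical
  obtain ⟨N, hN⟩ := ramsey (Option κ) k m
  refine ⟨N, fun χ => ?_⟩
  obtain ⟨Y, -, hY, h⟩ := hN (Fin N) univ
    (fun A => if hA : A.card = k then some (χ (A.orderEmbOfFin hA)) else none) (by simp)
  obtain ⟨Y', hY', hc⟩ := exists_subset_card_eq hY
  refine ⟨Y'.orderEmbOfFin hc, (Y'.orderEmbOfFin hc).strictMono, ?_⟩
  have key : ∀ s : Fin k → Fin m, StrictMono s → ∃ A ⊆ Y, ∃ hA : A.card = k,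
      (Y'.orderEmbOfFin hc) ∘ s = A.orderEmbOfFin hA := by
    intro s hs
    have hm : StrictMono ((Y'.orderEmbOfFin hc) ∘ s) := (Y'.orderEmbOfFin hc).strictMono.comp hs
    refine ⟨univ.image ((Y'.orderEmbOfFin hc) ∘ s), ?_, ?_, ?_⟩
    · intro x hx
      obtain ⟨i, -, rfl⟩ := mem_image.1 hx
      exact hY' (orderEmbOfFin_mem _ _ _)
    · rw [card_image_of_injective _ hm.injective]; simp
    · exact orderEmbOfFin_unique _ (fun x => mem_image_of_mem _ (mem_univ x)) hm
  intro s s' hs hs'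
  obtain ⟨A, hA, hAc, e⟩ := key s hs
  obtain ⟨A', hA', hAc', e'⟩ := key s' hs'
  have := h A hA A' hA' hAc hAc'
  simp only [dif_pos hAc, dif_pos hAc', Option.some.injEq] at this
  rw [e, e', this]

open Classical in
theorem ramsey_graph (a b : ℕ) : ∃ N : ℕ, ∀ (α : Type) (s : Finset α) (R : α → α → Prop),
    (∀ x y, R x y → R y x) → N ≤ s.card →
    (∃ T ⊆ s, T.card = a ∧ ∀ x ∈ T, ∀ y ∈ T, x ≠ y → R x y) ∨
      ∃ T ⊆ s, T.card = b ∧ ∀ x ∈ T, ∀ y ∈ T, x ≠ y → ¬ R x y := by
  obtain ⟨N, hN⟩ := ramsey Prop 2 (max a b)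
  refine ⟨N, fun α s R hR hs => ?_⟩
  obtain ⟨Y, hYs, hYc, hY⟩ := hN α s (fun A => ∀ x ∈ A, ∀ y ∈ A, x ≠ y → R x y) hs
  have pair : ∀ x y, x ≠ y → (R x y ↔ ∀ u ∈ ({x, y} : Finset α), ∀ v ∈ ({x, y} : Finset α),
      u ≠ v → R u v) := by
    intro x y hxy
    constructor
    · intro h u hu v hv huv
      simp only [mem_insert, mem_singleton] at hu hv
      rcases hu with rfl | rfl <;> rcases hv with rfl | rfl
      · exact absurd rfl huv
      · exact h
      · exact hR _ _ h
      · exact absurd rfl huv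
    · intro h
      exact h x (by simp) y (by simp) hxy
  have sub : ∀ x ∈ Y, ∀ y ∈ Y, ({x, y} : Finset α) ⊆ Y := by
    intro x hx y hy u hu
    simp only [mem_insert, mem_singleton] at hu
    rcases hu with rfl | rfl <;> assumption
  by_cases h : ∃ x ∈ Y, ∃ y ∈ Y, x ≠ y ∧ R x y
  · obtain ⟨x, hx, y, hy, hxy, hr⟩ := h
    obtain ⟨T, hT, hTc⟩ := exists_subset_card_eq (le_trans (le_max_left a b) hYc)
    refine Or.inl ⟨T, hT.trans hYs, hTc, fun u hu v hv huv => ?_⟩
    have := hY {x, y} (sub x hx y hy) {u, v} (sub u (hT hu) v (hT hv)) (card_pair hxy)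
      (card_pair huv)
    rw [pair u v huv, ← this, ← pair x y hxy]
    exact hr
  · obtain ⟨T, hT, hTc⟩ := exists_subset_card_eq (le_trans (le_max_right a b) hYc)
    exact Or.inr ⟨T, hT.trans hYs, hTc, fun u hu v hv huv hr =>
      h ⟨u, hT hu, v, hT hv, huv, hr⟩⟩

theorem ramsey_pair (κ : Type) [Finite κ] (m : ℕ) : ∃ N : ℕ, ∀ c : Fin N → Fin N → κ,
    ∃ e : Fin m → Fin N, StrictMono e ∧
      ∀ i j i' j', i < j → i' < j' → c (e i) (e j) = c (e i') (e j') := by
  obtain ⟨N, hN⟩ := ramsey_sm κ 2 m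
  refine ⟨N, fun c => ?_⟩
  obtain ⟨e, he, h⟩ := hN (fun f => c (f 0) (f 1))
  refine ⟨e, he, fun i j i' j' hij hij' => ?_⟩
  have key : ∀ u v : Fin m, u < v → StrictMono (![u, v] : Fin 2 → Fin m) := by
    intro u v huv
    rw [Fin.strictMono_iff_lt_succ]
    intro k
    fin_cases k
    simpa using huv
  simpa using h ![i, j] ![i', j'] (key i j hij) (key i' j' hij')

/-- A system of `t` cliques of size `n` inside `s` without edges between different cliques. -/
def Sys {α : Type} (s : Finset α) (R : α → α → Prop) (t n : ℕ) (G : ℕ → Finset α) : Prop :=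
  (∀ τ, τ < t → G τ ⊆ s ∧ (G τ).card = n ∧ ∀ x ∈ G τ, ∀ y ∈ G τ, x ≠ y → R x y) ∧
  ∀ τ, τ < t → ∀ τ', τ' < t → τ ≠ τ' → ∀ x ∈ G τ, ∀ y ∈ G τ', x ≠ y ∧ ¬ R x y

open Classical in
theorem sys_top {α : Type} (s : Finset α) (R : α → α → Prop) (t0 : ℕ)
    (h : ∀ T ⊆ s, t0 ≤ T.card → ∃ x ∈ T, ∃ y ∈ T, x ≠ y ∧ R x y) (G : ℕ → Finset α) :
    ¬ Sys s R t0 1 G := by
  rintro ⟨h1, h2⟩
  have : ∀ τ : Fin t0, ∃ x, x ∈ G τ := fun τ =>
    card_pos.mp (by rw [(h1 τ τ.2).2.1]; exact one_pos)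
  choose f hf using this
  have hinj : Function.Injective f := by
    intro τ τ' e
    by_contra hne
    exact (h2 τ τ.2 τ' τ'.2 (fun h => hne (Fin.ext h)) _ (hf τ) _ (hf τ')).1 e
  obtain ⟨x, hx, y, hy, hxy, hr⟩ := h (univ.image f) (by
    intro x hx
    obtain ⟨τ, -, rfl⟩ := mem_image.1 hx
    exact (h1 τ τ.2).1 (hf τ)) (by rw [card_image_of_injective _ hinj]; simp)
  obtain ⟨τ, -, rfl⟩ := mem_image.1 hx
  obtain ⟨τ', -, rfl⟩ := mem_image.1 hy
  have hne : (τ : ℕ) ≠ τ' := fun e => hxy (by rw [Fin.ext e])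
  exact (h2 τ τ.2 τ' τ'.2 hne _ (hf τ) _ (hf τ')).2 hr

open Classical in
theorem sys_step {α : Type} (s : Finset α) (R : α → α → Prop) (hR : ∀ x y, R x y → R y x)
    (t n h N : ℕ) (G : ℕ → Finset α) (hG : Sys s R t n G)
    (hN : ∀ P ⊆ s, N ≤ P.card → ∃ T ⊆ P, T.card = h ∧ ∀ x ∈ T, ∀ y ∈ T, x ≠ y → R x y)
    (Bad : Finset α) (hBs : Bad ⊆ s) (hB1 : ∀ x ∈ Bad, ∀ τ, τ < t → x ∉ G τ)
    (hB2 : ∀ x ∈ Bad, ∀ τ, τ < t → h ≤ ((G τ).filter fun y => ¬ R x y).card)
    (hBc : 2 ^ (t * n) * N < Bad.card) : ∃ G', Sys s R (t + 1) h G' := by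
  set U : Finset α := (range t).biUnion G with hU
  have hUc : U.card ≤ t * n := by
    refine card_biUnion_le.trans ?_
    rw [sum_congr rfl (fun τ hτ => (hG.1 τ (mem_range.1 hτ)).2.1)]
    simp
  obtain ⟨p, -, hp⟩ := exists_lt_card_fiber_of_mul_lt_card_of_maps_to (s := Bad)
    (t := U.powerset) (f := fun x => U.filter fun y => ¬ R x y) (n := N)
    (fun a _ => mem_powerset.2 (filter_subset _ _)) (by
      rw [card_powerset]
      exact lt_of_le_of_lt (Nat.mul_le_mul_right _ (Nat.pow_le_pow_right (by norm_num) hUc)) hBc)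
  obtain ⟨T, hTP, hTc, hT⟩ := hN _ ((filter_subset _ _).trans hBs) hp.le
  obtain ⟨x0, hx0⟩ := card_pos.mp (lt_of_le_of_lt (Nat.zero_le _) hp)
  have hx0B := (mem_filter.1 hx0).1
  have hx0p := (mem_filter.1 hx0).2
  have : ∀ τ, ∃ C : Finset α, τ < t → C ⊆ (G τ).filter (fun y => ¬ R x0 y) ∧ C.card = h := by
    intro τ
    by_cases hτ : τ < t
    · obtain ⟨C, h1, h2⟩ := exists_subset_card_eq (hB2 x0 hx0B τ hτ)
      exact ⟨C, fun _ => ⟨h1, h2⟩⟩
    · exact ⟨∅, fun h => absurd h hτ⟩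
  choose C hC using this
  have hCG : ∀ τ, τ < t → C τ ⊆ G τ := fun τ hτ => (hC τ hτ).1.trans (filter_subset _ _)
  have cross : ∀ τ, τ < t → ∀ x ∈ T, ∀ y ∈ C τ, x ≠ y ∧ ¬ R x y := by
    intro τ hτ x hx y hy
    have hxB := (mem_filter.1 (hTP hx)).1
    have hxp := (mem_filter.1 (hTP hx)).2
    refine ⟨fun e => hB1 x hxB τ hτ (e ▸ hCG τ hτ hy), ?_⟩
    have hyU : y ∈ U := mem_biUnion.2 ⟨τ, mem_range.2 hτ, hCG τ hτ hy⟩
    have h1 : y ∈ U.filter fun y => ¬ R x0 y :=
      mem_filter.2 ⟨hyU, (mem_filter.1 ((hC τ hτ).1 hy)).2⟩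
    rw [hx0p, ← hxp] at h1
    exact (mem_filter.1 h1).2
  refine ⟨fun τ => if τ < t then C τ else T, ?_, ?_⟩
  · intro τ _
    by_cases hτ : τ < t
    · simp only [hτ, if_true]
      exact ⟨(hCG τ hτ).trans (hG.1 τ hτ).1, (hC τ hτ).2, fun x hx y hy =>
        (hG.1 τ hτ).2.2 x (hCG τ hτ hx) y (hCG τ hτ hy)⟩
    · simp only [hτ, if_false]
      exact ⟨hTP.trans ((filter_subset _ _).trans hBs), hTc, hT⟩
  · intro τ h1 τ' h2 hne
    by_cases hτ : τ < t <;> by_cases hτ' : τ' < t
    · simp only [hτ, hτ', if_true]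
      exact fun x hx y hy => hG.2 τ hτ τ' hτ' hne x (hCG τ hτ hx) y (hCG τ' hτ' hy)
    · simp only [hτ, hτ', if_true, if_false]
      intro x hx y hy
      have := cross τ hτ y hy x hx
      exact ⟨this.1.symm, fun h => this.2 (hR _ _ h)⟩
    · simp only [hτ, hτ', if_true, if_false]
      exact fun x hx y hy => cross τ' hτ' x hx y hy
    · omega

open Classical in
theorem ext_main : ExtStmt := by
  intro t0 mreq hm
  choose N hN using fun h => ramsey_graph h t0
  let M : ℕ → ℕ := fun j => mreq^[j] 1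
  have hM1 : ∀ j, 1 ≤ M j := by
    intro j
    induction j with
    | zero => exact le_rfl
    | succ j ih =>
      show 1 ≤ mreq^[j + 1] 1
      rw [Function.iterate_succ_apply']
      exact ih.trans (hm _)
  have hMs : ∀ j, M (j + 1) = mreq (M j) := fun j => Function.iterate_succ_apply' _ _ _
  let W : ℕ → ℕ := fun j => M j + 1 + 2 ^ (t0 * M (j + 1)) * N (M j)
  refine ⟨(range (t0 + 1)).sup W, fun α s R hR hs => ?_⟩
  have hex : ∃ t, t < t0 ∧ (∃ G, Sys s R t (M (t0 - t)) G) ∧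
      ¬ ∃ G, Sys s R (t + 1) (M (t0 - (t + 1))) G := by
    by_contra hcon
    push Not at hcon
    have : ∀ t, t ≤ t0 → ∃ G, Sys s R t (M (t0 - t)) G := by
      intro t
      induction t with
      | zero =>
        exact fun _ => ⟨fun _ => ∅, fun τ h => absurd h (Nat.not_lt_zero _),
          fun τ h => absurd h (Nat.not_lt_zero _)⟩
      | succ t ih => exact fun ht => hcon t (by omega) (ih (by omega))
    obtain ⟨G, hG⟩ := this t0 le_rfl
    rw [Nat.sub_self] at hG
    exact sys_top s R t0 hs G hG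
  obtain ⟨t, ht, ⟨G, hG⟩, hmax⟩ := hex
  obtain ⟨j, hj⟩ : ∃ j, t0 - (t + 1) = j := ⟨_, rfl⟩
  have hj1 : t0 - t = j + 1 := by omega
  rw [hj] at hmax
  rw [hj1, hMs] at hG
  have hW : W j ≤ (range (t0 + 1)).sup W := le_sup (f := W) (mem_range.2 (by omega))
  have hWj : W j = M j + 1 + 2 ^ (t0 * mreq (M j)) * N (M j) := by simp only [W, hMs]
  let F : Fin t → Fin (mreq (M j)) → α := fun τ r =>
    ((G τ).equivFinOfCardEq (hG.1 τ τ.2).2.1).symm r
  have hFG : ∀ (τ : Fin t) r, F τ r ∈ G τ := fun τ r => Subtype.property _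
  have hFinj : ∀ τ, Function.Injective (F τ) := fun τ r r' e =>
    (Equiv.injective _) (Subtype.ext e)
  have hFsurj : ∀ τ : Fin t, ∀ y ∈ G τ, ∃ r, F τ r = y := fun τ y hy =>
    ⟨(G τ).equivFinOfCardEq (hG.1 τ τ.2).2.1 ⟨y, hy⟩, by simp [F]⟩
  have hcard : ∀ x (τ : Fin t), (univ.filter fun r => ¬ R x (F τ r)).card =
      ((G τ).filter fun y => ¬ R x y).card := by
    intro x τ
    refine card_bij (fun r _ => F τ r) ?_ ?_ ?_
    · intro r hr
      exact mem_filter.2 ⟨hFG τ r, (mem_filter.1 hr).2⟩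
    · intro r _ r' _ e
      exact hFinj τ e
    · intro y hy
      obtain ⟨r, rfl⟩ := hFsurj τ y (mem_filter.1 hy).1
      exact ⟨r, mem_filter.2 ⟨mem_univ _, (mem_filter.1 hy).2⟩, rfl⟩
  let Bad : Finset α := s.filter fun x => (∀ τ, τ < t → x ∉ G τ) ∧
    ∀ τ, τ < t → M j ≤ ((G τ).filter fun y => ¬ R x y).card
  refine ⟨t, ht, M j, hM1 j, by omega, F, Bad, ?_, fun τ r => (hG.1 τ τ.2).1 (hFG τ r), ?_,
    filter_subset _ _, ?_, ?_, ?_⟩
  · rintro ⟨τ, r⟩ ⟨τ', r'⟩ e
    have e' : F τ r = F τ' r' := e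
    have hτ : τ = τ' := by
      by_contra hne
      exact (hG.2 τ τ.2 τ' τ'.2 (fun h => hne (Fin.ext h)) _ (hFG τ r) _ (hFG τ' r')).1 e'
    subst hτ
    rw [hFinj τ e']
  · intro τ r r' hne
    exact (hG.1 τ τ.2).2.2 _ (hFG τ r) _ (hFG τ r') (fun e => hne (hFinj τ e))
  · by_contra hbig
    apply hmax
    refine sys_step s R hR t (mreq (M j)) (M j) (N (M j)) G hG ?_ Bad (filter_subset _ _)
      (fun x hx => (mem_filter.1 hx).2.1) (fun x hx => (mem_filter.1 hx).2.2) ?_
    · intro P hP hc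
      rcases hN (M j) α P R hR hc with h | ⟨T, hT, hTc, h⟩
      · exact h
      · obtain ⟨x, hx, y, hy, hxy, hr⟩ := hs T (hT.trans hP) hTc.ge
        exact absurd hr (h x hx y hy hxy)
    · have h1 : 2 ^ (t * mreq (M j)) ≤ 2 ^ (t0 * mreq (M j)) :=
        Nat.pow_le_pow_right (by norm_num) (Nat.mul_le_mul_right _ ht.le)
      have h2 := Nat.mul_le_mul_right (N (M j)) h1
      omega
  · intro τ r hb
    exact (mem_filter.1 hb).2.1 τ τ.2 (hFG τ r)
  · intro x hx hb hF
    by_contra hcon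
    push Not at hcon
    apply hb
    refine mem_filter.2 ⟨hx, fun τ hτ hxG => ?_, fun τ hτ => ?_⟩
    · obtain ⟨r, hr⟩ := hFsurj ⟨τ, hτ⟩ x hxG
      exact hF ⟨τ, hτ⟩ r hr.symm
    · have := hcon ⟨τ, hτ⟩
      rwa [hcard] at this

theorem dickson (A : Type) [Fintype A] (S : (A → ℕ) → Prop) :
    ∃ K : ℕ, ∀ n, S n → ∃ n', S n' ∧ n' ≤ n ∧ ∑ a, n' a ≤ K := by
  have hfin : {n | Minimal S n}.Finite :=
    WellQuasiOrderedLE.finite_of_isAntichain (setOfPred_minimal_antichain S)
  obtain ⟨K, hK⟩ := (hfin.image fun n => ∑ a, n a).bddAbove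
  refine ⟨K, fun n hn => ?_⟩
  obtain ⟨n', h1, h2⟩ := exists_minimal_le_of_wellFoundedLT S n hn
  exact ⟨n', h2.1, h1, hK ⟨n', h2, rfl⟩⟩

open Classical in
/-- Selection when the vectors and the base range over a fixed finite set. -/
theorem sel_fin (ι : Type) (A : Finset (ι → ℤ)) : ∃ K : ℕ, ∀ (I : Type) (s : Finset I)
    (v : I → ι → ℤ) (b : ι → ℤ), (∀ i ∈ s, v i ∈ A) → b ∈ A →
    (∀ d, 0 ≤ b d + ∑ i ∈ s, v i d) →
    ∃ s' ⊆ s, s'.card ≤ K ∧ ∀ d, 0 ≤ b d + ∑ i ∈ s', v i d := by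
  choose K hK using fun b : ι → ℤ =>
    dickson A (fun n => ∀ d, 0 ≤ b d + ∑ a : A, (n a : ℤ) * a.1 d)
  refine ⟨A.sup K, fun I s v b hv hb h => ?_⟩
  have key : ∀ s' ⊆ s, ∀ d, ∑ i ∈ s', v i d =
      ∑ a : A, ((s'.filter fun i => v i = a.1).card : ℤ) * a.1 d := by
    intro s' hs' d
    rw [← sum_fiberwise_of_maps_to (s := s') (t := A) (g := v) (fun i hi => hv i (hs' hi)),
      ← sum_coe_sort A]
    refine sum_congr rfl fun a _ => ?_
    rw [sum_congr rfl (fun i hi => congrFun (mem_filter.1 hi).2 d)]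
    simp
  obtain ⟨n', h1, h2, h3⟩ := hK b (fun a => (s.filter fun i => v i = a.1).card)
    (fun d => by rw [← key s Subset.rfl d]; exact h d)
  have : ∀ a : A, ∃ C ⊆ s.filter (fun i => v i = a.1), C.card = n' a := fun a =>
    exists_subset_card_eq (h2 a)
  choose C hC hCc using this
  have hsub : univ.biUnion C ⊆ s := by
    intro i hi
    obtain ⟨a, -, ha⟩ := mem_biUnion.1 hi
    exact (mem_filter.1 (hC a ha)).1
  refine ⟨univ.biUnion C, hsub, ?_, fun d => ?_⟩
  · refine card_biUnion_le.trans ?_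
    rw [sum_congr rfl (fun a _ => hCc a)]
    exact h3.trans (le_sup (f := K) hb)
  · rw [key _ hsub d]
    have : ∀ a : A, (univ.biUnion C).filter (fun i => v i = a.1) = C a := by
      intro a
      ext i
      simp only [mem_filter, mem_biUnion, mem_univ, true_and]
      constructor
      · rintro ⟨⟨a', ha'⟩, e⟩
        have : a' = a := Subtype.ext (((mem_filter.1 (hC a' ha')).2).symm.trans e)
        exact this ▸ ha'
      · exact fun hi => ⟨⟨a, hi⟩, (mem_filter.1 (hC a hi)).2⟩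
    simp only [this, hCc]
    exact h1 d

open Classical in
theorem sel_aux (ι : Type) [Fintype ι] (k : ℕ) : ∀ B : ℕ, ∃ K : ℕ, ∀ D : Finset ι, D.card = k →
    ∀ (I : Type) (s : Finset I) (v : I → ι → ℤ) (b : ι → ℤ),
    (∀ i ∈ s, ∀ d ∈ D, -(B : ℤ) ≤ v i d) → (∀ d ∈ D, -(B : ℤ) ≤ b d) →
    (∀ d ∈ D, 0 ≤ b d + ∑ i ∈ s, v i d) →
    ∃ s' ⊆ s, s'.card ≤ K ∧ ∀ d ∈ D, 0 ≤ b d + ∑ i ∈ s', v i d := by
  induction k with
  | zero =>
    refine fun B => ⟨0, fun D hD I s v b _ _ _ => ⟨∅, empty_subset _, le_rfl, ?_⟩⟩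
    rw [card_eq_zero.1 hD]
    simp
  | succ k ih =>
    intro B
    obtain ⟨K', hK'⟩ := ih (2 * B)
    set L : ℤ := B * (K' + 1) with hL
    obtain ⟨K1, hK1⟩ := sel_fin ι (Fintype.piFinset fun _ => Icc (-(B : ℤ)) L)
    refine ⟨max (K' + 1) K1, fun D hD I s v b hv hb h => ?_⟩
    have hB0 : (0 : ℤ) ≤ B := Int.natCast_nonneg B
    have low : ∀ s' ⊆ s, s'.card ≤ K' → ∀ d ∈ D, -((B : ℤ) * K') ≤ ∑ i ∈ s', v i d := by
      intro s' hs' hc d hd
      have h1 := card_nsmul_le_sum s' (fun i => v i d) (-(B : ℤ)) (fun i hi => hv i (hs' hi) d hd)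
      have h2 : (s'.card : ℤ) ≤ K' := by exact_mod_cast hc
      rw [nsmul_eq_mul] at h1
      nlinarith
    by_cases c1 : ∃ d0 ∈ D, L < b d0
    · obtain ⟨d0, hd0, hlt⟩ := c1
      obtain ⟨s', hs', hc, h'⟩ := hK' (D.erase d0) (by rw [card_erase_of_mem hd0]; omega) I s v b
        (fun i hi d hd => by have := hv i hi d (mem_of_mem_erase hd); push_cast; linarith)
        (fun d hd => by have := hb d (mem_of_mem_erase hd); push_cast; linarith)
        (fun d hd => h d (mem_of_mem_erase hd))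
      refine ⟨s', hs', by omega, fun d hd => ?_⟩
      by_cases e : d = d0
      · subst e
        have := low s' hs' hc d hd
        nlinarith
      · exact h' d (mem_erase.2 ⟨e, hd⟩)
    by_cases c2 : ∃ i0 ∈ s, ∃ d0 ∈ D, L < v i0 d0
    · obtain ⟨i0, hi0, d0, hd0, hlt⟩ := c2
      obtain ⟨s', hs', hc, h'⟩ := hK' (D.erase d0) (by rw [card_erase_of_mem hd0]; omega) I
        (s.erase i0) v (fun d => b d + v i0 d)
        (fun i hi d hd => by
          have := hv i (mem_of_mem_erase hi) d (mem_of_mem_erase hd); push_cast; linarith)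
        (fun d hd => by
          have h1 := hb d (mem_of_mem_erase hd)
          have h2 := hv i0 hi0 d (mem_of_mem_erase hd)
          push_cast; linarith)
        (fun d hd => by
          have h1 := h d (mem_of_mem_erase hd)
          rw [← add_sum_erase s _ hi0] at h1
          linarith)
      have hni : i0 ∉ s' := fun hm => by simpa using hs' hm
      have hss : s' ⊆ s := hs'.trans (erase_subset _ _)
      refine ⟨insert i0 s', insert_subset hi0 hss, by rw [card_insert_of_notMem hni]; omega,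
        fun d hd => ?_⟩
      rw [sum_insert hni]
      by_cases e : d = d0
      · subst e
        have h1 := low s' hss hc d hd
        have h2 := hb d hd
        nlinarith
      · have := h' d (mem_erase.2 ⟨e, hd⟩)
        linarith
    push Not at c1 c2
    have hL0 : (0 : ℤ) ≤ L := by positivity
    obtain ⟨s', hs', hc, h'⟩ := hK1 I s (fun i d => if d ∈ D then v i d else 0)
      (fun d => if d ∈ D then b d else 0)
      (fun i hi => Fintype.mem_piFinset.2 fun d => by
        by_cases hd : d ∈ D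
        · simp only [hd, if_true]; exact mem_Icc.2 ⟨hv i hi d hd, c2 i hi d hd⟩
        · simp only [hd, if_false]; exact mem_Icc.2 ⟨by linarith, hL0⟩)
      (Fintype.mem_piFinset.2 fun d => by
        by_cases hd : d ∈ D
        · simp only [hd, if_true]; exact mem_Icc.2 ⟨hb d hd, c1 d hd⟩
        · simp only [hd, if_false]; exact mem_Icc.2 ⟨by linarith, hL0⟩)
      (fun d => by
        by_cases hd : d ∈ D
        · simp only [hd, if_true]; exact h d hd
        · simp [hd])
    refine ⟨s', hs', by omega, fun d hd => ?_⟩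
    have := h' d
    simpa only [hd, if_true] using this

open Classical in
theorem hall_main : HallStmt := by
  intro α β s t R d h
  let n : s → Finset (β ⊕ Fin d) := fun x => (t.filter fun y => R x.1 y).disjSum univ
  have hall : ∀ A : Finset s, A.card ≤ (A.biUnion n).card := by
    intro A
    rcases A.eq_empty_or_nonempty with rfl | ⟨x0, hx0⟩
    · simp
    have h1 := h (A.map (Function.Embedding.subtype _)) (by
      intro x hx
      obtain ⟨y, -, rfl⟩ := mem_map.1 hx
      exact y.2)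
    rw [card_map] at h1
    refine h1.trans ?_
    have h2 : (t.filter fun y => ∃ x ∈ A.map (Function.Embedding.subtype _), R x y).disjSum
        (univ : Finset (Fin d)) ⊆ A.biUnion n := by
      rintro (y | y) hy
      · rw [inl_mem_disjSum] at hy
        obtain ⟨hyt, x, hx, hr⟩ := mem_filter.1 hy
        obtain ⟨x', hx', rfl⟩ := mem_map.1 hx
        exact mem_biUnion.2 ⟨x', hx', inl_mem_disjSum.2 (mem_filter.2 ⟨hyt, hr⟩)⟩
      · exact mem_biUnion.2 ⟨x0, hx0, inr_mem_disjSum.2 (mem_univ _)⟩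
    have h3 := card_le_card h2
    rw [card_disjSum, card_univ, Fintype.card_fin] at h3
    exact h3
  obtain ⟨g, hg, hgn⟩ := (all_card_le_biUnion_card_iff_exists_injective n).1 hall
  let f : α → Option β := fun x => if hx : x ∈ s then (g ⟨x, hx⟩).getLeft? else none
  have hf : ∀ x (hx : x ∈ s) y, f x = some y ↔ g ⟨x, hx⟩ = Sum.inl y := by
    intro x hx y
    simp only [f, dif_pos hx, Sum.getLeft?_eq_some_iff]
  refine ⟨s.filter fun x => ∃ y, f x = some y, f, filter_subset _ _, ?_, ?_, ?_⟩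
  · rw [← card_filter_add_card_filter_not (s := s) (fun x => ∃ y, f x = some y)]
    refine Nat.add_le_add_left ?_ _
    have : ∀ x : (s.filter fun x => ¬ ∃ y, f x = some y), ∃ k : Fin d,
        g ⟨x.1, (mem_filter.1 x.2).1⟩ = Sum.inr k := by
      intro x
      cases hgx : g ⟨x.1, (mem_filter.1 x.2).1⟩ with
      | inl y => exact absurd ⟨y, (hf _ _ y).2 hgx⟩ (mem_filter.1 x.2).2
      | inr k => exact ⟨k, rfl⟩
    choose k hk using this
    have hinj : Function.Injective k := by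
      intro x x' e
      have := hg ((hk x).trans (e ▸ (hk x').symm))
      exact Subtype.ext (Subtype.mk.inj this)
    have := Fintype.card_le_of_injective k hinj
    simpa using this
  · intro x hx
    obtain ⟨hxs, y, hy⟩ := mem_filter.1 hx
    have h1 := hgn ⟨x, hxs⟩
    rw [(hf x hxs y).1 hy] at h1
    have h2 := mem_filter.1 (inl_mem_disjSum.1 h1)
    exact ⟨y, h2.1, hy, h2.2⟩
  · intro x hx x' hx' e
    obtain ⟨hxs, y, hy⟩ := mem_filter.1 hx
    have hxs' := (mem_filter.1 hx').1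
    have h1 := (hf x hxs y).1 hy
    have h2 := (hf x' hxs' y).1 (e ▸ hy)
    exact congrArg Subtype.val (hg (h1.trans h2.symm))

end Pool.Agent.Lib.MP_ef7581_lc.D2.DComb

namespace Pool.Agent.Lib.MP_ef7581_lc.D2

theorem ramseyStmt : RamseyStmt :=
  ⟨fun κ _ m => DComb.ramsey_pair κ m, DComb.ramsey_graph⟩

theorem extStmt : ExtStmt := DComb.ext_main

theorem selStmt : SelStmt := by
  intro ι _ B
  obtain ⟨K, hK⟩ := DComb.sel_aux ι (Fintype.card ι) B
  refine ⟨K, fun I s v b hv hb h => ?_⟩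
  obtain ⟨s', h1, h2, h3⟩ := hK Finset.univ Finset.card_univ I s v b (fun i hi d _ => hv i hi d)
    (fun d _ => hb d) (fun d _ => h d)
  exact ⟨s', h1, h2, fun d => h3 d (Finset.mem_univ d)⟩

theorem hallStmt : HallStmt := DComb.hall_main

end Pool.Agent.Lib.MP_ef7581_lc.D2
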