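import Mathlib
import Pool.Agent.Lib.MP_ef7581_lc.DComp

-- part Pool.Agent.Lib.MP_ef7581_lc.DReal
section

/-!
The realisation step: an auxiliary matching close to the image of a state gives a state.
-/

set_option autoImplicit false
set_option linter.unusedSectionVars false

namespace Pool.Agent.Lib.MP_ef7581_lc.D2

open Finset Classical

variable {J V : Type} [Fintype J] [Fintype V] [DecidableEq J] [DecidableEq V]

namespace DReal

/-- Serving boundedly many demands one after the other. -/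
theorem greedy (good : J → Finset V → Prop) (n : ℕ) (U0 : Finset V) (X : Finset J) :
    U0.card + 2 * X.card ≤ n →
    (∀ j ∈ X, ∀ U : Finset V, U.card ≤ n → ∃ F, Disjoint F U ∧ F.card ≤ 2 ∧ good j F) →
    ∃ fl : J → Finset V, (∀ j ∈ X, Disjoint (fl j) U0 ∧ (fl j).card ≤ 2 ∧ good j (fl j)) ∧
      ∀ i ∈ X, ∀ j ∈ X, i ≠ j → Disjoint (fl i) (fl j) := by
  induction X using Finset.induction_on with
  | empty => intro _ _; exact ⟨fun _ => ∅, by simp, by simp⟩
  | insert a X ha ih =>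
    intro hc h
    rw [card_insert_of_notMem ha] at hc
    obtain ⟨fl, h1, h2⟩ := ih (by omega) (fun j hj => h j (mem_insert_of_mem hj))
    have hU : (U0 ∪ X.biUnion fl).card ≤ n := by
      have c1 := card_union_le U0 (X.biUnion fl)
      have c2 := card_biUnion_le_card_mul X fl 2 (fun j hj => (h1 j hj).2.1)
      omega
    obtain ⟨F, hF1, hF2, hF3⟩ := h a (mem_insert_self _ _) _ hU
    rw [disjoint_union_right, disjoint_biUnion_right] at hF1
    have ne : ∀ j ∈ X, j ≠ a := fun j hj e => ha (e ▸ hj)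
    refine ⟨fun j => if j = a then F else fl j, fun j hj => ?_, fun i hi j hj hij => ?_⟩
    · rcases mem_insert.1 hj with rfl | hj
      · simp only [if_true]; exact ⟨hF1.1, hF2, hF3⟩
      · simp only [if_neg (ne j hj)]; exact h1 j hj
    · rcases mem_insert.1 hi with rfl | hi' <;> rcases mem_insert.1 hj with rfl | hj'
      · exact absurd rfl hij
      · simp only [if_true, if_neg (ne j hj')]; exact hF1.2 j hj'
      · simp only [if_true, if_neg (ne i hi')]; exact (hF1.2 i hi').symm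
      · simp only [if_neg (ne i hi'), if_neg (ne j hj')]; exact h2 i hi' j hj' hij

theorem its_card_two {g : J → Sv V} {j : J} (h : ∃ a b, g j = Sv.two a b) :
    (g j).its.card ≤ 2 := by
  obtain ⟨a, b, h⟩ := h
  rw [h]
  exact card_le_two

theorem mi_mem (o : Bool) (a b : V) : mi o a b ∈ (Sv.two a b).its := by
  cases o <;> simp [mi, Sv.its]

theorem ma_mem (o : Bool) (a b : V) : ma o a b ∈ (Sv.two a b).its := by
  cases o <;> simp [ma, Sv.its]

/-- Ends that are items. -/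
theorem card_end_items (μ ν : Nd J V → Nd J V) (s : Finset V)
    (h : ∀ v ∈ s, IsEnd μ ν (vx v)) : s.card ≤ (ends μ ν).card := by
  refine card_le_card_of_injOn (fun v => vx v) (fun v hv => ?_) (fun a _ b _ e => ?_)
  · simp only [ends, coe_filter, mem_univ, true_and, Set.mem_ofPred_eq]
    exact h v hv
  · exact Sum.inl_injective (Sum.inr_injective e)

variable {P : Geo J V} {S : Sub J V} {e : ℕ} {ρ : Finset V} {B : Finset J} {g : J → Sv V}
  {μ ν : Nd J V → Nd J V} {X : Ax J V}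

theorem en_key (hm : IsM (P.En S e ρ X) ν) {j : J} {x : V} (h : ν (ag j) = vx x) :
    j ∈ S.A ∧ x ∈ S.W ∧ (S.lst j x ∨ P.ncE S e ρ j x) := by
  have b := hm.2 (ag j) (by rw [h]; simp)
  rw [h] at b
  exact ⟨b.1, b.2.1, b.2.2.imp id fun t => t.2⟩

theorem en_dm (hm : IsM (P.En S e ρ X) ν) {j : J} (h : ν (ag j) = dm j) :
    j ∈ S.A ∧ S.geo j ∧ P.flex e ρ j := by
  have b := hm.2 (ag j) (by rw [h]; simp)
  rw [h] at b
  exact b.2

theorem en_pe (hm : IsM (P.En S e ρ X) ν) {q z : V} (hne : z ≠ q) (h : ν (vx q) = vx z) :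
    q ∈ S.W ∧ z ∈ S.W ∧ (P.peE S e ρ q z ∨ P.peE S e ρ z q) := by
  have b := hm.2 (vx q) (by rw [h]; simpa using hne)
  rw [h] at b
  exact ⟨b.1, b.2.1, b.2.2.2.imp (fun t => t.1) fun t => t.1⟩

theorem en_pe' (hm : IsM (P.En S e ρ X) ν) {q z : V} (hne : z ≠ q) (h : ν (vx q) = vx z)
    (hq : P.Q0 e ρ q) : P.peE S e ρ q z :=
  (en_pe hm hne h).2.2.resolve_right fun t => t.2.1 hq.2

theorem inv_eq {m : Nd J V → Nd J V} (hm : ∀ x, m (m x) = x) {x y : Nd J V} (h : m x = y) :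
    m y = x := by rw [← h, hm]

/-- The partner of a covered item. -/
theorem item_cases (hm : IsM (P.En S e ρ X) ν) {v : V} (h : ν (vx v) ≠ vx v) :
    (∃ j, ν (ag j) = vx v) ∨ ∃ u, u ≠ v ∧ ν (vx v) = vx u := by
  have b := hm.2 _ h
  rcases hv : ν (vx v) with i | u | i <;> rw [hv] at b
  · exact Or.inl ⟨i, inv_eq hm.1 hv⟩
  · exact Or.inr ⟨u, fun e => h (by rw [hv, e]), rfl⟩
  · exact b.elim

theorem fixed_out (hm : IsM (P.En S e ρ X) ν) {v : V} (h : v ∉ S.W) : ν (vx v) = vx v := by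
  by_contra hv
  rcases item_cases hm hv with ⟨j, hj⟩ | ⟨u, hu, hv⟩
  · exact h (en_key hm hj).2.1
  · exact h (en_pe hm hu hv).1

/-- The old key of a pair agent is a coloured item of its service. -/
theorem old_key (cx : P.Ctx S e ρ B g μ) {j : J} {x : V} (h : μ (ag j) = vx x)
    (h2 : ∃ a b, g j = Sv.two a b) : x ∈ (g j).its ∧ ¬ S.lst j x := by
  have b : P.OldA e ρ B g j x := (cx.im.2 (ag j) (vx x) (by simp)).1 h
  obtain ⟨hB, h1 | ⟨a, b, o, h1, -, hx, -⟩⟩ := b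
  · obtain ⟨a, b, h2⟩ := h2
    rw [h1] at h2
    cases h2
  · have hn := cx.st.nrm j hB
    rw [h1] at hn ⊢
    refine ⟨hx ▸ mi_mem o a b, fun hl => ?_⟩
    have hC := (cx.wf j hn.1 x).1 hl
    cases o
    · exact Geo.col_not_C hn.2.1 (by simpa [hx, mi] using hC)
    · exact Geo.col_not_C hn.2.2.1 (by simpa [hx, mi] using hC)

theorem same_agent (cx : P.Ctx S e ρ B g μ) {i j : J} {v : V} (hi : i ∈ B) (hj : j ∈ B)
    (h1 : v ∈ (g i).its) (h2 : v ∈ (g j).its) : i = j := by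
  by_contra hne
  exact disjoint_left.1 (cx.st.dis i hi j hj hne) h1 h2

/-- Hidden items of a covered agent are uncovered. -/
theorem hidden_fixed (hI : ImgStmt) (cx : P.Ctx S e ρ B g μ) {j : J} {v : V} (hj : j ∈ B)
    (hc : μ (ag j) ≠ ag j) (hv : v ∈ (g j).its) (hk : μ (ag j) ≠ vx v) : μ (vx v) = vx v := by
  have im := (hI J V P S e ρ B g cx.wf cx.fr cx.st cx.si).2 μ cx.im
  by_contra hn
  rcases item_cases im.1 hn with ⟨i, hi⟩ | ⟨u, hu, hv'⟩
  · have b : P.OldA e ρ B g i v := (cx.im.2 (ag i) (vx v) (by simp)).1 hi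
    have : v ∈ (g i).its := by
      obtain ⟨-, h1 | ⟨a, b, o, h1, -, hx, -⟩⟩ := b
      · rw [h1]; simp [Sv.its]
      · rw [h1]; exact hx ▸ mi_mem o a b
    exact hk (same_agent cx b.1 hj this hv ▸ hi)
  · obtain ⟨i, hi⟩ : ∃ i, P.OldP e ρ B g i v u ∨ P.OldP e ρ B g i u v :=
      (cx.im.2 (vx v) (vx u) (by simpa using hu.symm)).1 hv'
    rcases hi with hi | hi
    · have k := im.2.2.2.2.2.2.2.1 i v u hi
      have : v ∈ (g i).its := by rw [k.2.2.2.2.1]; simp
      exact hc (same_agent cx hi.1 hj this hv ▸ k.2.2.2.2.2.1)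
    · have k := im.2.2.2.2.2.2.2.1 i u v hi
      have : v ∈ (g i).its := by rw [k.2.2.2.2.1]; simp
      exact hc (same_agent cx hi.1 hj this hv ▸ k.2.2.2.2.2.1)

/-- Agents owning an end. -/
noncomputable def XE (B : Finset J) (g : J → Sv V) (μ ν : Nd J V → Nd J V) : Finset J :=
  univ.filter fun j => ∃ n ∈ ends μ ν, n = dm j ∨ (j ∈ B ∧ ∃ v ∈ (g j).its, n = vx v)

theorem XE_card (cx : P.Ctx S e ρ B g μ) : (XE B g μ ν).card ≤ (ends μ ν).card := by
  refine card_le_card_of_forall_subsingleton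
    (fun j n => n = dm j ∨ (j ∈ B ∧ ∃ v ∈ (g j).its, n = vx v)) (fun j hj => ?_) ?_
  · obtain ⟨n, h1, h2⟩ := (mem_filter.1 hj).2
    exact ⟨n, h1, h2⟩
  · rintro n - i ⟨-, hi⟩ j ⟨-, hj⟩
    rcases hi with hi | ⟨hi, v, hv, rfl⟩ <;> rcases hj with hj | ⟨hj, u, hu, hj'⟩
    · rw [hi] at hj
      exact Sum.inr_injective (Sum.inr_injective hj)
    · rw [hi] at hj'
      simp at hj'
    · simp at hj
    · have : v = u := Sum.inl_injective (Sum.inr_injective hj')
      exact same_agent cx hi hj hv (this ▸ hu)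

theorem mem_ends {x : Nd J V} : x ∈ ends μ ν ↔ IsEnd μ ν x := by simp [ends]

/-- A kept edge whose service is not intact. -/
theorem kept_XE (hI : ImgStmt) (cx : P.Ctx S e ρ B g μ) {j : J} (hc : ν (ag j) ≠ ag j)
    (hk : ν (ag j) = μ (ag j)) (hl : ∀ v, ν (ag j) = vx v → ¬ S.lst j v)
    (hn : ¬ Intact B g μ ν j) : j ∈ XE B g μ ν := by
  have im := (hI J V P S e ρ B g cx.wf cx.fr cx.st cx.si).2 μ cx.im
  have hc' : μ (ag j) ≠ ag j := hk ▸ hc
  have hB : j ∈ B := by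
    by_contra h
    exact hc' (im.2.2.2.2.1 j h).1
  have h2 : ∃ a b, g j = Sv.two a b := by
    rcases cx.si j hB with ⟨c, h⟩ | ⟨a, b, h, -⟩
    · have hn := cx.st.nrm j hB
      rw [h] at hn
      exact absurd hn (hl c (hk.trans (im.2.2.2.2.2.2.1 j hB c h).2))
    · exact ⟨a, b, h⟩
  have : ∃ v ∈ (g j).its, μ (ag j) ≠ vx v ∧ ν (vx v) ≠ vx v := by
    by_contra h
    exact hn ⟨hB, h2, hc', hk, fun v hv hne => by
      by_contra h'
      exact h ⟨v, hv, hne, h'⟩⟩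
  obtain ⟨v, hv, h3, h4⟩ := this
  exact mem_filter.2 ⟨mem_univ _, vx v,
    mem_ends.2 (Or.inl ⟨hidden_fixed hI cx hB hc' hv h3, h4⟩), Or.inr ⟨hB, v, hv, rfl⟩⟩

/-- A new dummy edge. -/
theorem newdm_XE (hI : ImgStmt) (cx : P.Ctx S e ρ B g μ) (hν : ∀ x, ν (ν x) = x) {j : J}
    (hd : ν (ag j) = dm j) (hk : ν (ag j) ≠ μ (ag j)) : j ∈ XE B g μ ν := by
  have im := (hI J V P S e ρ B g cx.wf cx.fr cx.st cx.si).2 μ cx.im
  have h1 : μ (dm j) = dm j := by
    rcases (Geo.En_shape im.1).2 j with h | h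
    · exact h
    · exact absurd (hd.trans (inv_eq cx.im.1 h).symm) hk
  have h2 : ν (dm j) ≠ dm j := by
    rw [inv_eq hν hd]
    simp
  exact mem_filter.2 ⟨mem_univ _, dm j, mem_ends.2 (Or.inl ⟨h1, h2⟩), Or.inl rfl⟩

theorem mem_pool {v : V} : v ∈ PoolS S B g μ ν ↔
    v ∈ S.W ∧ ν (vx v) = vx v ∧ ¬ ∃ j, Intact B g μ ν j ∧ v ∈ (g j).its := by
  simp only [PoolS, mem_filter]

theorem mem_req {j : J} : j ∈ Req S μ ν ↔
    j ∈ S.A ∧ ∃ x, ν (ag j) = vx x ∧ ¬ S.lst j x ∧ μ (ag j) ≠ vx x := by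
  simp only [Req, mem_filter]

theorem cw_set (S : Sub J V) (ν : Nd J V → Nd J V) :
    ∃ L : Finset J, (∀ j, j ∈ L ↔ ∃ v, ν (ag j) = vx v ∧ S.lst j v) ∧ cw S ν = L.card :=
  ⟨univ.filter fun j : J => ∃ v, ν (ag j) = vx v ∧ S.lst j v, fun j => by simp, by
    unfold cw; congr⟩

/-- Frame items outside the pool. -/
theorem frame_pool (hI : ImgStmt) (cx : P.Ctx S e ρ B g μ) (hd : Disjoint ρ (itsB B g)) :
    (ρ \ PoolS S B g μ ν).card ≤ (ρ \ S.W).card + (ends μ ν).card := by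
  have im := (hI J V P S e ρ B g cx.wf cx.fr cx.st cx.si).2 μ cx.im
  have h1 : ρ \ PoolS S B g μ ν ⊆ (ρ \ S.W) ∪ ρ.filter fun v => IsEnd μ ν (vx v) := by
    intro r hr
    rw [mem_sdiff, mem_pool] at hr
    have hb : r ∉ itsB B g := disjoint_left.1 hd hr.1
    rw [mem_union, mem_sdiff, mem_filter]
    by_cases hw : r ∈ S.W
    · refine Or.inr ⟨hr.1, Or.inl ⟨im.2.2.2.2.2.1 r hb, fun h => hr.2 ⟨hw, h, ?_⟩⟩⟩
      rintro ⟨j, hj, hv⟩
      exact hb (mem_biUnion.2 ⟨j, hj.1, hv⟩)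
    · exact Or.inl ⟨hr.1, hw⟩
  have h2 := card_le_card h1
  have h3 := card_union_le (ρ \ S.W) (ρ.filter fun v => IsEnd μ ν (vx v))
  have h4 := card_end_items μ ν (ρ.filter fun v => IsEnd μ ν (vx v))
    fun v hv => (mem_filter.1 hv).2
  omega

/-- The size of the pool. -/
theorem pool_card (hP : PeStmt) (cx : P.Ctx S e ρ B g μ) (hm : IsM (P.En S e ρ X) ν)
    (sz : cov ν = 2 * S.A.card) :
    S.W.card + cw S ν + (Req S μ ν).card ≤ (PoolS S B g μ ν).card + 2 * S.A.card := by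
  obtain ⟨c1, c2⟩ := (hP J V).1 ν hm.1 (Geo.En_shape hm)
  obtain ⟨L, hL, cL⟩ := cw_set S ν
  obtain ⟨Ca, hCa, cCa⟩ : ∃ Ca : Finset J, (∀ j, j ∈ Ca ↔ ν (ag j) ≠ ag j) ∧
      cov ν = 2 * Ca.card + npe ν univ := ⟨_, fun j => by simp, c1⟩
  obtain ⟨K, Cv, hK, hCv, cK⟩ : ∃ (K : Finset J) (Cv : Finset V),
      (∀ j, j ∈ K ↔ ∃ v, ν (ag j) = vx v) ∧ (∀ v, v ∈ Cv ↔ ν (vx v) ≠ vx v) ∧
      Cv.card = K.card + npe ν univ := ⟨_, _, fun j => by simp, fun j => by simp, c2⟩
  set IK := univ.filter fun j => Intact B g μ ν j ∧ ∃ v, ν (ag j) = vx v with hIK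
  set ID := univ.filter fun j => Intact B g μ ν j ∧ ν (ag j) = dm j with hID
  set hid : J → Finset V := fun j => (g j).its.filter fun v => ν (vx v) = vx v with hhid
  have s1 : S.W ⊆ PoolS S B g μ ν ∪ Cv ∪ IK.biUnion hid ∪ ID.biUnion hid := by
    intro v hv
    simp only [mem_union, mem_pool, hCv, mem_biUnion, hIK, hID, hhid, mem_filter, mem_univ,
      true_and]
    by_cases h1 : ν (vx v) = vx v
    · by_cases h2 : ∃ j, Intact B g μ ν j ∧ v ∈ (g j).its
      · obtain ⟨j, hj, hvj⟩ := h2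
        rcases (Geo.En_shape hm).1 j with h | h | h
        · exact absurd (hj.2.2.2.1.symm.trans h) hj.2.2.1
        · exact Or.inl (Or.inr ⟨j, ⟨hj, h⟩, hvj, h1⟩)
        · exact Or.inr ⟨j, ⟨hj, h⟩, hvj, h1⟩
      · exact Or.inl (Or.inl (Or.inl ⟨hv, h1, h2⟩))
    · exact Or.inl (Or.inl (Or.inr h1))
  have s2 : (IK.biUnion hid).card ≤ IK.card * 1 := by
    refine card_biUnion_le_card_mul _ _ _ fun j hj => ?_
    obtain ⟨hj, x, hx⟩ := (mem_filter.1 hj).2
    have hx1 := (old_key cx (hj.2.2.2.1.symm.trans hx) hj.2.1).1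
    have hx2 : hid j ⊆ (g j).its.erase x := fun v hv => by
      rw [hhid, mem_filter] at hv
      refine mem_erase.2 ⟨fun e => ?_, hv.1⟩
      have := inv_eq hm.1 hx
      rw [← e, hv.2] at this
      simp at this
    have hx3 := card_le_card hx2
    have hx4 := card_erase_of_mem hx1
    have hx5 := its_card_two hj.2.1
    omega
  have s3 : (ID.biUnion hid).card ≤ ID.card * 2 := by
    refine card_biUnion_le_card_mul _ _ _ fun j hj => ?_
    exact (card_filter_le _ _).trans (its_card_two (mem_filter.1 hj).2.1.2.1)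
  have s4 : K.card + ID.card ≤ Ca.card := by
    rw [← card_union_of_disjoint]
    · refine card_le_card fun j hj => (hCa j).2 ?_
      rcases mem_union.1 hj with h | h
      · obtain ⟨v, hv⟩ := (hK j).1 h
        rw [hv]; simp
      · rw [(mem_filter.1 h).2.2]; simp
    · refine disjoint_left.2 fun j h1 h2 => ?_
      obtain ⟨v, hv⟩ := (hK j).1 h1
      have := (mem_filter.1 h2).2.2
      rw [hv] at this
      simp at this
  have s5 : L.card + (Req S μ ν).card + IK.card ≤ K.card := by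
    rw [← card_union_of_disjoint, ← card_union_of_disjoint]
    · refine card_le_card fun j hj => (hK j).2 ?_
      rcases mem_union.1 hj with h | h
      · rcases mem_union.1 h with h | h
        · obtain ⟨v, hv, -⟩ := (hL j).1 h
          exact ⟨v, hv⟩
        · obtain ⟨-, v, hv, -⟩ := mem_req.1 h
          exact ⟨v, hv⟩
      · exact (mem_filter.1 h).2.2
    · refine disjoint_left.2 fun j h1 h2 => ?_
      have hj := (mem_filter.1 h2).2.1
      rcases mem_union.1 h1 with h | h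
      · obtain ⟨v, hv, hl⟩ := (hL j).1 h
        exact (old_key cx (hj.2.2.2.1.symm.trans hv) hj.2.1).2 hl
      · obtain ⟨-, v, hv, -, hn⟩ := mem_req.1 h
        exact hn (hj.2.2.2.1.symm.trans hv)
    · refine disjoint_left.2 fun j h1 h2 => ?_
      obtain ⟨v, hv, hl⟩ := (hL j).1 h1
      obtain ⟨-, u, hu, hn, -⟩ := mem_req.1 h2
      have : u = v := Sum.inl_injective (Sum.inr_injective (hu.symm.trans hv))
      exact hn (this ▸ hl)
  have s6 := card_le_card s1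
  have s7 := card_union_le (PoolS S B g μ ν ∪ Cv ∪ IK.biUnion hid) (ID.biUnion hid)
  have s8 := card_union_le (PoolS S B g μ ν ∪ Cv) (IK.biUnion hid)
  have s9 := card_union_le (PoolS S B g μ ν) Cv
  omega

/-! ### Zones: the fixed parts of the services -/

/-- The pair `(q, z)` is a pair edge of `ν` or a helper edge. -/
def PEd (P : Geo J V) (e : ℕ) (ρ : Finset V) (ν : Nd J V → Nd J V) (Hh : Finset (J × V × V))
    (q z : V) : Prop :=
  (P.Q0 e ρ q ∧ z ≠ q ∧ ν (vx q) = vx z) ∨ ∃ s ∈ Hh, s.2 = (q, z)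

/-- The items reserved for agent `j`. -/
def Zn (P : Geo J V) (e : ℕ) (ρ : Finset V) (B : Finset J) (g : J → Sv V)
    (μ ν : Nd J V → Nd J V) (Hh : Finset (J × V × V)) (own : J → V → V → Prop) (j : J) (v : V) :
    Prop :=
  ν (ag j) = vx v ∨ (Intact B g μ ν j ∧ v ∈ (g j).its) ∨
    ∃ q z, own j q z ∧ PEd P e ρ ν Hh q z ∧ (v = q ∨ v = z)

variable {Hh : Finset (J × V × V)} {own : J → V → V → Prop}

theorem ped_pe (hm : IsM (P.En S e ρ X) ν) (hp : P.HelpOk S e ρ Hh) {q z : V}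
    (h : PEd P e ρ ν Hh q z) : P.peE S e ρ q z := by
  rcases h with ⟨h1, h2, h3⟩ | ⟨s, hs, h⟩
  · exact en_pe' hm h2 h3 h1
  · have := (hp.1 s hs).2.2.2.2.1
    rw [h] at this
    exact this

/-- The four kinds of reserved items. -/
theorem zn_kind (cx : P.Ctx S e ρ B g μ) (hm : IsM (P.En S e ρ X) ν) (hp : P.HelpOk S e ρ Hh)
    {j : J} {v : V} (h : Zn P e ρ B g μ ν Hh own j v) :
    (v ∈ S.W ∧ ν (vx v) = ag j) ∨
      (v ∈ S.W ∧ ν (vx v) = vx v ∧ Intact B g μ ν j ∧ v ∈ (g j).its) ∨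
      (v ∈ S.W ∧ (∃ u, u ≠ v ∧ ν (vx v) = vx u) ∧ ∃ q z, own j q z ∧ P.Q0 e ρ q ∧
        ¬ P.heavy e ρ z ∧ ν (vx q) = vx z ∧ (v = q ∨ v = z)) ∨
      (v ∉ S.W ∧ v ∈ it2 Hh ∧ ∃ q z, own j q z ∧ (∃ s ∈ Hh, s.2 = (q, z)) ∧ (v = q ∨ v = z)) := by
  rcases h with h | ⟨hj, hv⟩ | ⟨q, z, ho, ⟨h1, h2, h3⟩ | ⟨s, hs, h1⟩, hv⟩
  · exact Or.inl ⟨(en_key hm h).2.1, inv_eq hm.1 h⟩
  · have hw := cx.st.inW j hj.1 hv
    by_cases hk : μ (ag j) = vx v
    · exact Or.inl ⟨hw, inv_eq hm.1 (hj.2.2.2.1.trans hk)⟩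
    · exact Or.inr (Or.inl ⟨hw, hj.2.2.2.2 v hv hk, hj, hv⟩)
  · have k := en_pe hm h2 h3
    have k' := en_pe' hm h2 h3 h1
    refine Or.inr (Or.inr (Or.inl ⟨?_, ?_, q, z, ho, h1, k'.2.1, h3, hv⟩))
    · rcases hv with rfl | rfl
      · exact k.1
      · exact k.2.1
    · rcases hv with rfl | rfl
      · exact ⟨z, h2, h3⟩
      · exact ⟨q, h2.symm, inv_eq hm.1 h3⟩
  · have k := hp.1 s hs
    have e1 : s.2.1 = q := by rw [h1]
    have e2 : s.2.2 = z := by rw [h1]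
    refine Or.inr (Or.inr (Or.inr ⟨?_, ?_, q, z, ho, ⟨s, hs, h1⟩, hv⟩))
    · rcases hv with rfl | rfl
      · exact e1 ▸ k.2.2.1
      · exact e2 ▸ k.2.2.2.1
    · refine mem_biUnion.2 ⟨s, hs, ?_⟩
      rw [e1, e2]
      simpa using hv

theorem zn_in (cx : P.Ctx S e ρ B g μ) (hm : IsM (P.En S e ρ X) ν) (hp : P.HelpOk S e ρ Hh)
    {j : J} {v : V} (h : Zn P e ρ B g μ ν Hh own j v) : v ∈ S.W ∪ it2 Hh := by
  rcases zn_kind cx hm hp h with h | h | h | h
  · exact mem_union_left _ h.1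
  · exact mem_union_left _ h.1
  · exact mem_union_left _ h.1
  · exact mem_union_right _ h.2.1

theorem zn_pool (cx : P.Ctx S e ρ B g μ) (hm : IsM (P.En S e ρ X) ν) (hp : P.HelpOk S e ρ Hh)
    {j : J} {v : V} (h : Zn P e ρ B g μ ν Hh own j v) : v ∉ PoolS S B g μ ν := by
  intro hv
  obtain ⟨h1, h2, h3⟩ := mem_pool.1 hv
  rcases zn_kind cx hm hp h with h | h | ⟨-, ⟨u, hu, h⟩, -⟩ | h
  · rw [h2] at h
    simp at h
  · exact h3 ⟨j, h.2.2⟩
  · rw [h2] at h
    exact hu (Sum.inl_injective (Sum.inr_injective h)).symm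
  · exact h.1 h1

theorem zn_unique (cx : P.Ctx S e ρ B g μ) (hm : IsM (P.En S e ρ X) ν) (hp : P.HelpOk S e ρ Hh)
    (ho : ∀ j j' q z z', own j q z → own j' q z' → j = j') {i j : J} {v : V}
    (hi : Zn P e ρ B g μ ν Hh own i v) (hj : Zn P e ρ B g μ ν Hh own j v) : i = j := by
  have inj : ∀ a b : V, (vx a : Nd J V) = vx b → a = b := fun a b h =>
    Sum.inl_injective (Sum.inr_injective h)
  rcases zn_kind cx hm hp hi with ⟨w1, a⟩ | ⟨w1, a, a1, a2⟩ | ⟨w1, ⟨u, hu, a⟩, q, z, a1, a2, a3,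
      a4, a5⟩ | ⟨w1, -, q, z, a1, ⟨s, hs, a2⟩, a3⟩ <;>
    rcases zn_kind cx hm hp hj with ⟨w2, b⟩ | ⟨w2, b, b1, b2⟩ | ⟨w2, ⟨u', hu', b⟩, q', z', b1, b2,
      b3, b4, b5⟩ | ⟨w2, -, q', z', b1, ⟨s', hs', b2⟩, b3⟩
  · exact Sum.inl_injective (a.symm.trans b)
  · rw [a] at b; simp at b
  · rw [a] at b; simp at b
  · exact absurd w1 w2
  · rw [a] at b; simp at b
  · exact same_agent cx a1.1 b1.1 a2 b2
  · exact absurd (inj _ _ (b.symm.trans a)) hu'
  · exact absurd w1 w2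
  · rw [a] at b; simp at b
  · exact absurd (inj _ _ (a.symm.trans b)) hu
  · have : q = q' := by
      rcases a5 with a5 | a5 <;> rcases b5 with b5 | b5
      · exact a5.symm.trans b5
      · exact absurd ((a5.symm.trans b5) ▸ a2.2) b3
      · exact absurd ((b5.symm.trans a5) ▸ b2.2) a3
      · have k1 := inv_eq hm.1 a4
        have k2 := inv_eq hm.1 b4
        rw [← a5] at k1
        rw [← b5] at k2
        exact inj _ _ (k1.symm.trans k2)
    exact ho i j q z z' a1 (this ▸ b1)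
  · exact absurd w1 w2
  · exact absurd w2 w1
  · exact absurd w2 w1
  · exact absurd w2 w1
  · have : s = s' := by
      by_contra hne
      have hd := (hp.2 s hs s' hs' hne).2
      rw [a2, b2] at hd
      exact (disjoint_left.1 hd : ∀ ⦃a⦄, a ∈ _ → a ∉ _) (a := v) (by simpa using a3)
        (by simpa using b3)
    have k : (q, z) = (q', z') := by rw [← a2, ← b2, this]
    have k1 : q = q' := congrArg Prod.fst k
    exact ho i j q z z' a1 (k1 ▸ b1)

/-- The fill `F` completes a service of `j`. -/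
def Gd (P : Geo J V) (S : Sub J V) (e : ℕ) (ρ : Finset V) (B : Finset J) (g : J → Sv V)
    (μ ν : Nd J V → Nd J V) (Hh : Finset (J × V × V)) (own : J → V → V → Prop) (Jt : Finset J)
    (j : J) (F : Finset V) : Prop :=
  ∃ b : Finset V, (∀ v ∈ b, Zn P e ρ B g μ ν Hh own j v) ∧ P.Serv3 S j (b ∪ F) ∧
    (b ∪ F).card ≤ 2 + (if j ∈ Jt then 1 else 0) ∧
    ∀ v, ν (ag j) = vx v → S.lst j v → b ∪ F = {v}

variable {Jt : Finset J}

theorem serv_mono {j : J} {s t : Finset V} (h : P.Serv2 S j s) (hst : s ⊆ t) : P.Serv3 S j t := by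
  rcases h with ⟨v, hv, h⟩ | ⟨hg, a, ha, b, hb, h⟩
  · exact Or.inl (Or.inl ⟨v, hst hv, h⟩)
  · exact Or.inl (Or.inr ⟨hg, a, hst ha, b, hst hb, h⟩)

theorem gd_intact (cx : P.Ctx S e ρ B g μ) {j : J} (hj : Intact B g μ ν j)
    (hl : ∀ v, ν (ag j) = vx v → ¬ S.lst j v) : Gd P S e ρ B g μ ν Hh own Jt j ∅ := by
  refine ⟨(g j).its, fun v hv => Or.inr (Or.inl ⟨hj, hv⟩), ?_, ?_, fun v h1 h2 => (hl v h1 h2).elim⟩
  · obtain ⟨a, b, h⟩ := hj.2.1
    have hn := cx.st.nrm j hj.1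
    rw [h] at hn ⊢
    exact Or.inl (Or.inr ⟨hn.1, a, by simp [Sv.its], b, by simp [Sv.its],
      Geo.Pr_of_col hn.2.1 hn.2.2.1 hn.2.2.2⟩)
  · have := its_card_two hj.2.1
    rw [union_empty]
    omega

/-- A reserved item `x` together with a partner `y`. -/
theorem gd_pair (hw : P.Wf S) {j : J} {x y : V} (hg : S.geo j)
    (hx : Zn P e ρ B g μ ν Hh own j x) (h : P.Ok j x y)
    (hl : ∀ v, ν (ag j) = vx v → ¬ S.lst j v) : Gd P S e ρ B g μ ν Hh own Jt j {y} := by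
  refine ⟨{x}, fun v hv => mem_singleton.1 hv ▸ hx, ?_, ?_, fun v h1 h2 => (hl v h1 h2).elim⟩
  · exact serv_mono (Geo.serv_of_Ok hw hg h) fun v hv => by simpa using hv
  · have := card_union_le ({x} : Finset V) {y}
    simp only [card_singleton] at this
    omega

theorem pick {p : V → Prop} {U : Finset V} (h : e < (ρ.filter p).card) (hU : U.card ≤ e) :
    ∃ r ∈ ρ, r ∉ U ∧ p r := by
  obtain ⟨r, hr, hn⟩ := Geo.exists_not_mem (s := ρ.filter p) (U := U) (by omega)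
  exact ⟨r, (mem_filter.1 hr).1, hn, (mem_filter.1 hr).2⟩

/-- Every agent that is not a request is served by its zone or is an exceptional demand. -/
theorem demand (hI : ImgStmt) (cx : P.Ctx S e ρ B g μ) (hm : IsM (P.En S e ρ (axAll J V)) ν)
    (hp : P.HelpOk S e ρ Hh) (cv : P.Cov S e ρ (axAll J V) ν) {Dm : Finset J}
    (ho : ∀ j, (j ∈ ag2 Hh ∨ (j ∈ S.A ∧ ν (ag j) = ag j)) → ∃ q z, own j q z ∧
      PEd P e ρ ν Hh q z ∧ (j ∉ Dm → P.Ok j q z) ∧ (j ∉ Jt → P.Ok j q z ∨ ¬ P.junk j z))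
    {j : J} (hj : j ∈ S.A ∪ ag2 Hh) (hr : j ∉ Req S μ ν) :
    Gd P S e ρ B g μ ν Hh own Jt j ∅ ∨ (j ∈ XE B g μ ν ∪ Dm ∧ ∀ U : Finset V, U.card ≤ e →
      ∃ F, Disjoint F U ∧ F.card ≤ 2 ∧ F ⊆ ρ ∧ Gd P S e ρ B g μ ν Hh own Jt j F) := by
  rcases (Geo.En_shape hm).1 j with h | ⟨x, h⟩ | h
  · have hl : ∀ v, ν (ag j) = vx v → ¬ S.lst j v := fun v hv => by
      rw [h] at hv
      simp at hv
    have hrig : P.rigid S e ρ j := by
      rcases mem_union.1 hj with hA | hA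
      · by_contra hn
        exact cv.1 j hA (Or.inl hn) h
      · obtain ⟨s, hs, rfl⟩ := mem_image.1 hA
        exact (hp.1 s hs).2.1
    obtain ⟨q, z, h1, h2, h3, h4⟩ := ho j ((mem_union.1 hj).symm.imp id fun t => ⟨t, h⟩)
    have hpe := ped_pe hm hp h2
    have zq : Zn P e ρ B g μ ν Hh own j q := Or.inr (Or.inr ⟨q, z, h1, h2, Or.inl rfl⟩)
    have zz : Zn P e ρ B g μ ν Hh own j z := Or.inr (Or.inr ⟨q, z, h1, h2, Or.inr rfl⟩)
    have zb : ∀ v ∈ ({q, z} : Finset V), Zn P e ρ B g μ ν Hh own j v := fun v hv => by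
      rcases mem_insert.1 hv with rfl | hv
      · exact zq
      · exact mem_singleton.1 hv ▸ zz
    obtain ⟨hg, o, ho'⟩ := hrig
    by_cases hok : P.Ok j q z
    · refine Or.inl ⟨{q, z}, zb, serv_mono (Geo.serv_of_Ok cx.wf hg hok) subset_union_left, ?_,
        fun v h1 h2 => (hl v h1 h2).elim⟩
      have := card_le_two (a := q) (b := z)
      rw [union_empty]
      omega
    refine Or.inr ⟨mem_union_right _ (by by_contra hn; exact hok (h3 hn)), fun U hU => ?_⟩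
    rcases Geo.pe_cases cx.fr ho' hpe with k | k | k
    · exact absurd k hok
    · have hJ : j ∈ Jt := by
        by_contra hn
        exact ((h4 hn).resolve_left hok) k
      obtain ⟨r, r1, r2, r3⟩ := pick (Geo.triple_many cx.fr ho' hpe.1 k hpe.2.1 hpe.2.2.1) hU
      refine ⟨{r}, disjoint_singleton_left.2 r2, by simp, singleton_subset_iff.2 r1, {q, z}, zb,
        Or.inr ⟨hg, q, by simp, z, by simp, r, by simp, r3⟩, ?_, fun v h1 h2 => (hl v h1 h2).elim⟩
      have c1 := card_le_two (a := q) (b := z)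
      have c2 := card_union_le ({q, z} : Finset V) {r}
      rw [card_singleton] at c2
      rw [if_pos hJ]
      omega
    · obtain ⟨r, r1, r2, r3⟩ := pick (Geo.key_many cx.fr ho' k hpe.2.1) hU
      exact ⟨{r}, disjoint_singleton_left.2 r2, by simp, singleton_subset_iff.2 r1,
        gd_pair cx.wf hg zz (Or.inr (Or.inr r3)) hl⟩
  · have k := en_key hm h
    have inj : ∀ v, ν (ag j) = vx v → v = x := fun v hv =>
      Sum.inl_injective (Sum.inr_injective (hv.symm.trans h))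
    by_cases hx : S.lst j x
    · refine Or.inl ⟨{x}, fun v hv => mem_singleton.1 hv ▸ Or.inl h,
        Or.inl (Or.inl ⟨x, by simp, hx⟩), ?_, fun v hv _ => by rw [inj v hv, union_empty]⟩
      rw [union_empty, card_singleton]
      omega
    have hl : ∀ v, ν (ag j) = vx v → ¬ S.lst j v := fun v hv => inj v hv ▸ hx
    by_cases hin : Intact B g μ ν j
    · exact Or.inl (gd_intact cx hin hl)
    have hk : μ (ag j) = vx x := by
      by_contra hn
      exact hr (mem_req.2 ⟨k.1, x, h, hx, hn⟩)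
    obtain ⟨hg, ⟨o, o1, o2⟩, hh, -⟩ := k.2.2.resolve_left hx
    refine Or.inr ⟨mem_union_left _ (kept_XE hI cx (by rw [h]; simp) (h.trans hk.symm) hl hin),
      fun U hU => ?_⟩
    obtain ⟨r, r1, r2, r3⟩ := pick (Geo.key_many cx.fr o1 o2 hh) hU
    exact ⟨{r}, disjoint_singleton_left.2 r2, by simp, singleton_subset_iff.2 r1,
      gd_pair cx.wf hg (Or.inl h) (Or.inr (Or.inr r3)) hl⟩
  · have k := en_dm hm h
    have hl : ∀ v, ν (ag j) = vx v → ¬ S.lst j v := fun v hv => by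
      rw [h] at hv
      simp at hv
    by_cases hin : Intact B g μ ν j
    · exact Or.inl (gd_intact cx hin hl)
    refine Or.inr ⟨mem_union_left _ ?_, fun U hU => ?_⟩
    · by_cases hk : ν (ag j) = μ (ag j)
      · exact kept_XE hI cx (by rw [h]; simp) hk hl hin
      · exact newdm_XE hI cx hm.1 h hk
    · obtain ⟨a, ha, b, hb, aU, bU, hok⟩ := Geo.flex_serv cx.fr k.2.2 hU
      refine ⟨{a, b}, ?_, card_le_two, ?_, ∅, by simp,
        serv_mono (Geo.serv_of_Ok cx.wf k.2.1 hok) subset_union_right, ?_,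
        fun v h1 h2 => (hl v h1 h2).elim⟩
      · simp [disjoint_left, aU, bU]
      · intro v hv
        rcases mem_insert.1 hv with rfl | hv
        · exact ha
        · exact mem_singleton.1 hv ▸ hb
      · have := card_le_two (a := a) (b := b)
        rw [empty_union]
        omega

/-- Fillers for the requests. -/
theorem fill_req (hI : ImgStmt) (hH : HallStmt) (hP : PeStmt) (cx : P.Ctx S e ρ B g μ)
    (hm : IsM (P.En S e ρ X) ν) (sz : cov ν = 2 * S.A.card) {a1 a2 nE n : ℕ}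
    (hA : P.RectA S B g μ ν a1 a2) (hd : Disjoint ρ (itsB B g)) (hw : (ρ \ S.W).card ≤ 12)
    (en : (ends μ ν).card ≤ nE) (U : Finset V) (hU : U.card ≤ n) (c1 : 12 + nE + n + a1 ≤ e)
    (c2 : 2 * S.A.card + n + a2 + nE ≤ cw S ν + S.W.card) :
    ∃ y : J → Option V, (∀ j ∈ Req S μ ν, ∃ v ∈ PoolS S B g μ ν \ U, y j = some v ∧
      ∃ x, ν (ag j) = vx x ∧ P.Ok j x v) ∧
      ∀ i ∈ Req S μ ν, ∀ j ∈ Req S μ ν, y i = y j → i = j := by
  obtain ⟨s', y, h1, h2, h3, h4⟩ := hH J V (Req S μ ν) (PoolS S B g μ ν \ U)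
    (fun j v => ∃ x, ν (ag j) = vx x ∧ P.Ok j x v) 0 (by
      intro R hR
      have key : ∀ N : Finset V, (∀ v, v ∈ PoolS S B g μ ν \ U →
          (∃ j ∈ R, ∃ x, ν (ag j) = vx x ∧ P.Ok j x v) → v ∈ N) → R.card ≤ N.card := by
        intro N hN
        rcases R.eq_empty_or_nonempty with rfl | ⟨j, hj⟩
        · simp
        by_cases hc : R.card < a1
        · obtain ⟨-, x, hx, hl, -⟩ := mem_req.1 (hR hj)
          obtain ⟨-, ⟨o, o1, o2⟩, hh, -⟩ := (en_key hm hx).2.2.resolve_left hl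
          have k1 := Geo.key_many cx.fr o1 o2 hh
          have k2 : (ρ.filter fun r => P.Pr j x r) ⊆ N ∪ U ∪ (ρ \ PoolS S B g μ ν) := by
            intro r hr
            rw [mem_filter] at hr
            by_cases p1 : r ∈ PoolS S B g μ ν
            · by_cases p2 : r ∈ U
              · exact mem_union_left _ (mem_union_right _ p2)
              · exact mem_union_left _ (mem_union_left _ (hN r (mem_sdiff.2 ⟨p1, p2⟩)
                  ⟨j, hj, x, hx, Or.inr (Or.inr hr.2)⟩))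
            · exact mem_union_right _ (mem_sdiff.2 ⟨hr.1, p1⟩)
          have k3 := card_le_card k2
          have k4 := card_union_le (N ∪ U) (ρ \ PoolS S B g μ ν)
          have k5 := card_union_le N U
          have k6 := frame_pool (ν := ν) hI cx hd
          omega
        · set Y := (PoolS S B g μ ν).filter fun v => μ (vx v) = vx v ∧
            ∀ j ∈ R, ∀ x, ν (ag j) = vx x → ¬ P.Ok j x v with hY
          have k1 : Y.card < a2 := by
            refine (hA R hR Y (filter_subset _ _) (fun v hv => (mem_filter.1 hv).2.1)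
              fun j hj x hx v hv => (mem_filter.1 hv).2.2 j hj x hx).resolve_left hc
          set E := (PoolS S B g μ ν).filter fun v => IsEnd μ ν (vx v) with hE
          have k2 : E.card ≤ (ends μ ν).card :=
            card_end_items μ ν E fun v hv => (mem_filter.1 hv).2
          have k3 : PoolS S B g μ ν ⊆ N ∪ U ∪ Y ∪ E := by
            intro v hv
            simp only [mem_union, hY, hE, mem_filter]
            by_cases p1 : μ (vx v) = vx v
            · by_cases p2 : v ∈ U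
              · exact Or.inl (Or.inl (Or.inr p2))
              by_cases p3 : ∃ j ∈ R, ∃ x, ν (ag j) = vx x ∧ P.Ok j x v
              · exact Or.inl (Or.inl (Or.inl (hN v (mem_sdiff.2 ⟨hv, p2⟩) p3)))
              · exact Or.inl (Or.inr ⟨hv, p1, fun j hj x hx hok => p3 ⟨j, hj, x, hx, hok⟩⟩)
            · exact Or.inr ⟨hv, Or.inr ⟨p1, (mem_pool.1 hv).2.1⟩⟩
          have k4 := card_le_card k3
          have k5 := card_union_le (N ∪ U ∪ Y) E
          have k6 := card_union_le (N ∪ U) Y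
          have k7 := card_union_le N U
          have k8 := pool_card hP cx hm sz
          have k9 := card_le_card hR
          omega
      exact key _ fun v h1 h2 => by simp only [mem_filter]; exact ⟨h1, h2⟩)
  have : s' = Req S μ ν := eq_of_subset_of_card_le h1 (by omega)
  subst this
  exact ⟨y, h3, h4⟩

/-- Gluing zones and fills. -/
theorem glue (cx : P.Ctx S e ρ B g μ) (hm : IsM (P.En S e ρ (axAll J V)) ν)
    (hp : P.HelpOk S e ρ Hh) (cv : P.Cov S e ρ (axAll J V) ν)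
    (ho : ∀ j j' q z z', own j q z → own j' q z' → j = j') (F : J → Finset V)
    (h1 : ∀ j ∈ S.A ∪ ag2 Hh, F j ⊆ PoolS S B g μ ν ∧ Gd P S e ρ B g μ ν Hh own Jt j (F j))
    (h2 : ∀ i ∈ S.A ∪ ag2 Hh, ∀ j ∈ S.A ∪ ag2 Hh, i ≠ j → Disjoint (F i) (F j)) :
    ∃ f, St (S.add (ag2 Hh) (it2 Hh)) (P.Serv3 S) (S.A ∪ ag2 Hh) f ∧
      use (S.A ∪ ag2 Hh) f + cw S ν ≤ 2 * (S.A.card + Hh.card) + Jt.card := by
  have hb : ∀ j, ∃ b : Finset V, j ∈ S.A ∪ ag2 Hh →
      (∀ v ∈ b, Zn P e ρ B g μ ν Hh own j v) ∧ P.Serv3 S j (b ∪ F j) ∧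
      (b ∪ F j).card ≤ 2 + (if j ∈ Jt then 1 else 0) ∧
      ∀ v, ν (ag j) = vx v → S.lst j v → b ∪ F j = {v} := fun j => by
    by_cases hj : j ∈ S.A ∪ ag2 Hh
    · obtain ⟨b, hb⟩ := (h1 j hj).2
      exact ⟨b, fun _ => hb⟩
    · exact ⟨∅, fun h => absurd h hj⟩
  choose b hb using hb
  refine ⟨fun j => b j ∪ F j, ⟨subset_rfl, fun j hj => ?_, fun j hj => (hb j hj).2.1,
    fun i hi j hj hij => ?_, fun v hv hq => ?_⟩, ?_⟩
  · refine union_subset (fun v hv => zn_in cx hm hp ((hb j hj).1 v hv)) fun v hv => ?_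
    exact mem_union_left _ (mem_pool.1 ((h1 j hj).1 hv)).1
  · refine disjoint_left.2 fun v p1 p2 => ?_
    rcases mem_union.1 p1 with p1 | p1 <;> rcases mem_union.1 p2 with p2 | p2
    · exact hij (zn_unique cx hm hp ho ((hb i hi).1 v p1) ((hb j hj).1 v p2))
    · exact zn_pool cx hm hp ((hb i hi).1 v p1) ((h1 j hj).1 p2)
    · exact zn_pool cx hm hp ((hb j hj).1 v p2) ((h1 i hi).1 p1)
    · exact disjoint_left.1 (h2 i hi j hj hij) p1 p2
  · have hq' : S.qm v := hq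
    rcases mem_union.1 hv with hv | hv
    · rcases item_cases hm (cv.2 v hv hq') with ⟨j, hj⟩ | ⟨u, hu, h⟩
      · have k := en_key hm hj
        have hl : S.lst j v := k.2.2.resolve_right fun t => t.2.2.2 hq'
        exact ⟨j, mem_union_left _ k.1, (hb j (mem_union_left _ k.1)).2.2.2 v hj hl, hl⟩
      · rcases (en_pe hm hu h).2.2 with t | t
        · exact absurd hq' t.2.2.2.1
        · exact absurd hq' t.2.2.2.2
    · obtain ⟨s, hs, hv⟩ := mem_biUnion.1 hv
      have t := (hp.1 s hs).2.2.2.2.1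
      rcases mem_insert.1 hv with rfl | hv
      · exact absurd hq' t.2.2.2.1
      · exact absurd (mem_singleton.1 hv ▸ hq') t.2.2.2.2
  · obtain ⟨L, hL, cL⟩ := cw_set S ν
    have s1 : ∀ j ∈ S.A ∪ ag2 Hh, (b j ∪ F j).card + (if j ∈ L then 1 else 0) ≤
        2 + (if j ∈ Jt then 1 else 0) := fun j hj => by
      by_cases p : j ∈ L
      · obtain ⟨v, p1, p2⟩ := (hL j).1 p
        rw [(hb j hj).2.2.2 v p1 p2, if_pos p, card_singleton]
        omega
      · rw [if_neg p]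
        exact (hb j hj).2.2.1
    have s2 := sum_le_sum s1
    rw [sum_add_distrib, sum_add_distrib, sum_const, sum_boole, sum_boole, smul_eq_mul] at s2
    have s3 : L.card ≤ ((S.A ∪ ag2 Hh).filter fun j => j ∈ L).card :=
      card_le_card fun j hj => by
        obtain ⟨v, p1, -⟩ := (hL j).1 hj
        exact mem_filter.2 ⟨mem_union_left _ (en_key hm p1).1, hj⟩
    have s4 : ((S.A ∪ ag2 Hh).filter fun j => j ∈ Jt).card ≤ Jt.card :=
      card_le_card fun j hj => (mem_filter.1 hj).2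
    have s5 := card_union_le S.A (ag2 Hh)
    have s6 : (ag2 Hh).card ≤ Hh.card := card_image_le
    simp only [Nat.cast_id] at s2
    show (∑ j ∈ S.A ∪ ag2 Hh, (b j ∪ F j).card) + cw S ν ≤ _
    omega

end DReal

open DReal in
theorem realStmt (hI : ImgStmt) (hO : OwnStmt) (hH : HallStmt) (hP : PeStmt) : RealStmt := by
  intro J V _ _ _ _ P S e ρ B g μ ν Hh Hi nE a1 a2 a3 nH δ hR hA hd hw hn c1 c2
  obtain ⟨own, Dm, Jt, cD, -, cJ, ho1, ho2⟩ := hO J V P S e ρ B g μ ν Hh Hi nE a3 δ hR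
  have cx := hR.cx
  have en := hR.en
  set X := (S.A ∪ ag2 Hh).filter fun j => j ∉ Req S μ ν ∧
    ¬ Gd P S e ρ B g μ ν Hh own Jt j ∅ with hX
  have dem : ∀ j ∈ X, j ∈ XE B g μ ν ∪ Dm ∧ ∀ U : Finset V, U.card ≤ e →
      ∃ F, Disjoint F U ∧ F.card ≤ 2 ∧ F ⊆ ρ ∧ Gd P S e ρ B g μ ν Hh own Jt j F := fun j hj => by
    obtain ⟨p1, p2, p3⟩ := mem_filter.1 hj
    exact (demand hI cx hR.m hR.hp hR.cv ho2 p1 p2).resolve_left p3
  have cX : X.card ≤ 2 * nE + a3 + 1 + nH := by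
    have k1 : X.card ≤ (XE B g μ ν ∪ Dm).card := card_le_card fun j hj => (dem j hj).1
    have k2 := card_union_le (XE B g μ ν) Dm
    have k3 := XE_card (ν := ν) cx
    omega
  have cU := frame_pool (ν := ν) hI cx hd
  obtain ⟨fl, f1, f2⟩ := greedy (fun j F => F ⊆ ρ ∧ Gd P S e ρ B g μ ν Hh own Jt j F) e
    (ρ \ PoolS S B g μ ν) X (by omega) fun j hj => (dem j hj).2
  have cF : (X.biUnion fl).card ≤ 2 * (2 * nE + a3 + 1 + nH) := by
    have := card_biUnion_le_card_mul X fl 2 fun j hj => (f1 j hj).2.1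
    omega
  obtain ⟨y, y1, y2⟩ := fill_req hI hH hP cx hR.m hR.sz hA hd hw en (X.biUnion fl) cF c1 c2
  have flP : ∀ j ∈ X, fl j ⊆ PoolS S B g μ ν := fun j hj v hv => by
    by_contra hn
    exact disjoint_left.1 (f1 j hj).1 hv (mem_sdiff.2 ⟨(f1 j hj).2.2.1 hv, hn⟩)
  have mix : ∀ i ∈ Req S μ ν, ∀ j ∈ X, Disjoint (y i).toFinset (fl j) := fun i hi j hj => by
    obtain ⟨v, hv, p, -⟩ := y1 i hi
    rw [p, Option.toFinset_some, disjoint_singleton_left]
    exact fun h => (mem_sdiff.1 hv).2 (mem_biUnion.2 ⟨j, hj, h⟩)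
  obtain ⟨f, g1, g2⟩ := glue (Jt := Jt) cx hR.m hR.hp hR.cv ho1
    (fun j => if j ∈ Req S μ ν then (y j).toFinset else if j ∈ X then fl j else ∅)
    (fun j hj => by
      by_cases p1 : j ∈ Req S μ ν
      · obtain ⟨v, hv, p, x, hx, hok⟩ := y1 j p1
        obtain ⟨-, x', hx', hl, -⟩ := mem_req.1 p1
        have inj : ∀ u, ν (ag j) = vx u → u = x' := fun u hu =>
          Sum.inl_injective (Sum.inr_injective (hu.symm.trans hx'))
        simp only [if_pos p1, p, Option.toFinset_some]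
        exact ⟨singleton_subset_iff.2 (mem_sdiff.1 hv).1, gd_pair cx.wf
          ((en_key hR.m hx').2.2.resolve_left hl).1 (Or.inl hx) hok fun u hu => inj u hu ▸ hl⟩
      by_cases p2 : j ∈ X
      · simp only [if_neg p1, if_pos p2]
        exact ⟨flP j p2, (f1 j p2).2.2.2⟩
      · simp only [if_neg p1, if_neg p2]
        refine ⟨empty_subset _, ?_⟩
        by_contra hn
        exact p2 (mem_filter.2 ⟨hj, p1, hn⟩))
    (fun i _ j _ hij => by
      by_cases p1 : i ∈ Req S μ ν <;> by_cases q1 : j ∈ Req S μ ν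
      · obtain ⟨v, -, p, -⟩ := y1 i p1
        obtain ⟨u, -, q, -⟩ := y1 j q1
        simp only [if_pos p1, if_pos q1, p, q, Option.toFinset_some, disjoint_singleton]
        exact fun h => hij (y2 i p1 j q1 (by rw [p, q, h]))
      · simp only [if_pos p1, if_neg q1]
        split_ifs with q2
        · exact mix i p1 j q2
        · exact disjoint_empty_right _
      · simp only [if_neg p1, if_pos q1]
        split_ifs with p2
        · exact (mix j q1 i p2).symm
        · exact disjoint_empty_left _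
      · simp only [if_neg p1, if_neg q1]
        split_ifs with p2 q2 q2
        · exact f2 i p2 j q2 hij
        · exact disjoint_empty_right _
        · exact disjoint_empty_left _
        · exact disjoint_empty_left _)
  exact ⟨f, g1, by omega⟩

end Pool.Agent.Lib.MP_ef7581_lc.D2
end

-- part Pool.Agent.Lib.MP_ef7581_lc.DCore
section

/-!
A best auxiliary matching has few nontrivial components.
-/

set_option autoImplicit false
set_option linter.unusedSectionVars false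

namespace Pool.Agent.Lib.MP_ef7581_lc.D2

open Finset Classical

noncomputable section

namespace DCore

section Gen

variable {α : Type} [Fintype α] [DecidableEq α]

/-- Change of an additive functional on `Y`. -/
def chg (G : α → α → ℤ) (μ ν : α → α) (Y : Finset α) : ℤ := ∑ x ∈ Y, (G x (ν x) - G x (μ x))

theorem sm_mix_l (G : α → α → ℤ) (μ ν : α → α) (Y : Finset α) :
    sm G (mix Y μ ν) = sm G μ + chg G μ ν Y := sm_mix G Y μ ν

theorem sm_mix_r (G : α → α → ℤ) (μ ν : α → α) (Y : Finset α) :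
    sm G (mix Y ν μ) = sm G ν - chg G μ ν Y := by
  rw [sm_mix, chg, sub_eq_add_neg, ← sum_neg_distrib]
  congr 1
  exact sum_congr rfl fun x _ => by ring

theorem chg_union (G : α → α → ℤ) (μ ν : α → α) {Y Z : Finset α} (h : Disjoint Y Z) :
    chg G μ ν (Y ∪ Z) = chg G μ ν Y + chg G μ ν Z := sum_union h

theorem chg_compl (G : α → α → ℤ) (μ ν : α → α) (Y : Finset α) :
    chg G μ ν Y + chg G μ ν Yᶜ = sm G ν - sm G μ := by
  rw [chg, chg, sum_add_sum_compl, sum_sub_distrib]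
  rfl

theorem chg_zero (G : α → α → ℤ) {μ ν : α → α} {Y : Finset α} (h : ∀ x ∈ Y, μ x = ν x) :
    chg G μ ν Y = 0 := sum_eq_zero fun x hx => by rw [h x hx, sub_self]

/-- The functional counting covered nodes. -/
def Gc : α → α → ℤ := fun x y => if y ≠ x then 1 else 0

theorem sm_Gc (m : α → α) : sm Gc m = (cov m : ℤ) := sm_indicator (fun x y => y ≠ x) m

theorem chg_Gc (μ ν : α → α) (Y : Finset α) : chg Gc μ ν Y = dcov μ ν Y := by
  rw [chg, sum_sub_distrib, dcov]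
  simp only [Gc, sum_boole]

theorem zero_union {μ ν : α → α} {T Y Z : Finset α} (hY : ZeroSet μ ν T Y)
    (hZ : ZeroSet μ ν T Z) (h : Disjoint Y Z) : ZeroSet μ ν T (Y ∪ Z) := by
  obtain ⟨a1, a2, a3, ⟨x, hx, a4⟩, a5⟩ := hY
  obtain ⟨b1, b2, b3, -, b5⟩ := hZ
  refine ⟨a1.union b1, a2.union b2, disjoint_union_left.2 ⟨a3, b3⟩, ⟨x, mem_union_left _ hx, a4⟩,
    ?_⟩
  rw [← chg_Gc] at a5 b5 ⊢
  rw [chg_union _ _ _ h, a5, b5, add_zero]

theorem zero_compl {μ ν : α → α} (hμ : ∀ x, μ (μ x) = x) (hν : ∀ x, ν (ν x) = x)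
    (hc : cov ν = cov μ) {Y : Finset α} (hY : ZeroSet μ ν ∅ Y) :
    (∀ x ∈ Yᶜ, μ x = ν x) ∨ ZeroSet μ ν ∅ Yᶜ := by
  by_cases h : ∀ x ∈ Yᶜ, μ x = ν x
  · exact Or.inl h
  push Not at h
  refine Or.inr ⟨hY.1.compl hμ, hY.2.1.compl hν, disjoint_empty_right _, h, ?_⟩
  have h1 := chg_compl Gc μ ν Y
  rw [sm_Gc, sm_Gc, hc, chg_Gc, chg_Gc, hY.2.2.2.2] at h1
  linarith

theorem mix_ne {Y : Finset α} {μ ν : α → α} {x : α} (h1 : x ∈ Y → ν x ≠ x)
    (h2 : x ∉ Y → μ x ≠ x) : mix Y μ ν x ≠ x := by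
  by_cases h : x ∈ Y
  · rw [mix_in h]; exact h1 h
  · rw [mix_out h]; exact h2 h

end Gen

variable {J V : Type} [Fintype J] [Fintype V] [DecidableEq J] [DecidableEq V]

/-- The functional counting agents matched to an item of their list. -/
def Gw (l : J → V → Prop) : Nd J V → Nd J V → ℤ
  | Sum.inl j, y => if ∃ v, y = vx v ∧ l j v then 1 else 0
  | Sum.inr _, _ => 0

theorem sm_Gw (S : Sub J V) (m : Nd J V → Nd J V) : sm (Gw S.lst) m = (cw S m : ℤ) := by
  rw [sm, Fintype.sum_sum_type]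
  simp only [Gw, sum_const_zero, add_zero, cw, sum_boole]

theorem card_its (s : Sv V) : s.its.card ≤ 3 := by
  cases s with
  | non => simp [Sv.its]
  | one c => simp [Sv.its]
  | two a b => exact card_le_two.trans (by norm_num)
  | three a z b => exact card_le_three

theorem mem_itsB {B : Finset J} {g : J → Sv V} {j : J} {v : V} (hj : j ∈ B)
    (hv : v ∈ (g j).its) : v ∈ itsB B g := mem_biUnion.2 ⟨j, hj, hv⟩

theorem itsB_mono {B B' : Finset J} (h : B' ⊆ B) (g : J → Sv V) : itsB B' g ⊆ itsB B g :=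
  biUnion_subset_biUnion_of_subset_left _ h

theorem card_itsB (B : Finset J) (g : J → Sv V) :
    (itsB B g).card ≤ use B fun j => (g j).its := card_biUnion_le

theorem card_itsB' (B : Finset J) (g : J → Sv V) : (itsB B g).card ≤ 3 * B.card := by
  refine (card_itsB B g).trans ?_
  rw [use, mul_comm]
  exact sum_le_card_nsmul _ _ _ fun j _ => card_its _

theorem card_it2 (Γ : Finset (J × V × V)) : (it2 Γ).card ≤ 2 * Γ.card := by
  refine card_biUnion_le.trans ?_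
  rw [mul_comm]
  exact sum_le_card_nsmul _ _ _ fun j _ => card_le_two

theorem use_split {B B' : Finset J} (h : B' ⊆ B) (f : J → Finset V) :
    use B f = use (B \ B') f + use B' f := (sum_sdiff h).symm

variable {P : Geo J V} {S : Sub J V} {e : ℕ} {ρ : Finset V}

theorem exists_best {X : Ax J V} {μ : Nd J V → Nd J V} {w : ℕ}
    (h : ∃ ν, P.Cls S e ρ X μ w ν) : ∃ ν, P.Best S e ρ X μ w ν := by
  obtain ⟨ν0, h0⟩ := h
  obtain ⟨ν, hν, hm⟩ := exists_min_image (univ.filter fun ν => P.Cls S e ρ X μ w ν)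
    (fun ν => toLex (newc μ ν, toLex (OrderDual.toDual (ends μ ν).card, pot μ ν)))
    ⟨ν0, mem_filter.2 ⟨mem_univ _, h0⟩⟩
  refine ⟨ν, (mem_filter.1 hν).2, fun ν' h' => ?_⟩
  have := hm ν' (mem_filter.2 ⟨mem_univ _, h'⟩)
  rw [Prod.Lex.toLex_le_toLex, Prod.Lex.toLex_le_toLex] at this
  rcases this with h1 | ⟨h1, h2 | ⟨h2, h3⟩⟩
  · exact Or.inl h1
  · exact Or.inr ⟨h1, Or.inl h2⟩
  · exact Or.inr ⟨h1, Or.inr ⟨(OrderDual.toDual.injective h2).symm, h3⟩⟩

/-- Undoing a zero set leaves the class. -/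
theorem best_gain (hC : CompStmt) {X : Ax J V} {μ ν : Nd J V → Nd J V} {w : ℕ}
    (hb : P.Best S e ρ X μ w ν) (hμ : ∀ x, μ (μ x) = x) {T Y : Finset (Nd J V)}
    (hY : ZeroSet μ ν T Y) (hcv : P.Cov S e ρ X (mix Y ν μ)) :
    (cw S ν : ℤ) - chg (Gw S.lst) μ ν Y < w := by
  obtain ⟨⟨c1, c2, c3, c4⟩, hm⟩ := hb
  obtain ⟨-, -, -, -, -, -, -, -, -, z, -⟩ := hC _ μ ν hμ c1.1
  obtain ⟨z1, -, z3⟩ := z T Y hY
  by_contra hn
  have m1 : IsM (fun x y => P.En S e ρ X x y ∨ μ x = y) μ := ⟨hμ, fun x _ => Or.inr rfl⟩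
  have h1 := sm_mix_r (Gw S.lst) μ ν Y
  rw [sm_Gw, sm_Gw] at h1
  have := hm (mix Y ν μ) ⟨c1.mix m1 hY.2.1 hY.1, z1.trans c2, by omega, hcv⟩
  omega

theorem pst_res {B B' : Finset J} {U : Finset V} {g : J → Sv V} (h : P.PSt S B g)
    (hB : B' ⊆ B) (hU : Disjoint U (itsB B' g)) : P.PSt (S.res B' U) B' g where
  sub := Subset.rfl
  inW := fun j hj v hv => mem_sdiff.2 ⟨h.inW j (hB hj) hv,
    fun hu => disjoint_left.1 hU hu (mem_itsB hj hv)⟩
  nrm := fun j hj => by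
    have := h.nrm j (hB hj)
    revert this
    cases g j <;> exact id
  dis := fun i hi j hj => h.dis i (hB hi) j (hB hj)
  nq := fun j hj => h.nq j (hB hj)

/-- Items that must be used and are not used outside `B'` are singles of `B'`. -/
theorem qm_single {B B' : Finset J} {g : J → Sv V} (h : P.NSt S B g) {v : V} (hv : v ∈ S.W)
    (hq : S.qm v) (hn : v ∉ itsB (B \ B') g) : ∃ j ∈ B', g j = Sv.one v := by
  obtain ⟨j, hj, hg⟩ := h.2 v hv hq
  refine ⟨j, ?_, hg⟩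
  by_contra hj'
  exact hn (mem_itsB (mem_sdiff.2 ⟨hj, hj'⟩) (by rw [hg]; simp [Sv.its]))

/-- Gluing a state on `B'` with the old services outside `B'`. -/
theorem glue (hN : NormStmt) (hw : P.Wf S) {B B' : Finset J} {U : Finset V} {g : J → Sv V}
    (hg : P.Min3 S B g) (hB : B' ⊆ B) (h1 : itsB (B \ B') g ⊆ U)
    (h2 : Disjoint U (itsB B' g)) {f : J → Finset V}
    (hf : St (S.res B' U) (P.Serv3 S) B' f) : use B' (fun j => (g j).its) ≤ use B' f := by
  obtain ⟨-, -, -, -, n5, -⟩ := hN J V P S B hw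
  have s0 := n5 g hg.1
  have out : ∀ i ∈ B, i ∉ B' → ∀ j ∈ B', Disjoint (g i).its (f j) := fun i hi hi' j hj =>
    disjoint_left.2 fun v hv hv' =>
      (mem_sdiff.1 (hf.inW j hj hv')).2 (h1 (mem_itsB (mem_sdiff.2 ⟨hi, hi'⟩) hv))
  have st : St S (P.Serv3 S) B fun j => if j ∈ B' then f j else (g j).its := by
    refine ⟨s0.sub, fun j hj => ?_, fun j hj => ?_, fun i hi j hj hne => ?_, fun v hv hq => ?_⟩
    · split_ifs with h
      · exact (hf.inW j h).trans sdiff_subset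
      · exact s0.inW j hj
    · split_ifs with h
      · exact hf.srv j h
      · exact s0.srv j hj
    · split_ifs with h h' h'
      · exact hf.dis i h j h' hne
      · exact (out j hj h' i h).symm
      · exact out i hi h j h'
      · exact s0.dis i hi j hj hne
    · by_cases hu : v ∈ U
      · obtain ⟨j, hj, e1, e2⟩ := s0.qok v hv hq
        have : j ∉ B' := fun hj' => disjoint_left.1 h2 hu
          (mem_itsB hj' (by rw [show (g j).its = {v} from e1]; exact mem_singleton_self v))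
        exact ⟨j, hj, by rw [if_neg this]; exact e1, e2⟩
      · obtain ⟨j, hj, e1, e2⟩ := hf.qok v (mem_sdiff.2 ⟨hv, hu⟩) hq
        exact ⟨j, hB hj, by rw [if_pos hj]; exact e1, e2⟩
  have := hg.2 _ st
  rw [use_split hB, use_split hB (fun j => if j ∈ B' then f j else (g j).its)] at this
  have e1 : use (B \ B') (fun j => if j ∈ B' then f j else (g j).its) =
      use (B \ B') fun j => (g j).its :=
    sum_congr rfl fun j hj => by simp only [if_neg (mem_sdiff.1 hj).2]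
  have e2 : use B' (fun j => if j ∈ B' then f j else (g j).its) = use B' f :=
    sum_congr rfl fun j hj => by simp only [if_pos hj]
  omega

/-- Edges between nodes that survive in the smaller instance. -/
theorem en_res {A' B' : Finset J} {U U' : Finset V} {X : Ax J V} {x y : Nd J V}
    (h : P.En (S.rem A' U') e ρ X x y) (ha : ∀ j ∈ S.A \ A', x = ag j ∨ y = ag j → j ∈ B')
    (hv : ∀ v ∈ S.W \ U', x = vx v ∨ y = vx v → v ∈ S.W \ U) :
    P.En (S.res B' U) e ρ (axAll J V) x y := by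
  rcases x with i | u | i <;> rcases y with j | v | j <;> simp only [Geo.En] at h ⊢
  · exact ⟨ha _ h.1 (Or.inl rfl), hv _ h.2.1 (Or.inr rfl), h.2.2.imp id fun a => ⟨trivial, a.2⟩⟩
  · exact ⟨h.1, ha _ h.2.1 (Or.inl rfl), h.2.2⟩
  · exact ⟨ha _ h.1 (Or.inr rfl), hv _ h.2.1 (Or.inl rfl), h.2.2.imp id fun a => ⟨trivial, a.2⟩⟩
  · exact ⟨hv _ h.1 (Or.inl rfl), hv _ h.2.1 (Or.inr rfl), trivial,
      h.2.2.2.imp (fun a => ⟨a.1, id⟩) fun a => ⟨a.1, id⟩⟩
  · exact ⟨h.1, ha _ h.2.1 (Or.inr rfl), h.2.2⟩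

end DCore

open DCore

theorem r0Stmt (hC : CompStmt) (hN : NormStmt) (hI : ImgStmt) (hO : OptStmt) (hR : RealStmt) :
    R0Stmt := by
  intro J V _ _ _ _ P S e ρ B B' U g μ he hw hf hg hB hU1 hU2 hsi him hρW hρ hρU hu hex
  obtain ⟨ν, hb⟩ := exists_best hex
  have ps : P.PSt (S.res B' U) B' g := pst_res hg.1.1 hB hU2
  have hw' : P.Wf (S.res B' U) := hw
  obtain ⟨i1, i2, i3, i4, -, -, i7, -⟩ := (hI J V P (S.res B' U) e ρ B' g hw' hf ps hsi).2 μ him
  obtain ⟨c1, c2, c3, c4⟩ := hb.1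
  have c2' : cov ν = 2 * B'.card := c2
  have cwe : ∀ m, cw (S.res B' U) m = cw S m := fun _ => rfl
  have cμ : P.Cov (S.res B' U) e ρ (axAll J V) μ := by
    refine ⟨fun j hj h => i4 j hj (h.resolve_right id), fun v hv hq => ?_⟩
    obtain ⟨j, hj, e1⟩ := qm_single (B' := B') hg.1 (mem_sdiff.1 hv).1 hq
      fun h => (mem_sdiff.1 hv).2 (hU1 h)
    rw [(i7 j hj v e1).1]
    simp
  have gain : ∀ Y, ZeroSet μ ν ∅ Y →
      (cw S ν : ℤ) - chg (Gw S.lst) μ ν Y < cw S μ + 2 := fun Y hY => by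
    have := best_gain hC hb him.1 hY
      ⟨fun j hj h => mix_ne (fun _ => cμ.1 j hj h) fun _ => c4.1 j hj h,
        fun v hv h => mix_ne (fun _ => cμ.2 v hv h) fun _ => c4.2 v hv h⟩
    exact_mod_cast this
  obtain ⟨-, -, -, -, -, k6, -, -, -, -, k11⟩ := hC _ μ ν him.1 c1.1
  have hK : (ncomp μ ν).card ≤ 4 := by
    refine k11 2 0 ∅ (by omega) (by omega) ?_
    rintro ⟨Y, hY, hd⟩
    have d1 := hd 0 1 (by decide)
    have d2 : Disjoint (Y 0 ∪ Y 1) (Y 2) :=
      disjoint_union_left.2 ⟨hd 0 2 (by decide), hd 1 2 (by decide)⟩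
    have z := zero_union (zero_union (hY 0) (hY 1) d1) (hY 2) d2
    have e1 := chg_compl (Gw S.lst) μ ν (Y 0 ∪ Y 1 ∪ Y 2)
    rw [chg_union _ _ _ d2, chg_union _ _ _ d1, sm_Gw, sm_Gw] at e1
    have g0 := gain _ (hY 0)
    have g1 := gain _ (hY 1)
    have g2 := gain _ (hY 2)
    rw [cwe] at c3
    rcases zero_compl him.1 c1.1 (c2'.trans i2.symm) z with h | h
    · rw [chg_zero _ h] at e1
      omega
    · have := gain _ h
      omega
  have cx : P.Ctx (S.res B' U) e ρ B' g μ := ⟨hw', hf, ps, hsi, him⟩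
  obtain ⟨ra, jb⟩ := hO J V P (S.res B' U) e ρ B' g μ ν (axAll J V) _ 4 0 cx hb hK
    (fun _ _ h => h.elim) (fun _ _ _ _ h => h.elim) (Or.inl trivial)
  have rc : P.RCtx (S.res B' U) e ρ B' g μ ν ∅ ∅ 8 8 1 :=
    ⟨cx, ⟨fun s hs => absurd hs (notMem_empty s), fun s hs => absurd hs (notMem_empty s)⟩,
      fun s hs => absurd hs (notMem_empty s),
      ⟨c1.1, fun x hx => (c1.2 x hx).elim id fun h => h ▸ i1.2 x (h ▸ hx)⟩, c2, c4, by omega, jb,
      Or.inl rfl⟩
  have hρ' : (ρ \ (S.res B' U).W).card ≤ 12 := by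
    refine le_trans (card_le_card fun v hv => ?_) hρU
    rw [mem_sdiff] at hv
    refine mem_inter.2 ⟨hv.1, ?_⟩
    by_contra h
    exact hv.2 (mem_sdiff.2 ⟨hρW hv.1, h⟩)
  have eW : (S.res B' U).W = S.W \ U := rfl
  have eA : (S.res B' U).A = B' := rfl
  rw [cwe] at c3 i3
  obtain ⟨f, f1, f2⟩ := hR J V P (S.res B' U) e ρ B' g μ ν ∅ ∅ 8 27 10 8 0 1 rc ra
    (hρ.mono_right (itsB_mono hB g)) hρ' (by simp) (by omega) (by rw [eW, eA, cwe]; omega)
  have ea : ag2 (∅ : Finset (J × V × V)) = ∅ := image_empty _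
  have ei : it2 (∅ : Finset (J × V × V)) = ∅ := biUnion_empty
  rw [ea, union_empty, eA, cwe, card_empty] at f2
  simp only [ea, ei, Sub.add, union_empty] at f1
  have := glue hN hw hg hB hU1 hU2 (f := f) f1
  omega

theorem coreStmt (hC : CompStmt) (hI : ImgStmt) (h0 : R0Stmt) : CoreStmt := by
  intro J V _ _ _ _ P S e ρ j0 B' g Γ μ X w κ he hw hf hj0 hg hρW hρ hΓ hB hκ hsi hd1 hd2 him
    hmc hu hex
  obtain ⟨ν, hb⟩ := exists_best hex
  refine ⟨ν, hb, ?_⟩
  obtain ⟨B, hBe⟩ : ∃ B, B = S.A.erase j0 := ⟨_, rfl⟩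
  rw [← hBe] at hg hρ hB hκ hu
  obtain ⟨U, hU⟩ : ∃ U, U = it2 Γ ∪ itsB (B \ B') g := ⟨_, rfl⟩
  have hU1 : itsB (B \ B') g ⊆ U := hU ▸ subset_union_right
  have hU2 : Disjoint U (itsB B' g) := by
    rw [hU, disjoint_union_left]
    refine ⟨hd2, disjoint_left.2 fun v h1 h2 => ?_⟩
    obtain ⟨i, hi, hv⟩ := mem_biUnion.1 h1
    obtain ⟨j, hj, hv'⟩ := mem_biUnion.1 h2
    rw [mem_sdiff] at hi
    exact disjoint_left.1 (hg.1.1.dis i hi.1 j (hB hj) fun h => hi.2 (h ▸ hj)) hv hv'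
  have ps : P.PSt (S.res B' U) B' g := pst_res hg.1.1 hB hU2
  have hw' : P.Wf (S.res B' U) := hw
  obtain ⟨i1, i2, -, i4, -, -, i7, -⟩ := (hI J V P (S.res B' U) e ρ B' g hw' hf ps hsi).2 μ him
  obtain ⟨c1, c2, c3, c4⟩ := hb.1
  have c2' : cov ν = 2 * (S.A \ ag2 Γ).card := c2
  have cG := card_it2 Γ
  have hr := h0 J V P S e ρ B B' U g μ he hw hf hg hB hU1 hU2 hsi him hρW hρ (by
      refine le_trans (card_le_card (t := it2 Γ) fun v hv => ?_) (by omega)
      rw [mem_inter, hU, mem_union] at hv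
      exact hv.2.resolve_right fun h => disjoint_left.1 hρ hv.1 (itsB_mono sdiff_subset g h)) (by
      have a1 := le_card_sdiff U S.W
      have a2 : U.card ≤ (it2 Γ).card + (itsB (B \ B') g).card := hU ▸ card_union_le _ _
      have a3 := card_itsB (B \ B') g
      have a4 := use_split hB fun j => (g j).its
      omega)
  have hBA : B' ⊆ S.A \ ag2 Γ := fun j hj => mem_sdiff.2
    ⟨mem_of_mem_erase (hBe ▸ hB hj), disjoint_left.1 hd1 hj⟩
  have cA : ((S.A \ ag2 Γ) \ B').card ≤ κ + 1 := by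
    refine le_trans (card_le_card (t := insert j0 (B \ B')) fun j hj => ?_)
      ((card_insert_le _ _).trans (by omega))
    simp only [mem_sdiff, mem_insert, hBe, mem_erase] at hj ⊢
    tauto
  have cA' := card_sdiff_add_card_eq_card hBA
  obtain ⟨T, hT⟩ : ∃ T : Finset (Nd J V),
      T = ((S.A \ ag2 Γ) \ B').image ag ∪ (itsB (B \ B') g).image vx := ⟨_, rfl⟩
  have cT : T.card ≤ 4 * κ + 1 := by
    have a1 : T.card ≤ _ := hT ▸ card_union_le _ _
    have a2 := card_image_le (s := (S.A \ ag2 Γ) \ B') (f := (ag : J → Nd J V))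
    have a3 := card_image_le (s := itsB (B \ B') g) (f := (vx : V → Nd J V))
    have a4 := card_itsB' (B \ B') g
    omega
  have Ta : ∀ j ∈ S.A \ ag2 Γ, ag j ∉ T → j ∈ B' := fun j hj h => by
    by_contra hn
    exact h (hT ▸ mem_union_left _ (mem_image_of_mem _ (mem_sdiff.2 ⟨hj, hn⟩)))
  have Tv : ∀ v, vx v ∉ T → v ∉ itsB (B \ B') g := fun v h hn =>
    h (hT ▸ mem_union_right _ (mem_image_of_mem _ hn))
  have qc : ∀ v ∈ S.W, S.qm v → v ∉ itsB (B \ B') g → μ (vx v) ≠ vx v := fun v hv hq hn => by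
    obtain ⟨j, hj, e1⟩ := qm_single hg.1 hv hq hn
    rw [(i7 j hj v e1).1]
    simp
  have gain : ∀ Y, ZeroSet μ ν T Y → 1 ≤ chg (Gw S.lst) μ ν Y := fun Y hY => by
    have nT : ∀ x ∈ Y, x ∉ T := fun x hx => disjoint_left.1 hY.2.2.1 hx
    have : (cw (S.rem (ag2 Γ) (it2 Γ)) ν : ℤ) - chg (Gw S.lst) μ ν Y < w :=
      best_gain hC hb him.1 hY
      ⟨fun j hj h => mix_ne (fun hx => h.elim (i4 j (Ta j hj (nT _ hx)))
          (hmc j (Ta j hj (nT _ hx)))) fun _ => c4.1 j hj h,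
        fun v hv h => mix_ne (fun hx => qc v (mem_sdiff.1 hv).1 h (Tv v (nT _ hx)))
          fun _ => c4.2 v hv h⟩
    omega
  obtain ⟨-, -, -, -, -, -, -, -, -, k10, k11⟩ := hC _ μ ν him.1 c1.1
  refine le_trans (k11 1 (κ + 1) T (by omega) (by omega) ?_) (by omega)
  rintro ⟨Y, hY, hd⟩
  have d1 := hd 0 1 (by decide)
  have z := zero_union (hY 0) (hY 1) d1
  have e1 := sm_mix_l (Gw S.lst) μ ν (Y 0 ∪ Y 1)
  rw [chg_union _ _ _ d1, sm_Gw, sm_Gw] at e1
  have g0 := gain _ (hY 0)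
  have g1 := gain _ (hY 1)
  generalize Y 0 ∪ Y 1 = Z at z e1
  have nT : ∀ x ∈ Z, x ∉ T := fun x hx => disjoint_left.1 z.2.2.1 hx
  have m1 : IsM (fun x y => P.En (S.rem (ag2 Γ) (it2 Γ)) e ρ X x y ∨ μ x = y) μ :=
    ⟨him.1, fun x _ => Or.inr rfl⟩
  refine hr ⟨mix Z μ ν, ⟨(m1.mix c1 z.1 z.2.1).1, fun x hx => ?_⟩, (k10 T Z z).2.1.trans i2, ?_,
    fun j hj h => ?_, fun v hv h => ?_⟩
  · by_cases hZ : x ∈ Z
    · rw [mix_in hZ] at hx ⊢
      have hy := z.2.1 x hZ
      refine (c1.2 x hx).imp (fun h => en_res h (fun j hj h' => Ta j hj ?_) fun v hv h' => ?_) id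
      · rcases h' with h' | h'
        · exact h' ▸ nT _ hZ
        · exact h' ▸ nT _ hy
      · have : v ∉ itsB (B \ B') g := by
          refine Tv v ?_
          rcases h' with h' | h'
          · exact h' ▸ nT _ hZ
          · exact h' ▸ nT _ hy
        rw [mem_sdiff] at hv ⊢
        refine ⟨hv.1, ?_⟩
        rw [hU, mem_union]
        exact fun h => h.elim hv.2 this
    · exact Or.inr (mix_out hZ).symm
  · show cw S μ + 2 ≤ cw S (mix Z μ ν)
    omega
  · have h' := h.resolve_right id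
    exact mix_ne (fun _ => c4.1 j (hBA hj) (Or.inl h')) fun _ => i4 j hj h'
  · have hv' := mem_sdiff.1 hv
    rw [hU, mem_union, not_or] at hv'
    exact mix_ne (fun _ => c4.2 v (mem_sdiff.2 ⟨hv'.1, hv'.2.1⟩) h) fun _ => qc v hv'.1 h hv'.2.2

end

end Pool.Agent.Lib.MP_ef7581_lc.D2
end
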