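import Mathlib
import Pool.Agent.Lib.MP_ef7581_lc.DComp

/-!
The jump step of the slack theorem.
-/

set_option autoImplicit false
set_option linter.unusedSectionVars false

namespace Pool.Agent.Lib.MP_ef7581_lc.D2

namespace DJump

open Finset Classical Geo

variable {J V : Type} [Fintype J] [Fintype V] [DecidableEq J] [DecidableEq V]

/-! ### Installed pairs -/

/-- The items of an installed pair. -/
abbrev pr (s : J × V × V) : Finset V := {s.2.1, s.2.2}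

theorem mem_ag2 {Γ : Finset (J × V × V)} {j : J} : j ∈ ag2 Γ ↔ ∃ s ∈ Γ, s.1 = j := by
  simp only [ag2, mem_image]

theorem mem_it2 {Γ : Finset (J × V × V)} {v : V} : v ∈ it2 Γ ↔ ∃ s ∈ Γ, v ∈ pr s := by
  simp only [it2, mem_biUnion]

theorem it2_l {Γ : Finset (J × V × V)} {s : J × V × V} (h : s ∈ Γ) : s.2.1 ∈ it2 Γ :=
  mem_it2.2 ⟨s, h, by simp⟩

theorem it2_r {Γ : Finset (J × V × V)} {s : J × V × V} (h : s ∈ Γ) : s.2.2 ∈ it2 Γ :=
  mem_it2.2 ⟨s, h, by simp⟩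

theorem ag2_of {Γ : Finset (J × V × V)} {s : J × V × V} (h : s ∈ Γ) : s.1 ∈ ag2 Γ :=
  mem_ag2.2 ⟨s, h, rfl⟩

theorem card_ag2 (Γ : Finset (J × V × V)) : (ag2 Γ).card ≤ Γ.card := card_image_le

theorem card_it2_le (Γ : Finset (J × V × V)) : (it2 Γ).card ≤ 2 * Γ.card := by
  refine card_biUnion_le.trans ?_
  rw [mul_comm, ← smul_eq_mul, ← sum_const]
  exact sum_le_sum fun s _ => card_le_two

theorem card_it2 {Γ : Finset (J × V × V)} (h : Dis2 Γ) (hn : ∀ s ∈ Γ, s.2.1 ≠ s.2.2) :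
    (it2 Γ).card = 2 * Γ.card := by
  unfold it2
  rw [card_biUnion fun s hs s' hs' hne => (h s hs s' hs' hne).2, mul_comm, ← smul_eq_mul,
    ← sum_const]
  exact sum_congr rfl fun s hs => card_pair (hn s hs)

theorem Dis2.mono {Γ Γ' : Finset (J × V × V)} (h : Dis2 Γ) (hs : Γ' ⊆ Γ) : Dis2 Γ' :=
  fun s a s' b => h s (hs a) s' (hs b)

theorem Dis2.eq_of {Γ : Finset (J × V × V)} (h : Dis2 Γ) {s s' : J × V × V} (a : s ∈ Γ)
    (b : s' ∈ Γ) (e : s.1 = s'.1) : s = s' := by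
  by_contra hn
  exact (h s a s' b hn).1 e

theorem dis2_insert {Γ : Finset (J × V × V)} (h : Dis2 Γ) {s : J × V × V} (h1 : s.1 ∉ ag2 Γ)
    (h2 : s.2.1 ∉ it2 Γ) (h3 : s.2.2 ∉ it2 Γ) : Dis2 (insert s Γ) := by
  have key : ∀ t ∈ Γ, s.1 ≠ t.1 ∧ Disjoint (pr s) (pr t) := fun t ht =>
    ⟨fun e => h1 (e ▸ ag2_of ht), disjoint_left.2 fun v hv hv' => by
      have : v ∈ it2 Γ := mem_it2.2 ⟨t, ht, hv'⟩
      rcases mem_insert.1 hv with e | e
      · exact h2 (e ▸ this)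
      · exact h3 (mem_singleton.1 e ▸ this)⟩
  intro a ha b hb hne
  rcases mem_insert.1 ha with e1 | e1 <;> rcases mem_insert.1 hb with e2 | e2
  · exact absurd (e1.trans e2.symm) hne
  · subst e1; exact key b e2
  · subst e2; exact ⟨(key a e1).1.symm, (key a e1).2.symm⟩
  · exact h a e1 b e2 hne

theorem Dis2.erase {Γ : Finset (J × V × V)} (h : Dis2 Γ) {s : J × V × V} (hs : s ∈ Γ) :
    s.1 ∉ ag2 (Γ.erase s) ∧ s.2.1 ∉ it2 (Γ.erase s) ∧ s.2.2 ∉ it2 (Γ.erase s) := by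
  refine ⟨fun a => ?_, fun a => ?_, fun a => ?_⟩
  · obtain ⟨t, ht, e⟩ := mem_ag2.1 a
    exact (mem_erase.1 ht).1 (Dis2.eq_of h (mem_erase.1 ht).2 hs e)
  · obtain ⟨t, ht, e⟩ := mem_it2.1 a
    exact disjoint_left.1 (h t (mem_erase.1 ht).2 s hs (mem_erase.1 ht).1).2 e (by simp)
  · obtain ⟨t, ht, e⟩ := mem_it2.1 a
    exact disjoint_left.1 (h t (mem_erase.1 ht).2 s hs (mem_erase.1 ht).1).2 e (by simp)

theorem ag2_insert (s : J × V × V) (Γ : Finset (J × V × V)) :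
    ag2 (insert s Γ) = insert s.1 (ag2 Γ) := image_insert _ _ _

theorem it2_insert (s : J × V × V) (Γ : Finset (J × V × V)) :
    it2 (insert s Γ) = pr s ∪ it2 Γ := biUnion_insert

theorem it2_mono {Γ Γ' : Finset (J × V × V)} (h : Γ' ⊆ Γ) : it2 Γ' ⊆ it2 Γ :=
  biUnion_subset_biUnion_of_subset_left _ h

theorem ag2_mono {Γ Γ' : Finset (J × V × V)} (h : Γ' ⊆ Γ) : ag2 Γ' ⊆ ag2 Γ :=
  image_subset_image h

variable {P : Geo J V}

/-- Adding the installed services to a state of the remaining instance. -/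
theorem glue {S : Sub J V} {Γ Hh : Finset (J × V × V)} {D : Finset V} {l : ℕ}
    {f : J → Finset V} (hd : Dis2 Γ) (hA : ag2 Γ ⊆ S.A) (hW : it2 Γ ⊆ S.W) (hD : D ⊆ S.W)
    (hDd : Disjoint D (it2 Γ)) (hH : Hh ⊆ Γ)
    (hs : ∀ s ∈ Γ, s ∉ Hh → P.Serv3 S s.1 (pr s)) (hq : ∀ v ∈ it2 Γ ∪ D, ¬ S.qm v)
    (h : St ((S.rem (ag2 Γ) (it2 Γ ∪ D)).add (ag2 Hh) (it2 Hh)) (P.Serv3 S)
      ((S.A \ ag2 Γ) ∪ ag2 Hh) f)
    (hu : use ((S.A \ ag2 Γ) ∪ ag2 Hh) f + l ≤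
      (S.W \ (it2 Γ ∪ D)).card + (it2 Hh).card + D.card) : P.Sol3 S l := by
  set B1 := (S.A \ ag2 Γ) ∪ ag2 Hh with hB1
  set W1 := (S.W \ (it2 Γ ∪ D)) ∪ it2 Hh with hW1
  have hin : ∀ j ∈ B1, f j ⊆ W1 := h.inW
  have hout : ∀ j ∈ S.A, j ∉ B1 → ∃ s ∈ Γ, s ∉ Hh ∧ s.1 = j := fun j hj hn => by
    rw [hB1, mem_union, mem_sdiff, not_or] at hn
    obtain ⟨s, a, e⟩ := mem_ag2.1 (by tauto : j ∈ ag2 Γ)
    exact ⟨s, a, fun b => hn.2 (e ▸ ag2_of b), e⟩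
  let f2 : J → Finset V := fun j => it2 (Γ.filter fun s => s.1 = j)
  have hf2 : ∀ s ∈ Γ, f2 s.1 = pr s := fun s hs => by
    have : (Γ.filter fun t => t.1 = s.1) = {s} := by
      ext t
      simp only [mem_filter, mem_singleton]
      exact ⟨fun a => Dis2.eq_of hd a.1 hs a.2, fun a => by subst a; exact ⟨hs, rfl⟩⟩
    simp only [f2, this, it2, singleton_biUnion]
  have hprW : ∀ s ∈ Γ, s ∉ Hh → Disjoint W1 (pr s) := fun s hs hn =>
    disjoint_left.2 fun v hv hv' => by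
      rcases mem_union.1 hv with a | a
      · exact (mem_sdiff.1 a).2 (mem_union_left _ (mem_it2.2 ⟨s, hs, hv'⟩))
      · obtain ⟨t, ht, b⟩ := mem_it2.1 a
        exact disjoint_left.1 (hd t (hH ht) s hs fun e => hn (e ▸ ht)).2 b hv'
  have hW1 : W1 ⊆ S.W := union_subset sdiff_subset ((it2_mono hH).trans hW)
  have hB : B1 ⊆ S.A := union_subset sdiff_subset ((ag2_mono hH).trans hA)
  let F : J → Finset V := fun j => if j ∈ B1 then f j else f2 j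
  have hst : St S (P.Serv3 S) S.A F := by
    refine ⟨Subset.rfl, fun j hj => ?_, fun j hj => ?_, fun i hi j hj hne => ?_, fun v hv hm => ?_⟩
    · by_cases a : j ∈ B1
      · simp only [F, if_pos a]; exact (hin j a).trans hW1
      · obtain ⟨s, b, -, rfl⟩ := hout j hj a
        simp only [F, if_neg a, hf2 s b]
        exact fun v hv => hW (mem_it2.2 ⟨s, b, hv⟩)
    · by_cases a : j ∈ B1
      · simp only [F, if_pos a]; exact h.srv j a
      · obtain ⟨s, b, c, rfl⟩ := hout j hj a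
        simp only [F, if_neg a, hf2 s b]
        exact hs s b c
    · by_cases a : i ∈ B1 <;> by_cases a' : j ∈ B1
      · simp only [F, if_pos a, if_pos a']; exact h.dis i a j a' hne
      · obtain ⟨s, b, c, rfl⟩ := hout j hj a'
        simp only [F, if_pos a, if_neg a', hf2 s b]
        exact (hprW s b c).mono_left (hin i a)
      · obtain ⟨s, b, c, rfl⟩ := hout i hi a
        simp only [F, if_neg a, if_pos a', hf2 s b]
        exact ((hprW s b c).mono_left (hin j a')).symm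
      · obtain ⟨s, b, c, rfl⟩ := hout i hi a
        obtain ⟨s', b', c', rfl⟩ := hout j hj a'
        simp only [F, if_neg a, if_neg a', hf2 s b, hf2 s' b']
        exact (hd s b s' b' fun e => hne (e ▸ rfl)).2
    · obtain ⟨j, hj, e, hl⟩ := h.qok v
        (mem_union_left _ (mem_sdiff.2 ⟨hv, fun a => hq v a hm⟩)) hm
      exact ⟨j, hB hj, by simp only [F, if_pos hj]; exact e, hl⟩
  refine ⟨F, hst, ?_⟩
  have e1 : use S.A F = use B1 f + ∑ j ∈ S.A \ B1, (F j).card := by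
    unfold use
    rw [← sum_sdiff hB, add_comm]
    congr 1
    exact sum_congr rfl fun j hj => by simp only [F, if_pos hj]
  have e2 : ∑ j ∈ S.A \ B1, (F j).card ≤ (it2 Γ \ it2 Hh).card := by
    rw [← card_biUnion fun i hi j hj hne =>
      hst.dis i (mem_sdiff.1 hi).1 j (mem_sdiff.1 hj).1 hne]
    refine card_le_card fun v hv => ?_
    obtain ⟨j, hj, a⟩ := mem_biUnion.1 hv
    obtain ⟨s, b, c, rfl⟩ := hout j (mem_sdiff.1 hj).1 (mem_sdiff.1 hj).2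
    simp only [F, if_neg (mem_sdiff.1 hj).2, hf2 s b] at a
    exact mem_sdiff.2 ⟨mem_it2.2 ⟨s, b, a⟩, fun d =>
      disjoint_left.1 (hprW s b c) (mem_union_right _ d) a⟩
  have e3 := card_sdiff_add_card_eq_card (it2_mono hH)
  have e4 := card_sdiff_add_card_eq_card (union_subset hW hD)
  have e5 := card_union_of_disjoint hDd.symm
  omega

/-! ### The setting -/

/-- The data of the jump step. -/
structure Su (P : Geo J V) (S : Sub J V) (e : ℕ) (ρ : Finset V) (j0 : J) (g : J → Sv V)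
    (Γ : Finset (J × V × V)) (cT : ℕ) : Prop where
  wf : P.Wf S
  fr : P.Frame e ρ
  j0A : j0 ∈ S.A
  mn : P.Min3 S (S.A.erase j0) g
  rW : ρ ⊆ S.W
  rd : Disjoint ρ (itsB (S.A.erase j0) g)
  gc : Γ.card ≤ 5
  sg : P.SgOk S Γ
  sl : use (S.A.erase j0) (fun j => (g j).its) + 90 ≤ S.W.card
  e100 : 100 ≤ e
  tri : ((S.A.erase j0).filter fun j => ∃ a z b, g j = Sv.three a z b).card ≤ cT
  bl : ∀ i ∈ S.A.erase j0, ∀ j ∈ S.A.erase j0, ∀ a b a' b', g i = Sv.two a b →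
    g j = Sv.two a' b' → P.blind e ρ i → P.blind e ρ j → i = j

/-- The services that are always opened. -/
noncomputable def Om0 (P : Geo J V) (e : ℕ) (ρ : Finset V) (B : Finset J) (g : J → Sv V)
    (Γ : Finset (J × V × V)) : Finset J :=
  (B.filter fun j => ∃ a z b, g j = Sv.three a z b) ∪
    (B.filter fun j => (∃ a b, g j = Sv.two a b) ∧ P.blind e ρ j) ∪ ag2 Γ ∪
    B.filter fun j => ∃ v ∈ it2 Γ, v ∈ (g j).its

theorem mem_itsB {B : Finset J} {g : J → Sv V} {v : V} :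
    v ∈ itsB B g ↔ ∃ j ∈ B, v ∈ (g j).its := by
  simp only [itsB, mem_biUnion]

theorem card_its (s : Sv V) : s.its.card ≤ 3 := by
  rcases s with _ | c | ⟨a, b⟩ | ⟨a, z, b⟩ <;> simp only [Sv.its]
  · simp
  · simp
  · exact card_le_two.trans (by omega)
  · exact card_le_three

theorem card_itsB (B : Finset J) (g : J → Sv V) : (itsB B g).card ≤ 3 * B.card := by
  refine card_biUnion_le.trans ?_
  rw [mul_comm, ← smul_eq_mul, ← sum_const]
  exact sum_le_sum fun j _ => card_its _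

theorem own_eq {S : Sub J V} {B : Finset J} {g : J → Sv V} (h : P.PSt S B g) {i j : J}
    (hi : i ∈ B) (hj : j ∈ B) {v : V} (a : v ∈ (g i).its) (b : v ∈ (g j).its) : i = j := by
  by_contra hn
  exact disjoint_left.1 (h.dis i hi j hj hn) a b

section Main

variable {S : Sub J V} {e : ℕ} {ρ : Finset V} {j0 : J} {g : J → Sv V}
  {Γ : Finset (J × V × V)} {cT : ℕ}

theorem card_Om0 (h : Su P S e ρ j0 g Γ cT) :
    (Om0 P e ρ (S.A.erase j0) g Γ).card ≤ cT + 16 := by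
  have h1 := h.tri
  have h2 : ((S.A.erase j0).filter fun j => (∃ a b, g j = Sv.two a b) ∧ P.blind e ρ j).card ≤ 1 :=
    card_le_one.2 fun i hi j hj => by
      obtain ⟨a1, ⟨a, b, a2⟩, a3⟩ := mem_filter.1 hi
      obtain ⟨b1, ⟨a', b', b2⟩, b3⟩ := mem_filter.1 hj
      exact h.bl i a1 j b1 a b a' b' a2 b2 a3 b3
  have h3 := (card_ag2 Γ).trans h.gc
  have h4 : ((S.A.erase j0).filter fun j => ∃ v ∈ it2 Γ, v ∈ (g j).its).card ≤ (it2 Γ).card :=
    card_le_card_of_forall_subsingleton (fun j v => v ∈ (g j).its)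
      (fun j hj => (mem_filter.1 hj).2) fun v _ i hi j hj =>
        own_eq h.mn.1.1 (mem_filter.1 hi.1).1 (mem_filter.1 hj.1).1 hi.2 hj.2
  have h5 := card_it2_le Γ
  have h6 := h.gc
  unfold Om0
  refine (card_union_le _ _).trans ?_
  refine (Nat.add_le_add_right (card_union_le _ _) _).trans ?_
  refine (Nat.add_le_add_right (Nat.add_le_add_right (card_union_le _ _) _) _).trans ?_
  omega

theorem En_all {X : Ax J V} {x y : Nd J V} (h : P.En S e ρ X x y) :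
    P.En S e ρ (axAll J V) x y := by
  rcases x with i | u | i <;> rcases y with j | v | j <;> simp only [En, axAll] at h ⊢ <;> tauto

/-- The outcome of the core step. -/
structure Out (P : Geo J V) (S : Sub J V) (e l : ℕ) (ρ : Finset V) (B : Finset J)
    (g : J → Sv V) (X : Ax J V) (μ ν : Nd J V → Nd J V) (K : ℕ) : Prop where
  cx : P.Ctx S e ρ B g μ
  bs : ∃ w, P.Best S e ρ X μ w ν
  mX : IsM (fun x y => P.En S e ρ X x y ∨ μ x = y) ν
  m : IsM (P.En S e ρ (axAll J V)) ν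
  sz : cov ν = 2 * S.A.card
  cv : P.Cov S e ρ X ν
  sl : 2 * S.A.card + l ≤ cw S ν + S.W.card
  nc : (ncomp μ ν).card ≤ K
  en : (ends μ ν).card ≤ 2 * K

theorem best (hC : CompStmt) (hI : ImgStmt) (hCo : CoreStmt) (h : Su P S e ρ j0 g Γ cT)
    {Ω : Finset J} {κ l : ℕ} {X : Ax J V} (h0 : Om0 P e ρ (S.A.erase j0) g Γ ⊆ Ω)
    (hκ : Ω.card ≤ κ)
    (hm : ∀ j q z, P.OldP e ρ (S.A.erase j0 \ Ω) g j q z → P.rigid S e ρ j → ¬ X.mc j)
    (hp : P.Pass (S.rem (ag2 Γ) (it2 Γ)) e ρ X l) :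
    ∃ μ ν, Out P (S.rem (ag2 Γ) (it2 Γ)) e l ρ (S.A.erase j0 \ Ω) g X μ ν (9 * κ + 5) := by
  set B := S.A.erase j0 with hB
  have st := h.mn.1.1
  have hno : ∀ j ∈ B \ Ω, j ∉ Om0 P e ρ B g Γ := fun j hj a => (mem_sdiff.1 hj).2 (h0 a)
  have hsi : P.Simple e ρ (B \ Ω) g := fun j hj => by
    have a := hno j hj
    have hjB := (mem_sdiff.1 hj).1
    have b := st.nrm j hjB
    simp only [Om0, mem_union, mem_filter, not_or] at a
    rcases hg : g j with _ | c | ⟨x, y⟩ | ⟨x, z, y⟩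
    · rw [hg] at b; exact b.elim
    · exact Or.inl ⟨c, rfl⟩
    · exact Or.inr ⟨x, y, rfl, fun c => a.1.1.2 ⟨hjB, ⟨x, y, hg⟩, c⟩⟩
    · exact (a.1.1.1 ⟨hjB, x, z, y, hg⟩).elim
  have hd1 : Disjoint (B \ Ω) (ag2 Γ) := disjoint_left.2 fun j hj a =>
    hno j hj (mem_union_left _ (mem_union_right _ a))
  have hd2 : Disjoint (it2 Γ) (itsB (B \ Ω) g) := disjoint_left.2 fun v hv a => by
    obtain ⟨j, hj, b⟩ := mem_itsB.1 a
    exact hno j hj (mem_union_right _ (mem_filter.2 ⟨(mem_sdiff.1 hj).1, v, hv, b⟩))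
  have st' : P.PSt (S.rem (ag2 Γ) (it2 Γ)) (B \ Ω) g :=
    ⟨fun j hj => mem_sdiff.2 ⟨st.sub (mem_sdiff.1 hj).1, disjoint_left.1 hd1 hj⟩,
      fun j hj v hv => mem_sdiff.2 ⟨st.inW j (mem_sdiff.1 hj).1 hv,
        fun a => disjoint_left.1 hd2 a (mem_itsB.2 ⟨j, hj, hv⟩)⟩,
      fun j hj => by
        have := st.nrm j (mem_sdiff.1 hj).1
        rcases hg : g j with _ | c | ⟨x, y⟩ | ⟨x, z, y⟩ <;> rw [hg] at this <;> exact this,
      fun i hi j hj => st.dis i (mem_sdiff.1 hi).1 j (mem_sdiff.1 hj).1,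
      fun j hj => st.nq j (mem_sdiff.1 hj).1⟩
  obtain ⟨⟨μ, hμ⟩, hall⟩ := hI J V P (S.rem (ag2 Γ) (it2 Γ)) e ρ (B \ Ω) g h.wf h.fr st' hsi
  obtain ⟨i1, -, -, -, -, -, -, i8, i9, -, -⟩ := hall μ hμ
  obtain ⟨ν0, p1, p2, p3, p4⟩ := hp
  have hκ' : (B \ (B \ Ω)).card ≤ κ := by
    refine le_trans (card_le_card fun j hj => ?_) hκ
    rw [mem_sdiff, mem_sdiff] at hj
    tauto
  obtain ⟨ν, b1, b2⟩ := hCo J V P S e ρ j0 (B \ Ω) g Γ μ X
    (2 * (S.rem (ag2 Γ) (it2 Γ)).A.card + l - (S.rem (ag2 Γ) (it2 Γ)).W.card) κ h.e100 h.wf h.fr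
    h.j0A h.mn h.rW h.rd h.gc sdiff_subset hκ' hsi hd1 hd2 hμ
    (fun j hj a b => by
      obtain ⟨q, z, c⟩ := i9 j hj b
      exact hm j q z c (i8 j q z c).2.1 a)
    h.sl ⟨ν0, p1.mono fun _ _ a => Or.inl a, p2, by omega, p4⟩
  have c1 := b1.1
  have c2 := (hC _ μ ν hμ.1 c1.1.1).2.2.2.2.2.1
  refine ⟨μ, ν, ⟨h.wf, h.fr, st', hsi, hμ⟩, ⟨_, b1⟩, c1.1, ⟨c1.1.1, fun x hx => ?_⟩, c1.2.1,
    c1.2.2.2, ?_, b2, by omega⟩
  · rcases c1.1.2 x hx with a | a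
    · exact En_all a
    · rw [← a] at hx ⊢
      exact i1.2 x hx
  · have := c1.2.2.1
    omega

theorem En_res {X : Ax J V} {U : Finset V} {ν : Nd J V → Nd J V} (h : IsM (P.En S e ρ X) ν)
    (hU : ∀ q ∈ U, ν (vx q) = vx q) : IsM (P.En (S.res S.A U) e ρ X) ν := by
  refine ⟨h.1, fun x hx => ?_⟩
  have a := h.2 x hx
  have k1 : ∀ v, x = vx v → v ∉ U := fun v e b => hx (e ▸ hU v b)
  have k2 : ∀ v, ν x = vx v → v ∉ U := fun v e b => by
    have c := h.1 x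
    rw [e, hU v b] at c
    exact hx (e.trans c)
  rcases hy : ν x with j | v | j <;> rw [hy] at a <;> rcases x with i | u | i <;>
    simp only [En] at a ⊢
  · exact ⟨a.1, mem_sdiff.2 ⟨a.2.1, k1 u rfl⟩, a.2.2⟩
  · exact a
  · exact ⟨a.1, mem_sdiff.2 ⟨a.2.1, k2 v hy⟩, a.2.2⟩
  · exact ⟨mem_sdiff.2 ⟨a.1, k1 u rfl⟩, mem_sdiff.2 ⟨a.2.1, k2 v hy⟩, a.2.2⟩
  · exact a

/-- The last part of every branch. -/
theorem fin (hR : RealStmt) (h : Su P S e ρ j0 g Γ cT) {B : Finset J} {l K a2 nH δ : ℕ}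
    {X : Ax J V} {μ ν : Nd J V → Nd J V} (hB : B ⊆ S.A.erase j0)
    (o : Out P (S.rem (ag2 Γ) (it2 Γ)) e l ρ B g X μ ν K)
    (ra : P.RectA (S.rem (ag2 Γ) (it2 Γ)) B g μ ν (6 * K + 3) a2)
    (jb : P.JointB (S.rem (ag2 Γ) (it2 Γ)) e ρ μ ν (2 * K))
    {Γ' Hh Hi : Finset (J × V × V)} {U D : Finset V} (e1 : ag2 Γ' = ag2 Γ)
    (e2 : it2 Γ' ∪ D = it2 Γ ∪ U) (hDd : Disjoint D (it2 Γ')) (hd : Dis2 Γ')
    (hUW : ∀ q ∈ U, q ∈ S.W ∧ q ∉ it2 Γ ∧ ν (vx q) = vx q ∧ q ∉ itsB B g) (hUc : U.card ≤ 2)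
    (hc : U.card + δ ≤ D.card) (hH : Hh ⊆ Γ')
    (hs : ∀ s ∈ Γ', s ∉ Hh → P.Serv3 S s.1 (pr s))
    (hp : ∀ s ∈ Hh, P.rigid S e ρ s.1 ∧ P.peE S e ρ s.2.1 s.2.2 ∧ ¬ P.junk s.1 s.2.2)
    (hi : ∀ s ∈ Hi, P.OldP e ρ B g s.1 s.2.1 s.2.2 ∧ ν (vx s.2.1) = vx s.2.2 ∧
      ν (ag s.1) = ag s.1)
    (ob : δ = 1 ∨ P.NoObs (S.rem (ag2 Γ) (it2 Γ)) e ρ (Hh ∪ Hi) ν) (hn : (Hh ∪ Hi).card ≤ nH)
    (he : 20 * K + 2 * nH + 17 ≤ e) (hl : 14 * K + 2 * nH + a2 + 4 ≤ l) : P.Sol3 S l := by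
  have hΓW : it2 Γ ⊆ S.W := fun v hv => by
    obtain ⟨s, a, b⟩ := mem_it2.1 hv
    have c := h.sg.1 s a
    rcases mem_insert.1 b with d | d
    · exact d ▸ c.2.2.1
    · exact mem_singleton.1 d ▸ c.2.2.2.1
  have hΓq : ∀ v ∈ it2 Γ, ¬ S.qm v := fun v hv => by
    obtain ⟨s, a, b⟩ := mem_it2.1 hv
    have c := h.sg.1 s a
    rcases mem_insert.1 b with d | d
    · exact d ▸ c.2.2.2.2.2.1
    · exact mem_singleton.1 d ▸ c.2.2.2.2.2.2
  have hΓA : ag2 Γ ⊆ S.A := fun j hj => by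
    obtain ⟨s, a, b⟩ := mem_ag2.1 hj
    exact b ▸ (h.sg.1 s a).1
  have hall : it2 Γ' ∪ D ⊆ S.W := e2 ▸ union_subset hΓW fun q hq => (hUW q hq).1
  have hq : ∀ v ∈ it2 Γ' ∪ D, ¬ S.qm v := fun v hv a => by
    rw [e2] at hv
    rcases mem_union.1 hv with b | b
    · exact hΓq v b a
    · exact o.cv.2 v (mem_sdiff.2 ⟨(hUW v b).1, (hUW v b).2.1⟩) a (hUW v b).2.2.1
  set S' := S.rem (ag2 Γ) (it2 Γ) with hS'
  have eS : S'.res S'.A U = S.rem (ag2 Γ') (it2 Γ' ∪ D) := by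
    simp only [hS', Sub.res, Sub.rem, e1, e2, sdiff_sdiff_left, sup_eq_union]
  have eW : (S'.res S'.A U).W = S'.W \ U := rfl
  have hWc : S'.W.card ≤ (S'.W \ U).card + U.card := by
    have := le_card_sdiff U S'.W
    omega
  have cx : P.Ctx (S'.res S'.A U) e ρ B g μ :=
    ⟨o.cx.wf, o.cx.fr, ⟨o.cx.st.sub, fun j hj v hv => mem_sdiff.2 ⟨o.cx.st.inW j hj hv,
      fun a => (hUW v a).2.2.2 (mem_itsB.2 ⟨j, hj, hv⟩)⟩, fun j hj => by
        have := o.cx.st.nrm j hj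
        rcases hg : g j with _ | c | ⟨x, y⟩ | ⟨x, z, y⟩ <;> rw [hg] at this <;> exact this,
      o.cx.st.dis, o.cx.st.nq⟩, o.cx.si, o.cx.im⟩
  have hk : P.HelpOk (S'.res S'.A U) e ρ Hh := by
    refine ⟨fun s hs => ⟨?_, (hp s hs).1, ?_, ?_, (hp s hs).2.1, (hp s hs).2.2⟩, Dis2.mono hd hH⟩
    · rw [eS]; exact fun a => (mem_sdiff.1 a).2 (ag2_of (hH hs))
    · rw [eS]; exact fun a => (mem_sdiff.1 a).2 (mem_union_left _ (it2_l (hH hs)))
    · rw [eS]; exact fun a => (mem_sdiff.1 a).2 (mem_union_left _ (it2_r (hH hs)))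
  have rc : P.RCtx (S'.res S'.A U) e ρ B g μ ν Hh Hi (2 * K) (2 * K) δ :=
    ⟨cx, hk, hi, En_res o.m fun q hq => (hUW q hq).2.2.1, o.sz,
      ⟨fun j hj a => o.cv.1 j hj (Or.inl (a.resolve_right id)),
        fun v hv => o.cv.2 v (mem_sdiff.1 hv).1⟩, o.en, jb, ob⟩
  have ra' : P.RectA (S'.res S'.A U) B g μ ν (6 * K + 3) a2 := fun R hR Y hY =>
    ra R hR Y (hY.trans (filter_subset_filter _ sdiff_subset))
  have hρ : (ρ \ (S'.res S'.A U).W).card ≤ 12 := by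
    have : ρ \ (S'.res S'.A U).W ⊆ it2 Γ ∪ U := fun v hv => by
      rw [eS, mem_sdiff] at hv
      by_contra a
      exact hv.2 (mem_sdiff.2 ⟨h.rW hv.1, e2 ▸ a⟩)
    have h1 := card_le_card this
    have h2 := card_union_le (it2 Γ) U
    have h3 := card_it2_le Γ
    have h4 := h.gc
    omega
  have hsl := o.sl
  obtain ⟨f, f1, f2⟩ := hR J V P (S'.res S'.A U) e ρ B g μ ν Hh Hi (2 * K) (6 * K + 3) a2 (2 * K)
    nH δ rc ra' (h.rd.mono_right (biUnion_subset_biUnion_of_subset_left _ hB)) hρ hn (by omega)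
    (by
      have : cw (S'.res S'.A U) ν = cw S' ν := rfl
      have : (S'.res S'.A U).A.card = S'.A.card := rfl
      rw [eW]
      omega)
  have hc2 : (it2 Hh).card = 2 * Hh.card := card_it2 (Dis2.mono hd hH) fun s hs a =>
    (hp s hs).2.1.2.1 (a ▸ (hp s hs).2.1.1.2)
  refine glue (f := f) hd (e1 ▸ hΓA) (subset_union_left.trans hall) (subset_union_right.trans hall)
    hDd hH hs hq ?_ ?_
  · rw [eS] at f1
    exact f1
  · have a1 : cw (S'.res S'.A U) ν = cw S' ν := rfl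
    have a2 : (S'.res S'.A U).A = S'.A := rfl
    have a3 : S.A \ ag2 Γ' = S'.A := by rw [e1]; rfl
    have a4 : S.W \ (it2 Γ' ∪ D) = S'.W \ U := by rw [← eW, eS]; rfl
    rw [a1, a2] at f2
    rw [a3, a4]
    omega

theorem oldP_mono {B B' : Finset J} (hB : B' ⊆ B) {j : J} {q z : V}
    (h : P.OldP e ρ B' g j q z) : P.OldP e ρ B g j q z := ⟨hB h.1, h.2⟩

theorem oldP_its {B : Finset J} {j : J} {q z : V} (h : P.OldP e ρ B g j q z) :
    q ∈ (g j).its ∧ z ∈ (g j).its ∧ ∃ o, P.rig e ρ j o := by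
  obtain ⟨-, a, b, o, h1, h2, rfl, rfl, -⟩ := h
  rw [h1]
  cases o <;> exact ⟨by simp [Sv.its, mi], by simp [Sv.its, ma], _, h2⟩

theorem oldP_uniq {B : Finset J} {j : J} {q z q' z' : V} (h : P.OldP e ρ B g j q z)
    (h' : P.OldP e ρ B g j q' z') : q = q' ∧ z = z' := by
  obtain ⟨-, a, b, o, h1, h2, rfl, rfl, -⟩ := h
  obtain ⟨-, a', b', o', h1', h2', rfl, rfl, -⟩ := h'
  rw [h1] at h1'
  cases h1'
  cases rig_unique h2 h2'
  exact ⟨rfl, rfl⟩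

/-- A pair edge of `ν` is allowed by `X` or old. -/
theorem pe_edge (hI : ImgStmt) {B : Finset J} {l K : ℕ} {X : Ax J V} {μ ν : Nd J V → Nd J V}
    (o : Out P S e l ρ B g X μ ν K) {q z : V} (hne : z ≠ q) (h : ν (vx q) = vx z)
    (hq : P.Q0 e ρ q) : (X.pe ∧ ¬ X.zs z) ∨ ∃ j, P.OldP e ρ B g j q z := by
  have a := o.mX.2 (vx q) (by rw [h]; simpa using hne)
  rw [h] at a
  rcases a with a | a
  · rcases a.2.2.2 with b | b
    · exact Or.inl ⟨a.2.2.1, b.2⟩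
    · exact (b.1.2.1 hq.2).elim
  · exact Or.inr (((hI J V P S e ρ B g o.cx.wf o.cx.fr o.cx.st o.cx.si).2 μ
      o.cx.im).2.2.2.2.2.2.2.2.2.1 q z hne.symm a hq)

theorem b1core (hC : CompStmt) (hI : ImgStmt) (hO : OptStmt) (hCo : CoreStmt)
    (h : Su P S e ρ j0 g Γ cT) {l : ℕ} {s1 s2 : J × V × V} (h1 : s1 ∈ Γ) (h2 : s2 ∈ Γ)
    (hne : s1 ≠ s2) {o1 o2 : Bool} (r1 : P.rig e ρ s1.1 o1) (r2 : P.rig e ρ s2.1 o2)
    (hp : P.Pass (S.rem (ag2 Γ) (it2 Γ)) e ρ (P.axW s1 s2) l) :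
    ∃ B μ ν, B ⊆ S.A.erase j0 ∧
      Out P (S.rem (ag2 Γ) (it2 Γ)) e l ρ B g (P.axW s1 s2) μ ν (9 * (cT + 18) + 5) ∧
      P.RectA (S.rem (ag2 Γ) (it2 Γ)) B g μ ν (6 * (9 * (cT + 18) + 5) + 3) 10 ∧
      P.JointB (S.rem (ag2 Γ) (it2 Γ)) e ρ μ ν (2 * (9 * (cT + 18) + 5)) ∧
      ∀ Hs : Finset (J × V × V), (∃ t ∈ Hs, t.1 = s1.1 ∧ t.2.2 = s1.2.2) →
        (∃ t ∈ Hs, t.1 = s2.1 ∧ t.2.2 = s2.2.2) →
        P.NoObs (S.rem (ag2 Γ) (it2 Γ)) e ρ Hs ν := by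
  have hd := h.sg.2 s1 h1 s2 h2 hne
  have u1 : ∀ z z', (P.axW s1 s2).zs z → (P.axW s1 s2).zs z' → z = z' := fun z z' a b =>
    rig_junk h.fr hd.1 r1 r2 a.1 b.1 a.2 b.2
  have u2 : ∀ j j', P.rigid S e ρ j → P.rigid S e ρ j' → (P.axW s1 s2).mc j →
      (P.axW s1 s2).mc j' → j = j' := fun j j' a b c d => by
    by_contra hn
    obtain ⟨-, o, a⟩ := a
    obtain ⟨-, o', b⟩ := b
    have := rig_junk h.fr hn a b c.1 c.2 d.1 d.2
    exact disjoint_left.1 hd.2 (show s1.2.2 ∈ _ by simp) (by simp [this])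
  set O1 := (S.A.erase j0).filter fun j => ∃ q z, P.OldP e ρ (S.A.erase j0) g j q z ∧
    (P.axW s1 s2).zs z with hO1
  set O2 := (S.A.erase j0).filter fun j => P.rigid S e ρ j ∧ (P.axW s1 s2).mc j with hO2
  have c1 : O1.card ≤ 1 := card_le_one.2 fun i hi j hj => by
    obtain ⟨a, q, z, b, c⟩ := mem_filter.1 hi
    obtain ⟨a', q', z', b', c'⟩ := mem_filter.1 hj
    cases u1 z z' c c'
    exact own_eq h.mn.1.1 a a' (oldP_its b).2.1 (oldP_its b').2.1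
  have c2 : O2.card ≤ 1 := card_le_one.2 fun i hi j hj =>
    u2 i j (mem_filter.1 hi).2.1 (mem_filter.1 hj).2.1 (mem_filter.1 hi).2.2 (mem_filter.1 hj).2.2
  have c3 : (Om0 P e ρ (S.A.erase j0) g Γ ∪ O1 ∪ O2).card ≤ cT + 18 := by
    have := card_Om0 h
    have := card_union_le (Om0 P e ρ (S.A.erase j0) g Γ ∪ O1) O2
    have := card_union_le (Om0 P e ρ (S.A.erase j0) g Γ) O1
    omega
  obtain ⟨μ, ν, o⟩ := best hC hI hCo h (subset_union_left.trans subset_union_left) c3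
    (fun j q z a b c => (mem_sdiff.1 a.1).2
      (mem_union_right _ (mem_filter.2 ⟨(mem_sdiff.1 a.1).1, b, c⟩))) hp
  obtain ⟨w, hb⟩ := o.bs
  obtain ⟨ra, jb⟩ := hO J V P _ e ρ _ g μ ν _ w _ 0 o.cx hb o.nc u1 u2 (Or.inl trivial)
  refine ⟨_, μ, ν, sdiff_subset, o, ra, jb, fun Hs a1 a2 => ⟨fun j hj a => ?_,
    fun q z a b c => ?_⟩⟩
  · obtain ⟨t1, b1, -, d1⟩ := a1
    obtain ⟨t2, b2, -, d2⟩ := a2
    by_contra hn
    push Not at hn
    exact o.cv.1 j hj (Or.inr ⟨d1 ▸ hn t1 b1, d2 ▸ hn t2 b2⟩) a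
  · obtain ⟨t1, b1, d1, -⟩ := a1
    obtain ⟨t2, b2, d2, -⟩ := a2
    by_contra hn
    push Not at hn
    have hz : (P.axW s1 s2).zs z := ⟨d1 ▸ hn t1 b1, d2 ▸ hn t2 b2⟩
    rcases pe_edge hI o a b c with d | ⟨j, d⟩
    · exact d.2 hz
    · exact (mem_sdiff.1 d.1).2 (mem_union_left _ (mem_union_right _ (mem_filter.2
        ⟨(mem_sdiff.1 d.1).1, q, z, oldP_mono sdiff_subset d, hz⟩)))

theorem sg_serv (h : P.SgOk S Γ) {s : J × V × V} (hs : s ∈ Γ) : P.Serv3 S s.1 (pr s) :=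
  Or.inl (Or.inr ⟨(h.1 s hs).2.1, s.2.1, by simp, s.2.2, by simp, (h.1 s hs).2.2.2.2.1⟩)

/-- Two witnesses with pair edges. -/
theorem branchW (hC : CompStmt) (hI : ImgStmt) (hO : OptStmt) (hR : RealStmt) (hCo : CoreStmt)
    (h : Su P S e ρ j0 g Γ cT) {l : ℕ} {s1 s2 : J × V × V} (h1 : s1 ∈ Γ) (h2 : s2 ∈ Γ)
    (hne : s1 ≠ s2) (w1 : P.WitP e ρ s1) (w2 : P.WitP e ρ s2)
    (hp : P.Pass (S.rem (ag2 Γ) (it2 Γ)) e ρ (P.axW s1 s2) l)
    (he : 20 * (9 * (cT + 18) + 5) + 2 * 2 + 17 ≤ e)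
    (hl : 14 * (9 * (cT + 18) + 5) + 2 * 2 + 10 + 4 ≤ l) :
    P.Sol3 S l := by
  have key : ∀ s ∈ Γ, P.WitP e ρ s →
      P.rigid S e ρ s.1 ∧ P.peE S e ρ s.2.1 s.2.2 ∧ ¬ P.junk s.1 s.2.2 := fun s hs hw => by
    obtain ⟨o, a, b, c, d⟩ := hw
    have f := h.sg.1 s hs
    exact ⟨⟨f.2.1, o, a⟩, ⟨b, fun k => Q0_not_adj h.fr a.1 ⟨b.1, k⟩ d.1, f.2.2.2.2.1.2.1,
      f.2.2.2.2.2.1, f.2.2.2.2.2.2⟩, col_not_junk d⟩
  obtain ⟨o1, r1, -⟩ := id w1
  obtain ⟨o2, r2, -⟩ := id w2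
  obtain ⟨B, μ, ν, hB, o, ra, jb, ob⟩ := b1core hC hI hO hCo h h1 h2 hne r1 r2 hp
  refine fin (Γ' := Γ) (Hh := {s1, s2}) (Hi := ∅) (U := ∅) (D := ∅) (δ := 0) (nH := 2) hR h hB o
    ra jb rfl rfl (by simp) h.sg.2 (by simp) (by simp) (by simp) ?_ (fun s hs _ => sg_serv h.sg hs)
    ?_ (by simp) (Or.inr (ob _ ⟨s1, by simp, rfl, rfl⟩ ⟨s2, by simp, rfl, rfl⟩))
    (by rw [union_empty]; exact card_le_two) he hl
  · exact insert_subset h1 (singleton_subset_iff.2 h2)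
  · intro s hs
    rcases mem_insert.1 hs with a | a
    · exact a ▸ key s1 h1 w1
    · exact mem_singleton.1 a ▸ key s2 h2 w2

theorem pass_NW {l : ℕ} {s1 s2 : J × V × V} (h : P.Pass S e ρ (axN J V) l) :
    P.Pass S e ρ (P.axW s1 s2) l := by
  obtain ⟨ν, a, b, c, d⟩ := h
  refine ⟨ν, a.mono fun x y k => ?_, b, c, fun j hj _ => d.1 j hj (Or.inr trivial), d.2⟩
  rcases x with i | u | i <;> rcases y with j | v | j <;> simp only [En, axN, axW] at k ⊢ <;> tauto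

/-- Items that are new in `ν` are ends. -/
theorem card_new {μ ν : Nd J V → Nd J V} (Y : Finset V) (h : ∀ v ∈ Y, μ (vx v) = vx v) :
    (Y.filter fun v => ν (vx v) ≠ vx v).card ≤ (ends μ ν).card :=
  card_le_card_of_injOn vx (fun v hv => by
    have a := mem_filter.1 (mem_coe.1 hv)
    exact mem_coe.2 (mem_filter.2 ⟨mem_univ _, Or.inl ⟨h v a.1, a.2⟩⟩))
    fun u _ v _ a => by simpa using a

theorem pick {Y : Finset V} (hf : P.Frame e ρ) (hY : ∀ q ∈ Y, P.Q0 e ρ q) {j : J} {o : Bool}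
    {z : V} (hz : P.adj j o z) (ha : ∀ q ∈ Y, P.adj j o q) (u : V) (hc : 3 ≤ Y.card) :
    ∃ q ∈ Y, q ≠ u ∧ ¬ P.HH q z := by
  have h2 : 1 < (Y.erase u).card := by
    have := pred_card_le_card_erase (s := Y) (a := u)
    omega
  obtain ⟨a, h3, b, h4, h5⟩ := one_lt_card.1 h2
  have a1 := mem_erase.1 h3
  have b1 := mem_erase.1 h4
  by_cases k : P.HH a z
  · exact ⟨b, b1.2, b1.1, fun k' => Q0_indep hf (hY a a1.2) (hY b b1.2)
      (cluster hz (ha a a1.2) (ha b b1.2) (HH_symm k) (HH_symm k') h5)⟩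
  · exact ⟨a, a1.2, a1.1, k⟩

theorem set1 (a b q : V) (T : Finset V) :
    ({q, q} : Finset V) ∪ T ∪ {a, b} = {a, b} ∪ T ∪ {q} := by
  ext v
  simp only [mem_union, mem_insert, mem_singleton]
  tauto

theorem set2 (a b a' b' q q' : V) (T : Finset V) :
    ({q, b} : Finset V) ∪ ({q', b'} ∪ T) ∪ {a, a'} = {a, b} ∪ ({a', b'} ∪ T) ∪ {q, q'} := by
  ext v
  simp only [mem_union, mem_insert, mem_singleton]
  tauto

/-- Two witnesses with keys and many free heavy items. -/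
theorem branchN (hC : CompStmt) (hI : ImgStmt) (hO : OptStmt) (hR : RealStmt) (hCo : CoreStmt)
    (h : Su P S e ρ j0 g Γ cT) {l : ℕ} {s1 s2 : J × V × V} (h1 : s1 ∈ Γ) (h2 : s2 ∈ Γ)
    (hne : s1 ≠ s2) (w1 : P.WitN e ρ s1) (w2 : P.WitN e ρ s2)
    (hp : P.Pass (S.rem (ag2 Γ) (it2 Γ)) e ρ (axN J V) l)
    (hQ : 2 * (9 * (cT + 18) + 5) + 14 ≤
      ((S.W \ itsB (S.A.erase j0) g).filter fun v => P.Q0 e ρ v).card)
    (he : 20 * (9 * (cT + 18) + 5) + 2 * 2 + 17 ≤ e)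
    (hl : 14 * (9 * (cT + 18) + 5) + 2 * 2 + 10 + 4 ≤ l) : P.Sol3 S l := by
  obtain ⟨o1, r1, c1, l1⟩ := w1
  obtain ⟨o2, r2, c2, l2⟩ := w2
  obtain ⟨B, μ, ν, hB, o, ra, jb, ob⟩ := b1core hC hI hO hCo h h1 h2 hne r1 r2 (pass_NW hp)
  set FQ := (S.W \ itsB (S.A.erase j0) g).filter fun v => P.Q0 e ρ v with hFQ
  have hfB : ∀ v ∈ FQ, v ∉ itsB B g := fun v hv a =>
    (mem_sdiff.1 (mem_filter.1 hv).1).2 (biUnion_subset_biUnion_of_subset_left _ hB a)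
  have hfix : ∀ v ∈ FQ, μ (vx v) = vx v := fun v hv =>
    ((hI J V P _ e ρ B g o.cx.wf o.cx.fr o.cx.st o.cx.si).2 μ o.cx.im).2.2.2.2.2.1 v (hfB v hv)
  set Y := (FQ.filter fun v => ¬ ν (vx v) ≠ vx v) \ it2 Γ with hY
  have hYc : 3 ≤ Y.card := by
    have a1 := card_new (ν := ν) FQ hfix
    have a2 := o.en
    have a3 := card_filter_add_card_filter_not (s := FQ) (fun v => ν (vx v) ≠ vx v)
    have a4 : (FQ.filter fun v => ¬ ν (vx v) ≠ vx v).card - (it2 Γ).card ≤ Y.card :=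
      le_card_sdiff _ _
    have a5 := card_it2_le Γ
    have a6 := h.gc
    omega
  have hYp : ∀ q ∈ Y, (q ∈ S.W ∧ q ∉ it2 Γ ∧ ν (vx q) = vx q ∧ q ∉ itsB B g) ∧ P.Q0 e ρ q :=
    fun q hq => by
      have a := mem_sdiff.1 hq
      have b := mem_filter.1 a.1
      have c := mem_filter.1 b.1
      exact ⟨⟨(mem_sdiff.1 c.1).1, a.2, not_not.1 b.2, hfB q b.1⟩, c.2⟩
  have single : ∀ s ∈ Γ, ∀ q ∈ Y, P.C s.1 q → P.Sol3 S l := fun s hs q hq hc => by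
    obtain ⟨k1, k2, k3⟩ := Dis2.erase h.sg.2 hs
    have k4 := (hYp q hq).1
    have k5 : q ∉ it2 (Γ.erase s) := fun a => k4.2.1 (it2_mono (erase_subset _ _) a)
    have k6 : Γ = insert s (Γ.erase s) := (insert_erase hs).symm
    have k7 := h.sg.1 s hs
    refine fin (Γ' := insert (s.1, q, q) (Γ.erase s)) (Hh := ∅) (Hi := ∅) (U := {q}) (D := pr s)
      (δ := 1) (nH := 2) hR h hB o ra jb ?_ ?_ ?_
      (dis2_insert (Dis2.mono h.sg.2 (erase_subset _ _)) k1 k5 k5)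
      (fun v hv => mem_singleton.1 hv ▸ k4) (by simp) ?_ (by simp) ?_ (by simp) (by simp)
      (Or.inl rfl) (by simp) he hl
    · conv_rhs => rw [k6]
      rw [ag2_insert, ag2_insert]
    · conv_rhs => rw [k6]
      rw [it2_insert, it2_insert]
      exact set1 _ _ _ _
    · rw [it2_insert]
      refine disjoint_left.2 fun v hv a => ?_
      have b : v ∈ it2 Γ := mem_it2.2 ⟨s, hs, hv⟩
      simp only [mem_union, mem_insert, mem_singleton, or_self] at hv a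
      rcases a with a | a
      · exact k4.2.1 (a ▸ b)
      · rcases hv with c | c
        · exact k2 (c ▸ a)
        · exact k3 (c ▸ a)
    · rw [card_singleton, card_pair k7.2.2.2.2.1.1]
    · intro t ht _
      rcases mem_insert.1 ht with a | a
      · subst a
        exact Or.inl (Or.inl ⟨q, by simp, (h.wf _ k7.2.1 q).2 hc⟩)
      · exact sg_serv h.sg (mem_erase.1 a).2
  by_cases hs1 : ∃ q ∈ Y, P.C s1.1 q
  · obtain ⟨q, a, b⟩ := hs1
    exact single s1 h1 q a b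
  by_cases hs2 : ∃ q ∈ Y, P.C s2.1 q
  · obtain ⟨q, a, b⟩ := hs2
    exact single s2 h2 q a b
  have adjY : ∀ {j : J} {o : Bool}, P.rig e ρ j o → (¬ ∃ q ∈ Y, P.C j q) →
      ∀ q ∈ Y, P.adj j (!o) q := fun r hn q hq => by
    by_contra a
    exact hn ⟨q, hq, C_of (Q0_not_adj h.fr r.1 (hYp q hq).2) a⟩
  obtain ⟨q1, y1, -, n1⟩ := pick h.fr (fun q hq => (hYp q hq).2) c1.1 (adjY r1 hs1) s1.2.1 hYc
  obtain ⟨q2, y2, n3, n2⟩ := pick h.fr (fun q hq => (hYp q hq).2) c2.1 (adjY r2 hs2) q1 hYc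
  have p1 := (hYp q1 y1).1
  have p2 := (hYp q2 y2).1
  have nq : ∀ q ∈ Y, ¬ S.qm q := fun q hq a =>
    o.cv.2 q (mem_sdiff.2 ⟨(hYp q hq).1.1, (hYp q hq).1.2.1⟩) a (hYp q hq).1.2.2.1
  have h2' : s2 ∈ Γ.erase s1 := mem_erase.2 ⟨hne.symm, h2⟩
  have d1 : Dis2 (Γ.erase s1) := Dis2.mono h.sg.2 (erase_subset _ _)
  obtain ⟨k1, k2, k3⟩ := Dis2.erase h.sg.2 h1
  obtain ⟨m1, m2, m3⟩ := Dis2.erase d1 h2'
  set Γ0 := (Γ.erase s1).erase s2 with hΓ0
  have k6 : Γ.erase s1 = insert s2 Γ0 := (insert_erase h2').symm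
  have k7 : Γ = insert s1 (insert s2 Γ0) := by rw [← k6, insert_erase h1]
  have g1 := h.sg.1 s1 h1
  have g2 := h.sg.1 s2 h2
  have ne1 := g1.2.2.2.2.1.1
  have ne2 := g2.2.2.2.2.1.1
  have q1n := p1.2.1
  have q2n := p2.2.1
  rw [k6, ag2_insert] at k1
  rw [k6, it2_insert] at k2 k3
  rw [k7, it2_insert, it2_insert] at q1n q2n
  simp only [mem_union, mem_insert, mem_singleton, not_or] at k1 k2 k3 q1n q2n
  refine fin (Γ' := insert (s1.1, q1, s1.2.2) (insert (s2.1, q2, s2.2.2) Γ0))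
    (Hh := {(s1.1, q1, s1.2.2), (s2.1, q2, s2.2.2)}) (Hi := ∅) (U := {q1, q2})
    (D := {s1.2.1, s2.2.1}) (δ := 0) (nH := 2) hR h hB o ra jb ?_ ?_ ?_ ?_ ?_ card_le_two ?_ ?_ ?_
    ?_ (by simp) (Or.inr (ob _ ⟨(s1.1, q1, s1.2.2), by simp, rfl, rfl⟩
      ⟨(s2.1, q2, s2.2.2), by simp, rfl, rfl⟩))
    (by rw [union_empty]; exact card_le_two) he hl
  · conv_rhs => rw [k7]
    simp only [ag2_insert]
  · conv_rhs => rw [k7]
    simp only [it2_insert]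
    exact set2 _ _ _ _ _ _ _
  · simp only [it2_insert]
    refine disjoint_left.2 fun v hv a => ?_
    simp only [mem_union, mem_insert, mem_singleton] at hv a
    rcases hv with rfl | rfl <;> rcases a with (a | a) | (a | a) | a
    exacts [q1n.1.1 a.symm, ne1 a, q2n.1.1 a.symm, k2.1.2 a, k2.2 a, q1n.2.1.1 a.symm,
      k3.1.1 a.symm, q2n.2.1.1 a.symm, ne2 a, m2 a]
  · refine dis2_insert (dis2_insert (s := (s2.1, q2, s2.2.2)) (Dis2.mono d1 (erase_subset _ _))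
      m1 q2n.2.2 m3) ?_ ?_ ?_
    · rw [ag2_insert, mem_insert, not_or]; exact k1
    · simp only [it2_insert, mem_union, mem_insert, mem_singleton, not_or]
      exact ⟨⟨n3.symm, q1n.2.1.2⟩, q1n.2.2⟩
    · simp only [it2_insert, mem_union, mem_insert, mem_singleton, not_or]
      exact ⟨⟨fun a => q2n.1.2 a.symm, k3.1.2⟩, k3.2⟩
  · intro q hq
    rcases mem_insert.1 hq with a | a
    · exact a ▸ p1
    · exact mem_singleton.1 a ▸ p2
  · rw [card_pair k2.1.1]; exact card_le_two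
  · exact insert_subset_insert _ (singleton_subset_iff.2 (mem_insert_self _ _))
  · intro t ht hn
    simp only [mem_insert, mem_singleton, not_or] at ht hn
    exact sg_serv h.sg (mem_of_mem_erase (mem_of_mem_erase
      ((ht.resolve_left hn.1).resolve_left hn.2)))
  · intro t ht
    rcases mem_insert.1 ht with a | a
    · subst a
      exact ⟨⟨g1.2.1, o1, r1⟩, ⟨(hYp q1 y1).2, l1, n1, nq q1 y1, g1.2.2.2.2.2.2⟩, col_not_junk c1⟩
    · rw [mem_singleton] at a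
      subst a
      exact ⟨⟨g2.2.1, o2, r2⟩, ⟨(hYp q2 y2).2, l2, n2, nq q2 y2, g2.2.2.2.2.2.2⟩, col_not_junk c2⟩

/-- The items of a service matched to its dummy are uncovered. -/
theorem dummy_fix {B : Finset J} {μ : Nd J V → Nd J V} (cx : P.Ctx S e ρ B g μ) {j : J}
    (hj : μ (ag j) = dm j) : P.OldD e ρ B g j ∧ ∀ v ∈ (g j).its, μ (vx v) = vx v := by
  have a : P.OldD e ρ B g j := ((cx.im.2 (ag j) (dm j) (by simp)).1 hj).2
  refine ⟨a, fun v hv => ?_⟩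
  by_contra hn
  have b := (cx.im.2 _ _ (Ne.symm hn)).1 rfl
  rcases hy : μ (vx v) with i | u | i <;> rw [hy] at b
  · have c : v ∈ (g i).its := by
      rcases b.2 with c | ⟨x, y, o, c, -, rfl, -⟩ <;> rw [c]
      · simp [Sv.its]
      · cases o <;> simp [Sv.its, mi]
    cases own_eq cx.st b.1 a.1 c hv
    have d := cx.im.1 (vx v)
    rw [hy, hj] at d
    simp at d
  · obtain ⟨i, c⟩ := b
    have d : i ∈ B ∧ v ∈ (g i).its ∧ ∃ o, P.rig e ρ i o :=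
      c.elim (fun c => ⟨c.1, (oldP_its c).1, (oldP_its c).2.2⟩)
        fun c => ⟨c.1, (oldP_its c).2.1, (oldP_its c).2.2⟩
    cases own_eq cx.st d.1 a.1 d.2.1 hv
    obtain ⟨o, d⟩ := d.2.2
    exact rig_not_flex d a.2.2
  · exact b

theorem q0_bound (hI : ImgStmt) {Ω : Finset J} {l K : ℕ} {X : Ax J V} {μ ν : Nd J V → Nd J V}
    (o : Out P (S.rem (ag2 Γ) (it2 Γ)) e l ρ (S.A.erase j0 \ Ω) g X μ ν K) :
    ((PoolS (S.rem (ag2 Γ) (it2 Γ)) (S.A.erase j0 \ Ω) g μ ν).filter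
      fun v => μ (vx v) = vx v ∧ P.Q0 e ρ v).card ≤
      ((S.W \ itsB (S.A.erase j0) g).filter fun v => P.Q0 e ρ v).card + 3 * Ω.card + 6 * K := by
  set B := S.A.erase j0 \ Ω with hB
  set N := B.filter fun j => ∃ x ∈ ends μ ν, x = dm j ∨ ∃ v ∈ (g j).its, x = vx v with hN
  have cN : N.card ≤ (ends μ ν).card :=
    card_le_card_of_forall_subsingleton (fun j x => x = dm j ∨ ∃ v ∈ (g j).its, x = vx v)
      (fun j hj => (mem_filter.1 hj).2) fun x _ i hi j hj => by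
        rcases hi.2 with a | ⟨v, a, a'⟩ <;> rcases hj.2 with b | ⟨u, b, b'⟩
        · simpa using a.symm.trans b
        · simpa using a.symm.trans b'
        · simpa using a'.symm.trans b
        · have : v = u := by simpa using a'.symm.trans b'
          exact own_eq o.cx.st (mem_filter.1 hi.1).1 (mem_filter.1 hj.1).1 a (this ▸ b)
  have sub : ((PoolS (S.rem (ag2 Γ) (it2 Γ)) B g μ ν).filter
      fun v => μ (vx v) = vx v ∧ P.Q0 e ρ v) ⊆
      ((S.W \ itsB (S.A.erase j0) g).filter fun v => P.Q0 e ρ v) ∪ itsB Ω g ∪ itsB N g := by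
    intro v hv
    obtain ⟨a1, a2, a3⟩ := mem_filter.1 hv
    obtain ⟨a4, -, a5⟩ := mem_filter.1 a1
    by_cases b : v ∈ itsB (S.A.erase j0) g
    swap
    · exact mem_union_left _ (mem_union_left _ (mem_filter.2
        ⟨mem_sdiff.2 ⟨(mem_sdiff.1 a4).1, b⟩, a3⟩))
    obtain ⟨j, hj, b⟩ := mem_itsB.1 b
    by_cases c : j ∈ Ω
    · exact mem_union_left _ (mem_union_right _ (mem_itsB.2 ⟨j, c, b⟩))
    have hjB : j ∈ B := mem_sdiff.2 ⟨hj, c⟩
    have d : μ (ag j) = dm j := (((hI J V P _ e ρ B g o.cx.wf o.cx.fr o.cx.st o.cx.si).2 μ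
      o.cx.im).2.2.2.2.2.2.2.2.2.2 j hjB v b a2).resolve_right fun k => k.1 a3
    obtain ⟨d1, d2⟩ := dummy_fix o.cx d
    refine mem_union_right _ (mem_itsB.2 ⟨j, mem_filter.2 ⟨hjB, ?_⟩, b⟩)
    by_cases f : ν (ag j) = μ (ag j)
    · by_contra hn
      refine a5 ⟨j, ⟨hjB, d1.2.1, by rw [d]; simp, f, fun u hu _ => ?_⟩, b⟩
      by_contra k
      exact hn ⟨vx u, mem_filter.2 ⟨mem_univ _, Or.inl ⟨d2 u hu, k⟩⟩, Or.inr ⟨u, hu, rfl⟩⟩
    · refine ⟨dm j, mem_filter.2 ⟨mem_univ _, Or.inr ⟨?_, ?_⟩⟩, Or.inl rfl⟩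
      · rw [← d, o.cx.im.1, d]; simp
      · refine ((En_shape o.m).2 j).resolve_right fun k => f ?_
        rw [← k, o.m.1, k, d]
  have c1 := card_le_card sub
  have c2 := card_union_le
    (((S.W \ itsB (S.A.erase j0) g).filter fun v => P.Q0 e ρ v) ∪ itsB Ω g) (itsB N g)
  have c3 := card_union_le ((S.W \ itsB (S.A.erase j0) g).filter fun v => P.Q0 e ρ v) (itsB Ω g)
  have c4 := card_itsB Ω g
  have c5 := card_itsB N g
  have c6 := o.en
  omega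

/-- The options without new pair edges. -/
def ax2 (nc : Prop) (mc : J → Prop) : Ax J V := ⟨nc, False, fun _ => False, mc⟩

theorem b2core (hC : CompStmt) (hI : ImgStmt) (hO : OptStmt) (hCo : CoreStmt)
    (h : Su P S e ρ j0 g Γ cT) {l κ c3 : ℕ} {nc : Prop} {mc : J → Prop} {Ω : Finset J}
    (h0 : Om0 P e ρ (S.A.erase j0) g Γ ⊆ Ω) (hκ : Ω.card ≤ κ)
    (hm : ∀ j q z, P.OldP e ρ (S.A.erase j0 \ Ω) g j q z → P.rigid S e ρ j → ¬ mc j)
    (hu : ∀ j j', P.rigid S e ρ j → P.rigid S e ρ j' → mc j → mc j' → j = j')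
    (hp : P.Pass (S.rem (ag2 Γ) (it2 Γ)) e ρ (ax2 nc fun _ => True) l)
    (hQ : ¬ nc ∨ ((S.W \ itsB (S.A.erase j0) g).filter fun v => P.Q0 e ρ v).card ≤ c3) :
    ∃ μ ν, Out P (S.rem (ag2 Γ) (it2 Γ)) e l ρ (S.A.erase j0 \ Ω) g (ax2 nc mc) μ ν (9 * κ + 5) ∧
      P.RectA (S.rem (ag2 Γ) (it2 Γ)) (S.A.erase j0 \ Ω) g μ ν (6 * (9 * κ + 5) + 3)
        (c3 + 3 * κ + 6 * (9 * κ + 5) + 10) ∧
      P.JointB (S.rem (ag2 Γ) (it2 Γ)) e ρ μ ν (2 * (9 * κ + 5)) := by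
  obtain ⟨ν0, a, b, c, d⟩ := hp
  have hp' : P.Pass (S.rem (ag2 Γ) (it2 Γ)) e ρ (ax2 nc mc) l :=
    ⟨ν0, a.mono fun x y k => by
      rcases x with i | u | i <;> rcases y with j | v | j <;> exact k, b, c,
      fun j hj _ => d.1 j hj (Or.inr trivial), d.2⟩
  obtain ⟨μ, ν, o⟩ := best hC hI hCo h h0 hκ (X := ax2 nc mc) hm hp'
  obtain ⟨w, hb⟩ := o.bs
  obtain ⟨ra, jb⟩ := hO J V P _ e ρ _ g μ ν _ w _ (c3 + 3 * κ + 6 * (9 * κ + 5)) o.cx hb o.nc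
    (fun _ _ k => k.elim) hu (Or.inr (hQ.imp id fun k => by
      have := q0_bound hI o
      omega))
  exact ⟨μ, ν, o, ra, jb⟩

/-- The old pair edges outside the opened services. -/
noncomputable def PE (P : Geo J V) (e : ℕ) (ρ : Finset V) (B : Finset J) (g : J → Sv V) :
    Finset (J × V × V) := univ.filter fun s => P.OldP e ρ B g s.1 s.2.1 s.2.2

theorem branchF (hC : CompStmt) (hP : PeStmt) (hI : ImgStmt) (hO : OptStmt) (hR : RealStmt)
    (hCo : CoreStmt) (h : Su P S e ρ j0 g Γ cT) {l mG c3 : ℕ} {nc : Prop}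
    (hp : P.Pass (S.rem (ag2 Γ) (it2 Γ)) e ρ (ax2 nc fun _ => True) l)
    (hQ : ¬ nc ∨ ((S.W \ itsB (S.A.erase j0) g).filter fun v => P.Q0 e ρ v).card ≤ c3)
    (hG : (PE P e ρ (S.A.erase j0 \ Om0 P e ρ (S.A.erase j0) g Γ) g).card ≤ mG)
    (he : 20 * (9 * (cT + 16 + mG) + 5) + 2 * 0 + 17 ≤ e)
    (hl : 14 * (9 * (cT + 16 + mG) + 5) + 2 * 0 +
      (c3 + 3 * (cT + 16 + mG) + 6 * (9 * (cT + 16 + mG) + 5) + 10) + 4 ≤ l) : P.Sol3 S l := by
  set O0 := Om0 P e ρ (S.A.erase j0) g Γ with hO0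
  set Ω := O0 ∪ ag2 (PE P e ρ (S.A.erase j0 \ O0) g) with hΩ
  have hκ : Ω.card ≤ cT + 16 + mG := by
    have a1 : O0.card ≤ cT + 16 := card_Om0 h
    have a2 := card_ag2 (PE P e ρ (S.A.erase j0 \ O0) g)
    have a3 : Ω.card ≤ _ := card_union_le _ _
    omega
  have hno : ∀ j q z, ¬ P.OldP e ρ (S.A.erase j0 \ Ω) g j q z := fun j q z a =>
    (mem_sdiff.1 a.1).2 (mem_union_right _ (mem_ag2.2 ⟨(j, q, z), mem_filter.2
      ⟨mem_univ _, oldP_mono (sdiff_subset_sdiff Subset.rfl subset_union_left) a⟩, rfl⟩))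
  obtain ⟨μ, ν, o, ra, jb⟩ := b2core hC hI hO hCo h (mc := fun _ => False) subset_union_left hκ
    (fun _ _ _ _ _ k => k) (fun _ _ _ _ k => k.elim) hp hQ
  have nope : ∀ u v, u ≠ v → ν (vx v) ≠ vx u := fun u v hne a => by
    have b := o.mX.2 (vx v) (by rw [a]; simpa using hne)
    rw [a] at b
    rcases b with b | b
    · exact b.2.2.1
    · obtain ⟨j, c⟩ := (o.cx.im.2 _ _ (by simpa using hne.symm)).1 b
      exact c.elim (hno _ _ _) (hno _ _ _)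
  have allc : ∀ j ∈ (S.rem (ag2 Γ) (it2 Γ)).A, ν (ag j) ≠ ag j := by
    have a1 := ((hP J V).1 ν o.m.1 (En_shape o.m)).1
    have a2 : npe ν univ = 0 := card_eq_zero.2 (filter_eq_empty_iff.2 fun v _ k => by
      obtain ⟨-, u, k1, k2⟩ := k
      exact nope u v k1 k2)
    have a3 : (univ.filter fun j : J => ν (ag j) ≠ ag j) ⊆ (S.rem (ag2 Γ) (it2 Γ)).A :=
      fun j hj => by
        have b := o.m.2 _ (mem_filter.1 hj).2
        rcases hy : ν (ag j) with i | u | i <;> rw [hy] at b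
        · exact b.elim
        · exact b.1
        · exact b.2.1
    have a4 := o.sz
    have a5 := eq_of_subset_of_card_le a3 (by omega)
    intro j hj
    rw [← a5] at hj
    exact (mem_filter.1 hj).2
  exact fin (Γ' := Γ) (Hh := ∅) (Hi := ∅) (U := ∅) (D := ∅) (δ := 0) (nH := 0) hR h sdiff_subset o
    ra jb rfl rfl (by simp) h.sg.2 (by simp) (by simp) (by simp) (by simp)
    (fun s hs _ => sg_serv h.sg hs) (by simp) (by simp)
    (Or.inr ⟨fun j hj a => (allc j hj a).elim, fun q z a b _ => (nope z q a b).elim⟩)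
    (by simp) he hl

theorem two_thirds {α : Type} {G : Finset α} {p q : α → Prop} (hG : 6 ≤ G.card)
    (hp : 2 * G.card ≤ 3 * (G.filter p).card) (hq : 2 * G.card ≤ 3 * (G.filter q).card) :
    ∃ s ∈ G, ∃ t ∈ G, s ≠ t ∧ p s ∧ q s ∧ p t ∧ q t := by
  have a1 := card_union_add_card_inter (G.filter p) (G.filter q)
  have a2 : (G.filter p ∪ G.filter q).card ≤ G.card :=
    card_le_card (union_subset (filter_subset _ _) (filter_subset _ _))
  obtain ⟨s, hs, t, ht, hne⟩ := one_lt_card.1 (show 1 < (G.filter p ∩ G.filter q).card by omega)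
  simp only [mem_inter, mem_filter] at hs ht
  exact ⟨s, hs.1.1, t, ht.1.1, hne, hs.1.2, hs.2.2, ht.1.2, ht.2.2⟩

theorem exists_not {α : Type} {G H : Finset α} {p : α → Prop} (hH : H ⊆ G)
    (hc : 2 * G.card ≤ 3 * H.card) (hp : ¬ 2 * G.card ≤ 3 * (G.filter p).card) :
    ∃ s ∈ H, ¬ p s := by
  by_contra hn
  push Not at hn
  have : H.card ≤ (G.filter p).card := card_le_card fun s hs => mem_filter.2 ⟨hH hs, hn s hs⟩
  omega

/-- Few old pair edges are lost if no new pair edges are allowed. -/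
theorem card_lost (hC : CompStmt) (hP : PeStmt) (hI : ImgStmt) {B : Finset J} {l K : ℕ}
    {nc : Prop} {mc : J → Prop} {μ ν : Nd J V → Nd J V} (o : Out P S e l ρ B g (ax2 nc mc) μ ν K)
    (G : Finset (J × V × V)) :
    (G.filter fun s => P.OldP e ρ B g s.1 s.2.1 s.2.2 ∧ ν (vx s.2.1) ≠ vx s.2.2).card ≤ K := by
  obtain ⟨i1, -, -, -, -, -, -, i8, -⟩ :=
    (hI J V P S e ρ B g o.cx.wf o.cx.fr o.cx.st o.cx.si).2 μ o.cx.im
  obtain ⟨k1, k2, -, k4, -⟩ := hC _ μ ν i1.1 o.m.1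
  refine le_trans (card_le_card_of_injOn (fun s => cmp μ ν (vx s.2.1)) (fun s hs => ?_)
    fun s hs t ht hst => ?_) o.nc
  · obtain ⟨-, a, b⟩ := mem_filter.1 (mem_coe.1 hs)
    refine mem_coe.2 (mem_image.2 ⟨vx s.2.1, mem_filter.2 ⟨mem_univ _, ?_⟩, rfl⟩)
    rw [(i8 _ _ _ a).2.2.2.2.2.2]
    exact b.symm
  · obtain ⟨-, a, b⟩ := mem_filter.1 (mem_coe.1 hs)
    obtain ⟨-, a', b'⟩ := mem_filter.1 (mem_coe.1 ht)
    by_contra hne
    have n1 : s.1 ≠ t.1 := fun k => by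
      obtain ⟨c1, c2⟩ := oldP_uniq a (k ▸ a')
      exact hne (Prod.ext k (Prod.ext c1 c2))
    obtain ⟨-, -, c3, -, -, -, c7⟩ := i8 _ _ _ a
    obtain ⟨-, -, d3, -, -, -, d7⟩ := i8 _ _ _ a'
    have z0 : npe ν (cmp μ ν (vx s.2.1)) = 0 :=
      card_eq_zero.2 (filter_eq_empty_iff.2 fun v _ k => by
        obtain ⟨hv, u, f1, f2⟩ := k
        have f3 := k4 _ _ (by rw [c7]; exact b.symm) hv
        have f4 := o.mX.2 (vx v) (by rw [f2]; simpa using f1)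
        rcases f4 with f4 | f4
        · rw [f2] at f4
          exact f4.2.2.1
        · exact f3 f4)
    have z1 := ((hP J V).2 μ ν i1.1 o.m.1 (En_shape i1) (En_shape o.m) (vx s.2.1)).1
    have z2 : ({s.2.1, s.2.2, t.2.1} : Finset V) ⊆ univ.filter fun v : V =>
        vx v ∈ cmp μ ν (vx s.2.1) ∧ ∃ u, u ≠ v ∧ μ (vx v) = vx u := by
      intro v hv
      simp only [mem_insert, mem_singleton] at hv
      refine mem_filter.2 ⟨mem_univ _, ?_⟩
      rcases hv with rfl | rfl | rfl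
      · exact ⟨(k1 _).1, _, c3.1.symm, c7⟩
      · refine ⟨c7 ▸ (k1 _).2.1 _ (k1 _).1, _, c3.1, ?_⟩
        rw [← c7, i1.1]
      · have : cmp μ ν (vx s.2.1) = cmp μ ν (vx t.2.1) := hst
        exact ⟨this ▸ (k1 _).1, _, d3.1.symm, d7⟩
    have z3 : ({s.2.1, s.2.2, t.2.1} : Finset V).card = 3 := card_eq_three.2
      ⟨_, _, _, c3.1, fun k => n1 (own_eq o.cx.st a.1 a'.1 (oldP_its a).1 (k ▸ (oldP_its a').1)),
        fun k => n1 (own_eq o.cx.st a.1 a'.1 (oldP_its a).2.1 (k ▸ (oldP_its a').1)), rfl⟩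
    have z4 := card_le_card z2
    have z5 : npe μ (cmp μ ν (vx s.2.1)) = (univ.filter fun v : V =>
        vx v ∈ cmp μ ν (vx s.2.1) ∧ ∃ u, u ≠ v ∧ μ (vx v) = vx u).card := rfl
    omega

theorem branchM (hC : CompStmt) (hP : PeStmt) (hI : ImgStmt) (hO : OptStmt) (hR : RealStmt)
    (hCo : CoreStmt) (h : Su P S e ρ j0 g Γ cT) {l c3 : ℕ} {nc : Prop}
    (hp : P.Pass (S.rem (ag2 Γ) (it2 Γ)) e ρ (ax2 nc fun _ => True) l)
    (hQ : ¬ nc ∨ ((S.W \ itsB (S.A.erase j0) g).filter fun v => P.Q0 e ρ v).card ≤ c3)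
    (hG : 9 * (9 * (cT + 18) + 5) + 12 ≤
      (PE P e ρ (S.A.erase j0 \ Om0 P e ρ (S.A.erase j0) g Γ) g).card)
    (he : 20 * (9 * (cT + 18) + 5) + 2 * (9 * (9 * (cT + 18) + 5) + 12) + 17 ≤ e)
    (hl : 14 * (9 * (cT + 18) + 5) + 2 * (9 * (9 * (cT + 18) + 5) + 12) +
      (c3 + 3 * (cT + 18) + 6 * (9 * (cT + 18) + 5) + 10) + 4 ≤ l) : P.Sol3 S l := by
  set O0 := Om0 P e ρ (S.A.erase j0) g Γ with hO0
  obtain ⟨G, hGs, hGc⟩ := exists_subset_card_eq hG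
  have hGo : ∀ s ∈ G, P.OldP e ρ (S.A.erase j0 \ O0) g s.1 s.2.1 s.2.2 := fun s hs =>
    (mem_filter.1 (hGs hs)).2
  have hG1 : ∀ s ∈ G, ∀ t ∈ G, s.1 = t.1 → s = t := fun s hs t ht k => by
    obtain ⟨c1, c2⟩ := oldP_uniq (hGo s hs) (k ▸ hGo t ht)
    exact Prod.ext k (Prod.ext c1 c2)
  let zb : V → Prop := fun z => 2 * G.card ≤ 3 * (G.filter fun s => P.junk s.1 z).card
  let mc : J → Prop := fun j => 2 * G.card ≤ 3 * (G.filter fun s => P.junk j s.2.2).card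
  have u1 : ∀ z z', zb z → zb z' → z = z' := fun z z' a b => by
    obtain ⟨s, hs, t, ht, hne, c1, c2, c3, c4⟩ := two_thirds (by omega) a b
    obtain ⟨o, r⟩ := (oldP_its (hGo s hs)).2.2
    obtain ⟨o', r'⟩ := (oldP_its (hGo t ht)).2.2
    exact rig_junk h.fr (fun k => hne (hG1 s hs t ht k)) r r' c1 c2 c3 c4
  have u2 : ∀ j j', P.rigid S e ρ j → P.rigid S e ρ j' → mc j → mc j' → j = j' :=
    fun j j' a b c d => by
      by_contra hn
      obtain ⟨-, o, a⟩ := a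
      obtain ⟨-, o', b⟩ := b
      obtain ⟨s, hs, t, ht, hne, c1, c2, c3, c4⟩ := two_thirds (by omega) c d
      have k := rig_junk h.fr hn a b c1 c3 c2 c4
      exact hne (hG1 s hs t ht (own_eq h.mn.1.1 (mem_sdiff.1 (hGo s hs).1).1
        (mem_sdiff.1 (hGo t ht).1).1 (oldP_its (hGo s hs)).2.1 (k ▸ (oldP_its (hGo t ht)).2.1)))
  set O1 := (S.A.erase j0).filter fun j => ∃ q z, P.OldP e ρ (S.A.erase j0) g j q z ∧ zb z with hO1
  set O2 := (S.A.erase j0).filter fun j => P.rigid S e ρ j ∧ mc j with hO2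
  have c1 : O1.card ≤ 1 := card_le_one.2 fun i hi j hj => by
    obtain ⟨a, q, z, b, c⟩ := mem_filter.1 hi
    obtain ⟨a', q', z', b', c'⟩ := mem_filter.1 hj
    cases u1 z z' c c'
    exact own_eq h.mn.1.1 a a' (oldP_its b).2.1 (oldP_its b').2.1
  have c2 : O2.card ≤ 1 := card_le_one.2 fun i hi j hj =>
    u2 i j (mem_filter.1 hi).2.1 (mem_filter.1 hj).2.1 (mem_filter.1 hi).2.2 (mem_filter.1 hj).2.2
  have c12 : (O1 ∪ O2).card ≤ 2 := (card_union_le _ _).trans (by omega)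
  have c3' : (O0 ∪ (O1 ∪ O2)).card ≤ cT + 18 := by
    have a1 : O0.card ≤ cT + 16 := card_Om0 h
    have a2 := card_union_le O0 (O1 ∪ O2)
    omega
  obtain ⟨μ, ν, o, ra, jb⟩ := b2core hC hI hO hCo h (mc := mc) subset_union_left c3'
    (fun j q z a b c => (mem_sdiff.1 a.1).2 (mem_union_right _
      (mem_union_right _ (mem_filter.2 ⟨(mem_sdiff.1 a.1).1, b, c⟩)))) u2 hp hQ
  set B := S.A.erase j0 \ (O0 ∪ (O1 ∪ O2)) with hB
  set Hi := G.filter fun s => P.OldP e ρ B g s.1 s.2.1 s.2.2 ∧ ν (vx s.2.1) = vx s.2.2 ∧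
    ν (ag s.1) = ag s.1 with hHi
  have cH : 2 * G.card ≤ 3 * Hi.card := by
    have i8 := ((hI J V P _ e ρ B g o.cx.wf o.cx.fr o.cx.st o.cx.si).2 μ
      o.cx.im).2.2.2.2.2.2.2.1
    have a1 := card_lost hC hP hI o G
    have a2 : (G.filter fun s => s.1 ∈ O1 ∪ O2).card ≤ (O1 ∪ O2).card :=
      card_le_card_of_injOn (fun s => s.1)
        (fun s hs => mem_coe.2 (mem_filter.1 (mem_coe.1 hs)).2) fun s hs t ht k =>
        hG1 s (mem_filter.1 (mem_coe.1 hs)).1 t (mem_filter.1 (mem_coe.1 ht)).1 k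
    have a3 : (G.filter fun s => ag s.1 ∈ ends μ ν).card ≤ (ends μ ν).card :=
      card_le_card_of_injOn (fun s => ag s.1)
        (fun s hs => mem_coe.2 (mem_filter.1 (mem_coe.1 hs)).2) fun s hs t ht k =>
        hG1 s (mem_filter.1 (mem_coe.1 hs)).1 t (mem_filter.1 (mem_coe.1 ht)).1 (by simpa using k)
    have a4 : G ⊆ Hi ∪ (G.filter fun s => P.OldP e ρ B g s.1 s.2.1 s.2.2 ∧
        ν (vx s.2.1) ≠ vx s.2.2) ∪ (G.filter fun s => s.1 ∈ O1 ∪ O2) ∪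
        G.filter fun s => ag s.1 ∈ ends μ ν := fun s hs => by
      by_cases b1 : s.1 ∈ O1 ∪ O2
      · exact mem_union_left _ (mem_union_right _ (mem_filter.2 ⟨hs, b1⟩))
      have b2 : P.OldP e ρ B g s.1 s.2.1 s.2.2 :=
        ⟨mem_sdiff.2 ⟨(mem_sdiff.1 (hGo s hs).1).1, fun k => (mem_union.1 k).elim
          (mem_sdiff.1 (hGo s hs).1).2 b1⟩, (hGo s hs).2⟩
      by_cases b3 : ν (ag s.1) = ag s.1
      swap
      · exact mem_union_right _ (mem_filter.2 ⟨hs, mem_filter.2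
          ⟨mem_univ _, Or.inl ⟨(i8 _ _ _ b2).2.2.2.2.2.1, b3⟩⟩⟩)
      by_cases b4 : ν (vx s.2.1) = vx s.2.2
      · exact mem_union_left _ (mem_union_left _ (mem_union_left _ (mem_filter.2 ⟨hs, b2, b4, b3⟩)))
      · exact mem_union_left _ (mem_union_left _ (mem_union_right _ (mem_filter.2 ⟨hs, b2, b4⟩)))
    have a5 := (card_le_card a4).trans ((card_union_le _ _).trans (Nat.add_le_add_right
      ((card_union_le _ _).trans (Nat.add_le_add_right (card_union_le _ _) _)) _))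
    have a6 := o.en
    omega
  refine fin (Γ' := Γ) (Hh := ∅) (Hi := Hi) (U := ∅) (D := ∅) (δ := 0) hR h sdiff_subset o
    ra jb rfl rfl (by simp) h.sg.2 (by simp) (by simp) (by simp) (by simp)
    (fun s hs _ => sg_serv h.sg hs) (by simp) (fun s hs => (mem_filter.1 hs).2)
    (Or.inr ⟨fun j hj a => ?_, fun q z a b c => ?_⟩)
    (by rw [empty_union, ← hGc]; exact card_filter_le _ _) he hl
  · rw [empty_union]
    exact exists_not (filter_subset _ _) cH fun k => o.cv.1 j hj (Or.inr k) a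
  · rw [empty_union]
    refine exists_not (p := fun s => P.junk s.1 z) (filter_subset _ _) cH fun k => ?_
    rcases pe_edge hI o a b c with d | ⟨j, d⟩
    · exact d.1
    · exact (mem_sdiff.1 d.1).2 (mem_union_right _ (mem_union_left _ (mem_filter.2
        ⟨(mem_sdiff.1 d.1).1, q, z, oldP_mono sdiff_subset d, k⟩)))

end Main

end DJump

open Finset Classical Geo DJump in
theorem jumpStmt (hRa : RamseyStmt) (hC : CompStmt) (hP : PeStmt) (hN : NormStmt) (hT : TripStmt)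
    (hI : ImgStmt) (hO : OptStmt) (hR : RealStmt) (hCo : CoreStmt) : JumpStmt := by
  obtain ⟨cT, hT⟩ := hT
  obtain ⟨K1, hK1⟩ : ∃ K1, K1 = 9 * (cT + 18) + 5 := ⟨_, rfl⟩
  obtain ⟨mG, hmG⟩ : ∃ mG, mG = 9 * K1 + 12 := ⟨_, rfl⟩
  obtain ⟨e, he⟩ : ∃ e, e = 20 * (9 * (cT + 18 + mG) + 5) + 2 * mG + 100 := ⟨_, rfl⟩
  obtain ⟨N, hRa⟩ := hRa.2 (6 * e + 6) (6 * e + 6)
  refine ⟨e, N + 30 * (9 * (cT + 18 + mG) + 5) + 2 * mG + 200, ?_⟩
  intro J V _ _ _ _ P S l j0 f hw hl hj hf hu ht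
  obtain ⟨-, -, n3, -, n5, -, -, n8⟩ := hN J V P S (S.A.erase j0) hw
  obtain ⟨g, hg⟩ := n3 f hf
  have u1 := hg.2 f hf
  have u2 : (itsB (S.A.erase j0) g).card ≤ use (S.A.erase j0) fun j => (g j).its :=
    card_biUnion_le
  have u3 := le_card_sdiff (itsB (S.A.erase j0) g) S.W
  obtain ⟨ρ, r1, r2⟩ : ∃ ρ ⊆ S.W \ itsB (S.A.erase j0) g, P.Frame e ρ := by
    rcases hRa V (S.W \ itsB (S.A.erase j0) g) P.HH (fun _ _ => HH_symm) (by omega) with
      ⟨T, a, b, c⟩ | ⟨T, a, b, c⟩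
    · exact ⟨T, a, b, Or.inr c⟩
    · refine ⟨T, a, b, Or.inl fun x hx y hy => ?_⟩
      by_cases k : x = y
      · exact k ▸ HH_irrefl x
      · exact c x hx y hy k
  obtain ⟨Γ, g1, g2, g3⟩ := ht ρ r2
  have h : Su P S e ρ j0 g Γ cT :=
    ⟨hw, r2, hj, hg, r1.trans sdiff_subset, disjoint_left.2 fun v a => (mem_sdiff.1 (r1 a)).2, g1,
      g2, by omega, by omega, hT J V P S _ g hw hg, n8 g e ρ r2 (Or.inl hg)⟩
  have b2 : ∀ nc : Prop, P.Pass (S.rem (ag2 Γ) (it2 Γ)) e ρ (ax2 nc fun _ => True) l →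
      (¬ nc ∨ ((S.W \ itsB (S.A.erase j0) g).filter fun v => P.Q0 e ρ v).card ≤ 2 * K1 + 14) →
      P.Sol3 S l := fun nc hp hQ => by
    by_cases k : (PE P e ρ (S.A.erase j0 \ Om0 P e ρ (S.A.erase j0) g Γ) g).card ≤ mG
    · exact branchF hC hP hI hO hR hCo h hp hQ k (by omega) (by omega)
    · exact branchM hC hP hI hO hR hCo h hp hQ (by omega) (by omega) (by omega)
  rcases g3 with ⟨s1, a1, s2, a2, a3, a4, a5, a6⟩ | ⟨s1, a1, s2, a2, a3, a4, a5, a6⟩ | a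
  · exact branchW hC hI hO hR hCo h a1 a2 a3 a4 a5 a6 (by omega) (by omega)
  · by_cases k : ((S.W \ itsB (S.A.erase j0) g).filter fun v => P.Q0 e ρ v).card ≤ 2 * K1 + 14
    · exact b2 True a6 (Or.inr k)
    · exact branchN hC hI hO hR hCo h a1 a2 a3 a4 a5 a6 (by omega) (by omega) (by omega)
  · exact b2 False a (Or.inl id)

end Pool.Agent.Lib.MP_ef7581_lc.D2
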