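import Mathlib
import Pool.Agent.Lib.MP_ef7581_lc.DComp

/-!
The consistent case: virtual solutions from the final test, the setting of the last step, and
soundness of the test.
-/

set_option autoImplicit false

namespace Pool.Agent.Lib.MP_ef7581_lc.D2

open Finset Classical

namespace DKV

/-- A symmetric functional relation is the edge set of an involution. -/
theorem exists_inv {α : Type} (O : α → α → Prop) (hs : ∀ x y, O x y → O y x)
    (hf : ∀ x y y', O x y → O x y' → y = y') :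
    ∃ μ : α → α, (∀ x, μ (μ x) = x) ∧ (∀ x y, O x y → μ x = y) ∧ ∀ x, μ x ≠ x → O x (μ x) := by
  have h : ∀ x, ∃ y, (O x y ∨ (y = x ∧ ∀ z, ¬ O x z)) := by
    intro x
    by_cases hx : ∃ y, O x y
    · obtain ⟨y, hy⟩ := hx
      exact ⟨y, Or.inl hy⟩
    · exact ⟨x, Or.inr ⟨rfl, fun z hz => hx ⟨z, hz⟩⟩⟩
  choose μ hμ using h
  have h1 : ∀ x y, O x y → μ x = y := by
    intro x y hxy
    rcases hμ x with h | h
    · exact hf x _ _ h hxy
    · exact (h.2 y hxy).elim
  refine ⟨μ, fun x => ?_, h1, fun x hx => (hμ x).resolve_right fun h => hx h.1⟩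
  rcases hμ x with h | h
  · exact h1 _ _ (hs _ _ h)
  · rw [h.1, h.1]

/-- Fibrewise injections as one relation. -/
theorem exists_rel_le {α β K : Type} (p : K → Finset α) (q : K → Finset β)
    (hq : ∀ k k' y, y ∈ q k → y ∈ q k' → k = k') (hc : ∀ k, (p k).card ≤ (q k).card) :
    ∃ Rl : α → β → Prop, (∀ x y, Rl x y → ∃ k, y ∈ q k) ∧
      (∀ k, ∀ x ∈ p k, ∃ y ∈ q k, Rl x y) ∧ ∀ x x' y, Rl x y → Rl x' y → x = x' := by
  have h : ∀ k, Nonempty (p k ↪ q k) := fun k =>
    Function.Embedding.nonempty_of_card_le (by simpa using hc k)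
  let e : ∀ k, p k ↪ q k := fun k => (h k).some
  refine ⟨fun x y => ∃ k, ∃ hx : x ∈ p k, (e k ⟨x, hx⟩ : β) = y, ?_, ?_, ?_⟩
  · rintro x y ⟨k, hx, rfl⟩
    exact ⟨k, (e k ⟨x, hx⟩).2⟩
  · intro k x hx
    exact ⟨_, (e k ⟨x, hx⟩).2, k, hx, rfl⟩
  · rintro x x' y ⟨k, hx, h1⟩ ⟨k', hx', h2⟩
    obtain rfl : k = k' := hq k k' y (h1 ▸ (e k ⟨x, hx⟩).2) (h2 ▸ (e k' ⟨x', hx'⟩).2)
    exact congrArg Subtype.val ((e k).injective (Subtype.ext (h1.trans h2.symm)))

/-- Fibrewise bijections as one relation. -/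
theorem exists_rel_eq {α β K : Type} (p : K → Finset α) (q : K → Finset β)
    (hp : ∀ k k' x, x ∈ p k → x ∈ p k' → k = k')
    (hq : ∀ k k' y, y ∈ q k → y ∈ q k' → k = k') (hc : ∀ k, (p k).card = (q k).card) :
    ∃ Rl : α → β → Prop, (∀ x y, Rl x y → ∃ k, x ∈ p k ∧ y ∈ q k) ∧
      (∀ k, ∀ x ∈ p k, ∃ y, Rl x y) ∧ (∀ x x' y, Rl x y → Rl x' y → x = x') ∧
      ∀ x y y', Rl x y → Rl x y' → y = y' := by
  let e : ∀ k, p k ≃ q k := fun k => Finset.equivOfCardEq (hc k)
  refine ⟨fun x y => ∃ k, ∃ hx : x ∈ p k, (e k ⟨x, hx⟩ : β) = y, ?_, ?_, ?_, ?_⟩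
  · rintro x y ⟨k, hx, rfl⟩
    exact ⟨k, hx, (e k ⟨x, hx⟩).2⟩
  · intro k x hx
    exact ⟨_, k, hx, rfl⟩
  · rintro x x' y ⟨k, hx, h1⟩ ⟨k', hx', h2⟩
    obtain rfl : k = k' := hq k k' y (h1 ▸ (e k ⟨x, hx⟩).2) (h2 ▸ (e k' ⟨x', hx'⟩).2)
    exact congrArg Subtype.val ((e k).injective (Subtype.ext (h1.trans h2.symm)))
  · rintro x y y' ⟨k, hx, rfl⟩ ⟨k', hx', rfl⟩
    obtain rfl : k = k' := hp k k' x hx hx'
    rfl

theorem card_lab_le {α β D : Type} [Fintype α] [DecidableEq D] (f : β → α)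
    (hf : Function.Injective f) (s : Finset β) (lab : α → D) (d : D) :
    (s.filter fun j => lab (f j) = d).card ≤ (univ.filter fun x => lab x = d).card :=
  card_le_card_of_injOn f (fun j hj => by simpa using (mem_filter.mp hj).2) hf.injOn

theorem card_lab_eq {α β D : Type} [Fintype α] [DecidableEq D] (f : β → α)
    (hf : Function.Injective f) (s : Finset β) (lab : α → D) (d : D) (h : ∀ x, lab x = d → ∃ j ∈ s, x = f j) :
    (s.filter fun j => lab (f j) = d).card = (univ.filter fun x => lab x = d).card := by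
  refine le_antisymm (card_lab_le f hf s lab d) (card_le_card_of_surjOn f fun x hx => ?_)
  have hx' : lab x = d := by simpa using hx
  obtain ⟨j, hj, rfl⟩ := h x hx'
  exact ⟨j, by simpa using ⟨hj, hx'⟩, rfl⟩

/-- Sets with pairwise intersections of size at most one. -/
theorem bonferroni {ι α : Type} [DecidableEq α] (T : ι → Finset α) (s : Finset ι)
    (h : ∀ i ∈ s, ∀ j ∈ s, i ≠ j → (T i ∩ T j).card ≤ 1) :
    2 * ∑ i ∈ s, (T i).card ≤ 2 * (s.biUnion T).card + s.card ^ 2 := by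
  induction s using Finset.induction_on with
  | empty => simp
  | insert a s ha ih =>
    have h1 := ih fun i hi j hj => h i (mem_insert_of_mem hi) j (mem_insert_of_mem hj)
    have h2 := card_union_add_card_inter (T a) (s.biUnion T)
    have h3 : (T a ∩ s.biUnion T).card ≤ s.card := by
      rw [inter_biUnion]
      refine card_biUnion_le.trans ?_
      simpa using sum_le_card_nsmul s _ 1 fun i hi =>
        h a (mem_insert_self _ _) i (mem_insert_of_mem hi) fun e => ha (e ▸ hi)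
    rw [sum_insert ha, biUnion_insert, card_insert_of_notMem ha]
    nlinarith

theorem ag_inj {J V : Type} : Function.Injective (ag : J → Nd J V) := Sum.inl_injective

theorem vx_inj {J V : Type} : Function.Injective (vx : V → Nd J V) :=
  Sum.inr_injective.comp Sum.inl_injective

variable {J V : Type} [Fintype J] [Fintype V] [DecidableEq J] [DecidableEq V] {P : Geo J V}
  {t M t' M0 : ℕ}

omit [Fintype J] [Fintype V] [DecidableEq J] [DecidableEq V] in
theorem EK_mono {A : Finset J} {W : Finset V} {pe : V → V → Prop} {x y : Nd J V}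
    (h : P.EK A W pe x y) : P.EK A W (fun _ _ => True) x y := by
  rcases x with j | v | j <;> rcases y with i | u | i <;> simp_all [Geo.EK]

omit [Fintype J] [Fintype V] [DecidableEq J] [DecidableEq V] in
theorem EK_shape {A : Finset J} {W : Finset V} {pe : V → V → Prop} {m : Nd J V → Nd J V}
    (h : IsM (P.EK A W pe) m) : Shape m := by
  refine ⟨fun j => ?_, fun j => ?_⟩
  · by_cases e : m (ag j) = ag j
    · exact Or.inl e
    · have := h.2 _ e
      rcases hy : m (ag j) with i | u | i <;> rw [hy] at this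
      · exact this.elim
      · exact Or.inr (Or.inl ⟨u, rfl⟩)
      · exact this.elim
  · by_contra e
    have := h.2 _ (not_or.mp e).1
    rcases hy : m (dm j) with i | u | i <;> rw [hy] at this <;> exact this.elim

/-- The number of pair edges is at least the number of agents that need one. -/
theorem count_pe (hP : PeStmt) {R : RG J V t M t' M0} {A : Finset J} {W : Finset V}
    {n : Lb t M → ℕ} (h1 : ∀ κ, n (Sum.inl (κ, 0)) = n (Sum.inl (κ, 1)))
    (h2 : ∀ κ, n (Sum.inl (κ, 0)) = n (Sum.inl (κ, 2)))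
    (hc : A.card + (∑ κ, n (Sum.inl (κ, 0))) + n (Sum.inr 0) + n (Sum.inr 1) ≤ W.card)
    {m : Nd J V → Nd J V} (hm : IsM (P.EK A W (P.peU R)) m) {lab : Nd J V → Option (Lb t M)}
    (l1 : ∀ x, lab x = none ↔ m x ≠ x) (l2 : ∀ x d, lab x = some d → P.AdK R A W d x)
    (l3 : ∀ d, (univ.filter fun x => lab x = some d).card = n d) :
    2 * n (Sum.inr 0) ≤ npe m univ := by
  have hpe := ((hP J V).1 m hm.1 (EK_shape hm)).2
  have hA := card_eq_sum_card_fiberwise (s := A) (t := univ) (f := fun j => lab (ag j))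
    fun _ _ => mem_coe.mpr (mem_univ _)
  have hW := card_eq_sum_card_fiberwise (s := W) (t := univ) (f := fun v => lab (vx v))
    fun _ _ => mem_coe.mpr (mem_univ _)
  rw [Fintype.sum_option, Fintype.sum_sum_type, Fintype.sum_prod_type, Fin.sum_univ_three] at hA hW
  simp only [Fin.sum_univ_three] at hA hW
  have a0 : (univ.filter fun j : J => ∃ v, m (ag j) = vx v).card ≤
      (A.filter fun j => lab (ag j) = none).card := by
    refine card_le_card fun j hj => ?_
    obtain ⟨v, hv⟩ := (mem_filter.mp hj).2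
    have hne : m (ag j) ≠ ag j := by rw [hv]; simp
    have := hm.2 _ hne
    rw [hv] at this
    exact mem_filter.mpr ⟨this.1, (l1 _).mpr hne⟩
  have a1 : ∑ κ, n (Sum.inl (κ, 0)) ≤
      ∑ κ : Kl t M, ((A.filter fun j => lab (ag j) = some (Sum.inl (κ, 0))).card +
        (A.filter fun j => lab (ag j) = some (Sum.inl (κ, 1))).card +
        (A.filter fun j => lab (ag j) = some (Sum.inl (κ, 2))).card) := by
    refine sum_le_sum fun κ _ => le_trans (le_of_eq ?_) (Nat.le_add_left _ _)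
    rw [h2, ← l3]
    convert (card_lab_eq ag ag_inj A lab _ fun x hx => ?_).symm
    have := l2 x _ hx
    rcases x with j | v | j
    · exact ⟨j, this.1, rfl⟩
    · simp [Geo.AdK] at this
    · exact this.elim
  have a2 : n (Sum.inr 0) = (A.filter fun j => lab (ag j) = some (Sum.inr 0)).card := by
    rw [← l3]
    convert (card_lab_eq ag ag_inj A lab _ fun x hx => ?_).symm
    have := l2 x _ hx
    rcases x with j | v | j <;> simp [Geo.AdK] at this
    exact ⟨j, this.1, rfl⟩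
  have w0 : (W.filter fun v => lab (vx v) = none).card ≤
      (univ.filter fun v : V => m (vx v) ≠ vx v).card :=
    card_le_card fun v hv => mem_filter.mpr ⟨mem_univ _, (l1 _).mp (mem_filter.mp hv).2⟩
  have wle : ∀ d, (W.filter fun v => lab (vx v) = some d).card ≤ n d := fun d => by
    rw [← l3]
    convert card_lab_le vx vx_inj W lab (some d)
  have wz : ∀ d, (∀ v ∈ W, ¬ P.AdK R A W d (vx v)) →
      (W.filter fun v => lab (vx v) = some d).card = 0 := fun d hd =>
    card_eq_zero.mpr (filter_eq_empty_iff.mpr fun v hv e => hd v hv (l2 _ _ e))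
  have w1 : ∑ κ : Kl t M, ((W.filter fun v => lab (vx v) = some (Sum.inl (κ, 0))).card +
        (W.filter fun v => lab (vx v) = some (Sum.inl (κ, 1))).card +
        (W.filter fun v => lab (vx v) = some (Sum.inl (κ, 2))).card) ≤
      2 * ∑ κ, n (Sum.inl (κ, 0)) := by
    rw [mul_sum]
    refine sum_le_sum fun κ _ => ?_
    have b0 := wle (Sum.inl (κ, 0))
    have b1 := wle (Sum.inl (κ, 1))
    have b2 := wz (Sum.inl (κ, 2)) fun v _ => by simp [Geo.AdK]
    have := h1 κ
    omega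
  have w2 := wz (Sum.inr 0) fun v _ => by simp [Geo.AdK]
  have w3 := wle (Sum.inr 1)
  have w4 := wz (Sum.inr 2) fun v hv => by simp [Geo.AdK, hv]
  omega

end DKV

open DKV

theorem kvStmt (hP : PeStmt) : KVStmt := by
  rintro J V _ _ _ _ P t M t' M0 R A W ⟨n, hn, hc, m, hm, lab, l1, l2, l3⟩
  replace l3 : ∀ d, (univ.filter fun x => lab x = some d).card = n d := fun d => by convert l3 d
  have hcount := count_pe hP (fun κ => (hn κ).1) (fun κ => (hn κ).2.1) hc hm l1 l2 l3
  let X : Fin 3 → Kl t M → Finset V := fun i κ =>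
    W.filter fun v => lab (vx v) = some (Sum.inl (κ, i))
  have hXu : ∀ i κ κ' v, v ∈ X i κ → v ∈ X i κ' → κ = κ' := by
    intro i κ κ' v h1 h2
    have := (mem_filter.mp h1).2.symm.trans (mem_filter.mp h2).2
    simpa using this
  have hXc : ∀ i κ, i ≠ 2 → (X i κ).card = n (Sum.inl (κ, i)) := by
    intro i κ hi
    rw [← l3]
    convert card_lab_eq vx vx_inj W lab _ fun x hx => ?_
    have := l2 x _ hx
    rcases x with j | v | j
    · exact (hi this.2.1).elim
    · exact ⟨v, this.1, rfl⟩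
    · exact this.elim
  obtain ⟨Rl, r1, r2, r3, r4⟩ := exists_rel_eq (X 0) (X 1) (hXu 0) (hXu 1) fun κ => by
    rw [hXc 0 κ (by decide), hXc 1 κ (by decide), (hn κ).1]
  have hfix : ∀ i κ v, v ∈ X i κ → m (vx v) = vx v := by
    intro i κ v hv
    by_contra h
    have := (l1 _).mpr h
    rw [(mem_filter.mp hv).2] at this
    simp at this
  have h01 : ∀ κ κ' v, v ∈ X 0 κ → v ∉ X 1 κ' := by
    intro κ κ' v h1 h2
    have := (mem_filter.mp h1).2.symm.trans (mem_filter.mp h2).2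
    simp at this
  have hRl : ∀ u v, Rl u v → ∃ κ, u ∈ X 0 κ ∧ v ∈ X 1 κ ∧ P.Xk R κ u ∧ P.Yk R κ v ∧ ¬ P.HH u v := by
    intro u v h
    obtain ⟨κ, hu, hv⟩ := r1 u v h
    have a1 : P.Xk R κ u := by simpa [Geo.AdK] using (l2 _ _ (mem_filter.mp hu).2).2
    have a2 : P.Yk R κ v := by simpa [Geo.AdK] using (l2 _ _ (mem_filter.mp hv).2).2
    refine ⟨κ, hu, hv, a1, a2, ((hn κ).2.2 ?_ u v a1 a2).2⟩
    rw [← hXc 0 κ (by decide)]
    exact card_ne_zero.mpr ⟨u, hu⟩
  let O : Nd J V → Nd J V → Prop := fun x y => (m x = y ∧ x ≠ y) ∨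
    ∃ u v, x = vx u ∧ y = vx v ∧ (Rl u v ∨ Rl v u)
  have hfx : ∀ u v, Rl u v ∨ Rl v u → m (vx u) = vx u := by
    rintro u v (h | h)
    · obtain ⟨κ, hu, -⟩ := r1 _ _ h
      exact hfix _ _ _ hu
    · obtain ⟨κ, -, hu⟩ := r1 _ _ h
      exact hfix _ _ _ hu
  have hrr : ∀ u v v', Rl u v → ¬ Rl v' u := by
    intro u v v' h h'
    obtain ⟨κ, hu, -⟩ := r1 _ _ h
    obtain ⟨κ', -, hu'⟩ := r1 _ _ h'
    exact h01 _ _ _ hu hu'
  obtain ⟨ν, n1, n2, n3⟩ := exists_inv O
    (by
      rintro x y (⟨rfl, h⟩ | ⟨u, v, rfl, rfl, h⟩)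
      · exact Or.inl ⟨hm.1 x, h.symm⟩
      · exact Or.inr ⟨v, u, rfl, rfl, h.symm⟩)
    (by
      rintro x y y' (⟨rfl, h⟩ | ⟨u, v, rfl, rfl, h⟩) (⟨e, h'⟩ | ⟨u', v', e, rfl, h'⟩)
      · exact e
      · subst e
        exact (h (hfx _ _ h').symm).elim
      · exact (h' ((hfx _ _ h).symm.trans e)).elim
      · obtain rfl := vx_inj e
        rcases h with h | h <;> rcases h' with h' | h'
        · rw [r4 _ _ _ h h']
        · exact (hrr _ _ _ h h').elim
        · exact (hrr _ _ _ h' h).elim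
        · rw [r3 _ _ _ h h'])
  let rk : V → ℕ := fun v => Fintype.equivFin V v
  have hrk : ∀ x y, x ≠ y → rk x ≠ rk y := fun x y h e =>
    h ((Fintype.equivFin V).injective (Fin.ext e))
  let DU : V → V → Prop := fun x y =>
    m (vx x) = vx y ∧ x ≠ y ∧ P.peU R x y ∧ (¬ P.peU R y x ∨ rk x < rk y)
  have hDU : ∀ x y, x ≠ y → m (vx x) = vx y → (DU x y ↔ ¬ DU y x) := by
    intro x y hxy h
    have h' : m (vx y) = vx x := by rw [← h, hm.1]
    have hE := hm.2 (vx x) (by rw [h]; exact fun e => hxy (vx_inj e).symm)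
    rw [h] at hE
    have h3 := hE.2.2.2
    have h4 := hrk x y hxy
    simp only [DU, h, h', hxy, hxy.symm, ne_eq, not_false_eq_true, true_and]
    by_cases a : P.peU R x y <;> by_cases b : P.peU R y x
    · simp only [a, b, not_true_eq_false, false_or, true_and]
      omega
    · simp [a, b]
    · simp [a, b]
    · exact (h3.elim a b).elim
  let D : V → V → Prop := fun x y => Rl x y ∨ DU x y
  have hDν : ∀ x y, D x y → x ≠ y ∧ ν (vx x) = vx y := by
    rintro x y (h | h)
    · exact ⟨fun e => hrr _ _ x h (by subst e; exact h), n2 _ _ (Or.inr ⟨x, y, rfl, rfl, Or.inl h⟩)⟩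
    · exact ⟨h.2.1, n2 _ _ (Or.inl ⟨h.1, fun e => h.2.1 (vx_inj e)⟩)⟩
  have hsd : ∀ x y, x ≠ y → ν (vx x) = vx y → (D x y ↔ ¬ D y x) := by
    intro x y hxy h
    have hO := n3 (vx x) (by rw [h]; exact fun e => hxy (vx_inj e).symm)
    rw [h] at hO
    rcases hO with ⟨h1, -⟩ | ⟨u, v, e1, e2, h1⟩
    · have h2 : ¬ (Rl x y ∨ Rl y x) := fun h2 => hxy (vx_inj ((hfx _ _ h2).symm.trans h1))
      simp only [D, (not_or.mp h2).1, (not_or.mp h2).2, false_or]
      exact hDU x y hxy h1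
    · obtain rfl := vx_inj e1
      obtain rfl := vx_inj e2
      have h2 : ¬ DU x y := fun h2 => hxy (vx_inj ((hfx _ _ h1).symm.trans h2.1))
      have h3 : ¬ DU y x := fun h3 => hxy (vx_inj ((hfx _ _ h1.symm).symm.trans h3.1)).symm
      simp only [D, h2, h3, or_false]
      exact ⟨fun a b => hrr _ _ _ a b, fun a => h1.resolve_right a⟩
  have hex : ∀ x y, ν (vx x) = vx y → ((∃ z, D x z) ↔ D x y) := fun x y h =>
    ⟨fun ⟨z, hz⟩ => vx_inj ((hDν _ _ hz).2.symm.trans h) ▸ hz, fun h => ⟨y, h⟩⟩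
  have hk : ∀ x, ∃ k : Mk t t', ∀ y, D x y → P.Xm R k x ∧ P.Ym R k y ∧
      (∀ κ, x ∈ X 0 κ → k = some (Sum.inl κ.1)) ∧ (DU x y → ∃ i, k = some (Sum.inr i)) := by
    intro x
    by_cases hx : ∃ y, D x y
    swap
    · exact ⟨none, fun y hy => (hx ⟨y, hy⟩).elim⟩
    obtain ⟨y, hy⟩ := hx
    have huniq : ∀ z, D x z → z = y := fun z hz =>
      vx_inj ((hDν _ _ hz).2.symm.trans (hDν _ _ hy).2)
    rcases hy with hy | hy
    · obtain ⟨κ, hu, -, a1, a2, -⟩ := hRl _ _ hy
      refine ⟨some (Sum.inl κ.1), fun z hz => ?_⟩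
      obtain rfl := huniq z hz
      exact ⟨a1.1, a2.1, fun κ' h' => by rw [hXu 0 _ _ _ hu h'],
        fun h' => (h'.2.1 (vx_inj ((hfix _ _ _ hu).symm.trans h'.1))).elim⟩
    · obtain ⟨i, a1, a2⟩ := hy.2.2.1
      refine ⟨some (Sum.inr i), fun z hz => ?_⟩
      obtain rfl := huniq z hz
      exact ⟨a1, a2, fun κ h' => (hy.2.1 (vx_inj ((hfix _ _ _ h').symm.trans hy.1))).elim,
        fun _ => ⟨i, rfl⟩⟩
  choose kk hkk using hk
  have hpt : ∀ x, ∃ z, ∀ y, ν (vx x) = vx y → z = y := by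
    intro x
    by_cases hx : ∃ y, ν (vx x) = vx y
    · obtain ⟨y, hy⟩ := hx
      exact ⟨y, fun z hz => vx_inj (hy.symm.trans hz)⟩
    · exact ⟨x, fun y hy => (hx ⟨y, hy⟩).elim⟩
  choose pt hpt using hpt
  let SU : Finset V := univ.filter fun x => ∃ y, DU x y
  have hSU : npe m univ ≤ 2 * SU.card := by
    have hpm : ∀ x, ∃ z, ∀ y, m (vx y) = vx x → z = y := by
      intro x
      by_cases hx : ∃ y, m (vx y) = vx x
      · obtain ⟨y, hy⟩ := hx
        exact ⟨y, fun z hz => vx_inj (by rw [← hm.1 (vx y), hy, ← hz, hm.1])⟩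
      · exact ⟨x, fun y hy => (hx ⟨y, hy⟩).elim⟩
    choose pm hpm using hpm
    rw [two_mul]
    refine le_trans (card_le_card (t := SU ∪ SU.image pm) fun v hv => ?_)
      ((card_union_le _ _).trans (Nat.add_le_add_left card_image_le _))
    obtain ⟨-, u, hu, h⟩ := (mem_filter.mp hv).2
    by_cases hd : DU v u
    · exact mem_union_left _ (mem_filter.mpr ⟨mem_univ _, u, hd⟩)
    · have h2 : DU u v := by
        by_contra h2
        exact hd ((hDU v u hu.symm h).mpr h2)
      exact mem_union_right _ (mem_image.mpr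
        ⟨u, mem_filter.mpr ⟨mem_univ _, v, h2⟩, hpm u v h⟩)
  obtain ⟨Ow, o1, o2, o3⟩ := exists_rel_le (K := Option (Kl t M))
    (fun k => A.filter fun j => lab (ag j) = some (k.elim (Sum.inr 0) fun κ => Sum.inl (κ, 2)))
    (fun k => k.elim SU (X 0))
    (by
      have aux : ∀ κ y, y ∈ SU → y ∉ X 0 κ := by
        intro κ y h1 h2
        obtain ⟨z, hz⟩ := (mem_filter.mp h1).2
        exact hz.2.1 (vx_inj ((hfix _ _ _ h2).symm.trans hz.1))
      rintro (_ | κ) (_ | κ') y h1 h2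
      · rfl
      · exact (aux _ _ h1 h2).elim
      · exact (aux _ _ h2 h1).elim
      · rw [hXu 0 _ _ _ h1 h2])
    (by
      intro k
      refine (card_lab_le ag ag_inj A lab _).trans ?_
      rw [l3]
      rcases k with _ | κ
      · simp only [Option.elim]
        omega
      · simp only [Option.elim]
        rw [hXc 0 κ (by decide), (hn κ).2.1])
  refine ⟨ν, ⟨n1, fun x hx => ?_⟩, fun x => ∃ z, D x z,
    fun x => if ∃ z, D x z then kk x else kk (pt x), Ow, fun x y hxy h => ?_, o3, fun j hj h => ?_⟩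
  · rcases n3 x hx with ⟨h1, h2⟩ | ⟨u, v, rfl, e, h1⟩
    · rw [← h1]
      exact EK_mono (hm.2 x (by rw [h1]; exact hx))
    · rw [e]
      rcases h1 with h1 | h1
      · obtain ⟨κ, hu, hv, -, -, a⟩ := hRl _ _ h1
        exact ⟨(mem_filter.mp hu).1, (mem_filter.mp hv).1, a, Or.inl trivial⟩
      · obtain ⟨κ, hv, hu, -, -, a⟩ := hRl _ _ h1
        exact ⟨(mem_filter.mp hu).1, (mem_filter.mp hv).1, fun b => a (Geo.HH_symm b),
          Or.inl trivial⟩
  · have h' : ν (vx y) = vx x := by rw [← h, n1]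
    have e := hsd x y hxy h
    simp only [hex x y h, hex y x h', hpt x y h, hpt y x h']
    refine ⟨e, ?_, fun hd => ?_⟩
    · by_cases hd : D x y
      · rw [if_pos hd, if_neg (e.mp hd)]
      · rw [if_neg hd, if_pos (by tauto)]
    · rw [if_pos hd]
      exact ⟨(hkk x y hd).1, (hkk x y hd).2.1⟩
  · have hmj : m (ag j) = ag j := by
      by_contra h1
      exact h1 ((n2 _ _ (Or.inl ⟨rfl, fun e => h1 e.symm⟩)).symm.trans h)
    obtain ⟨d, hd⟩ : ∃ d, lab (ag j) = some d :=
      Option.ne_none_iff_exists'.mp fun e => (l1 _).mp e hmj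
    have hA := l2 _ _ hd
    rcases d with ⟨κ, i⟩ | i
    · obtain ⟨-, rfl, hT⟩ := hA
      obtain ⟨x, hx, hO⟩ := o2 (some κ) j (mem_filter.mpr ⟨hj, hd⟩)
      obtain ⟨y, hy⟩ := r2 κ x hx
      have hD : D x y := Or.inl hy
      refine ⟨x, y, hO, ⟨y, hD⟩, (hDν _ _ hD).1, (hDν _ _ hD).2, ?_⟩
      simp only [if_pos (⟨y, hD⟩ : ∃ z, D x z), (hkk x y hD).2.2.1 κ hx]
      exact hT
    · obtain ⟨rfl, -, hT⟩ := hA.resolve_right fun a => a.2 hj
      obtain ⟨x, hx, hO⟩ := o2 none j (mem_filter.mpr ⟨hj, hd⟩)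
      obtain ⟨y, hy⟩ := (mem_filter.mp hx).2
      have hD : D x y := Or.inr hy
      obtain ⟨i, hi⟩ := (hkk x y hD).2.2.2 hy
      refine ⟨x, y, hO, ⟨y, hD⟩, (hDν _ _ hD).1, (hDν _ _ hD).2, ?_⟩
      simp only [if_pos (⟨y, hD⟩ : ∃ z, D x z), hi]
      exact hT

namespace DKV

variable {J V : Type} [Fintype J] [Fintype V] [DecidableEq J] [DecidableEq V] {P : Geo J V}
  {t M t' M0 : ℕ}

/-- At most ten items are junk for a tenth of the members of a base family. -/
theorem waste_le {R : RG J V t M t' M0} (hR : P.RGood R) (hM : 1200 ≤ M) (τ : Fin t) :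
    (univ.filter fun x => M ≤ 10 * (univ.filter fun r => P.junk (R.F τ r).1 x).card).card ≤ 10 := by
  by_contra h
  obtain ⟨s, hs, hc⟩ := exists_subset_card_eq (not_le.mp h)
  have h1 := bonferroni (fun x => univ.filter fun r => P.junk (R.F τ r).1 x) s (by
    intro x _ y _ hxy
    refine card_le_one.mpr fun r hr r' hr' => ?_
    by_contra hne
    simp only [mem_inter, mem_filter, mem_univ, true_and] at hr hr'
    have hj : (R.F τ r).1 ≠ (R.F τ r').1 := fun e => hne (by
      have := @hR.dis.1 (Sum.inl (τ, r)) (Sum.inl (τ, r')) e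
      simpa using this)
    exact Geo.col_not_C ((hR.cF τ).1 r' r).1
      (Geo.coline hj hxy hr.1 hr.2 hr'.1 hr'.2 ((hR.cF τ).1 r r).1))
  have h2 : (s.biUnion fun x => univ.filter fun r => P.junk (R.F τ r).1 x).card ≤ M := by
    simpa using card_le_univ (s.biUnion fun x => univ.filter fun r => P.junk (R.F τ r).1 x)
  have h3 := card_nsmul_le_sum s
    (fun x => 10 * (univ.filter fun r => P.junk (R.F τ r).1 x).card) M
    fun x hx => (mem_filter.mp (hs hx)).2
  rw [← mul_sum, hc] at h3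
  rw [hc] at h1
  simp only [smul_eq_mul, Nat.succ_eq_add_one] at h1 h3
  omega

/-- An odd service, without the condition on junk. -/
def OddW (P : Geo J V) (R : RG J V t M t' M0) (g : J → Sv V) (j : J) (x y : V) (o : Bool)
    (k : Fin t × Bool × Bool) : Prop :=
  (g j = Sv.two x y ∨ g j = Sv.two y x) ∧ P.To (R.F k.1) R.h j o ∧ P.col j (xor o k.2.1) x ∧
    P.col j (!(xor o k.2.1)) y ∧
    (k.2.2 = false → 2 * M ≤ 3 * (P.PS R k.1 k.2.1 x y).card) ∧
    (k.2.2 = true → M ≤ 4 * (P.PS R k.1 false x y).card ∧ M ≤ 4 * (P.PS R k.1 true x y).card)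

omit [Fintype J] [Fintype V] [DecidableEq J] [DecidableEq V] in
theorem PS_symm (R : RG J V t M t' M0) (τ : Fin t) (s : Bool) (x y : V) :
    P.PS R τ s x y = P.PS R τ s y x := by
  ext r
  simp [Geo.PS, and_comm]

theorem exists_odd {R : RG J V t M t' M0} {h2 : ℕ} (hM : 12 * h2 ≤ M) {A : Finset J} {W : Finset V}
    {g : J → Sv V} {j : J} {a b : V} (hg : g j = Sv.two a b) (hn : P.Nrm (P.SR R A W) j (g j))
    (hc : ¬ P.Compat R h2 j a b) : ∃ x y o k, OddW P R g j x y o k := by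
  rw [hg] at hn
  obtain ⟨⟨τ, o, hT⟩, ha, hb, hab⟩ := hn
  have h1 : (univ.filter fun r => P.Ok (R.F τ r).1 a b).card < h2 :=
    not_le.mp fun h => hc ⟨τ, ⟨o, hT⟩, Or.inl h⟩
  have h3 : M ≤ (univ.filter fun r => P.Ok (R.F τ r).1 a b).card +
      ((P.PS R τ false a b).card + (P.PS R τ true a b).card) := by
    have : (univ : Finset (Fin M)) ⊆ (univ.filter fun r => P.Ok (R.F τ r).1 a b) ∪
        (P.PS R τ false a b ∪ P.PS R τ true a b) := by
      intro r _
      by_cases h : P.Ok (R.F τ r).1 a b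
      · exact mem_union_left _ (mem_filter.mpr ⟨mem_univ _, h⟩)
      · obtain ⟨o', k1, k2⟩ := Geo.refuse (Geo.col_ne (o := true) ha hb) hab h
        refine mem_union_right _ (mem_union.mpr ?_)
        simp only [Geo.PS, mem_filter, mem_univ, true_and]
        rcases (R.F τ r).2.1 <;> rcases o' <;> simp [k1, k2]
    have h4 := (card_le_card this).trans ((card_union_le _ _).trans
      (Nat.add_le_add_left (card_union_le _ _) _))
    simpa using h4
  have key : ∃ s u : Bool, (u = false → 2 * M ≤ 3 * (P.PS R τ s a b).card) ∧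
      (u = true → M ≤ 4 * (P.PS R τ false a b).card ∧ M ≤ 4 * (P.PS R τ true a b).card) := by
    by_cases k1 : 2 * M ≤ 3 * (P.PS R τ false a b).card
    · exact ⟨false, false, fun _ => k1, by simp⟩
    by_cases k2 : 2 * M ≤ 3 * (P.PS R τ true a b).card
    · exact ⟨true, false, fun _ => k2, by simp⟩
    exact ⟨false, true, by simp, fun _ => by omega⟩
  obtain ⟨s, u, k1, k2⟩ := key
  rcases hx : xor o s with _ | _
  · refine ⟨b, a, o, (τ, s, u), Or.inr hg, hT, ?_, ?_, ?_, ?_⟩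
    · simpa only [hx, Bool.not_true] using hb
    · simpa only [hx, Bool.not_false] using ha
    · simpa only [PS_symm R τ _ b a] using k1
    · simpa only [PS_symm R τ _ b a] using k2
  · refine ⟨a, b, o, (τ, s, u), Or.inl hg, hT, ?_, ?_, k1, k2⟩
    · simpa only [hx, Bool.not_false] using ha
    · simpa only [hx, Bool.not_true] using hb

omit [Fintype J] [Fintype V] [DecidableEq J] in
theorem PSt_sub {S S' : Sub J V} {B B' : Finset J} {g : J → Sv V} (h : P.PSt S B g) (hB : B' ⊆ B)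
    (hA : B' ⊆ S'.A) (hW : S'.W = S.W) (h1 : S'.geo = S.geo) (h2 : S'.lst = S.lst)
    (h3 : S'.qm = S.qm) : P.PSt S' B' g := by
  refine ⟨hA, fun j hj => hW ▸ h.inW j (hB hj), fun j hj => ?_,
    fun i hi j hj => h.dis i (hB hi) j (hB hj), fun j hj v hv => h3 ▸ h.nq j (hB hj) v hv⟩
  have := h.nrm j (hB hj)
  rcases hg : g j with _ | _ | _ | _ <;> simp only [hg, Geo.Nrm, h1, h2] at this ⊢ <;> exact this

end DKV

theorem kCtxStmt : KCtxStmt := by
  intro J V _ _ _ _ P t M t' M0 R h2 A W B g hM1 hM2 hR dA dW hst hnt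
  have H : ∀ j, ∃ d : Option (V × V × Bool × Fin t × Bool × Bool),
      (d = none → j ∈ B → ∀ a b, g j = Sv.two a b → P.Compat R h2 j a b) ∧
      ∀ x y o k, d = some (x, y, o, k) → j ∈ B ∧ OddW P R g j x y o k := by
    intro j
    by_cases h : j ∈ B → ∀ a b, g j = Sv.two a b → P.Compat R h2 j a b
    · exact ⟨none, fun _ => h, by simp⟩
    · push Not at h
      obtain ⟨hj, a, b, hg, hc⟩ := h
      obtain ⟨x, y, o, k, hodd⟩ := exists_odd hM1 hg (hst.nrm j hj) hc
      refine ⟨some (x, y, o, k), by simp, fun x' y' o' k' e => ?_⟩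
      simp only [Option.some.injEq, Prod.mk.injEq] at e
      obtain ⟨rfl, rfl, rfl, rfl⟩ := e
      exact ⟨hj, hodd⟩
  choose od0 d1 d2 using H
  let B' := B.filter fun j => ∀ x y o k, od0 j = some (x, y, o, k) →
    10 * (univ.filter fun r => P.junk (R.F k.1 r).1 x).card < M
  have hB : B' ⊆ B := filter_subset _ _
  let od : OdT J V t := fun j => if j ∈ B' then od0 j else none
  have hod : ∀ j x y o k, od j = some (x, y, o, k) → j ∈ B' ∧ P.OddC R g j x y o k := by
    intro j x y o k h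
    by_cases hj : j ∈ B'
    · simp only [od, if_pos hj] at h
      obtain ⟨a1, a2, a3, a4, a5, a6⟩ := (d2 j x y o k h).2
      exact ⟨hj, a1, a2, a3, a4, (mem_filter.mp hj).2 x y o k h, a5, a6⟩
    · simp [od, hj] at h
  have hits : ∀ j u v, (g j = Sv.two u v ∨ g j = Sv.two v u) → u ∈ (g j).its ∧ v ∈ (g j).its := by
    rintro j u v (h | h) <;> simp [h, Sv.its]
  have huniq : ∀ i ∈ B, ∀ j ∈ B, ∀ v, v ∈ (g i).its → v ∈ (g j).its → i = j := by
    intro i hi j hj v h1 h2
    by_contra hne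
    exact disjoint_left.mp (hst.dis i hi j hj hne) h1 h2
  have hA : ∀ j v, (g j = Sv.one v ∨ ∃ x o k, od j = some (x, v, o, k)) → v ∈ (g j).its := by
    rintro j v (h | ⟨x, o, k, h⟩)
    · simp [h, Sv.its]
    · exact (hits _ _ _ (hod _ _ _ _ _ h).2.1).2
  have hAP : ∀ j v, (g j = Sv.one v ∨ ∃ x o k, od j = some (x, v, o, k)) → j ∈ B' →
      ∀ u, ¬ ∃ i ∈ B', od i = none ∧ (g i = Sv.two v u ∨ g i = Sv.two u v) := by
    rintro j v h hj u ⟨i, hi, h1, h3⟩
    obtain rfl := huniq j (hB hj) i (hB hi) v (hA _ _ h) (hits _ _ _ h3).1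
    rcases h with h | ⟨x, o, k, h⟩
    · rcases h3 with h3 | h3 <;> simp [h] at h3
    · simp [h] at h1
  obtain ⟨μ, m1, m2, m3⟩ := exists_inv (OldK B' g od)
    (by
      rintro (j | v | j) (i | u | i) h <;> try exact h
      obtain ⟨j, hj, h1, h3⟩ := h
      exact ⟨j, hj, h1, h3.symm⟩)
    (by
      rintro (j | v | j) (i | u | i) (i' | u' | i') h h' <;> try exact h.elim
      all_goals try exact h'.elim
      · congr 2
        rcases h.2 with a | ⟨x, o, k, a⟩ <;> rcases h'.2 with b | ⟨x', o', k', b⟩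
        · simpa [a] using b
        · rcases (hod _ _ _ _ _ b).2.1 with c | c <;> simp [a] at c
        · rcases (hod _ _ _ _ _ a).2.1 with c | c <;> simp [b] at c
        · rw [a] at b
          simp only [Option.some.injEq, Prod.mk.injEq] at b
          exact b.2.1
      · rw [huniq i (hB h.1) i' (hB h'.1) v (hA _ _ h.2) (hA _ _ h'.2)]
      · exact (hAP _ _ h.2 h.1 _ h').elim
      · exact (hAP _ _ h'.2 h'.1 _ h).elim
      · obtain ⟨j, hj, -, a⟩ := h
        obtain ⟨j', hj', -, b⟩ := h'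
        obtain rfl := huniq j (hB hj) j' (hB hj') v (hits _ _ _ a).1 (hits _ _ _ b).1
        congr 2
        rcases a with a | a <;> rcases b with b | b <;> rw [a] at b <;>
          simp only [Sv.two.injEq] at b
        · exact b.2
        · exact b.2.trans b.1
        · exact b.1.trans b.2
        · exact b.1)
  refine ⟨B', od, μ, hB, ?_, hR, dA, dW, PSt_sub hst hB (hB.trans hst.sub) rfl rfl rfl rfl,
    fun j hj => hnt j (hB hj), hod, fun j hj h => d1 j (by simpa [od, hj] using h) (hB hj), m1,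
    fun x y hxy => ⟨fun h => h ▸ m3 x (by rw [h]; exact hxy.symm), m2 x y⟩⟩
  let Ws : Finset (Σ _ : Fin t, V) := univ.sigma fun τ =>
    univ.filter fun x => M ≤ 10 * (univ.filter fun r => P.junk (R.F τ r).1 x).card
  have hW : Ws.card ≤ 10 * t := by
    rw [card_sigma]
    simpa [mul_comm] using sum_le_card_nsmul univ _ 10 fun τ _ => waste_le hR hM2 τ
  refine le_trans (card_le_card_of_forall_subsingleton
    (fun j (p : Σ _ : Fin t, V) => p.2 ∈ (g j).its) (fun j hj => ?_) fun p _ i hi j hj => ?_) hW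
  · obtain ⟨h1, h3⟩ := mem_sdiff.mp hj
    simp only [B', mem_filter, h1, true_and, not_forall, not_lt] at h3
    obtain ⟨x, y, o, k, h4, h5⟩ := h3
    exact ⟨⟨k.1, x⟩, mem_sigma.mpr ⟨mem_univ _, mem_filter.mpr ⟨mem_univ _, h5⟩⟩,
      (hits _ _ _ (d2 _ _ _ _ _ h4).2.1).1⟩
  · exact huniq i (mem_sdiff.mp hi.1).1 j (mem_sdiff.mp hj.1).1 _ hi.2 hj.2

namespace DKV

variable {J V : Type} [Fintype J] [Fintype V] [DecidableEq J] [DecidableEq V] {P : Geo J V}

omit [Fintype J] [Fintype V] [DecidableEq J] [DecidableEq V] in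
theorem Serv3_mono {S : Sub J V} {j : J} {s s' : Finset V} (h : P.Serv3 S j s) (hs : s ⊆ s') :
    P.Serv3 S j s' := by
  rcases h with (⟨v, hv, h⟩ | ⟨hg, a, ha, b, hb, h⟩) | ⟨hg, a, ha, z, hz, b, hb, h⟩
  · exact Or.inl (Or.inl ⟨v, hs hv, h⟩)
  · exact Or.inl (Or.inr ⟨hg, a, hs ha, b, hs hb, h⟩)
  · exact Or.inr ⟨hg, a, hs ha, z, hs hz, b, hs hb, h⟩

/-- A state on the agents outside `Φ` that avoids the items of `Φ` gives feasibility. -/
theorem glue {Φ : Finset (J × V × V × V)} (hΦ : P.PhiOk Φ) {A : Finset J} {W : Finset V}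
    {f : J → Finset V} (hf : St (P.pl A W) (P.Serv2 (P.pl univ univ)) A f)
    (hA : ∀ j, j ∉ ag3 Φ → j ∈ A) (hW : Disjoint W (it3 Φ)) : P.Feas := by
  let T : J → Finset V := fun j =>
    (Φ.filter fun s => s.1 = j).biUnion fun s => {s.2.1, s.2.2.1, s.2.2.2}
  have hT : ∀ j, T j ⊆ it3 Φ := fun j => biUnion_subset_biUnion_of_subset_left _ (filter_subset _ _)
  have hd : ∀ i j, i ≠ j →
      Disjoint (if i ∈ ag3 Φ then T i else f i) (if j ∈ ag3 Φ then T j else f j) := by
    intro i j hij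
    split_ifs with hi hj hj
    · refine disjoint_left.mpr fun x h1 h2 => ?_
      obtain ⟨s, hs, a⟩ := mem_biUnion.mp h1
      obtain ⟨s', hs', b⟩ := mem_biUnion.mp h2
      obtain ⟨k1, k2⟩ := mem_filter.mp hs
      obtain ⟨k3, k4⟩ := mem_filter.mp hs'
      exact disjoint_left.mp (hΦ.2 s k1 s' k3 fun e => hij (k2.symm.trans (e ▸ k4))).2 a b
    · exact (hW.mono (hf.inW j (hA j hj)) (hT i)).symm
    · exact hW.mono (hf.inW i (hA i hi)) (hT j)
    · exact hf.dis i (hA i hi) j (hA j hj) hij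
  refine ⟨fun j => if j ∈ ag3 Φ then T j else f j, ⟨subset_rfl, fun _ _ => subset_univ _,
    fun j _ => ?_, fun i _ j _ => hd i j, fun _ _ h => h.elim⟩, ?_⟩
  · split_ifs with hj
    · obtain ⟨s, hs, rfl⟩ := mem_image.mp hj
      exact Serv3_mono (hΦ.1 s hs) (subset_biUnion_of_mem
        (fun s : J × V × V × V => ({s.2.1, s.2.2.1, s.2.2.2} : Finset V))
        (mem_filter.mpr ⟨hs, rfl⟩))
    · exact Or.inl (hf.srv j (hA j hj))
  · rw [use, add_zero, ← card_biUnion fun i _ j _ hij => hd i j hij]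
    exact card_le_univ _

end DKV

theorem rSoundStmt (hN : NormStmt) (hT : TripStmt) (h1 : KVStmt) (h2 : KCtxStmt) (h3 : RSelStmt)
    (h4 : RRealStmt) : RSoundStmt := by
  intro e c t0 hS
  obtain ⟨cT, hT⟩ := hT
  obtain ⟨nE, d, h3⟩ := h3 t0 (c + cT + 10 * t0)
  refine ⟨12 * (2 * nE + d + 2) + 1200 + 10 * (2 * nE + d + 3), ?_⟩
  rintro L J V _ _ _ _ P rk hrk ⟨t, ht, t', ht', h, -, h0, -, F, G, Φ, U, hR, -, hU, hΦ, dA, dW,
    hK, hL⟩
  set R : RG J V t _ t' _ := ⟨F, G, h, h0⟩ with hRdef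
  set A := univ \ (fagF R.mem ∪ ag3 Φ) with hA
  set W := univ \ (fitF R.mem ∪ it3 Φ) with hW
  have H : ∃ B g, P.PSt (P.SR R A W) B g ∧ NoTri B g ∧ (A \ B).card ≤ c + cT := by
    rcases hL with hL | hL
    · refine ⟨∅, fun _ => Sv.non, ⟨empty_subset _, by simp, by simp, by simp, by simp⟩,
        by simp [NoTri], ?_⟩
      rw [sdiff_empty]
      exact (card_le_card hL).trans (by omega)
    · have wf : P.Wf (P.SR R (univ \ (fagF R.mem ∪ ag3 Φ ∪ U)) W) := fun _ _ _ => Iff.rfl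
      obtain ⟨f, hf, -⟩ := hS J V P rk _ c hrk wf le_rfl hL
      obtain ⟨g, hg⟩ := (hN J V P _ _ wf).2.2.1 f hf
      have hc := hT J V P _ _ g wf hg
      set A1 := (P.SR R (univ \ (fagF R.mem ∪ ag3 Φ ∪ U)) W).A with hA1
      refine ⟨A1.filter fun j => ¬ ∃ a z b, g j = Sv.three a z b, g,
        PSt_sub hg.1.1 (filter_subset _ _) ((filter_subset _ _).trans ?_) rfl rfl rfl rfl,
        fun j hj a z b e => (mem_filter.mp hj).2 ⟨a, z, b, e⟩, ?_⟩
      · exact sdiff_subset_sdiff subset_rfl subset_union_left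
      · refine le_trans (card_le_card (t := U ∪ A1.filter fun j => ∃ a z b, g j = Sv.three a z b)
          fun j hj => ?_) ((card_union_le _ _).trans (add_le_add hU hc))
        obtain ⟨k1, k2⟩ := mem_sdiff.mp hj
        by_cases hu : j ∈ U
        · exact mem_union_left _ hu
        · have k3 : j ∈ A1 :=
            mem_sdiff.mpr ⟨mem_univ _, fun k => (mem_union.mp k).elim (mem_sdiff.mp k1).2 hu⟩
          refine mem_union_right _ (mem_filter.mpr ⟨k3, ?_⟩)
          by_contra k4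
          exact k2 (mem_filter.mpr ⟨k3, k4⟩)
  obtain ⟨B, g, hst, hnt, hc⟩ := H
  obtain ⟨B', od, μ, hB, hc', hctx⟩ := h2 J V P t _ t' _ R (2 * nE + d + 2) A W B g (by omega)
    (by omega) hR (disjoint_left.mpr fun j a b => (mem_sdiff.mp a).2 (mem_union_left _ b))
    (disjoint_left.mpr fun j a b => (mem_sdiff.mp a).2 (mem_union_left _ b)) hst hnt
  have hc2 : (A \ B').card ≤ c + cT + 10 * t0 := by
    have : A \ B' ⊆ (A \ B) ∪ (B \ B') := sdiff_triangle A B B'
    have := (card_le_card this).trans (card_union_le _ _)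
    omega
  have e1 : R.h = h := rfl
  have e2 : R.h0 = h0 := rfl
  obtain ⟨ν, hout⟩ := h3 J V P t _ t' _ R (2 * nE + d + 2) A W B' g od μ ht ht' (by omega)
    (by omega) hctx hc2 (h1 J V P t _ t' _ R A W hK)
  obtain ⟨f, hf⟩ := h4 J V P t _ t' _ R (2 * nE + d + 2) A W B' g od μ ν nE d hctx hout le_rfl
    (by omega) (by omega)
  refine glue hΦ hf (fun j hj => ?_) (disjoint_union_left.mpr ⟨?_, dW.symm⟩)
  · by_cases k : j ∈ fagF R.mem
    · exact mem_union_right _ k
    · exact mem_union_left _ (mem_sdiff.mpr ⟨mem_univ _, fun a => (mem_union.mp a).elim k hj⟩)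
  · exact disjoint_left.mpr fun j a b => (mem_sdiff.mp a).2 (mem_union_right _ b)

end Pool.Agent.Lib.MP_ef7581_lc.D2
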