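import Mathlib
import Pool.Agent.Lib.MP_ef7581_lc.DComp

-- part Pool.Agent.Lib.MP_ef7581_lc.DImg
section

/-!
Images of states in the auxiliary graphs; necessity of the test.
-/

set_option autoImplicit false
set_option linter.unusedSectionVars false

namespace Pool.Agent.Lib.MP_ef7581_lc.D2

namespace DImg

open Finset Classical Geo

variable {J V : Type} [Fintype J] [Fintype V] [DecidableEq J] [DecidableEq V] {P : Geo J V}
  {S : Sub J V} {e : ℕ} {ρ : Finset V} {B : Finset J} {g : J → Sv V}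

theorem exists_inv {α : Type} (O : α → α → Prop) (hs : ∀ x y, O x y → O y x)
    (hf : ∀ x y y', O x y → O x y' → y = y') :
    ∃ μ : α → α, (∀ x, μ (μ x) = x) ∧ ∀ x y, x ≠ y → (μ x = y ↔ O x y) := by
  have h : ∀ x, ∃ y, (O x y ∨ (y = x ∧ ∀ z, ¬ O x z)) := fun x => by
    by_cases a : ∃ y, O x y
    · exact a.imp fun _ b => Or.inl b
    · exact ⟨x, Or.inr ⟨rfl, fun z b => a ⟨z, b⟩⟩⟩
  choose μ hμ using h
  have h1 : ∀ x y, O x y → μ x = y := fun x y a =>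
    (hμ x).elim (fun b => hf x _ _ b a) fun b => (b.2 y a).elim
  refine ⟨μ, fun x => ?_, fun x y hne => ⟨fun a => ?_, h1 x y⟩⟩
  · rcases hμ x with a | a
    · exact h1 _ _ (hs _ _ a)
    · rw [a.1, a.1]
  · rcases hμ x with b | b
    · exact a ▸ b
    · exact absurd (b.1.symm.trans a) hne

theorem own_eq (h : P.PSt S B g) {i j : J} (hi : i ∈ B) (hj : j ∈ B) {v : V}
    (a : v ∈ (g i).its) (b : v ∈ (g j).its) : i = j := by
  by_contra hn
  exact disjoint_left.1 (h.dis i hi j hj hn) a b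

theorem its_two (o : Bool) (a b : V) : (Sv.two a b).its = {mi o a b, ma o a b} := by
  cases o
  · simp [Sv.its, mi, ma]
  · simp only [Sv.its, mi, ma, if_true]; exact pair_comm _ _

theorem two_facts (h : P.PSt S B g) {j : J} (hj : j ∈ B) {a b : V} (hg : g j = Sv.two a b)
    (o : Bool) : S.geo j ∧ P.col j (!o) (mi o a b) ∧ P.col j o (ma o a b) ∧
      ¬ P.HH (mi o a b) (ma o a b) ∧ ¬ S.qm (mi o a b) ∧ ¬ S.qm (ma o a b) ∧
      mi o a b ∈ S.W ∧ ma o a b ∈ S.W := by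
  have n := h.nrm j hj
  have q := h.nq j hj
  have w := h.inW j hj
  rw [hg] at n q w
  rw [its_two o] at q w
  refine ⟨n.1, ?_, ?_, ?_, fun k => by simpa using q _ (by simp) k,
    fun k => by simpa using q _ (by simp) k, w (by simp), w (by simp)⟩
  · cases o
    · exact n.2.1
    · exact n.2.2.1
  · cases o
    · exact n.2.2.1
    · exact n.2.1
  · cases o
    · exact n.2.2.2
    · exact fun k => n.2.2.2 (HH_symm k)

theorem oldA_mem {j : J} {v : V} (h : P.OldA e ρ B g j v) : v ∈ (g j).its := by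
  rcases h.2 with a | ⟨a, b, o, c, -, rfl, -⟩
  · rw [a]; simp [Sv.its]
  · rw [c, its_two o]; simp

theorem oldP_mem {j : J} {q z : V} (h : P.OldP e ρ B g j q z) :
    (g j).its = {q, z} := by
  obtain ⟨-, a, b, o, c, -, rfl, rfl, -⟩ := h
  rw [c, its_two o]

theorem oldA_uniq {j : J} {v v' : V} (h : P.OldA e ρ B g j v) (h' : P.OldA e ρ B g j v') :
    v = v' := by
  rcases h.2 with a | ⟨a, b, o, c, r, rfl, -⟩ <;> rcases h'.2 with a' | ⟨a', b', o', c', r', rfl, -⟩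
  · rw [a] at a'; cases a'; rfl
  · rw [a] at c'; cases c'
  · rw [c] at a'; cases a'
  · rw [c] at c'; cases c'; cases rig_unique r r'; rfl

theorem oldP_uniq {j : J} {q z q' z' : V} (h : P.OldP e ρ B g j q z)
    (h' : P.OldP e ρ B g j q' z') : q = q' ∧ z = z' := by
  obtain ⟨-, a, b, o, h1, h2, rfl, rfl, -⟩ := h
  obtain ⟨-, a', b', o', h1', h2', rfl, rfl, -⟩ := h'
  rw [h1] at h1'
  cases h1'
  cases rig_unique h2 h2'
  exact ⟨rfl, rfl⟩

theorem notAP {j : J} {v q z : V} (h : P.OldA e ρ B g j v) (h' : P.OldP e ρ B g j q z) :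
    False := by
  obtain ⟨-, a', b', o', c', r', rfl, rfl, k⟩ := h'
  rcases h.2 with a | ⟨a, b, o, c, r, rfl, k'⟩
  · rw [a] at c'; cases c'
  · rw [c] at c'; cases c'; cases rig_unique r r'; exact k' k

theorem notAD {j : J} {v : V} (h : P.OldA e ρ B g j v) (h' : P.OldD e ρ B g j) : False := by
  obtain ⟨-, ⟨a', b', c'⟩, r'⟩ := h'
  rcases h.2 with a | ⟨a, b, o, c, r, -⟩
  · rw [a] at c'; cases c'
  · exact rig_not_flex r r'

theorem notPD {j : J} {q z : V} (h : P.OldP e ρ B g j q z) (h' : P.OldD e ρ B g j) : False := by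
  obtain ⟨-, a, b, o, -, r, -⟩ := h
  exact rig_not_flex r h'.2.2

theorem kind (hs : P.Simple e ρ B g) {j : J} (hj : j ∈ B) :
    (∃ v, P.OldA e ρ B g j v) ∨ (∃ q z, P.OldP e ρ B g j q z) ∨ P.OldD e ρ B g j := by
  rcases hs j hj with ⟨c, a⟩ | ⟨a, b, c, d⟩
  · exact Or.inl ⟨c, hj, Or.inl a⟩
  rcases kinds (P := P) (e := e) (ρ := ρ) j with k | k | ⟨o, k⟩
  · exact (d k).elim
  · exact Or.inr (Or.inr ⟨hj, ⟨a, b, c⟩, k⟩)
  · by_cases f : P.heavy e ρ (mi o a b)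
    · exact Or.inr (Or.inl ⟨_, _, hj, a, b, o, c, k, rfl, rfl, f⟩)
    · exact Or.inl ⟨_, hj, Or.inr ⟨a, b, o, c, k, rfl, f⟩⟩

theorem oldP_facts (hf : P.Frame e ρ) (h : P.PSt S B g) {j : J} {q z : V}
    (a : P.OldP e ρ B g j q z) : P.peE S e ρ q z ∧ P.rigid S e ρ j ∧ P.Pr j q z ∧ ¬ P.junk j z ∧
      q ∈ S.W ∧ z ∈ S.W := by
  obtain ⟨hj, a, b, o, c, r, rfl, rfl, k⟩ := a
  obtain ⟨f1, f2, f3, f4, f5, f6, f7, f8⟩ := two_facts h hj c o
  have q0 := Q0_of_heavy hf r.1 (by simpa using f2.2) k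
  exact ⟨⟨q0, fun k' => Q0_not_adj hf r.1 ⟨q0.1, k'⟩ f3.1, f4, f5, f6⟩, ⟨f1, o, r⟩,
    Pr_symm (Pr_of_col f3 f2 fun k' => f4 (HH_symm k')), col_not_junk f3, f7, f8⟩

theorem old_symm {x y : Nd J V} (h : P.Old e ρ B g x y) : P.Old e ρ B g y x := by
  rcases x with i | u | i <;> rcases y with j | v | j <;> simp only [Old] at h ⊢
  · exact h
  · exact h
  · exact h
  · exact h.imp fun _ a => a.symm
  · exact h

theorem oldP_any {j : J} {u v : V} (h : P.OldP e ρ B g j u v ∨ P.OldP e ρ B g j v u) :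
    j ∈ B ∧ (g j).its = {u, v} ∧ ∃ q z, P.OldP e ρ B g j q z :=
  h.elim (fun a => ⟨a.1, oldP_mem a, _, _, a⟩)
    fun a => ⟨a.1, (oldP_mem a).trans (pair_comm _ _), _, _, a⟩

theorem old_fun (hf : P.Frame e ρ) (h : P.PSt S B g) (x y y' : Nd J V) (a : P.Old e ρ B g x y)
    (b : P.Old e ρ B g x y') : y = y' := by
  rcases x with i | u | i <;> rcases y with j | v | j <;> rcases y' with j' | v' | j' <;>
    simp only [Old] at a b
  · rw [oldA_uniq a b]
  · exact (notAD a (b.1 ▸ b.2)).elim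
  · exact (notAD b (a.1 ▸ a.2)).elim
  · rw [← a.1, ← b.1]
  · rw [own_eq h a.1 b.1 (oldA_mem a) (oldA_mem b)]
  · obtain ⟨k, b⟩ := b
    obtain ⟨b1, b2, q, z, b3⟩ := oldP_any b
    cases own_eq h a.1 b1 (oldA_mem a) (by rw [b2]; simp)
    exact (notAP a b3).elim
  · obtain ⟨k, a⟩ := a
    obtain ⟨b1, b2, q, z, b3⟩ := oldP_any a
    cases own_eq h b.1 b1 (oldA_mem b) (by rw [b2]; simp)
    exact (notAP b b3).elim
  · obtain ⟨k, a⟩ := a
    obtain ⟨k', b⟩ := b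
    obtain ⟨a1, a2, -⟩ := oldP_any a
    obtain ⟨b1, b2, -⟩ := oldP_any b
    cases own_eq h a1 b1 (v := u) (by rw [a2]; simp) (by rw [b2]; simp)
    have n : u ≠ v := a.elim (fun c => (oldP_facts hf h c).2.2.1.1)
      fun c => (oldP_facts hf h c).2.2.1.1.symm
    have m : v ∈ ({u, v'} : Finset V) := by rw [← b2, a2]; simp
    rw [mem_insert, mem_singleton] at m
    rw [m.resolve_left n.symm]
  · rw [a.1, b.1]

theorem old_En (hf : P.Frame e ρ) (h : P.PSt S B g) {x y : Nd J V} (a : P.Old e ρ B g x y) :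
    P.En S e ρ (axAll J V) x y := by
  have kA : ∀ j v, P.OldA e ρ B g j v →
      j ∈ S.A ∧ v ∈ S.W ∧ (S.lst j v ∨ ((axAll J V).nc ∧ P.ncE S e ρ j v)) := fun j v a => by
    refine ⟨h.sub a.1, h.inW j a.1 (oldA_mem a), ?_⟩
    rcases a.2 with c | ⟨x, y, o, c, r, rfl, k⟩
    · have n := h.nrm j a.1
      rw [c] at n
      exact Or.inl n
    · obtain ⟨f1, f2, -, -, f5, -⟩ := two_facts h a.1 c o
      exact Or.inr ⟨trivial, f1, ⟨o, r, f2⟩, k, f5⟩
  have kD : ∀ j, P.OldD e ρ B g j → j ∈ S.A ∧ S.geo j ∧ P.flex e ρ j := fun j a => by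
    obtain ⟨a1, ⟨x, y, c⟩, a3⟩ := a
    exact ⟨h.sub a1, (two_facts h a1 c true).1, a3⟩
  rcases x with i | u | i <;> rcases y with j | v | j <;> simp only [Old] at a
  · exact kA _ _ a
  · exact ⟨a.1, kD _ a.2⟩
  · exact kA _ _ a
  · obtain ⟨k, a | a⟩ := a
    · obtain ⟨f1, -, -, -, f5, f6⟩ := oldP_facts hf h a
      exact ⟨f5, f6, trivial, Or.inl ⟨f1, id⟩⟩
    · obtain ⟨f1, -, -, -, f5, f6⟩ := oldP_facts hf h a
      exact ⟨f6, f5, trivial, Or.inr ⟨f1, id⟩⟩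
  · exact ⟨a.1, kD _ a.2⟩

section Img

variable {μ : Nd J V → Nd J V}

theorem im_old (hμ : P.IsImg e ρ B g μ) {x : Nd J V} (hx : μ x ≠ x) : P.Old e ρ B g x (μ x) :=
  (hμ.2 x _ hx.symm).1 rfl

theorem im_ag (hμ : P.IsImg e ρ B g μ) {j : J} (hx : μ (ag j) ≠ ag j) :
    (∃ v, P.OldA e ρ B g j v) ∨ P.OldD e ρ B g j := by
  have a := im_old hμ hx
  rcases hy : μ (ag j) with i | u | i <;> rw [hy] at a
  · exact a.elim
  · exact Or.inl ⟨u, a⟩
  · exact Or.inr a.2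

theorem im_A (hμ : P.IsImg e ρ B g μ) {j : J} {v : V} (a : P.OldA e ρ B g j v) :
    μ (ag j) = vx v := (hμ.2 _ _ (by simp)).2 a

theorem im_D (hμ : P.IsImg e ρ B g μ) {j : J} (a : P.OldD e ρ B g j) : μ (ag j) = dm j :=
  (hμ.2 (ag j) (dm j) (by simp)).2 ⟨rfl, a⟩

theorem im_P (hf : P.Frame e ρ) (h : P.PSt S B g) (hμ : P.IsImg e ρ B g μ) {j : J} {q z : V}
    (a : P.OldP e ρ B g j q z) : μ (ag j) = ag j ∧ μ (vx q) = vx z ∧ μ (vx z) = vx q := by
  have n := (oldP_facts hf h a).2.2.1.1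
  refine ⟨?_, (hμ.2 _ _ (by simpa using n)).2 ⟨j, Or.inl a⟩,
    (hμ.2 _ _ (by simpa using n.symm)).2 ⟨j, Or.inr a⟩⟩
  by_contra hn
  rcases im_ag hμ hn with ⟨v, b⟩ | b
  · exact notAP b a
  · exact notPD a b

theorem im_unc (hs : P.Simple e ρ B g) (hμ : P.IsImg e ρ B g μ) {j : J} (hj : j ∈ B)
    (a : μ (ag j) = ag j) : ∃ q z, P.OldP e ρ B g j q z := by
  rcases kind hs hj with ⟨v, b⟩ | b | b
  · rw [im_A hμ b] at a; cases a
  · exact b
  · rw [im_D hμ b] at a; cases a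

theorem im_M (hf : P.Frame e ρ) (h : P.PSt S B g) (hμ : P.IsImg e ρ B g μ) :
    IsM (P.En S e ρ (axAll J V)) μ := ⟨hμ.1, fun _ hx => old_En hf h (im_old hμ hx)⟩

theorem im_cov (hf : P.Frame e ρ) (h : P.PSt S B g) (hs : P.Simple e ρ B g)
    (hμ : P.IsImg e ρ B g μ) : cov μ = 2 * B.card := by
  have a1 := ((peStmt J V).1 μ hμ.1 (En_shape (im_M hf h hμ))).1
  have a2 : (univ.filter fun j : J => μ (ag j) ≠ ag j) =
      B.filter fun j => ¬ ∃ q z, P.OldP e ρ B g j q z := by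
    ext j
    simp only [mem_filter, mem_univ, true_and]
    refine ⟨fun a => ⟨?_, fun ⟨q, z, b⟩ => a (im_P hf h hμ b).1⟩,
      fun a b => a.2 (im_unc hs hμ a.1 b)⟩
    rcases im_ag hμ a with ⟨v, b⟩ | b <;> exact b.1
  have a3 : npe μ univ = 2 * (B.filter fun j => ∃ q z, P.OldP e ρ B g j q z).card := by
    have b1 : (univ.filter fun v : V => vx v ∈ (univ : Finset (Nd J V)) ∧
        ∃ u, u ≠ v ∧ μ (vx v) = vx u) =
        (B.filter fun j => ∃ q z, P.OldP e ρ B g j q z).biUnion fun j => (g j).its := by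
      ext v
      simp only [mem_filter, mem_univ, true_and, mem_biUnion]
      constructor
      · rintro ⟨u, n, a⟩
        obtain ⟨j, b⟩ := (hμ.2 _ _ (by simpa using n.symm)).1 a
        obtain ⟨b1, b2, b3⟩ := oldP_any b
        exact ⟨j, ⟨b1, b3⟩, by rw [b2]; simp⟩
      · rintro ⟨j, ⟨-, q, z, b⟩, c⟩
        have n := (oldP_facts hf h b).2.2.1.1
        rw [oldP_mem b, mem_insert, mem_singleton] at c
        rcases c with rfl | rfl
        · exact ⟨z, n.symm, (im_P hf h hμ b).2.1⟩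
        · exact ⟨q, n, (im_P hf h hμ b).2.2⟩
    unfold npe
    rw [b1, card_biUnion fun i hi j hj hne =>
      h.dis i (mem_filter.1 hi).1 j (mem_filter.1 hj).1 hne, mul_comm, ← smul_eq_mul, ← sum_const]
    refine sum_congr rfl fun j hj => ?_
    obtain ⟨q, z, b⟩ := (mem_filter.1 hj).2
    rw [oldP_mem b, card_pair (oldP_facts hf h b).2.2.1.1]
  have a4 := card_filter_add_card_filter_not (s := B) (fun j => ∃ q z, P.OldP e ρ B g j q z)
  rw [a2] at a1
  omega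

theorem im_cw (hw : P.Wf S) (h : P.PSt S B g) (hs : P.Simple e ρ B g)
    (hμ : P.IsImg e ρ B g μ) : use B (fun j => (g j).its) + cw S μ = 2 * B.card := by
  have a1 : cw S μ = (B.filter fun j => ∃ c, g j = Sv.one c).card := by
    unfold cw
    congr 1
    ext j
    simp only [mem_filter, mem_univ, true_and]
    constructor
    · rintro ⟨v, a, b⟩
      have c : P.OldA e ρ B g j v := (hμ.2 _ _ (by simp)).1 a
      refine ⟨c.1, ?_⟩
      rcases c.2 with d | ⟨x, y, o, d, -, rfl, -⟩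
      · exact ⟨v, d⟩
      · obtain ⟨f1, f2, -⟩ := two_facts h c.1 d o
        exact (col_not_C f2 ((hw j f1 _).1 b)).elim
    · rintro ⟨a, c, b⟩
      have n := h.nrm j a
      rw [b] at n
      exact ⟨c, im_A hμ ⟨a, Or.inl b⟩, n⟩
  rw [a1, card_filter]
  unfold use
  rw [← sum_add_distrib, mul_comm, ← smul_eq_mul, ← sum_const]
  refine sum_congr rfl fun j hj => ?_
  rcases hs j hj with ⟨c, a⟩ | ⟨x, y, a, -⟩
  · beta_reduce
    rw [if_pos ⟨c, a⟩, a]; simp [Sv.its]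
  · have n := h.nrm j hj
    rw [a] at n
    beta_reduce
    rw [if_neg (by rw [a]; simp), a]
    exact card_pair (col_ne n.2.1 n.2.2.1)

end Img

/-! ### Necessity -/

/-- Orientation of an installed pair. -/
noncomputable def ori (P : Geo J V) (e : ℕ) (ρ : Finset V) (g : J → Sv V) (j : J) : Bool :=
  if ∃ a b o, g j = Sv.two a b ∧ P.rig e ρ j o ∧
    ((P.heavy e ρ (mi o a b) ∧ o = false) ∨ (¬ P.heavy e ρ (mi o a b) ∧ o = true)) then true
  else false

theorem ori_spec {j : J} {a b : V} {o : Bool} (hg : g j = Sv.two a b) (r : P.rig e ρ j o) :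
    (P.heavy e ρ (mi o a b) → ori P e ρ g j = !o) ∧
      (¬ P.heavy e ρ (mi o a b) → ori P e ρ g j = o) := by
  have key : (∃ a b o, g j = Sv.two a b ∧ P.rig e ρ j o ∧
      ((P.heavy e ρ (mi o a b) ∧ o = false) ∨ (¬ P.heavy e ρ (mi o a b) ∧ o = true))) ↔
      ((P.heavy e ρ (mi o a b) ∧ o = false) ∨ (¬ P.heavy e ρ (mi o a b) ∧ o = true)) := by
    refine ⟨?_, fun k => ⟨a, b, o, hg, r, k⟩⟩
    rintro ⟨a', b', o', c, r', k⟩
    rw [hg] at c
    cases c
    cases rig_unique r r'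
    exact k
  unfold ori
  simp only [key]
  cases o <;> refine ⟨fun k => ?_, fun k => ?_⟩ <;> simp [k]

/-- The installed pairs of the agents of `Ω`. -/
noncomputable def Gam (P : Geo J V) (e : ℕ) (ρ : Finset V) (g : J → Sv V) (Ω : Finset J) :
    Finset (J × V × V) :=
  univ.filter fun s => s.1 ∈ Ω ∧ ∃ a b, g s.1 = Sv.two a b ∧ s.2.1 = ma (ori P e ρ g s.1) a b ∧
    s.2.2 = mi (ori P e ρ g s.1) a b

theorem gam_its {Ω : Finset J} {s : J × V × V} (hs : s ∈ Gam P e ρ g Ω) :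
    (g s.1).its = {s.2.1, s.2.2} := by
  obtain ⟨-, -, a, b, c, d, f⟩ := mem_filter.1 hs
  rw [c, its_two (ori P e ρ g s.1), d, f, pair_comm]

theorem gam_inj {Ω : Finset J} {s t : J × V × V} (hs : s ∈ Gam P e ρ g Ω)
    (ht : t ∈ Gam P e ρ g Ω) (h : s.1 = t.1) : s = t := by
  obtain ⟨-, -, a, b, c, d, f⟩ := mem_filter.1 hs
  obtain ⟨-, -, a', b', c', d', f'⟩ := mem_filter.1 ht
  rw [← h, c] at c'
  cases c'
  exact Prod.ext h (Prod.ext (by rw [d, d', h]) (by rw [f, f', h]))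

theorem gam_card (Ω : Finset J) : (Gam P e ρ g Ω).card ≤ Ω.card :=
  card_le_card_of_injOn (fun s => s.1) (fun _ hs => mem_coe.2 (mem_filter.1 (mem_coe.1 hs)).2.1)
    fun _ hs _ ht h => gam_inj (mem_coe.1 hs) (mem_coe.1 ht) h

theorem gam_mem {Ω : Finset J} {j : J} (hj : j ∈ Ω) {a b : V} (hg : g j = Sv.two a b) :
    (j, ma (ori P e ρ g j) a b, mi (ori P e ρ g j) a b) ∈ Gam P e ρ g Ω :=
  mem_filter.2 ⟨mem_univ _, hj, a, b, hg, rfl, rfl⟩

theorem gam_ag {Ω : Finset J} (hΩ : ∀ j ∈ Ω, ∃ a b, g j = Sv.two a b) :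
    ag2 (Gam P e ρ g Ω) = Ω := by
  ext j
  simp only [ag2, mem_image]
  refine ⟨fun ⟨s, a, b⟩ => b ▸ (mem_filter.1 a).2.1, fun a => ?_⟩
  obtain ⟨x, y, b⟩ := hΩ j a
  exact ⟨_, gam_mem a b, rfl⟩

theorem gam_it {Ω : Finset J} (hΩ : ∀ j ∈ Ω, ∃ a b, g j = Sv.two a b) :
    it2 (Gam P e ρ g Ω) = itsB Ω g := by
  ext v
  simp only [it2, itsB, mem_biUnion]
  refine ⟨fun ⟨s, a, b⟩ => ⟨s.1, (mem_filter.1 a).2.1, gam_its a ▸ b⟩, fun ⟨j, a, b⟩ => ?_⟩
  obtain ⟨x, y, c⟩ := hΩ j a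
  have d := gam_mem (P := P) (e := e) (ρ := ρ) a c
  exact ⟨_, d, gam_its d ▸ b⟩

theorem gam_ok (h : P.PSt S B g) {Ω : Finset J} (hB : Ω ⊆ B) : P.SgOk S (Gam P e ρ g Ω) := by
  refine ⟨fun s hs => ?_, fun s hs t ht hne => ?_⟩
  · obtain ⟨-, hj, a, b, c, d, f⟩ := mem_filter.1 hs
    obtain ⟨f1, f2, f3, f4, f5, f6, f7, f8⟩ := two_facts h (hB hj) c (ori P e ρ g s.1)
    rw [d, f]
    exact ⟨h.sub (hB hj), f1, f8, f7, Pr_of_col f3 f2 fun k => f4 (HH_symm k), f6, f5⟩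
  · have n : s.1 ≠ t.1 := fun k => hne (gam_inj hs ht k)
    refine ⟨n, ?_⟩
    rw [← gam_its hs, ← gam_its ht]
    exact h.dis _ (hB (mem_filter.1 hs).2.1) _ (hB (mem_filter.1 ht).2.1) n

/-- Agents with a key. -/
def NC (P : Geo J V) (e : ℕ) (ρ : Finset V) (g : J → Sv V) (j : J) : Prop :=
  ∃ a b o, g j = Sv.two a b ∧ P.rig e ρ j o ∧ ¬ P.heavy e ρ (mi o a b)

theorem pass_of (hw : P.Wf S) (hf : P.Frame e ρ) {l : ℕ} (h : P.NSt S S.A g) (nt : NoTri S.A g)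
    (hu : use S.A (fun j => (g j).its) + l ≤ S.W.card) {Ω : Finset J} (hB : Ω ⊆ S.A)
    (hΩ : ∀ j ∈ Ω, ∃ a b, g j = Sv.two a b)
    (hb : ∀ j ∈ S.A, (∃ a b, g j = Sv.two a b) → P.blind e ρ j → j ∈ Ω) {X : Ax J V}
    (h1 : ∀ j ∈ S.A, j ∉ Ω → NC P e ρ g j → X.nc)
    (h2 : ∀ j q z, j ∉ Ω → P.OldP e ρ S.A g j q z → X.pe ∧ ¬ X.zs z ∧ ¬ X.mc j) :
    P.Pass (S.rem (ag2 (Gam P e ρ g Ω)) (it2 (Gam P e ρ g Ω))) e ρ X l := by
  rw [gam_ag hΩ, gam_it hΩ]
  have st := h.1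
  have st' : P.PSt (S.rem Ω (itsB Ω g)) (S.A \ Ω) g :=
    ⟨Subset.rfl, fun j hj v hv => mem_sdiff.2 ⟨st.inW j (mem_sdiff.1 hj).1 hv, fun a => by
        obtain ⟨i, a1, a2⟩ := mem_biUnion.1 a
        exact (mem_sdiff.1 hj).2 (own_eq st (hB a1) (mem_sdiff.1 hj).1 a2 hv ▸ a1)⟩,
      fun j hj => by
        have := st.nrm j (mem_sdiff.1 hj).1
        rcases hg : g j with _ | c | ⟨x, y⟩ | ⟨x, z, y⟩ <;> rw [hg] at this <;> exact this,
      fun i hi j hj => st.dis i (mem_sdiff.1 hi).1 j (mem_sdiff.1 hj).1,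
      fun j hj => st.nq j (mem_sdiff.1 hj).1⟩
  have si : P.Simple e ρ (S.A \ Ω) g := fun j hj => by
    have hjA := (mem_sdiff.1 hj).1
    have b := st.nrm j hjA
    rcases hg : g j with _ | c | ⟨x, y⟩ | ⟨x, z, y⟩
    · rw [hg] at b; exact b.elim
    · exact Or.inl ⟨c, rfl⟩
    · exact Or.inr ⟨x, y, rfl, fun c => (mem_sdiff.1 hj).2 (hb j hjA ⟨x, y, hg⟩ c)⟩
    · exact (nt j hjA x z y hg).elim
  obtain ⟨μ, hμ⟩ : ∃ μ, P.IsImg e ρ (S.A \ Ω) g μ :=
    exists_inv _ (fun _ _ => old_symm) (old_fun hf st')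
  have up : ∀ {j q z}, P.OldP e ρ (S.A \ Ω) g j q z → X.pe ∧ ¬ X.zs z ∧ ¬ X.mc j := fun a =>
    h2 _ _ _ (mem_sdiff.1 a.1).2 ⟨(mem_sdiff.1 a.1).1, a.2⟩
  have kA : ∀ j v, P.OldA e ρ (S.A \ Ω) g j v →
      P.En (S.rem Ω (itsB Ω g)) e ρ X (ag j) (vx v) := fun j v a => by
    have b := old_En (x := ag j) (y := vx v) hf st' a
    refine ⟨b.1, b.2.1, ?_⟩
    rcases a.2 with c | ⟨x, y, o, c, r, rfl, k⟩
    · have n := st'.nrm j a.1
      rw [c] at n
      exact Or.inl n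
    · exact b.2.2.imp id fun d =>
        ⟨h1 j (mem_sdiff.1 a.1).1 (mem_sdiff.1 a.1).2 ⟨x, y, o, c, r, k⟩, d.2⟩
  have cw' := im_cw (S := S.rem Ω (itsB Ω g)) hw st' si hμ
  refine ⟨μ, ⟨hμ.1, fun x hx => ?_⟩, im_cov hf st' si hμ, ?_, fun j hj a b => ?_,
    fun v hv a => ?_⟩
  · have a := im_old hμ hx
    have b := old_En hf st' a
    rcases hy : μ x with j | v | j <;> rw [hy] at a b <;> rcases x with i | u | i
    · exact b
    · exact En_symm (kA _ _ a)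
    · exact b
    · exact kA _ _ a
    · obtain ⟨k, a | a⟩ := a
      · exact ⟨b.1, b.2.1, (up a).1, Or.inl ⟨(oldP_facts hf st' a).1, (up a).2.1⟩⟩
      · exact ⟨b.1, b.2.1, (up a).1, Or.inr ⟨(oldP_facts hf st' a).1, (up a).2.1⟩⟩
    · exact b
    · exact b
    · exact b
    · exact b
  · have a1 : use S.A (fun j => (g j).its) =
        use (S.A \ Ω) (fun j => (g j).its) + use Ω fun j => (g j).its := (sum_sdiff hB).symm
    have a2 : (itsB Ω g).card = use Ω fun j => (g j).its :=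
      card_biUnion fun i hi j hj hne => st.dis i (hB hi) j (hB hj) hne
    have a3 : (S.W \ itsB Ω g).card + (itsB Ω g).card = S.W.card :=
      card_sdiff_add_card_eq_card (biUnion_subset.2 fun j hj => st.inW j (hB hj))
    have a4 : (S.rem Ω (itsB Ω g)).A.card = (S.A \ Ω).card := rfl
    have a5 : (S.rem Ω (itsB Ω g)).W.card = (S.W \ itsB Ω g).card := rfl
    omega
  · obtain ⟨q, z, c⟩ := im_unc si hμ hj b
    exact a.elim (fun k => k (oldP_facts hf st' c).2.1) (up c).2.2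
  · obtain ⟨j, hj, c⟩ := h.2 v (mem_sdiff.1 hv).1 a
    have d : j ∉ Ω := fun k => (mem_sdiff.1 hv).2 (mem_biUnion.2 ⟨j, k, by rw [c]; simp [Sv.its]⟩)
    have f := im_A hμ (v := v) ⟨mem_sdiff.2 ⟨hj, d⟩, Or.inl c⟩
    rw [← f, hμ.1, f]
    simp

theorem gam_P {Ω : Finset J} {j : J} (hj : j ∈ Ω) {q z : V} (a : P.OldP e ρ B g j q z) :
    (j, q, z) ∈ Gam P e ρ g Ω := by
  obtain ⟨-, x, y, o, c, r, rfl, rfl, k⟩ := a
  have d := gam_mem (P := P) (e := e) (ρ := ρ) hj c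
  rw [(ori_spec c r).1 k] at d
  cases o <;> exact d

theorem witP_of (hf : P.Frame e ρ) (h : P.PSt S B g) {j : J} {q z : V}
    (a : P.OldP e ρ B g j q z) : P.WitP e ρ (j, q, z) := by
  have f := (oldP_facts hf h a).1.1
  obtain ⟨hj, x, y, o, c, r, rfl, rfl, k⟩ := a
  obtain ⟨-, f2, f3, -⟩ := two_facts h hj c o
  exact ⟨o, r, f, f2, f3⟩

theorem gam_N (h : P.PSt S B g) {Ω : Finset J} {j : J} (hj : j ∈ Ω) (hB : j ∈ B)
    (a : NC P e ρ g j) : ∃ s ∈ Gam P e ρ g Ω, s.1 = j ∧ P.WitN e ρ s := by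
  obtain ⟨x, y, o, c, r, k⟩ := a
  have d := gam_mem (P := P) (e := e) (ρ := ρ) hj c
  rw [(ori_spec c r).2 k] at d
  exact ⟨_, d, rfl, o, r, (two_facts h hB c o).2.1, k⟩

theorem card_un {A B : Finset J} {a b : ℕ} (h1 : A.card ≤ a) (h2 : B.card ≤ b) :
    (A ∪ B).card ≤ a + b := (card_union_le _ _).trans (Nat.add_le_add h1 h2)

end DImg

open Finset Classical Geo DImg in
theorem imgStmt : ImgStmt := by
  intro J V _ _ _ _ P S e ρ B g hw hf h hs
  refine ⟨exists_inv _ (fun _ _ => old_symm) (old_fun hf h), fun μ hμ => ⟨im_M hf h hμ,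
    im_cov hf h hs hμ, im_cw hw h hs hμ, fun j hj a b => ?_, fun j hj => ⟨?_, ?_⟩, fun v hv => ?_,
    fun j hj v a => ?_, fun j q z a => ?_, fun j hj a => im_unc hs hμ hj a,
    fun q z n a b => ?_, fun j hj v hv a => ?_⟩⟩
  · obtain ⟨q, z, c⟩ := im_unc hs hμ hj b
    exact a (oldP_facts hf h c).2.1
  · by_contra a
    rcases im_ag hμ a with ⟨v, b⟩ | b <;> exact hj b.1
  · by_contra a
    have b := im_old hμ a
    rcases hy : μ (dm j) with i | u | i <;> rw [hy] at b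
    · exact hj (b.1 ▸ b.2.1)
    · exact b
    · exact b
  · by_contra a
    have b := im_old hμ a
    rcases hy : μ (vx v) with i | u | i <;> rw [hy] at b
    · exact hv (mem_biUnion.2 ⟨i, b.1, oldA_mem b⟩)
    · obtain ⟨k, b⟩ := b
      obtain ⟨b1, b2, -⟩ := oldP_any b
      exact hv (mem_biUnion.2 ⟨k, b1, by rw [b2]; simp⟩)
    · exact b
  · have b := im_A hμ (v := v) ⟨hj, Or.inl a⟩
    exact ⟨by rw [← b, hμ.1], b⟩
  · obtain ⟨f1, f2, f3, f4, -⟩ := oldP_facts hf h a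
    exact ⟨f1, f2, f3, f4, oldP_mem a, (im_P hf h hμ a).1, (im_P hf h hμ a).2.1⟩
  · obtain ⟨j, c | c⟩ := (hμ.2 _ _ (by simpa using n)).1 a
    · exact ⟨j, c⟩
    · exact ((oldP_facts hf h c).1.2.1 b.2).elim
  · rcases kind hs hj with ⟨x, b⟩ | ⟨q, z, b⟩ | b
    · have c := im_A hμ b
      have n : v ≠ x := fun k => by
        have d := hμ.1 (ag j)
        rw [c, ← k, a] at d
        cases d
      rcases b.2 with d | ⟨y, y', o, d, r, rfl, k⟩
      · rw [d] at hv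
        exact (n (by simpa [Sv.its] using hv)).elim
      · obtain ⟨f1, f2, f3, -, f5, -⟩ := two_facts h hj d o
        rw [d, its_two o, mem_insert, mem_singleton] at hv
        have m := hv.resolve_left n
        exact Or.inr ⟨fun k' => Q0_not_adj hf r.1 k' (m ▸ f3.1), _, c, f1, ⟨o, r, f2⟩, k, f5⟩
    · have n := (oldP_facts hf h b).2.2.1.1
      obtain ⟨-, c1, c2⟩ := im_P hf h hμ b
      rw [oldP_mem b, mem_insert, mem_singleton] at hv
      rcases hv with rfl | rfl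
      · rw [a] at c1; exact (n (by simpa using c1)).elim
      · rw [a] at c2; exact (n (by simpa using c2.symm)).elim
    · exact Or.inl (im_D hμ b)

open Finset Classical Geo DImg in
theorem necStmt (hN : NormStmt) : NecStmt := by
  intro J V _ _ _ _ P S e l hw ⟨f, hf, hu⟩ ρ fr
  obtain ⟨-, -, -, n4, -, -, -, n8⟩ := hN J V P S S.A hw
  obtain ⟨g, hg⟩ := n4 f hf
  have hu' : use S.A (fun j => (g j).its) + l ≤ S.W.card := by
    have := hg.2.2 f hf
    omega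
  have st := hg.1.1
  set BL := S.A.filter fun j => (∃ a b, g j = Sv.two a b) ∧ P.blind e ρ j with hBL
  set PE := S.A.filter fun j => ∃ q z, P.OldP e ρ S.A g j q z with hPE
  set NE := S.A.filter fun j => NC P e ρ g j with hNE
  have cB : BL.card ≤ 1 := card_le_one.2 fun i hi j hj => by
    obtain ⟨a1, ⟨a, b, a2⟩, a3⟩ := mem_filter.1 hi
    obtain ⟨b1, ⟨a', b', b2⟩, b3⟩ := mem_filter.1 hj
    exact n8 g e ρ fr (Or.inr hg) i a1 j b1 a b a' b' a2 b2 a3 b3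
  have tB : ∀ j ∈ BL, j ∈ S.A ∧ ∃ a b, g j = Sv.two a b := fun j hj =>
    ⟨(mem_filter.1 hj).1, (mem_filter.1 hj).2.1⟩
  have tP : ∀ j ∈ PE, j ∈ S.A ∧ ∃ a b, g j = Sv.two a b := fun j hj => by
    obtain ⟨a, q, z, -, x, y, o, c, -⟩ := mem_filter.1 hj
    exact ⟨a, x, y, c⟩
  have tN : ∀ j ∈ NE, j ∈ S.A ∧ ∃ a b, g j = Sv.two a b := fun j hj => by
    obtain ⟨a, x, y, o, c, -⟩ := mem_filter.1 hj
    exact ⟨a, x, y, c⟩
  have inP : ∀ j q z, P.OldP e ρ S.A g j q z → j ∈ PE := fun j q z a =>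
    mem_filter.2 ⟨a.1, q, z, a⟩
  have main : ∀ (Ω : Finset J) (X : Ax J V), Ω ⊆ PE ∪ NE → (∀ j ∈ S.A, j ∉ Ω → NC P e ρ g j → X.nc) →
      (∀ j q z, j ∉ Ω → P.OldP e ρ S.A g j q z → X.pe ∧ ¬ X.zs z ∧ ¬ X.mc j) →
      P.SgOk S (Gam P e ρ g (Ω ∪ BL)) ∧
      P.Pass (S.rem (ag2 (Gam P e ρ g (Ω ∪ BL))) (it2 (Gam P e ρ g (Ω ∪ BL)))) e ρ X l :=
    fun Ω X a b c => by
      have t : ∀ j ∈ Ω ∪ BL, j ∈ S.A ∧ ∃ a b, g j = Sv.two a b := fun j hj =>
        (mem_union.1 hj).elim (fun k => (mem_union.1 (a k)).elim (tP j) (tN j)) (tB j)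
      exact ⟨gam_ok st fun j hj => (t j hj).1, pass_of hw fr hg.1 hg.2.1 hu' (fun j hj => (t j hj).1)
        (fun j hj => (t j hj).2) (fun j hj k k' => mem_union_right _ (mem_filter.2 ⟨hj, k, k'⟩))
        (fun j hj k => b j hj fun k' => k (mem_union_left _ k'))
        fun j q z k => c j q z fun k' => k (mem_union_left _ k')⟩
  by_cases hP : 1 < PE.card
  · obtain ⟨j1, m1, j2, m2, hne⟩ := one_lt_card.1 hP
    obtain ⟨q1, z1, o1⟩ := (mem_filter.1 m1).2
    obtain ⟨q2, z2, o2⟩ := (mem_filter.1 m2).2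
    obtain ⟨-, ⟨-, p1, r1⟩, -⟩ := oldP_facts fr st o1
    obtain ⟨-, ⟨-, p2, r2⟩, -⟩ := oldP_facts fr st o2
    have nz : z1 ≠ z2 := fun k => hne (own_eq st o1.1 o2.1 (v := z1) (by rw [oldP_mem o1]; simp)
      (by rw [oldP_mem o2, k]; simp))
    set O1 := PE.filter fun j => ∃ q z, P.OldP e ρ S.A g j q z ∧ P.junk j1 z ∧ P.junk j2 z with hO1
    set O2 := PE.filter fun j => P.junk j z1 ∧ P.junk j z2 with hO2
    have c1 : O1.card ≤ 1 := card_le_one.2 fun i hi j hj => by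
      obtain ⟨-, q, z, a, b, c⟩ := mem_filter.1 hi
      obtain ⟨-, q', z', a', b', c'⟩ := mem_filter.1 hj
      cases rig_junk fr hne r1 r2 b b' c c'
      exact own_eq st a.1 a'.1 (v := z) (by rw [oldP_mem a]; simp) (by rw [oldP_mem a']; simp)
    have c2 : O2.card ≤ 1 := card_le_one.2 fun i hi j hj => by
      obtain ⟨a, b, c⟩ := mem_filter.1 hi
      obtain ⟨a', b', c'⟩ := mem_filter.1 hj
      obtain ⟨q, z, d⟩ := (mem_filter.1 a).2
      obtain ⟨q', z', d'⟩ := (mem_filter.1 a').2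
      obtain ⟨-, ⟨-, p, r⟩, -⟩ := oldP_facts fr st d
      obtain ⟨-, ⟨-, p', r'⟩, -⟩ := oldP_facts fr st d'
      by_contra hn
      exact nz (rig_junk fr hn r r' b c b' c')
    obtain ⟨k1, k2⟩ := main ({j1, j2} ∪ O1 ∪ O2) (P.axW (j1, q1, z1) (j2, q2, z2))
      (subset_union_left.trans' (union_subset (union_subset
        (insert_subset m1 (singleton_subset_iff.2 m2)) (filter_subset _ _)) (filter_subset _ _)))
      (fun _ _ _ _ => trivial) fun j q z a b => ⟨trivial,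
        fun c => a (mem_union_left _ (mem_union_right _ (mem_filter.2 ⟨inP _ _ _ b, q, z, b, c⟩))),
        fun c => a (mem_union_right _ (mem_filter.2 ⟨inP _ _ _ b, c⟩))⟩
    exact ⟨_, (gam_card _).trans (card_un (card_un (card_un card_le_two c1) c2) cB), k1,
      Or.inl ⟨_, gam_P (by simp) o1, _, gam_P (by simp) o2, fun k => hne (congrArg Prod.fst k),
        witP_of fr st o1, witP_of fr st o2, k2⟩⟩
  have cP : PE.card ≤ 1 := by omega
  by_cases hC : 1 < NE.card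
  · obtain ⟨j1, m1, j2, m2, hne⟩ := one_lt_card.1 hC
    obtain ⟨k1, k2⟩ := main (PE ∪ {j1, j2}) (axN J V)
      (union_subset_union Subset.rfl (insert_subset m1 (singleton_subset_iff.2 m2)))
      (fun _ _ _ _ => trivial) fun j q z a b => (a (mem_union_left _ (inP _ _ _ b))).elim
    obtain ⟨s1, a1, a2, a3⟩ := gam_N (Ω := PE ∪ {j1, j2} ∪ BL) st (by simp) (mem_filter.1 m1).1
      (mem_filter.1 m1).2
    obtain ⟨s2, b1, b2, b3⟩ := gam_N (Ω := PE ∪ {j1, j2} ∪ BL) st (by simp) (mem_filter.1 m2).1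
      (mem_filter.1 m2).2
    exact ⟨_, (gam_card _).trans ((card_un (card_un cP card_le_two) cB).trans (by omega)), k1,
      Or.inr (Or.inl ⟨s1, a1, s2, b1, fun k => hne (by rw [← a2, ← b2, k]), a3, b3, k2⟩)⟩
  · obtain ⟨k1, k2⟩ := main (PE ∪ NE) (axC J V) Subset.rfl
      (fun j hj a b => (a (mem_union_right _ (mem_filter.2 ⟨hj, b⟩))).elim)
      fun j q z a b => (a (mem_union_left _ (inP _ _ _ b))).elim
    exact ⟨_, (gam_card _).trans ((card_un (card_un cP (show NE.card ≤ 1 by omega)) cB).trans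
      (by omega)), k1, Or.inr (Or.inr k2)⟩

end Pool.Agent.Lib.MP_ef7581_lc.D2
end

-- part Pool.Agent.Lib.MP_ef7581_lc.DNorm
section

/-!
Normal forms of states, the replacement lemma and the bound on the number of triples.
-/

set_option autoImplicit false
set_option linter.unusedSectionVars false

namespace Pool.Agent.Lib.MP_ef7581_lc.D2

open Finset Classical

namespace DNorm

open Geo

variable {J V : Type} [Fintype J] [Fintype V] [DecidableEq J] [DecidableEq V] {P : Geo J V}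
  {S : Sub J V} {B : Finset J}

theorem loc (hw : P.Wf S) {j : J} {s : Finset V} (h : P.Serv3 S j s) :
    ∃ σ, P.Nrm S j σ ∧ σ.its ⊆ s ∧ (P.Serv2 S j s → ∀ a z b, σ ≠ Sv.three a z b) := by
  by_cases h1 : ∃ v ∈ s, S.lst j v
  · obtain ⟨v, hv, hl⟩ := h1
    exact ⟨Sv.one v, hl, singleton_subset_iff.2 hv, fun _ _ _ _ e => by cases e⟩
  have hg : S.geo j := by
    rcases h with (h | h) | h
    · exact absurd h h1
    · exact h.1
    · exact h.1
  have nc : ∀ v ∈ s, ∀ o, ¬ P.adj j o v → P.col j (!o) v := fun v hv o ho =>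
    ⟨by_contra fun h2 => h1 ⟨v, hv, (hw j hg v).2 (C_of ho h2)⟩, by simpa using ho⟩
  by_cases h2 : ∃ a ∈ s, ∃ b ∈ s, P.Pr j a b
  · obtain ⟨a, ha, b, hb, -, nh, o, h3, h4⟩ := h2
    have c1 := nc a ha o h3
    have c2 := nc b hb _ h4
    cases o
    · exact ⟨Sv.two a b, ⟨hg, c1, c2, nh⟩, insert_subset ha (singleton_subset_iff.2 hb),
        fun _ _ _ _ e => by cases e⟩
    · exact ⟨Sv.two b a, ⟨hg, c2, c1, fun h => nh (HH_symm h)⟩,
        insert_subset hb (singleton_subset_iff.2 ha), fun _ _ _ _ e => by cases e⟩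
  have h5 : ¬ P.Serv2 S j s := fun h => h.elim h1 fun h => h2 h.2
  obtain ⟨-, a, ha, z, hz, b, hb, n1, n2, n3, n4, o, h3, h4⟩ := h.resolve_left h5
  have c1 := nc a ha o h3
  have c2 := nc b hb _ h4
  have z1 : P.adj j (!o) z := by_contra fun h => h2 ⟨a, ha, z, hz, n1, n3, o, h3, h⟩
  have z2 : P.adj j o z := by_contra fun h => h2 ⟨z, hz, b, hb, n2, n4, o, h, h4⟩
  have ab : P.HH a b := by_contra fun h => h2 ⟨a, ha, b, hb, col_ne c1 c2, h, o, h3, h4⟩
  cases o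
  · exact ⟨Sv.three a z b, ⟨hg, c1, junk_of z2 z1, c2, ab, n3, n4⟩,
      insert_subset ha (insert_subset hz (singleton_subset_iff.2 hb)), fun h => absurd h h5⟩
  · exact ⟨Sv.three b z a, ⟨hg, c2, junk_of z2 z1, c1, HH_symm ab, fun h => n4 (HH_symm h),
      fun h => n3 (HH_symm h)⟩,
      insert_subset hb (insert_subset hz (singleton_subset_iff.2 ha)), fun h => absurd h h5⟩

theorem eq_one {j : J} {σ : Sv V} {v : V} (h : P.Nrm S j σ) (hs : σ.its ⊆ {v}) : σ = Sv.one v := by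
  rcases σ with _ | c | ⟨a, b⟩ | ⟨a, z, b⟩
  · exact h.elim
  · rw [mem_singleton.1 (hs (mem_singleton_self c))]
  · have h1 := mem_singleton.1 (hs (show a ∈ ({a, b} : Finset V) by simp))
    have h2 := mem_singleton.1 (hs (show b ∈ ({a, b} : Finset V) by simp))
    exact absurd (h1.trans h2.symm) (col_ne h.2.1 h.2.2.1)
  · have h1 := mem_singleton.1 (hs (show a ∈ ({a, z, b} : Finset V) by simp))
    have h2 := mem_singleton.1 (hs (show b ∈ ({a, z, b} : Finset V) by simp))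
    exact absurd (h1.trans h2.symm) (col_ne h.2.1 h.2.2.2.1)

theorem ne_az {j : J} {o : Bool} {a z : V} (ha : P.col j o a) (hz : P.junk j z) : a ≠ z :=
  fun e => col_not_junk ha (e ▸ hz)

theorem serv {j : J} {σ : Sv V} (h : P.Nrm S j σ) :
    P.Serv3 S j σ.its ∧ ((∀ a z b, σ ≠ Sv.three a z b) → P.Serv2 S j σ.its) := by
  rcases σ with _ | c | ⟨a, b⟩ | ⟨a, z, b⟩
  · exact h.elim
  · have : P.Serv2 S j (Sv.one c).its := Or.inl ⟨c, mem_singleton_self c, h⟩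
    exact ⟨Or.inl this, fun _ => this⟩
  · have : P.Serv2 S j (Sv.two a b).its :=
      Or.inr ⟨h.1, a, by simp [Sv.its], b, by simp [Sv.its], Pr_of_col h.2.1 h.2.2.1 h.2.2.2⟩
    exact ⟨Or.inl this, fun _ => this⟩
  · obtain ⟨h0, h1, h2, h3, -, h5, h6⟩ := h
    exact ⟨Or.inr ⟨h0, a, by simp [Sv.its], z, by simp [Sv.its], b, by simp [Sv.its], ne_az h1 h2,
      (ne_az h3 h2).symm, h5, h6, false, h1.2, h3.2⟩, fun h => absurd rfl (h a z b)⟩

theorem norm (hw : P.Wf S) {sv : J → Finset V → Prop} (h3 : ∀ j s, sv j s → P.Serv3 S j s)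
    {f : J → Finset V} (h : St S sv B f) : ∃ g, P.NSt S B g ∧ (∀ j ∈ B, (g j).its ⊆ f j) ∧
      ((∀ j s, sv j s → P.Serv2 S j s) → NoTri B g) := by
  have h1 : ∀ j, ∃ σ : Sv V, j ∈ B → P.Nrm S j σ ∧ σ.its ⊆ f j ∧
      (P.Serv2 S j (f j) → ∀ a z b, σ ≠ Sv.three a z b) := fun j => by
    by_cases hj : j ∈ B
    · exact (loc hw (h3 _ _ (h.srv j hj))).imp fun σ h _ => h
    · exact ⟨Sv.non, fun h => absurd h hj⟩
  choose g hg using h1
  refine ⟨g, ⟨⟨h.sub, fun j hj => (hg j hj).2.1.trans (h.inW j hj), fun j hj => (hg j hj).1,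
    fun i hi j hj hij => (h.dis i hi j hj hij).mono (hg i hi).2.1 (hg j hj).2.1,
    fun j hj v hv hq => ?_⟩, fun v hv hq => ?_⟩, fun j hj => (hg j hj).2.1,
    fun h2 j hj => (hg j hj).2.2 (h2 _ _ (h.srv j hj))⟩
  · have hv' := (hg j hj).2.1 hv
    obtain ⟨i, hi, e, -⟩ := h.qok v (h.inW j hj hv') hq
    have hij : i = j := by
      by_contra hne
      exact disjoint_left.1 (h.dis i hi j hj hne) (e ▸ mem_singleton_self v) hv'
    subst hij
    exact eq_one (hg i hi).1 (e ▸ (hg i hi).2.1)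
  · obtain ⟨i, hi, e, -⟩ := h.qok v hv hq
    exact ⟨i, hi, eq_one (hg i hi).1 (e ▸ (hg i hi).2.1)⟩

theorem toSt {sv : J → Finset V → Prop} {g : J → Sv V} (h : P.NSt S B g)
    (hs : ∀ j ∈ B, sv j (g j).its) : St S sv B fun j => (g j).its := by
  refine ⟨h.1.sub, h.1.inW, hs, h.1.dis, fun v hv hq => ?_⟩
  obtain ⟨j, hj, e⟩ := h.2 v hv hq
  have := h.1.nrm j hj
  rw [e] at this
  exact ⟨j, hj, by rw [e]; rfl, this⟩

theorem st3 {g : J → Sv V} (h : P.NSt S B g) : St S (P.Serv3 S) B fun j => (g j).its :=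
  toSt h fun j hj => (serv (h.1.nrm j hj)).1

theorem st2 {g : J → Sv V} (h : P.NSt S B g) (hn : NoTri B g) :
    St S (P.Serv2 S) B fun j => (g j).its :=
  toSt h fun j hj => (serv (h.1.nrm j hj)).2 (hn j hj)

theorem exists_min {sv : J → Finset V → Prop} {f : J → Finset V} (h : St S sv B f) :
    ∃ f₀, St S sv B f₀ ∧ ∀ f, St S sv B f → use B f₀ ≤ use B f := by
  have h1 : ∃ n, ∃ f, St S sv B f ∧ use B f = n := ⟨_, f, h, rfl⟩
  obtain ⟨f₀, h2, h3⟩ := Nat.find_spec h1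
  exact ⟨f₀, h2, fun f hf => h3 ▸ Nat.find_min' h1 ⟨f, hf, rfl⟩⟩

theorem use_mono {f f' : J → Finset V} (h : ∀ j ∈ B, f j ⊆ f' j) : use B f ≤ use B f' :=
  sum_le_sum fun j hj => card_le_card (h j hj)

theorem repl {sv : J → Finset V → Prop} {f : J → Finset V} {R : Finset J} {f' : J → Finset V}
    (h : St S sv B f) (hR : R ⊆ B) (h1 : ∀ j ∈ R, sv j (f' j) ∧ f' j ⊆ R.biUnion f)
    (h2 : ∀ i ∈ R, ∀ j ∈ R, i ≠ j → Disjoint (f' i) (f' j)) (h3 : ∀ v ∈ R.biUnion f, ¬ S.qm v) :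
    St S sv B (fun j => if j ∈ R then f' j else f j) ∧
      use B (fun j => if j ∈ R then f' j else f j) + use R f = use B f + use R f' := by
  have k : ∀ i ∈ R, ∀ j ∈ B, j ∉ R → Disjoint (f' i) (f j) := fun i hi j hj hjR => by
    refine disjoint_left.2 fun v hv hv' => ?_
    obtain ⟨k, hk, hvk⟩ := mem_biUnion.1 ((h1 i hi).2 hv)
    exact disjoint_left.1 (h.dis k (hR hk) j hj fun e => hjR (e ▸ hk)) hvk hv'
  refine ⟨⟨h.sub, fun j hj => ?_, fun j hj => ?_, fun i hi j hj hij => ?_, fun v hv hq => ?_⟩, ?_⟩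
  · split_ifs with hjR
    · exact (h1 j hjR).2.trans (biUnion_subset.2 fun k hk => h.inW k (hR hk))
    · exact h.inW j hj
  · split_ifs with hjR
    · exact (h1 j hjR).1
    · exact h.srv j hj
  · split_ifs with a b b
    · exact h2 i a j b hij
    · exact k i a j hj b
    · exact (k j b i hi a).symm
    · exact h.dis i hi j hj hij
  · obtain ⟨j, hj, e, hl⟩ := h.qok v hv hq
    have : j ∉ R := fun hjR => h3 v (mem_biUnion.2 ⟨j, hjR, e ▸ mem_singleton_self v⟩) hq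
    exact ⟨j, hj, by rw [if_neg this, e], hl⟩
  · have e1 : ∑ j ∈ B \ R, (if j ∈ R then f' j else f j).card = ∑ j ∈ B \ R, (f j).card :=
      sum_congr rfl fun j hj => by rw [if_neg (mem_sdiff.1 hj).2]
    have e2 : ∑ j ∈ R, (if j ∈ R then f' j else f j).card = ∑ j ∈ R, (f' j).card :=
      sum_congr rfl fun j hj => by rw [if_pos hj]
    have e3 := sum_sdiff hR (f := fun j => (if j ∈ R then f' j else f j).card)
    have e4 := sum_sdiff hR (f := fun j => (f j).card)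
    unfold use
    beta_reduce
    omega

theorem swap {sv : J → Finset V → Prop} {f : J → Finset V} (h : St S sv B f)
    (hm : ∀ f', St S sv B f' → use B f ≤ use B f') {i j : J} (hi : i ∈ B) (hj : j ∈ B)
    (hij : i ≠ j) {s t : Finset V} (hs : sv i s) (ht : sv j t) (s1 : s ⊆ f j) (t1 : t ⊆ f i)
    (q1 : ∀ v ∈ f i, ¬ S.qm v) (q2 : ∀ v ∈ f j, ¬ S.qm v) :
    (f i).card + (f j).card ≤ s.card + t.card := by
  have e : ({i, j} : Finset J).biUnion f = f i ∪ f j := by simp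
  have hd : Disjoint s t := (h.dis j hj i hi hij.symm).mono s1 t1
  obtain ⟨h1, h2⟩ := repl (R := {i, j}) (f' := fun k => if k = i then s else t) h
    (insert_subset hi (singleton_subset_iff.2 hj))
    (fun k hk => by
      rw [e]
      rcases mem_insert.1 hk with rfl | hk
      · rw [if_pos rfl]
        exact ⟨hs, s1.trans subset_union_right⟩
      · rw [mem_singleton.1 hk, if_neg hij.symm]
        exact ⟨ht, t1.trans subset_union_left⟩)
    (fun k hk l hl hkl => by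
      simp only [mem_insert, mem_singleton] at hk hl
      rcases hk with rfl | rfl <;> rcases hl with rfl | rfl
      · exact absurd rfl hkl
      · rwa [if_pos rfl, if_neg hij.symm]
      · rw [if_pos rfl, if_neg hij.symm]
        exact hd.symm
      · exact absurd rfl hkl)
    (fun v hv => by
      rw [e] at hv
      exact (mem_union.1 hv).elim (q1 v) (q2 v))
  have h3 := hm _ h1
  simp only [use, sum_pair hij, if_true, if_neg hij.symm] at h2 h3
  omega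

theorem single (hw : P.Wf S) {j : J} (hg : S.geo j) {c : V} (h : P.C j c) : P.Serv2 S j {c} :=
  Or.inl ⟨c, mem_singleton_self c, (hw j hg c).2 h⟩

theorem blind_eq (hw : P.Wf S) {g : J → Sv V} {e : ℕ} {ρ : Finset V} (hf : P.Frame e ρ)
    (h : P.Min3 S B g ∨ P.Min2 S B g) {i j : J} (hi : i ∈ B) (hj : j ∈ B) {a b a' b' : V}
    (gi : g i = Sv.two a b) (gj : g j = Sv.two a' b') (bi : P.blind e ρ i) (bj : P.blind e ρ j) :
    i = j := by
  by_contra hij
  have hn : P.NSt S B g := h.elim (·.1) (·.1)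
  have n1 := hn.1.nrm i hi
  have n2 := hn.1.nrm j hj
  rw [gi] at n1
  rw [gj] at n2
  have s1 := single hw n1.1 (blind_C hf (Ne.symm hij) bj bi n2.2.1)
  have s2 := single hw n2.1 (blind_C hf hij bi bj n1.2.1)
  have u1 : ({a'} : Finset V) ⊆ (g j).its := by simp [gj, Sv.its]
  have u2 : ({a} : Finset V) ⊆ (g i).its := by simp [gi, Sv.its]
  have q1 : ∀ v ∈ (g i).its, ¬ S.qm v := fun v hv hq => by
    have := hn.1.nq i hi v hv hq
    rw [gi] at this
    cases this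
  have q2 : ∀ v ∈ (g j).its, ¬ S.qm v := fun v hv hq => by
    have := hn.1.nq j hj v hv hq
    rw [gj] at this
    cases this
  have k : (g i).its.card + (g j).its.card ≤ ({a'} : Finset V).card + ({a} : Finset V).card := by
    rcases h with h | h
    · exact swap (st3 hn) h.2 hi hj hij (Or.inl s1) (Or.inl s2) u1 u2 q1 q2
    · exact swap (st2 hn h.2.1) h.2.2 hi hj hij s1 s2 u1 u2 q1 q2
  simp only [gi, gj, Sv.its, card_singleton, card_pair (col_ne n1.2.1 n1.2.2.1),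
    card_pair (col_ne n2.2.1 n2.2.2.1)] at k
  omega

theorem tri_swap {g : J → Sv V} (h : P.Min3 S B g) {i j : J} (hi : i ∈ B) (hj : j ∈ B)
    (hij : i ≠ j) {a z b a' z' b' : V} (gi : g i = Sv.three a z b) (gj : g j = Sv.three a' z' b')
    {s t : Finset V} (hs : P.Serv2 S i s) (ht : P.Serv2 S j t) (s1 : s ⊆ {a', z', b'})
    (t1 : t ⊆ {a, z, b}) (s2 : s.card ≤ 2) (t2 : t.card ≤ 2) : False := by
  have c : ∀ k ∈ B, ∀ a z b, g k = Sv.three a z b →
      (g k).its.card = 3 ∧ ∀ v ∈ (g k).its, ¬ S.qm v := fun k hk a z b e => by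
    refine ⟨?_, fun v hv hq => ?_⟩
    · have n := h.1.1.nrm k hk
      rw [e] at n ⊢
      exact card_eq_three.2 ⟨a, z, b, ne_az n.2.1 n.2.2.1, col_ne n.2.1 n.2.2.2.1,
        (ne_az n.2.2.2.1 n.2.2.1).symm, rfl⟩
    · have := h.1.1.nq k hk v hv hq
      rw [e] at this
      cases this
  have k := swap (st3 h.1) h.2 hi hj hij (Or.inl hs) (Or.inl ht) (by rw [gj]; exact s1)
    (by rw [gi]; exact t1) (c i hi _ _ _ gi).2 (c j hj _ _ _ gj).2
  rw [(c i hi _ _ _ gi).1, (c j hj _ _ _ gj).1] at k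
  omega

theorem kind {i j : J} {a z b : V} (n : P.Nrm S j (Sv.three a z b)) :
    (∃ x ∈ ({a, z, b} : Finset V), P.Ok i z x) ∨
      (∃ o, P.adj i o a ∧ P.adj i o z ∧ P.adj i o b) ∨ P.junk i z := by
  by_cases h1 : P.Ok i z a
  · exact Or.inl ⟨a, by simp, h1⟩
  by_cases h2 : P.Ok i z b
  · exact Or.inl ⟨b, by simp, h2⟩
  obtain ⟨o, a1, a2⟩ := refuse (ne_az n.2.1 n.2.2.1).symm (fun h => n.2.2.2.2.2.1 (HH_symm h)) h1
  obtain ⟨o', b1, b2⟩ := refuse (ne_az n.2.2.2.1 n.2.2.1).symm n.2.2.2.2.2.2 h2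
  by_cases e : o' = o
  · exact Or.inr (Or.inl ⟨o, a2, a1, e ▸ b2⟩)
  · exact Or.inr (Or.inr (junk_of a1 (by rwa [← Bool.eq_not.2 e])))

end DNorm

open DNorm Geo

theorem normStmt : NormStmt := by
  intro J V _ _ _ _ P S B hw
  refine ⟨fun f h => ?_, fun f h => ?_, fun f h => ?_, fun f h => ?_, fun g h => st3 h,
    fun g h hn => st2 h hn, fun sv f R f' h hR h1 h2 h3 => repl h hR h1 h2 h3,
    fun g e ρ hf h i hi j hj a b a' b' gi gj bi bj => blind_eq hw hf h hi hj gi gj bi bj⟩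
  · obtain ⟨g, h1, h2, -⟩ := norm hw (fun _ _ h => h) h
    exact ⟨g, h1, h2⟩
  · obtain ⟨g, h1, h2, h3⟩ := norm hw (fun _ _ h => Or.inl h) h
    exact ⟨g, h1, h3 fun _ _ h => h, h2⟩
  · obtain ⟨f₀, h0, hm⟩ := exists_min h
    obtain ⟨g, h1, h2, -⟩ := norm hw (fun _ _ h => h) h0
    exact ⟨g, h1, fun f hf => (use_mono h2).trans (hm f hf)⟩
  · obtain ⟨f₀, h0, hm⟩ := exists_min h
    obtain ⟨g, h1, h2, h3⟩ := norm hw (fun _ _ h => Or.inl h) h0
    exact ⟨g, h1, h3 fun _ _ h => h, fun f hf => (use_mono h2).trans (hm f hf)⟩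

theorem tripStmt (h : RamseyStmt) : TripStmt := by
  obtain ⟨N, hN⟩ := h.1 (Prop × Prop × Prop × Prop) 4
  refine ⟨N, fun J V _ _ _ _ P S B g hw hm => ?_⟩
  by_contra hc
  set T := B.filter fun j => ∃ a z b, g j = Sv.three a z b with hT
  let u : Fin N → J := fun r => (T.equivFin.symm (Fin.castLE (not_le.1 hc).le r)).1
  have uT : ∀ r, u r ∈ T := fun r => (T.equivFin.symm _).2
  have ui : Function.Injective u := fun r s e =>
    Fin.castLE_injective _ (T.equivFin.symm.injective (Subtype.ext e))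
  have uB : ∀ r, u r ∈ B := fun r => (mem_filter.1 (uT r)).1
  choose a z b hg using fun r => (mem_filter.1 (uT r)).2
  have nr : ∀ r, P.Nrm S (u r) (Sv.three (a r) (z r) (b r)) := fun r => hg r ▸ hm.1.1.nrm _ (uB r)
  let K1 : Fin N → Fin N → Prop := fun r s =>
    ∃ o, P.adj (u r) o (a s) ∧ P.adj (u r) o (z s) ∧ P.adj (u r) o (b s)
  let K2 : Fin N → Fin N → Prop := fun r s => P.junk (u r) (z s)
  have k0 : ∀ r s, r ≠ s → K1 r s ∨ K2 r s ∨ K1 s r ∨ K2 s r := fun r s hrs => by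
    rcases kind (i := u r) (nr s) with ⟨x, hx, h1⟩ | h1 | h1
    · rcases kind (i := u s) (nr r) with ⟨y, hy, h2⟩ | h2 | h2
      · exact (tri_swap hm (uB r) (uB s) (ui.ne hrs) (hg r) (hg s) (serv_of_Ok hw (nr r).1 h1)
          (serv_of_Ok hw (nr s).1 h2) (insert_subset (by simp) (singleton_subset_iff.2 hx))
          (insert_subset (by simp) (singleton_subset_iff.2 hy)) card_le_two card_le_two).elim
      · exact Or.inr (Or.inr (Or.inl h2))
      · exact Or.inr (Or.inr (Or.inr h2))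
    · exact Or.inl h1
    · exact Or.inr (Or.inl h1)
  have k1 : ∀ r r' s, r ≠ r' → K1 r s → K1 r' s → False := by
    rintro r r' s hr ⟨o, a1, a2, a3⟩ ⟨o', b1, b2, b3⟩
    have n := nr s
    exact ind_t (fun e => ui.ne hr (congrArg Prod.fst e)) a1 b1 a2 b2 (ne_az n.2.1 n.2.2.1)
      n.2.2.2.2.2.1 a1 b1 a3 b3 n.2.2.2.2.1
  have k2 : ∀ r r' s s', r ≠ r' → s ≠ s' → K2 r s → K2 r s' → K2 r' s → K2 r' s' → False := by
    intro r r' s s' hr hs a1 a2 b1 b2
    have hz : z s ≠ z s' := fun e => by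
      have := hm.1.1.dis _ (uB s) _ (uB s') (ui.ne hs)
      rw [hg, hg] at this
      exact disjoint_left.1 this (show z s ∈ ({a s, z s, b s} : Finset V) by simp)
        (show z s ∈ ({a s', z s', b s'} : Finset V) by simp [e])
    exact tri_swap hm (uB r) (uB r') (ui.ne hr) (hg r) (hg r')
      (single hw (nr r).1 (coline (ui.ne hr.symm) hz b1 b2 a1 a2 (nr r').2.1))
      (single hw (nr r').1 (coline (ui.ne hr) hz a1 a2 b1 b2 (nr r).2.1)) (by simp) (by simp)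
      (by simp) (by simp)
  obtain ⟨e, he, hh⟩ := hN fun r s => (K1 r s, K2 r s, K1 s r, K2 s r)
  have ne : ∀ i j : Fin 4, i < j → e i ≠ e j := fun i j h => (he h).ne
  have t := fun i j (h : i < j) => hh 0 1 i j (by decide) h
  simp only [Prod.mk.injEq, eq_iff_iff] at t
  rcases k0 _ _ (ne 0 1 (by decide)) with h1 | h1 | h1 | h1
  · exact k1 _ _ _ (ne 0 1 (by decide)) ((t 0 2 (by decide)).1.1 h1) ((t 1 2 (by decide)).1.1 h1)
  · exact k2 _ _ _ _ (ne 0 1 (by decide)) (ne 2 3 (by decide)) ((t 0 2 (by decide)).2.1.1 h1)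
      ((t 0 3 (by decide)).2.1.1 h1) ((t 1 2 (by decide)).2.1.1 h1) ((t 1 3 (by decide)).2.1.1 h1)
  · exact k1 _ _ _ (ne 1 2 (by decide)) h1 ((t 0 2 (by decide)).2.2.1.1 h1)
  · exact k2 _ _ _ _ (ne 2 3 (by decide)) (ne 0 1 (by decide)) ((t 0 2 (by decide)).2.2.2.1 h1)
      ((t 1 2 (by decide)).2.2.2.1 h1) ((t 0 3 (by decide)).2.2.2.1 h1)
      ((t 1 3 (by decide)).2.2.2.1 h1)

end Pool.Agent.Lib.MP_ef7581_lc.D2
end
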