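import Mathlib
import Pool.Agent.Lib.MP_ef7581_lc.DComp

-- part Pool.Agent.Lib.MP_ef7581_lc.DOpt
section

/-!
Rectangle lemmas for an optimal auxiliary matching.
-/

set_option autoImplicit false
set_option linter.unusedSectionVars false

namespace Pool.Agent.Lib.MP_ef7581_lc.D2

open Finset Classical

namespace DOpt

section Gen

variable {α : Type} [Fintype α] [DecidableEq α]

/-- Replace the partner of `a` by `c`. -/
def sw (a c : α) (ν : α → α) : α → α := link a c (cut a ν)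

variable {μ ν : α → α} {a c : α}

theorem sw_a : sw a c ν a = c := link_left _ _ _
theorem sw_c : sw a c ν c = a := link_right _

theorem sw_b (hν : ∀ x, ν (ν x) = x) (ha : ν a ≠ a) (hc : ν c = c) : sw a c ν (ν a) = ν a := by
  unfold sw
  rw [link_ne ha, cut_mate]
  intro h
  apply ha
  have : a = c := by rw [← hν a, h, hc]
  rw [h, this]

theorem sw_ne {z : α} (h1 : z ≠ a) (h2 : z ≠ ν a) (h3 : z ≠ c) : sw a c ν z = ν z := by
  unfold sw
  rw [link_ne h1 h3, cut_ne h1 h2]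

theorem sw_isM {E : α → α → Prop} (h : IsM E ν) (hc : ν c = c) (e1 : E a c) (e2 : E c a) :
    IsM E (sw a c ν) :=
  (h.cut a).link (cut_self _ _) (cut_fix hc) e1 e2

theorem card_swap {s t : Finset α} {b c : α} (hb : b ∈ s) (h : t ⊆ insert c (s.erase b)) :
    t.card ≤ s.card := by
  have h1 := card_le_card h
  have h2 := card_insert_le c (s.erase b)
  have h3 := card_erase_of_mem hb
  have h4 : 0 < s.card := card_pos.2 ⟨b, hb⟩
  omega

theorem sw_cov (hν : ∀ x, ν (ν x) = x) (ha : ν a ≠ a) (hc : ν c = c) :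
    cov (sw a c ν) = cov ν := by
  have hac : a ≠ c := fun h => ha (h ▸ hc)
  unfold cov
  apply le_antisymm
  · refine card_swap (b := ν a) (c := c)
      (by simp only [mem_filter, mem_univ, true_and, hν]; exact ha.symm) fun z hz => ?_
    simp only [mem_filter, mem_univ, true_and, mem_insert, mem_erase] at hz ⊢
    by_cases h3 : z = c
    · exact Or.inl h3
    by_cases h2 : z = ν a
    · exact absurd (h2 ▸ sw_b hν ha hc) hz
    by_cases h1 : z = a
    · exact Or.inr ⟨h2, h1 ▸ ha⟩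
    · exact Or.inr ⟨h2, sw_ne h1 h2 h3 ▸ hz⟩
  · refine card_swap (b := c) (c := ν a)
      (by simp only [mem_filter, mem_univ, true_and, sw_c]; exact hac) fun z hz => ?_
    simp only [mem_filter, mem_univ, true_and, mem_insert, mem_erase] at hz ⊢
    by_cases h2 : z = ν a
    · exact Or.inl h2
    have h3 : z ≠ c := fun h => hz (h ▸ hc)
    by_cases h1 : z = a
    · refine Or.inr ⟨h3, ?_⟩
      rw [h1, sw_a]
      exact hac.symm
    · refine Or.inr ⟨h3, ?_⟩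
      rw [sw_ne h1 h2 h3]
      exact hz

theorem sw_newc (hμ : ∀ x, μ (μ x) = x) (hν : ∀ x, ν (ν x) = x) (ha : ν a ≠ a) (hc : ν c = c)
    (hn : μ a ≠ ν a) : newc μ (sw a c ν) ≤ newc μ ν := by
  unfold newc
  refine card_swap (b := ν a) (c := c) ?_ fun z hz => ?_
  · simp only [mem_filter, mem_univ, true_and, hν]
    exact ⟨ha.symm, fun h => hn (by rw [h, hμ, ← h])⟩
  simp only [mem_filter, mem_univ, true_and, mem_insert, mem_erase] at hz ⊢
  by_cases h3 : z = c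
  · exact Or.inl h3
  by_cases h2 : z = ν a
  · exact absurd (h2 ▸ sw_b hν ha hc) hz.1
  by_cases h1 : z = a
  · exact Or.inr ⟨h2, h1 ▸ ⟨ha, hn.symm⟩⟩
  · exact Or.inr ⟨h2, sw_ne h1 h2 h3 ▸ hz⟩

theorem sw_ends (hν : ∀ x, ν (ν x) = x) (ha : ν a ≠ a) (hc : ν c = c) (hc' : μ c = c)
    (hb : μ (ν a) ≠ ν a) : (ends μ ν).card < (ends μ (sw a c ν)).card := by
  have hac : a ≠ c := fun h => ha (h ▸ hc)
  apply card_lt_card
  rw [ssubset_iff_of_subset]
  · refine ⟨c, ?_, ?_⟩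
    · simp only [ends, mem_filter, mem_univ, true_and]
      exact Or.inl ⟨hc', by rw [sw_c]; exact hac⟩
    · simp only [ends, mem_filter, mem_univ, true_and]
      exact fun h => h.ne (by rw [hc, hc'])
  · intro z hz
    simp only [ends, mem_filter, mem_univ, true_and] at hz ⊢
    have h3 : z ≠ c := fun h => by
      rw [h] at hz
      exact hz.ne (by rw [hc, hc'])
    by_cases h2 : z = ν a
    · exact Or.inr ⟨h2 ▸ hb, h2 ▸ sw_b hν ha hc⟩
    by_cases h1 : z = a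
    · rw [h1] at hz ⊢
      rcases hz with h | h
      · exact Or.inl ⟨h.1, by rw [sw_a]; exact hac.symm⟩
      · exact absurd h.2 ha
    · unfold IsEnd at hz ⊢
      rwa [sw_ne h1 h2 h3]

/-- Pigeonhole on components and colours. -/
theorem pigeon {β : Type} (χ : α → Bool) {K n : ℕ} (hK : (ncomp μ ν).card ≤ K) (s : Finset β)
    (f : β → α) (hf : ∀ b ∈ s, μ (f b) ≠ ν (f b)) (h : 2 * K * n < s.card) :
    ∃ t ⊆ s, n < t.card ∧ ∀ a ∈ t, ∀ b ∈ t, cmp μ ν (f a) = cmp μ ν (f b) ∧ χ (f a) = χ (f b) := by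
  obtain ⟨y, -, hy⟩ := exists_lt_card_fiber_of_mul_lt_card_of_maps_to
    (s := s) (t := ncomp μ ν ×ˢ (univ : Finset Bool)) (f := fun b => (cmp μ ν (f b), χ (f b)))
    (n := n) (fun b hb => by
      simp only [mem_product, mem_univ, and_true, ncomp, mem_image, mem_filter, true_and]
      exact ⟨f b, hf b hb, rfl⟩) (by
      rw [card_product, card_univ, Fintype.card_bool]
      exact lt_of_le_of_lt (Nat.mul_le_mul_right _ (by omega)) h)
  refine ⟨_, filter_subset _ _, hy, fun a ha b hb => ?_⟩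
  rw [mem_filter] at ha hb
  have := ha.2.trans hb.2.symm
  exact ⟨congrArg Prod.fst this, congrArg Prod.snd this⟩

end Gen

variable {J V : Type} [Fintype J] [Fintype V] [DecidableEq J] [DecidableEq V] {P : Geo J V}
  {S : Sub J V} {e : ℕ} {ρ : Finset V} {μ ν : Nd J V → Nd J V} {X : Ax J V} {w : ℕ}

theorem cw_le {ν' : Nd J V → Nd J V}
    (h : ∀ i v, ν (ag i) = vx v → S.lst i v → ν' (ag i) = ν (ag i)) : cw S ν ≤ cw S ν' := by
  refine card_le_card fun i hi => ?_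
  simp only [mem_filter, mem_univ, true_and] at hi ⊢
  obtain ⟨v, h1, h2⟩ := hi
  exact ⟨v, (h i v h1 h2).trans h1, h2⟩

/-- An optimal matching admits no swing. -/
theorem no_swing (hμ : ∀ x, μ (μ x) = x) (hb : P.Best S e ρ X μ w ν) {a c : Nd J V}
    (ha : ν a ≠ a) (hc : ν c = c) (hc' : μ c = c) (hn : μ a ≠ ν a) (hb' : μ (ν a) ≠ ν a)
    (he : P.En S e ρ X a c)
    (hl : ∀ i v, ν (ag i) = vx v → S.lst i v → ag i ≠ a ∧ ag i ≠ ν a)
    (h1 : ∀ j, ν a = ag j → P.rigid S e ρ j ∧ ¬ X.mc j) (h2 : ∀ v, ν a = vx v → ¬ S.qm v) :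
    False := by
  obtain ⟨⟨hm, hcov, hw, hv⟩, hopt⟩ := hb
  have hν := hm.1
  have hac : a ≠ c := fun h => ha (h ▸ hc)
  have key : ∀ z, z ≠ ν a → ν z ≠ z → sw a c ν z ≠ z := fun z z2 hz => by
    by_cases z1 : z = a
    · rw [z1, sw_a]; exact hac.symm
    · rw [sw_ne z1 z2 fun h => hz (h ▸ hc)]; exact hz
  have hcls : P.Cls S e ρ X μ w (sw a c ν) := by
    refine ⟨sw_isM hm hc (Or.inl he) (Or.inl (Geo.En_symm he)), by rw [sw_cov hν ha hc, hcov],
      hw.trans (cw_le fun i v i1 i2 => ?_), fun j hj hr => ?_, fun v hvW hq => ?_⟩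
    · refine sw_ne (hl i v i1 i2).1 (hl i v i1 i2).2 fun h => ?_
      rw [← h, i1] at hc
      exact absurd hc (by simp)
    · refine key _ (fun h => ?_) (hv.1 j hj hr)
      have := h1 j h.symm
      tauto
    · exact key _ (fun h => h2 v h.symm hq) (hv.2 v hvW hq)
  have k1 := sw_newc hμ hν ha hc hn
  have k2 := sw_ends hν ha hc hc' hb'
  have := hopt _ hcls
  omega

/-- An optimal matching admits no crossing inside a component and colour class. -/
theorem no_cross (hC : CompStmt) (hμ : ∀ x, μ (μ x) = x) (hb : P.Best S e ρ X μ w ν) :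
    ∃ χ : Nd J V → Bool, ∀ x x', x ≠ x' → χ x = χ x' → cmp μ ν x = cmp μ ν x' → ν x ≠ x →
      ν x' ≠ x' → μ x ≠ ν x → μ x' ≠ ν x' → P.En S e ρ X x (ν x') → P.En S e ρ X x' (ν x) →
      (∀ i v, ν (ag i) = vx v → S.lst i v → ag i ≠ x ∧ ag i ≠ x' ∧ ag i ≠ ν x ∧ ag i ≠ ν x') →
      False := by
  obtain ⟨⟨hm, hcov, hw, hv⟩, hopt⟩ := hb
  obtain ⟨-, -, -, -, -, -, -, ⟨χ, hχ⟩, hx, -⟩ := hC (Nd J V) μ ν hμ hm.1
  refine ⟨χ, fun x x' hne hc hcm a1 a2 n1 n2 e1 e2 hl => ?_⟩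
  obtain ⟨b1, b2⟩ := hχ x x' hne hc hcm a1 a2
  obtain ⟨-, c2, -, -, -, -, c7, c8, c9, c10, c11⟩ := hx x x' hne a1 a2 b1
  have hcls : P.Cls S e ρ X μ w (cross x x' ν) := by
    refine ⟨c11 _ hm (Or.inl e1) (Or.inl (Geo.En_symm e1)) (Or.inl e2) (Or.inl (Geo.En_symm e2)),
      by rw [c8, hcov], hw.trans (cw_le fun i v i1 i2 => ?_), fun j hj hr => ?_,
      fun v hvW hq => ?_⟩
    · obtain ⟨d1, d2, d3, d4⟩ := hl i v i1 i2
      exact c7 _ d1 d2 d3 d4
    · exact fun h => hv.1 j hj hr ((c2 _).1 h)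
    · exact fun h => hv.2 v hvW hq ((c2 _).1 h)
  have k1 := c10 n1 n2
  have := hopt _ hcls
  rw [c9] at this
  omega

/-- The data of a request. -/
structure Rq (P : Geo J V) (S : Sub J V) (e : ℕ) (ρ : Finset V) (X : Ax J V)
    (μ ν : Nd J V → Nd J V) (j : J) (x : V) (o : Bool) : Prop where
  k : ν (ag j) = vx x
  nl : ¬ S.lst j x
  nw : μ (ag j) ≠ vx x
  A : j ∈ S.A
  W : x ∈ S.W
  nc : X.nc
  geo : S.geo j
  rig : P.rig e ρ j o
  col : P.col j (!o) x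
  li : ¬ P.heavy e ρ x
  nq : ¬ S.qm x

theorem rq_of (hb : P.Best S e ρ X μ w ν) {j : J} (hj : j ∈ Req S μ ν) :
    ∃ x o, Rq P S e ρ X μ ν j x o := by
  obtain ⟨-, x, h1, h2, h3⟩ := mem_filter.1 hj
  have h4 := hb.1.1.2 (ag j) (by rw [h1]; simp)
  rw [h1] at h4
  rcases h4 with ⟨a1, a2, a3⟩ | h4
  · rcases a3 with a3 | ⟨a3, a4, ⟨o, a5, a6⟩, a7, a8⟩
    · exact absurd a3 h2
    · exact ⟨x, o, h1, h2, h3, a1, a2, a3, a4, a5, a6, a7, a8⟩
  · exact absurd h4 h3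

theorem Rq.k' {j : J} {x : V} {o : Bool} (h : Rq P S e ρ X μ ν j x o) (hν : ∀ x, ν (ν x) = x) :
    ν (vx x) = ag j := by rw [← h.k, hν]

theorem Rq.lne {j : J} {x : V} {o : Bool} (h : Rq P S e ρ X μ ν j x o) {i : J} {v : V}
    (h1 : ν (ag i) = vx v) (h2 : S.lst i v) : (ag i : Nd J V) ≠ ag j := fun he => by
  have hij : i = j := Sum.inl_injective he
  subst hij
  have : v = x := by simpa using h1.symm.trans h.k
  exact h.nl (this ▸ h2)

/-- A free item. -/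
structure Fr (S : Sub J V) (μ ν : Nd J V → Nd J V) (y : V) : Prop where
  W : y ∈ S.W
  a : ν (vx y) = vx y
  b : μ (vx y) = vx y
  nq : ¬ S.qm y

theorem nc_swing (hμ : ∀ x, μ (μ x) = x) (hb : P.Best S e ρ X μ w ν) {j : J} {x y : V} {o : Bool}
    (h : Rq P S e ρ X μ ν j x o) (hx : μ (vx x) ≠ vx x) (hy : Fr S μ ν y)
    (hc : P.col j (!o) y) (hl : ¬ P.heavy e ρ y) : False := by
  refine no_swing hμ hb (a := ag j) (c := vx y) (by rw [h.k]; simp) hy.a hy.b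
    (by rw [h.k]; exact h.nw) (by rw [h.k]; exact hx)
    ⟨h.A, hy.W, Or.inr ⟨h.nc, h.geo, ⟨o, h.rig, hc⟩, hl, hy.nq⟩⟩
    (fun i v i1 i2 => ⟨h.lne i1 i2, by rw [h.k]; simp⟩) (fun i hi => ?_) (fun v hv => ?_)
  · rw [h.k] at hi
    exact absurd hi (by simp)
  · rw [h.k] at hv
    have : x = v := by simpa using hv
    exact this ▸ h.nq

theorem pe_swing (hμ : ∀ x, μ (μ x) = x) (hb : P.Best S e ρ X μ w ν) {j : J} {x y : V} {o : Bool}
    (h : Rq P S e ρ X μ ν j x o) (hj : μ (ag j) ≠ ag j) (hz : ¬ X.zs x) (hm : ¬ X.mc j)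
    (hp : X.pe) (hy : Fr S μ ν y) (hq : P.Q0 e ρ y) (hn : ¬ P.HH y x) : False := by
  have k := h.k' hb.1.1.1
  refine no_swing hμ hb (a := vx x) (c := vx y) (by rw [k]; simp) hy.a hy.b
    (by rw [k]; exact fun he => h.nw (by rw [← he, hμ])) (by rw [k]; exact hj)
    ⟨h.W, hy.W, hp, Or.inr ⟨⟨hq, h.li, hn, hy.nq, h.nq⟩, hz⟩⟩
    (fun i v i1 i2 => ⟨by simp, by rw [k]; exact h.lne i1 i2⟩) (fun i hi => ?_) (fun v hv => ?_)
  · rw [k] at hi
    have : j = i := by simpa using hi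
    exact this ▸ ⟨⟨h.geo, o, h.rig⟩, hm⟩
  · rw [k] at hv
    exact absurd hv (by simp)

/-- A refused free item that is neither heavy nor junk is a majority item adjacent to the key. -/
theorem refused (hf : P.Frame e ρ) (hμ : ∀ x, μ (μ x) = x) (hb : P.Best S e ρ X μ w ν) {j : J}
    {x y : V} {o : Bool} (h : Rq P S e ρ X μ ν j x o) (hx : μ (vx x) ≠ vx x) (hy : Fr S μ ν y)
    (hr : ¬ P.Ok j x y) (hq : ¬ P.Q0 e ρ y) (hj : ¬ P.junk j y) : P.adj j o y ∧ P.HH x y := by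
  rcases Geo.label (P := P) j o y with a | a | a | a
  · exact absurd (Or.inr (Or.inl a)) hr
  · refine ⟨a.1, by_contra fun hn => hr (Or.inr (Or.inr (Geo.Pr_symm ?_)))⟩
    exact Geo.Pr_of_col a h.col fun hh => hn (Geo.HH_symm hh)
  · exact (nc_swing hμ hb h hx hy a fun hh =>
      hq (Geo.Q0_of_heavy hf h.rig.1 (by simpa using a.2) hh)).elim
  · exact absurd a hj

theorem en_other (hw : P.Wf S) {j j' : J} {x x' y y' : V} {o o' : Bool}
    (h : Rq P S e ρ X μ ν j x o) (h' : Rq P S e ρ X μ ν j' x' o') (hy : y ≠ y')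
    (a1 : P.adj j o y) (a2 : P.adj j o y') (b1 : P.HH x y) (b2 : P.HH x y') (c1 : P.HH x' y)
    (c2 : P.HH x' y') : P.En S e ρ X (ag j) (vx x') := by
  have n1 : ¬ P.HH y y' := fun hh => h.col.2 (by simpa using Geo.adj_of_edge hh a1 a2 b1 b2)
  have n2 := Geo.not_adj_of_two hy n1 a1 a2 c1 c2
  refine ⟨h.A, h'.W, ?_⟩
  by_cases n3 : P.adj j (!o) x'
  · exact Or.inr ⟨h.nc, h.geo, ⟨o, h.rig, n3, by simpa using n2⟩, h'.li, h'.nq⟩
  · exact Or.inl ((hw j h.geo x').2 (Geo.C_of n2 n3))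

theorem rectA (hC : CompStmt) {B : Finset J} {g : J → Sv V} {K q0 : ℕ}
    (hcx : P.Ctx S e ρ B g μ) (hb : P.Best S e ρ X μ w ν) (hK : (ncomp μ ν).card ≤ K)
    (hz : ∀ z z', X.zs z → X.zs z' → z = z')
    (hm : ∀ j j', P.rigid S e ρ j → P.rigid S e ρ j' → X.mc j → X.mc j' → j = j')
    (hq : X.pe ∨ ¬ X.nc ∨
      ((PoolS S B g μ ν).filter fun v => μ (vx v) = vx v ∧ P.Q0 e ρ v).card ≤ q0) :
    P.RectA S B g μ ν (6 * K + 3) (q0 + 10) := by
  intro R hR Y hY hYμ href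
  by_contra hcon
  push Not at hcon
  obtain ⟨hRc, hYc⟩ := hcon
  have hμ := hcx.im.1
  have hν := hb.1.1.1
  have hf := hcx.fr
  have hfr : ∀ y ∈ Y, Fr S μ ν y := fun y hy => by
    obtain ⟨a1, a2, -⟩ := mem_filter.1 (hY hy)
    exact ⟨a1, a2, hYμ y hy, fun hq => hb.1.2.2.2.2 y a1 hq a2⟩
  obtain ⟨y0, -⟩ : Y.Nonempty := card_pos.1 (by omega)
  have hex : ∀ j, ∃ x o, j ∈ R → Rq P S e ρ X μ ν j x o := fun j => by
    by_cases hj : j ∈ R
    · obtain ⟨x, o, h⟩ := rq_of hb (hR hj)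
      exact ⟨x, o, fun _ => h⟩
    · exact ⟨y0, true, fun h => absurd h hj⟩
  choose kx ko hk using hex
  have hinj : ∀ i ∈ R, ∀ j ∈ R, kx i = kx j → i = j := fun i hi j hj h => by
    have h1 := (hk i hi).k' hν
    rw [h, (hk j hj).k' hν] at h1
    exact (Sum.inl_injective h1).symm
  -- exceptional requests
  have e1 : (R.filter fun j => μ (ag j) = ag j ∨ μ (vx (kx j)) = vx (kx j)).card ≤ 2 * K := by
    have h1 := (hC (Nd J V) μ ν hμ hν).2.2.2.2.2.1
    refine le_trans (card_le_card_of_injOn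
      (fun j => if μ (ag j) = ag j then (ag j : Nd J V) else vx (kx j)) (t := ends μ ν)
      (fun j hj => ?_) (fun i hi j hj hij => ?_)) (by omega)
    · obtain ⟨j1, j2⟩ := mem_filter.1 (mem_coe.1 hj)
      simp only [ends, coe_filter, mem_univ, true_and, Set.mem_ofPred_eq]
      split_ifs with h
      · exact Or.inl ⟨h, by rw [(hk j j1).k]; simp⟩
      · exact Or.inl ⟨j2.resolve_left h, by rw [(hk j j1).k' hν]; simp⟩
    · have i1 := (mem_filter.1 (mem_coe.1 hi)).1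
      have j1 := (mem_filter.1 (mem_coe.1 hj)).1
      simp only at hij
      split_ifs at hij
      · exact Sum.inl_injective hij
      · exact hinj i i1 j j1 (by simpa using hij)
  have e2 : (R.filter fun j => X.zs (kx j)).card ≤ 1 := card_le_one.2 fun i hi j hj => by
    rw [mem_filter] at hi hj
    exact hinj i hi.1 j hj.1 (hz _ _ hi.2 hj.2)
  have e3 : (R.filter fun j => X.mc j).card ≤ 1 := card_le_one.2 fun i hi j hj => by
    rw [mem_filter] at hi hj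
    exact hm i j ⟨(hk i hi.1).geo, _, (hk i hi.1).rig⟩ ⟨(hk j hj.1).geo, _, (hk j hj.1).rig⟩
      hi.2 hj.2
  set R' := R.filter fun j => μ (ag j) ≠ ag j ∧ μ (vx (kx j)) ≠ vx (kx j) ∧ ¬ X.zs (kx j) ∧
    ¬ X.mc j with hR'
  have e4 : 2 * K * 2 < R'.card := by
    have h1 : R ⊆ R' ∪ ((R.filter fun j => μ (ag j) = ag j ∨ μ (vx (kx j)) = vx (kx j)) ∪
        ((R.filter fun j => X.zs (kx j)) ∪ R.filter fun j => X.mc j)) := fun j hj => by
      simp only [hR', mem_union, mem_filter]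
      tauto
    have h2 := card_le_card h1
    have h3 := card_union_le R' ((R.filter fun j => μ (ag j) = ag j ∨
      μ (vx (kx j)) = vx (kx j)) ∪ ((R.filter fun j => X.zs (kx j)) ∪ R.filter fun j => X.mc j))
    have h4 := card_union_le (R.filter fun j => μ (ag j) = ag j ∨ μ (vx (kx j)) = vx (kx j))
      ((R.filter fun j => X.zs (kx j)) ∪ R.filter fun j => X.mc j)
    have h5 := card_union_le (R.filter fun j => X.zs (kx j)) (R.filter fun j => X.mc j)
    omega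
  obtain ⟨χ, hχ⟩ := no_cross hC hμ hb
  obtain ⟨T, hT, hTc, hcl⟩ := pigeon χ hK R' (fun j => (ag j : Nd J V))
    (fun j hj => by
      have := hk j (mem_filter.1 hj).1
      rw [this.k]
      exact this.nw) e4
  obtain ⟨j1, m1, j2, m2, j3, m3, n12, n13, n23⟩ := two_lt_card.1 hTc
  have hTR : ∀ j ∈ T, j ∈ R := fun j hj => (mem_filter.1 (hT hj)).1
  -- heavy items
  set Y' := Y.filter fun y => ¬ P.Q0 e ρ y with hY'
  have f1 : (Y.filter fun y => P.Q0 e ρ y).card ≤ q0 + 1 := by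
    have r1 := hk j1 (hTR j1 m1)
    obtain ⟨-, s1, -, s3, s4⟩ := mem_filter.1 (hT m1)
    rcases hq with hq | hq | hq
    · have : (Y.filter fun y => P.Q0 e ρ y).card ≤ 1 := card_le_one.2 fun y hy y' hy' => by
        rw [mem_filter] at hy hy'
        by_contra hne
        have ad : ∀ u ∈ Y, P.Q0 e ρ u → P.adj j1 (!ko j1) u ∧ P.HH (kx j1) u := fun u hu hqu => by
          refine ⟨by_contra fun hn => href j1 (hTR j1 m1) _ r1.k u hu
            (Or.inr (Or.inl (Geo.C_of (Geo.Q0_not_adj hf r1.rig.1 hqu) hn))),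
            by_contra fun hn => ?_⟩
          exact pe_swing hμ hb r1 s1 s3 s4 hq (hfr u hu) hqu fun hh => hn (Geo.HH_symm hh)
        exact Geo.Q0_indep hf hy.2 hy'.2 (Geo.cluster r1.col.1 (ad y hy.1 hy.2).1
          (ad y' hy'.1 hy'.2).1 (ad y hy.1 hy.2).2 (ad y' hy'.1 hy'.2).2 hne)
      omega
    · exact absurd r1.nc hq
    · refine le_trans (card_le_card fun y hy => ?_) (hq.trans (Nat.le_succ _))
      rw [mem_filter] at hy ⊢
      exact ⟨hY hy.1, hYμ y hy.1, hy.2⟩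
  have f2 : 9 ≤ Y'.card := by
    have := card_filter_add_card_filter_not (s := Y) (fun y => P.Q0 e ρ y)
    rw [← hY'] at this
    omega
  have g1 : ∀ i ∈ T, ∀ j ∈ T, i ≠ j →
      (Y'.filter fun y => P.junk i y ↔ P.junk j y).card ≤ 2 := fun i hi j hj hij => by
    have ri := hk i (hTR i hi)
    have rj := hk j (hTR j hj)
    have c1 : (Y'.filter fun y => P.junk i y ∧ P.junk j y).card ≤ 1 :=
      card_le_one.2 fun y hy y' hy' => by
        rw [mem_filter] at hy hy'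
        exact Geo.rig_junk hf hij ri.rig rj.rig hy.2.1 hy'.2.1 hy.2.2 hy'.2.2
    have c2 : (Y'.filter fun y => ¬ P.junk i y ∧ ¬ P.junk j y).card ≤ 1 :=
      card_le_one.2 fun y hy y' hy' => by
        rw [mem_filter] at hy hy'
        by_contra hne
        have ad : ∀ k ∈ T, ∀ u ∈ Y', ¬ P.junk k u → P.adj k (ko k) u ∧ P.HH (kx k) u :=
          fun k hkT u hu hju => by
            rw [hY', mem_filter] at hu
            exact refused hf hμ hb (hk k (hTR k hkT)) (mem_filter.1 (hT hkT)).2.2.1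
              (hfr u hu.1) (href k (hTR k hkT) _ (hk k (hTR k hkT)).k u hu.1) hu.2 hju
        have a1 := ad i hi y hy.1 hy.2.1
        have a2 := ad i hi y' hy'.1 hy'.2.1
        have a3 := ad j hj y hy.1 hy.2.2
        have a4 := ad j hj y' hy'.1 hy'.2.2
        refine hχ (ag i) (ag j) (fun h => hij (Sum.inl_injective h)) (hcl i hi j hj).2
          (hcl i hi j hj).1 (by rw [ri.k]; simp) (by rw [rj.k]; simp) (by rw [ri.k]; exact ri.nw)
          (by rw [rj.k]; exact rj.nw) ?_ ?_ fun k v k1 k2 =>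
            ⟨ri.lne k1 k2, rj.lne k1 k2, by rw [ri.k]; simp, by rw [rj.k]; simp⟩
        · rw [rj.k]
          exact en_other hcx.wf ri rj hne a1.1 a2.1 a1.2 a2.2 a3.2 a4.2
        · rw [ri.k]
          exact en_other hcx.wf rj ri hne a3.1 a4.1 a3.2 a4.2 a1.2 a2.2
    have c3 : (Y'.filter fun y => P.junk i y ↔ P.junk j y) ⊆
        (Y'.filter fun y => P.junk i y ∧ P.junk j y) ∪
          Y'.filter fun y => ¬ P.junk i y ∧ ¬ P.junk j y := fun y hy => by
      simp only [mem_union, mem_filter] at hy ⊢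
      tauto
    have c4 := card_le_card c3
    have c5 := card_union_le (Y'.filter fun y => P.junk i y ∧ P.junk j y)
      (Y'.filter fun y => ¬ P.junk i y ∧ ¬ P.junk j y)
    omega
  have g2 : Y' ⊆ (Y'.filter fun y => P.junk j1 y ↔ P.junk j2 y) ∪
      ((Y'.filter fun y => P.junk j1 y ↔ P.junk j3 y) ∪
        Y'.filter fun y => P.junk j2 y ↔ P.junk j3 y) := fun y hy => by
    simp only [mem_union, mem_filter, hy, true_and]
    tauto
  have g3 := card_le_card g2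
  have g4 := card_union_le (Y'.filter fun y => P.junk j1 y ↔ P.junk j2 y)
    ((Y'.filter fun y => P.junk j1 y ↔ P.junk j3 y) ∪
      Y'.filter fun y => P.junk j2 y ↔ P.junk j3 y)
  have g5 := card_union_le (Y'.filter fun y => P.junk j1 y ↔ P.junk j3 y)
    (Y'.filter fun y => P.junk j2 y ↔ P.junk j3 y)
  have g6 := g1 j1 m1 j2 m2 n12
  have g7 := g1 j1 m1 j3 m3 n13
  have g8 := g1 j2 m2 j3 m3 n23
  omega

theorem jointB (hC : CompStmt) {B : Finset J} {g : J → Sv V} {K : ℕ}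
    (hcx : P.Ctx S e ρ B g μ) (hb : P.Best S e ρ X μ w ν) (hK : (ncomp μ ν).card ≤ K) :
    P.JointB S e ρ μ ν (2 * K) := by
  intro j j' hjj ⟨_, o, ho⟩ ⟨_, o', ho'⟩
  by_contra hcon
  push Not at hcon
  have hμ := hcx.im.1
  have hf := hcx.fr
  obtain ⟨χ, hχ⟩ := no_cross hC hμ hb
  obtain ⟨T, hT, hTc, hcl⟩ := pigeon (n := 1) χ hK
    (univ.filter fun q => P.Q0 e ρ q ∧ ∃ z, z ≠ q ∧ ν (vx q) = vx z ∧ μ (vx q) ≠ vx z ∧
      ¬ P.Ok j q z ∧ ¬ P.Ok j' q z) (fun q => (vx q : Nd J V))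
    (fun q hq => by
      obtain ⟨-, -, z, -, a2, a3, -⟩ := mem_filter.1 hq
      rw [a2]
      exact a3) (by rw [mul_one]; exact hcon)
  have key : ∀ q ∈ T, ∃ z, z ≠ q ∧ ν (vx q) = vx z ∧ μ (vx q) ≠ vx z ∧ q ∈ S.W ∧ z ∈ S.W ∧
      X.pe ∧ P.peE S e ρ q z ∧ ¬ X.zs z ∧ P.adj j (!o) q ∧ P.adj j' (!o') q ∧ P.adj j (!o) z ∧
      P.adj j' (!o') z := fun q hq => by
    obtain ⟨-, a0, z, a1, a2, a3, a4, a5⟩ := mem_filter.1 (hT hq)
    have h4 := hb.1.1.2 (vx q) (by rw [a2]; simpa using a1)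
    rw [a2] at h4
    rcases h4 with ⟨b1, b2, b3, b4⟩ | h4
    · rcases b4 with ⟨b4, b5⟩ | ⟨b4, -⟩
      · have k1 : ∀ i p, P.rig e ρ i p → ¬ P.Ok i q z → P.adj i (!p) q ∧ P.adj i (!p) z :=
          fun i p hp hn => by
            refine ⟨by_contra fun hh => hn (Or.inl (Geo.C_of (Geo.Q0_not_adj hf hp.1 a0) hh)), ?_⟩
            rcases Geo.pe_cases hf hp b4 with c | c | c
            · exact absurd c hn
            · exact Geo.junk_adj c _
            · exact c.1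
        exact ⟨z, a1, a2, a3, b1, b2, b3, b4, b5, (k1 j o ho a4).1, (k1 j' o' ho' a5).1,
          (k1 j o ho a4).2, (k1 j' o' ho' a5).2⟩
      · exact absurd a0.2 b4.2.1
    · exact absurd h4 a3
  obtain ⟨q1, m1, q2, m2, hne⟩ := one_lt_card.1 hTc
  obtain ⟨z1, a1, a2, a3, a4, a5, a6, a7, a8, a9, a10, a11, a12⟩ := key q1 m1
  obtain ⟨z2, b1, b2, b3, b4, b5, -, b7, b8, b9, b10, b11, b12⟩ := key q2 m2
  have ht : (j, !o) ≠ (j', !o') := fun h => hjj (congrArg Prod.fst h)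
  have ind : ∀ u v, P.adj j (!o) u → P.adj j' (!o') u → P.adj j (!o) v → P.adj j' (!o') v →
      ¬ P.HH u v := fun u v c1 c2 c3 c4 =>
    Geo.ind_t ht a9 a10 a11 a12 a1.symm a7.2.2.1 c1 c2 c3 c4
  refine hχ (vx q1) (vx q2) (by simpa using hne) (hcl q1 m1 q2 m2).2 (hcl q1 m1 q2 m2).1
    (by rw [a2]; simpa using a1) (by rw [b2]; simpa using b1) (by rw [a2]; exact a3)
    (by rw [b2]; exact b3) ?_ ?_ fun k v _ _ =>
      ⟨by simp, by simp, by rw [a2]; simp, by rw [b2]; simp⟩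
  · rw [b2]
    exact ⟨a4, b5, a6, Or.inl ⟨⟨a7.1, b7.2.1, ind _ _ a9 a10 b11 b12, a7.2.2.2.1, b7.2.2.2.2⟩, b8⟩⟩
  · rw [a2]
    exact ⟨b4, a5, a6, Or.inl ⟨⟨b7.1, a7.2.1, ind _ _ b9 b10 a11 a12, b7.2.2.2.1, a7.2.2.2.2⟩, a8⟩⟩

end DOpt

theorem optStmt (hC : CompStmt) : OptStmt :=
  fun _ _ _ _ _ _ _ _ _ _ _ _ _ _ _ _ _ _ hcx hb hK hz hm hq =>
    ⟨DOpt.rectA hC hcx hb hK hz hm hq, DOpt.jointB hC hcx hb hK⟩

end Pool.Agent.Lib.MP_ef7581_lc.D2
end

-- part Pool.Agent.Lib.MP_ef7581_lc.DOwn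
section

/-!
Assignment of pair edges to uncovered agents by two Hall arguments.
-/

set_option autoImplicit false
set_option linter.unusedSectionVars false

namespace Pool.Agent.Lib.MP_ef7581_lc.D2

open Finset Classical

namespace DOwn

section Abs

variable {α β : Type}

/-- A matching of `A` into `E` along `R`. -/
def PM (A : Finset α) (E : Finset β) (R : α → β → Prop) : Prop :=
  ∃ f : α → Option β, (∀ x ∈ A, ∃ y ∈ E, f x = some y ∧ R x y) ∧
    ∀ x ∈ A, ∀ x' ∈ A, f x = f x' → x = x'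

theorem PM.mono {A : Finset α} {E E' : Finset β} {R R' : α → β → Prop} (h : PM A E R)
    (hE : E ⊆ E') (hR : ∀ x ∈ A, ∀ y, R x y → R' x y) : PM A E' R' := by
  obtain ⟨f, h1, h2⟩ := h
  refine ⟨f, fun x hx => ?_, h2⟩
  obtain ⟨y, hy, e, r⟩ := h1 x hx
  exact ⟨y, hE hy, e, hR x hx y r⟩

theorem PM.union [DecidableEq α] [DecidableEq β] {A A' : Finset α} {E E' : Finset β}
    {R : α → β → Prop} (h : PM A E R) (h' : PM A' E' R) (hd : Disjoint E E') :
    PM (A ∪ A') (E ∪ E') R := by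
  obtain ⟨f, h1, h2⟩ := h
  obtain ⟨f', h1', h2'⟩ := h'
  have cr : ∀ x ∈ A, ∀ x' ∈ A', f x ≠ f' x' := fun x hx x' hx' e => by
    obtain ⟨y, hy, e1, -⟩ := h1 x hx
    obtain ⟨y', hy', e2, -⟩ := h1' x' hx'
    rw [e1, e2] at e
    exact disjoint_left.1 hd hy (Option.some.inj e ▸ hy')
  refine ⟨fun x => if x ∈ A then f x else f' x, fun x hx => ?_, fun x hx x' hx' e => ?_⟩
  · by_cases a : x ∈ A
    · obtain ⟨y, hy, e, r⟩ := h1 x a
      exact ⟨y, mem_union_left _ hy, by simp [a, e], r⟩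
    · obtain ⟨y, hy, e, r⟩ := h1' x ((mem_union.1 hx).resolve_left a)
      exact ⟨y, mem_union_right _ hy, by simp [a, e], r⟩
  · by_cases a : x ∈ A <;> by_cases a' : x' ∈ A <;> simp only [a, a', if_true, if_false] at e
    · exact h2 x a x' a' e
    · exact absurd e (cr x a x' ((mem_union.1 hx').resolve_left a'))
    · exact absurd e.symm (cr x' a' x ((mem_union.1 hx).resolve_left a))
    · exact h2' x ((mem_union.1 hx).resolve_left a) x' ((mem_union.1 hx').resolve_left a') e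

theorem PM.of_rel {A : Finset α} {E : Finset β} {R : α → β → Prop}
    (h1 : ∀ x ∈ A, ∃ y ∈ E, R x y) (h2 : ∀ x x' y, R x y → R x' y → x = x') : PM A E R := by
  choose f hf using h1
  refine ⟨fun x => if h : x ∈ A then some (f x h) else none, fun x hx => ?_,
    fun x hx x' hx' e => ?_⟩
  · exact ⟨f x hx, (hf x hx).1, by simp [hx], (hf x hx).2⟩
  · simp only [hx, hx', dif_pos, Option.some.injEq] at e
    exact h2 x x' _ (hf x hx).2 (e ▸ (hf x' hx').2)

theorem card_le_rel {s : Finset α} {t : Finset β} (r : α → β → Prop)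
    (h1 : ∀ x ∈ s, ∃ y ∈ t, r x y)
    (h2 : ∀ x ∈ s, ∀ x' ∈ s, ∀ y, r x y → r x' y → x = x') : s.card ≤ t.card :=
  card_le_card_of_forall_subsingleton r h1 fun y _ x hx x' hx' =>
    h2 x hx.1 x' hx'.1 y hx.2 hx'.2

theorem card_eq_rel {s : Finset α} {t : Finset β} (r : α → β → Prop)
    (h1 : ∀ x ∈ s, ∃ y ∈ t, r x y) (h1' : ∀ y ∈ t, ∃ x ∈ s, r x y)
    (h2 : ∀ x ∈ s, ∀ x' ∈ s, ∀ y, r x y → r x' y → x = x')
    (h2' : ∀ y ∈ t, ∀ y' ∈ t, ∀ x, r x y → r x y' → y = y') : s.card = t.card :=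
  le_antisymm (card_le_rel r h1 h2) (card_le_rel (fun y x => r x y) h1' h2')

theorem hall2 [DecidableEq α] [DecidableEq β] (hH : HallStmt) {s : Finset α} {t : Finset β}
    {R : α → β → Prop} {d : ℕ} (hc : s.card = t.card)
    (h : ∀ A ⊆ s, A.card ≤ d ∨ ∀ M ⊆ t, (∀ y ∈ M, ∀ x ∈ A, ¬ R x y) →
      M.card + A.card ≤ d + s.card) :
    ∃ s' ⊆ s, ∃ t' ⊆ t, (s \ s').card = (t \ t').card ∧ (s \ s').card ≤ d ∧ PM s' t' R := by
  obtain ⟨s', f, h1, h2, h3, h4⟩ := hH α β s t R d fun A hA => by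
    rcases h A hA with h | h
    · omega
    · have a1 := h (t.filter fun y => ¬ ∃ x ∈ A, R x y) (filter_subset _ _) fun y hy x hx r =>
        (mem_filter.1 hy).2 ⟨x, hx, r⟩
      have a2 := card_filter_add_card_filter_not (s := t) (fun y => ∃ x ∈ A, R x y)
      omega
  have e : s'.card = (t.filter fun y => ∃ x ∈ s', f x = some y).card := by
    refine card_eq_rel (fun x y => f x = some y) (fun x hx => ?_) (fun y hy => ?_)
      (fun x hx x' hx' y e e' => h4 x hx x' hx' (e.trans e'.symm))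
      fun y _ y' _ x e e' => Option.some.inj (e.symm.trans e')
    · obtain ⟨y, hy, e, -⟩ := h3 x hx
      exact ⟨y, mem_filter.2 ⟨hy, x, hx, e⟩, e⟩
    · exact (mem_filter.1 hy).2
  refine ⟨s', h1, _, filter_subset (fun y => ∃ x ∈ s', f x = some y) t, ?_, ?_, f,
    fun x hx => ?_, h4⟩
  · rw [card_sdiff_of_subset h1, card_sdiff_of_subset (filter_subset _ _), hc, e]
  · rw [card_sdiff_of_subset h1]
    omega
  · obtain ⟨y, hy, e, r⟩ := h3 x hx
    exact ⟨y, mem_filter.2 ⟨hy, x, hx, e⟩, e, r⟩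

theorem pm_all [DecidableEq α] [DecidableEq β] (hH : HallStmt) {s : Finset α} {t : Finset β}
    (hc : s.card = t.card) : PM s t fun _ _ => True := by
  obtain ⟨s', h1, t', h2, -, h4, h5⟩ := hall2 hH (R := fun _ _ => True) (d := 0) hc
    fun A hA => by
      rcases A.eq_empty_or_nonempty with rfl | ⟨x, hx⟩
      · simp
      · refine Or.inr fun M _ hM => ?_
        have : M = ∅ := eq_empty_of_forall_notMem fun y hy => hM y hy x hx trivial
        have := card_le_card hA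
        simp only [*, card_empty]
        omega
  have : s' = s := Subset.antisymm h1 (sdiff_eq_empty_iff_subset.1 (card_eq_zero.1 (by omega)))
  exact this ▸ h5.mono h2 fun _ _ _ h => h

end Abs

variable {J V : Type} [Fintype J] [Fintype V] [DecidableEq J] [DecidableEq V]
variable {P : Geo J V} {S : Sub J V} {e : ℕ} {ρ : Finset V} {B : Finset J} {g : J → Sv V}
  {μ ν : Nd J V → Nd J V} {Hh Hi : Finset (J × V × V)} {nE a3 δ : ℕ}

/-- Uncovered agents. -/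
noncomputable def OO (S : Sub J V) (ν : Nd J V → Nd J V) : Finset J :=
  S.A.filter fun j => ν (ag j) = ag j

/-- Pair edges, heavy end first. -/
noncomputable def EE (P : Geo J V) (e : ℕ) (ρ : Finset V) (ν : Nd J V → Nd J V) :
    Finset (V × V) :=
  univ.filter fun p => P.Q0 e ρ p.1 ∧ p.2 ≠ p.1 ∧ ν (vx p.1) = vx p.2

theorem mem_OO {j : J} : j ∈ OO S ν ↔ j ∈ S.A ∧ ν (ag j) = ag j := mem_filter

theorem mem_EE {p : V × V} :
    p ∈ EE P e ρ ν ↔ P.Q0 e ρ p.1 ∧ p.2 ≠ p.1 ∧ ν (vx p.1) = vx p.2 := by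
  simp [EE]

theorem vx_inj {u v : V} (h : (vx u : Nd J V) = vx v) : u = v :=
  Sum.inl.inj (Sum.inr.inj h)

theorem pe_edge {X : Ax J V} (hm : IsM (P.En S e ρ X) ν) {u v : V} (h : v ≠ u)
    (hν : ν (vx u) = vx v) : u ∈ S.W ∧ v ∈ S.W ∧ (P.peE S e ρ u v ∨ P.peE S e ρ v u) := by
  have := hm.2 (vx u) (by rw [hν]; exact fun e => h (vx_inj e))
  rw [hν] at this
  exact ⟨this.1, this.2.1, this.2.2.2.imp And.left And.left⟩

theorem EE_pe {X : Ax J V} (hm : IsM (P.En S e ρ X) ν) {p : V × V} (h : p ∈ EE P e ρ ν) :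
    p.1 ∈ S.W ∧ p.2 ∈ S.W ∧ P.peE S e ρ p.1 p.2 := by
  obtain ⟨h1, h2, h3⟩ := mem_EE.1 h
  obtain ⟨a1, a2, a3⟩ := pe_edge hm h2 h3
  exact ⟨a1, a2, a3.resolve_right fun h => h.2.1 h1.2⟩

theorem EE_fst {p p' : V × V} (h : p ∈ EE P e ρ ν) (h' : p' ∈ EE P e ρ ν) (e1 : p.1 = p'.1) :
    p = p' :=
  Prod.ext e1 (vx_inj (J := J) ((mem_EE.1 h).2.2.symm.trans (e1 ▸ (mem_EE.1 h').2.2)))

theorem EE_snd (hν : ∀ x, ν (ν x) = x) {p p' : V × V} (h : p ∈ EE P e ρ ν) (h' : p' ∈ EE P e ρ ν)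
    (e2 : p.2 = p'.2) : p = p' := by
  refine Prod.ext (vx_inj (J := J) ?_) e2
  rw [← hν (vx p.1), ← hν (vx p'.1), (mem_EE.1 h).2.2, (mem_EE.1 h').2.2, e2]

theorem card_OO (hP : PeStmt) {X : Ax J V} (hm : IsM (P.En S e ρ X) ν)
    (hs : cov ν = 2 * S.A.card) : (OO S ν).card = (EE P e ρ ν).card := by
  have h1 := ((hP J V).1 ν hm.1 (Geo.En_shape hm)).1
  have h2 : (univ.filter fun j : J => ν (ag j) ≠ ag j) =
      S.A.filter fun j => ¬ ν (ag j) = ag j := by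
    ext j
    simp only [mem_filter, mem_univ, true_and, ne_eq, iff_and_self]
    intro hj
    have := hm.2 (ag j) hj
    generalize ν (ag j) = y at this
    rcases y with i | v | i
    · exact this.elim
    · exact this.1
    · exact this.2.1
  have h3 := card_filter_add_card_filter_not (s := S.A) (fun j => ν (ag j) = ag j)
  set N := univ.filter fun v : V => vx v ∈ (univ : Finset (Nd J V)) ∧
    ∃ u, u ≠ v ∧ ν (vx v) = vx u with hN
  have h4 : npe ν univ = N.card := by unfold npe; congr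
  have mN : ∀ v, v ∈ N ↔ ∃ u, u ≠ v ∧ ν (vx v) = vx u := fun v => by simp [hN]
  have h5 := card_filter_add_card_filter_not (s := N) (fun v => P.Q0 e ρ v)
  have h6 : (N.filter fun v => P.Q0 e ρ v).card = (EE P e ρ ν).card := by
    refine card_eq_rel (fun v p => p.1 = v) (fun v hv => ?_) (fun p hp => ?_)
      (fun _ _ _ _ _ a b => a.symm.trans b) fun p hp p' hp' v a b => EE_fst hp hp' (a.trans b.symm)
    · obtain ⟨a, b⟩ := mem_filter.1 hv
      obtain ⟨u, c, d⟩ := (mN v).1 a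
      exact ⟨(v, u), mem_EE.2 ⟨b, c, d⟩, rfl⟩
    · obtain ⟨a, b, c⟩ := mem_EE.1 hp
      exact ⟨p.1, mem_filter.2 ⟨(mN _).2 ⟨p.2, b, c⟩, a⟩, rfl⟩
  have h7 : (N.filter fun v => ¬ P.Q0 e ρ v).card = (EE P e ρ ν).card := by
    refine card_eq_rel (fun v p => p.2 = v) (fun v hv => ?_) (fun p hp => ?_)
      (fun _ _ _ _ _ a b => a.symm.trans b)
      fun p hp p' hp' v a b => EE_snd hm.1 hp hp' (a.trans b.symm)
    · obtain ⟨a, b⟩ := mem_filter.1 hv
      obtain ⟨u, c, d⟩ := (mN v).1 a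
      have := ((pe_edge hm c d).2.2.resolve_left fun h => b h.1).1
      exact ⟨(u, v), mem_EE.2 ⟨this, c.symm, by rw [← d, hm.1]⟩, rfl⟩
    · obtain ⟨a, b, c⟩ := mem_EE.1 hp
      exact ⟨p.2, mem_filter.2 ⟨(mN _).2 ⟨p.1, b.symm, by rw [← c, hm.1]⟩,
        fun h => (EE_pe hm hp).2.2.2.1 h.2⟩, rfl⟩
  rw [h2] at h1
  unfold OO
  omega

theorem old_unique {j : J} {q z q' z' : V} (h : P.OldP e ρ B g j q z)
    (h' : P.OldP e ρ B g j q' z') : q = q' ∧ z = z' := by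
  obtain ⟨-, a, b, o, h1, h2, rfl, rfl, -⟩ := h
  obtain ⟨-, a', b', o', h1', h2', rfl, rfl, -⟩ := h'
  obtain rfl := Geo.rig_unique h2 h2'
  rw [h1] at h1'
  obtain ⟨rfl, rfl⟩ := Sv.two.inj h1'
  exact ⟨rfl, rfl⟩

theorem old_mem {j : J} {q z : V} (h : P.OldP e ρ B g j q z) : q ∈ (g j).its := by
  obtain ⟨-, a, b, o, h1, -, rfl, -⟩ := h
  rw [h1]
  cases o <;> simp [mi, Sv.its]

theorem old_owner (hs : P.PSt S B g) {j j' : J} {q z z' : V} (h : P.OldP e ρ B g j q z)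
    (h' : P.OldP e ρ B g j' q z') : j = j' := by
  by_contra hne
  exact disjoint_left.1 (hs.dis j h.1 j' h'.1 hne) (old_mem h) (old_mem h')

/-- Edges of the helpers. -/
def HE (H : Finset (J × V × V)) : Finset (V × V) := H.image fun s => s.2

theorem mem_HE {H : Finset (J × V × V)} {p : V × V} : p ∈ HE H ↔ ∃ s ∈ H, s.2 = p := mem_image

theorem mem_ag2 {H : Finset (J × V × V)} {j : J} : j ∈ ag2 H ↔ ∃ s ∈ H, s.1 = j := mem_image

theorem dis_fst (h : Dis2 Hh) {s s' : J × V × V} (hs : s ∈ Hh) (hs' : s' ∈ Hh)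
    (e1 : s.2.1 = s'.2.1) : s = s' := by
  by_contra hne
  exact disjoint_left.1 (h s hs s' hs' hne).2 (mem_insert_self _ _) (e1 ▸ mem_insert_self _ _)

theorem dis_snd (h : Dis2 Hh) {s s' : J × V × V} (hs : s ∈ Hh) (hs' : s' ∈ Hh)
    (e1 : s.2.2 = s'.2.2) : s = s' := by
  by_contra hne
  exact disjoint_left.1 (h s hs s' hs' hne).2 (mem_insert_of_mem (mem_singleton_self _))
    (e1 ▸ mem_insert_of_mem (mem_singleton_self _))

theorem ed_fst (c : P.RCtx S e ρ B g μ ν Hh Hi nE a3 δ) {p p' : V × V}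
    (h : p ∈ EE P e ρ ν ∪ HE Hh) (h' : p' ∈ EE P e ρ ν ∪ HE Hh) (e1 : p.1 = p'.1) : p = p' := by
  rcases mem_union.1 h with h | h <;> rcases mem_union.1 h' with h' | h'
  · exact EE_fst h h' e1
  · obtain ⟨s, hs, rfl⟩ := mem_HE.1 h'
    exact absurd (e1 ▸ (EE_pe c.m h).1) (c.hp.1 s hs).2.2.1
  · obtain ⟨s, hs, rfl⟩ := mem_HE.1 h
    exact absurd (e1 ▸ (EE_pe c.m h').1) (c.hp.1 s hs).2.2.1
  · obtain ⟨s, hs, rfl⟩ := mem_HE.1 h
    obtain ⟨s', hs', rfl⟩ := mem_HE.1 h'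
    rw [dis_fst c.hp.2 hs hs' e1]

theorem ed_snd (c : P.RCtx S e ρ B g μ ν Hh Hi nE a3 δ) {p p' : V × V}
    (h : p ∈ EE P e ρ ν ∪ HE Hh) (h' : p' ∈ EE P e ρ ν ∪ HE Hh) (e1 : p.2 = p'.2) : p = p' := by
  rcases mem_union.1 h with h | h <;> rcases mem_union.1 h' with h' | h'
  · exact EE_snd c.m.1 h h' e1
  · obtain ⟨s, hs, rfl⟩ := mem_HE.1 h'
    exact absurd (e1 ▸ (EE_pe c.m h).2.1) (c.hp.1 s hs).2.2.2.1
  · obtain ⟨s, hs, rfl⟩ := mem_HE.1 h
    exact absurd (e1 ▸ (EE_pe c.m h').2.1) (c.hp.1 s hs).2.2.2.1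
  · obtain ⟨s, hs, rfl⟩ := mem_HE.1 h
    obtain ⟨s', hs', rfl⟩ := mem_HE.1 h'
    rw [dis_snd c.hp.2 hs hs' e1]

theorem OO_rigid (c : P.RCtx S e ρ B g μ ν Hh Hi nE a3 δ) {j : J} (h : j ∈ OO S ν) :
    P.rigid S e ρ j := by
  by_contra hr
  exact c.cv.1 j (mem_OO.1 h).1 (Or.inl hr) (mem_OO.1 h).2

end DOwn

open DOwn in
theorem ownStmt (hI : ImgStmt) (hH : HallStmt) (hP : PeStmt) : OwnStmt := by
  intro J V _ _ _ _ P S e ρ B g μ ν Hh Hi nE a3 δ c
  obtain ⟨-, -, -, -, -, -, -, i8, -, i10, -⟩ :=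
    (hI J V P S e ρ B g c.cx.wf c.cx.fr c.cx.st c.cx.si).2 μ c.cx.im
  have hst := c.cx.st
  have oldE : ∀ j q z, P.OldP e ρ B g j q z → ν (vx q) = vx z → (q, z) ∈ EE P e ρ ν :=
    fun j q z h hν => mem_EE.2 ⟨(i8 j q z h).1.1, (i8 j q z h).2.2.1.1.symm, hν⟩
  set O := OO S ν with hO
  set E := EE P e ρ ν with hE
  set K0 := O.filter fun j => ∃ p ∈ E, P.OldP e ρ B g j p.1 p.2 with hK0
  set KE := E.filter fun p => ∃ j ∈ O, P.OldP e ρ B g j p.1 p.2 with hKE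
  have cO : O.card = E.card := card_OO hP c.m c.sz
  have cK : K0.card = KE.card := by
    refine card_eq_rel (fun j p => P.OldP e ρ B g j p.1 p.2) (fun j hj => ?_) (fun p hp => ?_)
      (fun j _ j' _ p a b => old_owner hst a b)
      fun p _ p' _ j a b => Prod.ext (old_unique a b).1 (old_unique a b).2
    · obtain ⟨a, p, b, d⟩ := mem_filter.1 hj
      exact ⟨p, mem_filter.2 ⟨b, j, a, d⟩, d⟩
    · obtain ⟨a, j, b, d⟩ := mem_filter.1 hp
      exact ⟨j, mem_filter.2 ⟨b, p, a, d⟩, d⟩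
  have c1 : (O \ K0).card = (E \ KE).card := by
    rw [card_sdiff_of_subset (filter_subset _ _), card_sdiff_of_subset (filter_subset _ _), cO, cK]
  -- first Hall argument
  obtain ⟨s1, hs1, t1, ht1, e1, d1, pm1⟩ := hall2 hH (R := fun j p => P.Ok j p.1 p.2)
    (d := a3 + nE + 1) c1 fun A hA => by
      by_cases h1 : A.card ≤ 1
      · exact Or.inl (by omega)
      obtain ⟨j, hj, j', hj', hne⟩ := one_lt_card.1 (not_le.1 h1)
      refine Or.inr fun M hM hno => ?_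
      have r := c.jb j j' hne (OO_rigid c (mem_sdiff.1 (hA hj)).1)
        (OO_rigid c (mem_sdiff.1 (hA hj')).1)
      have a1 := card_filter_add_card_filter_not (s := M) (fun p => μ (vx p.1) = vx p.2)
      have a2 : (M.filter fun p => ¬ μ (vx p.1) = vx p.2).card ≤ a3 := by
        refine le_trans (card_le_rel (fun p q => p.1 = q) (fun p hp => ⟨p.1, ?_, rfl⟩)
          fun p hp p' hp' q a b => EE_fst (mem_sdiff.1 (hM (mem_filter.1 hp).1)).1
            (mem_sdiff.1 (hM (mem_filter.1 hp').1)).1 (a.trans b.symm)) r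
        obtain ⟨b1, b2⟩ := mem_filter.1 hp
        obtain ⟨b3, b4, b5⟩ := mem_EE.1 (mem_sdiff.1 (hM b1)).1
        exact mem_filter.2 ⟨mem_univ _, b3, p.2, b4, b5, b2, hno p b1 j hj, hno p b1 j' hj'⟩
      have a3' : (M.filter fun p => μ (vx p.1) = vx p.2).card ≤ nE := by
        refine le_trans (card_le_rel
          (fun p x => ∃ i, x = ag i ∧ P.OldP e ρ B g i p.1 p.2) (fun p hp => ?_) ?_) c.en
        · obtain ⟨b1, b2⟩ := mem_filter.1 hp
          obtain ⟨b6, b7⟩ := mem_sdiff.1 (hM b1)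
          obtain ⟨b3, b4, b5⟩ := mem_EE.1 b6
          obtain ⟨i, hi⟩ := i10 p.1 p.2 b4.symm b2 b3
          refine ⟨ag i, mem_filter.2 ⟨mem_univ _, Or.inl ⟨(i8 _ _ _ hi).2.2.2.2.2.1, fun h => ?_⟩⟩,
            i, rfl, hi⟩
          exact b7 (mem_filter.2 ⟨b6, i, mem_OO.2 ⟨hst.sub hi.1, h⟩, hi⟩)
        · rintro p - p' - x ⟨i, rfl, a⟩ ⟨i', h, b⟩
          obtain rfl := Sum.inl.inj h
          exact Prod.ext (old_unique a b).1 (old_unique a b).2
      have := card_le_card hA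
      omega
  -- helpers
  have hiK : ∀ s ∈ Hi, s.1 ∈ K0 ∧ s.2 ∈ KE := fun s hs => by
    obtain ⟨a, b, d⟩ := c.hi s hs
    have m1 : s.1 ∈ O := mem_OO.2 ⟨hst.sub a.1, d⟩
    have m2 : s.2 ∈ E := oldE _ _ _ a b
    exact ⟨mem_filter.2 ⟨m1, s.2, m2, a⟩, mem_filter.2 ⟨m2, s.1, m1, a⟩⟩
  have hsA : ∀ s ∈ Hh ∪ Hi, s.1 ∉ O \ K0 := fun s hs h => by
    rcases mem_union.1 hs with hs | hs
    · exact (c.hp.1 s hs).1 (mem_OO.1 (mem_sdiff.1 h).1).1
    · exact (mem_sdiff.1 h).2 (hiK s hs).1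
  have hsE : ∀ s ∈ Hh ∪ Hi, s.2 ∉ E \ KE := fun s hs h => by
    rcases mem_union.1 hs with hs | hs
    · exact (c.hp.1 s hs).2.2.1 (EE_pe c.m (mem_sdiff.1 h).1).1
    · exact (mem_sdiff.1 h).2 (hiK s hs).2
  have hsJ : ∀ s ∈ Hh ∪ Hi, P.rigid S e ρ s.1 ∧ ¬ P.junk s.1 s.2.2 := fun s hs => by
    rcases mem_union.1 hs with hs | hs
    · exact ⟨(c.hp.1 s hs).2.1, (c.hp.1 s hs).2.2.2.2.2⟩
    · exact ⟨(i8 _ _ _ (c.hi s hs).1).2.1, (i8 _ _ _ (c.hi s hs).1).2.2.2.1⟩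
  have hsD : HE (Hh ∪ Hi) ⊆ E ∪ HE Hh := fun p hp => by
    obtain ⟨s, hs, rfl⟩ := mem_HE.1 hp
    rcases mem_union.1 hs with hs | hs
    · exact mem_union_right _ (mem_HE.2 ⟨s, hs, rfl⟩)
    · exact mem_union_left _ (mem_filter.1 (hiK s hs).2).1
  have cH : (ag2 (Hh ∪ Hi)).card = (HE (Hh ∪ Hi)).card := by
    refine card_eq_rel (fun j p => (j, p) ∈ Hh ∪ Hi) (fun j hj => ?_) (fun p hp => ?_)
      (fun j _ j' _ p a b => ?_) fun p _ p' _ j a b => ?_
    · obtain ⟨s, hs, rfl⟩ := mem_ag2.1 hj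
      exact ⟨s.2, mem_HE.2 ⟨s, hs, rfl⟩, hs⟩
    · obtain ⟨s, hs, rfl⟩ := mem_HE.1 hp
      exact ⟨s.1, mem_ag2.2 ⟨s, hs, rfl⟩, hs⟩
    · rcases mem_union.1 a with a | a <;> rcases mem_union.1 b with b | b
      · exact congrArg Prod.fst (dis_fst c.hp.2 a b rfl)
      · exact absurd (EE_pe c.m (mem_filter.1 (hiK _ b).2).1).1 (c.hp.1 _ a).2.2.1
      · exact absurd (EE_pe c.m (mem_filter.1 (hiK _ a).2).1).1 (c.hp.1 _ b).2.2.1
      · exact old_owner hst (c.hi _ a).1 (c.hi _ b).1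
    · rcases mem_union.1 a with a | a <;> rcases mem_union.1 b with b | b
      · by_contra hne
        exact (c.hp.2 _ a _ b fun h => hne (congrArg Prod.snd h)).1 rfl
      · exact absurd (hst.sub (c.hi _ b).1.1) (c.hp.1 _ a).1
      · exact absurd (hst.sub (c.hi _ a).1.1) (c.hp.1 _ b).1
      · exact Prod.ext (old_unique (c.hi _ a).1 (c.hi _ b).1).1
          (old_unique (c.hi _ a).1 (c.hi _ b).1).2
  set A2 := ((O \ K0) \ s1) ∪ ag2 (Hh ∪ Hi) with hA2
  set E2 := ((E \ KE) \ t1) ∪ HE (Hh ∪ Hi) with hE2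
  have c2 : A2.card = E2.card := by
    rw [card_union_of_disjoint, card_union_of_disjoint, e1, cH]
    · refine disjoint_right.2 fun p hp h => ?_
      obtain ⟨s, hs, rfl⟩ := mem_HE.1 hp
      exact hsE s hs (mem_sdiff.1 h).1
    · refine disjoint_right.2 fun j hj h => ?_
      obtain ⟨s, hs, rfl⟩ := mem_ag2.1 hj
      exact hsA s hs (mem_sdiff.1 h).1
  have rA2 : ∀ j ∈ A2, P.rigid S e ρ j := fun j hj => by
    rcases mem_union.1 hj with h | h
    · exact OO_rigid c (mem_sdiff.1 (mem_sdiff.1 h).1).1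
    · obtain ⟨s, hs, rfl⟩ := mem_ag2.1 h
      exact (hsJ s hs).1
  have sE2 : E2 ⊆ E ∪ HE Hh := union_subset
    (fun p hp => mem_union_left _ (mem_sdiff.1 (mem_sdiff.1 hp).1).1) hsD
  -- second Hall argument
  obtain ⟨s2, hs2, t2, ht2, e2, d2, pm2⟩ := hall2 hH (R := fun j p => ¬ P.junk j p.2)
    (d := δ) c2 fun A hA => by
      by_cases hA0 : A.card = 0
      · exact Or.inl (by omega)
      have cA := card_le_card hA
      have key : ∀ M ⊆ E2, (∀ y ∈ M, ∀ x ∈ A, ¬ ¬ P.junk x y.2) → A.card ≤ 1 ∨ M.card ≤ 1 := by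
        intro M hM hno
        by_contra hcon
        rw [not_or, not_le, not_le] at hcon
        obtain ⟨j, hj, j', hj', hne⟩ := one_lt_card.1 hcon.1
        obtain ⟨p, hp, p', hp', hne'⟩ := one_lt_card.1 hcon.2
        obtain ⟨-, o, ro⟩ := rA2 j (hA hj)
        obtain ⟨-, o', ro'⟩ := rA2 j' (hA hj')
        exact hne' (ed_snd c (sE2 (hM hp)) (sE2 (hM hp')) (Geo.rig_junk c.cx.fr hne ro ro'
          (not_not.1 (hno p hp j hj)) (not_not.1 (hno p' hp' j hj))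
          (not_not.1 (hno p hp j' hj')) (not_not.1 (hno p' hp' j' hj'))))
      refine Or.inr fun M hM hno => ?_
      have cM := card_le_card hM
      rcases c.ob with h | h
      · rcases key M hM hno with k | k <;> omega
      by_contra hcon
      rcases key M hM hno with k | k
      · have eM : M = E2 := eq_of_subset_of_card_le hM (by omega)
        obtain ⟨j, hj⟩ := card_pos.1 (Nat.pos_of_ne_zero hA0)
        have : ∃ s ∈ Hh ∪ Hi, ¬ P.junk j s.2.2 := by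
          rcases mem_union.1 (hA hj) with a | a
          · have := mem_OO.1 (mem_sdiff.1 (mem_sdiff.1 a).1).1
            exact h.1 j this.1 this.2
          · obtain ⟨s, hs, rfl⟩ := mem_ag2.1 a
            exact ⟨s, hs, (hsJ s hs).2⟩
        obtain ⟨s, hs, hj'⟩ := this
        exact hno s.2 (eM ▸ mem_union_right _ (mem_HE.2 ⟨s, hs, rfl⟩)) j hj hj'
      · have eA : A = A2 := eq_of_subset_of_card_le hA (by omega)
        obtain ⟨p, hp⟩ := card_pos.1 (show 0 < M.card by omega)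
        have : ∃ s ∈ Hh ∪ Hi, ¬ P.junk s.1 p.2 := by
          rcases mem_union.1 (hM hp) with a | a
          · have := mem_EE.1 (mem_sdiff.1 (mem_sdiff.1 a).1).1
            exact h.2 p.1 p.2 this.2.1 this.2.2 this.1
          · obtain ⟨s, hs, rfl⟩ := mem_HE.1 a
            exact ⟨s, hs, (hsJ s hs).2⟩
        obtain ⟨s, hs, hj'⟩ := this
        exact hno p hp s.1 (eA ▸ mem_union_right _ (mem_ag2.2 ⟨s, hs, rfl⟩)) hj'
  -- assembly
  set R : J → V × V → Prop := fun j p => (j ∉ A2 → P.Ok j p.1 p.2) ∧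
    (j ∉ A2 \ s2 → P.Ok j p.1 p.2 ∨ ¬ P.junk j p.2) with hR
  have p0 : PM (K0 \ ag2 (Hh ∪ Hi)) (KE \ HE (Hh ∪ Hi)) R := by
    refine (PM.of_rel (R := fun j p => P.OldP e ρ B g j p.1 p.2) (fun j hj => ?_)
      fun j j' p a b => old_owner (q := p.1) (z := p.2) (z' := p.2) hst a b).mono Subset.rfl
      fun j _ p h => ?_
    · obtain ⟨a1, a2⟩ := mem_sdiff.1 hj
      obtain ⟨a, p, b, d⟩ := mem_filter.1 a1
      refine ⟨p, mem_sdiff.2 ⟨mem_filter.2 ⟨b, j, a, d⟩, fun h => ?_⟩, d⟩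
      obtain ⟨s, hs, rfl⟩ := mem_HE.1 h
      rcases mem_union.1 hs with hs' | hs'
      · exact (c.hp.1 s hs').2.2.1 (EE_pe c.m b).1
      · exact a2 (mem_ag2.2 ⟨s, hs, old_owner hst (c.hi s hs').1 d⟩)
    · have : P.Ok j p.1 p.2 := Or.inr (Or.inr (i8 _ _ _ h).2.2.1)
      exact ⟨fun _ => this, fun _ => Or.inl this⟩
  have p1 : PM s1 t1 R := pm1.mono Subset.rfl fun j _ p h => ⟨fun _ => h, fun _ => Or.inl h⟩
  have p2 : PM s2 t2 R := pm2.mono Subset.rfl fun j hj p h =>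
    ⟨fun h' => absurd (hs2 hj) h', fun _ => Or.inr h⟩
  have p3 : PM (A2 \ s2) (E2 \ t2) R := (pm_all hH e2).mono Subset.rfl fun j hj p _ =>
    ⟨fun h' => absurd (mem_sdiff.1 hj).1 h', fun h' => absurd hj h'⟩
  have p23 := (p2.union p3 disjoint_sdiff).mono (E' := E2)
    (union_subset ht2 sdiff_subset) fun _ _ _ h => h
  have p123 := p1.union p23 (disjoint_left.2 fun p hp h => by
    rcases mem_union.1 h with h | h
    · exact (mem_sdiff.1 h).2 hp
    · obtain ⟨s, hs, rfl⟩ := mem_HE.1 h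
      exact hsE s hs (ht1 hp))
  obtain ⟨f, f1, f2⟩ := (p0.union p123 (disjoint_left.2 fun p hp h => by
    rcases mem_union.1 h with h | h
    · exact (mem_sdiff.1 (ht1 h)).2 (mem_sdiff.1 hp).1
    · rcases mem_union.1 h with h | h
      · exact (mem_sdiff.1 (mem_sdiff.1 h).1).2 (mem_sdiff.1 hp).1
      · exact (mem_sdiff.1 hp).2 h)).mono (E' := E ∪ HE Hh) (union_subset
      (fun p hp => mem_union_left _ (mem_filter.1 (mem_sdiff.1 hp).1).1) (union_subset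
      (fun p hp => mem_union_left _ (mem_sdiff.1 (ht1 hp)).1) sE2)) fun _ _ _ h => h
  set Al := K0 \ ag2 (Hh ∪ Hi) ∪ (s1 ∪ (s2 ∪ A2 \ s2)) with hAl
  refine ⟨fun j q z => j ∈ Al ∧ f j = some (q, z), A2, A2 \ s2, ?_, sdiff_subset, d2, ?_, ?_⟩
  · have a1 := card_union_le ((O \ K0) \ s1) (ag2 (Hh ∪ Hi))
    have a2 : (ag2 (Hh ∪ Hi)).card ≤ (Hh ∪ Hi).card := card_image_le
    exact a1.trans (Nat.add_le_add d1 a2)
  · rintro j j' q z z' ⟨a1, a2⟩ ⟨b1, b2⟩
    obtain ⟨y, hy, a, -⟩ := f1 j a1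
    obtain ⟨y', hy', b, -⟩ := f1 j' b1
    obtain rfl : y = (q, z) := Option.some.inj (a.symm.trans a2)
    obtain rfl : y' = (q, z') := Option.some.inj (b.symm.trans b2)
    exact f2 j a1 j' b1 (by rw [a, b, ed_fst c hy hy' rfl])
  · intro j hj
    have inA2 : j ∈ A2 → j ∈ Al := fun h => mem_union_right _ (mem_union_right _ (by
      rw [union_sdiff_of_subset hs2]; exact h))
    have hAl' : j ∈ Al := by
      by_cases h1 : j ∈ ag2 (Hh ∪ Hi)
      · exact inA2 (mem_union_right _ h1)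
      rcases hj with hj | hj
      · obtain ⟨s, hs, rfl⟩ := mem_ag2.1 hj
        exact absurd (mem_ag2.2 ⟨s, mem_union_left _ hs, rfl⟩) h1
      by_cases h2 : j ∈ K0
      · exact mem_union_left _ (mem_sdiff.2 ⟨h2, h1⟩)
      by_cases h3 : j ∈ s1
      · exact mem_union_right _ (mem_union_left _ h3)
      · exact inA2 (mem_union_left _ (mem_sdiff.2 ⟨mem_sdiff.2 ⟨mem_OO.2 hj, h2⟩, h3⟩))
    obtain ⟨y, hy, a, r⟩ := f1 j hAl'
    refine ⟨y.1, y.2, ⟨hAl', a⟩, ?_, r.1, r.2⟩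
    rcases mem_union.1 hy with h | h
    · exact Or.inl (mem_EE.1 h)
    · exact Or.inr (mem_HE.1 h)

end Pool.Agent.Lib.MP_ef7581_lc.D2
end
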