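import Mathlib
import Pool.Agent.Shared.PolyTime.GraphEnc

/-!
Instances of Disjoint Paths on H-free graphs.
-/

set_option autoImplicit false

namespace Pool.Agent.Lib.MP_ef7581_lc

open Pool.Agent.Shared.PolyTime

/-- An instance of Disjoint Paths whose graph is `H`-free: a graph on `Fin n` with no induced
subgraph isomorphic to `H`, and `k` terminal pairs, the `2k` terminals being distinct. -/
structure InstH {h : ℕ} (H : SimpleGraph (Fin h)) where
  n : ℕ
  G : SimpleGraph (Fin n)
  k : ℕ
  s : Fin k → Fin n
  t : Fin k → Fin n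
  distinct : Function.Injective (Sum.elim s t)
  free : IsEmpty (H ↪g G)

/-- Binary code: the adjacency matrix, followed by the list of terminal pairs. -/
noncomputable def InstH.code {h : ℕ} {H : SimpleGraph (Fin h)} (I : InstH H) : List Bool :=
  encPair (encGraph I.G)
    (encList (fun i : Fin I.k => encPair (encNat (I.s i).val) (encNat (I.t i).val))
      (List.finRange I.k))

/-- Yes-instances: there are pairwise vertex-disjoint paths, the `i`-th joining `s i` and `t i`. -/
def InstH.Yes {h : ℕ} {H : SimpleGraph (Fin h)} (I : InstH H) : Prop :=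
  ∃ P : (i : Fin I.k) → I.G.Path (I.s i) (I.t i),
    ∀ i j, i ≠ j → ∀ v, v ∈ (P i).1.support → v ∉ (P j).1.support

/-- Disjoint Paths restricted to `H`-free graphs is decidable in polynomial time. -/
def DPinP {h : ℕ} (H : SimpleGraph (Fin h)) : Prop :=
  ∃ f : InstH H → Bool,
    Nonempty (Turing.TM2ComputableInPolyTime InstH.code (fun b : Bool => [b]) f) ∧
    ∀ I : InstH H, f I = true ↔ I.Yes

/-- The graph 2P1 + P2: four vertices, one edge. -/
def twoP1P2 : SimpleGraph (Fin 4) := SimpleGraph.fromEdgeSet {s(0, 1)}

end Pool.Agent.Lib.MP_ef7581_lc
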