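import Mathlib
import Pool.Agent.Shared.Matching.Main
import Pool.Agent.Lib.MP_ef7581_lc.DComp
import Pool.Agent.Lib.MP_ef7581_lc.Sound
import Pool.Agent.Lib.MP_ef7581_lc.DStmts
import Pool.Agent.Lib.MP_ef7581_lc.StmtH

-- part Pool.Agent.Lib.MP_ef7581_lc.POracle
section

/-!
The maximum weight matching oracle on families of numbered types; matchings with a prescribed
number of unmatched nodes in each class.
-/

set_option autoImplicit false

namespace Pool.Agent.Lib.MP_ef7581_lc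

open Pool.Agent.Shared.PolyTime Pool.Agent.Shared.Matching Finset

section Typed

variable {T : Type} [Num T]

theorem exists_typed {m' : ℕ → ℕ} (h : IsMate (Num.N T) m') :
    ∃ m : T → T, (∀ x, m (m x) = x) ∧ ∀ x, m' (idx x) = idx (m x) := by
  refine ⟨fun x => Num.e.symm ⟨m' (idx x), (h _ (idx_lt x)).1⟩, fun x => ?_, fun x => ?_⟩
  · rw [← idx_inj, idx_symm, idx_symm, (h _ (idx_lt x)).2]
  · rw [idx_symm]

theorem exists_untyped {m : T → T} (h : ∀ x, m (m x) = x) :
    ∃ m', IsMate (Num.N T) m' ∧ ∀ x, m' (idx x) = idx (m x) := by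
  have key : ∀ x : T, (fun i => if hi : i < Num.N T then idx (m (Num.e.symm ⟨i, hi⟩)) else i)
      (idx x) = idx (m x) := fun x => by simp only [idx_lt, dif_pos, symm_idx]
  refine ⟨fun i => if hi : i < Num.N T then idx (m (Num.e.symm ⟨i, hi⟩)) else i,
    fun i hi => ?_, key⟩
  obtain ⟨x, rfl⟩ := exists_idx hi
  rw [key, key, h]
  exact ⟨idx_lt _, rfl⟩

/-- The matrix of a weight function. -/
def mat (w : T → T → ℕ) : List (List ℕ) := tabT fun x => tabT fun y => w x y

theorem length_mat (w : T → T → ℕ) : (mat w).length = Num.N T := length_tabT _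

theorem wt_mat (w : T → T → ℕ) (x y : T) : wt (mat w) (idx x) (idx y) = w x y := by
  unfold wt mat
  rw [getD_tabT, getD_tabT]

theorem wt_mat_symm {w : T → T → ℕ} (h : ∀ x y, w x y = w y x) (i j : ℕ) :
    wt (mat w) i j = wt (mat w) j i := by
  have key : ∀ i j, Num.N T ≤ j → wt (mat w) i j = 0 ∧ wt (mat w) j i = 0 := fun i j hj => by
    unfold wt mat
    rw [getD_tabT_ge _ hj]
    refine ⟨?_, rfl⟩
    rcases lt_or_ge i (Num.N T) with hi | hi
    · obtain ⟨x, rfl⟩ := exists_idx hi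
      rw [getD_tabT, getD_tabT_ge _ hj]
    · rw [getD_tabT_ge _ hi]; rfl
  rcases lt_or_ge i (Num.N T) with hi | hi
  · rcases lt_or_ge j (Num.N T) with hj | hj
    · obtain ⟨x, rfl⟩ := exists_idx hi
      obtain ⟨y, rfl⟩ := exists_idx hj
      rw [wt_mat, wt_mat, h]
    · rw [(key i j hj).1, (key i j hj).2]
  · rw [(key j i hi).1, (key j i hi).2]

theorem mateWt_eq [Fintype T] [DecidableEq T] (w : T → T → ℕ) {m : T → T} {m' : ℕ → ℕ}
    (h : ∀ x, m' (idx x) = idx (m x)) : mateWt (Num.N T) (mat w) m' = wt2 w m := by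
  unfold mateWt wt2
  rw [sum_range_idx]
  refine sum_congr rfl fun x _ => ?_
  simp only [h, idx_inj, wt_mat]

end Typed

section Fam

variable {γ : Type} [Enc γ] {T : γ → Type} [∀ a, Num (T a)]

theorem pf_mat {w : ∀ a, T a → T a → ℕ} (hN : PF fun a => Num.N (T a))
    (hw : PF fun p : Pt2 T T => w p.a.a p.a.x p.x) : PF fun a => mat (w a) :=
  pf_tabT (f := fun a x => tabT fun y => w a x y) hN
    (pf_tabT (f := fun (p : Pt T) y => w p.a p.x y) (hN.comp (pt_a PF.id')) hw)

variable [∀ a, Fintype (T a)] [∀ a, DecidableEq (T a)]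

/-- Is there a matching of weight at least `t`? -/
theorem pf_maxw {E : ∀ a, T a → T a → Prop} {ω : ∀ a, T a → T a → ℕ} {t : γ → ℕ}
    (hN : PF fun a => Num.N (T a)) (hE : PF fun p : Pt2 T T => E p.a.a p.a.x p.x)
    (hω : PF fun p : Pt2 T T => ω p.a.a p.a.x p.x) (ht : PF t)
    (sE : ∀ a x y, E a x y → E a y x) (sω : ∀ a x y, ω a x y = ω a y x) :
    PF fun a => ∃ m, IsM (E a) m ∧ t a ≤ wt2 (ω a) m := by
  classical
  obtain ⟨F, hF, sF⟩ := exists_maxWeightMatching
  have hW : PF fun a => mat fun x y => if E a x y then ω a x y else 0 :=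
    pf_mat (w := fun a x y => if E a x y then ω a x y else 0) hN (pf_ite hE hω (PF.const 0))
  have hm : PF fun z : List (List ℕ) × List ℕ =>
      mateWt z.1.length z.1 fun i => z.2.getD i i := by
    have : PF fun z : List (List ℕ) × List ℕ => ((List.range z.1.length).map fun i =>
        cond (z.2.getD i i == i) 0 ((z.1.getD i []).getD (z.2.getD i i) 0)).sum := by fun_prop
    refine this.of_eq fun z => ?_
    unfold mateWt wt
    rw [← List.sum_toFinset _ List.nodup_range, List.toFinset_range]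
    exact sum_congr rfl fun i _ => by simp
  refine pf_iff (pf_le ht (hm.comp (hW.pair (hF.comp hW)))) fun a => ?_
  obtain ⟨h1, h2⟩ := sF (mat fun x y => if E a x y then ω a x y else 0) (wt_mat_symm fun x y => by
    by_cases h : E a x y
    · rw [if_pos h, if_pos (sE a _ _ h), sω]
    · rw [if_neg h, if_neg fun h' => h (sE a _ _ h')])
  simp only [length_mat] at h1 h2 ⊢
  constructor
  · rintro ⟨m, hm, hle⟩
    obtain ⟨m', k1, k2⟩ := exists_untyped hm.1
    refine hle.trans (le_trans (le_of_eq ?_) (h2 m' k1))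
    rw [mateWt_eq _ k2]
    refine sum_congr rfl fun x _ => ?_
    by_cases h : m x = x
    · simp [h]
    · simp [h, hm.2 x h]
  · intro hle
    obtain ⟨m, k1, k2⟩ := exists_typed h1
    rw [mateWt_eq _ k2] at hle
    refine ⟨fun x => if E a x (m x) then m x else x, ⟨fun x => ?_, fun x hx => ?_⟩,
      hle.trans (le_of_eq (sum_congr rfl fun x _ => ?_))⟩
    · by_cases h : E a x (m x)
      · simp only [h, if_true, k1, sE a _ _ h]
      · simp only [h, if_false]
    · by_cases h : E a x (m x)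
      · simp only [h, if_true]
      · simp [h] at hx
    · by_cases h : E a x (m x) <;> simp [h]

theorem pf_cov {E : ∀ a, T a → T a → Prop} {t : γ → ℕ}
    (hN : PF fun a => Num.N (T a)) (hE : PF fun p : Pt2 T T => E p.a.a p.a.x p.x) (ht : PF t)
    (sE : ∀ a x y, E a x y → E a y x) : PF fun a => ∃ m, IsM (E a) m ∧ t a ≤ cov m := by
  simp only [cov_eq_wt2]
  exact pf_maxw hN hE (PF.const 1) ht sE fun _ _ _ => rfl

theorem pf_pm {E : ∀ a, T a → T a → Prop}
    (hN : PF fun a => Num.N (T a)) (hE : PF fun p : Pt2 T T => E p.a.a p.a.x p.x)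
    (sE : ∀ a x y, E a x y → E a y x) : PF fun a => ∃ m, IsM (E a) m ∧ ∀ x, m x ≠ x := by
  refine pf_iff (pf_cov hN hE hN sE) fun a => exists_congr fun m => and_congr_right fun _ => ?_
  rw [← card_eq_N, cov, ← card_univ]
  constructor
  · intro h
    rw [filter_true_of_mem fun x _ => h x]
  · intro h x
    have := eq_of_subset_of_card_le (filter_subset _ _) h
    exact (mem_filter.1 (this.symm ▸ mem_univ x : x ∈ univ.filter fun x => m x ≠ x)).2

end Fam

section Cnt

variable {S T : Type} [Fintype S] [Fintype T]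

open Classical in
/-- Number of elements with property `p`. -/
noncomputable def cnt (p : T → Prop) : ℕ := #{x | p x}

theorem cnt_eq (p : T → Prop) [DecidablePred p] : cnt p = #{x | p x} := by
  unfold cnt; congr

theorem cnt_congr {p q : T → Prop} (h : ∀ x, p x ↔ q x) : cnt p = cnt q := by
  rw [show p = q from funext fun x => propext (h x)]

theorem cnt_split (p q : T → Prop) : cnt p = cnt (fun x => p x ∧ q x) + cnt fun x => p x ∧ ¬ q x := by
  classical
  simp only [cnt_eq, ← filter_filter]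
  exact (card_filter_add_card_filter_not _).symm

theorem cnt_true : cnt (fun _ : T => True) = Fintype.card T := by simp [cnt]

theorem cnt_eq_zero {p : T → Prop} : cnt p = 0 ↔ ∀ x, ¬ p x := by simp [cnt]

theorem cnt_false {p : T → Prop} (h : ∀ x, ¬ p x) : cnt p = 0 := cnt_eq_zero.2 h

theorem cnt_all {p : T → Prop} (h : ∀ x, p x) : cnt p = Fintype.card T := by
  rw [← cnt_true]; exact cnt_congr fun x => by simp [h x]

theorem cnt_compl (p : T → Prop) : cnt p + cnt (fun x => ¬ p x) = Fintype.card T := by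
  rw [← cnt_true, cnt_split (fun _ => True) p]; simp

theorem cnt_le (p : T → Prop) : cnt p ≤ Fintype.card T := by
  have := cnt_compl p; omega

theorem cnt_sum (p : S ⊕ T → Prop) :
    cnt p = cnt (fun x => p (Sum.inl x)) + cnt fun x => p (Sum.inr x) := by
  simp only [cnt, card_filter, Fintype.sum_sum_type]

theorem cnt_rel {p : S → Prop} {q : T → Prop} (r : S → T → Prop)
    (h1 : ∀ x, p x → ∃ y, q y ∧ r x y) (h2 : ∀ y, q y → ∃ x, p x ∧ r x y)
    (h3 : ∀ x x' y, p x → p x' → r x y → r x' y → x = x')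
    (h4 : ∀ x y y', p x → r x y → r x y' → y = y') : cnt p = cnt q := by
  classical
  choose g hg hr using h1
  simp only [cnt_eq]
  refine card_bij (fun x hx => g x (mem_filter.1 hx).2) (fun x hx => by simp [hg])
    (fun x hx x' hx' e => h3 x x' _ (mem_filter.1 hx).2 (mem_filter.1 hx').2 (hr x _)
      (e ▸ hr x' _)) fun y hy => ?_
  obtain ⟨x, k1, k2⟩ := h2 y (mem_filter.1 hy).2
  exact ⟨x, by simp [k1], h4 x _ _ k1 (hr x k1) k2⟩

theorem cnt_image {p : S → Prop} {q : T → Prop} (g : S → T) (hg : Function.Injective g)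
    (h : ∀ y, q y ↔ ∃ x, p x ∧ y = g x) : cnt q = cnt p :=
  (cnt_rel (fun x y => y = g x) (fun x hx => ⟨_, (h _).2 ⟨x, hx, rfl⟩, rfl⟩)
    (fun y hy => (h y).1 hy) (fun _ _ _ _ _ e e' => hg (e.symm.trans e'))
    fun _ _ _ _ e e' => e.trans e'.symm).symm

/-- An injection exists when the counts allow it. -/
theorem exists_inj [Nonempty T] {p : S → Prop} {q : T → Prop} (h : cnt p ≤ cnt q) :
    ∃ g : S → T, (∀ x, p x → q (g x)) ∧ ∀ x x', p x → p x' → g x = g x' → x = x' := by
  classical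
  rw [cnt_eq, cnt_eq, ← Fintype.card_subtype, ← Fintype.card_subtype] at h
  obtain ⟨e⟩ := Function.Embedding.nonempty_of_card_le h
  refine ⟨fun x => if hx : p x then (e ⟨x, hx⟩).1 else Classical.arbitrary T, fun x hx => ?_,
    fun x x' hx hx' he => ?_⟩
  · simp only [hx, dif_pos]; exact (e ⟨x, hx⟩).2
  · simp only [hx, hx', dif_pos] at he
    exact congrArg Subtype.val (e.injective (Subtype.ext he))

/-- A property can be narrowed to any smaller count. -/
theorem exists_sub {p : T → Prop} {a : ℕ} (h : a ≤ cnt p) :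
    ∃ q : T → Prop, cnt (fun x => p x ∧ q x) = a := by
  classical
  rw [cnt_eq] at h
  obtain ⟨s, h1, h2⟩ := exists_subset_card_eq h
  refine ⟨fun x => x ∈ s, ?_⟩
  rw [cnt_eq, ← h2]
  congr 1
  ext x
  have := @h1 x
  simp only [mem_filter, mem_univ, true_and] at this ⊢
  tauto

end Cnt

section Ext

variable {T : Type} [Fintype T]

/-- The graph extended by one dummy node for each entry of `L`, adjacent to that class. -/
def Ext (E : T → T → Prop) (cl : T → ℕ) (L : List ℕ) :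
    T ⊕ Fin L.length → T ⊕ Fin L.length → Prop
  | Sum.inl x, Sum.inl y => E x y
  | Sum.inl x, Sum.inr d => cl x = L.getD d 0
  | Sum.inr d, Sum.inl x => cl x = L.getD d 0
  | Sum.inr _, Sum.inr _ => False

/-- The number of unmatched nodes of class `c` is the multiplicity of `c` in `L`. -/
def Defi (cl : T → ℕ) (L : List ℕ) (m : T → T) : Prop :=
  ∀ c, cnt (fun x => cl x = c ∧ m x = x) = L.count c

/-- `m` is the restriction of `M`. -/
def Res {D : Type} (m : T → T) (M : T ⊕ D → T ⊕ D) : Prop :=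
  ∀ x, (m x ≠ x ∧ M (Sum.inl x) = Sum.inl (m x)) ∨ (m x = x ∧ ∃ d, M (Sum.inl x) = Sum.inr d)

theorem card_getD (L : List ℕ) (c : ℕ) : #{d : Fin L.length | L.getD d 0 = c} = L.count c := by
  have := Fin.card_filter_univ_eq_vector_get_eq_count c (⟨L, rfl⟩ : List.Vector ℕ L.length)
  refine Eq.trans (congrArg card (filter_congr fun d _ => ?_)) this
  rw [List.getD_eq_getElem _ _ d.2]
  rfl

omit [Fintype T] in
theorem Ext_symm {E : T → T → Prop} (sE : ∀ x y, E x y → E y x) (cl : T → ℕ) (L : List ℕ)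
    (x y : T ⊕ Fin L.length) (h : Ext E cl L x y) : Ext E cl L y x := by
  rcases x with x | x <;> rcases y with y | y
  exacts [sE _ _ h, h, h, h]

theorem ext_of_defi {E : T → T → Prop} {cl : T → ℕ} {L : List ℕ} {m : T → T} (hm : IsM E m)
    (hd : Defi cl L m) : ∃ M, IsM (Ext E cl L) M ∧ (∀ z, M z ≠ z) ∧ Res m M := by
  classical
  have he : ∀ c, Nonempty ({a : {x // m x = x} // cl a.1 = c} ≃
      {d : Fin L.length // L.getD d 0 = c}) := fun c => by
    refine ⟨Fintype.equivOfCardEq ?_⟩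
    rw [Fintype.card_subtype (fun d : Fin L.length => L.getD d 0 = c), card_getD, ← hd c, cnt_eq,
      Fintype.card_congr (Equiv.subtypeSubtypeEquivSubtypeInter (fun x => m x = x)
        fun x => cl x = c), Fintype.card_subtype]
    exact congrArg card (filter_congr fun x _ => and_comm)
  let β : {x // m x = x} ≃ Fin L.length :=
    Equiv.ofFiberEquiv (f := fun a : {x // m x = x} => cl a.1)
      (g := fun d : Fin L.length => L.getD d 0) fun c => (he c).some
  have hβ : ∀ a, L.getD (β a) 0 = cl a.1 := fun a =>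
    Equiv.ofFiberEquiv_map (f := fun a : {x // m x = x} => cl a.1)
      (g := fun d : Fin L.length => L.getD d 0) (fun c => (he c).some) a
  let M : T ⊕ Fin L.length → T ⊕ Fin L.length := fun z => match z with
    | Sum.inl x => if h : m x = x then Sum.inr (β ⟨x, h⟩) else Sum.inl (m x)
    | Sum.inr d => Sum.inl (β.symm d).1
  have M1 : ∀ x (h : m x = x), M (Sum.inl x) = Sum.inr (β ⟨x, h⟩) := fun x h => dif_pos h
  have M2 : ∀ x, m x ≠ x → M (Sum.inl x) = Sum.inl (m x) := fun x h => dif_neg h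
  have M3 : ∀ d, M (Sum.inr d) = Sum.inl (β.symm d).1 := fun d => rfl
  refine ⟨M, ⟨?_, ?_⟩, ?_, fun x => ?_⟩
  · rintro (x | d)
    · by_cases h : m x = x
      · rw [M1 x h, M3, Equiv.symm_apply_apply]
      · rw [M2 x h, M2 _ (by rw [hm.1]; exact Ne.symm h), hm.1]
    · rw [M3, M1 _ (β.symm d).2]
      simp
  · rintro (x | d) -
    · by_cases h : m x = x
      · rw [M1 x h]; exact (hβ ⟨x, h⟩).symm
      · rw [M2 x h]; exact hm.2 x h
    · rw [M3]
      have := hβ (β.symm d)
      rw [Equiv.apply_symm_apply] at this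
      exact this.symm
  · rintro (x | d)
    · by_cases h : m x = x
      · rw [M1 x h]; simp
      · rw [M2 x h]; simpa using h
    · rw [M3]; simp
  · by_cases h : m x = x
    · exact Or.inr ⟨h, _, M1 x h⟩
    · exact Or.inl ⟨h, M2 x h⟩

theorem defi_of_ext {E : T → T → Prop} {cl : T → ℕ} {L : List ℕ}
    {M : T ⊕ Fin L.length → T ⊕ Fin L.length} (hM : IsM (Ext E cl L) M) (hp : ∀ z, M z ≠ z) :
    ∃ m, IsM E m ∧ Defi cl L m ∧ Res m M := by
  let m : T → T := fun x => Sum.elim id (fun _ => x) (M (Sum.inl x))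
  have m1 : ∀ x y, M (Sum.inl x) = Sum.inl y → m x = y := fun x y h => by simp only [m, h]; rfl
  have m2 : ∀ x d, M (Sum.inl x) = Sum.inr d → m x = x := fun x d h => by simp only [m, h]; rfl
  have hr : Res m M := fun x => by
    rcases h : M (Sum.inl x) with y | d
    · refine Or.inl ⟨fun e => hp (Sum.inl x) ?_, by rw [m1 x y h]⟩
      rw [h, ← m1 x y h, e]
    · exact Or.inr ⟨m2 x d h, d, rfl⟩
  refine ⟨m, ⟨fun x => ?_, fun x hx => ?_⟩, fun c => ?_, hr⟩
  · rcases hr x with ⟨-, h⟩ | ⟨h, -⟩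
    · exact m1 _ _ (by rw [← h, hM.1])
    · rw [h, h]
  · rcases hr x with ⟨-, h⟩ | ⟨h, -⟩
    · have := hM.2 _ (hp (Sum.inl x))
      rwa [h] at this
    · exact absurd h hx
  · have hd : ∀ d, ∃ x, M (Sum.inr d) = Sum.inl x ∧ cl x = L.getD d 0 := fun d => by
      have := hM.2 _ (hp (Sum.inr d))
      rcases h : M (Sum.inr d) with x | d' <;> rw [h] at this
      · exact ⟨x, rfl, this⟩
      · exact this.elim
    choose g hg hc using hd
    classical
    rw [← card_getD, cnt_eq]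
    symm
    refine card_bij (fun d _ => g d) (fun d hd => ?_) (fun d _ d' _ e => ?_) fun x hx => ?_
    · refine mem_filter.2 ⟨mem_univ _, (hc d).trans (mem_filter.1 hd).2, m2 _ d ?_⟩
      rw [← hg, hM.1]
    · have : M (Sum.inr d) = M (Sum.inr d') := by rw [hg, hg, e]
      simpa using Function.Involutive.injective hM.1 this
    · obtain ⟨-, h1, h2⟩ := mem_filter.1 hx
      rcases hr x with ⟨h, -⟩ | ⟨-, d, h⟩
      · exact absurd h2 h
      · have : g d = x := by
          have h3 := hg d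
          rw [← h, hM.1] at h3
          exact (Sum.inl_injective h3).symm
        exact ⟨d, mem_filter.2 ⟨mem_univ _, by rw [← hc, this, h1]⟩, this⟩

end Ext

section Fam2

variable {γ : Type} [Enc γ] {T : γ → Type} [∀ a, Num (T a)]

theorem pf_cases2 {β : Type} [Enc β] [Inhabited β] {S : γ → Type} [∀ a, Num (S a)]
    {f : ∀ a, S a ⊕ T a → S a ⊕ T a → β} (hS : PF fun a => Num.N (S a))
    (hT : PF fun a => Num.N (T a))
    (h1 : PF fun p : Pt2 S S => f p.a.a (Sum.inl p.a.x) (Sum.inl p.x))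
    (h2 : PF fun p : Pt2 S T => f p.a.a (Sum.inl p.a.x) (Sum.inr p.x))
    (h3 : PF fun p : Pt2 T S => f p.a.a (Sum.inr p.a.x) (Sum.inl p.x))
    (h4 : PF fun p : Pt2 T T => f p.a.a (Sum.inr p.a.x) (Sum.inr p.x)) :
    PF fun p : Pt2 (fun a => S a ⊕ T a) (fun a => S a ⊕ T a) => f p.a.a p.a.x p.x := by
  have k1 : PF fun p : Pt2 S (fun a => S a ⊕ T a) => f p.a.a (Sum.inl p.a.x) p.x :=
    (pf_cases (fun (p : Pt S) y => f p.a (Sum.inl p.x) y) (hS.comp (pt_a PF.id'))
      (hT.comp (pt_a PF.id')) h1 h2)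
  have k2 : PF fun p : Pt2 T (fun a => S a ⊕ T a) => f p.a.a (Sum.inr p.a.x) p.x :=
    (pf_cases (fun (p : Pt T) y => f p.a (Sum.inr p.x) y) (hS.comp (pt_a PF.id'))
      (hT.comp (pt_a PF.id')) h3 h4)
  exact pf_swap (fun a x y => f a y x)
    (pf_cases (fun (p : Pt fun a => S a ⊕ T a) y => f p.a y p.x)
    (hS.comp (pt_a PF.id')) (hT.comp (pt_a PF.id')) (pf_swap (fun a x y => f a (Sum.inl x) y) k1)
    (pf_swap (fun a x y => f a (Sum.inr x) y) k2))

theorem pf_Ext {E : ∀ a, T a → T a → Prop} {cl : ∀ a, T a → ℕ} {L : γ → List ℕ}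
    (hN : PF fun a => Num.N (T a)) (hE : PF fun p : Pt2 T T => E p.a.a p.a.x p.x)
    (hc : PF fun p : Pt T => cl p.a p.x) (hL : PF L) :
    PF fun p : Pt2 (fun a => T a ⊕ Fin (L a).length) (fun a => T a ⊕ Fin (L a).length) =>
      Ext (E p.a.a) (cl p.a.a) (L p.a.a) p.a.x p.x := by
  refine pf_cases2 (f := fun a => Ext (E a) (cl a) (L a)) hN hL.length hE ?_ ?_ (PF.const False)
  · exact pf_eq (hc.comp (pt_a PF.id'))
      (PF.getD (hL.comp (pt_a (pt_a PF.id'))) (pt_x PF.id') (PF.const 0))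
  · exact pf_eq (pf_at cl hc (pt_a (pt_a PF.id')) (pt_x PF.id'))
      (PF.getD (hL.comp (pt_a (pt_a PF.id'))) (pt_x (pt_a PF.id')) (PF.const 0))

variable [∀ a, Fintype (T a)]

/-- Is there a matching with the prescribed numbers of unmatched nodes? -/
theorem pf_defi {E : ∀ a, T a → T a → Prop} {cl : ∀ a, T a → ℕ} {L : γ → List ℕ}
    (hN : PF fun a => Num.N (T a)) (hE : PF fun p : Pt2 T T => E p.a.a p.a.x p.x)
    (hc : PF fun p : Pt T => cl p.a p.x) (hL : PF L) (sE : ∀ a x y, E a x y → E a y x) :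
    PF fun a => ∃ m, IsM (E a) m ∧ Defi (cl a) (L a) m := by
  classical
  refine pf_iff (pf_pm (pf_Nsum hN hL.length) (pf_Ext hN hE hc hL)
    fun a => Ext_symm (sE a) _ _) fun a => ⟨?_, ?_⟩
  · rintro ⟨m, h1, h2⟩
    obtain ⟨M, k1, k2, -⟩ := ext_of_defi h1 h2
    exact ⟨M, k1, k2⟩
  · rintro ⟨M, h1, h2⟩
    obtain ⟨m, k1, k2, -⟩ := defi_of_ext h1 h2
    exact ⟨m, k1, k2⟩

end Fam2

end Pool.Agent.Lib.MP_ef7581_lc
end

-- part Pool.Agent.Lib.MP_ef7581_lc.DPDefs
section

/-!
Coded instances of the abstract problem and the polynomial-time steps as propositions.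
-/

set_option autoImplicit false

namespace Pool.Agent.Lib.MP_ef7581_lc.D2

open Pool.Agent.Shared.PolyTime Finset

/-- An instance of the abstract problem with numbered agents and items. -/
structure CG : Type where
  k : ℕ
  n : ℕ
  P : Geo (Fin k) (Fin n)

def CG.code (c : CG) : ℕ × ℕ × List (List Prop) × List (List Prop) × List (List Prop) :=
  (c.k, c.n, tabT fun u => tabT fun v => c.P.HH u v, tabT fun j => tabT fun v => c.P.adj j false v,
    tabT fun j => tabT fun v => c.P.adj j true v)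

noncomputable instance encCG : Enc CG := ⟨fun c => Enc.enc c.code⟩

abbrev GJ {γ : Type} (c : γ → CG) : γ → Type := fun a => Fin (c a).k
abbrev GV {γ : Type} (c : γ → CG) : γ → Type := fun a => Fin (c a).n

/-- A polynomial-time family of sub-instances. -/
structure PSub {γ : Type} [Enc γ] (c : γ → CG) (S : ∀ a, Sub (Fin (c a).k) (Fin (c a).n)) :
    Prop where
  A : PF fun p : Pt (GJ c) => p.x ∈ (S p.a).A
  W : PF fun p : Pt (GV c) => p.x ∈ (S p.a).W
  geo : PF fun p : Pt (GJ c) => (S p.a).geo p.x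
  lst : PF fun p : Pt2 (GJ c) (GV c) => (S p.a.a).lst p.a.x p.x
  qm : PF fun p : Pt (GV c) => (S p.a).qm p.x

/-- Matchings with labelled uncovered nodes and a weight bound. -/
def PFLabStmt : Prop :=
  ∀ (γ : Type) [Enc γ] (T : γ → Type) [∀ a, Num (T a)] [∀ a, Fintype (T a)]
    [∀ a, DecidableEq (T a)] (D : Type) [Fintype D] (E : ∀ a, T a → T a → Prop)
    (Ad : ∀ a, D → T a → Prop) (n : γ → D → ℕ) (ω : ∀ a, T a → T a → ℕ) (w : γ → ℕ),
    (PF fun a => Num.N (T a)) → (PF fun p : Pt2 T T => E p.a.a p.a.x p.x) →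
    (∀ d, PF fun p : Pt T => Ad p.a d p.x) → (∀ d, PF fun a => n a d) →
    (PF fun p : Pt2 T T => ω p.a.a p.a.x p.x) → PF w →
    (∀ a x y, E a x y → E a y x) → (∀ a x y, ω a x y = ω a y x) → (∀ a x y, ω a x y ≤ 1) →
    PF fun a => ∃ m, Lab (E a) (Ad a) (n a) m ∧ w a ≤ wt2 (ω a) m

def PFSLStmt : Prop :=
  ∀ (e : ℕ) (γ : Type) [Enc γ] (c : γ → CG) (S : ∀ a, Sub (Fin (c a).k) (Fin (c a).n))
    (l : γ → ℕ), PF c → PSub c S → PF l →
    PF fun a => (c a).P.TestSL Fin.val (S a) e (l a)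

def PFUStmt : Prop := ∀ e c L : ℕ, PF fun a : CG => a.P.UTest Fin.val e c L

def PFRStmt : Prop := ∀ e c t0 c1 L : ℕ, PF fun a : CG => a.P.RTest Fin.val e c t0 c1 L

/-- The reduction of the graph problem to the abstract problem. -/
def RedStmt : Prop :=
  ∃ toCG : InstH twoP1P2 → CG,
    @PF _ _ ⟨InstH.code⟩ _ toCG ∧ ∀ I, I.Yes ↔ (toCG I).P.Feas

end Pool.Agent.Lib.MP_ef7581_lc.D2
end

-- part Pool.Agent.Lib.MP_ef7581_lc.DP0
section

/-!
Toolkit for the polynomial-time steps: numberings of `Bool`, products and tuples, quantifiers over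
constant finite types, polynomial-time families of finite sets, quantifiers over finite sets of
bounded size, and the basic predicates of coded instances.
-/

set_option autoImplicit false

namespace Pool.Agent.Lib.MP_ef7581_lc.D2.DP0

open Pool.Agent.Shared.PolyTime Finset

/-! ### Numberings -/

instance numBool : Num Bool := ⟨2, finTwoEquiv.symm⟩

instance numProd (S T : Type) [Num S] [Num T] : Num (S × T) :=
  ⟨Num.N S * Num.N T, (Equiv.prodCongr Num.e Num.e).trans finProdFinEquiv⟩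

noncomputable instance numFun (D T : Type) [Fintype D] [Num T] : Num (D → T) :=
  ⟨Num.N T ^ Fintype.card D,
    (Equiv.arrowCongr (Fintype.equivFin D) Num.e).trans finFunctionFinEquiv⟩

section NumLemmas

variable {S T D : Type} [Num S] [Num T] [Fintype D]

theorem N_bool : Num.N Bool = 2 := rfl
theorem N_prod : Num.N (S × T) = Num.N S * Num.N T := rfl
theorem N_fun : Num.N (D → T) = Num.N T ^ Fintype.card D := rfl

theorem idx_bool (b : Bool) : idx b = cond b 1 0 := by cases b <;> rfl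

theorem idx_mk (x : S) (y : T) : idx (x, y) = idx y + Num.N T * idx x := rfl

theorem idx_fst (p : S × T) : idx p.1 = idx p / Num.N T := by
  obtain ⟨x, y⟩ := p
  have h := idx_lt y
  rw [idx_mk, Nat.add_mul_div_left _ _ (by omega), Nat.div_eq_of_lt h, zero_add]

theorem idx_snd (p : S × T) : idx p.2 = idx p % Num.N T := by
  obtain ⟨x, y⟩ := p
  rw [idx_mk, Nat.add_mul_mod_self_left, Nat.mod_eq_of_lt (idx_lt y)]

theorem idx_lam (f : D → T) :
    idx f = ∑ d, idx (f d) * Num.N T ^ (Fintype.equivFin D d).val := by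
  rw [← Equiv.sum_comp (Fintype.equivFin D).symm]
  simp only [Equiv.apply_symm_apply]
  rfl

theorem idx_app (f : D → T) (d : D) :
    idx (f d) = idx f / Num.N T ^ (Fintype.equivFin D d).val % Num.N T := by
  have h := congrArg (fun g => (g (Fintype.equivFin D d)).val) (finFunctionFinEquiv.symm_apply_apply
    ((Equiv.arrowCongr (Fintype.equivFin D) (Num.e (T := T))) f))
  simp only [finFunctionFinEquiv_symm_apply_val] at h
  refine Eq.trans ?_ h.symm
  simp [idx]

end NumLemmas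

/-! ### Constant finite types -/

section Const

variable {γ β : Type} [Enc γ] [Enc β]

theorem pf_xor {b c : γ → Bool} (hb : PF b) (hc : PF c) : PF fun a => xor (b a) (c a) :=
  (hb.cond' hc.not' hc).of_eq fun a => by cases b a <;> cases c a <;> rfl

theorem pf_isTrue {b : γ → Bool} (hb : PF b) : PF fun a => b a = true :=
  pf_ofBool hb fun _ => Iff.rfl

theorem pf_eqB {b c : γ → Bool} (hb : PF b) (hc : PF c) : PF fun a => b a = c a :=
  pf_ofBool (hb.beqBool hc) fun a => by simp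

theorem pf_iffP {p q : γ → Prop} (hp : PF p) (hq : PF q) : PF fun a => p a ↔ q a :=
  pf_iff (pf_and (pf_imp hp hq) (pf_imp hq hp)) fun _ => iff_iff_implies_and_implies

/-- From the number of a Boolean value to the value, and back. -/
theorem pf_bool {b : γ → Bool} (hb : PF fun a => idx (b a)) : PF b :=
  (PF.beq hb (PF.const 1)).of_eq fun a => by cases b a <;> rfl

theorem pf_idxB {b : γ → Bool} (hb : PF b) : PF fun a => idx (b a) :=
  (hb.cond' (PF.const 1) (PF.const 0)).of_eq fun _ => (idx_bool _).symm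

theorem pf_caseB (f : γ → Bool → β) {b : γ → Bool} (hb : PF b) (h0 : PF fun a => f a false)
    (h1 : PF fun a => f a true) : PF fun a => f a (b a) :=
  (hb.cond' h1 h0).of_eq fun a => by cases b a <;> rfl

theorem pf_list {ι : Type} {f : γ → ι → β} (h : ∀ i, PF fun a => f a i) (l : List ι) :
    PF fun a => l.map (f a) := by
  induction l with
  | nil => exact PF.const []
  | cons i l ih => exact (h i).cons ih

/-- A value selected by a computed element of a constant numbered type. -/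
theorem pf_sel {ι : Type} [Num ι] (f : γ → ι → β) {d : γ → ι} (hd : PF fun a => idx (d a))
    (h : ∀ i, PF fun a => f a i) : PF fun a => f a (d a) := by
  by_cases hι : Nonempty ι
  · obtain ⟨i⟩ := hι
    exact (PF.getD (l := fun a => tabT (f a)) (pf_list (f := fun a j => f a (Num.e.symm j))
      (fun j => h _) _) hd (h i)).of_eq fun a => getD_tabT _ _ _
  · exact ⟨fun x => x, PT.var 0, fun a => (hι ⟨d a⟩).elim⟩

theorem pf_sumD {ι : Type} {f : γ → ι → ℕ} (h : ∀ i, PF fun a => f a i) (s : Finset ι) :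
    PF fun a => ∑ i ∈ s, f a i :=
  (pf_list h s.toList).sum.of_eq fun a => Finset.sum_map_toList s (f a)

theorem pf_exL {ι : Type} {q : γ → ι → Prop} (h : ∀ i, PF fun a => q a i) (l : List ι) :
    PF fun a => ∃ i ∈ l, q a i := by
  induction l with
  | nil => exact pf_iff (PF.const False) fun a => by simp
  | cons i l ih => exact pf_iff (pf_or (h i) ih) fun a => by simp

/-- Quantifiers over a constant finite type. -/
theorem pf_exD {ι : Type} [Finite ι] {q : γ → ι → Prop} (h : ∀ i, PF fun a => q a i) :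
    PF fun a => ∃ i, q a i := by
  have := Fintype.ofFinite ι
  exact pf_iff (pf_exL h (univ : Finset ι).toList) fun a => by simp

theorem pf_allD {ι : Type} [Finite ι] {q : γ → ι → Prop} (h : ∀ i, PF fun a => q a i) :
    PF fun a => ∀ i, q a i :=
  pf_iff (pf_not (pf_exD (q := fun a i => ¬ q a i) fun i => pf_not (h i))) fun a => by simp

/-- A number below a constant bound. -/
theorem pf_exC (t0 : ℕ) {q : γ → ℕ → Prop} (h : ∀ t, PF fun a => q a t) :
    PF fun a => ∃ t, t < t0 ∧ q a t :=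
  pf_iff (pf_exL h (List.range t0)) fun a => by simp

/-- The number of elements of a constant finite type with a property. -/
theorem pf_cardD {ι : Type} [Fintype ι] {q : γ → ι → Prop} {inst : ∀ a, DecidablePred (q a)}
    (h : ∀ i, PF fun a => q a i) : PF fun a => (@filter _ (q a) (inst a) univ).card :=
  (pf_sumD (f := fun a i => @ite _ (q a i) (inst a i) 1 0)
    (fun i => pf_ite (h i) (PF.const 1) (PF.const 0)) univ).of_eq fun _ => (card_filter _ _).symm

end Const

/-! ### Components -/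

section Comp

variable {γ : Type} [Enc γ] {S T : γ → Type} [∀ a, Num (S a)] [∀ a, Num (T a)]

/-- The base point, the element, and the same for two elements. -/
theorem up : PF fun p : Pt S => p.a := pt_a PF.id'
theorem px : PF fun p : Pt S => idx p.x := pt_x PF.id'
theorem up2 {U : Pt S → Type} [∀ p, Num (U p)] : PF fun p : Pt U => p.a.a := pt_a (pt_a PF.id')
theorem px1 {U : Pt S → Type} [∀ p, Num (U p)] : PF fun p : Pt U => idx p.a.x :=
  pt_x (pt_a PF.id')
theorem up3 {U : Pt S → Type} [∀ p, Num (U p)] {W : Pt U → Type} [∀ p, Num (W p)] :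
    PF fun p : Pt W => p.a.a.a := pt_a (pt_a (pt_a PF.id'))
theorem px2 {U : Pt S → Type} [∀ p, Num (U p)] {W : Pt U → Type} [∀ p, Num (W p)] :
    PF fun p : Pt W => idx p.a.a.x := pt_x (pt_a (pt_a PF.id'))

theorem pf_Nbool : PF fun _ : γ => Num.N Bool := PF.const _

theorem pf_Nprod (h1 : PF fun a => Num.N (S a)) (h2 : PF fun a => Num.N (T a)) :
    PF fun a => Num.N (S a × T a) := h1.mul h2

theorem pf_Nfun (D : Type) [Fintype D] (h : PF fun a => Num.N (T a)) :
    PF fun a => Num.N (D → T a) := h.pow _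

theorem pf_mk {x : ∀ a, S a} {y : ∀ a, T a} (hN : PF fun a => Num.N (T a))
    (hx : PF fun a => idx (x a)) (hy : PF fun a => idx (y a)) : PF fun a => idx (x a, y a) :=
  hy.add (hN.mul hx)

theorem pf_fst {p : ∀ a, S a × T a} (hN : PF fun a => Num.N (T a)) (hp : PF fun a => idx (p a)) :
    PF fun a => idx (p a).1 := (hp.div hN).of_eq fun _ => (idx_fst _).symm

theorem pf_snd {p : ∀ a, S a × T a} (hN : PF fun a => Num.N (T a)) (hp : PF fun a => idx (p a)) :
    PF fun a => idx (p a).2 := (hp.mod hN).of_eq fun _ => (idx_snd _).symm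

theorem pf_app {D : Type} [Fintype D] {f : ∀ a, D → T a} (hN : PF fun a => Num.N (T a))
    (hf : PF fun a => idx (f a)) (d : D) : PF fun a => idx (f a d) :=
  ((hf.div (hN.pow _)).mod hN).of_eq fun _ => (idx_app _ _).symm

theorem pf_lam {D : Type} [Fintype D] {f : ∀ a, D → T a} (hN : PF fun a => Num.N (T a))
    (hf : ∀ d, PF fun a => idx (f a d)) : PF fun a => idx (f a) :=
  (pf_sumD (fun d => (hf d).mul (hN.pow _)) univ).of_eq fun _ => (idx_lam _).symm

/-- A tuple of numbers bounded by a computed number. -/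
theorem pf_exFun {D : Type} [Fintype D] {B : γ → ℕ} {q : γ → (D → ℕ) → Prop} (hB : PF B)
    (h : ∀ (δ : Type) [Enc δ] (g : δ → γ) (n : δ → D → ℕ), PF g → (∀ d, PF fun x => n x d) →
      PF fun x => q (g x) (n x)) : PF fun a => ∃ n, (∀ d, n d ≤ B a) ∧ q a n := by
  have hN : PF fun a => Num.N (Fin (B a + 1)) := hB.add (PF.const 1)
  refine pf_iff (pf_ex (T := fun a => D → Fin (B a + 1))
    (q := fun a f => q a fun d => (f d).val) (pf_Nfun D hN)
    (h (Pt fun a => D → Fin (B a + 1)) (fun p => p.a) (fun p d => (p.x d).val) up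
      fun d => pf_app (hN.comp up) px d))
    fun a => ⟨?_, ?_⟩
  · rintro ⟨n, h1, h2⟩
    exact ⟨fun d => ⟨n d, Nat.lt_succ_of_le (h1 d)⟩, h2⟩
  · rintro ⟨f, hf⟩
    exact ⟨_, fun d => Nat.le_of_lt_succ (f d).2, hf⟩

end Comp

/-! ### Families of finite sets -/

/-- A polynomial-time family of finite sets. -/
abbrev PSet {γ : Type} [Enc γ] {T : γ → Type} [∀ a, Num (T a)] (X : ∀ a, Finset (T a)) : Prop :=
  PF fun p : Pt T => p.x ∈ X p.a

/-- The set of values of a tuple with blanks. -/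
noncomputable def toSet {T : Type} {L : ℕ} (f : Fin L → T ⊕ Fin 1) : Finset T := by
  classical exact (univ.image f).toLeft

theorem mem_toSet {T : Type} {L : ℕ} {f : Fin L → T ⊕ Fin 1} {x : T} :
    x ∈ toSet f ↔ ∃ i, f i = Sum.inl x := by simp [toSet]

theorem card_toSet {T : Type} {L : ℕ} (f : Fin L → T ⊕ Fin 1) : (toSet f).card ≤ L := by
  classical
  unfold toSet
  convert card_toLeft_le.trans (card_image_le.trans_eq (card_fin L))

theorem exists_toSet {T : Type} {L : ℕ} {X : Finset T} (h : X.card ≤ L) :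
    ∃ f : Fin L → T ⊕ Fin 1, toSet f = X := by
  refine ⟨fun i => if hi : i.val < X.card then Sum.inl (X.equivFin.symm ⟨i, hi⟩).1 else Sum.inr 0,
    Finset.ext fun x => ?_⟩
  rw [mem_toSet]
  constructor
  · rintro ⟨i, hi⟩
    split_ifs at hi with h1
    rw [← Sum.inl_injective hi]
    exact (X.equivFin.symm _).2
  · intro hx
    exact ⟨⟨X.equivFin ⟨x, hx⟩, (X.equivFin ⟨x, hx⟩).2.trans_le h⟩, by simp⟩

section Sets

variable {γ : Type} [Enc γ] {S T : γ → Type} [∀ a, Num (S a)] [∀ a, Num (T a)]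
  {X Y : ∀ a, Finset (T a)}

theorem pf_mem (hX : PSet X) {x : ∀ a, T a} (hx : PF fun a => idx (x a)) :
    PF fun a => x a ∈ X a :=
  pf_at (fun a y => y ∈ X a) hX PF.id' hx

theorem pf_nmem (hX : PSet X) {x : ∀ a, T a} (hx : PF fun a => idx (x a)) :
    PF fun a => x a ∉ X a := pf_not (pf_mem hX hx)

/-- Change of the base. -/
theorem pset_comp {δ : Type} [Enc δ] (hX : PSet X) {g : δ → γ} (hg : PF g) :
    PSet (T := fun d => T (g d)) fun d => X (g d) :=
  pf_at (fun a y => y ∈ X a) hX (hg.comp up) px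

theorem pset_up (hX : PSet X) : PSet (T := fun p : Pt S => T p.a) fun p => X p.a :=
  pset_comp hX up

theorem pset_up2 {U : Pt S → Type} [∀ a, Num (U a)] (hX : PSet X) :
    PSet (T := fun p : Pt U => T p.a.a) fun p => X p.a.a := pset_comp hX up2

theorem pset_empty : PSet (T := T) fun _ => ∅ := pf_iff (PF.const False) fun _ => by simp

theorem pset_univ [∀ a, Fintype (T a)] : PSet (T := T) fun _ => univ :=
  pf_iff (PF.const True) fun _ => by simp

theorem pset_singleton {x : ∀ a, T a} (hx : PF fun a => idx (x a)) :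
    PSet (T := T) fun a => {x a} :=
  pf_iff (pf_eqT px (hx.comp up)) fun _ => mem_singleton

theorem pset_filter (hX : PSet X) {q : ∀ a, T a → Prop} {inst : ∀ a, DecidablePred (q a)}
    (hq : PF fun p : Pt T => q p.a p.x) : PSet fun a => @filter _ (q a) (inst a) (X a) :=
  pf_iff (pf_and hX hq) fun _ => mem_filter

theorem pset_toSet {L : ℕ} {f : ∀ a, Fin L → T a ⊕ Fin 1} (hN : PF fun a => Num.N (T a))
    (hf : PF fun a => idx (f a)) : PSet fun a => toSet (f a) :=
  pf_iff (pf_exD (q := fun (p : Pt T) i => f p.a i = Sum.inl p.x) fun i =>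
    pf_eqT ((pf_app (pf_Nsum hN (PF.const 1)) hf i).comp up) (pf_inl px)) fun _ => mem_toSet

theorem pf_exMem (hN : PF fun a => Num.N (T a)) (hX : PSet X) {q : ∀ a, T a → Prop}
    (hq : PF fun p : Pt T => q p.a p.x) : PF fun a => ∃ x ∈ X a, q a x :=
  pf_ex (q := fun a x => x ∈ X a ∧ q a x) hN (pf_and hX hq)

theorem pf_allMem (hN : PF fun a => Num.N (T a)) (hX : PSet X) {q : ∀ a, T a → Prop}
    (hq : PF fun p : Pt T => q p.a p.x) : PF fun a => ∀ x ∈ X a, q a x :=
  pf_all (q := fun a x => x ∈ X a → q a x) hN (pf_imp hX hq)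

theorem pf_subset (hN : PF fun a => Num.N (T a)) (hX : PSet X) (hY : PSet Y) :
    PF fun a => X a ⊆ Y a :=
  pf_iff (pf_allMem hN hX (q := fun a x => x ∈ Y a) hY) fun _ => Iff.rfl

theorem pf_disjoint (hN : PF fun a => Num.N (T a)) (hX : PSet X) (hY : PSet Y) :
    PF fun a => Disjoint (X a) (Y a) :=
  pf_iff (pf_allMem hN hX (q := fun a x => x ∉ Y a) (pf_not hY)) fun _ => disjoint_left

theorem pf_card (hN : PF fun a => Num.N (T a)) (hX : PSet X) : PF fun a => (X a).card := by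
  classical
  have : ∀ a, Fintype (T a) := fun a => Fintype.ofEquiv _ (Num.e (T := T a)).symm
  exact (pf_sumT (f := fun a x => if x ∈ X a then 1 else 0) hN
    (pf_ite hX (PF.const 1) (PF.const 0))).of_eq fun a => by simp

theorem pf_cardF (hN : PF fun a => Num.N (T a)) (hX : PSet X) {q : ∀ a, T a → Prop}
    {inst : ∀ a, DecidablePred (q a)} (hq : PF fun p : Pt T => q p.a p.x) :
    PF fun a => (@filter _ (q a) (inst a) (X a)).card := pf_card hN (pset_filter hX hq)

/-- Existence of a set of bounded size. -/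
theorem pf_exSet (L : ℕ) (hN : PF fun a => Num.N (T a)) {q : ∀ a, Finset (T a) → Prop}
    (h : ∀ (δ : Type) [Enc δ] (g : δ → γ) (Z : ∀ d, Finset (T (g d))), PF g → PSet Z →
      PF fun d => q (g d) (Z d)) : PF fun a => ∃ Z : Finset (T a), Z.card ≤ L ∧ q a Z := by
  refine pf_iff (pf_ex (T := fun a => Fin L → T a ⊕ Fin 1) (q := fun a f => q a (toSet f))
    (pf_Nfun _ (pf_Nsum hN (PF.const 1)))
    (h (Pt fun a => Fin L → T a ⊕ Fin 1) (fun p => p.a) (fun p => toSet p.x) up
      (pset_toSet (hN.comp up) px))) fun a => ⟨?_, ?_⟩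
  · rintro ⟨Z, h1, h2⟩
    obtain ⟨f, rfl⟩ := exists_toSet h1
    exact ⟨f, h2⟩
  · rintro ⟨f, hf⟩
    exact ⟨_, card_toSet f, hf⟩

theorem pf_allSet (L : ℕ) (hN : PF fun a => Num.N (T a)) {q : ∀ a, Finset (T a) → Prop}
    (h : ∀ (δ : Type) [Enc δ] (g : δ → γ) (Z : ∀ d, Finset (T (g d))), PF g → PSet Z →
      PF fun d => q (g d) (Z d)) : PF fun a => ∀ Z : Finset (T a), Z.card ≤ L → q a Z :=
  pf_iff (pf_not (pf_exSet L hN (q := fun a Z => ¬ q a Z) fun δ _ g Z hg hZ =>
    pf_not (h δ g Z hg hZ))) fun a => by simp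

/-- Existence of an element, with a general base. -/
theorem pf_exG (hN : PF fun a => Num.N (T a)) {q : ∀ a, T a → Prop}
    (h : ∀ (δ : Type) [Enc δ] (g : δ → γ) (x : ∀ d, T (g d)), PF g → (PF fun d => idx (x d)) →
      PF fun d => q (g d) (x d)) : PF fun a => ∃ x, q a x :=
  pf_ex hN (h (Pt T) (fun p => p.a) (fun p => p.x) up px)

theorem pf_allG (hN : PF fun a => Num.N (T a)) {q : ∀ a, T a → Prop}
    (h : ∀ (δ : Type) [Enc δ] (g : δ → γ) (x : ∀ d, T (g d)), PF g → (PF fun d => idx (x d)) →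
      PF fun d => q (g d) (x d)) : PF fun a => ∀ x, q a x :=
  pf_all hN (h (Pt T) (fun p => p.a) (fun p => p.x) up px)

variable [∀ a, DecidableEq (T a)]

theorem pset_union (hX : PSet X) (hY : PSet Y) : PSet fun a => X a ∪ Y a :=
  pf_iff (pf_or hX hY) fun _ => mem_union

theorem pset_inter (hX : PSet X) (hY : PSet Y) : PSet fun a => X a ∩ Y a :=
  pf_iff (pf_and hX hY) fun _ => mem_inter

theorem pset_sdiff (hX : PSet X) (hY : PSet Y) : PSet fun a => X a \ Y a :=
  pf_iff (pf_and hX (pf_not hY)) fun _ => mem_sdiff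

theorem pset_insert {x : ∀ a, T a} (hx : PF fun a => idx (x a)) (hX : PSet X) :
    PSet fun a => insert (x a) (X a) :=
  pf_iff (pf_or (pf_eqT px (hx.comp up)) hX) fun _ => mem_insert

theorem pset_pair {x y : ∀ a, T a} (hx : PF fun a => idx (x a)) (hy : PF fun a => idx (y a)) :
    PSet (T := T) fun a => {x a, y a} := pset_insert hx (pset_singleton hy)

theorem pset_biUnion {Z : ∀ a, Finset (S a)} {f : ∀ a, S a → Finset (T a)}
    (hN : PF fun a => Num.N (S a)) (hZ : PSet Z)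
    (hf : PSet (T := fun p : Pt S => T p.a) fun p => f p.a p.x) :
    PSet fun a => (Z a).biUnion (f a) :=
  pf_iff (pf_exMem (T := fun p : Pt T => S p.a) (hN.comp up) (pset_up hZ)
    (q := fun p s => p.x ∈ f p.a s) (pf_swap (fun a s x => x ∈ f a s) hf)) fun _ => mem_biUnion

theorem pset_image {Z : ∀ a, Finset (S a)} {f : ∀ a, S a → T a}
    (hN : PF fun a => Num.N (S a)) (hZ : PSet Z) (hf : PF fun p : Pt S => idx (f p.a p.x)) :
    PSet fun a => (Z a).image (f a) :=
  pf_iff (pset_biUnion (f := fun a s => {f a s}) hN hZ (pset_singleton hf)) fun _ => by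
    simp [eq_comm]

/-- The image of a constant finite set. -/
theorem pset_imageD {ι : Type} (s : Finset ι) {f : ∀ a, ι → T a}
    (hf : ∀ i, PF fun a => idx (f a i)) : PSet fun a => s.image (f a) :=
  pf_iff (pf_exL (q := fun (p : Pt T) i => f p.a i = p.x)
    (fun i => pf_eqT ((hf i).comp up) px) s.toList) fun _ => by simp

end Sets

/-! ### Coded instances -/

/-- The nodes of the auxiliary graphs of a family of instances. -/
abbrev GN {γ : Type} (c : γ → CG) : γ → Type := fun a => Nd (Fin (c a).k) (Fin (c a).n)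

section CG

variable {γ : Type} [Enc γ] {c : γ → CG}

theorem pf_code (hc : PF c) : PF fun a => (c a).code := hc
theorem pf_toCG (h : PF fun a => (c a).code) : PF c := h
theorem pf_k (hc : PF c) : PF fun a => (c a).k := (pf_code hc).fst
theorem pf_n (hc : PF c) : PF fun a => (c a).n := (pf_code hc).snd.fst
theorem pf_Nk (hc : PF c) : PF fun a => Num.N (Fin (c a).k) := pf_k hc
theorem pf_Nn (hc : PF c) : PF fun a => Num.N (Fin (c a).n) := pf_n hc
theorem pf_NN (hc : PF c) : PF fun a => Num.N (GN c a) :=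
  pf_Nsum (pf_Nk hc) (pf_Nsum (pf_Nn hc) (pf_Nk hc))

/-- Sizes of the types of pair services, triple services and members. -/
theorem pf_N2 (hc : PF c) : PF fun a => Num.N (GJ c a × GV c a × GV c a) :=
  pf_Nprod (pf_Nk hc) (pf_Nprod (pf_Nn hc) (pf_Nn hc))
theorem pf_N3 (hc : PF c) : PF fun a => Num.N (GJ c a × GV c a × GV c a × GV c a) :=
  pf_Nprod (pf_Nk hc) (pf_Nprod (pf_Nn hc) (pf_Nprod (pf_Nn hc) (pf_Nn hc)))
theorem pf_NM (hc : PF c) : PF fun a => Num.N (Mb (GJ c a) (GV c a)) :=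
  pf_Nprod (pf_Nk hc) (pf_Nprod pf_Nbool (pf_Nprod (pf_Nn hc) (pf_Nn hc)))

theorem pf_ag {j : ∀ a, Fin (c a).k} (hj : PF fun a => idx (j a)) :
    PF fun a => idx (ag (j a) : GN c a) := hj

theorem pf_vx (hc : PF c) {v : ∀ a, Fin (c a).n} (hv : PF fun a => idx (v a)) :
    PF fun a => idx (vx (v a) : GN c a) := pf_inr (pf_Nk hc) (pf_inl hv)

theorem pf_dm (hc : PF c) {j : ∀ a, Fin (c a).k} (hj : PF fun a => idx (j a)) :
    PF fun a => idx (dm (j a) : GN c a) := pf_inr (pf_Nk hc) (pf_inr (pf_Nn hc) hj)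

theorem pf_node {β : Type} [Enc β] [Inhabited β] (hc : PF c) (f : ∀ a, GN c a → β)
    (h1 : PF fun p : Pt (GJ c) => f p.a (ag p.x)) (h2 : PF fun p : Pt (GV c) => f p.a (vx p.x))
    (h3 : PF fun p : Pt (GJ c) => f p.a (dm p.x)) : PF fun p : Pt (GN c) => f p.a p.x :=
  pf_cases f (pf_Nk hc) (pf_Nsum (pf_Nn hc) (pf_Nk hc)) h1
    (pf_cases (fun a y => f a (Sum.inr y)) (pf_Nn hc) (pf_Nk hc) h2 h3)

theorem pf_node2 {β : Type} [Enc β] [Inhabited β] (hc : PF c) (f : ∀ a, GN c a → GN c a → β)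
    (h11 : PF fun p : Pt2 (GJ c) (GJ c) => f p.a.a (ag p.a.x) (ag p.x))
    (h12 : PF fun p : Pt2 (GJ c) (GV c) => f p.a.a (ag p.a.x) (vx p.x))
    (h13 : PF fun p : Pt2 (GJ c) (GJ c) => f p.a.a (ag p.a.x) (dm p.x))
    (h21 : PF fun p : Pt2 (GV c) (GJ c) => f p.a.a (vx p.a.x) (ag p.x))
    (h22 : PF fun p : Pt2 (GV c) (GV c) => f p.a.a (vx p.a.x) (vx p.x))
    (h23 : PF fun p : Pt2 (GV c) (GJ c) => f p.a.a (vx p.a.x) (dm p.x))
    (h31 : PF fun p : Pt2 (GJ c) (GJ c) => f p.a.a (dm p.a.x) (ag p.x))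
    (h32 : PF fun p : Pt2 (GJ c) (GV c) => f p.a.a (dm p.a.x) (vx p.x))
    (h33 : PF fun p : Pt2 (GJ c) (GJ c) => f p.a.a (dm p.a.x) (dm p.x)) :
    PF fun p : Pt2 (GN c) (GN c) => f p.a.a p.a.x p.x := by
  have k1 := pf_node (c := fun p : Pt (GJ c) => c p.a) (hc.comp up)
    (fun p y => f p.a (ag p.x) y) h11 h12 h13
  have k2 := pf_node (c := fun p : Pt (GV c) => c p.a) (hc.comp up)
    (fun p y => f p.a (vx p.x) y) h21 h22 h23
  have k3 := pf_node (c := fun p : Pt (GJ c) => c p.a) (hc.comp up)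
    (fun p y => f p.a (dm p.x) y) h31 h32 h33
  exact pf_swap (fun a x y => f a y x) (pf_node (c := fun p : Pt (GN c) => c p.a)
    (hc.comp up) (fun p y => f p.a y p.x) (pf_swap (fun a x y => f a (ag x) y) k1)
    (pf_swap (fun a x y => f a (vx x) y) k2) (pf_swap (fun a x y => f a (dm x) y) k3))

section Basic

variable (hc : PF c) {j : ∀ a, Fin (c a).k} {o : γ → Bool} {x y z : ∀ a, Fin (c a).n}

include hc

theorem pf_HH (hx : PF fun a => idx (x a)) (hy : PF fun a => idx (y a)) :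
    PF fun a => (c a).P.HH (x a) (y a) :=
  (PF.getD (PF.getD (pf_code hc).snd.snd.fst hx (PF.const [])) hy (PF.const False)).of_eq
    fun a => by simp only [CG.code, getD_tabT]

theorem pf_adj (hj : PF fun a => idx (j a)) (ho : PF o) (hx : PF fun a => idx (x a)) :
    PF fun a => (c a).P.adj (j a) (o a) (x a) :=
  pf_caseB (fun a b => (c a).P.adj (j a) b (x a)) ho
    ((PF.getD (PF.getD (pf_code hc).snd.snd.snd.fst hj (PF.const [])) hx (PF.const False)).of_eq
      fun a => by simp only [CG.code, getD_tabT])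
    ((PF.getD (PF.getD (pf_code hc).snd.snd.snd.snd hj (PF.const [])) hx (PF.const False)).of_eq
      fun a => by simp only [CG.code, getD_tabT])

theorem pf_C (hj : PF fun a => idx (j a)) (hx : PF fun a => idx (x a)) :
    PF fun a => (c a).P.C (j a) (x a) :=
  pf_and (pf_not (pf_adj hc hj (PF.const false) hx)) (pf_not (pf_adj hc hj (PF.const true) hx))

theorem pf_col (hj : PF fun a => idx (j a)) (ho : PF o) (hx : PF fun a => idx (x a)) :
    PF fun a => (c a).P.col (j a) (o a) (x a) :=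
  pf_and (pf_adj hc hj ho hx) (pf_not (pf_adj hc hj ho.not' hx))

theorem pf_junk (hj : PF fun a => idx (j a)) (hx : PF fun a => idx (x a)) :
    PF fun a => (c a).P.junk (j a) (x a) :=
  pf_and (pf_adj hc hj (PF.const false) hx) (pf_adj hc hj (PF.const true) hx)

theorem pf_Pr (hj : PF fun a => idx (j a)) (hx : PF fun a => idx (x a))
    (hy : PF fun a => idx (y a)) : PF fun a => (c a).P.Pr (j a) (x a) (y a) :=
  pf_and (pf_neT hx hy) (pf_and (pf_not (pf_HH hc hx hy)) (pf_exD fun b =>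
    pf_and (pf_not (pf_adj hc hj (PF.const b) hx)) (pf_not (pf_adj hc hj (PF.const (!b)) hy))))

theorem pf_Tr (hj : PF fun a => idx (j a)) (hx : PF fun a => idx (x a))
    (hz : PF fun a => idx (z a)) (hy : PF fun a => idx (y a)) :
    PF fun a => (c a).P.Tr (j a) (x a) (z a) (y a) :=
  pf_and (pf_neT hx hz) (pf_and (pf_neT hz hy) (pf_and (pf_not (pf_HH hc hx hz))
    (pf_and (pf_not (pf_HH hc hz hy)) (pf_exD fun b =>
      pf_and (pf_not (pf_adj hc hj (PF.const b) hx)) (pf_not (pf_adj hc hj (PF.const (!b)) hy))))))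

theorem pf_Ok (hj : PF fun a => idx (j a)) (hx : PF fun a => idx (x a))
    (hy : PF fun a => idx (y a)) : PF fun a => (c a).P.Ok (j a) (x a) (y a) :=
  pf_or (pf_C hc hj hx) (pf_or (pf_C hc hj hy) (pf_Pr hc hj hx hy))

/-- Components of pair services. -/
theorem s2_1 {s : ∀ a, GJ c a × GV c a × GV c a} (hs : PF fun a => idx (s a)) :
    PF fun a => idx (s a).1 := pf_fst (pf_Nprod (pf_Nn hc) (pf_Nn hc)) hs
theorem s2_2 {s : ∀ a, GJ c a × GV c a × GV c a} (hs : PF fun a => idx (s a)) :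
    PF fun a => idx (s a).2.1 := pf_fst (pf_Nn hc) (pf_snd (pf_Nprod (pf_Nn hc) (pf_Nn hc)) hs)
theorem s2_3 {s : ∀ a, GJ c a × GV c a × GV c a} (hs : PF fun a => idx (s a)) :
    PF fun a => idx (s a).2.2 := pf_snd (pf_Nn hc) (pf_snd (pf_Nprod (pf_Nn hc) (pf_Nn hc)) hs)

/-- Components of triple services. -/
theorem s3_r {s : ∀ a, GJ c a × GV c a × GV c a × GV c a} (hs : PF fun a => idx (s a)) :
    PF fun a => idx (s a).2 := pf_snd (pf_Nprod (pf_Nn hc) (pf_Nprod (pf_Nn hc) (pf_Nn hc))) hs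
theorem s3_1 {s : ∀ a, GJ c a × GV c a × GV c a × GV c a} (hs : PF fun a => idx (s a)) :
    PF fun a => idx (s a).1 := pf_fst (pf_Nprod (pf_Nn hc) (pf_Nprod (pf_Nn hc) (pf_Nn hc))) hs
theorem s3_2 {s : ∀ a, GJ c a × GV c a × GV c a × GV c a} (hs : PF fun a => idx (s a)) :
    PF fun a => idx (s a).2.1 := pf_fst (pf_Nprod (pf_Nn hc) (pf_Nn hc)) (s3_r hc hs)
theorem s3_3 {s : ∀ a, GJ c a × GV c a × GV c a × GV c a} (hs : PF fun a => idx (s a)) :
    PF fun a => idx (s a).2.2.1 :=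
  pf_fst (pf_Nn hc) (pf_snd (pf_Nprod (pf_Nn hc) (pf_Nn hc)) (s3_r hc hs))
theorem s3_4 {s : ∀ a, GJ c a × GV c a × GV c a × GV c a} (hs : PF fun a => idx (s a)) :
    PF fun a => idx (s a).2.2.2 :=
  pf_snd (pf_Nn hc) (pf_snd (pf_Nprod (pf_Nn hc) (pf_Nn hc)) (s3_r hc hs))

/-- Components of members. -/
theorem mb_r {m : ∀ a, Mb (GJ c a) (GV c a)} (hm : PF fun a => idx (m a)) :
    PF fun a => idx (m a).2 := pf_snd (pf_Nprod pf_Nbool (pf_Nprod (pf_Nn hc) (pf_Nn hc))) hm
theorem mb_j {m : ∀ a, Mb (GJ c a) (GV c a)} (hm : PF fun a => idx (m a)) :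
    PF fun a => idx (m a).1 := pf_fst (pf_Nprod pf_Nbool (pf_Nprod (pf_Nn hc) (pf_Nn hc))) hm
theorem mb_o {m : ∀ a, Mb (GJ c a) (GV c a)} (hm : PF fun a => idx (m a)) :
    PF fun a => (m a).2.1 := pf_bool (pf_fst (pf_Nprod (pf_Nn hc) (pf_Nn hc)) (mb_r hc hm))
theorem mb_a {m : ∀ a, Mb (GJ c a) (GV c a)} (hm : PF fun a => idx (m a)) :
    PF fun a => idx (m a).2.2.1 :=
  pf_fst (pf_Nn hc) (pf_snd (pf_Nprod (pf_Nn hc) (pf_Nn hc)) (mb_r hc hm))
theorem mb_b {m : ∀ a, Mb (GJ c a) (GV c a)} (hm : PF fun a => idx (m a)) :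
    PF fun a => idx (m a).2.2.2 :=
  pf_snd (pf_Nn hc) (pf_snd (pf_Nprod (pf_Nn hc) (pf_Nn hc)) (mb_r hc hm))

theorem pf_cA {m : ∀ a, Mb (GJ c a) (GV c a)} (hm : PF fun a => idx (m a))
    (hx : PF fun a => idx (x a)) : PF fun a => (c a).P.cA (m a) (x a) :=
  pf_col hc (mb_j hc hm) (mb_o hc hm) hx

theorem pf_cB {m : ∀ a, Mb (GJ c a) (GV c a)} (hm : PF fun a => idx (m a))
    (hx : PF fun a => idx (x a)) : PF fun a => (c a).P.cB (m a) (x a) :=
  pf_col hc (mb_j hc hm) (mb_o hc hm).not' hx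

theorem pset_ag2 {Γ : ∀ a, Finset (GJ c a × GV c a × GV c a)} (hΓ : PSet Γ) :
    PSet fun a => ag2 (Γ a) := pset_image (pf_N2 hc) hΓ (s2_1 (hc.comp up) px)

theorem pset_it2 {Γ : ∀ a, Finset (GJ c a × GV c a × GV c a)} (hΓ : PSet Γ) :
    PSet fun a => it2 (Γ a) :=
  pset_biUnion (pf_N2 hc) hΓ (pset_pair (s2_2 (hc.comp up) px) (s2_3 (hc.comp up) px))

theorem pset_ag3 {Φ : ∀ a, Finset (GJ c a × GV c a × GV c a × GV c a)} (hΦ : PSet Φ) :
    PSet fun a => ag3 (Φ a) := pset_image (pf_N3 hc) hΦ (s3_1 (hc.comp up) px)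

theorem pset_it3 {Φ : ∀ a, Finset (GJ c a × GV c a × GV c a × GV c a)} (hΦ : PSet Φ) :
    PSet fun a => it3 (Φ a) :=
  pset_biUnion (pf_N3 hc) hΦ (pset_insert (s3_2 (hc.comp up) px)
    (pset_pair (s3_3 (hc.comp up) px) (s3_4 (hc.comp up) px)))

theorem pf_Dis2 {Γ : ∀ a, Finset (GJ c a × GV c a × GV c a)} (hΓ : PSet Γ) :
    PF fun a => Dis2 (Γ a) :=
  pf_allMem (pf_N2 hc) hΓ (pf_allMem (pf_N2 (hc.comp up)) (pset_up hΓ) (pf_imp (pf_neT px1 px)
    (pf_and (pf_neT (s2_1 (hc.comp up2) px1) (s2_1 (hc.comp up2) px))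
      (pf_disjoint (pf_Nn (hc.comp up2))
        (pset_pair (s2_2 (hc.comp up2) px1) (s2_3 (hc.comp up2) px1))
        (pset_pair (s2_2 (hc.comp up2) px) (s2_3 (hc.comp up2) px))))))

theorem pf_Dis3 {Φ : ∀ a, Finset (GJ c a × GV c a × GV c a × GV c a)} (hΦ : PSet Φ) :
    PF fun a => Dis3 (Φ a) :=
  pf_allMem (pf_N3 hc) hΦ (pf_allMem (pf_N3 (hc.comp up)) (pset_up hΦ) (pf_imp (pf_neT px1 px)
    (pf_and (pf_neT (s3_1 (hc.comp up2) px1) (s3_1 (hc.comp up2) px))
      (pf_disjoint (pf_Nn (hc.comp up2))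
        (pset_insert (s3_2 (hc.comp up2) px1)
          (pset_pair (s3_3 (hc.comp up2) px1) (s3_4 (hc.comp up2) px1)))
        (pset_insert (s3_2 (hc.comp up2) px)
          (pset_pair (s3_3 (hc.comp up2) px) (s3_4 (hc.comp up2) px)))))))

theorem pset_fagF {ι : Type} [Fintype ι] {F : ∀ a, ι → Mb (GJ c a) (GV c a)}
    (hF : ∀ r, PF fun a => idx (F a r)) : PSet fun a => fagF (F a) :=
  pset_imageD univ fun r => mb_j hc (hF r)

theorem pset_fitF {ι : Type} [Fintype ι] {F : ∀ a, ι → Mb (GJ c a) (GV c a)}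
    (hF : ∀ r, PF fun a => idx (F a r)) : PSet fun a => fitF (F a) :=
  pset_union (pset_imageD univ fun r => mb_a hc (hF r)) (pset_imageD univ fun r => mb_b hc (hF r))

omit hc in
theorem pf_inj {ι : Type} [Finite ι] {T : γ → Type} [∀ a, Num (T a)] {f : ∀ a, ι → T a}
    (hf : ∀ r, PF fun a => idx (f a r)) : PF fun a => Function.Injective (f a) :=
  pf_allD fun r => pf_allD fun r' => pf_imp (pf_eqT (hf r) (hf r')) (PF.const (r = r'))

theorem pf_DisF {ι : Type} [Finite ι] {F : ∀ a, ι → Mb (GJ c a) (GV c a)}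
    (hF : ∀ r, PF fun a => idx (F a r)) : PF fun a => DisF (F a) :=
  pf_and (pf_inj fun r => mb_j hc (hF r)) (pf_inj fun r => by
    rcases r with r | r
    exacts [mb_a hc (hF r), mb_b hc (hF r)])

end Basic

section SubI

variable {S : ∀ a, Sub (Fin (c a).k) (Fin (c a).n)}

theorem psub_A (hS : PSub c S) : PSet fun a => (S a).A := hS.A
theorem psub_W (hS : PSub c S) : PSet fun a => (S a).W := hS.W

theorem psub_mk (hA : PSet fun a => (S a).A) (hW : PSet fun a => (S a).W)
    (h1 : PF fun p : Pt (GJ c) => (S p.a).geo p.x)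
    (h2 : PF fun p : Pt2 (GJ c) (GV c) => (S p.a.a).lst p.a.x p.x)
    (h3 : PF fun p : Pt (GV c) => (S p.a).qm p.x) : PSub c S := ⟨hA, hW, h1, h2, h3⟩

/-- Change of the base for sub-instances. -/
theorem psub_comp {δ : Type} [Enc δ] (hS : PSub c S) {g : δ → γ} (hg : PF g) :
    PSub (fun d => c (g d)) fun d => S (g d) :=
  psub_mk (pset_comp (psub_A hS) hg) (pset_comp (psub_W hS) hg)
    (pf_at (fun a j => (S a).geo j) hS.geo (hg.comp up) px)
    (pf_at2 (fun a j v => (S a).lst j v) hS.lst (hg.comp up2) px1 px)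
    (pf_at (fun a v => (S a).qm v) hS.qm (hg.comp up) px)

theorem pf_geo (hS : PSub c S) {j : ∀ a, Fin (c a).k} (hj : PF fun a => idx (j a)) :
    PF fun a => (S a).geo (j a) := pf_at (fun a j => (S a).geo j) hS.geo PF.id' hj

theorem pf_lst (hS : PSub c S) {j : ∀ a, Fin (c a).k} {v : ∀ a, Fin (c a).n}
    (hj : PF fun a => idx (j a)) (hv : PF fun a => idx (v a)) :
    PF fun a => (S a).lst (j a) (v a) := pf_at2 (fun a j v => (S a).lst j v) hS.lst PF.id' hj hv

theorem pf_qm (hS : PSub c S) {v : ∀ a, Fin (c a).n} (hv : PF fun a => idx (v a)) :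
    PF fun a => (S a).qm (v a) := pf_at (fun a v => (S a).qm v) hS.qm PF.id' hv

theorem psub_rem (hS : PSub c S) {B : ∀ a, Finset (GJ c a)} {U : ∀ a, Finset (GV c a)}
    (hB : PSet B) (hU : PSet U) : PSub c fun a => (S a).rem (B a) (U a) :=
  psub_mk (pset_sdiff (psub_A hS) hB) (pset_sdiff (psub_W hS) hU) hS.geo hS.lst hS.qm

theorem psub_lev (hS : PSub c S) {R : ∀ a, GJ c a → Prop} (hR : PF fun p : Pt (GJ c) => R p.a p.x) :
    PSub c fun a => (S a).lev (R a) :=
  ⟨hS.A, hS.W, pf_and hS.geo hR, pf_or hS.lst (pf_and (pf_not (hR.comp up))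
    (pf_not (pf_qm (psub_comp hS up2) px))), hS.qm⟩

theorem psub_pl (hc : PF c) {A : ∀ a, Finset (GJ c a)} {W : ∀ a, Finset (GV c a)} (hA : PSet A)
    (hW : PSet W) : PSub c fun a => (c a).P.pl (A a) (W a) :=
  ⟨hA, hW, PF.const True, pf_C (hc.comp up2) px1 px, PF.const False⟩

theorem pf_Serv2 (hc : PF c) (hS : PSub c S) {j : ∀ a, Fin (c a).k} {s : ∀ a, Finset (GV c a)}
    (hj : PF fun a => idx (j a)) (hs : PSet s) : PF fun a => (c a).P.Serv2 (S a) (j a) (s a) :=
  pf_or (pf_exMem (pf_Nn hc) hs (pf_lst (psub_comp hS up) (hj.comp up) px))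
    (pf_and (pf_geo hS hj) (pf_exMem (pf_Nn hc) hs (pf_exMem (pf_Nn (hc.comp up)) (pset_up hs)
      (pf_Pr (hc.comp up2) (hj.comp up2) px1 px))))

theorem pf_Serv3 (hc : PF c) (hS : PSub c S) {j : ∀ a, Fin (c a).k} {s : ∀ a, Finset (GV c a)}
    (hj : PF fun a => idx (j a)) (hs : PSet s) : PF fun a => (c a).P.Serv3 (S a) (j a) (s a) :=
  pf_or (pf_Serv2 hc hS hj hs)
    (pf_and (pf_geo hS hj) (pf_exMem (pf_Nn hc) hs (pf_exMem (pf_Nn (hc.comp up)) (pset_up hs)
      (pf_exMem (pf_Nn (hc.comp up2)) (pset_up2 hs)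
        (pf_Tr (hc.comp up3) (hj.comp up3) px2 px1 px)))))

theorem pf_PhiOk (hc : PF c) {Φ : ∀ a, Finset (GJ c a × GV c a × GV c a × GV c a)}
    (hΦ : PSet Φ) : PF fun a => (c a).P.PhiOk (Φ a) :=
  pf_and (pf_allMem (pf_N3 hc) hΦ (pf_Serv3 (hc.comp up) (psub_pl (hc.comp up) pset_univ pset_univ)
    (s3_1 (hc.comp up) px) (pset_insert (s3_2 (hc.comp up) px)
      (pset_pair (s3_3 (hc.comp up) px) (s3_4 (hc.comp up) px))))) (pf_Dis3 hc hΦ)

end SubI

end CG

end Pool.Agent.Lib.MP_ef7581_lc.D2.DP0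
end
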