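import Mathlib
import Pool.Agent.Lib.MP_ef7581_lc.DP0

/-!
The test of the consistent case is decidable in polynomial time.
-/

set_option autoImplicit false

namespace Pool.Agent.Lib.MP_ef7581_lc.D2.DPR

open Pool.Agent.Shared.PolyTime Finset Classical

section Gen

variable {γ : Type} [Enc γ]

theorem exC {D : Type} [Fintype D] {q : γ → D → Prop} (h : ∀ d, PF fun a => q a d) :
    PF fun a => ∃ d, q a d := by
  have key : ∀ s : Finset D, PF fun a => ∃ d ∈ s, q a d := fun s => by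
    induction s using Finset.induction_on with
    | empty => exact pf_iff (PF.const False) fun a => by simp
    | insert d s _ ih => exact pf_iff (pf_or (h d) ih) fun a => by simp
  exact pf_iff (key univ) fun a => by simp

theorem allC {D : Type} [Fintype D] {q : γ → D → Prop} (h : ∀ d, PF fun a => q a d) :
    PF fun a => ∀ d, q a d :=
  pf_iff (pf_not (exC (q := fun a d => ¬ q a d) fun d => pf_not (h d))) fun a => by simp

theorem sumC {D : Type} [Fintype D] {f : γ → D → ℕ} (h : ∀ d, PF fun a => f a d) :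
    PF fun a => ∑ d, f a d := by
  have key : ∀ s : Finset D, PF fun a => ∑ d ∈ s, f a d := fun s => by
    induction s using Finset.induction_on with
    | empty => exact (PF.const 0).of_eq fun a => by simp
    | insert d s hd ih => exact ((h d).add ih).of_eq fun a => by rw [sum_insert hd]
  exact key univ

theorem cardC {D : Type} [Fintype D] {q : γ → D → Prop} {inst : ∀ a, DecidablePred (q a)}
    (h : ∀ d, PF fun a => q a d) : PF fun a => (@filter D (q a) (inst a) univ).card :=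
  (sumC (f := fun a d => @ite ℕ (q a d) (inst a d) 1 0)
    fun d => pf_ite (h d) (PF.const 1) (PF.const 0)).of_eq fun a => by rw [card_filter]

theorem exltC {N : ℕ} {q : γ → ℕ → Prop} (h : ∀ i, PF fun a => q a i) :
    PF fun a => ∃ i, i < N ∧ q a i :=
  pf_iff (exC (D := Fin N) (q := fun a i => q a i.val) fun i => h i.val) fun _ =>
    ⟨fun ⟨i, hi, hq⟩ => ⟨⟨i, hi⟩, hq⟩, fun ⟨i, hq⟩ => ⟨i.val, i.2, hq⟩⟩

theorem cardS {T : γ → Type} [∀ a, Num (T a)] [∀ a, Fintype (T a)] {A : ∀ a, Finset (T a)}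
    (hN : PF fun a => Num.N (T a)) (h : PF fun p : Pt T => p.x ∈ A p.a) :
    PF fun a => (A a).card :=
  (pf_sumT (f := fun a x => if x ∈ A a then 1 else 0) hN
    (pf_ite h (PF.const 1) (PF.const 0))).of_eq fun a => by simp

theorem exFin (m : ℕ) : ∀ {γ : Type} [Enc γ] {T : γ → Type} [∀ a, Num (T a)]
    (q : ∀ a, (Fin m → T a) → Prop), (PF fun a => Num.N (T a)) →
    (∀ (δ : Type) [Enc δ] (g : δ → γ) (f : ∀ d, Fin m → T (g d)), PF g →
      (∀ i, PF fun d => idx (f d i)) → PF fun d => q (g d) (f d)) →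
    PF fun a => ∃ f, q a f := by
  induction m with
  | zero =>
    intro γ _ T _ q _ H
    refine pf_iff (H γ (fun a => a) (fun _ i => i.elim0) PF.id' fun i => i.elim0) fun a => ?_
    exact ⟨fun ⟨f, hf⟩ => (funext fun i => i.elim0 : f = fun i => i.elim0) ▸ hf, fun h => ⟨_, h⟩⟩
  | succ m ih =>
    intro γ _ T _ q hN H
    refine pf_iff (pf_ex (q := fun a x => ∃ f : Fin m → T a, q a (Fin.cons x f)) hN ?_) fun a => ?_
    · refine ih (γ := Pt T) (T := fun p => T p.a) (fun p f => q p.a (Fin.cons p.x f))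
        (hN.comp (pt_a PF.id')) fun δ _ g f hg hf => ?_
      refine H δ (fun d => (g d).a) (fun d => Fin.cons (g d).x (f d)) (pt_a hg) fun i => ?_
      induction i using Fin.cases with
      | zero => exact pt_x hg
      | succ i => exact hf i
    · exact ⟨fun ⟨f, hf⟩ => ⟨f 0, Fin.tail f, by rwa [Fin.cons_self_tail]⟩,
        fun ⟨x, f, hf⟩ => ⟨_, hf⟩⟩

/-- Existence of a tuple of constant length. -/
theorem exFun {D : Type} [Fintype D] {T : γ → Type} [∀ a, Num (T a)]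
    (q : ∀ a, (D → T a) → Prop) (hN : PF fun a => Num.N (T a))
    (H : ∀ (δ : Type) [Enc δ] (g : δ → γ) (f : ∀ d, D → T (g d)), PF g →
      (∀ i, PF fun d => idx (f d i)) → PF fun d => q (g d) (f d)) :
    PF fun a => ∃ f, q a f := by
  let e := Fintype.equivFin D
  refine pf_iff (exFin (Fintype.card D) (fun a f => q a fun i => f (e i)) hN
    fun δ _ g f hg hf => H δ g (fun d i => f d (e i)) hg fun i => hf (e i)) fun a => ?_
  exact ⟨fun ⟨f, hf⟩ => ⟨fun i => f (e.symm i), by simpa using hf⟩, fun ⟨f, hf⟩ => ⟨_, hf⟩⟩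

theorem ex_card_le {X : Type} [DecidableEq X] (L : ℕ) (q : Finset X → Prop) :
    (∃ Φ : Finset X, Φ.card ≤ L ∧ q Φ) ↔
      ∃ m, m < L + 1 ∧ ∃ φ : Fin m → X, q (univ.image φ) := by
  constructor
  · rintro ⟨Φ, h, hq⟩
    refine ⟨Φ.card, by omega, fun i => (Φ.equivFin.symm i).1, ?_⟩
    convert hq
    ext x
    simp only [mem_image, mem_univ, true_and]
    exact ⟨fun ⟨i, hi⟩ => hi ▸ (Φ.equivFin.symm i).2,
      fun hx => ⟨Φ.equivFin ⟨x, hx⟩, by simp⟩⟩
  · rintro ⟨m, hm, φ, hq⟩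
    refine ⟨_, card_image_le.trans ?_, hq⟩
    simp only [card_univ, Fintype.card_fin]
    omega

theorem bnot {o : γ → Bool} (ho : PF fun a => o a = true) : PF fun a => (!o a) = true :=
  pf_iff (pf_not ho) fun a => by simp

theorem x1 {S T : γ → Type} [∀ a, Num (S a)] [∀ a, Num (T a)] :
    PF fun p : Pt2 S T => idx p.a.x := pt_x (pt_a PF.id')

theorem x2 {S : γ → Type} [∀ a, Num (S a)] : PF fun p : Pt S => idx p.x := pt_x PF.id'

theorem b1 {S : γ → Type} [∀ a, Num (S a)] : PF fun p : Pt S => p.a := pt_a PF.id'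

theorem b2 {S T : γ → Type} [∀ a, Num (S a)] [∀ a, Num (T a)] :
    PF fun p : Pt2 S T => p.a.a := pt_a (pt_a PF.id')

end Gen

section Basic

variable {γ : Type} [Enc γ] {c : γ → CG}

abbrev GN {γ : Type} (c : γ → CG) : γ → Type := fun a => Nd (Fin (c a).k) (Fin (c a).n)

theorem pcode (hc : PF c) : PF fun a => (c a).code := hc
theorem pNk (hc : PF c) : PF fun a => Num.N (Fin (c a).k) := (pcode hc).fst
theorem pNn (hc : PF c) : PF fun a => Num.N (Fin (c a).n) := (pcode hc).snd.fst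
theorem pNN (hc : PF c) : PF fun a => Num.N (GN c a) :=
  pf_Nsum (pNk hc) (pf_Nsum (pNn hc) (pNk hc))

theorem pHH (hc : PF c) {u v : ∀ a, Fin (c a).n} (hu : PF fun a => idx (u a))
    (hv : PF fun a => idx (v a)) : PF fun a => (c a).P.HH (u a) (v a) :=
  (PF.getD (PF.getD (pcode hc).snd.snd.fst hu (PF.const [])) hv (PF.const False)).of_eq
    fun a => by simp only [CG.code, getD_tabT]

section JV

variable (hc : PF c) {j : ∀ a, Fin (c a).k} {v : ∀ a, Fin (c a).n}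
  (hj : PF fun a => idx (j a)) (hv : PF fun a => idx (v a))

include hc hj hv

theorem padjF : PF fun a => (c a).P.adj (j a) false (v a) :=
  (PF.getD (PF.getD (pcode hc).snd.snd.snd.fst hj (PF.const [])) hv (PF.const False)).of_eq
    fun a => by simp only [CG.code, getD_tabT]

theorem padjT : PF fun a => (c a).P.adj (j a) true (v a) :=
  (PF.getD (PF.getD (pcode hc).snd.snd.snd.snd hj (PF.const [])) hv (PF.const False)).of_eq
    fun a => by simp only [CG.code, getD_tabT]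

theorem padj {o : γ → Bool} (ho : PF fun a => o a = true) :
    PF fun a => (c a).P.adj (j a) (o a) (v a) :=
  pf_iff (pf_or (pf_and ho (padjT hc hj hv)) (pf_and (pf_not ho) (padjF hc hj hv))) fun a => by
    cases o a <;> simp

theorem pC : PF fun a => (c a).P.C (j a) (v a) :=
  pf_and (pf_not (padjF hc hj hv)) (pf_not (padjT hc hj hv))

theorem pcol {o : γ → Bool} (ho : PF fun a => o a = true) :
    PF fun a => (c a).P.col (j a) (o a) (v a) :=
  pf_and (padj hc hj hv ho) (pf_not (padj hc hj hv (bnot ho)))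

variable {u : ∀ a, Fin (c a).n} (hu : PF fun a => idx (u a))

include hu

theorem pends : PF fun a => ∃ o, ¬ (c a).P.adj (j a) o (v a) ∧ ¬ (c a).P.adj (j a) (!o) (u a) :=
  exC fun o => pf_and (pf_not (padj hc hj hv (PF.const (o = true))))
    (pf_not (padj hc hj hu (PF.const ((!o) = true))))

theorem pPr : PF fun a => (c a).P.Pr (j a) (v a) (u a) :=
  pf_and (pf_neT hv hu) (pf_and (pf_not (pHH hc hv hu)) (pends hc hj hv hu))

theorem pOk : PF fun a => (c a).P.Ok (j a) (v a) (u a) :=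
  pf_or (pC hc hj hv) (pf_or (pC hc hj hu) (pPr hc hj hv hu))

theorem pTr {z : ∀ a, Fin (c a).n} (hz : PF fun a => idx (z a)) :
    PF fun a => (c a).P.Tr (j a) (v a) (z a) (u a) :=
  pf_and (pf_neT hv hz) (pf_and (pf_neT hz hu) (pf_and (pf_not (pHH hc hv hz))
    (pf_and (pf_not (pHH hc hz hu)) (pends hc hj hv hu))))

end JV

theorem pnode {β : Type} [Enc β] [Inhabited β] (hc : PF c) (f : ∀ a, GN c a → β)
    (h1 : PF fun p : Pt (GJ c) => f p.a (ag p.x)) (h2 : PF fun p : Pt (GV c) => f p.a (vx p.x))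
    (h3 : PF fun p : Pt (GJ c) => f p.a (dm p.x)) : PF fun p : Pt (GN c) => f p.a p.x :=
  pf_cases f (pNk hc) (pf_Nsum (pNn hc) (pNk hc)) h1
    (pf_cases (fun a y => f a (Sum.inr y)) (pNn hc) (pNk hc) h2 h3)

theorem pnode2 {β : Type} [Enc β] [Inhabited β] (hc : PF c) (f : ∀ a, GN c a → GN c a → β)
    (h11 : PF fun p : Pt2 (GJ c) (GJ c) => f p.a.a (ag p.a.x) (ag p.x))
    (h12 : PF fun p : Pt2 (GJ c) (GV c) => f p.a.a (ag p.a.x) (vx p.x))
    (h13 : PF fun p : Pt2 (GJ c) (GJ c) => f p.a.a (ag p.a.x) (dm p.x))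
    (h21 : PF fun p : Pt2 (GV c) (GJ c) => f p.a.a (vx p.a.x) (ag p.x))
    (h22 : PF fun p : Pt2 (GV c) (GV c) => f p.a.a (vx p.a.x) (vx p.x))
    (h23 : PF fun p : Pt2 (GV c) (GJ c) => f p.a.a (vx p.a.x) (dm p.x))
    (h31 : PF fun p : Pt2 (GJ c) (GJ c) => f p.a.a (dm p.a.x) (ag p.x))
    (h32 : PF fun p : Pt2 (GJ c) (GV c) => f p.a.a (dm p.a.x) (vx p.x))
    (h33 : PF fun p : Pt2 (GJ c) (GJ c) => f p.a.a (dm p.a.x) (dm p.x)) :
    PF fun p : Pt2 (GN c) (GN c) => f p.a.a p.a.x p.x := by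
  have k1 := pnode (c := fun p : Pt (GJ c) => c p.a) (hc.comp b1)
    (fun p y => f p.a (ag p.x) y) h11 h12 h13
  have k2 := pnode (c := fun p : Pt (GV c) => c p.a) (hc.comp b1)
    (fun p y => f p.a (vx p.x) y) h21 h22 h23
  have k3 := pnode (c := fun p : Pt (GJ c) => c p.a) (hc.comp b1)
    (fun p y => f p.a (dm p.x) y) h31 h32 h33
  exact pf_swap (fun a x y => f a y x) (pnode (c := fun p : Pt (GN c) => c p.a)
    (hc.comp b1) (fun p y => f p.a y p.x) (pf_swap (fun a x y => f a (ag x) y) k1)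
    (pf_swap (fun a x y => f a (vx x) y) k2) (pf_swap (fun a x y => f a (dm x) y) k3))

end Basic

section Members

variable {γ : Type} [Enc γ] {c : γ → CG}

/-- A polynomial-time choice of a member. -/
structure PM (c : γ → CG) (m : ∀ a, Mb (Fin (c a).k) (Fin (c a).n)) : Prop where
  j : PF fun a => idx (m a).1
  o : PF fun a => (m a).2.1 = true
  x : PF fun a => idx (m a).2.2.1
  y : PF fun a => idx (m a).2.2.2

theorem PM.comp {m : ∀ a, Mb (Fin (c a).k) (Fin (c a).n)} (h : PM c m) {δ : Type} [Enc δ]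
    {g : δ → γ} (hg : PF g) : PM (fun d => c (g d)) fun d => m (g d) :=
  ⟨h.j.comp hg, h.o.comp hg, h.x.comp hg, h.y.comp hg⟩

theorem exMb (hc : PF c) {D : Type} [Fintype D]
    (q : ∀ a, (D → Mb (Fin (c a).k) (Fin (c a).n)) → Prop)
    (H : ∀ (δ : Type) [Enc δ] (g : δ → γ) (F : ∀ d, D → Mb (Fin (c (g d)).k) (Fin (c (g d)).n)),
      PF g → (∀ r, PM (fun d => c (g d)) fun d => F d r) → PF fun d => q (g d) (F d)) :
    PF fun a => ∃ F, q a F := by
  refine pf_iff (exC (D := D → Bool) (q := fun a o => ∃ f1 : D → Fin (c a).k,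
    ∃ f2 : D → Fin (c a).n, ∃ f3 : D → Fin (c a).n, q a fun r => (f1 r, o r, f2 r, f3 r))
    fun o => ?_) fun a => ?_
  · refine exFun (T := GJ c) _ (pNk hc) fun δ1 _ g1 f1 hg1 hf1 => ?_
    refine exFun (T := fun d => GV c (g1 d)) _ (pNn (hc.comp hg1)) fun δ2 _ g2 f2 hg2 hf2 => ?_
    refine exFun (T := fun d => GV c (g1 (g2 d))) _ (pNn (hc.comp (hg1.comp hg2)))
      fun δ3 _ g3 f3 hg3 hf3 => ?_
    exact H δ3 (fun d => g1 (g2 (g3 d)))
      (fun d r => (f1 (g2 (g3 d)) r, o r, f2 (g3 d) r, f3 d r)) (hg1.comp (hg2.comp hg3))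
      fun r => ⟨(hf1 r).comp (hg2.comp hg3), PF.const (o r = true), (hf2 r).comp hg3, hf3 r⟩
  · exact ⟨fun ⟨F, hF⟩ => ⟨fun r => (F r).2.1, fun r => (F r).1, fun r => (F r).2.2.1,
      fun r => (F r).2.2.2, hF⟩, fun ⟨_, _, _, _, hF⟩ => ⟨_, hF⟩⟩

/-- The items of an installed service. -/
def qi {J V : Type} (s : J × V × V × V) : Fin 3 → V := ![s.2.1, s.2.2.1, s.2.2.2]

theorem mem_q {J V : Type} [DecidableEq V] (s : J × V × V × V) (v : V) :
    v ∈ ({s.2.1, s.2.2.1, s.2.2.2} : Finset V) ↔ ∃ i, qi s i = v := by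
  simp only [mem_insert, mem_singleton, Fin.exists_fin_succ, qi]
  simp [eq_comm]

theorem eq_q {J V : Type} (s s' : J × V × V × V) :
    s = s' ↔ s.1 = s'.1 ∧ ∀ i, qi s i = qi s' i := by
  refine ⟨fun h => h ▸ ⟨rfl, fun _ => rfl⟩, fun ⟨h1, h2⟩ => ?_⟩
  exact Prod.ext h1 (Prod.ext (h2 0) (Prod.ext (h2 1) (h2 2)))

/-- A polynomial-time choice of an installed service. -/
structure PQ (c : γ → CG) (s : ∀ a, Fin (c a).k × Fin (c a).n × Fin (c a).n × Fin (c a).n) :
    Prop where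
  j : PF fun a => idx (s a).1
  x : ∀ i, PF fun a => idx (qi (s a) i)

theorem PQ.comp {s : ∀ a, Fin (c a).k × Fin (c a).n × Fin (c a).n × Fin (c a).n} (h : PQ c s)
    {δ : Type} [Enc δ] {g : δ → γ} (hg : PF g) : PQ (fun d => c (g d)) fun d => s (g d) :=
  ⟨h.j.comp hg, fun i => (h.x i).comp hg⟩

theorem exQ (hc : PF c) {D : Type} [Fintype D]
    (q : ∀ a, (D → Fin (c a).k × Fin (c a).n × Fin (c a).n × Fin (c a).n) → Prop)
    (H : ∀ (δ : Type) [Enc δ] (g : δ → γ)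
      (F : ∀ d, D → Fin (c (g d)).k × Fin (c (g d)).n × Fin (c (g d)).n × Fin (c (g d)).n),
      PF g → (∀ r, PQ (fun d => c (g d)) fun d => F d r) → PF fun d => q (g d) (F d)) :
    PF fun a => ∃ F, q a F := by
  refine pf_iff (q := fun a => ∃ F, q a F) (p := fun a => ∃ f1 : D → Fin (c a).k,
    ∃ f2 : D × Fin 3 → Fin (c a).n, q a fun r => (f1 r, f2 (r, 0), f2 (r, 1), f2 (r, 2)))
    ?_ fun a => ?_
  · refine exFun (T := GJ c) _ (pNk hc) fun δ1 _ g1 f1 hg1 hf1 => ?_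
    refine exFun (T := fun d => GV c (g1 d)) _ (pNn (hc.comp hg1)) fun δ2 _ g2 f2 hg2 hf2 => ?_
    refine H δ2 (fun d => g1 (g2 d))
      (fun d r => (f1 (g2 d) r, f2 d (r, 0), f2 d (r, 1), f2 d (r, 2))) (hg1.comp hg2)
      fun r => ⟨(hf1 r).comp hg2, fun i => (hf2 (r, i)).of_eq fun d => ?_⟩
    fin_cases i <;> rfl
  · exact ⟨fun ⟨F, hF⟩ => ⟨fun r => (F r).1, fun z => qi (F z.1) z.2, hF⟩,
      fun ⟨_, _, hF⟩ => ⟨_, hF⟩⟩

theorem pcA (hc : PF c) {m : ∀ a, Mb (Fin (c a).k) (Fin (c a).n)} (hm : PM c m)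
    {v : ∀ a, Fin (c a).n} (hv : PF fun a => idx (v a)) : PF fun a => (c a).P.cA (m a) (v a) :=
  pcol hc hm.j hv hm.o

theorem pcB (hc : PF c) {m : ∀ a, Mb (Fin (c a).k) (Fin (c a).n)} (hm : PM c m)
    {v : ∀ a, Fin (c a).n} (hv : PF fun a => idx (v a)) : PF fun a => (c a).P.cB (m a) (v a) :=
  pcol hc hm.j hv (bnot hm.o)

section Fam

variable {D : Type} {F : ∀ a, D → Mb (Fin (c a).k) (Fin (c a).n)}

theorem pDisF [Fintype D] (hF : ∀ r, PM c fun a => F a r) : PF fun a => DisF (F a) := by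
  refine pf_and (allC fun r => allC fun r' => pf_imp (pf_eqT (hF r).j (hF r').j) (PF.const _))
    (allC fun r => allC fun r' => pf_imp (pf_eqT ?_ ?_) (PF.const _))
  · rcases r with r | r
    · exact (hF r).x
    · exact (hF r).y
  · rcases r' with r | r
    · exact (hF r).x
    · exact (hF r).y

theorem pfag [Fintype D] (hF : ∀ r, PM c fun a => F a r) :
    PF fun p : Pt (GJ c) => p.x ∈ fagF (F p.a) :=
  pf_iff (exC fun r => pf_eqT ((hF r).j.comp b1) x2) fun p => by simp [fagF]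

theorem pfit [Fintype D] (hF : ∀ r, PM c fun a => F a r) :
    PF fun p : Pt (GV c) => p.x ∈ fitF (F p.a) :=
  pf_iff (pf_or (exC fun r => pf_eqT ((hF r).x.comp b1) x2)
    (exC fun r => pf_eqT ((hF r).y.comp b1) x2)) fun p => by simp [fitF]

end Fam

section FamN

variable (hc : PF c) {N : ℕ} {F : ∀ a, Fin N → Mb (Fin (c a).k) (Fin (c a).n)}
  (hF : ∀ r, PM c fun a => F a r)

include hc hF

theorem pCFam : PF fun a => (c a).P.CFam (F a) :=
  pf_and (allC fun r => allC fun r' => pf_and (pcA hc (hF r) (hF r').x) (pcB hc (hF r) (hF r').y))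
    (allC fun r => pf_not (pHH hc (hF r).x (hF r).y))

variable {h : γ → ℕ} (hh : PF h)

include hh

theorem pXs {v : ∀ a, Fin (c a).n} (hv : PF fun a => idx (v a)) :
    PF fun a => (c a).P.Xs (F a) (h a) (v a) :=
  pf_lt (cardC fun r => pf_not (pcA hc (hF r) hv)) hh

theorem pYs {v : ∀ a, Fin (c a).n} (hv : PF fun a => idx (v a)) :
    PF fun a => (c a).P.Ys (F a) (h a) (v a) :=
  pf_lt (cardC fun r => pf_not (pcB hc (hF r) hv)) hh

theorem pTo {j : ∀ a, Fin (c a).k} (hj : PF fun a => idx (j a)) (o : Bool) :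
    PF fun a => (c a).P.To (F a) (h a) (j a) o :=
  pf_lt (cardC fun r => pf_not (pf_and (pcol hc hj (hF r).x (PF.const (o = true)))
    (pcol hc hj (hF r).y (PF.const ((!o) = true))))) hh

end FamN

section Quad

variable {D : Type} [Fintype D]
  {φ : ∀ a, D → Fin (c a).k × Fin (c a).n × Fin (c a).n × Fin (c a).n}

theorem pag3 (hφ : ∀ r, PQ c fun a => φ a r) :
    PF fun p : Pt (GJ c) => p.x ∈ ag3 (univ.image (φ p.a)) :=
  pf_iff (exC fun r => pf_eqT ((hφ r).j.comp b1) x2) fun p => by simp [ag3]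

theorem pit3 (hφ : ∀ r, PQ c fun a => φ a r) :
    PF fun p : Pt (GV c) => p.x ∈ it3 (univ.image (φ p.a)) :=
  pf_iff (exC fun r => exC fun i => pf_eqT (((hφ r).x i).comp b1) x2) fun p => by
    simp only [it3, mem_biUnion, mem_image, mem_univ, true_and, mem_q, exists_exists_eq_and]

theorem pServ3 (hc : PF c) {s : ∀ a, Fin (c a).k × Fin (c a).n × Fin (c a).n × Fin (c a).n}
    (hs : PQ c s) : PF fun a => (c a).P.Serv3 ((c a).P.pl univ univ) (s a).1
      {(s a).2.1, (s a).2.2.1, (s a).2.2.2} :=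
  pf_iff (pf_or (pf_or (exC fun i => pC hc hs.j (hs.x i))
    (exC fun i => exC fun i' => pPr hc hs.j (hs.x i) (hs.x i')))
    (exC fun i => exC fun i' => exC fun i'' => pTr hc hs.j (hs.x i) (hs.x i'') (hs.x i')))
    fun a => by
      simp only [Geo.Serv3, Geo.Serv2, Geo.pl, mem_q, true_and, exists_exists_eq_and]

theorem pPhiOk (hc : PF c) (hφ : ∀ r, PQ c fun a => φ a r) :
    PF fun a => (c a).P.PhiOk (univ.image (φ a)) := by
  refine pf_iff (pf_and (allC fun r => pServ3 hc (hφ r)) (allC fun r => allC fun r' =>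
    pf_imp (pf_not (pf_and (pf_eqT (hφ r).j (hφ r').j)
      (allC fun i => pf_eqT ((hφ r).x i) ((hφ r').x i))))
    (pf_and (pf_neT (hφ r).j (hφ r').j)
      (allC fun i => allC fun i' => pf_neT ((hφ r').x i') ((hφ r).x i))))) fun a => ?_
  simp only [Geo.PhiOk, Dis3, mem_image, mem_univ, true_and, forall_exists_index,
    forall_apply_eq_imp_iff, ← eq_q, disjoint_left, mem_q, not_exists, ne_eq]

end Quad

end Members

section Cons

variable {γ : Type} [Enc γ] {c : γ → CG} {t M t' M0 : ℕ}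

/-- A polynomial-time choice of the consistent families. -/
structure PG (c : γ → CG) (R : ∀ a, RG (Fin (c a).k) (Fin (c a).n) t M t' M0) : Prop where
  F : ∀ τ r, PM c fun a => (R a).F τ r
  G : ∀ i r, PM c fun a => (R a).G i r
  h : PF fun a => (R a).h
  h0 : PF fun a => (R a).h0

variable {R : ∀ a, RG (Fin (c a).k) (Fin (c a).n) t M t' M0}

theorem PG.comp (h : PG c R) {δ : Type} [Enc δ] {g : δ → γ} (hg : PF g) :
    PG (fun d => c (g d)) fun d => R (g d) :=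
  ⟨fun τ r => (h.F τ r).comp hg, fun i r => (h.G i r).comp hg, h.h.comp hg, h.h0.comp hg⟩

theorem PG.mem (h : PG c R) (r : (Fin t × Fin M) ⊕ (Fin t' × Fin M0)) :
    PM c fun a => (R a).mem r := by
  rcases r with r | r
  · exact h.F r.1 r.2
  · exact h.G r.1 r.2

variable (hc : PF c) (hR : PG c R)

include hc hR

theorem pRGood : PF fun a => (c a).P.RGood (R a) :=
  pf_iff (pf_and (pDisF hR.mem) (pf_and (allC fun τ => pCFam hc (hR.F τ))
    (pf_and (allC fun i => pCFam hc (hR.G i)) (allC fun i => allC fun g => allC fun τ =>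
      pf_le (cardC fun r => pf_not (pOk hc (hR.F τ r).j (hR.G i g).x (hR.G i g).y))
        (PF.const 1))))) fun _ =>
    ⟨fun h => ⟨h.dis, h.cF, h.cG, h.uni⟩, fun h => ⟨h.1, h.2.1, h.2.2.1, h.2.2.2⟩⟩

theorem pTy {j : ∀ a, Fin (c a).k} (hj : PF fun a => idx (j a)) (τ : Fin t) :
    PF fun a => (c a).P.Ty (R a) τ (j a) :=
  exC fun o => pTo hc (hR.F τ) hR.h hj o

theorem pTyE {j : ∀ a, Fin (c a).k} (hj : PF fun a => idx (j a)) :
    PF fun a => ∃ τ, (c a).P.Ty (R a) τ (j a) :=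
  exC fun τ => pTy hc hR hj τ

theorem ppeU {u v : ∀ a, Fin (c a).n} (hu : PF fun a => idx (u a)) (hv : PF fun a => idx (v a)) :
    PF fun a => (c a).P.peU (R a) (u a) (v a) :=
  exC fun i => pf_and (pXs hc (hR.G i) hR.h0 hu) (pYs hc (hR.G i) hR.h0 hv)

theorem pinK (κ : Kl t M) {v : ∀ a, Fin (c a).n} (hv : PF fun a => idx (v a)) :
    PF fun a => (c a).P.inK (R a) κ (v a) :=
  pf_and (padj hc (hR.F _ _).j hv (PF.const (κ.2.1.2.2 = true)))
    (padj hc (hR.F _ _).j hv (PF.const (κ.2.2.2.2 = true)))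

theorem pXk (κ : Kl t M) {v : ∀ a, Fin (c a).n} (hv : PF fun a => idx (v a)) :
    PF fun a => (c a).P.Xk (R a) κ (v a) :=
  pf_and (pXs hc (hR.F _) hR.h hv) (pinK hc hR κ hv)

theorem pYk (κ : Kl t M) {v : ∀ a, Fin (c a).n} (hv : PF fun a => idx (v a)) :
    PF fun a => (c a).P.Yk (R a) κ (v a) :=
  pf_and (pYs hc (hR.F _) hR.h hv) (pinK hc hR κ hv)

theorem pXY (κ : Kl t M) : PF fun a => ∀ x y, (c a).P.Xk (R a) κ x → (c a).P.Yk (R a) κ y →
    x ≠ y ∧ ¬ (c a).P.HH x y :=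
  pf_all (T := GV c) (pNn hc) (pf_all (T := fun p : Pt (GV c) => GV c p.a) (pNn (hc.comp b1))
    (pf_imp (pXk (hc.comp b2) (hR.comp b2) κ x1) (pf_imp (pYk (hc.comp b2) (hR.comp b2) κ x2)
      (pf_and (pf_neT x1 x2) (pf_not (pHH (hc.comp b2) x1 x2))))))

variable {A : ∀ a, Finset (Fin (c a).k)} {W : ∀ a, Finset (Fin (c a).n)}
  (hA : PF fun p : Pt (GJ c) => p.x ∈ A p.a) (hW : PF fun p : Pt (GV c) => p.x ∈ W p.a)

include hA hW

theorem pEK : PF fun p : Pt2 (GN c) (GN c) =>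
    (c p.a.a).P.EK (A p.a.a) (W p.a.a) ((c p.a.a).P.peU (R p.a.a)) p.a.x p.x := by
  have h12 : PF fun p : Pt2 (GJ c) (GV c) =>
      (c p.a.a).P.EK (A p.a.a) (W p.a.a) ((c p.a.a).P.peU (R p.a.a)) (ag p.a.x) (vx p.x) :=
    pf_and (hA.comp b1) (pf_and (pf_at (T := GV c) (fun a x => x ∈ W a) hW b2 x2)
      (pC (hc.comp b2) x1 x2))
  have h22 : PF fun p : Pt2 (GV c) (GV c) =>
      (c p.a.a).P.EK (A p.a.a) (W p.a.a) ((c p.a.a).P.peU (R p.a.a)) (vx p.a.x) (vx p.x) :=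
    pf_and (hW.comp b1) (pf_and (pf_at (T := GV c) (fun a x => x ∈ W a) hW b2 x2)
      (pf_and (pf_not (pHH (hc.comp b2) x1 x2))
        (pf_or (ppeU (hc.comp b2) (hR.comp b2) x1 x2) (ppeU (hc.comp b2) (hR.comp b2) x2 x1))))
  exact pnode2 hc (fun a => (c a).P.EK (A a) (W a) ((c a).P.peU (R a))) (PF.const False) h12
    (PF.const False)
    (pf_swap (fun a x y => (c a).P.EK (A a) (W a) ((c a).P.peU (R a)) (ag x) (vx y)) h12) h22
    (PF.const False) (PF.const False) (PF.const False) (PF.const False)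

theorem pAdK (d : Lb t M) :
    PF fun p : Pt (GN c) => (c p.a).P.AdK (R p.a) (A p.a) (W p.a) d p.x := by
  refine pnode hc (fun a => (c a).P.AdK (R a) (A a) (W a) d) ?_ ?_ ?_
  · rcases d with ⟨κ, i⟩ | i
    · exact pf_and hA (pf_and (PF.const (i = 2)) (pTy (hc.comp b1) (hR.comp b1) x2 κ.1))
    · exact pf_or (pf_and (PF.const (i = 0)) (pf_and hA (pTyE (hc.comp b1) (hR.comp b1) x2)))
        (pf_and (PF.const (i = 2)) (pf_not hA))
  · rcases d with ⟨κ, i⟩ | i
    · exact pf_and hW (pf_or (pf_and (PF.const (i = 0)) (pXk (hc.comp b1) (hR.comp b1) κ x2))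
        (pf_and (PF.const (i = 1)) (pYk (hc.comp b1) (hR.comp b1) κ x2)))
    · exact pf_or (pf_and (PF.const (i = 1)) hW) (pf_and (PF.const (i = 2)) (pf_not hW))
  · rcases d with ⟨κ, i⟩ | i
    · exact PF.const False
    · exact PF.const (i = 2)

omit hc hR hA hW in
theorem EK_symm {J V : Type} (P : Geo J V) (A : Finset J) (W : Finset V) (pe : V → V → Prop)
    (x y : Nd J V) (h : P.EK A W pe x y) : P.EK A W pe y x := by
  rcases x with i | u | i <;> rcases y with j | v | j <;> try exact h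
  exact ⟨h.2.1, h.1, fun k => h.2.2.1 (P.symm _ _ k), h.2.2.2.symm⟩

theorem pLab (h1 : PFLabStmt) {n : γ → Lb t M → ℕ} (hn : ∀ d, PF fun a => n a d) :
    PF fun a => ∃ m, Lab ((c a).P.EK (A a) (W a) ((c a).P.peU (R a)))
      ((c a).P.AdK (R a) (A a) (W a)) (n a) m :=
  pf_iff (h1 γ (GN c) (Lb t M) (fun a => (c a).P.EK (A a) (W a) ((c a).P.peU (R a)))
    (fun a => (c a).P.AdK (R a) (A a) (W a)) n (fun _ _ _ => 0) (fun _ => 0) (pNN hc)
    (pEK hc hR hA hW) (pAdK hc hR hA hW) hn (PF.const 0) (PF.const 0)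
    (fun _ => EK_symm _ _ _ _) (fun _ _ _ => rfl) fun _ _ _ => Nat.zero_le _) fun _ => by
      simp only [Nat.zero_le, and_true]

/-- The body of the final test for given numbers of labels. -/
def KB {J V : Type} [Fintype J] [Fintype V] [DecidableEq J] [DecidableEq V] (P : Geo J V)
    (R : RG J V t M t' M0) (A : Finset J) (W : Finset V) (n : Lb t M → ℕ) : Prop :=
  (∀ κ, n (Sum.inl (κ, 0)) = n (Sum.inl (κ, 1)) ∧ n (Sum.inl (κ, 0)) = n (Sum.inl (κ, 2)) ∧
      (n (Sum.inl (κ, 0)) ≠ 0 → ∀ x y, P.Xk R κ x → P.Yk R κ y → x ≠ y ∧ ¬ P.HH x y)) ∧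
    A.card + (∑ κ, n (Sum.inl (κ, 0))) + n (Sum.inr 0) + n (Sum.inr 1) ≤ W.card ∧
    ∃ m, Lab (P.EK A W (P.peU R)) (P.AdK R A W) n m

theorem pKB (h1 : PFLabStmt) {n : γ → Lb t M → ℕ} (hn : ∀ d, PF fun a => n a d) :
    PF fun a => KB (c a).P (R a) (A a) (W a) (n a) :=
  pf_and (allC fun κ => pf_and (pf_eq (hn _) (hn _)) (pf_and (pf_eq (hn _) (hn _))
    (pf_imp (pf_ne (hn _) (PF.const 0)) (pXY hc hR κ))))
    (pf_and (pf_le ((((cardS (pNk hc) hA).add (sumC fun _ => hn _)).add (hn _)).add (hn _))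
      (cardS (pNn hc) hW)) (pLab hc hR hA hW h1 hn))

theorem pKTest (h1 : PFLabStmt) : PF fun a => (c a).P.KTest (R a) (A a) (W a) := by
  refine pf_iff (exFun (D := Lb t M) (T := fun a => Fin (Num.N (GN c a) + 1))
    (fun a f => KB (c a).P (R a) (A a) (W a) fun d => (f d).val) ((pNN hc).add (PF.const 1))
    fun δ _ g f hg hf => ?_) fun a => ⟨fun ⟨n, h⟩ => ?_, fun ⟨f, h⟩ => ⟨fun d => (f d).val, h⟩⟩
  · exact pKB (c := fun d => c (g d)) (hc.comp hg) (hR.comp hg)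
      (pf_at (T := GJ c) (fun a x => x ∈ A a) hA (hg.comp b1) x2)
      (pf_at (T := GV c) (fun a x => x ∈ W a) hW (hg.comp b1) x2) h1 hf
  · have hn : ∀ d, n d < Num.N (GN c a) + 1 := fun d => by
      obtain ⟨m, -, lab, -, -, k⟩ := h.2.2
      rw [← k d, ← card_eq_N]
      exact Nat.lt_succ_of_le (card_le_univ _)
    exact ⟨fun d => ⟨n d, hn d⟩, h⟩

theorem pSR : PSub c fun a => (c a).P.SR (R a) (A a) (W a) :=
  ⟨hA, hW, pTyE (hc.comp b1) (hR.comp b1) x2, pC (hc.comp b2) x1 x2, PF.const False⟩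

end Cons

section Final

/-- The body of the test for given families and sets. -/
def RB {J V : Type} [Fintype J] [Fintype V] [DecidableEq J] [DecidableEq V] (P : Geo J V)
    (rk : J → ℕ) (e c : ℕ) {t M t' M0 : ℕ} (R : RG J V t M t' M0) (Φ : Finset (J × V × V × V))
    (U : Finset J) : Prop :=
  P.RGood R ∧ P.PhiOk Φ ∧ Disjoint (ag3 Φ) (fagF R.mem) ∧ Disjoint (it3 Φ) (fitF R.mem) ∧
    P.KTest R (univ \ (fagF R.mem ∪ ag3 Φ)) (univ \ (fitF R.mem ∪ it3 Φ)) ∧
    (univ \ (fagF R.mem ∪ ag3 Φ) ⊆ U ∨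
      P.TestSL rk (P.SR R (univ \ (fagF R.mem ∪ ag3 Φ ∪ U)) (univ \ (fitF R.mem ∪ it3 Φ))) e c)

variable {γ : Type} [Enc γ] {c : γ → CG} {t M t' M0 : ℕ}

theorem pRB (h1 : PFLabStmt) (h2 : PFSLStmt) (e c0 : ℕ) (hc : PF c)
    {R : ∀ a, RG (Fin (c a).k) (Fin (c a).n) t M t' M0} (hR : PG c R) {D D' : Type} [Fintype D]
    [Fintype D'] {φ : ∀ a, D → Fin (c a).k × Fin (c a).n × Fin (c a).n × Fin (c a).n}
    (hφ : ∀ r, PQ c fun a => φ a r) {u : ∀ a, D' → Fin (c a).k}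
    (hu : ∀ r, PF fun a => idx (u a r)) :
    PF fun a => RB (c a).P Fin.val e c0 (R a) (univ.image (φ a)) (univ.image (u a)) := by
  have k1 := pfag hR.mem
  have k2 := pfit hR.mem
  have k3 := pag3 hφ
  have k4 := pit3 hφ
  have k5 : PF fun p : Pt (GJ c) => p.x ∈ univ.image (u p.a) :=
    pf_iff (exC fun r => pf_eqT ((hu r).comp b1) x2) fun p => by simp
  have hA : PF fun p : Pt (GJ c) =>
      p.x ∈ univ \ (fagF (R p.a).mem ∪ ag3 (univ.image (φ p.a))) :=
    pf_iff (pf_not (pf_or k1 k3)) fun p => by simp only [mem_sdiff, mem_univ, true_and, mem_union]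
  have hA' : PF fun p : Pt (GJ c) =>
      p.x ∈ univ \ (fagF (R p.a).mem ∪ ag3 (univ.image (φ p.a)) ∪ univ.image (u p.a)) :=
    pf_iff (pf_not (pf_or (pf_or k1 k3) k5)) fun p => by
      simp only [mem_sdiff, mem_univ, true_and, mem_union]
  have hW : PF fun p : Pt (GV c) =>
      p.x ∈ univ \ (fitF (R p.a).mem ∪ it3 (univ.image (φ p.a))) :=
    pf_iff (pf_not (pf_or k2 k4)) fun p => by simp only [mem_sdiff, mem_univ, true_and, mem_union]
  refine pf_and (pRGood hc hR) (pf_and (pPhiOk hc hφ) (pf_and ?_ (pf_and ?_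
    (pf_and (pKTest hc hR hA hW h1) (pf_or ?_ ?_)))))
  · exact pf_iff (pf_all (pNk hc) (pf_imp k3 (pf_not k1))) fun a => disjoint_left
  · exact pf_iff (pf_all (pNn hc) (pf_imp k4 (pf_not k2))) fun a => disjoint_left
  · exact pf_iff (pf_all (pNk hc) (pf_imp hA k5)) fun a => subset_iff
  · exact h2 e γ c _ (fun _ => c0) hc (pSR hc hR hA' hW) (PF.const c0)

theorem RTest_iff {J V : Type} [Fintype J] [Fintype V] [DecidableEq J] [DecidableEq V]
    (P : Geo J V) (rk : J → ℕ) (e c t0 c1 L : ℕ) : P.RTest rk e c t0 c1 L ↔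
    ∃ t, t < t0 ∧ ∃ t', t' < t0 ∧ ∃ h, h < L ∧ ∃ h0, h0 < L ∧ ∃ m, m < L + 1 ∧ ∃ m', m' < c + 1 ∧
      ∃ F : Fin t × Fin (30 * h + c1) → Mb J V, ∃ G : Fin t' × Fin (30 * h0 + c1) → Mb J V,
      ∃ φ : Fin m → J × V × V × V, ∃ u : Fin m' → J,
        RB P rk e c ⟨fun τ r => F (τ, r), fun τ r => G (τ, r), h, h0⟩ (univ.image φ)
          (univ.image u) := by
  refine exists_congr fun t => and_congr_right fun _ => exists_congr fun t' =>
    and_congr_right fun _ => exists_congr fun h => and_congr_right fun _ =>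
    exists_congr fun h0 => and_congr_right fun _ => ⟨?_, ?_⟩
  · rintro ⟨F, G, Φ, U, k1, k2, k3, k4⟩
    obtain ⟨m, hm, φ, rfl⟩ := (ex_card_le L fun X => X = Φ).1 ⟨Φ, k2, rfl⟩
    obtain ⟨m', hm', u, rfl⟩ := (ex_card_le c fun X => X = U).1 ⟨U, k3, rfl⟩
    exact ⟨m, hm, m', hm', fun z => F z.1 z.2, fun z => G z.1 z.2, φ, u, k1, k4⟩
  · rintro ⟨m, hm, m', hm', F, G, φ, u, k1, k4⟩
    refine ⟨fun τ r => F (τ, r), fun τ r => G (τ, r), _, _, k1, card_image_le.trans ?_,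
      card_image_le.trans ?_, k4⟩ <;> simp only [card_univ, Fintype.card_fin] <;> omega

end Final

end Pool.Agent.Lib.MP_ef7581_lc.D2.DPR

namespace Pool.Agent.Lib.MP_ef7581_lc.D2

open Pool.Agent.Shared.PolyTime Finset DPR

theorem pfRStmt (h1 : PFLabStmt) (h2 : PFSLStmt) : PFRStmt := by
  intro e c t0 c1 L
  refine pf_iff ?_ fun a => RTest_iff a.P Fin.val e c t0 c1 L
  refine exltC fun t => exltC fun t' => exltC fun h => exltC fun h0 => exltC fun m =>
    exltC fun m' => ?_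
  refine exMb (c := fun a : CG => a) PF.id' _ fun δ1 _ g1 F hg1 hF => ?_
  refine exMb (c := g1) hg1 _ fun δ2 _ g2 G hg2 hG => ?_
  refine exQ (c := fun d => g1 (g2 d)) (hg1.comp hg2) _ fun δ3 _ g3 φ hg3 hφ => ?_
  refine exFun (T := GJ fun d => g1 (g2 (g3 d))) _ (pNk (hg1.comp (hg2.comp hg3)))
    fun δ4 _ g4 u hg4 hu => ?_
  exact pRB (c := fun d => g1 (g2 (g3 (g4 d)))) h1 h2 e c (hg1.comp (hg2.comp (hg3.comp hg4)))
    (R := fun d => ⟨fun τ r => F (g2 (g3 (g4 d))) (τ, r), fun τ r => G (g3 (g4 d)) (τ, r), h, h0⟩)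
    ⟨fun τ r => (hF (τ, r)).comp (hg2.comp (hg3.comp hg4)),
      fun τ r => (hG (τ, r)).comp (hg3.comp hg4), PF.const h, PF.const h0⟩
    (fun r => (hφ r).comp hg4) hu

end Pool.Agent.Lib.MP_ef7581_lc.D2
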