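import Mathlib
import Pool.Agent.Lib.MP_ef7581_lc.DP0

/-!
The test of the absorbing case is decidable in polynomial time.
-/

set_option autoImplicit false

namespace Pool.Agent.Lib.MP_ef7581_lc.D2

open Pool.Agent.Shared.PolyTime Finset

namespace DPU

/-! ### Quantifiers over fixed finite types and over tuples of fixed length -/

section Bounded

variable {γ : Type} [Enc γ]

theorem pf_allS {ι : Type} (s : Finset ι) {q : γ → ι → Prop} (h : ∀ i, PF fun a => q a i) :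
    PF fun a => ∀ i ∈ s, q a i := by
  classical
  induction s using Finset.induction_on with
  | empty => exact pf_iff (PF.const True) fun a => by simp
  | insert i s hi ih => exact pf_iff (pf_and (h i) ih) fun a => by simp

theorem pf_allF {ι : Type} [Fintype ι] {q : γ → ι → Prop} (h : ∀ i, PF fun a => q a i) :
    PF fun a => ∀ i, q a i :=
  pf_iff (pf_allS univ h) fun a => by simp

theorem pf_exF {ι : Type} [Fintype ι] {q : γ → ι → Prop} (h : ∀ i, PF fun a => q a i) :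
    PF fun a => ∃ i, q a i :=
  pf_iff (pf_not (pf_allF (q := fun a i => ¬ q a i) fun i => pf_not (h i))) fun a => by simp

theorem pf_sumS {ι : Type} (s : Finset ι) {f : γ → ι → ℕ} (h : ∀ i, PF fun a => f a i) :
    PF fun a => ∑ i ∈ s, f a i := by
  classical
  induction s using Finset.induction_on with
  | empty => exact (PF.const 0).of_eq fun a => by simp
  | insert i s hi ih => exact ((h i).add ih).of_eq fun a => by rw [sum_insert hi]

theorem pf_cardF {ι : Type} [Fintype ι] {q : γ → ι → Prop} {inst : ∀ a, DecidablePred (q a)}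
    (h : ∀ i, PF fun a => q a i) : PF fun a => (@Finset.filter ι (q a) (inst a) univ).card :=
  (pf_sumS univ (f := fun a i => @ite ℕ (q a i) (inst a i) 1 0) fun i =>
    pf_ite (h i) (PF.const 1) (PF.const 0)).of_eq fun a => by rw [card_filter]

theorem pf_exC (L : ℕ) {q : γ → ℕ → Prop} (h : ∀ i, PF fun a => q a i) :
    PF fun a => ∃ i, i ≤ L ∧ q a i :=
  pf_iff (pf_exF (q := fun a (i : Fin (L + 1)) => q a i) fun i => h i) fun _ =>
    ⟨fun ⟨i, hi, hq⟩ => ⟨⟨i, Nat.lt_succ_of_le hi⟩, hq⟩,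
      fun ⟨i, hq⟩ => ⟨i, Nat.le_of_lt_succ i.2, hq⟩⟩

end Bounded

theorem pf_exFun (m : ℕ) : ∀ (γ : Type) [Enc γ] (T : γ → Type) [∀ a, Num (T a)]
    (q : ∀ a, (Fin m → T a) → Prop), (PF fun a => Num.N (T a)) →
    (∀ (δ : Type) [Enc δ] (g : δ → γ) (F : ∀ d, Fin m → T (g d)), PF g →
      (∀ r, PF fun d => idx (F d r)) → PF fun d => q (g d) (F d)) →
    PF fun a => ∃ F, q a F := by
  induction m with
  | zero =>
    intro γ _ T _ q _ h
    refine pf_iff (h γ (fun a => a) (fun _ => Fin.elim0) PF.id' fun r => r.elim0) fun a =>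
      ⟨fun ⟨F, hF⟩ => ?_, fun k => ⟨_, k⟩⟩
    rwa [Subsingleton.elim F Fin.elim0] at hF
  | succ m ih =>
    intro γ _ T _ q hN h
    have h1 := ih (Pt T) (fun p => T p.a)
      (fun p F' => q p.a (Fin.cons p.x F' : Fin (m + 1) → T p.a)) (hN.comp (pt_a PF.id'))
      fun δ _ g F hg hF => h δ (fun d => (g d).a)
        (fun d => (Fin.cons (g d).x (F d) : Fin (m + 1) → T (g d).a)) (pt_a hg)
        fun r => Fin.cases (pt_x hg) hF r
    refine pf_iff (pf_ex (q := fun a x => ∃ F' : Fin m → T a,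
      q a (Fin.cons x F' : Fin (m + 1) → T a)) hN h1) fun a =>
        ⟨fun ⟨F, hF⟩ => ⟨F 0, Fin.tail F, ?_⟩, fun ⟨_, _, k⟩ => ⟨_, k⟩⟩
    rwa [Fin.cons_self_tail]

theorem exists_finset_iff {T : Type} [DecidableEq T] (L : ℕ) (q : Finset T → Prop) :
    (∃ X : Finset T, X.card ≤ L ∧ q X) ↔
      ∃ m, m ≤ L ∧ ∃ f : Fin m → T, q (univ.image f) := by
  constructor
  · rintro ⟨X, hX, hq⟩
    refine ⟨X.card, hX, fun r => (X.equivFin.symm r).1, ?_⟩
    have : (univ.image fun r => (X.equivFin.symm r).1) = X := by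
      ext x
      simp only [mem_image, mem_univ, true_and]
      exact ⟨fun ⟨r, hr⟩ => hr ▸ (X.equivFin.symm r).2,
        fun hx => ⟨X.equivFin ⟨x, hx⟩, by rw [Equiv.symm_apply_apply]⟩⟩
    rwa [this]
  · rintro ⟨m, hm, f, hq⟩
    exact ⟨_, card_image_le.trans (by simpa using hm), hq⟩

/-! ### The basic predicates -/

variable {γ : Type} [Enc γ] {c : γ → CG}

theorem pf_code (hc : PF c) : PF fun a => (c a).code := hc
theorem pf_Nk (hc : PF c) : PF fun a => Num.N (Fin (c a).k) := (pf_code hc).fst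
theorem pf_Nn (hc : PF c) : PF fun a => Num.N (Fin (c a).n) := (pf_code hc).snd.fst

theorem pf_c1 {S : γ → Type} [∀ a, Num (S a)] (hc : PF c) : PF fun p : Pt S => c p.a :=
  hc.comp (pt_a PF.id')

theorem pf_x {S : γ → Type} [∀ a, Num (S a)] : PF fun p : Pt S => idx p.x := pt_x PF.id'

theorem pf_HH (hc : PF c) {u v : ∀ a, Fin (c a).n} (hu : PF fun a => idx (u a))
    (hv : PF fun a => idx (v a)) : PF fun a => (c a).P.HH (u a) (v a) :=
  (PF.getD (PF.getD (pf_code hc).snd.snd.fst hu (PF.const [])) hv (PF.const False)).of_eq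
    fun a => by simp only [CG.code, getD_tabT]

section Basic

variable (hc : PF c) {j : ∀ a, Fin (c a).k} (hj : PF fun a => idx (j a))

include hc hj

theorem pf_adjF {v : ∀ a, Fin (c a).n} (hv : PF fun a => idx (v a)) :
    PF fun a => (c a).P.adj (j a) false (v a) :=
  (PF.getD (PF.getD (pf_code hc).snd.snd.snd.fst hj (PF.const [])) hv (PF.const False)).of_eq
    fun a => by simp only [CG.code, getD_tabT]

theorem pf_adjT {v : ∀ a, Fin (c a).n} (hv : PF fun a => idx (v a)) :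
    PF fun a => (c a).P.adj (j a) true (v a) :=
  (PF.getD (PF.getD (pf_code hc).snd.snd.snd.snd hj (PF.const [])) hv (PF.const False)).of_eq
    fun a => by simp only [CG.code, getD_tabT]

theorem pf_adj {o : γ → Bool} (ho : PF o) {v : ∀ a, Fin (c a).n} (hv : PF fun a => idx (v a)) :
    PF fun a => (c a).P.adj (j a) (o a) (v a) :=
  (PF.cond' ho (pf_adjT hc hj hv) (pf_adjF hc hj hv)).of_eq fun a => by cases o a <;> rfl

theorem pf_C {v : ∀ a, Fin (c a).n} (hv : PF fun a => idx (v a)) :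
    PF fun a => (c a).P.C (j a) (v a) :=
  pf_and (pf_not (pf_adjF hc hj hv)) (pf_not (pf_adjT hc hj hv))

theorem pf_col {o : γ → Bool} (ho : PF o) {v : ∀ a, Fin (c a).n} (hv : PF fun a => idx (v a)) :
    PF fun a => (c a).P.col (j a) (o a) (v a) :=
  pf_and (pf_adj hc hj ho hv) (pf_not (pf_adj hc hj ho.not' hv))

theorem pf_junk {v : ∀ a, Fin (c a).n} (hv : PF fun a => idx (v a)) :
    PF fun a => (c a).P.junk (j a) (v a) :=
  pf_and (pf_adjF hc hj hv) (pf_adjT hc hj hv)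

theorem pf_ends {u v : ∀ a, Fin (c a).n} (hu : PF fun a => idx (u a))
    (hv : PF fun a => idx (v a)) :
    PF fun a => ∃ o, ¬ (c a).P.adj (j a) o (u a) ∧ ¬ (c a).P.adj (j a) (!o) (v a) :=
  pf_exF fun o => pf_and (pf_not (pf_adj hc hj (PF.const o) hu))
    (pf_not (pf_adj hc hj (PF.const (!o)) hv))

theorem pf_Pr {u v : ∀ a, Fin (c a).n} (hu : PF fun a => idx (u a))
    (hv : PF fun a => idx (v a)) : PF fun a => (c a).P.Pr (j a) (u a) (v a) :=
  pf_and (pf_neT hu hv) (pf_and (pf_not (pf_HH hc hu hv)) (pf_ends hc hj hu hv))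

theorem pf_Tr {u z v : ∀ a, Fin (c a).n} (hu : PF fun a => idx (u a))
    (hz : PF fun a => idx (z a)) (hv : PF fun a => idx (v a)) :
    PF fun a => (c a).P.Tr (j a) (u a) (z a) (v a) :=
  pf_and (pf_neT hu hz) (pf_and (pf_neT hz hv) (pf_and (pf_not (pf_HH hc hu hz))
    (pf_and (pf_not (pf_HH hc hz hv)) (pf_ends hc hj hu hv))))

/-- A service by the values of a tuple of fixed length. -/
theorem pf_Serv3 {ι : Type} [Fintype ι] {x : ∀ a, ι → Fin (c a).n}
    (hx : ∀ i, PF fun a => idx (x a i)) {s : ∀ a, Finset (Fin (c a).n)}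
    (hs : ∀ a v, v ∈ s a ↔ ∃ i, x a i = v) :
    PF fun a => (c a).P.Serv3 ((c a).P.pl univ univ) (j a) (s a) := by
  refine pf_iff (pf_or (pf_or (pf_exF fun i => pf_C hc hj (hx i))
    (pf_exF fun i => pf_exF fun i' => pf_Pr hc hj (hx i) (hx i')))
    (pf_exF fun i => pf_exF fun i' => pf_exF fun i'' => pf_Tr hc hj (hx i) (hx i') (hx i'')))
    fun a => ?_
  simp only [Geo.Serv3, Geo.Serv2, Geo.pl, hs, true_and, exists_exists_eq_and]

end Basic

/-! ### Families of members -/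

/-- A polynomial-time member. -/
structure PM (c : γ → CG) (m : ∀ a, Mb (Fin (c a).k) (Fin (c a).n)) : Prop where
  j : PF fun a => idx (m a).1
  o : PF fun a => (m a).2.1
  x : PF fun a => idx (m a).2.2.1
  y : PF fun a => idx (m a).2.2.2

theorem PM.comp {m : ∀ a, Mb (Fin (c a).k) (Fin (c a).n)} (h : PM c m) {δ : Type} [Enc δ]
    {g : δ → γ} (hg : PF g) : PM (fun d => c (g d)) fun d => m (g d) :=
  ⟨h.j.comp hg, h.o.comp hg, h.x.comp hg, h.y.comp hg⟩

section Member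

variable (hc : PF c) {m : ∀ a, Mb (Fin (c a).k) (Fin (c a).n)} (hm : PM c m)
  {z : ∀ a, Fin (c a).n} (hz : PF fun a => idx (z a))

include hc hm hz

theorem pf_cA : PF fun a => (c a).P.cA (m a) (z a) := pf_col hc hm.j hm.o hz

theorem pf_cB : PF fun a => (c a).P.cB (m a) (z a) := pf_col hc hm.j hm.o.not' hz

theorem pf_dir : PF fun a => (c a).P.dir (m a) (z a) :=
  pf_or (pf_C hc hm.j hz) (pf_or (pf_and (pf_cA hc hm hz) (pf_not (pf_HH hc hz hm.y)))
    (pf_and (pf_cB hc hm hz) (pf_not (pf_HH hc hz hm.x))))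

end Member

section Family

variable {N : ℕ} {F : ∀ a, Fin N → Mb (Fin (c a).k) (Fin (c a).n)}
  (hF : ∀ r, PM c fun a => F a r)

include hF

theorem pf_fag {j : ∀ a, Fin (c a).k} (hj : PF fun a => idx (j a)) :
    PF fun a => j a ∈ fagF (F a) :=
  pf_iff (pf_exF fun r => pf_eqT (hF r).j hj) fun a => by
    simp only [fagF, mem_image, mem_univ, true_and]

theorem pf_fit {v : ∀ a, Fin (c a).n} (hv : PF fun a => idx (v a)) :
    PF fun a => v a ∈ fitF (F a) :=
  pf_iff (pf_or (pf_exF fun r => pf_eqT (hF r).x hv) (pf_exF fun r => pf_eqT (hF r).y hv))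
    fun a => by simp only [fitF, mem_union, mem_image, mem_univ, true_and]

theorem pf_DisF : PF fun a => DisF (F a) := by
  have h : ∀ s : Fin N ⊕ Fin N, PF fun a =>
      idx (Sum.elim (fun r => (F a r).2.2.1) (fun r => (F a r).2.2.2) s) := by
    rintro (r | r)
    · exact (hF r).x
    · exact (hF r).y
  exact pf_and
    (pf_allF fun r => pf_allF fun r' => pf_imp (pf_eqT (hF r).j (hF r').j) (PF.const (r = r')))
    (pf_allF fun s => pf_allF fun s' => pf_imp (pf_eqT (h s) (h s')) (PF.const (s = s')))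

theorem pf_waste (hc : PF c) {z : ∀ a, Fin (c a).n} (hz : PF fun a => idx (z a)) :
    PF fun a => (c a).P.waste (F a) (z a) :=
  pf_exF fun r => pf_exF fun r' => pf_and (PF.const (r ≠ r'))
    (pf_and (pf_junk hc (hF r).j hz) (pf_junk hc (hF r').j hz))

theorem pf_PFam (hc : PF c) (ty : ℕ) : PF fun a => (c a).P.PFam ty (F a) := by
  have hx : ∀ s : Fin N ⊕ Fin N, PF fun a =>
      idx (Sum.elim (fun r => (F a r).2.2.1) (fun r => (F a r).2.2.2) s) := by
    rintro (r | r)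
    · exact (hF r).x
    · exact (hF r).y
  have h1 : PF fun a => ∀ x ∈ fitF (F a), ∀ y ∈ fitF (F a), ¬ (c a).P.HH x y := by
    refine pf_iff (pf_allF fun s => pf_allF fun s' => pf_not (pf_HH hc (hx s) (hx s'))) fun a => ?_
    have key : ∀ v, v ∈ fitF (F a) ↔
        ∃ s, Sum.elim (fun r => (F a r).2.2.1) (fun r => (F a r).2.2.2) s = v := fun v => by
      simp only [fitF, mem_union, mem_image, mem_univ, true_and, Sum.exists, Sum.elim_inl,
        Sum.elim_inr]
    simp only [key, forall_exists_index, forall_apply_eq_imp_iff]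
  have lt : ∀ {q : γ → Fin N → Fin N → Prop}, (∀ r r', PF fun a => q a r r') →
      PF fun a => ∀ r r', r < r' → q a r r' := fun h =>
    pf_allF fun r => pf_allF fun r' => pf_imp (PF.const (r < r')) (h r r')
  have h2 := pf_allF fun r => pf_and (pf_cA hc (hF r) (hF r).x) (pf_cB hc (hF r) (hF r).y)
  have h3 := lt fun r r' => pf_cA hc (hF r) (hF r').x
  have h4 := pf_imp (PF.const (ty = 0)) (lt fun r r' => pf_and (pf_cB hc (hF r) (hF r').y)
    (pf_and (pf_cB hc (hF r') (hF r).x) (pf_cA hc (hF r') (hF r).y)))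
  have h5 := pf_imp (PF.const (ty ≠ 0)) (lt fun r r' => pf_cA hc (hF r) (hF r').y)
  have h6 := pf_imp (PF.const (ty = 1)) (lt fun r r' =>
    pf_or (pf_not (pf_adj hc (hF r').j (hF r').o (hF r).y)) (pf_C hc (hF r').j (hF r).x))
  have h7 := pf_imp (PF.const (ty = 2)) (lt fun r r' => pf_cB hc (hF r') (hF r).x)
  have h8 := pf_imp (PF.const (ty = 3)) (lt fun r r' =>
    pf_and (pf_cA hc (hF r') (hF r).x) (pf_cA hc (hF r') (hF r).y))
  exact pf_iff (pf_and (pf_DisF hF) (pf_and h1 (pf_and h2 (pf_and h3 (pf_and (PF.const (ty < 4))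
    (pf_and h4 (pf_and h5 (pf_and h6 (pf_and h7 h8))))))))) fun a =>
    ⟨fun k => ⟨k.dis, k.ind, k.own, k.upa, k.lt4, k.t0, k.upb, k.t1, k.t2, k.t3⟩,
      fun ⟨k1, k2, k3, k4, k5, k6, k7, k8, k9, k10⟩ => ⟨k1, k2, k3, k4, k5, k6, k7, k8, k9, k10⟩⟩

end Family

section Absorbing

variable (hc : PF c) {b : ℕ} {F : ∀ a, Fin (NU b) → Mb (Fin (c a).k) (Fin (c a).n)}
  (hF : ∀ r, PM c fun a => F a r) {z : ∀ a, Fin (c a).n} (hz : PF fun a => idx (z a))

include hF hz

theorem pf_expo : PF fun a => z a ∈ Geo.expo b (F a) :=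
  pf_iff (pf_exF fun r : Fin (NU b) => pf_and (PF.const (r.val < b)) (pf_eqT (hF r).x hz))
    fun a => by simp only [Geo.expo, mem_image, mem_filter, mem_univ, true_and]

include hc

theorem pf_easy : PF fun a => (c a).P.easy b (F a) (z a) :=
  pf_lt (PF.const _) (pf_cardF fun r => pf_and (PF.const _) (pf_dir hc (hF r) hz))

theorem pf_star : PF fun a => (c a).P.star b (F a) (z a) :=
  pf_and (pf_not (pf_easy hc hF hz)) (pf_and (pf_not (pf_waste hF hc hz))
    (pf_lt (pf_cardF fun r => pf_and (PF.const _) (pf_not (pf_HH hc hz (hF r).y))) (PF.const _)))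

theorem pf_hard : PF fun a => (c a).P.hard b (F a) (z a) :=
  pf_and (pf_not (pf_easy hc hF hz))
    (pf_and (pf_not (pf_waste hF hc hz)) (pf_not (pf_star hc hF hz)))

theorem pf_WitU {j : ∀ a, Fin (c a).k} (hj : PF fun a => idx (j a)) {y : ∀ a, Fin (c a).n}
    (hy : PF fun a => idx (y a)) : PF fun a => (c a).P.WitU b (F a) (j a, z a, y a) :=
  pf_and (pf_exF fun o => pf_and (pf_col hc hj (PF.const o) hz) (pf_col hc hj (PF.const (!o)) hy))
    (pf_and (pf_not (pf_HH hc hz hy)) (pf_and (pf_hard hc hF hz)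
      (pf_and (pf_not (pf_waste hF hc hy)) (pf_and (pf_not (pf_star hc hF hy))
        (pf_and (pf_not (pf_fag hF hj)) (pf_and (pf_not (pf_fit hF hz))
          (pf_not (pf_fit hF hy))))))))

end Absorbing

/-! ### Installed services -/

/-- A polynomial-time quadruple. -/
structure PQ (c : γ → CG) (s : ∀ a, Fin (c a).k × Fin (c a).n × Fin (c a).n × Fin (c a).n) :
    Prop where
  j : PF fun a => idx (s a).1
  x : PF fun a => idx (s a).2.1
  y : PF fun a => idx (s a).2.2.1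
  z : PF fun a => idx (s a).2.2.2

theorem PQ.comp {s : ∀ a, Fin (c a).k × Fin (c a).n × Fin (c a).n × Fin (c a).n} (h : PQ c s)
    {δ : Type} [Enc δ] {g : δ → γ} (hg : PF g) : PQ (fun d => c (g d)) fun d => s (g d) :=
  ⟨h.j.comp hg, h.x.comp hg, h.y.comp hg, h.z.comp hg⟩

/-- The three items of a quadruple. -/
def its3 {J V : Type} (s : J × V × V × V) : Fin 3 → V := ![s.2.1, s.2.2.1, s.2.2.2]

theorem mem_its3 {J V : Type} [DecidableEq V] (s : J × V × V × V) (v : V) :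
    v ∈ ({s.2.1, s.2.2.1, s.2.2.2} : Finset V) ↔ ∃ i, its3 s i = v := by
  simp only [mem_insert, mem_singleton, its3, Fin.exists_fin_succ, Matrix.cons_val_zero,
    Matrix.cons_val_succ, IsEmpty.exists_iff, or_false, eq_comm]

theorem PQ.its {s : ∀ a, Fin (c a).k × Fin (c a).n × Fin (c a).n × Fin (c a).n} (h : PQ c s)
    (i : Fin 3) : PF fun a => idx (its3 (s a) i) := by
  fin_cases i
  · exact h.x
  · exact h.y
  · exact h.z

section Installed

variable {m : ℕ} {f : ∀ a, Fin m → Fin (c a).k × Fin (c a).n × Fin (c a).n × Fin (c a).n}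
  (hf : ∀ r, PQ c fun a => f a r)

include hf

theorem pf_ag3 {j : ∀ a, Fin (c a).k} (hj : PF fun a => idx (j a)) :
    PF fun a => j a ∈ ag3 (univ.image (f a)) :=
  pf_iff (pf_exF fun r => pf_eqT (hf r).j hj) fun a => by
    simp only [ag3, mem_image, mem_univ, true_and, exists_exists_eq_and]

theorem pf_it3 {v : ∀ a, Fin (c a).n} (hv : PF fun a => idx (v a)) :
    PF fun a => v a ∈ it3 (univ.image (f a)) :=
  pf_iff (pf_exF fun r => pf_exF fun i => pf_eqT ((hf r).its i) hv) fun a => by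
    simp only [it3, mem_biUnion, mem_image, mem_univ, true_and, exists_exists_eq_and, mem_its3]

theorem pf_PhiOk (hc : PF c) : PF fun a => (c a).P.PhiOk (univ.image (f a)) := by
  have h1 := pf_allF fun r => pf_Serv3 hc (hf r).j (hf r).its
    (s := fun a => {(f a r).2.1, (f a r).2.2.1, (f a r).2.2.2}) fun a v => mem_its3 (f a r) v
  have e : ∀ r r', PF fun a => f a r = f a r' := fun r r' =>
    pf_iff (pf_and (pf_eqT (hf r).j (hf r').j) (pf_and (pf_eqT (hf r).x (hf r').x)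
      (pf_and (pf_eqT (hf r).y (hf r').y) (pf_eqT (hf r).z (hf r').z)))) fun a => by
        simp only [Prod.ext_iff]
  have h2 := pf_allF fun r => pf_allF fun r' => pf_imp (pf_not (e r r'))
    (pf_and (pf_neT (hf r).j (hf r').j)
      (pf_allF fun i => pf_allF fun i' => pf_neT ((hf r).its i) ((hf r').its i')))
  refine pf_iff (pf_and h1 h2) fun a => ?_
  simp only [Geo.PhiOk, Dis3, mem_image, mem_univ, true_and, forall_exists_index,
    forall_apply_eq_imp_iff, disjoint_iff_ne, mem_its3]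

end Installed

/-! ### The remaining instance -/

section Rest

variable (hc : PF c) {b : ℕ} {F : ∀ a, Fin (NU b) → Mb (Fin (c a).k) (Fin (c a).n)}
  (hF : ∀ r, PM c fun a => F a r)
  {m : ℕ} {f : ∀ a, Fin m → Fin (c a).k × Fin (c a).n × Fin (c a).n × Fin (c a).n}
  (hf : ∀ r, PQ c fun a => f a r)
  {m' : ℕ} {t : ∀ a, Fin m' → Fin (c a).n} (ht : ∀ r, PF fun a => idx (t a r))

theorem pf_img {m' : ℕ} {t : ∀ a, Fin m' → Fin (c a).n} (ht : ∀ r, PF fun a => idx (t a r))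
    {v : ∀ a, Fin (c a).n} (hv : PF fun a => idx (v a)) : PF fun a => v a ∈ univ.image (t a) :=
  pf_iff (pf_exF fun r => pf_eqT (ht r) hv) fun a => by
    simp only [mem_image, mem_univ, true_and]

include hc hF hf ht

theorem psub_SU {Wt : ∀ a, Finset (Fin (c a).k × Fin (c a).n × Fin (c a).n)}
    (hA : PF fun p : Pt (GJ c) => p.x ∈ ag2 (Wt p.a))
    (hW : PF fun p : Pt (GV c) => p.x ∈ it2 (Wt p.a)) (q : Prop) :
    PSub c fun a => (c a).P.SU b (F a) (univ.image (f a)) (univ.image (t a)) (Wt a) q := by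
  have gJ : PF fun p : Pt (GJ c) => p.a := pt_a PF.id'
  have gV : PF fun p : Pt (GV c) => p.a := pt_a PF.id'
  have fit := pf_fit (c := fun p : Pt (GV c) => c p.a) (fun r => (hF r).comp gV) pf_x
  refine ⟨?_, ?_, PF.const True, ?_, ?_⟩
  · refine pf_iff (pf_not (pf_or (pf_or
      (pf_fag (c := fun p : Pt (GJ c) => c p.a) (fun r => (hF r).comp gJ) pf_x)
      (pf_ag3 (c := fun p : Pt (GJ c) => c p.a) (fun r => (hf r).comp gJ) pf_x)) hA)) fun p => ?_
    simp only [Geo.SU, mem_sdiff, mem_univ, true_and, mem_union]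
  · refine pf_iff (pf_not (pf_or (pf_or (pf_or (pf_and fit (pf_not
      (pf_expo (c := fun p : Pt (GV c) => c p.a) (fun r => (hF r).comp gV) pf_x)))
      (pf_it3 (c := fun p : Pt (GV c) => c p.a) (fun r => (hf r).comp gV) pf_x))
      (pf_img (c := fun p : Pt (GV c) => c p.a) (fun r => (ht r).comp gV) pf_x)) hW)) fun p => ?_
    simp only [Geo.SU, mem_sdiff, mem_univ, true_and, mem_union]
  · exact pf_C (c := fun p : Pt2 (GJ c) (GV c) => c p.a.a) (hc.comp (pt_a (pt_a PF.id')))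
      (pt_x (pt_a PF.id')) pf_x
  · exact pf_and (PF.const q) (pf_and
      (pf_hard (c := fun p : Pt (GV c) => c p.a) (pf_c1 hc) (fun r => (hF r).comp gV) pf_x)
      (pf_not fit))

theorem pf_wit (h : PFSLStmt) (e : ℕ) {j : ∀ a, Fin (c a).k} (hj : PF fun a => idx (j a))
    {x y : ∀ a, Fin (c a).n} (hx : PF fun a => idx (x a)) (hy : PF fun a => idx (y a)) :
    PF fun a => (c a).P.WitU b (F a) (j a, x a, y a) ∧ j a ∉ ag3 (univ.image (f a)) ∧
      x a ∉ it3 (univ.image (f a)) ∧ y a ∉ it3 (univ.image (f a)) ∧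
      (c a).P.TestSL Fin.val ((c a).P.SU b (F a) (univ.image (f a)) (univ.image (t a))
        {(j a, x a, y a)} False) e b := by
  have gJ : PF fun p : Pt (GJ c) => p.a := pt_a PF.id'
  have gV : PF fun p : Pt (GV c) => p.a := pt_a PF.id'
  refine pf_and (pf_WitU hc hF hx hj hy) (pf_and (pf_not (pf_ag3 hf hj))
    (pf_and (pf_not (pf_it3 hf hx)) (pf_and (pf_not (pf_it3 hf hy))
      (h e γ c _ (fun _ => b) hc (psub_SU hc hF hf ht ?_ ?_ False) (PF.const b)))))
  · refine pf_iff (pf_eqT (T := fun p : Pt (GJ c) => Fin (c p.a).k) pf_x (hj.comp gJ)) fun p => ?_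
    simp only [ag2, image_singleton, mem_singleton]
  · refine pf_iff (pf_or (pf_eqT (T := fun p : Pt (GV c) => Fin (c p.a).n) pf_x (hx.comp gV))
      (pf_eqT (T := fun p : Pt (GV c) => Fin (c p.a).n) pf_x (hy.comp gV))) fun p => ?_
    simp only [it2, singleton_biUnion, mem_insert, mem_singleton]

theorem pf_exWit (h : PFSLStmt) (e : ℕ) :
    PF fun a => ∃ s, (c a).P.WitU b (F a) s ∧ s.1 ∉ ag3 (univ.image (f a)) ∧
      s.2.1 ∉ it3 (univ.image (f a)) ∧ s.2.2 ∉ it3 (univ.image (f a)) ∧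
      (c a).P.TestSL Fin.val ((c a).P.SU b (F a) (univ.image (f a)) (univ.image (t a))
        {s} False) e b := by
  have g3 : PF fun p : Pt fun p : Pt2 (GJ c) (GV c) => Fin (c p.a.a).n => p.a.a.a :=
    pt_a (pt_a (pt_a PF.id'))
  have k3 := pf_wit (c := fun p : Pt fun p : Pt2 (GJ c) (GV c) => Fin (c p.a.a).n => c p.a.a.a)
    (hc.comp g3) (fun r => (hF r).comp g3) (fun r => (hf r).comp g3) (fun r => (ht r).comp g3)
    h e (j := fun p => p.a.a.x) (pt_x (pt_a (pt_a PF.id'))) (x := fun p => p.a.x)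
    (y := fun p => p.x) (pt_x (pt_a PF.id')) pf_x
  let Q : ∀ a, Fin (c a).k → Fin (c a).n → Fin (c a).n → Prop := fun a j x y =>
    (c a).P.WitU b (F a) (j, x, y) ∧ j ∉ ag3 (univ.image (f a)) ∧
      x ∉ it3 (univ.image (f a)) ∧ y ∉ it3 (univ.image (f a)) ∧
      (c a).P.TestSL Fin.val ((c a).P.SU b (F a) (univ.image (f a)) (univ.image (t a))
        {(j, x, y)} False) e b
  have k2 := pf_ex (T := fun p : Pt2 (GJ c) (GV c) => Fin (c p.a.a).n)
    (q := fun p y => Q p.a.a p.a.x p.x y) ((pf_Nn hc).comp (pt_a (pt_a PF.id'))) k3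
  have k1 := pf_ex (T := fun p : Pt (GJ c) => Fin (c p.a).n)
    (q := fun p x => ∃ y, Q p.a p.x x y) ((pf_Nn hc).comp (pt_a PF.id')) k2
  have k0 := pf_ex (T := GJ c) (q := fun a j => ∃ x y, Q a j x y) (pf_Nk hc) k1
  exact pf_iff k0 fun a =>
    ⟨fun ⟨s, hs⟩ => ⟨s.1, s.2.1, s.2.2, hs⟩, fun ⟨j, x, y, hs⟩ => ⟨(j, x, y), hs⟩⟩

end Rest

/-- The part of the test that has no bounded choice left. -/
def Body {J V : Type} [Fintype J] [Fintype V] [DecidableEq J] [DecidableEq V] (P : Geo J V)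
    (rk : J → ℕ) (e b ty : ℕ) (F : Fin (NU b) → Mb J V) (Φ : Finset (J × V × V × V))
    (D : Finset V) : Prop :=
  P.PFam ty F ∧ P.PhiOk Φ ∧ Disjoint (ag3 Φ) (fagF F) ∧
    Disjoint (it3 Φ) (fitF F) ∧ Disjoint D (fitF F) ∧
    (∀ v, v ∉ fitF F → v ∉ it3 Φ → v ∉ D → ¬ P.waste F v ∧ ¬ P.star b F v) ∧
    ((∃ s, P.WitU b F s ∧ s.1 ∉ ag3 Φ ∧ s.2.1 ∉ it3 Φ ∧ s.2.2 ∉ it3 Φ ∧
        P.TestSL rk (P.SU b F Φ D {s} False) e b) ∨
      P.TestSL rk (P.SU b F Φ D ∅ False) e (b + 1) ∨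
      P.TestSL rk (P.SU b F Φ D ∅ True) e b)

theorem uTest_iff {J V : Type} [Fintype J] [Fintype V] [DecidableEq J] [DecidableEq V]
    (P : Geo J V) (rk : J → ℕ) (e b L : ℕ) : P.UTest rk e b L ↔
      ∃ ty, ty ≤ 3 ∧ ∃ F, ∃ Φ, Φ.card ≤ L ∧ ∃ D, D.card ≤ L ∧ Body P rk e b ty F Φ D :=
  ⟨fun ⟨ty, F, Φ, D, h1, h2, h3, h4⟩ =>
      ⟨ty, Nat.le_of_lt_succ h1.lt4, F, Φ, h2, D, h3, h1, h4⟩,
    fun ⟨ty, _, F, Φ, h2, D, h3, h1, h4⟩ => ⟨ty, F, Φ, D, h1, h2, h3, h4⟩⟩

theorem pf_Body (h : PFSLStmt) (e ty : ℕ) (hc : PF c) {b : ℕ}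
    {F : ∀ a, Fin (NU b) → Mb (Fin (c a).k) (Fin (c a).n)} (hF : ∀ r, PM c fun a => F a r)
    {m : ℕ} {f : ∀ a, Fin m → Fin (c a).k × Fin (c a).n × Fin (c a).n × Fin (c a).n}
    (hf : ∀ r, PQ c fun a => f a r)
    {m' : ℕ} {t : ∀ a, Fin m' → Fin (c a).n} (ht : ∀ r, PF fun a => idx (t a r)) :
    PF fun a => Body (c a).P Fin.val e b ty (F a) (univ.image (f a)) (univ.image (t a)) := by
  have gJ : PF fun p : Pt (GJ c) => p.a := pt_a PF.id'
  have gV : PF fun p : Pt (GV c) => p.a := pt_a PF.id'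
  have fag := pf_fag (c := fun p : Pt (GJ c) => c p.a) (fun r => (hF r).comp gJ) pf_x
  have fit := pf_fit (c := fun p : Pt (GV c) => c p.a) (fun r => (hF r).comp gV) pf_x
  have a3 := pf_ag3 (c := fun p : Pt (GJ c) => c p.a) (fun r => (hf r).comp gJ) pf_x
  have i3 := pf_it3 (c := fun p : Pt (GV c) => c p.a) (fun r => (hf r).comp gV) pf_x
  have iD := pf_img (c := fun p : Pt (GV c) => c p.a) (fun r => (ht r).comp gV) pf_x
  have wa := pf_waste (c := fun p : Pt (GV c) => c p.a) (fun r => (hF r).comp gV) (pf_c1 hc) pf_x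
  have st := pf_star (c := fun p : Pt (GV c) => c p.a) (pf_c1 hc) (fun r => (hF r).comp gV) pf_x
  have d1 : PF fun a => Disjoint (ag3 (univ.image (f a))) (fagF (F a)) :=
    pf_iff (pf_all (T := GJ c) (q := fun a j => j ∈ ag3 (univ.image (f a)) → j ∉ fagF (F a))
      (pf_Nk hc) (pf_imp a3 (pf_not fag))) fun a => disjoint_left
  have d2 : PF fun a => Disjoint (it3 (univ.image (f a))) (fitF (F a)) :=
    pf_iff (pf_all (T := GV c) (q := fun a v => v ∈ it3 (univ.image (f a)) → v ∉ fitF (F a))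
      (pf_Nn hc) (pf_imp i3 (pf_not fit))) fun a => disjoint_left
  have d3 : PF fun a => Disjoint (univ.image (t a)) (fitF (F a)) :=
    pf_iff (pf_all (T := GV c) (q := fun a v => v ∈ univ.image (t a) → v ∉ fitF (F a))
      (pf_Nn hc) (pf_imp iD (pf_not fit))) fun a => disjoint_left
  have d4 := pf_all (T := GV c) (q := fun a v => v ∉ fitF (F a) → v ∉ it3 (univ.image (f a)) →
    v ∉ univ.image (t a) → ¬ (c a).P.waste (F a) v ∧ ¬ (c a).P.star b (F a) v) (pf_Nn hc)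
    (pf_imp (pf_not fit) (pf_imp (pf_not i3) (pf_imp (pf_not iD) (pf_and (pf_not wa) (pf_not st)))))
  have ps : ∀ q : Prop, PSub c fun a =>
      (c a).P.SU b (F a) (univ.image (f a)) (univ.image (t a)) ∅ q := fun q =>
    psub_SU hc hF hf ht (Wt := fun _ => ∅)
      (pf_iff (PF.const False) fun p => by simp only [ag2, image_empty, notMem_empty])
      (pf_iff (PF.const False) fun p => by simp only [it2, biUnion_empty, notMem_empty]) q
  exact pf_and (pf_PFam hF hc ty) (pf_and (pf_PhiOk hf hc) (pf_and d1 (pf_and d2 (pf_and d3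
    (pf_and d4 (pf_or (pf_exWit hc hF hf ht h e)
      (pf_or (h e γ c _ (fun _ => b + 1) hc (ps False) (PF.const _))
        (h e γ c _ (fun _ => b) hc (ps True) (PF.const _)))))))))

/-! ### Guessing tuples -/

theorem pf_exMb (hc : PF c) (m : ℕ) (q : ∀ a, (Fin m → Mb (Fin (c a).k) (Fin (c a).n)) → Prop)
    (h : ∀ (δ : Type) [Enc δ] (g : δ → γ)
      (F : ∀ d, Fin m → Mb (Fin (c (g d)).k) (Fin (c (g d)).n)), PF g →
      (∀ r, PM (fun d => c (g d)) fun d => F d r) → PF fun d => q (g d) (F d)) :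
    PF fun a => ∃ F, q a F := by
  have key : ∀ o : Fin m → Bool, PF fun a => ∃ (Fj : Fin m → Fin (c a).k)
      (Fx Fy : Fin m → Fin (c a).n), q a fun r => (Fj r, o r, Fx r, Fy r) := fun o =>
    pf_exFun m γ (GJ c) (fun a Fj => ∃ (Fx Fy : Fin m → Fin (c a).n),
      q a fun r => (Fj r, o r, Fx r, Fy r)) (pf_Nk hc) fun δ _ g Fj hg hj =>
    pf_exFun m δ (fun d => Fin (c (g d)).n) (fun d Fx => ∃ Fy : Fin m → Fin (c (g d)).n,
      q (g d) fun r => (Fj d r, o r, Fx r, Fy r)) ((pf_Nn hc).comp hg) fun δ' _ g' Fx hg' hx =>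
    pf_exFun m δ' (fun d => Fin (c (g (g' d))).n) (fun d Fy =>
      q (g (g' d)) fun r => (Fj (g' d) r, o r, Fx d r, Fy r)) (((pf_Nn hc).comp hg).comp hg')
      fun δ'' _ g'' Fy hg'' hy =>
    h δ'' (fun d => g (g' (g'' d))) (fun d r => (Fj (g' (g'' d)) r, o r, Fx (g'' d) r, Fy d r))
      (hg.comp (hg'.comp hg'')) fun r =>
        ⟨(hj r).comp (hg'.comp hg''), PF.const (o r), (hx r).comp hg'', hy r⟩
  exact pf_iff (pf_exF key) fun a =>
    ⟨fun ⟨F, hF⟩ => ⟨fun r => (F r).2.1, fun r => (F r).1, fun r => (F r).2.2.1,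
      fun r => (F r).2.2.2, hF⟩, fun ⟨_, _, _, _, k⟩ => ⟨_, k⟩⟩

theorem pf_exQ (hc : PF c) (m : ℕ)
    (q : ∀ a, (Fin m → Fin (c a).k × Fin (c a).n × Fin (c a).n × Fin (c a).n) → Prop)
    (h : ∀ (δ : Type) [Enc δ] (g : δ → γ) (F : ∀ d, Fin m →
      Fin (c (g d)).k × Fin (c (g d)).n × Fin (c (g d)).n × Fin (c (g d)).n), PF g →
      (∀ r, PQ (fun d => c (g d)) fun d => F d r) → PF fun d => q (g d) (F d)) :
    PF fun a => ∃ F, q a F := by
  have key : PF fun a => ∃ (Fj : Fin m → Fin (c a).k) (Fx Fy Fz : Fin m → Fin (c a).n),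
      q a fun r => (Fj r, Fx r, Fy r, Fz r) :=
    pf_exFun m γ (GJ c) (fun a Fj => ∃ (Fx Fy Fz : Fin m → Fin (c a).n),
      q a fun r => (Fj r, Fx r, Fy r, Fz r)) (pf_Nk hc) fun δ _ g Fj hg hj =>
    pf_exFun m δ (fun d => Fin (c (g d)).n) (fun d Fx => ∃ Fy Fz : Fin m → Fin (c (g d)).n,
      q (g d) fun r => (Fj d r, Fx r, Fy r, Fz r)) ((pf_Nn hc).comp hg) fun δ1 _ g1 Fx hg1 hx =>
    pf_exFun m δ1 (fun d => Fin (c (g (g1 d))).n) (fun d Fy =>
      ∃ Fz : Fin m → Fin (c (g (g1 d))).n,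
      q (g (g1 d)) fun r => (Fj (g1 d) r, Fx d r, Fy r, Fz r)) (((pf_Nn hc).comp hg).comp hg1)
      fun δ2 _ g2 Fy hg2 hy =>
    pf_exFun m δ2 (fun d => Fin (c (g (g1 (g2 d)))).n) (fun d Fz =>
      q (g (g1 (g2 d))) fun r => (Fj (g1 (g2 d)) r, Fx (g2 d) r, Fy d r, Fz r))
      ((((pf_Nn hc).comp hg).comp hg1).comp hg2) fun δ3 _ g3 Fz hg3 hz =>
    h δ3 (fun d => g (g1 (g2 (g3 d))))
      (fun d r => (Fj (g1 (g2 (g3 d))) r, Fx (g2 (g3 d)) r, Fy (g3 d) r, Fz d r))
      (hg.comp (hg1.comp (hg2.comp hg3))) fun r =>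
        ⟨(hj r).comp (hg1.comp (hg2.comp hg3)), (hx r).comp (hg2.comp hg3), (hy r).comp hg3, hz r⟩
  exact pf_iff key fun a =>
    ⟨fun ⟨F, hF⟩ => ⟨fun r => (F r).1, fun r => (F r).2.1, fun r => (F r).2.2.1,
      fun r => (F r).2.2.2, hF⟩, fun ⟨_, _, _, _, k⟩ => ⟨_, k⟩⟩

theorem pf_exD (h : PFSLStmt) (e ty L : ℕ) (hc : PF c) {b : ℕ}
    {F : ∀ a, Fin (NU b) → Mb (Fin (c a).k) (Fin (c a).n)} (hF : ∀ r, PM c fun a => F a r)
    {m : ℕ} {f : ∀ a, Fin m → Fin (c a).k × Fin (c a).n × Fin (c a).n × Fin (c a).n}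
    (hf : ∀ r, PQ c fun a => f a r) :
    PF fun a => ∃ D : Finset (Fin (c a).n), D.card ≤ L ∧
      Body (c a).P Fin.val e b ty (F a) (univ.image (f a)) D :=
  pf_iff (pf_exC L (q := fun a m' => ∃ t : Fin m' → Fin (c a).n,
    Body (c a).P Fin.val e b ty (F a) (univ.image (f a)) (univ.image t)) fun m' =>
      pf_exFun m' γ (GV c) (fun a t =>
        Body (c a).P Fin.val e b ty (F a) (univ.image (f a)) (univ.image t)) (pf_Nn hc)
        fun _ _ g _ hg ht => pf_Body (c := fun d => c (g d)) h e ty (hc.comp hg)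
          (fun r => (hF r).comp hg) (fun r => (hf r).comp hg) ht)
    fun _ => exists_finset_iff L _

theorem pf_exPhi (h : PFSLStmt) (e ty L : ℕ) (hc : PF c) {b : ℕ}
    {F : ∀ a, Fin (NU b) → Mb (Fin (c a).k) (Fin (c a).n)} (hF : ∀ r, PM c fun a => F a r) :
    PF fun a => ∃ Φ : Finset (Fin (c a).k × Fin (c a).n × Fin (c a).n × Fin (c a).n),
      Φ.card ≤ L ∧ ∃ D : Finset (Fin (c a).n), D.card ≤ L ∧
        Body (c a).P Fin.val e b ty (F a) Φ D :=
  pf_iff (pf_exC L (q := fun a m =>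
    ∃ f : Fin m → Fin (c a).k × Fin (c a).n × Fin (c a).n × Fin (c a).n,
      ∃ D : Finset (Fin (c a).n), D.card ≤ L ∧
        Body (c a).P Fin.val e b ty (F a) (univ.image f) D) fun m =>
      pf_exQ hc m (fun a f => ∃ D : Finset (Fin (c a).n), D.card ≤ L ∧
        Body (c a).P Fin.val e b ty (F a) (univ.image f) D)
        fun _ _ g _ hg hf => pf_exD (c := fun d => c (g d)) h e ty L (hc.comp hg)
          (fun r => (hF r).comp hg) hf)
    fun _ => exists_finset_iff L _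

end DPU

theorem pfUStmt (h : PFSLStmt) : PFUStmt := fun e b L =>
  pf_iff (DPU.pf_exC 3 (q := fun (a : CG) ty => ∃ F, ∃ Φ, Φ.card ≤ L ∧ ∃ D, D.card ≤ L ∧
    DPU.Body a.P Fin.val e b ty F Φ D) fun ty =>
      DPU.pf_exMb (c := fun a : CG => a) PF.id' (NU b)
        (fun a F => ∃ Φ, Φ.card ≤ L ∧ ∃ D, D.card ≤ L ∧ DPU.Body a.P Fin.val e b ty F Φ D)
        fun _ _ g _ hg hF => DPU.pf_exPhi (c := g) h e ty L hg hF)
    fun a => DPU.uTest_iff a.P Fin.val e b L

end Pool.Agent.Lib.MP_ef7581_lc.D2
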