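import Pool.Agent.Lib.MP_ef7581_lc.DComp

/-!
Necessity of the test in the consistent case.
-/

set_option autoImplicit false
set_option linter.unusedSectionVars false

namespace Pool.Agent.Lib.MP_ef7581_lc.D2

open Finset Classical

namespace DRNec

variable {J V : Type} [Fintype J] [Fintype V] [DecidableEq J] [DecidableEq V]

/-- A function on the nodes that is prescribed through the owners of the items. -/
theorem exists_role {D : Type} {A : Finset J} {g : J → Sv V}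
    (dis : ∀ i ∈ A, ∀ j ∈ A, i ≠ j → Disjoint (g i).its (g j).its) (fA : J → D)
    (fV : J → V → D) (fO : Nd J V → D) : ∃ role : Nd J V → D,
    (∀ j ∈ A, role (ag j) = fA j) ∧ (∀ j ∈ A, ∀ v ∈ (g j).its, role (vx v) = fV j v) ∧
      (∀ j, j ∉ A → role (ag j) = fO (ag j)) ∧ (∀ v, v ∉ itsB A g → role (vx v) = fO (vx v)) ∧
      ∀ j, role (dm j) = fO (dm j) := by
  refine ⟨Sum.elim (fun j => if j ∈ A then fA j else fO (ag j)) (Sum.elim
    (fun v => if h : ∃ j ∈ A, v ∈ (g j).its then fV h.choose v else fO (vx v))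
    fun j => fO (dm j)), fun j hj => if_pos hj, fun j hj v hv => ?_, fun j hj => if_neg hj,
    fun v hv => dif_neg fun h => hv (mem_biUnion.2 h), fun j => rfl⟩
  have h : ∃ j ∈ A, v ∈ (g j).its := ⟨j, hj, hv⟩
  have e : h.choose = j := by
    by_contra hne
    exact disjoint_left.1 (dis _ h.choose_spec.1 j hj hne) h.choose_spec.2 hv
  simp only [Sum.elim_inr, Sum.elim_inl, dif_pos h, e]

theorem nd_cases {A : Finset J} {g : J → Sv V}
    (hg : ∀ j ∈ A, (∃ v, g j = Sv.one v) ∨ ∃ a b, g j = Sv.two a b) (x : Nd J V) :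
    (∃ j, j ∉ A ∧ x = ag j) ∨ (∃ j, x = dm j) ∨ (∃ v, v ∉ itsB A g ∧ x = vx v) ∨
      (∃ j ∈ A, ∃ v, g j = Sv.one v ∧ (x = ag j ∨ x = vx v)) ∨
      ∃ j ∈ A, ∃ a b, g j = Sv.two a b ∧ (x = ag j ∨ x = vx a ∨ x = vx b) := by
  rcases x with j | v | j
  · by_cases hj : j ∈ A
    · rcases hg j hj with ⟨v, e⟩ | ⟨a, b, e⟩
      · exact Or.inr (Or.inr (Or.inr (Or.inl ⟨j, hj, v, e, Or.inl rfl⟩)))
      · exact Or.inr (Or.inr (Or.inr (Or.inr ⟨j, hj, a, b, e, Or.inl rfl⟩)))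
    · exact Or.inl ⟨j, hj, rfl⟩
  · by_cases hv : v ∈ itsB A g
    · obtain ⟨j, hj, hv⟩ := mem_biUnion.1 hv
      rcases hg j hj with ⟨u, e⟩ | ⟨a, b, e⟩
      · rw [e, Sv.its, mem_singleton] at hv
        exact Or.inr (Or.inr (Or.inr (Or.inl ⟨j, hj, u, e, Or.inr (by rw [hv])⟩)))
      · rw [e, Sv.its, mem_insert, mem_singleton] at hv
        exact Or.inr (Or.inr (Or.inr (Or.inr ⟨j, hj, a, b, e,
          Or.inr (hv.imp (fun h => by rw [h]) fun h => by rw [h])⟩)))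
    · exact Or.inr (Or.inr (Or.inl ⟨v, hv, rfl⟩))
  · exact Or.inr (Or.inl ⟨j, rfl⟩)

variable {P : Geo J V}

theorem shape {S : Sub J V} {A : Finset J} {g : J → Sv V} (hg : P.PSt S A g) (nt : NoTri A g) :
    ∀ j ∈ A, (∃ v, g j = Sv.one v) ∨ ∃ a b, g j = Sv.two a b := by
  intro j hj
  have h := hg.nrm j hj
  rcases e : g j with _ | v | ⟨a, b⟩ | ⟨a, z, b⟩
  · rw [e] at h
    exact h.elim
  · exact Or.inl ⟨v, rfl⟩
  · exact Or.inr ⟨a, b, rfl⟩
  · exact absurd e (nt j hj a z b)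

theorem two_nrm {S : Sub J V} {A : Finset J} {g : J → Sv V} (hg : P.PSt S A g) {j : J}
    (hj : j ∈ A) {a b : V} (e : g j = Sv.two a b) :
    P.col j true a ∧ P.col j false b ∧ ¬ P.HH a b := by
  have h := hg.nrm j hj
  rw [e] at h
  exact h.2

theorem two_ne {S : Sub J V} {A : Finset J} {g : J → Sv V} (hg : P.PSt S A g) {j : J}
    (hj : j ∈ A) {a b : V} (e : g j = Sv.two a b) : a ≠ b :=
  Geo.col_ne (o := true) (two_nrm hg hj e).1 (two_nrm hg hj e).2.1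

/-- The number of used items. -/
theorem card_its {S : Sub J V} {A : Finset J} {g : J → Sv V} (hg : P.PSt S A g) (nt : NoTri A g) :
    (itsB A g).card = A.card + (A.filter fun j => ∃ a b, g j = Sv.two a b).card := by
  rw [itsB, card_biUnion fun i hi j hj h => hg.dis i hi j hj h, card_filter, card_eq_sum_ones A,
    ← sum_add_distrib]
  refine sum_congr rfl fun j hj => ?_
  rcases shape hg nt j hj with ⟨v, e⟩ | ⟨a, b, e⟩
  · simp [e, Sv.its]
  · rw [if_pos ⟨a, b, e⟩, e, Sv.its, card_pair (two_ne hg hj e)]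

/-- Partner of an agent. -/
def mA (j : J) : Sv V → Nd J V
  | Sv.one v => vx v
  | _ => ag j

/-- Partner of an item. -/
def mV {K : Type} (j : J) (v : V) : Sv V → Option K → Nd J V
  | Sv.one _, _ => ag j
  | Sv.two a b, none => vx (if v = a then b else a)
  | _, _ => vx v

variable {t M t' M0 : ℕ}

/-- Label of an agent. -/
def lA : Sv V → Option (Kl t M) → Option (Lb t M)
  | Sv.two _ _, none => some (Sum.inr 0)
  | Sv.two _ _, some κ => some (Sum.inl (κ, 2))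
  | _, _ => none

/-- Label of an item. -/
def lV (v : V) : Sv V → Option (Kl t M) → Option (Lb t M)
  | Sv.two a _, some κ => some (Sum.inl (κ, if v = a then 0 else 1))
  | _, _ => none

/-- Label of an unused node. -/
def lO (W : Finset V) : Nd J V → Option (Lb t M)
  | Sum.inr (Sum.inl v) => some (Sum.inr (if v ∈ W then 1 else 2))
  | _ => some (Sum.inr 2)

/-- The nodes of a pair service. -/
def nd (i : Fin 3) (j : J) : Sv V → Nd J V
  | Sv.two a b => if i = 0 then vx a else if i = 1 then vx b else ag j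
  | _ => ag j

theorem ktest {R : RG J V t M t' M0} {A : Finset J} {W : Finset V} {g : J → Sv V}
    (hg : P.PSt (P.pl A W) A g) (nt : NoTri A g)
    (hp : ∀ j ∈ A, ∀ a b, g j = Sv.two a b → ((∃ τ, P.Ty R τ j) ∧ P.peU R a b) ∨
      ∃ κ, P.Xk R κ a ∧ P.Yk R κ b ∧ P.Ty R κ.1 j ∧
        ∀ x y, P.Xk R κ x → P.Yk R κ y → x ≠ y ∧ ¬ P.HH x y) : P.KTest R A W := by
  have h1 : ∀ j, ∃ k : Option (Kl t M), j ∈ A → ∀ a b, g j = Sv.two a b →
      (k = none → (∃ τ, P.Ty R τ j) ∧ P.peU R a b) ∧ ∀ κ, k = some κ →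
        P.Xk R κ a ∧ P.Yk R κ b ∧ P.Ty R κ.1 j ∧
          ∀ x y, P.Xk R κ x → P.Yk R κ y → x ≠ y ∧ ¬ P.HH x y := by
    intro j
    by_cases h : j ∈ A ∧ ∃ a b, g j = Sv.two a b
    · obtain ⟨hj, a, b, e⟩ := h
      rcases hp j hj a b e with h | ⟨κ, h⟩
      · refine ⟨none, fun _ a' b' e' => ?_⟩
        obtain ⟨rfl, rfl⟩ := Sv.two.inj (e.symm.trans e')
        exact ⟨fun _ => h, fun κ hκ => absurd hκ (by simp)⟩
      · refine ⟨some κ, fun _ a' b' e' => ?_⟩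
        obtain ⟨rfl, rfl⟩ := Sv.two.inj (e.symm.trans e')
        exact ⟨fun hκ => absurd hκ (by simp), fun κ' hκ => Option.some.inj hκ ▸ h⟩
    · exact ⟨none, fun hj a b e => absurd ⟨hj, a, b, e⟩ h⟩
  choose cl hcl using h1
  obtain ⟨m, m1, m2, m3, m4, m5⟩ := exists_role hg.dis (fun j => mA j (g j))
    (fun j v => mV j v (g j) (cl j)) id
  obtain ⟨lab, l1, l2, l3, l4, l5⟩ := exists_role hg.dis (fun j => lA (g j) (cl j))
    (fun j v => lV v (g j) (cl j)) (lO W)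
  have hW : ∀ j ∈ A, ∀ v ∈ (g j).its, v ∈ W := fun j hj v hv => hg.inW j hj hv
  have o1 : ∀ j ∈ A, ∀ v, g j = Sv.one v → m (ag j) = vx v ∧ m (vx v) = ag j ∧
      lab (ag j) = none ∧ lab (vx v) = none ∧ v ∈ W ∧ P.C j v := by
    intro j hj v e
    have hv : v ∈ (g j).its := by simp [e, Sv.its]
    have h := hg.nrm j hj
    rw [e] at h
    rw [m1 j hj, m2 j hj v hv, l1 j hj, l2 j hj v hv, e]
    exact ⟨rfl, rfl, rfl, rfl, hW j hj v hv, h⟩
  have o2 : ∀ j ∈ A, ∀ a b, g j = Sv.two a b → m (ag j) = ag j ∧ a ≠ b ∧ a ∈ W ∧ b ∈ W ∧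
      ¬ P.HH a b ∧ ((cl j = none ∧ m (vx a) = vx b ∧ m (vx b) = vx a ∧
        lab (ag j) = some (Sum.inr 0) ∧ lab (vx a) = none ∧ lab (vx b) = none) ∨
      ∃ κ, cl j = some κ ∧ m (vx a) = vx a ∧ m (vx b) = vx b ∧
        lab (ag j) = some (Sum.inl (κ, 2)) ∧ lab (vx a) = some (Sum.inl (κ, 0)) ∧
        lab (vx b) = some (Sum.inl (κ, 1))) := by
    intro j hj a b e
    have ha : a ∈ (g j).its := by simp [e, Sv.its]
    have hb : b ∈ (g j).its := by simp [e, Sv.its]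
    have hab := two_ne hg hj e
    rw [m1 j hj, m2 j hj a ha, m2 j hj b hb, l1 j hj, l2 j hj a ha, l2 j hj b hb, e]
    refine ⟨rfl, hab, hW j hj a ha, hW j hj b hb, (two_nrm hg hj e).2.2, ?_⟩
    rcases cl j with _ | κ
    · exact Or.inl (by simp [mV, lA, lV, hab.symm])
    · exact Or.inr ⟨κ, by simp [mV, lA, lV, hab.symm]⟩
  have hc := nd_cases (shape hg nt)
  have cnt : ∀ κ i, (univ.filter fun x => lab x = some (Sum.inl (κ, i))).card =
      (A.filter fun j => (∃ a b, g j = Sv.two a b) ∧ cl j = some κ).card := by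
    intro κ i
    symm
    refine card_bij (fun j _ => nd i j (g j)) (fun j hj => ?_) (fun j hj j' hj' e => ?_)
      fun x hx => ?_
    · obtain ⟨hj, ⟨a, b, e⟩, hk⟩ := mem_filter.1 hj
      rcases (o2 j hj a b e).2.2.2.2.2 with h | ⟨κ', h⟩
      · exact absurd (h.1.symm.trans hk) (by simp)
      · obtain rfl : κ' = κ := Option.some.inj (h.1.symm.trans hk)
        rw [mem_filter, e]
        fin_cases i <;> simp [nd, h]
    · obtain ⟨hj, ⟨a, b, e1⟩, -⟩ := mem_filter.1 hj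
      obtain ⟨hj', ⟨a', b', e2⟩, -⟩ := mem_filter.1 hj'
      by_contra hne
      have := hg.dis j hj j' hj' hne
      rw [e1, e2] at e this
      fin_cases i <;> simp_all [nd, Sv.its]
    · rw [mem_filter] at hx
      rcases hc x with ⟨j, hj, rfl⟩ | ⟨j, rfl⟩ | ⟨v, hv, rfl⟩ | ⟨j, hj, v, e, rfl | rfl⟩ |
        ⟨j, hj, a, b, e, hx'⟩
      · simp [l3 j hj, lO] at hx
      · simp [l5 j, lO] at hx
      · simp [l4 v hv, lO] at hx
      · simp [o1 j hj v e] at hx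
      · simp [o1 j hj v e] at hx
      · rcases (o2 j hj a b e).2.2.2.2.2 with h | ⟨κ', h⟩
        · rcases hx' with rfl | rfl | rfl <;> simp [h] at hx
        · refine ⟨j, mem_filter.2 ⟨hj, ⟨a, b, e⟩, ?_⟩, ?_⟩
          · rcases hx' with rfl | rfl | rfl <;> simp [h] at hx <;> rw [h.1, hx.1]
          · rcases hx' with rfl | rfl | rfl <;> simp [h] at hx <;> simp [e, nd, ← hx.2]
  have cnt0 : (univ.filter fun x => lab x = some (Sum.inr 0)).card ≤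
      (A.filter fun j => (∃ a b, g j = Sv.two a b) ∧ cl j = none).card := by
    refine le_trans (card_le_card fun x hx => ?_) (card_image_le (f := fun j => (ag j : Nd J V)))
    rw [mem_filter] at hx
    rcases hc x with ⟨j, hj, rfl⟩ | ⟨j, rfl⟩ | ⟨v, hv, rfl⟩ | ⟨j, hj, v, e, rfl | rfl⟩ |
      ⟨j, hj, a, b, e, hx'⟩
    · simp [l3 j hj, lO] at hx
    · simp [l5 j, lO] at hx
    · by_cases h : v ∈ W <;> simp [l4 v hv, lO, h] at hx
    · simp [o1 j hj v e] at hx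
    · simp [o1 j hj v e] at hx
    · rcases (o2 j hj a b e).2.2.2.2.2 with h | ⟨κ', h⟩
      · rcases hx' with rfl | rfl | rfl
        · exact mem_image_of_mem _ (mem_filter.2 ⟨hj, ⟨a, b, e⟩, h.1⟩)
        · simp [h] at hx
        · simp [h] at hx
      · rcases hx' with rfl | rfl | rfl <;> simp [h] at hx
  have cnt1 : (univ.filter fun x => lab x = some (Sum.inr 1)).card ≤ (W \ itsB A g).card := by
    refine le_trans (card_le_card fun x hx => ?_) (card_image_le (f := fun v => (vx v : Nd J V)))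
    rw [mem_filter] at hx
    rcases hc x with ⟨j, hj, rfl⟩ | ⟨j, rfl⟩ | ⟨v, hv, rfl⟩ | ⟨j, hj, v, e, rfl | rfl⟩ |
      ⟨j, hj, a, b, e, hx'⟩
    · simp [l3 j hj, lO] at hx
    · simp [l5 j, lO] at hx
    · by_cases h : v ∈ W
      · exact mem_image_of_mem _ (mem_sdiff.2 ⟨h, hv⟩)
      · simp [l4 v hv, lO, h] at hx
    · simp [o1 j hj v e] at hx
    · simp [o1 j hj v e] at hx
    · rcases (o2 j hj a b e).2.2.2.2.2 with h | ⟨κ', h⟩ <;>
        rcases hx' with rfl | rfl | rfl <;> simp [h] at hx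
  refine ⟨fun d => (univ.filter fun x => lab x = some d).card, fun κ => ⟨?_, ?_, fun h => ?_⟩, ?_,
    m, ⟨fun x => ?_, fun x hx => ?_⟩, lab, fun x => ?_, fun x d hx => ?_, fun d => ?_⟩
  · simp only [cnt]
  · simp only [cnt]
  · simp only [cnt] at h
    obtain ⟨j, hj⟩ := card_ne_zero.1 h
    obtain ⟨hj, ⟨a, b, e⟩, hk⟩ := mem_filter.1 hj
    exact ((hcl j hj a b e).2 κ hk).2.2.2
  · have h1 : (A.filter fun j => ∃ a b, g j = Sv.two a b).card =
        (A.filter fun j => (∃ a b, g j = Sv.two a b) ∧ cl j = none).card +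
          ∑ κ, (A.filter fun j => (∃ a b, g j = Sv.two a b) ∧ cl j = some κ).card := by
      rw [card_eq_sum_card_fiberwise (t := univ) (f := cl) fun _ _ => mem_coe.2 (mem_univ _),
        Fintype.sum_option]
      simp only [filter_filter]
      congr!
    have h2 := card_its hg nt
    have h3 := card_sdiff_add_card_eq_card
      (show itsB A g ⊆ W from biUnion_subset.2 fun j hj => hg.inW j hj)
    simp only [cnt]
    omega
  · rcases hc x with ⟨j, hj, rfl⟩ | ⟨j, rfl⟩ | ⟨v, hv, rfl⟩ | ⟨j, hj, v, e, rfl | rfl⟩ |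
      ⟨j, hj, a, b, e, hx'⟩
    · simp [m3 j hj]
    · simp [m5 j]
    · simp [m4 v hv]
    · simp [o1 j hj v e]
    · simp [o1 j hj v e]
    · have h0 := (o2 j hj a b e).1
      rcases (o2 j hj a b e).2.2.2.2.2 with h | ⟨κ', h⟩ <;>
        rcases hx' with rfl | rfl | rfl <;> simp [h, h0]
  · rcases hc x with ⟨j, hj, rfl⟩ | ⟨j, rfl⟩ | ⟨v, hv, rfl⟩ | ⟨j, hj, v, e, rfl | rfl⟩ |
      ⟨j, hj, a, b, e, hx'⟩
    · exact absurd (m3 j hj) hx
    · exact absurd (m5 j) hx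
    · exact absurd (m4 v hv) hx
    · obtain ⟨h1, -, -, -, h2⟩ := o1 j hj v e
      rw [h1]
      exact ⟨hj, h2⟩
    · obtain ⟨-, h1, -, -, h2⟩ := o1 j hj v e
      rw [h1]
      exact ⟨hj, h2⟩
    · obtain ⟨h0, -, ha, hb, nh, h | ⟨κ', h⟩⟩ := o2 j hj a b e
      · have hu := ((hcl j hj a b e).1 h.1).2
        rcases hx' with rfl | rfl | rfl
        · exact absurd h0 hx
        · rw [h.2.1]
          exact ⟨ha, hb, nh, Or.inl hu⟩
        · rw [h.2.2.1]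
          exact ⟨hb, ha, fun h => nh (Geo.HH_symm h), Or.inr hu⟩
      · rcases hx' with rfl | rfl | rfl
        · exact absurd h0 hx
        · exact absurd h.2.1 hx
        · exact absurd h.2.2.1 hx
  · rcases hc x with ⟨j, hj, rfl⟩ | ⟨j, rfl⟩ | ⟨v, hv, rfl⟩ | ⟨j, hj, v, e, rfl | rfl⟩ |
      ⟨j, hj, a, b, e, hx'⟩
    · simp [m3 j hj, l3 j hj, lO]
    · simp [m5 j, l5 j, lO]
    · simp [m4 v hv, l4 v hv, lO]
    · simp [o1 j hj v e]
    · simp [o1 j hj v e]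
    · obtain ⟨h0, hab, -, -, -, h | ⟨κ', h⟩⟩ := o2 j hj a b e <;>
        rcases hx' with rfl | rfl | rfl <;> simp [h, h0, hab, hab.symm]
  · rcases hc x with ⟨j, hj, rfl⟩ | ⟨j, rfl⟩ | ⟨v, hv, rfl⟩ | ⟨j, hj, v, e, rfl | rfl⟩ |
      ⟨j, hj, a, b, e, hx'⟩
    · obtain rfl : Sum.inr 2 = d := Option.some.inj ((l3 j hj).symm.trans hx)
      exact Or.inr ⟨rfl, hj⟩
    · obtain rfl : Sum.inr 2 = d := Option.some.inj ((l5 j).symm.trans hx)
      rfl
    · obtain rfl : Sum.inr (if v ∈ W then 1 else 2) = d :=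
        Option.some.inj ((l4 v hv).symm.trans hx)
      by_cases h : v ∈ W
      · exact Or.inl ⟨if_pos h, h⟩
      · exact Or.inr ⟨if_neg h, h⟩
    · simp [o1 j hj v e] at hx
    · simp [o1 j hj v e] at hx
    · obtain ⟨-, -, ha, hb, -, h | ⟨κ', h⟩⟩ := o2 j hj a b e
      · rcases hx' with rfl | rfl | rfl
        · obtain rfl : Sum.inr 0 = d := Option.some.inj (h.2.2.2.1.symm.trans hx)
          exact Or.inl ⟨rfl, hj, ((hcl j hj a b e).1 h.1).1⟩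
        · simp [h] at hx
        · simp [h] at hx
      · have hk := (hcl j hj a b e).2 κ' h.1
        rcases hx' with rfl | rfl | rfl
        · obtain rfl : Sum.inl (κ', 2) = d := Option.some.inj (h.2.2.2.1.symm.trans hx)
          exact ⟨hj, rfl, hk.2.2.1⟩
        · obtain rfl : Sum.inl (κ', 0) = d := Option.some.inj (h.2.2.2.2.1.symm.trans hx)
          exact ⟨ha, Or.inl ⟨rfl, hk.1⟩⟩
        · obtain rfl : Sum.inl (κ', 1) = d := Option.some.inj (h.2.2.2.2.2.symm.trans hx)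
          exact ⟨hb, Or.inr ⟨rfl, hk.2.1⟩⟩
  · congr

/-- The members given by the pair services. -/
noncomputable def sP (A : Finset J) (g : J → Sv V) : Finset (Mb J V) :=
  univ.filter fun m => m.1 ∈ A ∧ m.2.1 = true ∧ g m.1 = Sv.two m.2.2.1 m.2.2.2

/-- Two members see each other consistently. -/
def Rl (P : Geo J V) (m m' : Mb J V) : Prop :=
  (P.cA m m'.2.2.1 ∧ P.cB m m'.2.2.2) ∧ P.cA m' m.2.2.1 ∧ P.cB m' m.2.2.2

section
variable {S : Sub J V} {A : Finset J} {g : J → Sv V} {m m' : Mb J V}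

theorem mem_sP : m ∈ sP A g ↔ m.1 ∈ A ∧ m.2.1 = true ∧ g m.1 = Sv.two m.2.2.1 m.2.2.2 := by
  simp [sP]

theorem sP_inj (h : m ∈ sP A g) (h' : m' ∈ sP A g) (e : m.1 = m'.1) : m = m' := by
  obtain ⟨j, o, a, b⟩ := m
  obtain ⟨j', o', a', b'⟩ := m'
  rw [mem_sP] at h h'
  simp only at h h' e
  subst e
  obtain ⟨rfl, rfl⟩ := Sv.two.inj (h.2.2.symm.trans h'.2.2)
  rw [h.2.1, h'.2.1]

theorem sP_its (h : m ∈ sP A g) : (g m.1).its = {m.2.2.1, m.2.2.2} := by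
  rw [(mem_sP.1 h).2.2, Sv.its]

theorem sP_dis (hg : P.PSt S A g) (h : m ∈ sP A g) (h' : m' ∈ sP A g) (e : m ≠ m') :
    Disjoint ({m.2.2.1, m.2.2.2} : Finset V) {m'.2.2.1, m'.2.2.2} := by
  rw [← sP_its h, ← sP_its h']
  exact hg.dis _ (mem_sP.1 h).1 _ (mem_sP.1 h').1 fun e' => e (sP_inj h h' e')

theorem sP_own (hg : P.PSt S A g) (h : m ∈ sP A g) :
    P.cA m m.2.2.1 ∧ P.cB m m.2.2.2 ∧ ¬ P.HH m.2.2.1 m.2.2.2 := by
  rw [mem_sP] at h
  rw [Geo.cA, Geo.cB, h.2.1]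
  exact two_nrm hg h.1 h.2.2

theorem sP_ne (hg : P.PSt S A g) (h : m ∈ sP A g) : m.2.2.1 ≠ m.2.2.2 :=
  two_ne hg (mem_sP.1 h).1 (mem_sP.1 h).2.2

theorem disF (hg : P.PSt S A g) {ι : Type} {F : ι → Mb J V} (hi : Function.Injective F)
    (hF : ∀ r, F r ∈ sP A g) : DisF F := by
  refine ⟨fun r r' e => hi (sP_inj (hF r) (hF r') e), ?_⟩
  have key : ∀ r r' v, v ∈ ({(F r).2.2.1, (F r).2.2.2} : Finset V) →
      v ∈ ({(F r').2.2.1, (F r').2.2.2} : Finset V) → r = r' := fun r r' v h h' => by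
    by_contra hne
    exact disjoint_left.1 (sP_dis hg (hF r) (hF r') fun e => hne (hi e)) h h'
  rintro (r | r) (r' | r') e <;> simp only [Sum.elim_inl, Sum.elim_inr] at e
  · rw [key r r' (F r).2.2.1 (by simp) (by simp [e])]
  · obtain rfl := key r r' (F r).2.2.1 (by simp) (by simp [e])
    exact absurd e (sP_ne hg (hF r))
  · obtain rfl := key r r' (F r).2.2.2 (by simp) (by simp [e])
    exact absurd e.symm (sP_ne hg (hF r))
  · rw [key r r' (F r).2.2.2 (by simp) (by simp [e])]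

theorem cfam (hg : P.PSt S A g) {N : ℕ} {F : Fin N → Mb J V} (hF : ∀ r, F r ∈ sP A g)
    (hR : ∀ r r', r ≠ r' → Rl P (F r) (F r')) : P.CFam F := by
  refine ⟨fun r r' => ?_, fun r => (sP_own hg (hF r)).2.2⟩
  by_cases e : r = r'
  · subst e
    exact ⟨(sP_own hg (hF r)).1, (sP_own hg (hF r)).2.1⟩
  · exact (hR r r' e).1

theorem indep {t0 : ℕ} (h : ∀ T ⊆ A.filter fun j => ∃ a b, g j = Sv.two a b, t0 ≤ T.card →
    ∃ i ∈ T, ∃ k ∈ T, i ≠ k ∧ P.Cons g i k) :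
    ∀ T ⊆ sP A g, t0 ≤ T.card → ∃ x ∈ T, ∃ y ∈ T, x ≠ y ∧ Rl P x y := by
  intro T hT ht
  obtain ⟨i, hi, k, hk, hne, a, b, a', b', e, e', hc⟩ := h (T.image fun m => m.1) (fun j hj => by
    obtain ⟨x, hx, rfl⟩ := mem_image.1 hj
    exact mem_filter.2 ⟨(mem_sP.1 (hT hx)).1, _, _, (mem_sP.1 (hT hx)).2.2⟩) (by
      rwa [card_image_of_injOn fun x hx y hy => sP_inj (hT hx) (hT hy)])
  obtain ⟨x, hx, rfl⟩ := mem_image.1 hi
  obtain ⟨y, hy, rfl⟩ := mem_image.1 hk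
  obtain ⟨-, ox, ex⟩ := mem_sP.1 (hT hx)
  obtain ⟨-, oy, ey⟩ := mem_sP.1 (hT hy)
  obtain ⟨rfl, rfl⟩ := Sv.two.inj (e.symm.trans ex)
  obtain ⟨rfl, rfl⟩ := Sv.two.inj (e'.symm.trans ey)
  refine ⟨x, hx, y, hy, fun e => hne (by rw [e]), ?_⟩
  simp only [Rl, Geo.cA, Geo.cB, ox, oy]
  exact ⟨⟨hc.1, hc.2.1⟩, hc.2.2⟩

theorem conform {N h : ℕ} {F : Fin N → Mb J V} (ho : m.2.1 = true)
    (hc : (univ.filter fun r => ¬ Rl P m (F r)).card < h) :
    P.Xs F h m.2.2.1 ∧ P.Ys F h m.2.2.2 ∧ P.To F h m.1 true := by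
  refine ⟨lt_of_le_of_lt (card_le_card fun r hr => ?_) hc,
    lt_of_le_of_lt (card_le_card fun r hr => ?_) hc,
    lt_of_le_of_lt (card_le_card fun r hr => ?_) hc⟩ <;>
    simp only [mem_filter, mem_univ, true_and] at hr ⊢
  · exact fun h => hr h.2.1
  · exact fun h => hr h.2.2
  · refine fun h => hr ?_
    have := h.1
    rwa [Geo.cA, Geo.cB, ho] at this

end

theorem XY_ne {N h : ℕ} {F : Fin N → Mb J V} (hN : 2 * h ≤ N) {x y : V} (hx : P.Xs F h x)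
    (hy : P.Ys F h y) : x ≠ y := by
  rintro rfl
  have h1 : (univ : Finset (Fin N)) ⊆ (univ.filter fun r => ¬ P.cA (F r) x) ∪
      univ.filter fun r => ¬ P.cB (F r) x := fun r _ => by
    simp only [mem_union, mem_filter, mem_univ, true_and]
    by_contra hn
    push Not at hn
    exact Geo.col_ne hn.1 hn.2 rfl
  have h2 := (card_le_card h1).trans (card_union_le _ _)
  rw [card_univ, Fintype.card_fin] at h2
  unfold Geo.Xs at hx
  unfold Geo.Ys at hy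
  omega

/-- A pair that is refused by two members of a base family lies in a complete class. -/
theorem exists_class {R : RG J V t M t' M0} (hM : 2 * R.h ≤ M) (hd : DisF R.mem) {a b : V}
    (hab : a ≠ b) (nh : ¬ P.HH a b) {τ τ' : Fin t} (ha : P.Xs (R.F τ) R.h a)
    (hb : P.Ys (R.F τ) R.h b)
    (h : 1 < (univ.filter fun r => ¬ P.Ok (R.F τ' r).1 a b).card) :
    ∃ κ : Kl t M, P.Xk R κ a ∧ P.Yk R κ b ∧ κ.1 = τ ∧
      ∀ x y, P.Xk R κ x → P.Yk R κ y → x ≠ y ∧ ¬ P.HH x y := by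
  obtain ⟨r, hr, r', hr', hne⟩ := one_lt_card.1 h
  obtain ⟨o, a1, b1⟩ := Geo.refuse hab nh (mem_filter.1 hr).2
  obtain ⟨o', a2, b2⟩ := Geo.refuse hab nh (mem_filter.1 hr').2
  refine ⟨(τ, (τ', r, o), (τ', r', o')), ⟨ha, a1, a2⟩, ⟨hb, b1, b2⟩, rfl, fun x y hx hy =>
    ⟨XY_ne hM hx.1 hy.1, Geo.ind_t (fun e => hne ?_) a1 a2 b1 b2 hab nh hx.2.1 hx.2.2 hy.2.1
      hy.2.2⟩⟩
  have := hd.1 (a₁ := Sum.inl (τ', r)) (a₂ := Sum.inl (τ', r')) (Prod.mk.inj e).1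
  simpa using this

/-- A member as an installed service. -/
def toS (m : Mb J V) : J × V × V × V := (m.1, m.2.2.1, m.2.2.1, m.2.2.2)

theorem mem_ag3 {Φ : Finset (J × V × V × V)} {Z : Finset (Mb J V)} {j : J} :
    j ∈ ag3 (Φ ∪ Z.image toS) ↔ j ∈ ag3 Φ ∨ ∃ z ∈ Z, z.1 = j := by
  simp only [ag3, image_union, mem_union, image_image]
  exact or_congr_right mem_image

theorem mem_it3 {Φ : Finset (J × V × V × V)} {Z : Finset (Mb J V)} {v : V} :
    v ∈ it3 (Φ ∪ Z.image toS) ↔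
      v ∈ it3 Φ ∨ ∃ z ∈ Z, v ∈ ({z.2.2.1, z.2.2.2} : Finset V) := by
  simp only [it3, union_biUnion, mem_union, image_biUnion]
  refine or_congr_right ?_
  simp [toS]

theorem mem_fit {ι : Type} [Fintype ι] {F : ι → Mb J V} {v : V} :
    v ∈ fitF F ↔ ∃ r, v ∈ ({(F r).2.2.1, (F r).2.2.2} : Finset V) := by
  simp only [fitF, mem_union, mem_image, mem_univ, true_and, mem_insert, mem_singleton,
    exists_or, eq_comm]

theorem phiOk {Φ : Finset (J × V × V × V)} {g : J → Sv V} {Z : Finset (Mb J V)}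
    (hΦ : P.PhiOk Φ) (hg : P.PSt (P.pl (univ \ ag3 Φ) (univ \ it3 Φ)) (univ \ ag3 Φ) g)
    (hZ : Z ⊆ sP (univ \ ag3 Φ) g) : P.PhiOk (Φ ∪ Z.image toS) := by
  have key : ∀ s ∈ Φ, ∀ z ∈ Z, s.1 ≠ (toS z).1 ∧
      Disjoint ({s.2.1, s.2.2.1, s.2.2.2} : Finset V)
        {(toS z).2.1, (toS z).2.2.1, (toS z).2.2.2} := fun s hs z hz => by
    have h1 := (mem_sP.1 (hZ hz)).1
    refine ⟨fun e => (mem_sdiff.1 h1).2 (mem_image.2 ⟨s, hs, e⟩),
      disjoint_left.2 fun v hv hv' => ?_⟩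
    have h2 : v ∈ (g z.1).its := by
      rw [sP_its (hZ hz)]
      simpa [toS] using hv'
    exact (mem_sdiff.1 (hg.inW _ h1 h2)).2 (mem_biUnion.2 ⟨s, hs, hv⟩)
  refine ⟨fun s hs => ?_, fun s hs s' hs' hne => ?_⟩
  · rcases mem_union.1 hs with hs | hs
    · exact hΦ.1 s hs
    · obtain ⟨z, hz, rfl⟩ := mem_image.1 hs
      obtain ⟨h1, h2, h3⟩ := sP_own hg (hZ hz)
      exact Or.inl (Or.inr ⟨trivial, z.2.2.1, by simp [toS], z.2.2.2, by simp [toS],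
        Geo.Pr_of_col h1 h2 h3⟩)
  · rcases mem_union.1 hs with hs | hs <;> rcases mem_union.1 hs' with hs' | hs'
    · exact hΦ.2 s hs s' hs' hne
    · obtain ⟨z, hz, rfl⟩ := mem_image.1 hs'
      exact key s hs z hz
    · obtain ⟨z, hz, rfl⟩ := mem_image.1 hs
      exact ⟨(key s' hs' z hz).1.symm, (key s' hs' z hz).2.symm⟩
    · obtain ⟨z, hz, rfl⟩ := mem_image.1 hs
      obtain ⟨z', hz', rfl⟩ := mem_image.1 hs'
      have h1 : z ≠ z' := fun e => hne (by rw [e])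
      refine ⟨fun e => h1 (sP_inj (hZ hz) (hZ hz') e), ?_⟩
      simpa only [toS, insert_idem] using sP_dis hg (hZ hz) (hZ hz') h1

/-- The slack instance is solvable. -/
theorem sol2 {R : RG J V t M t' M0} {A U : Finset J} {W : Finset V} {g : J → Sv V}
    (hg : P.PSt (P.pl A W) A g) (nt : NoTri A g) (hU : U ⊆ A)
    (hp : ∀ j ∈ A, ∀ a b, g j = Sv.two a b → ∃ τ, P.Ty R τ j) :
    P.Sol2 (P.SR R (A \ U) W) U.card := by
  have hA : ∀ j ∈ A \ U, j ∈ A := fun j hj => (mem_sdiff.1 hj).1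
  refine ⟨fun j => (g j).its, ⟨subset_rfl, fun j hj => hg.inW j (hA j hj), fun j hj => ?_,
    fun i hi j hj => hg.dis i (hA i hi) j (hA j hj), fun v _ h => h.elim⟩, ?_⟩
  · have h := hg.nrm j (hA j hj)
    rcases shape hg nt j (hA j hj) with ⟨v, e⟩ | ⟨a, b, e⟩
    · rw [e] at h ⊢
      exact Or.inl ⟨v, by simp [Sv.its], h⟩
    · have h1 := hp j (hA j hj) a b e
      rw [e] at h ⊢
      exact Or.inr ⟨h1, a, by simp [Sv.its], b, by simp [Sv.its],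
        Geo.Pr_of_col (o := true) h.2.1 h.2.2.1 h.2.2.2⟩
  · have h1 : (itsB A g).card ≤ W.card :=
      card_le_card (biUnion_subset.2 fun j hj => hg.inW j hj)
    rw [itsB, card_biUnion fun i hi j hj h => hg.dis i hi j hj h, ← sum_sdiff hU] at h1
    have h2 : U.card ≤ ∑ j ∈ U, (g j).its.card := by
      rw [card_eq_sum_ones]
      refine sum_le_sum fun j hj => card_pos.2 ?_
      rcases shape hg nt j (hU hj) with ⟨v, e⟩ | ⟨a, b, e⟩ <;> simp [e, Sv.its]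
    exact (Nat.add_le_add_left h2 _).trans h1

theorem assemble {R : RG J V t M t' M0} {Φ : Finset (J × V × V × V)} {g : J → Sv V}
    {Z : Finset (Mb J V)} {e : ℕ} (hS : SLN e) (rk : J → ℕ) (c : ℕ)
    (hg : P.PSt (P.pl (univ \ ag3 Φ) (univ \ it3 Φ)) (univ \ ag3 Φ) g)
    (nt : NoTri (univ \ ag3 Φ) g) (hZ : Z ⊆ sP (univ \ ag3 Φ) g)
    (hm : ∀ p, R.mem p ∈ sP (univ \ ag3 Φ) g ∧ R.mem p ∉ Z)
    (hp : ∀ x ∈ sP (univ \ ag3 Φ) g, x ∉ Z → (∀ p, x ≠ R.mem p) →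
      ((∃ τ, P.Ty R τ x.1) ∧ P.peU R x.2.2.1 x.2.2.2) ∨
      ∃ κ, P.Xk R κ x.2.2.1 ∧ P.Yk R κ x.2.2.2 ∧ P.Ty R κ.1 x.1 ∧
        ∀ x y, P.Xk R κ x → P.Yk R κ y → x ≠ y ∧ ¬ P.HH x y) :
    Disjoint (ag3 (Φ ∪ Z.image toS)) (fagF R.mem) ∧
      Disjoint (it3 (Φ ∪ Z.image toS)) (fitF R.mem) ∧
      P.KTest R (univ \ (fagF R.mem ∪ ag3 (Φ ∪ Z.image toS)))
        (univ \ (fitF R.mem ∪ it3 (Φ ∪ Z.image toS))) ∧
      ∃ U : Finset J, U.card ≤ c ∧ (univ \ (fagF R.mem ∪ ag3 (Φ ∪ Z.image toS)) ⊆ U ∨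
        P.TestSL rk (P.SR R (univ \ (fagF R.mem ∪ ag3 (Φ ∪ Z.image toS) ∪ U))
          (univ \ (fitF R.mem ∪ it3 (Φ ∪ Z.image toS)))) e c) := by
  obtain ⟨A, hA⟩ : ∃ A, A = univ \ (fagF R.mem ∪ ag3 (Φ ∪ Z.image toS)) := ⟨_, rfl⟩
  obtain ⟨W, hW⟩ : ∃ W, W = univ \ (fitF R.mem ∪ it3 (Φ ∪ Z.image toS)) := ⟨_, rfl⟩
  have mA : ∀ j ∈ A, j ∈ univ \ ag3 Φ ∧ (∀ p, (R.mem p).1 ≠ j) ∧ ∀ z ∈ Z, z.1 ≠ j := by
    intro j hj
    rw [hA, mem_sdiff, mem_union, mem_ag3, not_or, not_or] at hj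
    exact ⟨mem_sdiff.2 ⟨hj.1, hj.2.2.1⟩, fun p e => hj.2.1 (mem_image.2 ⟨p, mem_univ _, e⟩),
      fun z hz e => hj.2.2.2 ⟨z, hz, e⟩⟩
  have hg' : P.PSt (P.pl A W) A g := by
    refine ⟨subset_rfl, fun j hj v hv => ?_, fun j hj => hg.nrm j (mA j hj).1,
      fun i hi j hj => hg.dis i (mA i hi).1 j (mA j hj).1, fun j _ v _ h => h.elim⟩
    have key : ∀ z ∈ sP (univ \ ag3 Φ) g, z.1 ≠ j → v ∉ ({z.2.2.1, z.2.2.2} : Finset V) :=
      fun z hz hne => by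
        rw [← sP_its hz]
        exact disjoint_right.1 (hg.dis _ (mem_sP.1 hz).1 _ (mA j hj).1 hne) hv
    change v ∈ W
    rw [hW, mem_sdiff, mem_union, mem_it3, mem_fit, not_or, not_or]
    exact ⟨mem_univ _, fun ⟨p, h⟩ => key _ (hm p).1 ((mA j hj).2.1 p) h,
      (mem_sdiff.1 (hg.inW j (mA j hj).1 hv)).2,
      fun ⟨z, hz, h⟩ => key z (hZ hz) ((mA j hj).2.2 z hz) h⟩
  have nt' : NoTri A g := fun j hj => nt j (mA j hj).1
  have hp' := fun j (hj : j ∈ A) a b (e : g j = Sv.two a b) =>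
    hp (j, true, a, b) (mem_sP.2 ⟨(mA j hj).1, rfl, e⟩) (fun h => (mA j hj).2.2 _ h rfl)
      fun p h => (mA j hj).2.1 p (by rw [← h])
  refine ⟨disjoint_left.2 fun j hj hj' => ?_, disjoint_left.2 fun v hv hv' => ?_,
    hA ▸ hW ▸ ktest hg' nt' hp', ?_⟩
  · obtain ⟨p, -, rfl⟩ := mem_image.1 hj'
    rcases mem_ag3.1 hj with h | ⟨z, hz, h⟩
    · exact (mem_sdiff.1 (mem_sP.1 (hm p).1).1).2 h
    · exact (hm p).2 (sP_inj (hZ hz) (hm p).1 h ▸ hz)
  · obtain ⟨p, hp⟩ := mem_fit.1 hv'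
    rcases mem_it3.1 hv with h | ⟨z, hz, h⟩
    · rw [← sP_its (hm p).1] at hp
      exact (mem_sdiff.1 (hg.inW _ (mem_sP.1 (hm p).1).1 hp)).2 h
    · exact disjoint_left.1 (sP_dis hg (hZ hz) (hm p).1 fun e => (hm p).2 (e ▸ hz)) h hp
  · rcases le_total A.card c with hc | hc
    · exact ⟨A, hc, Or.inl (hA ▸ subset_rfl)⟩
    · obtain ⟨U, hU, rfl⟩ := exists_subset_card_eq hc
      refine ⟨U, le_rfl, Or.inr ?_⟩
      rw [show univ \ (fagF R.mem ∪ ag3 (Φ ∪ Z.image toS) ∪ U) = A \ U by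
        rw [hA, sdiff_sdiff_left, sup_eq_union], ← hW]
      exact hS J V P rk _ _ (fun _ _ _ => Iff.rfl) (sol2 hg' nt' hU fun j hj a b e =>
        (hp' j hj a b e).elim (fun h => h.1) fun ⟨κ, h⟩ => ⟨κ.1, h.2.2.1⟩)

end DRNec

open DRNec in
theorem rNecStmt (hE : ExtStmt) (_hN : NormStmt) : RNecStmt := by
  intro e c cT t0 c1 hS
  obtain ⟨L1, hL⟩ := hE t0 (fun h => 30 * h + c1) fun h => by omega
  refine ⟨cT + 2 * L1, fun L hLL J V _ _ _ _ P rk Φ g hΦ hc hg nt hT => ?_⟩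
  have sy : ∀ x y, Rl P x y → Rl P y x := fun x y h => ⟨h.2, h.1⟩
  obtain ⟨t, ht, h, -, hh, F, Bad, F1, F2, F3, B1, B2, B3, B4⟩ :=
    hL _ (sP (univ \ ag3 Φ) g) (Rl P) sy (indep hT)
  obtain ⟨t', ht', h0, -, hh0, G, Bad0, G1, G2, G3, C1, C2, C3, C4⟩ :=
    hL _ ((sP (univ \ ag3 Φ) g).filter fun x => x ∉ Bad ∧ (∀ τ r, x ≠ F τ r) ∧
      ∀ τ, (univ.filter fun r => ¬ P.Ok (F τ r).1 x.2.2.1 x.2.2.2).card ≤ 1) (Rl P) sy
      fun T hT' => indep hT T (hT'.trans (filter_subset _ _))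
  simp only [mem_filter] at G2
  have hm : ∀ p, RG.mem ⟨F, G, h, h0⟩ p ∈ sP (univ \ ag3 Φ) g ∧
      RG.mem ⟨F, G, h, h0⟩ p ∉ Bad ∪ Bad0 := by
    rintro (p | p) <;> rw [mem_union, not_or]
    · exact ⟨F2 _ _, B3 _ _, fun h => (mem_filter.1 (C1 h)).2.2.1 _ _ rfl⟩
    · exact ⟨(G2 _ _).1, (G2 _ _).2.1, C3 _ _⟩
  have hd : DisF (RG.mem ⟨F, G, h, h0⟩) := by
    refine disF hg.1 ?_ fun p => (hm p).1
    rintro (p | p) (p' | p') e
    · rw [F1 e]
    · exact absurd e.symm ((G2 _ _).2.2.1 _ _)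
    · exact absurd e ((G2 _ _).2.2.1 _ _)
    · rw [G1 e]
  have hZ : Bad ∪ Bad0 ⊆ sP (univ \ ag3 Φ) g := union_subset B1 (C1.trans (filter_subset _ _))
  obtain ⟨d1, d2, kt, U, hU, hU'⟩ := assemble (R := ⟨F, G, h, h0⟩) hS rk c hg.1 nt hZ hm
    fun x hx hb hne => by
      rw [mem_union, not_or] at hb
      have ho := (mem_sP.1 hx).2.1
      obtain ⟨τ, hτ⟩ := B4 x hx hb.1 fun τ r => hne (Sum.inl (τ, r))
      obtain ⟨x1, x2, x3⟩ := conform ho hτ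
      by_cases hu : ∀ τ, (univ.filter fun r => ¬ P.Ok (F τ r).1 x.2.2.1 x.2.2.2).card ≤ 1
      · obtain ⟨i, hi⟩ := C4 x (mem_filter.2 ⟨hx, hb.1, fun τ r => hne (Sum.inl (τ, r)), hu⟩)
          hb.2 fun i r => hne (Sum.inr (i, r))
        exact Or.inl ⟨⟨τ, true, x3⟩, i, (conform ho hi).1, (conform ho hi).2.1⟩
      · push Not at hu
        obtain ⟨τ', hτ'⟩ := hu
        obtain ⟨κ, k1, k2, rfl, k3⟩ := exists_class (R := ⟨F, G, h, h0⟩) (by simp only; omega) hd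
          (sP_ne hg.1 hx) (sP_own hg.1 hx).2.2 x1 x2 hτ'
        exact Or.inr ⟨κ, k1, k2, ⟨true, x3⟩, k3⟩
  refine ⟨t, ht, t', ht', h, by omega, h0, by omega, F, G, _, U, ⟨hd,
    fun τ => cfam hg.1 (F2 τ) (F3 τ), fun i => cfam hg.1 (fun r => (G2 i r).1) (G3 i),
    fun i r => (G2 i r).2.2.2⟩, ?_, hU, phiOk hΦ hg.1 hZ, d1, d2, kt, hU'⟩
  have h1 := card_union_le Φ ((Bad ∪ Bad0).image toS)
  have h2 := card_image_le (s := Bad ∪ Bad0) (f := toS)
  have h3 := card_union_le Bad Bad0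
  omega

end Pool.Agent.Lib.MP_ef7581_lc.D2
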