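import Mathlib
import Pool.Agent.Lib.MP_ef7581_lc.DComp

/-!
Realisation in the consistent case.
-/

set_option autoImplicit false
set_option linter.unusedSectionVars false

namespace Pool.Agent.Lib.MP_ef7581_lc.D2

open Finset Classical

namespace DRReal

open Geo

variable {J V : Type} [Fintype J] [Fintype V] [DecidableEq J] [DecidableEq V] {P : Geo J V}

/-! ### Assignments -/

/-- The set `s` serves `j`. -/
def Sr (P : Geo J V) (j : J) (s : Finset V) : Prop := P.Serv2 (P.pl univ univ) j s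

/-- The agents of `B` can be served by items of `U`. -/
def Asg (P : Geo J V) (B : Finset J) (U : Finset V) : Prop :=
  ∃ f : J → Finset V, (∀ j ∈ B, f j ⊆ U ∧ Sr P j (f j)) ∧
    ∀ i ∈ B, ∀ j ∈ B, i ≠ j → Disjoint (f i) (f j)

theorem sr_C {j : J} {v : V} {s : Finset V} (h : P.C j v) (hv : v ∈ s) : Sr P j s :=
  Or.inl ⟨v, hv, h⟩

theorem sr_Pr {j : J} {a b : V} {s : Finset V} (h : P.Pr j a b) (ha : a ∈ s) (hb : b ∈ s) :
    Sr P j s := Or.inr ⟨trivial, a, ha, b, hb, h⟩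

theorem sr_Ok {j : J} {a b : V} (h : P.Ok j a b) : Sr P j {a, b} :=
  serv_of_Ok (wf_pl _ _) trivial h

theorem Asg.empty (U : Finset V) : Asg P ∅ U := ⟨fun _ => ∅, by simp, by simp⟩

theorem Asg.single {j : J} {s : Finset V} (h : Sr P j s) : Asg P {j} s :=
  ⟨fun _ => s, fun _ hi => ⟨Subset.rfl, mem_singleton.1 hi ▸ h⟩, fun _ hi _ hk e =>
    absurd ((mem_singleton.1 hi).trans (mem_singleton.1 hk).symm) e⟩

theorem Asg.mono {B B' : Finset J} {U U' : Finset V} (h : Asg P B U) (hB : B' ⊆ B)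
    (hU : U ⊆ U') : Asg P B' U' := by
  obtain ⟨f, h1, h2⟩ := h
  exact ⟨f, fun j hj => ⟨(h1 j (hB hj)).1.trans hU, (h1 j (hB hj)).2⟩,
    fun i hi j hj => h2 i (hB hi) j (hB hj)⟩

theorem Asg.union {B B' : Finset J} {U U' : Finset V} (h : Asg P B U) (h' : Asg P B' U')
    (hd : Disjoint U U') : Asg P (B ∪ B') (U ∪ U') := by
  obtain ⟨f, h1, h2⟩ := h
  obtain ⟨f', h3, h4⟩ := h'
  have k : ∀ j ∈ B ∪ B', j ∉ B → j ∈ B' := fun j hj e => (mem_union.1 hj).resolve_left e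
  refine ⟨fun j => if j ∈ B then f j else f' j, fun j hj => ?_, fun i hi j hj e => ?_⟩
  · by_cases a : j ∈ B
    · simp only [if_pos a]
      exact ⟨(h1 j a).1.trans subset_union_left, (h1 j a).2⟩
    · simp only [if_neg a]
      exact ⟨(h3 j (k j hj a)).1.trans subset_union_right, (h3 j (k j hj a)).2⟩
  · by_cases a : i ∈ B <;> by_cases b : j ∈ B
    · simp only [if_pos a, if_pos b]; exact h2 i a j b e
    · simp only [if_pos a, if_neg b]; exact hd.mono (h1 i a).1 (h3 j (k j hj b)).1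
    · simp only [if_neg a, if_pos b]; exact hd.symm.mono (h3 i (k i hi a)).1 (h1 j b).1
    · simp only [if_neg a, if_neg b]; exact h4 i (k i hi a) j (k j hj b) e

theorem exists_inj (s t : Finset J) (h : s.card ≤ t.card) :
    ∃ f : J → J, (∀ j ∈ s, f j ∈ t) ∧ ∀ i ∈ s, ∀ j ∈ s, f i = f j → i = j := by
  obtain ⟨f, hf⟩ := Function.Embedding.exists_of_card_le_finset (α := s) (s := t) (by simpa using h)
  refine ⟨fun j => if e : j ∈ s then f ⟨j, e⟩ else j, fun j hj => ?_, fun i hi j hj e => ?_⟩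
  · simp only [dif_pos hj]; exact hf ⟨_, rfl⟩
  · simp only [dif_pos hi, dif_pos hj] at e
    exact congrArg Subtype.val (f.injective e)

/-! ### Members -/

/-- The pair of a member. -/
def pr (m : Mb J V) : Finset V := {m.2.2.1, m.2.2.2}

theorem sd_mem (m : Mb J V) (s : Bool) : sdI m s ∈ pr m := by cases s <;> simp [sdI, pr]

theorem pr_sub {ι : Type} [Fintype ι] (F : ι → Mb J V) (r : ι) : pr (F r) ⊆ fitF F := by
  intro x hx
  simp only [pr, mem_insert, mem_singleton] at hx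
  simp only [fitF, mem_union, mem_image, mem_univ, true_and]
  rcases hx with e | e
  · exact Or.inl ⟨r, e.symm⟩
  · exact Or.inr ⟨r, e.symm⟩

theorem pr_dis {ι : Type} {F : ι → Mb J V} (h : DisF F) {r r' : ι} (e : r ≠ r') :
    Disjoint (pr (F r)) (pr (F r')) := by
  rw [disjoint_left]
  intro x h1 h2
  simp only [pr, mem_insert, mem_singleton] at h1 h2
  rcases h1 with a | a <;> rcases h2 with b | b
  · exact e (Sum.inl_injective (h.2 (a₁ := Sum.inl r) (a₂ := Sum.inl r') (a.symm.trans b)))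
  · exact Sum.inl_ne_inr (h.2 (a₁ := Sum.inl r) (a₂ := Sum.inr r') (a.symm.trans b))
  · exact Sum.inr_ne_inl (h.2 (a₁ := Sum.inr r) (a₂ := Sum.inl r') (a.symm.trans b))
  · exact e (Sum.inr_injective (h.2 (a₁ := Sum.inr r) (a₂ := Sum.inr r') (a.symm.trans b)))

theorem sd_ne {ι : Type} {F : ι → Mb J V} (h : DisF F) (r : ι) (s : Bool) :
    sdI (F r) s ≠ sdI (F r) (!s) := fun e => by
  cases s
  · exact Sum.inl_ne_inr (h.2 (a₁ := Sum.inl r) (a₂ := Sum.inr r) e)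
  · exact Sum.inl_ne_inr (h.2 (a₁ := Sum.inl r) (a₂ := Sum.inr r) e.symm)

theorem col_sd {j : J} {o : Bool} {m : Mb J V} (h : P.col j o m.2.2.1 ∧ P.col j (!o) m.2.2.2)
    (s : Bool) : P.col j (xor o s) (sdI m s) := by
  cases s
  · simpa [sdI] using h.1
  · simpa [sdI] using h.2

theorem xor_not' (o s : Bool) : xor o (!s) = !(xor o s) := by cases o <;> cases s <;> rfl

theorem fam_sr {N : ℕ} {F : Fin N → Mb J V} (h : P.CFam F) (r r' : Fin N) :
    Sr P (F r).1 (pr (F r')) :=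
  sr_Ok (Or.inr (Or.inr (Pr_of_col (h.1 r r').1 (h.1 r r').2 (h.2 r'))))

variable {t M t' M0 : ℕ} {R : RG J V t M t' M0}

theorem ag_ne (hG : P.RGood R) {τ : Fin t} {r r' : Fin M} (e : r ≠ r') :
    (R.F τ r).1 ≠ (R.F τ r').1 := fun h => e (by
  have := hG.dis.1 (a₁ := Sum.inl (τ, r)) (a₂ := Sum.inl (τ, r')) h
  simpa using this)

theorem ps_ind (hG : P.RGood R) {τ : Fin t} {s : Bool} {x y u v : V} {r r' : Fin M} (e : r ≠ r')
    (h1 : r ∈ P.PS R τ s x y) (h2 : r' ∈ P.PS R τ s x y) (hxy : x ≠ y) (n : ¬ P.HH x y)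
    (u1 : P.adj (R.F τ r).1 (xor (R.F τ r).2.1 s) u)
    (u2 : P.adj (R.F τ r').1 (xor (R.F τ r').2.1 s) u)
    (v1 : P.adj (R.F τ r).1 (xor (R.F τ r).2.1 s) v)
    (v2 : P.adj (R.F τ r').1 (xor (R.F τ r').2.1 s) v) : ¬ P.HH u v := by
  simp only [PS, mem_filter, mem_univ, true_and] at h1 h2
  refine ind_t ?_ h1.1 h2.1 h1.2 h2.2 hxy n u1 u2 v1 v2
  exact fun h => ag_ne hG e (Prod.ext_iff.1 h).1

/-- An item of the family is not adjacent to the items of a pair with two members in `PS`. -/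
theorem ps_sd (hG : P.RGood R) {τ : Fin t} {s : Bool} {x y : V}
    (h : 1 < (P.PS R τ s x y).card) (hxy : x ≠ y) (n : ¬ P.HH x y) (r : Fin M) :
    ¬ P.HH x (sdI (R.F τ r) s) ∧ ¬ P.HH (sdI (R.F τ r) s) y := by
  obtain ⟨r1, h1, r2, h2, e⟩ := one_lt_card.1 h
  have a1 := (col_sd ((hG.cF τ).1 r1 r) s).1
  have a2 := (col_sd ((hG.cF τ).1 r2 r) s).1
  have b1 := (mem_filter.1 h1).2
  have b2 := (mem_filter.1 h2).2
  exact ⟨ps_ind hG e h1 h2 hxy n b1.1 b2.1 a1 a2, ps_ind hG e h1 h2 hxy n a1 a2 b1.2 b2.2⟩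

theorem odd_ps {g : J → Sv V} {j : J} {x y : V} {o : Bool} {k : Fin t × Bool × Bool}
    (h : P.OddC R g j x y o k) : M ≤ 4 * (P.PS R k.1 k.2.1 x y).card := by
  obtain ⟨τ, s, b⟩ := k
  obtain ⟨-, -, -, -, -, h1, h2⟩ := h
  cases b
  · have := h1 rfl
    omega
  · cases s
    · exact (h2 rfl).1
    · exact (h2 rfl).2

/-- The exchange of a hidden item. -/
theorem gadget (hG : P.RGood R) {g : J → Sv V} {j j' : J} {x y x' y' : V} {o o' : Bool}
    {k : Fin t × Bool × Bool} (h1 : P.OddC R g j x y o k) (h2 : P.OddC R g j' x' y' o' k)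
    (n1 : ¬ P.HH x y) (n2 : ¬ P.HH x' y') (hne : x' ≠ y) (U : Finset (Fin M))
    (hM : 10 * (R.h + U.card + 3) ≤ M) :
    P.Pr j x' y ∨ ∃ r ∉ U, P.Pr (R.F k.1 r).1 x' (sdI (R.F k.1 r) (!k.2.1)) ∧
      P.Pr j (sdI (R.F k.1 r) k.2.1) y := by
  have p1 := odd_ps h1
  have p2 := odd_ps h2
  obtain ⟨τ, s, b⟩ := k
  obtain ⟨-, to1, c1, c2, -, q1, -⟩ := h1
  obtain ⟨-, -, c3, c4, w2, q2, q3⟩ := h2
  simp only at p1 p2 to1 c1 c2 q1 c3 c4 w2 q2 q3 ⊢
  have e1 : x ≠ y := col_ne c1 c2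
  have e2 : x' ≠ y' := col_ne c3 c4
  unfold To at to1
  have k1 := le_card_sdiff (((univ.filter fun r => P.junk (R.F τ r).1 x') ∪ univ.filter fun r =>
    ¬ (P.col j o (R.F τ r).2.2.1 ∧ P.col j (!o) (R.F τ r).2.2.2)) ∪ U) (P.PS R τ s x' y')
  have k2 := card_union_le ((univ.filter fun r => P.junk (R.F τ r).1 x') ∪ univ.filter fun r =>
    ¬ (P.col j o (R.F τ r).2.2.1 ∧ P.col j (!o) (R.F τ r).2.2.2)) U
  have k3 := card_union_le (univ.filter fun r => P.junk (R.F τ r).1 x') (univ.filter fun r =>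
    ¬ (P.col j o (R.F τ r).2.2.1 ∧ P.col j (!o) (R.F τ r).2.2.2))
  obtain ⟨r1, m1, r2, m2, e⟩ := one_lt_card.1 (show 1 < (P.PS R τ s x' y' \ (((univ.filter fun r =>
    P.junk (R.F τ r).1 x') ∪ univ.filter fun r =>
    ¬ (P.col j o (R.F τ r).2.2.1 ∧ P.col j (!o) (R.F τ r).2.2.2)) ∪ U)).card by omega)
  simp only [PS, mem_sdiff, mem_union, mem_filter, mem_univ, true_and, not_or, not_not] at m1 m2
  have key : ∀ r, ((P.adj (R.F τ r).1 (xor (R.F τ r).2.1 s) x' ∧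
      P.adj (R.F τ r).1 (xor (R.F τ r).2.1 s) y') ∧ (¬ P.junk (R.F τ r).1 x' ∧
      P.col j o (R.F τ r).2.2.1 ∧ P.col j (!o) (R.F τ r).2.2.2) ∧ r ∉ U) →
      ¬ P.HH x' (sdI (R.F τ r) (!s)) → ∃ r ∉ U, P.Pr (R.F τ r).1 x' (sdI (R.F τ r) (!s)) ∧
      P.Pr j (sdI (R.F τ r) s) y := fun r m n =>
    ⟨r, m.2.2, Pr_of_col ⟨m.1.1, fun a => m.2.1.1 (junk_of m.1.1 a)⟩
      (xor_not' _ s ▸ col_sd ((hG.cF τ).1 r r) (!s)) n,
      Pr_of_col (col_sd m.2.1.2 s) c2 (ps_sd hG (by omega) e1 n1 r).2⟩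
  by_cases a1 : P.HH x' (sdI (R.F τ r1) (!s))
  swap
  · exact Or.inr (key r1 m1 a1)
  by_cases a2 : P.HH x' (sdI (R.F τ r2) (!s))
  swap
  · exact Or.inr (key r2 m2 a2)
  cases b
  swap
  · refine absurd a1 (ps_sd hG ?_ e2 n2 r1).1
    have := q3 rfl
    cases s
    · simp only [Bool.not_false]; omega
    · simp only [Bool.not_true]; omega
  left
  have u12 : ¬ P.HH (sdI (R.F τ r1) (!s)) (sdI (R.F τ r2) (!s)) := fun h =>
    m1.2.1.1 (junk_of m1.1.1 (xor_not' _ s ▸ adj_of_edge h (col_sd ((hG.cF τ).1 r1 r1) (!s)).1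
      (col_sd ((hG.cF τ).1 r1 r2) (!s)).1 a1 a2))
  have une : sdI (R.F τ r1) (!s) ≠ sdI (R.F τ r2) (!s) := fun h =>
    disjoint_left.1 (pr_dis hG.dis (r := Sum.inl (τ, r1)) (r' := Sum.inl (τ, r2)) (by simpa using e))
      (sd_mem _ (!s)) (h ▸ sd_mem (R.F τ r2) (!s))
  have b1 := not_adj_of_two une u12 (col_sd m1.2.1.2 (!s)).1 (col_sd m2.2.1.2 (!s)).1 a1 a2
  have k4 := card_union_add_card_inter (P.PS R τ s x y) (P.PS R τ s x' y')
  have k5 : (P.PS R τ s x y ∪ P.PS R τ s x' y').card ≤ M := by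
    simpa using card_le_univ (P.PS R τ s x y ∪ P.PS R τ s x' y')
  have k6 := q1 rfl
  have k7 := q2 rfl
  obtain ⟨r3, m3, r4, m4, e'⟩ := one_lt_card.1
    (show 1 < (P.PS R τ s x y ∩ P.PS R τ s x' y').card by omega)
  rw [mem_inter] at m3 m4
  refine ⟨hne, ps_ind hG e' m3.1 m4.1 e1 n1 (mem_filter.1 m3.2).2.1 (mem_filter.1 m4.2).2.1
    (mem_filter.1 m3.1).2.2 (mem_filter.1 m4.1).2.2, !(xor o s), xor_not' o s ▸ b1, c2.2⟩

/-! ### The context -/

variable {h2 : ℕ} {A : Finset J} {W : Finset V} {B : Finset J} {g : J → Sv V} {od : OdT J V t}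
  {μ ν : Nd J V → Nd J V} {nE d : ℕ}

theorem same (hK : P.KCtx R h2 A W B g od μ) {i j : J} (hi : i ∈ B) (hj : j ∈ B) {v : V}
    (h1 : v ∈ (g i).its) (h2 : v ∈ (g j).its) : i = j := by
  by_contra e
  exact disjoint_left.1 (hK.st.dis i hi j hj e) h1 h2

theorem two_facts (hK : P.KCtx R h2 A W B g od μ) {j : J} (hj : j ∈ B) {x y : V}
    (h : g j = Sv.two x y ∨ g j = Sv.two y x) :
    (g j).its = {x, y} ∧ x ∈ W ∧ y ∈ W ∧ ¬ P.HH x y ∧ P.Pr j x y := by
  have h1 := hK.st.nrm j hj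
  have h3 := hK.st.inW j hj
  rcases h with e | e <;> rw [e] at h1 h3 ⊢
  · exact ⟨rfl, h3 (by simp [Sv.its]), h3 (by simp [Sv.its]), h1.2.2.2,
      Pr_of_col h1.2.1 h1.2.2.1 h1.2.2.2⟩
  · exact ⟨pair_comm _ _, h3 (by simp [Sv.its]), h3 (by simp [Sv.its]),
      fun a => h1.2.2.2 (HH_symm a), Pr_symm (Pr_of_col h1.2.1 h1.2.2.1 h1.2.2.2)⟩

theorem odd_facts (hK : P.KCtx R h2 A W B g od μ) {j : J} {x y : V} {o : Bool}
    {k : Fin t × Bool × Bool} (h : od j = some (x, y, o, k)) :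
    j ∈ B ∧ (g j).its = {x, y} ∧ x ∈ W ∧ y ∈ W ∧ ¬ P.HH x y ∧ P.Pr j x y :=
  ⟨(hK.odd j x y o k h).1, two_facts hK (hK.odd j x y o k h).1 (hK.odd j x y o k h).2.1⟩

theorem hid_inj (hK : P.KCtx R h2 A W B g od μ) {i j : J} {x y y' : V} {o o' : Bool}
    {k k' : Fin t × Bool × Bool} (h : od i = some (x, y, o, k)) (h' : od j = some (x, y', o', k')) :
    i = j :=
  same hK (odd_facts hK h).1 (odd_facts hK h').1 (v := x) (by rw [(odd_facts hK h).2.1]; simp)
    (by rw [(odd_facts hK h').2.1]; simp)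

theorem hid_fix (hK : P.KCtx R h2 A W B g od μ) {j : J} {x y : V} {o : Bool}
    {k : Fin t × Bool × Bool} (h : od j = some (x, y, o, k)) : μ (vx x) = vx x := by
  by_contra e
  have h1 := (hK.im _ _ (Ne.symm e)).1 rfl
  obtain ⟨hj, h3, -, -, -, h4⟩ := odd_facts hK h
  have hx : x ∈ (g j).its := by rw [h3]; simp
  rcases hm : μ (vx x) with i | u | i <;> rw [hm] at h1
  · obtain ⟨hi, a | ⟨x', o', k', a⟩⟩ := h1
    · have := same hK hi hj (by rw [a]; simp [Sv.its]) hx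
      subst this
      rcases (hK.odd _ _ _ _ _ h).2.1 with b | b <;> rw [a] at b <;> cases b
    · have := same hK hi hj (by rw [(odd_facts hK a).2.1]; simp) hx
      subst this
      rw [h] at a
      cases a
      exact h4.1 rfl
  · obtain ⟨i, hi, a, b⟩ := h1
    have := same hK hi hj (by rw [(two_facts hK hi b).1]; simp) hx
    subst this
    rw [h] at a
    cases a
  · exact h1

theorem cov_ag (hK : P.KCtx R h2 A W B g od μ) (hO : P.KOut R h2 A W od μ ν nE d) {j : J}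
    (h : ν (ag j) ≠ ag j) : ∃ v, ν (ag j) = vx v ∧ v ∈ W ∧
      (P.C j v ∨ ∃ x o k, od j = some (x, v, o, k)) := by
  rcases hO.m.2 _ h with a | a
  · rcases hm : ν (ag j) with i | u | i <;> rw [hm] at a
    · exact a.elim
    · exact ⟨u, rfl, a.2.1, Or.inl a.2.2⟩
    · exact a.elim
  · have h1 := (hK.im _ _ (Ne.symm h)).1 a
    rcases hm : ν (ag j) with i | u | i <;> rw [hm] at h1
    · exact h1.elim
    · obtain ⟨hj, b | ⟨x, o, k, b⟩⟩ := h1
      · have h3 := hK.st.nrm j hj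
        have h4 := hK.st.inW j hj
        rw [b] at h3 h4
        exact ⟨u, rfl, h4 (by simp [Sv.its]), Or.inl h3⟩
      · exact ⟨u, rfl, (odd_facts hK b).2.2.2.1, Or.inr ⟨x, o, k, b⟩⟩
    · exact h1.elim

theorem old_edge (hK : P.KCtx R h2 A W B g od μ) {x y : V} (hxy : x ≠ y) (h : μ (vx x) = vx y) :
    ∃ b ∈ B, μ (ag b) = ag b ∧ (g b).its = {x, y} ∧ x ∈ W ∧ y ∈ W ∧ ¬ P.HH x y ∧ P.Pr b x y := by
  obtain ⟨b, hb, h1, h3⟩ := (hK.im _ _ (by simpa using hxy)).1 h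
  refine ⟨b, hb, ?_, two_facts hK hb h3⟩
  by_contra e
  have h4 := (hK.im _ _ (Ne.symm e)).1 rfl
  rcases hm : μ (ag b) with i | u | i <;> rw [hm] at h4
  · exact h4
  · obtain ⟨-, a | ⟨x', o, k, a⟩⟩ := h4
    · rcases h3 with c | c <;> rw [a] at c <;> cases c
    · rw [h1] at a; cases a
  · exact h4

theorem edge_facts (hK : P.KCtx R h2 A W B g od μ) (hO : P.KOut R h2 A W od μ ν nE d) {x y : V}
    (hxy : x ≠ y) (h : ν (vx x) = vx y) : x ∈ W ∧ y ∈ W ∧ ¬ P.HH x y := by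
  have h1 := hO.m.2 (vx x) (by rw [h]; simpa using hxy.symm)
  rw [h] at h1
  rcases h1 with a | a
  · exact ⟨a.1, a.2.1, a.2.2.1⟩
  · obtain ⟨b, -, -, -, h3, h4, h5, -⟩ := old_edge hK hxy a
    exact ⟨h3, h4, h5⟩

/-! ### Step 1: the covered agents -/

/-- The odd service of `j` is kept. -/
def Kept (od : OdT J V t) (ν : Nd J V → Nd J V) (j : J) : Prop :=
  ∃ x y o k, od j = some (x, y, o, k) ∧ ν (ag j) = vx y

/-- Kept odd services whose hidden item is covered. -/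
noncomputable def Dm (od : OdT J V t) (ν : Nd J V → Nd J V) : Finset J :=
  univ.filter fun j => ∃ x y o k, od j = some (x, y, o, k) ∧ ν (ag j) = vx y ∧ ν (vx x) ≠ vx x

theorem card_Dm (hK : P.KCtx R h2 A W B g od μ) (hO : P.KOut R h2 A W od μ ν nE d) :
    (Dm od ν).card ≤ nE := by
  refine le_trans (card_le_card_of_forall_subsingleton
    (fun j n => ∃ x y o k, od j = some (x, y, o, k) ∧ n = vx x) (fun j hj => ?_) ?_) hO.en
  · obtain ⟨x, y, o, k, h1, -, h3⟩ := (mem_filter.1 hj).2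
    exact ⟨vx x, mem_filter.2 ⟨mem_univ _, Or.inl ⟨hid_fix hK h1, h3⟩⟩, x, y, o, k, h1, rfl⟩
  · rintro n - i ⟨-, x, y, o, k, h1, e⟩ j ⟨-, x', y', o', k', h3, e'⟩
    have : x = x' := by simpa using e.symm.trans e'
    subst this
    exact hid_inj hK h1 h3

theorem exists_partner (hO : P.KOut R h2 A W od μ ν nE d) : ∃ σ : J → J,
    (∀ j x y o k, od j = some (x, y, o, k) → ν (ag j) = vx y →
      ∃ x' y' o', od (σ j) = some (x', y', o', k) ∧ ν (vx x') = vx x') ∧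
    (∀ j, j ∉ Dm od ν → σ j = j) ∧
    ∀ i j, Kept od ν i → Kept od ν j → σ i = σ j → i = j := by
  have h1 : ∀ k, ∃ f : J → J, (∀ j ∈ univ.filter fun j => ∃ x y o, od j = some (x, y, o, k) ∧
      ν (ag j) = vx y ∧ ν (vx x) ≠ vx x, f j ∈ univ.filter fun j => ∃ x y o,
        od j = some (x, y, o, k) ∧ ν (ag j) ≠ vx y ∧ ν (vx x) = vx x) ∧
      ∀ i ∈ univ.filter fun j => ∃ x y o, od j = some (x, y, o, k) ∧
        ν (ag j) = vx y ∧ ν (vx x) ≠ vx x, ∀ j ∈ univ.filter fun j => ∃ x y o,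
        od j = some (x, y, o, k) ∧ ν (ag j) = vx y ∧ ν (vx x) ≠ vx x, f i = f j → i = j := by
    intro k
    refine exists_inj _ _ ?_
    have a1 := hO.cls k
    have a2 := card_sdiff_add_card_inter
      (univ.filter fun j => ∃ x y o, od j = some (x, y, o, k) ∧ ν (vx x) ≠ vx x)
      (univ.filter fun j => ∃ x y o, od j = some (x, y, o, k) ∧ ν (ag j) ≠ vx y)
    have a3 := card_sdiff_add_card_inter
      (univ.filter fun j => ∃ x y o, od j = some (x, y, o, k) ∧ ν (ag j) ≠ vx y)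
      (univ.filter fun j => ∃ x y o, od j = some (x, y, o, k) ∧ ν (vx x) ≠ vx x)
    rw [inter_comm] at a3
    have a4 := le_of_add_le_add_right ((a2.le.trans a1).trans a3.ge)
    refine le_trans (card_le_card ?_) (a4.trans (card_le_card ?_))
    · intro j hj
      simp only [mem_sdiff, mem_filter, mem_univ, true_and, not_exists, not_and, not_not] at hj ⊢
      obtain ⟨x, y, o, b1, b2, b3⟩ := hj
      refine ⟨⟨x, y, o, b1, b3⟩, fun x' y' o' b4 => ?_⟩
      rw [b1] at b4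
      cases b4
      exact b2
    · intro j hj
      simp only [mem_sdiff, mem_filter, mem_univ, true_and, not_exists, not_and, not_not] at hj ⊢
      obtain ⟨⟨x, y, o, b1, b2⟩, b3⟩ := hj
      exact ⟨x, y, o, b1, b2, b3 x y o b1⟩
  choose f hf1 hf2 using h1
  simp only [mem_filter, mem_univ, true_and] at hf1 hf2
  have h3 : ∀ j, ∃ i, (j ∉ Dm od ν → i = j) ∧ ∀ x y o k, od j = some (x, y, o, k) →
      ν (ag j) = vx y → ν (vx x) ≠ vx x → i = f k j := fun j => by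
    by_cases a : j ∈ Dm od ν
    · obtain ⟨x, y, o, k, b, -⟩ := (mem_filter.1 a).2
      refine ⟨f k j, fun e => absurd a e, fun x' y' o' k' b' _ _ => ?_⟩
      rw [b] at b'
      cases b'
      rfl
    · exact ⟨j, fun _ => rfl, fun x y o k b1 b2 b3 =>
        absurd (mem_filter.2 ⟨mem_univ _, x, y, o, k, b1, b2, b3⟩) a⟩
  choose σ hσ1 hσ2 using h3
  have h4 : ∀ j ∈ Dm od ν, ∃ x y o k x' y' o', od j = some (x, y, o, k) ∧ ν (ag j) = vx y ∧
      ν (vx x) ≠ vx x ∧ σ j = f k j ∧ od (σ j) = some (x', y', o', k) ∧ ν (ag (σ j)) ≠ vx y' := by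
    intro j hj
    obtain ⟨x, y, o, k, b1, b2, b3⟩ := (mem_filter.1 hj).2
    obtain ⟨x', y', o', c1, c2, -⟩ := hf1 k j ⟨x, y, o, b1, b2, b3⟩
    rw [← hσ2 j x y o k b1 b2 b3] at c1 c2
    exact ⟨x, y, o, k, x', y', o', b1, b2, b3, hσ2 j x y o k b1 b2 b3, c1, c2⟩
  have h5 : ∀ i j, i ∈ Dm od ν → j ∉ Dm od ν → Kept od ν j → σ i ≠ σ j := by
    rintro i j hi hj ⟨x, y, o, k, b1, b2⟩ e
    obtain ⟨-, -, -, k', x', y', o', -, -, -, -, c1, c2⟩ := h4 i hi
    rw [e, hσ1 j hj] at c1 c2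
    rw [b1] at c1
    cases c1
    exact c2 b2
  refine ⟨σ, fun j x y o k b1 b2 => ?_, hσ1, fun i j hi hj e => ?_⟩
  · by_cases b3 : ν (vx x) = vx x
    · refine ⟨x, y, o, ?_, b3⟩
      rw [hσ1 j fun a => ?_, b1]
      obtain ⟨x', y', o', k', c1, -, c3⟩ := (mem_filter.1 a).2
      rw [b1] at c1
      cases c1
      exact c3 b3
    · obtain ⟨x', y', o', c1, -, c3⟩ := hf1 k j ⟨x, y, o, b1, b2, b3⟩
      exact ⟨x', y', o', by rw [hσ2 j x y o k b1 b2 b3, c1], c3⟩
  · by_cases a : i ∈ Dm od ν <;> by_cases b : j ∈ Dm od ν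
    · obtain ⟨x, y, o, k, x', y', o', b1, b2, b3, b4, b5, -⟩ := h4 i a
      obtain ⟨u, v, p, l, u', v', p', c1, c2, c3, c4, c5, -⟩ := h4 j b
      rw [e, c5] at b5
      cases b5
      exact hf2 k i ⟨x, y, o, b1, b2, b3⟩ j ⟨u, v, p, c1, c2, c3⟩ (by rw [← b4, ← c4, e])
    · exact absurd e (h5 i j a b hj)
    · exact absurd e.symm (h5 j i b a hi)
    · rwa [hσ1 i a, hσ1 j b] at e

/-- The base sets of the covered agents. -/
theorem exists_base (hK : P.KCtx R h2 A W B g od μ) (hO : P.KOut R h2 A W od μ ν nE d)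
    (hM : 10 * (R.h + nE + 3) ≤ M) : ∃ S : J → Finset V,
    (∀ j, ν (ag j) ≠ ag j → ∀ v ∈ S j, v ∈ W ∧ ¬ ∃ y, v ≠ y ∧ ν (vx v) = vx y) ∧
    (∀ i j, i ≠ j → Disjoint (S i) (S j)) ∧
    ∀ j, ν (ag j) ≠ ag j → Sr P j (S j) ∨ (j ∈ Dm od ν ∧ ∃ τ, ∀ U : Finset (Fin M), U.card ≤ nE →
      Sr P j (S j) ∨ ∃ r ∉ U, Asg P {j, (R.F τ r).1} (S j ∪ pr (R.F τ r))) := by
  obtain ⟨σ, s1, s2, s3⟩ := exists_partner hO
  have inv : ∀ j v, ν (ag j) = vx v → ν (vx v) = ag j := fun j v h => by rw [← h, hO.m.1]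
  have hid : ∀ j v, Kept od ν j → (∃ y o k, od (σ j) = some (v, y, o, k)) → ν (vx v) = vx v := by
    rintro j v ⟨x, y, o, k, b1, b2⟩ ⟨y1, o1, k1, b3⟩
    obtain ⟨x', y', o', c1, c2⟩ := s1 j x y o k b1 b2
    rw [b3] at c1
    cases c1
    exact c2
  refine ⟨fun j => univ.filter fun v => ν (ag j) = vx v ∨
    (Kept od ν j ∧ ∃ y o k, od (σ j) = some (v, y, o, k)), fun j hj v hv => ?_,
    fun i j e => disjoint_left.2 fun v h1 h3 => ?_, fun j hj => ?_⟩
  · rcases (mem_filter.1 hv).2 with a | ⟨a, b⟩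
    · obtain ⟨u, b1, b2, -⟩ := cov_ag hK hO hj
      have : u = v := by simpa using b1.symm.trans a
      refine ⟨this ▸ b2, fun ⟨y, _, c⟩ => ?_⟩
      rw [inv j v a] at c
      cases c
    · refine ⟨?_, fun ⟨y, c1, c⟩ => c1 ?_⟩
      · obtain ⟨y, o, k, c⟩ := b
        exact (odd_facts hK c).2.2.1
      · simpa using (hid j v a b).symm.trans c
  · rcases (mem_filter.1 h1).2 with a | ⟨a, b⟩ <;> rcases (mem_filter.1 h3).2 with c | ⟨c, c'⟩
    · exact e (by simpa using (inv i v a).symm.trans (inv j v c))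
    · have := (inv i v a).symm.trans (hid j v c c')
      cases this
    · have := (inv j v c).symm.trans (hid i v a b)
      cases this
    · obtain ⟨y, o, k, b⟩ := b
      obtain ⟨y', o', k', c'⟩ := c'
      exact e (s3 i j a c (hid_inj hK b c'))
  · obtain ⟨y, b1, b2, b3 | ⟨x, o, k, b3⟩⟩ := cov_ag hK hO hj
    · exact Or.inl (sr_C b3 (mem_filter.2 ⟨mem_univ _, Or.inl b1⟩))
    obtain ⟨x', y', o', c1, c2⟩ := s1 j x y o k b3 b1
    have my : y ∈ univ.filter fun v => ν (ag j) = vx v ∨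
        (Kept od ν j ∧ ∃ y o k, od (σ j) = some (v, y, o, k)) := mem_filter.2 ⟨mem_univ _, Or.inl b1⟩
    have mx : x' ∈ univ.filter fun v => ν (ag j) = vx v ∨
        (Kept od ν j ∧ ∃ y o k, od (σ j) = some (v, y, o, k)) :=
      mem_filter.2 ⟨mem_univ _, Or.inr ⟨⟨x, y, o, k, b3, b1⟩, y', o', k, c1⟩⟩
    by_cases a : j ∈ Dm od ν
    swap
    · rw [s2 j a, b3] at c1
      cases c1
      exact Or.inl (sr_Pr (odd_facts hK b3).2.2.2.2.2 mx my)
    refine Or.inr ⟨a, k.1, fun U hU => ?_⟩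
    have hne : x' ≠ y := fun e => by
      have := (inv j y b1).symm.trans (e ▸ c2)
      cases this
    rcases gadget hK.good (hK.odd _ _ _ _ _ b3).2 (hK.odd _ _ _ _ _ c1).2
      (odd_facts hK b3).2.2.2.2.1 (odd_facts hK c1).2.2.2.2.1 hne U (by omega) with h | ⟨r, hr, h, h'⟩
    · exact Or.inl (sr_Pr h mx my)
    refine Or.inr ⟨r, hr, ?_⟩
    have w : ∀ v ∈ W, ∀ s, v ≠ sdI (R.F k.1 r) s := fun v hv s e => disjoint_left.1 hK.dW hv
      (e ▸ pr_sub R.mem (Sum.inl (k.1, r)) (sd_mem _ s))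
    refine ((Asg.single (sr_Ok (Or.inr (Or.inr h')))).union (Asg.single (sr_Ok (Or.inr (Or.inr h))))
      ?_).mono Subset.rfl ?_
    · simp only [disjoint_insert_left, mem_insert, mem_singleton, disjoint_singleton_left, not_or]
      exact ⟨⟨(w x' (odd_facts hK c1).2.2.1 _).symm, sd_ne hK.good.dis (Sum.inl (k.1, r)) _⟩,
        hne.symm, w y b2 _⟩
    · intro v hv
      simp only [mem_union, mem_insert, mem_singleton] at hv
      rcases hv with (rfl | rfl) | rfl | rfl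
      · exact mem_union_right _ (sd_mem _ _)
      · exact mem_union_left _ my
      · exact mem_union_left _ mx
      · exact mem_union_right _ (sd_mem _ _)

theorem step1 (hK : P.KCtx R h2 A W B g od μ) (hO : P.KOut R h2 A W od μ ν nE d)
    (hM : 10 * (R.h + nE + 3) ≤ M) : ∃ Um : Finset (Fin t × Fin M), Um.card ≤ nE ∧
      Asg P ((A.filter fun j => ν (ag j) ≠ ag j) ∪ Um.image fun p => (R.F p.1 p.2).1)
        ((W.filter fun v => ¬ ∃ y, v ≠ y ∧ ν (vx v) = vx y) ∪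
          Um.biUnion fun p => pr (R.F p.1 p.2)) := by
  obtain ⟨S, s1, s2, s3⟩ := exists_base hK hO hM
  have hD := card_Dm hK hO
  have key : ∀ K : Finset J, (∀ j ∈ K, ν (ag j) ≠ ag j) → ∃ Um : Finset (Fin t × Fin M),
      Um.card ≤ (K ∩ Dm od ν).card ∧ Asg P (K ∪ Um.image fun p => (R.F p.1 p.2).1)
        (K.biUnion S ∪ Um.biUnion fun p => pr (R.F p.1 p.2)) := by
    intro K
    induction K using Finset.induction_on with
    | empty => exact fun _ => ⟨∅, by simp, by simpa using Asg.empty _⟩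
    | insert j K hj ih =>
      intro h
      obtain ⟨Um, u1, u2⟩ := ih fun i hi => h i (mem_insert_of_mem hi)
      have hj' := h j (mem_insert_self j K)
      have w : ∀ i, ν (ag i) ≠ ag i → ∀ p : Fin t × Fin M, Disjoint (S i) (pr (R.F p.1 p.2)) :=
        fun i hi p => hK.dW.mono (fun v hv => (s1 i hi v hv).1) (pr_sub R.mem (Sum.inl p))
      have d1 : Disjoint (S j) (K.biUnion S ∪ Um.biUnion fun p => pr (R.F p.1 p.2)) := by
        rw [disjoint_union_right, disjoint_biUnion_right, disjoint_biUnion_right]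
        exact ⟨fun i hi => s2 j i fun e => hj (e ▸ hi), fun p _ => w j hj' p⟩
      have easy : Sr P j (S j) → ∃ Um : Finset (Fin t × Fin M),
          Um.card ≤ (insert j K ∩ Dm od ν).card ∧
          Asg P (insert j K ∪ Um.image fun p => (R.F p.1 p.2).1)
            ((insert j K).biUnion S ∪ Um.biUnion fun p => pr (R.F p.1 p.2)) := fun a =>
        ⟨Um, u1.trans (card_le_card (inter_subset_inter_right (subset_insert j K))),
          ((Asg.single a).union u2 d1).mono (by rw [insert_union, insert_eq])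
            (by rw [biUnion_insert, union_assoc])⟩
      rcases s3 j hj' with a | ⟨a, τ, b⟩
      · exact easy a
      have c1 : (K ∩ Dm od ν).card ≤ nE := (card_le_card inter_subset_right).trans hD
      rcases b (Um.image Prod.snd) (card_image_le.trans (u1.trans c1)) with b | ⟨r, hr, b⟩
      · exact easy b
      refine ⟨insert (τ, r) Um, ?_, (b.union u2 ?_).mono ?_ ?_⟩
      · rw [insert_inter_of_mem a, card_insert_of_notMem fun e => hj (mem_inter.1 e).1]
        exact (card_insert_le _ _).trans (by omega)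
      · rw [disjoint_union_left, disjoint_union_right (s := pr _), disjoint_biUnion_right,
          disjoint_biUnion_right]
        refine ⟨d1, fun i hi => (w i (h i (mem_insert_of_mem hi)) (τ, r)).symm, fun p hp => ?_⟩
        refine pr_dis hK.good.dis (r := Sum.inl (τ, r)) (r' := Sum.inl p) fun e => hr ?_
        exact mem_image.2 ⟨p, hp, by rw [← Sum.inl_injective e]⟩
      · intro i hi
        simp only [image_insert, mem_union, mem_insert, mem_singleton] at hi ⊢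
        tauto
      · intro i hi
        simp only [biUnion_insert, mem_union] at hi ⊢
        tauto
  obtain ⟨Um, u1, u2⟩ := key (A.filter fun j => ν (ag j) ≠ ag j) fun j hj => (mem_filter.1 hj).2
  refine ⟨Um, u1.trans ((card_le_card inter_subset_right).trans hD), u2.mono Subset.rfl
    (union_subset_union_left fun v hv => ?_)⟩
  obtain ⟨j, hj, hv⟩ := mem_biUnion.1 hv
  exact mem_filter.2 (s1 j (mem_filter.1 hj).2 v hv)

/-! ### Step 2: the uncovered agents and the remaining members -/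

/-- The pair edges of `ν`. -/
noncomputable def Ed (ν : Nd J V → Nd J V) : Finset (Finset V) :=
  (univ.filter fun p : V × V => p.1 ≠ p.2 ∧ ν (vx p.1) = vx p.2).image fun p => {p.1, p.2}

theorem mem_Ed {s : Finset V} : s ∈ Ed ν ↔ ∃ x y, x ≠ y ∧ ν (vx x) = vx y ∧ s = {x, y} := by
  simp only [Ed, mem_image, mem_filter, mem_univ, true_and, Prod.exists]
  exact ⟨fun ⟨x, y, h, e⟩ => ⟨x, y, h.1, h.2, e.symm⟩, fun ⟨x, y, h, h', e⟩ => ⟨x, y, ⟨h, h'⟩, e.symm⟩⟩

theorem Ed_at (hν : ∀ x, ν (ν x) = x) {s : Finset V} (hs : s ∈ Ed ν) {v : V} (hv : v ∈ s) :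
    ∃ y, v ≠ y ∧ ν (vx v) = vx y ∧ s = {v, y} := by
  obtain ⟨x, y, h1, h3, rfl⟩ := mem_Ed.1 hs
  simp only [mem_insert, mem_singleton] at hv
  rcases hv with rfl | rfl
  · exact ⟨y, h1, h3, rfl⟩
  · exact ⟨x, h1.symm, by rw [← h3, hν], pair_comm _ _⟩

theorem Ed_dis (hν : ∀ x, ν (ν x) = x) {s s' : Finset V} (hs : s ∈ Ed ν) (hs' : s' ∈ Ed ν)
    (e : s ≠ s') : Disjoint s s' := disjoint_left.2 fun v h1 h3 => by
  obtain ⟨y, -, a, rfl⟩ := Ed_at hν hs h1
  obtain ⟨y', -, b, rfl⟩ := Ed_at hν hs' h3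
  have : y = y' := by simpa using a.symm.trans b
  exact e (by rw [this])

theorem exists_own (hO : P.KOut R h2 A W od μ ν nE d) : ∃ e : J → Finset V,
    (∀ j ∈ A.filter fun j => ν (ag j) = ag j, e j ∈ Ed ν ∧
      ∃ x y, x ≠ y ∧ ν (vx x) = vx y ∧ e j = {x, y} ∧ P.Compat R h2 j x y) ∧
    Set.InjOn e (A.filter fun j => ν (ag j) = ag j : Finset J) := by
  obtain ⟨own, o1, o2⟩ := hO.own
  have h : ∀ j, ∃ s : Finset V, j ∈ (A.filter fun j => ν (ag j) = ag j) →
      ∃ x y, own j x ∧ x ≠ y ∧ ν (vx x) = vx y ∧ s = {x, y} ∧ P.Compat R h2 j x y := fun j => by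
    by_cases a : j ∈ A.filter fun j => ν (ag j) = ag j
    · obtain ⟨x, y, b1, b2, b3, b4⟩ := o2 j (mem_filter.1 a).1 (mem_filter.1 a).2
      exact ⟨{x, y}, fun _ => ⟨x, y, b1, b2, b3, rfl, b4⟩⟩
    · exact ⟨∅, fun b => absurd b a⟩
  choose e he using h
  refine ⟨e, fun j hj => ?_, fun i hi j hj h => ?_⟩
  · obtain ⟨x, y, -, b2, b3, b4, b5⟩ := he j hj
    exact ⟨mem_Ed.2 ⟨x, y, b2, b3, b4⟩, x, y, b2, b3, b4, b5⟩
  · by_contra a
    obtain ⟨x, y, b1, -, b3, b4, -⟩ := he i hi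
    obtain ⟨x', y', c1, -, -, c4, -⟩ := he j hj
    have h1 : x' ∈ ({x, y} : Finset V) := by rw [← b4, h, c4]; simp
    simp only [mem_insert, mem_singleton] at h1
    rcases h1 with h1 | h1
    · exact (o1 i j x x' b1 c1 a).1 h1.symm
    · exact (o1 i j x x' b1 c1 a).2 (h1 ▸ b3)

/-- Uncovered agents and pair edges refused by all of them. -/
theorem count_edges (hK : P.KCtx R h2 A W B g od μ) (hO : P.KOut R h2 A W od μ ν nE d)
    {O1 : Finset J} (h1 : O1 ⊆ A.filter fun j => ν (ag j) = ag j) {E1 : Finset (Finset V)}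
    (h3 : E1 ⊆ Ed ν) (h : ∀ j ∈ O1, ∀ s ∈ E1, ¬ Sr P j s) :
    O1.card + E1.card ≤ (Ed ν).card + d + nE + 1 := by
  have a0 := card_le_card h3
  by_cases a : O1.card ≤ 1
  · omega
  obtain ⟨j, hj, j', hj', hne⟩ := one_lt_card.1 (not_le.1 a)
  obtain ⟨e, e1, e2⟩ := exists_own hO
  have a1 := card_le_card_of_injOn e (fun j hj => (e1 j hj).1) e2
  have a2 := card_sdiff_add_card_eq_card h1
  have a3 := hO.jt j j' hne
  have a4 : E1 ⊆ ((univ.filter fun x => ∃ y, x ≠ y ∧ ν (vx x) = vx y ∧ μ (vx x) ≠ vx y ∧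
      ¬ P.Ok j x y ∧ ¬ P.Ok j' x y).image fun x => insert x (univ.filter fun y => ν (vx x) = vx y)) ∪
      (((A.filter fun j => ν (ag j) = ag j) \ O1) ∪
        univ.filter fun b => ag b ∈ ends μ ν).image fun b => (g b).its := by
    intro s hs
    obtain ⟨x, y, b1, b2, rfl⟩ := mem_Ed.1 (h3 hs)
    by_cases c : μ (vx x) = vx y
    · obtain ⟨b, hb, c1, c2, -, -, -, c3⟩ := old_edge hK b1 c
      refine mem_union_right _ (mem_image.2 ⟨b, ?_, c2⟩)
      by_cases c4 : ν (ag b) = ag b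
      · exact mem_union_left _ (mem_sdiff.2 ⟨mem_filter.2 ⟨hK.st.sub hb, c4⟩,
          fun c5 => h b c5 _ hs (sr_Ok (Or.inr (Or.inr c3)))⟩)
      · exact mem_union_right _ (mem_filter.2 ⟨mem_univ _, mem_filter.2 ⟨mem_univ _, Or.inl ⟨c1, c4⟩⟩⟩)
    · refine mem_union_left _ (mem_image.2 ⟨x, mem_filter.2 ⟨mem_univ _, y, b1, b2, c,
        fun c1 => h j hj _ hs (sr_Ok c1), fun c1 => h j' hj' _ hs (sr_Ok c1)⟩, ?_⟩)
      ext v
      simp [b2, eq_comm]
  have a5 := (card_le_card a4).trans ((card_union_le _ _).trans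
    (add_le_add card_image_le (card_image_le.trans (card_union_le _ _))))
  have a6 : (univ.filter fun b => ag b ∈ ends μ ν).card ≤ (ends μ ν).card :=
    card_le_card_of_injOn ag (fun b hb => (mem_filter.1 hb).2) fun _ _ _ _ e => Sum.inl_injective e
  have a7 := hO.en
  omega

/-- One family saves many members. -/
theorem saving (hG : P.RGood R) {Um : Finset (Fin t × Fin M)} (hU : Um.card ≤ nE) {j : J}
    {x y : V} (n : ¬ P.HH x y) (hc : P.Compat R h2 j x y)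
    {Mo Me : Finset ((Fin t × Fin M) ⊕ (Fin t' × Fin M0))}
    (h1 : ∀ m ∈ Mo, ¬ Sr P (R.mem m).1 {x, y}) (h3 : ∀ m ∈ Me, ¬ Sr P j (pr (R.mem m)))
    (h4 : ∀ m ∈ Mo, ∀ m' ∈ Me, ¬ Sr P (R.mem m).1 (pr (R.mem m')))
    (c1 : 2 * nE + d + 2 ≤ h2) (c2 : 10 * (R.h + 2 * nE + d + 3) ≤ M)
    (c3 : 2 * R.h0 + d + nE + 2 ≤ M0) :
    ∃ Z : Finset ((Fin t × Fin M) ⊕ (Fin t' × Fin M0)), d + nE + 1 ≤ Z.card ∧
      ∀ m ∈ Z, m ∉ Um.image Sum.inl ∧ m ∉ Mo ∧ m ∉ Me := by
  obtain ⟨τ, ⟨o, ho⟩, hs⟩ := hc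
  have u1 : (Um.image Prod.snd).card ≤ nE := card_image_le.trans hU
  have kF : ∀ Y : Finset (Fin M), d + 2 * nE + 1 ≤ Y.card →
      (∀ r ∈ Y, Sum.inl (τ, r) ∉ Mo ∧ Sum.inl (τ, r) ∉ Me) →
      ∃ Z : Finset ((Fin t × Fin M) ⊕ (Fin t' × Fin M0)), d + nE + 1 ≤ Z.card ∧
        ∀ m ∈ Z, m ∉ Um.image Sum.inl ∧ m ∉ Mo ∧ m ∉ Me := fun Y hY h => by
    refine ⟨(Y \ Um.image Prod.snd).image fun r => Sum.inl (τ, r), ?_, fun m hm => ?_⟩
    · rw [card_image_of_injective _ fun r r' e => by simpa using e]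
      have := le_card_sdiff (Um.image Prod.snd) Y
      omega
    · obtain ⟨r, hr, rfl⟩ := mem_image.1 hm
      refine ⟨fun e => (mem_sdiff.1 hr).2 ?_, h r (mem_sdiff.1 hr).1⟩
      obtain ⟨p, hp, e⟩ := mem_image.1 e
      exact mem_image.2 ⟨p, hp, by rw [Sum.inl_injective e]⟩
  by_cases a : (univ.filter fun r => Sum.inl (τ, r) ∈ Mo).card ≤ 1
  · unfold To at ho
    have k1 := le_card_sdiff ((univ.filter fun r => Sum.inl (τ, r) ∈ Mo) ∪ univ.filter fun r =>
      ¬ (P.col j o (R.F τ r).2.2.1 ∧ P.col j (!o) (R.F τ r).2.2.2)) univ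
    have k2 := card_union_le (univ.filter fun r => Sum.inl (τ, r) ∈ Mo) (univ.filter fun r =>
      ¬ (P.col j o (R.F τ r).2.2.1 ∧ P.col j (!o) (R.F τ r).2.2.2))
    rw [card_univ, Fintype.card_fin] at k1
    refine kF _ (le_trans (by omega) k1) fun r hr => ?_
    simp only [mem_sdiff, mem_union, mem_filter, mem_univ, true_and, not_or, not_not] at hr
    exact ⟨hr.1, fun e => h3 _ e
      (sr_Ok (Or.inr (Or.inr (Pr_of_col hr.2.1 hr.2.2 ((hG.cF τ).2 r)))))⟩
  obtain ⟨r1, m1, r2, m2, e⟩ := one_lt_card.1 (not_le.1 a)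
  have m1 := (mem_filter.1 m1).2
  have m2 := (mem_filter.1 m2).2
  have kG : ∀ u v, ¬ P.HH u v → (∀ m ∈ Mo, ¬ Sr P (R.mem m).1 {u, v}) → P.peU R u v →
      ∃ Z : Finset ((Fin t × Fin M) ⊕ (Fin t' × Fin M0)), d + nE + 1 ≤ Z.card ∧
        ∀ m ∈ Z, m ∉ Um.image Sum.inl ∧ m ∉ Mo ∧ m ∉ Me := by
    rintro u v n h1 ⟨i, b1, b2⟩
    unfold Xs at b1
    unfold Ys at b2
    have k1 := le_card_sdiff ((univ.filter fun r => ¬ P.cA (R.G i r) u) ∪ univ.filter fun r =>
      ¬ P.cB (R.G i r) v) univ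
    have k2 := card_union_le (univ.filter fun r => ¬ P.cA (R.G i r) u) (univ.filter fun r =>
      ¬ P.cB (R.G i r) v)
    rw [card_univ, Fintype.card_fin] at k1
    refine ⟨(univ \ ((univ.filter fun r => ¬ P.cA (R.G i r) u) ∪ univ.filter fun r =>
      ¬ P.cB (R.G i r) v)).image fun r => Sum.inr (i, r), ?_, fun m hm => ?_⟩
    · rw [card_image_of_injective _ fun r r' e => by simpa using e]
      omega
    · obtain ⟨r, hr, rfl⟩ := mem_image.1 hm
      simp only [mem_sdiff, mem_union, mem_filter, mem_univ, true_and, not_or, not_not] at hr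
      refine ⟨by simp, fun c => h1 _ c (sr_Ok (Or.inr (Or.inr (Pr_of_col hr.1 hr.2 n)))),
        fun c => e ?_⟩
      exact card_le_one.1 (hG.uni i r τ) r1
        (mem_filter.2 ⟨mem_univ _, fun c' => h4 _ m1 _ c (sr_Ok c')⟩) r2
        (mem_filter.2 ⟨mem_univ _, fun c' => h4 _ m2 _ c (sr_Ok c')⟩)
  rcases hs with b | b | b
  · refine kF _ (le_trans (by omega) b) fun r hr => ⟨fun c => h1 _ c (sr_Ok (mem_filter.1 hr).2),
      fun c => h4 _ m1 _ c (fam_sr (hG.cF τ) r1 r)⟩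
  · exact kG x y n h1 b
  · exact kG y x (fun c => n (HH_symm c)) (by rwa [pair_comm]) b

theorem mem_sr (hG : P.RGood R) (m : (Fin t × Fin M) ⊕ (Fin t' × Fin M0)) :
    Sr P (R.mem m).1 (pr (R.mem m)) := by
  rcases m with p | p
  · exact fam_sr (hG.cF p.1) p.2 p.2
  · exact fam_sr (hG.cG p.1) p.2 p.2

theorem step2 (hH : HallStmt) (hK : P.KCtx R h2 A W B g od μ) (hO : P.KOut R h2 A W od μ ν nE d)
    {Um : Finset (Fin t × Fin M)} (hU : Um.card ≤ nE) (c1 : 2 * nE + d + 2 ≤ h2)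
    (c2 : 10 * (R.h + 2 * nE + d + 3) ≤ M) (c3 : 2 * R.h0 + d + nE + 2 ≤ M0) :
    Asg P ((A.filter fun j => ν (ag j) = ag j) ∪
        (univ \ Um.image Sum.inl).image fun m => (R.mem m).1)
      ((W.filter fun v => ∃ y, v ≠ y ∧ ν (vx v) = vx y) ∪
        (univ \ Um.image Sum.inl).biUnion fun m => pr (R.mem m)) := by
  obtain ⟨Mm, hMm⟩ : ∃ Mm : Finset ((Fin t × Fin M) ⊕ (Fin t' × Fin M0)),
    Mm = univ \ Um.image Sum.inl := ⟨_, rfl⟩
  rw [← hMm]
  have eW : ∀ s ∈ Ed ν, s ⊆ W.filter fun v => ∃ y, v ≠ y ∧ ν (vx v) = vx y := fun s hs v hv => by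
    obtain ⟨y, a1, a2, -⟩ := Ed_at hO.m.1 hs hv
    exact mem_filter.2 ⟨(edge_facts hK hO a1 a2).1, y, a1, a2⟩
  have eD : ∀ s ∈ Ed ν, ∀ m, Disjoint s (pr (R.mem m)) := fun s hs m =>
    hK.dW.mono ((eW s hs).trans (filter_subset _ _)) (pr_sub R.mem m)
  have pI : Function.Injective fun m => pr (R.mem m) := fun m m' e => by
    by_contra a
    have e : pr (R.mem m) = pr (R.mem m') := e
    exact disjoint_left.1 (pr_dis hK.good.dis a) (sd_mem _ true) (e ▸ sd_mem (R.mem m) true)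
  have dE : Disjoint (Ed ν) (Mm.image fun m => pr (R.mem m)) := disjoint_left.2 fun s h1 h3 => by
    obtain ⟨m, -, rfl⟩ := mem_image.1 h3
    exact disjoint_left.1 (eD _ h1 m) (sd_mem _ true) (sd_mem _ true)
  obtain ⟨s', f, f1, f2, f3, f4⟩ := hH J (Finset V) ((A.filter fun j => ν (ag j) = ag j) ∪
    Mm.image fun m => (R.mem m).1) (Ed ν ∪ Mm.image fun m => pr (R.mem m)) (Sr P) 0
    fun O1 hO1 => by
      obtain ⟨E1, hE1⟩ : ∃ E1, E1 = (Ed ν ∪ Mm.image fun m => pr (R.mem m)).filter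
        fun s => ¬ ∃ j ∈ O1, Sr P j s := ⟨_, rfl⟩
      have ref : ∀ j ∈ O1, ∀ s ∈ E1, ¬ Sr P j s := fun j hj s hs a => by
        rw [hE1] at hs
        exact (mem_filter.1 hs).2 ⟨j, hj, a⟩
      have a1 := card_filter_add_card_filter_not (s := Ed ν ∪ Mm.image fun m => pr (R.mem m))
        (fun s => ∃ j ∈ O1, Sr P j s)
      rw [← hE1, card_union_of_disjoint dE, card_image_of_injective _ pI] at a1
      have a2 : O1.card ≤ (O1 ∩ A.filter fun j => ν (ag j) = ag j).card +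
          (Mm.filter fun m => (R.mem m).1 ∈ O1).card := by
        refine le_trans (card_le_card fun j hj => ?_) ((card_union_le _ _).trans
          (add_le_add le_rfl (card_image_le (f := fun m => (R.mem m).1))))
        rcases mem_union.1 (hO1 hj) with a | a
        · exact mem_union_left _ (mem_inter.2 ⟨hj, a⟩)
        · obtain ⟨m, hm, rfl⟩ := mem_image.1 a
          exact mem_union_right _ (mem_image.2 ⟨m, mem_filter.2 ⟨hm, hj⟩, rfl⟩)
      have a3 : E1.card ≤ (E1 ∩ Ed ν).card + (Mm.filter fun m => pr (R.mem m) ∈ E1).card := by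
        refine le_trans (card_le_card fun s hs => ?_) ((card_union_le _ _).trans
          (add_le_add le_rfl (card_image_le (f := fun m => pr (R.mem m)))))
        rcases mem_union.1 (mem_filter.1 (hE1 ▸ hs)).1 with a | a
        · exact mem_union_left _ (mem_inter.2 ⟨hs, a⟩)
        · obtain ⟨m, hm, rfl⟩ := mem_image.1 a
          exact mem_union_right _ (mem_image.2 ⟨m, mem_filter.2 ⟨hm, hs⟩, rfl⟩)
      have a4 : ∀ Z : Finset ((Fin t × Fin M) ⊕ (Fin t' × Fin M0)),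
          (∀ m ∈ Z, m ∉ Um.image Sum.inl ∧ m ∉ (Mm.filter fun m => (R.mem m).1 ∈ O1) ∧
            m ∉ Mm.filter fun m => pr (R.mem m) ∈ E1) →
          Z.card + ((Mm.filter fun m => (R.mem m).1 ∈ O1).card +
            (Mm.filter fun m => pr (R.mem m) ∈ E1).card) ≤ Mm.card := fun Z hZ => by
        rw [← card_union_of_disjoint, ← card_union_of_disjoint]
        · refine card_le_card (union_subset (fun m hm => ?_)
            (union_subset (filter_subset _ _) (filter_subset _ _)))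
          rw [hMm]
          exact mem_sdiff.2 ⟨mem_univ _, (hZ m hm).1⟩
        · exact disjoint_left.2 fun m h1 h3 => (mem_union.1 h3).elim (hZ m h1).2.1 (hZ m h1).2.2
        · exact disjoint_left.2 fun m h1 h3 =>
            ref _ (mem_filter.1 h1).2 _ (mem_filter.1 h3).2 (mem_sr hK.good m)
      obtain ⟨e, e1, e2⟩ := exists_own hO
      by_cases a : ∃ j ∈ O1 ∩ A.filter fun j => ν (ag j) = ag j, e j ∈ E1
      · obtain ⟨j, hj, a⟩ := a
        obtain ⟨-, x, y, b1, b2, b3, b4⟩ := e1 j (mem_inter.1 hj).2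
        obtain ⟨Z, z1, z2⟩ := saving hK.good hU (edge_facts hK hO b1 b2).2.2 b4
          (Mo := Mm.filter fun m => (R.mem m).1 ∈ O1) (Me := Mm.filter fun m => pr (R.mem m) ∈ E1)
          (fun m hm => ref _ (mem_filter.1 hm).2 _ (b3 ▸ a))
          (fun m hm => ref _ (mem_inter.1 hj).1 _ (mem_filter.1 hm).2)
          (fun m hm m' hm' => ref _ (mem_filter.1 hm).2 _ (mem_filter.1 hm').2) c1 c2 c3
        have a5 := a4 Z z2
        have a6 := count_edges hK hO (O1 := O1 ∩ A.filter fun j => ν (ag j) = ag j)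
          inter_subset_right (E1 := E1 ∩ Ed ν) inter_subset_right
          fun j hj s hs => ref j (mem_inter.1 hj).1 s (mem_inter.1 hs).1
        omega
      · have a5 := a4 ∅ (by simp)
        have a6 : (O1 ∩ A.filter fun j => ν (ag j) = ag j).card ≤ (Ed ν \ E1).card :=
          card_le_card_of_injOn e (fun j hj => mem_sdiff.2 ⟨(e1 j (mem_inter.1 hj).2).1,
            fun b => a ⟨j, hj, b⟩⟩) (e2.mono (coe_subset.2 inter_subset_right))
        have a7 := card_sdiff_add_card_inter (Ed ν) E1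
        rw [inter_comm] at a7
        rw [card_empty] at a5
        omega
  have f5 := eq_of_subset_of_card_le f1 f2
  subst f5
  refine ⟨fun j => (f j).getD ∅, fun j hj => ?_, fun i hi j hj e => ?_⟩
  · obtain ⟨s, b1, b2, b3⟩ := f3 j hj
    simp only [b2, Option.getD_some]
    refine ⟨?_, b3⟩
    rcases mem_union.1 b1 with a | a
    · exact (eW s a).trans subset_union_left
    · obtain ⟨m, hm, rfl⟩ := mem_image.1 a
      exact (subset_biUnion_of_mem (fun m => pr (R.mem m)) hm).trans subset_union_right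
  · obtain ⟨s, b1, b2, -⟩ := f3 i hi
    obtain ⟨s', c1, c2, -⟩ := f3 j hj
    have hne : s ≠ s' := fun a => e (f4 i hi j hj (by rw [b2, c2, a]))
    simp only [b2, c2, Option.getD_some]
    rcases mem_union.1 b1 with a | a <;> rcases mem_union.1 c1 with b | b
    · exact Ed_dis hO.m.1 a b hne
    · obtain ⟨m, -, rfl⟩ := mem_image.1 b
      exact eD s a m
    · obtain ⟨m, -, rfl⟩ := mem_image.1 a
      exact (eD s' b m).symm
    · obtain ⟨m, -, rfl⟩ := mem_image.1 a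
      obtain ⟨m', -, rfl⟩ := mem_image.1 b
      exact pr_dis hK.good.dis fun a => hne (by rw [a])

end DRReal

open DRReal in
theorem rRealStmt (hH : HallStmt) : RRealStmt := by
  intro J V _ _ _ _ P t M t' M0 R h2 A W B g od μ ν nE d hK hO c1 c2 c3
  obtain ⟨Um, u1, u2⟩ := step1 hK hO (by omega)
  have w : ∀ v ∈ W, ∀ m, v ∉ pr (R.mem m) := fun v hv m h =>
    disjoint_left.1 hK.dW hv (pr_sub R.mem m h)
  have u3 := u2.union (step2 hH hK hO u1 c1 c2 c3) (disjoint_left.2 fun v h1 h3 => by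
    rcases mem_union.1 h1 with a | a <;> rcases mem_union.1 h3 with b | b
    · exact (mem_filter.1 a).2 (mem_filter.1 b).2
    · obtain ⟨m, -, b⟩ := mem_biUnion.1 b
      exact w v (mem_filter.1 a).1 m b
    · obtain ⟨p, -, a⟩ := mem_biUnion.1 a
      exact w v (mem_filter.1 b).1 (Sum.inl p) a
    · obtain ⟨p, hp, a⟩ := mem_biUnion.1 a
      obtain ⟨m, hm, b⟩ := mem_biUnion.1 b
      exact disjoint_left.1 (pr_dis hK.good.dis (r := Sum.inl p) fun e =>
        (mem_sdiff.1 hm).2 (mem_image.2 ⟨p, hp, e⟩)) a b)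
  obtain ⟨f, f1, f2⟩ := u3.mono (B' := A ∪ fagF R.mem)
      (U' := W ∪ fitF R.mem) (fun j hj => by
        rcases mem_union.1 hj with a | a
        · by_cases b : ν (ag j) = ag j
          · exact mem_union_right _ (mem_union_left _ (mem_filter.2 ⟨a, b⟩))
          · exact mem_union_left _ (mem_union_left _ (mem_filter.2 ⟨a, b⟩))
        · obtain ⟨m, -, rfl⟩ := mem_image.1 a
          by_cases b : m ∈ Um.image Sum.inl
          · obtain ⟨p, hp, rfl⟩ := mem_image.1 b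
            exact mem_union_left _ (mem_union_right _ (mem_image.2 ⟨p, hp, rfl⟩))
          · exact mem_union_right _ (mem_union_right _
              (mem_image.2 ⟨m, mem_sdiff.2 ⟨mem_univ _, b⟩, rfl⟩)))
      (union_subset (union_subset_union (filter_subset _ _)
        (biUnion_subset.2 fun p _ => pr_sub R.mem (Sum.inl p)))
        (union_subset_union (filter_subset _ _) (biUnion_subset.2 fun m _ => pr_sub R.mem m)))
  exact ⟨f, Subset.rfl, fun j hj => (f1 j hj).1, fun j hj => (f1 j hj).2, f2,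
    fun _ _ h => h.elim⟩

end Pool.Agent.Lib.MP_ef7581_lc.D2
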