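import Mathlib
import Pool.Agent.Lib.MP_ef7581_lc.DComp

/-!
The consistent case: selection of boundedly many components of a virtual solution.
-/

set_option autoImplicit false
set_option linter.unusedSectionVars false

namespace Pool.Agent.Lib.MP_ef7581_lc.D2

open Finset Classical

namespace DRSel

noncomputable section

/-! ### Counting along a matching -/

section Count

variable {α β : Type} [Fintype α] [DecidableEq α] [Fintype β]

/-- The `b` whose node lies in `X` and whose partner has property `p`. -/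
def cn (e : β → α) (p : β → α → Prop) (m : α → α) (X : Finset α) : Finset β :=
  univ.filter fun b => e b ∈ X ∧ p b (m (e b))

theorem mem_cn {e : β → α} {p : β → α → Prop} {m : α → α} {X : Finset α} {b : β} :
    b ∈ cn e p m X ↔ e b ∈ X ∧ p b (m (e b)) := by simp [cn]

theorem cn_mix (e : β → α) (p : β → α → Prop) (μ ν : α → α) (s : Finset (Finset α))
    (hs : ∀ C ∈ s, ∀ C' ∈ s, ∀ x, x ∈ C → x ∈ C' → C = C') :
    ((cn e p (mix (s.biUnion id) μ ν) univ).card : ℤ) = (cn e p μ univ).card +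
      ∑ C ∈ s, (((cn e p ν C).card : ℤ) - (cn e p μ C).card) := by
  simp only [cn, card_filter, Nat.cast_sum, ← sum_sub_distrib]
  rw [sum_comm, ← sum_add_distrib]
  refine sum_congr rfl fun b _ => ?_
  by_cases h : e b ∈ s.biUnion id
  · rw [mix_in h]
    obtain ⟨C, hC, hb⟩ := mem_biUnion.1 h
    rw [sum_eq_single C]
    · have hb' : e b ∈ C := hb
      simp [hb']
    · intro C' hC' hne
      have : e b ∉ C' := fun h' => hne (hs _ hC' _ hC _ h' hb)
      simp [this]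
    · intro h'
      exact absurd hC h'
  · rw [mix_out h, sum_eq_zero, add_zero]
    intro C hC
    have : e b ∉ C := fun h' => h (mem_biUnion.2 ⟨C, hC, h'⟩)
    simp [this]

end Count

variable {J V : Type} [Fintype J] [Fintype V] [DecidableEq J] [DecidableEq V]

/-- The partner of `u` is another item `v` with `Q u v`. -/
def pq (Q : V → V → Prop) (u : V) (z : Nd J V) : Prop := ∃ v, u ≠ v ∧ z = vx v ∧ Q u v

/-- Ends of pair edges with property `Q`. -/
abbrev eds (m : Nd J V → Nd J V) (X : Finset (Nd J V)) (Q : V → V → Prop) : Finset V :=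
  cn vx (pq Q) m X

section Eds

variable {m : Nd J V → Nd J V} {X : Finset (Nd J V)} {Q Q' D : V → V → Prop}

theorem mem_eds {u : V} :
    u ∈ eds m X Q ↔ vx u ∈ X ∧ ∃ v, u ≠ v ∧ m (vx u) = vx v ∧ Q u v := mem_cn

theorem vx_inj {u v : V} (h : (vx u : Nd J V) = vx v) : u = v := by simpa using h

theorem mate (hm : ∀ x, m (m x) = x) {x y : Nd J V} (h : m x = y) : m y = x := by
  rw [← h, hm]

theorem eds_mono (h : ∀ u v, u ≠ v → m (vx u) = vx v → Q u v → Q' u v) :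
    eds m X Q ⊆ eds m X Q' := fun u hu => by
  obtain ⟨h1, v, h2, h3, h4⟩ := mem_eds.1 hu
  exact mem_eds.2 ⟨h1, v, h2, h3, h u v h2 h3 h4⟩

theorem eds_inj (hm : ∀ x, m (m x) = x) (hX : Cl X m)
    (h : ∀ u v, u ≠ v → m (vx u) = vx v → Q u v → Q' v u) :
    (eds m X Q).card ≤ (eds m X Q').card := by
  refine card_le_card_of_forall_subsingleton (fun u v => m (vx u) = vx v) ?_ ?_
  · intro u hu
    obtain ⟨h1, v, h2, h3, h4⟩ := mem_eds.1 hu
    exact ⟨v, mem_eds.2 ⟨h3 ▸ hX _ h1, u, h2.symm, mate hm h3, h u v h2 h3 h4⟩, h3⟩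
  · intro v _ a ha b hb
    exact vx_inj ((mate hm ha.2).symm.trans (mate hm hb.2))

theorem eds_le (hm : ∀ x, m (m x) = x) (hX : Cl X m) (hQ : ∀ u v, Q u v → Q v u)
    (hD : ∀ u v, u ≠ v → m (vx u) = vx v → ¬ D u v → D v u) :
    (eds m X Q).card ≤ 2 * (eds m X fun u v => Q u v ∧ D u v).card := by
  have h1 : eds m X Q ⊆ (eds m X fun u v => Q u v ∧ D u v) ∪ eds m X fun u v => Q u v ∧ ¬ D u v :=
    fun u hu => by
      obtain ⟨h1, v, h2, h3, h4⟩ := mem_eds.1 hu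
      by_cases h : D u v
      · exact mem_union_left _ (mem_eds.2 ⟨h1, v, h2, h3, h4, h⟩)
      · exact mem_union_right _ (mem_eds.2 ⟨h1, v, h2, h3, h4, h⟩)
  have h2 := (card_le_card h1).trans (card_union_le _ _)
  have h3 := eds_inj (Q := fun u v => Q u v ∧ ¬ D u v) (Q' := fun u v => Q u v ∧ D u v) hm hX
    fun u v a b c => ⟨hQ _ _ c.1, hD u v a b c.2⟩
  omega

theorem eds_ge (hm : ∀ x, m (m x) = x) (hX : Cl X m) (hQ : ∀ u v, Q u v → Q v u)
    (hD : ∀ u v, u ≠ v → m (vx u) = vx v → D u v → ¬ D v u) :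
    2 * (eds m X fun u v => Q u v ∧ D u v).card ≤ (eds m X Q).card := by
  have h1 : (eds m X fun u v => Q u v ∧ D u v) ∪ (eds m X fun u v => Q u v ∧ ¬ D u v) ⊆
      eds m X Q := union_subset (eds_mono fun _ _ _ _ h => h.1) (eds_mono fun _ _ _ _ h => h.1)
  have h2 := card_le_card h1
  rw [card_union_of_disjoint] at h2
  · have h3 := eds_inj (Q := fun u v => Q u v ∧ D u v) (Q' := fun u v => Q u v ∧ ¬ D u v) hm hX
      fun u v a b c => ⟨hQ _ _ c.1, hD u v a b c.2⟩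
    omega
  · refine disjoint_left.2 fun u a b => ?_
    obtain ⟨-, v, -, h3, h4⟩ := mem_eds.1 a
    obtain ⟨-, v', -, h3', h4'⟩ := mem_eds.1 b
    obtain rfl := vx_inj (h3.symm.trans h3')
    exact h4'.2 h4.2

theorem npe_eq : npe m X = (eds m X fun _ _ => True).card := by
  unfold npe
  congr 1
  ext u
  rw [mem_eds, mem_filter]
  simp only [mem_univ, true_and, and_true, ne_comm]

end Eds

variable {P : Geo J V} {t M t' M0 : ℕ} {R : RG J V t M t' M0} {h2 : ℕ} {A : Finset J}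
  {W : Finset V} {μ ν : Nd J V → Nd J V}

theorem srv_symm {τ : Fin t} {x y : V} (h : P.Srv R h2 τ x y) : P.Srv R h2 τ y x := by
  rcases h with h | h | h
  · refine Or.inl (h.trans (card_le_card fun r hr => ?_))
    rw [mem_filter] at hr ⊢
    exact ⟨hr.1, Geo.Ok_symm hr.2⟩
  · exact Or.inr (Or.inr h)
  · exact Or.inr (Or.inl h)

theorem EK_pe (h : IsM (P.EK A W fun _ _ => True) ν) {x y : V} (hxy : x ≠ y)
    (e : ν (vx x) = vx y) : x ∈ W ∧ y ∈ W ∧ ¬ P.HH x y := by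
  have := h.2 (vx x) (by rw [e]; exact fun h => hxy (vx_inj h).symm)
  rw [e] at this
  exact ⟨this.1, this.2.1, this.2.2.1⟩

theorem EK_ag (h : IsM (P.EK A W fun _ _ => True) ν) {j : J} {y : V} (e : ν (ag j) = vx y) :
    P.C j y := by
  have := h.2 (ag j) (by rw [e]; simp)
  rw [e] at this
  exact this.2.2

theorem EK_shape (h : IsM (P.EK A W fun _ _ => True) ν) : Shape ν := by
  refine ⟨fun j => ?_, fun j => ?_⟩
  · by_cases a : ν (ag j) = ag j
    · exact Or.inl a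
    have b := h.2 _ a
    rcases hm : ν (ag j) with i | u | i <;> rw [hm] at b
    · exact b.elim
    · exact Or.inr (Or.inl ⟨u, rfl⟩)
    · exact b.elim
  · by_cases a : ν (dm j) = dm j
    · exact Or.inl a
    have b := h.2 _ a
    rcases hm : ν (dm j) with i | u | i <;> rw [hm] at b <;> exact b.elim

/-! ### Virtual solutions of least potential -/

/-- The data of a virtual solution. -/
structure VD (P : Geo J V) (R : RG J V t M t' M0) (A : Finset J) (W : Finset V)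
    (ν : Nd J V → Nd J V) (sd : V → Prop) (mk : V → Mk t t') (own : J → V → Prop) : Prop where
  m : IsM (P.EK A W fun _ _ => True) ν
  pe : ∀ x y, x ≠ y → ν (vx x) = vx y → (sd x ↔ ¬ sd y) ∧ mk x = mk y ∧
    (sd x → P.Xm R (mk x) x ∧ P.Ym R (mk x) y)
  inj : ∀ j j' x, own j x → own j' x → j = j'
  ow : ∀ j ∈ A, ν (ag j) = ag j →
    ∃ x y, own j x ∧ sd x ∧ x ≠ y ∧ ν (vx x) = vx y ∧ P.Tm R (mk x) j

/-- A pair edge of `ν` in `C`, written from its distinguished end. -/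
structure Ed (ν : Nd J V → Nd J V) (sd : V → Prop) (C : Finset (Nd J V)) (x y : V) : Prop where
  mem : vx x ∈ C
  ne : x ≠ y
  e : ν (vx x) = vx y
  s : sd x

/-- Two edges with the same key cannot be crossed. -/
def RO (P : Geo J V) {κ : Type} (ν : Nd J V → Nd J V) (sd : V → Prop) (ky : V → κ)
    (C : Finset (Nd J V)) : Prop :=
  ∀ x1 y1 x2 y2, x1 ≠ x2 → Ed ν sd C x1 y1 → Ed ν sd C x2 y2 → ky x1 = ky x2 →
    P.HH x1 y2 ∨ P.HH x2 y1

variable {sd : V → Prop} {mk : V → Mk t t'} {own : J → V → Prop}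

theorem vs_cross (hC : CompStmt) (hμ : ∀ x, μ (μ x) = x) (D : VD P R A W ν sd mk own)
    {C : Finset (Nd J V)} {x1 y1 x2 y2 : V} (hne : x1 ≠ x2) (e1 : Ed ν sd C x1 y1)
    (e2 : Ed ν sd C x2 y2) (hm : mk x1 = mk x2) (a : ¬ P.HH x1 y2) (b : ¬ P.HH x2 y1) :
    P.VS R A W (cross (vx x1) (vx x2) ν) := by
  obtain ⟨p1, q1, r1⟩ := D.pe _ _ e1.ne e1.e
  obtain ⟨p2, q2, r2⟩ := D.pe _ _ e2.ne e2.e
  have n1 : ¬ sd y1 := p1.1 e1.s
  have n2 : ¬ sd y2 := p2.1 e2.s
  have s1 := e1.s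
  have s2 := e2.s
  obtain ⟨w1, w1', -⟩ := EK_pe D.m e1.ne e1.e
  obtain ⟨w2, w2', -⟩ := EK_pe D.m e2.ne e2.e
  obtain ⟨-, -, -, -, -, -, -, -, hx, -⟩ := hC _ μ ν hμ D.m.1
  obtain ⟨-, c0, c1, c2, c3, c4, c5, -, -, -, c6⟩ := hx (vx x1) (vx x2)
    (fun h => hne (vx_inj h)) (by rw [e1.e]; exact fun h => e1.ne (vx_inj h).symm)
    (by rw [e2.e]; exact fun h => e2.ne (vx_inj h).symm)
    (by rw [e1.e]; exact fun h => n1 (vx_inj h ▸ s2))
  rw [e1.e, e2.e] at c5 c6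
  rw [e2.e] at c1 c4
  rw [e1.e] at c2 c3
  refine ⟨c6 _ D.m ⟨w1, w2', a, Or.inl trivial⟩ ⟨w2', w1, fun h => a (Geo.HH_symm h), Or.inl trivial⟩
    ⟨w2, w1', b, Or.inl trivial⟩ ⟨w1', w2, fun h => b (Geo.HH_symm h), Or.inl trivial⟩,
    sd, mk, own, ?_, D.inj, ?_⟩
  · intro x y hxy e
    by_cases k1 : x = x1
    · subst k1
      obtain rfl := vx_inj (c1.symm.trans e)
      exact ⟨by tauto, hm.trans q2, fun _ => ⟨(r1 s1).1, hm ▸ (r2 s2).2⟩⟩
    by_cases k2 : x = x2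
    · subst k2
      obtain rfl := vx_inj (c2.symm.trans e)
      exact ⟨by tauto, hm.symm.trans q1, fun _ => ⟨(r2 s2).1, hm ▸ (r1 s1).2⟩⟩
    by_cases k3 : x = y1
    · subst k3
      obtain rfl := vx_inj (c3.symm.trans e)
      exact ⟨by tauto, q1.symm.trans hm, fun h => absurd h n1⟩
    by_cases k4 : x = y2
    · subst k4
      obtain rfl := vx_inj (c4.symm.trans e)
      exact ⟨by tauto, q2.symm.trans hm.symm, fun h => absurd h n2⟩
    rw [c5 _ (fun h => k1 (vx_inj h)) (fun h => k2 (vx_inj h)) (fun h => k3 (vx_inj h))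
      (fun h => k4 (vx_inj h))] at e
    exact D.pe x y hxy e
  · intro j hj e
    obtain ⟨x, y, o1, o2, o3, o4, o5⟩ := D.ow j hj ((c0 _).1 e)
    by_cases k1 : x = x1
    · subst k1
      exact ⟨x, y2, o1, o2, fun h => n2 (h ▸ o2), c1, o5⟩
    by_cases k2 : x = x2
    · subst k2
      exact ⟨x, y1, o1, o2, fun h => n1 (h ▸ o2), c2, o5⟩
    refine ⟨x, y, o1, o2, o3, ?_, o5⟩
    rw [c5 _ (fun h => k1 (vx_inj h)) (fun h => k2 (vx_inj h)) (fun h => n1 (vx_inj h ▸ o2))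
      (fun h => n2 (vx_inj h ▸ o2)), o4]

theorem exists_min (hC : CompStmt) (hμ : ∀ x, μ (μ x) = x) (h : ∃ ν, P.VS R A W ν) :
    ∃ (ν : Nd J V → Nd J V) (sd : V → Prop) (mk : V → Mk t t') (own : J → V → Prop)
      (ky : V → Mk t t' × Bool), VD P R A W ν sd mk own ∧ ∀ x, RO P ν sd ky (cmp μ ν x) := by
  obtain ⟨ν, hν, hmin⟩ := exists_min_image (univ.filter fun ν => P.VS R A W ν) (pot μ)
    (by obtain ⟨ν, h⟩ := h; exact ⟨ν, by simpa using h⟩)
  obtain ⟨h1, sd, mk, own, h2, h3, h4⟩ := (mem_filter.1 hν).2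
  have D : VD P R A W ν sd mk own := ⟨h1, h2, h3, h4⟩
  obtain ⟨-, c2, -, -, -, -, -, ⟨χ, hχ⟩, -⟩ := hC _ μ ν hμ h1.1
  refine ⟨ν, sd, mk, own, fun x => (mk x, χ (vx x)), D, fun x0 x1 y1 x2 y2 hne e1 e2 hk => ?_⟩
  by_contra hn
  rw [not_or] at hn
  have hv := vs_cross hC hμ D hne e1 e2 (congrArg Prod.fst hk) hn.1 hn.2
  have := hmin _ (mem_filter.2 ⟨mem_univ _, hv⟩)
  have := (hχ (vx x1) (vx x2) (fun h => hne (vx_inj h)) (congrArg Prod.snd hk)
    ((c2 _ _ e1.mem).trans (c2 _ _ e2.mem).symm)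
    (by rw [e1.e]; exact fun h => e1.ne (vx_inj h).symm)
    (by rw [e2.e]; exact fun h => e2.ne (vx_inj h).symm)).2
  omega

section Ro

variable {κ : Type} {ky : V → κ} {C : Finset (Nd J V)}

/-- Both ends of the edge are next to the terminal. -/
def Nx (P : Geo J V) (j : J) (o : Bool) (x y : V) : Prop := P.adj j o x ∧ P.adj j o y

theorem ro1 (hm : IsM (P.EK A W fun _ _ => True) ν) (h : RO P ν sd ky C) {x1 y1 x2 y2 : V}
    (e1 : Ed ν sd C x1 y1) (e2 : Ed ν sd C x2 y2) (hk : ky x1 = ky x2) {j j' : J} {o o' : Bool}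
    (hj : j ≠ j') (a1 : Nx P j o x1 y1) (b1 : Nx P j' o' x1 y1) (a2 : Nx P j o x2 y2)
    (b2 : Nx P j' o' x2 y2) : x1 = x2 := by
  by_contra hne
  have hp : (j, o) ≠ (j', o') := fun e => hj (congrArg Prod.fst e)
  have n := (EK_pe hm e1.ne e1.e).2.2
  rcases h _ _ _ _ hne e1 e2 hk with k | k
  · exact Geo.ind_t hp a1.1 b1.1 a1.2 b1.2 e1.ne n a1.1 b1.1 a2.2 b2.2 k
  · exact Geo.ind_t hp a1.1 b1.1 a1.2 b1.2 e1.ne n a2.1 b2.1 a1.2 b1.2 k

theorem fam_inj (hg : P.RGood R) (τ : Fin t) {r r' : Fin M} (h : (R.F τ r).1 = (R.F τ r').1) :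
    r = r' := by
  have := hg.dis.1 (a₁ := Sum.inl (τ, r)) (a₂ := Sum.inl (τ, r')) h
  simpa using this

/-- Members that have two given edges on the same side. -/
def cm (P : Geo J V) (R : RG J V t M t' M0) (τ : Fin t) (x1 y1 x2 y2 : V) : Finset (Fin M) :=
  univ.filter fun r => ∃ o, Nx P (R.F τ r).1 o x1 y1 ∧ Nx P (R.F τ r).1 o x2 y2

theorem cm_le (hg : P.RGood R) (hm : IsM (P.EK A W fun _ _ => True) ν) (h : RO P ν sd ky C)
    {x1 y1 x2 y2 : V} (e1 : Ed ν sd C x1 y1) (e2 : Ed ν sd C x2 y2) (hk : ky x1 = ky x2)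
    (hne : x1 ≠ x2) (τ : Fin t) : (cm P R τ x1 y1 x2 y2).card ≤ 1 := by
  refine card_le_one.2 fun r hr r' hr' => ?_
  obtain ⟨o, a1, a2⟩ := (mem_filter.1 hr).2
  obtain ⟨o', b1, b2⟩ := (mem_filter.1 hr').2
  by_contra hrr
  exact hne (ro1 hm h e1 e2 hk (fun e => hrr (fam_inj hg τ e)) a1 b1 a2 b2)

theorem ro2 (hg : P.RGood R) (hM : 3 * h2 + 4 ≤ M) (hm : IsM (P.EK A W fun _ _ => True) ν)
    (h : RO P ν sd ky C) {x1 y1 x2 y2 x3 y3 : V} (e1 : Ed ν sd C x1 y1) (e2 : Ed ν sd C x2 y2)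
    (e3 : Ed ν sd C x3 y3) (k12 : ky x1 = ky x2) (k13 : ky x1 = ky x3) (n12 : x1 ≠ x2)
    (n13 : x1 ≠ x3) (n23 : x2 ≠ x3) {τ : Fin t} (s1 : ¬ P.Srv R h2 τ x1 y1)
    (s2 : ¬ P.Srv R h2 τ x2 y2) (s3 : ¬ P.Srv R h2 τ x3 y3) : False := by
  have c12 := cm_le hg hm h e1 e2 k12 n12 τ
  have c13 := cm_le hg hm h e1 e3 k13 n13 τ
  have c23 := cm_le hg hm h e2 e3 (k12.symm.trans k13) n23 τ
  have t1 := not_le.1 fun h => s1 (Or.inl h)
  have t2 := not_le.1 fun h => s2 (Or.inl h)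
  have t3 := not_le.1 fun h => s3 (Or.inl h)
  set O1 := univ.filter fun r => P.Ok (R.F τ r).1 x1 y1 with hO1
  set O2 := univ.filter fun r => P.Ok (R.F τ r).1 x2 y2 with hO2
  set O3 := univ.filter fun r => P.Ok (R.F τ r).1 x3 y3 with hO3
  have hs : (univ : Finset (Fin M)) ⊆ ((O1 ∪ O2) ∪ O3) ∪
      ((cm P R τ x1 y1 x2 y2 ∪ cm P R τ x1 y1 x3 y3) ∪ cm P R τ x2 y2 x3 y3) := fun r _ => by
    simp only [hO1, hO2, hO3, cm, mem_union, mem_filter, mem_univ, true_and]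
    by_cases a1 : P.Ok (R.F τ r).1 x1 y1
    · tauto
    by_cases a2 : P.Ok (R.F τ r).1 x2 y2
    · tauto
    by_cases a3 : P.Ok (R.F τ r).1 x3 y3
    · tauto
    obtain ⟨o1, b1⟩ := Geo.refuse e1.ne (EK_pe hm e1.ne e1.e).2.2 a1
    obtain ⟨o2, b2⟩ := Geo.refuse e2.ne (EK_pe hm e2.ne e2.e).2.2 a2
    obtain ⟨o3, b3⟩ := Geo.refuse e3.ne (EK_pe hm e3.ne e3.e).2.2 a3
    right
    by_cases g1 : o1 = o2
    · subst g1
      exact Or.inl (Or.inl ⟨o1, b1, b2⟩)
    by_cases g2 : o1 = o3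
    · subst g2
      exact Or.inl (Or.inr ⟨o1, b1, b3⟩)
    have g3 : o2 = o3 := by
      revert g1 g2
      cases o1 <;> cases o2 <;> cases o3 <;> simp
    subst g3
    exact Or.inr ⟨o2, b2, b3⟩
  have u0 := (card_le_card hs).trans (card_union_le _ _)
  have u1 := card_union_le (O1 ∪ O2) O3
  have u2 := card_union_le O1 O2
  have u3 := card_union_le (cm P R τ x1 y1 x2 y2 ∪ cm P R τ x1 y1 x3 y3) (cm P R τ x2 y2 x3 y3)
  have u4 := card_union_le (cm P R τ x1 y1 x2 y2) (cm P R τ x1 y1 x3 y3)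
  rw [card_univ, Fintype.card_fin] at u0
  omega

theorem ed_of {Q : V → V → Prop} {x : V} (h : x ∈ eds ν C fun u v => Q u v ∧ sd u) :
    ∃ y, Ed ν sd C x y ∧ Q x y := by
  obtain ⟨h1, v, h2, h3, h4⟩ := mem_eds.1 h
  exact ⟨v, ⟨h1, h2, h3, h4.2⟩, h4.1⟩

variable [Fintype κ]

theorem nsrv_le (hg : P.RGood R) (hM : 3 * h2 + 4 ≤ M) (D : VD P R A W ν sd mk own)
    (h : RO P ν sd ky C) (hc : Cl C ν) (τ : Fin t) :
    (eds ν C fun u v => ¬ P.Srv R h2 τ u v).card ≤ 4 * Fintype.card κ := by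
  have h1 := eds_le (Q := fun u v => ¬ P.Srv R h2 τ u v) (D := fun u _ => sd u) D.m.1 hc
    (fun u v a b => a (srv_symm b)) fun u v a b c => by
      have := (D.pe u v a b).1
      tauto
  have h2 := card_le_mul_card_image_of_maps_to (f := ky)
    (s := eds ν C fun u v => ¬ P.Srv R h2 τ u v ∧ sd u) (t := univ) (fun _ _ => mem_univ _) 2
    fun k _ => by
      by_contra hn
      obtain ⟨x1, a1, x2, a2, x3, a3, n12, n13, n23⟩ := two_lt_card.1 (not_le.1 hn)
      rw [mem_filter] at a1 a2 a3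
      obtain ⟨y1, e1, s1⟩ := ed_of a1.1
      obtain ⟨y2, e2, s2⟩ := ed_of a2.1
      obtain ⟨y3, e3, s3⟩ := ed_of a3.1
      exact ro2 hg hM D.m h e1 e2 e3 (a1.2.trans a2.2.symm) (a1.2.trans a3.2.symm) n12 n13 n23
        s1 s2 s3
  rw [card_univ] at h2
  omega

theorem nok_le (D : VD P R A W ν sd mk own) (h : RO P ν sd ky C) (hc : Cl C ν) {j j' : J}
    (hj : j ≠ j') :
    (eds ν C fun u v => ¬ P.Ok j u v ∧ ¬ P.Ok j' u v).card ≤ 8 * Fintype.card κ := by
  have h1 := eds_le (Q := fun u v => ¬ P.Ok j u v ∧ ¬ P.Ok j' u v) (D := fun u _ => sd u) D.m.1 hc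
    (fun u v a => ⟨fun b => a.1 (Geo.Ok_symm b), fun b => a.2 (Geo.Ok_symm b)⟩) fun u v a b c => by
      have := (D.pe u v a b).1
      tauto
  have h2 : (eds ν C fun u v => (¬ P.Ok j u v ∧ ¬ P.Ok j' u v) ∧ sd u) ⊆
      (univ : Finset (Bool × Bool)).biUnion fun o =>
        eds ν C fun u v => (Nx P j o.1 u v ∧ Nx P j' o.2 u v) ∧ sd u := fun x hx => by
    obtain ⟨y, e, s⟩ := ed_of hx
    obtain ⟨o, a⟩ := Geo.refuse e.ne (EK_pe D.m e.ne e.e).2.2 s.1
    obtain ⟨o', b⟩ := Geo.refuse e.ne (EK_pe D.m e.ne e.e).2.2 s.2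
    exact mem_biUnion.2 ⟨(o, o'), mem_univ _, mem_eds.2 ⟨e.mem, y, e.ne, e.e, ⟨a, b⟩, e.s⟩⟩
  have h3 := (card_le_card h2).trans (card_biUnion_le_card_mul _ _ (Fintype.card κ) fun o _ => by
    have := card_le_mul_card_image_of_maps_to (f := ky)
      (s := eds ν C fun u v => (Nx P j o.1 u v ∧ Nx P j' o.2 u v) ∧ sd u) (t := univ)
      (fun _ _ => mem_univ _) 1 fun k _ => card_le_one.2 fun x1 a1 x2 a2 => by
        rw [mem_filter] at a1 a2
        obtain ⟨y1, e1, s1⟩ := ed_of a1.1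
        obtain ⟨y2, e2, s2⟩ := ed_of a2.1
        exact ro1 D.m h e1 e2 (a1.2.trans a2.2.symm) hj s1.1 s1.2 s2.1 s2.2
    simpa using this)
  have h4 : (univ : Finset (Bool × Bool)).card = 4 := by simp
  rw [h4] at h3
  omega

end Ro

/-! ### The old matching -/

section Old

variable {B : Finset J} {g : J → Sv V} {od : OdT J V t}

theorem own_eq (K : P.KCtx R h2 A W B g od μ) {i j : J} (hi : i ∈ B) (hj : j ∈ B) {v : V}
    (a : v ∈ (g i).its) (b : v ∈ (g j).its) : i = j := by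
  by_contra h
  exact disjoint_left.1 (K.st.dis i hi j hj h) a b

theorem odd_its (K : P.KCtx R h2 A W B g od μ) {j : J} {x y : V} {o : Bool}
    {k : Fin t × Bool × Bool} (h : od j = some (x, y, o, k)) :
    j ∈ B ∧ x ∈ (g j).its ∧ y ∈ (g j).its ∧ x ≠ y ∧ ¬ P.C j y ∧ ∀ v, g j ≠ Sv.one v := by
  obtain ⟨h1, h2, -, h3, h4, -⟩ := K.odd j x y o k h
  refine ⟨h1, ?_, ?_, Geo.col_ne h3 h4, Geo.col_not_C h4, fun v hv => ?_⟩
  · rcases h2 with e | e <;> simp [e, Sv.its]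
  · rcases h2 with e | e <;> simp [e, Sv.its]
  · rw [hv] at h2
    simp at h2

theorem odd_ag (K : P.KCtx R h2 A W B g od μ) {j : J} {x y : V} {o : Bool}
    {k : Fin t × Bool × Bool} (h : od j = some (x, y, o, k)) : μ (ag j) = vx y :=
  (K.im (ag j) (vx y) (by simp)).2 ⟨(odd_its K h).1, Or.inr ⟨x, o, k, h⟩⟩

theorem odd_hid (K : P.KCtx R h2 A W B g od μ) {j : J} {x y : V} {o : Bool}
    {k : Fin t × Bool × Bool} (h : od j = some (x, y, o, k)) : μ (vx x) = vx x := by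
  by_contra hn
  have a := (K.im _ _ (Ne.symm hn)).1 rfl
  obtain ⟨h1, h2, -, h4, -, h6⟩ := odd_its K h
  rcases hm : μ (vx x) with i | u | i <;> rw [hm] at a
  · obtain ⟨hi, e | ⟨x', o', k', e⟩⟩ := a
    · obtain rfl := own_eq K hi h1 (v := x) (by simp [e, Sv.its]) h2
      exact h6 x e
    · obtain rfl := own_eq K hi h1 (odd_its K e).2.2.1 h2
      rw [h] at e
      simp only [Option.some.injEq, Prod.mk.injEq] at e
      exact h4 e.2.1.symm
  · obtain ⟨i, hi, e1, e2⟩ := a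
    obtain rfl := own_eq K hi h1 (v := x) (by rcases e2 with e | e <;> simp [e, Sv.its]) h2
    rw [h] at e1
    simp at e1
  · exact a.elim

theorem unc_two (K : P.KCtx R h2 A W B g od μ) {j : J} (hj : j ∈ B) (h : μ (ag j) = ag j) :
    ∃ a b, g j = Sv.two a b ∧ a ≠ b ∧ μ (vx a) = vx b ∧ P.Compat R h2 j a b := by
  have hn : od j = none := by
    rcases e : od j with _ | ⟨x, y, o, k⟩
    · rfl
    · have := odd_ag K e
      rw [h] at this
      simp at this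
  have h1 := K.st.nrm j hj
  rcases e : g j with _ | c | ⟨a, b⟩ | ⟨a, z, b⟩ <;> rw [e] at h1
  · exact h1.elim
  · have := (K.im (ag j) (vx c) (by simp)).2 ⟨hj, Or.inl e⟩
    rw [h] at this
    simp at this
  · have hab : a ≠ b := Geo.col_ne h1.2.1 h1.2.2.1
    exact ⟨a, b, rfl, hab, (K.im (vx a) (vx b) fun h => hab (vx_inj h)).2 ⟨j, hj, hn, Or.inl e⟩,
      K.con j hj hn a b e⟩
  · exact absurd e (K.nt j hj a z b)

theorem old_shape (K : P.KCtx R h2 A W B g od μ) : Shape μ := by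
  refine ⟨fun j => ?_, fun j => ?_⟩
  · by_cases a : μ (ag j) = ag j
    · exact Or.inl a
    have b := (K.im _ _ (Ne.symm a)).1 rfl
    rcases hm : μ (ag j) with i | u | i <;> rw [hm] at b
    · exact b.elim
    · exact Or.inr (Or.inl ⟨u, rfl⟩)
    · exact b.elim
  · by_cases a : μ (dm j) = dm j
    · exact Or.inl a
    have b := (K.im _ _ (Ne.symm a)).1 rfl
    rcases hm : μ (dm j) with i | u | i <;> rw [hm] at b <;> exact b.elim

end Old

/-! ### The coordinates -/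

def QT (P : Geo J V) (R : RG J V t M t' M0) (h2 : ℕ) (T : Finset (Fin t)) (u v : V) : Prop :=
  ∃ τ ∈ T, P.Srv R h2 τ u v

def uT (P : Geo J V) (R : RG J V t M t' M0) (A : Finset J) (T : Finset (Fin t)) (j : J)
    (z : Nd J V) : Prop :=
  j ∈ A ∧ z = ag j ∧ ∀ τ, P.Ty R τ j → τ ∈ T

/-- The node of the hidden item. -/
def hidN (od : OdT J V t) (j : J) : Nd J V :=
  match od j with
  | some s => vx s.1
  | none => ag j

def remK (od : OdT J V t) (k : Fin t × Bool × Bool) (j : J) (z : Nd J V) : Prop :=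
  ∃ x y o, od j = some (x, y, o, k) ∧ z ≠ vx y

def hidK (od : OdT J V t) (k : Fin t × Bool × Bool) (j : J) (z : Nd J V) : Prop :=
  ∃ x y o, od j = some (x, y, o, k) ∧ z ≠ vx x

/-- Index set of the coordinates. -/
abbrev Co (t : ℕ) : Type := Finset (Fin t) ⊕ (Fin t × Bool × Bool)

def val (P : Geo J V) (R : RG J V t M t' M0) (h2 : ℕ) (A : Finset J) (od : OdT J V t)
    (m : Nd J V → Nd J V) (X : Finset (Nd J V)) : Co t → ℤ
  | Sum.inl T => ((eds m X (QT P R h2 T)).card : ℤ) - 2 * ((cn ag (uT P R A T) m X).card : ℤ)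
  | Sum.inr k => ((cn ag (remK od k) m X).card : ℤ) - ((cn (hidN od) (hidK od k) m X).card : ℤ)

variable {B : Finset J} {g : J → Sv V} {od : OdT J V t}

theorem hidN_eq {j : J} {x y : V} {o : Bool} {k : Fin t × Bool × Bool}
    (h : od j = some (x, y, o, k)) : hidN od j = vx x := by
  simp [hidN, h]

theorem QT_symm {T : Finset (Fin t)} (u v : V) (h : QT P R h2 T u v) : QT P R h2 T v u := by
  obtain ⟨τ, a, b⟩ := h
  exact ⟨τ, a, srv_symm b⟩

theorem cl_univ (m : Nd J V → Nd J V) : Cl univ m := fun _ _ => mem_univ _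

theorem val_mix (s : Finset (Finset (Nd J V)))
    (hs : ∀ C ∈ s, ∀ C' ∈ s, ∀ x, x ∈ C → x ∈ C' → C = C') (d : Co t) :
    val P R h2 A od (mix (s.biUnion id) μ ν) univ d = val P R h2 A od μ univ d +
      ∑ C ∈ s, (val P R h2 A od ν C d - val P R h2 A od μ C d) := by
  rcases d with T | k
  · simp only [val, eds]
    rw [cn_mix _ _ μ ν s hs, cn_mix _ _ μ ν s hs, mul_add, mul_sum, add_sub_add_comm,
      ← sum_sub_distrib]
    congr 1
    exact sum_congr rfl fun C _ => by ring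
  · simp only [val]
    rw [cn_mix _ _ μ ν s hs, cn_mix _ _ μ ν s hs, add_sub_add_comm, ← sum_sub_distrib]
    congr 1
    exact sum_congr rfl fun C _ => by ring

theorem val_base (K : P.KCtx R h2 A W B g od μ) (d : Co t) :
    -(2 * ((A \ B).card : ℤ)) ≤ val P R h2 A od μ univ d := by
  rcases d with T | k
  · have h1 := eds_ge (Q := QT P R h2 T) (D := fun u v => ∃ j ∈ B, g j = Sv.two u v) K.inv
      (cl_univ μ) QT_symm (by
        rintro u v huv - ⟨i, hi, ei⟩ ⟨j, hj, ej⟩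
        obtain rfl := own_eq K hi hj (v := u) (by simp [ei, Sv.its]) (by simp [ej, Sv.its])
        rw [ei] at ej
        exact huv (Sv.two.inj ej).1)
    have h3 : ((cn ag (uT P R A T) μ univ).filter fun j => j ∈ B).card ≤
        (eds μ univ fun u v => QT P R h2 T u v ∧ ∃ j ∈ B, g j = Sv.two u v).card := by
      refine card_le_card_of_forall_subsingleton (fun j u => ∃ v, g j = Sv.two u v) ?_ ?_
      · intro j hj
        obtain ⟨a1, a2⟩ := mem_filter.1 hj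
        obtain ⟨-, -, a3, a4⟩ := mem_cn.1 a1
        obtain ⟨a, b, e, hab, hm, τ, c1, c2⟩ := unc_two K a2 a3
        exact ⟨a, mem_eds.2 ⟨mem_univ _, b, hab, hm, ⟨τ, a4 τ c1, c2⟩, j, a2, e⟩, b, e⟩
      · rintro u - i ⟨hi, v, ei⟩ j ⟨hj, v', ej⟩
        exact own_eq K (mem_filter.1 hi).2 (mem_filter.1 hj).2 (v := u) (by simp [ei, Sv.its])
          (by simp [ej, Sv.its])
    have h4 : cn ag (uT P R A T) μ univ ⊆
        ((cn ag (uT P R A T) μ univ).filter fun j => j ∈ B) ∪ (A \ B) := fun j hj => by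
      by_cases h : j ∈ B
      · exact mem_union_left _ (mem_filter.2 ⟨hj, h⟩)
      · exact mem_union_right _ (mem_sdiff.2 ⟨(mem_cn.1 hj).2.1, h⟩)
    have h5 := (card_le_card h4).trans (card_union_le _ _)
    simp only [val]
    omega
  · have h1 : cn (hidN od) (hidK od k) μ univ = ∅ := eq_empty_of_forall_notMem fun j hj => by
      obtain ⟨-, x, y, o, e, h⟩ := mem_cn.1 hj
      rw [hidN_eq e] at h
      exact h (odd_hid K e)
    simp only [val, h1, card_empty]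
    omega

theorem srv_of_mark (hM : 2 * R.h + h2 ≤ M) {τ : Fin t} {x y : V} (hx : P.Xs (R.F τ) R.h x)
    (hy : P.Ys (R.F τ) R.h y) (n : ¬ P.HH x y) : P.Srv R h2 τ x y := by
  left
  unfold Geo.Xs at hx
  unfold Geo.Ys at hy
  have hs : (univ : Finset (Fin M)) ⊆ (univ.filter fun r => P.Ok (R.F τ r).1 x y) ∪
      ((univ.filter fun r => ¬ P.cA (R.F τ r) x) ∪ univ.filter fun r => ¬ P.cB (R.F τ r) y) :=
    fun r _ => by
      simp only [mem_union, mem_filter, mem_univ, true_and]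
      by_cases a : P.cA (R.F τ r) x
      · by_cases b : P.cB (R.F τ r) y
        · exact Or.inl (Or.inr (Or.inr (Geo.Pr_of_col a b n)))
        · exact Or.inr (Or.inr b)
      · exact Or.inr (Or.inl a)
  have u0 := (card_le_card hs).trans (card_union_le _ _)
  have u1 := card_union_le (univ.filter fun r => ¬ P.cA (R.F τ r) x)
    (univ.filter fun r => ¬ P.cB (R.F τ r) y)
  rw [card_univ, Fintype.card_fin] at u0
  omega

theorem val_total (K : P.KCtx R h2 A W B g od μ) (hM : 2 * R.h + h2 ≤ M)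
    (D : VD P R A W ν sd mk own) (d : Co t) : 0 ≤ val P R h2 A od ν univ d := by
  rcases d with T | k
  · have h1 := eds_ge (Q := QT P R h2 T) (D := fun u _ => sd u) D.m.1 (cl_univ ν) QT_symm
      fun u v a b c => (D.pe u v a b).1.1 c
    have h3 : (cn ag (uT P R A T) ν univ).card ≤
        (eds ν univ fun u v => QT P R h2 T u v ∧ sd u).card := by
      refine card_le_card_of_forall_subsingleton own ?_ ?_
      · intro j hj
        obtain ⟨-, a2, a3, a4⟩ := mem_cn.1 hj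
        obtain ⟨x, y, o1, o2, o3, o4, o5⟩ := D.ow j a2 a3
        obtain ⟨hx, hy⟩ := (D.pe x y o3 o4).2.2 o2
        refine ⟨x, mem_eds.2 ⟨mem_univ _, y, o3, o4, ?_, o2⟩, o1⟩
        rcases hk : mk x with _ | τ | i <;> rw [hk] at hx hy o5
        · exact hx.elim
        · exact ⟨τ, a4 τ o5, srv_of_mark hM hx hy (EK_pe D.m o3 o4).2.2⟩
        · obtain ⟨τ, h⟩ := o5
          exact ⟨τ, a4 τ h, Or.inr (Or.inl ⟨i, hx, hy⟩)⟩
      · intro u _ i hi j hj
        exact D.inj i j u hi.2 hj.2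
    simp only [val]
    omega
  · have h1 : cn (hidN od) (hidK od k) ν univ ⊆ cn ag (remK od k) ν univ := fun j hj => by
      obtain ⟨-, x, y, o, e, -⟩ := mem_cn.1 hj
      exact mem_cn.2 ⟨mem_univ _, x, y, o, e, fun h => (odd_its K e).2.2.2.2.1 (EK_ag D.m h)⟩
    have := card_le_card h1
    simp only [val]
    omega

theorem val_comp {κ : Type} [Fintype κ] {ky : V → κ} (hC : CompStmt) (hP : PeStmt)
    (K : P.KCtx R h2 A W B g od μ) (hM : 3 * h2 + 4 ≤ M) (D : VD P R A W ν sd mk own)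
    {x0 : Nd J V} (hx0 : μ x0 ≠ ν x0) (h : RO P ν sd ky (cmp μ ν x0)) (d : Co t) :
    -(4 * (Fintype.card κ : ℤ) + 6) ≤
      val P R h2 A od ν (cmp μ ν x0) d - val P R h2 A od μ (cmp μ ν x0) d := by
  obtain ⟨c1, -, -, c4, c5, -⟩ := hC _ μ ν K.inv D.m.1
  have he := c5 x0
  rcases d with T | k
  · have h1 : (cn ag (uT P R A T) ν (cmp μ ν x0)).card ≤ (cmp μ ν x0 ∩ ends μ ν).card := by
      refine card_le_card_of_injOn ag (fun j hj => ?_) fun i _ j _ e => Sum.inl_injective e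
      obtain ⟨a1, -, a3, -⟩ := mem_cn.1 (mem_coe.1 hj)
      have := c4 _ _ hx0 a1
      rw [a3] at this
      exact mem_coe.2 (mem_inter.2 ⟨a1, mem_filter.2 ⟨mem_univ _, Or.inr ⟨this, a3⟩⟩⟩)
    have h3 := ((hP J V).2 μ ν K.inv D.m.1 (old_shape K) (EK_shape D.m) x0).1
    rw [npe_eq, npe_eq] at h3
    simp only [val]
    rcases T.eq_empty_or_nonempty with rfl | ⟨τ, hτ⟩
    · have : eds μ (cmp μ ν x0) (QT P R h2 ∅) = ∅ := eq_empty_of_forall_notMem fun u hu => by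
        obtain ⟨-, v, -, -, τ, a, -⟩ := mem_eds.1 hu
        simp at a
      rw [this, card_empty]
      omega
    · have h4 := card_le_card (eds_mono (m := μ) (X := cmp μ ν x0) (Q := QT P R h2 T)
        (Q' := fun _ _ => True) fun _ _ _ _ _ => trivial)
      have h5 : (eds ν (cmp μ ν x0) fun _ _ => True) ⊆ eds ν (cmp μ ν x0) (QT P R h2 T) ∪
          eds ν (cmp μ ν x0) fun u v => ¬ P.Srv R h2 τ u v := fun u hu => by
        obtain ⟨a1, v, a2, a3, -⟩ := mem_eds.1 hu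
        by_cases hs : P.Srv R h2 τ u v
        · exact mem_union_left _ (mem_eds.2 ⟨a1, v, a2, a3, τ, hτ, hs⟩)
        · exact mem_union_right _ (mem_eds.2 ⟨a1, v, a2, a3, hs⟩)
      have h6 := (card_le_card h5).trans (card_union_le _ _)
      have h7 := nsrv_le K.good hM D h (c1 x0).2.2 τ
      omega
  · have h1 : (cn (hidN od) (hidK od k) ν (cmp μ ν x0)).card ≤ (cmp μ ν x0 ∩ ends μ ν).card := by
      refine card_le_card_of_injOn (hidN od) (fun j hj => ?_) fun i hi j hj e => ?_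
      · obtain ⟨a1, x, y, o, e, a3⟩ := mem_cn.1 (mem_coe.1 hj)
        rw [hidN_eq e] at a1 a3 ⊢
        exact mem_coe.2 (mem_inter.2 ⟨a1, mem_filter.2 ⟨mem_univ _, Or.inl ⟨odd_hid K e, a3⟩⟩⟩)
      · obtain ⟨-, x, y, o, e1, -⟩ := mem_cn.1 (mem_coe.1 hi)
        obtain ⟨-, x', y', o', e2, -⟩ := mem_cn.1 (mem_coe.1 hj)
        rw [hidN_eq e1, hidN_eq e2] at e
        obtain rfl := vx_inj e
        exact own_eq K (odd_its K e1).1 (odd_its K e2).1 (odd_its K e1).2.1 (odd_its K e2).2.1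
    have h3 : cn ag (remK od k) μ (cmp μ ν x0) = ∅ := eq_empty_of_forall_notMem fun j hj => by
      obtain ⟨-, x, y, o, e, h⟩ := mem_cn.1 hj
      exact h (odd_ag K e)
    simp only [val, h3, card_empty]
    omega

/-! ### The outcome -/

theorem out_own (hH : HallStmt) {m : Nd J V → Nd J V} (hm : ∀ x, m (m x) = x)
    (hv : ∀ d, 0 ≤ val P R h2 A od m univ d) :
    ∃ own : J → V → Prop,
      (∀ j j' x x', own j x → own j' x' → j ≠ j' → x ≠ x' ∧ m (vx x) ≠ vx x') ∧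
      ∀ j ∈ A, m (ag j) = ag j →
        ∃ x y, own j x ∧ x ≠ y ∧ m (vx x) = vx y ∧ P.Compat R h2 j x y := by
  obtain ⟨rk, hrk⟩ : ∃ rk : V → ℕ, Function.Injective rk :=
    ⟨fun v => (Fintype.equivFin V v).val, fun a b h => (Fintype.equivFin V).injective (Fin.ext h)⟩
  obtain ⟨s', f, h1, h3, h4, h5⟩ := hH J V (A.filter fun j => m (ag j) = ag j)
    (eds m univ fun u v => rk u < rk v)
    (fun j u => ∃ v, u ≠ v ∧ m (vx u) = vx v ∧ P.Compat R h2 j u v) 0 (by
      intro O hO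
      have a1 := hv (Sum.inl (univ.filter fun τ => ∃ j ∈ O, P.Ty R τ j))
      set T := univ.filter fun τ => ∃ j ∈ O, P.Ty R τ j with hT
      simp only [val] at a1
      have a2 : O ⊆ cn ag (uT P R A T) m univ := fun j hj => by
        have := mem_filter.1 (hO hj)
        exact mem_cn.2 ⟨mem_univ _, this.1, this.2,
          fun τ h => mem_filter.2 ⟨mem_univ _, j, hj, h⟩⟩
      have a3 := card_le_card a2
      have a4 := eds_le (Q := QT P R h2 T) (D := fun u v => rk u < rk v) hm (cl_univ m) QT_symm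
        fun u v a _ c => lt_of_le_of_ne (not_lt.1 c) fun e => a (hrk e).symm
      refine le_trans (show O.card ≤ (eds m univ fun u v => QT P R h2 T u v ∧ rk u < rk v).card by
        omega) (card_le_card fun u hu => ?_)
      obtain ⟨b1, v, b2, b3, ⟨τ, b4, b5⟩, b6⟩ := mem_eds.1 hu
      obtain ⟨j, hj, b7⟩ := (mem_filter.1 b4).2
      simp only [mem_filter]
      exact ⟨mem_eds.2 ⟨b1, v, b2, b3, b6⟩, j, hj, v, b2, b3, τ, b7, b5⟩)
  have e := eq_of_subset_of_card_le h1 h3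
  refine ⟨fun j x => j ∈ s' ∧ f j = some x, ?_, fun j hj hu => ?_⟩
  · rintro j j' x x' ⟨a1, a2⟩ ⟨b1, b2⟩ hne
    refine ⟨fun h => hne (h5 j a1 j' b1 (by rw [a2, b2, h])), fun h => ?_⟩
    obtain ⟨y, c1, c2, -⟩ := h4 j a1
    obtain ⟨y', d1, d2, -⟩ := h4 j' b1
    obtain rfl : x = y := Option.some.inj (a2.symm.trans c2)
    obtain rfl : x' = y' := Option.some.inj (b2.symm.trans d2)
    obtain ⟨-, v, -, c3, c4⟩ := mem_eds.1 c1
    obtain ⟨-, v', -, d3, d4⟩ := mem_eds.1 d1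
    obtain rfl := vx_inj (h.symm.trans c3)
    obtain rfl := vx_inj ((mate hm h).symm.trans d3)
    omega
  · have hs : j ∈ s' := e ▸ mem_filter.2 ⟨hj, hu⟩
    obtain ⟨x, -, c2, y, c3, c4, c5⟩ := h4 j hs
    exact ⟨x, y, ⟨hs, c2⟩, c3, c4, c5⟩

theorem select (hC : CompStmt) (hP : PeStmt) (hH : HallStmt) {Bd K0 n : ℕ}
    (hS : ∀ (I : Type) (s : Finset I) (v : I → Co t → ℤ) (b : Co t → ℤ),
      (∀ i ∈ s, ∀ d, -(Bd : ℤ) ≤ v i d) → (∀ d, -(Bd : ℤ) ≤ b d) →
      (∀ d, 0 ≤ b d + ∑ i ∈ s, v i d) →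
      ∃ s' ⊆ s, s'.card ≤ K0 ∧ ∀ d, 0 ≤ b d + ∑ i ∈ s', v i d)
    (K : P.KCtx R h2 A W B g od μ) (hM : 2 * R.h + h2 ≤ M) (hM' : 3 * h2 + 4 ≤ M)
    (hn : Fintype.card (Mk t t' × Bool) ≤ n) (h1 : 4 * n + 6 ≤ Bd) (h3 : 2 * (A \ B).card ≤ Bd)
    (h : ∃ ν, P.VS R A W ν) : ∃ ν, P.KOut R h2 A W od μ ν (K0 * 2) (K0 * (8 * n)) := by
  obtain ⟨ν, sd, mk, own, ky, D, hro⟩ := exists_min hC K.inv h
  obtain ⟨c1, c2, -, -, c5, -⟩ := hC _ μ ν K.inv D.m.1
  have hc : ∀ C ∈ ncomp μ ν, ∃ x, μ x ≠ ν x ∧ C = cmp μ ν x := fun C hC => by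
    obtain ⟨x, a, b⟩ := mem_image.1 hC
    exact ⟨x, (mem_filter.1 a).2, b.symm⟩
  have hd : ∀ C ∈ ncomp μ ν, ∀ C' ∈ ncomp μ ν, ∀ x, x ∈ C → x ∈ C' → C = C' := by
    intro C a C' b x c d
    obtain ⟨y, -, rfl⟩ := hc C a
    obtain ⟨y', -, rfl⟩ := hc C' b
    exact (c2 _ _ c).symm.trans (c2 _ _ d)
  have hall : mix ((ncomp μ ν).biUnion id) μ ν = ν := funext fun x => by
    by_cases hx : x ∈ (ncomp μ ν).biUnion id
    · exact mix_in hx
    · rw [mix_out hx]
      by_contra hne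
      exact hx (mem_biUnion.2 ⟨cmp μ ν x, mem_image.2 ⟨x, mem_filter.2 ⟨mem_univ _, hne⟩, rfl⟩,
        (c1 x).1⟩)
  obtain ⟨s, hs, hK, hv⟩ := hS _ (ncomp μ ν)
    (fun C d => val P R h2 A od ν C d - val P R h2 A od μ C d) (val P R h2 A od μ univ)
    (fun C hC' d => by
      obtain ⟨x, a, rfl⟩ := hc C hC'
      have := val_comp hC hP K hM' D a (hro x) d
      omega)
    (fun d => by
      have := val_base K d
      omega)
    (fun d => by
      rw [← val_mix _ hd, hall]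
      exact val_total K hM D d)
  have hv' : ∀ d, 0 ≤ val P R h2 A od (mix (s.biUnion id) μ ν) univ d := fun d => by
    rw [val_mix _ fun C a C' b => hd C (hs a) C' (hs b)]
    exact hv d
  have cl : ∀ C ∈ s, Cl C μ ∧ Cl C ν := fun C a => by
    obtain ⟨x, -, rfl⟩ := hc C (hs a)
    exact (c1 x).2
  have hm : IsM (fun x y => P.EK A W (fun _ _ => True) x y ∨ μ x = y)
      (mix (s.biUnion id) μ ν) := by
    refine IsM.mix ⟨K.inv, fun x _ => Or.inr rfl⟩ (D.m.mono fun _ _ a => Or.inl a) ?_ ?_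
    · intro x hx
      obtain ⟨C, a, b⟩ := mem_biUnion.1 hx
      exact mem_biUnion.2 ⟨C, a, (cl C a).1 x b⟩
    · intro x hx
      obtain ⟨C, a, b⟩ := mem_biUnion.1 hx
      exact mem_biUnion.2 ⟨C, a, (cl C a).2 x b⟩
  have hnew : ∀ x, μ x ≠ mix (s.biUnion id) μ ν x →
      ∃ C ∈ s, x ∈ C ∧ mix (s.biUnion id) μ ν x = ν x := fun x hx => by
    by_cases h : x ∈ s.biUnion id
    · obtain ⟨C, a, b⟩ := mem_biUnion.1 h
      exact ⟨C, a, b, mix_in h⟩
    · exact absurd (mix_out h).symm hx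
  refine ⟨mix (s.biUnion id) μ ν, hm, ?_, out_own hH hm.1 hv', fun k => ?_, fun j j' hj => ?_⟩
  · have a1 : ends μ (mix (s.biUnion id) μ ν) ⊆ s.biUnion fun C => C ∩ ends μ ν := fun x hx => by
      have a := (mem_filter.1 hx).2
      obtain ⟨C, b1, b2, b3⟩ := hnew x a.ne
      refine mem_biUnion.2 ⟨C, b1, mem_inter.2 ⟨b2, mem_filter.2 ⟨mem_univ _, ?_⟩⟩⟩
      unfold IsEnd at a ⊢
      rwa [b3] at a
    refine (card_le_card a1).trans ((card_biUnion_le_card_mul _ _ 2 fun C a => ?_).trans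
      (Nat.mul_le_mul_right _ hK))
    obtain ⟨x, -, rfl⟩ := hc C (hs a)
    exact c5 x
  · have a1 := hv' (Sum.inr k)
    simp only [val] at a1
    refine le_trans (card_le_card fun j hj => ?_) (le_trans (show (cn (hidN od) (hidK od k)
      (mix (s.biUnion id) μ ν) univ).card ≤ (cn ag (remK od k) (mix (s.biUnion id) μ ν) univ).card
      by omega) (card_le_card fun j hj => ?_))
    · obtain ⟨x, y, o, e, a⟩ := (mem_filter.1 hj).2
      exact mem_cn.2 ⟨mem_univ _, x, y, o, e, by rwa [hidN_eq e]⟩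
    · exact mem_filter.2 ⟨mem_univ _, (mem_cn.1 hj).2⟩
  · refine le_trans (card_le_card (t := s.biUnion fun C =>
      eds ν C fun u v => ¬ P.Ok j u v ∧ ¬ P.Ok j' u v) fun x hx => ?_)
      ((card_biUnion_le_card_mul _ _ (8 * n) fun C a => ?_).trans (Nat.mul_le_mul_right _ hK))
    · obtain ⟨y, a1, a2, a3, a4⟩ := (mem_filter.1 hx).2
      obtain ⟨C, b1, b2, b3⟩ := hnew (vx x) (by rwa [a2])
      exact mem_biUnion.2 ⟨C, b1, mem_eds.2 ⟨b2, y, a1, b3.symm.trans a2, a4⟩⟩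
    · have hcl := (cl C a).2
      obtain ⟨x, -, rfl⟩ := hc C (hs a)
      have := nok_le D (hro x) hcl hj
      omega

end

end DRSel

open DRSel in
theorem rSelStmt (hC : CompStmt) (hP : PeStmt) (hS : SelStmt) (hH : HallStmt) : RSelStmt := by
  intro t0 cu
  choose Kf hK using fun t : ℕ => hS (Co t) (16 * t0 + 6 + 2 * cu)
  refine ⟨(∑ t ∈ range t0, Kf t) * 2, (∑ t ∈ range t0, Kf t) * (8 * (4 * t0)), ?_⟩
  intro J V _ _ _ _ P t M t' M0 R h2 A W B g od μ ht ht' hM hM' K hcu h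
  have hle : Kf t ≤ ∑ t ∈ range t0, Kf t :=
    single_le_sum (f := Kf) (fun _ _ => Nat.zero_le _) (mem_range.2 ht)
  refine select hC hP hH (Bd := 16 * t0 + 6 + 2 * cu) (fun I s v b a1 a2 a3 => ?_) K hM hM' ?_
    (by omega) (by omega) h
  · obtain ⟨s', b1, b2, b3⟩ := hK t I s v b a1 a2 a3
    exact ⟨s', b1, b2.trans hle, b3⟩
  · simp only [Fintype.card_prod, Fintype.card_option, Fintype.card_sum, Fintype.card_fin,
      Fintype.card_bool]
    omega

end Pool.Agent.Lib.MP_ef7581_lc.D2
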