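import Mathlib
import Pool.Agent.Lib.MP_ef7581_lc.DP0
import Pool.Agent.Shared.PolyTime.Graph

-- part Pool.Agent.Lib.MP_ef7581_lc.DPSL
section

/-!
Labelled matchings with a weight bound, and the test of the slack theorem, are decidable in
polynomial time.
-/

set_option autoImplicit false

namespace Pool.Agent.Lib.MP_ef7581_lc.D2

open Pool.Agent.Shared.PolyTime Finset DP0

namespace DPSL

/-! ### Perfect matchings with a weight bound -/

section Weights

variable {T : Type} [Fintype T] [DecidableEq T]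

theorem wt2_add (K : ℕ) (ω : T → T → ℕ) (m : T → T) :
    wt2 (fun x y => K + ω x y) m = K * cov m + wt2 ω m := by
  rw [cov_eq_wt2]
  unfold wt2
  rw [mul_sum, ← sum_add_distrib]
  exact sum_congr rfl fun x _ => by split_ifs <;> simp

theorem wt2_le {ω : T → T → ℕ} (h : ∀ x y, ω x y ≤ 1) (m : T → T) : wt2 ω m ≤ cov m := by
  rw [cov_eq_wt2]
  unfold wt2
  exact sum_le_sum fun x _ => by split_ifs <;> simp [h]

theorem cov_le (m : T → T) : cov m ≤ Fintype.card T := card_le_univ _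

theorem cov_eq_card {m : T → T} : cov m = Fintype.card T ↔ ∀ x, m x ≠ x := by
  rw [cov, card_eq_iff_eq_univ, filter_eq_self]
  simp

end Weights

theorem pf_pmw {γ : Type} [Enc γ] {T : γ → Type} [∀ a, Num (T a)] [∀ a, Fintype (T a)]
    [∀ a, DecidableEq (T a)] {E : ∀ a, T a → T a → Prop} {ω : ∀ a, T a → T a → ℕ} {t : γ → ℕ}
    (hN : PF fun a => Num.N (T a)) (hE : PF fun p : Pt2 T T => E p.a.a p.a.x p.x)
    (hω : PF fun p : Pt2 T T => ω p.a.a p.a.x p.x) (ht : PF t)
    (sE : ∀ a x y, E a x y → E a y x) (sω : ∀ a x y, ω a x y = ω a y x)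
    (h1 : ∀ a x y, ω a x y ≤ 1) :
    PF fun a => ∃ m, IsM (E a) m ∧ (∀ x, m x ≠ x) ∧ t a ≤ wt2 (ω a) m := by
  refine pf_iff (pf_maxw (ω := fun a x y => Num.N (T a) + ω a x y)
    (t := fun a => Num.N (T a) * Num.N (T a) + t a) hN hE ((hN.comp up2).add hω)
    ((hN.mul hN).add ht) sE fun a x y => by rw [sω]) fun a => exists_congr fun m =>
      and_congr_right fun _ => ?_
  rw [wt2_add, ← cov_eq_card, ← card_eq_N]
  have k1 := wt2_le (h1 a) m
  have k2 := cov_le m
  constructor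
  · rintro ⟨h, h'⟩
    rw [h]; omega
  · intro h
    have : cov m = Fintype.card (T a) := by
      by_contra hne
      have k3 : cov m + 1 ≤ Fintype.card (T a) := by omega
      nlinarith [Nat.mul_le_mul_left (Fintype.card (T a)) k3]
    rw [this] at h
    exact ⟨this, by omega⟩

/-! ### Dummy nodes for the labels -/

section Ext

variable {T : Type}

/-- The graph extended by one dummy node for each entry of `L`. -/
def ExtP (E : T → T → Prop) (A : ℕ → T → Prop) (L : List ℕ) :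
    T ⊕ Fin L.length → T ⊕ Fin L.length → Prop
  | Sum.inl x, Sum.inl y => E x y
  | Sum.inl x, Sum.inr d => A (L.getD d 0) x
  | Sum.inr d, Sum.inl x => A (L.getD d 0) x
  | Sum.inr _, Sum.inr _ => False

/-- Weights extended by zero. -/
def omE {U : Type} (ω : T → T → ℕ) : T ⊕ U → T ⊕ U → ℕ
  | Sum.inl x, Sum.inl y => ω x y
  | _, _ => 0

theorem wt2_res [Fintype T] [DecidableEq T] {U : Type} [Fintype U] [DecidableEq U]
    (ω : T → T → ℕ) {m : T → T} {M : T ⊕ U → T ⊕ U} (h : Res m M) :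
    wt2 (omE ω) M = wt2 ω m := by
  unfold wt2
  rw [Fintype.sum_sum_type]
  have h2 : ∑ d : U, (if M (Sum.inr d) = Sum.inr d then 0 else omE ω (Sum.inr d) (M (Sum.inr d)))
      = 0 := sum_eq_zero fun d _ => by split_ifs <;> rfl
  rw [h2, add_zero]
  refine sum_congr rfl fun x _ => ?_
  rcases h x with ⟨k1, k2⟩ | ⟨k1, d, k2⟩
  · rw [k2, if_neg k1, if_neg (by simpa using k1)]; rfl
  · rw [k2, if_pos k1, if_neg (by simp)]; rfl

variable {D : Type} [Fintype D]

/-- The number of a label. -/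
noncomputable def cd (d : D) : ℕ := (Fintype.equivFin D d).val

theorem cd_inj {d d' : D} (h : cd d = cd d') : d = d' := (Fintype.equivFin D).injective (Fin.ext h)

theorem cd_lt (d : D) : cd d < Fintype.card D := (Fintype.equivFin D d).2

/-- The list of the labels of the dummy nodes. -/
noncomputable def LL (n : D → ℕ) : List ℕ :=
  ((univ : Finset D).toList.map fun d => List.replicate (n d) (cd d)).flatten

theorem count_LL (n : D → ℕ) (c : ℕ) : (LL n).count c = ∑ d, if cd d = c then n d else 0 := by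
  unfold LL
  rw [List.count_flatten, List.map_map, Finset.sum_map_toList]
  exact sum_congr rfl fun d _ => by simp [List.count_replicate]

theorem count_LL_cd (n : D → ℕ) (d : D) : (LL n).count (cd d) = n d := by
  rw [count_LL, sum_eq_single d (fun d' _ h => if_neg fun e => h (cd_inj e)) (by simp), if_pos rfl]

theorem count_LL_no (n : D → ℕ) {c : ℕ} (h : ∀ d : D, cd d ≠ c) : (LL n).count c = 0 := by
  rw [count_LL]
  exact sum_eq_zero fun d _ => if_neg (h d)

theorem getD_LL (n : D → ℕ) (i : Fin (LL n).length) : ∃ d : D, cd d = (LL n).getD i 0 := by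
  by_contra h
  push Not at h
  have := count_LL_no n h
  rw [List.count_eq_zero, List.getD_eq_getElem _ _ i.2] at this
  exact this (List.getElem_mem _)

/-- The nodes allowed for the label with number `c`. -/
def AdN (Ad : D → T → Prop) (c : ℕ) (x : T) : Prop := ∃ d, cd d = c ∧ Ad d x

theorem lab_iff [Fintype T] [DecidableEq T] {E : T → T → Prop} {Ad : D → T → Prop} {n : D → ℕ}
    (ω : T → T → ℕ) (w : ℕ) : (∃ m, Lab E Ad n m ∧ w ≤ wt2 ω m) ↔
      ∃ M, IsM (ExtP E (AdN Ad) (LL n)) M ∧ (∀ z, M z ≠ z) ∧ w ≤ wt2 (omE ω) M := by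
  classical
  constructor
  · rintro ⟨m, ⟨hm, lab, h1, h2, h3⟩, hw⟩
    let cl : T → ℕ := fun x => (lab x).elim (Fintype.card D) cd
    have hcl : ∀ x d, cl x = cd d ↔ lab x = some d := fun x d => by
      have := cd_lt d
      rcases h : lab x with _ | d' <;> simp only [cl, h, Option.elim]
      · simp; omega
      · exact ⟨fun e => by rw [cd_inj e], fun e => by rw [Option.some_injective _ e]⟩
    have hd : Defi cl (LL n) m := fun c => by
      by_cases hc : ∃ d : D, cd d = c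
      · obtain ⟨d, rfl⟩ := hc
        rw [count_LL_cd, ← h3, cnt_eq]
        congr 1
        refine filter_congr fun x _ => ?_
        rw [hcl]
        refine ⟨fun h => h.1, fun h => ⟨h, ?_⟩⟩
        by_contra h'
        rw [(h1 x).2 h'] at h
        cases h
      · push Not at hc
        rw [count_LL_no n hc]
        refine cnt_false fun x hx => ?_
        rcases h : lab x with _ | d
        · exact (h1 x).1 h hx.2
        · exact hc d (((hcl x d).2 h).symm.trans hx.1)
    obtain ⟨M, k1, k2, k3⟩ := ext_of_defi hm hd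
    refine ⟨M, k1.mono ?_, k2, by rwa [wt2_res ω k3]⟩
    have key : ∀ x (i : Fin (LL n).length), cl x = (LL n).getD i 0 →
        AdN Ad ((LL n).getD i 0) x := fun x i h => by
      obtain ⟨d, e⟩ := getD_LL n i
      exact ⟨d, e, h2 x d ((hcl x d).1 (h.trans e.symm))⟩
    rintro (x | i) (y | j) h
    exacts [h, key _ _ h, key _ _ h, h]
  · rintro ⟨M, h1, h2, hw⟩
    let cl : T → ℕ := fun x =>
      Sum.elim (fun _ => 0) (fun i : Fin (LL n).length => (LL n).getD i.val 0) (M (Sum.inl x))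
    have hcl : ∀ x i, M (Sum.inl x) = Sum.inr i → cl x = (LL n).getD i 0 := fun x i h => by
      simp only [cl, h, Sum.elim_inr]
    have hM : IsM (Ext E cl (LL n)) M := by
      refine ⟨h1.1, fun z hz => ?_⟩
      have k := h1.2 z hz
      have k' := h1.1 z
      rcases z with x | i <;> rcases h : M _ with y | j <;> rw [h] at k k'
      exacts [k, hcl _ _ h, hcl _ _ k', k]
    obtain ⟨m, k1, k2, k3⟩ := defi_of_ext hM h2
    have hx : ∀ x, m x = x → ∃ d, cd d = cl x ∧ Ad d x := fun x hx => by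
      rcases k3 x with ⟨h, -⟩ | ⟨-, i, h⟩
      · exact absurd hx h
      · have k := h1.2 _ (h2 (Sum.inl x))
        rw [h] at k
        rw [hcl x i h]
        exact k
    choose g hg hA using hx
    have hl : ∀ x d, (if h : m x = x then some (g x h) else none) = some d ↔
        cl x = cd d ∧ m x = x := fun x d => by
      by_cases h : m x = x
      · rw [dif_pos h, ← hg x h]
        exact ⟨fun e => ⟨by rw [Option.some_injective _ e], h⟩, fun e => by rw [cd_inj e.1]⟩
      · simp [h]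
    refine ⟨m, ⟨k1, fun x => if h : m x = x then some (g x h) else none, fun x => by simp,
      fun x d h => ?_, fun d => ?_⟩, by rwa [wt2_res ω k3] at hw⟩
    · obtain ⟨e, h'⟩ := (hl x d).1 h
      rw [← cd_inj ((hg x h').trans e)]
      exact hA x h'
    · rw [← count_LL_cd n d, ← k2, cnt_eq]
      congr 1
      exact filter_congr fun x _ => hl x d

end Ext

end DPSL

open DPSL in
theorem pfLabStmt : PFLabStmt := by
  intro γ _ T _ _ _ D _ E Ad n ω w hN hE hA hn hω hw sE sω h1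
  have hL : PF fun a => LL (n a) :=
    (pf_list (f := fun a d => List.replicate (n a d) (cd d))
      (fun d => (hn d).replicate (PF.const _)) _).flatten
  have hL' : PF fun a => Num.N (Fin (LL (n a)).length) := hL.length
  have k : PF fun p : Pt2 T (fun a => Fin (LL (n a)).length) =>
      AdN (Ad p.a.a) ((LL (n p.a.a)).getD p.x 0) p.a.x :=
    pf_exD fun d => pf_and (pf_eq (PF.const _) (PF.getD (hL.comp up2) px (PF.const 0)))
      ((hA d).comp up)
  refine pf_iff (pf_pmw (T := fun a => T a ⊕ Fin (LL (n a)).length)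
    (E := fun a => ExtP (E a) (AdN (Ad a)) (LL (n a))) (ω := fun a => omE (ω a))
    (pf_Nsum hN hL') ?_ ?_ hw ?_ ?_ ?_) fun a => lab_iff (ω a) (w a)
  · exact pf_cases2 (f := fun a => ExtP (E a) (AdN (Ad a)) (LL (n a))) hN hL' hE k
      (pf_swap (fun a x (i : Fin (LL (n a)).length) => AdN (Ad a) ((LL (n a)).getD i 0) x) k)
      (PF.const False)
  · exact pf_cases2 (f := fun a => omE (ω a)) hN hL' hω (PF.const 0) (PF.const 0) (PF.const 0)
  · rintro a (x | i) (y | j) h
    exacts [sE _ _ _ h, h, h, h]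
  · rintro a (x | i) (y | j)
    exacts [sω _ _ _, rfl, rfl, rfl]
  · rintro a (x | i) (y | j)
    exacts [h1 _ _ _, zero_le_one, zero_le_one, zero_le_one]

namespace DPSL

/-! ### The matching test as a labelled matching -/

section Math

variable {J V : Type} [Fintype J] [Fintype V] [DecidableEq J] [DecidableEq V]

open Classical in
/-- Weight one on the edges between an agent and an item of its list. -/
noncomputable def omL (S : Sub J V) : Nd J V → Nd J V → ℕ
  | Sum.inl j, Sum.inr (Sum.inl v) => if S.lst j v then 1 else 0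
  | Sum.inr (Sum.inl v), Sum.inl j => if S.lst j v then 1 else 0
  | _, _ => 0

/-- The nodes that may stay uncovered. -/
def Fre (P : Geo J V) (S : Sub J V) (e : ℕ) (ρ : Finset V) (X : Ax J V) : Nd J V → Prop
  | Sum.inl j => ¬ (j ∈ S.A ∧ (¬ P.rigid S e ρ j ∨ X.mc j))
  | Sum.inr (Sum.inl v) => ¬ (v ∈ S.W ∧ S.qm v)
  | Sum.inr (Sum.inr _) => True

omit [Fintype J] [Fintype V] [DecidableEq J] [DecidableEq V] in
theorem omL_symm (S : Sub J V) (x y : Nd J V) : omL S x y = omL S y x := by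
  rcases x with i | u | i <;> rcases y with j | v | j <;> rfl

omit [Fintype J] [Fintype V] [DecidableEq J] [DecidableEq V] in
theorem omL_le (S : Sub J V) (x y : Nd J V) : omL S x y ≤ 1 := by
  rcases x with i | u | i <;> rcases y with j | v | j <;> simp only [omL, zero_le] <;>
    split_ifs <;> simp

theorem wt2_omL (S : Sub J V) {m : Nd J V → Nd J V} (hm : ∀ x, m (m x) = x) :
    wt2 (omL S) m = 2 * cw S m := by
  classical
  unfold wt2
  rw [Fintype.sum_sum_type, Fintype.sum_sum_type]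
  have h1 : ∑ j : J, (if m (Sum.inl j) = Sum.inl j then 0 else omL S (Sum.inl j) (m (Sum.inl j))) =
      cnt fun j : J => ∃ v, m (ag j) = vx v ∧ S.lst j v := by
    rw [cnt_eq, card_filter]
    refine sum_congr rfl fun j _ => ?_
    rcases h : m (Sum.inl j) with i | v | i <;> simp [omL]
  have h2 : ∑ v : V, (if m (Sum.inr (Sum.inl v)) = Sum.inr (Sum.inl v) then 0 else
      omL S (Sum.inr (Sum.inl v)) (m (Sum.inr (Sum.inl v)))) =
      cnt fun v : V => ∃ j, m (vx v) = ag j ∧ S.lst j v := by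
    rw [cnt_eq, card_filter]
    refine sum_congr rfl fun v _ => ?_
    rcases h : m (Sum.inr (Sum.inl v)) with i | u | i <;> simp [omL]
  have h3 : ∑ j : J, (if m (Sum.inr (Sum.inr j)) = Sum.inr (Sum.inr j) then 0 else
      omL S (Sum.inr (Sum.inr j)) (m (Sum.inr (Sum.inr j)))) = 0 :=
    sum_eq_zero fun j _ => by split_ifs <;> rfl
  have h4 : (cnt fun v : V => ∃ j, m (vx v) = ag j ∧ S.lst j v) =
      cnt fun j : J => ∃ v, m (ag j) = vx v ∧ S.lst j v := by
    refine cnt_rel (fun v j => m (vx v) = ag j) ?_ ?_ ?_ ?_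
    · rintro v ⟨j, k1, k2⟩
      exact ⟨j, ⟨v, by rw [← k1, hm], k2⟩, k1⟩
    · rintro j ⟨v, k1, k2⟩
      have : m (vx v) = ag j := by rw [← k1, hm]
      exact ⟨v, ⟨j, this, k2⟩, this⟩
    · intro v v' j _ _ k1 k2
      simpa using Function.Involutive.injective hm (k1.trans k2.symm)
    · intro v j j' _ k1 k2
      simpa using k1.symm.trans k2
  have h5 : cw S m = cnt fun j : J => ∃ v, m (ag j) = vx v ∧ S.lst j v := by
    unfold cw cnt; congr
  rw [h1, h2, h3, h4, h5]
  omega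

theorem pass_iff (P : Geo J V) (S : Sub J V) (e : ℕ) (ρ : Finset V) (X : Ax J V) (l : ℕ) :
    P.Pass S e ρ X l ↔ ∃ m, Lab (P.En S e ρ X) (fun _ : Unit => Fre P S e ρ X)
      (fun _ => Fintype.card (Nd J V) - 2 * S.A.card) m ∧
        2 * (2 * S.A.card + l - S.W.card) ≤ wt2 (omL S) m := by
  classical
  refine exists_congr fun m => ?_
  have hA : 2 * S.A.card ≤ Fintype.card (Nd J V) := by
    have := card_le_univ S.A
    simp only [Fintype.card_sum]
    omega
  have hc : cov m + #{x | m x = x} = Fintype.card (Nd J V) := by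
    rw [cov, add_comm]
    exact card_filter_add_card_filter_not _
  constructor
  · rintro ⟨h1, h2, h3, h4⟩
    refine ⟨⟨h1, fun x => if m x = x then some () else none, fun x => by simp, fun x d h => ?_,
      fun d => ?_⟩, by rw [wt2_omL S h1.1]; omega⟩
    · have hx : m x = x := by
        by_contra h'
        simp [h'] at h
      rcases x with j | v | j
      · exact fun k => h4.1 j k.1 k.2 hx
      · exact fun k => h4.2 v k.1 k.2 hx
      · trivial
    · rw [← h2, ← hc, add_tsub_cancel_left]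
      congr 1
      ext x
      simp
  · rintro ⟨⟨h1, lab, k1, k2, k3⟩, h2⟩
    have hl : ∀ x, lab x = some () ↔ m x = x := fun x => by
      rw [← not_iff_not, ← ne_eq (m x), ← k1]
      rcases lab x with _ | _ <;> simp
    have k4 : #{x | m x = x} = Fintype.card (Nd J V) - 2 * S.A.card := by
      refine Eq.trans ?_ (k3 ())
      congr 1
      ext x
      simp [hl]
    rw [wt2_omL S h1.1] at h2
    exact ⟨h1, by omega, by omega, fun j a b c => k2 _ _ ((hl _).2 c) ⟨a, b⟩,
      fun v a b c => k2 _ _ ((hl _).2 c) ⟨a, b⟩⟩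

end Math

/-! ### The predicates of a frame -/

section Frames

variable {γ : Type} [Enc γ] {c : γ → CG} {S : ∀ a, Sub (Fin (c a).k) (Fin (c a).n)}
  {ρ : ∀ a, Finset (GV c a)} {e : ℕ}

/-- A polynomial-time family of options. -/
structure PAx (c : γ → CG) (X : ∀ a, Ax (Fin (c a).k) (Fin (c a).n)) : Prop where
  nc : PF fun a => (X a).nc
  pe : PF fun a => (X a).pe
  zs : PF fun p : Pt (GV c) => (X p.a).zs p.x
  mc : PF fun p : Pt (GJ c) => (X p.a).mc p.x

theorem pax_N : PAx c fun _ => axN _ _ :=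
  ⟨PF.const True, PF.const False, PF.const False, PF.const True⟩

theorem pax_C : PAx c fun _ => axC _ _ :=
  ⟨PF.const False, PF.const False, PF.const False, PF.const True⟩

theorem pax_W (hc : PF c) {s t : ∀ a, GJ c a × GV c a × GV c a} (hs : PF fun a => idx (s a))
    (ht : PF fun a => idx (t a)) : PAx c fun a => (c a).P.axW (s a) (t a) :=
  ⟨PF.const True, PF.const True,
    pf_and (pf_junk (hc.comp up) ((s2_1 hc hs).comp up) px)
      (pf_junk (hc.comp up) ((s2_1 hc ht).comp up) px),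
    pf_and (pf_junk (hc.comp up) px ((s2_3 hc hs).comp up))
      (pf_junk (hc.comp up) px ((s2_3 hc ht).comp up))⟩

variable (hc : PF c) (hρ : PSet ρ) {j : ∀ a, Fin (c a).k} {x y : ∀ a, Fin (c a).n}

include hc hρ

theorem pf_Indep : PF fun a => (c a).P.Indep (ρ a) :=
  pf_allMem (pf_Nn hc) hρ (pf_allMem (pf_Nn (hc.comp up)) (pset_up hρ)
    (pf_not (pf_HH (hc.comp up2) px1 px)))

theorem pf_Clq : PF fun a => (c a).P.Clq (ρ a) :=
  pf_allMem (pf_Nn hc) hρ (pf_allMem (pf_Nn (hc.comp up)) (pset_up hρ)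
    (pf_imp (pf_neT px1 px) (pf_HH (hc.comp up2) px1 px)))

theorem pf_Frame : PF fun a => (c a).P.Frame e (ρ a) :=
  pf_and (pf_eq (pf_card (pf_Nn hc) hρ) (PF.const _)) (pf_or (pf_Indep hc hρ) (pf_Clq hc hρ))

theorem pf_maj (hj : PF fun a => idx (j a)) (o : Bool) :
    PF fun a => (c a).P.maj e (ρ a) (j a) o :=
  pf_le (pf_cardF (pf_Nn hc) hρ (pf_not (pf_adj (hc.comp up) (hj.comp up) (PF.const o) px)))
    (PF.const e)

theorem pf_rig (hj : PF fun a => idx (j a)) (o : Bool) :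
    PF fun a => (c a).P.rig e (ρ a) (j a) o :=
  pf_and (pf_maj hc hρ hj o) (pf_not (pf_maj hc hρ hj (!o)))

theorem pf_flex (hj : PF fun a => idx (j a)) : PF fun a => (c a).P.flex e (ρ a) (j a) :=
  pf_and (pf_not (pf_maj hc hρ hj false)) (pf_not (pf_maj hc hρ hj true))

theorem pf_heavy (hx : PF fun a => idx (x a)) : PF fun a => (c a).P.heavy e (ρ a) (x a) :=
  pf_le (pf_cardF (pf_Nn hc) hρ (pf_not (pf_HH (hc.comp up) (hx.comp up) px))) (PF.const _)

theorem pf_Q0 (hx : PF fun a => idx (x a)) : PF fun a => (c a).P.Q0 e (ρ a) (x a) :=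
  pf_and (pf_Indep hc hρ) (pf_heavy hc hρ hx)

theorem pf_WitP {s : ∀ a, GJ c a × GV c a × GV c a} (hs : PF fun a => idx (s a)) :
    PF fun a => (c a).P.WitP e (ρ a) (s a) :=
  pf_exD fun o => pf_and (pf_rig hc hρ (s2_1 hc hs) o) (pf_and (pf_Q0 hc hρ (s2_2 hc hs))
    (pf_and (pf_col hc (s2_1 hc hs) (PF.const (!o)) (s2_2 hc hs))
      (pf_col hc (s2_1 hc hs) (PF.const o) (s2_3 hc hs))))

theorem pf_WitN {s : ∀ a, GJ c a × GV c a × GV c a} (hs : PF fun a => idx (s a)) :
    PF fun a => (c a).P.WitN e (ρ a) (s a) :=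
  pf_exD fun o => pf_and (pf_rig hc hρ (s2_1 hc hs) o)
    (pf_and (pf_col hc (s2_1 hc hs) (PF.const (!o)) (s2_3 hc hs))
      (pf_not (pf_heavy hc hρ (s2_3 hc hs))))

variable (hS : PSub c S)

include hS

theorem pf_rigid (hj : PF fun a => idx (j a)) : PF fun a => (c a).P.rigid (S a) e (ρ a) (j a) :=
  pf_and (pf_geo hS hj) (pf_exD fun o => pf_rig hc hρ hj o)

theorem pf_ncE (hj : PF fun a => idx (j a)) (hx : PF fun a => idx (x a)) :
    PF fun a => (c a).P.ncE (S a) e (ρ a) (j a) (x a) :=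
  pf_and (pf_geo hS hj) (pf_and (pf_exD fun o => pf_and (pf_rig hc hρ hj o)
    (pf_col hc hj (PF.const (!o)) hx)) (pf_and (pf_not (pf_heavy hc hρ hx))
      (pf_not (pf_qm hS hx))))

theorem pf_peE (hx : PF fun a => idx (x a)) (hy : PF fun a => idx (y a)) :
    PF fun a => (c a).P.peE (S a) e (ρ a) (x a) (y a) :=
  pf_and (pf_Q0 hc hρ hx) (pf_and (pf_not (pf_heavy hc hρ hy)) (pf_and (pf_not (pf_HH hc hx hy))
    (pf_and (pf_not (pf_qm hS hx)) (pf_not (pf_qm hS hy)))))

variable {X : ∀ a, Ax (Fin (c a).k) (Fin (c a).n)} (hX : PAx c X)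

include hX

theorem pf_En : PF fun p : Pt2 (GN c) (GN c) =>
    (c p.a.a).P.En (S p.a.a) e (ρ p.a.a) (X p.a.a) p.a.x p.x := by
  have h12 : PF fun p : Pt2 (GJ c) (GV c) =>
      (c p.a.a).P.En (S p.a.a) e (ρ p.a.a) (X p.a.a) (ag p.a.x) (vx p.x) :=
    pf_and (pf_mem (pset_up2 (psub_A hS)) px1) (pf_and (pf_mem (pset_up2 (psub_W hS)) px)
      (pf_or hS.lst (pf_and (hX.nc.comp up2)
        (pf_ncE (hc.comp up2) (pset_up2 hρ) (psub_comp hS up2) px1 px))))
  have h13 : PF fun p : Pt2 (GJ c) (GJ c) =>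
      (c p.a.a).P.En (S p.a.a) e (ρ p.a.a) (X p.a.a) (ag p.a.x) (dm p.x) :=
    pf_and (pf_eqT px1 px) (pf_and (pf_mem (pset_up2 (psub_A hS)) px1)
      (pf_and (pf_geo (psub_comp hS up2) px1) (pf_flex (hc.comp up2) (pset_up2 hρ) px1)))
  have hz : PF fun p : Pt2 (GV c) (GV c) =>
      (c p.a.a).P.peE (S p.a.a) e (ρ p.a.a) p.a.x p.x ∧ ¬ (X p.a.a).zs p.x :=
    pf_and (pf_peE (hc.comp up2) (pset_up2 hρ) (psub_comp hS up2) px1 px)
      (pf_not (pf_at (fun a v => (X a).zs v) hX.zs up2 px))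
  have h22 : PF fun p : Pt2 (GV c) (GV c) =>
      (c p.a.a).P.En (S p.a.a) e (ρ p.a.a) (X p.a.a) (vx p.a.x) (vx p.x) :=
    pf_and (pf_mem (pset_up2 (psub_W hS)) px1) (pf_and (pf_mem (pset_up2 (psub_W hS)) px)
      (pf_and (hX.pe.comp up2) (pf_or hz (pf_swap
        (fun a u v => (c a).P.peE (S a) e (ρ a) u v ∧ ¬ (X a).zs v) hz))))
  exact pf_node2 hc (fun a => (c a).P.En (S a) e (ρ a) (X a)) (PF.const False) h12 h13
    (pf_swap (fun a u v => (c a).P.En (S a) e (ρ a) (X a) (ag u) (vx v)) h12) h22 (PF.const False)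
    (pf_swap (fun a u v => (c a).P.En (S a) e (ρ a) (X a) (ag u) (dm v)) h13) (PF.const False)
    (PF.const False)

theorem pf_Pass {l : γ → ℕ} (hl : PF l) : PF fun a => (c a).P.Pass (S a) e (ρ a) (X a) (l a) := by
  classical
  have hA := pf_card (pf_Nk hc) (psub_A hS)
  have hW := pf_card (pf_Nn hc) (psub_W hS)
  have h12 : PF fun p : Pt2 (GJ c) (GV c) => omL (S p.a.a) (ag p.a.x) (vx p.x) :=
    pf_ite hS.lst (PF.const 1) (PF.const 0)
  refine pf_iff (pfLabStmt γ (GN c) Unit (fun a => (c a).P.En (S a) e (ρ a) (X a))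
    (fun a _ => Fre (c a).P (S a) e (ρ a) (X a)) (fun a _ => Num.N (GN c a) - 2 * (S a).A.card)
    (fun a => omL (S a)) (fun a => 2 * (2 * (S a).A.card + l a - (S a).W.card)) (pf_NN hc)
    (pf_En hc hρ hS hX) (fun _ => ?_) (fun _ => (pf_NN hc).sub ((PF.const 2).mul hA)) ?_
    ((PF.const 2).mul ((((PF.const 2).mul hA).add hl).sub hW)) (fun a x y h => ?_)
    (fun a => omL_symm _) fun a => omL_le _) fun a => ?_
  · exact pf_node hc (fun a => Fre (c a).P (S a) e (ρ a) (X a))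
      (pf_not (pf_and hS.A (pf_or
        (pf_not (pf_rigid (hc.comp up) (pset_up hρ) (psub_comp hS up) px)) hX.mc)))
      (pf_not (pf_and hS.W hS.qm)) (PF.const True)
  · exact pf_node2 hc (fun a => omL (S a)) (PF.const 0) h12 (PF.const 0)
      (pf_swap (fun a u v => omL (S a) (ag u) (vx v)) h12) (PF.const 0) (PF.const 0) (PF.const 0)
      (PF.const 0) (PF.const 0)
  · rcases x with i | u | i <;> rcases y with j | v | j
    exacts [h, h, h, h, ⟨h.2.1, h.1, h.2.2.1, h.2.2.2.symm⟩, h, h, h, h]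
  · rw [pass_iff, card_eq_N]

omit hX hρ in
theorem pf_SgOk {Γ : ∀ a, Finset (GJ c a × GV c a × GV c a)} (hΓ : PSet Γ) :
    PF fun a => (c a).P.SgOk (S a) (Γ a) := by
  have h1 := s2_1 (hc.comp (up (S := fun a => GJ c a × GV c a × GV c a))) px
  have h2 := s2_2 (hc.comp (up (S := fun a => GJ c a × GV c a × GV c a))) px
  have h3 := s2_3 (hc.comp (up (S := fun a => GJ c a × GV c a × GV c a))) px
  have hS' := psub_comp hS (up (S := fun a => GJ c a × GV c a × GV c a))
  exact pf_and (pf_allMem (pf_N2 hc) hΓ (pf_and (pf_mem (psub_A hS') h1) (pf_and (pf_geo hS' h1)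
    (pf_and (pf_mem (psub_W hS') h2) (pf_and (pf_mem (psub_W hS') h3)
      (pf_and (pf_Pr (hc.comp up) h1 h2 h3) (pf_and (pf_not (pf_qm hS' h2))
        (pf_not (pf_qm hS' h3))))))))) (pf_Dis2 hc hΓ)

omit hX in
theorem pf_modes {l : γ → ℕ} (hl : PF l) {Γ : ∀ a, Finset (GJ c a × GV c a × GV c a)}
    (hΓ : PSet Γ) : PF fun a =>
      (∃ s1 ∈ Γ a, ∃ s2 ∈ Γ a, s1 ≠ s2 ∧ (c a).P.WitP e (ρ a) s1 ∧ (c a).P.WitP e (ρ a) s2 ∧
        (c a).P.Pass ((S a).rem (ag2 (Γ a)) (it2 (Γ a))) e (ρ a) ((c a).P.axW s1 s2) (l a)) ∨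
      (∃ s1 ∈ Γ a, ∃ s2 ∈ Γ a, s1 ≠ s2 ∧ (c a).P.WitN e (ρ a) s1 ∧ (c a).P.WitN e (ρ a) s2 ∧
        (c a).P.Pass ((S a).rem (ag2 (Γ a)) (it2 (Γ a))) e (ρ a) (axN _ _) (l a)) ∨
      (c a).P.Pass ((S a).rem (ag2 (Γ a)) (it2 (Γ a))) e (ρ a) (axC _ _) (l a) := by
  have hR := psub_rem hS (pset_ag2 hc hΓ) (pset_it2 hc hΓ)
  refine pf_or (pf_exMem (pf_N2 hc) hΓ (pf_exMem (pf_N2 (hc.comp up)) (pset_up hΓ) ?_))
    (pf_or (pf_exMem (pf_N2 hc) hΓ (pf_exMem (pf_N2 (hc.comp up)) (pset_up hΓ) ?_))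
      (pf_Pass hc hρ hR pax_C hl))
  · exact pf_and (pf_neT px1 px) (pf_and (pf_WitP (hc.comp up2) (pset_up2 hρ) px1)
      (pf_and (pf_WitP (hc.comp up2) (pset_up2 hρ) px) (pf_Pass (hc.comp up2) (pset_up2 hρ)
        (psub_comp hR up2) (pax_W (hc.comp up2) px1 px) (hl.comp up2))))
  · exact pf_and (pf_neT px1 px) (pf_and (pf_WitN (hc.comp up2) (pset_up2 hρ) px1)
      (pf_and (pf_WitN (hc.comp up2) (pset_up2 hρ) px)
        ((pf_Pass hc hρ hR pax_N hl).comp up2)))

omit hX in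
theorem pf_TestF {l : γ → ℕ} (hl : PF l) : PF fun a => (c a).P.TestF (S a) e (l a) (ρ a) :=
  pf_exSet 5 (pf_N2 hc) fun _ _ _ _ hg hΓ =>
    pf_and (pf_SgOk (hc.comp hg) (psub_comp hS hg) hΓ)
      (pf_modes (hc.comp hg) (pset_comp hρ hg) (psub_comp hS hg) (hl.comp hg) hΓ)

omit hX hρ in
theorem pf_Test1 {l : γ → ℕ} (hl : PF l) : PF fun a => (c a).P.Test1 (S a) e (l a) :=
  pf_iff (pf_allSet (6 * e + 6) (pf_Nn hc)
    (q := fun a Z => (c a).P.Frame e Z → (c a).P.TestF (S a) e (l a) Z) fun _ _ _ _ hg hZ =>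
      pf_imp (pf_Frame (hc.comp hg) hZ) (pf_TestF (hc.comp hg) hZ (psub_comp hS hg) (hl.comp hg)))
    fun _ => ⟨fun h Z _ => h Z, fun h Z hZ => h Z hZ.1.le hZ⟩

end Frames

end DPSL

open DPSL in
theorem pfSLStmt : PFSLStmt := by
  intro e γ _ c S l hc hS hl
  refine pf_and (pf_Pass hc pset_empty (psub_lev hS (R := fun _ _ => False) (PF.const False))
    pax_C hl) (pf_allMem (pf_Nk hc) (psub_A hS) ?_)
  exact pf_Test1 (hc.comp up) (psub_lev (psub_comp hS up)
    (R := fun (p : Pt (GJ c)) j => j.val ≤ p.x.val) (pf_le px px1)) (hl.comp up)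

end Pool.Agent.Lib.MP_ef7581_lc.D2
end

-- part Pool.Agent.Lib.MP_ef7581_lc.DRed
section

/-!
Reduction of Disjoint Paths on (2P1+P2)-free graphs to the abstract problem; the decider.
-/

set_option autoImplicit false

namespace Pool.Agent.Lib.MP_ef7581_lc.D2

open Pool.Agent.Shared.PolyTime Finset SimpleGraph

namespace DRed

/-! ### Short walks -/

section Walks

variable {W : Type} {G : SimpleGraph W}

/-- Equal or adjacent. -/
def st (G : SimpleGraph W) (a b : W) : Prop := a = b ∨ G.Adj a b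

theorem st.symm {a b : W} (h : st G a b) : st G b a := h.imp Eq.symm Adj.symm

/-- An edge and two further vertices always span another edge. -/
def NoDia (G : SimpleGraph W) : Prop :=
  ∀ a b c d, G.Adj a b → ¬ st G c a → ¬ st G c b → ¬ st G d a → ¬ st G d b → st G c d

theorem noDia_of_free {n : ℕ} {G : SimpleGraph (Fin n)} (h : IsEmpty (twoP1P2 ↪g G)) :
    NoDia G := by
  intro a b c d hab h1 h2 h3 h4
  by_contra h5
  simp only [st, not_or] at h1 h2 h3 h4 h5
  have hba := hab.symm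
  have hne := hab.ne
  have b1 : ¬ G.Adj a c := fun h => h1.2 h.symm
  have b2 : ¬ G.Adj b c := fun h => h2.2 h.symm
  have b3 : ¬ G.Adj a d := fun h => h3.2 h.symm
  have b4 : ¬ G.Adj b d := fun h => h4.2 h.symm
  have b5 : ¬ G.Adj d c := fun h => h5.2 h.symm
  obtain ⟨c1, c2⟩ := h1
  obtain ⟨c3, c4⟩ := h2
  obtain ⟨c5, c6⟩ := h3
  obtain ⟨c7, c8⟩ := h4
  obtain ⟨c9, c10⟩ := h5
  refine h.false ⟨⟨![a, b, c, d], fun i j h => ?_⟩, fun {i j} => ?_⟩
  · fin_cases i <;> fin_cases j <;> simp_all [eq_comm]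
  · fin_cases i <;> fin_cases j <;> simp [twoP1P2, *]

/-- At most four steps inside `X`. -/
def L4 (G : SimpleGraph W) (X : W → Prop) (a b : W) : Prop :=
  ∃ x y z, X x ∧ X y ∧ X z ∧ st G a x ∧ st G x y ∧ st G y z ∧ st G z b

theorem l4_of_walk (hG : NoDia G) {X : W → Prop} {a b : W} (w : G.Walk a b)
    (hw : ∀ v ∈ w.support, X v) : L4 G X a b := by
  induction w with
  | @nil a =>
    have := hw a (by simp)
    exact ⟨a, a, a, this, this, this, .inl rfl, .inl rfl, .inl rfl, .inl rfl⟩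
  | @cons a c b h w ih =>
    have ha := hw a (by simp)
    have hc := hw c (by simp)
    obtain ⟨x, y, z, hx, hy, hz, s1, s2, s3, s4⟩ := ih fun v hv => hw v (by simp [hv])
    rcases s4 with rfl | s4
    · exact ⟨c, x, y, hc, hx, hy, .inr h, s1, s2, s3⟩
    by_cases k1 : st G a z
    · exact ⟨z, z, z, hz, hz, hz, k1, .inl rfl, .inl rfl, .inr s4⟩
    by_cases k2 : st G a b
    · exact ⟨a, a, a, ha, ha, ha, .inl rfl, .inl rfl, .inl rfl, k2⟩
    by_cases k3 : st G x z
    · exact ⟨c, x, z, hc, hx, hz, .inr h, s1, k3, .inr s4⟩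
    by_cases k4 : st G x b
    · exact ⟨c, x, x, hc, hx, hx, .inr h, s1, .inl rfl, k4⟩
    exact ⟨x, y, z, hx, hy, hz, hG z b a x s4 k1 k2 k3 k4, s2, s3, .inr s4⟩

theorem short_of_l4 {X : W → Prop} {s t : W} (hst : ¬ st G s t) (h : L4 G X s t) :
    ∃ x y z, X x ∧ X y ∧ X z ∧ G.Adj s x ∧ st G x y ∧ st G y z ∧ G.Adj z t ∧ y ≠ s ∧ y ≠ t := by
  obtain ⟨x, y, z, hx, hy, hz, s1, s2, s3, s4⟩ := h
  have mid : ∀ v, X v → st G s v → st G v t →
      ∃ x y z, X x ∧ X y ∧ X z ∧ G.Adj s x ∧ st G x y ∧ st G y z ∧ G.Adj z t ∧ y ≠ s ∧ y ≠ t := by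
    intro v hv a b
    have a' : G.Adj s v := a.resolve_left fun e => hst (e ▸ b)
    have b' : G.Adj v t := b.resolve_left fun e => hst (e ▸ a)
    exact ⟨v, v, v, hv, hv, hv, a', .inl rfl, .inl rfl, b', a'.ne', b'.ne⟩
  by_cases h1 : y = s
  · exact mid z hz (h1 ▸ s3) s4
  by_cases h2 : y = t
  · exact mid x hx s1 (h2 ▸ s2)
  obtain ⟨x', a1, a2, a3⟩ : ∃ x', X x' ∧ G.Adj s x' ∧ st G x' y := by
    rcases s1 with rfl | s1
    · exact ⟨y, hy, s2.resolve_left (Ne.symm h1), .inl rfl⟩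
    · exact ⟨x, hx, s1, s2⟩
  obtain ⟨z', b1, b2, b3⟩ : ∃ z', X z' ∧ G.Adj z' t ∧ st G y z' := by
    rcases s4 with rfl | s4
    · exact ⟨y, hy, s3.resolve_left h2, .inl rfl⟩
    · exact ⟨z, hz, s4, s3⟩
  exact ⟨x', y, z', a1, hy, b1, a2, a3, b3, b2, h1, h2⟩

theorem walk_of_short {X : W → Prop} {s t x y z : W} (hs : X s) (ht : X t) (hx : X x) (hy : X y)
    (hz : X z) (s1 : st G s x) (s2 : st G x y) (s3 : st G y z) (s4 : st G z t) :
    ∃ w : G.Walk s t, ∀ v ∈ w.support, X v := by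
  have step : ∀ a b c, X a → st G a b → (∃ w : G.Walk b c, ∀ v ∈ w.support, X v) →
      ∃ w : G.Walk a c, ∀ v ∈ w.support, X v := by
    rintro a b c ha (rfl | h) ⟨w, hw⟩
    · exact ⟨w, hw⟩
    · refine ⟨Walk.cons h w, fun v hv => ?_⟩
      rw [Walk.support_cons, List.mem_cons] at hv
      exact hv.elim (fun e => e ▸ ha) (hw v)
  exact step _ _ _ hs s1 (step _ _ _ hx s2 (step _ _ _ hy s3 (step _ _ _ hz s4
    ⟨Walk.nil, fun v hv => by simpa using (show v = t by simpa using hv) ▸ ht⟩)))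

end Walks

/-! ### The abstract problem of an instance -/

abbrev I2 : Type := InstH twoP1P2

theorem s_inj {I : I2} {i j : Fin I.k} (h : I.s i = I.s j) : i = j :=
  Sum.inl_injective (I.distinct (a₁ := Sum.inl i) (a₂ := Sum.inl j) h)

theorem t_inj {I : I2} {i j : Fin I.k} (h : I.t i = I.t j) : i = j :=
  Sum.inr_injective (I.distinct (a₁ := Sum.inr i) (a₂ := Sum.inr j) h)

theorem s_ne_t (I : I2) (i j : Fin I.k) : I.s i ≠ I.t j := fun h =>
  Sum.inl_ne_inr (I.distinct (a₁ := Sum.inl i) (a₂ := Sum.inr j) h)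

/-- Enumerations of the non-adjacent terminal pairs and of the non-terminals. -/
structure Enum (I : I2) (J V : Type) where
  ι : J → Fin I.k
  κ : V → Fin I.n
  ι_inj : Function.Injective ι
  κ_inj : Function.Injective κ
  ι_range : ∀ i, (∃ j, ι j = i) ↔ ¬ I.G.Adj (I.s i) (I.t i)
  κ_range : ∀ v, (∃ u, κ u = v) ↔ ∀ i, v ≠ I.s i ∧ v ≠ I.t i

namespace Enum

variable {I : I2} {J V : Type} (e : Enum I J V)

theorem nonadj (j : J) : ¬ I.G.Adj (I.s (e.ι j)) (I.t (e.ι j)) := (e.ι_range _).1 ⟨j, rfl⟩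

theorem nonterm (u : V) (i : Fin I.k) : e.κ u ≠ I.s i ∧ e.κ u ≠ I.t i :=
  (e.κ_range _).1 ⟨u, rfl⟩ i

/-- The vertex of an item or a terminal. -/
def emb : V ⊕ J × Bool → Fin I.n
  | Sum.inl v => e.κ v
  | Sum.inr (j, false) => I.s (e.ι j)
  | Sum.inr (j, true) => I.t (e.ι j)

theorem emb_inj : Function.Injective e.emb := by
  rintro (u | ⟨i, _ | _⟩) (v | ⟨j, _ | _⟩) h
  · exact congrArg _ (e.κ_inj h)
  · exact absurd h (e.nonterm _ _).1
  · exact absurd h (e.nonterm _ _).2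
  · exact absurd h.symm (e.nonterm _ _).1
  · rw [e.ι_inj (s_inj h)]
  · exact absurd h (s_ne_t I _ _)
  · exact absurd h.symm (e.nonterm _ _).2
  · exact absurd h.symm (s_ne_t I _ _)
  · rw [e.ι_inj (t_inj h)]

/-- The complement graph on items and terminals. -/
def geo : Geo J V where
  H u v := ¬ st I.G (e.emb u) (e.emb v)
  symm _ _ h h' := h h'.symm
  irrefl _ h := h (.inl rfl)
  dia _ _ _ _ h1 h2 h3 h4 h5 hxy h :=
    h1 (noDia_of_free I.free _ _ _ _ (h.resolve_left (e.emb_inj.ne hxy)) h2 h4 h3 h5)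
  st j h := h.elim (s_ne_t I _ _) (e.nonadj j)

theorem adj_iff {j : J} {o : Bool} {x : V} :
    e.geo.adj j o x ↔ ¬ I.G.Adj (e.emb (Sum.inr (j, o))) (e.κ x) :=
  not_congr (or_iff_right (e.emb_inj.ne (a₂ := Sum.inl x) Sum.inr_ne_inl))

theorem not_adj {j : J} {o : Bool} {x : V} :
    ¬ e.geo.adj j o x ↔ I.G.Adj (e.emb (Sum.inr (j, o))) (e.κ x) := by
  rw [adj_iff, not_not]

theorem not_HH {x y : V} : ¬ e.geo.HH x y ↔ st I.G (e.κ x) (e.κ y) := not_not

variable [Fintype J] [Fintype V] [DecidableEq J] [DecidableEq V]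

omit [DecidableEq J] in
theorem feas_of_yes (h : I.Yes) : e.geo.Feas := by
  classical
  obtain ⟨p, hp⟩ := h
  have hd : ∀ i j : J, i ≠ j → Disjoint (univ.filter fun u => e.κ u ∈ (p (e.ι i)).1.support)
      (univ.filter fun u => e.κ u ∈ (p (e.ι j)).1.support) := fun i j hij => by
    rw [Finset.disjoint_left]
    intro u h1 h2
    exact hp _ _ (e.ι_inj.ne hij) _ (mem_filter.1 h1).2 (mem_filter.1 h2).2
  refine ⟨fun j => univ.filter fun u => e.κ u ∈ (p (e.ι j)).1.support,
    ⟨subset_rfl, fun _ _ => subset_univ _, fun j _ => ?_, fun i _ j _ => hd i j,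
      fun _ _ h => h.elim⟩, ?_⟩
  · have inner : ∀ y ∈ (p (e.ι j)).1.support, y ≠ I.s (e.ι j) → y ≠ I.t (e.ι j) →
        ∃ u, e.κ u = y := by
      intro y hy h1 h2
      refine (e.κ_range y).2 fun i => ?_
      by_cases hi : e.ι j = i
      · exact hi ▸ ⟨h1, h2⟩
      · exact ⟨fun h => hp _ _ hi y hy (by rw [h]; exact Walk.start_mem_support _),
          fun h => hp _ _ hi y hy (by rw [h]; exact Walk.end_mem_support _)⟩
    obtain ⟨x, y, z, hx, hy, hz, s1, s2, s3, s4, n1, n2⟩ := short_of_l4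
      (fun h => h.elim (s_ne_t I _ _) (e.nonadj j))
      (l4_of_walk (noDia_of_free I.free) (p (e.ι j)).1 fun v hv => hv)
    obtain ⟨a, rfl⟩ := inner x hx s1.ne' fun h => e.nonadj j (h ▸ s1)
    obtain ⟨m, rfl⟩ := inner y hy n1 n2
    obtain ⟨b, rfl⟩ := inner z hz (fun h => e.nonadj j (h ▸ s4)) s4.ne
    have mem : ∀ u, e.κ u ∈ (p (e.ι j)).1.support →
        u ∈ univ.filter fun u => e.κ u ∈ (p (e.ι j)).1.support :=
      fun u hu => mem_filter.2 ⟨mem_univ u, hu⟩
    have ha := mem a hx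
    have hm := mem m hy
    have hb := mem b hz
    have c1 : ¬ e.geo.adj j false a := e.not_adj.2 s1
    have c2 : ¬ e.geo.adj j (!false) b := e.not_adj.2 s4.symm
    by_cases k1 : a = m
    · subst k1
      by_cases k2 : a = b
      · subst k2
        exact .inl (.inl ⟨a, ha, c1, c2⟩)
      · exact .inl (.inr ⟨trivial, a, ha, b, hb, k2, e.not_HH.2 s3, false, c1, c2⟩)
    by_cases k2 : m = b
    · subst k2
      exact .inl (.inr ⟨trivial, a, ha, m, hm, k1, e.not_HH.2 s2, false, c1, c2⟩)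
    · exact .inr ⟨trivial, a, ha, m, hm, b, hb, k1, k2, e.not_HH.2 s2, e.not_HH.2 s3, false, c1, c2⟩
  · change ∑ j ∈ univ, _ ≤ #(univ : Finset V)
    rw [← card_biUnion fun i _ j _ => hd i j]
    exact card_le_card (subset_univ _)

omit [DecidableEq J] [DecidableEq V] in
theorem yes_of_feas (h : e.geo.Feas) : I.Yes := by
  classical
  obtain ⟨f, hf, -⟩ := h
  let Own : Fin I.k → Fin I.n → Prop := fun i v =>
    v = I.s i ∨ v = I.t i ∨ ∃ j, e.ι j = i ∧ ∃ u ∈ f j, e.κ u = v
  have uniq : ∀ i i' v, Own i v → Own i' v → i = i' := by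
    rintro i i' v (rfl | rfl | ⟨j, rfl, u, hu, rfl⟩) (h | h | ⟨j', rfl, u', hu', h⟩)
    · exact s_inj h
    · exact absurd h (s_ne_t I _ _)
    · exact absurd h (e.nonterm _ _).1
    · exact absurd h.symm (s_ne_t I _ _)
    · exact t_inj h
    · exact absurd h (e.nonterm _ _).2
    · exact absurd h (e.nonterm _ _).1
    · exact absurd h (e.nonterm _ _).2
    · by_contra hne
      exact Finset.disjoint_left.1 (hf.dis j (mem_univ _) j' (mem_univ _) fun h => hne (h ▸ rfl))
        hu (e.κ_inj h ▸ hu')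
  have : ∀ i, ∃ w : I.G.Walk (I.s i) (I.t i), ∀ v ∈ w.support, Own i v := fun i => by
    have o1 : Own i (I.s i) := .inl rfl
    have o2 : Own i (I.t i) := .inr (.inl rfl)
    by_cases hi : I.G.Adj (I.s i) (I.t i)
    · exact walk_of_short o1 o2 o1 o1 o1 (.inl rfl) (.inl rfl) (.inl rfl) (.inr hi)
    obtain ⟨j, rfl⟩ := (e.ι_range i).2 hi
    have o3 : ∀ u ∈ f j, Own (e.ι j) (e.κ u) := fun u hu => .inr (.inr ⟨j, rfl, u, hu, rfl⟩)
    have key : ∀ a ∈ f j, ∀ z ∈ f j, ∀ b ∈ f j, ¬ e.geo.HH a z → ¬ e.geo.HH z b →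
        (∃ o, ¬ e.geo.adj j o a ∧ ¬ e.geo.adj j (!o) b) →
        ∃ w : I.G.Walk (I.s (e.ι j)) (I.t (e.ι j)), ∀ v ∈ w.support, Own (e.ι j) v := by
      rintro a ha z hz b hb h1 h2 ⟨_ | _, h3, h4⟩
      · exact walk_of_short o1 o2 (o3 a ha) (o3 z hz) (o3 b hb) (.inr (e.not_adj.1 h3))
          (e.not_HH.1 h1) (e.not_HH.1 h2) (.inr (e.not_adj.1 h4).symm)
      · exact walk_of_short o1 o2 (o3 b hb) (o3 z hz) (o3 a ha) (.inr (e.not_adj.1 h4))
          (e.not_HH.1 h2).symm (e.not_HH.1 h1).symm (.inr (e.not_adj.1 h3).symm)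
    rcases hf.srv j (mem_univ _) with (⟨v, hv, h⟩ | ⟨-, a, ha, b, hb, -, h1, h2⟩) |
      ⟨-, a, ha, z, hz, b, hb, -, -, h1, h2, h3⟩
    · exact key v hv v hv v hv (e.geo.irrefl _) (e.geo.irrefl _) ⟨false, h⟩
    · exact key a ha a ha b hb (e.geo.irrefl _) h1 h2
    · exact key a ha z hz b hb h1 h2 h3
  choose w hw using this
  exact ⟨fun i => (w i).toPath, fun i j hij v h1 h2 => hij (uniq i j v
    (hw i v (Walk.support_toPath_subset_support _ h1))
    (hw j v (Walk.support_toPath_subset_support _ h2)))⟩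

end Enum

/-! ### Polynomial time -/

section Sel

variable {T : Type} [Num T]

open Classical in
/-- The list of the elements with property `q`. -/
noncomputable def selL (q : T → Prop) : List T := (tabT fun x => x).filter fun x => decide (q x)

theorem mem_selL {q : T → Prop} {x : T} : x ∈ selL q ↔ q x := by
  have : x ∈ tabT fun x : T => x := List.mem_map.2 ⟨Num.e x, List.mem_finRange _, by simp⟩
  simp [selL, this]

theorem get_selL_inj (q : T → Prop) : Function.Injective (selL q).get :=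
  List.nodup_iff_injective_get.1 (((List.nodup_finRange _).map Num.e.symm.injective).filter _)

theorem get_selL_range (q : T → Prop) (x : T) : (∃ i, (selL q).get i = x) ↔ q x := by
  rw [← List.mem_iff_get, mem_selL]

end Sel

section Fam

variable {γ : Type} [Enc γ] {T : γ → Type} [∀ a, Num (T a)] {q : ∀ a, T a → Prop}

theorem pf_selL (hN : PF fun a => Num.N (T a)) (hq : PF fun p : Pt T => q p.a p.x) :
    PF fun a => (selL (q a)).map idx := by
  classical
  have h : PF fun p : Pt T => if q p.a p.x then [idx p.x] else [] :=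
    pf_ite hq (PF.cons (pt_x PF.id') (PF.const [])) (PF.const [])
  refine (pf_tabT (f := fun a x => if q a x then [idx x] else []) hN h).flatten.of_eq fun a => ?_
  unfold selL tabT
  generalize List.finRange _ = l
  induction l with
  | nil => rfl
  | cons i l ih => by_cases k : q a (Num.e.symm i) <;> simp [k, ih]

theorem pf_selN (hN : PF fun a => Num.N (T a)) (hq : PF fun p : Pt T => q p.a p.x) :
    PF fun a => (selL (q a)).length := (pf_selL hN hq).length.of_eq fun _ => List.length_map _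

theorem pf_selGet (hN : PF fun a => Num.N (T a)) (hq : PF fun p : Pt T => q p.a p.x)
    {δ : Type} [Enc δ] {g : δ → γ} (hg : PF g) {i : ∀ c, Fin (selL (q (g c))).length}
    (hi : PF fun c => idx (i c)) : PF fun c => idx ((selL (q (g c))).get (i c)) :=
  (PF.getD ((pf_selL hN hq).comp hg) hi (PF.const 0)).of_eq fun c => by
    rw [List.getD_eq_getElem _ _ (by simp [idx_fin])]
    simp [idx_fin]

end Fam

noncomputable instance encI2 : Enc I2 := ⟨InstH.code⟩

theorem encList_map {α β : Type} (e : β → List Bool) (f : α → β) (l : List α) :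
    encList e (l.map f) = encList (fun a => e (f a)) l := by
  induction l with
  | nil => rfl
  | cons a l ih => simp [encList, ih]

theorem pf_data : PF fun I : I2 =>
    (Shared.PolyTime.adjMatrix I.G, tabT fun i : Fin I.k => ((I.s i).val, (I.t i).val)) :=
  ⟨fun x => x, PT.var 0, fun I => by
    change I.code = encPair _ (encList _ (List.map _ _))
    rw [encList_map]
    rfl⟩

theorem pf_In : PF fun I : I2 => I.n := pf_data.fst.length.of_eq fun I => by
  simp [Shared.PolyTime.adjMatrix]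
theorem pf_Ik : PF fun I : I2 => I.k :=
  pf_data.snd.length.of_eq fun I => by simp only [length_tabT, N_fin]

section

variable {γ : Type} [Enc γ] {g : γ → I2} (hg : PF g)

include hg

theorem pf_Adj {u v : ∀ a, Fin (g a).n} (hu : PF fun a => idx (u a)) (hv : PF fun a => idx (v a)) :
    PF fun a => (g a).G.Adj (u a) (v a) :=
  pf_ofBool (PF.entry (pf_data.fst.comp hg) hu hv) fun a => by
    simp [entry_adjMatrix, idx_fin]

theorem pf_s {i : ∀ a, Fin (g a).k} (hi : PF fun a => idx (i a)) :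
    PF fun a => idx ((g a).s (i a)) :=
  (PF.getD (pf_data.snd.comp hg) hi (PF.const (0, 0))).fst.of_eq fun a => by
    rw [getD_tabT]; rfl

theorem pf_t {i : ∀ a, Fin (g a).k} (hi : PF fun a => idx (i a)) :
    PF fun a => idx ((g a).t (i a)) :=
  (PF.getD (pf_data.snd.comp hg) hi (PF.const (0, 0))).snd.of_eq fun a => by
    rw [getD_tabT]; rfl

theorem pf_nst {u v : ∀ a, Fin (g a).n} (hu : PF fun a => idx (u a)) (hv : PF fun a => idx (v a)) :
    PF fun a => ¬ st (g a).G (u a) (v a) :=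
  pf_not (pf_or (pf_eqT hu hv) (pf_Adj hg hu hv))

end

/-- Non-adjacent terminal pairs. -/
def qJ (I : I2) (i : Fin I.k) : Prop := ¬ I.G.Adj (I.s i) (I.t i)

/-- Non-terminals. -/
def qV (I : I2) (v : Fin I.n) : Prop := ∀ i, v ≠ I.s i ∧ v ≠ I.t i

/-- The enumeration by lists. -/
noncomputable def enumL (I : I2) :
    Enum I (Fin (selL (qJ I)).length) (Fin (selL (qV I)).length) where
  ι := (selL (qJ I)).get
  κ := (selL (qV I)).get
  ι_inj := get_selL_inj _
  κ_inj := get_selL_inj _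
  ι_range := get_selL_range _
  κ_range := get_selL_range _

/-- The coded abstract problem of an instance. -/
noncomputable def toCG (I : I2) : CG := ⟨_, _, (enumL I).geo⟩

theorem pf_qJ : PF fun p : Pt fun I : I2 => Fin I.k => qJ p.a p.x :=
  pf_not (pf_Adj (pt_a PF.id') (pf_s (pt_a PF.id') (pt_x PF.id'))
    (pf_t (pt_a PF.id') (pt_x PF.id')))

theorem pf_qV : PF fun p : Pt fun I : I2 => Fin I.n => qV p.a p.x :=
  pf_all (pf_Ik.comp (pt_a PF.id')) (pf_and
    (pf_neT (pt_x (pt_a PF.id')) (pf_s (pt_a (pt_a PF.id')) (pt_x PF.id')))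
    (pf_neT (pt_x (pt_a PF.id')) (pf_t (pt_a (pt_a PF.id')) (pt_x PF.id'))))

theorem pf_toCG : PF toCG := by
  have hk : PF fun I : I2 => (selL (qJ I)).length := pf_selN pf_Ik pf_qJ
  have hn : PF fun I : I2 => (selL (qV I)).length := pf_selN pf_In pf_qV
  have h1 : PF fun p : Pt2 (GV toCG) (GV toCG) => (toCG p.a.a).P.HH p.a.x p.x :=
    pf_nst (pt_a (pt_a PF.id'))
      (pf_selGet pf_In pf_qV (pt_a (pt_a PF.id')) (pt_x (pt_a PF.id')))
      (pf_selGet pf_In pf_qV (pt_a (pt_a PF.id')) (pt_x PF.id'))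
  have a : PF fun p : Pt2 (GJ toCG) (GV toCG) => p.a.a := pt_a (pt_a PF.id')
  have b := pf_selGet pf_Ik pf_qJ a (pt_x (pt_a PF.id'))
  have d := pf_selGet pf_In pf_qV a (pt_x PF.id')
  have h2 : PF fun p : Pt2 (GJ toCG) (GV toCG) => (toCG p.a.a).P.adj p.a.x false p.x :=
    pf_nst a (pf_s a b) d
  have h3 : PF fun p : Pt2 (GJ toCG) (GV toCG) => (toCG p.a.a).P.adj p.a.x true p.x :=
    pf_nst a (pf_t a b) d
  have h : PF fun I => (toCG I).code := hk.pair (hn.pair (PF.pair
    (pf_tabT (f := fun (I : I2) u => tabT fun v => (toCG I).P.HH u v) hn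
      (pf_tabT (f := fun (p : Pt (GV toCG)) v => (toCG p.a).P.HH p.x v)
        (hn.comp (pt_a PF.id')) h1)) (PF.pair
    (pf_tabT (f := fun (I : I2) j => tabT fun v => (toCG I).P.adj j false v) hk
      (pf_tabT (f := fun (p : Pt (GJ toCG)) v => (toCG p.a).P.adj p.x false v)
        (hn.comp (pt_a PF.id')) h2))
    (pf_tabT (f := fun (I : I2) j => tabT fun v => (toCG I).P.adj j true v) hk
      (pf_tabT (f := fun (p : Pt (GJ toCG)) v => (toCG p.a).P.adj p.x true v)
        (hn.comp (pt_a PF.id')) h3)))))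
  exact h

/-- A graph without three independent vertices has no induced 2P1+P2. -/
def lift3 (I : InstH (⊥ : SimpleGraph (Fin 3))) : I2 where
  n := I.n
  G := I.G
  k := I.k
  s := I.s
  t := I.t
  distinct := I.distinct
  free := ⟨fun f => I.free.false (f.comp ⟨Fin.succEmb 3, by
    intro a b
    fin_cases a <;> fin_cases b <;> simp [twoP1P2]⟩)⟩

end DRed

theorem redStmt : RedStmt :=
  ⟨DRed.toCG, DRed.pf_toCG, fun I =>
    ⟨(DRed.enumL I).feas_of_yes, (DRed.enumL I).yes_of_feas⟩⟩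

theorem finalStmt (h1 : RedStmt) (h2 : MainStmt) (h3 : PFUStmt) (h4 : PFRStmt) :
    DPinP (⊥ : SimpleGraph (Fin 3)) ∧ DPinP twoP1P2 := by
  classical
  obtain ⟨toCG, hpf, hiff⟩ := h1
  obtain ⟨e, c, t0, c1, L, hm⟩ := h2
  have hC : PF fun I : DRed.I2 => decide ((toCG I).P.Char Fin.val e c t0 c1 L) :=
    pf_toBool (p := fun I : DRed.I2 => (toCG I).P.Char Fin.val e c t0 c1 L)
      ((pf_or (h3 e c L) (h4 e c t0 c1 L)).comp (g := toCG) hpf)
  have hy : ∀ I : DRed.I2, decide ((toCG I).P.Char Fin.val e c t0 c1 L) = true ↔ I.Yes :=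
    fun I => by rw [decide_eq_true_iff, hiff, hm _ _ _ _ Fin.val_injective]
  exact ⟨⟨fun I => decide ((toCG (DRed.lift3 I)).P.Char Fin.val e c t0 c1 L),
      PF.tm2 hC InstH.code (fun b : Bool => [b]) _ DRed.lift3 (fun _ => rfl) (fun _ => rfl),
      fun I => hy (DRed.lift3 I)⟩,
    ⟨fun I => decide ((toCG I).P.Char Fin.val e c t0 c1 L),
      PF.tm2 hC InstH.code (fun b : Bool => [b]) _ id (fun _ => rfl) (fun _ => rfl), hy⟩⟩

end Pool.Agent.Lib.MP_ef7581_lc.D2
end
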