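import Mathlib
import Pool.Agent.Lib.MP_ef7581_lc.DComp

/-!
The absorbing case: absorption of free items, soundness and necessity of the test.
-/

set_option autoImplicit false
set_option linter.unusedSectionVars false

namespace Pool.Agent.Lib.MP_ef7581_lc.D2

open Finset Classical

namespace DUA

variable {J V : Type} [Fintype J] [Fintype V] [DecidableEq J] [DecidableEq V]

/-! ### Assignments of disjoint services -/

/-- The agents of `A` can be served by disjoint subsets of `W`. -/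
def Ex (sv : J → Finset V → Prop) (A : Finset J) (W : Finset V) : Prop :=
  ∃ f : J → Finset V, (∀ j ∈ A, f j ⊆ W) ∧ (∀ j ∈ A, sv j (f j)) ∧
    ∀ i ∈ A, ∀ j ∈ A, i ≠ j → Disjoint (f i) (f j)

variable {sv sv' : J → Finset V → Prop}

theorem Ex.mono {A A' : Finset J} {W W' : Finset V} (h : Ex sv A W) (hA : A' ⊆ A)
    (hW : W ⊆ W') : Ex sv A' W' := by
  obtain ⟨f, h1, h2, h3⟩ := h
  exact ⟨f, fun j hj => (h1 j (hA hj)).trans hW, fun j hj => h2 j (hA hj),
    fun i hi j hj => h3 i (hA hi) j (hA hj)⟩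

theorem Ex.imp {A : Finset J} {W : Finset V} (h : Ex sv A W) (hs : ∀ j s, sv j s → sv' j s) :
    Ex sv' A W := by
  obtain ⟨f, h1, h2, h3⟩ := h
  exact ⟨f, h1, fun j hj => hs _ _ (h2 j hj), h3⟩

theorem Ex.glue {A A' : Finset J} {W W' : Finset V} (h : Ex sv A W) (h' : Ex sv A' W')
    (hd : Disjoint W W') : Ex sv (A ∪ A') (W ∪ W') := by
  obtain ⟨f, h1, h2, h3⟩ := h
  obtain ⟨f', h1', h2', h3'⟩ := h'
  have m : ∀ j ∈ A ∪ A', j ∉ A → j ∈ A' := fun j hj hn => (mem_union.1 hj).resolve_left hn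
  refine ⟨fun j => if j ∈ A then f j else f' j, fun j hj => ?_, fun j hj => ?_,
    fun i hi j hj hij => ?_⟩
  · by_cases a : j ∈ A
    · simp only [a, if_true]; exact (h1 j a).trans subset_union_left
    · simp only [a, if_false]; exact (h1' j (m j hj a)).trans subset_union_right
  · by_cases a : j ∈ A
    · simp only [a, if_true]; exact h2 j a
    · simp only [a, if_false]; exact h2' j (m j hj a)
  · by_cases a : i ∈ A <;> by_cases b : j ∈ A <;> simp only [a, b, if_true, if_false]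
    · exact h3 i a j b hij
    · exact hd.mono (h1 i a) (h1' j (m j hj b))
    · exact hd.symm.mono (h1' i (m i hi a)) (h1 j b)
    · exact h3' i (m i hi a) j (m j hj b) hij

theorem Ex.empty (W : Finset V) : Ex sv ∅ W :=
  ⟨fun _ => ∅, by simp, by simp, by simp⟩

theorem Ex.single {j : J} {s : Finset V} (h : sv j s) : Ex sv {j} s :=
  ⟨fun _ => s, by simp, by simpa using h, by simp⟩

theorem Ex.family {ι : Type} [DecidableEq ι] (T : Finset ι) (a : ι → J) (s : ι → Finset V)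
    (h : ∀ r ∈ T, sv (a r) (s r)) (hd : ∀ r ∈ T, ∀ r' ∈ T, r ≠ r' → Disjoint (s r) (s r')) :
    Ex sv (T.image a) (T.biUnion s) := by
  induction T using Finset.induction_on with
  | empty => simpa using Ex.empty (sv := sv) ∅
  | insert r T hr ih =>
    have h1 := ih (fun x hx => h x (mem_insert_of_mem hx))
      (fun x hx y hy => hd x (mem_insert_of_mem hx) y (mem_insert_of_mem hy))
    have h2 := (Ex.single (h r (mem_insert_self _ _))).glue h1 (by
      rw [disjoint_biUnion_right]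
      exact fun x hx => hd r (mem_insert_self _ _) x (mem_insert_of_mem hx)
        fun e => hr (e ▸ hx))
    rw [image_insert, biUnion_insert, insert_eq]
    exact h2

variable {P : Geo J V}

theorem ex_of_st {S : Sub J V} {B : Finset J} {f : J → Finset V} (h : St S sv B f) :
    Ex sv B S.W := ⟨f, h.inW, h.srv, h.dis⟩

theorem st_of_ex {A : Finset J} {W : Finset V} (h : Ex sv A W) :
    ∃ f, St (P.pl A W) sv A f := by
  obtain ⟨f, h1, h2, h3⟩ := h
  exact ⟨f, Subset.rfl, h1, h2, h3, fun _ _ h => h.elim⟩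

theorem use_eq {B : Finset J} {f : J → Finset V}
    (h : ∀ i ∈ B, ∀ j ∈ B, i ≠ j → Disjoint (f i) (f j)) : use B f = (B.biUnion f).card :=
  (card_biUnion h).symm

/-! ### Families -/

section Fam

variable {N : ℕ} {F : Fin N → Mb J V}

/-- The items of the members in `R`. -/
def itR (F : Fin N → Mb J V) (R : Finset (Fin N)) : Finset V :=
  R.biUnion fun r => {(F r).2.2.1, (F r).2.2.2}

theorem mem_itR {R : Finset (Fin N)} {x : V} :
    x ∈ itR F R ↔ ∃ r ∈ R, x = (F r).2.2.1 ∨ x = (F r).2.2.2 := by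
  simp [itR]

theorem mem_fitF {x : V} : x ∈ fitF F ↔ ∃ r, x = (F r).2.2.1 ∨ x = (F r).2.2.2 := by
  simp only [fitF, mem_union, mem_image, mem_univ, true_and]
  constructor
  · rintro (⟨r, h⟩ | ⟨r, h⟩)
    · exact ⟨r, Or.inl h.symm⟩
    · exact ⟨r, Or.inr h.symm⟩
  · rintro ⟨r, h | h⟩
    · exact Or.inl ⟨r, h.symm⟩
    · exact Or.inr ⟨r, h.symm⟩

theorem mem_fagF {j : J} : j ∈ fagF F ↔ ∃ r, (F r).1 = j := by
  simp [fagF]

theorem itR_sub (R : Finset (Fin N)) : itR F R ⊆ fitF F := fun x hx => by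
  obtain ⟨r, -, h⟩ := mem_itR.1 hx
  exact mem_fitF.2 ⟨r, h⟩

theorem aa (h : DisF F) {r r' : Fin N} (e : (F r).2.2.1 = (F r').2.2.1) : r = r' :=
  Sum.inl_injective (h.2 (a₁ := Sum.inl r) (a₂ := Sum.inl r') e)

theorem bb (h : DisF F) {r r' : Fin N} (e : (F r).2.2.2 = (F r').2.2.2) : r = r' :=
  Sum.inr_injective (h.2 (a₁ := Sum.inr r) (a₂ := Sum.inr r') e)

theorem ab (h : DisF F) (r r' : Fin N) : (F r).2.2.1 ≠ (F r').2.2.2 := fun e =>
  Sum.inl_ne_inr (h.2 (a₁ := Sum.inl r) (a₂ := Sum.inr r') e)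

theorem same (h : DisF F) {r r' : Fin N} {x : V} (h1 : x = (F r).2.2.1 ∨ x = (F r).2.2.2)
    (h2 : x = (F r').2.2.1 ∨ x = (F r').2.2.2) : r = r' := by
  rcases h1 with h1 | h1 <;> rcases h2 with h2 | h2
  · exact aa h (h1.symm.trans h2)
  · exact absurd (h1.symm.trans h2) (ab h _ _)
  · exact absurd (h2.symm.trans h1) (ab h _ _)
  · exact bb h (h1.symm.trans h2)

theorem itR_dis (h : DisF F) {R R' : Finset (Fin N)} (hd : Disjoint R R') :
    Disjoint (itR F R) (itR F R') := by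
  rw [disjoint_left]
  intro x hx hx'
  obtain ⟨r, hr, h1⟩ := mem_itR.1 hx
  obtain ⟨r', hr', h2⟩ := mem_itR.1 hx'
  exact disjoint_left.1 hd hr (same h h1 h2 ▸ hr')

theorem good_sub {ty : ℕ} {R : Finset (Fin N)} {x : V} (h : Geo.goodI ty F R x) :
    x ∈ itR F R := by
  obtain ⟨r, hr, h | h⟩ := h
  · exact mem_itR.2 ⟨r, hr, Or.inl h⟩
  · exact mem_itR.2 ⟨r, hr, Or.inr h.2⟩

end Fam

/-! ### Absorption -/

section Abs

variable {c ty : ℕ} {F : Fin (NU c) → Mb J V}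

theorem mem_expo {x : V} :
    x ∈ Geo.expo c F ↔ ∃ r : Fin (NU c), r.val < c ∧ (F r).2.2.1 = x := by
  simp [Geo.expo]

theorem expo_sub : Geo.expo c F ⊆ fitF F := fun x hx => by
  obtain ⟨r, -, h⟩ := mem_expo.1 hx
  exact mem_fitF.2 ⟨r, Or.inl h.symm⟩

theorem low_card : (univ.filter fun r : Fin (NU c) => r.val < c).card = c := by
  have h : c ≤ NU c := by unfold NU; omega
  rw [Fin.card_filter_val_lt]
  omega

theorem expo_card_le : (Geo.expo c F).card ≤ c :=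
  card_image_le.trans low_card.le

theorem expo_card (h : DisF F) : (Geo.expo c F).card = c := by
  unfold Geo.expo
  rw [card_image_of_injective _ fun r r' e => aa h e, low_card]

/-- All of `Z` has been absorbed by the members `R`. -/
def Abs (P : Geo J V) (c ty : ℕ) (F : Fin (NU c) → Mb J V) (Wt : Finset (J × V × V))
    (Z : Finset V) (k : ℕ) : Prop :=
  ∃ (R : Finset (Fin (NU c))) (Gd : Finset V), R.card ≤ k ∧ (∀ r ∈ R, c ≤ r.val) ∧
    Gd.card = Z.card ∧ (∀ x ∈ Gd, Geo.goodI ty F R x) ∧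
    Ex (P.Serv2 (P.pl univ univ)) ((R.image fun r => (F r).1) ∪ ag2 Wt)
      ((itR F R ∪ Z ∪ it2 Wt) \ Gd)

theorem Abs.weak {Wt : Finset (J × V × V)} {Z : Finset V} {k k' : ℕ} (h : Abs P c ty F Wt Z k)
    (hk : k ≤ k') : Abs P c ty F Wt Z k' := by
  obtain ⟨R, Gd, h1, h2⟩ := h
  exact ⟨R, Gd, h1.trans hk, h2⟩

theorem abs_empty : Abs P c ty F ∅ ∅ 0 :=
  ⟨∅, ∅, by simp, by simp, by simp, by simp, by
    simpa [ag2] using Ex.empty (sv := P.Serv2 (P.pl univ univ)) _⟩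

theorem Abs.step (hF : DisF F) {Wt : Finset (J × V × V)} {Z Z' : Finset V} {k : ℕ}
    (h : Abs P c ty F ∅ Z k) (hk : k ≤ 3 * c + 3)
    (h' : ∀ U : Finset (Fin (NU c)), U.card ≤ 3 * c + 3 → P.Absorb c ty F U Wt Z' Z'.card)
    (d1 : Disjoint Z (fitF F)) (d2 : Disjoint Z' (fitF F)) (d3 : Disjoint (it2 Wt) (fitF F))
    (d4 : Disjoint Z Z') (d5 : Disjoint Z (it2 Wt)) :
    Abs P c ty F Wt (Z ∪ Z') (k + 3) := by
  obtain ⟨R, Gd, a1, a2, a3, a4, a5⟩ := h
  obtain ⟨R', f', Gd', b0, b1, b2, b3, b4, b5⟩ := h' R (a1.trans hk)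
  have b6 : Ex (P.Serv2 (P.pl univ univ)) ((R'.image fun r => (F r).1) ∪ ag2 Wt)
      ((itR F R' ∪ Z' ∪ it2 Wt) \ Gd') := ex_of_st b5
  have dR : Disjoint (itR F R) (itR F R') := itR_dis hF b0.symm
  have g1 : Gd ⊆ itR F R := fun x hx => good_sub (a4 x hx)
  have g2 : Gd' ⊆ itR F R' := fun x hx => good_sub (b4 x hx)
  have s1 := itR_sub (F := F) R
  have s2 := itR_sub (F := F) R'
  have e0 : it2 (∅ : Finset (J × V × V)) = ∅ := by simp [it2]
  have dd : Disjoint (itR F R ∪ Z) (itR F R' ∪ Z' ∪ it2 Wt) := by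
    simp only [disjoint_union_left, disjoint_union_right]
    exact ⟨⟨⟨dR, d1.mono_right s2⟩, (d2.mono_right s1).symm, d4⟩, (d3.mono_right s1).symm, d5⟩
  refine ⟨R ∪ R', Gd ∪ Gd', (card_union_le _ _).trans (by omega), fun r hr => ?_, ?_,
    fun x hx => ?_, ?_⟩
  · rcases mem_union.1 hr with hr | hr
    · exact a2 r hr
    · exact b2 r hr
  · rw [card_union_of_disjoint (dR.mono g1 g2), card_union_of_disjoint d4, a3, b3]
  · rcases mem_union.1 hx with hx | hx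
    · obtain ⟨r, hr, h⟩ := a4 x hx
      exact ⟨r, mem_union_left _ hr, h⟩
    · obtain ⟨r, hr, h⟩ := b4 x hx
      exact ⟨r, mem_union_right _ hr, h⟩
  · rw [e0, union_empty] at a5
    refine (a5.glue b6 (dd.mono sdiff_subset sdiff_subset)).mono ?_ ?_
    · intro j hj
      simp only [image_union, mem_union] at hj ⊢
      tauto
    · have u : itR F (R ∪ R') = itR F R ∪ itR F R' := by
        unfold itR; rw [union_biUnion]
      intro x hx
      have q1 : x ∈ itR F R ∪ Z → x ∉ Gd' := fun h1 h2 =>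
        disjoint_left.1 dd h1 (mem_union_left _ (mem_union_left _ (g2 h2)))
      have q2 : x ∈ itR F R' ∪ Z' ∪ it2 Wt → x ∉ Gd := fun h1 h2 =>
        disjoint_left.1 dd (mem_union_left _ (g1 h2)) h1
      simp only [u, mem_union, mem_sdiff] at hx q1 q2 ⊢
      tauto

theorem abs_all (hU : UnitStmt) (hF : P.PFam ty F) : ∀ (n : ℕ) (Z : Finset V), Z.card = n →
    Disjoint Z (fitF F) → (∀ z ∈ Z, ¬ P.waste F z ∧ ¬ P.star c F z) → Z.card ≤ c + 1 →
    (ty ≠ 3 ∨ Even (Z.filter fun z => P.hard c F z).card) → Abs P c ty F ∅ Z (3 * Z.card) := by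
  obtain ⟨-, -, -, hu⟩ := hU J V P c ty F hF
  have e0 : it2 (∅ : Finset (J × V × V)) = ∅ := by simp [it2]
  intro n
  induction n using Nat.strong_induction_on with
  | _ n ih =>
    intro Z hn d1 hz hc hp
    have nf : ∀ z ∈ Z, z ∉ fitF F := fun z h => disjoint_left.1 d1 h
    have key : ∀ Z' ⊆ Z, Z'.Nonempty →
        (ty ≠ 3 ∨ Even ((Z \ Z').filter fun z => P.hard c F z).card) →
        (∀ U : Finset (Fin (NU c)), U.card ≤ 3 * c + 3 → P.Absorb c ty F U ∅ Z' Z'.card) →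
        Abs P c ty F ∅ Z (3 * Z.card) := fun Z' hs hne hp' ha => by
      have c1 := card_sdiff_add_card_eq_card hs
      have c2 := hne.card_pos
      have h1 := ih (Z \ Z').card (by omega) (Z \ Z') rfl (d1.mono_left sdiff_subset)
        (fun z h => hz z (sdiff_subset h)) (by omega) hp'
      have h2 := h1.step hF.dis (by omega) ha (d1.mono_left sdiff_subset) (d1.mono_left hs)
        (by rw [e0]; exact disjoint_empty_left _) sdiff_disjoint
        (by rw [e0]; exact disjoint_empty_right _)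
      rw [sdiff_union_of_subset hs] at h2
      exact h2.weak (by omega)
    rcases Z.eq_empty_or_nonempty with rfl | ⟨z0, hz0⟩
    · simpa using abs_empty
    by_cases he : ∃ z ∈ Z, P.easy c F z
    · obtain ⟨z, h1, h2⟩ := he
      refine key {z} (by simpa using h1) (by simp) (hp.imp_right fun h => ?_)
        fun U hU' => by simpa using (hu U hU').1 z (nf z h1) h2
      have : ((Z \ {z}).filter fun z => P.hard c F z) = Z.filter fun z => P.hard c F z := by
        ext x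
        simp only [mem_filter, mem_sdiff, mem_singleton]
        exact ⟨fun h => ⟨h.1.1, h.2⟩, fun h => ⟨⟨h.1, fun e => h.2.1 (e ▸ h2)⟩, h.2⟩⟩
      rwa [this]
    have hh : ∀ z ∈ Z, P.hard c F z := fun z h =>
      ⟨fun h' => he ⟨z, h, h'⟩, (hz z h).1, (hz z h).2⟩
    by_cases h3 : ty = 3
    · have hp1 : Even Z.card := by
        have := hp.resolve_left (not_not.2 h3)
        rwa [filter_true_of_mem hh] at this
      have c1 : 0 < Z.card := card_pos.2 ⟨z0, hz0⟩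
      obtain ⟨q, hq, q', hq', hne⟩ := one_lt_card.1 (show 1 < Z.card by
        obtain ⟨k, hk⟩ := hp1; omega)
      have hs : ({q, q'} : Finset V) ⊆ Z := by
        intro x hx
        rcases mem_insert.1 hx with rfl | hx
        · exact hq
        · exact mem_singleton.1 hx ▸ hq'
      refine key {q, q'} hs (by simp) (Or.inr ?_) fun U hU' => ?_
      · rw [filter_true_of_mem fun z h => hh z (sdiff_subset h)]
        have c2 := card_sdiff_add_card_eq_card hs
        rw [card_pair hne] at c2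
        obtain ⟨k, hk⟩ := hp1
        exact ⟨k - 1, by omega⟩
      · rw [card_pair hne]
        exact (hu U hU').2.2 q q' (nf q hq) (nf q' hq') hne (hh q hq) (hh q' hq') h3
    · exact key {z0} (by simpa using hz0) (by simp) (Or.inl h3)
        fun U hU' => by simpa using (hu U hU').2.1 z0 (nf z0 hz0) (hh z0 hz0) h3

theorem wit_dis {s : J × V × V} (h : P.WitU c F s) : Disjoint (it2 {s}) (fitF F) := by
  obtain ⟨-, -, -, -, -, -, h1, h2⟩ := h
  simp [it2, h1, h2]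

theorem serv_pr {j : J} {a b : V} (h : P.Pr j a b) : P.Serv2 (P.pl univ univ) j {a, b} :=
  Or.inr ⟨trivial, a, by simp, b, by simp, h⟩

theorem wit_keep {s : J × V × V} (h : P.WitU c F s) (U : Finset (Fin (NU c))) :
    P.Absorb c ty F U {s} ∅ (∅ : Finset V).card := by
  obtain ⟨⟨o, h1, h2⟩, h3, -⟩ := h
  have h4 := Ex.single (sv := P.Serv2 (P.pl univ univ)) (serv_pr (Geo.Pr_of_col h1 h2 h3))
  obtain ⟨f, hf⟩ := st_of_ex (P := P) h4
  refine ⟨∅, f, ∅, by simp, by simp, by simp, by simp, by simp, ?_⟩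
  simpa [ag2, it2] using hf

theorem abs_wit (hU : UnitStmt) (hW : WitStmt) (hF : P.PFam ty F) {Wt : Finset (J × V × V)}
    {Z : Finset V} (hw : Wt = ∅ ∨ ∃ s, Wt = {s} ∧ P.WitU c F s) (d1 : Disjoint Z (fitF F))
    (d2 : Disjoint Z (it2 Wt)) (hz : ∀ z ∈ Z, ¬ P.waste F z ∧ ¬ P.star c F z)
    (hc : Z.card ≤ c + 1)
    (hp : ty ≠ 3 ∨ Even (Z.filter fun z => P.hard c F z).card ∨ Wt ≠ ∅) :
    ∃ k, Abs P c ty F Wt Z k := by
  rcases hw with rfl | ⟨s, rfl, hs⟩
  · exact ⟨_, abs_all hU hF _ Z rfl d1 hz hc (by tauto)⟩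
  by_cases hp' : ty ≠ 3 ∨ Even (Z.filter fun z => P.hard c F z).card
  · have h1 := (abs_all hU hF _ Z rfl d1 hz hc hp').step hF.dis (by omega)
      (fun U _ => wit_keep hs U) d1 (disjoint_empty_left _) (wit_dis hs) (disjoint_empty_right _)
      d2
    rw [union_empty] at h1
    exact ⟨_, h1⟩
  rw [not_or, not_not, Nat.not_even_iff_odd] at hp'
  obtain ⟨rfl, k, hk⟩ := hp'
  obtain ⟨q, hq⟩ := card_pos.1 (show 0 < (Z.filter fun z => P.hard c F z).card by omega)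
  have hq' := mem_filter.1 hq
  have hs' : ({q} : Finset V) ⊆ Z := by simpa using hq'.1
  have c1 := card_sdiff_add_card_eq_card hs'
  rw [card_singleton] at c1
  have ev : Even ((Z \ {q}).filter fun z => P.hard c F z).card := by
    have : ((Z \ {q}).filter fun z => P.hard c F z) = (Z.filter fun z => P.hard c F z).erase q := by
      ext x
      simp only [mem_filter, mem_sdiff, mem_singleton, mem_erase]
      tauto
    rw [this, card_erase_of_mem hq]
    exact ⟨k, by omega⟩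
  have nq : q ∉ it2 {s} := disjoint_left.1 d2 hq'.1
  simp only [it2, singleton_biUnion, mem_insert, mem_singleton, not_or] at nq
  have h1 := (abs_all hU hF _ (Z \ {q}) rfl (d1.mono_left sdiff_subset)
    (fun z h => hz z (sdiff_subset h)) (by omega) (Or.inr ev)).step hF.dis (by omega)
      (Z' := {q}) (Wt := {s}) (fun U hU' => by
        simpa using hW J V P c F U s q hF hU' hs (disjoint_left.1 d1 hq'.1) nq.1 nq.2 hq'.2)
      (d1.mono_left sdiff_subset) (d1.mono_left hs') (wit_dis hs) sdiff_disjoint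
      (d2.mono_left sdiff_subset)
  rw [sdiff_union_of_subset hs'] at h1
  exact ⟨_, h1⟩

theorem finish (hF : P.PFam ty F) {Wt : Finset (J × V × V)} {Z X : Finset V} {k : ℕ}
    (h : Abs P c ty F Wt Z k) (d1 : Disjoint Z (fitF F)) (d2 : Disjoint (it2 Wt) (fitF F))
    (hX : X ⊆ Geo.expo c F) (hc : X.card ≤ Z.card) :
    Ex (P.Serv2 (P.pl univ univ)) (fagF F ∪ ag2 Wt) ((fitF F \ X) ∪ Z ∪ it2 Wt) := by
  obtain ⟨R, Gd, -, a2, a3, a4, a5⟩ := h
  obtain ⟨φ, hφ, hi⟩ : ∃ φ : V → V, (∀ x ∈ X, φ x ∈ Gd) ∧ Set.InjOn φ X := by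
    have hc' : Fintype.card X ≤ Fintype.card Gd := by
      simp only [Fintype.card_coe]; omega
    obtain ⟨ψ⟩ := Function.Embedding.nonempty_of_card_le hc'
    refine ⟨fun x => if h : x ∈ X then (ψ ⟨x, h⟩ : V) else x, fun x hx => ?_,
      fun x hx y hy e => ?_⟩
    · simp only [hx, dif_pos]; exact (ψ ⟨x, hx⟩).2
    · have hx' : x ∈ X := hx
      have hy' : y ∈ X := hy
      simp only [hx', hy', dif_pos] at e
      exact congrArg Subtype.val (ψ.injective (Subtype.ext e))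
  have g1 : Gd ⊆ itR F R := fun x hx => good_sub (a4 x hx)
  have low : ∀ r, (F r).2.2.1 ∈ X → r.val < c := fun r hr => by
    obtain ⟨r', h1, h2⟩ := mem_expo.1 (hX hr)
    exact aa hF.dis h2 ▸ h1
  have bX : ∀ r, (F r).2.2.2 ∉ X := fun r hr => by
    obtain ⟨r', -, h2⟩ := mem_expo.1 (hX hr)
    exact ab hF.dis _ _ h2
  have RX : ∀ x ∈ itR F R, x ∉ X := fun x hx hx' => by
    obtain ⟨r, hr, h | h⟩ := mem_itR.1 hx
    · have := low r (h ▸ hx')
      have := a2 r hr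
      omega
    · exact bX r (h ▸ hx')
  have out : ∀ r, r ∉ R → ∀ x, (x = (F r).2.2.1 ∨ x = (F r).2.2.2) → x ∉ itR F R :=
    fun r hr x hx hx' => by
      obtain ⟨r', hr', h⟩ := mem_itR.1 hx'
      exact hr (same hF.dis h hx ▸ hr')
  let u : Fin (NU c) → V := fun r => if (F r).2.2.1 ∈ X then φ (F r).2.2.1 else (F r).2.2.1
  have u1 : ∀ r, ((F r).2.2.1 ∈ X ∧ u r = φ (F r).2.2.1 ∧ u r ∈ Gd) ∨
      ((F r).2.2.1 ∉ X ∧ u r = (F r).2.2.1) := fun r => by
    by_cases h : (F r).2.2.1 ∈ X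
    · have : u r = φ (F r).2.2.1 := if_pos h
      exact Or.inl ⟨h, this, this ▸ hφ _ h⟩
    · exact Or.inr ⟨h, if_neg h⟩
  have bfit : ∀ r, (F r).2.2.2 ∈ fitF F := fun r => mem_fitF.2 ⟨r, Or.inr rfl⟩
  have afit : ∀ r, (F r).2.2.1 ∈ fitF F := fun r => mem_fitF.2 ⟨r, Or.inl rfl⟩
  have ufit : ∀ r, u r ∈ fitF F := fun r => by
    rcases u1 r with h | h
    · exact itR_sub R (g1 h.2.2)
    · exact h.2 ▸ afit r
  have uA : ∀ r, P.cA (F r) (u r) := fun r => by
    rcases u1 r with h | h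
    · obtain ⟨r', hr', h'⟩ := a4 _ h.2.2
      have lt : r < r' := by
        have := low r h.1
        have := a2 r' hr'
        exact Fin.lt_def.2 (by omega)
      rcases h' with h' | h'
      · exact h' ▸ hF.upa r r' lt
      · exact h'.2 ▸ hF.upb h'.1 r r' lt
    · exact h.2 ▸ (hF.own r).1
  have ub : ∀ r, ∀ r', r' ∉ R → u r ≠ (F r').2.2.2 := fun r r' hr' e => by
    rcases u1 r with h | h
    · exact out r' hr' _ (Or.inr e) (g1 h.2.2)
    · exact ab hF.dis _ _ (h.2.symm.trans e)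
  have uu : ∀ r, r ∉ R → ∀ r', r' ∉ R → u r = u r' → r = r' := fun r hr r' hr' e => by
    rcases u1 r with h | h <;> rcases u1 r' with h' | h'
    · exact aa hF.dis (hi h.1 h'.1 (h.2.1.symm.trans (e.trans h'.2.1)))
    · exact absurd (g1 h.2.2) (out r' hr' _ (Or.inl (e.trans h'.2)))
    · exact absurd (g1 h'.2.2) (out r hr _ (Or.inl (e.symm.trans h.2)))
    · exact aa hF.dis (h.2.symm.trans (e.trans h'.2))
  have b5 := Ex.family (sv := P.Serv2 (P.pl univ univ)) (univ \ R) (fun r => (F r).1)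
    (fun r => {u r, (F r).2.2.2})
    (fun r _ => serv_pr (Geo.Pr_of_col (uA r) (hF.own r).2 (hF.ind _ (ufit r) _ (bfit r))))
    (fun r hr r' hr' hne => by
      have n1 := (mem_sdiff.1 hr).2
      have n2 := (mem_sdiff.1 hr').2
      simp only [disjoint_insert_left, disjoint_singleton_left, mem_insert, mem_singleton, not_or]
      exact ⟨⟨fun e => hne (uu r n1 r' n2 e), ub r r' n2⟩, fun e => ub r' r n1 e.symm,
        fun e => hne (bb hF.dis e)⟩)
  have w2 : ∀ x ∈ (univ \ R).biUnion fun r => ({u r, (F r).2.2.2} : Finset V),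
      x ∈ Gd ∨ (x ∈ fitF F ∧ x ∉ X ∧ x ∉ itR F R) := fun x hx => by
    obtain ⟨r, hr, hx⟩ := mem_biUnion.1 hx
    have n1 := (mem_sdiff.1 hr).2
    rcases mem_insert.1 hx with hx | hx
    · rcases u1 r with h | h
      · exact Or.inl (hx ▸ h.2.2)
      · have e := hx.trans h.2
        exact Or.inr ⟨e ▸ afit r, e ▸ h.1, out r n1 x (Or.inl e)⟩
    · have e := mem_singleton.1 hx
      exact Or.inr ⟨e ▸ bfit r, e ▸ bX r, out r n1 x (Or.inr e)⟩
  refine (a5.glue b5 ?_).mono ?_ ?_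
  · rw [disjoint_left]
    intro x hx hx'
    have q1 : x ∈ Z → x ∉ fitF F := fun h => disjoint_left.1 d1 h
    have q2 : x ∈ it2 Wt → x ∉ fitF F := fun h => disjoint_left.1 d2 h
    have q3 := w2 x hx'
    simp only [mem_union, mem_sdiff] at hx
    grind
  · intro j hj
    rcases mem_union.1 hj with hj | hj
    · obtain ⟨r, rfl⟩ := mem_fagF.1 hj
      by_cases hr : r ∈ R
      · exact mem_union_left _ (mem_union_left _ (mem_image_of_mem _ hr))
      · exact mem_union_right _ (mem_image_of_mem (fun r => (F r).1) (by simpa using hr))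
    · exact mem_union_left _ (mem_union_right _ hj)
  · intro x hx
    have q1 : x ∈ itR F R → x ∈ fitF F ∧ x ∉ X := fun h => ⟨itR_sub R h, RX x h⟩
    have q2 : x ∈ Gd → x ∈ itR F R := fun h => g1 h
    have q3 := w2 x
    rcases mem_union.1 hx with hx | hx
    · simp only [mem_union, mem_sdiff] at hx ⊢
      grind
    · have q4 := q3 hx
      simp only [mem_union, mem_sdiff]
      grind

/-! ### Soundness -/

theorem ex_phi {Φ : Finset (J × V × V × V)} (h : P.PhiOk Φ) :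
    Ex (P.Serv3 (P.pl univ univ)) (ag3 Φ) (it3 Φ) :=
  Ex.family Φ (fun s => s.1) (fun s => {s.2.1, s.2.2.1, s.2.2.2}) h.1
    fun s hs s' hs' hne => (h.2 s hs s' hs' hne).2

theorem feas_of_ex (h : Ex (P.Serv3 (P.pl univ univ)) univ univ) : P.Feas := by
  obtain ⟨f, hf⟩ := st_of_ex (P := P) h
  refine ⟨f, hf, ?_⟩
  have h1 := use_eq hf.dis
  have h2 := card_le_univ ((univ : Finset J).biUnion f)
  change use univ f + 0 ≤ (univ : Finset V).card
  rw [card_univ]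
  omega

theorem sound_core (hA : UAStmt) (hF : P.PFam ty F) {Φ : Finset (J × V × V × V)} {D : Finset V}
    {Wt : Finset (J × V × V)} {q : Prop} {l : ℕ} (hΦ : P.PhiOk Φ)
    (d1 : Disjoint (it3 Φ) (fitF F)) (d2 : Disjoint (it2 Wt) (it3 Φ))
    (hv : ∀ v, v ∉ fitF F → v ∉ it3 Φ → v ∉ D → ¬ P.waste F v ∧ ¬ P.star c F v)
    (hw : Wt = ∅ ∨ ∃ s, Wt = {s} ∧ P.WitU c F s) (hs : P.Sol3 (P.SU c F Φ D Wt q) l)
    (hZ : ∀ (n : ℕ) (Z' : Finset V), n ≤ c → n + l ≤ Z'.card + c →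
      (q → ∀ v ∈ Z', ¬ P.hard c F v) → ∃ Z ⊆ Z', n ≤ Z.card ∧ Z.card ≤ c + 1 ∧
        (ty ≠ 3 ∨ Even (Z.filter fun z => P.hard c F z).card ∨ Wt ≠ ∅)) : P.Feas := by
  obtain ⟨f, hf, hu⟩ := hs
  set S := P.SU c F Φ D Wt q with hS
  have mW : ∀ v, v ∈ S.W ↔ (v ∈ fitF F → v ∈ Geo.expo c F) ∧ v ∉ it3 Φ ∧ v ∉ D ∧ v ∉ it2 Wt :=
    fun v => by
      simp only [hS, Geo.SU, mem_sdiff, mem_univ, mem_union, true_and]
      grind
  set Us := S.A.biUnion f with hUs
  have us : Us ⊆ S.W := biUnion_subset.2 hf.inW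
  rw [use_eq hf.dis, ← hUs] at hu
  have c1 := card_sdiff_add_card_eq_card us
  have c2 : S.W \ Us ⊆ (S.W \ (Us ∪ Geo.expo c F)) ∪ (Geo.expo c F \ Us) := fun x hx => by
    simp only [mem_union, mem_sdiff] at hx ⊢
    grind
  have c3 := (card_le_card c2).trans (card_union_le _ _)
  have c4 := card_sdiff_add_card_inter (Geo.expo c F) Us
  have c5 := expo_card_le (F := F)
  obtain ⟨Z, z1, z2, z3, z4⟩ := hZ (Geo.expo c F ∩ Us).card (S.W \ (Us ∪ Geo.expo c F))
    (by omega) (by omega) fun hq v hv' hh => by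
      simp only [mem_union, mem_sdiff, not_or] at hv'
      obtain ⟨j, hj, e, -⟩ := hf.qok v hv'.1 ⟨hq, hh, fun h => hv'.2.2 (((mW v).1 hv'.1).1 h)⟩
      exact hv'.2.1 (mem_biUnion.2 ⟨j, hj, by simp [e]⟩)
  have mZ : ∀ v ∈ Z, v ∉ fitF F ∧ v ∉ it3 Φ ∧ v ∉ D ∧ v ∉ it2 Wt ∧ v ∉ Us := fun v h => by
    have h1 := z1 h
    simp only [mem_union, mem_sdiff, not_or] at h1
    have h2 := (mW v).1 h1.1
    grind
  obtain ⟨f1, hf1⟩ := hA J V P c ty F Wt Z (Geo.expo c F ∩ Us) hF hw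
    (disjoint_left.2 fun v h => (mZ v h).1) (disjoint_left.2 fun v h => (mZ v h).2.2.2.1)
    (fun v h => hv v (mZ v h).1 (mZ v h).2.1 (mZ v h).2.2.1) inter_subset_left z2 z3 z4
  have e1 : Ex (P.Serv3 (P.pl univ univ)) (fagF F ∪ ag2 Wt)
      ((fitF F \ (Geo.expo c F ∩ Us)) ∪ Z ∪ it2 Wt) :=
    (ex_of_st hf1).imp fun _ _ h => Or.inl h
  have e2 : Ex (P.Serv3 (P.pl univ univ)) S.A Us :=
    ⟨f, fun j hj => subset_biUnion_of_mem f hj, hf.srv, hf.dis⟩
  have e3 := e1.glue e2 (by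
    rw [disjoint_left]
    intro x hx hx'
    have q1 := (mW x).1 (us hx')
    have q2 := mZ x
    simp only [mem_union, mem_sdiff, mem_inter] at hx
    grind)
  have e4 := e3.glue (ex_phi hΦ) (by
    rw [disjoint_left]
    intro x hx hx'
    have q1 : x ∈ Us → x ∉ it3 Φ := fun h => ((mW x).1 (us h)).2.1
    have q2 := mZ x
    have q3 : x ∉ fitF F := disjoint_left.1 d1 hx'
    have q4 : x ∉ it2 Wt := disjoint_right.1 d2 hx'
    simp only [mem_union, mem_sdiff] at hx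
    grind)
  refine feas_of_ex (e4.mono (fun j _ => ?_) (subset_univ _))
  simp only [hS, Geo.SU, mem_sdiff, mem_univ, mem_union, true_and]
  grind

/-! ### Necessity -/

/-- A service written as three items. -/
def enc (v0 : V) : Sv V → V × V × V
  | Sv.non => (v0, v0, v0)
  | Sv.one x => (x, x, x)
  | Sv.two a b => (a, a, b)
  | Sv.three a z b => (a, z, b)

theorem enc_its (v0 : V) {S : Sub J V} {j : J} {s : Sv V} (h : P.Nrm S j s) :
    ({(enc v0 s).1, (enc v0 s).2.1, (enc v0 s).2.2} : Finset V) = s.its := by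
  cases s with
  | non => exact h.elim
  | one x => simp [enc, Sv.its]
  | two a b => simp [enc, Sv.its]
  | three a z b => simp [enc, Sv.its]

/-- Services of a state can be moved to the list of fixed services. -/
theorem phi_ext (v0 : V) {Φ : Finset (J × V × V × V)} {g : J → Sv V} {T : Finset J}
    (hΦ : P.PhiOk Φ) (hg : P.PSt (P.pl (univ \ ag3 Φ) (univ \ it3 Φ)) (univ \ ag3 Φ) g)
    (hs : ∀ j ∈ univ \ ag3 Φ, P.Serv3 (P.pl univ univ) j (g j).its) (hT : T ⊆ univ \ ag3 Φ) :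
    ∃ Φ' : Finset (J × V × V × V), P.PhiOk Φ' ∧ Φ'.card ≤ Φ.card + T.card ∧
      ag3 Φ' = ag3 Φ ∪ T ∧ it3 Φ' = it3 Φ ∪ itsB T g := by
  have e : ∀ j ∈ T, ({(enc v0 (g j)).1, (enc v0 (g j)).2.1, (enc v0 (g j)).2.2} : Finset V) =
      (g j).its := fun j hj => enc_its v0 (hg.nrm j (hT hj))
  have cr : ∀ s ∈ Φ, ∀ j ∈ T, s.1 ≠ j ∧
      Disjoint ({s.2.1, s.2.2.1, s.2.2.2} : Finset V) (g j).its := fun s hs' j hj => by
    refine ⟨fun h => (mem_sdiff.1 (hT hj)).2 (mem_image.2 ⟨s, hs', h⟩), ?_⟩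
    rw [disjoint_left]
    exact fun x hx hx' => (mem_sdiff.1 (hg.inW j (hT hj) hx')).2 (mem_biUnion.2 ⟨s, hs', hx⟩)
  refine ⟨Φ ∪ T.image fun j => (j, enc v0 (g j)), ⟨fun s hs' => ?_, fun s h1 s' h2 hne => ?_⟩,
    (card_union_le _ _).trans (Nat.add_le_add_left card_image_le _), ?_, ?_⟩
  · rcases mem_union.1 hs' with h | h
    · exact hΦ.1 s h
    · obtain ⟨j, hj, rfl⟩ := mem_image.1 h
      dsimp only
      rw [e j hj]
      exact hs j (hT hj)
  · rcases mem_union.1 h1 with h1 | h1 <;> rcases mem_union.1 h2 with h2 | h2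
    · exact hΦ.2 s h1 s' h2 hne
    · obtain ⟨j, hj, rfl⟩ := mem_image.1 h2
      dsimp only
      rw [e j hj]
      exact cr s h1 j hj
    · obtain ⟨j, hj, rfl⟩ := mem_image.1 h1
      dsimp only
      rw [e j hj]
      exact ⟨(cr s' h2 j hj).1.symm, (cr s' h2 j hj).2.symm⟩
    · obtain ⟨i, hi, rfl⟩ := mem_image.1 h1
      obtain ⟨j, hj, rfl⟩ := mem_image.1 h2
      have hij : i ≠ j := fun h => hne (by rw [h])
      dsimp only
      rw [e i hi, e j hj]
      exact ⟨hij, hg.dis i (hT hi) j (hT hj) hij⟩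
  · unfold ag3
    rw [image_union, image_image]
    congr 1
    exact image_id
  · unfold it3 itsB
    rw [union_biUnion, image_biUnion]
    congr 1
    exact biUnion_congr rfl e

/-- Few services meet a small set of items. -/
theorem few_meet {B : Finset J} {f : J → Finset V} (Bd : Finset V)
    (hd : ∀ i ∈ B, ∀ j ∈ B, i ≠ j → Disjoint (f i) (f j))
    (hm : ∀ j ∈ B, ¬ Disjoint (f j) Bd) : B.card ≤ Bd.card := by
  have h1 : (B.biUnion fun j => f j ∩ Bd).card = ∑ j ∈ B, (f j ∩ Bd).card :=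
    card_biUnion fun i hi j hj hij => (hd i hi j hj hij).mono inter_subset_left inter_subset_left
  have h2 : (B.biUnion fun j => f j ∩ Bd) ⊆ Bd := biUnion_subset.2 fun _ _ => inter_subset_right
  have h3 : ∑ _j ∈ B, 1 ≤ ∑ j ∈ B, (f j ∩ Bd).card := sum_le_sum fun j hj =>
    card_pos.2 (not_disjoint_iff_nonempty_inter.1 (hm j hj))
  have h4 := card_le_card h2
  rw [sum_const, smul_eq_mul, mul_one] at h3
  omega

theorem sol_of {S : Sub J V} {f : J → Finset V} {E : Finset V} {l : ℕ}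
    (hf : St S (P.Serv2 S) S.A f) (h1 : E ⊆ S.W) (h2 : ∀ j ∈ S.A, Disjoint (f j) E)
    (h3 : l ≤ E.card) : P.Sol2 S l := by
  refine ⟨f, hf, ?_⟩
  have c1 := card_union_of_disjoint ((disjoint_biUnion_left S.A f E).2 h2)
  have c2 := card_le_card (union_subset (biUnion_subset.2 hf.inW) h1)
  rw [use_eq hf.dis]
  omega

theorem nec_main (hU : UnitStmt) {e cT L : ℕ} (hS : SLN e) (hL : cT + NU c * NU c + 1 ≤ L)
    (rk : J → ℕ) {Φ : Finset (J × V × V × V)} {g : J → Sv V} (hΦ : P.PhiOk Φ)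
    (hc : Φ.card ≤ cT) (hg : P.PSt (P.pl (univ \ ag3 Φ) (univ \ it3 Φ)) (univ \ ag3 Φ) g)
    (hnt : NoTri (univ \ ag3 Φ) g)
    (hs : ∀ j ∈ univ \ ag3 Φ, P.Serv2 (P.pl univ univ) j (g j).its) (hF : P.PFam ty F)
    (hm : ∀ r, (F r).1 ∈ univ \ ag3 Φ ∧ (g (F r).1).its = {(F r).2.2.1, (F r).2.2.2}) :
    P.UTest rk e c L := by
  obtain ⟨u1, u2, -⟩ := hU J V P c ty F hF
  obtain ⟨Bd, mB, cB⟩ : ∃ Bd : Finset V, (∀ v, v ∈ Bd ↔ P.waste F v ∨ P.star c F v) ∧
      Bd.card ≤ NU c * NU c + 1 :=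
    ⟨(univ.filter fun z => P.waste F z) ∪ univ.filter fun z => P.star c F z, by simp,
      (card_union_le _ _).trans (by omega)⟩
  obtain ⟨T, mT⟩ : ∃ T : Finset J, ∀ j, j ∈ T ↔
      j ∉ ag3 Φ ∧ j ∉ fagF F ∧ ¬ Disjoint (g j).its Bd :=
    ⟨univ.filter fun j => j ∉ ag3 Φ ∧ j ∉ fagF F ∧ ¬ Disjoint (g j).its Bd, by simp⟩
  have mA : ∀ j, j ∉ ag3 Φ → j ∈ univ \ ag3 Φ := fun j h => mem_sdiff.2 ⟨mem_univ _, h⟩
  have hT : T ⊆ univ \ ag3 Φ := fun j hj => mA j ((mT j).1 hj).1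
  have cT' : T.card ≤ Bd.card := few_meet (f := fun j => (g j).its) Bd
    (fun i hi j hj => hg.dis i (hT hi) j (hT hj)) fun j hj => ((mT j).1 hj).2.2
  have pos : 0 < NU c := by unfold NU; omega
  obtain ⟨Φ', p1, p2, p3, p4⟩ :=
    phi_ext (F ⟨0, pos⟩).2.2.1 hΦ hg (fun j hj => Or.inl (hs j hj)) hT
  have nΦ : ∀ j, j ∉ ag3 Φ → ∀ v ∈ (g j).its, v ∉ it3 Φ := fun j hj v hv =>
    (mem_sdiff.1 (hg.inW j (mA j hj) hv)).2
  have fit : ∀ v ∈ fitF F, ∃ r, v ∈ (g (F r).1).its := fun v hv => by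
    obtain ⟨r, h⟩ := mem_fitF.1 hv
    exact ⟨r, by rw [(hm r).2]; simpa using h⟩
  have nF : ∀ j, j ∉ ag3 Φ → j ∉ fagF F → ∀ v ∈ (g j).its, v ∉ fitF F := fun j h1 h2 v hv hv' => by
    obtain ⟨r, hr⟩ := fit v hv'
    exact disjoint_left.1 (hg.dis j (mA j h1) _ (hm r).1 fun e => h2 (mem_fagF.2 ⟨r, e.symm⟩))
      hv hr
  have dI : Disjoint (it3 Φ') (fitF F) := by
    rw [p4, disjoint_left]
    intro v hv hv'
    rcases mem_union.1 hv with hv | hv
    · obtain ⟨r, hr⟩ := fit v hv'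
      exact nΦ _ (mem_sdiff.1 (hm r).1).2 v hr hv
    · obtain ⟨j, hj, hv⟩ := mem_biUnion.1 hv
      exact nF j ((mT j).1 hj).1 ((mT j).1 hj).2.1 v hv hv'
  have dA : Disjoint (ag3 Φ') (fagF F) := by
    rw [p3, disjoint_left]
    intro j hj hj'
    rcases mem_union.1 hj with hj | hj
    · obtain ⟨r, rfl⟩ := mem_fagF.1 hj'
      exact (mem_sdiff.1 (hm r).1).2 hj
    · exact ((mT j).1 hj).2.1 hj'
  have rem : ∀ j, j ∉ fagF F → j ∉ ag3 Φ' → j ∉ ag3 Φ ∧
      ∀ v ∈ (g j).its, v ∉ fitF F ∧ v ∉ it3 Φ' ∧ v ∉ Bd := fun j h1 h2 => by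
    rw [p3, mem_union, not_or] at h2
    refine ⟨h2.1, fun v hv => ⟨nF j h2.1 h1 v hv, ?_, fun hb => h2.2 ((mT j).2
      ⟨h2.1, h1, fun hd => disjoint_left.1 hd hv hb⟩)⟩⟩
    rw [p4, mem_union, not_or]
    refine ⟨nΦ j h2.1 v hv, fun h => ?_⟩
    obtain ⟨i, hi, hv'⟩ := mem_biUnion.1 h
    exact disjoint_left.1 (hg.dis j (mA j h2.1) i (hT hi) fun e => h2.2 (e ▸ hi)) hv hv'
  have mAS : ∀ Wt q j, j ∈ (P.SU c F Φ' (Bd \ fitF F) Wt q).A ↔
      j ∉ fagF F ∧ j ∉ ag3 Φ' ∧ j ∉ ag2 Wt := fun Wt q j => by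
    simp only [Geo.SU, mem_sdiff, mem_univ, mem_union, true_and]
    grind
  have mWS : ∀ Wt q v, v ∈ (P.SU c F Φ' (Bd \ fitF F) Wt q).W ↔
      (v ∈ fitF F → v ∈ Geo.expo c F) ∧ v ∉ it3 Φ' ∧ (v ∈ Bd → v ∈ fitF F) ∧ v ∉ it2 Wt :=
    fun Wt q v => by
      simp only [Geo.SU, mem_sdiff, mem_univ, mem_union, true_and]
      grind
  have wf : ∀ Wt q, P.Wf (P.SU c F Φ' (Bd \ fitF F) Wt q) := fun _ _ _ _ _ => Iff.rfl
  have core : ∀ (Wt : Finset (J × V × V)) (q : Prop) (E : Finset V) (l : ℕ),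
      Disjoint (it2 Wt) (fitF F) →
      (∀ j, j ∉ fagF F → j ∉ ag3 Φ' → j ∉ ag2 Wt → Disjoint (g j).its (it2 Wt)) →
      (∀ v ∈ (P.SU c F Φ' (Bd \ fitF F) Wt q).W, q → P.hard c F v → v ∉ fitF F →
        ∃ j ∈ (P.SU c F Φ' (Bd \ fitF F) Wt q).A, (g j).its = {v} ∧ P.C j v) →
      E ⊆ (P.SU c F Φ' (Bd \ fitF F) Wt q).W → Disjoint E (fitF F) →
      (∀ j ∈ (P.SU c F Φ' (Bd \ fitF F) Wt q).A, Disjoint (g j).its E) → l ≤ c + E.card →
      P.TestSL rk (P.SU c F Φ' (Bd \ fitF F) Wt q) e l := fun Wt q E l k1 k2 k3 k4 k5 k6 k7 => by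
    refine hS J V P rk _ l (wf Wt q) (sol_of (f := fun j => (g j).its) (E := Geo.expo c F ∪ E)
      ⟨Subset.rfl, fun j hj v hv => ?_, fun j hj => ?_, fun i hi j hj hij => ?_,
        fun v hv hq => k3 v hv hq.1 hq.2.1 hq.2.2⟩ (union_subset (fun v hv => ?_) k4)
      (fun j hj => ?_) ?_)
    · have a := (mAS Wt q j).1 hj
      have b := (rem j a.1 a.2.1).2 v hv
      exact (mWS Wt q v).2 ⟨fun h => absurd h b.1, b.2.1, fun h => absurd h b.2.2,
        disjoint_left.1 (k2 j a.1 a.2.1 a.2.2) hv⟩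
    · have a := (mAS Wt q j).1 hj
      exact hs j (mA j (rem j a.1 a.2.1).1)
    · have a := (mAS Wt q i).1 hi
      have b := (mAS Wt q j).1 hj
      exact hg.dis i (mA i (rem i a.1 a.2.1).1) j (mA j (rem j b.1 b.2.1).1) hij
    · have a := expo_sub hv
      exact (mWS Wt q v).2 ⟨fun _ => hv, disjoint_right.1 dI a, fun _ => a, disjoint_right.1 k1 a⟩
    · have a := (mAS Wt q j).1 hj
      rw [disjoint_union_right]
      exact ⟨disjoint_left.2 fun v hv h => ((rem j a.1 a.2.1).2 v hv).1 (expo_sub h), k6 j hj⟩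
    · rw [card_union_of_disjoint (k5.mono_right expo_sub).symm, expo_card hF.dis]
      exact k7
  refine ⟨ty, F, Φ', Bd \ fitF F, hF, by omega, (card_le_card sdiff_subset).trans (by omega), p1,
    dA, dI, sdiff_disjoint, fun v h1 _ h3 => ?_, ?_⟩
  · have : v ∉ Bd := fun h => h3 (mem_sdiff.2 ⟨h, h1⟩)
    rw [mB, not_or] at this
    exact this
  have e0 : it2 (∅ : Finset (J × V × V)) = ∅ := by simp [it2]
  by_cases hw : ∃ j, j ∉ fagF F ∧ j ∉ ag3 Φ' ∧ ∃ a b, g j = Sv.two a b ∧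
      (P.hard c F a ∨ P.hard c F b)
  · obtain ⟨j, j1, j2, a, b, j3, j4⟩ := hw
    have n := hg.nrm j (mA j (rem j j1 j2).1)
    rw [j3] at n
    obtain ⟨-, n1, n2, n3⟩ := n
    have ra := (rem j j1 j2).2 a (by simp [j3, Sv.its])
    have rb := (rem j j1 j2).2 b (by simp [j3, Sv.its])
    have ba := ra.2.2
    have bb' := rb.2.2
    rw [mB, not_or] at ba bb'
    obtain ⟨s, s1, s2, s3⟩ : ∃ s : J × V × V, P.WitU c F s ∧ s.1 = j ∧
        ({s.2.1, s.2.2} : Finset V) = (g j).its := by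
      rcases j4 with j4 | j4
      · exact ⟨(j, a, b), ⟨⟨true, n1, n2⟩, n3, j4, bb'.1, bb'.2, j1, ra.1, rb.1⟩, rfl,
          by simp [j3, Sv.its]⟩
      · exact ⟨(j, b, a), ⟨⟨false, n2, n1⟩, fun h => n3 (Geo.HH_symm h), j4, ba.1, ba.2, j1, rb.1,
          ra.1⟩, rfl, by simp [j3, Sv.its, pair_comm]⟩
    have i2 : it2 {s} = (g j).its := by rw [← s3]; simp [it2]
    refine Or.inl ⟨s, s1, s2 ▸ j2, ((rem j j1 j2).2 _ (by rw [← s3]; simp)).2.1,
      ((rem j j1 j2).2 _ (by rw [← s3]; simp)).2.1, core {s} False ∅ c (wit_dis s1)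
        (fun i i1 i3 i4 => ?_) (fun _ _ h => h.elim) (empty_subset _) (disjoint_empty_left _)
        (fun _ _ => disjoint_empty_right _) (by simp)⟩
    rw [i2]
    exact hg.dis i (mA i (rem i i1 i3).1) j (mA j (rem j j1 j2).1) fun h =>
      i4 (by simp [ag2, s2, h])
  refine Or.inr ?_
  have k1 : Disjoint (it2 (∅ : Finset (J × V × V))) (fitF F) := by
    rw [e0]; exact disjoint_empty_left _
  have k2 : ∀ j, j ∉ fagF F → j ∉ ag3 Φ' → j ∉ ag2 (∅ : Finset (J × V × V)) →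
      Disjoint (g j).its (it2 (∅ : Finset (J × V × V))) := fun _ _ _ _ => by
    rw [e0]; exact disjoint_empty_right _
  by_cases hv : ∃ v ∈ (P.SU c F Φ' (Bd \ fitF F) ∅ False).W, v ∉ fitF F ∧
      ∀ j ∈ (P.SU c F Φ' (Bd \ fitF F) ∅ False).A, v ∉ (g j).its
  · obtain ⟨v, v1, v2, v3⟩ := hv
    exact Or.inl (core ∅ False {v} (c + 1) k1 k2 (fun _ _ h => h.elim) (by simpa using v1)
      (by simpa using v2) (fun j hj => by simpa using v3 j hj) (by simp))
  refine Or.inr (core ∅ True ∅ c k1 k2 (fun v v1 _ v2 v3 => ?_) (empty_subset _)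
    (disjoint_empty_left _) (fun _ _ => disjoint_empty_right _) (by simp))
  push Not at hv
  obtain ⟨j, hj, hv'⟩ := hv v v1 v3
  have a := (mAS _ _ j).1 hj
  have n := hg.nrm j (mA j (rem j a.1 a.2.1).1)
  refine ⟨j, hj, ?_⟩
  rcases hj' : g j with _ | x | ⟨x, y⟩ | ⟨x, z, y⟩ <;> rw [hj'] at n hv'
  · exact n.elim
  · have : v = x := mem_singleton.1 hv'
    subst this
    exact ⟨rfl, n⟩
  · refine absurd ⟨j, a.1, a.2.1, x, y, hj', ?_⟩ hw
    rcases mem_insert.1 hv' with h | h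
    · exact Or.inl (h ▸ v2)
    · exact Or.inr (mem_singleton.1 h ▸ v2)
  · exact absurd hj' (hnt j (mA j (rem j a.1 a.2.1).1) x z y)

end Abs

end DUA

open DUA

theorem uaStmt (h1 : UnitStmt) (h2 : WitStmt) : UAStmt := by
  intro J V _ _ _ _ P c ty F Wt Z X hF hw d1 d2 hz hX c1 c2 hp
  obtain ⟨k, hk⟩ := abs_wit h1 h2 hF hw d1 d2 hz c2 hp
  refine st_of_ex (finish hF hk d1 ?_ hX c1)
  rcases hw with rfl | ⟨s, rfl, hs⟩
  · simp [it2]
  · exact wit_dis hs

theorem uSoundStmt (h : UAStmt) : USoundStmt := by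
  intro e c L hS J V _ _ _ _ P rk hrk ⟨ty, F, Φ, D, hF, _, _, hΦ, _, d1, _, hv, hm⟩
  have wf : ∀ Wt q, P.Wf (P.SU c F Φ D Wt q) := fun _ _ _ _ _ => Iff.rfl
  have e0 : Disjoint (it2 (∅ : Finset (J × V × V))) (it3 Φ) := by simp [it2]
  rcases hm with ⟨s, s1, -, s2, s3, ht⟩ | ht | ht
  · refine sound_core h hF hΦ d1 (by simp [it2, s2, s3]) hv (Or.inr ⟨s, rfl, s1⟩)
      (hS J V P rk _ c hrk (wf _ _) le_rfl ht) fun n Z' a1 a2 _ => ?_
    obtain ⟨Z, z1, z2⟩ := exists_subset_card_eq (s := Z') (n := n) (by omega)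
    exact ⟨Z, z1, by omega, by omega, Or.inr (Or.inr (by simp))⟩
  · refine sound_core h hF hΦ d1 e0 hv (Or.inl rfl)
      (hS J V P rk _ (c + 1) hrk (wf _ _) (by omega) ht) fun n Z' a1 a2 _ => ?_
    obtain ⟨Z, z1, z2⟩ := exists_subset_card_eq (s := Z') (n := n + 1) (by omega)
    rcases Nat.even_or_odd (Z.filter fun z => P.hard c F z).card with hp | ⟨k, hk⟩
    · exact ⟨Z, z1, by omega, by omega, Or.inr (Or.inl hp)⟩
    obtain ⟨q, hq⟩ := card_pos.1 (show 0 < (Z.filter fun z => P.hard c F z).card by omega)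
    have c1 := card_erase_of_mem (mem_filter.1 hq).1
    refine ⟨Z.erase q, (erase_subset _ _).trans z1, by omega, by omega, Or.inr (Or.inl ?_)⟩
    rw [filter_erase, card_erase_of_mem hq]
    exact ⟨k, by omega⟩
  · refine sound_core h hF hΦ d1 e0 hv (Or.inl rfl)
      (hS J V P rk _ c hrk (wf _ _) le_rfl ht) fun n Z' a1 a2 a3 => ?_
    obtain ⟨Z, z1, z2⟩ := exists_subset_card_eq (s := Z') (n := n) (by omega)
    refine ⟨Z, z1, by omega, by omega, Or.inr (Or.inl ?_)⟩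
    rw [filter_false_of_mem fun v hv' => a3 trivial v (z1 hv')]
    simp

theorem uNecStmt (hN : NormStmt) (h : UnitStmt) : UNecStmt := by
  intro e c cT hS
  refine ⟨cT + NU c * NU c + 1, fun L hL J V _ _ _ _ P rk Φ g ty F hΦ hc hg hnt hF hm => ?_⟩
  obtain ⟨-, -, -, -, -, h6, -⟩ := hN J V P _ (univ \ ag3 Φ)
    (Geo.wf_pl (P := P) (univ \ ag3 Φ) (univ \ it3 Φ))
  exact nec_main h hS hL rk hΦ hc hg.1 hnt (h6 g hg hnt).srv hF hm

end Pool.Agent.Lib.MP_ef7581_lc.D2
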