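import Pool.Agent.Lib.MP_ef7581_lc.DComp
import Mathlib

-- part Pool.Agent.Lib.MP_ef7581_lc.DUnit
section

/-!
Absorbing gadgets: easy items, hard items, pairs of hard items, and the exceptional items.
-/

set_option autoImplicit false
set_option linter.unusedSectionVars false

namespace Pool.Agent.Lib.MP_ef7581_lc.D2

open Finset Classical

namespace DUnit

open Geo

variable {J V : Type} [Fintype J] [Fintype V] [DecidableEq J] [DecidableEq V] {P : Geo J V}

/-! ### Counting in `Fin N` -/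

theorem card_two {N : ℕ} {s : Finset (Fin N)}
    (h : ∀ r1 ∈ s, ∀ r2 ∈ s, ∀ r3 ∈ s, r1 < r2 → r2 < r3 → False) : s.card ≤ 2 := by
  by_contra hc
  exact h _ (s.orderEmbOfFin_mem rfl ⟨0, by omega⟩) _ (s.orderEmbOfFin_mem rfl ⟨1, by omega⟩) _
    (s.orderEmbOfFin_mem rfl ⟨2, by omega⟩)
    ((s.orderEmbOfFin rfl).strictMono (by simp [Fin.lt_def]))
    ((s.orderEmbOfFin rfl).strictMono (by simp [Fin.lt_def]))

/-- A long interval contains a point outside a small set. -/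
theorem pick {N lo hi : ℕ} (hN : hi ≤ N) {B : Finset (Fin N)} (hB : B.card + lo < hi) :
    ∃ r : Fin N, lo ≤ r.val ∧ r.val < hi ∧ r ∉ B := by
  by_contra hc
  push Not at hc
  have h1 : Ico lo hi ⊆ B.image fun r => r.val := fun x hx => by
    rw [mem_Ico] at hx
    exact mem_image.2 ⟨⟨x, by omega⟩, hc _ hx.1 hx.2, rfl⟩
  have h2 := card_le_card h1
  have h3 : (B.image fun r => r.val).card ≤ B.card := card_image_le
  rw [Nat.card_Ico] at h2
  omega

theorem card_union3 {α : Type} [DecidableEq α] (A B C : Finset α) :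
    (A ∪ B ∪ C).card ≤ A.card + B.card + C.card :=
  (card_union_le _ _).trans (Nat.add_le_add_right (card_union_le _ _) _)

/-! ### Items of a family -/

section Fam

variable {N ty : ℕ} {F : Fin N → Mb J V}

theorem a_mem (F : Fin N → Mb J V) (r : Fin N) : (F r).2.2.1 ∈ fitF F :=
  mem_union_left _ (mem_image.2 ⟨r, mem_univ _, rfl⟩)

theorem b_mem (F : Fin N → Mb J V) (r : Fin N) : (F r).2.2.2 ∈ fitF F :=
  mem_union_right _ (mem_image.2 ⟨r, mem_univ _, rfl⟩)

theorem jj (h : DisF F) {r r' : Fin N} (hr : r ≠ r') : (F r).1 ≠ (F r').1 := fun e => hr (h.1 e)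

theorem aa (h : DisF F) {r r' : Fin N} (hr : r ≠ r') : (F r).2.2.1 ≠ (F r').2.2.1 := fun e =>
  hr (Sum.inl_injective (h.2 (a₁ := Sum.inl r) (a₂ := Sum.inl r') e))

theorem bb (h : DisF F) {r r' : Fin N} (hr : r ≠ r') : (F r).2.2.2 ≠ (F r').2.2.2 := fun e =>
  hr (Sum.inr_injective (h.2 (a₁ := Sum.inr r) (a₂ := Sum.inr r') e))

theorem ab (h : DisF F) (r r' : Fin N) : (F r).2.2.1 ≠ (F r').2.2.2 := fun e =>
  Sum.inl_ne_inr (h.2 (a₁ := Sum.inl r) (a₂ := Sum.inr r') e)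

theorem za {z : V} (h : z ∉ fitF F) (r : Fin N) : z ≠ (F r).2.2.1 := fun e => h (e ▸ a_mem F r)

theorem zb {z : V} (h : z ∉ fitF F) (r : Fin N) : z ≠ (F r).2.2.2 := fun e => h (e ▸ b_mem F r)

/-- Two members have at most one common junk item. -/
theorem junk_uniq (h : P.PFam ty F) {r r' : Fin N} (hr : r ≠ r') {z z' : V}
    (h1 : P.junk (F r).1 z) (h2 : P.junk (F r').1 z) (h3 : P.junk (F r).1 z')
    (h4 : P.junk (F r').1 z') : z = z' := by
  by_contra hne
  rcases lt_or_gt_of_ne hr with hl | hl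
  · exact col_not_C (h.upa r r' hl) (coline (jj h.dis hr.symm) hne h2 h4 h1 h3 (h.own r').1)
  · exact col_not_C (h.upa r' r hl) (coline (jj h.dis hr) hne h1 h3 h2 h4 (h.own r).1)

theorem waste_card (h : P.PFam ty F) : (univ.filter fun z => P.waste F z).card ≤ N * N := by
  have h1 : (univ.filter fun z => P.waste F z) ⊆ (univ : Finset (Fin N × Fin N)).biUnion
      fun p => univ.filter fun z => p.1 ≠ p.2 ∧ P.junk (F p.1).1 z ∧ P.junk (F p.2).1 z :=
    fun z hz => by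
      obtain ⟨r, r', hz⟩ := (mem_filter.1 hz).2
      exact mem_biUnion.2 ⟨(r, r'), mem_univ _, mem_filter.2 ⟨mem_univ _, hz⟩⟩
  refine (card_le_card h1).trans ((card_biUnion_le_card_mul _ _ 1 fun p _ => ?_).trans (by simp))
  refine card_le_one.2 fun z hz z' hz' => ?_
  have h2 := (mem_filter.1 hz).2
  have h3 := (mem_filter.1 hz').2
  exact junk_uniq h h2.1 h2.2.1 h2.2.2 h3.2.1 h3.2.2

theorem PA_card (h : P.PFam ty F) (z : V) :
    (univ.filter fun r => P.cA (F r) z ∧ P.HH z (F r).2.2.2).card ≤ 2 := by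
  refine card_two fun r1 h1 r2 h2 r3 h3 l1 l2 => ?_
  have h1 := (mem_filter.1 h1).2
  have h2 := (mem_filter.1 h2).2
  have h3 := (mem_filter.1 h3).2
  by_cases h0 : ty = 0
  · exact h.ind _ (b_mem F r1) _ (b_mem F r2) (cluster h3.1.1 (h.t0 h0 r1 r3 (l1.trans l2)).2.2.1
      (h.t0 h0 r2 r3 l2).2.2.1 h1.2 h2.2 (bb h.dis l1.ne))
  · exact h.ind _ (b_mem F r2) _ (b_mem F r3) (cluster h1.1.1 (h.upb h0 r1 r2 l1).1
      (h.upb h0 r1 r3 (l1.trans l2)).1 h2.2 h3.2 (bb h.dis l2.ne))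

theorem PB_card (h : P.PFam ty F) (h0 : ty = 0 ∨ ty = 2) (z : V) :
    (univ.filter fun r => P.cB (F r) z ∧ P.HH z (F r).2.2.1).card ≤ 2 := by
  refine card_two fun r1 h1 r2 h2 r3 h3 l1 l2 => ?_
  have h1 := (mem_filter.1 h1).2
  have h2 := (mem_filter.1 h2).2
  have h3 := (mem_filter.1 h3).2
  have k : ∀ r r', r < r' → P.cB (F r') (F r).2.2.1 := fun r r' hl =>
    h0.elim (fun h0 => (h.t0 h0 r r' hl).2.1) fun h0 => h.t2 h0 r r' hl
  exact h.ind _ (a_mem F r1) _ (a_mem F r2) (cluster h3.1.1 (k r1 r3 (l1.trans l2)).1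
    (k r2 r3 l2).1 h1.2 h2.2 (aa h.dis l1.ne))

theorem junk_card {z : V} (hw : ¬ P.waste F z) :
    (univ.filter fun r => P.junk (F r).1 z).card ≤ 1 :=
  card_le_one.2 fun r hr r' hr' => by
    by_contra hne
    exact hw ⟨r, r', hne, (mem_filter.1 hr).2, (mem_filter.1 hr').2⟩

end Fam

variable {c ty n : ℕ} {F : Fin (NU c) → Mb J V} {U : Finset (Fin (NU c))}

/-- The members of the middle zone that do not block `z` on the side `B`. -/
noncomputable def nPB (P : Geo J V) (c : ℕ) (F : Fin (NU c) → Mb J V) (z : V) :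
    Finset (Fin (NU c)) :=
  univ.filter fun r : Fin (NU c) => zM c r ∧ ¬ (P.cB (F r) z ∧ P.HH z (F r).2.2.1)

/-- The members of the second middle zone whose item `b` is not adjacent to `z`. -/
noncomputable def Nb (P : Geo J V) (c : ℕ) (F : Fin (NU c) → Mb J V) (z : V) :
    Finset (Fin (NU c)) :=
  univ.filter fun r : Fin (NU c) => zM2 c r ∧ ¬ P.HH z (F r).2.2.2

theorem of_not_nPB {z : V} {r : Fin (NU c)} (h : r ∉ nPB P c F z) (hr : zM c r) :
    P.cB (F r) z ∧ P.HH z (F r).2.2.1 := by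
  by_contra hc
  exact h (mem_filter.2 ⟨mem_univ _, hr, hc⟩)

theorem zM_of {r : ℕ} (h : zM2 c r) : zM c r := ⟨by have := h.1; omega, h.2⟩

theorem nPB_card (h : P.PFam ty F) {z : V} (he : ¬ P.easy c F z) (hw : ¬ P.waste F z) :
    (nPB P c F z).card ≤ 4 * c + 15 := by
  have h1 : nPB P c F z ⊆ (univ.filter fun r : Fin (NU c) => zM c r ∧ P.dir (F r) z) ∪
      (univ.filter fun r => P.cA (F r) z ∧ P.HH z (F r).2.2.2) ∪
      univ.filter fun r => P.junk (F r).1 z := fun r hr => by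
    have h2 := (mem_filter.1 hr).2
    simp only [mem_union, mem_filter, mem_univ, true_and]
    rcases label (P := P) (F r).1 (F r).2.1 z with k | k | k | k
    · exact Or.inl (Or.inl ⟨h2.1, Or.inl k⟩)
    · by_cases e : P.HH z (F r).2.2.2
      · exact Or.inl (Or.inr ⟨k, e⟩)
      · exact Or.inl (Or.inl ⟨h2.1, Or.inr (Or.inl ⟨k, e⟩)⟩)
    · exact Or.inl (Or.inl ⟨h2.1, Or.inr (Or.inr ⟨k, fun e => h2.2 ⟨k, e⟩⟩)⟩)
    · exact Or.inr k
  have h2 := (card_le_card h1).trans (card_union3 _ _ _)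
  have h3 := PA_card h z
  have h4 := junk_card hw
  unfold easy at he
  omega

theorem ty_odd (h : P.PFam ty F) {z : V} (he : ¬ P.easy c F z) (hw : ¬ P.waste F z) :
    ty = 1 ∨ ty = 3 := by
  by_contra hc
  have h0 : ty = 0 ∨ ty = 2 := by
    have := h.lt4
    omega
  have h1 := nPB_card h he hw
  have h2 := PB_card h h0 z
  have h3 := card_union_le (nPB P c F z)
    (univ.filter fun r => P.cB (F r) z ∧ P.HH z (F r).2.2.1)
  obtain ⟨r, l1, l2, hr⟩ := pick (N := NU c) (lo := c) (hi := c + 53 * (4 * c + 12))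
    (by unfold NU; omega)
    (B := nPB P c F z ∪ univ.filter fun r => P.cB (F r) z ∧ P.HH z (F r).2.2.1) (by omega)
  rw [mem_union, not_or] at hr
  exact hr.2 (mem_filter.2 ⟨mem_univ _, of_not_nPB hr.1 ⟨l1, l2⟩⟩)

theorem star_card (h : P.PFam ty F) : (univ.filter fun z => P.star c F z).card ≤ 1 := by
  refine card_le_one.2 fun z hz z' hz' => ?_
  obtain ⟨e1, w1, n1⟩ := (mem_filter.1 hz).2
  obtain ⟨e2, w2, n2⟩ := (mem_filter.1 hz').2
  by_contra hne
  have h1 := nPB_card h e1 w1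
  have h2 := nPB_card h e2 w2
  have n1' : (Nb P c F z).card < 20 * (4 * c + 12) := n1
  have n2' : (Nb P c F z').card < 20 * (4 * c + 12) := n2
  have h3 := card_union_le (nPB P c F z ∪ nPB P c F z') (Nb P c F z ∪ Nb P c F z')
  have h4 := card_union_le (nPB P c F z) (nPB P c F z')
  have h5 := card_union_le (Nb P c F z) (Nb P c F z')
  obtain ⟨r, l1, l2, hr⟩ := pick (N := NU c) (lo := c + 3 * (4 * c + 12))
    (hi := c + 53 * (4 * c + 12)) (by unfold NU; omega)
    (B := (nPB P c F z ∪ nPB P c F z') ∪ (Nb P c F z ∪ Nb P c F z')) (by omega)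
  simp only [mem_union, not_or] at hr
  have m2 : zM2 c r := ⟨l1, l2⟩
  obtain ⟨c1, a1⟩ := of_not_nPB hr.1.1 (zM_of m2)
  obtain ⟨c2, a2⟩ := of_not_nPB hr.1.2 (zM_of m2)
  have b1 : P.HH z (F r).2.2.2 := by
    by_contra hc
    exact hr.2.1 (mem_filter.2 ⟨mem_univ _, m2, hc⟩)
  have b2 : P.HH z' (F r).2.2.2 := by
    by_contra hc
    exact hr.2.2 (mem_filter.2 ⟨mem_univ _, m2, hc⟩)
  exact ind (P := P) (u := Sum.inl z) (v := Sum.inl z') (fun e => hne (Sum.inl_injective e))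
    a1 a2 b1 b2 (fun e => ab h.dis r r (Sum.inl_injective e))
    (h.ind _ (a_mem F r) _ (b_mem F r)) (P.symm _ _ c1.1) (P.symm _ _ c2.1) b1 b2 (h.own r).2.1

theorem Nb_card {z : V} (hz : P.hard c F z) : 20 * (4 * c + 12) ≤ (Nb P c F z).card := by
  by_contra hc
  exact hz.2.2 ⟨hz.1, hz.2.1, not_le.1 hc⟩

/-! ### Gadgets -/

theorem serv_one {j : J} {x : V} (h : P.C j x) : P.Serv2 (P.pl univ univ) j {x} :=
  Or.inl ⟨x, mem_singleton_self x, h⟩

theorem serv_two {j : J} {x y : V} (h : P.Pr j x y) : P.Serv2 (P.pl univ univ) j {x, y} :=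
  Or.inr ⟨trivial, x, by simp, y, by simp, h⟩

/-- A gadget with at most two members. -/
theorem absorb2 {r r' : Fin (NU c)} (hr : r ∉ U) (hr' : r' ∉ U) (hc : c ≤ r.val)
    (hc' : c ≤ r'.val) {s s' Gd Z : Finset V} (hG : Gd.card = n)
    (good : ∀ x ∈ Gd, goodI ty F {r, r'} x)
    (hs : ∀ x ∈ s ∪ s', (x = (F r).2.2.1 ∨ x = (F r).2.2.2 ∨ x = (F r').2.2.1 ∨
      x = (F r').2.2.2 ∨ x ∈ Z) ∧ x ∉ Gd)
    (sv : P.Serv2 (P.pl univ univ) (F r).1 s)
    (sv' : r ≠ r' → P.Serv2 (P.pl univ univ) (F r').1 s') (dis : Disjoint s s') :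
    P.Absorb c ty F U ∅ Z n := by
  have hA : ∀ j, j ∈ (({r, r'} : Finset (Fin (NU c))).image fun r => (F r).1) ∪
      ag2 (∅ : Finset (J × V × V)) → j = (F r).1 ∨ (j = (F r').1 ∧ j ≠ (F r).1 ∧ r ≠ r') := by
    intro j hj
    simp only [ag2, image_empty, union_empty, image_insert, image_singleton, mem_insert,
      mem_singleton] at hj
    by_cases e : j = (F r).1
    · exact Or.inl e
    · exact Or.inr ⟨hj.resolve_left e, e, fun e' => e (e' ▸ hj.resolve_left e)⟩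
  refine ⟨{r, r'}, fun j => if j = (F r).1 then s else s', Gd, ?_, card_le_two.trans (by omega),
    ?_, hG, good, ⟨Subset.rfl, fun j _ x hx => ?_, fun j hj => ?_, fun i hi j hj hij => ?_,
      fun v _ hv => hv.elim⟩⟩
  · simp [disjoint_left, hr, hr']
  · simp [hc, hc']
  · have h1 := hs x (by
      rw [mem_union]
      split_ifs at hx
      · exact Or.inl hx
      · exact Or.inr hx)
    simp only [pl, it2, biUnion_empty, union_empty, mem_sdiff, mem_union, biUnion_insert,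
      singleton_biUnion, mem_insert, mem_singleton]
    tauto
  · rcases hA j hj with e | ⟨e, e', e''⟩
    · rw [if_pos e, e]
      exact sv
    · rw [if_neg e', e]
      exact sv' e''
  · rcases hA i hi with e | ⟨e, e', -⟩ <;> rcases hA j hj with f | ⟨f, f', -⟩
    · exact absurd (e.trans f.symm) hij
    · rw [if_pos e, if_neg f']
      exact dis
    · rw [if_neg e', if_pos f]
      exact dis.symm
    · exact absurd (e.trans f.symm) hij

theorem good_a {r r' : Fin (NU c)} : goodI ty F {r, r'} (F r).2.2.1 := ⟨r, by simp, Or.inl rfl⟩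

theorem good_a' {r r' : Fin (NU c)} : goodI ty F {r, r'} (F r').2.2.1 :=
  ⟨r', by simp, Or.inl rfl⟩

theorem easy_abs (h : P.PFam ty F) (hU : U.card ≤ 3 * c + 3) {z : V} (hz : z ∉ fitF F)
    (he : P.easy c F z) : P.Absorb c ty F U ∅ {z} 1 := by
  unfold easy at he
  obtain ⟨r, hr, rU⟩ := exists_mem_notMem_of_card_lt_card (s := U)
    (t := univ.filter fun r : Fin (NU c) => zM c r ∧ P.dir (F r) z) (by omega)
  obtain ⟨m, hd⟩ := (mem_filter.1 hr).2
  have z1 := za hz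
  have z2 := zb hz
  have z3 := ab h.dis
  rcases hd with hd | hd | hd
  · exact absorb2 rU rU m.1 m.1 (s := {z}) (s' := ∅) (card_singleton (F r).2.2.1)
      (fun x hx => mem_singleton.1 hx ▸ good_a) (by simp [z1]) (serv_one hd) (fun e => absurd rfl e) (by simp)
  · exact absorb2 rU rU m.1 m.1 (s := {z, (F r).2.2.2}) (s' := ∅)
      (card_singleton (F r).2.2.1) (fun x hx => mem_singleton.1 hx ▸ good_a)
      (by simp [z1, (z3 r r).symm])
      (serv_two (Pr_of_col hd.1 (h.own r).2 hd.2)) (fun e => absurd rfl e) (by simp)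
  · have sv := serv_two (Pr_of_col (h.own r).1 hd.1 fun e => hd.2 (HH_symm e))
    by_cases h0 : ty = 0
    · obtain ⟨r', l1, -, rU'⟩ := pick (N := NU c) (lo := c + 53 * (4 * c + 12))
        (hi := c + 55 * (4 * c + 12)) le_rfl (B := U) (by omega)
      have hl : r < r' := Fin.lt_def.2 (lt_of_lt_of_le m.2 l1)
      exact absorb2 rU rU' m.1 (by omega) (s' := {(F r).2.2.2, (F r').2.2.2})
        (card_singleton (F r').2.2.1) (by simp [good_a'])
        (by simp [z1, aa h.dis hl.ne, (z3 r' r).symm, (z3 r' r').symm]) sv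
        (fun _ => serv_two (Pr_of_col (h.t0 h0 r r' hl).2.2 (h.own r').2
          (h.ind _ (b_mem F r) _ (b_mem F r'))))
        (by simp [(z2 r).symm, (z2 r').symm, (z3 r r).symm, (z3 r r').symm])
    · exact absorb2 rU rU m.1 m.1 (s' := ∅) (card_singleton (F r).2.2.2)
        (fun x hx => ⟨r, by simp, Or.inr ⟨h0, mem_singleton.1 hx⟩⟩) (by simp [z2, z3]) sv
        (fun e => absurd rfl e) (by simp)

theorem hard_abs (h : P.PFam ty F) (hU : U.card ≤ 3 * c + 3) {z : V} (hz : z ∉ fitF F)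
    (hh : P.hard c F z) (h3 : ty ≠ 3) : P.Absorb c ty F U ∅ {z} 1 := by
  have h1 : ty = 1 := (ty_odd h hh.1 hh.2.1).resolve_right h3
  have c1 := nPB_card h hh.1 hh.2.1
  have c2 := Nb_card hh
  have c3 := card_union_le U (nPB P c F z)
  obtain ⟨r, l1, l2, hr⟩ := pick (N := NU c) (lo := c) (hi := c + 3 * (4 * c + 12))
    (by unfold NU; omega) (B := U ∪ nPB P c F z) (by omega)
  rw [mem_union, not_or] at hr
  obtain ⟨r', hr', rU'⟩ := exists_mem_notMem_of_card_lt_card (s := U) (t := Nb P c F z)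
    (by omega)
  obtain ⟨m, nb⟩ := (mem_filter.1 hr').2
  have hl : r < r' := Fin.lt_def.2 (lt_of_lt_of_le l2 m.1)
  have cb := (of_not_nPB hr.2 ⟨l1, by omega⟩).1
  have sv := serv_two (Pr_of_col (h.upb (by omega) r r' hl) cb fun e => nb (HH_symm e))
  have z1 := za hz
  have z2 := zb hz
  have z3 := ab h.dis
  rcases h.t1 h1 r r' hl with k | k
  · exact absorb2 hr.1 rU' l1 (zM_of m).1 (s' := {(F r').2.2.1, (F r).2.2.2})
      (card_singleton (F r).2.2.1) (by simp [good_a])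
      (by simp [z1, aa h.dis hl.ne', (z3 r r).symm, (z3 r r').symm]) sv
      (fun _ => serv_two ⟨z3 r' r, h.ind _ (a_mem F r') _ (b_mem F r), !(F r').2.1,
        (h.own r').1.2, by simpa using k⟩)
      (by simp [z3, bb h.dis hl.ne, (z1 r').symm, (z2 r).symm])
  · exact absorb2 hr.1 rU' l1 (zM_of m).1 (s' := {(F r).2.2.1})
      (card_singleton (F r').2.2.1) (by simp [good_a'])
      (by simp [z1, aa h.dis hl.ne, (z3 r' r').symm]) sv (fun _ => serv_one k)
      (by simp [z3, (z1 r).symm])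

theorem pair_abs (h : P.PFam 3 F) (hU : U.card ≤ 3 * c + 3) {q q' : V} (hq : q ∉ fitF F)
    (hq' : q' ∉ fitF F) (hne : q ≠ q') (hh : P.hard c F q) (hh' : P.hard c F q') :
    P.Absorb c 3 F U ∅ {q, q'} 2 := by
  have c1 := nPB_card h hh.1 hh.2.1
  have c2 := Nb_card hh
  have c3 := nPB_card h hh'.1 hh'.2.1
  have c4 := Nb_card hh'
  have c5 := card_union_le U (nPB P c F q)
  obtain ⟨r, hr, rU⟩ := exists_mem_notMem_of_card_lt_card (s := U ∪ nPB P c F q)
    (t := Nb P c F q') (by omega)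
  have c6 := card_union3 U (nPB P c F q') {r}
  rw [card_singleton] at c6
  obtain ⟨r', hr', rU'⟩ := exists_mem_notMem_of_card_lt_card (s := U ∪ nPB P c F q' ∪ {r})
    (t := Nb P c F q) (by omega)
  simp only [mem_union, not_or, mem_singleton] at rU rU'
  obtain ⟨m, nb⟩ := (mem_filter.1 hr).2
  obtain ⟨m', nb'⟩ := (mem_filter.1 hr').2
  have cb := (of_not_nPB rU.2 (zM_of m)).1
  have cb' := (of_not_nPB rU'.1.2 (zM_of m')).1
  have k : ∀ x y : Fin (NU c), x ≠ y → P.cA (F x) (F y).2.2.2 := fun x y hxy =>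
    (lt_or_gt_of_ne hxy).elim (h.upb (by omega) x y) fun hl => (h.t3 rfl y x hl).2
  have hr : r' ≠ r := rU'.2
  have z1 := za hq
  have z2 := zb hq
  have z1' := za hq'
  have z2' := zb hq'
  have z3 := fun x y => (ab h.dis x y).symm
  exact absorb2 rU.1 rU'.1.1 (zM_of m).1 (zM_of m').1 (s := {(F r').2.2.2, q})
    (s' := {(F r).2.2.2, q'}) (card_pair (aa h.dis hr.symm)) (by simp [good_a, good_a'])
    (by simp [z1, z1', z3])
    (serv_two (Pr_of_col (k r r' hr.symm) cb fun e => nb' (HH_symm e)))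
    (fun _ => serv_two (Pr_of_col (k r' r hr) cb' fun e => nb (HH_symm e)))
    (by simp [z2', hne.symm, bb h.dis hr.symm, (z2 r).symm])

end DUnit

theorem unitStmt : UnitStmt := fun _ _ _ _ _ _ _ _ _ _ h =>
  ⟨DUnit.waste_card h, DUnit.star_card h, fun _ hz => DUnit.nPB_card h hz.1 hz.2.1, fun _ hU =>
    ⟨fun _ hz he => DUnit.easy_abs h hU hz he, fun _ hz hh h3 => DUnit.hard_abs h hU hz hh h3,
      fun _ _ hq hq' hne hh hh' h3 => by
        subst h3
        exact DUnit.pair_abs h hU hq hq' hne hh hh'⟩⟩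

end Pool.Agent.Lib.MP_ef7581_lc.D2
end

-- part Pool.Agent.Lib.MP_ef7581_lc.DWit
section

/-!
The witness gadget of the absorbing family of type 3.
-/

set_option autoImplicit false
set_option linter.unusedSectionVars false

namespace Pool.Agent.Lib.MP_ef7581_lc.D2

open Finset Classical

namespace DWit

variable {J V : Type} [Fintype J] [Fintype V] [DecidableEq J] [DecidableEq V] {P : Geo J V}

/-- A state from an explicit list of services. -/
theorem st_of_fin {n m : ℕ} {agt : Fin n → J} (hagt : Function.Injective agt) {it : Fin m → V}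
    (hit : Function.Injective it) (sv : Fin n → Fin m × Fin m)
    (hok : ∀ i, P.Ok (agt i) (it (sv i).1) (it (sv i).2))
    (hd : ∀ i k, i ≠ k → (sv i).1 ≠ (sv k).1 ∧ (sv i).1 ≠ (sv k).2 ∧ (sv i).2 ≠ (sv k).2)
    {A : Finset J} {W : Finset V} (hA : ∀ j ∈ A, ∃ i, agt i = j)
    (hW : ∀ i, it (sv i).1 ∈ W ∧ it (sv i).2 ∈ W) :
    ∃ f, St (P.pl A W) (P.Serv2 (P.pl univ univ)) A f := by
  let f : J → Finset V := fun j =>
    if h : ∃ i, agt i = j then {it (sv h.choose).1, it (sv h.choose).2} else ∅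
  have hf : ∀ i, f (agt i) = {it (sv i).1, it (sv i).2} := by
    intro i
    have h : ∃ k, agt k = agt i := ⟨i, rfl⟩
    have e : h.choose = i := hagt h.choose_spec
    simp only [f, dif_pos h, e]
  refine ⟨f, Subset.rfl, ?_, ?_, ?_, fun _ _ h => h.elim⟩
  · intro j hj
    obtain ⟨i, rfl⟩ := hA j hj
    rw [hf]
    intro x hx
    rw [mem_insert, mem_singleton] at hx
    rcases hx with rfl | rfl
    · exact (hW i).1
    · exact (hW i).2
  · intro j hj
    obtain ⟨i, rfl⟩ := hA j hj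
    rw [hf]
    exact Geo.serv_of_Ok (Geo.wf_pl _ _) trivial (hok i)
  · intro j hj j' hj' hne
    obtain ⟨i, rfl⟩ := hA j hj
    obtain ⟨k, rfl⟩ := hA j' hj'
    have hik : i ≠ k := fun e => hne (by rw [e])
    obtain ⟨d1, d2, d3⟩ := hd i k hik
    have d4 := (hd k i hik.symm).2.1
    rw [hf, hf, disjoint_left]
    intro x hx hx'
    rw [mem_insert, mem_singleton] at hx hx'
    rcases hx with rfl | rfl <;> rcases hx' with e | e
    · exact d1 (hit e)
    · exact d2 (hit e)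
    · exact d4 (hit e).symm
    · exact d3 (hit e)

variable {N : ℕ} {F : Fin N → Mb J V}

theorem a_mem (r : Fin N) : (F r).2.2.1 ∈ fitF F :=
  mem_union_left _ (mem_image_of_mem _ (mem_univ r))

theorem b_mem (r : Fin N) : (F r).2.2.2 ∈ fitF F :=
  mem_union_right _ (mem_image_of_mem _ (mem_univ r))

theorem aa_ne (h : DisF F) {r r' : Fin N} (hr : r ≠ r') : (F r).2.2.1 ≠ (F r').2.2.1 :=
  fun e => hr (Sum.inl_injective (h.2 (a₁ := Sum.inl r) (a₂ := Sum.inl r') e))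

theorem bb_ne (h : DisF F) {r r' : Fin N} (hr : r ≠ r') : (F r).2.2.2 ≠ (F r').2.2.2 :=
  fun e => hr (Sum.inr_injective (h.2 (a₁ := Sum.inr r) (a₂ := Sum.inr r') e))

theorem ab_ne (h : DisF F) (r r' : Fin N) : (F r).2.2.1 ≠ (F r').2.2.2 :=
  fun e => Sum.inl_ne_inr (h.2 (a₁ := Sum.inl r) (a₂ := Sum.inr r') e)

theorem seeA (h : P.PFam 3 F) {r r' : Fin N} (hr : r ≠ r') :
    P.cA (F r) (F r').2.2.1 ∧ P.cA (F r) (F r').2.2.2 := by
  rcases lt_or_gt_of_ne hr with l | l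
  · exact ⟨h.upa r r' l, h.upb (by norm_num) r r' l⟩
  · exact h.t3 rfl r' r l

theorem okAB {m : Mb J V} {u v : V} (hu : P.cA m u) (hv : P.cB m v) (n : ¬ P.HH u v) :
    P.Ok m.1 u v := Or.inr (Or.inr (Geo.Pr_of_col hu hv n))

theorem okOwn (h : P.PFam 3 F) (r : Fin N) : P.Ok (F r).1 (F r).2.2.1 (F r).2.2.2 :=
  okAB (h.own r).1 (h.own r).2 (h.ind _ (a_mem r) _ (b_mem r))

/-- The nine items in play. -/
def its (F : Fin N → Mb J V) (x y v : Fin N) (q q' z' : V) : Fin 9 → V :=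
  ![(F x).2.2.1, (F x).2.2.2, (F y).2.2.1, (F y).2.2.2, (F v).2.2.1, (F v).2.2.2, q, q', z']

/-- The four agents in play. -/
def agts (F : Fin N → Mb J V) (x y v : Fin N) (g : J) : Fin 4 → J :=
  ![g, (F x).1, (F y).1, (F v).1]

theorem its_inj (h : DisF F) {x y v : Fin N} {q q' z' : V} (xy : x ≠ y) (xv : x ≠ v)
    (yv : y ≠ v) (hq : q ∉ fitF F) (hq' : q' ∉ fitF F) (hz : z' ∉ fitF F) (e1 : q ≠ q')
    (e2 : q ≠ z') (e3 : q' ≠ z') : Function.Injective (its F x y v q q' z') := by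
  have na : ∀ {u : V}, u ∉ fitF F → ∀ r, (F r).2.2.1 ≠ u := fun hu r e => hu (e ▸ a_mem r)
  have nb : ∀ {u : V}, u ∉ fitF F → ∀ r, (F r).2.2.2 ≠ u := fun hu r e => hu (e ▸ b_mem r)
  have : (List.ofFn (its F x y v q q' z')).Nodup := by
    simp [its, List.ofFn_succ, aa_ne h xy, aa_ne h xv, aa_ne h yv, bb_ne h xy, bb_ne h xv,
      bb_ne h yv, ab_ne h, (ab_ne h _ _).symm, na hq, na hq', na hz, nb hq, nb hq', nb hz,
      e1, e2, e3]
  exact List.nodup_ofFn.1 this

theorem agts_inj (h : DisF F) {x y v : Fin N} {g : J} (xy : x ≠ y) (xv : x ≠ v)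
    (yv : y ≠ v) (hg : g ∉ fagF F) : Function.Injective (agts F x y v g) := by
  have ng : ∀ r, g ≠ (F r).1 := fun r e => hg (e ▸ mem_image_of_mem _ (mem_univ r))
  have nj : ∀ {r r' : Fin N}, r ≠ r' → (F r).1 ≠ (F r').1 := fun hr e => hr (h.1 e)
  have : (List.ofFn (agts F x y v g)).Nodup := by
    simp [agts, List.ofFn_succ, ng, nj xy, nj xv, nj yv]
  exact List.nodup_ofFn.1 this

/-- Three fresh members and the witness absorb `q`. -/
theorem absorb3 {c : ℕ} {F : Fin (NU c) → Mb J V} (h : DisF F) {U : Finset (Fin (NU c))}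
    {s : J × V × V} {q : V} {x y v : Fin (NU c)} (xy : x ≠ y) (xv : x ≠ v) (yv : y ≠ v)
    (hx : x ∉ U ∧ c ≤ x.val) (hy : y ∉ U ∧ c ≤ y.val) (hv : v ∉ U ∧ c ≤ v.val)
    (hg : s.1 ∉ fagF F) (hq : q ∉ fitF F) (hq' : s.2.1 ∉ fitF F) (hz : s.2.2 ∉ fitF F)
    (e1 : q ≠ s.2.1) (e2 : q ≠ s.2.2) (e3 : s.2.1 ≠ s.2.2) (sv : Fin 4 → Fin 9 × Fin 9)
    (t : Fin 9) (ht : t = 2 ∨ t = 4)
    (hd : ∀ i k, i ≠ k → (sv i).1 ≠ (sv k).1 ∧ (sv i).1 ≠ (sv k).2 ∧ (sv i).2 ≠ (sv k).2)
    (ht' : ∀ i, (sv i).1 ≠ t ∧ (sv i).2 ≠ t)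
    (hok : ∀ i, P.Ok (agts F x y v s.1 i) (its F x y v q s.2.1 s.2.2 (sv i).1)
      (its F x y v q s.2.1 s.2.2 (sv i).2)) :
    P.Absorb c 3 F U {s} {q} 1 := by
  have hi := its_inj h xy xv yv hq hq' hz e1 e2 e3
  have hmem : ∀ i, its F x y v q s.2.1 s.2.2 i ∈
      (({x, y, v} : Finset (Fin (NU c))).biUnion fun r => {(F r).2.2.1, (F r).2.2.2}) ∪ {q} ∪
        it2 {s} := by
    intro i
    fin_cases i <;> simp [its, it2]
  obtain ⟨f, hf⟩ := st_of_fin (P := P) (agts_inj h xy xv yv hg) hi sv hok hd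
    (A := (({x, y, v} : Finset (Fin (NU c))).image fun r => (F r).1) ∪ ag2 {s})
    (W := ((({x, y, v} : Finset (Fin (NU c))).biUnion fun r => {(F r).2.2.1, (F r).2.2.2}) ∪
      {q} ∪ it2 {s}) \ {its F x y v q s.2.1 s.2.2 t})
    (by
      intro j hj
      simp only [ag2, image_insert, image_singleton, mem_union, mem_insert, mem_singleton] at hj
      rcases hj with (rfl | rfl | rfl) | rfl
      · exact ⟨1, rfl⟩
      · exact ⟨2, rfl⟩
      · exact ⟨3, rfl⟩
      · exact ⟨0, rfl⟩)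
    (fun i => ⟨mem_sdiff.2 ⟨hmem _, fun e => (ht' i).1 (hi (mem_singleton.1 e))⟩,
      mem_sdiff.2 ⟨hmem _, fun e => (ht' i).2 (hi (mem_singleton.1 e))⟩⟩)
  refine ⟨{x, y, v}, f, {its F x y v q s.2.1 s.2.2 t}, ?_, card_le_three, ?_, card_singleton _,
    ?_, hf⟩
  · rw [disjoint_left]
    intro r hr
    simp only [mem_insert, mem_singleton] at hr
    rcases hr with rfl | rfl | rfl
    · exact hx.1
    · exact hy.1
    · exact hv.1
  · intro r hr
    simp only [mem_insert, mem_singleton] at hr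
    rcases hr with rfl | rfl | rfl
    · exact hx.2
    · exact hy.2
    · exact hv.2
  · intro u hu
    rw [mem_singleton] at hu
    subst hu
    rcases ht with rfl | rfl
    · exact ⟨y, by simp, Or.inl rfl⟩
    · exact ⟨v, by simp, Or.inl rfl⟩

/-- At most one first item is adjacent to a terminal and to a neighbour of that terminal. -/
theorem one_a {ty : ℕ} (h : P.PFam ty F) {g : J} {o : Bool} {z : V} (hz : P.adj g o z) :
    (univ.filter fun r => P.adj g o (F r).2.2.1 ∧ P.HH z (F r).2.2.1).card ≤ 1 := by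
  refine card_le_one.2 fun r hr r' hr' => ?_
  rw [mem_filter] at hr hr'
  by_contra hne
  exact h.ind _ (a_mem r) _ (a_mem r')
    (Geo.cluster hz hr.2.1 hr'.2.1 hr.2.2 hr'.2.2 (aa_ne h.dis hne))

theorem one_junk_b {ty : ℕ} (h : P.PFam ty F) (g : J) :
    (univ.filter fun r => P.junk g (F r).2.2.2).card ≤ 1 := by
  refine card_le_one.2 fun r hr r' hr' => ?_
  rw [mem_filter] at hr hr'
  by_contra hne
  exact h.ind _ (b_mem r) _ (b_mem r') (Geo.junk_hh hr.2 hr'.2 (bb_ne h.dis hne))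

theorem one_junk {z : V} (hz : ¬ P.waste F z) :
    (univ.filter fun r => P.junk (F r).1 z).card ≤ 1 := by
  refine card_le_one.2 fun r hr r' hr' => ?_
  rw [mem_filter] at hr hr'
  by_contra hne
  exact hz ⟨r, r', hne, hr.2, hr'.2⟩

/-- The properties of the members that are used. -/
structure Good (P : Geo J V) (c : ℕ) (F : Fin (NU c) → Mb J V) (U : Finset (Fin (NU c)))
    (s : J × V × V) (p : Bool) (q : V) (r : Fin (NU c)) : Prop where
  fresh : r ∉ U ∧ c ≤ r.val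
  zm : zM c r
  bq : P.cB (F r) q
  aq : P.HH q (F r).2.2.1
  bq' : P.cB (F r) s.2.1
  np : ¬ P.adj s.1 p (F r).2.2.1
  nj : ¬ P.junk (F r).1 s.2.2
  nz : P.adj s.1 (!p) (F r).2.2.1 → ¬ P.HH s.2.2 (F r).2.2.1
  nb : ¬ P.junk s.1 (F r).2.2.2

theorem exists_bad (hU : UnitStmt) {c : ℕ} {F : Fin (NU c) → Mb J V}
    {U : Finset (Fin (NU c))} {s : J × V × V} {p : Bool} {q : V} (h : P.PFam 3 F)
    (hc : U.card ≤ 3 * c + 3) (h1 : P.col s.1 p s.2.1) (h2 : P.col s.1 (!p) s.2.2)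
    (hq' : P.hard c F s.2.1) (hw : ¬ P.waste F s.2.2) (hq : P.hard c F q) :
    ∃ B : Finset (Fin (NU c)), B.card ≤ 11 * c + 37 ∧
      ∀ r : Fin (NU c), zM c r → r ∉ B → Good P c F U s p q r := by
  obtain ⟨-, -, hPB, -⟩ := hU J V P c 3 F h
  have c1 := hPB q hq
  have c2 := hPB _ hq'
  have c3 := one_a h h1.1
  have c4 := one_a h h2.1
  have c5 := one_junk hw
  have c6 := one_junk_b h s.1
  refine ⟨U ∪ (univ.filter fun r : Fin (NU c) =>
      zM c r ∧ ¬ (P.cB (F r) q ∧ P.HH q (F r).2.2.1)) ∪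
    (univ.filter fun r : Fin (NU c) =>
      zM c r ∧ ¬ (P.cB (F r) s.2.1 ∧ P.HH s.2.1 (F r).2.2.1)) ∪
    (univ.filter fun r => P.adj s.1 p (F r).2.2.1 ∧ P.HH s.2.1 (F r).2.2.1) ∪
    (univ.filter fun r => P.adj s.1 (!p) (F r).2.2.1 ∧ P.HH s.2.2 (F r).2.2.1) ∪
    (univ.filter fun r => P.junk (F r).1 s.2.2) ∪
    (univ.filter fun r => P.junk s.1 (F r).2.2.2), ?_, ?_⟩
  · refine (card_union_le _ _).trans ?_
    refine (Nat.add_le_add_right (card_union_le _ _) _).trans ?_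
    refine (Nat.add_le_add_right (Nat.add_le_add_right (card_union_le _ _) _) _).trans ?_
    refine (Nat.add_le_add_right (Nat.add_le_add_right (Nat.add_le_add_right
      (card_union_le _ _) _) _) _).trans ?_
    refine (Nat.add_le_add_right (Nat.add_le_add_right (Nat.add_le_add_right
      (Nat.add_le_add_right (card_union_le _ _) _) _) _) _).trans ?_
    refine (Nat.add_le_add_right (Nat.add_le_add_right (Nat.add_le_add_right
      (Nat.add_le_add_right (Nat.add_le_add_right (card_union_le _ _) _) _) _) _) _).trans ?_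
    omega
  · intro r hz hr
    simp only [mem_union, mem_filter, mem_univ, true_and, not_or, hz, not_not] at hr
    obtain ⟨⟨⟨⟨⟨⟨r0, r1⟩, r2⟩, r3⟩, r4⟩, r5⟩, r6⟩ := hr
    exact ⟨⟨r0, hz.1⟩, hz, r1.1, r1.2, r2.1, fun a => r3 ⟨a, r2.2⟩, r5, fun a b => r4 ⟨a, b⟩,
      r6⟩

theorem pick {α : Type} [DecidableEq α] {S B T : Finset α} (h : B.card + T.card < S.card) :
    ∃ r ∈ S, r ∉ B ∧ r ∉ T := by
  obtain ⟨r, hr, hn⟩ := exists_mem_notMem_of_card_lt_card
    (lt_of_le_of_lt (card_union_le B T) h)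
  rw [mem_union, not_or] at hn
  exact ⟨r, hr, hn⟩

end DWit

open DWit in
theorem witStmt (h : UnitStmt) : WitStmt := by
  intro J V _ _ _ _ P c F U s q hF hc hW hqF e1 e2 hq
  obtain ⟨⟨p, h1, h2⟩, hqz, hq', hw, -, hg, hq'F, hzF⟩ := hW
  have e3 : s.2.1 ≠ s.2.2 := Geo.col_ne h1 h2
  obtain ⟨B, hB, hgood⟩ := exists_bad h hF hc h1 h2 hq' hw hq
  have pickN : ∀ z, P.hard c F z → ∀ T : Finset (Fin (NU c)), T.card ≤ 6 * (4 * c + 12) + 3 →
      ∃ r, Good P c F U s p q r ∧ ¬ P.HH (F r).2.2.2 z ∧ r ∉ T := by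
    intro z hz T hT
    have hN : 20 * (4 * c + 12) ≤
        (univ.filter fun r : Fin (NU c) => zM2 c r ∧ ¬ P.HH z (F r).2.2.2).card := by
      by_contra hlt
      exact hz.2.2 ⟨hz.1, hz.2.1, not_le.1 hlt⟩
    obtain ⟨r, hr, rB, rT⟩ := pick (S := univ.filter fun r : Fin (NU c) =>
      zM2 c r ∧ ¬ P.HH z (F r).2.2.2) (B := B) (T := T) (by omega)
    rw [mem_filter] at hr
    have hz2 := hr.2.1
    exact ⟨r, hgood r ⟨by unfold zM2 at hz2; omega, hz2.2⟩ rB,
      fun a => hr.2.2 (Geo.HH_symm a), rT⟩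
  have fin : ∀ {x y v : Fin (NU c)}, x ≠ y → x ≠ v → y ≠ v → Good P c F U s p q x →
      Good P c F U s p q y → Good P c F U s p q v → ∀ (sv : Fin 4 → Fin 9 × Fin 9) (t : Fin 9),
      (t = 2 ∨ t = 4) →
      (∀ i k, i ≠ k → (sv i).1 ≠ (sv k).1 ∧ (sv i).1 ≠ (sv k).2 ∧ (sv i).2 ≠ (sv k).2) →
      (∀ i, (sv i).1 ≠ t ∧ (sv i).2 ≠ t) →
      (∀ i, P.Ok (agts F x y v s.1 i) (its F x y v q s.2.1 s.2.2 (sv i).1)
        (its F x y v q s.2.1 s.2.2 (sv i).2)) → P.Absorb c 3 F U {s} {q} 1 :=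
    fun xy xv yv gx gy gv sv t ht hd ht' hok =>
      absorb3 hF.dis xy xv yv gx.fresh gy.fresh gv.fresh hg hqF hq'F hzF e1 e2 e3 sv t ht hd
        ht' hok
  by_cases hC : ∃ x, Good P c F U s p q x ∧ P.C s.1 (F x).2.2.1
  · obtain ⟨x, gx, hx⟩ := hC
    obtain ⟨v, gv, nv, vT⟩ := pickN _ hq' {x} (by rw [card_singleton]; omega)
    obtain ⟨y, gy, ny, yT⟩ := pickN _ hq {x, v} (card_le_two.trans (by omega))
    simp only [mem_insert, mem_singleton, not_or] at vT yT
    have xy : x ≠ y := Ne.symm yT.1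
    have xv : x ≠ v := Ne.symm vT
    have yv : y ≠ v := yT.2
    refine fin xy xv yv gx gy gv ![(0, 0), (4, 1), (5, 7), (3, 6)] 2 (Or.inl rfl) (by decide)
      (by decide) fun i => ?_
    fin_cases i
    · exact Or.inl hx
    · exact okAB (seeA hF xv).1 (hF.own x).2 (hF.ind _ (a_mem v) _ (b_mem x))
    · exact okAB (seeA hF yv).2 gy.bq' nv
    · exact okAB (seeA hF yv.symm).2 gv.bq ny
  have ha : ∀ r, Good P c F U s p q r → P.adj s.1 (!p) (F r).2.2.1 := by
    intro r gr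
    by_contra hn
    exact hC ⟨r, gr, Geo.C_of gr.np hn⟩
  have hA : ∀ y, Good P c F U s p q y → P.cA (F y) s.2.2 → P.Ok (F y).1 s.2.2 s.2.1 :=
    fun y gy hy => okAB hy gy.bq' fun a => hqz (Geo.HH_symm a)
  have hBC : ∀ y, Good P c F U s p q y → ¬ P.cA (F y) s.2.2 →
      P.Ok (F y).1 (F y).2.2.1 s.2.2 := by
    intro y gy hy
    rcases Geo.label (P := P) (F y).1 (F y).2.1 s.2.2 with l | l | l | l
    · exact Or.inr (Or.inl l)
    · exact absurd l hy
    · exact okAB (hF.own y).1 l fun a => gy.nz (ha y gy) (Geo.HH_symm a)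
    · exact absurd l gy.nj
  by_cases hG : 6 * (4 * c + 12) ≤
      (univ.filter fun r : Fin (NU c) => zM c r ∧ ¬ P.adj s.1 (!p) (F r).2.2.2).card
  · obtain ⟨v, gv, nv, -⟩ := pickN _ hq' ∅ (by simp)
    obtain ⟨y, gy, ny, yT⟩ := pickN _ hq {v} (by rw [card_singleton]; omega)
    have c2 : ({y, v} : Finset (Fin (NU c))).card ≤ 2 := card_le_two
    obtain ⟨x, hx, xB, xT⟩ := pick (S := univ.filter fun r : Fin (NU c) =>
      zM c r ∧ ¬ P.adj s.1 (!p) (F r).2.2.2) (B := B) (T := {y, v}) (by omega)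
    rw [mem_filter] at hx
    have gx := hgood x hx.2.1 xB
    simp only [mem_insert, mem_singleton, not_or] at xT yT
    have hgx : P.Ok s.1 (F x).2.2.1 (F x).2.2.2 :=
      Or.inr (Or.inr ⟨ab_ne hF.dis x x, hF.ind _ (a_mem x) _ (b_mem x), p, gx.np, hx.2.2⟩)
    by_cases hy : P.cA (F y) s.2.2
    · refine fin xT.1 xT.2 yT gx gy gv ![(0, 1), (3, 6), (8, 7), (4, 5)] 2 (Or.inl rfl)
        (by decide) (by decide) fun i => ?_
      fin_cases i
      · exact hgx
      · exact okAB (seeA hF xT.1).2 gx.bq ny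
      · exact hA y gy hy
      · exact okOwn hF v
    · refine fin xT.1 xT.2 yT gx gy gv ![(0, 1), (5, 7), (2, 8), (3, 6)] 4 (Or.inr rfl)
        (by decide) (by decide) fun i => ?_
      fin_cases i
      · exact hgx
      · exact okAB (seeA hF xT.2).2 gx.bq' nv
      · exact hBC y gy hy
      · exact okAB (seeA hF (Ne.symm yT)).2 gv.bq ny
  · set G := univ.filter fun r : Fin (NU c) => zM c r ∧ ¬ P.adj s.1 (!p) (F r).2.2.2 with hGd
    have hb : ∀ r, Good P c F U s p q r → r ∉ G → ¬ P.adj s.1 p (F r).2.2.2 := by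
      intro r gr hr a
      rw [hGd, mem_filter] at hr
      refine gr.nb (Geo.junk_of a ?_)
      by_contra hn
      exact hr ⟨mem_univ r, gr.zm, hn⟩
    obtain ⟨v, gv, nv, vT⟩ := pickN _ hq' G (by omega)
    obtain ⟨y, gy, ny, yT⟩ := pickN _ hq (insert v G) ((card_insert_le _ _).trans (by omega))
    obtain ⟨x, gx, -, xT⟩ := pickN _ hq {y, v} (card_le_two.trans (by omega))
    simp only [mem_insert, mem_singleton, not_or] at xT yT
    have hnq : ¬ P.adj s.1 (!p) q := fun a =>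
      hF.ind _ (a_mem y) _ (a_mem v)
        (Geo.cluster a (ha y gy) (ha v gv) gy.aq gv.aq (aa_ne hF.dis yT.1))
    have nbq : ∀ r u, u ∉ fitF F → (F r).2.2.2 ≠ u := fun r u hu e => hu (e ▸ b_mem r)
    by_cases hy : P.cA (F y) s.2.2
    · refine fin xT.1 xT.2 yT.1 gx gy gv ![(3, 6), (0, 1), (8, 7), (4, 5)] 2 (Or.inl rfl)
        (by decide) (by decide) fun i => ?_
      fin_cases i
      · exact Or.inr (Or.inr ⟨nbq y q hqF, ny, p, hb y gy yT.2, hnq⟩)
      · exact okOwn hF x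
      · exact hA y gy hy
      · exact okOwn hF v
    · refine fin xT.1 xT.2 yT.1 gx gy gv ![(5, 7), (0, 1), (2, 8), (3, 6)] 4 (Or.inr rfl)
        (by decide) (by decide) fun i => ?_
      fin_cases i
      · exact Or.inr (Or.inr ⟨nbq v _ hq'F, nv, p, hb v gv vT, h1.2⟩)
      · exact okOwn hF x
      · exact hBC y gy hy
      · exact okAB (seeA hF (Ne.symm yT.1)).2 gv.bq ny

end Pool.Agent.Lib.MP_ef7581_lc.D2
end
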