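import Mathlib
import Pool.Agent.Lib.MP_ef7581_lc.DStmts

-- part Pool.Agent.Lib.MP_ef7581_lc.EDefs
section

/-!
Disjoint Connected Subgraphs on (2P1+P2)-free graphs: the abstract problem and the tests.
Agents have terminals `J × K`; the terminals of one agent that have a neighbour form a clique of
the diamond-free graph `H`. An agent with more than two terminals is called multiple.
-/

set_option autoImplicit false

namespace Pool.Agent.Lib.MP_ef7581_lc.D3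

open Finset Classical D2

noncomputable section

structure G3 (J V K : Type) where
  H : V ⊕ J × K → V ⊕ J × K → Prop
  b : J → Bool → K
  symm : ∀ u v, H u v → H v u
  irrefl : ∀ u, ¬ H u u
  dia : ∀ u v x y, H u v → H u x → H v x → H u y → H v y → x ≠ y → H x y
  st : ∀ j, H (Sum.inr (j, b j false)) (Sum.inr (j, b j true))
  iso : ∀ j k u, H (Sum.inr (j, k)) u →
    ∀ o, k = b j o ∨ H (Sum.inr (j, k)) (Sum.inr (j, b j o))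

/-- Parity options: items `nf` are never used as fillers, `pn` allows them in the pair services
of agents with two terminals, `tg` is the parity of the number of unused ones. -/
structure Px (V : Type) where
  nf : V → Prop
  pn : Prop
  tg : ℕ

def px0 (V : Type) : Px V := ⟨fun _ => False, False, 0⟩

variable {J V K : Type} [Fintype J] [Fintype V] [Fintype K] [DecidableEq J] [DecidableEq V]
  [DecidableEq K]

/-- Number of unused items of the class `nf`. -/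
def frn (W : Finset V) (nf : V → Prop) (B : Finset J) (f : J → Finset V) : ℕ :=
  (W.filter fun v => nf v ∧ ∀ j ∈ B, v ∉ f j).card

/-- Number of uncovered items of the class `nf`. -/
def unf (W : Finset V) (nf : V → Prop) (m : Nd J V → Nd J V) : ℕ :=
  (W.filter fun v => nf v ∧ m (vx v) = vx v).card

namespace G3

variable (P : G3 J V K)

def emb : V ⊕ J × Bool → V ⊕ J × K
  | Sum.inl x => Sum.inl x
  | Sum.inr (j, o) => Sum.inr (j, P.b j o)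

omit [Fintype J] [Fintype V] [Fintype K] [DecidableEq J] [DecidableEq V] [DecidableEq K] in
theorem emb_inj : Function.Injective P.emb := by
  have h : ∀ j, P.b j false ≠ P.b j true := fun j e => P.irrefl _ (by
    have := P.st j
    rwa [e] at this)
  rintro (x | ⟨j, o⟩) (y | ⟨i, p⟩) e <;> simp only [emb, Sum.inl.injEq, Sum.inr.injEq,
    Prod.mk.injEq, reduceCtorEq] at e ⊢
  · exact e
  · obtain ⟨rfl, e⟩ := e
    refine ⟨rfl, ?_⟩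
    cases o <;> cases p
    · rfl
    · exact absurd e (h j)
    · exact absurd e.symm (h j)
    · rfl

/-- The geometry of the two base terminals of each agent. -/
def base : Geo J V where
  H := fun u v => P.H (P.emb u) (P.emb v)
  symm := fun _ _ => P.symm _ _
  irrefl := fun _ => P.irrefl _
  dia := fun _ _ _ _ a b c d e f => P.dia _ _ _ _ a b c d e fun g => f (P.emb_inj g)
  st := P.st

abbrev HH (x y : V) : Prop := P.base.HH x y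
abbrev adj (j : J) (o : Bool) (x : V) : Prop := P.base.adj j o x
abbrev col (j : J) (o : Bool) (x : V) : Prop := P.base.col j o x
abbrev junk (j : J) (x : V) : Prop := P.base.junk j x
abbrev Frame (e : ℕ) (ρ : Finset V) : Prop := P.base.Frame e ρ
abbrev rig (e : ℕ) (ρ : Finset V) (j : J) (o : Bool) : Prop := P.base.rig e ρ j o
abbrev blind (e : ℕ) (ρ : Finset V) (j : J) : Prop := P.base.blind e ρ j
abbrev heavy (e : ℕ) (ρ : Finset V) (x : V) : Prop := P.base.heavy e ρ x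
abbrev Q0 (e : ℕ) (ρ : Finset V) (x : V) : Prop := P.base.Q0 e ρ x

def adt (j : J) (k : K) (x : V) : Prop := P.H (Sum.inr (j, k)) (Sum.inl x)

/-- The agent has more than two terminals. -/
def mu (j : J) : Prop :=
  ∃ k, P.H (Sum.inr (j, k)) (Sum.inr (j, P.b j false)) ∧
    P.H (Sum.inr (j, k)) (Sum.inr (j, P.b j true))

def C (j : J) (x : V) : Prop := ∀ k, ¬ P.adt j k x
def colk (j : J) (k : K) (x : V) : Prop := P.adt j k x ∧ ¬ P.junk j x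

def Pr (j : J) (a b : V) : Prop :=
  a ≠ b ∧ (P.mu j ∨ ¬ P.HH a b) ∧ ∀ k, ¬ (P.adt j k a ∧ P.adt j k b)

def Tr (j : J) (a z b : V) : Prop := ¬ P.mu j ∧ P.base.Tr j a z b

def Ok (j : J) (x y : V) : Prop := P.C j x ∨ P.C j y ∨ P.Pr j x y

def Wf (S : Sub J V) : Prop := (∀ j, S.geo j → ∀ v, S.lst j v ↔ P.C j v) ∧ ∀ v, ¬ S.qm v

def Serv2 (S : Sub J V) (j : J) (s : Finset V) : Prop :=
  (∃ v ∈ s, S.lst j v) ∨ (S.geo j ∧ ∃ a ∈ s, ∃ b ∈ s, P.Pr j a b)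

def Serv3 (S : Sub J V) (j : J) (s : Finset V) : Prop :=
  P.Serv2 S j s ∨ (S.geo j ∧ ∃ a ∈ s, ∃ z ∈ s, ∃ b ∈ s, P.Tr j a z b)

def Sol2 (S : Sub J V) (l : ℕ) : Prop :=
  ∃ f, St S (P.Serv2 S) S.A f ∧ use S.A f + l ≤ S.W.card

def Sol3 (S : Sub J V) (l : ℕ) : Prop :=
  ∃ f, St S (P.Serv3 S) S.A f ∧ use S.A f + l ≤ S.W.card

def pl (A : Finset J) (W : Finset V) : Sub J V := ⟨A, W, fun _ => True, P.C, fun _ => False⟩

def Feas : Prop := P.Sol3 (P.pl univ univ) 0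

def Nrm (S : Sub J V) (j : J) : Sv V → Prop
  | Sv.non => False
  | Sv.one c => S.lst j c
  | Sv.two a b => S.geo j ∧ ((¬ P.mu j ∧ P.col j true a ∧ P.col j false b ∧ ¬ P.HH a b) ∨
      (P.mu j ∧ P.Pr j a b ∧ ¬ P.C j a ∧ ¬ P.C j b))
  | Sv.three a z b => S.geo j ∧ ¬ P.mu j ∧ P.col j true a ∧ P.junk j z ∧ P.col j false b ∧
      P.HH a b ∧ ¬ P.HH a z ∧ ¬ P.HH z b

/-- A state in normal form. -/
structure PSt (S : Sub J V) (B : Finset J) (g : J → Sv V) : Prop where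
  sub : B ⊆ S.A
  inW : ∀ j ∈ B, (g j).its ⊆ S.W
  nrm : ∀ j ∈ B, P.Nrm S j (g j)
  dis : ∀ i ∈ B, ∀ j ∈ B, i ≠ j → Disjoint (g i).its (g j).its

def Min3 (S : Sub J V) (B : Finset J) (g : J → Sv V) : Prop :=
  P.PSt S B g ∧ ∀ f, St S (P.Serv3 S) B f → use B (fun j => (g j).its) ≤ use B f

def Min2 (S : Sub J V) (B : Finset J) (g : J → Sv V) : Prop :=
  P.PSt S B g ∧ NoTri B g ∧ ∀ f, St S (P.Serv2 S) B f → use B (fun j => (g j).its) ≤ use B f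

/-! ### Frames -/

def majk (e : ℕ) (ρ : Finset V) (j : J) (k : K) : Prop :=
  (ρ.filter fun r => ¬ P.adt j k r).card ≤ e
def flex (e : ℕ) (ρ : Finset V) (j : J) : Prop := ∀ k, ¬ P.majk e ρ j k
def rigm (e : ℕ) (ρ : Finset V) (j : J) (k : K) : Prop :=
  P.mu j ∧ P.majk e ρ j k ∧ ¬ P.blind e ρ j

/-- The agents that may stay uncovered. -/
def rigid (S : Sub J V) (e : ℕ) (ρ : Finset V) (j : J) : Prop :=
  S.geo j ∧ ¬ P.mu j ∧ ∃ o, P.rig e ρ j o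

def ncE (S : Sub J V) (e : ℕ) (ρ : Finset V) (Y : Px V) (j : J) (x : V) : Prop :=
  S.geo j ∧ ¬ P.mu j ∧ (∃ o, P.rig e ρ j o ∧ P.col j (!o) x) ∧ ¬ P.heavy e ρ x ∧
    (Y.pn ∨ ¬ Y.nf x)

def mkE (S : Sub J V) (e : ℕ) (ρ : Finset V) (j : J) (x : V) : Prop :=
  S.geo j ∧ ∃ k, P.rigm e ρ j k ∧ ¬ P.adt j k x

def peE (e : ℕ) (ρ : Finset V) (Y : Px V) (q z : V) : Prop :=
  P.Q0 e ρ q ∧ ¬ P.heavy e ρ z ∧ ¬ P.HH q z ∧ (Y.pn ∨ (¬ Y.nf q ∧ ¬ Y.nf z))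

def En (S : Sub J V) (e : ℕ) (ρ : Finset V) (X : Ax J V) (Y : Px V) : Nd J V → Nd J V → Prop
  | Sum.inl j, Sum.inr (Sum.inl v) =>
      j ∈ S.A ∧ v ∈ S.W ∧ (S.lst j v ∨ P.mkE S e ρ j v ∨ (X.nc ∧ P.ncE S e ρ Y j v))
  | Sum.inr (Sum.inl v), Sum.inl j =>
      j ∈ S.A ∧ v ∈ S.W ∧ (S.lst j v ∨ P.mkE S e ρ j v ∨ (X.nc ∧ P.ncE S e ρ Y j v))
  | Sum.inr (Sum.inl u), Sum.inr (Sum.inl v) =>
      u ∈ S.W ∧ v ∈ S.W ∧ X.pe ∧ ((P.peE e ρ Y u v ∧ ¬ X.zs v) ∨ (P.peE e ρ Y v u ∧ ¬ X.zs u))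
  | Sum.inl j, Sum.inr (Sum.inr i) => j = i ∧ j ∈ S.A ∧ S.geo j ∧ P.flex e ρ j
  | Sum.inr (Sum.inr i), Sum.inl j => j = i ∧ j ∈ S.A ∧ S.geo j ∧ P.flex e ρ j
  | _, _ => False

def Cov (S : Sub J V) (e : ℕ) (ρ : Finset V) (X : Ax J V) (m : Nd J V → Nd J V) : Prop :=
  ∀ j ∈ S.A, (¬ P.rigid S e ρ j ∨ X.mc j) → m (ag j) ≠ ag j

def Pass (S : Sub J V) (e : ℕ) (ρ : Finset V) (X : Ax J V) (Y : Px V) (l : ℕ) : Prop :=
  ∃ ν, IsM (P.En S e ρ X Y) ν ∧ cov ν = 2 * S.A.card ∧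
    2 * S.A.card + l ≤ cw S ν + S.W.card ∧ P.Cov S e ρ X ν ∧ unf S.W Y.nf ν % 2 = Y.tg % 2

def SgOk (S : Sub J V) (Γ : Finset (J × V × V)) : Prop :=
  (∀ s ∈ Γ, s.1 ∈ S.A ∧ S.geo s.1 ∧ s.2.1 ∈ S.W ∧ s.2.2 ∈ S.W ∧ P.Pr s.1 s.2.1 s.2.2) ∧ Dis2 Γ

def WitP (e : ℕ) (ρ : Finset V) (Y : Px V) (s : J × V × V) : Prop :=
  ¬ P.mu s.1 ∧ P.base.WitP e ρ s ∧ (Y.nf s.2.1 ↔ Y.pn) ∧ (Y.nf s.2.2 ↔ Y.pn)

def WitN (e : ℕ) (ρ : Finset V) (Y : Px V) (s : J × V × V) : Prop :=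
  ¬ P.mu s.1 ∧ P.base.WitN e ρ s ∧ (Y.nf s.2.1 ↔ Y.pn) ∧ (Y.nf s.2.2 ↔ Y.pn)

def TestF (S : Sub J V) (e l : ℕ) (Y : Px V) (ρ : Finset V) : Prop :=
  ∃ Γ : Finset (J × V × V), Γ.card ≤ 6 ∧ P.SgOk S Γ ∧
    ((∃ s1 ∈ Γ, ∃ s2 ∈ Γ, s1 ≠ s2 ∧ P.WitP e ρ Y s1 ∧ P.WitP e ρ Y s2 ∧
        P.Pass (S.rem (ag2 Γ) (it2 Γ)) e ρ (P.base.axW s1 s2) Y l) ∨
      (∃ s1 ∈ Γ, ∃ s2 ∈ Γ, s1 ≠ s2 ∧ P.WitN e ρ Y s1 ∧ P.WitN e ρ Y s2 ∧
        P.Pass (S.rem (ag2 Γ) (it2 Γ)) e ρ (axN J V) Y l) ∨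
      P.Pass (S.rem (ag2 Γ) (it2 Γ)) e ρ (axC J V) Y l)

def Test1 (S : Sub J V) (e l : ℕ) (Y : Px V) : Prop :=
  ∀ ρ, P.Frame e ρ → (∀ r ∈ ρ, ¬ Y.nf r) → P.TestF S e l Y ρ

def TestSL (rk : J → ℕ) (S : Sub J V) (e l : ℕ) : Prop :=
  P.Pass (S.lev fun _ => False) e ∅ (axC J V) (px0 V) l ∧
    ∀ j0 ∈ S.A, P.Test1 (S.lev fun j => rk j ≤ rk j0) e l (px0 V)

/-! ### Images of states -/

/-- No triples, no pair of a blind agent; the first item of a rigid multiple agent is a key. -/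
def Simple (e : ℕ) (ρ : Finset V) (Y : Px V) (B : Finset J) (g : J → Sv V) : Prop :=
  ∀ j ∈ B, (∃ c, g j = Sv.one c) ∨ ∃ a b, g j = Sv.two a b ∧ ¬ P.blind e ρ j ∧
    (∀ k, P.rigm e ρ j k → ¬ P.adt j k a) ∧ (P.mu j ∨ Y.pn ∨ (¬ Y.nf a ∧ ¬ Y.nf b))

/-- No item of the class `nf` is hidden in a pair service. -/
def Good (e : ℕ) (ρ : Finset V) (Y : Px V) (B : Finset J) (g : J → Sv V) : Prop :=
  ∀ j ∈ B, ∀ a b, g j = Sv.two a b → ¬ P.blind e ρ j →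
    (P.mu j ∨ Y.pn ∨ (¬ Y.nf a ∧ ¬ Y.nf b)) ∧ (P.flex e ρ j → ¬ Y.nf a ∧ ¬ Y.nf b) ∧
    (∀ o, ¬ P.mu j → P.rig e ρ j o → ¬ P.heavy e ρ (mi o a b) → ¬ Y.nf (ma o a b)) ∧
    ∀ k, P.rigm e ρ j k → ¬ P.adt j k a ∧ ¬ Y.nf b

def OldA (e : ℕ) (ρ : Finset V) (B : Finset J) (g : J → Sv V) (j : J) (v : V) : Prop :=
  j ∈ B ∧ (g j = Sv.one v ∨
    (∃ a b o, g j = Sv.two a b ∧ ¬ P.mu j ∧ P.rig e ρ j o ∧ v = mi o a b ∧ ¬ P.heavy e ρ v) ∨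
    ∃ b k, g j = Sv.two v b ∧ P.rigm e ρ j k)

def OldP (e : ℕ) (ρ : Finset V) (B : Finset J) (g : J → Sv V) (j : J) (q z : V) : Prop :=
  j ∈ B ∧ ¬ P.mu j ∧ ∃ a b o, g j = Sv.two a b ∧ P.rig e ρ j o ∧ q = mi o a b ∧ z = ma o a b ∧
    P.heavy e ρ q

def OldD (e : ℕ) (ρ : Finset V) (B : Finset J) (g : J → Sv V) (j : J) : Prop :=
  j ∈ B ∧ (∃ a b, g j = Sv.two a b) ∧ P.flex e ρ j

def Old (e : ℕ) (ρ : Finset V) (B : Finset J) (g : J → Sv V) : Nd J V → Nd J V → Prop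
  | Sum.inl j, Sum.inr (Sum.inl v) => P.OldA e ρ B g j v
  | Sum.inr (Sum.inl v), Sum.inl j => P.OldA e ρ B g j v
  | Sum.inr (Sum.inl u), Sum.inr (Sum.inl v) =>
      ∃ j, P.OldP e ρ B g j u v ∨ P.OldP e ρ B g j v u
  | Sum.inl j, Sum.inr (Sum.inr i) => j = i ∧ P.OldD e ρ B g j
  | Sum.inr (Sum.inr i), Sum.inl j => j = i ∧ P.OldD e ρ B g j
  | _, _ => False

def IsImg (e : ℕ) (ρ : Finset V) (B : Finset J) (g : J → Sv V) (μ : Nd J V → Nd J V) : Prop :=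
  (∀ x, μ (μ x) = x) ∧ ∀ x y, x ≠ y → (μ x = y ↔ P.Old e ρ B g x y)

structure Ctx (S : Sub J V) (e : ℕ) (ρ : Finset V) (Y : Px V) (B : Finset J) (g : J → Sv V)
    (μ : Nd J V → Nd J V) : Prop where
  wf : P.Wf S
  fr : P.Frame e ρ
  st : P.PSt S B g
  si : P.Simple e ρ Y B g
  im : P.IsImg e ρ B g μ

def Cls (S : Sub J V) (e : ℕ) (ρ : Finset V) (X : Ax J V) (Y : Px V) (μ : Nd J V → Nd J V)
    (w : ℕ) (ν : Nd J V → Nd J V) : Prop :=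
  IsM (fun x y => P.En S e ρ X Y x y ∨ μ x = y) ν ∧ cov ν = 2 * S.A.card ∧ w ≤ cw S ν ∧
    P.Cov S e ρ X ν ∧ unf S.W Y.nf ν % 2 = Y.tg % 2

def Best (S : Sub J V) (e : ℕ) (ρ : Finset V) (X : Ax J V) (Y : Px V) (μ : Nd J V → Nd J V)
    (w : ℕ) (ν : Nd J V → Nd J V) : Prop :=
  P.Cls S e ρ X Y μ w ν ∧ ∀ ν', P.Cls S e ρ X Y μ w ν' → newc μ ν < newc μ ν' ∨
    (newc μ ν = newc μ ν' ∧ ((ends μ ν').card < (ends μ ν).card ∨
      ((ends μ ν').card = (ends μ ν).card ∧ pot μ ν ≤ pot μ ν')))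

def RectA (S : Sub J V) (Y : Px V) (B : Finset J) (g : J → Sv V) (μ ν : Nd J V → Nd J V)
    (a1 a2 : ℕ) : Prop :=
  ∀ R ⊆ Req S μ ν, ∀ T ⊆ PoolS S B g μ ν, (∀ y ∈ T, μ (vx y) = vx y ∧ ¬ Y.nf y) →
    (∀ j ∈ R, ∀ x, ν (ag j) = vx x → ∀ y ∈ T, ¬ P.Ok j x y) → R.card < a1 ∨ T.card < a2

def JointB (S : Sub J V) (e : ℕ) (ρ : Finset V) (μ ν : Nd J V → Nd J V) (a3 : ℕ) : Prop :=
  ∀ j j', j ≠ j' → P.rigid S e ρ j → P.rigid S e ρ j' →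
    (univ.filter fun q => P.Q0 e ρ q ∧ ∃ z, z ≠ q ∧ ν (vx q) = vx z ∧ μ (vx q) ≠ vx z ∧
      ¬ P.Ok j q z ∧ ¬ P.Ok j' q z).card ≤ a3

def HelpOk (S : Sub J V) (e : ℕ) (ρ : Finset V) (Y : Px V) (Hh : Finset (J × V × V)) : Prop :=
  (∀ s ∈ Hh, s.1 ∉ S.A ∧ P.rigid S e ρ s.1 ∧ s.2.1 ∉ S.W ∧ s.2.2 ∉ S.W ∧
    P.peE e ρ Y s.2.1 s.2.2 ∧ ¬ P.junk s.1 s.2.2) ∧ Dis2 Hh

structure RCtx (S : Sub J V) (e : ℕ) (ρ : Finset V) (Y : Px V) (B : Finset J) (g : J → Sv V)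
    (μ ν : Nd J V → Nd J V) (Hh Hi : Finset (J × V × V)) (nE a3 δ : ℕ) : Prop where
  cx : P.Ctx S e ρ Y B g μ
  hp : P.HelpOk S e ρ Y Hh
  hi : ∀ s ∈ Hi, P.OldP e ρ B g s.1 s.2.1 s.2.2 ∧ ν (vx s.2.1) = vx s.2.2 ∧ ν (ag s.1) = ag s.1
  m : IsM (P.En S e ρ (axAll J V) Y) ν
  sz : cov ν = 2 * S.A.card
  cv : P.Cov S e ρ (axAll J V) ν
  en : (ends μ ν).card ≤ nE
  jb : P.JointB S e ρ μ ν a3
  ob : δ = 1 ∨ P.base.NoObs S e ρ (Hh ∪ Hi) ν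

def Own (S : Sub J V) (e : ℕ) (ρ : Finset V) (ν : Nd J V → Nd J V) (Hh : Finset (J × V × V))
    (d δ : ℕ) : Prop :=
  ∃ (own : J → V → V → Prop) (Dm Jt : Finset J), Dm.card ≤ d ∧ Jt ⊆ Dm ∧ Jt.card ≤ δ ∧
    (∀ j j' q z z', own j q z → own j' q z' → j = j') ∧
    ∀ j, (j ∈ ag2 Hh ∨ (j ∈ S.A ∧ ν (ag j) = ag j)) → ∃ q z, own j q z ∧
      ((P.Q0 e ρ q ∧ z ≠ q ∧ ν (vx q) = vx z) ∨ ∃ s ∈ Hh, s.2 = (q, z)) ∧
      (j ∉ Dm → P.Ok j q z) ∧ (j ∉ Jt → P.Ok j q z ∨ ¬ P.junk j z)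

/-- An agent with two terminals uses a pair with an item outside the class `nf`. -/
def Exc (S : Sub J V) (Y : Px V) (B : Finset J) (f : J → Finset V) : Prop :=
  Y.pn ∧ ∃ j ∈ B, S.geo j ∧ ¬ P.mu j ∧ ∃ a b, f j = {a, b} ∧ P.Pr j a b ∧ ¬ Y.nf a

/-! ### Absorbing families -/

def PhiOk (Φ : Finset (J × V × V × V)) : Prop :=
  (∀ s ∈ Φ, P.Serv3 (P.pl univ univ) s.1 {s.2.1, s.2.2.1, s.2.2.2}) ∧ Dis3 Φ

/-- The instance that remains in the absorbing cases. -/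
def SU (c : ℕ) (F : Fin (NU c) → Mb J V) (Φ : Finset (J × V × V × V)) (D : Finset V)
    (Wt : Finset (J × V × V)) : Sub J V :=
  P.pl (univ \ (fagF F ∪ ag3 Φ ∪ ag2 Wt))
    (univ \ ((fitF F \ Geo.expo c F) ∪ it3 Φ ∪ D ∪ it2 Wt))

def hardO (c : ℕ) (F : Fin (NU c) → Mb J V) (v : V) : Prop := P.base.hard c F v ∧ v ∉ fitF F

def UTest (rk : J → ℕ) (e c L : ℕ) : Prop :=
  ∃ (ty : ℕ) (F : Fin (NU c) → Mb J V) (Φ : Finset (J × V × V × V)) (D : Finset V),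
    P.base.PFam ty F ∧ (∀ r, ¬ P.mu (F r).1) ∧ Φ.card ≤ L ∧ D.card ≤ L ∧ P.PhiOk Φ ∧
    Disjoint (ag3 Φ) (fagF F) ∧ Disjoint (it3 Φ) (fitF F) ∧ Disjoint D (fitF F) ∧
    (∀ v, v ∉ fitF F → v ∉ it3 Φ → v ∉ D → ¬ P.base.waste F v ∧ ¬ P.base.star c F v) ∧
    ((∃ s, P.base.WitU c F s ∧ ¬ P.mu s.1 ∧ s.1 ∉ ag3 Φ ∧ s.2.1 ∉ it3 Φ ∧ s.2.2 ∉ it3 Φ ∧
        P.TestSL rk (P.SU c F Φ D {s}) e c) ∨
      P.TestSL rk (P.SU c F Φ D ∅) e (c + 1) ∨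
      (P.TestSL rk (P.SU c F Φ D ∅) e c ∧
        P.Test1 (P.SU c F Φ D ∅) e c ⟨P.hardO c F, False, 0⟩ ∧
        P.Test1 (P.SU c F Φ D ∅) e c ⟨fun v => ¬ P.hardO c F v, True, c⟩))

/-- An absorbing family of multiple agents; a member has the exposed item `.2.2.1` and the kept
item `.2.2.2`. -/
structure MFam {N : ℕ} (ty : Bool) (F : Fin N → Mb J V) : Prop where
  dis : DisF F
  mul : ∀ r, P.mu (F r).1
  own : ∀ r, P.Pr (F r).1 (F r).2.2.1 (F r).2.2.2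
  upa : ∀ r r', r < r' → P.Pr (F r).1 (F r').2.2.1 (F r).2.2.2
  upb : ty = true → ∀ r r', r < r' → P.Pr (F r).1 (F r').2.2.2 (F r).2.2.2
  dnb : ty = false → ∀ r r', r < r' → P.Pr (F r').1 (F r).2.2.2 (F r').2.2.2
  jk : ∀ r r', r ≠ r' → ∀ x y, P.junk (F r).1 x → P.junk (F r).1 y → P.junk (F r').1 x →
    P.junk (F r').1 y → x = y

def MTest (rk : J → ℕ) (e c L : ℕ) : Prop :=
  ∃ (ty : Bool) (F : Fin (NU c) → Mb J V) (Φ : Finset (J × V × V × V)) (D : Finset V),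
    P.MFam ty F ∧ Φ.card ≤ L ∧ D.card ≤ L ∧ P.PhiOk Φ ∧
    Disjoint (ag3 Φ) (fagF F) ∧ Disjoint (it3 Φ) (fitF F) ∧ Disjoint D (fitF F) ∧
    (∀ v, v ∉ fitF F → v ∉ it3 Φ → v ∉ D → ¬ P.base.waste F v) ∧
    P.TestSL rk (P.SU c F Φ D ∅) e c

/-- Two items have the same colour. -/
def sm (j : J) (x y : V) : Prop := ∃ k, P.colk j k x ∧ P.colk j k y

/-- Two pair services see each other consistently. -/
def Cons (g : J → Sv V) (i k : J) : Prop :=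
  ∃ a b a' b', g i = Sv.two a b ∧ g k = Sv.two a' b' ∧ (P.mu i ↔ P.mu k) ∧ P.sm i a a' ∧
    P.sm i b b' ∧ P.sm k a a' ∧ P.sm k b b'

end G3

/-! ### Consistent families -/

/-- A member: agent, terminal of each side, item of each side. -/
abbrev M3 (J V K : Type) : Type := J × (Bool → K) × (Bool → V)

def fa {ι : Type} [Fintype ι] (F : ι → M3 J V K) : Finset J := univ.image fun r => (F r).1
def fi {ι : Type} [Fintype ι] (F : ι → M3 J V K) : Finset V :=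
  univ.image fun p : ι × Bool => (F p.1).2.2 p.2

def DisM {ι : Type} (F : ι → M3 J V K) : Prop :=
  Function.Injective (fun r => (F r).1) ∧
    Function.Injective (fun p : ι × Bool => (F p.1).2.2 p.2)

structure R3 (J V K : Type) (t M t' M0 : ℕ) where
  F : Fin t → Fin M → M3 J V K
  G : Fin t' → Fin M0 → M3 J V K
  h : ℕ
  h0 : ℕ

def R3.mem {t M t' M0 : ℕ} (R : R3 J V K t M t' M0) :
    (Fin t × Fin M) ⊕ (Fin t' × Fin M0) → M3 J V K :=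
  Sum.elim (fun p => R.F p.1 p.2) (fun p => R.G p.1 p.2)

/-- Data of the odd services. -/
abbrev Od3 (J V K : Type) (t : ℕ) : Type :=
  J → Option (V × V × (Bool → K) × Fin t × Bool × Bool)

def OldK {t : ℕ} (B : Finset J) (g : J → Sv V) (od : Od3 J V K t) : Nd J V → Nd J V → Prop
  | Sum.inl j, Sum.inr (Sum.inl v) =>
      j ∈ B ∧ (g j = Sv.one v ∨ ∃ x o k, od j = some (x, v, o, k))
  | Sum.inr (Sum.inl v), Sum.inl j =>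
      j ∈ B ∧ (g j = Sv.one v ∨ ∃ x o k, od j = some (x, v, o, k))
  | Sum.inr (Sum.inl u), Sum.inr (Sum.inl v) =>
      ∃ j ∈ B, od j = none ∧ (g j = Sv.two u v ∨ g j = Sv.two v u)
  | _, _ => False

namespace G3

variable (P : G3 J V K) {t M t' M0 : ℕ}

def CFam {N : ℕ} (F : Fin N → M3 J V K) : Prop :=
  (∀ r r' s, P.colk (F r).1 ((F r).2.1 s) ((F r').2.2 s)) ∧
    (∀ r, P.Pr (F r).1 ((F r).2.2 false) ((F r).2.2 true)) ∧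
    ∀ r r', P.mu (F r).1 → P.mu (F r').1

/-- The base family `τ` consists of multiple agents. -/
def mt (R : R3 J V K t M t' M0) (τ : Fin t) : Prop := ∃ r, P.mu (R.F τ r).1

structure RGood (R : R3 J V K t M t' M0) : Prop where
  dis : DisM R.mem
  cF : ∀ τ, P.CFam (R.F τ)
  cG : ∀ i, P.CFam (R.G i)
  sG : ∀ i g, ¬ P.mu (R.G i g).1
  uni : ∀ i g τ, ¬ P.mt R τ → (univ.filter fun r =>
    ¬ P.Ok (R.F τ r).1 ((R.G i g).2.2 false) ((R.G i g).2.2 true)).card ≤ 1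

/-- Most members see `x` on side `s`. -/
def Sd {N : ℕ} (F : Fin N → M3 J V K) (h : ℕ) (s : Bool) (x : V) : Prop :=
  (univ.filter fun r => ¬ P.colk (F r).1 ((F r).2.1 s) x).card < h

/-- Agent `j` sees most pairs of the family in the colours `o false`, `o true`. -/
def To {N : ℕ} (F : Fin N → M3 J V K) (h : ℕ) (j : J) (o : Bool → K) : Prop :=
  o false ≠ o true ∧ (univ.filter fun r => ¬ ∀ s, P.colk j (o s) ((F r).2.2 s)).card < h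

def Ty (R : R3 J V K t M t' M0) (τ : Fin t) (j : J) : Prop :=
  (P.mu j ↔ P.mt R τ) ∧ ∃ o, P.To (R.F τ) R.h j o

def Sm (R : R3 J V K t M t' M0) (s : Bool) : Mk t t' → V → Prop
  | none, _ => False
  | some (Sum.inl τ), x => P.Sd (R.F τ) R.h s x
  | some (Sum.inr i), x => P.Sd (R.G i) R.h0 s x

def Tm (R : R3 J V K t M t' M0) : Mk t t' → J → Prop
  | none, _ => False
  | some (Sum.inl τ), j => P.Ty R τ j
  | some (Sum.inr _), j => ¬ P.mu j ∧ ∃ τ, P.Ty R τ j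

def EK (A : Finset J) (W : Finset V) (pe : V → V → Prop) : Nd J V → Nd J V → Prop
  | Sum.inl j, Sum.inr (Sum.inl v) => j ∈ A ∧ v ∈ W ∧ P.C j v
  | Sum.inr (Sum.inl v), Sum.inl j => j ∈ A ∧ v ∈ W ∧ P.C j v
  | Sum.inr (Sum.inl u), Sum.inr (Sum.inl v) => u ∈ W ∧ v ∈ W ∧ (pe u v ∨ pe v u)
  | _, _ => False

/-- A virtual solution. -/
def VS (R : R3 J V K t M t' M0) (A : Finset J) (W : Finset V) (ν : Nd J V → Nd J V) : Prop :=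
  IsM (P.EK A W fun _ _ => True) ν ∧
    ∃ (sd : V → Prop) (mk : V → Mk t t') (own : J → V → Prop),
      (∀ x y, x ≠ y → ν (vx x) = vx y → (sd x ↔ ¬ sd y) ∧ mk x = mk y ∧
        ((∃ τ, mk x = some (Sum.inl τ) ∧ P.mt R τ) ∨ ¬ P.HH x y) ∧
        (sd x → P.Sm R false (mk x) x ∧ P.Sm R true (mk x) y)) ∧
      (∀ j j' x, own j x → own j' x → j = j') ∧
      ∀ j ∈ A, ν (ag j) = ag j →
        ∃ x y, own j x ∧ sd x ∧ x ≠ y ∧ ν (vx x) = vx y ∧ P.Tm R (mk x) j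

def peU (R : R3 J V K t M t' M0) (x y : V) : Prop :=
  ¬ P.HH x y ∧ ∃ i, P.Sd (R.G i) R.h0 false x ∧ P.Sd (R.G i) R.h0 true y

def inK (R : R3 J V K t M t' M0) (κ : Kl t M) (x : V) : Prop :=
  P.adt (R.F κ.2.1.1 κ.2.1.2.1).1 ((R.F κ.2.1.1 κ.2.1.2.1).2.1 κ.2.1.2.2) x ∧
    P.adt (R.F κ.2.2.1 κ.2.2.2.1).1 ((R.F κ.2.2.1 κ.2.2.2.1).2.1 κ.2.2.2.2) x

def Sk (R : R3 J V K t M t' M0) (κ : Kl t M) (s : Bool) (x : V) : Prop :=
  P.Sd (R.F κ.1) R.h s x ∧ (P.mt R κ.1 ∨ P.inK R κ x)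

def AdK (R : R3 J V K t M t' M0) (A : Finset J) (W : Finset V) : Lb t M → Nd J V → Prop
  | Sum.inl (κ, i), Sum.inr (Sum.inl v) =>
      v ∈ W ∧ ((i = 0 ∧ P.Sk R κ false v) ∨ (i = 1 ∧ P.Sk R κ true v))
  | Sum.inl (κ, i), Sum.inl j => j ∈ A ∧ i = 2 ∧ P.Ty R κ.1 j
  | Sum.inl _, Sum.inr (Sum.inr _) => False
  | Sum.inr i, Sum.inl j => (i = 0 ∧ j ∈ A ∧ ¬ P.mu j ∧ ∃ τ, P.Ty R τ j) ∨ (i = 2 ∧ j ∉ A)
  | Sum.inr i, Sum.inr (Sum.inl v) => (i = 1 ∧ v ∈ W) ∨ (i = 2 ∧ v ∉ W)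
  | Sum.inr i, Sum.inr (Sum.inr _) => i = 2

def KTest (R : R3 J V K t M t' M0) (A : Finset J) (W : Finset V) : Prop :=
  ∃ n : Lb t M → ℕ,
    (∀ κ, n (Sum.inl (κ, 0)) = n (Sum.inl (κ, 1)) ∧ n (Sum.inl (κ, 0)) = n (Sum.inl (κ, 2)) ∧
      (n (Sum.inl (κ, 0)) ≠ 0 → ∀ x y, P.Sk R κ false x → P.Sk R κ true y →
        x ≠ y ∧ (P.mt R κ.1 ∨ ¬ P.HH x y))) ∧
    A.card + (∑ κ, n (Sum.inl (κ, 0))) + n (Sum.inr 0) + n (Sum.inr 1) ≤ W.card ∧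
    ∃ m, Lab (P.EK A W (P.peU R)) (P.AdK R A W) n m

def SR (R : R3 J V K t M t' M0) (A : Finset J) (W : Finset V) : Sub J V :=
  ⟨A, W, fun j => ∃ τ, P.Ty R τ j, P.C, fun _ => False⟩

def RTest (rk : J → ℕ) (e c t0 c1 L : ℕ) : Prop :=
  ∃ t, t < t0 ∧ ∃ t', t' < t0 ∧ ∃ h, h < L ∧ ∃ h0, h0 < L ∧
    ∃ (F : Fin t → Fin (30 * h + c1) → M3 J V K) (G : Fin t' → Fin (30 * h0 + c1) → M3 J V K)
      (Φ : Finset (J × V × V × V)) (U : Finset J),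
      P.RGood ⟨F, G, h, h0⟩ ∧ Φ.card ≤ L ∧ U.card ≤ c ∧ P.PhiOk Φ ∧
      Disjoint (ag3 Φ) (fa (R3.mem ⟨F, G, h, h0⟩)) ∧
      Disjoint (it3 Φ) (fi (R3.mem ⟨F, G, h, h0⟩)) ∧
      P.KTest ⟨F, G, h, h0⟩ (univ \ (fa (R3.mem ⟨F, G, h, h0⟩) ∪ ag3 Φ))
        (univ \ (fi (R3.mem ⟨F, G, h, h0⟩) ∪ it3 Φ)) ∧
      (univ \ (fa (R3.mem ⟨F, G, h, h0⟩) ∪ ag3 Φ) ⊆ U ∨
        P.TestSL rk (P.SR ⟨F, G, h, h0⟩ (univ \ (fa (R3.mem ⟨F, G, h, h0⟩) ∪ ag3 Φ ∪ U))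
          (univ \ (fi (R3.mem ⟨F, G, h, h0⟩) ∪ it3 Φ))) e c)

def Char (rk : J → ℕ) (e c t0 c1 L : ℕ) : Prop :=
  P.UTest rk e c L ∨ P.MTest rk e c L ∨ P.RTest rk e c t0 c1 L

/-- At least `h2` members can take `x` in place of their item of side `s`. -/
def Ab (R : R3 J V K t M t' M0) (h2 : ℕ) (τ : Fin t) (s : Bool) (x : V) : Prop :=
  h2 ≤ (univ.filter fun r => ¬ P.adt (R.F τ r).1 ((R.F τ r).2.1 (!s)) x).card

def Srv (R : R3 J V K t M t' M0) (h2 : ℕ) (τ : Fin t) (x y : V) : Prop :=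
  (P.mt R τ ∧ ∃ s, P.Ab R h2 τ s x ∧ P.Ab R h2 τ (!s) y) ∨
    (¬ P.mt R τ ∧ ¬ P.HH x y ∧
      (h2 ≤ (univ.filter fun r => P.Ok (R.F τ r).1 x y).card ∨ P.peU R x y ∨ P.peU R y x))

def Compat (R : R3 J V K t M t' M0) (h2 : ℕ) (j : J) (x y : V) : Prop :=
  ∃ τ, P.Ty R τ j ∧ P.Srv R h2 τ x y

def PS (R : R3 J V K t M t' M0) (τ : Fin t) (s : Bool) (x y : V) : Finset (Fin M) :=
  univ.filter fun r => P.adt (R.F τ r).1 ((R.F τ r).2.1 s) x ∧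
    P.adt (R.F τ r).1 ((R.F τ r).2.1 s) y

/-- Odd service of `j` with hidden item `x`, key `y`, colours `o` and class `k`. -/
def OddC (R : R3 J V K t M t' M0) (g : J → Sv V) (j : J) (x y : V) (o : Bool → K)
    (k : Fin t × Bool × Bool) : Prop :=
  (g j = Sv.two x y ∨ g j = Sv.two y x) ∧ (P.mu j ↔ P.mt R k.1) ∧ P.To (R.F k.1) R.h j o ∧
    ¬ P.adt j (o k.2.1) y ∧ (P.mu j ∨ (P.adt j (o k.2.1) x ∧ P.adt j (o (!k.2.1)) y)) ∧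
    10 * (univ.filter fun r => P.junk (R.F k.1 r).1 x).card < M ∧
    (k.2.2 = false → 2 * M ≤ 3 * (P.PS R k.1 k.2.1 x y).card) ∧
    (k.2.2 = true → ¬ P.mu j ∧ M ≤ 4 * (P.PS R k.1 false x y).card ∧
      M ≤ 4 * (P.PS R k.1 true x y).card)

structure KCtx (R : R3 J V K t M t' M0) (h2 : ℕ) (A : Finset J) (W : Finset V) (B : Finset J)
    (g : J → Sv V) (od : Od3 J V K t) (μ : Nd J V → Nd J V) : Prop where
  good : P.RGood R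
  dA : Disjoint A (fa R.mem)
  dW : Disjoint W (fi R.mem)
  st : P.PSt (P.SR R A W) B g
  nt : NoTri B g
  odd : ∀ j x y o k, od j = some (x, y, o, k) → j ∈ B ∧ P.OddC R g j x y o k
  con : ∀ j ∈ B, od j = none → ∀ a b, g j = Sv.two a b → P.Compat R h2 j a b
  inv : ∀ x, μ (μ x) = x
  im : ∀ x y, x ≠ y → (μ x = y ↔ OldK B g od x y)

structure KOut (R : R3 J V K t M t' M0) (h2 : ℕ) (A : Finset J) (W : Finset V)
    (od : Od3 J V K t) (μ ν : Nd J V → Nd J V) (nE d : ℕ) : Prop where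
  m : IsM (fun x y => P.EK A W (fun _ _ => True) x y ∨ μ x = y) ν
  en : (ends μ ν).card ≤ nE
  own : ∃ own : J → V → Prop,
    (∀ j j' x x', own j x → own j' x' → j ≠ j' → x ≠ x' ∧ ν (vx x) ≠ vx x') ∧
    ∀ j ∈ A, ν (ag j) = ag j → ∃ x y, own j x ∧ x ≠ y ∧ ν (vx x) = vx y ∧ P.Compat R h2 j x y
  cls : ∀ k, (univ.filter fun j => ∃ x y o, od j = some (x, y, o, k) ∧ ν (vx x) ≠ vx x).card ≤
    (univ.filter fun j => ∃ x y o, od j = some (x, y, o, k) ∧ ν (ag j) ≠ vx y).card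
  jt : ∀ j k, (univ.filter fun x => ∃ y, x ≠ y ∧ ν (vx x) = vx y ∧ μ (vx x) ≠ vx y ∧
    P.adt j k x ∧ P.adt j k y).card ≤ d
  ja : (univ.filter fun x => ∃ y, x ≠ y ∧ ν (vx x) = vx y ∧ μ (vx x) ≠ vx y ∧
    P.HH x y).card ≤ d

/-- All uncovered agents outside `O` are served by ends of pair edges; the agents of `O` get
further pair edges that suit their type. -/
def KAs (R : R3 J V K t M t' M0) (h2 : ℕ) (A : Finset J) (ν : Nd J V → Nd J V) (D : ℕ) : Prop :=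
  ∃ (O : Finset J) (f : J → Finset V), O.card ≤ D ∧
    (∀ i ∈ A, ∀ j ∈ A, ν (ag i) = ag i → ν (ag j) = ag j → i ≠ j → Disjoint (f i) (f j)) ∧
    ∀ j ∈ A, ν (ag j) = ag j → (∀ v ∈ f j, ∃ u, u ≠ v ∧ ν (vx v) = vx u) ∧
      (j ∉ O → P.Serv2 (P.pl univ univ) j (f j)) ∧
      (j ∈ O → ∃ x y, x ≠ y ∧ f j = {x, y} ∧ P.Compat R h2 j x y)

end G3

end

end Pool.Agent.Lib.MP_ef7581_lc.D3
end

-- part Pool.Agent.Lib.MP_ef7581_lc.EStmts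
section

/-!
The steps of the proof for Disjoint Connected Subgraphs as propositions.
-/

set_option autoImplicit false

namespace Pool.Agent.Lib.MP_ef7581_lc.D3

open Finset Classical D2

/-! ### States -/

def NormS : Prop :=
  ∀ (J V K : Type) [Fintype J] [Fintype V] [Fintype K] [DecidableEq J] [DecidableEq V]
    [DecidableEq K] (P : G3 J V K) (S : Sub J V) (B : Finset J), P.Wf S →
    (∀ f, St S (P.Serv3 S) B f → ∃ g, P.PSt S B g ∧ ∀ j ∈ B, (g j).its ⊆ f j) ∧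
    (∀ f, St S (P.Serv2 S) B f → ∃ g, P.PSt S B g ∧ NoTri B g ∧ ∀ j ∈ B, (g j).its ⊆ f j) ∧
    (∀ f, St S (P.Serv3 S) B f → ∃ g, P.Min3 S B g) ∧
    (∀ f, St S (P.Serv2 S) B f → ∃ g, P.Min2 S B g) ∧
    (∀ g, P.PSt S B g → St S (P.Serv3 S) B fun j => (g j).its) ∧
    (∀ g, P.PSt S B g → NoTri B g → St S (P.Serv2 S) B fun j => (g j).its) ∧
    (∀ (sv : J → Finset V → Prop) f (R : Finset J) (f' : J → Finset V), St S sv B f → R ⊆ B →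
      (∀ j ∈ R, sv j (f' j) ∧ f' j ⊆ R.biUnion f) →
      (∀ i ∈ R, ∀ j ∈ R, i ≠ j → Disjoint (f' i) (f' j)) →
      St S sv B (fun j => if j ∈ R then f' j else f j) ∧
        use B (fun j => if j ∈ R then f' j else f j) + use R f = use B f + use R f') ∧
    (∀ g e ρ, P.Frame e ρ → (P.Min3 S B g ∨ P.Min2 S B g) → ∀ i ∈ B, ∀ j ∈ B, ∀ a b a' b',
      g i = Sv.two a b → g j = Sv.two a' b' → P.blind e ρ i → P.blind e ρ j → i = j) ∧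
    (∀ g, (P.Min3 S B g ∨ P.Min2 S B g) → ∀ i ∈ B, ∀ j ∈ B, ∀ a b a' b', i ≠ j →
      g i = Sv.two a b → g j = Sv.two a' b' → ∀ x y, P.junk i x → P.junk i y → P.junk j x →
      P.junk j y → x = y) ∧
    ∀ g e ρ (nf : V → Prop), P.Frame e ρ → P.PSt S B g → ∃ g', P.PSt S B g' ∧
      (∀ j, g' j = g j ∨ (P.mu j ∧ ∃ a b, g j = Sv.two a b ∧ g' j = Sv.two b a)) ∧
      ∀ j ∈ B, ∀ a b k, g' j = Sv.two a b → P.rigm e ρ j k →
        ¬ P.adt j k a ∧ (nf b → P.adt j k b ∨ nf a)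

def TripS : Prop :=
  ∃ cT : ℕ, ∀ (J V K : Type) [Fintype J] [Fintype V] [Fintype K] [DecidableEq J] [DecidableEq V]
    [DecidableEq K] (P : G3 J V K) (S : Sub J V) (B : Finset J) (g : J → Sv V), P.Wf S →
    P.Min3 S B g → (B.filter fun j => ∃ a z b, g j = Sv.three a z b).card ≤ cT

/-! ### The slack theorem -/

def ImgS : Prop :=
  ∀ (J V K : Type) [Fintype J] [Fintype V] [Fintype K] [DecidableEq J] [DecidableEq V]
    [DecidableEq K] (P : G3 J V K) (S : Sub J V) (e : ℕ) (ρ : Finset V) (Y : Px V)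
    (B : Finset J) (g : J → Sv V), P.Wf S → P.Frame e ρ → P.PSt S B g → P.Simple e ρ Y B g →
    (∃ μ, P.IsImg e ρ B g μ) ∧ ∀ μ, P.IsImg e ρ B g μ →
      IsM (P.En S e ρ (axAll J V) Y) μ ∧ cov μ = 2 * B.card ∧
      use B (fun j => (g j).its) + cw S μ = 2 * B.card ∧
      (∀ j ∈ B, ¬ P.rigid S e ρ j → μ (ag j) ≠ ag j) ∧
      (∀ j, j ∉ B → μ (ag j) = ag j ∧ μ (dm j) = dm j) ∧
      (∀ v, v ∉ itsB B g → μ (vx v) = vx v) ∧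
      (∀ j ∈ B, ∀ v, g j = Sv.one v → μ (vx v) = ag j ∧ μ (ag j) = vx v) ∧
      (∀ j q z, P.OldP e ρ B g j q z → P.peE e ρ Y q z ∧ P.rigid S e ρ j ∧ P.Pr j q z ∧
        ¬ P.junk j z ∧ (g j).its = {q, z} ∧ μ (ag j) = ag j ∧ μ (vx q) = vx z) ∧
      (∀ j ∈ B, μ (ag j) = ag j → ∃ q z, P.OldP e ρ B g j q z) ∧
      (∀ q z, q ≠ z → μ (vx q) = vx z → P.Q0 e ρ q → ∃ j, P.OldP e ρ B g j q z) ∧
      (∀ j ∈ B, ∀ v ∈ (g j).its, μ (vx v) = vx v →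
        μ (ag j) = dm j ∨ (¬ P.Q0 e ρ v ∧ ∃ x, μ (ag j) = vx x ∧ P.ncE S e ρ Y j x) ∨
          ∃ a k, g j = Sv.two a v ∧ P.rigm e ρ j k ∧ μ (ag j) = vx a) ∧
      (P.Good e ρ Y B g → ∀ j ∈ B, ∀ v ∈ (g j).its, μ (vx v) = vx v → ¬ Y.nf v)

def NecS : Prop :=
  ∀ (J V K : Type) [Fintype J] [Fintype V] [Fintype K] [DecidableEq J] [DecidableEq V]
    [DecidableEq K] (P : G3 J V K) (S : Sub J V) (e l : ℕ) (Y : Px V) (g : J → Sv V), P.Wf S →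
    P.Min2 S S.A g → use S.A (fun j => (g j).its) + l ≤ S.W.card →
    (∀ j ∈ S.A, ¬ P.mu j → ∀ a b, g j = Sv.two a b → (Y.nf a ↔ Y.pn) ∧ (Y.nf b ↔ Y.pn)) →
    frn S.W Y.nf S.A (fun j => (g j).its) % 2 = Y.tg % 2 → P.Test1 S e l Y

def OptS : Prop :=
  ∀ (J V K : Type) [Fintype J] [Fintype V] [Fintype K] [DecidableEq J] [DecidableEq V]
    [DecidableEq K] (P : G3 J V K) (S : Sub J V) (e : ℕ) (ρ : Finset V) (Y : Px V)
    (B : Finset J) (g : J → Sv V) (μ ν : Nd J V → Nd J V) (X : Ax J V) (w N q0 : ℕ),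
    P.Ctx S e ρ Y B g μ → P.Best S e ρ X Y μ w ν → (ncomp μ ν).card ≤ N →
    (∀ z z', X.zs z → X.zs z' → z = z') →
    (∀ j j', P.rigid S e ρ j → P.rigid S e ρ j' → X.mc j → X.mc j' → j = j') →
    (X.pe ∨ ¬ X.nc ∨ ((PoolS S B g μ ν).filter fun v =>
      μ (vx v) = vx v ∧ P.Q0 e ρ v ∧ ¬ Y.nf v).card ≤ q0) →
    P.RectA S Y B g μ ν (6 * N + 5) (q0 + 11) ∧ P.JointB S e ρ μ ν (2 * N)

def OwnS : Prop :=
  ∀ (J V K : Type) [Fintype J] [Fintype V] [Fintype K] [DecidableEq J] [DecidableEq V]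
    [DecidableEq K] (P : G3 J V K) (S : Sub J V) (e : ℕ) (ρ : Finset V) (Y : Px V)
    (B : Finset J) (g : J → Sv V) (μ ν : Nd J V → Nd J V) (Hh Hi : Finset (J × V × V))
    (nE a3 δ : ℕ), P.RCtx S e ρ Y B g μ ν Hh Hi nE a3 δ →
    P.Own S e ρ ν Hh (a3 + nE + 1 + (Hh ∪ Hi).card) δ

def RealS : Prop :=
  ∀ (J V K : Type) [Fintype J] [Fintype V] [Fintype K] [DecidableEq J] [DecidableEq V]
    [DecidableEq K] (P : G3 J V K) (S : Sub J V) (e : ℕ) (ρ : Finset V) (Y : Px V)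
    (B : Finset J) (g : J → Sv V) (μ ν : Nd J V → Nd J V) (Hh Hi : Finset (J × V × V))
    (nE a1 a2 a3 nH δ nr : ℕ), P.RCtx S e ρ Y B g μ ν Hh Hi nE a3 δ →
    P.RectA S Y B g μ ν a1 a2 → (∀ r ∈ ρ, ¬ Y.nf r) →
    (∀ j ∈ B, ∀ v ∈ (g j).its, μ (vx v) = vx v → ¬ Y.nf v) →
    (ρ.filter fun r => r ∉ S.W ∨ r ∈ itsB B g).card ≤ nr → (Hh ∪ Hi).card ≤ nH →
    nr + nE + 2 * (2 * nE + a3 + 1 + nH) + a1 ≤ e →
    2 * S.A.card + 2 * (2 * nE + a3 + 1 + nH) + a2 + nE + unf S.W Y.nf ν ≤ cw S ν + S.W.card →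
    ∃ f, St (S.add (ag2 Hh) (it2 Hh)) (P.Serv3 S) (S.A ∪ ag2 Hh) f ∧
      use (S.A ∪ ag2 Hh) f + cw S ν ≤ 2 * (S.A.card + Hh.card) + δ ∧
      (frn (S.W ∪ it2 Hh) Y.nf (S.A ∪ ag2 Hh) f = unf S.W Y.nf ν ∨
        P.Exc S Y (S.A ∪ ag2 Hh) f)

def R0S : Prop :=
  ∀ (J V K : Type) [Fintype J] [Fintype V] [Fintype K] [DecidableEq J] [DecidableEq V]
    [DecidableEq K] (P : G3 J V K) (S : Sub J V) (e nr : ℕ) (ρ : Finset V) (B B' : Finset J)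
    (U : Finset V) (g : J → Sv V) (μ : Nd J V → Nd J V), 100 + nr ≤ e → P.Wf S → P.Frame e ρ →
    P.Min3 S B g → B' ⊆ B → itsB (B \ B') g ⊆ U → Disjoint U (itsB B' g) →
    P.Simple e ρ (px0 V) B' g → P.IsImg e ρ B' g μ →
    (ρ.filter fun r => r ∉ S.W \ U ∨ r ∈ itsB B' g).card ≤ nr →
    use B' (fun j => (g j).its) + 70 ≤ (S.W \ U).card →
    ¬ ∃ ν, P.Cls (S.res B' U) e ρ (axAll J V) (px0 V) μ (cw S μ + 2) ν

def CoreS : Prop :=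
  ∀ (J V K : Type) [Fintype J] [Fintype V] [Fintype K] [DecidableEq J] [DecidableEq V]
    [DecidableEq K] (P : G3 J V K) (S : Sub J V) (e nr : ℕ) (ρ : Finset V) (Y : Px V)
    (B B' : Finset J) (g : J → Sv V) (Γ : Finset (J × V × V)) (μ : Nd J V → Nd J V)
    (X : Ax J V) (w κ : ℕ), 112 + nr ≤ e → P.Wf S → P.Frame e ρ → (S.A \ B).card ≤ 1 →
    P.Min3 S B g → (ρ.filter fun r => r ∉ S.W ∨ r ∈ itsB B g).card ≤ nr → Γ.card ≤ 6 →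
    B' ⊆ B → (B \ B').card ≤ κ → P.Simple e ρ Y B' g → Disjoint B' (ag2 Γ) →
    Disjoint (it2 Γ) (itsB B' g) → P.IsImg e ρ B' g μ →
    (∀ j ∈ B', X.mc j → μ (ag j) ≠ ag j) →
    use B (fun j => (g j).its) + 90 ≤ S.W.card →
    (∃ ν, P.Cls (S.rem (ag2 Γ) (it2 Γ)) e ρ X Y μ w ν) →
    ∃ ν, P.Best (S.rem (ag2 Γ) (it2 Γ)) e ρ X Y μ w ν ∧ (ncomp μ ν).card ≤ 9 * κ + 9

/-- The general jump. -/
def JumpP (e c : ℕ) : Prop :=
  ∀ (J V K : Type) [Fintype J] [Fintype V] [Fintype K] [DecidableEq J] [DecidableEq V]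
    [DecidableEq K] (P : G3 J V K) (S : Sub J V) (l : ℕ) (ρ : Finset V) (Y : Px V)
    (B : Finset J) (g : J → Sv V), P.Wf S → (S.A \ B).card ≤ 1 → P.Min3 S B g → P.Frame e ρ →
    ρ ⊆ S.W → Disjoint ρ (itsB B g) → (∀ r ∈ ρ, ¬ Y.nf r) → P.Good e ρ Y B g →
    c + frn S.W Y.nf B (fun j => (g j).its) ≤ l →
    use B (fun j => (g j).its) + l ≤ S.W.card → P.TestF S e l Y ρ →
    ∃ f, St S (P.Serv3 S) S.A f ∧ use S.A f + l ≤ S.W.card ∧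
      (frn S.W Y.nf S.A f % 2 = Y.tg % 2 ∨ P.Exc S Y S.A f)

def JumpS : Prop := ∃ e c : ℕ, JumpP e c

/-- The jump from one level to the next. -/
def Jump0 (e c : ℕ) : Prop :=
  ∀ (J V K : Type) [Fintype J] [Fintype V] [Fintype K] [DecidableEq J] [DecidableEq V]
    [DecidableEq K] (P : G3 J V K) (S : Sub J V) (l : ℕ) (j0 : J) (f : J → Finset V), P.Wf S →
    c ≤ l → j0 ∈ S.A → St S (P.Serv3 S) (S.A.erase j0) f →
    use (S.A.erase j0) f + l + 1 ≤ S.W.card → P.Test1 S e l (px0 V) → P.Sol3 S l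

/-- The parity jump. -/
def PJ (e c : ℕ) : Prop :=
  ∀ (J V K : Type) [Fintype J] [Fintype V] [Fintype K] [DecidableEq J] [DecidableEq V]
    [DecidableEq K] (P : G3 J V K) (S : Sub J V) (l : ℕ) (hd : V → Prop), P.Wf S → c ≤ l →
    P.Sol3 S l → P.Test1 S e l ⟨hd, False, 0⟩ → P.Test1 S e l ⟨fun v => ¬ hd v, True, l⟩ →
    P.Sol3 S (l + 1) ∨ ∃ f, St S (P.Serv3 S) S.A f ∧ use S.A f + l = S.W.card ∧
      (Even (frn S.W hd S.A f) ∨ ∃ j ∈ S.A, ¬ P.mu j ∧ ∃ a b o, f j = {a, b} ∧ P.col j o a ∧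
        P.col j (!o) b ∧ ¬ P.HH a b ∧ hd a)

def PJS : Prop := ∀ e c : ℕ, JumpP e c → ∃ c', ∀ c'', c' ≤ c'' → Jump0 e c'' ∧ PJ e c''

def SLN (e : ℕ) : Prop :=
  ∀ (J V K : Type) [Fintype J] [Fintype V] [Fintype K] [DecidableEq J] [DecidableEq V]
    [DecidableEq K] (P : G3 J V K) (rk : J → ℕ) (S : Sub J V) (l : ℕ), P.Wf S → P.Sol2 S l →
    P.TestSL rk S e l

def SLS (e c : ℕ) : Prop :=
  ∀ (J V K : Type) [Fintype J] [Fintype V] [Fintype K] [DecidableEq J] [DecidableEq V]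
    [DecidableEq K] (P : G3 J V K) (rk : J → ℕ) (S : Sub J V) (l : ℕ), Function.Injective rk →
    P.Wf S → c ≤ l → P.TestSL rk S e l → P.Sol3 S l

def SLS3 : Prop := ∃ e c : ℕ, SLN e ∧ SLS e c ∧ PJ e c

/-! ### Classification and the absorbing cases -/

def ClsS : Prop :=
  ∀ N : ℕ, ∃ t0 : ℕ, ∀ (J V K : Type) [Fintype J] [Fintype V] [Fintype K] [DecidableEq J]
    [DecidableEq V] [DecidableEq K] (P : G3 J V K) (A : Finset J) (W : Finset V)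
    (g : J → Sv V), P.Min2 (P.pl A W) A g →
    (∃ (g' : J → Sv V) (ty : ℕ) (F : Fin N → Mb J V), P.PSt (P.pl A W) A g' ∧ NoTri A g' ∧
      P.base.PFam ty F ∧ ∀ r, (F r).1 ∈ A ∧ ¬ P.mu (F r).1 ∧
        (g' (F r).1).its = {(F r).2.2.1, (F r).2.2.2}) ∨
    (∃ (g' : J → Sv V) (ty : Bool) (F : Fin N → Mb J V), P.PSt (P.pl A W) A g' ∧ NoTri A g' ∧
      P.MFam ty F ∧ ∀ r, (F r).1 ∈ A ∧ (g' (F r).1).its = {(F r).2.2.1, (F r).2.2.2}) ∨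
    ∀ T ⊆ A.filter fun j => ∃ a b, g j = Sv.two a b, t0 ≤ T.card →
      ∃ i ∈ T, ∃ k ∈ T, i ≠ k ∧ P.Cons g i k

/-- Absorption with a witness whose second item is exposed (geometry of two terminals). -/
def UAX : Prop :=
  ∀ (J V : Type) [Fintype J] [Fintype V] [DecidableEq J] [DecidableEq V] (P : Geo J V)
    (c : ℕ) (F : Fin (NU c) → Mb J V) (s : J × V × V) (Z X : Finset V), P.PFam 3 F →
    (∃ o, P.col s.1 o s.2.1 ∧ P.col s.1 (!o) s.2.2) → ¬ P.HH s.2.1 s.2.2 → P.hard c F s.2.1 →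
    s.1 ∉ fagF F → s.2.1 ∉ fitF F → s.2.2 ∈ X → Disjoint Z (fitF F) → s.2.1 ∉ Z →
    (∀ z ∈ Z, ¬ P.waste F z ∧ ¬ P.star c F z) → X ⊆ Geo.expo c F → X.card ≤ Z.card →
    Z.card ≤ c + 1 →
    ∃ f, St (P.pl (fagF F ∪ {s.1}) ((fitF F \ X) ∪ Z ∪ {s.2.1, s.2.2})) (P.Serv2 (P.pl univ univ))
      (fagF F ∪ {s.1}) f

def USoundS : Prop :=
  ∀ e c L : ℕ, SLS e c → PJ e c → ∀ (J V K : Type) [Fintype J] [Fintype V] [Fintype K]
    [DecidableEq J] [DecidableEq V] [DecidableEq K] (P : G3 J V K) (rk : J → ℕ),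
    Function.Injective rk → P.UTest rk e c L → P.Feas

def UNecS : Prop :=
  ∀ e c cT : ℕ, SLN e → ∃ L0 : ℕ, ∀ L, L0 ≤ L →
    ∀ (J V K : Type) [Fintype J] [Fintype V] [Fintype K] [DecidableEq J] [DecidableEq V]
      [DecidableEq K] (P : G3 J V K) (rk : J → ℕ) (Φ : Finset (J × V × V × V)) (g : J → Sv V)
      (ty : ℕ) (F : Fin (NU c) → Mb J V), P.PhiOk Φ → Φ.card ≤ cT →
      P.PSt (P.pl (univ \ ag3 Φ) (univ \ it3 Φ)) (univ \ ag3 Φ) g → NoTri (univ \ ag3 Φ) g →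
      P.base.PFam ty F →
      (∀ r, (F r).1 ∈ univ \ ag3 Φ ∧ ¬ P.mu (F r).1 ∧
        (g (F r).1).its = {(F r).2.2.1, (F r).2.2.2}) →
      P.UTest rk e c L

def MSoundS : Prop :=
  ∀ e c L : ℕ, SLS e c → ∀ (J V K : Type) [Fintype J] [Fintype V] [Fintype K]
    [DecidableEq J] [DecidableEq V] [DecidableEq K] (P : G3 J V K) (rk : J → ℕ),
    Function.Injective rk → P.MTest rk e c L → P.Feas

def MNecS : Prop :=
  ∀ e c cT : ℕ, SLN e → ∃ L0 : ℕ, ∀ L, L0 ≤ L →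
    ∀ (J V K : Type) [Fintype J] [Fintype V] [Fintype K] [DecidableEq J] [DecidableEq V]
      [DecidableEq K] (P : G3 J V K) (rk : J → ℕ) (Φ : Finset (J × V × V × V)) (g : J → Sv V)
      (ty : Bool) (F : Fin (NU c) → Mb J V), P.PhiOk Φ → Φ.card ≤ cT →
      P.PSt (P.pl (univ \ ag3 Φ) (univ \ it3 Φ)) (univ \ ag3 Φ) g → NoTri (univ \ ag3 Φ) g →
      P.MFam ty F →
      (∀ r, (F r).1 ∈ univ \ ag3 Φ ∧ (g (F r).1).its = {(F r).2.2.1, (F r).2.2.2}) →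
      P.MTest rk e c L

/-! ### The consistent case -/

def RNecS : Prop :=
  ∀ e c cT t0 c1 : ℕ, SLN e → ∃ L0 : ℕ, ∀ L, L0 ≤ L →
    ∀ (J V K : Type) [Fintype J] [Fintype V] [Fintype K] [DecidableEq J] [DecidableEq V]
      [DecidableEq K] (P : G3 J V K) (rk : J → ℕ) (Φ : Finset (J × V × V × V)) (g : J → Sv V),
      P.PhiOk Φ → Φ.card ≤ cT →
      P.PSt (P.pl (univ \ ag3 Φ) (univ \ it3 Φ)) (univ \ ag3 Φ) g → NoTri (univ \ ag3 Φ) g →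
      (∀ T ⊆ (univ \ ag3 Φ).filter fun j => ∃ a b, g j = Sv.two a b, t0 ≤ T.card →
        ∃ i ∈ T, ∃ k ∈ T, i ≠ k ∧ P.Cons g i k) →
      P.RTest rk e c t0 c1 L

def KVS : Prop :=
  ∀ (J V K : Type) [Fintype J] [Fintype V] [Fintype K] [DecidableEq J] [DecidableEq V]
    [DecidableEq K] (P : G3 J V K) (t M t' M0 : ℕ) (R : R3 J V K t M t' M0) (A : Finset J)
    (W : Finset V), P.KTest R A W → ∃ ν, P.VS R A W ν

def KCtxS : Prop :=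
  ∀ (J V K : Type) [Fintype J] [Fintype V] [Fintype K] [DecidableEq J] [DecidableEq V]
    [DecidableEq K] (P : G3 J V K) (t M t' M0 : ℕ) (R : R3 J V K t M t' M0) (h2 : ℕ)
    (A : Finset J) (W : Finset V) (B : Finset J) (g : J → Sv V), 12 * h2 ≤ M → 1200 ≤ M →
    R.h ≤ M → P.RGood R → Disjoint A (fa R.mem) → Disjoint W (fi R.mem) → P.PSt (P.SR R A W) B g →
    NoTri B g → ∃ B' od μ, B' ⊆ B ∧ (B \ B').card ≤ 10 * t ∧ P.KCtx R h2 A W B' g od μ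

def RSelS : Prop :=
  ∀ t0 cu : ℕ, ∃ nE d : ℕ,
    ∀ (J V K : Type) [Fintype J] [Fintype V] [Fintype K] [DecidableEq J] [DecidableEq V]
      [DecidableEq K] (P : G3 J V K) (t M t' M0 : ℕ) (R : R3 J V K t M t' M0) (h2 : ℕ)
      (A : Finset J) (W : Finset V) (B : Finset J) (g : J → Sv V) (od : Od3 J V K t)
      (μ : Nd J V → Nd J V), t < t0 → t' < t0 → 2 * R.h + h2 + 2 ≤ M → 4 * h2 + 4 ≤ M →
      2 * R.h0 + 2 ≤ M0 → P.KCtx R h2 A W B g od μ → (A \ B).card ≤ cu →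
      (∃ ν, P.VS R A W ν) → ∃ ν, P.KOut R h2 A W od μ ν nE d

def RAsgS : Prop :=
  ∀ t0 nE d : ℕ, ∃ D : ℕ,
    ∀ (J V K : Type) [Fintype J] [Fintype V] [Fintype K] [DecidableEq J] [DecidableEq V]
      [DecidableEq K] (P : G3 J V K) (t M t' M0 : ℕ) (R : R3 J V K t M t' M0) (h2 : ℕ)
      (A : Finset J) (W : Finset V) (B : Finset J) (g : J → Sv V) (od : Od3 J V K t)
      (μ ν : Nd J V → Nd J V), t < t0 → 2 * R.h + 2 ≤ M → P.KCtx R h2 A W B g od μ →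
      P.KOut R h2 A W od μ ν nE d → P.KAs R h2 A ν D

def RRealS : Prop :=
  ∀ (J V K : Type) [Fintype J] [Fintype V] [Fintype K] [DecidableEq J] [DecidableEq V]
    [DecidableEq K] (P : G3 J V K) (t M t' M0 : ℕ) (R : R3 J V K t M t' M0) (h2 : ℕ)
    (A : Finset J) (W : Finset V) (B : Finset J) (g : J → Sv V) (od : Od3 J V K t)
    (μ ν : Nd J V → Nd J V) (nE d D : ℕ), P.KCtx R h2 A W B g od μ →
    P.KOut R h2 A W od μ ν nE d → P.KAs R h2 A ν D → 3 * (D + nE) + 3 ≤ h2 →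
    10 * (R.h + 3 * (D + nE) + 3) ≤ M → 2 * R.h0 + D + 1 ≤ M0 →
    ∃ f, St (P.pl (A ∪ fa R.mem) (W ∪ fi R.mem)) (P.Serv2 (P.pl univ univ)) (A ∪ fa R.mem) f

def RSoundS : Prop :=
  ∀ e c t0 : ℕ, SLS e c → ∃ c1 : ℕ, ∀ L,
    ∀ (J V K : Type) [Fintype J] [Fintype V] [Fintype K] [DecidableEq J] [DecidableEq V]
      [DecidableEq K] (P : G3 J V K) (rk : J → ℕ), Function.Injective rk →
      P.RTest rk e c t0 c1 L → P.Feas

def MainS : Prop :=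
  ∃ e c t0 c1 L : ℕ, ∀ (J V K : Type) [Fintype J] [Fintype V] [Fintype K] [DecidableEq J]
    [DecidableEq V] [DecidableEq K] (P : G3 J V K) (rk : J → ℕ), Function.Injective rk →
    (P.Feas ↔ P.Char rk e c t0 c1 L)

end Pool.Agent.Lib.MP_ef7581_lc.D3
end
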