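import Mathlib
import Pool.Agent.Lib.MP_ef7581_lc.DComp
import Pool.Agent.Lib.MP_ef7581_lc.EStmts

/-!
Basic geometry of agents with several terminals.
-/

set_option autoImplicit false
set_option linter.unusedSectionVars false

namespace Pool.Agent.Lib.MP_ef7581_lc.D3

open Finset Classical D2

variable {J V K : Type} [Fintype J] [Fintype V] [Fintype K] [DecidableEq J] [DecidableEq V]
  [DecidableEq K]

namespace G3

variable {P : G3 J V K}

theorem adj_iff {j : J} {o : Bool} {x : V} : P.adj j o x ↔ P.adt j (P.b j o) x := Iff.rfl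
theorem HH_iff {x y : V} : P.HH x y ↔ P.H (Sum.inl x) (Sum.inl y) := Iff.rfl

theorem b_adj (j : J) (o : Bool) : P.H (Sum.inr (j, P.b j o)) (Sum.inr (j, P.b j (!o))) := by
  cases o
  · exact P.st j
  · exact P.symm _ _ (P.st j)

theorem b_ne (j : J) (o : Bool) : P.b j o ≠ P.b j (!o) := fun h => P.irrefl _ (by
  have := b_adj (P := P) j o
  rwa [← h] at this)

/-- Two terminals of one agent that have neighbours are adjacent. -/
theorem tm_adj {j : J} {k k' : K} {u u' : V ⊕ J × K} (h : P.H (Sum.inr (j, k)) u)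
    (h' : P.H (Sum.inr (j, k')) u') (hne : k ≠ k') : P.H (Sum.inr (j, k)) (Sum.inr (j, k')) := by
  rcases P.iso j k u h false with a | a
  · rcases P.iso j k' u' h' false with b | b
    · exact absurd (a.trans b.symm) hne
    · exact a ▸ P.symm _ _ b
  rcases P.iso j k u h true with c | c
  · rcases P.iso j k' u' h' true with b | b
    · exact absurd (c.trans b.symm) hne
    · exact c ▸ P.symm _ _ b
  rcases P.iso j k' u' h' false with b | b
  · exact b ▸ a
  rcases P.iso j k' u' h' true with d | d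
  · exact d ▸ c
  exact P.dia _ _ _ _ (P.st j) (P.symm _ _ a) (P.symm _ _ c) (P.symm _ _ b) (P.symm _ _ d)
    (by simp [hne])

/-- An item next to two terminals of an agent is next to all of them. -/
theorem adt_of_two {j : J} {k k' k'' : K} {x : V} {u : V ⊕ J × K} (h : P.adt j k x)
    (h' : P.adt j k' x) (hne : k ≠ k') (hu : P.H (Sum.inr (j, k'')) u) : P.adt j k'' x := by
  by_cases a : k'' = k
  · exact a ▸ h
  by_cases b : k'' = k'
  · exact b ▸ h'
  exact P.dia _ _ _ _ (tm_adj h h' hne) (tm_adj h hu (Ne.symm a)) (tm_adj h' hu (Ne.symm b)) h h'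
    (by simp)

theorem junk_of_two {j : J} {k k' : K} {x : V} (h : P.adt j k x) (h' : P.adt j k' x)
    (hne : k ≠ k') : P.junk j x :=
  ⟨adt_of_two h h' hne (b_adj j false), adt_of_two h h' hne (b_adj j true)⟩

theorem adt_of_junk {j : J} {k : K} {x y : V} (h : P.junk j x) (hy : P.adt j k y) :
    P.adt j k x := adt_of_two h.1 h.2 (b_ne j false) hy

theorem colk_unique {j : J} {k k' : K} {x : V} (h : P.colk j k x) (h' : P.adt j k' x) :
    k' = k := by
  by_contra hn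
  exact h.2 (junk_of_two h' h.1 hn)

theorem colk_not_C {j : J} {k : K} {x : V} (h : P.colk j k x) : ¬ P.C j x := fun c => c k h.1

theorem junk_not_C {j : J} {x : V} (h : P.junk j x) : ¬ P.C j x := fun c => c _ h.1

theorem label (j : J) (x : V) : P.C j x ∨ P.junk j x ∨ ∃ k, P.colk j k x := by
  by_cases a : P.C j x
  · exact Or.inl a
  by_cases b : P.junk j x
  · exact Or.inr (Or.inl b)
  obtain ⟨k, c⟩ := not_forall.1 a
  exact Or.inr (Or.inr ⟨k, not_not.1 c, b⟩)

theorem col_iff {j : J} {o : Bool} {x : V} : P.col j o x ↔ P.colk j (P.b j o) x :=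
  ⟨fun h => ⟨h.1, Geo.col_not_junk h⟩, fun h => ⟨h.1, fun a => h.2 (Geo.junk_of h.1 a)⟩⟩

/-! ### Agents with two terminals -/

theorem strict_tm {j : J} {k : K} {x : V} (hs : ¬ P.mu j) (h : P.adt j k x) :
    ∃ o, k = P.b j o := by
  rcases P.iso j k _ h false with a | a
  · exact ⟨_, a⟩
  rcases P.iso j k _ h true with b | b
  · exact ⟨_, b⟩
  exact (hs ⟨k, a, b⟩).elim

theorem C_base {j : J} {x : V} (h : P.C j x) : P.base.C j x := ⟨h _, h _⟩

theorem C_iff {j : J} {x : V} (hs : ¬ P.mu j) : P.C j x ↔ P.base.C j x :=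
  ⟨C_base, fun h k a => by
    obtain ⟨o, rfl⟩ := strict_tm hs a
    exact Geo.C_not h o a⟩

theorem Pr_of_base {j : J} {a b : V} (hs : ¬ P.mu j) (h : P.base.Pr j a b) : P.Pr j a b := by
  obtain ⟨h1, h2, o, h3, h4⟩ := h
  refine ⟨h1, Or.inr h2, fun k c => ?_⟩
  obtain ⟨o', rfl⟩ := strict_tm hs c.1
  by_cases d : o' = o
  · exact h3 (d ▸ c.1)
  · have : o' = !o := by cases o <;> cases o' <;> simp_all
    exact h4 (this ▸ c.2)

theorem Ok_iff {j : J} {x y : V} (hs : ¬ P.mu j) : P.Ok j x y ↔ P.base.Ok j x y := by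
  constructor
  · rintro (h | h | ⟨h1, h2, h3⟩)
    · exact Or.inl (C_base h)
    · exact Or.inr (Or.inl (C_base h))
    · by_contra hn
      obtain ⟨o, a⟩ := Geo.refuse h1 (h2.resolve_left hs) hn
      exact h3 _ a
  · rintro (h | h | h)
    · exact Or.inl ((C_iff hs).2 h)
    · exact Or.inr (Or.inl ((C_iff hs).2 h))
    · exact Or.inr (Or.inr (Pr_of_base hs h))

/-- A pair of an agent with two terminals without free item is properly coloured. -/
theorem col_of_Pr {j : J} {a b : V} (hs : ¬ P.mu j) (h : P.Pr j a b) (ha : ¬ P.C j a)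
    (hb : ¬ P.C j b) : ∃ o, P.col j o a ∧ P.col j (!o) b ∧ ¬ P.HH a b := by
  obtain ⟨k, c⟩ := not_forall.1 ha
  obtain ⟨k', c'⟩ := not_forall.1 hb
  obtain ⟨o, rfl⟩ := strict_tm hs (not_not.1 c)
  obtain ⟨o', rfl⟩ := strict_tm hs (not_not.1 c')
  have n : o' = !o := by
    by_contra hn
    have : o' = o := by cases o <;> cases o' <;> simp_all
    exact h.2.2 _ ⟨not_not.1 c, this ▸ not_not.1 c'⟩
  subst n
  exact ⟨o, ⟨not_not.1 c, fun d => h.2.2 _ ⟨d, not_not.1 c'⟩⟩,
    ⟨not_not.1 c', fun d => h.2.2 _ ⟨not_not.1 c, by simpa [adj_iff] using d⟩⟩,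
    h.2.1.resolve_left hs⟩

/-! ### Services -/

theorem Pr_symm {j : J} {a b : V} (h : P.Pr j a b) : P.Pr j b a :=
  ⟨h.1.symm, h.2.1.imp id fun a b => a (Geo.HH_symm b), fun k c => h.2.2 k ⟨c.2, c.1⟩⟩

theorem Ok_symm {j : J} {a b : V} (h : P.Ok j a b) : P.Ok j b a := by
  rcases h with h | h | h
  · exact Or.inr (Or.inl h)
  · exact Or.inl h
  · exact Or.inr (Or.inr (Pr_symm h))

theorem Pr_of_col {j : J} {o : Bool} {a b : V} (ha : P.col j o a) (hb : P.col j (!o) b)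
    (h : P.mu j ∨ ¬ P.HH a b) : P.Pr j a b :=
  ⟨Geo.col_ne ha hb, h, fun _ c => b_ne j o
    ((colk_unique (col_iff.1 ha) c.1).symm.trans (colk_unique (col_iff.1 hb) c.2))⟩

/-- A coloured item and an item that is not next to its terminal. -/
theorem Pr_of_colk {j : J} {k : K} {a b : V} (ha : P.colk j k a) (hb : ¬ P.adt j k b)
    (h : P.mu j ∨ ¬ P.HH a b) : P.Pr j a b :=
  ⟨fun e => hb (e ▸ ha.1), h, fun _ c => hb (colk_unique ha c.1 ▸ c.2)⟩

theorem colk_of_Pr {j : J} {a b : V} (h : P.Pr j a b) (ha : ¬ P.C j a) (hb : ¬ P.C j b) :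
    ∃ k k', k ≠ k' ∧ P.colk j k a ∧ P.colk j k' b := by
  obtain ⟨k, c⟩ := not_forall.1 ha
  obtain ⟨k', c'⟩ := not_forall.1 hb
  rw [not_not] at c c'
  exact ⟨k, k', fun e => h.2.2 k ⟨c, e ▸ c'⟩, ⟨c, fun d => h.2.2 k' ⟨adt_of_junk d c', c'⟩⟩,
    ⟨c', fun d => h.2.2 k ⟨c, adt_of_junk d c⟩⟩⟩

theorem refuse {j : J} {x y : V} (hxy : x ≠ y) (nh : P.mu j ∨ ¬ P.HH x y) (h : ¬ P.Ok j x y) :
    ∃ k, P.adt j k x ∧ P.adt j k y := by
  by_contra hn
  exact h (Or.inr (Or.inr ⟨hxy, nh, fun k c => hn ⟨k, c⟩⟩))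

theorem nrm_two {S : Sub J V} {j : J} {a b : V} (h : P.Nrm S j (Sv.two a b)) :
    S.geo j ∧ P.Pr j a b ∧ ∃ k k', k ≠ k' ∧ P.colk j k a ∧ P.colk j k' b := by
  rcases h with ⟨h0, ⟨-, h2, h3, h4⟩ | ⟨-, h2, h3, h4⟩⟩
  · exact ⟨h0, Pr_of_col (o := true) h2 h3 (Or.inr h4), _, _, b_ne j true, col_iff.1 h2,
      col_iff.1 h3⟩
  · exact ⟨h0, h2, colk_of_Pr h2 h3 h4⟩

theorem serv_of_Ok {S : Sub J V} (hw : P.Wf S) {j : J} (hg : S.geo j) {x y : V}
    (h : P.Ok j x y) : P.Serv2 S j {x, y} := by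
  rcases h with h | h | h
  · exact Or.inl ⟨x, by simp, (hw.1 j hg x).2 h⟩
  · exact Or.inl ⟨y, by simp, (hw.1 j hg y).2 h⟩
  · exact Or.inr ⟨hg, x, by simp, y, by simp, h⟩

theorem wf_pl (A : Finset J) (W : Finset V) : P.Wf (P.pl A W) := ⟨fun _ _ _ => Iff.rfl, fun _ => id⟩

/-- Services of the geometry of two terminals are services. -/
theorem serv2_of_base {j : J} (hs : ¬ P.mu j) {s : Finset V} {A A' : Finset J} {W W' : Finset V}
    (h : P.base.Serv2 (P.base.pl A W) j s) : P.Serv2 (P.pl A' W') j s := by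
  rcases h with ⟨v, a, b⟩ | ⟨-, a, ha, b, hb, c⟩
  · exact Or.inl ⟨v, a, (C_iff hs).2 b⟩
  · exact Or.inr ⟨trivial, a, ha, b, hb, Pr_of_base hs c⟩

/-! ### Terminals -/

theorem ind_k {j j' : J} {k k' : K} {a b x y : V} (h : (j, k) ≠ (j', k')) (ua : P.adt j k a)
    (va : P.adt j' k' a) (ub : P.adt j k b) (vb : P.adt j' k' b) (hab : a ≠ b)
    (nab : ¬ P.HH a b) (ux : P.adt j k x) (vx : P.adt j' k' x) (uy : P.adt j k y)
    (vy : P.adt j' k' y) : ¬ P.HH x y := fun hh =>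
  nab (P.dia _ _ _ _ (P.dia _ _ _ _ hh (P.symm _ _ ux) (P.symm _ _ uy) (P.symm _ _ vx)
    (P.symm _ _ vy) fun e => h (Sum.inr_injective e)) ua va ub vb
    fun e => hab (Sum.inl_injective e))

/-- Two terminals with two adjacent common neighbours: all common neighbours are adjacent. -/
theorem line_k {j j' : J} {k k' : K} {a b x y : V} (h : (j, k) ≠ (j', k')) (ua : P.adt j k a)
    (va : P.adt j' k' a) (ub : P.adt j k b) (vb : P.adt j' k' b) (hab : P.HH a b)
    (ux : P.adt j k x) (vx : P.adt j' k' x) (uy : P.adt j k y) (vy : P.adt j' k' y)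
    (hne : x ≠ y) : P.HH x y :=
  P.dia _ _ _ _ (P.dia _ _ _ _ hab (P.symm _ _ ua) (P.symm _ _ ub) (P.symm _ _ va)
    (P.symm _ _ vb) fun e => h (Sum.inr_injective e)) ux vx uy vy
    fun e => hne (Sum.inl_injective e)

theorem cluster_k {j : J} {k : K} {x y z : V} (hx : P.adt j k x) (hy : P.adt j k y)
    (hz : P.adt j k z) (xy : P.HH x y) (xz : P.HH x z) (h : y ≠ z) : P.HH y z :=
  P.dia _ _ _ _ hx hy xy hz xz fun e => h (Sum.inl_injective e)

theorem adt_of_edge {j : J} {k : K} {x y z : V} (xy : P.HH x y) (hx : P.adt j k x)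
    (hy : P.adt j k y) (zx : P.HH z x) (zy : P.HH z y) : P.adt j k z :=
  P.dia _ _ _ _ xy (P.symm _ _ hx) (P.symm _ _ hy) (Geo.HH_symm zx) (Geo.HH_symm zy) (by simp)

theorem not_adt_of_two {j : J} {k : K} {x y z : V} (h : x ≠ y) (xy : ¬ P.HH x y)
    (hx : P.adt j k x) (hy : P.adt j k y) (zx : P.HH z x) (zy : P.HH z y) : ¬ P.adt j k z :=
  fun hz => xy (cluster_k hz hx hy zx zy h)

/-- Agents with two common junk items lie on one line. -/
theorem line_tm {j j' : J} {x y u u' : V} {k k' : K} (hj : j ≠ j') (hxy : x ≠ y)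
    (x1 : P.junk j x) (y1 : P.junk j y) (x2 : P.junk j' x) (y2 : P.junk j' y) (hu : P.adt j k u)
    (hu' : P.adt j' k' u') : P.H (Sum.inr (j, k)) (Sum.inr (j', k')) :=
  P.dia _ _ _ _ (Geo.junk_hh x1 y1 hxy) (P.symm _ _ (adt_of_junk x1 hu))
    (P.symm _ _ (adt_of_junk y1 hu)) (P.symm _ _ (adt_of_junk x2 hu'))
    (P.symm _ _ (adt_of_junk y2 hu')) (by simp [hj])

theorem junk_of_line {j j' : J} {x y a : V} {k k' : K} (hj : j ≠ j') (hxy : x ≠ y)
    (x1 : P.junk j x) (y1 : P.junk j y) (x2 : P.junk j' x) (y2 : P.junk j' y) (ha : P.adt j k a)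
    (ha' : P.adt j' k' a) : P.junk j a := by
  obtain ⟨o, ho⟩ : ∃ o, P.b j o ≠ k := by
    by_cases h : P.b j false = k
    · exact ⟨true, fun e => b_ne j false (h.trans e.symm)⟩
    · exact ⟨false, h⟩
  have c := Geo.junk_adj x1 o
  exact junk_of_two ha (P.dia _ _ _ _ (line_tm hj hxy x1 y1 x2 y2 ha ha') (tm_adj ha c ho.symm)
    (P.symm _ _ (line_tm hj hxy x1 y1 x2 y2 c ha')) ha ha' (by simp)) ho.symm

theorem coline {j j' : J} {x y a : V} {k : K} (hj : j ≠ j') (hxy : x ≠ y) (x1 : P.junk j x)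
    (y1 : P.junk j y) (x2 : P.junk j' x) (y2 : P.junk j' y) (ha : P.colk j k a) : P.C j' a :=
  fun _ h => ha.2 (junk_of_line hj hxy x1 y1 x2 y2 ha.1 h)

/-! ### Frames -/

variable {e : ℕ} {ρ : Finset V}

theorem maj_iff {j : J} {o : Bool} : P.base.maj e ρ j o ↔ P.majk e ρ j (P.b j o) := Iff.rfl

theorem majk_ex (hf : P.Frame e ρ) {j : J} {k : K} (h : P.majk e ρ j k) :
    ∃ r ∈ ρ, P.adt j k r := by
  obtain ⟨r, hr, -, -, -, a, -⟩ :=
    Geo.two_of_filters (p := fun r => P.adt j k r) (q := fun r => P.adt j k r) h h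
      (by rw [hf.1]; omega)
  exact ⟨r, hr, a⟩

/-- Two junk items in the frame make the agent blind. -/
theorem blind_of_junk (hf : P.Frame e ρ) {j : J} {r r' : V} (hr : r ∈ ρ) (hr' : r' ∈ ρ)
    (hne : r ≠ r') (a : P.junk j r) (b : P.junk j r') : P.blind e ρ j := by
  rcases hf.2 with hi | hc
  · exact (hi r hr r' hr' (Geo.junk_hh a b hne)).elim
  · exact ⟨Geo.maj_of_all (Geo.clq_all hc hr hr' hne a.1 b.1),
      Geo.maj_of_all (Geo.clq_all hc hr hr' hne a.2 b.2)⟩

theorem majk_unique (hf : P.Frame e ρ) {j : J} {k k' : K} (h : P.majk e ρ j k)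
    (h' : P.majk e ρ j k') (hb : ¬ P.blind e ρ j) : k = k' := by
  by_contra hn
  obtain ⟨r, hr, r', hr', hne, a1, b1, a2, b2⟩ :=
    Geo.two_of_filters (p := fun r => P.adt j k r) (q := fun r => P.adt j k' r) h h'
      (by rw [hf.1]; omega)
  exact hb (blind_of_junk hf hr hr' hne (junk_of_two a1 b1 hn) (junk_of_two a2 b2 hn))

theorem rigm_unique (hf : P.Frame e ρ) {j : J} {k k' : K} (h : P.rigm e ρ j k)
    (h' : P.rigm e ρ j k') : k = k' := majk_unique hf h.2.1 h'.2.1 h.2.2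

theorem kinds (hf : P.Frame e ρ) (j : J) : P.blind e ρ j ∨ P.flex e ρ j ∨
    (¬ P.mu j ∧ ∃ o, P.rig e ρ j o) ∨ ∃ k, P.rigm e ρ j k := by
  by_cases a : P.blind e ρ j
  · exact Or.inl a
  by_cases b : P.flex e ρ j
  · exact Or.inr (Or.inl b)
  obtain ⟨k, c⟩ := not_forall.1 b
  rw [not_not] at c
  by_cases d : P.mu j
  · exact Or.inr (Or.inr (Or.inr ⟨k, d, c, a⟩))
  obtain ⟨r, -, f⟩ := majk_ex hf c
  obtain ⟨o, rfl⟩ := strict_tm d f
  refine Or.inr (Or.inr (Or.inl ⟨d, o, c, fun g => a ?_⟩))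
  cases o
  · exact ⟨c, g⟩
  · exact ⟨g, c⟩

theorem rig_not_flex {j : J} {o : Bool} (h : P.rig e ρ j o) : ¬ P.flex e ρ j :=
  fun hf => hf _ h.1

theorem rigm_not_flex {j : J} {k : K} (h : P.rigm e ρ j k) : ¬ P.flex e ρ j :=
  fun hf => hf _ h.2.1

theorem flex_base {j : J} (h : P.flex e ρ j) : P.base.flex e ρ j := ⟨h _, h _⟩

theorem Q0_not_adt (hf : P.Frame e ρ) {j : J} {k : K} {q : V} (hm : P.majk e ρ j k)
    (hq : P.Q0 e ρ q) : ¬ P.adt j k q := by
  obtain ⟨r, hr, r', hr', hne, a1, b1, a2, b2⟩ :=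
    Geo.two_of_filters (p := fun r => P.adt j k r) (q := fun r => P.HH q r) hm hq.2
      (by rw [hf.1]; omega)
  exact not_adt_of_two hne (hq.1 r hr r' hr') a1 a2 b1 b2

/-- Two agents with a majority terminal that are not blind have at most one common junk item. -/
theorem majk_junk (hf : P.Frame e ρ) {j j' : J} {k k' : K} {x y : V} (hj : j ≠ j')
    (h : P.majk e ρ j k) (hb : ¬ P.blind e ρ j) (h' : P.majk e ρ j' k') (x1 : P.junk j x)
    (y1 : P.junk j y) (x2 : P.junk j' x) (y2 : P.junk j' y) : x = y := by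
  by_contra hxy
  obtain ⟨r, hr, r', hr', hne, a1, b1, a2, b2⟩ :=
    Geo.two_of_filters (p := fun r => P.adt j k r) (q := fun r => P.adt j' k' r) h h'
      (by rw [hf.1]; omega)
  exact hb (blind_of_junk hf hr hr' hne (junk_of_line hj hxy x1 y1 x2 y2 a1 b1)
    (junk_of_line hj hxy x1 y1 x2 y2 a2 b2))

theorem blind_C (hf : P.Frame e ρ) {j j' : J} {k : K} {a : V} (hj : j ≠ j')
    (h : P.blind e ρ j) (h' : P.blind e ρ j') (ha : P.colk j k a) : P.C j' a := by
  have c : ∀ i, P.blind e ρ i → (ρ.filter fun r => ¬ P.junk i r).card ≤ 2 * e := fun i hi => by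
    have h1 : (ρ.filter fun r => ¬ P.junk i r) ⊆
        (ρ.filter fun r => ¬ P.base.adj i false r) ∪ ρ.filter fun r => ¬ P.base.adj i true r :=
      fun r hr => by simp only [mem_union, mem_filter, Geo.junk] at hr ⊢; tauto
    have h2 := card_le_card h1
    have h3 := card_union_le (ρ.filter fun r => ¬ P.base.adj i false r)
      (ρ.filter fun r => ¬ P.base.adj i true r)
    have h4 := hi.1
    have h5 := hi.2
    unfold Geo.maj at h4 h5
    omega
  obtain ⟨r, -, r', -, hne, a1, b1, a2, b2⟩ :=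
    Geo.two_of_filters (p := fun r => P.junk j r) (q := fun r => P.junk j' r) (c j h) (c j' h')
      (by rw [hf.1]; omega)
  exact coline hj hne a1 a2 b1 b2 ha

/-- A coloured item of a multiple agent outside the majority has many partners. -/
theorem minor_many {j : J} {k : K} {x : V} (hm : P.mu j) (hx : P.colk j k x)
    (h : ¬ P.majk e ρ j k) : e < (ρ.filter fun r => P.Pr j x r).card := by
  unfold majk at h
  refine lt_of_lt_of_le (not_le.1 h) (card_le_card fun r hr => ?_)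
  rw [mem_filter] at hr ⊢
  exact ⟨hr.1, Pr_of_colk hx hr.2 (Or.inl hm)⟩

/-- A key of a rigid multiple agent has many partners in the frame. -/
theorem keym_many (hf : P.Frame e ρ) {j : J} {k : K} {x : V} (h : P.rigm e ρ j k)
    (hx : ¬ P.adt j k x) (hc : ¬ P.C j x) : e < (ρ.filter fun r => P.Pr j x r).card := by
  obtain ⟨r, -, hr⟩ := majk_ex hf h.2.1
  rcases label (P := P) j x with a | a | ⟨k', a⟩
  · exact (hc a).elim
  · exact (hx (adt_of_junk a hr)).elim
  · exact minor_many h.1 a fun b => hx (majk_unique hf b h.2.1 h.2.2 ▸ a.1)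

/-- Most frame items have the majority colour. -/
theorem rigm_col (hf : P.Frame e ρ) {j : J} {k : K} (h : P.rigm e ρ j k) :
    (ρ.filter fun r => ¬ P.colk j k r).card ≤ e + 1 := by
  have h1 : (ρ.filter fun r => ¬ P.colk j k r) ⊆
      (ρ.filter fun r => ¬ P.adt j k r) ∪ ρ.filter fun r => P.junk j r := fun r hr => by
    simp only [mem_union, mem_filter, colk] at hr ⊢; tauto
  have h2 := card_le_card h1
  have h3 := card_union_le (ρ.filter fun r => ¬ P.adt j k r) (ρ.filter fun r => P.junk j r)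
  have h4 : (ρ.filter fun r => P.junk j r).card ≤ 1 := card_le_one.2 fun x hx y hy => by
    rw [mem_filter] at hx hy
    by_contra hne
    exact h.2.2 (blind_of_junk hf hx.1 hy.1 hne hx.2 hy.2)
  have h5 := h.2.1
  unfold majk at h5
  omega

theorem key_many (hf : P.Frame e ρ) {j : J} {o : Bool} {x : V} (hs : ¬ P.mu j)
    (h : P.rig e ρ j o) (hx : P.col j (!o) x) (hl : ¬ P.heavy e ρ x) :
    e < (ρ.filter fun r => P.Pr j x r).card :=
  lt_of_lt_of_le (Geo.key_many hf h hx hl) (card_le_card fun _ hr =>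
    mem_filter.2 ⟨(mem_filter.1 hr).1, Pr_of_base hs (mem_filter.1 hr).2⟩)

theorem triple_many (hf : P.Frame e ρ) {j : J} {o : Bool} {q z : V} (hs : ¬ P.mu j)
    (h : P.rig e ρ j o) (hq : P.Q0 e ρ q) (hz : P.junk j z) (hl : ¬ P.heavy e ρ z)
    (nh : ¬ P.HH q z) : e < (ρ.filter fun r => P.Tr j q z r).card :=
  lt_of_lt_of_le (Geo.triple_many hf h hq hz hl nh) (card_le_card fun _ hr =>
    mem_filter.2 ⟨(mem_filter.1 hr).1, hs, (mem_filter.1 hr).2⟩)

theorem flex_serv (hf : P.Frame e ρ) {j : J} (h : P.flex e ρ j) {U : Finset V}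
    (hU : U.card ≤ e) : ∃ a ∈ ρ, ∃ b ∈ ρ, a ∉ U ∧ b ∉ U ∧ P.Ok j a b := by
  by_cases hm : P.mu j
  swap
  · obtain ⟨a, ha, b, hb, c1, c2, c3⟩ := Geo.flex_serv hf (flex_base h) hU
    exact ⟨a, ha, b, hb, c1, c2, (Ok_iff hm).2 c3⟩
  have h1 := h (P.b j false)
  unfold majk at h1
  obtain ⟨a, ha, aU⟩ := Geo.exists_not_mem (s := ρ.filter fun r => ¬ P.adt j (P.b j false) r)
    (U := U) (by omega)
  rw [mem_filter] at ha
  rcases label (P := P) j a with c | c | ⟨k, c⟩
  · exact ⟨a, ha.1, a, ha.1, aU, aU, Or.inl c⟩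
  · exact (ha.2 c.1).elim
  · have h2 := minor_many hm c (h k)
    obtain ⟨b, hb, bU⟩ := Geo.exists_not_mem (s := ρ.filter fun r => P.Pr j a r) (U := U)
      (by omega)
    rw [mem_filter] at hb
    exact ⟨a, ha.1, b, hb.1, aU, bU, Or.inr (Or.inr hb.2)⟩

theorem pe_cases (hf : P.Frame e ρ) {Y : Px V} {j : J} {o : Bool} {q z : V} (hs : ¬ P.mu j)
    (h : P.rig e ρ j o) (hp : P.peE e ρ Y q z) :
    P.Ok j q z ∨ P.junk j z ∨ P.col j (!o) z := by
  by_cases a : P.adj j (!o) z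
  · by_cases b : P.adj j o z
    · exact Or.inr (Or.inl (Geo.junk_of b a))
    · exact Or.inr (Or.inr ⟨a, by simpa using b⟩)
  · exact Or.inl (Or.inr (Or.inr (Pr_of_base hs ⟨fun e => hp.2.1 (e ▸ hp.1.2), hp.2.2.1, o,
      Geo.Q0_not_adj hf h.1 hp.1, a⟩)))

theorem En_symm {S : Sub J V} {X : Ax J V} {Y : Px V} {x y : Nd J V} (h : P.En S e ρ X Y x y) :
    P.En S e ρ X Y y x := by
  rcases x with i | u | i <;> rcases y with j | v | j <;> simp only [En] at h ⊢
  · exact h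
  · exact h
  · exact h
  · exact ⟨h.2.1, h.1, h.2.2.1, h.2.2.2.symm⟩
  · exact h

theorem En_shape {S : Sub J V} {X : Ax J V} {Y : Px V} {m : Nd J V → Nd J V}
    (h : IsM (P.En S e ρ X Y) m) : Shape m := by
  refine ⟨fun j => ?_, fun j => ?_⟩
  · by_cases a : m (ag j) = ag j
    · exact Or.inl a
    have b := h.2 _ a
    rcases hm : m (ag j) with i | u | i <;> rw [hm] at b
    · exact b.elim
    · exact Or.inr (Or.inl ⟨u, rfl⟩)
    · exact Or.inr (Or.inr (by rw [b.1]))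
  · by_cases a : m (dm j) = dm j
    · exact Or.inl a
    have b := h.2 _ a
    rcases hm : m (dm j) with i | u | i <;> rw [hm] at b
    · exact Or.inr (by rw [b.1])
    · exact b.elim
    · exact b.elim

theorem En_all {S : Sub J V} {X : Ax J V} {Y : Px V} {x y : Nd J V} (h : P.En S e ρ X Y x y) :
    P.En S e ρ (axAll J V) Y x y := by
  rcases x with i | u | i <;> rcases y with j | v | j <;> simp only [En, axAll] at h ⊢ <;> tauto

theorem En_px0 {S : Sub J V} {X : Ax J V} {Y : Px V} {x y : Nd J V} (h : P.En S e ρ X Y x y) :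
    P.En S e ρ X (px0 V) x y := by
  rcases x with i | u | i <;> rcases y with j | v | j <;>
    simp only [En, ncE, peE, px0, not_false_eq_true, and_self, or_true, and_true] at h ⊢ <;> tauto

/-! ### Families -/

theorem tm_ne {N : ℕ} {F : Fin N → M3 J V K} (h : P.CFam F) (r : Fin N) (s : Bool) :
    (F r).2.1 s ≠ (F r).2.1 (!s) := fun a => by
  have b := (h.2.1 r).2.2 ((F r).2.1 s)
  cases s
  · exact b ⟨(h.1 r r false).1, a ▸ (h.1 r r true).1⟩
  · exact b ⟨a ▸ (h.1 r r false).1, (h.1 r r true).1⟩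

/-- Two members of a consistent family have at most one common junk item. -/
theorem fam_junk {N : ℕ} {F : Fin N → M3 J V K} (h : P.CFam F) {r r' : Fin N}
    (hne : (F r).1 ≠ (F r').1) {x y : V} (x1 : P.junk (F r).1 x) (y1 : P.junk (F r).1 y)
    (x2 : P.junk (F r').1 x) (y2 : P.junk (F r').1 y) : x = y := by
  by_contra hxy
  exact colk_not_C (h.1 r' r false) (coline hne hxy x1 y1 x2 y2 (h.1 r r false))

end G3

end Pool.Agent.Lib.MP_ef7581_lc.D3
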