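import Mathlib
import Pool.Agent.Lib.MP_ef7581_lc.EGeo

-- part Pool.Agent.Lib.MP_ef7581_lc.EPJ
section

/-!
The level jump and the parity jump follow from the general jump.
-/

set_option autoImplicit false
set_option linter.unusedSectionVars false

namespace Pool.Agent.Lib.MP_ef7581_lc.D3

open Finset Classical D2

namespace EPJ

open G3

variable {J V K : Type} [Fintype J] [Fintype V] [Fintype K] [DecidableEq J] [DecidableEq V]
  [DecidableEq K] {P : G3 J V K} {S : Sub J V}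

/-- The unused items. -/
def un (W : Finset V) (B : Finset J) (f : J → Finset V) : Finset V := W \ B.biUnion f

theorem mem_un {W : Finset V} {B : Finset J} {f : J → Finset V} {v : V} :
    v ∈ un W B f ↔ v ∈ W ∧ ∀ j ∈ B, v ∉ f j := by
  simp only [un, mem_sdiff, mem_biUnion, not_exists, not_and]

theorem frn_eq (W : Finset V) (nf : V → Prop) (B : Finset J) (f : J → Finset V) :
    frn W nf B f = ((un W B f).filter nf).card := by
  unfold frn
  congr 1
  ext v
  simp only [mem_filter, mem_un]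
  tauto

theorem frn_add (W : Finset V) (nf : V → Prop) (B : Finset J) (f : J → Finset V) :
    frn W nf B f + frn W (fun v => ¬ nf v) B f = (un W B f).card := by
  rw [frn_eq, frn_eq]
  convert card_filter_add_card_filter_not (s := un W B f) nf

theorem card_un {sv : J → Finset V → Prop} {B : Finset J} {f : J → Finset V} (h : St S sv B f) :
    (un S.W B f).card + use B f = S.W.card := by
  have h1 : (B.biUnion f).card = use B f := card_biUnion fun i hi j hj hij => h.dis i hi j hj hij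
  rw [← h1, un, card_sdiff_add_card_eq_card (biUnion_subset.2 h.inW)]

theorem upd (hw : P.Wf S) {sv : J → Finset V → Prop} {B : Finset J} {f : J → Finset V}
    (h : St S sv B f) {j : J} (hj : j ∈ B) {s : Finset V} (hs : sv j s)
    (hu : ∀ v ∈ s, v ∈ f j ∨ v ∈ un S.W B f) :
    St S sv B (Function.update f j s) ∧
      use B (Function.update f j s) + (f j).card = use B f + s.card := by
  have d : ∀ i ∈ B, i ≠ j → Disjoint s (f i) := fun i hi hij => disjoint_left.2 fun v hv =>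
    (hu v hv).elim (fun a => disjoint_left.1 (h.dis j hj i hi hij.symm) a)
      fun a => (mem_un.1 a).2 i hi
  refine ⟨⟨h.sub, fun i hi => ?_, fun i hi => ?_, fun i hi k hk hik => ?_,
    fun v _ hv => (hw.2 v hv).elim⟩, ?_⟩
  · by_cases e : i = j
    · rw [e, Function.update_self]
      exact fun v hv => (hu v hv).elim (fun a => h.inW j hj a) fun a => (mem_un.1 a).1
    · rw [Function.update_of_ne e]; exact h.inW i hi
  · by_cases e : i = j
    · rw [e, Function.update_self]; exact hs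
    · rw [Function.update_of_ne e]; exact h.srv i hi
  · by_cases e : i = j
    · have e' : k ≠ j := fun a => hik (e.trans a.symm)
      rw [e, Function.update_self, Function.update_of_ne e']
      exact d k hk e'
    · rw [Function.update_of_ne e]
      by_cases e' : k = j
      · rw [e', Function.update_self]; exact (d i hi e).symm
      · rw [Function.update_of_ne e']; exact h.dis i hi k hk hik
  · unfold use
    rw [← add_sum_erase B _ hj, ← add_sum_erase B (fun i => (f i).card) hj, Function.update_self,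
      sum_congr rfl fun i hi => by rw [Function.update_of_ne (ne_of_mem_erase hi)]]
    ring

/-- The conclusion of the parity jump. -/
def Con (P : G3 J V K) (S : Sub J V) (l : ℕ) (hd : V → Prop) : Prop :=
  P.Sol3 S (l + 1) ∨ ∃ f, St S (P.Serv3 S) S.A f ∧ use S.A f + l = S.W.card ∧
    (Even (frn S.W hd S.A f) ∨ ∃ j ∈ S.A, ¬ P.mu j ∧ ∃ a b o, f j = {a, b} ∧ P.col j o a ∧
      P.col j (!o) b ∧ ¬ P.HH a b ∧ hd a)

variable {l : ℕ} {hd : V → Prop} {f : J → Finset V}

theorem con_of (h : St S (P.Serv3 S) S.A f) (hu : use S.A f + l ≤ S.W.card)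
    (hc : use S.A f + l = S.W.card → Con P S l hd) : Con P S l hd := by
  by_cases a : use S.A f + l = S.W.card
  · exact hc a
  · exact Or.inl ⟨f, h, by omega⟩

/-- A pair can be replaced by a free item. -/
theorem shrink (hw : P.Wf S) (h : St S (P.Serv3 S) S.A f) (hu : use S.A f + l ≤ S.W.card) {j : J}
    (hj : j ∈ S.A) (hg : S.geo j) (h2 : (f j).card = 2) {a : V}
    (ha : a ∈ f j ∨ a ∈ un S.W S.A f) (hc : P.C j a) : Con P S l hd := by
  obtain ⟨h1, h3⟩ := upd hw h hj (s := {a})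
    (Or.inl (Or.inl ⟨a, mem_singleton_self _, (hw.1 j hg a).2 hc⟩))
    fun v hv => by rw [mem_singleton.1 hv]; exact ha
  rw [card_singleton] at h3
  exact Or.inl ⟨_, h1, by omega⟩

/-- A pair of an agent with two terminals with an item of the class. -/
theorem strict (hw : P.Wf S) (h : St S (P.Serv3 S) S.A f) (hu : use S.A f + l ≤ S.W.card) {j : J}
    (hj : j ∈ S.A) (hg : S.geo j) (hs : ¬ P.mu j) {a b : V} (e : f j = {a, b}) (hp : P.Pr j a b)
    (ha : hd a) : Con P S l hd := by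
  have h2 : (f j).card = 2 := by rw [e, card_pair hp.1]
  by_cases c : P.C j a
  · exact shrink hw h hu hj hg h2 (Or.inl (by simp [e])) c
  by_cases c' : P.C j b
  · exact shrink hw h hu hj hg h2 (Or.inl (by simp [e])) c'
  obtain ⟨o, a1, a2, a3⟩ := col_of_Pr hs hp c c'
  exact con_of h hu fun k => Or.inr ⟨f, h, k, Or.inr ⟨j, hj, hs, a, b, o, e, a1, a2, a3, ha⟩⟩

/-- Exchange of an item of a pair for an unused item of the other class. -/
theorem flip (hw : P.Wf S) (h : St S (P.Serv3 S) S.A f) (hu : use S.A f + l = S.W.card)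
    (ho : ¬ Even (frn S.W hd S.A f)) {j : J} (hj : j ∈ S.A) (hg : S.geo j) {x y r : V}
    (e : f j = {x, y}) (hxy : x ≠ y) (hr : r ∈ un S.W S.A f) (hp : P.Pr j x r)
    (hc : hd y ↔ ¬ hd r) : Con P S l hd := by
  obtain ⟨h1, h3⟩ := upd hw h hj (s := {x, r})
    (Or.inl (Or.inr ⟨hg, x, by simp, r, by simp, hp⟩)) fun v hv => by
      rcases mem_insert.1 hv with rfl | hv
      · exact Or.inl (by simp [e])
      · rw [mem_singleton.1 hv]; exact Or.inr hr
  rw [e, card_pair hxy, card_pair hp.1] at h3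
  refine Or.inr ⟨_, h1, by omega, Or.inl ?_⟩
  have hy : y ∈ f j := by simp [e]
  have hx : x ∈ f j := by simp [e]
  have hyu : y ∉ un S.W S.A f := fun a => (mem_un.1 a).2 j hj hy
  have hyr : y ≠ r := fun a => hyu (a ▸ hr)
  have k : un S.W S.A (Function.update f j {x, r}) = insert y ((un S.W S.A f).erase r) := by
    ext v
    rw [mem_insert, mem_erase, mem_un, mem_un]
    constructor
    · rintro ⟨a, b⟩
      have b1 := b j hj
      rw [Function.update_self, mem_insert, mem_singleton, not_or] at b1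
      by_cases c : v = y
      · exact Or.inl c
      refine Or.inr ⟨b1.2, a, fun i hi => ?_⟩
      by_cases d : i = j
      · rw [d, e, mem_insert, mem_singleton, not_or]; exact ⟨b1.1, c⟩
      · have := b i hi
        rwa [Function.update_of_ne d] at this
    · rintro (rfl | ⟨a, b, c⟩)
      · refine ⟨h.inW j hj hy, fun i hi => ?_⟩
        by_cases d : i = j
        · rw [d, Function.update_self, mem_insert, mem_singleton, not_or]; exact ⟨hxy.symm, hyr⟩
        · rw [Function.update_of_ne d]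
          exact disjoint_left.1 (h.dis j hj i hi (Ne.symm d)) hy
      · refine ⟨b, fun i hi => ?_⟩
        by_cases d : i = j
        · rw [d, Function.update_self, mem_insert, mem_singleton, not_or]
          exact ⟨fun a' => c j hj (a' ▸ hx), a⟩
        · rw [Function.update_of_ne d]; exact c i hi
  rw [frn_eq] at ho ⊢
  rw [k, filter_insert, filter_erase]
  by_cases c : hd y
  · rw [if_pos c, erase_eq_of_notMem fun a => hc.1 c (mem_filter.1 a).2,
      card_insert_of_notMem fun a => hyu (mem_filter.1 a).1]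
    exact Nat.even_add_one.2 ho
  · have m : r ∈ (un S.W S.A f).filter hd := mem_filter.2 ⟨hr, by tauto⟩
    rw [if_neg c]
    rw [← card_erase_add_one m, Nat.even_add_one, not_not] at ho
    exact ho

theorem frame {e N : ℕ} (hRa : ∀ (α : Type) (s : Finset α) (R : α → α → Prop),
    (∀ x y, R x y → R y x) → N ≤ s.card →
    (∃ T ⊆ s, T.card = 6 * e + 6 ∧ ∀ x ∈ T, ∀ y ∈ T, x ≠ y → R x y) ∨
      ∃ T ⊆ s, T.card = 6 * e + 6 ∧ ∀ x ∈ T, ∀ y ∈ T, x ≠ y → ¬ R x y) (P : G3 J V K)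
    {U : Finset V} (hU : N ≤ U.card) : ∃ ρ ⊆ U, P.Frame e ρ := by
  rcases hRa V U P.HH (fun _ _ => Geo.HH_symm) hU with ⟨T, a, b, c⟩ | ⟨T, a, b, c⟩
  · exact ⟨T, a, b, Or.inr c⟩
  · refine ⟨T, a, b, Or.inl fun x hx y hy => ?_⟩
    by_cases k : x = y
    · exact k ▸ Geo.HH_irrefl x
    · exact c x hx y hy k

theorem frame' {e N : ℕ} (hRa : ∀ (α : Type) (s : Finset α) (R : α → α → Prop),
    (∀ x y, R x y → R y x) → N ≤ s.card →
    (∃ T ⊆ s, T.card = 6 * e + 6 ∧ ∀ x ∈ T, ∀ y ∈ T, x ≠ y → R x y) ∨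
      ∃ T ⊆ s, T.card = 6 * e + 6 ∧ ∀ x ∈ T, ∀ y ∈ T, x ≠ y → ¬ R x y) (P : G3 J V K)
    {W : Finset V} {nf : V → Prop} {B : Finset J} (h : N ≤ frn W nf B f) :
    ∃ ρ, P.Frame e ρ ∧ ∀ r ∈ ρ, r ∈ un W B f ∧ nf r := by
  rw [frn_eq] at h
  obtain ⟨ρ, a, b⟩ := frame hRa P h
  exact ⟨ρ, b, fun r hr => mem_filter.1 (a hr)⟩

/-- Orientation of the pairs of the rigid multiple agents. -/
theorem orient (hN : NormS) (hw : P.Wf S) {B : Finset J} {g : J → Sv V} (hg : P.Min3 S B g)
    {e : ℕ} {ρ : Finset V} (hf : P.Frame e ρ) : ∃ g', P.Min3 S B g' ∧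
      (fun j => (g' j).its) = (fun j => (g j).its) ∧ (∀ j, ¬ P.mu j → g' j = g j) ∧
      ∀ j ∈ B, ∀ a b k, g' j = Sv.two a b → P.rigm e ρ j k → ¬ P.adt j k a := by
  obtain ⟨g', h1, h2, h3⟩ := (hN J V K P S B hw).2.2.2.2.2.2.2.2.2 g e ρ (fun _ => False) hf hg.1
  have e1 : (fun j => (g' j).its) = fun j => (g j).its := by
    funext j
    rcases h2 j with a | ⟨-, a, b, c, d⟩
    · rw [a]
    · rw [c, d]; exact pair_comm _ _
  exact ⟨g', ⟨h1, e1 ▸ hg.2⟩, e1, fun j hs => (h2 j).resolve_right fun a => hs a.1,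
    fun j hj a b k c d => (h3 j hj a b k c d).1⟩

theorem ex_of_lt {e : ℕ} {ρ : Finset V} {p : V → Prop} {_ : DecidablePred p}
    (h : e < (ρ.filter p).card) : ∃ r ∈ ρ, p r := by
  obtain ⟨r, hr⟩ := card_pos.1 (lt_of_le_of_lt (Nat.zero_le _) h)
  exact ⟨r, mem_filter.1 hr⟩

/-- The general jump applies unless the parity can be repaired directly. -/
theorem step (hN : NormS) {e c : ℕ} (hJ : JumpP e c) (hw : P.Wf S) {g : J → Sv V}
    (hg : P.Min3 S S.A g) (hu : use S.A (fun j => (g j).its) + l = S.W.card)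
    (hn : ¬ Con P S l hd) {Y : Px V} {ρ : Finset V} (hf : P.Frame e ρ)
    (hρ : ∀ r ∈ ρ, r ∈ (un S.W S.A fun j => (g j).its) ∧ ¬ Y.nf r)
    (hY : (¬ Y.pn ∧ ∀ v, Y.nf v ↔ hd v) ∨ (Y.pn ∧ ∀ v, Y.nf v ↔ ¬ hd v))
    (hc : c + frn S.W Y.nf S.A (fun j => (g j).its) ≤ l) (hT : P.Test1 S e l Y) :
    ∃ f, St S (P.Serv3 S) S.A f ∧ use S.A f + l ≤ S.W.card ∧
      (frn S.W Y.nf S.A f % 2 = Y.tg % 2 ∨ P.Exc S Y S.A f) := by
  obtain ⟨g, hg, e1, -, ho⟩ := orient hN hw hg hf
  rw [← e1] at hu hρ hc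
  have hs := (hN J V K P S S.A hw).2.2.2.2.1 g hg.1
  have r1 : ∀ r ∈ ρ, r ∈ un S.W S.A fun j => (g j).its := fun r hr => (hρ r hr).1
  have r2 : ∀ r ∈ ρ, ¬ Y.nf r := fun r hr => (hρ r hr).2
  have odd : ¬ Even (frn S.W hd S.A fun j => (g j).its) := fun a =>
    hn (Or.inr ⟨_, hs, hu, Or.inl a⟩)
  refine hJ J V K P S l ρ Y S.A g hw (by simp) hg hf (fun r hr => (mem_un.1 (r1 r hr)).1)
    (disjoint_left.2 fun r hr => (mem_sdiff.1 (r1 r hr)).2) r2 ?_ hc hu.le (hT ρ hf r2)
  intro j hj a b e2 hb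
  have nr := hg.1.nrm j hj
  rw [e2] at nr
  obtain ⟨geo, pr, k, k', -, ca, cb⟩ := nrm_two nr
  have i1 : (fun j => (g j).its) j = {a, b} := by simp only [e2, Sv.its]
  have i2 : (fun j => (g j).its) j = {b, a} := i1.trans (pair_comm _ _)
  have fa : (∃ r ∈ ρ, P.Pr j b r) → ¬ Y.nf a := fun ⟨r, hr, p⟩ n =>
    hn (flip hw hs hu odd hj geo i2 pr.1.symm (r1 r hr) p (by
      have := r2 r hr
      rcases hY with ⟨-, y⟩ | ⟨-, y⟩ <;> rw [y] at this n <;> tauto))
  have fb : (∃ r ∈ ρ, P.Pr j a r) → ¬ Y.nf b := fun ⟨r, hr, p⟩ n =>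
    hn (flip hw hs hu odd hj geo i1 pr.1 (r1 r hr) p (by
      have := r2 r hr
      rcases hY with ⟨-, y⟩ | ⟨-, y⟩ <;> rw [y] at this n <;> tauto))
  by_cases hm : P.mu j
  · refine ⟨Or.inl hm, fun fl => ⟨fa (ex_of_lt (minor_many hm cb (fl _))),
      fb (ex_of_lt (minor_many hm ca (fl _)))⟩, fun o a => (a hm).elim, fun k1 rg => ?_⟩
    have := ho j hj a b k1 e2 rg
    exact ⟨this, fb (ex_of_lt (keym_many hf rg this (colk_not_C ca)))⟩
  have na : ¬ hd a := fun n => hn (strict hw hs hu.le hj geo hm i1 pr n)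
  have nb : ¬ hd b := fun n => hn (strict hw hs hu.le hj geo hm i2 (Pr_symm pr) n)
  rcases hY with ⟨-, y⟩ | ⟨pn, y⟩
  · rw [← y] at na nb
    refine ⟨Or.inr (Or.inr ⟨na, nb⟩), fun _ => ⟨na, nb⟩, fun o _ _ _ => ?_,
      fun k1 rg => (hm rg.1).elim⟩
    cases o
    · exact nb
    · exact na
  refine ⟨Or.inr (Or.inl pn), fun fl => (hn ?_).elim, fun o _ rg lt => ?_,
    fun k1 rg => (hm rg.1).elim⟩
  · obtain ⟨r, hr, r', hr', -, -, ok⟩ := flex_serv hf fl (U := ∅) (by simp)
    have c2 : ((fun j => (g j).its) j).card = 2 := by rw [i1, card_pair pr.1]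
    rcases ok with ok | ok | ok
    · exact shrink hw hs hu.le hj geo c2 (Or.inr (r1 r hr)) ok
    · exact shrink hw hs hu.le hj geo c2 (Or.inr (r1 r' hr')) ok
    · obtain ⟨h1, h3⟩ := upd hw hs hj (s := {r, r'})
        (Or.inl (Or.inr ⟨geo, r, by simp, r', by simp, ok⟩)) fun v hv => by
          rcases mem_insert.1 hv with rfl | hv
          · exact Or.inr (r1 _ hr)
          · rw [mem_singleton.1 hv]; exact Or.inr (r1 _ hr')
      rw [c2, card_pair ok.1] at h3
      exact strict hw h1 (by omega) hj geo hm (Function.update_self _ _ _) ok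
        (not_not.1 fun n => r2 r hr ((y r).2 n))
  · obtain ⟨-, c1, c2, -⟩ := nr.2.resolve_right fun a => hm a.1
    cases o
    · exact fb (ex_of_lt (key_many hf hm rg c1 lt))
    · exact fa (ex_of_lt (key_many hf hm rg c2 lt))

end EPJ

open EPJ G3

theorem pjS (hRa : RamseyStmt) (hN : NormS) : PJS := by
  intro e c hJ
  obtain ⟨N, hRa⟩ := hRa.2 (6 * e + 6) (6 * e + 6)
  refine ⟨2 * (c + N) + 2, fun c'' hc => ⟨?_, ?_⟩⟩
  · intro J V K _ _ _ _ _ _ P S l j0 f hw hl hj hf hu ht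
    obtain ⟨-, -, n3, -, n5, -⟩ := hN J V K P S (S.A.erase j0) hw
    obtain ⟨g, hg⟩ := n3 f hf
    have u1 := hg.2 f hf
    have u2 := card_un (n5 g hg.1)
    obtain ⟨ρ, r1, r2⟩ := frame hRa P (U := un S.W (S.A.erase j0) fun j => (g j).its) (by omega)
    obtain ⟨g, hg, e1, -, ho⟩ := orient hN hw hg r2
    rw [← e1] at u1 r1
    have z : frn S.W (px0 V).nf (S.A.erase j0) (fun j => (g j).its) = 0 := by simp [frn, px0]
    obtain ⟨f', a, b, -⟩ := hJ J V K P S l ρ (px0 V) (S.A.erase j0) g hw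
      (card_le_one.2 fun x hx y hy => by
        simp only [mem_sdiff, mem_erase, not_and] at hx hy
        rw [not_not.1 fun k => hx.2 k hx.1, not_not.1 fun k => hy.2 k hy.1]) hg r2
      (fun r hr => (mem_un.1 (r1 hr)).1) (disjoint_left.2 fun r hr => (mem_sdiff.1 (r1 hr)).2)
      (fun _ _ => id) (fun j hj a b e2 _ => ⟨Or.inr (Or.inr ⟨id, id⟩), fun _ => ⟨id, id⟩,
        fun _ _ _ _ => id, fun k rg => ⟨ho j hj a b k e2 rg, id⟩⟩) (by omega) (by omega)
      (ht ρ r2 fun _ _ => id)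
    exact ⟨f', a, b⟩
  · intro J V K _ _ _ _ _ _ P S l hd hw hl ⟨f, hf, hu⟩ t1 t2
    obtain ⟨-, -, n3, -, n5, -⟩ := hN J V K P S S.A hw
    obtain ⟨g, hg⟩ := n3 f hf
    have u1 := hg.2 f hf
    have hs := n5 g hg.1
    show Con P S l hd
    refine con_of hs (by omega) fun hu => ?_
    by_contra hn
    have u2 := card_un hs
    have u3 := frn_add S.W hd S.A fun j => (g j).its
    rcases le_total (frn S.W hd S.A fun j => (g j).its)
      (frn S.W (fun v => ¬ hd v) S.A fun j => (g j).its) with k | k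
    · obtain ⟨ρ, r2, r1⟩ := frame' hRa P
        (show N ≤ frn S.W (fun v => ¬ hd v) S.A fun j => (g j).its by omega)
      obtain ⟨f, a, b, d⟩ := step hN hJ hw hg hu hn (Y := ⟨hd, False, 0⟩) r2 r1
        (Or.inl ⟨id, fun _ => Iff.rfl⟩) (by show c + frn S.W hd _ _ ≤ l; omega) t1
      exact hn (con_of a b fun k => Or.inr ⟨f, a, k,
        Or.inl (Nat.even_iff.2 (d.resolve_right fun x => x.1))⟩)
    · obtain ⟨ρ, r2, r1⟩ := frame' hRa P (show N ≤ frn S.W hd S.A fun j => (g j).its by omega)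
      obtain ⟨f, a, b, d⟩ := step hN hJ hw hg hu hn (Y := ⟨fun v => ¬ hd v, True, l⟩) r2
        (fun r hr => ⟨(r1 r hr).1, not_not.2 (r1 r hr).2⟩)
        (Or.inr ⟨trivial, fun _ => Iff.rfl⟩)
        (by show c + frn S.W (fun v => ¬ hd v) _ _ ≤ l; omega) t2
      refine hn (con_of a b fun k => ?_)
      rcases d with d | ⟨-, j, hj, geo, hm, x, y, e2, pr, n⟩
      · have v2 := card_un a
        have v3 := frn_add S.W hd S.A f
        have d' : frn S.W (fun v => ¬ hd v) S.A f % 2 = l % 2 := d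
        exact Or.inr ⟨f, a, k, Or.inl (Nat.even_iff.2 (by omega))⟩
      · exact strict hw a b hj geo hm e2 pr (not_not.1 n)

end Pool.Agent.Lib.MP_ef7581_lc.D3
end

-- part Pool.Agent.Lib.MP_ef7581_lc.ECls
section

/-!
Ramsey classification of pair services for agents with several terminals.
-/

set_option autoImplicit false
set_option linter.unusedSectionVars false
set_option linter.unusedVariables false

namespace Pool.Agent.Lib.MP_ef7581_lc.D3

open Finset Classical D2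

namespace ECls

variable {J V K : Type} [Fintype J] [Fintype V] [Fintype K] [DecidableEq J] [DecidableEq V]
  [DecidableEq K]

/-! ### Agents with two terminals -/

section Strict

variable {P : G3 J V K} {A : Finset J} {W : Finset V} {g : J → Sv V} {T : Finset J}

theorem nrm_base {j : J} (hs : ¬ P.mu j) {a b : V} (h : P.Nrm (P.pl A W) j (Sv.two a b)) :
    P.col j true a ∧ P.col j false b ∧ ¬ P.HH a b := by
  rcases h with ⟨-, ⟨-, h⟩ | ⟨h, -⟩⟩
  · exact h
  · exact absurd h hs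

theorem nrm_of_base {j : J} (hs : ¬ P.mu j) {A' : Finset J} {W' : Finset V} {s : Sv V}
    (h : P.base.Nrm (P.base.pl A' W') j s) : P.Nrm (P.pl A W) j s := by
  rcases s with _ | c | ⟨a, b⟩ | ⟨a, z, b⟩
  · exact h
  · exact (G3.C_iff hs).2 h
  · exact ⟨trivial, Or.inl ⟨hs, h.2⟩⟩
  · exact ⟨trivial, hs, h.2⟩

/-- the restriction of a minimal state to agents with two terminals is minimal -/
theorem min_base (hN : NormS) (hg : P.Min2 (P.pl A W) A g) (hT : T ⊆ A)
    (hs : ∀ j ∈ T, ¬ P.mu j) (h2 : ∀ j ∈ T, ∃ a b, g j = Sv.two a b) :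
    P.base.Min2 (P.base.pl T (itsB T g)) T g := by
  obtain ⟨-, -, -, -, -, n6, n7, -⟩ := hN J V K P (P.pl A W) A (G3.wf_pl A W)
  refine ⟨⟨⟨Subset.rfl, fun j hj => subset_biUnion_of_mem (fun j => (g j).its) hj, fun j hj => ?_,
    fun i hi j hj => hg.1.dis i (hT hi) j (hT hj), fun _ _ _ _ q => q.elim⟩,
    fun _ _ q => q.elim⟩, fun j hj => hg.2.1 j (hT hj), fun f hf => ?_⟩
  · obtain ⟨a, b, e⟩ := h2 j hj
    have := hg.1.nrm j (hT hj)
    rw [e] at this ⊢
    exact ⟨trivial, nrm_base (hs j hj) this⟩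
  · obtain ⟨t1, t2⟩ := n7 _ _ T f (n6 g hg.1 hg.2.1) hT
      (fun j hj => ⟨G3.serv2_of_base (hs j hj) (hf.srv j hj), hf.inW j hj⟩) hf.dis
    have t3 := hg.2.2 _ t1
    omega

/-- a state of the agents with two terminals extends to a state of all agents -/
theorem ext_base (hg : P.PSt (P.pl A W) A g) (hg' : NoTri A g) (hT : T ⊆ A)
    (hs : ∀ j ∈ T, ¬ P.mu j) {g' : J → Sv V} (h1 : P.base.PSt (P.base.pl T (itsB T g)) T g')
    (h2 : NoTri T g') :
    P.PSt (P.pl A W) A (fun j => if j ∈ T then g' j else g j) ∧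
      NoTri A fun j => if j ∈ T then g' j else g j := by
  have key : ∀ i ∈ T, ∀ j ∈ A, j ∉ T → Disjoint (g' i).its (g j).its := fun i hi j hj hn => by
    refine Disjoint.mono_left (h1.inW i hi) ?_
    exact (disjoint_biUnion_left _ _ _).2 fun l hl =>
      hg.dis l (hT hl) j hj fun e => hn (e ▸ hl)
  refine ⟨⟨Subset.rfl, fun j hj => ?_, fun j hj => ?_, fun i hi j hj hne => ?_⟩, fun j hj => ?_⟩
  · split_ifs with c
    · exact (h1.inW j c).trans (biUnion_subset.2 fun l hl => hg.inW l (hT hl))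
    · exact hg.inW j hj
  · split_ifs with c
    · exact nrm_of_base (hs j c) (h1.nrm j c)
    · exact hg.nrm j hj
  · split_ifs with c c' c'
    · exact h1.dis i c j c' hne
    · exact key i c j hj c'
    · exact (key j c' i hi c).symm
    · exact hg.dis i hi j hj hne
  · dsimp only
    split_ifs with c
    · exact h2 j c
    · exact hg' j hj

theorem cons_of_base (hg : P.PSt (P.pl A W) A g) {i k : J} (hi : i ∈ A) (hk : k ∈ A)
    (si : ¬ P.mu i) (sk : ¬ P.mu k) (h : P.base.Cons g i k) : P.Cons g i k := by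
  obtain ⟨a, b, a', b', e, e', c1, c2, c3, c4⟩ := h
  have ni := hg.nrm i hi
  have nk := hg.nrm k hk
  rw [e] at ni
  rw [e'] at nk
  obtain ⟨d1, d2, -⟩ := nrm_base si ni
  obtain ⟨d3, d4, -⟩ := nrm_base sk nk
  exact ⟨a, b, a', b', e, e', iff_of_false si sk, ⟨_, G3.col_iff.1 d1, G3.col_iff.1 c1⟩,
    ⟨_, G3.col_iff.1 d2, G3.col_iff.1 c2⟩, ⟨_, G3.col_iff.1 c3, G3.col_iff.1 d3⟩,
    ⟨_, G3.col_iff.1 c4, G3.col_iff.1 d4⟩⟩

end Strict

/-! ### Multiple agents -/

/-- A homogeneous sequence of pair services; `x r s` is the item of colour `κ r s` of `j r`. -/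
structure Fam (P : G3 J V K) {M : ℕ} (j : Fin M → J) (x : Fin M → Bool → V)
    (κ : Fin M → Bool → K) (U D : Bool → Bool → Prop) : Prop where
  mul : ∀ r, P.mu (j r)
  own : ∀ r s, P.colk (j r) (κ r s) (x r s)
  kne : ∀ r, κ r true ≠ κ r false
  ij : Function.Injective j
  ix : ∀ r s r' s', x r s = x r' s' → r = r' ∧ s = s'
  up : ∀ r r', r < r' → ∀ t s, P.adt (j r) (κ r t) (x r' s) ↔ U t s
  dn : ∀ r r', r < r' → ∀ t s, P.adt (j r') (κ r' t) (x r s) ↔ D t s
  jk : ∀ r r', r ≠ r' → ∀ y z, P.junk (j r) y → P.junk (j r) z → P.junk (j r') y →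
    P.junk (j r') z → y = z

variable {P : G3 J V K} {M : ℕ} {j : Fin M → J} {x : Fin M → Bool → V} {κ : Fin M → Bool → K}
  {U D : Bool → Bool → Prop}

theorem Fam.rev (h : Fam P j x κ U D) :
    Fam P (fun r => j r.rev) (fun r => x r.rev) (fun r => κ r.rev) D U where
  mul r := h.mul _
  own r s := h.own _ s
  kne r := h.kne _
  ij := h.ij.comp Fin.rev_injective
  ix r s r' s' e := ⟨Fin.rev_injective (h.ix _ _ _ _ e).1, (h.ix _ _ _ _ e).2⟩
  up r r' hr t s := h.dn _ _ (Fin.rev_lt_rev.2 hr) t s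
  dn r r' hr t s := h.up _ _ (Fin.rev_lt_rev.2 hr) t s
  jk r r' hr := h.jk _ _ fun e => hr (Fin.rev_injective e)

theorem Fam.pr (h : Fam P j x κ U D) {r : Fin M} {t : Bool} {z : V}
    (hz : ¬ P.adt (j r) (κ r t) z) : P.Pr (j r) z (x r t) :=
  G3.Pr_symm (G3.Pr_of_colk (h.own r t) hz (Or.inl (h.mul r)))

theorem Fam.prU (h : Fam P j x κ U D) {r r' : Fin M} (q : r < r') {t s : Bool} (hU : ¬ U t s) :
    P.Pr (j r) (x r' s) (x r t) := h.pr fun a => hU ((h.up r r' q t s).1 a)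

theorem Fam.prD (h : Fam P j x κ U D) {r r' : Fin M} (q : r < r') {t s : Bool} (hD : ¬ D t s) :
    P.Pr (j r') (x r s) (x r' t) := h.pr fun a => hD ((h.dn r r' q t s).1 a)

theorem Fam.prO (h : Fam P j x κ U D) (r : Fin M) (t : Bool) : P.Pr (j r) (x r (!t)) (x r t) :=
  h.pr fun a => by
    have := G3.colk_unique (h.own r (!t)) a
    cases t
    · exact h.kne r this.symm
    · exact h.kne r this

/-- no junk labels -/
theorem Fam.noK (h : Fam P j x κ U D) (hM : 4 ≤ M) (s : Bool) : ¬ (U true s ∧ U false s) := by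
  rintro ⟨h1, h2⟩
  have jk : ∀ r r' : Fin M, r < r' → P.junk (j r) (x r' s) := fun r r' hr =>
    G3.junk_of_two ((h.up r r' hr _ _).2 h1) ((h.up r r' hr _ _).2 h2) (h.kne r)
  have e := h.jk ⟨0, by omega⟩ ⟨1, by omega⟩ (by simp) _ _
    (jk _ ⟨2, by omega⟩ (by simp)) (jk _ ⟨3, by omega⟩ (by simp)) (jk _ _ (by simp))
    (jk _ _ (by simp))
  simpa using (h.ix _ _ _ _ e).1

theorem Fam.disF (h : Fam P j x κ U D) {N : ℕ} (e : Fin N → Fin M) (he : Function.Injective e)
    (o : Bool) : DisF fun r => ((j (e r), true, x (e r) (!o), x (e r) o) : Mb J V) := by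
  refine ⟨h.ij.comp he, ?_⟩
  rintro (r | r) (r' | r') q <;> simp only [Sum.elim_inl, Sum.elim_inr] at q
  · rw [he (h.ix _ _ _ _ q).1]
  · simpa using (h.ix _ _ _ _ q).2
  · simpa using (h.ix _ _ _ _ q).2
  · rw [he (h.ix _ _ _ _ q).1]

/-- The result when the original services can be used. -/
def Out (P : G3 J V K) (N : ℕ) (j : Fin M → J) (x : Fin M → Bool → V) : Prop :=
  ∃ (ty : Bool) (F : Fin N → Mb J V), P.MFam ty F ∧
    ∀ r, ∃ r' o, F r = (j r', true, x r' (!o), x r' o)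

theorem Out.rev {N : ℕ} (h : Out P N (fun r => j r.rev) (fun r => x r.rev)) : Out P N j x := by
  obtain ⟨ty, F, h1, h2⟩ := h
  exact ⟨ty, F, h1, fun r => by
    obtain ⟨r', o, e⟩ := h2 r
    exact ⟨_, o, e⟩⟩

theorem Fam.same {N : ℕ} (h : Fam P j x κ U D) (hM : N ≤ M) {o : Bool} (hU : ∀ s, ¬ U o s) :
    Out P N j x := by
  have he := Fin.castLE_injective hM
  exact ⟨true, fun r => (j (r.castLE hM), true, x (r.castLE hM) (!o), x (r.castLE hM) o),
    ⟨h.disF _ he o, fun r => h.mul _, fun r => h.prO _ o, fun r r' q => h.prU q (hU _),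
      fun _ r r' q => h.prU q (hU _), fun q => absurd q (by simp),
      fun r r' q => h.jk _ _ (he.ne q)⟩, fun r => ⟨_, o, rfl⟩⟩

theorem Fam.mixed {N : ℕ} (h : Fam P j x κ U D) (hM : N ≤ M) (hU : ¬ U false true)
    (hD : ¬ D false false) : Out P N j x := by
  have he := Fin.castLE_injective hM
  exact ⟨false, fun r => (j (r.castLE hM), true, x (r.castLE hM) (!false), x (r.castLE hM) false),
    ⟨h.disF _ he false, fun r => h.mul _, fun r => h.prO _ false, fun r r' q => h.prU q hU,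
      fun q => absurd q (by simp), fun _ r r' q => h.prD q hD,
      fun r r' q => h.jk _ _ (he.ne q)⟩, fun r => ⟨_, false, rfl⟩⟩

/-- the classification of homogeneous sequences -/
theorem Fam.cases {N : ℕ} (h : Fam P j x κ U D) (hM : N + 4 ≤ M) :
    Out P N j x ∨ ((∀ s, U s s) ∧ ∀ s, D s s) ∨
      ((U false true ∧ ∀ s, ¬ U s s) ∧ ∀ s, ¬ D s s) := by
  by_cases c1 : ∃ o, ∀ s, ¬ U o s
  · obtain ⟨o, ho⟩ := c1
    exact Or.inl (h.same (by omega) ho)
  by_cases c2 : ∃ o, ∀ s, ¬ D o s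
  · obtain ⟨o, ho⟩ := c2
    exact Or.inl (h.rev.same (by omega) ho).rev
  have u2 := h.noK (by omega)
  have d2 := h.rev.noK (by omega)
  have hU : ((∀ s, U s s) ∧ ¬ U false true) ∨ (U false true ∧ ∀ s, ¬ U s s) := by
    simp only [Bool.exists_bool, Bool.forall_bool] at c1 u2 ⊢
    tauto
  have hD : ((∀ s, D s s) ∧ ¬ D false true) ∨ (D false true ∧ ∀ s, ¬ D s s) := by
    simp only [Bool.exists_bool, Bool.forall_bool] at c2 d2 ⊢
    tauto
  rcases hU with hU | hU <;> rcases hD with hD | hD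
  · exact Or.inr (Or.inl ⟨hU.1, hD.1⟩)
  · exact Or.inl (h.mixed (by omega) hU.2 (hD.2 _))
  · exact Or.inl (h.rev.mixed (by omega) hD.2 (hU.2 _)).rev
  · exact Or.inr (Or.inr ⟨hU, hD.2⟩)

theorem Fam.cons (h : Fam P j x κ U D) (hM : 4 ≤ M) {g : J → Sv V}
    (hA : ∀ r, g (j r) = Sv.two (x r true) (x r false)) (hU : ∀ s, U s s) (hD : ∀ s, D s s)
    {r r' : Fin M} (q : r < r') : P.Cons g (j r) (j r') := by
  have cU : ∀ s, P.sm (j r) (x r s) (x r' s) := fun s =>
    ⟨κ r s, h.own r s, (h.up r r' q s s).2 (hU s), fun a => h.noK hM s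
      ⟨(h.up r r' q _ _).1 (G3.adt_of_junk a (h.own r true).1),
        (h.up r r' q _ _).1 (G3.adt_of_junk a (h.own r false).1)⟩⟩
  have cD : ∀ s, P.sm (j r') (x r s) (x r' s) := fun s =>
    ⟨κ r' s, ⟨(h.dn r r' q s s).2 (hD s), fun a => h.rev.noK hM s
      ⟨(h.dn r r' q _ _).1 (G3.adt_of_junk a (h.own r' true).1),
        (h.dn r r' q _ _).1 (G3.adt_of_junk a (h.own r' false).1)⟩⟩, h.own r' s⟩
  exact ⟨_, _, _, _, hA r, hA r', iff_of_true (h.mul r) (h.mul r'), cU true, cU false, cD true,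
    cD false⟩

theorem mem_pair (y : Bool → V) (s : Bool) : y s ∈ ({y true, y false} : Finset V) := by
  cases s <;> simp

/-- re-pairing couples when both directions exchange the colours -/
theorem repair (hN : NormS) {A : Finset J} {W : Finset V} {g : J → Sv V}
    (hg : P.Min2 (P.pl A W) A g) {N : ℕ} (h : Fam P j x κ U D) (hM : 2 * N ≤ M)
    (hA : ∀ r, j r ∈ A ∧ g (j r) = Sv.two (x r true) (x r false))
    (hU' : U false true) (hU : ∀ s, ¬ U s s) (hD : ∀ s, ¬ D s s) :
    ∃ (g' : J → Sv V) (ty : Bool) (F : Fin N → Mb J V), P.PSt (P.pl A W) A g' ∧ NoTri A g' ∧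
      P.MFam ty F ∧ ∀ r, (F r).1 ∈ A ∧ (g' (F r).1).its = {(F r).2.2.1, (F r).2.2.2} := by
  obtain ⟨-, n2, -, -, -, n6, n7, -⟩ := hN J V K P (P.pl A W) A (G3.wf_pl A W)
  let c : Fin N → Bool → Fin M := fun i s => ⟨2 * i + (if s then 0 else 1), by split_ifs <;> omega⟩
  have hc : ∀ i s i' s', c i s = c i' s' → i = i' ∧ s = s' := by
    intro i s i' s' q
    have q' := congrArg Fin.val q
    cases s <;> cases s' <;> simp [c] at q' ⊢ <;> omega
  have hc1 : ∀ i, c i true < c i false := fun i => by simp [c]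
  have hc2 : ∀ i i' s s', i < i' → c i s < c i' s' := fun i i' s s' q => by
    have q' : (i : ℕ) < i' := q
    cases s <;> cases s' <;> simp [c] <;> omega
  let jj : Fin N × Bool → J := fun p => j (c p.1 p.2)
  have hjj : Function.Injective jj := fun p q e => Prod.ext (hc _ _ _ _ (h.ij e)).1
    (hc _ _ _ _ (h.ij e)).2
  let f' : J → Finset V := fun i => (univ.filter fun p => jj p = i).biUnion fun p =>
    {x (c p.1 true) p.2, x (c p.1 false) p.2}
  have hf' : ∀ p, f' (jj p) = {x (c p.1 true) p.2, x (c p.1 false) p.2} := fun p => by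
    have : (univ.filter fun q => jj q = jj p) = {p} := by
      ext q; simp [hjj.eq_iff]
    simp only [f', this, singleton_biUnion]
  have hPr : ∀ p : Fin N × Bool, P.Pr (jj p) (x (c p.1 true) p.2) (x (c p.1 false) p.2) := by
    rintro ⟨i, _ | _⟩
    · exact h.prD (hc1 i) (hD _)
    · exact G3.Pr_symm (h.prU (hc1 i) (hU _))
  obtain ⟨t1, -⟩ := n7 _ _ (univ.image jj) f' (n6 g hg.1 hg.2.1)
    (by intro i hi; obtain ⟨p, -, rfl⟩ := mem_image.1 hi; exact (hA _).1)
    (by
      intro i hi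
      obtain ⟨p, -, rfl⟩ := mem_image.1 hi
      rw [hf']
      refine ⟨Or.inr ⟨trivial, _, by simp, _, by simp, hPr p⟩, fun y hy => ?_⟩
      have : ∃ t, y = x (c p.1 t) p.2 := by
        simp only [mem_insert, mem_singleton] at hy
        rcases hy with rfl | rfl <;> exact ⟨_, rfl⟩
      obtain ⟨t, rfl⟩ := this
      refine mem_biUnion.2 ⟨jj (p.1, t), mem_image_of_mem _ (mem_univ _), ?_⟩
      simp only [jj, (hA _).2, Sv.its]
      exact mem_pair _ _)
    (by
      intro i hi i' hi' hne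
      obtain ⟨p, -, rfl⟩ := mem_image.1 hi
      obtain ⟨p', -, rfl⟩ := mem_image.1 hi'
      rw [hf', hf', disjoint_left]
      intro y hy hy'
      simp only [mem_insert, mem_singleton] at hy hy'
      refine hne (congrArg jj ?_)
      rcases hy with rfl | rfl <;> rcases hy' with q | q <;>
        exact Prod.ext (hc _ _ _ _ (h.ix _ _ _ _ q).1).1 (h.ix _ _ _ _ q).2)
  obtain ⟨g', g1, g2, g3⟩ := n2 _ t1
  refine ⟨g', true, fun r => (j (c r true), false, x (c r false) true, x (c r true) true), g1, g2,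
    ⟨⟨fun r r' q => (hc _ _ _ _ (h.ij q)).1, ?_⟩, fun r => h.mul _,
      fun r => h.prU (hc1 r) (hU _), fun r r' q => h.prU (hc2 _ _ _ _ q) (hU _),
      fun _ r r' q => h.prU (hc2 _ _ _ _ q) (hU _), fun q => absurd q (by simp),
      fun r r' q => h.jk _ _ fun e => q (hc _ _ _ _ e).1⟩, fun r => ⟨(hA _).1, ?_⟩⟩
  · rintro (r | r) (r' | r') q <;> simp only [Sum.elim_inl, Sum.elim_inr] at q
    · rw [(hc _ _ _ _ (h.ix _ _ _ _ q).1).1]
    · simpa using (hc _ _ _ _ (h.ix _ _ _ _ q).1).2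
    · simpa using (hc _ _ _ _ (h.ix _ _ _ _ q).1).2
    · rw [(hc _ _ _ _ (h.ix _ _ _ _ q).1).1]
  · have a1 := g3 _ (hA (c r true)).1
    have a2 := g1.nrm _ (hA (c r true)).1
    have a3 := g2 _ (hA (c r true)).1
    have a4 : j (c r true) = jj (r, true) := rfl
    rw [if_pos (a4 ▸ mem_image_of_mem _ (mem_univ _)), a4, hf', ← a4] at a1
    have o1 := (h.own (c r true) true).1
    have o2 := (h.up _ _ (hc1 r) false true).2 hU'
    dsimp only at a1 ⊢
    rw [pair_comm]
    rcases hgj : g' (j (c r true)) with _ | y | ⟨y, y'⟩ | ⟨y, z, y'⟩ <;> rw [hgj] at a1 a2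
    · exact a2.elim
    · have := a1 (mem_singleton_self y)
      simp only [mem_insert, mem_singleton] at this
      rcases this with rfl | rfl
      · exact absurd o1 (a2 _)
      · exact absurd o2 (a2 _)
    · refine eq_of_subset_of_card_le a1 (card_le_two.trans ?_)
      exact (card_pair (G3.nrm_two a2).2.1.1).ge
    · exact absurd hgj (a3 _ _ _)

/-- the classification for a large set of multiple agents -/
theorem multi (hR : RamseyStmt) (hN : NormS) (N : ℕ) : ∃ t0 : ℕ, ∀ (J V K : Type) [Fintype J]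
    [Fintype V] [Fintype K] [DecidableEq J] [DecidableEq V] [DecidableEq K] (P : G3 J V K)
    (A : Finset J) (W : Finset V) (g : J → Sv V) (T : Finset J), P.Min2 (P.pl A W) A g → T ⊆ A →
    (∀ j ∈ T, P.mu j) → (∀ j ∈ T, ∃ a b, g j = Sv.two a b) → t0 ≤ T.card →
    (∃ (g' : J → Sv V) (ty : Bool) (F : Fin N → Mb J V), P.PSt (P.pl A W) A g' ∧ NoTri A g' ∧
      P.MFam ty F ∧ ∀ r, (F r).1 ∈ A ∧ (g' (F r).1).its = {(F r).2.2.1, (F r).2.2.2}) ∨
      ∃ i ∈ T, ∃ k ∈ T, i ≠ k ∧ P.Cons g i k := by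
  obtain ⟨t0, ht0⟩ := hR.1 ((Bool → Bool → Prop) × (Bool → Bool → Prop)) (2 * N + 4)
  refine ⟨t0, fun J V K _ _ _ _ _ _ P A W g T hg hTA hmu h2 hc => ?_⟩
  obtain ⟨-, -, -, -, -, -, -, -, n9, -⟩ := hN J V K P (P.pl A W) A (G3.wf_pl A W)
  obtain ⟨en⟩ : Nonempty (Fin t0 ↪ T) := Function.Embedding.nonempty_of_card_le (by simpa using hc)
  have hA : ∀ r, (en r : J) ∈ A := fun r => hTA (en r).2
  have hex : ∀ r : Fin t0, ∃ (y : Bool → V) (κ : Bool → K),
      g (en r) = Sv.two (y true) (y false) ∧ κ true ≠ κ false ∧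
        ∀ s, P.colk (en r) (κ s) (y s) := fun r => by
    obtain ⟨a, b, e⟩ := h2 _ (en r).2
    have := hg.1.nrm _ (hA r)
    rw [e] at this
    obtain ⟨-, -, k, k', c1, c2, c3⟩ := G3.nrm_two this
    refine ⟨fun s => if s then a else b, fun s => if s then k else k', e, c1, fun s => ?_⟩
    cases s
    · exact c3
    · exact c2
  choose y κ hy hκ own using hex
  have hinj : Function.Injective fun r => (en r : J) := fun r r' q => en.injective (Subtype.ext q)
  obtain ⟨e, he, hom⟩ := ht0 fun r r' => (fun t s => P.adt (en r) (κ r t) (y r' s),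
    fun t s => P.adt (en r') (κ r' t) (y r s))
  have l01 : (⟨0, by omega⟩ : Fin (2 * N + 4)) < ⟨1, by omega⟩ := by simp
  have fam : Fam P (fun r => (en (e r) : J)) (fun r => y (e r)) (fun r => κ (e r))
      (fun t s => P.adt (en (e ⟨0, by omega⟩)) (κ (e ⟨0, by omega⟩) t) (y (e ⟨1, by omega⟩) s))
      (fun t s => P.adt (en (e ⟨1, by omega⟩)) (κ (e ⟨1, by omega⟩) t)
        (y (e ⟨0, by omega⟩) s)) := by
    refine ⟨fun r => hmu _ (en _).2, fun r s => own _ s, fun r => hκ _, hinj.comp he.injective,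
      fun r s r' s' q => ?_, fun r r' q t s => ?_, fun r r' q t s => ?_, fun r r' q => ?_⟩
    · have q1 : r = r' := by
        by_contra hne
        have dj := hg.1.dis _ (hA (e r)) _ (hA (e r')) (hinj.ne (he.injective.ne hne))
        rw [hy, hy] at dj
        exact disjoint_left.1 dj (mem_pair _ s) (q ▸ mem_pair _ s')
      subst q1
      refine ⟨rfl, ?_⟩
      have := G3.colk_unique (own (e r) s) (q ▸ (own (e r) s').1)
      have h1 := hκ (e r)
      cases s <;> cases s'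
      · rfl
      · exact absurd this h1
      · exact absurd this.symm h1
      · rfl
    · exact iff_of_eq (congrFun (congrFun (congrArg Prod.fst (hom r r' _ _ q l01)) t) s)
    · exact iff_of_eq (congrFun (congrFun (congrArg Prod.snd (hom r r' _ _ q l01)) t) s)
    · exact n9 g (Or.inr hg) _ (hA _) _ (hA _) _ _ _ _ (hinj.ne (he.injective.ne q)) (hy _) (hy _)
  rcases fam.cases (N := N) (by omega) with ⟨ty, F, h1, h2⟩ | ⟨hU, hD⟩ | ⟨hU, hD⟩
  · refine Or.inl ⟨g, ty, F, hg.1, hg.2.1, h1, fun r => ?_⟩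
    obtain ⟨r', o, q⟩ := h2 r
    rw [q]
    refine ⟨hA _, ?_⟩
    dsimp only
    rw [hy]
    cases o
    · rfl
    · exact pair_comm _ _
  · exact Or.inr ⟨_, (en _).2, _, (en _).2, fam.ij.ne l01.ne,
      fam.cons (by omega) (fun r => hy _) hU hD l01⟩
  · exact Or.inl (repair hN hg fam (by omega) (fun r => ⟨hA _, hy _⟩) hU.1 hU.2 hD)

end ECls

open ECls in
theorem clsS (hR : RamseyStmt) (hN : NormS) (hD : D2.ClsStmt) : ClsS := by
  intro N
  obtain ⟨t1, h1⟩ := hD N
  obtain ⟨t2, h2⟩ := multi hR hN N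
  refine ⟨t1 + t2, fun J V K _ _ _ _ _ _ P A W g hg => ?_⟩
  refine or_iff_not_imp_left.2 fun n1 => or_iff_not_imp_left.2 fun n2 T hT hc => ?_
  have hA : T ⊆ A := hT.trans (filter_subset _ _)
  have h3 : ∀ j ∈ T, ∃ a b, g j = Sv.two a b := fun j hj => (mem_filter.1 (hT hj)).2
  have h4 := card_filter_add_card_filter_not (s := T) P.mu
  by_cases c : t2 ≤ (T.filter P.mu).card
  · obtain ⟨i, hi, k, hk, q⟩ := (h2 J V K P A W g _ hg ((filter_subset _ _).trans hA)
      (fun j hj => (mem_filter.1 hj).2) (fun j hj => h3 j (mem_filter.1 hj).1) c).resolve_left n2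
    exact ⟨i, (mem_filter.1 hi).1, k, (mem_filter.1 hk).1, q⟩
  · have s1 : (T.filter fun j => ¬ P.mu j) ⊆ A := (filter_subset _ _).trans hA
    have s2 : ∀ j ∈ T.filter fun j => ¬ P.mu j, ¬ P.mu j := fun j hj => (mem_filter.1 hj).2
    have s3 : ∀ j ∈ T.filter fun j => ¬ P.mu j, ∃ a b, g j = Sv.two a b := fun j hj =>
      h3 j (mem_filter.1 hj).1
    rcases h1 J V P.base _ _ g (min_base hN hg s1 s2 s3) with ⟨g', ty, F, a1, a2, a3, a4⟩ | a
    · obtain ⟨b1, b2⟩ := ext_base hg.1 hg.2.1 s1 s2 a1.1 a2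
      refine absurd ⟨_, ty, F, b1, b2, a3, fun r => ⟨s1 (a4 r).1, s2 _ (a4 r).1, ?_⟩⟩ n1
      rw [if_pos (a4 r).1]
      exact (a4 r).2
    · obtain ⟨i, hi, k, hk, q1, q2⟩ := a _ (fun j hj => mem_filter.2 ⟨hj, s3 j hj⟩) (by omega)
      exact ⟨i, (mem_filter.1 hi).1, k, (mem_filter.1 hk).1, q1,
        cons_of_base hg.1 (s1 hi) (s1 hk) (s2 i hi) (s2 k hk) q2⟩

end Pool.Agent.Lib.MP_ef7581_lc.D3
end
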