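import Pool.Agent.Lib.MP_ef7581_lc.EGeo
import Pool.Agent.Lib.MP_ef7581_lc.DNorm
import Pool.Agent.Lib.MP_ef7581_lc.DComb
import Mathlib

-- part Pool.Agent.Lib.MP_ef7581_lc.ENorm
section

/-!
Normal forms of states, the replacement lemma and the bound on the number of triples, for agents
with several terminals.
-/

set_option autoImplicit false
set_option linter.unusedSectionVars false

namespace Pool.Agent.Lib.MP_ef7581_lc.D3

open Finset Classical D2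

namespace ENorm

open G3

variable {J V K : Type} [Fintype J] [Fintype V] [Fintype K] [DecidableEq J] [DecidableEq V]
  [DecidableEq K] {P : G3 J V K} {S : Sub J V} {B : Finset J}

theorem loc (hw : P.Wf S) {j : J} {s : Finset V} (h : P.Serv3 S j s) :
    ∃ σ, P.Nrm S j σ ∧ σ.its ⊆ s ∧ (P.Serv2 S j s → ∀ a z b, σ ≠ Sv.three a z b) := by
  by_cases h1 : ∃ v ∈ s, S.lst j v
  · obtain ⟨v, hv, hl⟩ := h1
    exact ⟨Sv.one v, hl, singleton_subset_iff.2 hv, fun _ _ _ _ e => by cases e⟩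
  have hg : S.geo j := by
    rcases h with (h | h) | h
    · exact absurd h h1
    · exact h.1
    · exact h.1
  have nC : ∀ v ∈ s, ¬ P.C j v := fun v hv hc => h1 ⟨v, hv, (hw.1 j hg v).2 hc⟩
  by_cases h2 : ∃ a ∈ s, ∃ b ∈ s, P.Pr j a b
  · obtain ⟨a, ha, b, hb, hp⟩ := h2
    by_cases hm : P.mu j
    · exact ⟨Sv.two a b, ⟨hg, Or.inr ⟨hm, hp, nC a ha, nC b hb⟩⟩,
        insert_subset ha (singleton_subset_iff.2 hb), fun _ _ _ _ e => by cases e⟩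
    obtain ⟨o, c1, c2, nh⟩ := col_of_Pr hm hp (nC a ha) (nC b hb)
    cases o
    · exact ⟨Sv.two b a, ⟨hg, Or.inl ⟨hm, c2, c1, fun h => nh (Geo.HH_symm h)⟩⟩,
        insert_subset hb (singleton_subset_iff.2 ha), fun _ _ _ _ e => by cases e⟩
    · exact ⟨Sv.two a b, ⟨hg, Or.inl ⟨hm, c1, c2, nh⟩⟩,
        insert_subset ha (singleton_subset_iff.2 hb), fun _ _ _ _ e => by cases e⟩
  have h5 : ¬ P.Serv2 S j s := fun h => h.elim h1 fun h => h2 h.2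
  obtain ⟨-, a, ha, z, hz, b, hb, hm, n1, n2, n3, n4, o, h3, h4⟩ := h.resolve_left h5
  have nc : ∀ v ∈ s, ∀ o, ¬ P.base.adj j o v → P.base.col j (!o) v := fun v hv o ho =>
    ⟨by_contra fun h2 => nC v hv ((C_iff hm).2 (Geo.C_of ho h2)), by simpa using ho⟩
  have h6 : ∀ a ∈ s, ∀ b ∈ s, ¬ P.base.Pr j a b := fun a ha b hb hp =>
    h2 ⟨a, ha, b, hb, Pr_of_base hm hp⟩
  have c1 := nc a ha o h3
  have c2 := nc b hb _ h4
  have z1 : P.base.adj j (!o) z := by_contra fun h => h6 a ha z hz ⟨n1, n3, o, h3, h⟩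
  have z2 : P.base.adj j o z := by_contra fun h => h6 z hz b hb ⟨n2, n4, o, h, h4⟩
  have ab : P.base.HH a b := by_contra fun h => h6 a ha b hb ⟨Geo.col_ne c1 c2, h, o, h3, h4⟩
  cases o
  · exact ⟨Sv.three a z b, ⟨hg, hm, c1, Geo.junk_of z2 z1, c2, ab, n3, n4⟩,
      insert_subset ha (insert_subset hz (singleton_subset_iff.2 hb)), fun h => absurd h h5⟩
  · exact ⟨Sv.three b z a, ⟨hg, hm, c2, Geo.junk_of z2 z1, c1, Geo.HH_symm ab,
      fun h => n4 (Geo.HH_symm h), fun h => n3 (Geo.HH_symm h)⟩,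
      insert_subset hb (insert_subset hz (singleton_subset_iff.2 ha)), fun h => absurd h h5⟩

theorem serv {j : J} {σ : Sv V} (h : P.Nrm S j σ) :
    P.Serv3 S j σ.its ∧ ((∀ a z b, σ ≠ Sv.three a z b) → P.Serv2 S j σ.its) := by
  rcases σ with _ | c | ⟨a, b⟩ | ⟨a, z, b⟩
  · exact h.elim
  · have : P.Serv2 S j (Sv.one c).its := Or.inl ⟨c, mem_singleton_self c, h⟩
    exact ⟨Or.inl this, fun _ => this⟩
  · have : P.Serv2 S j (Sv.two a b).its :=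
      Or.inr ⟨h.1, a, by simp [Sv.its], b, by simp [Sv.its], (nrm_two h).2.1⟩
    exact ⟨Or.inl this, fun _ => this⟩
  · obtain ⟨h0, hm, h1, h2, h3, -, h5, h6⟩ := h
    exact ⟨Or.inr ⟨h0, a, by simp [Sv.its], z, by simp [Sv.its], b, by simp [Sv.its], hm,
      DNorm.ne_az h1 h2, (DNorm.ne_az h3 h2).symm, h5, h6, false, h1.2, h3.2⟩,
      fun h => absurd rfl (h a z b)⟩

theorem norm (hw : P.Wf S) {sv : J → Finset V → Prop} (h3 : ∀ j s, sv j s → P.Serv3 S j s)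
    {f : J → Finset V} (h : St S sv B f) : ∃ g, P.PSt S B g ∧ (∀ j ∈ B, (g j).its ⊆ f j) ∧
      ((∀ j s, sv j s → P.Serv2 S j s) → NoTri B g) := by
  have h1 : ∀ j, ∃ σ : Sv V, j ∈ B → P.Nrm S j σ ∧ σ.its ⊆ f j ∧
      (P.Serv2 S j (f j) → ∀ a z b, σ ≠ Sv.three a z b) := fun j => by
    by_cases hj : j ∈ B
    · exact (loc hw (h3 _ _ (h.srv j hj))).imp fun σ h _ => h
    · exact ⟨Sv.non, fun h => absurd h hj⟩
  choose g hg using h1
  exact ⟨g, ⟨h.sub, fun j hj => (hg j hj).2.1.trans (h.inW j hj), fun j hj => (hg j hj).1,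
    fun i hi j hj hij => (h.dis i hi j hj hij).mono (hg i hi).2.1 (hg j hj).2.1⟩,
    fun j hj => (hg j hj).2.1, fun h2 j hj => (hg j hj).2.2 (h2 _ _ (h.srv j hj))⟩

theorem st3 (hw : P.Wf S) {g : J → Sv V} (h : P.PSt S B g) :
    St S (P.Serv3 S) B fun j => (g j).its :=
  ⟨h.sub, h.inW, fun j hj => (serv (h.nrm j hj)).1, h.dis, fun v _ hq => absurd hq (hw.2 v)⟩

theorem st2 (hw : P.Wf S) {g : J → Sv V} (h : P.PSt S B g) (hn : NoTri B g) :
    St S (P.Serv2 S) B fun j => (g j).its :=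
  ⟨h.sub, h.inW, fun j hj => (serv (h.nrm j hj)).2 (hn j hj), h.dis,
    fun v _ hq => absurd hq (hw.2 v)⟩

theorem single (hw : P.Wf S) {j : J} (hg : S.geo j) {c : V} (h : P.C j c) : P.Serv2 S j {c} :=
  Or.inl ⟨c, mem_singleton_self c, (hw.1 j hg c).2 h⟩

/-- Two pair services of a minimal state cannot be replaced by two single items. -/
theorem two_swap (hw : P.Wf S) {g : J → Sv V} (h : P.Min3 S B g ∨ P.Min2 S B g) {i j : J}
    (hi : i ∈ B) (hj : j ∈ B) (hij : i ≠ j) {a b a' b' : V} (gi : g i = Sv.two a b)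
    (gj : g j = Sv.two a' b')
    (hc : ∀ k k', P.colk i k a → P.colk j k' a' → P.C i a' ∧ P.C j a) : False := by
  have hn : P.PSt S B g := h.elim (·.1) (·.1)
  have n1 := hn.nrm i hi
  have n2 := hn.nrm j hj
  rw [gi] at n1
  rw [gj] at n2
  obtain ⟨g1, p1, k1, -, -, c1, -⟩ := nrm_two n1
  obtain ⟨g2, p2, k2, -, -, c2, -⟩ := nrm_two n2
  have s1 := single hw g1 (hc k1 k2 c1 c2).1
  have s2 := single hw g2 (hc k1 k2 c1 c2).2
  have u1 : ({a'} : Finset V) ⊆ (g j).its := by simp [gj, Sv.its]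
  have u2 : ({a} : Finset V) ⊆ (g i).its := by simp [gi, Sv.its]
  have k : (g i).its.card + (g j).its.card ≤ ({a'} : Finset V).card + ({a} : Finset V).card := by
    rcases h with h | h
    · exact DNorm.swap (st3 hw hn) h.2 hi hj hij (Or.inl s1) (Or.inl s2) u1 u2
        (fun v _ => hw.2 v) fun v _ => hw.2 v
    · exact DNorm.swap (st2 hw hn h.2.1) h.2.2 hi hj hij s1 s2 u1 u2
        (fun v _ => hw.2 v) fun v _ => hw.2 v
  simp only [gi, gj, Sv.its, card_singleton, card_pair p1.1, card_pair p2.1] at k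
  omega

/-- Orientation of the pair services of rigid multiple agents. -/
theorem orient {g : J → Sv V} {e : ℕ} {ρ : Finset V} (nf : V → Prop) (hf : P.Frame e ρ)
    (h : P.PSt S B g) : ∃ g', P.PSt S B g' ∧
      (∀ j, g' j = g j ∨ (P.mu j ∧ ∃ a b, g j = Sv.two a b ∧ g' j = Sv.two b a)) ∧
      ∀ j ∈ B, ∀ a b k, g' j = Sv.two a b → P.rigm e ρ j k →
        ¬ P.adt j k a ∧ (nf b → P.adt j k b ∨ nf a) := by
  have h1 : ∀ j, ∃ σ : Sv V,
      (σ = g j ∨ (P.mu j ∧ ∃ a b, g j = Sv.two a b ∧ σ = Sv.two b a)) ∧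
      (j ∈ B → P.Nrm S j σ ∧ σ.its = (g j).its ∧ ∀ a b k, σ = Sv.two a b → P.rigm e ρ j k →
        ¬ P.adt j k a ∧ (nf b → P.adt j k b ∨ nf a)) := fun j => by
    by_cases hj : j ∈ B ∧ ∃ a b k, g j = Sv.two a b ∧ P.rigm e ρ j k
    swap
    · exact ⟨g j, Or.inl rfl, fun hB => ⟨h.nrm j hB, rfl,
        fun a b k e1 e2 => absurd ⟨hB, a, b, k, e1, e2⟩ hj⟩⟩
    obtain ⟨hB, a, b, k, gj, hk⟩ := hj
    have n := h.nrm j hB
    rw [gj] at n
    obtain ⟨hg, n⟩ := n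
    obtain ⟨hm, hp, ca, cb⟩ := n.resolve_left fun n => n.1 hk.1
    by_cases c : ¬ P.adt j k a ∧ (nf b → P.adt j k b ∨ nf a)
    · refine ⟨g j, Or.inl rfl, fun hB => ⟨h.nrm j hB, rfl, fun a' b' k' e1 e2 => ?_⟩⟩
      rw [gj] at e1
      cases e1
      rw [rigm_unique hf e2 hk]
      exact c
    · refine ⟨Sv.two b a, Or.inr ⟨hm, a, b, gj, rfl⟩, fun _ =>
        ⟨⟨hg, Or.inr ⟨hm, Pr_symm hp, cb, ca⟩⟩, by rw [gj]; exact pair_comm b a,
          fun a' b' k' e1 e2 => ?_⟩⟩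
      cases e1
      rw [rigm_unique hf e2 hk]
      have := hp.2.2 k
      tauto
  choose g' hg using h1
  refine ⟨g', ⟨h.sub, fun j hj => ?_, fun j hj => ((hg j).2 hj).1, fun i hi j hj hij => ?_⟩,
    fun j => (hg j).1, fun j hj => ((hg j).2 hj).2.2⟩
  · rw [((hg j).2 hj).2.1]
    exact h.inW j hj
  · rw [((hg i).2 hi).2.1, ((hg j).2 hj).2.1]
    exact h.dis i hi j hj hij

/-- Services of the geometry of two terminals are services. -/
theorem serv3_of_base (hw : P.Wf S) {j : J} (hg : S.geo j) (hs : ¬ P.mu j) {s : Finset V}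
    {A : Finset J} {W : Finset V} (h : P.base.Serv3 (P.base.pl A W) j s) : P.Serv3 S j s := by
  rcases h with (⟨v, a, b⟩ | ⟨-, a, ha, b, hb, c⟩) | ⟨-, a, ha, z, hz, b, hb, c⟩
  · exact Or.inl (Or.inl ⟨v, a, (hw.1 j hg v).2 ((C_iff hs).2 b)⟩)
  · exact Or.inl (Or.inr ⟨hg, a, ha, b, hb, Pr_of_base hs c⟩)
  · exact Or.inr ⟨hg, a, ha, z, hz, b, hb, hs, c⟩

end ENorm

open D3.ENorm G3

theorem normS : NormS := by
  intro J V K _ _ _ _ _ _ P S B hw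
  refine ⟨fun f h => ?_, fun f h => ?_, fun f h => ?_, fun f h => ?_, fun g h => st3 hw h,
    fun g h hn => st2 hw h hn,
    fun sv f R f' h hR h1 h2 => DNorm.repl h hR h1 h2 fun v _ => hw.2 v,
    fun g e ρ hf h i hi j hj a b a' b' gi gj bi bj => ?_,
    fun g h i hi j hj a b a' b' hij gi gj x y x1 y1 x2 y2 => ?_,
    fun g e ρ nf hf h => orient nf hf h⟩
  · obtain ⟨g, h1, h2, -⟩ := norm hw (fun _ _ h => h) h
    exact ⟨g, h1, h2⟩
  · obtain ⟨g, h1, h2, h3⟩ := norm hw (fun _ _ h => Or.inl h) h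
    exact ⟨g, h1, h3 fun _ _ h => h, h2⟩
  · obtain ⟨f₀, h0, hm⟩ := DNorm.exists_min h
    obtain ⟨g, h1, h2, -⟩ := norm hw (fun _ _ h => h) h0
    exact ⟨g, h1, fun f hf => (DNorm.use_mono h2).trans (hm f hf)⟩
  · obtain ⟨f₀, h0, hm⟩ := DNorm.exists_min h
    obtain ⟨g, h1, h2, h3⟩ := norm hw (fun _ _ h => Or.inl h) h0
    exact ⟨g, h1, h3 fun _ _ h => h, fun f hf => (DNorm.use_mono h2).trans (hm f hf)⟩
  · by_contra hij
    exact two_swap hw h hi hj hij gi gj fun k k' c1 c2 =>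
      ⟨blind_C hf (Ne.symm hij) bj bi c2, blind_C hf hij bi bj c1⟩
  · by_contra hxy
    exact two_swap hw h hi hj hij gi gj fun k k' c1 c2 =>
      ⟨coline (Ne.symm hij) hxy x2 y2 x1 y1 c2, coline hij hxy x1 y1 x2 y2 c1⟩

theorem tripS (_hN : NormS) : TripS := by
  obtain ⟨cT, hT⟩ := D2.tripStmt D2.ramseyStmt
  refine ⟨cT, fun J V K _ _ _ _ _ _ P S B g hw hm => ?_⟩
  set T := B.filter fun j => ∃ a z b, g j = Sv.three a z b with hTd
  have TB : T ⊆ B := filter_subset _ _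
  have nr : ∀ j ∈ T, S.geo j ∧ ¬ P.mu j ∧ P.base.Nrm (P.base.pl T (itsB T g)) j (g j) :=
    fun j hj => by
      obtain ⟨a, z, b, e⟩ := (mem_filter.1 hj).2
      have n := hm.1.nrm j (TB hj)
      rw [e] at n ⊢
      exact ⟨n.1, n.2.1, trivial, n.2.2⟩
  have h1 : P.base.Min3 (P.base.pl T (itsB T g)) T g := by
    refine ⟨⟨⟨Subset.refl _, fun j hj => subset_biUnion_of_mem (fun j => (g j).its) hj,
      fun j hj => (nr j hj).2.2, fun i hi j hj hij => hm.1.dis i (TB hi) j (TB hj) hij,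
      fun _ _ _ _ hq => hq.elim⟩, fun _ _ hq => hq.elim⟩, fun f hf => ?_⟩
    obtain ⟨h2, h3⟩ := DNorm.repl (R := T) (f' := f) (st3 hw hm.1) TB
      (fun j hj => ⟨serv3_of_base hw (nr j hj).1 (nr j hj).2.1 (hf.srv j hj), hf.inW j hj⟩)
      hf.dis fun v _ => hw.2 v
    have h4 := hm.2 _ h2
    omega
  have h5 := hT J V P.base _ T g (Geo.wf_pl _ _) h1
  rwa [filter_true_of_mem fun j hj => (mem_filter.1 hj).2] at h5

end Pool.Agent.Lib.MP_ef7581_lc.D3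
end

-- part Pool.Agent.Lib.MP_ef7581_lc.EImg
section

/-!
Images of states in the auxiliary graphs; necessity of the test (several terminals).
-/

set_option autoImplicit false
set_option linter.unusedSectionVars false

namespace Pool.Agent.Lib.MP_ef7581_lc.D3

namespace EImg

open Finset Classical D2 G3

variable {J V K : Type} [Fintype J] [Fintype V] [Fintype K] [DecidableEq J] [DecidableEq V]
  [DecidableEq K] {P : G3 J V K} {S : Sub J V} {e : ℕ} {ρ : Finset V} {Y : Px V} {B : Finset J}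
  {g : J → Sv V}

theorem own_eq (h : P.PSt S B g) {i j : J} (hi : i ∈ B) (hj : j ∈ B) {v : V}
    (a : v ∈ (g i).its) (b : v ∈ (g j).its) : i = j := by
  by_contra hn
  exact disjoint_left.1 (h.dis i hi j hj hn) a b

/-- Facts on a pair service. -/
theorem two_gen (h : P.PSt S B g) {j : J} (hj : j ∈ B) {a b : V} (hg : g j = Sv.two a b) :
    S.geo j ∧ P.Pr j a b ∧ ¬ P.C j a ∧ ¬ P.C j b ∧ a ∈ S.W ∧ b ∈ S.W := by
  have n := h.nrm j hj
  have w := h.inW j hj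
  rw [hg] at n w
  obtain ⟨n1, n2, k, k', -, n3, n4⟩ := nrm_two n
  exact ⟨n1, n2, colk_not_C n3, colk_not_C n4, w (by simp [Sv.its]), w (by simp [Sv.its])⟩

theorem two_or (h : P.PSt S B g) {j : J} (hj : j ∈ B) {a b : V} (hg : g j = Sv.two a b)
    (o : Bool) : P.Pr j (ma o a b) (mi o a b) ∧ ¬ P.C j (mi o a b) ∧ mi o a b ∈ S.W ∧
      ma o a b ∈ S.W := by
  obtain ⟨-, f2, f3, f4, f5, f6⟩ := two_gen h hj hg
  cases o
  · exact ⟨Pr_symm f2, f3, f5, f6⟩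
  · exact ⟨f2, f4, f6, f5⟩

/-- Facts on a pair service of an agent with two terminals. -/
theorem two_facts (h : P.PSt S B g) {j : J} (hj : j ∈ B) (hs : ¬ P.mu j) {a b : V}
    (hg : g j = Sv.two a b) (o : Bool) : P.col j (!o) (mi o a b) ∧ P.col j o (ma o a b) ∧
      ¬ P.HH (mi o a b) (ma o a b) := by
  have n := h.nrm j hj
  rw [hg] at n
  obtain ⟨-, n⟩ := n
  obtain ⟨-, n1, n2, n3⟩ := n.resolve_right fun k => hs k.1
  cases o
  · exact ⟨n1, n2, n3⟩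
  · exact ⟨n2, n1, fun k => n3 (Geo.HH_symm k)⟩

/-- What `Simple` says about a given pair. -/
theorem si_two (hs : P.Simple e ρ Y B g) {j : J} (hj : j ∈ B) {a b : V}
    (hg : g j = Sv.two a b) : ¬ P.blind e ρ j ∧ (∀ k, P.rigm e ρ j k → ¬ P.adt j k a) ∧
      (P.mu j ∨ Y.pn ∨ (¬ Y.nf a ∧ ¬ Y.nf b)) := by
  rcases hs j hj with ⟨c, d⟩ | ⟨a', b', d, f⟩
  · rw [hg] at d; cases d
  · rw [hg] at d; cases d; exact f

theorem si_nf (hs : P.Simple e ρ Y B g) {j : J} (hj : j ∈ B) (hm : ¬ P.mu j) {a b : V}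
    (hg : g j = Sv.two a b) (o : Bool) : Y.pn ∨ (¬ Y.nf (mi o a b) ∧ ¬ Y.nf (ma o a b)) := by
  refine ((si_two hs hj hg).2.2.resolve_left hm).imp id fun k => ?_
  cases o
  · exact k
  · exact k.symm

theorem oldA_mem {j : J} {v : V} (h : P.OldA e ρ B g j v) : v ∈ (g j).its := by
  rcases h.2 with a | ⟨a, b, o, c, -, -, rfl, -⟩ | ⟨b, k, c, -⟩
  · rw [a]; simp [Sv.its]
  · rw [c, DImg.its_two o]; simp
  · rw [c]; simp [Sv.its]

theorem oldP_mem {j : J} {q z : V} (h : P.OldP e ρ B g j q z) :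
    (g j).its = {q, z} := by
  obtain ⟨-, -, a, b, o, c, -, rfl, rfl, -⟩ := h
  rw [c, DImg.its_two o]

theorem oldA_uniq {j : J} {v v' : V} (h : P.OldA e ρ B g j v) (h' : P.OldA e ρ B g j v') :
    v = v' := by
  rcases h.2 with a | ⟨a, b, o, c, m, r, rfl, -⟩ | ⟨b, k, c, r⟩ <;>
    rcases h'.2 with a' | ⟨a', b', o', c', m', r', rfl, -⟩ | ⟨b', k', c', r'⟩
  · rw [a] at a'; cases a'; rfl
  · rw [a] at c'; cases c'
  · rw [a] at c'; cases c'
  · rw [c] at a'; cases a'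
  · rw [c] at c'; cases c'; cases Geo.rig_unique r r'; rfl
  · exact (m r'.1).elim
  · rw [c] at a'; cases a'
  · exact (m' r.1).elim
  · rw [c] at c'; cases c'; rfl

theorem notAP {j : J} {v q z : V} (h : P.OldA e ρ B g j v) (h' : P.OldP e ρ B g j q z) :
    False := by
  obtain ⟨-, m', a', b', o', c', r', rfl, rfl, k⟩ := h'
  rcases h.2 with a | ⟨a, b, o, c, -, r, rfl, k'⟩ | ⟨b, k', c, r⟩
  · rw [a] at c'; cases c'
  · rw [c] at c'; cases c'; cases Geo.rig_unique r r'; exact k' k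
  · exact m' r.1

theorem notAD {j : J} {v : V} (h : P.OldA e ρ B g j v) (h' : P.OldD e ρ B g j) : False := by
  obtain ⟨-, ⟨a', b', c'⟩, r'⟩ := h'
  rcases h.2 with a | ⟨a, b, o, c, -, r, -⟩ | ⟨b, k', c, r⟩
  · rw [a] at c'; cases c'
  · exact rig_not_flex r r'
  · exact rigm_not_flex r r'

theorem notPD {j : J} {q z : V} (h : P.OldP e ρ B g j q z) (h' : P.OldD e ρ B g j) : False := by
  obtain ⟨-, -, a, b, o, -, r, -⟩ := h
  exact rig_not_flex r h'.2.2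

theorem kind (hf : P.Frame e ρ) (hs : P.Simple e ρ Y B g) {j : J} (hj : j ∈ B) :
    (∃ v, P.OldA e ρ B g j v) ∨ (∃ q z, P.OldP e ρ B g j q z) ∨ P.OldD e ρ B g j := by
  rcases hs j hj with ⟨c, a⟩ | ⟨a, b, c, d, -⟩
  · exact Or.inl ⟨c, hj, Or.inl a⟩
  rcases kinds hf j with k | k | ⟨m, o, k⟩ | ⟨k, r⟩
  · exact (d k).elim
  · exact Or.inr (Or.inr ⟨hj, ⟨a, b, c⟩, k⟩)
  · by_cases f : P.heavy e ρ (mi o a b)
    · exact Or.inr (Or.inl ⟨_, _, hj, m, a, b, o, c, k, rfl, rfl, f⟩)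
    · exact Or.inl ⟨_, hj, Or.inr (Or.inl ⟨a, b, o, c, m, k, rfl, f⟩)⟩
  · exact Or.inl ⟨a, hj, Or.inr (Or.inr ⟨b, k, c, r⟩)⟩

theorem oldP_pr (h : P.PSt S B g) {j : J} {q z : V} (a : P.OldP e ρ B g j q z) :
    P.Pr j q z := by
  obtain ⟨hj, -, a, b, o, c, -, rfl, rfl, -⟩ := a
  exact Pr_symm (two_or h hj c o).1

theorem oldP_geo (hf : P.Frame e ρ) (h : P.PSt S B g) {j : J} {q z : V}
    (a : P.OldP e ρ B g j q z) : P.Q0 e ρ q ∧ ¬ P.heavy e ρ z ∧ ¬ P.HH q z ∧ P.rigid S e ρ j ∧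
      ¬ P.junk j z ∧ q ∈ S.W ∧ z ∈ S.W := by
  obtain ⟨hj, m, a, b, o, c, r, rfl, rfl, k⟩ := a
  obtain ⟨f2, f3, f4⟩ := two_facts h hj m c o
  obtain ⟨-, -, f7, f8⟩ := two_or h hj c o
  have q0 := Geo.Q0_of_heavy hf r.1 (by simpa using f2.2) k
  exact ⟨q0, fun k' => Geo.Q0_not_adj hf r.1 ⟨q0.1, k'⟩ f3.1, f4, ⟨(two_gen h hj c).1, m, o, r⟩,
    Geo.col_not_junk f3, f7, f8⟩

theorem oldP_pe (hf : P.Frame e ρ) (h : P.PSt S B g) (hs : P.Simple e ρ Y B g) {j : J} {q z : V}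
    (a : P.OldP e ρ B g j q z) : P.peE e ρ Y q z := by
  obtain ⟨f1, f2, f3, -⟩ := oldP_geo hf h a
  obtain ⟨hj, m, a, b, o, c, r, rfl, rfl, k⟩ := a
  exact ⟨f1, f2, f3, si_nf hs hj m c o⟩

theorem old_symm {x y : Nd J V} (h : P.Old e ρ B g x y) : P.Old e ρ B g y x := by
  rcases x with i | u | i <;> rcases y with j | v | j <;> simp only [Old] at h ⊢
  · exact h
  · exact h
  · exact h
  · exact h.imp fun _ a => a.symm
  · exact h

theorem oldP_any {j : J} {u v : V} (h : P.OldP e ρ B g j u v ∨ P.OldP e ρ B g j v u) :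
    j ∈ B ∧ (g j).its = {u, v} ∧ ∃ q z, P.OldP e ρ B g j q z :=
  h.elim (fun a => ⟨a.1, oldP_mem a, _, _, a⟩)
    fun a => ⟨a.1, (oldP_mem a).trans (pair_comm _ _), _, _, a⟩

theorem old_fun (h : P.PSt S B g) (x y y' : Nd J V) (a : P.Old e ρ B g x y)
    (b : P.Old e ρ B g x y') : y = y' := by
  rcases x with i | u | i <;> rcases y with j | v | j <;> rcases y' with j' | v' | j' <;>
    simp only [Old] at a b
  · rw [oldA_uniq a b]
  · exact (notAD a (b.1 ▸ b.2)).elim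
  · exact (notAD b (a.1 ▸ a.2)).elim
  · rw [← a.1, ← b.1]
  · rw [own_eq h a.1 b.1 (oldA_mem a) (oldA_mem b)]
  · obtain ⟨k, b⟩ := b
    obtain ⟨b1, b2, q, z, b3⟩ := oldP_any b
    cases own_eq h a.1 b1 (oldA_mem a) (by rw [b2]; simp)
    exact (notAP a b3).elim
  · obtain ⟨k, a⟩ := a
    obtain ⟨b1, b2, q, z, b3⟩ := oldP_any a
    cases own_eq h b.1 b1 (oldA_mem b) (by rw [b2]; simp)
    exact (notAP b b3).elim
  · obtain ⟨k, a⟩ := a
    obtain ⟨k', b⟩ := b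
    obtain ⟨a1, a2, -⟩ := oldP_any a
    obtain ⟨b1, b2, -⟩ := oldP_any b
    cases own_eq h a1 b1 (v := u) (by rw [a2]; simp) (by rw [b2]; simp)
    have n : u ≠ v := a.elim (fun c => (oldP_pr h c).1) fun c => (oldP_pr h c).1.symm
    have m : v ∈ ({u, v'} : Finset V) := by rw [← b2, a2]; simp
    rw [mem_insert, mem_singleton] at m
    rw [m.resolve_left n.symm]
  · rw [a.1, b.1]

theorem nc_of (h : P.PSt S B g) (hs : P.Simple e ρ Y B g) {j : J} (hj : j ∈ B) (m : ¬ P.mu j)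
    {a b : V} {o : Bool} (c : g j = Sv.two a b) (r : P.rig e ρ j o)
    (k : ¬ P.heavy e ρ (mi o a b)) : P.ncE S e ρ Y j (mi o a b) :=
  ⟨(two_gen h hj c).1, m, ⟨o, r, (two_facts h hj m c o).1⟩, k,
    (si_nf hs hj m c o).imp id fun d => d.1⟩

/-- Agents with two terminals and a key. -/
def NC (P : G3 J V K) (e : ℕ) (ρ : Finset V) (g : J → Sv V) (j : J) : Prop :=
  ¬ P.mu j ∧ DImg.NC P.base e ρ g j

theorem oldA_En (h : P.PSt S B g) (hs : P.Simple e ρ Y B g) {X : Ax J V} {j : J} {v : V}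
    (a : P.OldA e ρ B g j v) (hX : NC P e ρ g j → X.nc) : P.En S e ρ X Y (ag j) (vx v) := by
  refine ⟨h.sub a.1, h.inW j a.1 (oldA_mem a), ?_⟩
  rcases a.2 with c | ⟨x, y, o, c, m, r, rfl, k⟩ | ⟨y, k, c, r⟩
  · have n := h.nrm j a.1
    rw [c] at n
    exact Or.inl n
  · exact Or.inr (Or.inr ⟨hX ⟨m, x, y, o, c, r, k⟩, nc_of h hs a.1 m c r k⟩)
  · exact Or.inr (Or.inl ⟨(two_gen h a.1 c).1, k, r, (si_two hs a.1 c).2.1 k r⟩)

theorem old_En (hf : P.Frame e ρ) (h : P.PSt S B g) (hs : P.Simple e ρ Y B g) {X : Ax J V}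
    (h1 : ∀ j ∈ B, NC P e ρ g j → X.nc)
    (h2 : ∀ j q z, P.OldP e ρ B g j q z → X.pe ∧ ¬ X.zs z) {x y : Nd J V}
    (a : P.Old e ρ B g x y) : P.En S e ρ X Y x y := by
  have kD : ∀ j, P.OldD e ρ B g j → j ∈ S.A ∧ S.geo j ∧ P.flex e ρ j := fun j a => by
    obtain ⟨a1, ⟨x, y, c⟩, a3⟩ := a
    exact ⟨h.sub a1, (two_gen h a1 c).1, a3⟩
  rcases x with i | u | i <;> rcases y with j | v | j <;> simp only [Old] at a
  · exact oldA_En h hs a (h1 _ a.1)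
  · exact ⟨a.1, kD _ a.2⟩
  · exact oldA_En h hs a (h1 _ a.1)
  · obtain ⟨k, a | a⟩ := a
    · obtain ⟨-, -, -, -, -, f5, f6⟩ := oldP_geo hf h a
      exact ⟨f5, f6, (h2 _ _ _ a).1, Or.inl ⟨oldP_pe hf h hs a, (h2 _ _ _ a).2⟩⟩
    · obtain ⟨-, -, -, -, -, f5, f6⟩ := oldP_geo hf h a
      exact ⟨f6, f5, (h2 _ _ _ a).1, Or.inr ⟨oldP_pe hf h hs a, (h2 _ _ _ a).2⟩⟩
  · exact ⟨a.1, kD _ a.2⟩

/-- Hidden items of a pair service. -/
def Hid (P : G3 J V K) (e : ℕ) (ρ : Finset V) (g : J → Sv V) (j : J) (v : V) : Prop :=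
  ∃ a b, g j = Sv.two a b ∧ ((P.flex e ρ j ∧ (v = a ∨ v = b)) ∨
    (∃ o, ¬ P.mu j ∧ P.rig e ρ j o ∧ ¬ P.heavy e ρ (mi o a b) ∧ v = ma o a b) ∨
    ∃ k, P.rigm e ρ j k ∧ v = b)

section Img

variable {μ : Nd J V → Nd J V}

theorem im_old (hμ : P.IsImg e ρ B g μ) {x : Nd J V} (hx : μ x ≠ x) : P.Old e ρ B g x (μ x) :=
  (hμ.2 x _ hx.symm).1 rfl

theorem im_ag (hμ : P.IsImg e ρ B g μ) {j : J} (hx : μ (ag j) ≠ ag j) :
    (∃ v, P.OldA e ρ B g j v) ∨ P.OldD e ρ B g j := by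
  have a := im_old hμ hx
  rcases hy : μ (ag j) with i | u | i <;> rw [hy] at a
  · exact a.elim
  · exact Or.inl ⟨u, a⟩
  · exact Or.inr a.2

theorem im_A (hμ : P.IsImg e ρ B g μ) {j : J} {v : V} (a : P.OldA e ρ B g j v) :
    μ (ag j) = vx v := (hμ.2 _ _ (by simp)).2 a

theorem im_A' (hμ : P.IsImg e ρ B g μ) {j : J} {v : V} (a : P.OldA e ρ B g j v) :
    μ (vx v) = ag j := by rw [← im_A hμ a, hμ.1]

theorem im_D (hμ : P.IsImg e ρ B g μ) {j : J} (a : P.OldD e ρ B g j) : μ (ag j) = dm j :=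
  (hμ.2 (ag j) (dm j) (by simp)).2 ⟨rfl, a⟩

theorem im_P (h : P.PSt S B g) (hμ : P.IsImg e ρ B g μ) {j : J} {q z : V}
    (a : P.OldP e ρ B g j q z) : μ (ag j) = ag j ∧ μ (vx q) = vx z ∧ μ (vx z) = vx q := by
  have n := (oldP_pr h a).1
  refine ⟨?_, (hμ.2 _ _ (by simpa using n)).2 ⟨j, Or.inl a⟩,
    (hμ.2 _ _ (by simpa using n.symm)).2 ⟨j, Or.inr a⟩⟩
  by_contra hn
  rcases im_ag hμ hn with ⟨v, b⟩ | b
  · exact notAP b a
  · exact notPD a b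

theorem im_unc (hf : P.Frame e ρ) (hs : P.Simple e ρ Y B g) (hμ : P.IsImg e ρ B g μ) {j : J}
    (hj : j ∈ B) (a : μ (ag j) = ag j) : ∃ q z, P.OldP e ρ B g j q z := by
  rcases kind hf hs hj with ⟨v, b⟩ | b | b
  · rw [im_A hμ b] at a; cases a
  · exact b
  · rw [im_D hμ b] at a; cases a

theorem im_M (hf : P.Frame e ρ) (h : P.PSt S B g) (hs : P.Simple e ρ Y B g)
    (hμ : P.IsImg e ρ B g μ) : IsM (P.En S e ρ (axAll J V) Y) μ :=
  ⟨hμ.1, fun _ hx => old_En hf h hs (fun _ _ _ => trivial) (fun _ _ _ _ => ⟨trivial, id⟩)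
    (im_old hμ hx)⟩

/-- A covered item is a key or an end of an old pair edge of its owner. -/
theorem im_vx (hμ : P.IsImg e ρ B g μ) {v : V} (a : μ (vx v) ≠ vx v) :
    ∃ j ∈ B, v ∈ (g j).its ∧ (P.OldA e ρ B g j v ∨ ∃ q z, P.OldP e ρ B g j q z) := by
  have b := im_old hμ a
  rcases hy : μ (vx v) with i | u | i <;> rw [hy] at b
  · exact ⟨i, b.1, oldA_mem b, Or.inl b⟩
  · obtain ⟨k, b⟩ := b
    obtain ⟨b1, b2, b3⟩ := oldP_any b
    exact ⟨k, b1, by rw [b2]; simp, Or.inr b3⟩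
  · exact b.elim

theorem im_out (hμ : P.IsImg e ρ B g μ) {v : V} (hv : v ∉ itsB B g) : μ (vx v) = vx v := by
  by_contra a
  obtain ⟨j, hj, b, -⟩ := im_vx hμ a
  exact hv (mem_biUnion.2 ⟨j, hj, b⟩)

theorem hid_of (hf : P.Frame e ρ) (h : P.PSt S B g) (hs : P.Simple e ρ Y B g)
    (hμ : P.IsImg e ρ B g μ) {j : J} (hj : j ∈ B) {v : V} (hv : v ∈ (g j).its)
    (a : μ (vx v) = vx v) : Hid P e ρ g j v := by
  rcases kind hf hs hj with ⟨x, b⟩ | ⟨q, z, b⟩ | ⟨-, ⟨x, y, c⟩, b⟩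
  · have n : v ≠ x := fun k => by
      have d := im_A' hμ b
      rw [← k, a] at d
      cases d
    rcases b.2 with d | ⟨y, y', o, d, m, r, rfl, k⟩ | ⟨y, k, d, r⟩
    · rw [d] at hv
      exact (n (by simpa [Sv.its] using hv)).elim
    · rw [d, DImg.its_two o, mem_insert, mem_singleton] at hv
      exact ⟨y, y', d, Or.inr (Or.inl ⟨o, m, r, k, hv.resolve_left n⟩)⟩
    · rw [d, Sv.its, mem_insert, mem_singleton] at hv
      exact ⟨x, y, d, Or.inr (Or.inr ⟨k, r, hv.resolve_left n⟩)⟩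
  · have n := (oldP_pr h b).1
    obtain ⟨-, c1, c2⟩ := im_P h hμ b
    rw [oldP_mem b, mem_insert, mem_singleton] at hv
    rcases hv with rfl | rfl
    · rw [a] at c1; exact (n (by simpa using c1)).elim
    · rw [a] at c2; exact (n (by simpa using c2.symm)).elim
  · rw [c, Sv.its, mem_insert, mem_singleton] at hv
    exact ⟨x, y, c, Or.inl ⟨b, hv⟩⟩

theorem of_hid (h : P.PSt S B g) (hμ : P.IsImg e ρ B g μ) {j : J} (hj : j ∈ B) {v : V}
    (hv : v ∈ (g j).its) (a : Hid P e ρ g j v) : μ (vx v) = vx v := by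
  by_contra hn
  obtain ⟨i, hi, b, c⟩ := im_vx hμ hn
  cases own_eq h hi hj b hv
  obtain ⟨x, y, d, ⟨f, -⟩ | ⟨o, m, r, k, rfl⟩ | ⟨k, r, rfl⟩⟩ := a
  · rcases c with c | ⟨q, z, c⟩
    · exact notAD c ⟨hj, ⟨x, y, d⟩, f⟩
    · exact notPD c ⟨hj, ⟨x, y, d⟩, f⟩
  · have f : P.OldA e ρ B g j (mi o x y) := ⟨hj, Or.inr (Or.inl ⟨x, y, o, d, m, r, rfl, k⟩)⟩
    rcases c with c | ⟨q, z, c⟩
    · exact (two_or h hj d o).1.1 (oldA_uniq c f)
    · exact notAP f c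
  · have f : P.OldA e ρ B g j x := ⟨hj, Or.inr (Or.inr ⟨_, k, d, r⟩)⟩
    rcases c with c | ⟨q, z, c⟩
    · exact (two_gen h hj d).2.1.1 (oldA_uniq f c)
    · exact notAP f c

theorem im_cov (hf : P.Frame e ρ) (h : P.PSt S B g) (hs : P.Simple e ρ Y B g)
    (hμ : P.IsImg e ρ B g μ) : cov μ = 2 * B.card := by
  have a1 := ((peStmt J V).1 μ hμ.1 (En_shape (im_M hf h hs hμ))).1
  have a2 : (univ.filter fun j : J => μ (ag j) ≠ ag j) =
      B.filter fun j => ¬ ∃ q z, P.OldP e ρ B g j q z := by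
    ext j
    simp only [mem_filter, mem_univ, true_and]
    refine ⟨fun a => ⟨?_, fun ⟨q, z, b⟩ => a (im_P h hμ b).1⟩,
      fun a b => a.2 (im_unc hf hs hμ a.1 b)⟩
    rcases im_ag hμ a with ⟨v, b⟩ | b <;> exact b.1
  have a3 : npe μ univ = 2 * (B.filter fun j => ∃ q z, P.OldP e ρ B g j q z).card := by
    have b1 : (univ.filter fun v : V => vx v ∈ (univ : Finset (Nd J V)) ∧
        ∃ u, u ≠ v ∧ μ (vx v) = vx u) =
        (B.filter fun j => ∃ q z, P.OldP e ρ B g j q z).biUnion fun j => (g j).its := by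
      ext v
      simp only [mem_filter, mem_univ, true_and, mem_biUnion]
      constructor
      · rintro ⟨u, n, a⟩
        obtain ⟨j, b⟩ := (hμ.2 _ _ (by simpa using n.symm)).1 a
        obtain ⟨b1, b2, b3⟩ := oldP_any b
        exact ⟨j, ⟨b1, b3⟩, by rw [b2]; simp⟩
      · rintro ⟨j, ⟨-, q, z, b⟩, c⟩
        have n := (oldP_pr h b).1
        rw [oldP_mem b, mem_insert, mem_singleton] at c
        rcases c with rfl | rfl
        · exact ⟨z, n.symm, (im_P h hμ b).2.1⟩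
        · exact ⟨q, n, (im_P h hμ b).2.2⟩
    unfold npe
    rw [b1, card_biUnion fun i hi j hj hne =>
      h.dis i (mem_filter.1 hi).1 j (mem_filter.1 hj).1 hne, mul_comm, ← smul_eq_mul, ← sum_const]
    refine sum_congr rfl fun j hj => ?_
    obtain ⟨q, z, b⟩ := (mem_filter.1 hj).2
    rw [oldP_mem b, card_pair (oldP_pr h b).1]
  have a4 := card_filter_add_card_filter_not (s := B) (fun j => ∃ q z, P.OldP e ρ B g j q z)
  rw [a2] at a1
  omega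

theorem im_cw (hw : P.Wf S) (h : P.PSt S B g) (hs : P.Simple e ρ Y B g)
    (hμ : P.IsImg e ρ B g μ) : use B (fun j => (g j).its) + cw S μ = 2 * B.card := by
  have a1 : cw S μ = (B.filter fun j => ∃ c, g j = Sv.one c).card := by
    unfold cw
    congr 1
    ext j
    simp only [mem_filter, mem_univ, true_and]
    constructor
    · rintro ⟨v, a, b⟩
      have c : P.OldA e ρ B g j v := (hμ.2 _ _ (by simp)).1 a
      refine ⟨c.1, ?_⟩
      rcases c.2 with d | ⟨x, y, o, d, -, -, rfl, -⟩ | ⟨y, k, d, -⟩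
      · exact ⟨v, d⟩
      · exact ((two_or h c.1 d o).2.1 ((hw.1 j (two_gen h c.1 d).1 _).1 b)).elim
      · exact ((two_gen h c.1 d).2.2.1 ((hw.1 j (two_gen h c.1 d).1 _).1 b)).elim
    · rintro ⟨a, c, b⟩
      have n := h.nrm j a
      rw [b] at n
      exact ⟨c, im_A hμ ⟨a, Or.inl b⟩, n⟩
  rw [a1, card_filter]
  unfold use
  rw [← sum_add_distrib, mul_comm, ← smul_eq_mul, ← sum_const]
  refine sum_congr rfl fun j hj => ?_
  rcases hs j hj with ⟨c, a⟩ | ⟨x, y, a, -⟩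
  · beta_reduce
    rw [if_pos ⟨c, a⟩, a]; simp [Sv.its]
  · have n := (two_gen h hj a).2.1.1
    beta_reduce
    rw [if_neg (by rw [a]; simp), a]
    exact card_pair n

end Img

/-! ### Necessity -/

/-- Number of hidden items of the class `nf` of one service. -/
noncomputable def hc (P : G3 J V K) (e : ℕ) (ρ : Finset V) (nf : V → Prop) (g : J → Sv V)
    (j : J) : ℕ := ((g j).its.filter fun v => nf v ∧ Hid P e ρ g j v).card

theorem unf_eq (hf : P.Frame e ρ) {Ω : Finset J} (hB : Ω ⊆ S.A)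
    (st' : P.PSt (S.rem Ω (itsB Ω g)) (S.A \ Ω) g) (si : P.Simple e ρ Y (S.A \ Ω) g)
    {μ : Nd J V → Nd J V} (hμ : P.IsImg e ρ (S.A \ Ω) g μ) :
    unf (S.W \ itsB Ω g) Y.nf μ =
      frn S.W Y.nf S.A (fun j => (g j).its) + ∑ j ∈ S.A \ Ω, hc P e ρ Y.nf g j := by
  unfold unf frn hc
  rw [← card_biUnion fun i hi j hj hne => disjoint_filter_filter (st'.dis i hi j hj hne),
    ← card_union_of_disjoint]
  · congr 1
    ext v
    simp only [mem_filter, mem_union, mem_biUnion]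
    constructor
    · rintro ⟨a, b, c⟩
      by_cases d : ∀ j ∈ S.A, v ∉ (g j).its
      · exact Or.inl ⟨(mem_sdiff.1 a).1, b, d⟩
      · push Not at d
        obtain ⟨j, hj, d⟩ := d
        have f : j ∈ S.A \ Ω :=
          mem_sdiff.2 ⟨hj, fun k => (mem_sdiff.1 a).2 (mem_biUnion.2 ⟨j, k, d⟩)⟩
        exact Or.inr ⟨j, f, d, b, hid_of hf st' si hμ f d c⟩
    · rintro (⟨a, b, c⟩ | ⟨j, a, b, c, d⟩)
      · refine ⟨mem_sdiff.2 ⟨a, fun k => ?_⟩, b, im_out hμ fun k => ?_⟩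
        · obtain ⟨j, hj, k⟩ := mem_biUnion.1 k
          exact c j (hB hj) k
        · obtain ⟨j, hj, k⟩ := mem_biUnion.1 k
          exact c j (mem_sdiff.1 hj).1 k
      · exact ⟨st'.inW j a b, c, of_hid st' hμ a b d⟩
  · refine disjoint_left.2 fun v a b => ?_
    obtain ⟨j, hj, c⟩ := mem_biUnion.1 b
    exact (mem_filter.1 a).2.2 j (mem_sdiff.1 hj).1 (mem_filter.1 c).1

/-- One more installed pair repairs the parity. -/
theorem fix_par (P : G3 J V K) (e : ℕ) (ρ : Finset V) (nf : V → Prop) (g : J → Sv V)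
    (A Ω : Finset J) : ∃ D : Finset J, D.card ≤ 1 ∧ (∀ j ∈ D, j ∈ A ∧ ∃ a b, g j = Sv.two a b) ∧
      (∑ j ∈ A \ (Ω ∪ D), hc P e ρ nf g j) % 2 = 0 := by
  by_cases h : (∑ j ∈ A \ Ω, hc P e ρ nf g j) % 2 = 0
  · exact ⟨∅, by simp, by simp, by rwa [union_empty]⟩
  obtain ⟨j, hj, a⟩ : ∃ j ∈ A \ Ω, hc P e ρ nf g j % 2 = 1 := by
    by_contra hn
    push Not at hn
    refine h (Nat.even_iff.1 (even_sum _ fun j hj => Nat.even_iff.2 ?_))
    have := hn j hj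
    omega
  refine ⟨{j}, by simp, fun i hi => ?_, ?_⟩
  · rw [mem_singleton.1 hi]
    refine ⟨(mem_sdiff.1 hj).1, ?_⟩
    have b : 0 < hc P e ρ nf g j := by omega
    obtain ⟨v, c⟩ := card_pos.1 b
    obtain ⟨x, y, d, -⟩ := (mem_filter.1 c).2.2
    exact ⟨x, y, d⟩
  · have b : A \ (Ω ∪ {j}) = (A \ Ω).erase j := by
      ext i
      simp only [mem_sdiff, mem_union, mem_singleton, mem_erase]
      tauto
    have c := add_sum_erase (A \ Ω) (hc P e ρ nf g) hj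
    rw [b]
    omega

theorem gam_ok (h : P.PSt S B g) {Ω : Finset J} (hB : Ω ⊆ B) :
    P.SgOk S (DImg.Gam P.base e ρ g Ω) := by
  refine ⟨fun s hs => ?_, fun s hs t ht hne => ?_⟩
  · obtain ⟨-, hj, a, b, c, d, f⟩ := mem_filter.1 hs
    obtain ⟨f1, -, f7, f8⟩ := two_or h (hB hj) c (DImg.ori P.base e ρ g s.1)
    rw [d, f]
    exact ⟨h.sub (hB hj), (two_gen h (hB hj) c).1, f8, f7, f1⟩
  · have n : s.1 ≠ t.1 := fun k => hne (DImg.gam_inj hs ht k)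
    refine ⟨n, ?_⟩
    rw [← DImg.gam_its hs, ← DImg.gam_its ht]
    exact h.dis _ (hB (mem_filter.1 hs).2.1) _ (hB (mem_filter.1 ht).2.1) n

theorem pass_of (hw : P.Wf S) (hf : P.Frame e ρ) {l : ℕ} (st : P.PSt S S.A g) (nt : NoTri S.A g)
    (hu : use S.A (fun j => (g j).its) + l ≤ S.W.card)
    (hk : ∀ j ∈ S.A, ∀ a b k, g j = Sv.two a b → P.rigm e ρ j k → ¬ P.adt j k a)
    (hy : ∀ j ∈ S.A, ¬ P.mu j → ∀ a b, g j = Sv.two a b → (Y.nf a ↔ Y.pn) ∧ (Y.nf b ↔ Y.pn))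
    (hp : frn S.W Y.nf S.A (fun j => (g j).its) % 2 = Y.tg % 2)
    {Ω : Finset J} (hB : Ω ⊆ S.A) (hΩ : ∀ j ∈ Ω, ∃ a b, g j = Sv.two a b)
    (hb : ∀ j ∈ S.A, (∃ a b, g j = Sv.two a b) → P.blind e ρ j → j ∈ Ω) {X : Ax J V}
    (h1 : ∀ j ∈ S.A, j ∉ Ω → NC P e ρ g j → X.nc)
    (h2 : ∀ j q z, j ∉ Ω → P.OldP e ρ S.A g j q z → X.pe ∧ ¬ X.zs z ∧ ¬ X.mc j)
    (h3 : (∑ j ∈ S.A \ Ω, hc P e ρ Y.nf g j) % 2 = 0) :
    P.Pass (S.rem (ag2 (DImg.Gam P.base e ρ g Ω)) (it2 (DImg.Gam P.base e ρ g Ω))) e ρ X Y l := by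
  rw [DImg.gam_ag hΩ, DImg.gam_it hΩ]
  have st' : P.PSt (S.rem Ω (itsB Ω g)) (S.A \ Ω) g :=
    ⟨Subset.rfl, fun j hj v hv => mem_sdiff.2 ⟨st.inW j (mem_sdiff.1 hj).1 hv, fun a => by
        obtain ⟨i, a1, a2⟩ := mem_biUnion.1 a
        exact (mem_sdiff.1 hj).2 (own_eq st (hB a1) (mem_sdiff.1 hj).1 a2 hv ▸ a1)⟩,
      fun j hj => by
        have := st.nrm j (mem_sdiff.1 hj).1
        rcases hg : g j with _ | c | ⟨x, y⟩ | ⟨x, z, y⟩ <;> rw [hg] at this <;> exact this,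
      fun i hi j hj => st.dis i (mem_sdiff.1 hi).1 j (mem_sdiff.1 hj).1⟩
  have si : P.Simple e ρ Y (S.A \ Ω) g := fun j hj => by
    have hjA := (mem_sdiff.1 hj).1
    have b := st.nrm j hjA
    rcases hg : g j with _ | c | ⟨x, y⟩ | ⟨x, z, y⟩
    · rw [hg] at b; exact b.elim
    · exact Or.inl ⟨c, rfl⟩
    · refine Or.inr ⟨x, y, rfl, fun c => (mem_sdiff.1 hj).2 (hb j hjA ⟨x, y, hg⟩ c),
        fun k r => hk j hjA x y k hg r, ?_⟩
      by_cases m : P.mu j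
      · exact Or.inl m
      · have := hy j hjA m x y hg
        tauto
    · exact (nt j hjA x z y hg).elim
  obtain ⟨μ, hμ⟩ : ∃ μ, P.IsImg e ρ (S.A \ Ω) g μ :=
    DImg.exists_inv _ (fun _ _ => old_symm) (old_fun st')
  have up : ∀ {j q z}, P.OldP e ρ (S.A \ Ω) g j q z → X.pe ∧ ¬ X.zs z ∧ ¬ X.mc j := fun a =>
    h2 _ _ _ (mem_sdiff.1 a.1).2 ⟨(mem_sdiff.1 a.1).1, a.2⟩
  have cw' := im_cw (S := S.rem Ω (itsB Ω g)) hw st' si hμ
  refine ⟨μ, ⟨hμ.1, fun x hx => old_En hf st' si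
      (fun j hj => h1 j (mem_sdiff.1 hj).1 (mem_sdiff.1 hj).2)
      (fun j q z a => ⟨(up a).1, (up a).2.1⟩) (im_old hμ hx)⟩,
    im_cov hf st' si hμ, ?_, fun j hj a b => ?_, ?_⟩
  · have a1 : use S.A (fun j => (g j).its) =
        use (S.A \ Ω) (fun j => (g j).its) + use Ω fun j => (g j).its := (sum_sdiff hB).symm
    have a2 : (itsB Ω g).card = use Ω fun j => (g j).its :=
      card_biUnion fun i hi j hj hne => st.dis i (hB hi) j (hB hj) hne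
    have a3 : (S.W \ itsB Ω g).card + (itsB Ω g).card = S.W.card :=
      card_sdiff_add_card_eq_card (biUnion_subset.2 fun j hj => st.inW j (hB hj))
    have a4 : (S.rem Ω (itsB Ω g)).A.card = (S.A \ Ω).card := rfl
    have a5 : (S.rem Ω (itsB Ω g)).W.card = (S.W \ itsB Ω g).card := rfl
    omega
  · obtain ⟨q, z, c⟩ := im_unc hf si hμ hj b
    exact a.elim (fun k => k (oldP_geo hf st' c).2.2.2.1) (up c).2.2
  · have a1 := unf_eq hf hB st' si hμ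
    have a2 : unf (S.rem Ω (itsB Ω g)).W Y.nf μ = unf (S.W \ itsB Ω g) Y.nf μ := rfl
    omega

theorem gam_P {Ω : Finset J} {j : J} (hj : j ∈ Ω) {q z : V} (a : P.OldP e ρ B g j q z) :
    (j, q, z) ∈ DImg.Gam P.base e ρ g Ω :=
  DImg.gam_P (B := B) hj ⟨a.1, a.2.2⟩

theorem nf_or (hy : ∀ j ∈ B, ¬ P.mu j → ∀ a b, g j = Sv.two a b →
    (Y.nf a ↔ Y.pn) ∧ (Y.nf b ↔ Y.pn)) {j : J} (hj : j ∈ B) (m : ¬ P.mu j) {a b : V}
    (c : g j = Sv.two a b) (o : Bool) : (Y.nf (mi o a b) ↔ Y.pn) ∧ (Y.nf (ma o a b) ↔ Y.pn) := by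
  cases o
  · exact hy j hj m a b c
  · exact (hy j hj m a b c).symm

theorem witP_of (hf : P.Frame e ρ) (h : P.PSt S B g)
    (hy : ∀ j ∈ B, ¬ P.mu j → ∀ a b, g j = Sv.two a b → (Y.nf a ↔ Y.pn) ∧ (Y.nf b ↔ Y.pn))
    {j : J} {q z : V} (a : P.OldP e ρ B g j q z) : P.WitP e ρ Y (j, q, z) := by
  have f := (oldP_geo hf h a).1
  obtain ⟨hj, m, x, y, o, c, r, rfl, rfl, k⟩ := a
  obtain ⟨f2, f3, -⟩ := two_facts h hj m c o
  exact ⟨m, ⟨o, r, f, f2, f3⟩, nf_or hy hj m c o⟩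

theorem gam_N (h : P.PSt S B g)
    (hy : ∀ j ∈ B, ¬ P.mu j → ∀ a b, g j = Sv.two a b → (Y.nf a ↔ Y.pn) ∧ (Y.nf b ↔ Y.pn))
    {Ω : Finset J} {j : J} (hj : j ∈ Ω) (hB : j ∈ B) (a : NC P e ρ g j) :
    ∃ s ∈ DImg.Gam P.base e ρ g Ω, s.1 = j ∧ P.WitN e ρ Y s := by
  obtain ⟨m, x, y, o, c, r, k⟩ := a
  have d := DImg.gam_mem (P := P.base) (e := e) (ρ := ρ) hj c
  rw [(DImg.ori_spec c r).2 k] at d
  exact ⟨_, d, rfl, m, ⟨o, r, (two_facts h hB m c o).1, k⟩, (nf_or hy hB m c o).symm⟩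

/-- Necessity for a state whose rigid multiple pairs start with a key. -/
theorem nec_of (hw : P.Wf S) (fr : P.Frame e ρ) {l : ℕ} (st : P.PSt S S.A g) (nt : NoTri S.A g)
    (hu : use S.A (fun j => (g j).its) + l ≤ S.W.card)
    (hk : ∀ j ∈ S.A, ∀ a b k, g j = Sv.two a b → P.rigm e ρ j k → ¬ P.adt j k a)
    (hy : ∀ j ∈ S.A, ¬ P.mu j → ∀ a b, g j = Sv.two a b → (Y.nf a ↔ Y.pn) ∧ (Y.nf b ↔ Y.pn))
    (hp : frn S.W Y.nf S.A (fun j => (g j).its) % 2 = Y.tg % 2)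
    (n8 : ∀ i ∈ S.A, ∀ j ∈ S.A, ∀ a b a' b', g i = Sv.two a b → g j = Sv.two a' b' →
      P.blind e ρ i → P.blind e ρ j → i = j) : P.TestF S e l Y ρ := by
  set BL := S.A.filter fun j => (∃ a b, g j = Sv.two a b) ∧ P.blind e ρ j with hBL
  set PE := S.A.filter fun j => ∃ q z, P.OldP e ρ S.A g j q z with hPE
  set NE := S.A.filter fun j => NC P e ρ g j with hNE
  have cB : BL.card ≤ 1 := card_le_one.2 fun i hi j hj => by
    obtain ⟨a1, ⟨a, b, a2⟩, a3⟩ := mem_filter.1 hi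
    obtain ⟨b1, ⟨a', b', b2⟩, b3⟩ := mem_filter.1 hj
    exact n8 i a1 j b1 a b a' b' a2 b2 a3 b3
  have tB : ∀ j ∈ BL, j ∈ S.A ∧ ∃ a b, g j = Sv.two a b := fun j hj =>
    ⟨(mem_filter.1 hj).1, (mem_filter.1 hj).2.1⟩
  have tP : ∀ j ∈ PE, j ∈ S.A ∧ ∃ a b, g j = Sv.two a b := fun j hj => by
    obtain ⟨a, q, z, -, -, x, y, o, c, -⟩ := mem_filter.1 hj
    exact ⟨a, x, y, c⟩
  have tN : ∀ j ∈ NE, j ∈ S.A ∧ ∃ a b, g j = Sv.two a b := fun j hj => by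
    obtain ⟨a, -, x, y, o, c, -⟩ := mem_filter.1 hj
    exact ⟨a, x, y, c⟩
  have inP : ∀ j q z, P.OldP e ρ S.A g j q z → j ∈ PE := fun j q z a =>
    mem_filter.2 ⟨a.1, q, z, a⟩
  have main : ∀ (Ω : Finset J) (X : Ax J V), Ω ⊆ PE ∪ NE → Ω.card ≤ 4 →
      (∀ j ∈ S.A, j ∉ Ω → NC P e ρ g j → X.nc) →
      (∀ j q z, j ∉ Ω → P.OldP e ρ S.A g j q z → X.pe ∧ ¬ X.zs z ∧ ¬ X.mc j) →
      ∃ Ω', Ω ⊆ Ω' ∧ (DImg.Gam P.base e ρ g Ω').card ≤ 6 ∧ P.SgOk S (DImg.Gam P.base e ρ g Ω') ∧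
        P.Pass (S.rem (ag2 (DImg.Gam P.base e ρ g Ω')) (it2 (DImg.Gam P.base e ρ g Ω')))
          e ρ X Y l :=
    fun Ω X a a' b c => by
      obtain ⟨D, d1, d2, d3⟩ := fix_par P e ρ Y.nf g S.A (Ω ∪ BL)
      have t : ∀ j ∈ Ω ∪ BL ∪ D, j ∈ S.A ∧ ∃ a b, g j = Sv.two a b := fun j hj =>
        (mem_union.1 hj).elim (fun hj => (mem_union.1 hj).elim
          (fun k => (mem_union.1 (a k)).elim (tP j) (tN j)) (tB j)) (d2 j)
      have u : Ω ⊆ Ω ∪ BL ∪ D := subset_union_left.trans subset_union_left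
      exact ⟨Ω ∪ BL ∪ D, u, (DImg.gam_card _).trans (DImg.card_un (DImg.card_un a' cB) d1),
        gam_ok st fun j hj => (t j hj).1, pass_of hw fr st nt hu hk hy hp (fun j hj => (t j hj).1)
        (fun j hj => (t j hj).2)
        (fun j hj k k' => mem_union_left _ (mem_union_right _ (mem_filter.2 ⟨hj, k, k'⟩)))
        (fun j hj k => b j hj fun k' => k (u k')) (fun j q z k => c j q z fun k' => k (u k')) d3⟩
  by_cases hP : 1 < PE.card
  · obtain ⟨j1, m1, j2, m2, hne⟩ := one_lt_card.1 hP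
    obtain ⟨q1, z1, o1⟩ := (mem_filter.1 m1).2
    obtain ⟨q2, z2, o2⟩ := (mem_filter.1 m2).2
    obtain ⟨-, -, -, ⟨-, -, p1, r1⟩, -⟩ := oldP_geo fr st o1
    obtain ⟨-, -, -, ⟨-, -, p2, r2⟩, -⟩ := oldP_geo fr st o2
    have nz : z1 ≠ z2 := fun k => hne (own_eq st o1.1 o2.1 (v := z1) (by rw [oldP_mem o1]; simp)
      (by rw [oldP_mem o2, k]; simp))
    set O1 := PE.filter fun j => ∃ q z, P.OldP e ρ S.A g j q z ∧ P.junk j1 z ∧ P.junk j2 z with hO1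
    set O2 := PE.filter fun j => P.junk j z1 ∧ P.junk j z2 with hO2
    have c1 : O1.card ≤ 1 := card_le_one.2 fun i hi j hj => by
      obtain ⟨-, q, z, a, b, c⟩ := mem_filter.1 hi
      obtain ⟨-, q', z', a', b', c'⟩ := mem_filter.1 hj
      cases Geo.rig_junk fr hne r1 r2 b b' c c'
      exact own_eq st a.1 a'.1 (v := z) (by rw [oldP_mem a]; simp) (by rw [oldP_mem a']; simp)
    have c2 : O2.card ≤ 1 := card_le_one.2 fun i hi j hj => by
      obtain ⟨a, b, c⟩ := mem_filter.1 hi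
      obtain ⟨a', b', c'⟩ := mem_filter.1 hj
      obtain ⟨q, z, d⟩ := (mem_filter.1 a).2
      obtain ⟨q', z', d'⟩ := (mem_filter.1 a').2
      obtain ⟨-, -, -, ⟨-, -, p, r⟩, -⟩ := oldP_geo fr st d
      obtain ⟨-, -, -, ⟨-, -, p', r'⟩, -⟩ := oldP_geo fr st d'
      by_contra hn
      exact nz (Geo.rig_junk fr hn r r' b c b' c')
    obtain ⟨Ω, u, k0, k1, k2⟩ := main ({j1, j2} ∪ O1 ∪ O2) (P.base.axW (j1, q1, z1) (j2, q2, z2))
      (subset_union_left.trans' (union_subset (union_subset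
        (insert_subset m1 (singleton_subset_iff.2 m2)) (filter_subset _ _)) (filter_subset _ _)))
      (DImg.card_un (DImg.card_un card_le_two c1) c2)
      (fun _ _ _ _ => trivial) fun j q z a b => ⟨trivial,
        fun c => a (mem_union_left _ (mem_union_right _ (mem_filter.2 ⟨inP _ _ _ b, q, z, b, c⟩))),
        fun c => a (mem_union_right _ (mem_filter.2 ⟨inP _ _ _ b, c⟩))⟩
    exact ⟨_, k0, k1, Or.inl ⟨_, gam_P (u (by simp)) o1, _, gam_P (u (by simp)) o2,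
      fun k => hne (congrArg Prod.fst k), witP_of fr st hy o1, witP_of fr st hy o2, k2⟩⟩
  have cP : PE.card ≤ 1 := by omega
  by_cases hC : 1 < NE.card
  · obtain ⟨j1, m1, j2, m2, hne⟩ := one_lt_card.1 hC
    obtain ⟨Ω, u, k0, k1, k2⟩ := main (PE ∪ {j1, j2}) (axN J V)
      (union_subset_union Subset.rfl (insert_subset m1 (singleton_subset_iff.2 m2)))
      ((DImg.card_un cP card_le_two).trans (by omega))
      (fun _ _ _ _ => trivial) fun j q z a b => (a (mem_union_left _ (inP _ _ _ b))).elim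
    obtain ⟨s1, a1, a2, a3⟩ := gam_N (Ω := Ω) st hy (u (by simp)) (mem_filter.1 m1).1
      (mem_filter.1 m1).2
    obtain ⟨s2, b1, b2, b3⟩ := gam_N (Ω := Ω) st hy (u (by simp)) (mem_filter.1 m2).1
      (mem_filter.1 m2).2
    exact ⟨_, k0, k1,
      Or.inr (Or.inl ⟨s1, a1, s2, b1, fun k => hne (by rw [← a2, ← b2, k]), a3, b3, k2⟩)⟩
  · obtain ⟨Ω, -, k0, k1, k2⟩ := main (PE ∪ NE) (axC J V) Subset.rfl
      ((DImg.card_un cP (show NE.card ≤ 1 by omega)).trans (by omega))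
      (fun j hj a b => (a (mem_union_right _ (mem_filter.2 ⟨hj, b⟩))).elim)
      fun j q z a b => (a (mem_union_left _ (inP _ _ _ b))).elim
    exact ⟨_, k0, k1, Or.inr (Or.inr k2)⟩

end EImg

open Finset Classical D2 G3 EImg in
theorem imgS : ImgS := by
  intro J V K _ _ _ _ _ _ P S e ρ Y B g hw hf h hs
  refine ⟨DImg.exists_inv _ (fun _ _ => old_symm) (old_fun h), fun μ hμ => ⟨im_M hf h hs hμ,
    im_cov hf h hs hμ, im_cw hw h hs hμ, fun j hj a b => ?_, fun j hj => ⟨?_, ?_⟩,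
    fun v hv => im_out hμ hv, fun j hj v a => ?_, fun j q z a => ?_,
    fun j hj a => im_unc hf hs hμ hj a, fun q z n a b => ?_, fun j hj v hv a => ?_,
    fun hG j hj v hv a => ?_⟩⟩
  · obtain ⟨q, z, c⟩ := im_unc hf hs hμ hj b
    exact a (oldP_geo hf h c).2.2.2.1
  · by_contra a
    rcases im_ag hμ a with ⟨v, b⟩ | b <;> exact hj b.1
  · by_contra a
    have b := im_old hμ a
    rcases hy : μ (dm j) with i | u | i <;> rw [hy] at b
    · exact hj (b.1 ▸ b.2.1)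
    · exact b
    · exact b
  · exact ⟨im_A' hμ ⟨hj, Or.inl a⟩, im_A hμ ⟨hj, Or.inl a⟩⟩
  · obtain ⟨-, -, -, f2, f4, -⟩ := oldP_geo hf h a
    exact ⟨oldP_pe hf h hs a, f2, oldP_pr h a, f4, oldP_mem a, (im_P h hμ a).1, (im_P h hμ a).2.1⟩
  · obtain ⟨j, c | c⟩ := (hμ.2 _ _ (by simpa using n)).1 a
    · exact ⟨j, c⟩
    · exact ((oldP_geo hf h c).2.1 b.2).elim
  · obtain ⟨x, y, d, ⟨f, -⟩ | ⟨o, m, r, k, rfl⟩ | ⟨k, r, rfl⟩⟩ := hid_of hf h hs hμ hj hv a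
    · exact Or.inl (im_D hμ ⟨hj, ⟨x, y, d⟩, f⟩)
    · exact Or.inr (Or.inl ⟨fun k' => Geo.Q0_not_adj hf r.1 k' (two_facts h hj m d o).2.1.1, _,
        im_A hμ ⟨hj, Or.inr (Or.inl ⟨x, y, o, d, m, r, rfl, k⟩)⟩, nc_of h hs hj m d r k⟩)
    · exact Or.inr (Or.inr ⟨x, k, d, r, im_A hμ ⟨hj, Or.inr (Or.inr ⟨_, k, d, r⟩)⟩⟩)
  · obtain ⟨x, y, d, f⟩ := hid_of hf h hs hμ hj hv a
    obtain ⟨-, g2, g3, g4⟩ := hG j hj x y d (si_two hs hj d).1
    obtain ⟨f, rfl | rfl⟩ | ⟨o, m, r, k, rfl⟩ | ⟨k, r, rfl⟩ := f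
    · exact (g2 f).1
    · exact (g2 f).2
    · exact g3 o m r k
    · exact (g4 k r).2

open Finset Classical D2 G3 EImg in
theorem necS (hN : NormS) : NecS := by
  intro J V K _ _ _ _ _ _ P S e l Y g hw hg hu hy hp ρ fr _
  obtain ⟨-, -, -, -, -, -, -, n8, -, n10⟩ := hN J V K P S S.A hw
  obtain ⟨g', st, h1, h2⟩ := n10 g e ρ Y.nf fr hg.1
  have e1 : (fun j => (g' j).its) = fun j => (g j).its := funext fun j => by
    rcases h1 j with a | ⟨-, a, b, c, d⟩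
    · rw [a]
    · rw [c, d]; exact pair_comm _ _
  have tw : ∀ j a b, g' j = Sv.two a b → ∃ a b, g j = Sv.two a b := fun j a b c => by
    rcases h1 j with d | ⟨-, x, y, d, -⟩
    · exact ⟨a, b, d ▸ c⟩
    · exact ⟨x, y, d⟩
  refine nec_of (g := g') hw fr st (fun j hj a z b c => ?_) (e1 ▸ hu)
    (fun j hj a b k c r => (h2 j hj a b k c r).1) (fun j hj m a b c => ?_) (e1 ▸ hp)
    fun i hi j hj a b a' b' c d => ?_
  · rcases h1 j with d | ⟨-, x, y, -, d⟩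
    · exact hg.2.1 j hj a z b (d ▸ c)
    · rw [d] at c; cases c
  · exact hy j hj m a b (((h1 j).resolve_right fun k => m k.1) ▸ c)
  · obtain ⟨x, y, c'⟩ := tw i a b c
    obtain ⟨x', y', d'⟩ := tw j a' b' d
    exact n8 g e ρ fr (Or.inr hg) i hi j hj x y x' y' c' d'

end Pool.Agent.Lib.MP_ef7581_lc.D3
end
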