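import Mathlib
import Pool.Agent.Lib.MP_ef7581_lc.EGeo
import Pool.Agent.Lib.MP_ef7581_lc.DJump

/-!
The general jump step of the slack theorem for agents with several terminals.
-/

set_option autoImplicit false
set_option linter.unusedSectionVars false

namespace Pool.Agent.Lib.MP_ef7581_lc.D3

namespace EJump

open Finset Classical D2 G3
open D2.DJump (pr mem_ag2 mem_it2 it2_l it2_r ag2_of card_ag2 card_it2_le card_it2 dis2_insert
  ag2_insert it2_insert it2_mono ag2_mono mem_itsB card_its card_itsB card_new pick set1 set2 ax2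
  two_thirds exists_not)

variable {J V TK : Type} [Fintype J] [Fintype V] [Fintype TK] [DecidableEq J] [DecidableEq V]
  [DecidableEq TK]

/-- The outcome of the jump. -/
def Res (P : G3 J V TK) (S : Sub J V) (Y : Px V) (l : ℕ) : Prop :=
  ∃ f, St S (P.Serv3 S) S.A f ∧ use S.A f + l ≤ S.W.card ∧
    (frn S.W Y.nf S.A f % 2 = Y.tg % 2 ∨ P.Exc S Y S.A f)

variable {P : G3 J V TK} {Y : Px V}

/-- Adding the installed services to a state of the remaining instance. -/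
theorem glue {S : Sub J V} {Γ Hh : Finset (J × V × V)} {D : Finset V} {l : ℕ}
    {f : J → Finset V} (hw : P.Wf S) (hd : Dis2 Γ) (hA : ag2 Γ ⊆ S.A) (hW : it2 Γ ⊆ S.W)
    (hD : D ⊆ S.W) (hDd : Disjoint D (it2 Γ)) (hH : Hh ⊆ Γ)
    (hs : ∀ s ∈ Γ, s ∉ Hh → P.Serv3 S s.1 (pr s))
    (h : St ((S.rem (ag2 Γ) (it2 Γ ∪ D)).add (ag2 Hh) (it2 Hh)) (P.Serv3 S)
      ((S.A \ ag2 Γ) ∪ ag2 Hh) f)
    (hu : use ((S.A \ ag2 Γ) ∪ ag2 Hh) f + l ≤
      (S.W \ (it2 Γ ∪ D)).card + (it2 Hh).card + D.card)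
    (hDe : (D.filter Y.nf).card % 2 = 0)
    (hp : frn ((S.W \ (it2 Γ ∪ D)) ∪ it2 Hh) Y.nf ((S.A \ ag2 Γ) ∪ ag2 Hh) f % 2 = Y.tg % 2 ∨
      P.Exc S Y ((S.A \ ag2 Γ) ∪ ag2 Hh) f) : Res P S Y l := by
  set B1 := (S.A \ ag2 Γ) ∪ ag2 Hh with hB1
  set W1 := (S.W \ (it2 Γ ∪ D)) ∪ it2 Hh with hW1
  have hin : ∀ j ∈ B1, f j ⊆ W1 := h.inW
  have hout : ∀ j ∈ S.A, j ∉ B1 → ∃ s ∈ Γ, s ∉ Hh ∧ s.1 = j := fun j hj hn => by
    rw [hB1, mem_union, mem_sdiff, not_or] at hn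
    obtain ⟨s, a, e⟩ := mem_ag2.1 (by tauto : j ∈ ag2 Γ)
    exact ⟨s, a, fun b => hn.2 (e ▸ ag2_of b), e⟩
  have hout' : ∀ s ∈ Γ, s ∉ Hh → s.1 ∉ B1 := fun s a b c => by
    rcases mem_union.1 c with d | d
    · exact (mem_sdiff.1 d).2 (ag2_of a)
    · obtain ⟨t, k1, k2⟩ := mem_ag2.1 d
      exact b (DJump.Dis2.eq_of hd (hH k1) a k2 ▸ k1)
  let f2 : J → Finset V := fun j => it2 (Γ.filter fun s => s.1 = j)
  have hf2 : ∀ s ∈ Γ, f2 s.1 = pr s := fun s hs => by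
    have : (Γ.filter fun t => t.1 = s.1) = {s} := by
      ext t
      simp only [mem_filter, mem_singleton]
      exact ⟨fun a => DJump.Dis2.eq_of hd a.1 hs a.2, fun a => by subst a; exact ⟨hs, rfl⟩⟩
    simp only [f2, this, it2, singleton_biUnion]
  have hprW : ∀ s ∈ Γ, s ∉ Hh → Disjoint W1 (pr s) := fun s hs hn =>
    disjoint_left.2 fun v hv hv' => by
      rcases mem_union.1 hv with a | a
      · exact (mem_sdiff.1 a).2 (mem_union_left _ (mem_it2.2 ⟨s, hs, hv'⟩))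
      · obtain ⟨t, ht, b⟩ := mem_it2.1 a
        exact disjoint_left.1 (hd t (hH ht) s hs fun e => hn (e ▸ ht)).2 b hv'
  have hW1W : W1 ⊆ S.W := union_subset sdiff_subset ((it2_mono hH).trans hW)
  have hB : B1 ⊆ S.A := union_subset sdiff_subset ((ag2_mono hH).trans hA)
  have hDW : Disjoint W1 D := disjoint_left.2 fun v hv a => by
    rcases mem_union.1 hv with b | b
    · exact (mem_sdiff.1 b).2 (mem_union_right _ a)
    · exact disjoint_left.1 hDd a (it2_mono hH b)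
  let F : J → Finset V := fun j => if j ∈ B1 then f j else f2 j
  have hst : St S (P.Serv3 S) S.A F := by
    refine ⟨Subset.rfl, fun j hj => ?_, fun j hj => ?_, fun i hi j hj hne => ?_,
      fun v _ hm => (hw.2 v hm).elim⟩
    · by_cases a : j ∈ B1
      · simp only [F, if_pos a]; exact (hin j a).trans hW1W
      · obtain ⟨s, b, -, rfl⟩ := hout j hj a
        simp only [F, if_neg a, hf2 s b]
        exact fun v hv => hW (mem_it2.2 ⟨s, b, hv⟩)
    · by_cases a : j ∈ B1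
      · simp only [F, if_pos a]; exact h.srv j a
      · obtain ⟨s, b, c, rfl⟩ := hout j hj a
        simp only [F, if_neg a, hf2 s b]
        exact hs s b c
    · by_cases a : i ∈ B1 <;> by_cases a' : j ∈ B1
      · simp only [F, if_pos a, if_pos a']; exact h.dis i a j a' hne
      · obtain ⟨s, b, c, rfl⟩ := hout j hj a'
        simp only [F, if_pos a, if_neg a', hf2 s b]
        exact (hprW s b c).mono_left (hin i a)
      · obtain ⟨s, b, c, rfl⟩ := hout i hi a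
        simp only [F, if_neg a, if_pos a', hf2 s b]
        exact ((hprW s b c).mono_left (hin j a')).symm
      · obtain ⟨s, b, c, rfl⟩ := hout i hi a
        obtain ⟨s', b', c', rfl⟩ := hout j hj a'
        simp only [F, if_neg a, if_neg a', hf2 s b, hf2 s' b']
        exact (hd s b s' b' fun e => hne (e ▸ rfl)).2
  refine ⟨F, hst, ?_, hp.imp (fun k => ?_) fun k => ?_⟩
  · have e1 : use S.A F = use B1 f + ∑ j ∈ S.A \ B1, (F j).card := by
      unfold use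
      rw [← sum_sdiff hB, add_comm]
      congr 1
      exact sum_congr rfl fun j hj => by simp only [F, if_pos hj]
    have e2 : ∑ j ∈ S.A \ B1, (F j).card ≤ (it2 Γ \ it2 Hh).card := by
      rw [← card_biUnion fun i hi j hj hne =>
        hst.dis i (mem_sdiff.1 hi).1 j (mem_sdiff.1 hj).1 hne]
      refine card_le_card fun v hv => ?_
      obtain ⟨j, hj, a⟩ := mem_biUnion.1 hv
      obtain ⟨s, b, c, rfl⟩ := hout j (mem_sdiff.1 hj).1 (mem_sdiff.1 hj).2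
      simp only [F, if_neg (mem_sdiff.1 hj).2, hf2 s b] at a
      exact mem_sdiff.2 ⟨mem_it2.2 ⟨s, b, a⟩, fun d =>
        disjoint_left.1 (hprW s b c) (mem_union_right _ d) a⟩
    have e3 := card_sdiff_add_card_eq_card (it2_mono hH)
    have e4 := card_sdiff_add_card_eq_card (union_subset hW hD)
    have e5 := card_union_of_disjoint hDd.symm
    omega
  · have e1 : (S.W.filter fun v => Y.nf v ∧ ∀ j ∈ S.A, v ∉ F j) =
        (W1.filter fun v => Y.nf v ∧ ∀ j ∈ B1, v ∉ f j) ∪ D.filter Y.nf := by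
      ext v
      simp only [mem_union (s := W1.filter _), mem_filter]
      constructor
      · rintro ⟨a, b, c⟩
        by_cases d : v ∈ D
        · exact Or.inr ⟨d, b⟩
        refine Or.inl ⟨?_, b, fun j hj k => c j (hB hj) (by simp only [F, if_pos hj]; exact k)⟩
        by_cases d' : v ∈ it2 Γ
        · obtain ⟨s, k1, k2⟩ := mem_it2.1 d'
          by_cases k3 : s ∈ Hh
          · exact mem_union_right _ (mem_it2.2 ⟨s, k3, k2⟩)
          · exact (c s.1 (hA (ag2_of k1))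
              (by simp only [F, if_neg (hout' s k1 k3), hf2 s k1]; exact k2)).elim
        · exact mem_union_left _ (mem_sdiff.2 ⟨a, fun k => (mem_union.1 k).elim d' d⟩)
      · rintro (⟨a, b, c⟩ | ⟨a, b⟩)
        · refine ⟨hW1W a, b, fun j hj k => ?_⟩
          by_cases d : j ∈ B1
          · simp only [F, if_pos d] at k; exact c j d k
          · obtain ⟨s, k1, k2, rfl⟩ := hout j hj d
            simp only [F, if_neg d, hf2 s k1] at k
            exact disjoint_left.1 (hprW s k1 k2) a k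
        · refine ⟨hD a, b, fun j hj k => ?_⟩
          by_cases d : j ∈ B1
          · simp only [F, if_pos d] at k; exact disjoint_left.1 hDW (hin j d k) a
          · obtain ⟨s, k1, k2, rfl⟩ := hout j hj d
            simp only [F, if_neg d, hf2 s k1] at k
            exact disjoint_left.1 hDd a (mem_it2.2 ⟨s, k1, k⟩)
    have e2 : frn S.W Y.nf S.A F = frn W1 Y.nf B1 f + (D.filter Y.nf).card := by
      unfold frn
      rw [← card_union_of_disjoint (hDW.mono (filter_subset _ _) (filter_subset _ _))]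
      exact congrArg card e1
    omega
  · obtain ⟨k1, j, k2, k3, k4, a, b, k5, k6⟩ := k
    exact ⟨k1, j, hB k2, k3, k4, a, b, by simp only [F, if_pos k2]; exact k5, k6⟩

theorem even_pair {a b : V} (hne : a ≠ b) (ha : Y.nf a ↔ Y.pn) (hb : Y.nf b ↔ Y.pn) :
    (({a, b} : Finset V).filter Y.nf).card % 2 = 0 := by
  by_cases h : Y.pn
  · rw [filter_true_of_mem fun v hv => by
      rcases mem_insert.1 hv with k | k
      · exact k ▸ ha.2 h
      · exact mem_singleton.1 k ▸ hb.2 h, card_pair hne]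
  · rw [filter_false_of_mem fun v hv k' => by
      rcases mem_insert.1 hv with k | k
      · exact h (ha.1 (k ▸ k'))
      · exact h (hb.1 (mem_singleton.1 k ▸ k')), card_empty]

/-! ### The setting -/

/-- The data of the jump step. -/
structure Su (P : G3 J V TK) (S : Sub J V) (e : ℕ) (ρ : Finset V) (Y : Px V) (B0 : Finset J)
    (g : J → Sv V) (Γ : Finset (J × V × V)) (cT nr : ℕ) : Prop where
  wf : P.Wf S
  fr : P.Frame e ρ
  ab : (S.A \ B0).card ≤ 1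
  mn : P.Min3 S B0 g
  rb : (ρ.filter fun r => r ∉ S.W ∨ r ∈ itsB B0 g).card ≤ nr
  rnf : ∀ r ∈ ρ, ¬ Y.nf r
  gd : P.Good e ρ Y B0 g
  gc : Γ.card ≤ 6
  sg : P.SgOk S Γ
  sl : use B0 (fun j => (g j).its) + 90 ≤ S.W.card
  e100 : 112 + nr ≤ e
  tri : (B0.filter fun j => ∃ a z b, g j = Sv.three a z b).card ≤ cT
  bl : ∀ i ∈ B0, ∀ j ∈ B0, ∀ a b a' b', g i = Sv.two a b →
    g j = Sv.two a' b' → P.blind e ρ i → P.blind e ρ j → i = j

/-- The services that are always opened. -/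
noncomputable def Om0 (P : G3 J V TK) (e : ℕ) (ρ : Finset V) (B : Finset J) (g : J → Sv V)
    (Γ : Finset (J × V × V)) : Finset J :=
  (B.filter fun j => ∃ a z b, g j = Sv.three a z b) ∪
    (B.filter fun j => (∃ a b, g j = Sv.two a b) ∧ P.blind e ρ j) ∪ ag2 Γ ∪
    B.filter fun j => ∃ v ∈ it2 Γ, v ∈ (g j).its

theorem own_eq {S : Sub J V} {B : Finset J} {g : J → Sv V} (h : P.PSt S B g) {i j : J}
    (hi : i ∈ B) (hj : j ∈ B) {v : V} (a : v ∈ (g i).its) (b : v ∈ (g j).its) : i = j := by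
  by_contra hn
  exact disjoint_left.1 (h.dis i hi j hj hn) a b

section Main

variable {S : Sub J V} {e : ℕ} {ρ : Finset V} {B0 : Finset J} {g : J → Sv V}
  {Γ : Finset (J × V × V)} {cT nr : ℕ}

theorem card_Om0 (h : Su P S e ρ Y B0 g Γ cT nr) : (Om0 P e ρ B0 g Γ).card ≤ cT + 19 := by
  have h1 := h.tri
  have h2 : (B0.filter fun j => (∃ a b, g j = Sv.two a b) ∧ P.blind e ρ j).card ≤ 1 :=
    card_le_one.2 fun i hi j hj => by
      obtain ⟨a1, ⟨a, b, a2⟩, a3⟩ := mem_filter.1 hi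
      obtain ⟨b1, ⟨a', b', b2⟩, b3⟩ := mem_filter.1 hj
      exact h.bl i a1 j b1 a b a' b' a2 b2 a3 b3
  have h3 := (card_ag2 Γ).trans h.gc
  have h4 : (B0.filter fun j => ∃ v ∈ it2 Γ, v ∈ (g j).its).card ≤ (it2 Γ).card :=
    card_le_card_of_forall_subsingleton (fun j v => v ∈ (g j).its)
      (fun j hj => (mem_filter.1 hj).2) fun v _ i hi j hj =>
        own_eq h.mn.1 (mem_filter.1 hi.1).1 (mem_filter.1 hj.1).1 hi.2 hj.2
  have h5 := card_it2_le Γ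
  have h6 := h.gc
  unfold Om0
  refine (card_union_le _ _).trans ?_
  refine (Nat.add_le_add_right (card_union_le _ _) _).trans ?_
  refine (Nat.add_le_add_right (Nat.add_le_add_right (card_union_le _ _) _) _).trans ?_
  omega

/-- The outcome of the core step. -/
structure Out (P : G3 J V TK) (S : Sub J V) (e l : ℕ) (ρ : Finset V) (Y : Px V) (B : Finset J)
    (g : J → Sv V) (X : Ax J V) (μ ν : Nd J V → Nd J V) (K : ℕ) : Prop where
  cx : P.Ctx S e ρ Y B g μ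
  bs : ∃ w, P.Best S e ρ X Y μ w ν
  mX : IsM (fun x y => P.En S e ρ X Y x y ∨ μ x = y) ν
  m : IsM (P.En S e ρ (axAll J V) Y) ν
  sz : cov ν = 2 * S.A.card
  cv : P.Cov S e ρ X ν
  sl : 2 * S.A.card + l ≤ cw S ν + S.W.card
  pa : unf S.W Y.nf ν % 2 = Y.tg % 2
  nc : (ncomp μ ν).card ≤ K
  en : (ends μ ν).card ≤ 2 * K

theorem best (hC : CompStmt) (hI : ImgS) (hCo : CoreS) (h : Su P S e ρ Y B0 g Γ cT nr)
    {Ω : Finset J} {κ l : ℕ} {X : Ax J V} (h0 : Om0 P e ρ B0 g Γ ⊆ Ω)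
    (hκ : Ω.card ≤ κ)
    (hm : ∀ j q z, P.OldP e ρ (B0 \ Ω) g j q z → P.rigid S e ρ j → ¬ X.mc j)
    (hp : P.Pass (S.rem (ag2 Γ) (it2 Γ)) e ρ X Y l) :
    ∃ μ ν, Out P (S.rem (ag2 Γ) (it2 Γ)) e l ρ Y (B0 \ Ω) g X μ ν (9 * κ + 9) := by
  have st := h.mn.1
  have hno : ∀ j ∈ B0 \ Ω, j ∉ Om0 P e ρ B0 g Γ := fun j hj a => (mem_sdiff.1 hj).2 (h0 a)
  have hsi : P.Simple e ρ Y (B0 \ Ω) g := fun j hj => by
    have a := hno j hj
    have hjB := (mem_sdiff.1 hj).1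
    have b := st.nrm j hjB
    simp only [Om0, mem_union, mem_filter, not_or] at a
    rcases hg : g j with _ | c | ⟨x, y⟩ | ⟨x, z, y⟩
    · rw [hg] at b; exact b.elim
    · exact Or.inl ⟨c, rfl⟩
    · have nb : ¬ P.blind e ρ j := fun c => a.1.1.2 ⟨hjB, ⟨x, y, hg⟩, c⟩
      have gd := h.gd j hjB x y hg nb
      exact Or.inr ⟨x, y, rfl, nb, fun k hk => (gd.2.2.2 k hk).1, gd.1⟩
    · exact (a.1.1.1 ⟨hjB, x, z, y, hg⟩).elim
  have hd1 : Disjoint (B0 \ Ω) (ag2 Γ) := disjoint_left.2 fun j hj a =>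
    hno j hj (mem_union_left _ (mem_union_right _ a))
  have hd2 : Disjoint (it2 Γ) (itsB (B0 \ Ω) g) := disjoint_left.2 fun v hv a => by
    obtain ⟨j, hj, b⟩ := mem_itsB.1 a
    exact hno j hj (mem_union_right _ (mem_filter.2 ⟨(mem_sdiff.1 hj).1, v, hv, b⟩))
  have st' : P.PSt (S.rem (ag2 Γ) (it2 Γ)) (B0 \ Ω) g :=
    ⟨fun j hj => mem_sdiff.2 ⟨st.sub (mem_sdiff.1 hj).1, disjoint_left.1 hd1 hj⟩,
      fun j hj v hv => mem_sdiff.2 ⟨st.inW j (mem_sdiff.1 hj).1 hv,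
        fun a => disjoint_left.1 hd2 a (mem_itsB.2 ⟨j, hj, hv⟩)⟩,
      fun j hj => by
        have := st.nrm j (mem_sdiff.1 hj).1
        rcases hg : g j with _ | c | ⟨x, y⟩ | ⟨x, z, y⟩ <;> rw [hg] at this <;> exact this,
      fun i hi j hj => st.dis i (mem_sdiff.1 hi).1 j (mem_sdiff.1 hj).1⟩
  obtain ⟨⟨μ, hμ⟩, hall⟩ := hI J V TK P (S.rem (ag2 Γ) (it2 Γ)) e ρ Y (B0 \ Ω) g h.wf h.fr st' hsi
  obtain ⟨i1, -, -, -, -, -, -, i8, i9, -⟩ := hall μ hμ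
  obtain ⟨ν0, p1, p2, p3, p4, p5⟩ := hp
  have hκ' : (B0 \ (B0 \ Ω)).card ≤ κ := by
    refine le_trans (card_le_card fun j hj => ?_) hκ
    rw [mem_sdiff, mem_sdiff] at hj
    tauto
  obtain ⟨ν, b1, b2⟩ := hCo J V TK P S e nr ρ Y B0 (B0 \ Ω) g Γ μ X
    (2 * (S.rem (ag2 Γ) (it2 Γ)).A.card + l - (S.rem (ag2 Γ) (it2 Γ)).W.card) κ h.e100 h.wf h.fr
    h.ab h.mn h.rb h.gc sdiff_subset hκ' hsi hd1 hd2 hμ
    (fun j hj a b => by
      obtain ⟨q, z, c⟩ := i9 j hj b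
      exact hm j q z c (i8 j q z c).2.1 a)
    h.sl ⟨ν0, p1.mono fun _ _ a => Or.inl a, p2, by omega, p4, p5⟩
  have c1 := b1.1
  have c2 := (hC _ μ ν hμ.1 c1.1.1).2.2.2.2.2.1
  refine ⟨μ, ν, ⟨h.wf, h.fr, st', hsi, hμ⟩, ⟨_, b1⟩, c1.1, ⟨c1.1.1, fun x hx => ?_⟩, c1.2.1,
    c1.2.2.2.1, ?_, c1.2.2.2.2, b2, by omega⟩
  · rcases c1.1.2 x hx with a | a
    · exact En_all a
    · rw [← a] at hx ⊢
      exact i1.2 x hx
  · have := c1.2.2.1
    omega

theorem En_res {X : Ax J V} {U : Finset V} {ν : Nd J V → Nd J V} (h : IsM (P.En S e ρ X Y) ν)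
    (hU : ∀ q ∈ U, ν (vx q) = vx q) : IsM (P.En (S.res S.A U) e ρ X Y) ν := by
  refine ⟨h.1, fun x hx => ?_⟩
  have a := h.2 x hx
  have k1 : ∀ v, x = vx v → v ∉ U := fun v e b => hx (e ▸ hU v b)
  have k2 : ∀ v, ν x = vx v → v ∉ U := fun v e b => by
    have c := h.1 x
    rw [e, hU v b] at c
    exact hx (e.trans c)
  rcases hy : ν x with j | v | j <;> rw [hy] at a <;> rcases x with i | u | i <;>
    simp only [En] at a ⊢
  · exact ⟨a.1, mem_sdiff.2 ⟨a.2.1, k1 u rfl⟩, a.2.2⟩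
  · exact a
  · exact ⟨a.1, mem_sdiff.2 ⟨a.2.1, k2 v hy⟩, a.2.2⟩
  · exact ⟨mem_sdiff.2 ⟨a.1, k1 u rfl⟩, mem_sdiff.2 ⟨a.2.1, k2 v hy⟩, a.2.2⟩
  · exact a

/-- The last part of every branch. -/
theorem fin (hI : ImgS) (hR : RealS) (h : Su P S e ρ Y B0 g Γ cT nr) {B : Finset J}
    {l K a2 nH δ κ : ℕ} {X : Ax J V} {μ ν : Nd J V → Nd J V} (hB : B ⊆ B0)
    (hκ : (B0 \ B).card ≤ κ) (o : Out P (S.rem (ag2 Γ) (it2 Γ)) e l ρ Y B g X μ ν K)
    (ra : P.RectA (S.rem (ag2 Γ) (it2 Γ)) Y B g μ ν (6 * K + 5) a2)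
    (jb : P.JointB (S.rem (ag2 Γ) (it2 Γ)) e ρ μ ν (2 * K))
    {Γ' Hh Hi : Finset (J × V × V)} {U D : Finset V} (e1 : ag2 Γ' = ag2 Γ)
    (e2 : it2 Γ' ∪ D = it2 Γ ∪ U) (hDd : Disjoint D (it2 Γ')) (hd : Dis2 Γ')
    (hUW : ∀ q ∈ U, q ∈ S.W ∧ q ∉ it2 Γ ∧ ν (vx q) = vx q ∧ q ∉ itsB B g ∧ ¬ Y.nf q)
    (hUc : U.card ≤ 2) (hc : U.card + δ ≤ D.card) (hDe : (D.filter Y.nf).card % 2 = 0)
    (hH : Hh ⊆ Γ') (hs : ∀ s ∈ Γ', s ∉ Hh → P.Serv3 S s.1 (pr s))
    (hp : ∀ s ∈ Hh, P.rigid S e ρ s.1 ∧ P.peE e ρ Y s.2.1 s.2.2 ∧ ¬ P.junk s.1 s.2.2)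
    (hi : ∀ s ∈ Hi, P.OldP e ρ B g s.1 s.2.1 s.2.2 ∧ ν (vx s.2.1) = vx s.2.2 ∧
      ν (ag s.1) = ag s.1)
    (ob : δ = 1 ∨ P.base.NoObs (S.rem (ag2 Γ) (it2 Γ)) e ρ (Hh ∪ Hi) ν)
    (hn : (Hh ∪ Hi).card ≤ nH) (he : nr + 20 * K + 2 * nH + 21 ≤ e)
    (hl : 16 * K + 2 * nH + a2 + 3 * κ + 4 + frn S.W Y.nf B0 (fun j => (g j).its) ≤ l) :
    Res P S Y l := by
  have hΓW : it2 Γ ⊆ S.W := fun v hv => by
    obtain ⟨s, a, b⟩ := mem_it2.1 hv
    have c := h.sg.1 s a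
    rcases mem_insert.1 b with d | d
    · exact d ▸ c.2.2.1
    · exact mem_singleton.1 d ▸ c.2.2.2.1
  have hΓA : ag2 Γ ⊆ S.A := fun j hj => by
    obtain ⟨s, a, b⟩ := mem_ag2.1 hj
    exact b ▸ (h.sg.1 s a).1
  have hall : it2 Γ' ∪ D ⊆ S.W := e2 ▸ union_subset hΓW fun q hq => (hUW q hq).1
  have hid := ((hI J V TK P _ e ρ Y B g o.cx.wf o.cx.fr o.cx.st o.cx.si).2 μ
    o.cx.im).2.2.2.2.2.2.2.2.2.2.2 fun j hj => h.gd j (hB hj)
  set S' := S.rem (ag2 Γ) (it2 Γ) with hS'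
  have eS : S'.res S'.A U = S.rem (ag2 Γ') (it2 Γ' ∪ D) := by
    simp only [hS', Sub.res, Sub.rem, e1, e2, sdiff_sdiff_left, sup_eq_union]
  have eW : (S'.res S'.A U).W = S'.W \ U := rfl
  have hWc : S'.W.card ≤ (S'.W \ U).card + U.card := by
    have := le_card_sdiff U S'.W
    omega
  have cx : P.Ctx (S'.res S'.A U) e ρ Y B g μ :=
    ⟨o.cx.wf, o.cx.fr, ⟨o.cx.st.sub, fun j hj v hv => mem_sdiff.2 ⟨o.cx.st.inW j hj hv,
      fun a => (hUW v a).2.2.2.1 (mem_itsB.2 ⟨j, hj, hv⟩)⟩, fun j hj => by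
        have := o.cx.st.nrm j hj
        rcases hg : g j with _ | c | ⟨x, y⟩ | ⟨x, z, y⟩ <;> rw [hg] at this <;> exact this,
      o.cx.st.dis⟩, o.cx.si, o.cx.im⟩
  have hk : P.HelpOk (S'.res S'.A U) e ρ Y Hh := by
    refine ⟨fun s hs => ⟨?_, (hp s hs).1, ?_, ?_, (hp s hs).2.1, (hp s hs).2.2⟩,
      DJump.Dis2.mono hd hH⟩
    · rw [eS]; exact fun a => (mem_sdiff.1 a).2 (ag2_of (hH hs))
    · rw [eS]; exact fun a => (mem_sdiff.1 a).2 (mem_union_left _ (it2_l (hH hs)))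
    · rw [eS]; exact fun a => (mem_sdiff.1 a).2 (mem_union_left _ (it2_r (hH hs)))
  have rc : P.RCtx (S'.res S'.A U) e ρ Y B g μ ν Hh Hi (2 * K) (2 * K) δ :=
    ⟨cx, hk, hi, En_res o.m fun q hq => (hUW q hq).2.2.1, o.sz,
      fun j hj a => o.cv j hj (Or.inl (a.resolve_right id)), o.en, jb, ob⟩
  have ra' : P.RectA (S'.res S'.A U) Y B g μ ν (6 * K + 5) a2 := fun R hR T hT =>
    ra R hR T (hT.trans (filter_subset_filter _ sdiff_subset))
  have hρ : (ρ.filter fun r => r ∉ (S'.res S'.A U).W ∨ r ∈ itsB B g).card ≤ nr + 14 := by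
    have : (ρ.filter fun r => r ∉ (S'.res S'.A U).W ∨ r ∈ itsB B g) ⊆
        (ρ.filter fun r => r ∉ S.W ∨ r ∈ itsB B0 g) ∪ (it2 Γ ∪ U) := fun v hv => by
      rw [eS, mem_filter] at hv
      by_contra a
      rw [mem_union, not_or, mem_filter] at a
      rcases hv.2 with b | b
      · refine b (mem_sdiff.2 ⟨?_, e2 ▸ a.2⟩)
        by_contra c
        exact a.1 ⟨hv.1, Or.inl c⟩
      · exact a.1 ⟨hv.1, Or.inr (biUnion_subset_biUnion_of_subset_left _ hB b)⟩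
    have h1 := (card_le_card this).trans (card_union_le _ _)
    have h2 := card_union_le (it2 Γ) U
    have h3 := card_it2_le Γ
    have h4 := h.gc
    have h5 := h.rb
    omega
  have hun : unf (S'.W \ U) Y.nf ν = unf S'.W Y.nf ν := by
    unfold unf
    congr 1
    ext v
    simp only [mem_filter, mem_sdiff (s := S'.W)]
    exact ⟨fun a => ⟨a.1.1, a.2⟩, fun a => ⟨⟨a.1, fun b => (hUW v b).2.2.2.2 a.2.1⟩, a.2⟩⟩
  have hun2 : unf S'.W Y.nf ν ≤ frn S.W Y.nf B0 (fun j => (g j).its) + 3 * κ + 2 * K := by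
    have a1 : (S'.W.filter fun v => Y.nf v ∧ ν (vx v) = vx v) ⊆
        (S.W.filter fun v => Y.nf v ∧ ∀ j ∈ B0, v ∉ (g j).its) ∪ itsB (B0 \ B) g ∪
          univ.filter fun v => vx v ∈ ends μ ν := fun v hv => by
      obtain ⟨b1, b2, b3⟩ := mem_filter.1 hv
      by_cases c : μ (vx v) = vx v
      swap
      · exact mem_union_right _ (mem_filter.2 ⟨mem_univ _, mem_filter.2
          ⟨mem_univ _, Or.inr ⟨c, b3⟩⟩⟩)
      by_cases d : ∀ j ∈ B0, v ∉ (g j).its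
      · exact mem_union_left _ (mem_union_left _ (mem_filter.2 ⟨(mem_sdiff.1 b1).1, b2, d⟩))
      push Not at d
      obtain ⟨j, d1, d2⟩ := d
      exact mem_union_left _ (mem_union_right _ (mem_itsB.2
        ⟨j, mem_sdiff.2 ⟨d1, fun k => hid j k v d2 c b2⟩, d2⟩))
    have a2 := (card_le_card a1).trans ((card_union_le _ _).trans
      (Nat.add_le_add_right (card_union_le _ _) _))
    have a3 := card_itsB (B0 \ B) g
    have a4 : (univ.filter fun v => vx v ∈ ends μ ν).card ≤ (ends μ ν).card :=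
      card_le_card_of_injOn vx (fun v hv => mem_coe.2 (mem_filter.1 (mem_coe.1 hv)).2)
        fun u _ v _ a => by simpa using a
    have a5 := o.en
    have a6 : frn S.W Y.nf B0 (fun j => (g j).its) =
      (S.W.filter fun v => Y.nf v ∧ ∀ j ∈ B0, v ∉ (g j).its).card := rfl
    unfold unf
    omega
  have hsl := o.sl
  obtain ⟨f, f1, f2, f3⟩ := hR J V TK P (S'.res S'.A U) e ρ Y B g μ ν Hh Hi (2 * K) (6 * K + 5) a2
    (2 * K) nH δ (nr + 14) rc ra' h.rnf hid hρ hn (by omega)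
    (by
      have : cw (S'.res S'.A U) ν = cw S' ν := rfl
      have : (S'.res S'.A U).A.card = S'.A.card := rfl
      rw [eW]
      omega)
  have hc2 : (it2 Hh).card = 2 * Hh.card := card_it2 (DJump.Dis2.mono hd hH) fun s hs a =>
    (hp s hs).2.1.2.1 (a ▸ (hp s hs).2.1.1.2)
  have a1 : cw (S'.res S'.A U) ν = cw S' ν := rfl
  have a2 : (S'.res S'.A U).A = S'.A := rfl
  have a3 : S.A \ ag2 Γ' = S'.A := by rw [e1]; rfl
  have a4 : S.W \ (it2 Γ' ∪ D) = S'.W \ U := by rw [← eW, eS]; rfl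
  refine glue (f := f) h.wf hd (e1 ▸ hΓA) (subset_union_left.trans hall)
    (subset_union_right.trans hall) hDd hH hs ?_ ?_ hDe ?_
  · rw [eS] at f1
    exact f1
  · rw [a1, a2] at f2
    rw [a3, a4]
    omega
  · rw [a3, a4]
    rw [eW, a2] at f3
    refine f3.imp (fun k => ?_) id
    rw [k, hun]
    exact o.pa

theorem card_sd (B Ω : Finset J) : (B \ (B \ Ω)).card ≤ Ω.card :=
  card_le_card fun j hj => by
    rw [mem_sdiff, mem_sdiff] at hj
    tauto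

/-- The unused heavy items that may serve as fillers. -/
noncomputable def FQ (P : G3 J V TK) (S : Sub J V) (e : ℕ) (ρ : Finset V) (Y : Px V)
    (B : Finset J) (g : J → Sv V) : Finset V :=
  (S.W \ itsB B g).filter fun v => P.Q0 e ρ v ∧ ¬ Y.nf v

/-- The multiple agents that hide a heavy item. -/
noncomputable def QH (P : G3 J V TK) (e : ℕ) (ρ : Finset V) (B : Finset J) (g : J → Sv V) :
    Finset J :=
  B.filter fun j => ∃ a v k, g j = Sv.two a v ∧ P.rigm e ρ j k ∧ P.Q0 e ρ v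

theorem oldP_mono {B B' : Finset J} (hB : B' ⊆ B) {j : J} {q z : V}
    (h : P.OldP e ρ B' g j q z) : P.OldP e ρ B g j q z := ⟨hB h.1, h.2⟩

theorem oldP_its {B : Finset J} {j : J} {q z : V} (h : P.OldP e ρ B g j q z) :
    q ∈ (g j).its ∧ z ∈ (g j).its ∧ ∃ o, P.rig e ρ j o := by
  obtain ⟨-, -, a, b, o, h1, h2, rfl, rfl, -⟩ := h
  rw [h1]
  cases o <;> exact ⟨by simp [Sv.its, mi], by simp [Sv.its, ma], _, h2⟩

theorem oldP_uniq {B : Finset J} {j : J} {q z q' z' : V} (h : P.OldP e ρ B g j q z)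
    (h' : P.OldP e ρ B g j q' z') : q = q' ∧ z = z' := by
  obtain ⟨-, -, a, b, o, h1, h2, rfl, rfl, -⟩ := h
  obtain ⟨-, -, a', b', o', h1', h2', rfl, rfl, -⟩ := h'
  rw [h1] at h1'
  cases h1'
  cases Geo.rig_unique h2 h2'
  exact ⟨rfl, rfl⟩

/-- A pair edge of `ν` is allowed by `X` or old. -/
theorem pe_edge (hI : ImgS) {B : Finset J} {l K : ℕ} {X : Ax J V} {μ ν : Nd J V → Nd J V}
    (o : Out P S e l ρ Y B g X μ ν K) {q z : V} (hne : z ≠ q) (h : ν (vx q) = vx z)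
    (hq : P.Q0 e ρ q) : (X.pe ∧ ¬ X.zs z) ∨ ∃ j, P.OldP e ρ B g j q z := by
  have a := o.mX.2 (vx q) (by rw [h]; simpa using hne)
  rw [h] at a
  rcases a with a | a
  · rcases a.2.2.2 with b | b
    · exact Or.inl ⟨a.2.2.1, b.2⟩
    · exact (b.1.2.1 hq.2).elim
  · exact Or.inr (((hI J V TK P S e ρ Y B g o.cx.wf o.cx.fr o.cx.st o.cx.si).2 μ
      o.cx.im).2.2.2.2.2.2.2.2.2.1 q z hne.symm a hq)

theorem b1core (hC : CompStmt) (hI : ImgS) (hO : OptS) (hCo : CoreS)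
    (h : Su P S e ρ Y B0 g Γ cT nr) {l : ℕ} {s1 s2 : J × V × V} (h1 : s1 ∈ Γ) (h2 : s2 ∈ Γ)
    (hne : s1 ≠ s2) {o1 o2 : Bool} (r1 : P.rig e ρ s1.1 o1) (r2 : P.rig e ρ s2.1 o2)
    (hp : P.Pass (S.rem (ag2 Γ) (it2 Γ)) e ρ (P.base.axW s1 s2) Y l) :
    ∃ B μ ν, B ⊆ B0 ∧ (B0 \ B).card ≤ cT + 21 ∧
      Out P (S.rem (ag2 Γ) (it2 Γ)) e l ρ Y B g (P.base.axW s1 s2) μ ν (9 * (cT + 21) + 9) ∧
      P.RectA (S.rem (ag2 Γ) (it2 Γ)) Y B g μ ν (6 * (9 * (cT + 21) + 9) + 5) 11 ∧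
      P.JointB (S.rem (ag2 Γ) (it2 Γ)) e ρ μ ν (2 * (9 * (cT + 21) + 9)) ∧
      ∀ Hs : Finset (J × V × V), (∃ t ∈ Hs, t.1 = s1.1 ∧ t.2.2 = s1.2.2) →
        (∃ t ∈ Hs, t.1 = s2.1 ∧ t.2.2 = s2.2.2) →
        P.base.NoObs (S.rem (ag2 Γ) (it2 Γ)) e ρ Hs ν := by
  have hd := h.sg.2 s1 h1 s2 h2 hne
  have u1 : ∀ z z', (P.base.axW s1 s2).zs z → (P.base.axW s1 s2).zs z' → z = z' := fun z z' a b =>
    Geo.rig_junk h.fr hd.1 r1 r2 a.1 b.1 a.2 b.2
  have u2 : ∀ j j', P.rigid S e ρ j → P.rigid S e ρ j' → (P.base.axW s1 s2).mc j →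
      (P.base.axW s1 s2).mc j' → j = j' := fun j j' a b c d => by
    by_contra hn
    obtain ⟨-, -, o, a⟩ := a
    obtain ⟨-, -, o', b⟩ := b
    have := Geo.rig_junk h.fr hn a b c.1 c.2 d.1 d.2
    exact disjoint_left.1 hd.2 (show s1.2.2 ∈ _ by simp) (by simp [this])
  set O1 := B0.filter fun j => ∃ q z, P.OldP e ρ B0 g j q z ∧
    (P.base.axW s1 s2).zs z with hO1
  set O2 := B0.filter fun j => P.rigid S e ρ j ∧ (P.base.axW s1 s2).mc j with hO2
  have c1 : O1.card ≤ 1 := card_le_one.2 fun i hi j hj => by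
    obtain ⟨a, q, z, b, c⟩ := mem_filter.1 hi
    obtain ⟨a', q', z', b', c'⟩ := mem_filter.1 hj
    cases u1 z z' c c'
    exact own_eq h.mn.1 a a' (oldP_its b).2.1 (oldP_its b').2.1
  have c2 : O2.card ≤ 1 := card_le_one.2 fun i hi j hj =>
    u2 i j (mem_filter.1 hi).2.1 (mem_filter.1 hj).2.1 (mem_filter.1 hi).2.2 (mem_filter.1 hj).2.2
  have c3 : (Om0 P e ρ B0 g Γ ∪ O1 ∪ O2).card ≤ cT + 21 := by
    have := card_Om0 h
    have := card_union_le (Om0 P e ρ B0 g Γ ∪ O1) O2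
    have := card_union_le (Om0 P e ρ B0 g Γ) O1
    omega
  obtain ⟨μ, ν, o⟩ := best hC hI hCo h (subset_union_left.trans subset_union_left) c3
    (fun j q z a b c => (mem_sdiff.1 a.1).2
      (mem_union_right _ (mem_filter.2 ⟨(mem_sdiff.1 a.1).1, b, c⟩))) hp
  obtain ⟨w, hb⟩ := o.bs
  obtain ⟨ra, jb⟩ := hO J V TK P _ e ρ Y _ g μ ν _ w _ 0 o.cx hb o.nc u1 u2 (Or.inl trivial)
  refine ⟨_, μ, ν, sdiff_subset, (card_sd _ _).trans c3, o, ra, jb, fun Hs a1 a2 => ⟨fun j hj a => ?_,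
    fun q z a b c => ?_⟩⟩
  · obtain ⟨t1, b1, -, d1⟩ := a1
    obtain ⟨t2, b2, -, d2⟩ := a2
    by_contra hn
    push Not at hn
    exact o.cv j hj (Or.inr ⟨d1 ▸ hn t1 b1, d2 ▸ hn t2 b2⟩) a
  · obtain ⟨t1, b1, d1, -⟩ := a1
    obtain ⟨t2, b2, d2, -⟩ := a2
    by_contra hn
    push Not at hn
    have hz : (P.base.axW s1 s2).zs z := ⟨d1 ▸ hn t1 b1, d2 ▸ hn t2 b2⟩
    rcases pe_edge hI o a b c with d | ⟨j, d⟩
    · exact d.2 hz
    · exact (mem_sdiff.1 d.1).2 (mem_union_left _ (mem_union_right _ (mem_filter.2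
        ⟨(mem_sdiff.1 d.1).1, q, z, oldP_mono sdiff_subset d, hz⟩)))

theorem sg_serv (h : P.SgOk S Γ) {s : J × V × V} (hs : s ∈ Γ) : P.Serv3 S s.1 (pr s) :=
  Or.inl (Or.inr ⟨(h.1 s hs).2.1, s.2.1, by simp, s.2.2, by simp, (h.1 s hs).2.2.2.2⟩)

/-- Two witnesses with pair edges. -/
theorem branchW (hC : CompStmt) (hI : ImgS) (hO : OptS) (hR : RealS) (hCo : CoreS)
    (h : Su P S e ρ Y B0 g Γ cT nr) {l : ℕ} {s1 s2 : J × V × V} (h1 : s1 ∈ Γ) (h2 : s2 ∈ Γ)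
    (hne : s1 ≠ s2) (w1 : P.WitP e ρ Y s1) (w2 : P.WitP e ρ Y s2)
    (hp : P.Pass (S.rem (ag2 Γ) (it2 Γ)) e ρ (P.base.axW s1 s2) Y l)
    (he : nr + 20 * (9 * (cT + 21) + 9) + 2 * 2 + 21 ≤ e)
    (hl : 16 * (9 * (cT + 21) + 9) + 2 * 2 + 11 + 3 * (cT + 21) + 4 +
      frn S.W Y.nf B0 (fun j => (g j).its) ≤ l) :
    Res P S Y l := by
  have key : ∀ s ∈ Γ, P.WitP e ρ Y s →
      P.rigid S e ρ s.1 ∧ P.peE e ρ Y s.2.1 s.2.2 ∧ ¬ P.junk s.1 s.2.2 := fun s hs hw => by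
    obtain ⟨m, ⟨o, a, b, c, d⟩, n1, n2⟩ := hw
    have f := h.sg.1 s hs
    exact ⟨⟨f.2.1, m, o, a⟩, ⟨b, fun k => Geo.Q0_not_adj h.fr a.1 ⟨b.1, k⟩ d.1,
      f.2.2.2.2.2.1.resolve_left m, (Classical.em Y.pn).imp id fun k => ⟨fun x => k (n1.1 x),
        fun x => k (n2.1 x)⟩⟩, Geo.col_not_junk d⟩
  obtain ⟨-, ⟨o1, r1, -⟩, -⟩ := id w1
  obtain ⟨-, ⟨o2, r2, -⟩, -⟩ := id w2
  obtain ⟨B, μ, ν, hB, hκ, o, ra, jb, ob⟩ := b1core hC hI hO hCo h h1 h2 hne r1 r2 hp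
  refine fin (Γ' := Γ) (Hh := {s1, s2}) (Hi := ∅) (U := ∅) (D := ∅) (δ := 0) (nH := 2) hI hR h
    hB hκ o ra jb rfl rfl (by simp) h.sg.2 (by simp) (by simp) (by simp) (by simp) ?_
    (fun s hs _ => sg_serv h.sg hs) ?_ (by simp) (Or.inr (ob _ ⟨s1, by simp, rfl, rfl⟩ ⟨s2, by simp, rfl, rfl⟩))
    (by rw [union_empty]; exact card_le_two) he hl
  · exact insert_subset h1 (singleton_subset_iff.2 h2)
  · intro s hs
    rcases mem_insert.1 hs with a | a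
    · exact a ▸ key s1 h1 w1
    · exact mem_singleton.1 a ▸ key s2 h2 w2

theorem pass_NW {l : ℕ} {s1 s2 : J × V × V} (h : P.Pass S e ρ (axN J V) Y l) :
    P.Pass S e ρ (P.base.axW s1 s2) Y l := by
  obtain ⟨ν, a, b, c, d, d'⟩ := h
  refine ⟨ν, a.mono fun x y k => ?_, b, c, fun j hj _ => d j hj (Or.inr trivial), d'⟩
  rcases x with i | u | i <;> rcases y with j | v | j <;>
    simp only [En, axN, Geo.axW] at k ⊢ <;> tauto

/-- Two witnesses with keys and many free heavy items. -/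
theorem branchN (hC : CompStmt) (hI : ImgS) (hO : OptS) (hR : RealS) (hCo : CoreS)
    (h : Su P S e ρ Y B0 g Γ cT nr) {l : ℕ} {s1 s2 : J × V × V} (h1 : s1 ∈ Γ) (h2 : s2 ∈ Γ)
    (hne : s1 ≠ s2) (w1 : P.WitN e ρ Y s1) (w2 : P.WitN e ρ Y s2)
    (hp : P.Pass (S.rem (ag2 Γ) (it2 Γ)) e ρ (axN J V) Y l)
    (hQ : 2 * (9 * (cT + 21) + 9) + 16 ≤ (FQ P S e ρ Y B0 g).card)
    (he : nr + 20 * (9 * (cT + 21) + 9) + 2 * 2 + 21 ≤ e)
    (hl : 16 * (9 * (cT + 21) + 9) + 2 * 2 + 11 + 3 * (cT + 21) + 4 +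
      frn S.W Y.nf B0 (fun j => (g j).its) ≤ l) : Res P S Y l := by
  have wp : ∀ s, s = s1 ∨ s = s2 → (Y.nf s.2.1 ↔ Y.pn) ∧ (Y.nf s.2.2 ↔ Y.pn) := fun s hs =>
    hs.elim (fun k => k ▸ w1.2.2) fun k => k ▸ w2.2.2
  obtain ⟨mu1, ⟨o1, r1, c1, l1⟩, nf1, nf1'⟩ := w1
  obtain ⟨mu2, ⟨o2, r2, c2, l2⟩, nf2, nf2'⟩ := w2
  obtain ⟨B, μ, ν, hB, hκ, o, ra, jb, ob⟩ := b1core hC hI hO hCo h h1 h2 hne r1 r2 (pass_NW hp)
  set FQ := FQ P S e ρ Y B0 g with hFQ
  have hfB : ∀ v ∈ FQ, v ∉ itsB B g := fun v hv a =>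
    (mem_sdiff.1 (mem_filter.1 hv).1).2 (biUnion_subset_biUnion_of_subset_left _ hB a)
  have hfix : ∀ v ∈ FQ, μ (vx v) = vx v := fun v hv =>
    ((hI J V TK P _ e ρ Y B g o.cx.wf o.cx.fr o.cx.st o.cx.si).2 μ o.cx.im).2.2.2.2.2.1 v (hfB v hv)
  set Z := (FQ.filter fun v => ¬ ν (vx v) ≠ vx v) \ it2 Γ with hY
  have hYc : 3 ≤ Z.card := by
    have a1 := card_new (ν := ν) FQ hfix
    have a2 := o.en
    have a3 := card_filter_add_card_filter_not (s := FQ) (fun v => ν (vx v) ≠ vx v)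
    have a4 : (FQ.filter fun v => ¬ ν (vx v) ≠ vx v).card - (it2 Γ).card ≤ Z.card :=
      le_card_sdiff _ _
    have a5 := card_it2_le Γ
    have a6 := h.gc
    omega
  have hYp : ∀ q ∈ Z, (q ∈ S.W ∧ q ∉ it2 Γ ∧ ν (vx q) = vx q ∧ q ∉ itsB B g ∧ ¬ Y.nf q) ∧
      P.Q0 e ρ q := fun q hq => by
      have a := mem_sdiff.1 hq
      have b := mem_filter.1 a.1
      have c := mem_filter.1 b.1
      exact ⟨⟨(mem_sdiff.1 c.1).1, a.2, not_not.1 b.2, hfB q b.1, c.2.2⟩, c.2.1⟩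
  have single : ∀ s ∈ Γ, (s = s1 ∨ s = s2) → ∀ q ∈ Z, P.C s.1 q → Res P S Y l :=
      fun s hs hs' q hq hc => by
    obtain ⟨k1, k2, k3⟩ := DJump.Dis2.erase h.sg.2 hs
    have k4 := (hYp q hq).1
    have k5 : q ∉ it2 (Γ.erase s) := fun a => k4.2.1 (it2_mono (erase_subset _ _) a)
    have k6 : Γ = insert s (Γ.erase s) := (insert_erase hs).symm
    have k7 := h.sg.1 s hs
    refine fin (Γ' := insert (s.1, q, q) (Γ.erase s)) (Hh := ∅) (Hi := ∅) (U := {q}) (D := pr s)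
      (δ := 1) (nH := 2) hI hR h hB hκ o ra jb ?_ ?_ ?_
      (dis2_insert (DJump.Dis2.mono h.sg.2 (erase_subset _ _)) k1 k5 k5)
      (fun v hv => mem_singleton.1 hv ▸ k4) (by simp) ?_
      (even_pair k7.2.2.2.2.1 (wp s hs').1 (wp s hs').2) (by simp) ?_ (by simp) (by simp)
      (Or.inl rfl) (by simp) he hl
    · conv_rhs => rw [k6]
      rw [ag2_insert, ag2_insert]
    · conv_rhs => rw [k6]
      rw [it2_insert, it2_insert]
      exact set1 _ _ _ _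
    · rw [it2_insert]
      refine disjoint_left.2 fun v hv a => ?_
      have b : v ∈ it2 Γ := mem_it2.2 ⟨s, hs, hv⟩
      simp only [mem_union, mem_insert, mem_singleton, or_self] at hv a
      rcases a with a | a
      · exact k4.2.1 (a ▸ b)
      · rcases hv with c | c
        · exact k2 (c ▸ a)
        · exact k3 (c ▸ a)
    · rw [card_singleton, card_pair k7.2.2.2.2.1]
    · intro t ht _
      rcases mem_insert.1 ht with a | a
      · subst a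
        exact Or.inl (Or.inl ⟨q, by simp, (h.wf.1 _ k7.2.1 q).2 hc⟩)
      · exact sg_serv h.sg (mem_erase.1 a).2
  by_cases hs1 : ∃ q ∈ Z, P.C s1.1 q
  · obtain ⟨q, a, b⟩ := hs1
    exact single s1 h1 (Or.inl rfl) q a b
  by_cases hs2 : ∃ q ∈ Z, P.C s2.1 q
  · obtain ⟨q, a, b⟩ := hs2
    exact single s2 h2 (Or.inr rfl) q a b
  have adjY : ∀ {j : J} {o : Bool}, ¬ P.mu j → P.rig e ρ j o → (¬ ∃ q ∈ Z, P.C j q) →
      ∀ q ∈ Z, P.adj j (!o) q := fun m r hn q hq => by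
    by_contra a
    exact hn ⟨q, hq, (C_iff m).2 (Geo.C_of (Geo.Q0_not_adj h.fr r.1 (hYp q hq).2) a)⟩
  obtain ⟨q1, y1, -, n1⟩ := pick h.fr (fun q hq => (hYp q hq).2) c1.1 (adjY mu1 r1 hs1) s1.2.1 hYc
  obtain ⟨q2, y2, n3, n2⟩ := pick h.fr (fun q hq => (hYp q hq).2) c2.1 (adjY mu2 r2 hs2) q1 hYc
  have p1 := (hYp q1 y1).1
  have p2 := (hYp q2 y2).1
  have h2' : s2 ∈ Γ.erase s1 := mem_erase.2 ⟨hne.symm, h2⟩
  have d1 : Dis2 (Γ.erase s1) := DJump.Dis2.mono h.sg.2 (erase_subset _ _)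
  obtain ⟨k1, k2, k3⟩ := DJump.Dis2.erase h.sg.2 h1
  obtain ⟨m1, m2, m3⟩ := DJump.Dis2.erase d1 h2'
  set Γ0 := (Γ.erase s1).erase s2 with hΓ0
  have k6 : Γ.erase s1 = insert s2 Γ0 := (insert_erase h2').symm
  have k7 : Γ = insert s1 (insert s2 Γ0) := by rw [← k6, insert_erase h1]
  have g1 := h.sg.1 s1 h1
  have g2 := h.sg.1 s2 h2
  have ne1 := g1.2.2.2.2.1
  have ne2 := g2.2.2.2.2.1
  have q1n := p1.2.1
  have q2n := p2.2.1
  rw [k6, ag2_insert] at k1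
  rw [k6, it2_insert] at k2 k3
  rw [k7, it2_insert, it2_insert] at q1n q2n
  simp only [mem_union, mem_insert, mem_singleton, not_or] at k1 k2 k3 q1n q2n
  refine fin (Γ' := insert (s1.1, q1, s1.2.2) (insert (s2.1, q2, s2.2.2) Γ0))
    (Hh := {(s1.1, q1, s1.2.2), (s2.1, q2, s2.2.2)}) (Hi := ∅) (U := {q1, q2})
    (D := {s1.2.1, s2.2.1}) (δ := 0) (nH := 2) hI hR h hB hκ o ra jb ?_ ?_ ?_ ?_ ?_ card_le_two ?_
    (even_pair k2.1.1 nf1 nf2) ?_ ?_ ?_ (by simp) (Or.inr (ob _ ⟨(s1.1, q1, s1.2.2), by simp, rfl, rfl⟩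
      ⟨(s2.1, q2, s2.2.2), by simp, rfl, rfl⟩))
    (by rw [union_empty]; exact card_le_two) he hl
  · conv_rhs => rw [k7]
    simp only [ag2_insert]
  · conv_rhs => rw [k7]
    simp only [it2_insert]
    exact set2 _ _ _ _ _ _ _
  · simp only [it2_insert]
    refine disjoint_left.2 fun v hv a => ?_
    simp only [mem_union, mem_insert, mem_singleton] at hv a
    rcases hv with rfl | rfl <;> rcases a with (a | a) | (a | a) | a
    exacts [q1n.1.1 a.symm, ne1 a, q2n.1.1 a.symm, k2.1.2 a, k2.2 a, q1n.2.1.1 a.symm,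
      k3.1.1 a.symm, q2n.2.1.1 a.symm, ne2 a, m2 a]
  · refine dis2_insert (dis2_insert (s := (s2.1, q2, s2.2.2)) (DJump.Dis2.mono d1 (erase_subset _ _))
      m1 q2n.2.2 m3) ?_ ?_ ?_
    · rw [ag2_insert, mem_insert, not_or]; exact k1
    · simp only [it2_insert, mem_union, mem_insert, mem_singleton, not_or]
      exact ⟨⟨n3.symm, q1n.2.1.2⟩, q1n.2.2⟩
    · simp only [it2_insert, mem_union, mem_insert, mem_singleton, not_or]
      exact ⟨⟨fun a => q2n.1.2 a.symm, k3.1.2⟩, k3.2⟩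
  · intro q hq
    rcases mem_insert.1 hq with a | a
    · exact a ▸ p1
    · exact mem_singleton.1 a ▸ p2
  · rw [card_pair k2.1.1]; exact card_le_two
  · exact insert_subset_insert _ (singleton_subset_iff.2 (mem_insert_self _ _))
  · intro t ht hn
    simp only [mem_insert, mem_singleton, not_or] at ht hn
    exact sg_serv h.sg (mem_of_mem_erase (mem_of_mem_erase
      ((ht.resolve_left hn.1).resolve_left hn.2)))
  · intro t ht
    rcases mem_insert.1 ht with a | a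
    · subst a
      exact ⟨⟨g1.2.1, mu1, o1, r1⟩, ⟨(hYp q1 y1).2, l1, n1,
        (Classical.em Y.pn).imp id fun k => ⟨p1.2.2.2.2, fun x => k (nf1'.1 x)⟩⟩, Geo.col_not_junk c1⟩
    · rw [mem_singleton] at a
      subst a
      exact ⟨⟨g2.2.1, mu2, o2, r2⟩, ⟨(hYp q2 y2).2, l2, n2,
        (Classical.em Y.pn).imp id fun k => ⟨p2.2.2.2.2, fun x => k (nf2'.1 x)⟩⟩, Geo.col_not_junk c2⟩

/-- The items of a service matched to its dummy are uncovered. -/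
theorem dummy_fix {B : Finset J} {μ : Nd J V → Nd J V} (cx : P.Ctx S e ρ Y B g μ) {j : J}
    (hj : μ (ag j) = dm j) : P.OldD e ρ B g j ∧ ∀ v ∈ (g j).its, μ (vx v) = vx v := by
  have a : P.OldD e ρ B g j := ((cx.im.2 (ag j) (dm j) (by simp)).1 hj).2
  refine ⟨a, fun v hv => ?_⟩
  by_contra hn
  have b := (cx.im.2 _ _ (Ne.symm hn)).1 rfl
  rcases hy : μ (vx v) with i | u | i <;> rw [hy] at b
  · have c : v ∈ (g i).its := by
      rcases b.2 with c | ⟨x, y, o, c, -, -, rfl, -⟩ | ⟨y, k, c, -⟩ <;> rw [c]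
      · simp [Sv.its]
      · cases o <;> simp [Sv.its, mi]
      · simp [Sv.its]
    cases own_eq cx.st b.1 a.1 c hv
    have d := cx.im.1 (vx v)
    rw [hy, hj] at d
    simp at d
  · obtain ⟨i, c⟩ := b
    have d : i ∈ B ∧ v ∈ (g i).its ∧ ∃ o, P.rig e ρ i o :=
      c.elim (fun c => ⟨c.1, (oldP_its c).1, (oldP_its c).2.2⟩)
        fun c => ⟨c.1, (oldP_its c).2.1, (oldP_its c).2.2⟩
    cases own_eq cx.st d.1 a.1 d.2.1 hv
    obtain ⟨o, d⟩ := d.2.2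
    exact rig_not_flex d a.2.2
  · exact b

theorem q0_bound (hI : ImgS) {Ω : Finset J} {l K : ℕ} {X : Ax J V} {μ ν : Nd J V → Nd J V}
    (o : Out P (S.rem (ag2 Γ) (it2 Γ)) e l ρ Y (B0 \ Ω) g X μ ν K) :
    ((PoolS (S.rem (ag2 Γ) (it2 Γ)) (B0 \ Ω) g μ ν).filter
      fun v => μ (vx v) = vx v ∧ P.Q0 e ρ v ∧ ¬ Y.nf v).card ≤
      (FQ P S e ρ Y B0 g).card + 3 * (QH P e ρ B0 g).card + 3 * Ω.card + 6 * K := by
  set B := B0 \ Ω with hB
  set N := B.filter fun j => ∃ x ∈ ends μ ν, x = dm j ∨ ∃ v ∈ (g j).its, x = vx v with hN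
  have cN : N.card ≤ (ends μ ν).card :=
    card_le_card_of_forall_subsingleton (fun j x => x = dm j ∨ ∃ v ∈ (g j).its, x = vx v)
      (fun j hj => (mem_filter.1 hj).2) fun x _ i hi j hj => by
        rcases hi.2 with a | ⟨v, a, a'⟩ <;> rcases hj.2 with b | ⟨u, b, b'⟩
        · simpa using a.symm.trans b
        · simpa using a.symm.trans b'
        · simpa using a'.symm.trans b
        · have : v = u := by simpa using a'.symm.trans b'
          exact own_eq o.cx.st (mem_filter.1 hi.1).1 (mem_filter.1 hj.1).1 a (this ▸ b)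
  have sub : ((PoolS (S.rem (ag2 Γ) (it2 Γ)) B g μ ν).filter
      fun v => μ (vx v) = vx v ∧ P.Q0 e ρ v ∧ ¬ Y.nf v) ⊆
      FQ P S e ρ Y B0 g ∪ itsB (Ω ∪ QH P e ρ B0 g) g ∪ itsB N g := by
    intro v hv
    obtain ⟨a1, a2, a3⟩ := mem_filter.1 hv
    obtain ⟨a4, -, a5⟩ := mem_filter.1 a1
    by_cases b : v ∈ itsB B0 g
    swap
    · exact mem_union_left _ (mem_union_left _ (mem_filter.2
        ⟨mem_sdiff.2 ⟨(mem_sdiff.1 a4).1, b⟩, a3⟩))
    obtain ⟨j, hj, b⟩ := mem_itsB.1 b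
    by_cases c : j ∈ Ω ∪ QH P e ρ B0 g
    · exact mem_union_left _ (mem_union_right _ (mem_itsB.2 ⟨j, c, b⟩))
    rw [mem_union, not_or] at c
    have hjB : j ∈ B := mem_sdiff.2 ⟨hj, c.1⟩
    have d : μ (ag j) = dm j := (((hI J V TK P _ e ρ Y B g o.cx.wf o.cx.fr o.cx.st o.cx.si).2 μ
      o.cx.im).2.2.2.2.2.2.2.2.2.2.1 j hjB v b a2).resolve_right fun k =>
        k.elim (fun k => k.1 a3.1) fun ⟨x, t, k1, k2, _⟩ =>
          c.2 (mem_filter.2 ⟨hj, x, v, t, k1, k2, a3.1⟩)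
    obtain ⟨d1, d2⟩ := dummy_fix o.cx d
    refine mem_union_right _ (mem_itsB.2 ⟨j, mem_filter.2 ⟨hjB, ?_⟩, b⟩)
    by_cases f : ν (ag j) = μ (ag j)
    · by_contra hn
      refine a5 ⟨j, ⟨hjB, d1.2.1, by rw [d]; simp, f, fun u hu _ => ?_⟩, b⟩
      by_contra k
      exact hn ⟨vx u, mem_filter.2 ⟨mem_univ _, Or.inl ⟨d2 u hu, k⟩⟩, Or.inr ⟨u, hu, rfl⟩⟩
    · refine ⟨dm j, mem_filter.2 ⟨mem_univ _, Or.inr ⟨?_, ?_⟩⟩, Or.inl rfl⟩
      · rw [← d, o.cx.im.1, d]; simp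
      · refine ((En_shape o.m).2 j).resolve_right fun k => f ?_
        rw [← k, o.m.1, k, d]
  have c1 := card_le_card sub
  have c2 := card_union_le (FQ P S e ρ Y B0 g ∪ itsB (Ω ∪ QH P e ρ B0 g) g) (itsB N g)
  have c3 := card_union_le (FQ P S e ρ Y B0 g) (itsB (Ω ∪ QH P e ρ B0 g) g)
  have c4 := card_itsB (Ω ∪ QH P e ρ B0 g) g
  have c4' := card_union_le Ω (QH P e ρ B0 g)
  have c5 := card_itsB N g
  have c6 := o.en
  omega

theorem b2core (hC : CompStmt) (hI : ImgS) (hO : OptS) (hCo : CoreS)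
    (h : Su P S e ρ Y B0 g Γ cT nr) {l κ c3 : ℕ} {nc : Prop} {mc : J → Prop} {Ω : Finset J}
    (h0 : Om0 P e ρ B0 g Γ ⊆ Ω) (hκ : Ω.card ≤ κ)
    (hm : ∀ j q z, P.OldP e ρ (B0 \ Ω) g j q z → P.rigid S e ρ j → ¬ mc j)
    (hu : ∀ j j', P.rigid S e ρ j → P.rigid S e ρ j' → mc j → mc j' → j = j')
    (hp : P.Pass (S.rem (ag2 Γ) (it2 Γ)) e ρ (ax2 nc fun _ => True) Y l)
    (hQ : ¬ nc ∨ ((FQ P S e ρ Y B0 g).card ≤ c3 ∧ (QH P e ρ B0 g).card ≤ c3)) :
    ∃ μ ν, Out P (S.rem (ag2 Γ) (it2 Γ)) e l ρ Y (B0 \ Ω) g (ax2 nc mc) μ ν (9 * κ + 9) ∧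
      P.RectA (S.rem (ag2 Γ) (it2 Γ)) Y (B0 \ Ω) g μ ν (6 * (9 * κ + 9) + 5)
        (4 * c3 + 3 * κ + 6 * (9 * κ + 9) + 11) ∧
      P.JointB (S.rem (ag2 Γ) (it2 Γ)) e ρ μ ν (2 * (9 * κ + 9)) := by
  obtain ⟨ν0, a, b, c, d, d'⟩ := hp
  have hp' : P.Pass (S.rem (ag2 Γ) (it2 Γ)) e ρ (ax2 nc mc) Y l :=
    ⟨ν0, a.mono fun x y k => by
      rcases x with i | u | i <;> rcases y with j | v | j <;> exact k, b, c,
      fun j hj _ => d j hj (Or.inr trivial), d'⟩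
  obtain ⟨μ, ν, o⟩ := best hC hI hCo h h0 hκ (X := ax2 nc mc) hm hp'
  obtain ⟨w, hb⟩ := o.bs
  obtain ⟨ra, jb⟩ := hO J V TK P _ e ρ Y _ g μ ν _ w _ (4 * c3 + 3 * κ + 6 * (9 * κ + 9)) o.cx hb o.nc
    (fun _ _ k => k.elim) hu (Or.inr (hQ.imp id fun k => by
      have := q0_bound hI o
      omega))
  exact ⟨μ, ν, o, ra, jb⟩

/-- The old pair edges outside the opened services. -/
noncomputable def PE (P : G3 J V TK) (e : ℕ) (ρ : Finset V) (B : Finset J) (g : J → Sv V) :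
    Finset (J × V × V) := univ.filter fun s => P.OldP e ρ B g s.1 s.2.1 s.2.2

theorem branchF (hC : CompStmt) (hP : PeStmt) (hI : ImgS) (hO : OptS) (hR : RealS)
    (hCo : CoreS) (h : Su P S e ρ Y B0 g Γ cT nr) {l mG c3 : ℕ} {nc : Prop}
    (hp : P.Pass (S.rem (ag2 Γ) (it2 Γ)) e ρ (ax2 nc fun _ => True) Y l)
    (hQ : ¬ nc ∨ ((FQ P S e ρ Y B0 g).card ≤ c3 ∧ (QH P e ρ B0 g).card ≤ c3))
    (hG : (PE P e ρ (B0 \ Om0 P e ρ B0 g Γ) g).card ≤ mG)
    (he : nr + 20 * (9 * (cT + 19 + mG) + 9) + 2 * 0 + 21 ≤ e)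
    (hl : 16 * (9 * (cT + 19 + mG) + 9) + 2 * 0 +
      (4 * c3 + 3 * (cT + 19 + mG) + 6 * (9 * (cT + 19 + mG) + 9) + 11) + 3 * (cT + 19 + mG) + 4 +
      frn S.W Y.nf B0 (fun j => (g j).its) ≤ l) : Res P S Y l := by
  set O0 := Om0 P e ρ B0 g Γ with hO0
  set Ω := O0 ∪ ag2 (PE P e ρ (B0 \ O0) g) with hΩ
  have hκ : Ω.card ≤ cT + 19 + mG := by
    have a1 : O0.card ≤ cT + 19 := card_Om0 h
    have a2 := card_ag2 (PE P e ρ (B0 \ O0) g)
    have a3 : Ω.card ≤ _ := card_union_le _ _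
    omega
  have hno : ∀ j q z, ¬ P.OldP e ρ (B0 \ Ω) g j q z := fun j q z a =>
    (mem_sdiff.1 a.1).2 (mem_union_right _ (mem_ag2.2 ⟨(j, q, z), mem_filter.2
      ⟨mem_univ _, oldP_mono (sdiff_subset_sdiff Subset.rfl subset_union_left) a⟩, rfl⟩))
  obtain ⟨μ, ν, o, ra, jb⟩ := b2core hC hI hO hCo h (mc := fun _ => False) subset_union_left hκ
    (fun _ _ _ _ _ k => k) (fun _ _ _ _ k => k.elim) hp hQ
  have nope : ∀ u v, u ≠ v → ν (vx v) ≠ vx u := fun u v hne a => by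
    have b := o.mX.2 (vx v) (by rw [a]; simpa using hne)
    rw [a] at b
    rcases b with b | b
    · exact b.2.2.1
    · obtain ⟨j, c⟩ := (o.cx.im.2 _ _ (by simpa using hne.symm)).1 b
      exact c.elim (hno _ _ _) (hno _ _ _)
  have allc : ∀ j ∈ (S.rem (ag2 Γ) (it2 Γ)).A, ν (ag j) ≠ ag j := by
    have a1 := ((hP J V).1 ν o.m.1 (En_shape o.m)).1
    have a2 : npe ν univ = 0 := card_eq_zero.2 (filter_eq_empty_iff.2 fun v _ k => by
      obtain ⟨-, u, k1, k2⟩ := k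
      exact nope u v k1 k2)
    have a3 : (univ.filter fun j : J => ν (ag j) ≠ ag j) ⊆ (S.rem (ag2 Γ) (it2 Γ)).A :=
      fun j hj => by
        have b := o.m.2 _ (mem_filter.1 hj).2
        rcases hy : ν (ag j) with i | u | i <;> rw [hy] at b
        · exact b.elim
        · exact b.1
        · exact b.2.1
    have a4 := o.sz
    have a5 := eq_of_subset_of_card_le a3 (by omega)
    intro j hj
    rw [← a5] at hj
    exact (mem_filter.1 hj).2
  exact fin (Γ' := Γ) (Hh := ∅) (Hi := ∅) (U := ∅) (D := ∅) (δ := 0) (nH := 0) hI hR h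
    sdiff_subset ((card_sd _ _).trans hκ) o ra jb rfl rfl (by simp) h.sg.2 (by simp) (by simp)
    (by simp) (by simp) (by simp)
    (fun s hs _ => sg_serv h.sg hs) (by simp) (by simp)
    (Or.inr ⟨fun j hj a => (allc j hj a).elim, fun q z a b _ => (nope z q a b).elim⟩)
    (by simp) he hl

/-- Few old pair edges are lost if no new pair edges are allowed. -/
theorem card_lost (hC : CompStmt) (hP : PeStmt) (hI : ImgS) {B : Finset J} {l K : ℕ}
    {nc : Prop} {mc : J → Prop} {μ ν : Nd J V → Nd J V} (o : Out P S e l ρ Y B g (ax2 nc mc) μ ν K)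
    (G : Finset (J × V × V)) :
    (G.filter fun s => P.OldP e ρ B g s.1 s.2.1 s.2.2 ∧ ν (vx s.2.1) ≠ vx s.2.2).card ≤ K := by
  obtain ⟨i1, -, -, -, -, -, -, i8, -⟩ :=
    (hI J V TK P S e ρ Y B g o.cx.wf o.cx.fr o.cx.st o.cx.si).2 μ o.cx.im
  obtain ⟨k1, k2, -, k4, -⟩ := hC _ μ ν i1.1 o.m.1
  refine le_trans (card_le_card_of_injOn (fun s => cmp μ ν (vx s.2.1)) (fun s hs => ?_)
    fun s hs t ht hst => ?_) o.nc
  · obtain ⟨-, a, b⟩ := mem_filter.1 (mem_coe.1 hs)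
    refine mem_coe.2 (mem_image.2 ⟨vx s.2.1, mem_filter.2 ⟨mem_univ _, ?_⟩, rfl⟩)
    rw [(i8 _ _ _ a).2.2.2.2.2.2]
    exact b.symm
  · obtain ⟨-, a, b⟩ := mem_filter.1 (mem_coe.1 hs)
    obtain ⟨-, a', b'⟩ := mem_filter.1 (mem_coe.1 ht)
    by_contra hne
    have n1 : s.1 ≠ t.1 := fun k => by
      obtain ⟨c1, c2⟩ := oldP_uniq a (k ▸ a')
      exact hne (Prod.ext k (Prod.ext c1 c2))
    obtain ⟨-, -, c3, -, -, -, c7⟩ := i8 _ _ _ a
    obtain ⟨-, -, d3, -, -, -, d7⟩ := i8 _ _ _ a'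
    have z0 : npe ν (cmp μ ν (vx s.2.1)) = 0 :=
      card_eq_zero.2 (filter_eq_empty_iff.2 fun v _ k => by
        obtain ⟨hv, u, f1, f2⟩ := k
        have f3 := k4 _ _ (by rw [c7]; exact b.symm) hv
        have f4 := o.mX.2 (vx v) (by rw [f2]; simpa using f1)
        rcases f4 with f4 | f4
        · rw [f2] at f4
          exact f4.2.2.1
        · exact f3 f4)
    have z1 := ((hP J V).2 μ ν i1.1 o.m.1 (En_shape i1) (En_shape o.m) (vx s.2.1)).1
    have z2 : ({s.2.1, s.2.2, t.2.1} : Finset V) ⊆ univ.filter fun v : V =>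
        vx v ∈ cmp μ ν (vx s.2.1) ∧ ∃ u, u ≠ v ∧ μ (vx v) = vx u := by
      intro v hv
      simp only [mem_insert, mem_singleton] at hv
      refine mem_filter.2 ⟨mem_univ _, ?_⟩
      rcases hv with rfl | rfl | rfl
      · exact ⟨(k1 _).1, _, c3.1.symm, c7⟩
      · refine ⟨c7 ▸ (k1 _).2.1 _ (k1 _).1, _, c3.1, ?_⟩
        rw [← c7, i1.1]
      · have : cmp μ ν (vx s.2.1) = cmp μ ν (vx t.2.1) := hst
        exact ⟨this ▸ (k1 _).1, _, d3.1.symm, d7⟩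
    have z3 : ({s.2.1, s.2.2, t.2.1} : Finset V).card = 3 := card_eq_three.2
      ⟨_, _, _, c3.1, fun k => n1 (own_eq o.cx.st a.1 a'.1 (oldP_its a).1 (k ▸ (oldP_its a').1)),
        fun k => n1 (own_eq o.cx.st a.1 a'.1 (oldP_its a).2.1 (k ▸ (oldP_its a').1)), rfl⟩
    have z4 := card_le_card z2
    have z5 : npe μ (cmp μ ν (vx s.2.1)) = (univ.filter fun v : V =>
        vx v ∈ cmp μ ν (vx s.2.1) ∧ ∃ u, u ≠ v ∧ μ (vx v) = vx u).card := rfl
    omega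

theorem branchM (hC : CompStmt) (hP : PeStmt) (hI : ImgS) (hO : OptS) (hR : RealS)
    (hCo : CoreS) (h : Su P S e ρ Y B0 g Γ cT nr) {l c3 : ℕ} {nc : Prop}
    (hp : P.Pass (S.rem (ag2 Γ) (it2 Γ)) e ρ (ax2 nc fun _ => True) Y l)
    (hQ : ¬ nc ∨ ((FQ P S e ρ Y B0 g).card ≤ c3 ∧ (QH P e ρ B0 g).card ≤ c3))
    (hG : 9 * (9 * (cT + 21) + 9) + 12 ≤
      (PE P e ρ (B0 \ Om0 P e ρ B0 g Γ) g).card)
    (he : nr + 20 * (9 * (cT + 21) + 9) + 2 * (9 * (9 * (cT + 21) + 9) + 12) + 21 ≤ e)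
    (hl : 16 * (9 * (cT + 21) + 9) + 2 * (9 * (9 * (cT + 21) + 9) + 12) +
      (4 * c3 + 3 * (cT + 21) + 6 * (9 * (cT + 21) + 9) + 11) + 3 * (cT + 21) + 4 +
      frn S.W Y.nf B0 (fun j => (g j).its) ≤ l) : Res P S Y l := by
  set O0 := Om0 P e ρ B0 g Γ with hO0
  obtain ⟨G, hGs, hGc⟩ := exists_subset_card_eq hG
  have hGo : ∀ s ∈ G, P.OldP e ρ (B0 \ O0) g s.1 s.2.1 s.2.2 := fun s hs =>
    (mem_filter.1 (hGs hs)).2
  have hG1 : ∀ s ∈ G, ∀ t ∈ G, s.1 = t.1 → s = t := fun s hs t ht k => by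
    obtain ⟨c1, c2⟩ := oldP_uniq (hGo s hs) (k ▸ hGo t ht)
    exact Prod.ext k (Prod.ext c1 c2)
  let zb : V → Prop := fun z => 2 * G.card ≤ 3 * (G.filter fun s => P.junk s.1 z).card
  let mc : J → Prop := fun j => 2 * G.card ≤ 3 * (G.filter fun s => P.junk j s.2.2).card
  have u1 : ∀ z z', zb z → zb z' → z = z' := fun z z' a b => by
    obtain ⟨s, hs, t, ht, hne, c1, c2, c3, c4⟩ := two_thirds (by omega) a b
    obtain ⟨o, r⟩ := (oldP_its (hGo s hs)).2.2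
    obtain ⟨o', r'⟩ := (oldP_its (hGo t ht)).2.2
    exact Geo.rig_junk h.fr (fun k => hne (hG1 s hs t ht k)) r r' c1 c2 c3 c4
  have u2 : ∀ j j', P.rigid S e ρ j → P.rigid S e ρ j' → mc j → mc j' → j = j' :=
    fun j j' a b c d => by
      by_contra hn
      obtain ⟨-, -, o, a⟩ := a
      obtain ⟨-, -, o', b⟩ := b
      obtain ⟨s, hs, t, ht, hne, c1, c2, c3, c4⟩ := two_thirds (by omega) c d
      have k := Geo.rig_junk h.fr hn a b c1 c3 c2 c4
      exact hne (hG1 s hs t ht (own_eq h.mn.1 (mem_sdiff.1 (hGo s hs).1).1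
        (mem_sdiff.1 (hGo t ht).1).1 (oldP_its (hGo s hs)).2.1 (k ▸ (oldP_its (hGo t ht)).2.1)))
  set O1 := B0.filter fun j => ∃ q z, P.OldP e ρ B0 g j q z ∧ zb z with hO1
  set O2 := B0.filter fun j => P.rigid S e ρ j ∧ mc j with hO2
  have c1 : O1.card ≤ 1 := card_le_one.2 fun i hi j hj => by
    obtain ⟨a, q, z, b, c⟩ := mem_filter.1 hi
    obtain ⟨a', q', z', b', c'⟩ := mem_filter.1 hj
    cases u1 z z' c c'
    exact own_eq h.mn.1 a a' (oldP_its b).2.1 (oldP_its b').2.1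
  have c2 : O2.card ≤ 1 := card_le_one.2 fun i hi j hj =>
    u2 i j (mem_filter.1 hi).2.1 (mem_filter.1 hj).2.1 (mem_filter.1 hi).2.2 (mem_filter.1 hj).2.2
  have c12 : (O1 ∪ O2).card ≤ 2 := (card_union_le _ _).trans (by omega)
  have c3' : (O0 ∪ (O1 ∪ O2)).card ≤ cT + 21 := by
    have a1 : O0.card ≤ cT + 19 := card_Om0 h
    have a2 := card_union_le O0 (O1 ∪ O2)
    omega
  obtain ⟨μ, ν, o, ra, jb⟩ := b2core hC hI hO hCo h (mc := mc) subset_union_left c3'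
    (fun j q z a b c => (mem_sdiff.1 a.1).2 (mem_union_right _
      (mem_union_right _ (mem_filter.2 ⟨(mem_sdiff.1 a.1).1, b, c⟩)))) u2 hp hQ
  set B := B0 \ (O0 ∪ (O1 ∪ O2)) with hB
  set Hi := G.filter fun s => P.OldP e ρ B g s.1 s.2.1 s.2.2 ∧ ν (vx s.2.1) = vx s.2.2 ∧
    ν (ag s.1) = ag s.1 with hHi
  have cH : 2 * G.card ≤ 3 * Hi.card := by
    have i8 := ((hI J V TK P _ e ρ Y B g o.cx.wf o.cx.fr o.cx.st o.cx.si).2 μ
      o.cx.im).2.2.2.2.2.2.2.1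
    have a1 := card_lost hC hP hI o G
    have a2 : (G.filter fun s => s.1 ∈ O1 ∪ O2).card ≤ (O1 ∪ O2).card :=
      card_le_card_of_injOn (fun s => s.1)
        (fun s hs => mem_coe.2 (mem_filter.1 (mem_coe.1 hs)).2) fun s hs t ht k =>
        hG1 s (mem_filter.1 (mem_coe.1 hs)).1 t (mem_filter.1 (mem_coe.1 ht)).1 k
    have a3 : (G.filter fun s => ag s.1 ∈ ends μ ν).card ≤ (ends μ ν).card :=
      card_le_card_of_injOn (fun s => ag s.1)
        (fun s hs => mem_coe.2 (mem_filter.1 (mem_coe.1 hs)).2) fun s hs t ht k =>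
        hG1 s (mem_filter.1 (mem_coe.1 hs)).1 t (mem_filter.1 (mem_coe.1 ht)).1 (by simpa using k)
    have a4 : G ⊆ Hi ∪ (G.filter fun s => P.OldP e ρ B g s.1 s.2.1 s.2.2 ∧
        ν (vx s.2.1) ≠ vx s.2.2) ∪ (G.filter fun s => s.1 ∈ O1 ∪ O2) ∪
        G.filter fun s => ag s.1 ∈ ends μ ν := fun s hs => by
      by_cases b1 : s.1 ∈ O1 ∪ O2
      · exact mem_union_left _ (mem_union_right _ (mem_filter.2 ⟨hs, b1⟩))
      have b2 : P.OldP e ρ B g s.1 s.2.1 s.2.2 :=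
        ⟨mem_sdiff.2 ⟨(mem_sdiff.1 (hGo s hs).1).1, fun k => (mem_union.1 k).elim
          (mem_sdiff.1 (hGo s hs).1).2 b1⟩, (hGo s hs).2⟩
      by_cases b3 : ν (ag s.1) = ag s.1
      swap
      · exact mem_union_right _ (mem_filter.2 ⟨hs, mem_filter.2
          ⟨mem_univ _, Or.inl ⟨(i8 _ _ _ b2).2.2.2.2.2.1, b3⟩⟩⟩)
      by_cases b4 : ν (vx s.2.1) = vx s.2.2
      · exact mem_union_left _ (mem_union_left _ (mem_union_left _ (mem_filter.2 ⟨hs, b2, b4, b3⟩)))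
      · exact mem_union_left _ (mem_union_left _ (mem_union_right _ (mem_filter.2 ⟨hs, b2, b4⟩)))
    have a5 := (card_le_card a4).trans ((card_union_le _ _).trans (Nat.add_le_add_right
      ((card_union_le _ _).trans (Nat.add_le_add_right (card_union_le _ _) _)) _))
    have a6 := o.en
    omega
  refine fin (Γ' := Γ) (Hh := ∅) (Hi := Hi) (U := ∅) (D := ∅) (δ := 0) hI hR h sdiff_subset
    ((card_sd _ _).trans c3') o ra jb rfl rfl (by simp) h.sg.2 (by simp) (by simp) (by simp)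
    (by simp) (by simp)
    (fun s hs _ => sg_serv h.sg hs) (by simp) (fun s hs => (mem_filter.1 hs).2)
    (Or.inr ⟨fun j hj a => ?_, fun q z a b c => ?_⟩)
    (by rw [empty_union, ← hGc]; exact card_filter_le _ _) he hl
  · rw [empty_union]
    exact exists_not (filter_subset _ _) cH fun k => o.cv j hj (Or.inr k) a
  · rw [empty_union]
    refine exists_not (p := fun s => P.junk s.1 z) (filter_subset _ _) cH fun k => ?_
    rcases pe_edge hI o a b c with d | ⟨j, d⟩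
    · exact d.1
    · exact (mem_sdiff.1 d.1).2 (mem_union_right _ (mem_union_left _ (mem_filter.2
        ⟨(mem_sdiff.1 d.1).1, q, z, oldP_mono sdiff_subset d, k⟩)))

/-- Hidden heavy items of multiple agents are released in exchange for frame items. -/
theorem swap (hf : P.Frame e ρ) (mn : P.Min3 S B0 g) (rW : ρ ⊆ S.W)
    (rd : Disjoint ρ (itsB B0 g)) (rnf : ∀ r ∈ ρ, ¬ Y.nf r) (gd : P.Good e ρ Y B0 g) (n : ℕ)
    (hn : n ≤ e) (hq : n ≤ (QH P e ρ B0 g).card) :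
    ∃ g', P.Min3 S B0 g' ∧ P.Good e ρ Y B0 g' ∧
      (ρ.filter fun r => r ∉ S.W ∨ r ∈ itsB B0 g').card ≤ n ∧
      (QH P e ρ B0 g).card ≤ (QH P e ρ B0 g').card + n ∧ n ≤ (FQ P S e ρ Y B0 g').card ∧
      frn S.W Y.nf B0 (fun j => (g' j).its) = frn S.W Y.nf B0 (fun j => (g j).its) ∧
      use B0 (fun j => (g' j).its) = use B0 (fun j => (g j).its) := by
  induction n with
  | zero =>
    refine ⟨g, mn, gd, ?_, by omega, by omega, rfl, rfl⟩
    rw [filter_false_of_mem fun r hr k => k.elim (fun k => k (rW hr)) (disjoint_left.1 rd hr)]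
    simp
  | succ n ih =>
    obtain ⟨g1, m1, d1, c1, c2, c3, c4, c5⟩ := ih (by omega) (by omega)
    obtain ⟨j, hj⟩ := card_pos.1 (show 0 < (QH P e ρ B0 g1).card by omega)
    obtain ⟨jB, a, v, k, hg, hk, hv⟩ := mem_filter.1 hj
    obtain ⟨na, nv⟩ := (d1 j jB a v hg hk.2.2).2.2.2 k hk
    have nm := m1.1.nrm j jB
    rw [hg] at nm
    obtain ⟨geo, nm⟩ := nm
    obtain ⟨-, p1, p2, -⟩ := nm.resolve_left fun x => x.1 hk.1
    obtain ⟨r, hr, rU⟩ := Geo.exists_not_mem (s := ρ.filter fun r => P.colk j k r)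
      (U := ρ.filter fun r => r ∉ S.W ∨ r ∈ itsB B0 g1) (by
        have a1 := rigm_col hf hk
        have a2 := card_filter_add_card_filter_not (s := ρ) (fun r => P.colk j k r)
        have a3 := hf.1
        omega)
    obtain ⟨rρ, rc⟩ := mem_filter.1 hr
    have rn : r ∉ itsB B0 g1 := fun x => rU (mem_filter.2 ⟨rρ, Or.inr x⟩)
    have par : P.Pr j a r := Pr_symm (Pr_of_colk rc na (Or.inl hk.1))
    have aj : a ∈ (g1 j).its := by rw [hg]; simp [Sv.its]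
    have vj : v ∈ (g1 j).its := by rw [hg]; simp [Sv.its]
    have vr : v ≠ r := fun x => Geo.Q0_not_mem hf hv (x ▸ rρ)
    let g2 := Function.update g1 j (Sv.two a r)
    have e1 : g2 j = Sv.two a r := Function.update_self _ _ _
    have e2 : ∀ i, i ≠ j → g2 i = g1 i := fun i hi => Function.update_of_ne hi _ _
    have e3 : (g2 j).its = {a, r} := by rw [e1]; rfl
    have e4 : (g1 j).its = {a, v} := by rw [hg]; rfl
    have hmem : ∀ x, x ∈ itsB B0 g2 ↔ (x ∈ itsB B0 g1 ∧ x ≠ v) ∨ x = r := fun x => by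
      simp only [mem_itsB]
      constructor
      · rintro ⟨i, hi, hx⟩
        by_cases c : i = j
        · subst c
          rw [e3, mem_insert, mem_singleton] at hx
          exact hx.imp (fun y : x = a => ⟨⟨i, hi, y ▸ aj⟩, y ▸ p1.1⟩) id
        · rw [e2 i c] at hx
          exact Or.inl ⟨⟨i, hi, hx⟩, fun y => c (own_eq m1.1 hi jB hx (y ▸ vj))⟩
      · rintro (⟨⟨i, hi, hx⟩, y⟩ | y)
        · by_cases c : i = j
          · subst c
            rw [e4, mem_insert, mem_singleton] at hx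
            exact ⟨i, hi, by rw [e3, hx.resolve_right y]; simp⟩
          · exact ⟨i, hi, by rw [e2 i c]; exact hx⟩
        · exact ⟨j, jB, by rw [e3, y]; simp⟩
    have hu : use B0 (fun i => (g2 i).its) = use B0 (fun i => (g1 i).its) :=
      sum_congr rfl fun i _ => by
        by_cases c : i = j
        · subst c
          simp only [e3, e4, card_pair par.1, card_pair p1.1]
        · simp only [e2 i c]
    have hd : ∀ i ∈ B0, i ≠ j → Disjoint (g2 j).its (g2 i).its := fun i hi c => by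
      rw [e3, e2 i c]
      refine disjoint_left.2 fun x hx y => ?_
      rcases mem_insert.1 hx with z | z
      · exact c (own_eq m1.1 hi jB y (z ▸ aj))
      · exact rn (mem_itsB.2 ⟨i, hi, mem_singleton.1 z ▸ y⟩)
    refine ⟨g2, ⟨⟨m1.1.sub, fun i hi => ?_, fun i hi => ?_, fun i hi i' hi' hne => ?_⟩,
      fun f hf' => hu ▸ m1.2 f hf'⟩, fun i hi x y hx nb => ?_, ?_, ?_, ?_, ?_, hu.trans c5⟩
    · by_cases c : i = j
      · subst c
        rw [e3]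
        exact insert_subset (m1.1.inW i hi aj) (singleton_subset_iff.2 (rW rρ))
      · rw [e2 i c]; exact m1.1.inW i hi
    · by_cases c : i = j
      · subst c
        rw [e1]
        exact ⟨geo, Or.inr ⟨hk.1, par, p2, colk_not_C rc⟩⟩
      · rw [e2 i c]; exact m1.1.nrm i hi
    · by_cases c : i = j
      · subst c; exact hd i' hi' hne.symm
      by_cases c' : i' = j
      · subst c'; exact (hd i hi hne).symm
      · rw [e2 i c, e2 i' c']; exact m1.1.dis i hi i' hi' hne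
    · by_cases c : i = j
      · subst c
        rw [e1] at hx
        cases hx
        exact ⟨Or.inl hk.1, fun z => (rigm_not_flex hk z).elim, fun _ z => (z hk.1).elim,
          fun k' z => ⟨rigm_unique hf hk z ▸ na, rnf _ rρ⟩⟩
      · rw [e2 i c] at hx; exact d1 i hi x y hx nb
    · refine le_trans (card_le_card (t := insert r (ρ.filter fun r => r ∉ S.W ∨ r ∈ itsB B0 g1))
        fun x hx => ?_) ((card_insert_le _ _).trans (by omega))
      obtain ⟨y, z⟩ := mem_filter.1 hx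
      rw [hmem] at z
      rw [mem_insert, mem_filter]
      tauto
    · have : QH P e ρ B0 g1 ⊆ insert j (QH P e ρ B0 g2) := fun i hi => by
        by_cases c : i = j
        · exact c ▸ mem_insert_self _ _
        · refine mem_insert_of_mem (mem_filter.2 ⟨(mem_filter.1 hi).1, ?_⟩)
          rw [e2 i c]; exact (mem_filter.1 hi).2
      have := (card_le_card this).trans (card_insert_le _ _)
      omega
    · have a1 : v ∉ FQ P S e ρ Y B0 g1 := fun x =>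
        (mem_sdiff.1 (mem_filter.1 x).1).2 (mem_itsB.2 ⟨j, jB, vj⟩)
      have a2 : insert v (FQ P S e ρ Y B0 g1) ⊆ FQ P S e ρ Y B0 g2 := fun x hx => by
        rcases mem_insert.1 hx with y | y
        · subst y
          refine mem_filter.2 ⟨mem_sdiff.2 ⟨m1.1.inW j jB vj, fun z => ?_⟩, hv, nv⟩
          exact ((hmem _).1 z).elim (fun z => z.2 rfl) vr
        · obtain ⟨y1, y2⟩ := mem_filter.1 y
          refine mem_filter.2 ⟨mem_sdiff.2 ⟨(mem_sdiff.1 y1).1, fun z => ?_⟩, y2⟩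
          exact ((hmem _).1 z).elim (fun z => (mem_sdiff.1 y1).2 z.1)
            fun z => Geo.Q0_not_mem hf y2.1 (z ▸ rρ)
      have a3 := card_le_card a2
      rw [card_insert_of_notMem a1] at a3
      omega
    · rw [← c4]
      unfold frn
      congr 1
      refine filter_congr fun x _ => and_congr_right fun y => ?_
      have k1 : ∀ g' : J → Sv V, (∀ i ∈ B0, x ∉ (g' i).its) ↔ x ∉ itsB B0 g' := fun g' => by
        simp only [mem_itsB, not_exists, not_and]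
      refine (k1 g2).trans (Iff.trans ?_ (k1 g1).symm)
      rw [hmem]
      exact ⟨fun z w => z (Or.inl ⟨w, fun u => nv (u ▸ y)⟩),
        fun z w => w.elim (fun w => z w.1) fun w => rnf _ rρ (w ▸ y)⟩

end Main

end EJump

open Finset Classical D2 G3 EJump in
theorem jumpS (hC : CompStmt) (hP : PeStmt) (hN : NormS) (hT : TripS) (hI : ImgS) (hO : OptS)
    (hR : RealS) (hCo : CoreS) : JumpS := by
  obtain ⟨cT, hT⟩ := hT
  obtain ⟨K1, hK1⟩ : ∃ K1, K1 = 9 * (cT + 21) + 9 := ⟨_, rfl⟩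
  obtain ⟨mG, hmG⟩ : ∃ mG, mG = 9 * K1 + 12 := ⟨_, rfl⟩
  obtain ⟨e, he⟩ : ∃ e, e = 20 * (9 * (cT + 21 + mG) + 9) + 2 * mG + 2 * K1 + 200 := ⟨_, rfl⟩
  refine ⟨e, 40 * (9 * (cT + 21 + mG) + 9) + 2 * mG + 8 * K1 + 200, ?_⟩
  intro J V TK _ _ _ _ _ _ P S l ρ Y B g hw hAB hg r2 rW rd rnf gd hl hu ⟨Γ, g1, g2, g3⟩
  have su : ∀ g' nr, P.Min3 S B g' → P.Good e ρ Y B g' →
      (ρ.filter fun r => r ∉ S.W ∨ r ∈ itsB B g').card ≤ nr → nr ≤ 2 * K1 + 16 →
      use B (fun j => (g' j).its) = use B (fun j => (g j).its) → Su P S e ρ Y B g' Γ cT nr :=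
    fun g' nr a b c d f => ⟨hw, r2, hAB, a, c, rnf, b, g1, g2, by omega, by omega,
      hT J V TK P S _ g' hw a, (hN J V TK P S B hw).2.2.2.2.2.2.2.1 g' e ρ r2 (Or.inl a)⟩
  have h : Su P S e ρ Y B g Γ cT 0 := su g 0 hg gd (by
    rw [filter_false_of_mem fun r hr k => k.elim (fun k => k (rW hr)) (disjoint_left.1 rd hr)]
    simp) (by omega) rfl
  have b2 : ∀ nc : Prop, P.Pass (S.rem (ag2 Γ) (it2 Γ)) e ρ (DJump.ax2 nc fun _ => True) Y l →
      (¬ nc ∨ ((FQ P S e ρ Y B g).card ≤ 2 * K1 + 16 ∧ (QH P e ρ B g).card ≤ 2 * K1 + 16)) →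
      Res P S Y l := fun nc hp hQ => by
    by_cases k : (PE P e ρ (B \ Om0 P e ρ B g Γ) g).card ≤ mG
    · exact branchF hC hP hI hO hR hCo h hp hQ k (by omega) (by omega)
    · exact branchM hC hP hI hO hR hCo h hp hQ (by omega) (by omega) (by omega)
  rcases g3 with ⟨s1, a1, s2, a2, a3, a4, a5, a6⟩ | ⟨s1, a1, s2, a2, a3, a4, a5, a6⟩ | a
  · exact branchW hC hI hO hR hCo h a1 a2 a3 a4 a5 a6 (by omega) (by omega)
  · by_cases k : (FQ P S e ρ Y B g).card ≤ 2 * K1 + 16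
    swap
    · exact branchN hC hI hO hR hCo h a1 a2 a3 a4 a5 a6 (by omega) (by omega) (by omega)
    by_cases k' : (QH P e ρ B g).card ≤ 2 * K1 + 16
    · exact b2 True a6 (Or.inr ⟨k, k'⟩)
    obtain ⟨g', c1, c2, c3, -, c4, c5, c6⟩ := swap r2 hg rW rd rnf gd (2 * K1 + 16) (by omega)
      (not_le.1 k').le
    exact branchN hC hI hO hR hCo (su g' _ c1 c2 c3 le_rfl c6) a1 a2 a3 a4 a5 a6 (by omega)
      (by omega) (by omega)
  · exact b2 False a (Or.inl id)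

end Pool.Agent.Lib.MP_ef7581_lc.D3
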