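import Mathlib
import Pool.Agent.Lib.MP_ef7581_lc.EGeo
import Pool.Agent.Lib.MP_ef7581_lc.DUA
import Pool.Agent.Lib.MP_ef7581_lc.DKV

-- part Pool.Agent.Lib.MP_ef7581_lc.EM
section

/-!
The absorbing case of families of multiple agents: soundness and necessity of the test.
-/

set_option autoImplicit false
set_option linter.unusedSectionVars false

namespace Pool.Agent.Lib.MP_ef7581_lc.D3

open Finset Classical D2 DUA

namespace EM

variable {J V K : Type} [Fintype J] [Fintype V] [Fintype K] [DecidableEq J] [DecidableEq V]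
  [DecidableEq K] {P : G3 J V K} {sv : J → Finset V → Prop}

theorem ex_union {ι : Type} [DecidableEq ι] (T : Finset ι) (A : ι → Finset J) (W : ι → Finset V)
    (h : ∀ r ∈ T, Ex sv (A r) (W r)) (hd : ∀ r ∈ T, ∀ r' ∈ T, r ≠ r' → Disjoint (W r) (W r')) :
    Ex sv (T.biUnion A) (T.biUnion W) := by
  induction T using Finset.induction_on with
  | empty => simpa using Ex.empty (sv := sv) ∅
  | insert r T hr ih =>
    rw [biUnion_insert, biUnion_insert]
    refine (h r (mem_insert_self _ _)).glue (ih (fun x hx => h x (mem_insert_of_mem hx))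
      fun x hx y hy => hd x (mem_insert_of_mem hx) y (mem_insert_of_mem hy)) ?_
    rw [disjoint_biUnion_right]
    exact fun x hx => hd r (mem_insert_self _ _) x (mem_insert_of_mem hx) fun e => hr (e ▸ hx)

theorem ex_three {i j k : J} {s t u : Finset V} (h1 : sv i s) (h2 : sv j t) (h3 : sv k u)
    (d1 : Disjoint s t) (d2 : Disjoint s u) (d3 : Disjoint t u) :
    Ex sv ({i} ∪ {j} ∪ {k}) (s ∪ t ∪ u) :=
  ((Ex.single h1).glue (Ex.single h2) d1).glue (Ex.single h3) (disjoint_union_left.2 ⟨d2, d3⟩)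

theorem serv_pr {j : J} {a b : V} (h : P.Pr j a b) : P.Serv3 (P.pl univ univ) j {a, b} :=
  Or.inl (Or.inr ⟨trivial, a, by simp, b, by simp, h⟩)

/-- An item that is not junk can be paired with one of the two items of a multiple agent. -/
theorem pr_or {j : J} {a b z : V} (hm : P.mu j) (h : P.Pr j a b) (ha : z ≠ a) (hb : z ≠ b)
    (hz : ¬ P.junk j z) : P.Pr j z b ∨ P.Pr j z a := by
  by_contra hn
  rw [not_or] at hn
  obtain ⟨k, k1⟩ := not_forall.1 fun c => hn.1 ⟨hb, Or.inl hm, c⟩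
  obtain ⟨k', k2⟩ := not_forall.1 fun c => hn.2 ⟨ha, Or.inl hm, c⟩
  rw [not_not] at k1 k2
  exact hz (G3.junk_of_two k1.1 k2.1 fun e => h.2.2 k ⟨e ▸ k2.2, k1.2⟩)

/-- Three members absorb one item and release the exposed item of the lowest one. -/
theorem tri {N : ℕ} {ty : Bool} {F : Fin N → Mb J V} (hF : P.MFam ty F) {r m t : Fin N}
    (h1 : r < m) (h2 : m < t) {z : V} (hz : z ∉ fitF F) (hj : ¬ P.junk (F m).1 z) :
    Ex (P.Serv3 (P.pl univ univ)) {(F r).1, (F m).1, (F t).1}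
      {(F r).2.2.2, (F m).2.2.1, (F m).2.2.2, (F t).2.2.1, (F t).2.2.2, z} := by
  have za : ∀ s, z ≠ (F s).2.2.1 := fun s e => hz (mem_fitF.2 ⟨s, Or.inl e⟩)
  have zb : ∀ s, z ≠ (F s).2.2.2 := fun s e => hz (mem_fitF.2 ⟨s, Or.inr e⟩)
  have a1 : (F m).2.2.1 ≠ (F t).2.2.1 := fun e => h2.ne (aa hF.dis e)
  have b1 : (F r).2.2.2 ≠ (F m).2.2.2 := fun e => h1.ne (bb hF.dis e)
  have b2 : (F r).2.2.2 ≠ (F t).2.2.2 := fun e => (h1.trans h2).ne (bb hF.dis e)
  have b3 : (F m).2.2.2 ≠ (F t).2.2.2 := fun e => h2.ne (bb hF.dis e)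
  have c := ab hF.dis
  have c1 := c m r
  have c2 := c m m
  have c3 := c m t
  have c4 := c t r
  have c5 := c t m
  have c6 := c t t
  have z1 := za m
  have z2 := za t
  have z3 := zb r
  have z4 := zb m
  have z5 := zb t
  rcases pr_or (hF.mul m) (hF.own m) z1 z4 hj with h | h
  · refine (ex_three (serv_pr (hF.upa r m h1)) (serv_pr h) (serv_pr (hF.own t)) ?_ ?_ ?_).mono
      (fun x => ?_) fun x => ?_ <;>
    simp only [disjoint_left, mem_insert, mem_singleton, mem_union] <;> grind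
  cases ty
  · refine (ex_three (serv_pr (hF.upa r t (h1.trans h2))) (serv_pr h)
      (serv_pr (hF.dnb rfl m t h2)) ?_ ?_ ?_).mono (fun x => ?_) fun x => ?_ <;>
    simp only [disjoint_left, mem_insert, mem_singleton, mem_union] <;> grind
  · refine (ex_three (serv_pr (hF.upb rfl r m h1)) (serv_pr h) (serv_pr (hF.own t)) ?_ ?_ ?_).mono
      (fun x => ?_) fun x => ?_ <;>
    simp only [disjoint_left, mem_insert, mem_singleton, mem_union] <;> grind

variable {c : ℕ} {ty : Bool} {F : Fin (NU c) → Mb J V}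

/-- The family absorbs `Z` and releases `X`. -/
theorem absorb (hF : P.MFam ty F) {Z X : Finset V} (hZ : ∀ z ∈ Z, z ∉ fitF F ∧ ¬ P.base.waste F z)
    (hX : X ⊆ Geo.expo c F) (hc : X.card ≤ Z.card) :
    Ex (P.Serv3 (P.pl univ univ)) (fagF F) ((fitF F \ X) ∪ Z) := by
  obtain ⟨I, mI⟩ : ∃ I : Finset (Fin (NU c)), ∀ r, r ∈ I ↔ (F r).2.2.1 ∈ X :=
    ⟨univ.filter fun r => (F r).2.2.1 ∈ X, by simp⟩
  have lt : ∀ r ∈ I, r.val < c := fun r hr => by
    obtain ⟨s, h1, h2⟩ := mem_expo.1 (hX ((mI r).1 hr))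
    exact aa hF.dis h2 ▸ h1
  have nb : ∀ r, (F r).2.2.2 ∉ X := fun r hr => by
    obtain ⟨s, -, h2⟩ := mem_expo.1 (hX hr)
    exact ab hF.dis _ _ h2
  have cI : Fintype.card I ≤ Z.card := by
    rw [Fintype.card_coe]
    exact (card_le_card_of_injOn (fun r => (F r).2.2.1) (fun r hr => (mI r).1 hr)
      fun r _ s _ e => aa hF.dis e).trans hc
  obtain ⟨z, hz⟩ := Function.Embedding.exists_of_card_le_finset cI
  have zZ : ∀ r, z r ∈ Z := fun r => hz ⟨r, rfl⟩
  have key : ∀ r : I, ∃ m t : Fin (NU c), (m.val = c + 2 * r.1.val ∨ m.val = c + 2 * r.1.val + 1) ∧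
      t.val = 3 * c + r.1.val ∧ ¬ P.junk (F m).1 (z r) := fun r => by
    have l := lt r.1 r.2
    have u : NU c = c + 55 * (4 * c + 12) := rfl
    by_cases h : P.junk (F ⟨c + 2 * r.1.val, by omega⟩).1 (z r)
    · exact ⟨⟨c + 2 * r.1.val + 1, by omega⟩, ⟨3 * c + r.1.val, by omega⟩, Or.inr rfl, rfl,
        fun h' => (hZ _ (zZ r)).2 ⟨_, _, by simp, h, h'⟩⟩
    · exact ⟨_, ⟨3 * c + r.1.val, by omega⟩, Or.inl rfl, rfl, h⟩
  choose m t hm ht hj using key
  have e1 := ex_union (sv := P.Serv3 (P.pl univ univ)) univ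
    (fun r : I => ({r.1, m r, t r} : Finset _).image fun s => (F s).1)
    (fun r => (itR F {r.1, m r, t r} \ X) ∪ {z r}) (fun r _ => by
      have l := lt r.1 r.2
      have m1 := hm r
      have m2 := ht r
      have x1 : (F (m r)).2.2.1 ∉ X := fun h => by have := lt _ ((mI _).2 h); omega
      have x2 : (F (t r)).2.2.1 ∉ X := fun h => by have := lt _ ((mI _).2 h); omega
      have x3 := nb r.1
      have x4 := nb (m r)
      have x5 := nb (t r)
      refine (tri hF (r := r.1) (m := m r) (t := t r) (Fin.lt_def.2 (by omega))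
        (Fin.lt_def.2 (by omega)) (hZ _ (zZ r)).1 (hj r)).mono (by simp) fun x => ?_
      simp only [mem_insert, mem_singleton, mem_union, mem_sdiff, mem_itR, exists_eq_or_imp,
        exists_eq_left]
      grind) fun r _ s _ hne => by
      have d : Disjoint ({r.1, m r, t r} : Finset _) {s.1, m s, t s} := by
        have l1 := lt r.1 r.2
        have l2 := lt s.1 s.2
        have m1 := hm r
        have m2 := ht r
        have m3 := hm s
        have m4 := ht s
        have n : r.1.val ≠ s.1.val := fun e => hne (Subtype.ext (Fin.ext e))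
        simp only [disjoint_left, mem_insert, mem_singleton, Fin.ext_iff]
        omega
      have d1 := disjoint_left.1 (itR_dis hF.dis d)
      have d2 : z r ≠ z s := z.injective.ne hne
      have d3 : z r ∉ itR F {s.1, m s, t s} := fun h => (hZ _ (zZ r)).1 (itR_sub _ h)
      have d4 : z s ∉ itR F {r.1, m r, t r} := fun h => (hZ _ (zZ s)).1 (itR_sub _ h)
      simp only [disjoint_left, mem_union, mem_sdiff, mem_singleton]
      grind
  obtain ⟨R, mR⟩ : ∃ R : Finset (Fin (NU c)), ∀ s, s ∈ R ↔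
      ∀ r : I, s ∉ ({r.1, m r, t r} : Finset _) :=
    ⟨univ.filter fun s => ∀ r : I, s ∉ ({r.1, m r, t r} : Finset _), by simp⟩
  have e2 : Ex (P.Serv3 (P.pl univ univ)) (R.image fun s => (F s).1) (itR F R) :=
    Ex.family R (fun s => (F s).1) (fun s => {(F s).2.2.1, (F s).2.2.2})
      (fun s _ => serv_pr (hF.own s)) fun r _ s _ hne => disjoint_left.2 fun x h1 h2 =>
        hne (same hF.dis (x := x) (by simpa using h1) (by simpa using h2))
  refine (e1.glue e2 ?_).mono (fun j hj => ?_) (union_subset (biUnion_subset.2 fun r _ => ?_) ?_)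
  · rw [disjoint_biUnion_left]
    intro r _
    rw [disjoint_union_left, disjoint_singleton_left]
    exact ⟨(itR_dis hF.dis (disjoint_right.2 fun s hs => (mR s).1 hs r)).mono_left sdiff_subset,
      fun h => (hZ _ (zZ r)).1 (itR_sub _ h)⟩
  · obtain ⟨s, rfl⟩ := mem_fagF.1 hj
    by_cases h : s ∈ R
    · exact mem_union_right _ (mem_image_of_mem _ h)
    · rw [mR] at h
      obtain ⟨r, hr⟩ := not_forall.1 h
      exact mem_union_left _ (mem_biUnion.2 ⟨r, mem_univ _, mem_image_of_mem _ (not_not.1 hr)⟩)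
  · exact union_subset_union (sdiff_subset_sdiff (itR_sub _) Subset.rfl)
      (singleton_subset_iff.2 (zZ r))
  · refine fun x hx => mem_union_left _ (mem_sdiff.2 ⟨itR_sub _ hx, fun h => ?_⟩)
    obtain ⟨s, hs, rfl | rfl⟩ := mem_itR.1 hx
    · exact (mR s).1 hs ⟨s, (mI s).2 h⟩ (by simp)
    · exact nb s h

theorem feas_of_ex (h : Ex (P.Serv3 (P.pl univ univ)) univ univ) : P.Feas := by
  obtain ⟨f, h1, h2, h3⟩ := h
  refine ⟨f, ⟨Subset.rfl, h1, h2, h3, fun _ _ h => h.elim⟩, ?_⟩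
  have h1 := use_eq h3
  have h2 := card_le_univ ((univ : Finset J).biUnion f)
  change use univ f + 0 ≤ (univ : Finset V).card
  rw [card_univ]
  omega

theorem sound_core (hF : P.MFam ty F) {Φ : Finset (J × V × V × V)} {D : Finset V}
    (hΦ : P.PhiOk Φ) (d1 : Disjoint (it3 Φ) (fitF F))
    (hv : ∀ v, v ∉ fitF F → v ∉ it3 Φ → v ∉ D → ¬ P.base.waste F v)
    (hs : P.Sol3 (P.SU c F Φ D ∅) c) : P.Feas := by
  obtain ⟨f, hf, hu⟩ := hs
  set S := P.SU c F Φ D ∅ with hS
  have mW : ∀ v, v ∈ S.W ↔ (v ∈ fitF F → v ∈ Geo.expo c F) ∧ v ∉ it3 Φ ∧ v ∉ D := fun v => by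
    simp only [hS, G3.SU, G3.pl, it2, biUnion_empty, union_empty, mem_sdiff, mem_univ, mem_union,
      true_and]
    grind
  set Us := S.A.biUnion f with hUs
  have us : Us ⊆ S.W := biUnion_subset.2 hf.inW
  rw [use_eq hf.dis, ← hUs] at hu
  have c1 := card_sdiff_add_card_eq_card us
  have c2 : S.W \ Us ⊆ (S.W \ (Us ∪ Geo.expo c F)) ∪ (Geo.expo c F \ Us) := fun x hx => by
    simp only [mem_union, mem_sdiff] at hx ⊢
    grind
  have c3 := (card_le_card c2).trans (card_union_le _ _)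
  have c4 := card_sdiff_add_card_inter (Geo.expo c F) Us
  have c5 := expo_card_le (F := F)
  have mZ : ∀ v ∈ S.W \ (Us ∪ Geo.expo c F), v ∉ fitF F ∧ v ∉ it3 Φ ∧ v ∉ D ∧ v ∉ Us :=
    fun v h1 => by
      simp only [mem_union, mem_sdiff, not_or] at h1
      have h2 := (mW v).1 h1.1
      grind
  have e1 := absorb hF (Z := S.W \ (Us ∪ Geo.expo c F)) (X := Geo.expo c F ∩ Us)
    (fun v h => ⟨(mZ v h).1, hv v (mZ v h).1 (mZ v h).2.1 (mZ v h).2.2.1⟩) inter_subset_left
    (by omega)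
  have e2 : Ex (P.Serv3 (P.pl univ univ)) S.A Us :=
    ⟨f, fun j hj => subset_biUnion_of_mem f hj, hf.srv, hf.dis⟩
  have e3 := e1.glue e2 (by
    rw [disjoint_left]
    intro x hx hx'
    have q1 := (mW x).1 (us hx')
    simp only [mem_union, mem_sdiff, mem_inter] at hx
    grind)
  have e4 := e3.glue (Ex.family Φ (fun s => s.1) (fun s => {s.2.1, s.2.2.1, s.2.2.2}) hΦ.1
    fun s hs s' hs' hne => (hΦ.2 s hs s' hs' hne).2) (by
    rw [disjoint_left]
    intro x hx hx'
    have q1 : x ∉ S.W := fun h => ((mW x).1 h).2.1 hx'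
    have q2 : x ∉ Us := fun h => q1 (us h)
    have q3 : x ∉ fitF F := disjoint_left.1 d1 hx'
    simp only [mem_union, mem_sdiff] at hx
    grind)
  refine feas_of_ex (e4.mono (fun j _ => ?_) (subset_univ _))
  simp only [hS, G3.SU, G3.pl, ag2, ag3, image_empty, union_empty, mem_sdiff, mem_univ, mem_union,
    true_and]
  grind

/-! ### Necessity -/

theorem enc_its (v0 : V) {S : Sub J V} {j : J} {s : Sv V} (h : P.Nrm S j s) :
    ({(enc v0 s).1, (enc v0 s).2.1, (enc v0 s).2.2} : Finset V) = s.its := by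
  cases s with
  | non => exact h.elim
  | one x => simp [enc, Sv.its]
  | two a b => simp [enc, Sv.its]
  | three a z b => simp [enc, Sv.its]

/-- Services of a state can be moved to the list of fixed services. -/
theorem phi_ext (v0 : V) {Φ : Finset (J × V × V × V)} {g : J → Sv V} {T : Finset J}
    (hΦ : P.PhiOk Φ) (hg : P.PSt (P.pl (univ \ ag3 Φ) (univ \ it3 Φ)) (univ \ ag3 Φ) g)
    (hs : ∀ j ∈ univ \ ag3 Φ, P.Serv3 (P.pl univ univ) j (g j).its) (hT : T ⊆ univ \ ag3 Φ) :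
    ∃ Φ' : Finset (J × V × V × V), P.PhiOk Φ' ∧ Φ'.card ≤ Φ.card + T.card ∧
      ag3 Φ' = ag3 Φ ∪ T ∧ it3 Φ' = it3 Φ ∪ itsB T g := by
  have e : ∀ j ∈ T, ({(enc v0 (g j)).1, (enc v0 (g j)).2.1, (enc v0 (g j)).2.2} : Finset V) =
      (g j).its := fun j hj => enc_its v0 (hg.nrm j (hT hj))
  have cr : ∀ s ∈ Φ, ∀ j ∈ T, s.1 ≠ j ∧
      Disjoint ({s.2.1, s.2.2.1, s.2.2.2} : Finset V) (g j).its := fun s hs' j hj => by
    refine ⟨fun h => (mem_sdiff.1 (hT hj)).2 (mem_image.2 ⟨s, hs', h⟩), ?_⟩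
    rw [disjoint_left]
    exact fun x hx hx' => (mem_sdiff.1 (hg.inW j (hT hj) hx')).2 (mem_biUnion.2 ⟨s, hs', hx⟩)
  refine ⟨Φ ∪ T.image fun j => (j, enc v0 (g j)), ⟨fun s hs' => ?_, fun s h1 s' h2 hne => ?_⟩,
    (card_union_le _ _).trans (Nat.add_le_add_left card_image_le _), ?_, ?_⟩
  · rcases mem_union.1 hs' with h | h
    · exact hΦ.1 s h
    · obtain ⟨j, hj, rfl⟩ := mem_image.1 h
      dsimp only
      rw [e j hj]
      exact hs j (hT hj)
  · rcases mem_union.1 h1 with h1 | h1 <;> rcases mem_union.1 h2 with h2 | h2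
    · exact hΦ.2 s h1 s' h2 hne
    · obtain ⟨j, hj, rfl⟩ := mem_image.1 h2
      dsimp only
      rw [e j hj]
      exact cr s h1 j hj
    · obtain ⟨j, hj, rfl⟩ := mem_image.1 h1
      dsimp only
      rw [e j hj]
      exact ⟨(cr s' h2 j hj).1.symm, (cr s' h2 j hj).2.symm⟩
    · obtain ⟨i, hi, rfl⟩ := mem_image.1 h1
      obtain ⟨j, hj, rfl⟩ := mem_image.1 h2
      have hij : i ≠ j := fun h => hne (by rw [h])
      dsimp only
      rw [e i hi, e j hj]
      exact ⟨hij, hg.dis i (hT hi) j (hT hj) hij⟩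
  · unfold ag3
    rw [image_union, image_image]
    congr 1
    exact image_id
  · unfold it3 itsB
    rw [union_biUnion, image_biUnion]
    congr 1
    exact biUnion_congr rfl e

theorem waste_card {N : ℕ} {F : Fin N → Mb J V} (hF : P.MFam ty F) :
    (univ.filter fun z => P.base.waste F z).card ≤ N * N := by
  have h1 : (univ.filter fun z => P.base.waste F z) ⊆
      (univ : Finset (Fin N × Fin N)).biUnion fun p =>
        univ.filter fun z => p.1 ≠ p.2 ∧ P.junk (F p.1).1 z ∧ P.junk (F p.2).1 z := fun z hz => by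
    obtain ⟨r, s, h⟩ := (mem_filter.1 hz).2
    exact mem_biUnion.2 ⟨(r, s), mem_univ _, mem_filter.2 ⟨mem_univ _, h⟩⟩
  refine (card_le_card h1).trans ((card_biUnion_le_card_mul _ _ 1 fun p _ =>
    card_le_one.2 fun x hx y hy => ?_).trans (by simp))
  rw [mem_filter] at hx hy
  exact hF.jk _ _ hx.2.1 x y hx.2.2.1 hy.2.2.1 hx.2.2.2 hy.2.2.2

theorem nec_main {e cT L : ℕ} (hS : SLN e) (hL : cT + NU c * NU c ≤ L)
    (rk : J → ℕ) {Φ : Finset (J × V × V × V)} {g : J → Sv V} (hΦ : P.PhiOk Φ)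
    (hc : Φ.card ≤ cT) (hg : P.PSt (P.pl (univ \ ag3 Φ) (univ \ it3 Φ)) (univ \ ag3 Φ) g)
    (hs : ∀ j ∈ univ \ ag3 Φ, P.Serv2 (P.pl univ univ) j (g j).its) (hF : P.MFam ty F)
    (hm : ∀ r, (F r).1 ∈ univ \ ag3 Φ ∧ (g (F r).1).its = {(F r).2.2.1, (F r).2.2.2}) :
    P.MTest rk e c L := by
  obtain ⟨Bd, mB, cB⟩ : ∃ Bd : Finset V, (∀ v, v ∈ Bd ↔ P.base.waste F v) ∧
      Bd.card ≤ NU c * NU c := ⟨_, by simp, waste_card hF⟩
  obtain ⟨T, mT⟩ : ∃ T : Finset J, ∀ j, j ∈ T ↔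
      j ∉ ag3 Φ ∧ j ∉ fagF F ∧ ¬ Disjoint (g j).its Bd :=
    ⟨univ.filter fun j => j ∉ ag3 Φ ∧ j ∉ fagF F ∧ ¬ Disjoint (g j).its Bd, by simp⟩
  have mA : ∀ j, j ∉ ag3 Φ → j ∈ univ \ ag3 Φ := fun j h => mem_sdiff.2 ⟨mem_univ _, h⟩
  have hT : T ⊆ univ \ ag3 Φ := fun j hj => mA j ((mT j).1 hj).1
  have cT' : T.card ≤ Bd.card := few_meet (f := fun j => (g j).its) Bd
    (fun i hi j hj => hg.dis i (hT hi) j (hT hj)) fun j hj => ((mT j).1 hj).2.2
  have pos : 0 < NU c := by unfold NU; omega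
  obtain ⟨Φ', p1, p2, p3, p4⟩ :=
    phi_ext (F ⟨0, pos⟩).2.2.1 hΦ hg (fun j hj => Or.inl (hs j hj)) hT
  have nΦ : ∀ j, j ∉ ag3 Φ → ∀ v ∈ (g j).its, v ∉ it3 Φ := fun j hj v hv =>
    (mem_sdiff.1 (hg.inW j (mA j hj) hv)).2
  have fit : ∀ v ∈ fitF F, ∃ r, v ∈ (g (F r).1).its := fun v hv => by
    obtain ⟨r, h⟩ := mem_fitF.1 hv
    exact ⟨r, by rw [(hm r).2]; simpa using h⟩
  have nF : ∀ j, j ∉ ag3 Φ → j ∉ fagF F → ∀ v ∈ (g j).its, v ∉ fitF F := fun j h1 h2 v hv hv' => by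
    obtain ⟨r, hr⟩ := fit v hv'
    exact disjoint_left.1 (hg.dis j (mA j h1) _ (hm r).1 fun e => h2 (mem_fagF.2 ⟨r, e.symm⟩))
      hv hr
  have dI : Disjoint (it3 Φ') (fitF F) := by
    rw [p4, disjoint_left]
    intro v hv hv'
    rcases mem_union.1 hv with hv | hv
    · obtain ⟨r, hr⟩ := fit v hv'
      exact nΦ _ (mem_sdiff.1 (hm r).1).2 v hr hv
    · obtain ⟨j, hj, hv⟩ := mem_biUnion.1 hv
      exact nF j ((mT j).1 hj).1 ((mT j).1 hj).2.1 v hv hv'
  have dA : Disjoint (ag3 Φ') (fagF F) := by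
    rw [p3, disjoint_left]
    intro j hj hj'
    rcases mem_union.1 hj with hj | hj
    · obtain ⟨r, rfl⟩ := mem_fagF.1 hj'
      exact (mem_sdiff.1 (hm r).1).2 hj
    · exact ((mT j).1 hj).2.1 hj'
  have rem : ∀ j, j ∉ fagF F → j ∉ ag3 Φ' → j ∉ ag3 Φ ∧
      ∀ v ∈ (g j).its, v ∉ fitF F ∧ v ∉ it3 Φ' ∧ v ∉ Bd := fun j h1 h2 => by
    rw [p3, mem_union, not_or] at h2
    refine ⟨h2.1, fun v hv => ⟨nF j h2.1 h1 v hv, ?_, fun hb => h2.2 ((mT j).2
      ⟨h2.1, h1, fun hd => disjoint_left.1 hd hv hb⟩)⟩⟩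
    rw [p4, mem_union, not_or]
    refine ⟨nΦ j h2.1 v hv, fun h => ?_⟩
    obtain ⟨i, hi, hv'⟩ := mem_biUnion.1 h
    exact disjoint_left.1 (hg.dis j (mA j h2.1) i (hT hi) fun e => h2.2 (e ▸ hi)) hv hv'
  set S := P.SU c F Φ' (Bd \ fitF F) ∅ with hS'
  have mAS : ∀ j, j ∈ S.A ↔ j ∉ fagF F ∧ j ∉ ag3 Φ' := fun j => by
    simp only [hS', G3.SU, G3.pl, ag2, image_empty, union_empty, mem_sdiff, mem_univ, mem_union,
      true_and, not_or]
  have mWS : ∀ v, v ∈ S.W ↔
      (v ∈ fitF F → v ∈ Geo.expo c F) ∧ v ∉ it3 Φ' ∧ (v ∈ Bd → v ∈ fitF F) := fun v => by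
    simp only [hS', G3.SU, G3.pl, it2, biUnion_empty, union_empty, mem_sdiff, mem_univ, mem_union,
      true_and]
    grind
  have st : St S (P.Serv2 S) S.A fun j => (g j).its :=
    ⟨Subset.rfl, fun j hj v hv => by
      have a := (mAS j).1 hj
      have b := (rem j a.1 a.2).2 v hv
      exact (mWS v).2 ⟨fun h => absurd h b.1, b.2.1, fun h => absurd h b.2.2⟩,
    fun j hj => hs j (mA j (rem j ((mAS j).1 hj).1 ((mAS j).1 hj).2).1),
    fun i hi j hj => hg.dis i (mA i (rem i ((mAS i).1 hi).1 ((mAS i).1 hi).2).1) j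
      (mA j (rem j ((mAS j).1 hj).1 ((mAS j).1 hj).2).1), fun _ _ h => h.elim⟩
  refine ⟨ty, F, Φ', Bd \ fitF F, hF, by omega, (card_le_card sdiff_subset).trans (by omega), p1,
    dA, dI, sdiff_disjoint, fun v h1 _ h3 h4 => h3 (mem_sdiff.2 ⟨(mB v).2 h4, h1⟩),
    hS J V K P rk S c (G3.wf_pl _ _) ⟨_, st, ?_⟩⟩
  have c1 := card_union_of_disjoint
    ((disjoint_biUnion_left S.A (fun j => (g j).its) (Geo.expo c F)).2 fun j hj =>
      disjoint_left.2 fun v hv h =>
        ((rem j ((mAS j).1 hj).1 ((mAS j).1 hj).2).2 v hv).1 (expo_sub h))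
  have c2 := card_le_card (union_subset (biUnion_subset.2 st.inW) (t := Geo.expo c F) fun v hv =>
    (mWS v).2 ⟨fun _ => hv, disjoint_right.1 dI (expo_sub hv), fun _ => expo_sub hv⟩)
  rw [use_eq st.dis]
  rw [expo_card hF.dis] at c1
  omega

end EM

theorem mSoundS : MSoundS := by
  intro e c L hS J V K _ _ _ _ _ _ P rk hrk ⟨ty, F, Φ, D, hF, _, _, hΦ, _, d1, _, hv, ht⟩
  exact EM.sound_core hF hΦ d1 hv (hS J V K P rk _ c hrk (G3.wf_pl _ _) le_rfl ht)

theorem mNecS (hN : NormS) : MNecS := by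
  intro e c cT hS
  refine ⟨cT + NU c * NU c, fun L hL J V K _ _ _ _ _ _ P rk Φ g ty F hΦ hc hg hnt hF hm => ?_⟩
  obtain ⟨-, -, -, -, -, h6, -⟩ := hN J V K P _ (univ \ ag3 Φ)
    (G3.wf_pl (P := P) (univ \ ag3 Φ) (univ \ it3 Φ))
  exact EM.nec_main hS hL rk hΦ hc hg (h6 g hg hnt).srv hF hm

end Pool.Agent.Lib.MP_ef7581_lc.D3
end

-- part Pool.Agent.Lib.MP_ef7581_lc.EKV
section

/-!
The consistent case for agents with several terminals: virtual solutions from the final test, the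
setting of the last step, and soundness of the test.
-/

set_option autoImplicit false
set_option linter.unusedSectionVars false

namespace Pool.Agent.Lib.MP_ef7581_lc.D3

open Finset Classical D2

namespace EKV

open D2.DKV (exists_inv exists_rel_le exists_rel_eq card_lab_le card_lab_eq bonferroni ag_inj vx_inj)

variable {J V K : Type} [Fintype J] [Fintype V] [Fintype K] [DecidableEq J] [DecidableEq V]
  [DecidableEq K] {P : G3 J V K} {t M t' M0 : ℕ}

theorem EK_mono {A : Finset J} {W : Finset V} {pe : V → V → Prop} {x y : Nd J V}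
    (h : P.EK A W pe x y) : P.EK A W (fun _ _ => True) x y := by
  rcases x with j | v | j <;> rcases y with i | u | i <;> simp_all [G3.EK]

theorem EK_shape {A : Finset J} {W : Finset V} {pe : V → V → Prop} {m : Nd J V → Nd J V}
    (h : IsM (P.EK A W pe) m) : Shape m := by
  refine ⟨fun j => ?_, fun j => ?_⟩
  · by_cases e : m (ag j) = ag j
    · exact Or.inl e
    · have := h.2 _ e
      rcases hy : m (ag j) with i | u | i <;> rw [hy] at this
      · exact this.elim
      · exact Or.inr (Or.inl ⟨u, rfl⟩)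
      · exact this.elim
  · by_contra e
    have := h.2 _ (not_or.mp e).1
    rcases hy : m (dm j) with i | u | i <;> rw [hy] at this <;> exact this.elim

/-- The number of pair edges is at least the number of agents that need one. -/
theorem count_pe (hP : PeStmt) {R : R3 J V K t M t' M0} {A : Finset J} {W : Finset V}
    {n : Lb t M → ℕ} (h1 : ∀ κ, n (Sum.inl (κ, 0)) = n (Sum.inl (κ, 1)))
    (h2 : ∀ κ, n (Sum.inl (κ, 0)) = n (Sum.inl (κ, 2)))
    (hc : A.card + (∑ κ, n (Sum.inl (κ, 0))) + n (Sum.inr 0) + n (Sum.inr 1) ≤ W.card)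
    {m : Nd J V → Nd J V} (hm : IsM (P.EK A W (P.peU R)) m) {lab : Nd J V → Option (Lb t M)}
    (l1 : ∀ x, lab x = none ↔ m x ≠ x) (l2 : ∀ x d, lab x = some d → P.AdK R A W d x)
    (l3 : ∀ d, (univ.filter fun x => lab x = some d).card = n d) :
    2 * n (Sum.inr 0) ≤ npe m univ := by
  have hpe := ((hP J V).1 m hm.1 (EK_shape hm)).2
  have hA := card_eq_sum_card_fiberwise (s := A) (t := univ) (f := fun j => lab (ag j))
    fun _ _ => mem_coe.mpr (mem_univ _)
  have hW := card_eq_sum_card_fiberwise (s := W) (t := univ) (f := fun v => lab (vx v))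
    fun _ _ => mem_coe.mpr (mem_univ _)
  rw [Fintype.sum_option, Fintype.sum_sum_type, Fintype.sum_prod_type, Fin.sum_univ_three] at hA hW
  simp only [Fin.sum_univ_three] at hA hW
  have a0 : (univ.filter fun j : J => ∃ v, m (ag j) = vx v).card ≤
      (A.filter fun j => lab (ag j) = none).card := by
    refine card_le_card fun j hj => ?_
    obtain ⟨v, hv⟩ := (mem_filter.mp hj).2
    have hne : m (ag j) ≠ ag j := by rw [hv]; simp
    have := hm.2 _ hne
    rw [hv] at this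
    exact mem_filter.mpr ⟨this.1, (l1 _).mpr hne⟩
  have a1 : ∑ κ, n (Sum.inl (κ, 0)) ≤
      ∑ κ : Kl t M, ((A.filter fun j => lab (ag j) = some (Sum.inl (κ, 0))).card +
        (A.filter fun j => lab (ag j) = some (Sum.inl (κ, 1))).card +
        (A.filter fun j => lab (ag j) = some (Sum.inl (κ, 2))).card) := by
    refine sum_le_sum fun κ _ => le_trans (le_of_eq ?_) (Nat.le_add_left _ _)
    rw [h2, ← l3]
    convert (card_lab_eq ag ag_inj A lab _ fun x hx => ?_).symm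
    have := l2 x _ hx
    rcases x with j | v | j
    · exact ⟨j, this.1, rfl⟩
    · simp [G3.AdK] at this
    · exact this.elim
  have a2 : n (Sum.inr 0) = (A.filter fun j => lab (ag j) = some (Sum.inr 0)).card := by
    rw [← l3]
    convert (card_lab_eq ag ag_inj A lab _ fun x hx => ?_).symm
    have := l2 x _ hx
    rcases x with j | v | j <;> simp [G3.AdK] at this
    exact ⟨j, this.1, rfl⟩
  have w0 : (W.filter fun v => lab (vx v) = none).card ≤
      (univ.filter fun v : V => m (vx v) ≠ vx v).card :=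
    card_le_card fun v hv => mem_filter.mpr ⟨mem_univ _, (l1 _).mp (mem_filter.mp hv).2⟩
  have wle : ∀ d, (W.filter fun v => lab (vx v) = some d).card ≤ n d := fun d => by
    rw [← l3]
    convert card_lab_le vx vx_inj W lab (some d)
  have wz : ∀ d, (∀ v ∈ W, ¬ P.AdK R A W d (vx v)) →
      (W.filter fun v => lab (vx v) = some d).card = 0 := fun d hd =>
    card_eq_zero.mpr (filter_eq_empty_iff.mpr fun v hv e => hd v hv (l2 _ _ e))
  have w1 : ∑ κ : Kl t M, ((W.filter fun v => lab (vx v) = some (Sum.inl (κ, 0))).card +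
        (W.filter fun v => lab (vx v) = some (Sum.inl (κ, 1))).card +
        (W.filter fun v => lab (vx v) = some (Sum.inl (κ, 2))).card) ≤
      2 * ∑ κ, n (Sum.inl (κ, 0)) := by
    rw [mul_sum]
    refine sum_le_sum fun κ _ => ?_
    have b0 := wle (Sum.inl (κ, 0))
    have b1 := wle (Sum.inl (κ, 1))
    have b2 := wz (Sum.inl (κ, 2)) fun v _ => by simp [G3.AdK]
    have := h1 κ
    omega
  have w2 := wz (Sum.inr 0) fun v _ => by simp [G3.AdK]
  have w3 := wle (Sum.inr 1)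
  have w4 := wz (Sum.inr 2) fun v hv => by simp [G3.AdK, hv]
  omega

end EKV

open EKV
open D2.DKV (exists_inv exists_rel_le exists_rel_eq card_lab_le card_lab_eq bonferroni ag_inj vx_inj)

theorem kvS (hP : PeStmt) : KVS := by
  rintro J V K _ _ _ _ _ _ P t M t' M0 R A W ⟨n, hn, hc, m, hm, lab, l1, l2, l3⟩
  replace l3 : ∀ d, (univ.filter fun x => lab x = some d).card = n d := fun d => by convert l3 d
  have hcount := count_pe hP (fun κ => (hn κ).1) (fun κ => (hn κ).2.1) hc hm l1 l2 l3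
  let X : Fin 3 → Kl t M → Finset V := fun i κ =>
    W.filter fun v => lab (vx v) = some (Sum.inl (κ, i))
  have hXu : ∀ i κ κ' v, v ∈ X i κ → v ∈ X i κ' → κ = κ' := by
    intro i κ κ' v h1 h2
    have := (mem_filter.mp h1).2.symm.trans (mem_filter.mp h2).2
    simpa using this
  have hXc : ∀ i κ, i ≠ 2 → (X i κ).card = n (Sum.inl (κ, i)) := by
    intro i κ hi
    rw [← l3]
    convert card_lab_eq vx vx_inj W lab _ fun x hx => ?_
    have := l2 x _ hx
    rcases x with j | v | j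
    · exact (hi this.2.1).elim
    · exact ⟨v, this.1, rfl⟩
    · exact this.elim
  obtain ⟨Rl, r1, r2, r3, r4⟩ := exists_rel_eq (X 0) (X 1) (hXu 0) (hXu 1) fun κ => by
    rw [hXc 0 κ (by decide), hXc 1 κ (by decide), (hn κ).1]
  have hfix : ∀ i κ v, v ∈ X i κ → m (vx v) = vx v := by
    intro i κ v hv
    by_contra h
    have := (l1 _).mpr h
    rw [(mem_filter.mp hv).2] at this
    simp at this
  have h01 : ∀ κ κ' v, v ∈ X 0 κ → v ∉ X 1 κ' := by
    intro κ κ' v h1 h2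
    have := (mem_filter.mp h1).2.symm.trans (mem_filter.mp h2).2
    simp at this
  have hRl : ∀ u v, Rl u v → ∃ κ, u ∈ X 0 κ ∧ v ∈ X 1 κ ∧ P.Sk R κ false u ∧ P.Sk R κ true v ∧
      (P.mt R κ.1 ∨ ¬ P.HH u v) := by
    intro u v h
    obtain ⟨κ, hu, hv⟩ := r1 u v h
    have a1 : P.Sk R κ false u := by simpa [G3.AdK] using (l2 _ _ (mem_filter.mp hu).2).2
    have a2 : P.Sk R κ true v := by simpa [G3.AdK] using (l2 _ _ (mem_filter.mp hv).2).2
    refine ⟨κ, hu, hv, a1, a2, ((hn κ).2.2 ?_ u v a1 a2).2⟩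
    rw [← hXc 0 κ (by decide)]
    exact card_ne_zero.mpr ⟨u, hu⟩
  let O : Nd J V → Nd J V → Prop := fun x y => (m x = y ∧ x ≠ y) ∨
    ∃ u v, x = vx u ∧ y = vx v ∧ (Rl u v ∨ Rl v u)
  have hfx : ∀ u v, Rl u v ∨ Rl v u → m (vx u) = vx u := by
    rintro u v (h | h)
    · obtain ⟨κ, hu, -⟩ := r1 _ _ h
      exact hfix _ _ _ hu
    · obtain ⟨κ, -, hu⟩ := r1 _ _ h
      exact hfix _ _ _ hu
  have hrr : ∀ u v v', Rl u v → ¬ Rl v' u := by
    intro u v v' h h'
    obtain ⟨κ, hu, -⟩ := r1 _ _ h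
    obtain ⟨κ', -, hu'⟩ := r1 _ _ h'
    exact h01 _ _ _ hu hu'
  obtain ⟨ν, n1, n2, n3⟩ := exists_inv O
    (by
      rintro x y (⟨rfl, h⟩ | ⟨u, v, rfl, rfl, h⟩)
      · exact Or.inl ⟨hm.1 x, h.symm⟩
      · exact Or.inr ⟨v, u, rfl, rfl, h.symm⟩)
    (by
      rintro x y y' (⟨rfl, h⟩ | ⟨u, v, rfl, rfl, h⟩) (⟨e, h'⟩ | ⟨u', v', e, rfl, h'⟩)
      · exact e
      · subst e
        exact (h (hfx _ _ h').symm).elim
      · exact (h' ((hfx _ _ h).symm.trans e)).elim
      · obtain rfl := vx_inj e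
        rcases h with h | h <;> rcases h' with h' | h'
        · rw [r4 _ _ _ h h']
        · exact (hrr _ _ _ h h').elim
        · exact (hrr _ _ _ h' h).elim
        · rw [r3 _ _ _ h h'])
  let rk : V → ℕ := fun v => Fintype.equivFin V v
  have hrk : ∀ x y, x ≠ y → rk x ≠ rk y := fun x y h e =>
    h ((Fintype.equivFin V).injective (Fin.ext e))
  let DU : V → V → Prop := fun x y =>
    m (vx x) = vx y ∧ x ≠ y ∧ P.peU R x y ∧ (¬ P.peU R y x ∨ rk x < rk y)
  have hDU : ∀ x y, x ≠ y → m (vx x) = vx y → (DU x y ↔ ¬ DU y x) := by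
    intro x y hxy h
    have h' : m (vx y) = vx x := by rw [← h, hm.1]
    have hE := hm.2 (vx x) (by rw [h]; exact fun e => hxy (vx_inj e).symm)
    rw [h] at hE
    have h3 := hE.2.2
    have h4 := hrk x y hxy
    simp only [DU, h, h', hxy, hxy.symm, ne_eq, not_false_eq_true, true_and]
    by_cases a : P.peU R x y <;> by_cases b : P.peU R y x
    · simp only [a, b, not_true_eq_false, false_or, true_and]
      omega
    · simp [a, b]
    · simp [a, b]
    · exact (h3.elim a b).elim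
  let D : V → V → Prop := fun x y => Rl x y ∨ DU x y
  have hDν : ∀ x y, D x y → x ≠ y ∧ ν (vx x) = vx y := by
    rintro x y (h | h)
    · exact ⟨fun e => hrr _ _ x h (by subst e; exact h), n2 _ _ (Or.inr ⟨x, y, rfl, rfl, Or.inl h⟩)⟩
    · exact ⟨h.2.1, n2 _ _ (Or.inl ⟨h.1, fun e => h.2.1 (vx_inj e)⟩)⟩
  have hsd : ∀ x y, x ≠ y → ν (vx x) = vx y → (D x y ↔ ¬ D y x) := by
    intro x y hxy h
    have hO := n3 (vx x) (by rw [h]; exact fun e => hxy (vx_inj e).symm)
    rw [h] at hO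
    rcases hO with ⟨h1, -⟩ | ⟨u, v, e1, e2, h1⟩
    · have h2 : ¬ (Rl x y ∨ Rl y x) := fun h2 => hxy (vx_inj ((hfx _ _ h2).symm.trans h1))
      simp only [D, (not_or.mp h2).1, (not_or.mp h2).2, false_or]
      exact hDU x y hxy h1
    · obtain rfl := vx_inj e1
      obtain rfl := vx_inj e2
      have h2 : ¬ DU x y := fun h2 => hxy (vx_inj ((hfx _ _ h1).symm.trans h2.1))
      have h3 : ¬ DU y x := fun h3 => hxy (vx_inj ((hfx _ _ h1.symm).symm.trans h3.1)).symm
      simp only [D, h2, h3, or_false]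
      exact ⟨fun a b => hrr _ _ _ a b, fun a => h1.resolve_right a⟩
  have hex : ∀ x y, ν (vx x) = vx y → ((∃ z, D x z) ↔ D x y) := fun x y h =>
    ⟨fun ⟨z, hz⟩ => vx_inj ((hDν _ _ hz).2.symm.trans h) ▸ hz, fun h => ⟨y, h⟩⟩
  have hk : ∀ x, ∃ k : Mk t t', ∀ y, D x y → P.Sm R false k x ∧ P.Sm R true k y ∧
      (∀ κ, x ∈ X 0 κ → k = some (Sum.inl κ.1)) ∧ (DU x y → ∃ i, k = some (Sum.inr i)) ∧
      ((∃ τ, k = some (Sum.inl τ) ∧ P.mt R τ) ∨ ¬ P.HH x y) := by
    intro x
    by_cases hx : ∃ y, D x y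
    swap
    · exact ⟨none, fun y hy => (hx ⟨y, hy⟩).elim⟩
    obtain ⟨y, hy⟩ := hx
    have huniq : ∀ z, D x z → z = y := fun z hz =>
      vx_inj ((hDν _ _ hz).2.symm.trans (hDν _ _ hy).2)
    rcases hy with hy | hy
    · obtain ⟨κ, hu, -, a1, a2, a3⟩ := hRl _ _ hy
      refine ⟨some (Sum.inl κ.1), fun z hz => ?_⟩
      obtain rfl := huniq z hz
      exact ⟨a1.1, a2.1, fun κ' h' => by rw [hXu 0 _ _ _ hu h'],
        fun h' => (h'.2.1 (vx_inj ((hfix _ _ _ hu).symm.trans h'.1))).elim,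
        a3.imp_left fun a => ⟨_, rfl, a⟩⟩
    · obtain ⟨a0, i, a1, a2⟩ := hy.2.2.1
      refine ⟨some (Sum.inr i), fun z hz => ?_⟩
      obtain rfl := huniq z hz
      exact ⟨a1, a2, fun κ h' => (hy.2.1 (vx_inj ((hfix _ _ _ h').symm.trans hy.1))).elim,
        fun _ => ⟨i, rfl⟩, Or.inr a0⟩
  choose kk hkk using hk
  have hpt : ∀ x, ∃ z, ∀ y, ν (vx x) = vx y → z = y := by
    intro x
    by_cases hx : ∃ y, ν (vx x) = vx y
    · obtain ⟨y, hy⟩ := hx
      exact ⟨y, fun z hz => vx_inj (hy.symm.trans hz)⟩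
    · exact ⟨x, fun y hy => (hx ⟨y, hy⟩).elim⟩
  choose pt hpt using hpt
  let SU : Finset V := univ.filter fun x => ∃ y, DU x y
  have hSU : npe m univ ≤ 2 * SU.card := by
    have hpm : ∀ x, ∃ z, ∀ y, m (vx y) = vx x → z = y := by
      intro x
      by_cases hx : ∃ y, m (vx y) = vx x
      · obtain ⟨y, hy⟩ := hx
        exact ⟨y, fun z hz => vx_inj (by rw [← hm.1 (vx y), hy, ← hz, hm.1])⟩
      · exact ⟨x, fun y hy => (hx ⟨y, hy⟩).elim⟩
    choose pm hpm using hpm
    rw [two_mul]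
    refine le_trans (card_le_card (t := SU ∪ SU.image pm) fun v hv => ?_)
      ((card_union_le _ _).trans (Nat.add_le_add_left card_image_le _))
    obtain ⟨-, u, hu, h⟩ := (mem_filter.mp hv).2
    by_cases hd : DU v u
    · exact mem_union_left _ (mem_filter.mpr ⟨mem_univ _, u, hd⟩)
    · have h2 : DU u v := by
        by_contra h2
        exact hd ((hDU v u hu.symm h).mpr h2)
      exact mem_union_right _ (mem_image.mpr
        ⟨u, mem_filter.mpr ⟨mem_univ _, v, h2⟩, hpm u v h⟩)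
  obtain ⟨Ow, o1, o2, o3⟩ := exists_rel_le (K := Option (Kl t M))
    (fun k => A.filter fun j => lab (ag j) = some (k.elim (Sum.inr 0) fun κ => Sum.inl (κ, 2)))
    (fun k => k.elim SU (X 0))
    (by
      have aux : ∀ κ y, y ∈ SU → y ∉ X 0 κ := by
        intro κ y h1 h2
        obtain ⟨z, hz⟩ := (mem_filter.mp h1).2
        exact hz.2.1 (vx_inj ((hfix _ _ _ h2).symm.trans hz.1))
      rintro (_ | κ) (_ | κ') y h1 h2
      · rfl
      · exact (aux _ _ h1 h2).elim
      · exact (aux _ _ h2 h1).elim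
      · rw [hXu 0 _ _ _ h1 h2])
    (by
      intro k
      refine (card_lab_le ag ag_inj A lab _).trans ?_
      rw [l3]
      rcases k with _ | κ
      · simp only [Option.elim]
        omega
      · simp only [Option.elim]
        rw [hXc 0 κ (by decide), (hn κ).2.1])
  refine ⟨ν, ⟨n1, fun x hx => ?_⟩, fun x => ∃ z, D x z,
    fun x => if ∃ z, D x z then kk x else kk (pt x), Ow, fun x y hxy h => ?_, o3, fun j hj h => ?_⟩
  · rcases n3 x hx with ⟨h1, h2⟩ | ⟨u, v, rfl, e, h1⟩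
    · rw [← h1]
      exact EK_mono (hm.2 x (by rw [h1]; exact hx))
    · rw [e]
      rcases h1 with h1 | h1
      · obtain ⟨κ, hu, hv, -⟩ := hRl _ _ h1
        exact ⟨(mem_filter.mp hu).1, (mem_filter.mp hv).1, Or.inl trivial⟩
      · obtain ⟨κ, hv, hu, -⟩ := hRl _ _ h1
        exact ⟨(mem_filter.mp hu).1, (mem_filter.mp hv).1, Or.inl trivial⟩
  · have h' : ν (vx y) = vx x := by rw [← h, n1]
    have e := hsd x y hxy h
    simp only [hex x y h, hex y x h', hpt x y h, hpt y x h']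
    refine ⟨e, ?_, ?_, fun hd => ?_⟩
    · by_cases hd : D x y
      · rw [if_pos hd, if_neg (e.mp hd)]
      · rw [if_neg hd, if_pos (by tauto)]
    · by_cases hd : D x y
      · rw [if_pos hd]
        exact (hkk x y hd).2.2.2.2
      · rw [if_neg hd]
        exact (hkk y x (by tauto)).2.2.2.2.imp_right fun a b => a (Geo.HH_symm b)
    · rw [if_pos hd]
      exact ⟨(hkk x y hd).1, (hkk x y hd).2.1⟩
  · have hmj : m (ag j) = ag j := by
      by_contra h1
      exact h1 ((n2 _ _ (Or.inl ⟨rfl, fun e => h1 e.symm⟩)).symm.trans h)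
    obtain ⟨d, hd⟩ : ∃ d, lab (ag j) = some d :=
      Option.ne_none_iff_exists'.mp fun e => (l1 _).mp e hmj
    have hA := l2 _ _ hd
    rcases d with ⟨κ, i⟩ | i
    · obtain ⟨-, rfl, hT⟩ := hA
      obtain ⟨x, hx, hO⟩ := o2 (some κ) j (mem_filter.mpr ⟨hj, hd⟩)
      obtain ⟨y, hy⟩ := r2 κ x hx
      have hD : D x y := Or.inl hy
      refine ⟨x, y, hO, ⟨y, hD⟩, (hDν _ _ hD).1, (hDν _ _ hD).2, ?_⟩
      simp only [if_pos (⟨y, hD⟩ : ∃ z, D x z), (hkk x y hD).2.2.1 κ hx]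
      exact hT
    · obtain ⟨rfl, -, hT⟩ := hA.resolve_right fun a => a.2 hj
      obtain ⟨x, hx, hO⟩ := o2 none j (mem_filter.mpr ⟨hj, hd⟩)
      obtain ⟨y, hy⟩ := (mem_filter.mp hx).2
      have hD : D x y := Or.inr hy
      obtain ⟨i, hi⟩ := (hkk x y hD).2.2.2.1 hy
      refine ⟨x, y, hO, ⟨y, hD⟩, (hDν _ _ hD).1, (hDν _ _ hD).2, ?_⟩
      simp only [if_pos (⟨y, hD⟩ : ∃ z, D x z), hi]
      exact hT

namespace EKV

variable {J V K : Type} [Fintype J] [Fintype V] [Fintype K] [DecidableEq J] [DecidableEq V]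
  [DecidableEq K] {P : G3 J V K} {t M t' M0 : ℕ}

/-- At most ten items are junk for a tenth of the members of a base family. -/
theorem waste_le {R : R3 J V K t M t' M0} (hR : P.RGood R) (hM : 1200 ≤ M) (τ : Fin t) :
    (univ.filter fun x => M ≤ 10 * (univ.filter fun r => P.junk (R.F τ r).1 x).card).card ≤ 10 := by
  by_contra h
  obtain ⟨s, hs, hc⟩ := exists_subset_card_eq (not_le.mp h)
  have h1 := bonferroni (fun x => univ.filter fun r => P.junk (R.F τ r).1 x) s (by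
    intro x _ y _ hxy
    refine card_le_one.mpr fun r hr r' hr' => ?_
    by_contra hne
    simp only [mem_inter, mem_filter, mem_univ, true_and] at hr hr'
    have hj : (R.F τ r).1 ≠ (R.F τ r').1 := fun e => hne (by
      have := @hR.dis.1 (Sum.inl (τ, r)) (Sum.inl (τ, r')) e
      simpa using this)
    exact hxy (G3.fam_junk (hR.cF τ) hj hr.1 hr.2 hr'.1 hr'.2))
  have h2 : (s.biUnion fun x => univ.filter fun r => P.junk (R.F τ r).1 x).card ≤ M := by
    simpa using card_le_univ (s.biUnion fun x => univ.filter fun r => P.junk (R.F τ r).1 x)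
  have h3 := card_nsmul_le_sum s
    (fun x => 10 * (univ.filter fun r => P.junk (R.F τ r).1 x).card) M
    fun x hx => (mem_filter.mp (hs hx)).2
  rw [← mul_sum, hc] at h3
  rw [hc] at h1
  simp only [smul_eq_mul, Nat.succ_eq_add_one] at h1 h3
  omega

theorem PS_symm (R : R3 J V K t M t' M0) (τ : Fin t) (s : Bool) (x y : V) :
    P.PS R τ s x y = P.PS R τ s y x := by
  ext r
  simp [G3.PS, and_comm]

/-- Two properties that fail rarely hold together often. -/
theorem both_card {N : ℕ} (p q w : Fin N → Prop) [DecidablePred p] [DecidablePred q]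
    [DecidablePred w] (h : ∀ r, p r → q r → w r) :
    N ≤ (univ.filter fun r => ¬ p r).card + (univ.filter fun r => ¬ q r).card +
      (univ.filter w).card := by
  have : (univ : Finset (Fin N)) ⊆ (univ.filter fun r => ¬ p r) ∪ (univ.filter fun r => ¬ q r) ∪
      univ.filter w := by
    intro r _
    simp only [mem_union, mem_filter, mem_univ, true_and]
    by_cases a : p r
    · by_cases b : q r
      · exact Or.inr (h r a b)
      · exact Or.inl (Or.inr b)
    · exact Or.inl (Or.inl a)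
  have h4 := (card_le_card this).trans ((card_union_le _ _).trans
    (Nat.add_le_add_right (card_union_le _ _) _))
  simpa using h4

/-- A terminal with a neighbour of a member with two terminals is one of its two sides. -/
theorem side_of_strict {N : ℕ} {F : Fin N → M3 J V K} (h : P.CFam F) {r : Fin N}
    (hs : ¬ P.mu (F r).1) {k : K} {x : V} (hk : P.adt (F r).1 k x) : ∃ s, k = (F r).2.1 s := by
  obtain ⟨o, rfl⟩ := G3.strict_tm hs hk
  obtain ⟨o1, e1⟩ := G3.strict_tm hs (h.1 r r false).1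
  obtain ⟨o2, e2⟩ := G3.strict_tm hs (h.1 r r true).1
  have hne := G3.tm_ne h r false
  rw [Bool.not_false, e1, e2] at hne
  by_cases a : o = o1
  · exact ⟨false, by rw [e1, a]⟩
  · refine ⟨true, ?_⟩
    rw [e2]
    congr 1
    have : o1 ≠ o2 := fun b => hne (by rw [b])
    revert a this
    cases o <;> cases o1 <;> cases o2 <;> simp

theorem odd_multi {R : R3 J V K t M t' M0} (hR : P.RGood R) {h2 : ℕ} (hM : 12 * h2 ≤ M)
    {g : J → Sv V} {j : J} {a b : V} (hg : g j = Sv.two a b) {τ : Fin t} {o : Bool → K}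
    (hm : P.mu j) (ht : P.mt R τ) (hT : P.To (R.F τ) R.h j o) (hp : P.Pr j a b)
    (hc : ¬ P.Srv R h2 τ a b)
    (wa : 10 * (univ.filter fun r => P.junk (R.F τ r).1 a).card < M)
    (wb : 10 * (univ.filter fun r => P.junk (R.F τ r).1 b).card < M) :
    ∃ x y o k, P.OddC R g j x y o k := by
  have hj : ∀ x, 10 * (univ.filter fun r => P.junk (R.F τ r).1 x).card < M →
      P.Ab R h2 τ false x ∨ P.Ab R h2 τ true x := by
    intro x hx
    have := both_card (fun r => P.adt (R.F τ r).1 ((R.F τ r).2.1 true) x)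
      (fun r => P.adt (R.F τ r).1 ((R.F τ r).2.1 false) x) (fun r => P.junk (R.F τ r).1 x)
      fun r c d => G3.junk_of_two c d (G3.tm_ne (hR.cF τ) r true)
    by_contra hn
    simp only [G3.Ab, Bool.not_false, Bool.not_true, not_or, not_le] at hn
    omega
  have key : ∃ s, ¬ P.Ab R h2 τ (!s) a ∧ ¬ P.Ab R h2 τ (!s) b := by
    have h1 : ∀ s, ¬ (P.Ab R h2 τ s a ∧ P.Ab R h2 τ (!s) b) := fun s c =>
      hc (Or.inl ⟨ht, s, c⟩)
    have h3 := h1 false
    have h4 := h1 true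
    have h5 := hj a wa
    have h6 := hj b wb
    rw [Bool.not_false] at h3
    rw [Bool.not_true] at h4
    by_cases c : P.Ab R h2 τ true a
    · exact ⟨true, by rw [Bool.not_true]; tauto⟩
    · exact ⟨false, by rw [Bool.not_false]; tauto⟩
  obtain ⟨s, ka, kb⟩ := key
  have hps : 2 * M ≤ 3 * (P.PS R τ s a b).card := by
    have := both_card (fun r => P.adt (R.F τ r).1 ((R.F τ r).2.1 s) a)
      (fun r => P.adt (R.F τ r).1 ((R.F τ r).2.1 s) b)
      (fun r => P.adt (R.F τ r).1 ((R.F τ r).2.1 s) a ∧ P.adt (R.F τ r).1 ((R.F τ r).2.1 s) b)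
      fun r c d => ⟨c, d⟩
    simp only [G3.Ab, Bool.not_not, not_le] at ka kb
    unfold G3.PS
    omega
  by_cases c : P.adt j (o s) a
  · exact ⟨a, b, o, (τ, s, false), Or.inl hg, iff_of_true hm ht, hT, fun d => hp.2.2 _ ⟨c, d⟩,
      Or.inl hm, wa, fun _ => hps, by simp⟩
  · exact ⟨b, a, o, (τ, s, false), Or.inr hg, iff_of_true hm ht, hT, c, Or.inl hm, wb,
      fun _ => by rw [PS_symm]; exact hps, by simp⟩

theorem odd_strict {R : R3 J V K t M t' M0} (hR : P.RGood R) {h2 : ℕ} (hM : 12 * h2 ≤ M)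
    (hh : R.h ≤ M) {g : J → Sv V} {j : J} {a b : V} (hg : g j = Sv.two a b) {τ : Fin t}
    {o : Bool → K} (hm : ¬ P.mu j) (ht : ¬ P.mt R τ) (hT : P.To (R.F τ) R.h j o)
    (ha : P.col j true a) (hb : P.col j false b) (hab : ¬ P.HH a b) (hc : ¬ P.Srv R h2 τ a b)
    (wa : 10 * (univ.filter fun r => P.junk (R.F τ r).1 a).card < M)
    (wb : 10 * (univ.filter fun r => P.junk (R.F τ r).1 b).card < M) :
    ∃ x y o k, P.OddC R g j x y o k := by
  have h1 : (univ.filter fun r => P.Ok (R.F τ r).1 a b).card < h2 :=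
    not_le.mp fun h => hc (Or.inr ⟨ht, hab, Or.inl h⟩)
  have h3 : M ≤ (univ.filter fun r => P.Ok (R.F τ r).1 a b).card +
      ((P.PS R τ false a b).card + (P.PS R τ true a b).card) := by
    have : (univ : Finset (Fin M)) ⊆ (univ.filter fun r => P.Ok (R.F τ r).1 a b) ∪
        (P.PS R τ false a b ∪ P.PS R τ true a b) := by
      intro r _
      by_cases h : P.Ok (R.F τ r).1 a b
      · exact mem_union_left _ (mem_filter.mpr ⟨mem_univ _, h⟩)
      · obtain ⟨k, k1, k2⟩ := G3.refuse (Geo.col_ne (o := true) ha hb) (Or.inr hab) h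
        obtain ⟨s, rfl⟩ := side_of_strict (hR.cF τ) (fun c => ht ⟨r, c⟩) k1
        refine mem_union_right _ (mem_union.mpr ?_)
        simp only [G3.PS, mem_filter, mem_univ, true_and]
        cases s
        · exact Or.inl ⟨k1, k2⟩
        · exact Or.inr ⟨k1, k2⟩
    have h4 := (card_le_card this).trans ((card_union_le _ _).trans
      (Nat.add_le_add_left (card_union_le _ _) _))
    simpa using h4
  have key : ∃ s u : Bool, (u = false → 2 * M ≤ 3 * (P.PS R τ s a b).card) ∧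
      (u = true → M ≤ 4 * (P.PS R τ false a b).card ∧ M ≤ 4 * (P.PS R τ true a b).card) := by
    by_cases k1 : 2 * M ≤ 3 * (P.PS R τ false a b).card
    · exact ⟨false, false, fun _ => k1, by simp⟩
    by_cases k2 : 2 * M ≤ 3 * (P.PS R τ true a b).card
    · exact ⟨true, false, fun _ => k2, by simp⟩
    exact ⟨false, true, by simp, fun _ => by omega⟩
  obtain ⟨s, u, k1, k2⟩ := key
  obtain ⟨r, hr⟩ : ∃ r, ∀ s, P.colk j (o s) ((R.F τ r).2.2 s) := by
    by_contra hn
    have h5 := hT.2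
    rw [filter_true_of_mem fun r _ => not_exists.mp hn r, card_univ, Fintype.card_fin] at h5
    omega
  obtain ⟨p, e1⟩ := G3.strict_tm hm (hr s).1
  obtain ⟨q, e2⟩ := G3.strict_tm hm (hr (!s)).1
  have hpq : q = !p := by
    have h5 : o s ≠ o (!s) := by
      cases s
      · exact hT.1
      · exact hT.1.symm
    have h6 : p ≠ q := fun c => h5 (by rw [e1, e2, c])
    revert h6
    cases p <;> cases q <;> simp
  subst hpq
  cases p
  · refine ⟨b, a, o, (τ, s, u), Or.inr hg, iff_of_false hm ht, hT, ?_, Or.inr ⟨?_, ?_⟩, wb, ?_, ?_⟩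
    · rw [e1]; exact ha.2
    · rw [e1]; exact hb.1
    · rw [e2]; exact ha.1
    · simpa only [PS_symm R τ _ b a] using k1
    · exact fun c => ⟨hm, by simpa only [PS_symm R τ _ b a] using k2 c⟩
  · refine ⟨a, b, o, (τ, s, u), Or.inl hg, iff_of_false hm ht, hT, ?_, Or.inr ⟨?_, ?_⟩, wa, k1,
      fun c => ⟨hm, k2 c⟩⟩
    · rw [e1]; exact hb.2
    · rw [e1]; exact ha.1
    · rw [e2]; exact hb.1

theorem exists_odd {R : R3 J V K t M t' M0} (hR : P.RGood R) {h2 : ℕ} (hM : 12 * h2 ≤ M)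
    (hh : R.h ≤ M) {A : Finset J} {W : Finset V} {g : J → Sv V} {j : J} {a b : V}
    (hg : g j = Sv.two a b) (hn : P.Nrm (P.SR R A W) j (g j)) (hc : ¬ P.Compat R h2 j a b)
    (hw : ∀ τ, ∀ x ∈ (g j).its, 10 * (univ.filter fun r => P.junk (R.F τ r).1 x).card < M) :
    ∃ x y o k, P.OddC R g j x y o k := by
  rw [hg] at hn hw
  obtain ⟨⟨τ, hty⟩, hn⟩ := hn
  have hs : ¬ P.Srv R h2 τ a b := fun h => hc ⟨τ, hty, h⟩
  obtain ⟨hi, o, hT⟩ := hty
  have wa := hw τ a (by simp [Sv.its])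
  have wb := hw τ b (by simp [Sv.its])
  rcases hn with ⟨hm, ha, hb, hab⟩ | ⟨hm, hp, -⟩
  · exact odd_strict hR hM hh hg hm (fun c => hm (hi.2 c)) hT ha hb hab hs wa wb
  · exact odd_multi hR hM hg hm (hi.1 hm) hT hp hs wa wb

theorem PSt_sub {S S' : Sub J V} {B B' : Finset J} {g : J → Sv V} (h : P.PSt S B g) (hB : B' ⊆ B)
    (hA : B' ⊆ S'.A) (hW : S'.W = S.W) (h1 : S'.geo = S.geo) (h2 : S'.lst = S.lst) :
    P.PSt S' B' g := by
  refine ⟨hA, fun j hj => hW ▸ h.inW j (hB hj), fun j hj => ?_,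
    fun i hi j hj => h.dis i (hB hi) j (hB hj)⟩
  have := h.nrm j (hB hj)
  rcases hg : g j with _ | _ | _ | _ <;> simp only [hg, G3.Nrm, h1, h2] at this ⊢ <;> exact this

end EKV

theorem kCtxS : KCtxS := by
  intro J V K _ _ _ _ _ _ P t M t' M0 R h2 A W B g hM1 hM2 hM3 hR dA dW hst hnt
  let B' := B.filter fun j => ∀ τ, ∀ x ∈ (g j).its,
    10 * (univ.filter fun r => P.junk (R.F τ r).1 x).card < M
  have hB : B' ⊆ B := filter_subset _ _
  have H : ∀ j, ∃ d : Option (V × V × (Bool → K) × Fin t × Bool × Bool),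
      (d = none → j ∈ B' → ∀ a b, g j = Sv.two a b → P.Compat R h2 j a b) ∧
      ∀ x y o k, d = some (x, y, o, k) → j ∈ B' ∧ P.OddC R g j x y o k := by
    intro j
    by_cases h : j ∈ B' → ∀ a b, g j = Sv.two a b → P.Compat R h2 j a b
    · exact ⟨none, fun _ => h, by simp⟩
    · push Not at h
      obtain ⟨hj, a, b, hg, hc⟩ := h
      obtain ⟨x, y, o, k, hodd⟩ :=
        exists_odd hR hM1 hM3 hg (hst.nrm j (hB hj)) hc (mem_filter.mp hj).2
      refine ⟨some (x, y, o, k), by simp, fun x' y' o' k' e => ?_⟩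
      simp only [Option.some.injEq, Prod.mk.injEq] at e
      obtain ⟨rfl, rfl, rfl, rfl⟩ := e
      exact ⟨hj, hodd⟩
  choose od d1 hod using H
  have hits : ∀ j u v, (g j = Sv.two u v ∨ g j = Sv.two v u) → u ∈ (g j).its ∧ v ∈ (g j).its := by
    rintro j u v (h | h) <;> simp [h, Sv.its]
  have huniq : ∀ i ∈ B, ∀ j ∈ B, ∀ v, v ∈ (g i).its → v ∈ (g j).its → i = j := by
    intro i hi j hj v h1 h2
    by_contra hne
    exact disjoint_left.mp (hst.dis i hi j hj hne) h1 h2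
  have hA : ∀ j v, (g j = Sv.one v ∨ ∃ x o k, od j = some (x, v, o, k)) → v ∈ (g j).its := by
    rintro j v (h | ⟨x, o, k, h⟩)
    · simp [h, Sv.its]
    · exact (hits _ _ _ (hod _ _ _ _ _ h).2.1).2
  have hAP : ∀ j v, (g j = Sv.one v ∨ ∃ x o k, od j = some (x, v, o, k)) → j ∈ B' →
      ∀ u, ¬ ∃ i ∈ B', od i = none ∧ (g i = Sv.two v u ∨ g i = Sv.two u v) := by
    rintro j v h hj u ⟨i, hi, h1, h3⟩
    obtain rfl := huniq j (hB hj) i (hB hi) v (hA _ _ h) (hits _ _ _ h3).1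
    rcases h with h | ⟨x, o, k, h⟩
    · rcases h3 with h3 | h3 <;> simp [h] at h3
    · simp [h] at h1
  obtain ⟨μ, m1, m2, m3⟩ := exists_inv (OldK B' g od)
    (by
      rintro (j | v | j) (i | u | i) h <;> try exact h
      obtain ⟨j, hj, h1, h3⟩ := h
      exact ⟨j, hj, h1, h3.symm⟩)
    (by
      rintro (j | v | j) (i | u | i) (i' | u' | i') h h' <;> try exact h.elim
      all_goals try exact h'.elim
      · congr 2
        rcases h.2 with a | ⟨x, o, k, a⟩ <;> rcases h'.2 with b | ⟨x', o', k', b⟩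
        · simpa [a] using b
        · rcases (hod _ _ _ _ _ b).2.1 with c | c <;> simp [a] at c
        · rcases (hod _ _ _ _ _ a).2.1 with c | c <;> simp [b] at c
        · rw [a] at b
          simp only [Option.some.injEq, Prod.mk.injEq] at b
          exact b.2.1
      · rw [huniq i (hB h.1) i' (hB h'.1) v (hA _ _ h.2) (hA _ _ h'.2)]
      · exact (hAP _ _ h.2 h.1 _ h').elim
      · exact (hAP _ _ h'.2 h'.1 _ h).elim
      · obtain ⟨j, hj, -, a⟩ := h
        obtain ⟨j', hj', -, b⟩ := h'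
        obtain rfl := huniq j (hB hj) j' (hB hj') v (hits _ _ _ a).1 (hits _ _ _ b).1
        congr 2
        rcases a with a | a <;> rcases b with b | b <;> rw [a] at b <;>
          simp only [Sv.two.injEq] at b
        · exact b.2
        · exact b.2.trans b.1
        · exact b.1.trans b.2
        · exact b.1)
  refine ⟨B', od, μ, hB, ?_, hR, dA, dW, PSt_sub hst hB (hB.trans hst.sub) rfl rfl rfl,
    fun j hj => hnt j (hB hj), hod, fun j hj h => d1 j h hj, m1,
    fun x y hxy => ⟨fun h => h ▸ m3 x (by rw [h]; exact hxy.symm), m2 x y⟩⟩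
  let Ws : Finset (Σ _ : Fin t, V) := univ.sigma fun τ =>
    univ.filter fun x => M ≤ 10 * (univ.filter fun r => P.junk (R.F τ r).1 x).card
  have hW : Ws.card ≤ 10 * t := by
    rw [card_sigma]
    simpa [mul_comm] using sum_le_card_nsmul univ _ 10 fun τ _ => waste_le hR hM2 τ
  refine le_trans (card_le_card_of_forall_subsingleton
    (fun j (p : Σ _ : Fin t, V) => p.2 ∈ (g j).its) (fun j hj => ?_) fun p _ i hi j hj => ?_) hW
  · obtain ⟨h1, h3⟩ := mem_sdiff.mp hj
    simp only [B', mem_filter, h1, true_and, not_forall, not_lt] at h3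
    obtain ⟨τ, x, h4, h5⟩ := h3
    exact ⟨⟨τ, x⟩, mem_sigma.mpr ⟨mem_univ _, mem_filter.mpr ⟨mem_univ _, h5⟩⟩, h4⟩
  · exact huniq i (mem_sdiff.mp hi.1).1 j (mem_sdiff.mp hj.1).1 _ hi.2 hj.2

namespace EKV

variable {J V K : Type} [Fintype J] [Fintype V] [Fintype K] [DecidableEq J] [DecidableEq V]
  [DecidableEq K] {P : G3 J V K}

theorem Serv3_mono {S : Sub J V} {j : J} {s s' : Finset V} (h : P.Serv3 S j s) (hs : s ⊆ s') :
    P.Serv3 S j s' := by
  rcases h with (⟨v, hv, h⟩ | ⟨hg, a, ha, b, hb, h⟩) | ⟨hg, a, ha, z, hz, b, hb, h⟩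
  · exact Or.inl (Or.inl ⟨v, hs hv, h⟩)
  · exact Or.inl (Or.inr ⟨hg, a, hs ha, b, hs hb, h⟩)
  · exact Or.inr ⟨hg, a, hs ha, z, hs hz, b, hs hb, h⟩

/-- A state on the agents outside `Φ` that avoids the items of `Φ` gives feasibility. -/
theorem glue {Φ : Finset (J × V × V × V)} (hΦ : P.PhiOk Φ) {A : Finset J} {W : Finset V}
    {f : J → Finset V} (hf : St (P.pl A W) (P.Serv2 (P.pl univ univ)) A f)
    (hA : ∀ j, j ∉ ag3 Φ → j ∈ A) (hW : Disjoint W (it3 Φ)) : P.Feas := by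
  let T : J → Finset V := fun j =>
    (Φ.filter fun s => s.1 = j).biUnion fun s => {s.2.1, s.2.2.1, s.2.2.2}
  have hT : ∀ j, T j ⊆ it3 Φ := fun j => biUnion_subset_biUnion_of_subset_left _ (filter_subset _ _)
  have hd : ∀ i j, i ≠ j →
      Disjoint (if i ∈ ag3 Φ then T i else f i) (if j ∈ ag3 Φ then T j else f j) := by
    intro i j hij
    split_ifs with hi hj hj
    · refine disjoint_left.mpr fun x h1 h2 => ?_
      obtain ⟨s, hs, a⟩ := mem_biUnion.mp h1
      obtain ⟨s', hs', b⟩ := mem_biUnion.mp h2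
      obtain ⟨k1, k2⟩ := mem_filter.mp hs
      obtain ⟨k3, k4⟩ := mem_filter.mp hs'
      exact disjoint_left.mp (hΦ.2 s k1 s' k3 fun e => hij (k2.symm.trans (e ▸ k4))).2 a b
    · exact (hW.mono (hf.inW j (hA j hj)) (hT i)).symm
    · exact hW.mono (hf.inW i (hA i hi)) (hT j)
    · exact hf.dis i (hA i hi) j (hA j hj) hij
  refine ⟨fun j => if j ∈ ag3 Φ then T j else f j, ⟨subset_rfl, fun _ _ => subset_univ _,
    fun j _ => ?_, fun i _ j _ => hd i j, fun _ _ h => h.elim⟩, ?_⟩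
  · split_ifs with hj
    · obtain ⟨s, hs, rfl⟩ := mem_image.mp hj
      exact Serv3_mono (hΦ.1 s hs) (subset_biUnion_of_mem
        (fun s : J × V × V × V => ({s.2.1, s.2.2.1, s.2.2.2} : Finset V))
        (mem_filter.mpr ⟨hs, rfl⟩))
    · exact Or.inl (hf.srv j (hA j hj))
  · rw [use, add_zero, ← card_biUnion fun i _ j _ hij => hd i j hij]
    exact card_le_univ _

end EKV

theorem rSoundS (hN : NormS) (hT : TripS) (h1 : KVS) (h2 : KCtxS) (h3 : RSelS) (h4 : RAsgS)
    (h5 : RRealS) : RSoundS := by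
  intro e c t0 hS
  obtain ⟨cT, hT⟩ := hT
  obtain ⟨nE, d, h3⟩ := h3 t0 (c + cT + 10 * t0)
  obtain ⟨D, h4⟩ := h4 t0 nE d
  refine ⟨12 * (3 * (D + nE) + 3) + 1200, ?_⟩
  rintro L J V K _ _ _ _ _ _ P rk hrk ⟨t, ht, t', ht', h, -, h0, -, F, G, Φ, U, hR, -, hU, hΦ, dA,
    dW, hK, hL⟩
  set R : R3 J V K t _ t' _ := ⟨F, G, h, h0⟩ with hRdef
  set A := univ \ (fa R.mem ∪ ag3 Φ) with hA
  set W := univ \ (fi R.mem ∪ it3 Φ) with hW
  have H : ∃ B g, P.PSt (P.SR R A W) B g ∧ NoTri B g ∧ (A \ B).card ≤ c + cT := by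
    rcases hL with hL | hL
    · refine ⟨∅, fun _ => Sv.non, ⟨empty_subset _, by simp, by simp, by simp⟩,
        by simp [NoTri], ?_⟩
      rw [sdiff_empty]
      exact (card_le_card hL).trans (by omega)
    · have wf : P.Wf (P.SR R (univ \ (fa R.mem ∪ ag3 Φ ∪ U)) W) :=
        ⟨fun _ _ _ => Iff.rfl, fun _ => id⟩
      obtain ⟨f, hf, -⟩ := hS J V K P rk _ c hrk wf le_rfl hL
      obtain ⟨g, hg⟩ := (hN J V K P _ _ wf).2.2.1 f hf
      have hc := hT J V K P _ _ g wf hg
      set A1 := (P.SR R (univ \ (fa R.mem ∪ ag3 Φ ∪ U)) W).A with hA1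
      refine ⟨A1.filter fun j => ¬ ∃ a z b, g j = Sv.three a z b, g,
        PSt_sub hg.1 (filter_subset _ _) ((filter_subset _ _).trans ?_) rfl rfl rfl,
        fun j hj a z b e => (mem_filter.mp hj).2 ⟨a, z, b, e⟩, ?_⟩
      · exact sdiff_subset_sdiff subset_rfl subset_union_left
      · refine le_trans (card_le_card (t := U ∪ A1.filter fun j => ∃ a z b, g j = Sv.three a z b)
          fun j hj => ?_) ((card_union_le _ _).trans (add_le_add hU hc))
        obtain ⟨k1, k2⟩ := mem_sdiff.mp hj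
        by_cases hu : j ∈ U
        · exact mem_union_left _ hu
        · have k3 : j ∈ A1 :=
            mem_sdiff.mpr ⟨mem_univ _, fun k => (mem_union.mp k).elim (mem_sdiff.mp k1).2 hu⟩
          refine mem_union_right _ (mem_filter.mpr ⟨k3, ?_⟩)
          by_contra k4
          exact k2 (mem_filter.mpr ⟨k3, k4⟩)
  obtain ⟨B, g, hst, hnt, hc⟩ := H
  have e1 : R.h = h := rfl
  have e2 : R.h0 = h0 := rfl
  obtain ⟨B', od, μ, hB, hc', hctx⟩ := h2 J V K P t _ t' _ R (3 * (D + nE) + 3) A W B g (by omega)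
    (by omega) (by omega) hR
    (disjoint_left.mpr fun j a b => (mem_sdiff.mp a).2 (mem_union_left _ b))
    (disjoint_left.mpr fun j a b => (mem_sdiff.mp a).2 (mem_union_left _ b)) hst hnt
  have hc2 : (A \ B').card ≤ c + cT + 10 * t0 := by
    have : A \ B' ⊆ (A \ B) ∪ (B \ B') := sdiff_triangle A B B'
    have := (card_le_card this).trans (card_union_le _ _)
    omega
  obtain ⟨ν, hout⟩ := h3 J V K P t _ t' _ R (3 * (D + nE) + 3) A W B' g od μ ht ht' (by omega)
    (by omega) (by omega) hctx hc2 (h1 J V K P t _ t' _ R A W hK)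
  have has := h4 J V K P t _ t' _ R (3 * (D + nE) + 3) A W B' g od μ ν ht (by omega) hctx hout
  obtain ⟨f, hf⟩ := h5 J V K P t _ t' _ R (3 * (D + nE) + 3) A W B' g od μ ν nE d D hctx hout has
    le_rfl (by omega) (by omega)
  refine glue hΦ hf (fun j hj => ?_) (disjoint_union_left.mpr ⟨?_, dW.symm⟩)
  · by_cases k : j ∈ fa R.mem
    · exact mem_union_right _ k
    · exact mem_union_left _ (mem_sdiff.mpr ⟨mem_univ _, fun a => (mem_union.mp a).elim k hj⟩)
  · exact disjoint_left.mpr fun j a b => (mem_sdiff.mp a).2 (mem_union_right _ b)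

end Pool.Agent.Lib.MP_ef7581_lc.D3
end
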