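import Mathlib
import Pool.Agent.Lib.MP_ef7581_lc.EGeo
import Pool.Agent.Lib.MP_ef7581_lc.DComp
import Pool.Agent.Lib.MP_ef7581_lc.DCls
import Pool.Agent.Lib.MP_ef7581_lc.DWit
import Pool.Agent.Lib.MP_ef7581_lc.DUA
import Pool.Agent.Lib.MP_ef7581_lc.DOwn

-- part Pool.Agent.Lib.MP_ef7581_lc.ELevel
section

/-!
The slack theorem from its jump step, and the assembly of the characterisation.
-/

set_option autoImplicit false
set_option linter.unusedSectionVars false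

namespace Pool.Agent.Lib.MP_ef7581_lc.D3

open Finset Classical D2
open D2.DLevel (qok_lev mkm mkm_ag mkm_vx mkm_ag' mkm_vx' mkm_inv trip mem_trip trip_inj mem_ag3
  mem_it3 card_trip)

namespace ELevel

variable {J V K : Type} [Fintype J] [Fintype V] [Fintype K] [DecidableEq J] [DecidableEq V]
  [DecidableEq K]

theorem wf_lev {P : G3 J V K} {S : Sub J V} (h : P.Wf S) (R : J → Prop) : P.Wf (S.lev R) := by
  refine ⟨fun j hj v => ?_, h.2⟩
  refine ⟨fun a => ?_, fun a => Or.inl ((h.1 j hj.1 v).2 a)⟩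
  rcases a with a | a
  · exact (h.1 j hj.1 v).1 a
  · exact (a.1 hj.2).elim

theorem serv3_mono {P : G3 J V K} {S S' : Sub J V} {j : J} {s : Finset V}
    (hg : S.geo j → S'.geo j) (hl : ∀ v, S.lst j v → S'.lst j v) (h : P.Serv3 S j s) :
    P.Serv3 S' j s := by
  rcases h with (⟨v, hv, a⟩ | ⟨a, b⟩) | ⟨a, b⟩
  · exact Or.inl (Or.inl ⟨v, hv, hl v a⟩)
  · exact Or.inl (Or.inr ⟨hg a, b⟩)
  · exact Or.inr ⟨hg a, b⟩

theorem serv3_lev {P : G3 J V K} {S : Sub J V} {R R' : J → Prop} {j : J} {s : Finset V}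
    (hR : R j ↔ R' j) (h : P.Serv3 (S.lev R) j s) : P.Serv3 (S.lev R') j s :=
  serv3_mono (S := S.lev R) (fun a => ⟨a.1, hR.1 a.2⟩)
    (fun _ a => a.imp id fun b => ⟨fun c => b.1 (hR.2 c), b.2⟩) h

theorem sol3_congr {P : G3 J V K} {S : Sub J V} {R R' : J → Prop} {l : ℕ}
    (hR : ∀ j ∈ S.A, R j ↔ R' j) (h : P.Sol3 (S.lev R) l) : P.Sol3 (S.lev R') l := by
  obtain ⟨f, hf, hu⟩ := h
  refine ⟨f, ⟨hf.sub, hf.inW, fun j hj => serv3_lev (hR j hj) (hf.srv j hj), hf.dis, ?_⟩, hu⟩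
  intro v hv hq
  obtain ⟨j, hj, a, b⟩ := qok_lev hf hv hq
  exact ⟨j, hj, a, Or.inl b⟩

theorem sol3_of_lev {P : G3 J V K} {S : Sub J V} {R : J → Prop} {l : ℕ}
    (hR : ∀ j ∈ S.A, R j) (h : P.Sol3 (S.lev R) l) : P.Sol3 S l := by
  obtain ⟨f, hf, hu⟩ := h
  refine ⟨f, ⟨hf.sub, hf.inW, fun j hj => ?_, hf.dis, fun v hv hq => qok_lev hf hv hq⟩, hu⟩
  refine serv3_mono (S := S.lev R) (fun a => a.1) (fun v a => ?_) (hf.srv j hj)
  rcases a with a | a
  · exact a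
  · exact (a.1 (hR j hj)).elim

theorem sol2_lev {P : G3 J V K} {S : Sub J V} {l : ℕ} (h : P.Sol2 S l) (R : J → Prop) :
    P.Sol2 (S.lev R) l := by
  obtain ⟨f, hf, hu⟩ := h
  refine ⟨f, ⟨hf.sub, hf.inW, fun j hj => ?_, hf.dis, fun v hv hq => ?_⟩, hu⟩
  · rcases hf.srv j hj with ⟨v, hv, a⟩ | ⟨hg, a, ha, b, hb, hab⟩
    · exact Or.inl ⟨v, hv, Or.inl a⟩
    by_cases hR : R j
    · exact Or.inr ⟨⟨hg, hR⟩, a, ha, b, hb, hab⟩
    refine Or.inl ⟨a, ha, Or.inr ⟨hR, fun hq => ?_⟩⟩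
    obtain ⟨i, hi, e1, -⟩ := hf.qok a (hf.inW j hj ha) hq
    have hij : i = j := by
      by_contra hne
      exact disjoint_left.1 (hf.dis i hi j hj hne) (by rw [e1]; exact mem_singleton_self a) ha
    subst hij
    rw [e1, mem_singleton] at hb
    exact hab.1 hb.symm
  · obtain ⟨j, hj, a, b⟩ := hf.qok v hv hq
    exact ⟨j, hj, a, Or.inl b⟩

/-- A solution of the bottom level passes the test. -/
theorem pass_of_sol (hP : PeStmt) {P : G3 J V K} {S : Sub J V} {e l : ℕ} (hg : ∀ j, ¬ S.geo j)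
    (h : P.Sol2 S l) : P.Pass S e ∅ (axC J V) (px0 V) l := by
  obtain ⟨f, hf, hu⟩ := h
  have hc : ∀ j, j ∈ S.A → ∃ v, v ∈ f j ∧ S.lst j v := fun j hj => by
    rcases hf.srv j hj with a | a
    · exact a
    · exact (hg j a.1).elim
  choose c hc1 hc2 using hc
  let r : J → V → Prop := fun j v => ∃ h : j ∈ S.A, c j h = v
  have h1 : ∀ j v v', r j v → r j v' → v = v' := by
    rintro j v v' ⟨a, rfl⟩ ⟨b, rfl⟩
    rfl
  have h2 : ∀ j j' v, r j v → r j' v → j = j' := by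
    rintro j j' v ⟨a, e1⟩ ⟨b, e2⟩
    by_contra hne
    exact disjoint_left.1 (hf.dis j a j' b hne) (e1 ▸ hc1 j a) (e2 ▸ hc1 j' b)
  have hE : ∀ j v, r j v → P.En S e ∅ (axC J V) (px0 V) (ag j) (vx v) := by
    rintro j v ⟨a, rfl⟩
    exact ⟨a, hf.inW j a (hc1 j a), Or.inl (hc2 j a)⟩
  have hM : IsM (P.En S e ∅ (axC J V) (px0 V)) (mkm r) := by
    refine ⟨mkm_inv h1 h2, fun x hx => ?_⟩
    rcases x with j | v | j
    · by_cases h : ∃ v, r j v
      · obtain ⟨v, h⟩ := h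
        have := mkm_ag h1 h
        rw [this]
        exact hE j v h
      · exact (hx (mkm_ag' h)).elim
    · by_cases h : ∃ j, r j v
      · obtain ⟨j, h⟩ := h
        have := mkm_vx h2 h
        rw [this]
        exact G3.En_symm (hE j v h)
      · exact (hx (mkm_vx' h)).elim
    · exact (hx rfl).elim
  have hA : ∀ j (hj : j ∈ S.A), mkm r (ag j) = vx (c j hj) := fun j hj => mkm_ag h1 ⟨hj, rfl⟩
  have hA' : ∀ j, j ∉ S.A → mkm r (ag j) = ag j := fun j hj =>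
    mkm_ag' fun ⟨_, a, _⟩ => hj a
  refine ⟨mkm r, hM, ?_, ?_, fun j hj _ => ?_, ?_⟩
  · have a := ((hP J V).1 (mkm r) hM.1 (G3.En_shape hM)).1
    have b : npe (mkm r) univ = 0 := by
      unfold npe
      rw [card_eq_zero, filter_eq_empty_iff]
      rintro v - ⟨-, u, huv, hu⟩
      by_cases h : ∃ j, r j v
      · obtain ⟨j, h⟩ := h
        rw [mkm_vx h2 h] at hu
        cases hu
      · rw [mkm_vx' h] at hu
        exact huv (Sum.inl.inj (Sum.inr.inj hu)).symm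
    have d : (univ.filter fun j : J => mkm r (ag j) ≠ ag j) = S.A := by
      ext j
      rw [mem_filter]
      refine ⟨fun a => by_contra fun hj => a.2 (hA' j hj), fun hj => ⟨mem_univ _, ?_⟩⟩
      rw [hA j hj]
      intro a
      cases a
    rw [a, b, d, Nat.add_zero]
  · have a : S.A.card ≤ cw S (mkm r) := by
      refine card_le_card fun j hj => ?_
      rw [mem_filter]
      exact ⟨mem_univ _, c j hj, hA j hj, hc2 j hj⟩
    have b : S.A.card ≤ use S.A f := by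
      rw [card_eq_sum_ones]
      exact sum_le_sum fun j hj => card_pos.2 ⟨_, hc1 j hj⟩
    omega
  · rw [hA j hj]
    intro a
    cases a
  · simp [unf, px0]

/-- The test of the bottom level gives a solution by single items. -/
theorem sol_of_pass {P : G3 J V K} {S : Sub J V} {e l : ℕ} (hg : ∀ j, ¬ S.geo j)
    (hq : ∀ v, ¬ S.qm v) (h : P.Pass S e ∅ (axC J V) (px0 V) l) : P.Sol3 S l := by
  obtain ⟨ν, hM, -, hw, hc1, -⟩ := h
  have hA : ∀ j ∈ S.A, ∃ v, ν (ag j) = vx v ∧ v ∈ S.W ∧ S.lst j v := fun j hj => by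
    have b := hM.2 _ (hc1 j hj (Or.inr trivial))
    rcases hm : ν (ag j) with i | u | i <;> rw [hm] at b
    · exact b.elim
    · exact ⟨u, rfl, b.2.1, b.2.2.elim id fun a => a.elim (fun a => (hg j a.1).elim)
        fun a => a.1.elim⟩
    · exact (hg j b.2.2.1).elim
  let f : J → Finset V := fun j => univ.filter fun v => ν (ag j) = vx v
  have hf : ∀ j v, ν (ag j) = vx v → f j = {v} := fun j v a => by
    ext u
    rw [mem_filter, mem_singleton, a]
    exact ⟨fun b => (Sum.inl.inj (Sum.inr.inj b.2)).symm, fun b => ⟨mem_univ _, by rw [b]⟩⟩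
  refine ⟨f, ⟨Subset.refl _, fun j hj => ?_, fun j hj => ?_, fun i hi j hj hne => ?_,
    fun v _ a => (hq v a).elim⟩, ?_⟩
  · obtain ⟨v, a, b, -⟩ := hA j hj
    rw [hf j v a]
    exact singleton_subset_iff.2 b
  · obtain ⟨v, a, -, b⟩ := hA j hj
    rw [hf j v a]
    exact Or.inl (Or.inl ⟨v, mem_singleton_self v, b⟩)
  · obtain ⟨u, a, -, -⟩ := hA i hi
    obtain ⟨v, b, -, -⟩ := hA j hj
    rw [hf i u a, hf j v b, disjoint_singleton]
    rintro rfl
    have : ag i = (ag j : Nd J V) := by rw [← hM.1 (ag i), a, ← b, hM.1]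
    exact hne (Sum.inl.inj this)
  · have a : cw S ν ≤ S.A.card := by
      refine card_le_card fun j hj => ?_
      rw [mem_filter] at hj
      obtain ⟨-, v, a, -⟩ := hj
      have b := hM.2 (ag j) (by rw [a]; intro b; cases b)
      rw [a] at b
      exact b.1
    have b : use S.A f = S.A.card := by
      rw [card_eq_sum_ones]
      refine sum_congr rfl fun j hj => ?_
      obtain ⟨v, a, -, -⟩ := hA j hj
      rw [hf j v a, card_singleton]
    omega

/-- One agent gets back its true list. -/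
theorem step {P : G3 J V K} {S : Sub J V} {l : ℕ} {R R' : J → Prop} {j0 : J} (hj0 : j0 ∈ S.A)
    (h0 : ¬ R j0) (hR : ∀ j ∈ S.A, j ≠ j0 → (R j ↔ R' j))
    (hJ : ∀ f, St (S.lev R') (P.Serv3 (S.lev R')) (S.A.erase j0) f →
      use (S.A.erase j0) f + l + 1 ≤ S.W.card → P.Sol3 (S.lev R') l)
    (h : P.Sol3 (S.lev R) l) : P.Sol3 (S.lev R') l := by
  obtain ⟨f, hf, hu⟩ := h
  by_cases hv : ∃ v ∈ f j0, S.lst j0 v
  · refine ⟨f, ⟨hf.sub, hf.inW, fun j hj => ?_, hf.dis, fun v hv hq => ?_⟩, hu⟩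
    · by_cases e1 : j = j0
      · subst e1
        obtain ⟨v, a, b⟩ := hv
        exact Or.inl (Or.inl ⟨v, a, Or.inl b⟩)
      · exact serv3_lev (hR j hj e1) (hf.srv j hj)
    · obtain ⟨j, hj, a, b⟩ := qok_lev hf hv hq
      exact ⟨j, hj, a, Or.inl b⟩
  refine hJ f ⟨erase_subset _ _, fun j hj => hf.inW j (mem_of_mem_erase hj), fun j hj => ?_,
    fun i hi j hj => hf.dis i (mem_of_mem_erase hi) j (mem_of_mem_erase hj),
    fun v hw hq => ?_⟩ ?_
  · exact serv3_lev (hR j (mem_of_mem_erase hj) (ne_of_mem_erase hj))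
      (hf.srv j (mem_of_mem_erase hj))
  · obtain ⟨j, hj, a, b⟩ := qok_lev hf hw hq
    refine ⟨j, mem_erase.2 ⟨?_, hj⟩, a, Or.inl b⟩
    rintro rfl
    exact hv ⟨v, by rw [a]; exact mem_singleton_self v, b⟩
  · have a : 1 ≤ (f j0).card := by
      rcases hf.srv j0 hj0 with (⟨v, a, -⟩ | ⟨a, -⟩) | ⟨a, -⟩
      · exact card_pos.2 ⟨v, a⟩
      · exact (h0 a.2).elim
      · exact (h0 a.2).elim
    have b : use (S.A.erase j0) f + (f j0).card = use S.A f := sum_erase_add _ _ hj0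
    have d : use S.A f + l ≤ S.W.card := hu
    omega

theorem phiOk {P : G3 J V K} {g : J → Sv V}
    (h : St (P.pl univ univ) (P.Serv3 (P.pl univ univ)) univ fun j => (g j).its) :
    P.PhiOk (trip g) := by
  refine ⟨fun s hs => ?_, fun s hs s' hs' hne => ?_⟩
  · have a := h.srv s.1 (mem_univ _)
    rw [mem_trip.1 hs] at a
    exact a
  · have a : s.1 ≠ s'.1 := fun e1 => hne (trip_inj hs hs' e1)
    refine ⟨a, ?_⟩
    have b := h.dis s.1 (mem_univ _) s'.1 (mem_univ _) a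
    rw [mem_trip.1 hs, mem_trip.1 hs'] at b
    exact b

theorem nrm_pl {P : G3 J V K} {A A' : Finset J} {W W' : Finset V} {j : J} {s : Sv V}
    (h : P.Nrm (P.pl A W) j s) : P.Nrm (P.pl A' W') j s := by
  cases s <;> exact h

/-- Without its triples a minimal state stays minimal. -/
theorem min2 {P : G3 J V K} {g : J → Sv V} (h : P.Min3 (P.pl univ univ) univ g)
    (hs : St (P.pl univ univ) (P.Serv3 (P.pl univ univ)) univ fun j => (g j).its) :
    P.Min2 (P.pl (univ \ ag3 (trip g)) (univ \ it3 (trip g))) (univ \ ag3 (trip g)) g := by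
  obtain ⟨hp, hm⟩ := h
  refine ⟨⟨Subset.refl _, fun j hj v hv => ?_, fun j _ => nrm_pl (hp.nrm j (mem_univ _)),
    fun i _ j _ => hp.dis i (mem_univ _) j (mem_univ _)⟩, fun j hj a z b e1 => ?_,
    fun f hf => ?_⟩
  · refine mem_sdiff.2 ⟨mem_univ _, fun a => ?_⟩
    obtain ⟨i, hi, b⟩ := mem_it3.1 a
    have hne : i ≠ j := fun e1 => (mem_sdiff.1 hj).2 (e1 ▸ hi)
    exact disjoint_left.1 (hp.dis i (mem_univ _) j (mem_univ _) hne) b hv
  · exact (mem_sdiff.1 hj).2 (mem_ag3.2 ⟨a, z, b, e1⟩)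
  let f' : J → Finset V := fun j => if j ∈ ag3 (trip g) then (g j).its else f j
  have f1 : ∀ j ∈ ag3 (trip g), f' j = (g j).its := fun j hj => if_pos hj
  have f2 : ∀ j, j ∉ ag3 (trip g) → f' j = f j := fun j hj => if_neg hj
  have m2 : ∀ j, j ∉ ag3 (trip g) → j ∈ univ \ ag3 (trip g) := fun j hj =>
    mem_sdiff.2 ⟨mem_univ _, hj⟩
  have dd : ∀ i ∈ ag3 (trip g), ∀ j, j ∉ ag3 (trip g) → Disjoint (g i).its (f j) :=
    fun i hi j hj => disjoint_left.2 fun v a b =>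
      (mem_sdiff.1 (hf.inW j (m2 j hj) b)).2 (mem_it3.2 ⟨i, hi, a⟩)
  have hst : St (P.pl univ univ) (P.Serv3 (P.pl univ univ)) univ f' := by
    refine ⟨Subset.refl _, fun j _ => subset_univ _, fun j _ => ?_, fun i _ j _ hne => ?_,
      fun _ _ a => a.elim⟩
    · by_cases hj : j ∈ ag3 (trip g)
      · rw [f1 j hj]
        exact hs.srv j (mem_univ _)
      · rw [f2 j hj]
        exact Or.inl (hf.srv j (m2 j hj))
    · by_cases hi : i ∈ ag3 (trip g) <;> by_cases hj : j ∈ ag3 (trip g)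
      · rw [f1 i hi, f1 j hj]
        exact hp.dis i (mem_univ _) j (mem_univ _) hne
      · rw [f1 i hi, f2 j hj]
        exact dd i hi j hj
      · rw [f2 i hi, f1 j hj]
        exact (dd j hj i hi).symm
      · rw [f2 i hi, f2 j hj]
        exact hf.dis i (m2 i hi) j (m2 j hj) hne
  have a := hm f' hst
  have sp : ∀ u : J → Finset V,
      use (univ \ ag3 (trip g)) u + use (ag3 (trip g)) u = use univ u := fun u =>
    sum_sdiff (subset_univ _)
  have b : use (ag3 (trip g)) f' = use (ag3 (trip g)) fun j => (g j).its :=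
    sum_congr rfl fun j hj => by rw [f1 j hj]
  have d : use (univ \ ag3 (trip g)) f' = use (univ \ ag3 (trip g)) f :=
    sum_congr rfl fun j hj => by rw [f2 j (mem_sdiff.1 hj).2]
  have s1 := sp f'
  have s2 := sp fun j => (g j).its
  omega

/-- A solution without triples passes the test of every frame. -/
theorem test1_of_sol (hN : NormS) (h1 : NecS) {P : G3 J V K} {S : Sub J V} {e l : ℕ}
    (hw : P.Wf S) (h : P.Sol2 S l) : P.Test1 S e l (px0 V) := by
  obtain ⟨f, hf, hu⟩ := h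
  obtain ⟨-, -, -, n4, -⟩ := hN J V K P S S.A hw
  obtain ⟨g, hg⟩ := n4 f hf
  have a := hg.2.2 f hf
  refine h1 J V K P S e l (px0 V) g hw hg (by omega) (fun _ _ _ _ _ _ => ⟨Iff.rfl, Iff.rfl⟩) ?_
  simp [frn, px0]

end ELevel

open ELevel in
theorem slS3 (hN : NormS) (h1 : NecS) (h2 : JumpS) (h3 : PJS) : SLS3 := by
  obtain ⟨e, c0, hJ0⟩ := h2
  obtain ⟨c, hc⟩ := h3 e c0 hJ0
  obtain ⟨hJ, hPJ⟩ := hc c le_rfl
  refine ⟨e, c, ?_, ?_, hPJ⟩
  · intro J V K _ _ _ _ _ _ P rk S l hw hs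
    exact ⟨pass_of_sol peStmt (fun j a => a.2) (sol2_lev hs _),
      fun j0 _ => test1_of_sol hN h1 (wf_lev hw _) (sol2_lev hs _)⟩
  · intro J V K _ _ _ _ _ _ P rk S l hrk hw hl ht
    have key : ∀ n, P.Sol3 (S.lev fun j => rk j < n) l := by
      intro n
      induction n with
      | zero =>
        exact sol3_congr (fun j _ => ⟨fun a => a.elim, fun a => (Nat.not_lt_zero _ a).elim⟩)
          (sol_of_pass (fun j a => a.2) hw.2 ht.1)
      | succ n ih =>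
        by_cases h : ∃ j0 ∈ S.A, rk j0 = n
        · obtain ⟨j0, hj0, e0⟩ := h
          refine sol3_congr (R := fun j => rk j ≤ rk j0) (fun j _ => by omega) ?_
          refine step hj0 (by omega) (fun j _ hne => ?_) (fun f hf hu => ?_) ih
          · have : rk j ≠ rk j0 := fun a => hne (hrk a)
            omega
          · exact hJ J V K P _ l j0 f (wf_lev hw _) hl hj0 hf hu (ht.2 j0 hj0)
        · refine sol3_congr (fun j hj => ?_) ih
          have : rk j ≠ n := fun a => h ⟨j, hj, a⟩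
          omega
    refine sol3_of_lev (fun j hj => ?_) (key (S.A.sup rk + 1))
    exact Nat.lt_succ_of_le (le_sup (f := rk) hj)

open ELevel in
theorem mainS (hS : SLS3) (hN : NormS) (hT : TripS) (hC : ClsS) (h1 : USoundS) (h2 : UNecS)
    (h3 : MSoundS) (h4 : MNecS) (h5 : RSoundS) (h6 : RNecS) : MainS := by
  obtain ⟨e, c, hn, hs, hpj⟩ := hS
  obtain ⟨cT, hT⟩ := hT
  obtain ⟨t0, hC⟩ := hC (NU c)
  obtain ⟨c1, h5⟩ := h5 e c t0 hs
  obtain ⟨L0, h2⟩ := h2 e c cT hn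
  obtain ⟨L1, h4⟩ := h4 e c cT hn
  obtain ⟨L2, h6⟩ := h6 e c cT t0 c1 hn
  refine ⟨e, c, t0, c1, L0 + L1 + L2, ?_⟩
  intro J V K _ _ _ _ _ _ P rk hrk
  refine ⟨fun hf => ?_, fun hc => ?_⟩
  · obtain ⟨f, hf, -⟩ := hf
    have hw := G3.wf_pl (P := P) univ univ
    obtain ⟨-, -, n3, -, n5, -⟩ := hN J V K P (P.pl univ univ) univ hw
    obtain ⟨g, hg⟩ := n3 f hf
    have hst := n5 g hg.1
    have hcard : (trip g).card ≤ cT := by
      rw [card_trip]
      refine le_trans (card_le_card fun j hj => ?_) (hT J V K P _ univ g hw hg)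
      rw [mem_filter]
      exact ⟨mem_univ _, mem_ag3.1 hj⟩
    have hm := min2 hg hst
    rcases hC J V K P _ _ g hm with ⟨g', ty, F, a1, a2, a3, a4⟩ | ⟨g', ty, F, a1, a2, a3, a4⟩ | a
    · exact Or.inl (h2 _ (by omega) J V K P rk (trip g) g' ty F (phiOk hst) hcard a1 a2 a3 a4)
    · exact Or.inr (Or.inl
        (h4 _ (by omega) J V K P rk (trip g) g' ty F (phiOk hst) hcard a1 a2 a3 a4))
    · exact Or.inr (Or.inr
        (h6 _ (by omega) J V K P rk (trip g) g (phiOk hst) hcard hm.1 hm.2.1 a))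
  · rcases hc with hc | hc | hc
    · exact h1 e c _ hs hpj J V K P rk hrk hc
    · exact h3 e c _ hs J V K P rk hrk hc
    · exact h5 _ J V K P rk hrk hc

end Pool.Agent.Lib.MP_ef7581_lc.D3
end

-- part Pool.Agent.Lib.MP_ef7581_lc.EUAX
section

/-!
Absorption in a family of type 3 when the second item of the witness is an exposed item.
-/

set_option autoImplicit false
set_option linter.unusedSectionVars false

namespace Pool.Agent.Lib.MP_ef7581_lc.D3

open Finset Classical D2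

namespace EUAX

open D2.DWit D2.DUA

variable {J V : Type} [Fintype J] [Fintype V] [DecidableEq J] [DecidableEq V] {P : Geo J V}

section Fam

variable {N : ℕ} {F : Fin N → Mb J V}

theorem its_inj' (h : DisF F) {x y v r0 : Fin N} {q q' : V} (xy : x ≠ y) (xv : x ≠ v)
    (yv : y ≠ v) (hq : q ∉ fitF F) (hq' : q' ∉ fitF F) (x0 : x ≠ r0) (y0 : y ≠ r0) (v0 : v ≠ r0)
    (e1 : q ≠ q') : Function.Injective (its F x y v q q' (F r0).2.2.1) := by
  have na : ∀ {u : V}, u ∉ fitF F → ∀ r, (F r).2.2.1 ≠ u := fun hu r e => hu (e ▸ a_mem r)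
  have nb : ∀ {u : V}, u ∉ fitF F → ∀ r, (F r).2.2.2 ≠ u := fun hu r e => hu (e ▸ b_mem r)
  have : (List.ofFn (its F x y v q q' (F r0).2.2.1)).Nodup := by
    simp [its, List.ofFn_succ, aa_ne h xy, aa_ne h xv, aa_ne h yv, bb_ne h xy, bb_ne h xv,
      bb_ne h yv, ab_ne h, (ab_ne h _ _).symm, na hq, na hq', nb hq, nb hq', aa_ne h x0,
      aa_ne h y0, aa_ne h v0, (na hq r0).symm, (na hq' r0).symm, e1]
  exact List.nodup_ofFn.1 this

/-- Every member sees a first item in colour A. -/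
theorem cA_all (h : P.PFam 3 F) (r r0 : Fin N) : P.cA (F r) (F r0).2.2.1 := by
  by_cases e : r = r0
  · subst e
    exact (h.own r).1
  · exact (seeA h e).1

theorem not_waste (h : P.PFam 3 F) (r0 : Fin N) : ¬ P.waste F (F r0).2.2.1 := by
  rintro ⟨r, -, -, hj, -⟩
  have h1 := (cA_all h r r0).2
  cases hb : (F r).2.1 <;> rw [hb] at h1
  · exact h1 hj.2
  · exact h1 hj.1

end Fam

variable {c : ℕ} {F : Fin (NU c) → Mb J V}

/-- Three fresh members and the witness absorb `q`. -/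
theorem absorb3' (h : DisF F) {U : Finset (Fin (NU c))}
    {s : J × V × V} {q : V} {x y v r0 : Fin (NU c)} (xy : x ≠ y) (xv : x ≠ v) (yv : y ≠ v)
    (hx : x ∉ U ∧ c ≤ x.val) (hy : y ∉ U ∧ c ≤ y.val) (hv : v ∉ U ∧ c ≤ v.val)
    (hg : s.1 ∉ fagF F) (hq : q ∉ fitF F) (hq' : s.2.1 ∉ fitF F) (h0 : r0.val < c)
    (hz : (F r0).2.2.1 = s.2.2) (e1 : q ≠ s.2.1) (sv : Fin 4 → Fin 9 × Fin 9)
    (hd : ∀ i k, i ≠ k → (sv i).1 ≠ (sv k).1 ∧ (sv i).1 ≠ (sv k).2 ∧ (sv i).2 ≠ (sv k).2)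
    (ht' : ∀ i, (sv i).1 ≠ 2 ∧ (sv i).2 ≠ 2)
    (hok : ∀ i, P.Ok (agts F x y v s.1 i) (its F x y v q s.2.1 s.2.2 (sv i).1)
      (its F x y v q s.2.1 s.2.2 (sv i).2)) :
    P.Absorb c 3 F U {s} {q} 1 := by
  have n0 : ∀ r : Fin (NU c), c ≤ r.val → r ≠ r0 := fun r hr e => by
    subst e
    omega
  have hi : Function.Injective (its F x y v q s.2.1 s.2.2) :=
    hz ▸ its_inj' h xy xv yv hq hq' (n0 x hx.2) (n0 y hy.2) (n0 v hv.2) e1
  have hmem : ∀ i, its F x y v q s.2.1 s.2.2 i ∈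
      (({x, y, v} : Finset (Fin (NU c))).biUnion fun r => {(F r).2.2.1, (F r).2.2.2}) ∪ {q} ∪
        it2 {s} := by
    intro i
    fin_cases i <;> simp [its, it2]
  obtain ⟨f, hf⟩ := st_of_fin (P := P) (agts_inj h xy xv yv hg) hi sv hok hd
    (A := (({x, y, v} : Finset (Fin (NU c))).image fun r => (F r).1) ∪ ag2 {s})
    (W := ((({x, y, v} : Finset (Fin (NU c))).biUnion fun r => {(F r).2.2.1, (F r).2.2.2}) ∪
      {q} ∪ it2 {s}) \ {its F x y v q s.2.1 s.2.2 2})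
    (by
      intro j hj
      simp only [ag2, image_insert, image_singleton, mem_union, mem_insert, mem_singleton] at hj
      rcases hj with (rfl | rfl | rfl) | rfl
      · exact ⟨1, rfl⟩
      · exact ⟨2, rfl⟩
      · exact ⟨3, rfl⟩
      · exact ⟨0, rfl⟩)
    (fun i => ⟨mem_sdiff.2 ⟨hmem _, fun e => (ht' i).1 (hi (mem_singleton.1 e))⟩,
      mem_sdiff.2 ⟨hmem _, fun e => (ht' i).2 (hi (mem_singleton.1 e))⟩⟩)
  refine ⟨{x, y, v}, f, {its F x y v q s.2.1 s.2.2 2}, ?_, card_le_three, ?_, card_singleton _,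
    ?_, hf⟩
  · rw [disjoint_left]
    intro r hr
    simp only [mem_insert, mem_singleton] at hr
    rcases hr with rfl | rfl | rfl
    · exact hx.1
    · exact hy.1
    · exact hv.1
  · intro r hr
    simp only [mem_insert, mem_singleton] at hr
    rcases hr with rfl | rfl | rfl
    · exact hx.2
    · exact hy.2
    · exact hv.2
  · intro u hu
    rw [mem_singleton] at hu
    subst hu
    exact ⟨y, by simp, Or.inl rfl⟩

/-- The witness gadget with an exposed second item. -/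
theorem witX (h : UnitStmt) {U : Finset (Fin (NU c))} {s : J × V × V} {q : V} {p : Bool}
    {r0 : Fin (NU c)} (hF : P.PFam 3 F) (hc : U.card ≤ 3 * c + 3) (h1 : P.col s.1 p s.2.1)
    (h2 : P.col s.1 (!p) s.2.2) (hqz : ¬ P.HH s.2.1 s.2.2) (hq' : P.hard c F s.2.1)
    (hg : s.1 ∉ fagF F) (hq'F : s.2.1 ∉ fitF F) (h0 : r0.val < c) (hz : (F r0).2.2.1 = s.2.2)
    (hqF : q ∉ fitF F) (e1 : q ≠ s.2.1) (hq : P.hard c F q) : P.Absorb c 3 F U {s} {q} 1 := by
  have hw : ¬ P.waste F s.2.2 := hz ▸ not_waste hF r0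
  obtain ⟨B, hB, hgood⟩ := exists_bad h hF hc h1 h2 hq' hw hq
  have pickN : ∀ z, P.hard c F z → ∀ T : Finset (Fin (NU c)), T.card ≤ 6 * (4 * c + 12) + 3 →
      ∃ r, Good P c F U s p q r ∧ ¬ P.HH (F r).2.2.2 z ∧ r ∉ T := by
    intro z hz T hT
    have hN : 20 * (4 * c + 12) ≤
        (univ.filter fun r : Fin (NU c) => zM2 c r ∧ ¬ P.HH z (F r).2.2.2).card := by
      by_contra hlt
      exact hz.2.2 ⟨hz.1, hz.2.1, not_le.1 hlt⟩
    obtain ⟨r, hr, rB, rT⟩ := pick (S := univ.filter fun r : Fin (NU c) =>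
      zM2 c r ∧ ¬ P.HH z (F r).2.2.2) (B := B) (T := T) (by omega)
    rw [mem_filter] at hr
    have hz2 := hr.2.1
    exact ⟨r, hgood r ⟨by unfold zM2 at hz2; omega, hz2.2⟩ rB,
      fun a => hr.2.2 (Geo.HH_symm a), rT⟩
  have fin : ∀ {x y v : Fin (NU c)}, x ≠ y → x ≠ v → y ≠ v → Good P c F U s p q x →
      Good P c F U s p q y → Good P c F U s p q v → ∀ (sv : Fin 4 → Fin 9 × Fin 9),
      (∀ i k, i ≠ k → (sv i).1 ≠ (sv k).1 ∧ (sv i).1 ≠ (sv k).2 ∧ (sv i).2 ≠ (sv k).2) →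
      (∀ i, (sv i).1 ≠ 2 ∧ (sv i).2 ≠ 2) →
      (∀ i, P.Ok (agts F x y v s.1 i) (its F x y v q s.2.1 s.2.2 (sv i).1)
        (its F x y v q s.2.1 s.2.2 (sv i).2)) → P.Absorb c 3 F U {s} {q} 1 :=
    fun xy xv yv gx gy gv sv hd ht' hok =>
      absorb3' hF.dis xy xv yv gx.fresh gy.fresh gv.fresh hg hqF hq'F h0 hz e1 sv hd ht' hok
  by_cases hC : ∃ x, Good P c F U s p q x ∧ P.C s.1 (F x).2.2.1
  · obtain ⟨x, gx, hx⟩ := hC
    obtain ⟨v, gv, nv, vT⟩ := pickN _ hq' {x} (by rw [card_singleton]; omega)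
    obtain ⟨y, gy, ny, yT⟩ := pickN _ hq {x, v} (card_le_two.trans (by omega))
    simp only [mem_insert, mem_singleton, not_or] at vT yT
    have xy : x ≠ y := Ne.symm yT.1
    have xv : x ≠ v := Ne.symm vT
    have yv : y ≠ v := yT.2
    refine fin xy xv yv gx gy gv ![(0, 0), (4, 1), (5, 7), (3, 6)] (by decide)
      (by decide) fun i => ?_
    fin_cases i
    · exact Or.inl hx
    · exact okAB (seeA hF xv).1 (hF.own x).2 (hF.ind _ (a_mem v) _ (b_mem x))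
    · exact okAB (seeA hF yv).2 gy.bq' nv
    · exact okAB (seeA hF yv.symm).2 gv.bq ny
  have ha : ∀ r, Good P c F U s p q r → P.adj s.1 (!p) (F r).2.2.1 := by
    intro r gr
    by_contra hn
    exact hC ⟨r, gr, Geo.C_of gr.np hn⟩
  have hA : ∀ y, Good P c F U s p q y → P.Ok (F y).1 s.2.2 s.2.1 :=
    fun y gy => okAB (hz ▸ cA_all hF y r0) gy.bq' fun a => hqz (Geo.HH_symm a)
  by_cases hG : 6 * (4 * c + 12) ≤
      (univ.filter fun r : Fin (NU c) => zM c r ∧ ¬ P.adj s.1 (!p) (F r).2.2.2).card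
  · obtain ⟨v, gv, nv, -⟩ := pickN _ hq' ∅ (by simp)
    obtain ⟨y, gy, ny, yT⟩ := pickN _ hq {v} (by rw [card_singleton]; omega)
    have c2 : ({y, v} : Finset (Fin (NU c))).card ≤ 2 := card_le_two
    obtain ⟨x, hx, xB, xT⟩ := pick (S := univ.filter fun r : Fin (NU c) =>
      zM c r ∧ ¬ P.adj s.1 (!p) (F r).2.2.2) (B := B) (T := {y, v}) (by omega)
    rw [mem_filter] at hx
    have gx := hgood x hx.2.1 xB
    simp only [mem_insert, mem_singleton, not_or] at xT yT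
    have hgx : P.Ok s.1 (F x).2.2.1 (F x).2.2.2 :=
      Or.inr (Or.inr ⟨ab_ne hF.dis x x, hF.ind _ (a_mem x) _ (b_mem x), p, gx.np, hx.2.2⟩)
    refine fin xT.1 xT.2 yT gx gy gv ![(0, 1), (3, 6), (8, 7), (4, 5)]
      (by decide) (by decide) fun i => ?_
    fin_cases i
    · exact hgx
    · exact okAB (seeA hF xT.1).2 gx.bq ny
    · exact hA y gy
    · exact okOwn hF v
  · set G := univ.filter fun r : Fin (NU c) => zM c r ∧ ¬ P.adj s.1 (!p) (F r).2.2.2 with hGd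
    have hb : ∀ r, Good P c F U s p q r → r ∉ G → ¬ P.adj s.1 p (F r).2.2.2 := by
      intro r gr hr a
      rw [hGd, mem_filter] at hr
      refine gr.nb (Geo.junk_of a ?_)
      by_contra hn
      exact hr ⟨mem_univ r, gr.zm, hn⟩
    obtain ⟨v, gv, nv, vT⟩ := pickN _ hq' G (by omega)
    obtain ⟨y, gy, ny, yT⟩ := pickN _ hq (insert v G) ((card_insert_le _ _).trans (by omega))
    obtain ⟨x, gx, -, xT⟩ := pickN _ hq {y, v} (card_le_two.trans (by omega))
    simp only [mem_insert, mem_singleton, not_or] at xT yT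
    have hnq : ¬ P.adj s.1 (!p) q := fun a =>
      hF.ind _ (a_mem y) _ (a_mem v)
        (Geo.cluster a (ha y gy) (ha v gv) gy.aq gv.aq (aa_ne hF.dis yT.1))
    have nbq : ∀ r u, u ∉ fitF F → (F r).2.2.2 ≠ u := fun r u hu e => hu (e ▸ b_mem r)
    refine fin xT.1 xT.2 yT.1 gx gy gv ![(3, 6), (0, 1), (8, 7), (4, 5)]
      (by decide) (by decide) fun i => ?_
    fin_cases i
    · exact Or.inr (Or.inr ⟨nbq y q hqF, ny, p, hb y gy yT.2, hnq⟩)
    · exact okOwn hF x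
    · exact hA y gy
    · exact okOwn hF v

variable {ty : ℕ}

theorem step' (hF : DisF F) {Wt : Finset (J × V × V)} {Z Z' : Finset V} {k : ℕ}
    (h : Abs P c ty F ∅ Z k) (hk : k ≤ 3 * c + 3)
    (h' : ∀ U : Finset (Fin (NU c)), U.card ≤ 3 * c + 3 → P.Absorb c ty F U Wt Z' Z'.card)
    (d1 : Disjoint Z (fitF F)) (d2 : Disjoint Z' (fitF F))
    (d3 : ∀ R : Finset (Fin (NU c)), (∀ r ∈ R, c ≤ r.val) → Disjoint (it2 Wt) (itR F R))
    (d4 : Disjoint Z Z') (d5 : Disjoint Z (it2 Wt)) :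
    Abs P c ty F Wt (Z ∪ Z') (k + 3) := by
  obtain ⟨R, Gd, a1, a2, a3, a4, a5⟩ := h
  obtain ⟨R', f', Gd', b0, b1, b2, b3, b4, b5⟩ := h' R (a1.trans hk)
  have b6 : Ex (P.Serv2 (P.pl univ univ)) ((R'.image fun r => (F r).1) ∪ ag2 Wt)
      ((itR F R' ∪ Z' ∪ it2 Wt) \ Gd') := ex_of_st b5
  have dR : Disjoint (itR F R) (itR F R') := itR_dis hF b0.symm
  have g1 : Gd ⊆ itR F R := fun x hx => good_sub (a4 x hx)
  have g2 : Gd' ⊆ itR F R' := fun x hx => good_sub (b4 x hx)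
  have s1 := itR_sub (F := F) R
  have s2 := itR_sub (F := F) R'
  have e0 : it2 (∅ : Finset (J × V × V)) = ∅ := by simp [it2]
  have dd : Disjoint (itR F R ∪ Z) (itR F R' ∪ Z' ∪ it2 Wt) := by
    simp only [disjoint_union_left, disjoint_union_right]
    exact ⟨⟨⟨dR, d1.mono_right s2⟩, (d2.mono_right s1).symm, d4⟩, (d3 R a2).symm, d5⟩
  refine ⟨R ∪ R', Gd ∪ Gd', (card_union_le _ _).trans (by omega), fun r hr => ?_, ?_,
    fun x hx => ?_, ?_⟩
  · rcases mem_union.1 hr with hr | hr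
    · exact a2 r hr
    · exact b2 r hr
  · rw [card_union_of_disjoint (dR.mono g1 g2), card_union_of_disjoint d4, a3, b3]
  · rcases mem_union.1 hx with hx | hx
    · obtain ⟨r, hr, h⟩ := a4 x hx
      exact ⟨r, mem_union_left _ hr, h⟩
    · obtain ⟨r, hr, h⟩ := b4 x hx
      exact ⟨r, mem_union_right _ hr, h⟩
  · rw [e0, union_empty] at a5
    refine (a5.glue b6 (dd.mono sdiff_subset sdiff_subset)).mono ?_ ?_
    · intro j hj
      simp only [image_union, mem_union] at hj ⊢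
      tauto
    · have u : itR F (R ∪ R') = itR F R ∪ itR F R' := by
        unfold itR; rw [union_biUnion]
      intro x hx
      have q1 : x ∈ itR F R ∪ Z → x ∉ Gd' := fun h1 h2 =>
        disjoint_left.1 dd h1 (mem_union_left _ (mem_union_left _ (g2 h2)))
      have q2 : x ∈ itR F R' ∪ Z' ∪ it2 Wt → x ∉ Gd := fun h1 h2 =>
        disjoint_left.1 dd (mem_union_left _ (g1 h2)) h1
      simp only [u, mem_union, mem_sdiff] at hx q1 q2 ⊢
      tauto

theorem keep' {s : J × V × V} {o : Bool} (h1 : P.col s.1 o s.2.1) (h2 : P.col s.1 (!o) s.2.2)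
    (h3 : ¬ P.HH s.2.1 s.2.2) (U : Finset (Fin (NU c))) :
    P.Absorb c ty F U {s} ∅ (∅ : Finset V).card := by
  have h4 := Ex.single (sv := P.Serv2 (P.pl univ univ)) (serv_pr (Geo.Pr_of_col h1 h2 h3))
  obtain ⟨f, hf⟩ := st_of_ex (P := P) h4
  refine ⟨∅, f, ∅, by simp, by simp, by simp, by simp, by simp, ?_⟩
  simpa [ag2, it2] using hf

theorem abs_witX (hU : UnitStmt) (hF : P.PFam 3 F) {s : J × V × V} {Z : Finset V} {p : Bool}
    {r0 : Fin (NU c)} (h1 : P.col s.1 p s.2.1) (h2 : P.col s.1 (!p) s.2.2)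
    (hqz : ¬ P.HH s.2.1 s.2.2) (hq' : P.hard c F s.2.1) (hg : s.1 ∉ fagF F)
    (hq'F : s.2.1 ∉ fitF F) (h0 : r0.val < c) (hz0 : (F r0).2.2.1 = s.2.2)
    (d1 : Disjoint Z (fitF F)) (nZ : s.2.1 ∉ Z)
    (hz : ∀ z ∈ Z, ¬ P.waste F z ∧ ¬ P.star c F z) (hc : Z.card ≤ c + 1) :
    ∃ k, Abs P c 3 F {s} Z k := by
  have i2 : it2 {s} = {s.2.1, s.2.2} := by simp [it2]
  have d2 : Disjoint Z (it2 {s}) := by
    rw [i2, disjoint_insert_right, disjoint_singleton_right]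
    exact ⟨nZ, fun h => disjoint_left.1 d1 h (hz0 ▸ a_mem r0)⟩
  have d3 : ∀ R : Finset (Fin (NU c)), (∀ r ∈ R, c ≤ r.val) → Disjoint (it2 {s}) (itR F R) := by
    intro R hR
    rw [i2, disjoint_insert_left, disjoint_singleton_left]
    refine ⟨fun h => hq'F (itR_sub R h), fun h => ?_⟩
    obtain ⟨r, hr, h⟩ := mem_itR.1 h
    have e : r = r0 := same hF.dis h (Or.inl hz0.symm)
    have := hR r hr
    subst e
    omega
  by_cases hp' : Even (Z.filter fun z => P.hard c F z).card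
  · have h1 := step' hF.dis (abs_all hU hF _ Z rfl d1 hz hc (Or.inr hp')) (by omega)
      (fun U _ => keep' h1 h2 hqz U) d1 (disjoint_empty_left _) d3 (disjoint_empty_right _) d2
    rw [union_empty] at h1
    exact ⟨_, h1⟩
  rw [Nat.not_even_iff_odd] at hp'
  obtain ⟨k, hk⟩ := hp'
  obtain ⟨q, hq⟩ := card_pos.1 (show 0 < (Z.filter fun z => P.hard c F z).card by omega)
  have hq2 := mem_filter.1 hq
  have hs' : ({q} : Finset V) ⊆ Z := by simpa using hq2.1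
  have c1 := card_sdiff_add_card_eq_card hs'
  rw [card_singleton] at c1
  have ev : Even ((Z \ {q}).filter fun z => P.hard c F z).card := by
    have : ((Z \ {q}).filter fun z => P.hard c F z) = (Z.filter fun z => P.hard c F z).erase q := by
      ext x
      simp only [mem_filter, mem_sdiff, mem_singleton, mem_erase]
      tauto
    rw [this, card_erase_of_mem hq]
    exact ⟨k, by omega⟩
  have nq : q ≠ s.2.1 := fun e => nZ (e ▸ hq2.1)
  have h3 := step' hF.dis (abs_all hU hF _ (Z \ {q}) rfl (d1.mono_left sdiff_subset)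
    (fun z h => hz z (sdiff_subset h)) (by omega) (Or.inr ev)) (by omega)
      (Z' := {q}) (Wt := {s}) (fun U hU' => by
        simpa using witX hU hF hU' h1 h2 hqz hq' hg hq'F h0 hz0 (disjoint_left.1 d1 hq2.1) nq
          hq2.2)
      (d1.mono_left sdiff_subset) (d1.mono_left hs') d3 sdiff_disjoint
      (d2.mono_left sdiff_subset)
  rw [sdiff_union_of_subset hs'] at h3
  exact ⟨_, h3⟩

theorem finish' (hF : P.PFam ty F) {Wt : Finset (J × V × V)} {Z X : Finset V} {k : ℕ}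
    (h : Abs P c ty F Wt Z k) (d1 : Disjoint Z (fitF F))
    (d2 : ∀ x ∈ it2 Wt, x ∈ fitF F → x ∈ X)
    (hX : X ⊆ Geo.expo c F) (hc : X.card ≤ Z.card) :
    Ex (P.Serv2 (P.pl univ univ)) (fagF F ∪ ag2 Wt) ((fitF F \ X) ∪ Z ∪ it2 Wt) := by
  obtain ⟨R, Gd, -, a2, a3, a4, a5⟩ := h
  obtain ⟨φ, hφ, hi⟩ : ∃ φ : V → V, (∀ x ∈ X, φ x ∈ Gd) ∧ Set.InjOn φ X := by
    have hc' : Fintype.card X ≤ Fintype.card Gd := by
      simp only [Fintype.card_coe]; omega
    obtain ⟨ψ⟩ := Function.Embedding.nonempty_of_card_le hc'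
    refine ⟨fun x => if h : x ∈ X then (ψ ⟨x, h⟩ : V) else x, fun x hx => ?_,
      fun x hx y hy e => ?_⟩
    · simp only [hx, dif_pos]; exact (ψ ⟨x, hx⟩).2
    · have hx' : x ∈ X := hx
      have hy' : y ∈ X := hy
      simp only [hx', hy', dif_pos] at e
      exact congrArg Subtype.val (ψ.injective (Subtype.ext e))
  have g1 : Gd ⊆ itR F R := fun x hx => good_sub (a4 x hx)
  have low : ∀ r, (F r).2.2.1 ∈ X → r.val < c := fun r hr => by
    obtain ⟨r', h1, h2⟩ := mem_expo.1 (hX hr)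
    exact aa hF.dis h2 ▸ h1
  have bX : ∀ r, (F r).2.2.2 ∉ X := fun r hr => by
    obtain ⟨r', -, h2⟩ := mem_expo.1 (hX hr)
    exact ab hF.dis _ _ h2
  have RX : ∀ x ∈ itR F R, x ∉ X := fun x hx hx' => by
    obtain ⟨r, hr, h | h⟩ := mem_itR.1 hx
    · have := low r (h ▸ hx')
      have := a2 r hr
      omega
    · exact bX r (h ▸ hx')
  have out : ∀ r, r ∉ R → ∀ x, (x = (F r).2.2.1 ∨ x = (F r).2.2.2) → x ∉ itR F R :=
    fun r hr x hx hx' => by
      obtain ⟨r', hr', h⟩ := mem_itR.1 hx'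
      exact hr (same hF.dis h hx ▸ hr')
  let u : Fin (NU c) → V := fun r => if (F r).2.2.1 ∈ X then φ (F r).2.2.1 else (F r).2.2.1
  have u1 : ∀ r, ((F r).2.2.1 ∈ X ∧ u r = φ (F r).2.2.1 ∧ u r ∈ Gd) ∨
      ((F r).2.2.1 ∉ X ∧ u r = (F r).2.2.1) := fun r => by
    by_cases h : (F r).2.2.1 ∈ X
    · have : u r = φ (F r).2.2.1 := if_pos h
      exact Or.inl ⟨h, this, this ▸ hφ _ h⟩
    · exact Or.inr ⟨h, if_neg h⟩
  have bfit : ∀ r, (F r).2.2.2 ∈ fitF F := fun r => mem_fitF.2 ⟨r, Or.inr rfl⟩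
  have afit : ∀ r, (F r).2.2.1 ∈ fitF F := fun r => mem_fitF.2 ⟨r, Or.inl rfl⟩
  have ufit : ∀ r, u r ∈ fitF F := fun r => by
    rcases u1 r with h | h
    · exact itR_sub R (g1 h.2.2)
    · exact h.2 ▸ afit r
  have uA : ∀ r, P.cA (F r) (u r) := fun r => by
    rcases u1 r with h | h
    · obtain ⟨r', hr', h'⟩ := a4 _ h.2.2
      have lt : r < r' := by
        have := low r h.1
        have := a2 r' hr'
        exact Fin.lt_def.2 (by omega)
      rcases h' with h' | h'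
      · exact h' ▸ hF.upa r r' lt
      · exact h'.2 ▸ hF.upb h'.1 r r' lt
    · exact h.2 ▸ (hF.own r).1
  have ub : ∀ r, ∀ r', r' ∉ R → u r ≠ (F r').2.2.2 := fun r r' hr' e => by
    rcases u1 r with h | h
    · exact out r' hr' _ (Or.inr e) (g1 h.2.2)
    · exact ab hF.dis _ _ (h.2.symm.trans e)
  have uu : ∀ r, r ∉ R → ∀ r', r' ∉ R → u r = u r' → r = r' := fun r hr r' hr' e => by
    rcases u1 r with h | h <;> rcases u1 r' with h' | h'
    · exact aa hF.dis (hi h.1 h'.1 (h.2.1.symm.trans (e.trans h'.2.1)))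
    · exact absurd (g1 h.2.2) (out r' hr' _ (Or.inl (e.trans h'.2)))
    · exact absurd (g1 h'.2.2) (out r hr _ (Or.inl (e.symm.trans h.2)))
    · exact aa hF.dis (h.2.symm.trans (e.trans h'.2))
  have b5 := Ex.family (sv := P.Serv2 (P.pl univ univ)) (univ \ R) (fun r => (F r).1)
    (fun r => {u r, (F r).2.2.2})
    (fun r _ => serv_pr (Geo.Pr_of_col (uA r) (hF.own r).2 (hF.ind _ (ufit r) _ (bfit r))))
    (fun r hr r' hr' hne => by
      have n1 := (mem_sdiff.1 hr).2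
      have n2 := (mem_sdiff.1 hr').2
      simp only [disjoint_insert_left, disjoint_singleton_left, mem_insert, mem_singleton, not_or]
      exact ⟨⟨fun e => hne (uu r n1 r' n2 e), ub r r' n2⟩, fun e => ub r' r n1 e.symm,
        fun e => hne (bb hF.dis e)⟩)
  have w2 : ∀ x ∈ (univ \ R).biUnion fun r => ({u r, (F r).2.2.2} : Finset V),
      x ∈ Gd ∨ (x ∈ fitF F ∧ x ∉ X ∧ x ∉ itR F R) := fun x hx => by
    obtain ⟨r, hr, hx⟩ := mem_biUnion.1 hx
    have n1 := (mem_sdiff.1 hr).2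
    rcases mem_insert.1 hx with hx | hx
    · rcases u1 r with h | h
      · exact Or.inl (hx ▸ h.2.2)
      · have e := hx.trans h.2
        exact Or.inr ⟨e ▸ afit r, e ▸ h.1, out r n1 x (Or.inl e)⟩
    · have e := mem_singleton.1 hx
      exact Or.inr ⟨e ▸ bfit r, e ▸ bX r, out r n1 x (Or.inr e)⟩
  refine (a5.glue b5 ?_).mono ?_ ?_
  · rw [disjoint_left]
    intro x hx hx'
    have q1 : x ∈ Z → x ∉ fitF F := fun h => disjoint_left.1 d1 h
    have q2 := d2 x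
    have q3 := w2 x hx'
    simp only [mem_union, mem_sdiff] at hx
    grind
  · intro j hj
    rcases mem_union.1 hj with hj | hj
    · obtain ⟨r, rfl⟩ := mem_fagF.1 hj
      by_cases hr : r ∈ R
      · exact mem_union_left _ (mem_union_left _ (mem_image_of_mem _ hr))
      · exact mem_union_right _ (mem_image_of_mem (fun r => (F r).1) (by simpa using hr))
    · exact mem_union_left _ (mem_union_right _ hj)
  · intro x hx
    have q1 : x ∈ itR F R → x ∈ fitF F ∧ x ∉ X := fun h => ⟨itR_sub R h, RX x h⟩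
    have q2 : x ∈ Gd → x ∈ itR F R := fun h => g1 h
    have q3 := w2 x
    rcases mem_union.1 hx with hx | hx
    · simp only [mem_union, mem_sdiff] at hx ⊢
      grind
    · have q4 := q3 hx
      simp only [mem_union, mem_sdiff]
      grind

end EUAX

theorem uax (h1 : UnitStmt) : UAX := by
  intro J V _ _ _ _ P c F s Z X hF ⟨p, k1, k2⟩ hqz hq' hg hq'F hs d1 nZ hz hX c1 c2
  obtain ⟨r0, h0, hz0⟩ := DUA.mem_expo.1 (hX hs)
  obtain ⟨k, hk⟩ := EUAX.abs_witX h1 hF k1 k2 hqz hq' hg hq'F h0 hz0 d1 nZ hz c2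
  have i1 : ag2 {s} = {s.1} := by simp [ag2]
  have i2 : it2 {s} = {s.2.1, s.2.2} := by simp [it2]
  have h := EUAX.finish' hF hk d1 (X := X) (fun x hx hx' => by
    rw [i2, mem_insert, mem_singleton] at hx
    rcases hx with rfl | rfl
    · exact absurd hx' hq'F
    · exact hs) hX c1
  rw [i1, i2] at h
  exact DUA.st_of_ex h

end Pool.Agent.Lib.MP_ef7581_lc.D3
end

-- part Pool.Agent.Lib.MP_ef7581_lc.EOpt
section

/-!
Rectangle lemmas for an optimal auxiliary matching, agents with several terminals.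
-/

set_option autoImplicit false
set_option linter.unusedSectionVars false

namespace Pool.Agent.Lib.MP_ef7581_lc.D3

open Finset Classical D2 D2.DOpt

namespace EOpt

theorem sw_fix {α : Type} [Fintype α] [DecidableEq α] {ν : α → α} {a c : α}
    (hν : ∀ x, ν (ν x) = x) (ha : ν a ≠ a) (hc : ν c = c) (z : α) :
    sw a c ν z = z ↔ z = ν a ∨ (ν z = z ∧ z ≠ c) := by
  have hac : a ≠ c := fun h => ha (h ▸ hc)
  by_cases h2 : z = ν a
  · exact ⟨fun _ => Or.inl h2, fun _ => h2 ▸ sw_b hν ha hc⟩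
  by_cases h1 : z = a
  · rw [h1, sw_a]
    exact ⟨fun h => absurd h.symm hac, fun h => h.elim (fun h => absurd h.symm ha)
      fun h => absurd h.1 ha⟩
  by_cases h3 : z = c
  · rw [h3, sw_c]
    exact ⟨fun h => absurd h hac, fun h => h.elim (fun h => absurd (h3.trans h) h2)
      fun h => absurd rfl h.2⟩
  · rw [sw_ne h1 h2 h3]
    exact ⟨fun h => Or.inr ⟨h, h3⟩, fun h => h.elim (fun h => absurd h h2) fun h => h.1⟩

variable {J V K : Type} [Fintype J] [Fintype V] [Fintype K] [DecidableEq J] [DecidableEq V]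
  [DecidableEq K] {P : G3 J V K} {S : Sub J V} {e : ℕ} {ρ : Finset V} {μ ν : Nd J V → Nd J V}
  {X : Ax J V} {Y : Px V} {w : ℕ}

theorem unf_sw_same {W : Finset V} {nf : V → Prop} {a c : Nd J V} (hν : ∀ x, ν (ν x) = x)
    (ha : ν a ≠ a) (hc : ν c = c) (h1 : ∀ v, c = vx v → ¬ nf v)
    (h2 : ∀ v, ν a = vx v → ¬ nf v) : unf W nf (sw a c ν) = unf W nf ν := by
  unfold unf
  refine congrArg card (filter_congr fun v _ => ?_)
  rw [sw_fix hν ha hc]
  constructor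
  · rintro ⟨n, h | h⟩
    · exact absurd n (h2 v h.symm)
    · exact ⟨n, h.1⟩
  · exact fun h => ⟨h.1, Or.inr ⟨h.2, fun g => h1 v g.symm h.1⟩⟩

theorem unf_sw_succ {W : Finset V} {nf : V → Prop} {a c : Nd J V} {x : V}
    (hν : ∀ x, ν (ν x) = x) (ha : ν a ≠ a) (hc : ν c = c) (h1 : ∀ v, c = vx v → ¬ nf v)
    (h2 : ν a = vx x) (hW : x ∈ W) (hx : nf x) : unf W nf (sw a c ν) = unf W nf ν + 1 := by
  unfold unf
  have hn : x ∉ W.filter fun v => nf v ∧ ν (vx v) = vx v := fun h => by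
    have h3 := (mem_filter.1 h).2.2
    rw [← h2, hν] at h3
    exact ha h3.symm
  rw [← card_insert_of_notMem hn]
  refine congrArg card (Finset.ext fun v => ?_)
  rw [mem_insert, mem_filter, mem_filter, sw_fix hν ha hc, h2]
  constructor
  · rintro ⟨a1, n, h | h⟩
    · exact Or.inl (by simpa using h)
    · exact Or.inr ⟨a1, n, h.1⟩
  · rintro (h | h)
    · exact ⟨h ▸ hW, h ▸ hx, Or.inl (by rw [h])⟩
    · exact ⟨h.1, h.2.1, Or.inr ⟨h.2.2, fun g => h1 v g.symm h.2.1⟩⟩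

/-- The class without the parity condition. -/
def Pre (P : G3 J V K) (S : Sub J V) (e : ℕ) (ρ : Finset V) (X : Ax J V) (Y : Px V)
    (μ : Nd J V → Nd J V) (w : ℕ) (ν : Nd J V → Nd J V) : Prop :=
  IsM (fun x y => P.En S e ρ X Y x y ∨ μ x = y) ν ∧ cov ν = 2 * S.A.card ∧ w ≤ cw S ν ∧
    P.Cov S e ρ X ν

theorem pre_of (h : P.Cls S e ρ X Y μ w ν) : Pre P S e ρ X Y μ w ν :=
  ⟨h.1, h.2.1, h.2.2.1, h.2.2.2.1⟩

theorem Pre.swing (h : Pre P S e ρ X Y μ w ν) {a c : Nd J V} (ha : ν a ≠ a) (hc : ν c = c)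
    (he : P.En S e ρ X Y a c)
    (hl : ∀ i v, ν (ag i) = vx v → S.lst i v → ag i ≠ a ∧ ag i ≠ ν a)
    (h1 : ∀ j, ν a = ag j → P.rigid S e ρ j ∧ ¬ X.mc j) : Pre P S e ρ X Y μ w (sw a c ν) := by
  obtain ⟨hm, hcov, hw, hv⟩ := h
  have hν := hm.1
  refine ⟨sw_isM hm hc (Or.inl he) (Or.inl (G3.En_symm he)), by rw [sw_cov hν ha hc, hcov],
    hw.trans (cw_le fun i v i1 i2 => ?_), fun j hj hr h => ?_⟩
  · refine sw_ne (hl i v i1 i2).1 (hl i v i1 i2).2 fun h => ?_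
    rw [← h, i1] at hc
    exact absurd hc (by simp)
  · rcases (sw_fix hν ha hc _).1 h with h | h
    · have := h1 j h.symm
      tauto
    · exact hv j hj hr h.1

/-- An optimal matching cannot be improved in the number of ends. -/
theorem no_more (hb : P.Best S e ρ X Y μ w ν) {ν' : Nd J V → Nd J V}
    (h : Pre P S e ρ X Y μ w ν') (hp : unf S.W Y.nf ν' % 2 = unf S.W Y.nf ν % 2)
    (k1 : newc μ ν' ≤ newc μ ν) (k2 : (ends μ ν).card < (ends μ ν').card) : False := by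
  have := hb.2 ν' ⟨h.1, h.2.1, h.2.2.1, h.2.2.2, hp.trans hb.1.2.2.2.2⟩
  omega

/-- An optimal matching admits no crossing inside a component and colour class. -/
theorem no_cross (hC : CompStmt) (hμ : ∀ x, μ (μ x) = x) (hb : P.Best S e ρ X Y μ w ν) :
    ∃ χ : Nd J V → Bool, ∀ x x', x ≠ x' → χ x = χ x' → cmp μ ν x = cmp μ ν x' → ν x ≠ x →
      ν x' ≠ x' → μ x ≠ ν x → μ x' ≠ ν x' → P.En S e ρ X Y x (ν x') → P.En S e ρ X Y x' (ν x) →
      (∀ i v, ν (ag i) = vx v → S.lst i v → ag i ≠ x ∧ ag i ≠ x' ∧ ag i ≠ ν x ∧ ag i ≠ ν x') →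
      False := by
  obtain ⟨⟨hm, hcov, hw, hv, hp⟩, hopt⟩ := hb
  obtain ⟨-, -, -, -, -, -, -, ⟨χ, hχ⟩, hx, -⟩ := hC (Nd J V) μ ν hμ hm.1
  refine ⟨χ, fun x x' hne hc hcm a1 a2 n1 n2 e1 e2 hl => ?_⟩
  obtain ⟨b1, b2⟩ := hχ x x' hne hc hcm a1 a2
  obtain ⟨-, c2, -, -, -, -, c7, c8, c9, c10, c11⟩ := hx x x' hne a1 a2 b1
  have hcls : P.Cls S e ρ X Y μ w (cross x x' ν) := by
    refine ⟨c11 _ hm (Or.inl e1) (Or.inl (G3.En_symm e1)) (Or.inl e2) (Or.inl (G3.En_symm e2)),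
      by rw [c8, hcov], hw.trans (cw_le fun i v i1 i2 => ?_), fun j hj hr => ?_, ?_⟩
    · obtain ⟨d1, d2, d3, d4⟩ := hl i v i1 i2
      exact c7 _ d1 d2 d3 d4
    · exact fun h => hv j hj hr ((c2 _).1 h)
    · have : unf S.W Y.nf (cross x x' ν) = unf S.W Y.nf ν := by
        unfold unf
        exact congrArg card (filter_congr fun v _ => by rw [c2])
      rw [this, hp]
  have k1 := c10 n1 n2
  have := hopt _ hcls
  rw [c9] at this
  omega

/-- The data of a request. -/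
structure Rq (P : G3 J V K) (S : Sub J V) (e : ℕ) (ρ : Finset V) (X : Ax J V) (Y : Px V)
    (μ ν : Nd J V → Nd J V) (j : J) (x : V) : Prop where
  k : ν (ag j) = vx x
  nl : ¬ S.lst j x
  nw : μ (ag j) ≠ vx x
  A : j ∈ S.A
  W : x ∈ S.W
  kd : P.mkE S e ρ j x ∨ (X.nc ∧ P.ncE S e ρ Y j x)

/-- The data of a request of an agent with two terminals. -/
structure Rs (P : G3 J V K) (S : Sub J V) (e : ℕ) (ρ : Finset V) (X : Ax J V) (Y : Px V)
    (j : J) (x : V) (o : Bool) : Prop where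
  nc : X.nc
  geo : S.geo j
  st : ¬ P.mu j
  rig : P.rig e ρ j o
  col : P.col j (!o) x
  li : ¬ P.heavy e ρ x
  pa : Y.pn ∨ ¬ Y.nf x

theorem rq_of (hb : P.Best S e ρ X Y μ w ν) {j : J} (hj : j ∈ Req S μ ν) :
    ∃ x, Rq P S e ρ X Y μ ν j x := by
  obtain ⟨-, x, h1, h2, h3⟩ := mem_filter.1 hj
  have h4 := hb.1.1.2 (ag j) (by rw [h1]; simp)
  rw [h1] at h4
  rcases h4 with ⟨a1, a2, a3⟩ | h4
  · exact ⟨x, h1, h2, h3, a1, a2, a3.resolve_left h2⟩
  · exact absurd h4 h3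

theorem Rq.rs {j : J} {x : V} (h : Rq P S e ρ X Y μ ν j x) (hn : ¬ P.mkE S e ρ j x) :
    ∃ o, Rs P S e ρ X Y j x o := by
  obtain ⟨a3, a4, a5, ⟨o, a6, a7⟩, a8, a9⟩ := h.kd.resolve_left hn
  exact ⟨o, a3, a4, a5, a6, a7, a8, a9⟩

theorem Rq.k' {j : J} {x : V} (h : Rq P S e ρ X Y μ ν j x) (hν : ∀ x, ν (ν x) = x) :
    ν (vx x) = ag j := by rw [← h.k, hν]

theorem lne {j : J} {x : V} (k : ν (ag j) = vx x) (nl : ¬ S.lst j x) {i : J} {v : V}
    (h1 : ν (ag i) = vx v) (h2 : S.lst i v) : (ag i : Nd J V) ≠ ag j := fun he => by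
  have hij : i = j := Sum.inl_injective he
  subst hij
  have : v = x := by simpa using h1.symm.trans k
  exact nl (this ▸ h2)

/-- A free item. -/
structure Fr (S : Sub J V) (Y : Px V) (μ ν : Nd J V → Nd J V) (y : V) : Prop where
  W : y ∈ S.W
  a : ν (vx y) = vx y
  b : μ (vx y) = vx y
  nn : ¬ Y.nf y

/-- The agent `j` changes its key from `x` to `y`. -/
theorem ag_swing (hμ : ∀ x, μ (μ x) = x) (h : Pre P S e ρ X Y μ w ν) {j : J} {x y : V}
    (k : ν (ag j) = vx x) (nl : ¬ S.lst j x) (nw : μ (ag j) ≠ vx x) (hx : μ (vx x) ≠ vx x)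
    (a : ν (vx y) = vx y) (b : μ (vx y) = vx y) (he : P.En S e ρ X Y (ag j) (vx y)) :
    Pre P S e ρ X Y μ w (sw (ag j) (vx y) ν) ∧ newc μ (sw (ag j) (vx y) ν) ≤ newc μ ν ∧
      (ends μ ν).card < (ends μ (sw (ag j) (vx y) ν)).card := by
  have ha : ν (ag j) ≠ ag j := by rw [k]; simp
  refine ⟨h.swing ha a he (fun i v i1 i2 => ⟨lne k nl i1 i2, by rw [k]; simp⟩) fun i hi => ?_,
    sw_newc hμ h.1.1 ha a (by rw [k]; exact nw), sw_ends h.1.1 ha a b (by rw [k]; exact hx)⟩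
  rw [k] at hi
  exact absurd hi (by simp)

theorem one_swing (hμ : ∀ x, μ (μ x) = x) (hb : P.Best S e ρ X Y μ w ν) {j : J} {x y : V}
    (h : Rq P S e ρ X Y μ ν j x) (hx : μ (vx x) ≠ vx x) (hy : Fr S Y μ ν y)
    (he : P.En S e ρ X Y (ag j) (vx y)) : Y.nf x := by
  by_contra hn
  obtain ⟨a1, a2, a3⟩ := ag_swing hμ (pre_of hb.1) h.k h.nl h.nw hx hy.a hy.b he
  refine no_more hb a1 ?_ a2 a3
  rw [unf_sw_same hb.1.1.1 (by rw [h.k]; simp) hy.a (fun v hv => ?_) fun v hv => ?_]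
  · have : y = v := by simpa using hv
    exact this ▸ hy.nn
  · rw [h.k] at hv
    have : x = v := by simpa using hv
    exact this ▸ hn

theorem two_swing (hμ : ∀ x, μ (μ x) = x) (hb : P.Best S e ρ X Y μ w ν) {j j' : J}
    {x y x' y' : V} (h : Rq P S e ρ X Y μ ν j x) (hx : μ (vx x) ≠ vx x) (hy : Fr S Y μ ν y)
    (he : P.En S e ρ X Y (ag j) (vx y)) (h' : Rq P S e ρ X Y μ ν j' x')
    (hx' : μ (vx x') ≠ vx x') (hy' : Fr S Y μ ν y') (he' : P.En S e ρ X Y (ag j') (vx y'))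
    (hj : j' ≠ j) (hyy : y' ≠ y) : False := by
  have n := one_swing hμ hb h hx hy he
  have n' := one_swing hμ hb h' hx' hy' he'
  obtain ⟨a1, a2, a3⟩ := ag_swing hμ (pre_of hb.1) h.k h.nl h.nw hx hy.a hy.b he
  have k' : sw (ag j) (vx y) ν (ag j') = vx x' := by
    rw [sw_ne (by simpa using hj) (by rw [h.k]; simp) (by simp), h'.k]
  have f' : sw (ag j) (vx y) ν (vx y') = vx y' := by
    rw [sw_ne (by simp) ?_ (by simpa using hyy), hy'.a]
    rw [h.k]
    intro g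
    have : y' = x := by simpa using g
    exact hy'.nn (this ▸ n)
  obtain ⟨b1, b2, b3⟩ := ag_swing hμ a1 k' h'.nl h'.nw hx' f' hy'.b he'
  refine no_more hb b1 ?_ (b2.trans a2) (a3.trans b3)
  rw [unf_sw_succ a1.1.1 (by rw [k']; simp) f' (fun v hv => ?_) k' h'.W n',
    unf_sw_succ hb.1.1.1 (by rw [h.k]; simp) hy.a (fun v hv => ?_) h.k h.W n]
  · omega
  · have : y = v := by simpa using hv
    exact this ▸ hy.nn
  · have : y' = v := by simpa using hv
    exact this ▸ hy'.nn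

theorem pe_swing (hμ : ∀ x, μ (μ x) = x) (hb : P.Best S e ρ X Y μ w ν) {j : J} {x y : V}
    {o : Bool} (h : Rq P S e ρ X Y μ ν j x) (hs : Rs P S e ρ X Y j x o)
    (hj : μ (ag j) ≠ ag j) (hz : ¬ X.zs x) (hm : ¬ X.mc j)
    (hp : X.pe) (hy : Fr S Y μ ν y) (hq : P.Q0 e ρ y) (hn : ¬ P.HH y x) : False := by
  have hν := hb.1.1.1
  have k := h.k' hν
  have ha : ν (vx x) ≠ vx x := by rw [k]; simp
  have he : P.En S e ρ X Y (vx x) (vx y) :=
    ⟨h.W, hy.W, hp, Or.inr ⟨⟨hq, hs.li, hn, hs.pa.imp id fun g => ⟨hy.nn, g⟩⟩, hz⟩⟩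
  refine no_more hb ((pre_of hb.1).swing ha hy.a he
    (fun i v i1 i2 => ⟨by simp, by rw [k]; exact lne h.k h.nl i1 i2⟩) fun i hi => ?_) ?_
    (sw_newc hμ hν ha hy.a (by rw [k]; exact fun he => h.nw (by rw [← he, hμ])))
    (sw_ends hν ha hy.a hy.b (by rw [k]; exact hj))
  · rw [k] at hi
    have : j = i := by simpa using hi
    exact this ▸ ⟨⟨hs.geo, hs.st, o, hs.rig⟩, hm⟩
  · rw [unf_sw_same hν ha hy.a (fun v hv => ?_) fun v hv => ?_]
    · have : y = v := by simpa using hv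
      exact this ▸ hy.nn
    · rw [k] at hv
      exact absurd hv (by simp)

/-- A refused free item that is no target is junk for a multiple agent. -/
theorem refused_m {j : J} {x y : V} {k : K} (hν : ∀ x, ν (ν x) = x)
    (h : Rq P S e ρ X Y μ ν j x) (hg : S.geo j) (hk : P.rigm e ρ j k) (hx : ¬ P.adt j k x)
    (hy : Fr S Y μ ν y) (hr : ¬ P.Ok j x y) (ht : ¬ P.En S e ρ X Y (ag j) (vx y)) :
    P.junk j y := by
  have hxy : x ≠ y := fun g => by
    have h1 := h.k' hν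
    rw [g, hy.a] at h1
    exact absurd h1 (by simp)
  obtain ⟨k', a1, a2⟩ := G3.refuse hxy (Or.inl hk.1) hr
  by_cases a3 : P.adt j k y
  · exact G3.junk_of_two a2 a3 fun g => hx (g ▸ a1)
  · exact absurd ⟨h.A, hy.W, Or.inr (Or.inl ⟨hg, k, hk, a3⟩)⟩ ht

/-- A refused free item that is neither heavy nor junk is a majority item adjacent to the key. -/
theorem refused (hf : P.Frame e ρ) {j : J} {x y : V} {o : Bool} (h : Rq P S e ρ X Y μ ν j x)
    (hs : Rs P S e ρ X Y j x o) (hy : Fr S Y μ ν y) (hr : ¬ P.Ok j x y)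
    (ht : ¬ P.En S e ρ X Y (ag j) (vx y)) (hq : ¬ P.Q0 e ρ y) (hj : ¬ P.junk j y) :
    P.adj j o y ∧ P.HH x y := by
  rw [G3.Ok_iff hs.st] at hr
  rcases Geo.label (P := P.base) j o y with a | a | a | a
  · exact absurd (Or.inr (Or.inl a)) hr
  · refine ⟨a.1, by_contra fun hn => hr (Or.inr (Or.inr (Geo.Pr_symm ?_)))⟩
    exact Geo.Pr_of_col a hs.col fun hh => hn (Geo.HH_symm hh)
  · exact absurd ⟨h.A, hy.W, Or.inr (Or.inr ⟨hs.nc, hs.geo, hs.st, ⟨o, hs.rig, a⟩, fun hh =>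
      hq (Geo.Q0_of_heavy hf hs.rig.1 (by simpa using a.2) hh), Or.inr hy.nn⟩)⟩ ht
  · exact absurd a hj

theorem en_other (hw : P.Wf S) {j j' : J} {x x' y y' : V} {o o' : Bool}
    (h : Rq P S e ρ X Y μ ν j x) (hs : Rs P S e ρ X Y j x o) (h' : Rq P S e ρ X Y μ ν j' x')
    (hs' : Rs P S e ρ X Y j' x' o') (hy : y ≠ y')
    (a1 : P.adj j o y) (a2 : P.adj j o y') (b1 : P.HH x y) (b2 : P.HH x y') (c1 : P.HH x' y)
    (c2 : P.HH x' y') : P.En S e ρ X Y (ag j) (vx x') := by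
  have n1 : ¬ P.HH y y' := fun hh => hs.col.2 (by simpa using Geo.adj_of_edge hh a1 a2 b1 b2)
  have n2 := Geo.not_adj_of_two hy n1 a1 a2 c1 c2
  refine ⟨h.A, h'.W, ?_⟩
  by_cases n3 : P.adj j (!o) x'
  · exact Or.inr (Or.inr ⟨hs.nc, hs.geo, hs.st, ⟨o, hs.rig, n3, by simpa using n2⟩, hs'.li,
      hs'.pa⟩)
  · exact Or.inl ((hw.1 j hs.geo x').2 ((G3.C_iff hs.st).2 (Geo.C_of n2 n3)))

/-- The final part: many requests of agents with two terminals without targets. -/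
theorem strict_part (hC : CompStmt) {B : Finset J} {g : J → Sv V} {N q0 : ℕ}
    (hcx : P.Ctx S e ρ Y B g μ) (hb : P.Best S e ρ X Y μ w ν) (hK : (ncomp μ ν).card ≤ N)
    (hq : X.pe ∨ ¬ X.nc ∨ ((PoolS S B g μ ν).filter fun v =>
      μ (vx v) = vx v ∧ P.Q0 e ρ v ∧ ¬ Y.nf v).card ≤ q0)
    (R : Finset J) (T : Finset V) (kx : J → V) (ko : J → Bool)
    (hk : ∀ j ∈ R, Rq P S e ρ X Y μ ν j (kx j)) (hs : ∀ j ∈ R, Rs P S e ρ X Y j (kx j) (ko j))
    (hx : ∀ j ∈ R, μ (ag j) ≠ ag j ∧ ¬ X.zs (kx j) ∧ ¬ X.mc j)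
    (hT : T ⊆ PoolS S B g μ ν) (hfr : ∀ y ∈ T, Fr S Y μ ν y)
    (href : ∀ j ∈ R, ∀ y ∈ T, ¬ P.Ok j (kx j) y)
    (hnt : ∀ j ∈ R, ∀ y ∈ T, ¬ P.En S e ρ X Y (ag j) (vx y))
    (hR : 2 * N * 2 < R.card) (hTc : q0 + 8 ≤ T.card) : False := by
  have hμ := hcx.im.1
  have hf := hcx.fr
  obtain ⟨χ, hχ⟩ := no_cross hC hμ hb
  obtain ⟨U, hU, hUc, hcl⟩ := pigeon χ hK R (fun j => (ag j : Nd J V))
    (fun j hj => by
      have := hk j hj
      rw [this.k]
      exact this.nw) hR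
  obtain ⟨j1, m1, j2, m2, j3, m3, n12, n13, n23⟩ := two_lt_card.1 hUc
  -- heavy items
  set T' := T.filter fun y => ¬ P.Q0 e ρ y with hT'
  have f1 : (T.filter fun y => P.Q0 e ρ y).card ≤ q0 + 1 := by
    have r1 := hk j1 (hU m1)
    have t1 := hs j1 (hU m1)
    obtain ⟨s1, s3, s4⟩ := hx j1 (hU m1)
    rcases hq with hq | hq | hq
    · have : (T.filter fun y => P.Q0 e ρ y).card ≤ 1 := card_le_one.2 fun y hy y' hy' => by
        rw [mem_filter] at hy hy'
        by_contra hne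
        have ad : ∀ u ∈ T, P.Q0 e ρ u → P.adj j1 (!ko j1) u ∧ P.HH (kx j1) u := fun u hu hqu => by
          refine ⟨by_contra fun hn => href j1 (hU m1) u hu (Or.inr (Or.inl ((G3.C_iff t1.st).2
            (Geo.C_of (Geo.Q0_not_adj hf t1.rig.1 hqu) hn)))), by_contra fun hn => ?_⟩
          exact pe_swing hμ hb r1 t1 s1 s3 s4 hq (hfr u hu) hqu fun hh => hn (Geo.HH_symm hh)
        exact Geo.Q0_indep hf hy.2 hy'.2 (Geo.cluster t1.col.1 (ad y hy.1 hy.2).1
          (ad y' hy'.1 hy'.2).1 (ad y hy.1 hy.2).2 (ad y' hy'.1 hy'.2).2 hne)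
      omega
    · exact absurd t1.nc hq
    · refine le_trans (card_le_card fun y hy => ?_) (hq.trans (Nat.le_succ _))
      rw [mem_filter] at hy ⊢
      exact ⟨hT hy.1, (hfr y hy.1).b, hy.2, (hfr y hy.1).nn⟩
  have f2 : 7 ≤ T'.card := by
    have := card_filter_add_card_filter_not (s := T) (fun y => P.Q0 e ρ y)
    rw [← hT'] at this
    omega
  have g1 : ∀ i ∈ U, ∀ j ∈ U, i ≠ j →
      (T'.filter fun y => P.junk i y ↔ P.junk j y).card ≤ 2 := fun i hi j hj hij => by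
    have ri := hk i (hU hi)
    have rj := hk j (hU hj)
    have si := hs i (hU hi)
    have sj := hs j (hU hj)
    have c1 : (T'.filter fun y => P.junk i y ∧ P.junk j y).card ≤ 1 :=
      card_le_one.2 fun y hy y' hy' => by
        rw [mem_filter] at hy hy'
        exact Geo.rig_junk hf hij si.rig sj.rig hy.2.1 hy'.2.1 hy.2.2 hy'.2.2
    have c2 : (T'.filter fun y => ¬ P.junk i y ∧ ¬ P.junk j y).card ≤ 1 :=
      card_le_one.2 fun y hy y' hy' => by
        rw [mem_filter] at hy hy'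
        by_contra hne
        have ad : ∀ k ∈ U, ∀ u ∈ T', ¬ P.junk k u → P.adj k (ko k) u ∧ P.HH (kx k) u :=
          fun k hkT u hu hju => by
            rw [hT', mem_filter] at hu
            exact refused hf (hk k (hU hkT)) (hs k (hU hkT)) (hfr u hu.1)
              (href k (hU hkT) u hu.1) (hnt k (hU hkT) u hu.1) hu.2 hju
        have a1 := ad i hi y hy.1 hy.2.1
        have a2 := ad i hi y' hy'.1 hy'.2.1
        have a3 := ad j hj y hy.1 hy.2.2
        have a4 := ad j hj y' hy'.1 hy'.2.2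
        refine hχ (ag i) (ag j) (fun h => hij (Sum.inl_injective h)) (hcl i hi j hj).2
          (hcl i hi j hj).1 (by rw [ri.k]; simp) (by rw [rj.k]; simp) (by rw [ri.k]; exact ri.nw)
          (by rw [rj.k]; exact rj.nw) ?_ ?_ fun k v k1 k2 =>
            ⟨lne ri.k ri.nl k1 k2, lne rj.k rj.nl k1 k2, by rw [ri.k]; simp, by rw [rj.k]; simp⟩
        · rw [rj.k]
          exact en_other hcx.wf ri si rj sj hne a1.1 a2.1 a1.2 a2.2 a3.2 a4.2
        · rw [ri.k]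
          exact en_other hcx.wf rj sj ri si hne a3.1 a4.1 a3.2 a4.2 a1.2 a2.2
    have c3 : (T'.filter fun y => P.junk i y ↔ P.junk j y) ⊆
        (T'.filter fun y => P.junk i y ∧ P.junk j y) ∪
          T'.filter fun y => ¬ P.junk i y ∧ ¬ P.junk j y := fun y hy => by
      simp only [mem_union, mem_filter] at hy ⊢
      tauto
    have c4 := card_le_card c3
    have c5 := card_union_le (T'.filter fun y => P.junk i y ∧ P.junk j y)
      (T'.filter fun y => ¬ P.junk i y ∧ ¬ P.junk j y)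
    omega
  have g2 : T' ⊆ (T'.filter fun y => P.junk j1 y ↔ P.junk j2 y) ∪
      ((T'.filter fun y => P.junk j1 y ↔ P.junk j3 y) ∪
        T'.filter fun y => P.junk j2 y ↔ P.junk j3 y) := fun y hy => by
    simp only [mem_union, mem_filter, hy, true_and]
    tauto
  have g3 := card_le_card g2
  have g4 := card_union_le (T'.filter fun y => P.junk j1 y ↔ P.junk j2 y)
    ((T'.filter fun y => P.junk j1 y ↔ P.junk j3 y) ∪
      T'.filter fun y => P.junk j2 y ↔ P.junk j3 y)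
  have g5 := card_union_le (T'.filter fun y => P.junk j1 y ↔ P.junk j3 y)
    (T'.filter fun y => P.junk j2 y ↔ P.junk j3 y)
  have g6 := g1 j1 m1 j2 m2 n12
  have g7 := g1 j1 m1 j3 m3 n13
  have g8 := g1 j2 m2 j3 m3 n23
  omega

theorem rectA (hC : CompStmt) {B : Finset J} {g : J → Sv V} {N q0 : ℕ}
    (hcx : P.Ctx S e ρ Y B g μ) (hb : P.Best S e ρ X Y μ w ν) (hK : (ncomp μ ν).card ≤ N)
    (hz : ∀ z z', X.zs z → X.zs z' → z = z')
    (hm : ∀ j j', P.rigid S e ρ j → P.rigid S e ρ j' → X.mc j → X.mc j' → j = j')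
    (hq : X.pe ∨ ¬ X.nc ∨ ((PoolS S B g μ ν).filter fun v =>
      μ (vx v) = vx v ∧ P.Q0 e ρ v ∧ ¬ Y.nf v).card ≤ q0) :
    P.RectA S Y B g μ ν (6 * N + 5) (q0 + 11) := by
  intro R hR T hT hTμ href
  by_contra hcon
  push Not at hcon
  obtain ⟨hRc, hTc⟩ := hcon
  have hμ := hcx.im.1
  have hν := hb.1.1.1
  have hf := hcx.fr
  have hfr : ∀ y ∈ T, Fr S Y μ ν y := fun y hy => by
    obtain ⟨a1, a2, -⟩ := mem_filter.1 (hT hy)
    exact ⟨a1, a2, (hTμ y hy).1, (hTμ y hy).2⟩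
  obtain ⟨y1, -⟩ : T.Nonempty := card_pos.1 (by omega)
  obtain ⟨j1, -⟩ : R.Nonempty := card_pos.1 (by omega)
  have hex : ∀ j, ∃ x, j ∈ R → Rq P S e ρ X Y μ ν j x := fun j => by
    by_cases hj : j ∈ R
    · obtain ⟨x, h⟩ := rq_of hb (hR hj)
      exact ⟨x, fun _ => h⟩
    · exact ⟨y1, fun h => absurd h hj⟩
  choose kx hk using hex
  have hex2 : ∀ j, ∃ o, j ∈ R → ¬ P.mkE S e ρ j (kx j) → Rs P S e ρ X Y j (kx j) o := fun j => by
    by_cases hj : j ∈ R ∧ ¬ P.mkE S e ρ j (kx j)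
    · obtain ⟨o, h⟩ := (hk j hj.1).rs hj.2
      exact ⟨o, fun _ _ => h⟩
    · exact ⟨true, fun h h' => absurd ⟨h, h'⟩ hj⟩
  choose ko hs using hex2
  have hinj : ∀ i ∈ R, ∀ j ∈ R, kx i = kx j → i = j := fun i hi j hj h => by
    have h1 := (hk i hi).k' hν
    rw [h, (hk j hj).k' hν] at h1
    exact (Sum.inl_injective h1).symm
  -- at most one request and one item meet all targets
  obtain ⟨j0, y0, h0⟩ : ∃ j0 y0, ∀ j ∈ R, μ (vx (kx j)) ≠ vx (kx j) → j ≠ j0 → ∀ y ∈ T, y ≠ y0 →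
      ¬ P.En S e ρ X Y (ag j) (vx y) := by
    by_cases h : ∃ j ∈ R, μ (vx (kx j)) ≠ vx (kx j) ∧ ∃ y ∈ T, P.En S e ρ X Y (ag j) (vx y)
    · obtain ⟨j0, a1, a2, y0, a3, a4⟩ := h
      exact ⟨j0, y0, fun j b1 b2 b3 y b4 b5 b6 =>
        two_swing hμ hb (hk j0 a1) a2 (hfr y0 a3) a4 (hk j b1) b2 (hfr y b4) b6 b3 b5⟩
    · exact ⟨j1, y1, fun j b1 b2 _ y b4 _ b6 => h ⟨j, b1, b2, y, b4, b6⟩⟩
  have hT0 : q0 + 10 ≤ (T.erase y0).card := by
    have := pred_card_le_card_erase (s := T) (a := y0)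
    omega
  -- exceptional requests
  have e1 : (R.filter fun j => μ (ag j) = ag j ∨ μ (vx (kx j)) = vx (kx j)).card ≤ 2 * N := by
    have h1 := (hC (Nd J V) μ ν hμ hν).2.2.2.2.2.1
    refine le_trans (card_le_card_of_injOn
      (fun j => if μ (ag j) = ag j then (ag j : Nd J V) else vx (kx j)) (t := ends μ ν)
      (fun j hj => ?_) (fun i hi j hj hij => ?_)) (by omega)
    · obtain ⟨j1, j2⟩ := mem_filter.1 (mem_coe.1 hj)
      simp only [ends, coe_filter, mem_univ, true_and, Set.mem_ofPred_eq]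
      split_ifs with h
      · exact Or.inl ⟨h, by rw [(hk j j1).k]; simp⟩
      · exact Or.inl ⟨j2.resolve_left h, by rw [(hk j j1).k' hν]; simp⟩
    · have i1 := (mem_filter.1 (mem_coe.1 hi)).1
      have j1 := (mem_filter.1 (mem_coe.1 hj)).1
      simp only at hij
      split_ifs at hij
      · exact Sum.inl_injective hij
      · exact hinj i i1 j j1 (by simpa using hij)
  have e2 : (R.filter fun j => X.zs (kx j)).card ≤ 1 := card_le_one.2 fun i hi j hj => by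
    rw [mem_filter] at hi hj
    exact hinj i hi.1 j hj.1 (hz _ _ hi.2 hj.2)
  have e3 : (R.filter fun j => ¬ P.mkE S e ρ j (kx j) ∧ X.mc j).card ≤ 1 :=
    card_le_one.2 fun i hi j hj => by
      rw [mem_filter] at hi hj
      have si := hs i hi.1 hi.2.1
      have sj := hs j hj.1 hj.2.1
      exact hm i j ⟨si.geo, si.st, _, si.rig⟩ ⟨sj.geo, sj.st, _, sj.rig⟩ hi.2.2 hj.2.2
  have e4 : (R.filter fun j => j = j0).card ≤ 1 := card_le_one.2 fun i hi j hj =>
    (mem_filter.1 hi).2.trans (mem_filter.1 hj).2.symm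
  have e5 : (R.filter fun j => P.mkE S e ρ j (kx j) ∧ μ (vx (kx j)) ≠ vx (kx j) ∧
      j ≠ j0).card ≤ 1 := card_le_one.2 fun i hi j hj => by
    by_contra hne
    obtain ⟨y, hy, y', hy', hyy⟩ := one_lt_card.1 (show 1 < (T.erase y0).card by omega)
    have jk : ∀ i ∈ R.filter fun j => P.mkE S e ρ j (kx j) ∧ μ (vx (kx j)) ≠ vx (kx j) ∧ j ≠ j0,
        ∀ u ∈ T.erase y0, P.junk i u := fun i hi u hu => by
      obtain ⟨a1, ⟨a2, k, a3, a4⟩, a5, a6⟩ := mem_filter.1 hi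
      obtain ⟨b1, b2⟩ := mem_erase.1 hu
      exact refused_m hν (hk i a1) a2 a3 a4 (hfr u b2) (href i a1 _ (hk i a1).k u b2)
        (h0 i a1 a5 a6 u b2 b1)
    obtain ⟨-, ⟨-, k, a3, -⟩, -⟩ := mem_filter.1 hi
    obtain ⟨-, ⟨-, k', b3, -⟩, -⟩ := mem_filter.1 hj
    exact hyy (G3.majk_junk hf hne a3.2.1 a3.2.2 b3.2.1 (jk i hi y hy) (jk i hi y' hy')
      (jk j hj y hy) (jk j hj y' hy'))
  set R' := R.filter fun j => μ (ag j) ≠ ag j ∧ μ (vx (kx j)) ≠ vx (kx j) ∧ ¬ X.zs (kx j) ∧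
    ¬ X.mc j ∧ j ≠ j0 ∧ ¬ P.mkE S e ρ j (kx j) with hR'
  have e6 : 2 * N * 2 < R'.card := by
    have h1 : R ⊆ R' ∪ ((R.filter fun j => μ (ag j) = ag j ∨ μ (vx (kx j)) = vx (kx j)) ∪
        ((R.filter fun j => X.zs (kx j)) ∪
          ((R.filter fun j => ¬ P.mkE S e ρ j (kx j) ∧ X.mc j) ∪
            ((R.filter fun j => j = j0) ∪ R.filter fun j => P.mkE S e ρ j (kx j) ∧
              μ (vx (kx j)) ≠ vx (kx j) ∧ j ≠ j0)))) := fun j hj => by
      simp only [hR', mem_union, mem_filter]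
      tauto
    have h2 := (card_le_card h1).trans ((card_union_le _ _).trans (Nat.add_le_add_left
      ((card_union_le _ _).trans (Nat.add_le_add e1 ((card_union_le _ _).trans
        (Nat.add_le_add e2 ((card_union_le _ _).trans (Nat.add_le_add e3
          ((card_union_le _ _).trans (Nat.add_le_add e4 e5)))))))) _))
    omega
  refine strict_part hC hcx hb hK hq R' (T.erase y0) kx ko (fun j hj => hk j (mem_filter.1 hj).1)
    (fun j hj => hs j (mem_filter.1 hj).1 (mem_filter.1 hj).2.2.2.2.2.2) (fun j hj => ?_)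
    ((erase_subset _ _).trans hT) (fun y hy => hfr y (mem_of_mem_erase hy)) (fun j hj y hy => ?_)
    (fun j hj y hy => ?_) e6 (by omega)
  · obtain ⟨-, a1, -, a3, a4, -⟩ := mem_filter.1 hj
    exact ⟨a1, a3, a4⟩
  · have a := (mem_filter.1 hj).1
    exact href j a _ (hk j a).k y (mem_of_mem_erase hy)
  · obtain ⟨a0, -, a2, -, -, a5, -⟩ := mem_filter.1 hj
    exact h0 j a0 a2 a5 y (mem_of_mem_erase hy) (ne_of_mem_erase hy)

theorem jointB (hC : CompStmt) {B : Finset J} {g : J → Sv V} {N : ℕ}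
    (hcx : P.Ctx S e ρ Y B g μ) (hb : P.Best S e ρ X Y μ w ν) (hK : (ncomp μ ν).card ≤ N) :
    P.JointB S e ρ μ ν (2 * N) := by
  intro j j' hjj ⟨_, hs, o, ho⟩ ⟨_, hs', o', ho'⟩
  by_contra hcon
  push Not at hcon
  have hμ := hcx.im.1
  have hf := hcx.fr
  obtain ⟨χ, hχ⟩ := no_cross hC hμ hb
  obtain ⟨T, hT, hTc, hcl⟩ := pigeon (n := 1) χ hK
    (univ.filter fun q => P.Q0 e ρ q ∧ ∃ z, z ≠ q ∧ ν (vx q) = vx z ∧ μ (vx q) ≠ vx z ∧
      ¬ P.Ok j q z ∧ ¬ P.Ok j' q z) (fun q => (vx q : Nd J V))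
    (fun q hq => by
      obtain ⟨-, -, z, -, a2, a3, -⟩ := mem_filter.1 hq
      rw [a2]
      exact a3) (by rw [mul_one]; exact hcon)
  have key : ∀ q ∈ T, ∃ z, z ≠ q ∧ ν (vx q) = vx z ∧ μ (vx q) ≠ vx z ∧ q ∈ S.W ∧ z ∈ S.W ∧
      X.pe ∧ P.peE e ρ Y q z ∧ ¬ X.zs z ∧ P.adj j (!o) q ∧ P.adj j' (!o') q ∧ P.adj j (!o) z ∧
      P.adj j' (!o') z := fun q hq => by
    obtain ⟨-, a0, z, a1, a2, a3, a4, a5⟩ := mem_filter.1 (hT hq)
    have h4 := hb.1.1.2 (vx q) (by rw [a2]; simpa using a1)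
    rw [a2] at h4
    rcases h4 with ⟨b1, b2, b3, b4⟩ | h4
    · rcases b4 with ⟨b4, b5⟩ | ⟨b4, -⟩
      · have k1 : ∀ i p, ¬ P.mu i → P.rig e ρ i p → ¬ P.Ok i q z →
            P.adj i (!p) q ∧ P.adj i (!p) z := fun i p hi hp hn => by
          refine ⟨by_contra fun hh => hn (Or.inl ((G3.C_iff hi).2
            (Geo.C_of (Geo.Q0_not_adj hf hp.1 a0) hh))), ?_⟩
          rcases G3.pe_cases hf hi hp b4 with c | c | c
          · exact absurd c hn
          · exact Geo.junk_adj c _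
          · exact c.1
        exact ⟨z, a1, a2, a3, b1, b2, b3, b4, b5, (k1 j o hs ho a4).1, (k1 j' o' hs' ho' a5).1,
          (k1 j o hs ho a4).2, (k1 j' o' hs' ho' a5).2⟩
      · exact absurd a0.2 b4.2.1
    · exact absurd h4 a3
  obtain ⟨q1, m1, q2, m2, hne⟩ := one_lt_card.1 hTc
  obtain ⟨z1, a1, a2, a3, a4, a5, a6, a7, a8, a9, a10, a11, a12⟩ := key q1 m1
  obtain ⟨z2, b1, b2, b3, b4, b5, -, b7, b8, b9, b10, b11, b12⟩ := key q2 m2
  have ht : (j, !o) ≠ (j', !o') := fun h => hjj (congrArg Prod.fst h)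
  have ind : ∀ u v, P.adj j (!o) u → P.adj j' (!o') u → P.adj j (!o) v → P.adj j' (!o') v →
      ¬ P.HH u v := fun u v c1 c2 c3 c4 =>
    Geo.ind_t ht a9 a10 a11 a12 a1.symm a7.2.2.1 c1 c2 c3 c4
  have p1 := a7.2.2.2
  have p2 := b7.2.2.2
  refine hχ (vx q1) (vx q2) (by simpa using hne) (hcl q1 m1 q2 m2).2 (hcl q1 m1 q2 m2).1
    (by rw [a2]; simpa using a1) (by rw [b2]; simpa using b1) (by rw [a2]; exact a3)
    (by rw [b2]; exact b3) ?_ ?_ fun k v _ _ =>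
      ⟨by simp, by simp, by rw [a2]; simp, by rw [b2]; simp⟩
  · rw [b2]
    exact ⟨a4, b5, a6, Or.inl ⟨⟨a7.1, b7.2.1, ind _ _ a9 a10 b11 b12, by tauto⟩, b8⟩⟩
  · rw [a2]
    exact ⟨b4, a5, a6, Or.inl ⟨⟨b7.1, a7.2.1, ind _ _ b9 b10 a11 a12, by tauto⟩, a8⟩⟩

end EOpt

theorem optS (hC : CompStmt) : OptS :=
  fun _ _ _ _ _ _ _ _ _ _ _ _ _ _ _ _ _ _ _ _ _ _ hcx hb hK hz hm hq =>
    ⟨EOpt.rectA hC hcx hb hK hz hm hq, EOpt.jointB hC hcx hb hK⟩

end Pool.Agent.Lib.MP_ef7581_lc.D3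
end
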