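import Mathlib
import Pool.Agent.Shared.PolyTime.GraphEnc

/-!
Instances of Disjoint Connected Subgraphs on H-free graphs.
-/

set_option autoImplicit false

namespace Pool.Agent.Lib.MP_ef7581_lc

open Pool.Agent.Shared.PolyTime

/-- An instance of Disjoint Connected Subgraphs whose graph is `H`-free: a graph on `Fin n` with
no induced subgraph isomorphic to `H`, and `k` pairwise disjoint nonempty vertex sets. -/
structure InstC {h : ℕ} (H : SimpleGraph (Fin h)) where
  n : ℕ
  G : SimpleGraph (Fin n)
  k : ℕ
  Z : Fin k → Finset (Fin n)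
  nonempty : ∀ i, (Z i).Nonempty
  disjoint : ∀ i j, i ≠ j → Disjoint (Z i) (Z j)
  free : IsEmpty (H ↪g G)

/-- Binary code: the adjacency matrix, followed by the characteristic vectors of the sets. -/
noncomputable def InstC.code {h : ℕ} {H : SimpleGraph (Fin h)} (I : InstC H) : List Bool :=
  encPair (encGraph I.G)
    (encList (fun i : Fin I.k => encList (fun v : Fin I.n => [decide (v ∈ I.Z i)])
      (List.finRange I.n)) (List.finRange I.k))

/-- Yes-instances: pairwise disjoint sets `S i` containing `Z i` and inducing connected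
subgraphs. -/
def InstC.Yes {h : ℕ} {H : SimpleGraph (Fin h)} (I : InstC H) : Prop :=
  ∃ S : Fin I.k → Set (Fin I.n), (∀ i j, i ≠ j → Disjoint (S i) (S j)) ∧
    ∀ i, (↑(I.Z i) : Set (Fin I.n)) ⊆ S i ∧ (I.G.induce (S i)).Connected

/-- Disjoint Connected Subgraphs restricted to `H`-free graphs is decidable in polynomial time. -/
def DCSinP {h : ℕ} (H : SimpleGraph (Fin h)) : Prop :=
  ∃ f : InstC H → Bool,
    Nonempty (Turing.TM2ComputableInPolyTime InstC.code (fun b : Bool => [b]) f) ∧
    ∀ I : InstC H, f I = true ↔ I.Yes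

end Pool.Agent.Lib.MP_ef7581_lc
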