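import Mathlib
import Pool.Agent.Lib.MP_ef7581_lc.EStmts
import Pool.Agent.Lib.MP_ef7581_lc.StmtC
import Pool.Agent.Lib.MP_ef7581_lc.DP0
import Pool.Agent.Lib.MP_ef7581_lc.DPU

-- part Pool.Agent.Lib.MP_ef7581_lc.EPDefs
section

/-!
Coded instances with several terminals and the polynomial-time steps as propositions.
-/

set_option autoImplicit false

namespace Pool.Agent.Lib.MP_ef7581_lc.D3

open Pool.Agent.Shared.PolyTime Finset D2

/-- An instance of the abstract problem with numbered agents, items and terminals. -/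
structure C3 : Type where
  k : ℕ
  n : ℕ
  m : ℕ
  P : G3 (Fin k) (Fin n) (Fin m)

/-- The instance of the two base terminals. -/
def C3.base (c : C3) : CG := ⟨c.k, c.n, c.P.base⟩

def C3.code (c : C3) : CG × ℕ × List Prop × List (List (List Prop)) :=
  (c.base, c.m, tabT fun j => c.P.mu j,
    tabT fun j => tabT fun k => tabT fun v => c.P.adt j k v)

noncomputable instance encC3 : Enc C3 := ⟨fun c => Enc.enc c.code⟩

/-- The slack test and the parity test. -/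
def PFSLS : Prop :=
  ∀ (e : ℕ) (γ : Type) [Enc γ] (c : γ → C3) (S : ∀ a, Sub (Fin (c a).k) (Fin (c a).n))
    (l : γ → ℕ), PF c → PSub (fun a => (c a).base) S → PF l →
    (PF fun a => (c a).P.TestSL Fin.val (S a) e (l a)) ∧
    ∀ (nf : ∀ a, Fin (c a).n → Prop) (pn : Prop) (tg : γ → ℕ),
      (PF fun p : Pt (fun a => Fin (c a).n) => nf p.a p.x) → PF tg →
      PF fun a => (c a).P.Test1 (S a) e (l a) ⟨nf a, pn, tg a⟩

def PFUS : Prop := ∀ e c L : ℕ, PF fun a : C3 => a.P.UTest Fin.val e c L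

def PFMS : Prop := ∀ e c L : ℕ, PF fun a : C3 => a.P.MTest Fin.val e c L

def PFRS : Prop := ∀ e c t0 c1 L : ℕ, PF fun a : C3 => a.P.RTest Fin.val e c t0 c1 L

/-- The reduction of the graph problem to the abstract problem. -/
def RedS : Prop :=
  ∃ toC : InstC twoP1P2 → C3,
    @PF _ _ ⟨InstC.code⟩ _ toC ∧ ∀ I, I.Yes ↔ (toC I).P.Feas

end Pool.Agent.Lib.MP_ef7581_lc.D3
end

-- part Pool.Agent.Lib.MP_ef7581_lc.EP0
section

/-!
The basic predicates of coded instances with several terminals are polynomial-time.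
-/

set_option autoImplicit false

namespace Pool.Agent.Lib.MP_ef7581_lc.D3.EP0

open Pool.Agent.Shared.PolyTime Finset D2 D2.DP0

/-- The family of the base instances. -/
abbrev bs {γ : Type} (c : γ → C3) : γ → CG := fun a => (c a).base
abbrev GK {γ : Type} (c : γ → C3) : γ → Type := fun a => Fin (c a).m

variable {γ : Type} [Enc γ] {c : γ → C3}

theorem pf_code3 (hc : PF c) : PF fun a => (c a).code := hc
theorem pf_toC3 (h : PF fun a => (c a).code) : PF c := h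
theorem pf_bs (hc : PF c) : PF (bs c) := (pf_code3 hc).fst
theorem pf_Nm (hc : PF c) : PF fun a => Num.N (Fin (c a).m) := (pf_code3 hc).snd.fst
theorem pf_Nj (hc : PF c) : PF fun a => Num.N (Fin (c a).k) := pf_Nk (pf_bs hc)
theorem pf_Nv (hc : PF c) : PF fun a => Num.N (Fin (c a).n) := pf_Nn (pf_bs hc)

section Basic

variable (hc : PF c) {j : ∀ a, Fin (c a).k} {k : ∀ a, Fin (c a).m} {o : γ → Bool}
  {x y z : ∀ a, Fin (c a).n}

include hc

theorem pf_mu (hj : PF fun a => idx (j a)) : PF fun a => (c a).P.mu (j a) :=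
  (PF.getD (pf_code3 hc).snd.snd.fst hj (PF.const False)).of_eq
    fun a => by simp only [C3.code, getD_tabT]

theorem pf_adt (hj : PF fun a => idx (j a)) (hk : PF fun a => idx (k a))
    (hx : PF fun a => idx (x a)) : PF fun a => (c a).P.adt (j a) (k a) (x a) :=
  (PF.getD (PF.getD (PF.getD (pf_code3 hc).snd.snd.snd hj (PF.const [])) hk (PF.const [])) hx
    (PF.const False)).of_eq fun a => by simp only [C3.code, getD_tabT]

theorem pf_HH3 (hx : PF fun a => idx (x a)) (hy : PF fun a => idx (y a)) :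
    PF fun a => (c a).P.HH (x a) (y a) := pf_HH (c := bs c) (pf_bs hc) hx hy

theorem pf_col3 (hj : PF fun a => idx (j a)) (ho : PF o) (hx : PF fun a => idx (x a)) :
    PF fun a => (c a).P.col (j a) (o a) (x a) := pf_col (c := bs c) (pf_bs hc) hj ho hx

theorem pf_junk3 (hj : PF fun a => idx (j a)) (hx : PF fun a => idx (x a)) :
    PF fun a => (c a).P.junk (j a) (x a) := pf_junk (c := bs c) (pf_bs hc) hj hx

theorem pf_C3 (hj : PF fun a => idx (j a)) (hx : PF fun a => idx (x a)) :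
    PF fun a => (c a).P.C (j a) (x a) :=
  pf_all (T := GK c) (pf_Nm hc) (pf_not (pf_adt (hc.comp up) (hj.comp up) px (hx.comp up)))

theorem pf_colk (hj : PF fun a => idx (j a)) (hk : PF fun a => idx (k a))
    (hx : PF fun a => idx (x a)) : PF fun a => (c a).P.colk (j a) (k a) (x a) :=
  pf_and (pf_adt hc hj hk hx) (pf_not (pf_junk3 hc hj hx))

theorem pf_Pr3 (hj : PF fun a => idx (j a)) (hx : PF fun a => idx (x a))
    (hy : PF fun a => idx (y a)) : PF fun a => (c a).P.Pr (j a) (x a) (y a) :=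
  pf_and (pf_neT hx hy) (pf_and (pf_or (pf_mu hc hj) (pf_not (pf_HH3 hc hx hy)))
    (pf_all (T := GK c) (pf_Nm hc) (pf_not (pf_and
      (pf_adt (hc.comp up) (hj.comp up) px (hx.comp up))
      (pf_adt (hc.comp up) (hj.comp up) px (hy.comp up))))))

theorem pf_Tr3 (hj : PF fun a => idx (j a)) (hx : PF fun a => idx (x a))
    (hz : PF fun a => idx (z a)) (hy : PF fun a => idx (y a)) :
    PF fun a => (c a).P.Tr (j a) (x a) (z a) (y a) :=
  pf_and (pf_not (pf_mu hc hj)) (pf_Tr (c := bs c) (pf_bs hc) hj hx hz hy)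

theorem pf_Ok3 (hj : PF fun a => idx (j a)) (hx : PF fun a => idx (x a))
    (hy : PF fun a => idx (y a)) : PF fun a => (c a).P.Ok (j a) (x a) (y a) :=
  pf_or (pf_C3 hc hj hx) (pf_or (pf_C3 hc hj hy) (pf_Pr3 hc hj hx hy))

end Basic

variable {S : ∀ a, Sub (Fin (c a).k) (Fin (c a).n)}

theorem psub_pl3 (hc : PF c) {A : ∀ a, Finset (Fin (c a).k)} {W : ∀ a, Finset (Fin (c a).n)}
    (hA : PSet A) (hW : PSet W) : PSub (bs c) fun a => (c a).P.pl (A a) (W a) :=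
  ⟨hA, hW, PF.const True, pf_C3 (hc.comp up2) px1 px, PF.const False⟩

theorem pf_Serv23 (hc : PF c) (hS : PSub (bs c) S) {j : ∀ a, Fin (c a).k}
    {s : ∀ a, Finset (Fin (c a).n)} (hj : PF fun a => idx (j a)) (hs : PSet s) :
    PF fun a => (c a).P.Serv2 (S a) (j a) (s a) :=
  pf_or (pf_exMem (pf_Nv hc) hs (pf_lst (psub_comp hS up) (hj.comp up) px))
    (pf_and (pf_geo hS hj) (pf_exMem (pf_Nv hc) hs (pf_exMem (pf_Nv (hc.comp up)) (pset_up hs)
      (pf_Pr3 (hc.comp up2) (hj.comp up2) px1 px))))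

theorem pf_Serv33 (hc : PF c) (hS : PSub (bs c) S) {j : ∀ a, Fin (c a).k}
    {s : ∀ a, Finset (Fin (c a).n)} (hj : PF fun a => idx (j a)) (hs : PSet s) :
    PF fun a => (c a).P.Serv3 (S a) (j a) (s a) :=
  pf_or (pf_Serv23 hc hS hj hs)
    (pf_and (pf_geo hS hj) (pf_exMem (pf_Nv hc) hs (pf_exMem (pf_Nv (hc.comp up)) (pset_up hs)
      (pf_exMem (pf_Nv (hc.comp up2)) (pset_up2 hs)
        (pf_Tr3 (hc.comp up3) (hj.comp up3) px2 px1 px)))))

theorem pf_PhiOk3 (hc : PF c)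
    {Φ : ∀ a, Finset (Fin (c a).k × Fin (c a).n × Fin (c a).n × Fin (c a).n)} (hΦ : PSet Φ) :
    PF fun a => (c a).P.PhiOk (Φ a) :=
  pf_and (pf_allMem (pf_N3 (pf_bs hc)) hΦ (pf_Serv33 (hc.comp up)
    (psub_pl3 (hc.comp up) pset_univ pset_univ)
    (s3_1 ((pf_bs hc).comp up) px) (pset_insert (s3_2 ((pf_bs hc).comp up) px)
      (pset_pair (s3_3 ((pf_bs hc).comp up) px) (s3_4 ((pf_bs hc).comp up) px)))))
    (pf_Dis3 (pf_bs hc) hΦ)

end Pool.Agent.Lib.MP_ef7581_lc.D3.EP0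
end

-- part Pool.Agent.Lib.MP_ef7581_lc.EPU
section

/-!
The tests of the two absorbing cases are decidable in polynomial time.
-/

set_option autoImplicit false

namespace Pool.Agent.Lib.MP_ef7581_lc.D3

open Pool.Agent.Shared.PolyTime Finset D2 D2.DP0 EP0

namespace EPU

variable {γ : Type} [Enc γ] {c : γ → C3}

/-! ### Families of members -/

section Family

variable {N : ℕ} {F : ∀ a, Fin N → Mb (Fin (c a).k) (Fin (c a).n)}
  (hF : ∀ r, DPU.PM (bs c) fun a => F a r)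

include hF

theorem pset_fag : PSet fun a => fagF (F a) :=
  DPU.pf_fag (c := fun p : Pt (GJ (bs c)) => bs c p.a) (fun r => (hF r).comp up) px

theorem pset_fit : PSet fun a => fitF (F a) :=
  DPU.pf_fit (c := fun p : Pt (GV (bs c)) => bs c p.a) (fun r => (hF r).comp up) px

theorem pf_wasteP (hc : PF c) :
    PF fun p : Pt (GV (bs c)) => (c p.a).P.base.waste (F p.a) p.x :=
  DPU.pf_waste (c := fun p : Pt (GV (bs c)) => bs c p.a) (fun r => (hF r).comp up)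
    ((pf_bs hc).comp up) px

theorem pf_MFam (hc : PF c) (ty : Bool) : PF fun a => (c a).P.MFam ty (F a) := by
  have lt : ∀ {q : γ → Fin N → Fin N → Prop}, (∀ r r', PF fun a => q a r r') →
      PF fun a => ∀ r r', r < r' → q a r r' := fun h =>
    pf_allD fun r => pf_allD fun r' => pf_imp (PF.const (r < r')) (h r r')
  have h1 := DPU.pf_DisF (c := bs c) hF
  have h2 := pf_allD fun r => pf_mu hc (hF r).j
  have h3 := pf_allD fun r => pf_Pr3 hc (hF r).j (hF r).x (hF r).y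
  have h4 := lt fun r r' => pf_Pr3 hc (hF r).j (hF r').x (hF r).y
  have h5 := pf_imp (PF.const (ty = true)) (lt fun r r' => pf_Pr3 hc (hF r).j (hF r').y (hF r).y)
  have h6 := pf_imp (PF.const (ty = false))
    (lt fun r r' => pf_Pr3 hc (hF r').j (hF r).y (hF r').y)
  have h7 : PF fun a => ∀ r r', r ≠ r' → ∀ x y, (c a).P.junk (F a r).1 x →
      (c a).P.junk (F a r).1 y → (c a).P.junk (F a r').1 x → (c a).P.junk (F a r').1 y → x = y :=
    pf_allD fun r => pf_allD fun r' => pf_imp (PF.const (r ≠ r'))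
      (pf_all (T := GV (bs c)) (pf_Nv hc)
        (pf_all (T := fun p : Pt (GV (bs c)) => Fin (c p.a).n) (pf_Nv (hc.comp up))
          (pf_imp (pf_junk3 (hc.comp up2) ((hF r).j.comp up2) px1)
            (pf_imp (pf_junk3 (hc.comp up2) ((hF r).j.comp up2) px)
              (pf_imp (pf_junk3 (hc.comp up2) ((hF r').j.comp up2) px1)
                (pf_imp (pf_junk3 (hc.comp up2) ((hF r').j.comp up2) px) (pf_eqT px1 px)))))))
  exact pf_iff (pf_and h1 (pf_and h2 (pf_and h3 (pf_and h4 (pf_and h5 (pf_and h6 h7))))))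
    fun a => ⟨fun k => ⟨k.dis, k.mul, k.own, k.upa, k.upb, k.dnb, k.jk⟩,
      fun ⟨k1, k2, k3, k4, k5, k6, k7⟩ => ⟨k1, k2, k3, k4, k5, k6, k7⟩⟩

end Family

/-! ### The remaining instance -/

section Rest

variable (hc : PF c) {b : ℕ} {F : ∀ a, Fin (NU b) → Mb (Fin (c a).k) (Fin (c a).n)}
  (hF : ∀ r, DPU.PM (bs c) fun a => F a r)

include hF

theorem pset_expo : PSet fun a => Geo.expo b (F a) :=
  DPU.pf_expo (c := fun p : Pt (GV (bs c)) => bs c p.a) (fun r => (hF r).comp up) px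

include hc

theorem pf_starP : PF fun p : Pt (GV (bs c)) => (c p.a).P.base.star b (F p.a) p.x :=
  DPU.pf_star (c := fun p : Pt (GV (bs c)) => bs c p.a) ((pf_bs hc).comp up)
    (fun r => (hF r).comp up) px

theorem pf_hardO : PF fun p : Pt (GV (bs c)) => (c p.a).P.hardO b (F p.a) p.x :=
  pf_and (DPU.pf_hard (c := fun p : Pt (GV (bs c)) => bs c p.a) ((pf_bs hc).comp up)
    (fun r => (hF r).comp up) px) (pf_not (pset_fit hF))

variable {Φ : ∀ a, Finset (Fin (c a).k × Fin (c a).n × Fin (c a).n × Fin (c a).n)} (hΦ : PSet Φ)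
  {D : ∀ a, Finset (Fin (c a).n)} (hD : PSet D)

include hΦ hD

theorem psub_SU {Wt : ∀ a, Finset (Fin (c a).k × Fin (c a).n × Fin (c a).n)} (hW : PSet Wt) :
    PSub (bs c) fun a => (c a).P.SU b (F a) (Φ a) (D a) (Wt a) :=
  psub_pl3 hc (pset_sdiff pset_univ (pset_union (pset_union (pset_fag hF)
      (pset_ag3 (pf_bs hc) hΦ)) (pset_ag2 (pf_bs hc) hW)))
    (pset_sdiff pset_univ (pset_union (pset_union (pset_union
      (pset_sdiff (pset_fit hF) (pset_expo hF)) (pset_it3 (pf_bs hc) hΦ)) hD)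
      (pset_it2 (pf_bs hc) hW)))

theorem pf_wit (h : PFSLS) (e : ℕ) {s : ∀ a, Fin (c a).k × Fin (c a).n × Fin (c a).n}
    (hs : PF fun a => idx (s a)) :
    PF fun a => (c a).P.base.WitU b (F a) (s a) ∧ ¬ (c a).P.mu (s a).1 ∧ (s a).1 ∉ ag3 (Φ a) ∧
      (s a).2.1 ∉ it3 (Φ a) ∧ (s a).2.2 ∉ it3 (Φ a) ∧
      (c a).P.TestSL Fin.val ((c a).P.SU b (F a) (Φ a) (D a) {s a}) e b := by
  have hj := s2_1 (pf_bs hc) hs
  have hx := s2_2 (pf_bs hc) hs
  have hy := s2_3 (pf_bs hc) hs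
  exact pf_and (DPU.pf_WitU (c := bs c) (pf_bs hc) hF hx hj hy) (pf_and (pf_not (pf_mu hc hj))
    (pf_and (pf_nmem (pset_ag3 (pf_bs hc) hΦ) hj) (pf_and (pf_nmem (pset_it3 (pf_bs hc) hΦ) hx)
      (pf_and (pf_nmem (pset_it3 (pf_bs hc) hΦ) hy)
        (h e γ c _ (fun _ => b) hc (psub_SU hc hF hΦ hD (pset_singleton hs)) (PF.const b)).1))))

theorem pf_exWit (h : PFSLS) (e : ℕ) :
    PF fun a => ∃ s, (c a).P.base.WitU b (F a) s ∧ ¬ (c a).P.mu s.1 ∧ s.1 ∉ ag3 (Φ a) ∧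
      s.2.1 ∉ it3 (Φ a) ∧ s.2.2 ∉ it3 (Φ a) ∧
      (c a).P.TestSL Fin.val ((c a).P.SU b (F a) (Φ a) (D a) {s}) e b :=
  pf_exG (T := fun a => Fin (c a).k × Fin (c a).n × Fin (c a).n) (pf_N2 (pf_bs hc))
    fun _ _ g _ hg hs => pf_wit (c := fun d => c (g d)) (hc.comp hg) (fun r => (hF r).comp hg)
      (pset_comp hΦ hg) (pset_comp hD hg) h e hs

end Rest

/-! ### The parts of the tests without bounded choices -/

section Bodies

variable {J V K : Type} [Fintype J] [Fintype V] [DecidableEq J] [DecidableEq V]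

def BodyU (P : G3 J V K) (rk : J → ℕ) (e b ty : ℕ) (F : Fin (NU b) → Mb J V)
    (Φ : Finset (J × V × V × V)) (D : Finset V) : Prop :=
  P.base.PFam ty F ∧ (∀ r, ¬ P.mu (F r).1) ∧ P.PhiOk Φ ∧
    Disjoint (ag3 Φ) (fagF F) ∧ Disjoint (it3 Φ) (fitF F) ∧ Disjoint D (fitF F) ∧
    (∀ v, v ∉ fitF F → v ∉ it3 Φ → v ∉ D → ¬ P.base.waste F v ∧ ¬ P.base.star b F v) ∧
    ((∃ s, P.base.WitU b F s ∧ ¬ P.mu s.1 ∧ s.1 ∉ ag3 Φ ∧ s.2.1 ∉ it3 Φ ∧ s.2.2 ∉ it3 Φ ∧
        P.TestSL rk (P.SU b F Φ D {s}) e b) ∨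
      P.TestSL rk (P.SU b F Φ D ∅) e (b + 1) ∨
      (P.TestSL rk (P.SU b F Φ D ∅) e b ∧
        P.Test1 (P.SU b F Φ D ∅) e b ⟨P.hardO b F, False, 0⟩ ∧
        P.Test1 (P.SU b F Φ D ∅) e b ⟨fun v => ¬ P.hardO b F v, True, b⟩))

def BodyM (P : G3 J V K) (rk : J → ℕ) (e b : ℕ) (ty : Bool) (F : Fin (NU b) → Mb J V)
    (Φ : Finset (J × V × V × V)) (D : Finset V) : Prop :=
  P.MFam ty F ∧ P.PhiOk Φ ∧
    Disjoint (ag3 Φ) (fagF F) ∧ Disjoint (it3 Φ) (fitF F) ∧ Disjoint D (fitF F) ∧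
    (∀ v, v ∉ fitF F → v ∉ it3 Φ → v ∉ D → ¬ P.base.waste F v) ∧
    P.TestSL rk (P.SU b F Φ D ∅) e b

theorem uTest_iff (P : G3 J V K) (rk : J → ℕ) (e b L : ℕ) : P.UTest rk e b L ↔
    ∃ ty, ty < 4 ∧ ∃ F, ∃ Φ, Φ.card ≤ L ∧ ∃ D, D.card ≤ L ∧ BodyU P rk e b ty F Φ D :=
  ⟨fun ⟨ty, F, Φ, D, h1, h0, h2, h3, h4⟩ => ⟨ty, h1.lt4, F, Φ, h2, D, h3, h1, h0, h4⟩,
    fun ⟨ty, _, F, Φ, h2, D, h3, h1, h0, h4⟩ => ⟨ty, F, Φ, D, h1, h0, h2, h3, h4⟩⟩

theorem mTest_iff (P : G3 J V K) (rk : J → ℕ) (e b L : ℕ) : P.MTest rk e b L ↔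
    ∃ ty, ∃ F, ∃ Φ, Φ.card ≤ L ∧ ∃ D, D.card ≤ L ∧ BodyM P rk e b ty F Φ D :=
  ⟨fun ⟨ty, F, Φ, D, h1, h2, h3, h4⟩ => ⟨ty, F, Φ, h2, D, h3, h1, h4⟩,
    fun ⟨ty, F, Φ, h2, D, h3, h1, h4⟩ => ⟨ty, F, Φ, D, h1, h2, h3, h4⟩⟩

end Bodies

section PBodies

variable (h : PFSLS) (e : ℕ) (hc : PF c) {b : ℕ}
  {F : ∀ a, Fin (NU b) → Mb (Fin (c a).k) (Fin (c a).n)} (hF : ∀ r, DPU.PM (bs c) fun a => F a r)
  {Φ : ∀ a, Finset (Fin (c a).k × Fin (c a).n × Fin (c a).n × Fin (c a).n)} (hΦ : PSet Φ)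
  {D : ∀ a, Finset (Fin (c a).n)} (hD : PSet D)

include h hc hF hΦ hD

theorem pf_BodyU (ty : ℕ) : PF fun a => BodyU (c a).P Fin.val e b ty (F a) (Φ a) (D a) := by
  have fit := pset_fit hF
  have i3 := pset_it3 (pf_bs hc) hΦ
  have d4 := pf_all (T := GV (bs c)) (q := fun a v => v ∉ fitF (F a) → v ∉ it3 (Φ a) →
    v ∉ D a → ¬ (c a).P.base.waste (F a) v ∧ ¬ (c a).P.base.star b (F a) v) (pf_Nv hc)
    (pf_imp (pf_not fit) (pf_imp (pf_not i3) (pf_imp (pf_not hD)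
      (pf_and (pf_not (pf_wasteP hF hc)) (pf_not (pf_starP hc hF))))))
  have ps := psub_SU hc hF hΦ hD (Wt := fun _ => ∅) pset_empty
  have t0 := h e γ c _ (fun _ => b) hc ps (PF.const b)
  exact pf_and (DPU.pf_PFam (c := bs c) hF (pf_bs hc) ty)
    (pf_and (pf_allD fun r => pf_not (pf_mu hc (hF r).j)) (pf_and (pf_PhiOk3 hc hΦ)
      (pf_and (pf_disjoint (pf_Nj hc) (pset_ag3 (pf_bs hc) hΦ) (pset_fag hF))
        (pf_and (pf_disjoint (pf_Nv hc) i3 fit) (pf_and (pf_disjoint (pf_Nv hc) hD fit)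
          (pf_and d4 (pf_or (pf_exWit hc hF hΦ hD h e)
            (pf_or (h e γ c _ (fun _ => b + 1) hc ps (PF.const _)).1
              (pf_and t0.1 (pf_and
                (t0.2 (fun a => (c a).P.hardO b (F a)) False (fun _ => 0) (pf_hardO hc hF)
                  (PF.const 0))
                (t0.2 (fun a v => ¬ (c a).P.hardO b (F a) v) True (fun _ => b)
                  (pf_not (pf_hardO hc hF)) (PF.const b))))))))))))

theorem pf_BodyM (ty : Bool) : PF fun a => BodyM (c a).P Fin.val e b ty (F a) (Φ a) (D a) := by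
  have fit := pset_fit hF
  have i3 := pset_it3 (pf_bs hc) hΦ
  have d4 := pf_all (T := GV (bs c)) (q := fun a v => v ∉ fitF (F a) → v ∉ it3 (Φ a) →
    v ∉ D a → ¬ (c a).P.base.waste (F a) v) (pf_Nv hc)
    (pf_imp (pf_not fit) (pf_imp (pf_not i3) (pf_imp (pf_not hD) (pf_not (pf_wasteP hF hc)))))
  have ps := psub_SU hc hF hΦ hD (Wt := fun _ => ∅) pset_empty
  exact pf_and (pf_MFam hF hc ty) (pf_and (pf_PhiOk3 hc hΦ)
    (pf_and (pf_disjoint (pf_Nj hc) (pset_ag3 (pf_bs hc) hΦ) (pset_fag hF))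
      (pf_and (pf_disjoint (pf_Nv hc) i3 fit) (pf_and (pf_disjoint (pf_Nv hc) hD fit)
        (pf_and d4 (h e γ c _ (fun _ => b) hc ps (PF.const b)).1)))))

end PBodies

/-! ### Guessing the family and the two sets -/

theorem pf_guess (hc : PF c) (N L : ℕ)
    (q : ∀ a, (Fin N → Mb (Fin (c a).k) (Fin (c a).n)) →
      Finset (Fin (c a).k × Fin (c a).n × Fin (c a).n × Fin (c a).n) → Finset (Fin (c a).n) → Prop)
    (h : ∀ (δ : Type) [Enc δ] (g : δ → γ)
      (F : ∀ d, Fin N → Mb (Fin (c (g d)).k) (Fin (c (g d)).n))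
      (Φ : ∀ d, Finset (Fin (c (g d)).k × Fin (c (g d)).n × Fin (c (g d)).n × Fin (c (g d)).n))
      (D : ∀ d, Finset (Fin (c (g d)).n)), PF g →
      (∀ r, DPU.PM (bs fun d => c (g d)) fun d => F d r) → PSet Φ → PSet D →
      PF fun d => q (g d) (F d) (Φ d) (D d)) :
    PF fun a => ∃ F, ∃ Φ, Φ.card ≤ L ∧ ∃ D, D.card ≤ L ∧ q a F Φ D :=
  DPU.pf_exMb (c := bs c) (pf_bs hc) N
    (fun a F => ∃ Φ, Finset.card Φ ≤ L ∧ ∃ D, Finset.card D ≤ L ∧ q a F Φ D)
    fun _ _ g F hg hF =>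
    pf_exSet (T := fun d => Fin (c (g d)).k × Fin (c (g d)).n × Fin (c (g d)).n × Fin (c (g d)).n)
      L (pf_N3 (pf_bs (hc.comp hg)))
      (q := fun d Φ => ∃ D, Finset.card D ≤ L ∧ q (g d) (F d) Φ D) fun _ _ g1 Φ hg1 hΦ =>
    pf_exSet (T := fun d => Fin (c (g (g1 d))).n) L (pf_Nv ((hc.comp hg).comp hg1))
      (q := fun d D => q (g (g1 d)) (F (g1 d)) (Φ d) D) fun δ2 _ g2 D hg2 hD =>
    h δ2 (fun d => g (g1 (g2 d))) (fun d => F (g1 (g2 d))) (fun d => Φ (g2 d)) D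
      (hg.comp (hg1.comp hg2)) (fun r => (hF r).comp (hg1.comp hg2)) (pset_comp hΦ hg2) hD

end EPU

theorem pfUS (h : PFSLS) : PFUS := fun e b L =>
  pf_iff (pf_exC 4 (q := fun (a : C3) ty => ∃ F, ∃ Φ, Φ.card ≤ L ∧ ∃ D, D.card ≤ L ∧
    EPU.BodyU a.P Fin.val e b ty F Φ D) fun ty =>
      EPU.pf_guess (c := fun a : C3 => a) PF.id' (NU b) L
        (fun a F Φ D => EPU.BodyU a.P Fin.val e b ty F Φ D)
        fun _ _ g _ _ _ hg hF hΦ hD => EPU.pf_BodyU (c := g) h e hg hF hΦ hD ty)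
    fun a => EPU.uTest_iff a.P Fin.val e b L

theorem pfMS (h : PFSLS) : PFMS := fun e b L =>
  pf_iff (pf_exD (q := fun (a : C3) (ty : Bool) => ∃ F, ∃ Φ, Φ.card ≤ L ∧ ∃ D, D.card ≤ L ∧
    EPU.BodyM a.P Fin.val e b ty F Φ D) fun ty =>
      EPU.pf_guess (c := fun a : C3 => a) PF.id' (NU b) L
        (fun a F Φ D => EPU.BodyM a.P Fin.val e b ty F Φ D)
        fun _ _ g _ _ _ hg hF hΦ hD => EPU.pf_BodyM (c := g) h e hg hF hΦ hD ty)
    fun a => EPU.mTest_iff a.P Fin.val e b L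

end Pool.Agent.Lib.MP_ef7581_lc.D3
end

-- part Pool.Agent.Lib.MP_ef7581_lc.EPR
section

/-!
The test of the consistent case for agents with several terminals is decidable in polynomial time.
-/

set_option autoImplicit false

namespace Pool.Agent.Lib.MP_ef7581_lc.D3.EPR

open Pool.Agent.Shared.PolyTime Finset D2 D2.DP0 D3.EP0

/-- The members of families. -/
abbrev GM {γ : Type} (c : γ → C3) : γ → Type :=
  fun a => M3 (Fin (c a).k) (Fin (c a).n) (Fin (c a).m)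

variable {γ : Type} [Enc γ] {c : γ → C3}

/-- A polynomial-time choice of a member. -/
structure PM (c : γ → C3) (m : ∀ a, GM c a) : Prop where
  j : PF fun a => idx (m a).1
  k : ∀ s, PF fun a => idx ((m a).2.1 s)
  x : ∀ s, PF fun a => idx ((m a).2.2 s)

theorem PM.comp {m : ∀ a, GM c a} (h : PM c m) {δ : Type} [Enc δ] {g : δ → γ} (hg : PF g) :
    PM (fun d => c (g d)) fun d => m (g d) :=
  ⟨h.j.comp hg, fun s => (h.k s).comp hg, fun s => (h.x s).comp hg⟩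

theorem pNK (hc : PF c) : PF fun a => Num.N (Bool → Fin (c a).m) := pf_Nfun Bool (pf_Nm hc)
theorem pNV (hc : PF c) : PF fun a => Num.N (Bool → Fin (c a).n) := pf_Nfun Bool (pf_Nv hc)
theorem pNM (hc : PF c) : PF fun a => Num.N (GM c a) :=
  pf_Nprod (pf_Nj hc) (pf_Nprod (pNK hc) (pNV hc))

theorem pm_of (hc : PF c) {m : ∀ a, GM c a} (hm : PF fun a => idx (m a)) : PM c m :=
  ⟨pf_fst (pf_Nprod (pNK hc) (pNV hc)) hm,
    fun s => pf_app (pf_Nm hc) (pf_fst (pNV hc) (pf_snd (pf_Nprod (pNK hc) (pNV hc)) hm)) s,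
    fun s => pf_app (pf_Nv hc) (pf_snd (pNV hc) (pf_snd (pf_Nprod (pNK hc) (pNV hc)) hm)) s⟩

section Fam

variable {D : Type} [Fintype D] {F : ∀ a, D → GM c a} (hF : ∀ r, PM c fun a => F a r)

include hF

theorem pDisM : PF fun a => DisM (F a) :=
  pf_and (pf_inj fun r => (hF r).j) (pf_inj fun p : D × Bool => (hF p.1).x p.2)

theorem pfa : PSet fun a => fa (F a) := pset_imageD univ fun r => (hF r).j

theorem pfi : PSet fun a => fi (F a) := pset_imageD univ fun p : D × Bool => (hF p.1).x p.2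

end Fam

section FamN

variable (hc : PF c) {N : ℕ} {F : ∀ a, Fin N → GM c a} (hF : ∀ r, PM c fun a => F a r)

include hc hF

theorem pCFam : PF fun a => (c a).P.CFam (F a) :=
  pf_and (pf_allD fun r => pf_allD fun r' => pf_allD fun s =>
      pf_colk hc (hF r).j ((hF r).k s) ((hF r').x s))
    (pf_and (pf_allD fun r => pf_Pr3 hc (hF r).j ((hF r).x false) ((hF r).x true))
      (pf_allD fun r => pf_allD fun r' => pf_imp (pf_mu hc (hF r).j) (pf_mu hc (hF r').j)))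

variable {h : γ → ℕ} (hh : PF h)

include hh

theorem pSd (s : Bool) {v : ∀ a, Fin (c a).n} (hv : PF fun a => idx (v a)) :
    PF fun a => (c a).P.Sd (F a) (h a) s (v a) :=
  pf_lt (pf_cardD fun r => pf_not (pf_colk hc (hF r).j ((hF r).k s) hv)) hh

theorem pTo {j : ∀ a, Fin (c a).k} (hj : PF fun a => idx (j a)) {o : ∀ a, Bool → Fin (c a).m}
    (ho : ∀ s, PF fun a => idx (o a s)) : PF fun a => (c a).P.To (F a) (h a) (j a) (o a) :=
  pf_and (pf_neT (ho false) (ho true))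
    (pf_lt (pf_cardD fun r => pf_not (pf_allD fun s => pf_colk hc hj (ho s) ((hF r).x s))) hh)

theorem pToE {j : ∀ a, Fin (c a).k} (hj : PF fun a => idx (j a)) :
    PF fun a => ∃ o, (c a).P.To (F a) (h a) (j a) o :=
  pf_ex (T := fun a => Bool → Fin (c a).m) (pNK hc)
    (pTo (hc.comp up) (fun r => (hF r).comp up) (hh.comp up) (hj.comp up)
      fun s => pf_app (pf_Nm (hc.comp up)) px s)

end FamN

section Cons

variable {t M t' M0 : ℕ}

/-- A polynomial-time choice of the consistent families. -/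
structure PG (c : γ → C3) (R : ∀ a, R3 (Fin (c a).k) (Fin (c a).n) (Fin (c a).m) t M t' M0) :
    Prop where
  F : ∀ τ r, PM c fun a => (R a).F τ r
  G : ∀ i r, PM c fun a => (R a).G i r
  h : PF fun a => (R a).h
  h0 : PF fun a => (R a).h0

variable {R : ∀ a, R3 (Fin (c a).k) (Fin (c a).n) (Fin (c a).m) t M t' M0}

theorem PG.comp (h : PG c R) {δ : Type} [Enc δ] {g : δ → γ} (hg : PF g) :
    PG (fun d => c (g d)) fun d => R (g d) :=
  ⟨fun τ r => (h.F τ r).comp hg, fun i r => (h.G i r).comp hg, h.h.comp hg, h.h0.comp hg⟩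

theorem PG.mem (h : PG c R) (r : (Fin t × Fin M) ⊕ (Fin t' × Fin M0)) :
    PM c fun a => (R a).mem r := by
  rcases r with r | r
  · exact h.F r.1 r.2
  · exact h.G r.1 r.2

variable (hc : PF c) (hR : PG c R)

include hc hR

theorem pmt (τ : Fin t) : PF fun a => (c a).P.mt (R a) τ :=
  pf_exD fun r => pf_mu hc (hR.F τ r).j

theorem pRGood : PF fun a => (c a).P.RGood (R a) :=
  pf_iff (pf_and (pDisM hR.mem) (pf_and (pf_allD fun τ => pCFam hc (hR.F τ))
    (pf_and (pf_allD fun i => pCFam hc (hR.G i))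
      (pf_and (pf_allD fun i => pf_allD fun g => pf_not (pf_mu hc (hR.G i g).j))
        (pf_allD fun i => pf_allD fun g => pf_allD fun τ => pf_imp (pf_not (pmt hc hR τ))
          (pf_le (pf_cardD fun r => pf_not
            (pf_Ok3 hc (hR.F τ r).j ((hR.G i g).x false) ((hR.G i g).x true)))
            (PF.const 1))))))) fun _ =>
    ⟨fun h => ⟨h.dis, h.cF, h.cG, h.sG, h.uni⟩,
      fun h => ⟨h.1, h.2.1, h.2.2.1, h.2.2.2.1, h.2.2.2.2⟩⟩

theorem pTy {j : ∀ a, Fin (c a).k} (hj : PF fun a => idx (j a)) (τ : Fin t) :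
    PF fun a => (c a).P.Ty (R a) τ (j a) :=
  pf_and (pf_iffP (pf_mu hc hj) (pmt hc hR τ)) (pToE hc (hR.F τ) hR.h hj)

theorem pTyE {j : ∀ a, Fin (c a).k} (hj : PF fun a => idx (j a)) :
    PF fun a => ∃ τ, (c a).P.Ty (R a) τ (j a) :=
  pf_exD fun τ => pTy hc hR hj τ

theorem ppeU {u v : ∀ a, Fin (c a).n} (hu : PF fun a => idx (u a)) (hv : PF fun a => idx (v a)) :
    PF fun a => (c a).P.peU (R a) (u a) (v a) :=
  pf_and (pf_not (pf_HH3 hc hu hv))
    (pf_exD fun i => pf_and (pSd hc (hR.G i) hR.h0 false hu) (pSd hc (hR.G i) hR.h0 true hv))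

theorem pinK (κ : Kl t M) {v : ∀ a, Fin (c a).n} (hv : PF fun a => idx (v a)) :
    PF fun a => (c a).P.inK (R a) κ (v a) :=
  pf_and (pf_adt hc (hR.F _ _).j ((hR.F _ _).k _) hv) (pf_adt hc (hR.F _ _).j ((hR.F _ _).k _) hv)

theorem pSk (κ : Kl t M) (s : Bool) {v : ∀ a, Fin (c a).n} (hv : PF fun a => idx (v a)) :
    PF fun a => (c a).P.Sk (R a) κ s (v a) :=
  pf_and (pSd hc (hR.F _) hR.h s hv) (pf_or (pmt hc hR _) (pinK hc hR κ hv))

theorem pXY (κ : Kl t M) :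
    PF fun a => ∀ x y, (c a).P.Sk (R a) κ false x → (c a).P.Sk (R a) κ true y →
      x ≠ y ∧ ((c a).P.mt (R a) κ.1 ∨ ¬ (c a).P.HH x y) :=
  pf_all (T := GV (bs c)) (pf_Nv hc)
    (pf_all (T := fun p : Pt (GV (bs c)) => GV (bs c) p.a) (pf_Nv (hc.comp up))
      (pf_imp (pSk (hc.comp up2) (hR.comp up2) κ false px1)
        (pf_imp (pSk (hc.comp up2) (hR.comp up2) κ true px)
          (pf_and (pf_neT px1 px) (pf_or (pmt (hc.comp up2) (hR.comp up2) _)
            (pf_not (pf_HH3 (hc.comp up2) px1 px)))))))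

variable {A : ∀ a, Finset (Fin (c a).k)} {W : ∀ a, Finset (Fin (c a).n)} (hA : PSet A)
  (hW : PSet W)

include hA hW

theorem pEK : PF fun p : Pt2 (GN (bs c)) (GN (bs c)) =>
    (c p.a.a).P.EK (A p.a.a) (W p.a.a) ((c p.a.a).P.peU (R p.a.a)) p.a.x p.x := by
  have h12 : PF fun p : Pt2 (GJ (bs c)) (GV (bs c)) =>
      (c p.a.a).P.EK (A p.a.a) (W p.a.a) ((c p.a.a).P.peU (R p.a.a)) (ag p.a.x) (vx p.x) :=
    pf_and (hA.comp up) (pf_and (pset_up (S := GJ (bs c)) hW) (pf_C3 (hc.comp up2) px1 px))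
  have h22 : PF fun p : Pt2 (GV (bs c)) (GV (bs c)) =>
      (c p.a.a).P.EK (A p.a.a) (W p.a.a) ((c p.a.a).P.peU (R p.a.a)) (vx p.a.x) (vx p.x) :=
    pf_and (hW.comp up) (pf_and (pset_up (S := GV (bs c)) hW)
      (pf_or (ppeU (hc.comp up2) (hR.comp up2) px1 px) (ppeU (hc.comp up2) (hR.comp up2) px px1)))
  exact pf_node2 (pf_bs hc) (fun a => (c a).P.EK (A a) (W a) ((c a).P.peU (R a))) (PF.const False)
    h12 (PF.const False)
    (pf_swap (fun a x y => (c a).P.EK (A a) (W a) ((c a).P.peU (R a)) (ag x) (vx y)) h12) h22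
    (PF.const False) (PF.const False) (PF.const False) (PF.const False)

theorem pAdK (d : Lb t M) :
    PF fun p : Pt (GN (bs c)) => (c p.a).P.AdK (R p.a) (A p.a) (W p.a) d p.x := by
  refine pf_node (pf_bs hc) (fun a => (c a).P.AdK (R a) (A a) (W a) d) ?_ ?_ ?_
  · rcases d with ⟨κ, i⟩ | i
    · exact pf_and hA (pf_and (PF.const (i = 2)) (pTy (hc.comp up) (hR.comp up) px κ.1))
    · exact pf_or (pf_and (PF.const (i = 0)) (pf_and hA (pf_and (pf_not (pf_mu (hc.comp up) px))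
        (pTyE (hc.comp up) (hR.comp up) px)))) (pf_and (PF.const (i = 2)) (pf_not hA))
  · rcases d with ⟨κ, i⟩ | i
    · exact pf_and hW (pf_or
        (pf_and (PF.const (i = 0)) (pSk (hc.comp up) (hR.comp up) κ false px))
        (pf_and (PF.const (i = 1)) (pSk (hc.comp up) (hR.comp up) κ true px)))
    · exact pf_or (pf_and (PF.const (i = 1)) hW) (pf_and (PF.const (i = 2)) (pf_not hW))
  · rcases d with ⟨κ, i⟩ | i
    · exact PF.const False
    · exact PF.const (i = 2)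

omit hc hR hA hW in
theorem EK_symm {J V K : Type} (P : G3 J V K) (A : Finset J) (W : Finset V) (pe : V → V → Prop)
    (x y : Nd J V) (h : P.EK A W pe x y) : P.EK A W pe y x := by
  rcases x with i | u | i <;> rcases y with j | v | j <;> try exact h
  exact ⟨h.2.1, h.1, h.2.2.symm⟩

theorem pLab (h1 : PFLabStmt) {n : γ → Lb t M → ℕ} (hn : ∀ d, PF fun a => n a d) :
    PF fun a => ∃ m, Lab ((c a).P.EK (A a) (W a) ((c a).P.peU (R a)))
      ((c a).P.AdK (R a) (A a) (W a)) (n a) m :=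
  pf_iff (h1 γ (GN (bs c)) (Lb t M) (fun a => (c a).P.EK (A a) (W a) ((c a).P.peU (R a)))
    (fun a => (c a).P.AdK (R a) (A a) (W a)) n (fun _ _ _ => 0) (fun _ => 0) (pf_NN (pf_bs hc))
    (pEK hc hR hA hW) (pAdK hc hR hA hW) hn (PF.const 0) (PF.const 0)
    (fun _ => EK_symm _ _ _ _) (fun _ _ _ => rfl) fun _ _ _ => Nat.zero_le _) fun _ => by
      simp only [Nat.zero_le, and_true]
      rfl

/-- The body of the final test for given numbers of labels. -/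
def KB {J V K : Type} [Fintype J] [Fintype V] [DecidableEq J] [DecidableEq V] (P : G3 J V K)
    (R : R3 J V K t M t' M0) (A : Finset J) (W : Finset V) (n : Lb t M → ℕ) : Prop :=
  (∀ κ, n (Sum.inl (κ, 0)) = n (Sum.inl (κ, 1)) ∧ n (Sum.inl (κ, 0)) = n (Sum.inl (κ, 2)) ∧
      (n (Sum.inl (κ, 0)) ≠ 0 → ∀ x y, P.Sk R κ false x → P.Sk R κ true y →
        x ≠ y ∧ (P.mt R κ.1 ∨ ¬ P.HH x y))) ∧
    A.card + (∑ κ, n (Sum.inl (κ, 0))) + n (Sum.inr 0) + n (Sum.inr 1) ≤ W.card ∧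
    ∃ m, Lab (P.EK A W (P.peU R)) (P.AdK R A W) n m

theorem pKB (h1 : PFLabStmt) {n : γ → Lb t M → ℕ} (hn : ∀ d, PF fun a => n a d) :
    PF fun a => KB (c a).P (R a) (A a) (W a) (n a) :=
  pf_and (pf_allD fun κ => pf_and (pf_eq (hn _) (hn _)) (pf_and (pf_eq (hn _) (hn _))
    (pf_imp (pf_ne (hn _) (PF.const 0)) (pXY hc hR κ))))
    (pf_and (pf_le ((((pf_card (pf_Nj hc) hA).add (pf_sumD (fun _ => hn _) univ)).add (hn _)).add
      (hn _)) (pf_card (pf_Nv hc) hW)) (pLab hc hR hA hW h1 hn))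

theorem pKTest (h1 : PFLabStmt) : PF fun a => (c a).P.KTest (R a) (A a) (W a) := by
  refine pf_iff (pf_exFun (D := Lb t M) (B := fun a => Num.N (GN (bs c) a))
    (q := fun a n => KB (c a).P (R a) (A a) (W a) n) (pf_NN (pf_bs hc))
    fun δ _ g n hg hn => ?_) fun a => ⟨fun ⟨n, h⟩ => ⟨n, fun d => ?_, h⟩, fun ⟨n, _, h⟩ => ⟨n, h⟩⟩
  · exact pKB (c := fun d => c (g d)) (hc.comp hg) (hR.comp hg) (pset_comp hA hg)
      (pset_comp hW hg) h1 hn
  · obtain ⟨m, -, lab, -, -, k⟩ := h.2.2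
    rw [← k d, ← card_eq_N]
    exact card_le_univ _

theorem pSR : PSub (bs c) fun a => (c a).P.SR (R a) (A a) (W a) :=
  ⟨hA, hW, pTyE (hc.comp up) (hR.comp up) px, pf_C3 (hc.comp up2) px1 px, PF.const False⟩

end Cons

section Final

/-- The body of the test for given families and sets. -/
def RB {J V K : Type} [Fintype J] [Fintype V] [DecidableEq J] [DecidableEq V] (P : G3 J V K)
    (rk : J → ℕ) (e c : ℕ) {t M t' M0 : ℕ} (R : R3 J V K t M t' M0) (Φ : Finset (J × V × V × V))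
    (U : Finset J) : Prop :=
  P.RGood R ∧ P.PhiOk Φ ∧ Disjoint (ag3 Φ) (fa R.mem) ∧ Disjoint (it3 Φ) (fi R.mem) ∧
    P.KTest R (univ \ (fa R.mem ∪ ag3 Φ)) (univ \ (fi R.mem ∪ it3 Φ)) ∧
    (univ \ (fa R.mem ∪ ag3 Φ) ⊆ U ∨
      P.TestSL rk (P.SR R (univ \ (fa R.mem ∪ ag3 Φ ∪ U)) (univ \ (fi R.mem ∪ it3 Φ))) e c)

variable {t M t' M0 : ℕ}

theorem pRB (h1 : PFLabStmt) (h2 : PFSLS) (e c0 : ℕ) (hc : PF c)
    {R : ∀ a, R3 (Fin (c a).k) (Fin (c a).n) (Fin (c a).m) t M t' M0} (hR : PG c R)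
    {Φ : ∀ a, Finset (Fin (c a).k × Fin (c a).n × Fin (c a).n × Fin (c a).n)} (hΦ : PSet Φ)
    {U : ∀ a, Finset (Fin (c a).k)} (hU : PSet U) :
    PF fun a => RB (c a).P Fin.val e c0 (R a) (Φ a) (U a) := by
  have k1 := pfa hR.mem
  have k2 := pfi hR.mem
  have k3 : PSet fun a => ag3 (Φ a) := pset_ag3 (pf_bs hc) hΦ
  have k4 : PSet fun a => it3 (Φ a) := pset_it3 (pf_bs hc) hΦ
  have hA := pset_sdiff pset_univ (pset_union k1 k3)
  have hA' := pset_sdiff pset_univ (pset_union (pset_union k1 k3) hU)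
  have hW := pset_sdiff pset_univ (pset_union k2 k4)
  exact pf_and (pRGood hc hR) (pf_and (pf_PhiOk3 hc hΦ) (pf_and (pf_disjoint (pf_Nj hc) k3 k1)
    (pf_and (pf_disjoint (pf_Nv hc) k4 k2) (pf_and (pKTest hc hR hA hW h1)
      (pf_or (pf_subset (pf_Nj hc) hA hU)
        (h2 e γ c _ (fun _ => c0) hc (pSR hc hR hA' hW) (PF.const c0)).1)))))

theorem RTest_iff {J V K : Type} [Fintype J] [Fintype V] [DecidableEq J] [DecidableEq V]
    (P : G3 J V K) (rk : J → ℕ) (e c t0 c1 L : ℕ) : P.RTest rk e c t0 c1 L ↔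
    ∃ t, t < t0 ∧ ∃ t', t' < t0 ∧ ∃ h, h < L ∧ ∃ h0, h0 < L ∧
      ∃ F : Fin t → Fin (30 * h + c1) → M3 J V K, ∃ G : Fin t' → Fin (30 * h0 + c1) → M3 J V K,
      ∃ Φ : Finset (J × V × V × V), Φ.card ≤ L ∧ ∃ U : Finset J, U.card ≤ c ∧
        RB P rk e c ⟨F, G, h, h0⟩ Φ U := by
  refine exists_congr fun t => and_congr_right fun _ => exists_congr fun t' =>
    and_congr_right fun _ => exists_congr fun h => and_congr_right fun _ =>
    exists_congr fun h0 => and_congr_right fun _ => exists_congr fun F => exists_congr fun G =>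
    exists_congr fun Φ => ⟨?_, ?_⟩
  · rintro ⟨U, k1, k2, k3, k4⟩
    exact ⟨k2, U, k3, k1, k4⟩
  · rintro ⟨k2, U, k3, k1, k4⟩
    exact ⟨U, k1, k2, k3, k4⟩

theorem pNF (hc : PF c) (t M : ℕ) : PF fun a => Num.N (Fin t → Fin M → GM c a) :=
  pf_Nfun _ (pf_Nfun _ (pNM hc))

theorem pm_fam (hc : PF c) {F : ∀ a, Fin t → Fin M → GM c a} (hF : PF fun a => idx (F a))
    (τ : Fin t) (r : Fin M) : PM c fun a => F a τ r :=
  pm_of hc (pf_app (pNM hc) (pf_app (pf_Nfun _ (pNM hc)) hF τ) r)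

end Final

end Pool.Agent.Lib.MP_ef7581_lc.D3.EPR

namespace Pool.Agent.Lib.MP_ef7581_lc.D3

open Pool.Agent.Shared.PolyTime Finset D2 D2.DP0 D3.EP0 D3.EPR

theorem pfRS (h1 : PFLabStmt) (h2 : PFSLS) : PFRS := by
  intro e c t0 c1 L
  refine pf_iff ?_ fun a => RTest_iff a.P Fin.val e c t0 c1 L
  refine pf_exC _ fun t => pf_exC _ fun t' => pf_exC _ fun h => pf_exC _ fun h0 => ?_
  refine pf_exG (pNF (c := fun a : C3 => a) PF.id' _ _) fun δ1 _ g1 F hg1 hF => ?_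
  refine pf_exG (pNF (c := g1) hg1 _ _) fun δ2 _ g2 G hg2 hG => ?_
  have k2 := hg1.comp hg2
  refine pf_exSet L (pf_N3 (pf_bs (c := fun d => g1 (g2 d)) k2)) fun δ3 _ g3 Φ hg3 hΦ => ?_
  have k3 := k2.comp hg3
  refine pf_exSet c (pf_Nj (c := fun d => g1 (g2 (g3 d))) k3) fun δ4 _ g4 U hg4 hU => ?_
  exact pRB (c := fun d => g1 (g2 (g3 (g4 d)))) h1 h2 e c (k3.comp hg4)
    (R := fun d => ⟨F (g2 (g3 (g4 d))), G (g3 (g4 d)), h, h0⟩)
    ⟨fun τ r => (pm_fam hg1 hF τ r).comp (hg2.comp (hg3.comp hg4)),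
      fun τ r => (pm_fam k2 hG τ r).comp (hg3.comp hg4), PF.const h, PF.const h0⟩
    (pset_comp hΦ hg4) hU

end Pool.Agent.Lib.MP_ef7581_lc.D3
end
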