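import Pool.Agent.Lib.MP_ef7581_lc.EGeo
import Pool.Agent.Lib.MP_ef7581_lc.EPR
import Pool.Agent.Lib.MP_ef7581_lc.DRed
import Mathlib

-- part Pool.Agent.Lib.MP_ef7581_lc.ERed
section

/-!
Reduction of Disjoint Connected Subgraphs on (2P1+P2)-free graphs to the abstract problem;
the decider.
-/

set_option autoImplicit false
set_option linter.unusedSectionVars false

namespace Pool.Agent.Lib.MP_ef7581_lc.D3

open Pool.Agent.Shared.PolyTime Finset SimpleGraph D2 D2.DRed D2.DP0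

namespace ERed

/-! ### Walks inside a set -/

section Walks

variable {W : Type} {G : SimpleGraph W} {X Y : W → Prop} {a b c : W}

/-- Joined by a walk inside `X`. -/
def Wk (G : SimpleGraph W) (X : W → Prop) (a b : W) : Prop :=
  ∃ w : G.Walk a b, ∀ v ∈ w.support, X v

theorem Wk.refl (h : X a) : Wk G X a a :=
  ⟨Walk.nil, fun v hv => (show v = a by simpa using hv) ▸ h⟩

theorem Wk.left (h : Wk G X a b) : X a := h.elim fun w hw => hw _ w.start_mem_support

theorem Wk.right (h : Wk G X a b) : X b := h.elim fun w hw => hw _ w.end_mem_support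

theorem Wk.symm (h : Wk G X a b) : Wk G X b a :=
  h.elim fun w hw => ⟨w.reverse, fun v hv => hw v (by simpa using hv)⟩

theorem Wk.trans (h : Wk G X a b) (h' : Wk G X b c) : Wk G X a c := by
  obtain ⟨w, hw⟩ := h
  obtain ⟨w', hw'⟩ := h'
  exact ⟨w.append w', fun v hv => ((Walk.mem_support_append_iff _ _).1 hv).elim (hw v) (hw' v)⟩

theorem Wk.mono (h : Wk G X a b) (m : ∀ v, X v → Y v) : Wk G Y a b :=
  h.elim fun w hw => ⟨w, fun v hv => m v (hw v hv)⟩

theorem Wk.of_st (ha : X a) (hb : X b) (h : st G a b) : Wk G X a b :=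
  walk_of_short ha hb ha ha ha (.inl rfl) (.inl rfl) (.inl rfl) h

theorem wk_iff (hG : NoDia G) : Wk G X a b ↔ X a ∧ X b ∧ L4 G X a b :=
  ⟨fun h => ⟨h.left, h.right, h.elim fun w hw => l4_of_walk hG w hw⟩,
    fun ⟨ha, hb, _, _, _, hx, hy, hz, s1, s2, s3, s4⟩ => walk_of_short ha hb hx hy hz s1 s2 s3 s4⟩

theorem Wk.ind {T : W → Prop} (h : Wk G X a b) (h0 : T b)
    (hs : ∀ u v, X u → X v → G.Adj u v → T v → T u) : T a := by
  obtain ⟨w, hw⟩ := h
  induction w with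
  | nil => exact h0
  | @cons a c b h w ih =>
    exact hs a c (hw a (by simp)) (hw c (by simp)) h (ih h0 fun v hv => hw v (by simp [hv]))

/-- A walk that leaves a set has a leaving edge. -/
theorem Wk.exit {A : W → Prop} (h : Wk G X a b) (ha : A a) (hb : ¬ A b) :
    ∃ v v', A v ∧ ¬ A v' ∧ X v' ∧ G.Adj v v' := by
  by_contra hn
  exact h.ind (T := fun v => ¬ A v) hb (fun u v _ hv e hv' hu => hn ⟨u, v, hu, hv', hv, e⟩) ha

/-- A walk from `A` to `B` has a part whose inner vertices lie outside both. -/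
theorem Wk.bridge {A B : W → Prop} (h : Wk G X a b) (ha : A a) (hb : B b)
    (hAB : ∀ v, A v → ¬ B v) :
    ∃ v v', A v ∧ B v' ∧ Wk G (fun w => w = v ∨ w = v' ∨ (X w ∧ ¬ A w ∧ ¬ B w)) v v' := by
  by_contra hn
  refine (h.ind (T := fun u => ¬ A u ∧ ∃ v', B v' ∧
    Wk G (fun w => w = v' ∨ (X w ∧ ¬ A w ∧ ¬ B w)) u v')
    ⟨fun h => hAB _ h hb, b, hb, Wk.refl (.inl rfl)⟩ ?_).1 ha
  rintro u v hu - e ⟨-, v', hv', hw⟩
  by_cases h1 : A u
  · refine (hn ⟨u, v', h1, hv', Wk.trans ?_ (hw.mono fun w => Or.inr)⟩).elim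
    exact Wk.of_st (.inl rfl) (.inr hw.left) (.inr e)
  by_cases h2 : B u
  · exact ⟨h1, u, h2, Wk.refl (.inl rfl)⟩
  · exact ⟨h1, v', hv', Wk.trans (Wk.of_st (Or.inr ⟨hu, h1, h2⟩) hw.left (.inr e)) hw⟩

theorem wk_of_connected {S : Set W} (h : (G.induce S).Connected) (ha : a ∈ S) (hb : b ∈ S) :
    Wk G (· ∈ S) a b := by
  obtain ⟨w⟩ := h.preconnected ⟨a, ha⟩ ⟨b, hb⟩
  refine ⟨w.map (Embedding.induce S).toHom, fun v hv => ?_⟩
  obtain ⟨u, -, rfl⟩ := List.mem_map.1 (Walk.support_map _ w ▸ hv)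
  exact u.2

theorem connected_of_wk {S : Set W} (hne : S.Nonempty)
    (h : ∀ a ∈ S, ∀ b ∈ S, Wk G (· ∈ S) a b) : (G.induce S).Connected := by
  have : Nonempty S := hne.to_subtype
  refine ⟨fun a b => ?_⟩
  obtain ⟨w, hw⟩ := h a.1 a.2 b.1 b.2
  exact ⟨w.induce S hw⟩

end Walks

/-! ### The abstract problem of an instance -/

abbrev I3 : Type := InstC twoP1P2

/-- Same component of the subgraph induced by a terminal set. -/
def cn (I : I3) (i : Fin I.k) (a b : Fin I.n) : Prop := Wk I.G (· ∈ I.Z i) a b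

/-- The least vertex of a component. -/
def rep (I : I3) (i : Fin I.k) (k : Fin I.n) : Prop := k ∈ I.Z i ∧ ∀ v, cn I i k v → k.val ≤ v.val

/-- A neighbour of the component of `k`. -/
def nb (I : I3) (i : Fin I.k) (k v : Fin I.n) : Prop := ∃ w, cn I i k w ∧ I.G.Adj w v

/-- Disconnected terminal sets. -/
def qJ (I : I3) (i : Fin I.k) : Prop := ∃ k k', rep I i k ∧ rep I i k' ∧ k ≠ k'

/-- Non-terminals. -/
def qV (I : I3) (v : Fin I.n) : Prop := ∀ i, v ∉ I.Z i

theorem rep_uniq {I : I3} {i : Fin I.k} {k k' : Fin I.n} (h : rep I i k) (h' : rep I i k')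
    (c : cn I i k k') : k = k' := Fin.ext (le_antisymm (h.2 _ c) (h'.2 _ (Wk.symm c)))

theorem exists_rep {I : I3} {i : Fin I.k} {z : Fin I.n} (hz : z ∈ I.Z i) :
    ∃ k, rep I i k ∧ cn I i k z := by
  classical
  obtain ⟨k, hk, hm⟩ := exists_min_image (univ.filter fun k => cn I i k z) Fin.val
    ⟨z, mem_filter.2 ⟨mem_univ _, Wk.refl hz⟩⟩
  have c := (mem_filter.1 hk).2
  exact ⟨k, ⟨Wk.left c, fun v hv => hm v (mem_filter.2 ⟨mem_univ _, (Wk.symm hv).trans c⟩)⟩, c⟩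

theorem Z_uniq {I : I3} {i i' : Fin I.k} {v : Fin I.n} (h : v ∈ I.Z i) (h' : v ∈ I.Z i') :
    i = i' := by
  by_contra hn
  exact Finset.disjoint_left.1 (I.disjoint i i' hn) h h'

/-- Enumerations of the disconnected terminal sets and of the non-terminals. -/
structure Enum (I : I3) (J V : Type) where
  ι : J → Fin I.k
  κ : V → Fin I.n
  β : J → Bool → Fin I.n
  ι_inj : Function.Injective ι
  κ_inj : Function.Injective κ
  ι_range : ∀ i, (∃ j, ι j = i) ↔ qJ I i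
  κ_range : ∀ v, (∃ u, κ u = v) ↔ qV I v
  β_rep : ∀ j o, rep I (ι j) (β j o)
  β_ne : ∀ j, β j false ≠ β j true

namespace Enum

variable {I : I3} {J V : Type} (e : Enum I J V)

theorem nonterm (u : V) (i : Fin I.k) : e.κ u ∉ I.Z i := (e.κ_range _).1 ⟨u, rfl⟩ i

/-- The vertices of an item or a terminal. -/
def mem : V ⊕ J × Fin I.n → Fin I.n → Prop
  | Sum.inl x, v => v = e.κ x
  | Sum.inr (j, k), v => rep I (e.ι j) k ∧ cn I (e.ι j) k v

theorem mem_uniq : ∀ u u' v, e.mem u v → e.mem u' v → u = u'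
  | Sum.inl _, Sum.inl _, _, h, h' => congrArg _ (e.κ_inj (h.symm.trans h'))
  | Sum.inl x, Sum.inr _, _, h, h' => (e.nonterm x _ (h ▸ Wk.right h'.2)).elim
  | Sum.inr _, Sum.inl x, _, h, h' => (e.nonterm x _ (h' ▸ Wk.right h.2)).elim
  | Sum.inr (j, k), Sum.inr (j', k'), _, h, h' => by
    obtain rfl : j = j' := e.ι_inj (Z_uniq (Wk.right h.2) (Wk.right h'.2))
    rw [rep_uniq h.1 h'.1 (Wk.trans h.2 (Wk.symm h'.2))]

/-- No edge between the vertex sets. -/
def H (u u' : V ⊕ J × Fin I.n) : Prop :=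
  (∃ v, e.mem u v) ∧ (∃ v, e.mem u' v) ∧ ∀ v v', e.mem u v → e.mem u' v' → ¬ st I.G v v'

theorem H_rep {j : J} {k k' : Fin I.n} (h : rep I (e.ι j) k) (h' : rep I (e.ι j) k')
    (hne : k ≠ k') : e.H (Sum.inr (j, k)) (Sum.inr (j, k')) :=
  ⟨⟨k, h, Wk.refl h.1⟩, ⟨k', h', Wk.refl h'.1⟩, fun _ _ a b s => hne (rep_uniq h h'
    (Wk.trans a.2 ((Wk.of_st (Wk.right a.2) (Wk.right b.2) s).trans (Wk.symm b.2))))⟩

theorem rep_of_H {j : J} {k : Fin I.n} {u : V ⊕ J × Fin I.n} (h : e.H (Sum.inr (j, k)) u) :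
    rep I (e.ι j) k := h.1.elim fun _ a => a.1

/-- The complement graph on items and components. -/
def geo : G3 J V (Fin I.n) where
  H := e.H
  b := e.β
  symm _ _ h := ⟨h.2.1, h.1, fun _ _ a b s => h.2.2 _ _ b a s.symm⟩
  irrefl _ h := h.1.elim fun v a => h.2.2 v v a a (.inl rfl)
  dia _ _ x y h1 h2 h3 h4 h5 hxy := by
    refine ⟨h2.2.1, h4.2.1, fun a b ha hb s => ?_⟩
    obtain ⟨⟨c, hc⟩, ⟨d, hd⟩, h⟩ := h1
    exact h c d hc hd (noDia_of_free I.free a b c d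
      (s.resolve_left fun q => hxy (e.mem_uniq x y a ha (q ▸ hb))) (h2.2.2 _ _ hc ha)
      (h4.2.2 _ _ hc hb) (h3.2.2 _ _ hd ha) (h5.2.2 _ _ hd hb))
  st j := e.H_rep (e.β_rep j false) (e.β_rep j true) (e.β_ne j)
  iso j k _ h o := (em (k = e.β j o)).imp_right (e.H_rep (e.rep_of_H h) (e.β_rep j o))

theorem adt_iff {j : J} {k : Fin I.n} {x : V} :
    e.geo.adt j k x ↔ rep I (e.ι j) k ∧ ¬ nb I (e.ι j) k (e.κ x) := by
  refine ⟨fun h => ⟨e.rep_of_H h, fun ⟨w, a, b⟩ => h.2.2 w _ ⟨e.rep_of_H h, a⟩ rfl (.inr b)⟩,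
    fun h => ⟨⟨k, h.1, Wk.refl h.1.1⟩, ⟨_, rfl⟩, ?_⟩⟩
  rintro v _ a rfl (s | s)
  · exact e.nonterm x _ (s ▸ Wk.right a.2)
  · exact h.2 ⟨v, a.2, s⟩

theorem not_adt {j : J} {k : Fin I.n} {x : V} (h : nb I (e.ι j) k (e.κ x)) :
    ¬ e.geo.adt j k x := fun a => (e.adt_iff.1 a).2 h

theorem nb_of {j : J} {k : Fin I.n} {x : V} (hk : rep I (e.ι j) k) (h : ¬ e.geo.adt j k x) :
    nb I (e.ι j) k (e.κ x) := by
  by_contra hn
  exact h (e.adt_iff.2 ⟨hk, hn⟩)

theorem adj_iff {j : J} {o : Bool} {x : V} :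
    e.geo.base.adj j o x ↔ ¬ nb I (e.ι j) (e.β j o) (e.κ x) :=
  (e.adt_iff (k := e.β j o)).trans (and_iff_right (e.β_rep j o))

theorem HH_iff {x y : V} : e.geo.base.HH x y ↔ ¬ st I.G (e.κ x) (e.κ y) :=
  ⟨fun h => h.2.2 _ _ rfl rfl, fun h => ⟨⟨_, rfl⟩, ⟨_, rfl⟩, by rintro _ _ rfl rfl; exact h⟩⟩

theorem not_HH {x y : V} : ¬ e.geo.base.HH x y ↔ st I.G (e.κ x) (e.κ y) := by
  rw [HH_iff, not_not]

theorem mu_iff {j : J} :
    e.geo.mu j ↔ ∃ k, rep I (e.ι j) k ∧ k ≠ e.β j false ∧ k ≠ e.β j true :=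
  ⟨fun ⟨k, a, b⟩ => ⟨k, e.rep_of_H a, fun q => e.geo.irrefl _ (q ▸ a),
      fun q => e.geo.irrefl _ (q ▸ b)⟩,
    fun ⟨k, a, b, c⟩ => ⟨k, e.H_rep a (e.β_rep j false) b, e.H_rep a (e.β_rep j true) c⟩⟩

theorem strict_rep {j : J} (hs : ¬ e.geo.mu j) {k : Fin I.n} (hk : rep I (e.ι j) k) :
    k = e.β j false ∨ k = e.β j true := by
  by_contra hn
  exact hs (e.mu_iff.2 ⟨k, hk, fun h => hn (.inl h), fun h => hn (.inr h)⟩)

variable [Fintype J] [Fintype V] [DecidableEq J] [DecidableEq V]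

/-- A connected set that contains the terminals of an agent and otherwise items serves it. -/
theorem serv_of_wk {j : J} {s : Finset V} {X : Fin I.n → Prop}
    (hZ : ∀ v ∈ I.Z (e.ι j), X v) (hX : ∀ v, X v → v ∈ I.Z (e.ι j) ∨ ∃ u ∈ s, e.κ u = v)
    (hc : ∀ a b, X a → X b → Wk I.G X a b) : e.geo.Serv3 (e.geo.pl univ univ) j s := by
  have hnb : ∀ k, rep I (e.ι j) k → ∃ u ∈ s, nb I (e.ι j) k (e.κ u) := fun k hk => by
    obtain ⟨o, ho⟩ : ∃ o, k ≠ e.β j o := by
      by_cases h : k = e.β j false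
      · exact ⟨true, h ▸ e.β_ne j⟩
      · exact ⟨false, h⟩
    obtain ⟨v, v', a, b, c, d⟩ := (hc k _ (hZ _ hk.1) (hZ _ (e.β_rep j o).1)).exit
      (A := cn I (e.ι j) k) (Wk.refl hk.1) fun q => ho (rep_uniq hk (e.β_rep j o) q)
    rcases hX v' c with h | ⟨u, hu, rfl⟩
    · exact (b (Wk.trans a (Wk.of_st (Wk.right a) h (.inr d)))).elim
    · exact ⟨u, hu, v, a, d⟩
  by_cases hs : e.geo.mu j
  · obtain ⟨a, ha, na⟩ := hnb _ (e.β_rep j false)
    rcases G3.label (P := e.geo) j a with h | h | ⟨k, h⟩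
    · exact .inl (.inl ⟨a, ha, h⟩)
    · exact (e.adj_iff.1 h.1 na).elim
    · obtain ⟨b, hb, nb'⟩ := hnb k (e.adt_iff.1 h.1).1
      exact .inl (.inr ⟨trivial, a, ha, b, hb, G3.Pr_of_colk h (e.not_adt nb') (.inl hs)⟩)
  have dis : ∀ v, cn I (e.ι j) (e.β j false) v → ¬ cn I (e.ι j) (e.β j true) v := fun v a b =>
    e.β_ne j (rep_uniq (e.β_rep j false) (e.β_rep j true) (Wk.trans a (Wk.symm b)))
  obtain ⟨v, v', hv, hv', hw⟩ := (hc _ _ (hZ _ (e.β_rep j false).1) (hZ _ (e.β_rep j true).1)).bridge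
    (Wk.refl (e.β_rep j false).1) (Wk.refl (e.β_rep j true).1) dis
  have nst : ¬ st I.G v v' := fun q =>
    dis v' (Wk.trans hv (Wk.of_st (Wk.right hv) (Wk.right hv') q)) hv'
  obtain ⟨x, y, z, hx, hy, hz, s1, s2, s3, s4, n1, n2⟩ :=
    short_of_l4 nst ((wk_iff (noDia_of_free I.free)).1 hw).2.2
  have inner : ∀ w, (w = v ∨ w = v' ∨ (X w ∧ ¬ cn I (e.ι j) (e.β j false) w ∧
      ¬ cn I (e.ι j) (e.β j true) w)) → w ≠ v → w ≠ v' → ∃ u ∈ s, e.κ u = w := by
    rintro w (h | h | ⟨h1, h2, h3⟩) a b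
    · exact (a h).elim
    · exact (b h).elim
    refine (hX w h1).resolve_left fun q => ?_
    obtain ⟨k, hk, c⟩ := exists_rep q
    rcases e.strict_rep hs hk with rfl | rfl
    · exact h2 c
    · exact h3 c
  obtain ⟨a, ha, rfl⟩ := inner x hx s1.ne' fun h => nst (.inr (h ▸ s1))
  obtain ⟨m, hm, rfl⟩ := inner y hy n1 n2
  obtain ⟨b, hb, rfl⟩ := inner z hz (fun h => nst (.inr (h ▸ s4))) s4.ne
  have c1 : ¬ e.geo.base.adj j false a := fun h => e.adj_iff.1 h ⟨v, hv, s1⟩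
  have c2 : ¬ e.geo.base.adj j (!false) b := fun h => e.adj_iff.1 h ⟨v', hv', s4.symm⟩
  by_cases k1 : a = m
  · subst k1
    by_cases k2 : a = b
    · subst k2
      exact .inl (.inl ⟨a, ha, (G3.C_iff hs).2 ⟨c1, c2⟩⟩)
    · exact .inl (.inr ⟨trivial, a, ha, b, hb,
        G3.Pr_of_base hs ⟨k2, e.not_HH.2 s3, false, c1, c2⟩⟩)
  by_cases k2 : m = b
  · subst k2
    exact .inl (.inr ⟨trivial, a, ha, m, hm, G3.Pr_of_base hs ⟨k1, e.not_HH.2 s2, false, c1, c2⟩⟩)
  · exact .inr ⟨trivial, a, ha, m, hm, b, hb, hs, k1, k2, e.not_HH.2 s2, e.not_HH.2 s3,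
      false, c1, c2⟩

theorem feas_of_yes (h : I.Yes) : e.geo.Feas := by
  classical
  obtain ⟨S, hd, hS⟩ := h
  have hd' : ∀ i j : J, i ≠ j → Disjoint (univ.filter fun u => e.κ u ∈ S (e.ι i))
      (univ.filter fun u => e.κ u ∈ S (e.ι j)) := fun i j hij => by
    rw [Finset.disjoint_left]
    intro u h1 h2
    exact Set.disjoint_left.1 (hd _ _ (e.ι_inj.ne hij)) (mem_filter.1 h1).2 (mem_filter.1 h2).2
  refine ⟨fun j => univ.filter fun u => e.κ u ∈ S (e.ι j),
    ⟨subset_rfl, fun _ _ => subset_univ _, fun j _ => ?_, fun i _ j _ => hd' i j,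
      fun _ _ h => h.elim⟩, ?_⟩
  · refine e.serv_of_wk (X := (· ∈ S (e.ι j))) (fun v hv => (hS _).1 hv) (fun v hv => ?_)
      fun a b ha hb => wk_of_connected (hS _).2 ha hb
    refine (em _).imp_right fun hn => ?_
    obtain ⟨u, rfl⟩ := (e.κ_range v).2 fun i hi => by
      by_cases q : e.ι j = i
      · exact hn (q ▸ hi)
      · exact Set.disjoint_left.1 (hd _ _ q) hv ((hS i).1 hi)
    exact ⟨u, mem_filter.2 ⟨mem_univ _, hv⟩, rfl⟩
  · change ∑ j ∈ univ, _ ≤ #(univ : Finset V)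
    rw [← card_biUnion fun i _ j _ => hd' i j]
    exact card_le_card (subset_univ _)

/-- The terminal set together with some items. -/
def ext (i : Fin I.k) (T : V → Prop) (v : Fin I.n) : Prop := v ∈ I.Z i ∨ ∃ u, T u ∧ e.κ u = v

theorem wk_of_nb {i : Fin I.k} {T : V → Prop} {k : Fin I.n} {x : V} (hx : T x)
    (h : nb I i k (e.κ x)) : Wk I.G (e.ext i T) k (e.κ x) := by
  obtain ⟨w, a, b⟩ := h
  exact (Wk.mono a fun _ => Or.inl).trans
    (Wk.of_st (.inl (Wk.right a)) (.inr ⟨x, hx, rfl⟩) (.inr b))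

theorem conn_of_hub {i : Fin I.k} {T : V → Prop} {h : V}
    (h1 : ∀ k, rep I i k → ∃ x, T x ∧ nb I i k (e.κ x))
    (h2 : ∀ x, T x → Wk I.G (e.ext i T) (e.κ x) (e.κ h)) :
    ∀ a b, e.ext i T a → e.ext i T b → Wk I.G (e.ext i T) a b := by
  have key : ∀ a, e.ext i T a → Wk I.G (e.ext i T) a (e.κ h) := by
    rintro a (ha | ⟨u, hu, rfl⟩)
    · obtain ⟨k, hk, c⟩ := exists_rep ha
      obtain ⟨x, hx, n⟩ := h1 k hk
      exact (Wk.mono (Wk.symm c) fun _ => Or.inl).trans ((e.wk_of_nb hx n).trans (h2 x hx))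
    · exact h2 u hu
  exact fun a b ha hb => (key a ha).trans (key b hb).symm

/-- A service contains items that connect the terminals. -/
theorem wk_of_serv {j : J} {s : Finset V} (h : e.geo.Serv3 (e.geo.pl univ univ) j s) :
    ∃ T : V → Prop, (∀ u, T u → u ∈ s) ∧
      ∀ a b, e.ext (e.ι j) T a → e.ext (e.ι j) T b → Wk I.G (e.ext (e.ι j) T) a b := by
  have one : ∀ v ∈ s, e.geo.C j v → ∃ T : V → Prop, (∀ u, T u → u ∈ s) ∧
      ∀ a b, e.ext (e.ι j) T a → e.ext (e.ι j) T b → Wk I.G (e.ext (e.ι j) T) a b :=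
    fun v hv c => ⟨(· = v), fun u hu => hu ▸ hv, e.conn_of_hub (h := v)
      (fun k hk => ⟨v, rfl, e.nb_of hk (c k)⟩) (by rintro x rfl; exact Wk.refl (.inr ⟨x, rfl, rfl⟩))⟩
  rcases h with (⟨v, hv, c⟩ | ⟨-, a, ha, b, hb, p⟩) | ⟨-, a, ha, z, hz, b, hb, hs, -, -, p, q, o, r, t⟩
  · exact one v hv c
  · by_cases ca : e.geo.C j a
    · exact one a ha ca
    by_cases cb : e.geo.C j b
    · exact one b hb cb
    obtain ⟨k, k', hne, c, c'⟩ := G3.colk_of_Pr p ca cb
    refine ⟨fun u => u = a ∨ u = b, by rintro u (rfl | rfl) <;> assumption,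
      e.conn_of_hub (h := b) (fun l hl => ?_) ?_⟩
    · by_cases q : e.geo.adt j l a
      · exact ⟨b, .inr rfl, e.nb_of hl fun q' => p.2.2 l ⟨q, q'⟩⟩
      · exact ⟨a, .inl rfl, e.nb_of hl q⟩
    rintro x (rfl | rfl)
    · rcases p.2.1 with m | m
      · obtain ⟨l, hl, n1, n2⟩ : ∃ l, rep I (e.ι j) l ∧ l ≠ k ∧ l ≠ k' := by
          obtain ⟨l, hl, n1, n2⟩ := e.mu_iff.1 m
          have n3 := e.β_ne j
          by_contra hn
          have w : ∀ l, rep I (e.ι j) l → l = k ∨ l = k' := fun l hl => by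
            by_contra q
            exact hn ⟨l, hl, fun a => q (.inl a), fun a => q (.inr a)⟩
          rcases w l hl with a | a <;> rcases w _ (e.β_rep j false) with b | b <;>
            rcases w _ (e.β_rep j true) with c | c <;> simp_all
        exact (e.wk_of_nb (.inl rfl) (e.nb_of hl fun q => n1 (G3.colk_unique c q))).symm.trans
          (e.wk_of_nb (.inr rfl) (e.nb_of hl fun q => n2 (G3.colk_unique c' q)))
      · exact Wk.of_st (.inr ⟨x, .inl rfl, rfl⟩) (.inr ⟨b, .inr rfl, rfl⟩) (e.not_HH.1 m)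
    · exact Wk.refl (.inr ⟨x, .inr rfl, rfl⟩)
  · refine ⟨fun u => u = a ∨ u = z ∨ u = b, by rintro u (rfl | rfl | rfl) <;> assumption,
      e.conn_of_hub (h := z) (fun l hl => ?_) ?_⟩
    · have na := not_not.1 (mt e.adj_iff.2 r)
      have nb' := not_not.1 (mt e.adj_iff.2 t)
      rcases e.strict_rep hs hl with rfl | rfl <;> cases o
      · exact ⟨a, .inl rfl, na⟩
      · exact ⟨b, .inr (.inr rfl), nb'⟩
      · exact ⟨b, .inr (.inr rfl), nb'⟩
      · exact ⟨a, .inl rfl, na⟩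
    have hz' : e.ext (e.ι j) (fun u => u = a ∨ u = z ∨ u = b) (e.κ z) :=
      .inr ⟨z, .inr (.inl rfl), rfl⟩
    intro x hx
    refine Wk.of_st (.inr ⟨x, hx, rfl⟩) hz' ?_
    rcases hx with rfl | rfl | rfl
    · exact e.not_HH.1 p
    · exact .inl rfl
    · exact (e.not_HH.1 q).symm

theorem yes_of_feas (h : e.geo.Feas) : I.Yes := by
  obtain ⟨f, hf, -⟩ := h
  have : ∀ i, ∃ T : V → Prop, (∀ u, T u → ∃ j, e.ι j = i ∧ u ∈ f j) ∧
      ∀ a b, e.ext i T a → e.ext i T b → Wk I.G (e.ext i T) a b := fun i => by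
    by_cases hi : qJ I i
    · obtain ⟨j, rfl⟩ := (e.ι_range i).2 hi
      obtain ⟨T, h1, h2⟩ := e.wk_of_serv (hf.srv j (mem_univ _))
      exact ⟨T, fun u hu => ⟨j, rfl, h1 u hu⟩, h2⟩
    · refine ⟨fun _ => False, fun _ h => h.elim, ?_⟩
      rintro a b (ha | ⟨_, h, -⟩) (hb | ⟨_, h', -⟩)
      · obtain ⟨k, hk, c⟩ := exists_rep ha
        obtain ⟨k', hk', c'⟩ := exists_rep hb
        obtain rfl : k = k' := by
          by_contra hn
          exact hi ⟨k, k', hk, hk', hn⟩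
        exact (Wk.trans (Wk.symm c) c').mono fun _ => Or.inl
      · exact h'.elim
      · exact h.elim
      · exact h.elim
  choose T h1 h2 using this
  refine ⟨fun i => {v | e.ext i (T i) v}, fun i i' hne => Set.disjoint_left.2 ?_,
    fun i => ⟨fun v hv => Or.inl hv, connected_of_wk ?_ fun a ha b hb => h2 i a b ha hb⟩⟩
  · rintro v (a | ⟨u, a, rfl⟩) (b | ⟨u', b, q⟩)
    · exact hne (Z_uniq a b)
    · exact e.nonterm u' i (q ▸ a)
    · exact e.nonterm u i' b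
    · obtain rfl := e.κ_inj q
      obtain ⟨j, rfl, c⟩ := h1 _ _ a
      obtain ⟨j', rfl, c'⟩ := h1 _ _ b
      exact Finset.disjoint_left.1
        (hf.dis j (mem_univ _) j' (mem_univ _) fun h => hne (h ▸ rfl)) c c'
  · exact (I.nonempty i).imp fun _ => Or.inl

end Enum

/-! ### Polynomial time -/

noncomputable instance encI3 : Enc I3 := ⟨InstC.code⟩

theorem pf_data : PF fun I : I3 => (Shared.PolyTime.adjMatrix I.G,
    tabT fun i : Fin I.k => tabT fun v : Fin I.n => decide (v ∈ I.Z i)) :=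
  ⟨fun x => x, PT.var 0, fun I => by
    change I.code = encPair _ (encList _ (List.map _ _))
    rw [encList_map]
    unfold InstC.code
    congr 2
    funext i
    exact (encList_map (fun b : Bool => [b]) (fun v => decide (v ∈ I.Z i)) _).symm⟩

theorem pf_In : PF fun I : I3 => I.n := pf_data.fst.length.of_eq fun I => by
  simp [Shared.PolyTime.adjMatrix]

theorem pf_Ik : PF fun I : I3 => I.k :=
  pf_data.snd.length.of_eq fun I => by simp only [length_tabT, N_fin]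

section

variable {γ : Type} [Enc γ] {g : γ → I3} (hg : PF g) {i : ∀ a, Fin (g a).k}
  {u v : ∀ a, Fin (g a).n}

include hg

theorem pf_n : PF fun a => Num.N (Fin (g a).n) := pf_In.comp hg

theorem pf_Adj (hu : PF fun a => idx (u a)) (hv : PF fun a => idx (v a)) :
    PF fun a => (g a).G.Adj (u a) (v a) :=
  pf_ofBool (PF.entry (pf_data.fst.comp hg) hu hv) fun a => by
    simp [entry_adjMatrix, idx_fin]

theorem pf_st (hu : PF fun a => idx (u a)) (hv : PF fun a => idx (v a)) :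
    PF fun a => st (g a).G (u a) (v a) := pf_or (pf_eqT hu hv) (pf_Adj hg hu hv)

theorem pf_Z (hi : PF fun a => idx (i a)) (hv : PF fun a => idx (v a)) :
    PF fun a => v a ∈ (g a).Z (i a) :=
  pf_ofBool (PF.getD (PF.getD (pf_data.snd.comp hg) hi (PF.const [])) hv (PF.const false))
    fun a => by rw [getD_tabT, getD_tabT, decide_eq_true_iff]

theorem pf_cn (hi : PF fun a => idx (i a)) (hu : PF fun a => idx (u a))
    (hv : PF fun a => idx (v a)) : PF fun a => cn (g a) (i a) (u a) (v a) := by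
  have h : PF fun a => L4 (g a).G (· ∈ (g a).Z (i a)) (u a) (v a) :=
    pf_ex (pf_n hg) (pf_ex (pf_n (hg.comp up)) (pf_ex (pf_n (hg.comp up2))
      (pf_and (pf_Z (hg.comp up3) (hi.comp up3) px2)
      (pf_and (pf_Z (hg.comp up3) (hi.comp up3) px1)
      (pf_and (pf_Z (hg.comp up3) (hi.comp up3) px)
      (pf_and (pf_st (hg.comp up3) (hu.comp up3) px2)
      (pf_and (pf_st (hg.comp up3) px2 px1)
      (pf_and (pf_st (hg.comp up3) px1 px) (pf_st (hg.comp up3) px (hv.comp up3))))))))))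
  exact pf_iff (pf_and (pf_Z hg hi hu) (pf_and (pf_Z hg hi hv) h))
    fun a => wk_iff (noDia_of_free (g a).free)

theorem pf_rep (hi : PF fun a => idx (i a)) (hu : PF fun a => idx (u a)) :
    PF fun a => rep (g a) (i a) (u a) :=
  pf_and (pf_Z hg hi hu) (pf_all (pf_n hg)
    (pf_imp (pf_cn (hg.comp up) (hi.comp up) (hu.comp up) px) (pf_le (hu.comp up) px)))

theorem pf_nb (hi : PF fun a => idx (i a)) (hu : PF fun a => idx (u a))
    (hv : PF fun a => idx (v a)) : PF fun a => nb (g a) (i a) (u a) (v a) :=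
  pf_ex (pf_n hg) (pf_and (pf_cn (hg.comp up) (hi.comp up) (hu.comp up) px)
    (pf_Adj (hg.comp up) px (hv.comp up)))

end

theorem pf_qJ : PF fun p : Pt fun I : I3 => Fin I.k => qJ p.a p.x :=
  pf_ex (pf_n up) (pf_ex (pf_n up2) (pf_and (pf_rep up3 px2 px1)
    (pf_and (pf_rep up3 px2 px) (pf_neT px1 px))))

theorem pf_qV : PF fun p : Pt fun I : I3 => Fin I.n => qV p.a p.x :=
  pf_all (pf_Ik.comp up) (pf_not (pf_Z up2 px px1))

theorem two_le_selL {I : I3} {i : Fin I.k} (h : qJ I i) : 2 ≤ (selL (rep I i)).length := by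
  obtain ⟨k, k', a, b, c⟩ := h
  obtain ⟨x, rfl⟩ := (get_selL_range _ k).2 a
  obtain ⟨y, rfl⟩ := (get_selL_range _ k').2 b
  have : x.val ≠ y.val := fun q => c (congrArg _ (Fin.ext q))
  omega

/-- The position of a base terminal in the list of the least vertices. -/
def pos {I : I3} (j : Fin (selL (qJ I)).length) (o : Bool) :
    Fin (selL (rep I ((selL (qJ I)).get j))).length :=
  ⟨cond o 1 0, by
    have := two_le_selL ((get_selL_range (qJ I) _).1 ⟨j, rfl⟩)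
    cases o <;> simp only [cond] <;> omega⟩

/-- The enumeration by lists. -/
noncomputable def enumL (I : I3) :
    Enum I (Fin (selL (qJ I)).length) (Fin (selL (qV I)).length) where
  ι := (selL (qJ I)).get
  κ := (selL (qV I)).get
  β j o := (selL (rep I ((selL (qJ I)).get j))).get (pos j o)
  ι_inj := get_selL_inj _
  κ_inj := get_selL_inj _
  ι_range := get_selL_range _
  κ_range := get_selL_range _
  β_rep _ _ := (get_selL_range _ _).1 ⟨_, rfl⟩
  β_ne _ h := Nat.zero_ne_one (congrArg Fin.val (get_selL_inj _ h))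

/-- The coded abstract problem of an instance. -/
noncomputable def toC (I : I3) : C3 := ⟨_, _, _, (enumL I).geo⟩

section

variable {γ : Type} [Enc γ] {g : γ → I3} (hg : PF g) {j : ∀ a, Fin (toC (g a)).k}
  {x : ∀ a, Fin (toC (g a)).n}

include hg

theorem pf_ι (hj : PF fun a => idx (j a)) : PF fun a => idx ((enumL (g a)).ι (j a)) :=
  pf_selGet pf_Ik pf_qJ hg hj

theorem pf_κ (hx : PF fun a => idx (x a)) : PF fun a => idx ((enumL (g a)).κ (x a)) :=
  pf_selGet pf_In pf_qV hg hx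

theorem pf_β (hj : PF fun a => idx (j a)) (o : Bool) :
    PF fun a => idx ((enumL (g a)).β (j a) o) :=
  pf_selGet (T := fun p : Pt fun I : I3 => Fin I.k => Fin p.a.n)
    (q := fun p => rep p.a p.x) (pf_n up) (pf_rep up2 px1 px)
    (g := fun a => ⟨g a, (enumL (g a)).ι (j a)⟩) (pt_mk hg (pf_ι hg hj))
    (i := fun a => pos (j a) o) (PF.const (cond o 1 0))

end

theorem pf_toC : PF toC := by
  have hk : PF fun I : I3 => (selL (qJ I)).length := pf_selN pf_Ik pf_qJ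
  have hn : PF fun I : I3 => (selL (qV I)).length := pf_selN pf_In pf_qV
  have h1 : PF fun p : Pt2 (fun I => Fin (toC I).n) (fun I => Fin (toC I).n) =>
      (toC p.a.a).P.base.HH p.a.x p.x :=
    pf_iff (pf_not (pf_st up2 (pf_κ up2 px1) (pf_κ up2 px))) fun p => (enumL p.a.a).HH_iff
  have h2 : ∀ o, PF fun p : Pt2 (fun I => Fin (toC I).k) (fun I => Fin (toC I).n) =>
      (toC p.a.a).P.base.adj p.a.x o p.x := fun o =>
    pf_iff (pf_not (pf_nb up2 (pf_ι up2 px1) (pf_β up2 px1 o) (pf_κ up2 px)))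
      fun p => (enumL p.a.a).adj_iff
  have hb : PF fun I => (toC I).base.code := hk.pair (hn.pair (PF.pair
    (pf_tabT (f := fun (I : I3) u => tabT fun v => (toC I).P.base.HH u v) hn
      (pf_tabT (f := fun (p : Pt fun I => Fin (toC I).n) v => (toC p.a).P.base.HH p.x v)
        (hn.comp up) h1)) (PF.pair
    (pf_tabT (f := fun (I : I3) j => tabT fun v => (toC I).P.base.adj j false v) hk
      (pf_tabT (f := fun (p : Pt fun I => Fin (toC I).k) v => (toC p.a).P.base.adj p.x false v)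
        (hn.comp up) (h2 false)))
    (pf_tabT (f := fun (I : I3) j => tabT fun v => (toC I).P.base.adj j true v) hk
      (pf_tabT (f := fun (p : Pt fun I => Fin (toC I).k) v => (toC p.a).P.base.adj p.x true v)
        (hn.comp up) (h2 true))))))
  have hb' : PF fun I => (toC I).base := hb
  have h3 : PF fun p : Pt fun I => Fin (toC I).k => (toC p.a).P.mu p.x :=
    pf_iff (pf_ex (T := fun p : Pt fun I => Fin (toC I).k => Fin p.a.n) (pf_n up)
      (pf_and (pf_rep up2 (pf_ι up2 px1) px)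
        (pf_and (pf_neT px (pf_β up2 px1 false)) (pf_neT px (pf_β up2 px1 true)))))
      fun p => (enumL p.a).mu_iff
  have h4 : PF fun p : Pt fun q : Pt2 (fun I => Fin (toC I).k) (fun I => Fin (toC I).m) =>
      Fin (toC q.a.a).n => (toC p.a.a.a).P.adt p.a.a.x p.a.x p.x :=
    pf_iff (pf_and (pf_rep up3 (pf_ι up3 px2) px1)
      (pf_not (pf_nb up3 (pf_ι up3 px2) px1 (pf_κ up3 px)))) fun p => (enumL p.a.a.a).adt_iff
  have h : PF fun I => (toC I).code := hb'.pair (pf_In.pair (PF.pair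
    (pf_tabT (f := fun (I : I3) j => (toC I).P.mu j) hk h3)
    (pf_tabT (f := fun (I : I3) j => tabT fun k => tabT fun v => (toC I).P.adt j k v) hk
      (pf_tabT (f := fun (p : Pt fun I => Fin (toC I).k) k =>
          tabT fun v => (toC p.a).P.adt p.x k v) (pf_In.comp up)
        (pf_tabT (f := fun (q : Pt2 (fun I => Fin (toC I).k) (fun I => Fin (toC I).m)) v =>
          (toC q.a.a).P.adt q.a.x q.x v) (hn.comp up2) h4)))))
  exact h

end ERed

theorem redS : RedS :=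
  ⟨ERed.toC, ERed.pf_toC, fun I => ⟨(ERed.enumL I).feas_of_yes, (ERed.enumL I).yes_of_feas⟩⟩

theorem finalS (h1 : RedS) (h2 : MainS) (h3 : PFUS) (h4 : PFMS) (h5 : PFRS) :
    DCSinP twoP1P2 := by
  classical
  obtain ⟨toC, hpf, hiff⟩ := h1
  obtain ⟨e, c, t0, c1, L, hm⟩ := h2
  have hC : PF fun I : ERed.I3 => decide ((toC I).P.Char Fin.val e c t0 c1 L) :=
    pf_toBool (p := fun I : ERed.I3 => (toC I).P.Char Fin.val e c t0 c1 L)
      ((pf_or (h3 e c L) (pf_or (h4 e c L) (h5 e c t0 c1 L))).comp (g := toC) hpf)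
  exact ⟨fun I => decide ((toC I).P.Char Fin.val e c t0 c1 L),
    PF.tm2 hC InstC.code (fun b : Bool => [b]) _ id (fun _ => rfl) (fun _ => rfl),
    fun I => by rw [decide_eq_true_iff, hiff, hm _ _ _ _ _ Fin.val_injective]⟩

end Pool.Agent.Lib.MP_ef7581_lc.D3
end

-- part Pool.Agent.Lib.MP_ef7581_lc.EPSL
section

/-!
The slack test and the parity test for agents with several terminals are decidable in polynomial
time.
-/

set_option autoImplicit false

namespace Pool.Agent.Lib.MP_ef7581_lc.D3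

open Pool.Agent.Shared.PolyTime Finset D2 D2.DP0 D2.DPSL EP0

namespace EPSL

/-! The matching test as a labelled matching -/

section Math

variable {J V K : Type} [Fintype J] [Fintype V] [DecidableEq J] [DecidableEq V]

/-- The items of the class whose parity is prescribed. -/
def NF (W : Finset V) (nf : V → Prop) : Nd J V → Prop
  | Sum.inr (Sum.inl v) => v ∈ W ∧ nf v
  | _ => False

/-- The nodes that may stay uncovered. -/
def Fr3 (P : G3 J V K) (S : Sub J V) (e : ℕ) (ρ : Finset V) (X : Ax J V) : Nd J V → Prop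
  | Sum.inl j => ¬ (j ∈ S.A ∧ (¬ P.rigid S e ρ j ∨ X.mc j))
  | _ => True

open Classical in
theorem unf_eq (W : Finset V) (nf : V → Prop) (m : Nd J V → Nd J V) :
    unf W nf m = #{x | m x = x ∧ NF W nf x} := by
  unfold unf
  refine card_bij (fun v _ => vx v) ?_ ?_ ?_
  · intro v hv
    simp only [mem_filter, mem_univ, true_and] at hv ⊢
    exact ⟨hv.2.2, hv.1, hv.2.1⟩
  · intro v _ v' _ h
    simpa using h
  · rintro (j | v | j) hx <;> simp only [mem_filter, mem_univ, true_and] at hx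
    · exact hx.2.elim
    · exact ⟨v, by simp only [mem_filter]; exact ⟨hx.2.1, hx.2.2, hx.1⟩, rfl⟩
    · exact hx.2.elim

theorem pass_iff (P : G3 J V K) (S : Sub J V) (e : ℕ) (ρ : Finset V) (X : Ax J V) (Y : Px V)
    (l : ℕ) : P.Pass S e ρ X Y l ↔ ∃ u, u < Fintype.card (Nd J V) - 2 * S.A.card + 1 ∧
      (u % 2 = Y.tg % 2 ∧ ∃ m, Lab (P.En S e ρ X Y)
        (fun (d : Bool) x => Fr3 P S e ρ X x ∧ (d = true ↔ NF S.W Y.nf x))
        (fun d => cond d u (Fintype.card (Nd J V) - 2 * S.A.card - u)) m ∧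
          2 * (2 * S.A.card + l - S.W.card) ≤ wt2 (omL S) m) := by
  classical
  have hA : 2 * S.A.card ≤ Fintype.card (Nd J V) := by
    have := card_le_univ S.A
    simp only [Fintype.card_sum]
    omega
  have hc : ∀ m : Nd J V → Nd J V, cov m + #{x | m x = x} = Fintype.card (Nd J V) := fun m => by
    rw [cov, add_comm]
    exact card_filter_add_card_filter_not _
  have hs : ∀ m : Nd J V → Nd J V, unf S.W Y.nf m + #{x | m x = x ∧ ¬ NF S.W Y.nf x} =
      #{x | m x = x} := fun m => by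
    rw [unf_eq, ← card_filter_add_card_filter_not (s := {x | m x = x}) (NF S.W Y.nf),
      filter_filter, filter_filter]
  constructor
  · rintro ⟨m, h1, h2, h3, h4, h5⟩
    have k1 := hc m
    have k2 := hs m
    refine ⟨unf S.W Y.nf m, by omega, h5, m, ⟨h1,
      fun x => if m x = x then some (decide (NF S.W Y.nf x)) else none, fun x => by simp,
      fun x d h => ?_, fun d => ?_⟩, by rw [wt2_omL S h1.1]; omega⟩
    · have hx : m x = x := by
        by_contra h'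
        simp [h'] at h
      refine ⟨?_, ?_⟩
      · rcases x with j | v | j
        · exact fun k => h4 j k.1 k.2 hx
        · trivial
        · trivial
      · simp only [hx, if_true, Option.some.injEq] at h
        rw [← h, decide_eq_true_iff]
    · cases d
      · refine Eq.trans ?_ (show #{x | m x = x ∧ ¬ NF S.W Y.nf x} = _ by simp only [cond]; omega)
        congr 1
        ext x
        simp
      · simp only [cond]
        rw [unf_eq]
        congr 1
        ext x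
        simp
  · rintro ⟨u, hu, h5, m, ⟨h1, lab, k1, k2, k3⟩, h2⟩
    have hl : ∀ x d, lab x = some d ↔ m x = x ∧ (d = true ↔ NF S.W Y.nf x) := fun x d => by
      refine ⟨fun h => ⟨by_contra fun h' => by simp [(k1 x).2 h'] at h, (k2 x d h).2⟩, fun h => ?_⟩
      rcases h' : lab x with _ | d'
      · exact absurd h.1 ((k1 x).1 h')
      · rw [Bool.eq_iff_iff.2 ((k2 x d' h').2.trans h.2.symm)]
    have k4 : unf S.W Y.nf m = u := by
      refine Eq.trans ?_ (k3 true)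
      rw [unf_eq]
      congr 1
      ext x
      simp [hl]
    have k5 : #{x | m x = x ∧ ¬ NF S.W Y.nf x} = Fintype.card (Nd J V) - 2 * S.A.card - u := by
      refine Eq.trans ?_ (k3 false)
      congr 1
      ext x
      simp [hl]
    have k6 := hc m
    have k7 := hs m
    rw [wt2_omL S h1.1] at h2
    refine ⟨m, h1, by omega, by omega, fun j a b c => ?_, by rw [k4, h5]⟩
    exact (k2 (ag j) false ((hl _ _).2 ⟨c, by simp [NF]⟩)).1 ⟨a, b⟩

end Math

/-! The predicates of a frame -/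

section Frames

variable {γ : Type} [Enc γ] {c : γ → C3} {S : ∀ a, Sub (Fin (c a).k) (Fin (c a).n)}
  {ρ : ∀ a, Finset (Fin (c a).n)} {e : ℕ}

/-- A polynomial-time family of parity options. -/
structure PPx (c : γ → C3) (Y : ∀ a, Px (Fin (c a).n)) : Prop where
  nf : PF fun p : Pt (fun a => Fin (c a).n) => (Y p.a).nf p.x
  pn : PF fun a => (Y a).pn
  tg : PF fun a => (Y a).tg

theorem ppx0 : PPx c fun _ => px0 _ := ⟨PF.const False, PF.const False, PF.const 0⟩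

variable {Y : ∀ a, Px (Fin (c a).n)}

theorem ppx_comp {δ : Type} [Enc δ] (hY : PPx c Y) {g : δ → γ} (hg : PF g) :
    PPx (fun d => c (g d)) fun d => Y (g d) :=
  ⟨pf_at (fun a v => (Y a).nf v) hY.nf (hg.comp up) px, hY.pn.comp hg, hY.tg.comp hg⟩

theorem pf_nf (hY : PPx c Y) {v : ∀ a, Fin (c a).n} (hv : PF fun a => idx (v a)) :
    PF fun a => (Y a).nf (v a) := pf_at (fun a v => (Y a).nf v) hY.nf PF.id' hv

theorem pax_comp {δ : Type} [Enc δ] {b : γ → CG} {X : ∀ a, Ax (Fin (b a).k) (Fin (b a).n)}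
    (hX : PAx b X) {g : δ → γ} (hg : PF g) : PAx (fun d => b (g d)) fun d => X (g d) :=
  ⟨hX.nc.comp hg, hX.pe.comp hg, pf_at (fun a v => (X a).zs v) hX.zs (hg.comp up) px,
    pf_at (fun a j => (X a).mc j) hX.mc (hg.comp up) px⟩

variable (hc : PF c) (hρ : PSet ρ) {j : ∀ a, Fin (c a).k} {k : ∀ a, Fin (c a).m}
  {x y : ∀ a, Fin (c a).n}

include hc hρ

theorem pf_rig3 (hj : PF fun a => idx (j a)) (o : Bool) :
    PF fun a => (c a).P.rig e (ρ a) (j a) o := pf_rig (c := bs c) (pf_bs hc) hρ hj o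

theorem pf_blind3 (hj : PF fun a => idx (j a)) : PF fun a => (c a).P.blind e (ρ a) (j a) :=
  pf_and (pf_maj (c := bs c) (pf_bs hc) hρ hj false) (pf_maj (c := bs c) (pf_bs hc) hρ hj true)

theorem pf_heavy3 (hx : PF fun a => idx (x a)) : PF fun a => (c a).P.heavy e (ρ a) (x a) :=
  pf_heavy (c := bs c) (pf_bs hc) hρ hx

theorem pf_Q03 (hx : PF fun a => idx (x a)) : PF fun a => (c a).P.Q0 e (ρ a) (x a) :=
  pf_Q0 (c := bs c) (pf_bs hc) hρ hx

theorem pf_majk (hj : PF fun a => idx (j a)) (hk : PF fun a => idx (k a)) :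
    PF fun a => (c a).P.majk e (ρ a) (j a) (k a) :=
  pf_le (pf_cardF (pf_Nv hc) hρ (pf_not (pf_adt (hc.comp up) (hj.comp up) (hk.comp up) px)))
    (PF.const e)

theorem pf_flex3 (hj : PF fun a => idx (j a)) : PF fun a => (c a).P.flex e (ρ a) (j a) :=
  pf_all (T := GK c) (pf_Nm hc) (pf_not (pf_majk (hc.comp up) (pset_up hρ) (hj.comp up) px))

theorem pf_rigm (hj : PF fun a => idx (j a)) (hk : PF fun a => idx (k a)) :
    PF fun a => (c a).P.rigm e (ρ a) (j a) (k a) :=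
  pf_and (pf_mu hc hj) (pf_and (pf_majk hc hρ hj hk) (pf_not (pf_blind3 hc hρ hj)))

theorem pf_peE3 (hY : PPx c Y) (hx : PF fun a => idx (x a)) (hy : PF fun a => idx (y a)) :
    PF fun a => (c a).P.peE e (ρ a) (Y a) (x a) (y a) :=
  pf_and (pf_Q03 hc hρ hx) (pf_and (pf_not (pf_heavy3 hc hρ hy))
    (pf_and (pf_not (pf_HH3 hc hx hy))
      (pf_or hY.pn (pf_and (pf_not (pf_nf hY hx)) (pf_not (pf_nf hY hy))))))

theorem pf_WitP3 (hY : PPx c Y) {s : ∀ a, Fin (c a).k × Fin (c a).n × Fin (c a).n}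
    (hs : PF fun a => idx (s a)) : PF fun a => (c a).P.WitP e (ρ a) (Y a) (s a) :=
  pf_and (pf_not (pf_mu hc (s2_1 (c := bs c) (pf_bs hc) hs)))
    (pf_and (pf_WitP (c := bs c) (pf_bs hc) hρ hs)
      (pf_and (pf_iffP (pf_nf hY (s2_2 (c := bs c) (pf_bs hc) hs)) hY.pn)
        (pf_iffP (pf_nf hY (s2_3 (c := bs c) (pf_bs hc) hs)) hY.pn)))

theorem pf_WitN3 (hY : PPx c Y) {s : ∀ a, Fin (c a).k × Fin (c a).n × Fin (c a).n}
    (hs : PF fun a => idx (s a)) : PF fun a => (c a).P.WitN e (ρ a) (Y a) (s a) :=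
  pf_and (pf_not (pf_mu hc (s2_1 (c := bs c) (pf_bs hc) hs)))
    (pf_and (pf_WitN (c := bs c) (pf_bs hc) hρ hs)
      (pf_and (pf_iffP (pf_nf hY (s2_2 (c := bs c) (pf_bs hc) hs)) hY.pn)
        (pf_iffP (pf_nf hY (s2_3 (c := bs c) (pf_bs hc) hs)) hY.pn)))

variable (hS : PSub (bs c) S)

include hS

theorem pf_rigid3 (hj : PF fun a => idx (j a)) : PF fun a => (c a).P.rigid (S a) e (ρ a) (j a) :=
  pf_and (pf_geo hS hj) (pf_and (pf_not (pf_mu hc hj)) (pf_exD fun o => pf_rig3 hc hρ hj o))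

theorem pf_mkE (hj : PF fun a => idx (j a)) (hx : PF fun a => idx (x a)) :
    PF fun a => (c a).P.mkE (S a) e (ρ a) (j a) (x a) :=
  pf_and (pf_geo hS hj) (pf_ex (T := GK c) (pf_Nm hc)
    (pf_and (pf_rigm (hc.comp up) (pset_up hρ) (hj.comp up) px)
      (pf_not (pf_adt (hc.comp up) (hj.comp up) px (hx.comp up)))))

variable (hY : PPx c Y)

include hY

theorem pf_ncE3 (hj : PF fun a => idx (j a)) (hx : PF fun a => idx (x a)) :
    PF fun a => (c a).P.ncE (S a) e (ρ a) (Y a) (j a) (x a) :=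
  pf_and (pf_geo hS hj) (pf_and (pf_not (pf_mu hc hj))
    (pf_and (pf_exD fun o => pf_and (pf_rig3 hc hρ hj o) (pf_col3 hc hj (PF.const (!o)) hx))
      (pf_and (pf_not (pf_heavy3 hc hρ hx)) (pf_or hY.pn (pf_not (pf_nf hY hx))))))

variable {X : ∀ a, Ax (Fin (c a).k) (Fin (c a).n)} (hX : PAx (bs c) X)

include hX

theorem pf_En3 : PF fun p : Pt2 (GN (bs c)) (GN (bs c)) =>
    (c p.a.a).P.En (S p.a.a) e (ρ p.a.a) (X p.a.a) (Y p.a.a) p.a.x p.x := by
  have h12 : PF fun p : Pt2 (GJ (bs c)) (GV (bs c)) =>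
      (c p.a.a).P.En (S p.a.a) e (ρ p.a.a) (X p.a.a) (Y p.a.a) (ag p.a.x) (vx p.x) :=
    pf_and (pf_mem (pset_up2 (psub_A hS)) px1) (pf_and (pf_mem (pset_up2 (psub_W hS)) px)
      (pf_or hS.lst (pf_or (pf_mkE (hc.comp up2) (pset_up2 hρ) (psub_comp hS up2) px1 px)
        (pf_and (hX.nc.comp up2)
          (pf_ncE3 (hc.comp up2) (pset_up2 hρ) (psub_comp hS up2) (ppx_comp hY up2) px1 px)))))
  have h13 : PF fun p : Pt2 (GJ (bs c)) (GJ (bs c)) =>
      (c p.a.a).P.En (S p.a.a) e (ρ p.a.a) (X p.a.a) (Y p.a.a) (ag p.a.x) (dm p.x) :=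
    pf_and (pf_eqT px1 px) (pf_and (pf_mem (pset_up2 (psub_A hS)) px1)
      (pf_and (pf_geo (psub_comp hS up2) px1) (pf_flex3 (hc.comp up2) (pset_up2 hρ) px1)))
  have hz : PF fun p : Pt2 (GV (bs c)) (GV (bs c)) =>
      (c p.a.a).P.peE e (ρ p.a.a) (Y p.a.a) p.a.x p.x ∧ ¬ (X p.a.a).zs p.x :=
    pf_and (pf_peE3 (hc.comp up2) (pset_up2 hρ) (ppx_comp hY up2) px1 px)
      (pf_not (pf_at (fun a v => (X a).zs v) hX.zs up2 px))
  have h22 : PF fun p : Pt2 (GV (bs c)) (GV (bs c)) =>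
      (c p.a.a).P.En (S p.a.a) e (ρ p.a.a) (X p.a.a) (Y p.a.a) (vx p.a.x) (vx p.x) :=
    pf_and (pf_mem (pset_up2 (psub_W hS)) px1) (pf_and (pf_mem (pset_up2 (psub_W hS)) px)
      (pf_and (hX.pe.comp up2) (pf_or hz (pf_swap (S := GV (bs c)) (T := GV (bs c))
        (fun a u v => (c a).P.peE e (ρ a) (Y a) u v ∧ ¬ (X a).zs v) hz))))
  exact pf_node2 (c := bs c) (pf_bs hc) (fun a => (c a).P.En (S a) e (ρ a) (X a) (Y a))
    (PF.const False) h12 h13
    (pf_swap (S := GJ (bs c)) (T := GV (bs c))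
      (fun a u v => (c a).P.En (S a) e (ρ a) (X a) (Y a) (ag u) (vx v)) h12) h22 (PF.const False)
    (pf_swap (S := GJ (bs c)) (T := GJ (bs c))
      (fun a u v => (c a).P.En (S a) e (ρ a) (X a) (Y a) (ag u) (dm v)) h13) (PF.const False)
    (PF.const False)

theorem pf_LabU {l u : γ → ℕ} (hl : PF l) (hu : PF u) : PF fun a =>
    ∃ m, Lab ((c a).P.En (S a) e (ρ a) (X a) (Y a))
      (fun (d : Bool) x => Fr3 (c a).P (S a) e (ρ a) (X a) x ∧ (d = true ↔ NF (S a).W (Y a).nf x))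
      (fun d => cond d (u a) (Num.N (GN (bs c) a) - 2 * (S a).A.card - u a)) m ∧
        2 * (2 * (S a).A.card + l a - (S a).W.card) ≤ wt2 (omL (S a)) m := by
  classical
  have hb := pf_bs hc
  have hA := pf_card (pf_Nk hb) (psub_A hS)
  have hW := pf_card (pf_Nn hb) (psub_W hS)
  have h12 : PF fun p : Pt2 (GJ (bs c)) (GV (bs c)) => omL (S p.a.a) (ag p.a.x) (vx p.x) :=
    pf_ite hS.lst (PF.const 1) (PF.const 0)
  refine pfLabStmt γ (GN (bs c)) Bool (fun a => (c a).P.En (S a) e (ρ a) (X a) (Y a))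
    (fun a d x => Fr3 (c a).P (S a) e (ρ a) (X a) x ∧ (d = true ↔ NF (S a).W (Y a).nf x))
    (fun a d => cond d (u a) (Num.N (GN (bs c) a) - 2 * (S a).A.card - u a))
    (fun a => omL (S a)) (fun a => 2 * (2 * (S a).A.card + l a - (S a).W.card)) (pf_NN hb)
    (pf_En3 hc hρ hS hY hX) (fun d => pf_and ?_ (pf_iffP (PF.const _) ?_)) (fun d => ?_) ?_
    ((PF.const 2).mul ((((PF.const 2).mul hA).add hl).sub hW)) (fun a x y h => ?_)
    (fun a => omL_symm _) fun a => omL_le _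
  · exact pf_node hb (fun a => Fr3 (c a).P (S a) e (ρ a) (X a))
      (pf_not (pf_and hS.A (pf_or
        (pf_not (pf_rigid3 (hc.comp up) (pset_up hρ) (psub_comp hS up) px)) hX.mc)))
      (PF.const True) (PF.const True)
  · exact pf_node hb (fun a => NF (S a).W (Y a).nf) (PF.const False) (pf_and hS.W hY.nf)
      (PF.const False)
  · cases d
    exacts [((pf_NN hb).sub ((PF.const 2).mul hA)).sub hu, hu]
  · exact pf_node2 hb (fun a => omL (S a)) (PF.const 0) h12 (PF.const 0)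
      (pf_swap (S := GJ (bs c)) (T := GV (bs c)) (fun a u v => omL (S a) (ag u) (vx v)) h12)
      (PF.const 0) (PF.const 0) (PF.const 0) (PF.const 0) (PF.const 0)
  · rcases x with i | u | i <;> rcases y with j | v | j
    exacts [h, h, h, h, ⟨h.2.1, h.1, h.2.2.1, h.2.2.2.symm⟩, h, h, h, h]

theorem pf_Pass3 {l : γ → ℕ} (hl : PF l) :
    PF fun a => (c a).P.Pass (S a) e (ρ a) (X a) (Y a) (l a) := by
  have hb := pf_bs hc
  have hA := pf_card (pf_Nk hb) (psub_A hS)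
  have f1 : PF fun z : γ × ℕ => z.1 := PF.id'.fst
  have f2 : PF fun z : γ × ℕ => z.2 := PF.id'.snd
  refine pf_iff (pf_exlt (((pf_NN hb).sub ((PF.const 2).mul hA)).add (PF.const 1))
    (q := fun a u => u % 2 = (Y a).tg % 2 ∧ ∃ m, Lab ((c a).P.En (S a) e (ρ a) (X a) (Y a))
      (fun (d : Bool) x => Fr3 (c a).P (S a) e (ρ a) (X a) x ∧ (d = true ↔ NF (S a).W (Y a).nf x))
      (fun d => cond d u (Num.N (GN (bs c) a) - 2 * (S a).A.card - u)) m ∧
        2 * (2 * (S a).A.card + l a - (S a).W.card) ≤ wt2 (omL (S a)) m)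
    (pf_and (pf_eq (f2.mod (PF.const 2)) ((hY.tg.comp f1).mod (PF.const 2)))
      (pf_LabU (hc.comp f1) (pset_comp hρ f1) (psub_comp hS f1) (ppx_comp hY f1) (pax_comp hX f1)
        (hl.comp f1) f2))) fun a => ?_
  rw [pass_iff, card_eq_N]
  rfl

omit hX hY hρ in
theorem pf_SgOk3 {Γ : ∀ a, Finset (Fin (c a).k × Fin (c a).n × Fin (c a).n)} (hΓ : PSet Γ) :
    PF fun a => (c a).P.SgOk (S a) (Γ a) := by
  have hb := pf_bs hc
  have h1 := s2_1 (hb.comp (up (S := fun a => Fin (c a).k × Fin (c a).n × Fin (c a).n))) px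
  have h2 := s2_2 (hb.comp (up (S := fun a => Fin (c a).k × Fin (c a).n × Fin (c a).n))) px
  have h3 := s2_3 (hb.comp (up (S := fun a => Fin (c a).k × Fin (c a).n × Fin (c a).n))) px
  have hS' := psub_comp hS (up (S := fun a => Fin (c a).k × Fin (c a).n × Fin (c a).n))
  exact pf_and (pf_allMem (pf_N2 hb) hΓ (pf_and (pf_mem (psub_A hS') h1) (pf_and (pf_geo hS' h1)
    (pf_and (pf_mem (psub_W hS') h2) (pf_and (pf_mem (psub_W hS') h3)
      (pf_Pr3 (hc.comp up) h1 h2 h3)))))) (pf_Dis2 hb hΓ)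

omit hX in
theorem pf_modes3 {l : γ → ℕ} (hl : PF l)
    {Γ : ∀ a, Finset (Fin (c a).k × Fin (c a).n × Fin (c a).n)} (hΓ : PSet Γ) : PF fun a =>
      (∃ s1 ∈ Γ a, ∃ s2 ∈ Γ a, s1 ≠ s2 ∧ (c a).P.WitP e (ρ a) (Y a) s1 ∧
        (c a).P.WitP e (ρ a) (Y a) s2 ∧ (c a).P.Pass ((S a).rem (ag2 (Γ a)) (it2 (Γ a))) e (ρ a)
          ((c a).P.base.axW s1 s2) (Y a) (l a)) ∨
      (∃ s1 ∈ Γ a, ∃ s2 ∈ Γ a, s1 ≠ s2 ∧ (c a).P.WitN e (ρ a) (Y a) s1 ∧
        (c a).P.WitN e (ρ a) (Y a) s2 ∧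
          (c a).P.Pass ((S a).rem (ag2 (Γ a)) (it2 (Γ a))) e (ρ a) (axN _ _) (Y a) (l a)) ∨
      (c a).P.Pass ((S a).rem (ag2 (Γ a)) (it2 (Γ a))) e (ρ a) (axC _ _) (Y a) (l a) := by
  have hb := pf_bs hc
  have hR := psub_rem hS (pset_ag2 hb hΓ) (pset_it2 hb hΓ)
  refine pf_or (pf_exMem (pf_N2 hb) hΓ (pf_exMem (pf_N2 (hb.comp up)) (pset_up hΓ) ?_))
    (pf_or (pf_exMem (pf_N2 hb) hΓ (pf_exMem (pf_N2 (hb.comp up)) (pset_up hΓ) ?_))
      (pf_Pass3 hc hρ hR hY pax_C hl))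
  · exact pf_and (pf_neT px1 px)
      (pf_and (pf_WitP3 (hc.comp up2) (pset_up2 hρ) (ppx_comp hY up2) px1)
      (pf_and (pf_WitP3 (hc.comp up2) (pset_up2 hρ) (ppx_comp hY up2) px)
        (pf_Pass3 (hc.comp up2) (pset_up2 hρ) (psub_comp hR up2) (ppx_comp hY up2)
          (pax_W (hb.comp up2) px1 px) (hl.comp up2))))
  · exact pf_and (pf_neT px1 px)
      (pf_and (pf_WitN3 (hc.comp up2) (pset_up2 hρ) (ppx_comp hY up2) px1)
      (pf_and (pf_WitN3 (hc.comp up2) (pset_up2 hρ) (ppx_comp hY up2) px)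
        ((pf_Pass3 hc hρ hR hY pax_N hl).comp up2)))

omit hX in
theorem pf_TestF3 {l : γ → ℕ} (hl : PF l) :
    PF fun a => (c a).P.TestF (S a) e (l a) (Y a) (ρ a) :=
  pf_exSet 6 (pf_N2 (pf_bs hc)) fun _ _ _ _ hg hΓ =>
    pf_and (pf_SgOk3 (hc.comp hg) (psub_comp hS hg) hΓ)
      (pf_modes3 (hc.comp hg) (pset_comp hρ hg) (psub_comp hS hg) (ppx_comp hY hg) (hl.comp hg) hΓ)

omit hX hρ in
theorem pf_Test13 {l : γ → ℕ} (hl : PF l) : PF fun a => (c a).P.Test1 (S a) e (l a) (Y a) :=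
  pf_iff (pf_allSet (6 * e + 6) (pf_Nv hc)
    (q := fun a Z => (c a).P.Frame e Z → (∀ r ∈ Z, ¬ (Y a).nf r) →
      (c a).P.TestF (S a) e (l a) (Y a) Z) fun _ _ _ _ hg hZ =>
      pf_imp (pf_Frame (pf_bs (hc.comp hg)) hZ)
        (pf_imp (pf_allMem (pf_Nv (hc.comp hg)) hZ (pf_not (ppx_comp hY hg).nf))
          (pf_TestF3 (hc.comp hg) hZ (psub_comp hS hg) (ppx_comp hY hg) (hl.comp hg))))
    fun _ => ⟨fun h Z _ => h Z, fun h Z hZ => h Z hZ.1.le hZ⟩

end Frames

end EPSL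

open EPSL in
theorem pfSLS : PFSLS := by
  intro e γ _ c S l hc hS hl
  refine ⟨pf_and (pf_Pass3 hc pset_empty (psub_lev hS (R := fun _ _ => False) (PF.const False))
    ppx0 pax_C hl) (pf_allMem (pf_Nj hc) (psub_A hS) ?_), fun nf pn tg h1 h2 =>
      pf_Test13 hc hS (Y := fun a => ⟨nf a, pn, tg a⟩) ⟨h1, PF.const pn, h2⟩ hl⟩
  exact pf_Test13 (hc.comp up) (psub_lev (psub_comp hS up)
    (R := fun (p : Pt fun a => Fin (c a).k) j => j.val ≤ p.x.val) (pf_le px px1)) ppx0 (hl.comp up)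

end Pool.Agent.Lib.MP_ef7581_lc.D3
end
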