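import Pool.Agent.Lib.MP_ef7581_lc.EGeo
import Mathlib

-- part Pool.Agent.Lib.MP_ef7581_lc.ERNec
section

/-!
Necessity of the test in the consistent case (agents with several terminals).
-/

set_option autoImplicit false
set_option linter.unusedSectionVars false

namespace Pool.Agent.Lib.MP_ef7581_lc.D3

open Finset Classical D2

namespace ERNec

variable {J V K : Type} [Fintype J] [Fintype V] [Fintype K] [DecidableEq J] [DecidableEq V]
  [DecidableEq K]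

/-- A function on the nodes that is prescribed through the owners of the items. -/
theorem exists_role {D : Type} {A : Finset J} {g : J → Sv V}
    (dis : ∀ i ∈ A, ∀ j ∈ A, i ≠ j → Disjoint (g i).its (g j).its) (fA : J → D)
    (fV : J → V → D) (fO : Nd J V → D) : ∃ role : Nd J V → D,
    (∀ j ∈ A, role (ag j) = fA j) ∧ (∀ j ∈ A, ∀ v ∈ (g j).its, role (vx v) = fV j v) ∧
      (∀ j, j ∉ A → role (ag j) = fO (ag j)) ∧ (∀ v, v ∉ itsB A g → role (vx v) = fO (vx v)) ∧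
      ∀ j, role (dm j) = fO (dm j) := by
  refine ⟨Sum.elim (fun j => if j ∈ A then fA j else fO (ag j)) (Sum.elim
    (fun v => if h : ∃ j ∈ A, v ∈ (g j).its then fV h.choose v else fO (vx v))
    fun j => fO (dm j)), fun j hj => if_pos hj, fun j hj v hv => ?_, fun j hj => if_neg hj,
    fun v hv => dif_neg fun h => hv (mem_biUnion.2 h), fun j => rfl⟩
  have h : ∃ j ∈ A, v ∈ (g j).its := ⟨j, hj, hv⟩
  have e : h.choose = j := by
    by_contra hne
    exact disjoint_left.1 (dis _ h.choose_spec.1 j hj hne) h.choose_spec.2 hv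
  simp only [Sum.elim_inr, Sum.elim_inl, dif_pos h, e]

theorem nd_cases {A : Finset J} {g : J → Sv V}
    (hg : ∀ j ∈ A, (∃ v, g j = Sv.one v) ∨ ∃ a b, g j = Sv.two a b) (x : Nd J V) :
    (∃ j, j ∉ A ∧ x = ag j) ∨ (∃ j, x = dm j) ∨ (∃ v, v ∉ itsB A g ∧ x = vx v) ∨
      (∃ j ∈ A, ∃ v, g j = Sv.one v ∧ (x = ag j ∨ x = vx v)) ∨
      ∃ j ∈ A, ∃ a b, g j = Sv.two a b ∧ (x = ag j ∨ x = vx a ∨ x = vx b) := by
  rcases x with j | v | j
  · by_cases hj : j ∈ A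
    · rcases hg j hj with ⟨v, e⟩ | ⟨a, b, e⟩
      · exact Or.inr (Or.inr (Or.inr (Or.inl ⟨j, hj, v, e, Or.inl rfl⟩)))
      · exact Or.inr (Or.inr (Or.inr (Or.inr ⟨j, hj, a, b, e, Or.inl rfl⟩)))
    · exact Or.inl ⟨j, hj, rfl⟩
  · by_cases hv : v ∈ itsB A g
    · obtain ⟨j, hj, hv⟩ := mem_biUnion.1 hv
      rcases hg j hj with ⟨u, e⟩ | ⟨a, b, e⟩
      · rw [e, Sv.its, mem_singleton] at hv
        exact Or.inr (Or.inr (Or.inr (Or.inl ⟨j, hj, u, e, Or.inr (by rw [hv])⟩)))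
      · rw [e, Sv.its, mem_insert, mem_singleton] at hv
        exact Or.inr (Or.inr (Or.inr (Or.inr ⟨j, hj, a, b, e,
          Or.inr (hv.imp (fun h => by rw [h]) fun h => by rw [h])⟩)))
    · exact Or.inr (Or.inr (Or.inl ⟨v, hv, rfl⟩))
  · exact Or.inr (Or.inl ⟨j, rfl⟩)

variable {P : G3 J V K}

theorem shape {S : Sub J V} {A : Finset J} {g : J → Sv V} (hg : P.PSt S A g) (nt : NoTri A g) :
    ∀ j ∈ A, (∃ v, g j = Sv.one v) ∨ ∃ a b, g j = Sv.two a b := by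
  intro j hj
  have h := hg.nrm j hj
  rcases e : g j with _ | v | ⟨a, b⟩ | ⟨a, z, b⟩
  · rw [e] at h
    exact h.elim
  · exact Or.inl ⟨v, rfl⟩
  · exact Or.inr ⟨a, b, rfl⟩
  · exact absurd e (nt j hj a z b)

theorem two_nrm {S : Sub J V} {A : Finset J} {g : J → Sv V} (hg : P.PSt S A g) {j : J}
    (hj : j ∈ A) {a b : V} (e : g j = Sv.two a b) :
    S.geo j ∧ P.Pr j a b ∧ ∃ k k', k ≠ k' ∧ P.colk j k a ∧ P.colk j k' b := by
  have h := hg.nrm j hj
  rw [e] at h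
  exact G3.nrm_two h

theorem two_ne {S : Sub J V} {A : Finset J} {g : J → Sv V} (hg : P.PSt S A g) {j : J}
    (hj : j ∈ A) {a b : V} (e : g j = Sv.two a b) : a ≠ b :=
  (two_nrm hg hj e).2.1.1

/-- The number of used items. -/
theorem card_its {S : Sub J V} {A : Finset J} {g : J → Sv V} (hg : P.PSt S A g) (nt : NoTri A g) :
    (itsB A g).card = A.card + (A.filter fun j => ∃ a b, g j = Sv.two a b).card := by
  rw [itsB, card_biUnion fun i hi j hj h => hg.dis i hi j hj h, card_filter, card_eq_sum_ones A,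
    ← sum_add_distrib]
  refine sum_congr rfl fun j hj => ?_
  rcases shape hg nt j hj with ⟨v, e⟩ | ⟨a, b, e⟩
  · simp [e, Sv.its]
  · rw [if_pos ⟨a, b, e⟩, e, Sv.its, card_pair (two_ne hg hj e)]

/-- Partner of an agent. -/
def mA (j : J) : Sv V → Nd J V
  | Sv.one v => vx v
  | _ => ag j

/-- Partner of an item. -/
def mV {T : Type} (j : J) (v : V) : Sv V → Option T → Nd J V
  | Sv.one _, _ => ag j
  | Sv.two a b, none => vx (if v = a then b else a)
  | _, _ => vx v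

variable {t M t' M0 : ℕ}

/-- Label of an agent. -/
def lA : Sv V → Option (Kl t M) → Option (Lb t M)
  | Sv.two _ _, none => some (Sum.inr 0)
  | Sv.two _ _, some κ => some (Sum.inl (κ, 2))
  | _, _ => none

/-- Label of an item. -/
def lV (v : V) : Sv V → Option (Kl t M) → Option (Lb t M)
  | Sv.two a _, some κ => some (Sum.inl (κ, if v = a then 0 else 1))
  | _, _ => none

/-- Label of an unused node. -/
def lO (W : Finset V) : Nd J V → Option (Lb t M)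
  | Sum.inr (Sum.inl v) => some (Sum.inr (if v ∈ W then 1 else 2))
  | _ => some (Sum.inr 2)

/-- The nodes of a pair service. -/
def nd (i : Fin 3) (j : J) : Sv V → Nd J V
  | Sv.two a b => if i = 0 then vx a else if i = 1 then vx b else ag j
  | _ => ag j

/-- The pair `a, b` of agent `j` is universal. -/
def Un (P : G3 J V K) (R : R3 J V K t M t' M0) (j : J) (a b : V) : Prop :=
  (¬ P.mu j ∧ ∃ τ, P.Ty R τ j) ∧ P.peU R a b

/-- The pair `a, b` of agent `j` lies in the complete class `κ`. -/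
def InC (P : G3 J V K) (R : R3 J V K t M t' M0) (κ : Kl t M) (j : J) (a b : V) : Prop :=
  P.Sk R κ false a ∧ P.Sk R κ true b ∧ P.Ty R κ.1 j ∧
    ∀ x y, P.Sk R κ false x → P.Sk R κ true y → x ≠ y ∧ (P.mt R κ.1 ∨ ¬ P.HH x y)

theorem ktest {R : R3 J V K t M t' M0} {A : Finset J} {W : Finset V} {g : J → Sv V}
    (hg : P.PSt (P.pl A W) A g) (nt : NoTri A g)
    (hp : ∀ j ∈ A, ∀ a b, g j = Sv.two a b → Un P R j a b ∨ ∃ κ, InC P R κ j a b) :
    P.KTest R A W := by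
  have h1 : ∀ j, ∃ k : Option (Kl t M), j ∈ A → ∀ a b, g j = Sv.two a b →
      (k = none → Un P R j a b) ∧ ∀ κ, k = some κ → InC P R κ j a b := by
    intro j
    by_cases h : j ∈ A ∧ ∃ a b, g j = Sv.two a b
    · obtain ⟨hj, a, b, e⟩ := h
      rcases hp j hj a b e with h | ⟨κ, h⟩
      · refine ⟨none, fun _ a' b' e' => ?_⟩
        obtain ⟨rfl, rfl⟩ := Sv.two.inj (e.symm.trans e')
        exact ⟨fun _ => h, fun κ hκ => absurd hκ (by simp)⟩
      · refine ⟨some κ, fun _ a' b' e' => ?_⟩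
        obtain ⟨rfl, rfl⟩ := Sv.two.inj (e.symm.trans e')
        exact ⟨fun hκ => absurd hκ (by simp), fun κ' hκ => Option.some.inj hκ ▸ h⟩
    · exact ⟨none, fun hj a b e => absurd ⟨hj, a, b, e⟩ h⟩
  choose cl hcl using h1
  obtain ⟨m, m1, m2, m3, m4, m5⟩ := exists_role hg.dis (fun j => mA j (g j))
    (fun j v => mV j v (g j) (cl j)) id
  obtain ⟨lab, l1, l2, l3, l4, l5⟩ := exists_role hg.dis (fun j => lA (g j) (cl j))
    (fun j v => lV v (g j) (cl j)) (lO W)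
  have hW : ∀ j ∈ A, ∀ v ∈ (g j).its, v ∈ W := fun j hj v hv => hg.inW j hj hv
  have o1 : ∀ j ∈ A, ∀ v, g j = Sv.one v → m (ag j) = vx v ∧ m (vx v) = ag j ∧
      lab (ag j) = none ∧ lab (vx v) = none ∧ v ∈ W ∧ P.C j v := by
    intro j hj v e
    have hv : v ∈ (g j).its := by simp [e, Sv.its]
    have h := hg.nrm j hj
    rw [e] at h
    rw [m1 j hj, m2 j hj v hv, l1 j hj, l2 j hj v hv, e]
    exact ⟨rfl, rfl, rfl, rfl, hW j hj v hv, h⟩
  have o2 : ∀ j ∈ A, ∀ a b, g j = Sv.two a b → m (ag j) = ag j ∧ a ≠ b ∧ a ∈ W ∧ b ∈ W ∧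
      ((cl j = none ∧ m (vx a) = vx b ∧ m (vx b) = vx a ∧
        lab (ag j) = some (Sum.inr 0) ∧ lab (vx a) = none ∧ lab (vx b) = none) ∨
      ∃ κ, cl j = some κ ∧ m (vx a) = vx a ∧ m (vx b) = vx b ∧
        lab (ag j) = some (Sum.inl (κ, 2)) ∧ lab (vx a) = some (Sum.inl (κ, 0)) ∧
        lab (vx b) = some (Sum.inl (κ, 1))) := by
    intro j hj a b e
    have ha : a ∈ (g j).its := by simp [e, Sv.its]
    have hb : b ∈ (g j).its := by simp [e, Sv.its]
    have hab := two_ne hg hj e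
    rw [m1 j hj, m2 j hj a ha, m2 j hj b hb, l1 j hj, l2 j hj a ha, l2 j hj b hb, e]
    refine ⟨rfl, hab, hW j hj a ha, hW j hj b hb, ?_⟩
    rcases cl j with _ | κ
    · exact Or.inl (by simp [mV, lA, lV, hab.symm])
    · exact Or.inr ⟨κ, by simp [mV, lA, lV, hab.symm]⟩
  have hc := nd_cases (shape hg nt)
  have cnt : ∀ κ i, (univ.filter fun x => lab x = some (Sum.inl (κ, i))).card =
      (A.filter fun j => (∃ a b, g j = Sv.two a b) ∧ cl j = some κ).card := by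
    intro κ i
    symm
    refine card_bij (fun j _ => nd i j (g j)) (fun j hj => ?_) (fun j hj j' hj' e => ?_)
      fun x hx => ?_
    · obtain ⟨hj, ⟨a, b, e⟩, hk⟩ := mem_filter.1 hj
      rcases (o2 j hj a b e).2.2.2.2 with h | ⟨κ', h⟩
      · exact absurd (h.1.symm.trans hk) (by simp)
      · obtain rfl : κ' = κ := Option.some.inj (h.1.symm.trans hk)
        rw [mem_filter, e]
        fin_cases i <;> simp [nd, h]
    · obtain ⟨hj, ⟨a, b, e1⟩, -⟩ := mem_filter.1 hj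
      obtain ⟨hj', ⟨a', b', e2⟩, -⟩ := mem_filter.1 hj'
      by_contra hne
      have := hg.dis j hj j' hj' hne
      rw [e1, e2] at e this
      fin_cases i <;> simp_all [nd, Sv.its]
    · rw [mem_filter] at hx
      rcases hc x with ⟨j, hj, rfl⟩ | ⟨j, rfl⟩ | ⟨v, hv, rfl⟩ | ⟨j, hj, v, e, rfl | rfl⟩ |
        ⟨j, hj, a, b, e, hx'⟩
      · simp [l3 j hj, lO] at hx
      · simp [l5 j, lO] at hx
      · simp [l4 v hv, lO] at hx
      · simp [o1 j hj v e] at hx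
      · simp [o1 j hj v e] at hx
      · rcases (o2 j hj a b e).2.2.2.2 with h | ⟨κ', h⟩
        · rcases hx' with rfl | rfl | rfl <;> simp [h] at hx
        · refine ⟨j, mem_filter.2 ⟨hj, ⟨a, b, e⟩, ?_⟩, ?_⟩
          · rcases hx' with rfl | rfl | rfl <;> simp [h] at hx <;> rw [h.1, hx.1]
          · rcases hx' with rfl | rfl | rfl <;> simp [h] at hx <;> simp [e, nd, ← hx.2]
  have cnt0 : (univ.filter fun x => lab x = some (Sum.inr 0)).card ≤
      (A.filter fun j => (∃ a b, g j = Sv.two a b) ∧ cl j = none).card := by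
    refine le_trans (card_le_card fun x hx => ?_) (card_image_le (f := fun j => (ag j : Nd J V)))
    rw [mem_filter] at hx
    rcases hc x with ⟨j, hj, rfl⟩ | ⟨j, rfl⟩ | ⟨v, hv, rfl⟩ | ⟨j, hj, v, e, rfl | rfl⟩ |
      ⟨j, hj, a, b, e, hx'⟩
    · simp [l3 j hj, lO] at hx
    · simp [l5 j, lO] at hx
    · by_cases h : v ∈ W <;> simp [l4 v hv, lO, h] at hx
    · simp [o1 j hj v e] at hx
    · simp [o1 j hj v e] at hx
    · rcases (o2 j hj a b e).2.2.2.2 with h | ⟨κ', h⟩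
      · rcases hx' with rfl | rfl | rfl
        · exact mem_image_of_mem _ (mem_filter.2 ⟨hj, ⟨a, b, e⟩, h.1⟩)
        · simp [h] at hx
        · simp [h] at hx
      · rcases hx' with rfl | rfl | rfl <;> simp [h] at hx
  have cnt1 : (univ.filter fun x => lab x = some (Sum.inr 1)).card ≤ (W \ itsB A g).card := by
    refine le_trans (card_le_card fun x hx => ?_) (card_image_le (f := fun v => (vx v : Nd J V)))
    rw [mem_filter] at hx
    rcases hc x with ⟨j, hj, rfl⟩ | ⟨j, rfl⟩ | ⟨v, hv, rfl⟩ | ⟨j, hj, v, e, rfl | rfl⟩ |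
      ⟨j, hj, a, b, e, hx'⟩
    · simp [l3 j hj, lO] at hx
    · simp [l5 j, lO] at hx
    · by_cases h : v ∈ W
      · exact mem_image_of_mem _ (mem_sdiff.2 ⟨h, hv⟩)
      · simp [l4 v hv, lO, h] at hx
    · simp [o1 j hj v e] at hx
    · simp [o1 j hj v e] at hx
    · rcases (o2 j hj a b e).2.2.2.2 with h | ⟨κ', h⟩ <;>
        rcases hx' with rfl | rfl | rfl <;> simp [h] at hx
  refine ⟨fun d => (univ.filter fun x => lab x = some d).card, fun κ => ⟨?_, ?_, fun h => ?_⟩, ?_,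
    m, ⟨fun x => ?_, fun x hx => ?_⟩, lab, fun x => ?_, fun x d hx => ?_, fun d => ?_⟩
  · simp only [cnt]
  · simp only [cnt]
  · simp only [cnt] at h
    obtain ⟨j, hj⟩ := card_ne_zero.1 h
    obtain ⟨hj, ⟨a, b, e⟩, hk⟩ := mem_filter.1 hj
    exact ((hcl j hj a b e).2 κ hk).2.2.2
  · have h1 : (A.filter fun j => ∃ a b, g j = Sv.two a b).card =
        (A.filter fun j => (∃ a b, g j = Sv.two a b) ∧ cl j = none).card +
          ∑ κ, (A.filter fun j => (∃ a b, g j = Sv.two a b) ∧ cl j = some κ).card := by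
      rw [card_eq_sum_card_fiberwise (t := univ) (f := cl) fun _ _ => mem_coe.2 (mem_univ _),
        Fintype.sum_option]
      simp only [filter_filter]
      congr!
    have h2 := card_its hg nt
    have h3 := card_sdiff_add_card_eq_card
      (show itsB A g ⊆ W from biUnion_subset.2 fun j hj => hg.inW j hj)
    simp only [cnt]
    omega
  · rcases hc x with ⟨j, hj, rfl⟩ | ⟨j, rfl⟩ | ⟨v, hv, rfl⟩ | ⟨j, hj, v, e, rfl | rfl⟩ |
      ⟨j, hj, a, b, e, hx'⟩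
    · simp [m3 j hj]
    · simp [m5 j]
    · simp [m4 v hv]
    · simp [o1 j hj v e]
    · simp [o1 j hj v e]
    · have h0 := (o2 j hj a b e).1
      rcases (o2 j hj a b e).2.2.2.2 with h | ⟨κ', h⟩ <;>
        rcases hx' with rfl | rfl | rfl <;> simp [h, h0]
  · rcases hc x with ⟨j, hj, rfl⟩ | ⟨j, rfl⟩ | ⟨v, hv, rfl⟩ | ⟨j, hj, v, e, rfl | rfl⟩ |
      ⟨j, hj, a, b, e, hx'⟩
    · exact absurd (m3 j hj) hx
    · exact absurd (m5 j) hx
    · exact absurd (m4 v hv) hx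
    · obtain ⟨h1, -, -, -, h2⟩ := o1 j hj v e
      rw [h1]
      exact ⟨hj, h2⟩
    · obtain ⟨-, h1, -, -, h2⟩ := o1 j hj v e
      rw [h1]
      exact ⟨hj, h2⟩
    · obtain ⟨h0, -, ha, hb, h | ⟨κ', h⟩⟩ := o2 j hj a b e
      · have hu := ((hcl j hj a b e).1 h.1).2
        rcases hx' with rfl | rfl | rfl
        · exact absurd h0 hx
        · rw [h.2.1]
          exact ⟨ha, hb, Or.inl hu⟩
        · rw [h.2.2.1]
          exact ⟨hb, ha, Or.inr hu⟩
      · rcases hx' with rfl | rfl | rfl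
        · exact absurd h0 hx
        · exact absurd h.2.1 hx
        · exact absurd h.2.2.1 hx
  · rcases hc x with ⟨j, hj, rfl⟩ | ⟨j, rfl⟩ | ⟨v, hv, rfl⟩ | ⟨j, hj, v, e, rfl | rfl⟩ |
      ⟨j, hj, a, b, e, hx'⟩
    · simp [m3 j hj, l3 j hj, lO]
    · simp [m5 j, l5 j, lO]
    · simp [m4 v hv, l4 v hv, lO]
    · simp [o1 j hj v e]
    · simp [o1 j hj v e]
    · obtain ⟨h0, hab, -, -, h | ⟨κ', h⟩⟩ := o2 j hj a b e <;>
        rcases hx' with rfl | rfl | rfl <;> simp [h, h0, hab, hab.symm]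
  · rcases hc x with ⟨j, hj, rfl⟩ | ⟨j, rfl⟩ | ⟨v, hv, rfl⟩ | ⟨j, hj, v, e, rfl | rfl⟩ |
      ⟨j, hj, a, b, e, hx'⟩
    · obtain rfl : Sum.inr 2 = d := Option.some.inj ((l3 j hj).symm.trans hx)
      exact Or.inr ⟨rfl, hj⟩
    · obtain rfl : Sum.inr 2 = d := Option.some.inj ((l5 j).symm.trans hx)
      rfl
    · obtain rfl : Sum.inr (if v ∈ W then 1 else 2) = d :=
        Option.some.inj ((l4 v hv).symm.trans hx)
      by_cases h : v ∈ W
      · exact Or.inl ⟨if_pos h, h⟩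
      · exact Or.inr ⟨if_neg h, h⟩
    · simp [o1 j hj v e] at hx
    · simp [o1 j hj v e] at hx
    · obtain ⟨-, -, ha, hb, h | ⟨κ', h⟩⟩ := o2 j hj a b e
      · rcases hx' with rfl | rfl | rfl
        · obtain rfl : Sum.inr 0 = d := Option.some.inj (h.2.2.2.1.symm.trans hx)
          exact Or.inl ⟨rfl, hj, ((hcl j hj a b e).1 h.1).1⟩
        · simp [h] at hx
        · simp [h] at hx
      · have hk := (hcl j hj a b e).2 κ' h.1
        rcases hx' with rfl | rfl | rfl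
        · obtain rfl : Sum.inl (κ', 2) = d := Option.some.inj (h.2.2.2.1.symm.trans hx)
          exact ⟨hj, rfl, hk.2.2.1⟩
        · obtain rfl : Sum.inl (κ', 0) = d := Option.some.inj (h.2.2.2.2.1.symm.trans hx)
          exact ⟨ha, Or.inl ⟨rfl, hk.1⟩⟩
        · obtain rfl : Sum.inl (κ', 1) = d := Option.some.inj (h.2.2.2.2.2.symm.trans hx)
          exact ⟨hb, Or.inr ⟨rfl, hk.2.1⟩⟩
  · congr

/-- The members given by the pair services. -/
noncomputable def sP (P : G3 J V K) (A : Finset J) (g : J → Sv V) : Finset (M3 J V K) :=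
  univ.filter fun m => m.1 ∈ A ∧ g m.1 = Sv.two (m.2.2 false) (m.2.2 true) ∧
    ∀ s, P.colk m.1 (m.2.1 s) (m.2.2 s)

/-- Two members see each other consistently. -/
def Rl (P : G3 J V K) (m m' : M3 J V K) : Prop :=
  (P.mu m.1 ↔ P.mu m'.1) ∧ (∀ s, P.colk m.1 (m.2.1 s) (m'.2.2 s)) ∧
    ∀ s, P.colk m'.1 (m'.2.1 s) (m.2.2 s)

section
variable {S : Sub J V} {A : Finset J} {g : J → Sv V} {m m' : M3 J V K}

theorem mem_sP : m ∈ sP P A g ↔ m.1 ∈ A ∧ g m.1 = Sv.two (m.2.2 false) (m.2.2 true) ∧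
    ∀ s, P.colk m.1 (m.2.1 s) (m.2.2 s) := by
  simp only [sP, mem_filter, mem_univ, true_and]

theorem sP_inj (h : m ∈ sP P A g) (h' : m' ∈ sP P A g) (e : m.1 = m'.1) : m = m' := by
  obtain ⟨j, o, a⟩ := m
  obtain ⟨j', o', a'⟩ := m'
  rw [mem_sP] at h h'
  simp only at h h' e
  subst e
  obtain ⟨e1, e2⟩ := Sv.two.inj (h.2.1.symm.trans h'.2.1)
  obtain rfl : a = a' := funext fun s => by cases s <;> assumption
  obtain rfl : o = o' := funext fun s => G3.colk_unique (h'.2.2 s) (h.2.2 s).1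
  rfl

theorem sP_ex (hg : P.PSt S A g) {j : J} (hj : j ∈ A) {a b : V} (e : g j = Sv.two a b) :
    ∃ o : Bool → K, ((j, o, fun s => bif s then b else a) : M3 J V K) ∈ sP P A g := by
  obtain ⟨-, -, k, k', -, h1, h2⟩ := two_nrm hg hj e
  refine ⟨fun s => bif s then k' else k, mem_sP.2 ⟨hj, e, fun s => ?_⟩⟩
  cases s
  · exact h1
  · exact h2

theorem sP_its (h : m ∈ sP P A g) : (g m.1).its = {m.2.2 false, m.2.2 true} := by
  rw [(mem_sP.1 h).2.1, Sv.its]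

theorem sP_dis (hg : P.PSt S A g) (h : m ∈ sP P A g) (h' : m' ∈ sP P A g) (e : m ≠ m') :
    Disjoint ({m.2.2 false, m.2.2 true} : Finset V) {m'.2.2 false, m'.2.2 true} := by
  rw [← sP_its h, ← sP_its h']
  exact hg.dis _ (mem_sP.1 h).1 _ (mem_sP.1 h').1 fun e' => e (sP_inj h h' e')

theorem sP_own (hg : P.PSt S A g) (h : m ∈ sP P A g) : P.Pr m.1 (m.2.2 false) (m.2.2 true) :=
  (two_nrm hg (mem_sP.1 h).1 (mem_sP.1 h).2.1).2.1

theorem mem_two (a : Bool → V) (s : Bool) : a s ∈ ({a false, a true} : Finset V) := by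
  cases s <;> simp

theorem disM (hg : P.PSt S A g) {ι : Type} {F : ι → M3 J V K} (hi : Function.Injective F)
    (hF : ∀ r, F r ∈ sP P A g) : DisM F := by
  refine ⟨fun r r' e => hi (sP_inj (hF r) (hF r') e), ?_⟩
  rintro ⟨r, s⟩ ⟨r', s'⟩ (e : (F r).2.2 s = (F r').2.2 s')
  obtain rfl : r = r' := by
    by_contra hne
    exact disjoint_left.1 (sP_dis hg (hF r) (hF r') fun e => hne (hi e)) (mem_two _ s)
      (e ▸ mem_two _ s')
  have := (sP_own hg (hF r)).1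
  cases s <;> cases s'
  · rfl
  · exact absurd e this
  · exact absurd e.symm this
  · rfl

theorem cfam (hg : P.PSt S A g) {N : ℕ} {F : Fin N → M3 J V K} (hF : ∀ r, F r ∈ sP P A g)
    (hR : ∀ r r', r ≠ r' → Rl P (F r) (F r')) : P.CFam F := by
  refine ⟨fun r r' => ?_, fun r => sP_own hg (hF r), fun r r' h => ?_⟩ <;> by_cases e : r = r'
  · subst e
    exact (mem_sP.1 (hF r)).2.2
  · exact (hR r r' e).2.1
  · exact e ▸ h
  · exact (hR r r' e).1.1 h

theorem sm_colk {j : J} {k : K} {a a' : V} (h : P.sm j a a') (ha : P.colk j k a) :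
    P.colk j k a' := by
  obtain ⟨k', h1, h2⟩ := h
  exact G3.colk_unique ha h1.1 ▸ h2

theorem indep {t0 : ℕ} (h : ∀ T ⊆ A.filter fun j => ∃ a b, g j = Sv.two a b, t0 ≤ T.card →
    ∃ i ∈ T, ∃ k ∈ T, i ≠ k ∧ P.Cons g i k) :
    ∀ T ⊆ sP P A g, t0 ≤ T.card → ∃ x ∈ T, ∃ y ∈ T, x ≠ y ∧ Rl P x y := by
  intro T hT ht
  obtain ⟨i, hi, k, hk, hne, a, b, a', b', e, e', hc⟩ := h (T.image fun m => m.1) (fun j hj => by
    obtain ⟨x, hx, rfl⟩ := mem_image.1 hj
    exact mem_filter.2 ⟨(mem_sP.1 (hT hx)).1, _, _, (mem_sP.1 (hT hx)).2.1⟩) (by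
      rwa [card_image_of_injOn fun x hx y hy => sP_inj (hT hx) (hT hy)])
  obtain ⟨x, hx, rfl⟩ := mem_image.1 hi
  obtain ⟨y, hy, rfl⟩ := mem_image.1 hk
  obtain ⟨-, ex, ox⟩ := mem_sP.1 (hT hx)
  obtain ⟨-, ey, oy⟩ := mem_sP.1 (hT hy)
  obtain ⟨rfl, rfl⟩ := Sv.two.inj (e.symm.trans ex)
  obtain ⟨rfl, rfl⟩ := Sv.two.inj (e'.symm.trans ey)
  obtain ⟨c0, c1, c2, ⟨k1, c3⟩, ⟨k2, c4⟩⟩ := hc
  refine ⟨x, hx, y, hy, fun e => hne (by rw [e]), c0, fun s => ?_, fun s => ?_⟩ <;> cases s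
  · exact sm_colk c1 (ox _)
  · exact sm_colk c2 (ox _)
  · exact sm_colk ⟨k1, c3.symm⟩ (oy _)
  · exact sm_colk ⟨k2, c4.symm⟩ (oy _)

theorem conform (hg : P.PSt S A g) (hm : m ∈ sP P A g) {N h : ℕ} {F : Fin N → M3 J V K}
    (hc : (univ.filter fun r => ¬ Rl P m (F r)).card < h) :
    (∀ s, P.Sd F h s (m.2.2 s)) ∧ P.To F h m.1 m.2.1 := by
  have ho := (mem_sP.1 hm).2.2
  refine ⟨fun s => lt_of_le_of_lt (card_le_card fun r hr => ?_) hc,
    fun e => (sP_own hg hm).2.2 _ ⟨(ho false).1, e ▸ (ho true).1⟩,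
    lt_of_le_of_lt (card_le_card fun r hr => ?_) hc⟩ <;>
    simp only [mem_filter, mem_univ, true_and] at hr ⊢
  · exact fun h => hr (h.2.2 s)
  · exact fun h => hr h.2.1

theorem conform_ex {N h : ℕ} {F : Fin N → M3 J V K} (hN : h ≤ N)
    (hc : (univ.filter fun r => ¬ Rl P m (F r)).card < h) : ∃ r, Rl P m (F r) := by
  by_contra hn
  rw [filter_true_of_mem (p := fun r => ¬ Rl P m (F r)) fun r _ hr => hn ⟨r, hr⟩, card_univ,
    Fintype.card_fin] at hc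
  omega

end

theorem Sd_ne {N h : ℕ} {F : Fin N → M3 J V K} (hF : P.CFam F) (hN : 2 * h ≤ N) {x y : V}
    (hx : P.Sd F h false x) (hy : P.Sd F h true y) : x ≠ y := by
  rintro rfl
  have h1 : (univ : Finset (Fin N)) ⊆
      (univ.filter fun r => ¬ P.colk (F r).1 ((F r).2.1 false) x) ∪
      univ.filter fun r => ¬ P.colk (F r).1 ((F r).2.1 true) x := fun r _ => by
    simp only [mem_union, mem_filter, mem_univ, true_and]
    by_contra hn
    push Not at hn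
    exact G3.tm_ne hF r false (G3.colk_unique hn.2 hn.1.1)
  have h2 := (card_le_card h1).trans (card_union_le _ _)
  rw [card_univ, Fintype.card_fin] at h2
  unfold G3.Sd at hx hy
  omega

/-- A member with two terminals has only the terminals of its two sides. -/
theorem side_of {N : ℕ} {F : Fin N → M3 J V K} (hF : P.CFam F) {r : Fin N}
    (hs : ¬ P.mu (F r).1) {k : K} {x : V} (h : P.adt (F r).1 k x) : ∃ s, k = (F r).2.1 s := by
  obtain ⟨o, e⟩ := G3.strict_tm hs h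
  obtain ⟨o1, e1⟩ := G3.strict_tm hs (hF.1 r r false).1
  obtain ⟨o2, e2⟩ := G3.strict_tm hs (hF.1 r r true).1
  have h3 : (F r).2.1 false ≠ (F r).2.1 true := G3.tm_ne hF r false
  by_cases c : o = o1
  · exact ⟨false, by rw [e, e1, c]⟩
  · refine ⟨true, ?_⟩
    have : o = o2 := by
      by_contra c'
      apply h3
      rw [e1, e2]
      cases o <;> cases o1 <;> cases o2 <;> first | rfl | exact absurd rfl c | exact absurd rfl c'
    rw [e, e2, this]

/-- A pair that is refused by two members of a base family lies in a complete class. -/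
theorem exists_class {R : R3 J V K t M t' M0} (hM : 2 * R.h ≤ M) (hd : DisM R.mem)
    (hF : ∀ τ, P.CFam (R.F τ)) {j : J} {a b : V} (hab : a ≠ b) (nh : ¬ P.HH a b) {τ τ' : Fin t}
    (ha : P.Sd (R.F τ) R.h false a) (hb : P.Sd (R.F τ) R.h true b) (hj : P.Ty R τ j)
    (hs : ¬ P.mt R τ) (hs' : ¬ P.mt R τ')
    (h : 1 < (univ.filter fun r => ¬ P.Ok (R.F τ' r).1 a b).card) : ∃ κ, InC P R κ j a b := by
  obtain ⟨r, hr, r', hr', hne⟩ := one_lt_card.1 h
  obtain ⟨k, a1, b1⟩ := G3.refuse hab (Or.inr nh) (mem_filter.1 hr).2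
  obtain ⟨k', a2, b2⟩ := G3.refuse hab (Or.inr nh) (mem_filter.1 hr').2
  obtain ⟨o, rfl⟩ := side_of (hF τ') (fun c => hs' ⟨r, c⟩) a1
  obtain ⟨o', rfl⟩ := side_of (hF τ') (fun c => hs' ⟨r', c⟩) a2
  refine ⟨(τ, (τ', r, o), (τ', r', o')), ⟨ha, Or.inr ⟨a1, a2⟩⟩, ⟨hb, Or.inr ⟨b1, b2⟩⟩, hj,
    fun x y hx hy => ⟨Sd_ne (hF τ) hM hx.1 hy.1, Or.inr (G3.ind_k (fun e => hne ?_) a1 a2 b1 b2
      hab nh (hx.2.resolve_left hs).1 (hx.2.resolve_left hs).2 (hy.2.resolve_left hs).1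
      (hy.2.resolve_left hs).2)⟩⟩
  have := hd.1 (a₁ := Sum.inl (τ', r)) (a₂ := Sum.inl (τ', r')) (Prod.mk.inj e).1
  simpa using this

/-- A member as an installed service. -/
def toS (m : M3 J V K) : J × V × V × V := (m.1, m.2.2 false, m.2.2 false, m.2.2 true)

theorem mem_ag3 {Φ : Finset (J × V × V × V)} {Z : Finset (M3 J V K)} {j : J} :
    j ∈ ag3 (Φ ∪ Z.image toS) ↔ j ∈ ag3 Φ ∨ ∃ z ∈ Z, z.1 = j := by
  simp only [ag3, image_union, mem_union, image_image]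
  exact or_congr_right mem_image

theorem mem_it3 {Φ : Finset (J × V × V × V)} {Z : Finset (M3 J V K)} {v : V} :
    v ∈ it3 (Φ ∪ Z.image toS) ↔
      v ∈ it3 Φ ∨ ∃ z ∈ Z, v ∈ ({z.2.2 false, z.2.2 true} : Finset V) := by
  simp only [it3, union_biUnion, mem_union, image_biUnion]
  refine or_congr_right ?_
  simp only [toS, insert_idem, mem_biUnion]

theorem mem_fi {ι : Type} [Fintype ι] {F : ι → M3 J V K} {v : V} :
    v ∈ fi F ↔ ∃ r, v ∈ ({(F r).2.2 false, (F r).2.2 true} : Finset V) := by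
  simp only [fi, mem_image, mem_univ, true_and, mem_insert, mem_singleton, Prod.exists,
    Bool.exists_bool, eq_comm]

theorem phiOk {Φ : Finset (J × V × V × V)} {g : J → Sv V} {Z : Finset (M3 J V K)}
    (hΦ : P.PhiOk Φ) (hg : P.PSt (P.pl (univ \ ag3 Φ) (univ \ it3 Φ)) (univ \ ag3 Φ) g)
    (hZ : Z ⊆ sP P (univ \ ag3 Φ) g) : P.PhiOk (Φ ∪ Z.image toS) := by
  have key : ∀ s ∈ Φ, ∀ z ∈ Z, s.1 ≠ (toS z).1 ∧
      Disjoint ({s.2.1, s.2.2.1, s.2.2.2} : Finset V)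
        {(toS z).2.1, (toS z).2.2.1, (toS z).2.2.2} := fun s hs z hz => by
    have h1 := (mem_sP.1 (hZ hz)).1
    refine ⟨fun e => (mem_sdiff.1 h1).2 (mem_image.2 ⟨s, hs, e⟩),
      disjoint_left.2 fun v hv hv' => ?_⟩
    have h2 : v ∈ (g z.1).its := by
      rw [sP_its (hZ hz)]
      simpa only [toS, insert_idem] using hv'
    exact (mem_sdiff.1 (hg.inW _ h1 h2)).2 (mem_biUnion.2 ⟨s, hs, hv⟩)
  refine ⟨fun s hs => ?_, fun s hs s' hs' hne => ?_⟩
  · rcases mem_union.1 hs with hs | hs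
    · exact hΦ.1 s hs
    · obtain ⟨z, hz, rfl⟩ := mem_image.1 hs
      exact Or.inl (Or.inr ⟨trivial, z.2.2 false, by simp [toS], z.2.2 true, by simp [toS],
        sP_own hg (hZ hz)⟩)
  · rcases mem_union.1 hs with hs | hs <;> rcases mem_union.1 hs' with hs' | hs'
    · exact hΦ.2 s hs s' hs' hne
    · obtain ⟨z, hz, rfl⟩ := mem_image.1 hs'
      exact key s hs z hz
    · obtain ⟨z, hz, rfl⟩ := mem_image.1 hs
      exact ⟨(key s' hs' z hz).1.symm, (key s' hs' z hz).2.symm⟩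
    · obtain ⟨z, hz, rfl⟩ := mem_image.1 hs
      obtain ⟨z', hz', rfl⟩ := mem_image.1 hs'
      have h1 : z ≠ z' := fun e => hne (by rw [e])
      refine ⟨fun e => h1 (sP_inj (hZ hz) (hZ hz') e), ?_⟩
      simpa only [toS, insert_idem] using sP_dis hg (hZ hz) (hZ hz') h1

/-- The slack instance is solvable. -/
theorem sol2 {R : R3 J V K t M t' M0} {A U : Finset J} {W : Finset V} {g : J → Sv V}
    (hg : P.PSt (P.pl A W) A g) (nt : NoTri A g) (hU : U ⊆ A)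
    (hp : ∀ j ∈ A, ∀ a b, g j = Sv.two a b → ∃ τ, P.Ty R τ j) :
    P.Sol2 (P.SR R (A \ U) W) U.card := by
  have hA : ∀ j ∈ A \ U, j ∈ A := fun j hj => (mem_sdiff.1 hj).1
  refine ⟨fun j => (g j).its, ⟨subset_rfl, fun j hj => hg.inW j (hA j hj), fun j hj => ?_,
    fun i hi j hj => hg.dis i (hA i hi) j (hA j hj), fun v _ h => h.elim⟩, ?_⟩
  · rcases shape hg nt j (hA j hj) with ⟨v, e⟩ | ⟨a, b, e⟩
    · have h := hg.nrm j (hA j hj)
      rw [e] at h ⊢
      exact Or.inl ⟨v, by simp [Sv.its], h⟩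
    · have h1 := hp j (hA j hj) a b e
      have h := (two_nrm hg (hA j hj) e).2.1
      rw [e]
      exact Or.inr ⟨h1, a, by simp [Sv.its], b, by simp [Sv.its], h⟩
  · have h1 : (itsB A g).card ≤ W.card :=
      card_le_card (biUnion_subset.2 fun j hj => hg.inW j hj)
    rw [itsB, card_biUnion fun i hi j hj h => hg.dis i hi j hj h, ← sum_sdiff hU] at h1
    have h2 : U.card ≤ ∑ j ∈ U, (g j).its.card := by
      rw [card_eq_sum_ones]
      refine sum_le_sum fun j hj => card_pos.2 ?_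
      rcases shape hg nt j (hU hj) with ⟨v, e⟩ | ⟨a, b, e⟩ <;> simp [e, Sv.its]
    exact (Nat.add_le_add_left h2 _).trans h1

theorem assemble {R : R3 J V K t M t' M0} {Φ : Finset (J × V × V × V)} {g : J → Sv V}
    {Z : Finset (M3 J V K)} {e : ℕ} (hS : SLN e) (rk : J → ℕ) (c : ℕ)
    (hg : P.PSt (P.pl (univ \ ag3 Φ) (univ \ it3 Φ)) (univ \ ag3 Φ) g)
    (nt : NoTri (univ \ ag3 Φ) g) (hZ : Z ⊆ sP P (univ \ ag3 Φ) g)
    (hm : ∀ p, R.mem p ∈ sP P (univ \ ag3 Φ) g ∧ R.mem p ∉ Z)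
    (hp : ∀ x ∈ sP P (univ \ ag3 Φ) g, x ∉ Z → (∀ p, x ≠ R.mem p) →
      Un P R x.1 (x.2.2 false) (x.2.2 true) ∨ ∃ κ, InC P R κ x.1 (x.2.2 false) (x.2.2 true)) :
    Disjoint (ag3 (Φ ∪ Z.image toS)) (fa R.mem) ∧
      Disjoint (it3 (Φ ∪ Z.image toS)) (fi R.mem) ∧
      P.KTest R (univ \ (fa R.mem ∪ ag3 (Φ ∪ Z.image toS)))
        (univ \ (fi R.mem ∪ it3 (Φ ∪ Z.image toS))) ∧
      ∃ U : Finset J, U.card ≤ c ∧ (univ \ (fa R.mem ∪ ag3 (Φ ∪ Z.image toS)) ⊆ U ∨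
        P.TestSL rk (P.SR R (univ \ (fa R.mem ∪ ag3 (Φ ∪ Z.image toS) ∪ U))
          (univ \ (fi R.mem ∪ it3 (Φ ∪ Z.image toS)))) e c) := by
  obtain ⟨A, hA⟩ : ∃ A, A = univ \ (fa R.mem ∪ ag3 (Φ ∪ Z.image toS)) := ⟨_, rfl⟩
  obtain ⟨W, hW⟩ : ∃ W, W = univ \ (fi R.mem ∪ it3 (Φ ∪ Z.image toS)) := ⟨_, rfl⟩
  have mA : ∀ j ∈ A, j ∈ univ \ ag3 Φ ∧ (∀ p, (R.mem p).1 ≠ j) ∧ ∀ z ∈ Z, z.1 ≠ j := by
    intro j hj
    rw [hA, mem_sdiff, mem_union, mem_ag3, not_or, not_or] at hj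
    exact ⟨mem_sdiff.2 ⟨hj.1, hj.2.2.1⟩, fun p e => hj.2.1 (mem_image.2 ⟨p, mem_univ _, e⟩),
      fun z hz e => hj.2.2.2 ⟨z, hz, e⟩⟩
  have hg' : P.PSt (P.pl A W) A g := by
    refine ⟨subset_rfl, fun j hj v hv => ?_, fun j hj => hg.nrm j (mA j hj).1,
      fun i hi j hj => hg.dis i (mA i hi).1 j (mA j hj).1⟩
    have key : ∀ z ∈ sP P (univ \ ag3 Φ) g, z.1 ≠ j →
        v ∉ ({z.2.2 false, z.2.2 true} : Finset V) := fun z hz hne => by
      rw [← sP_its hz]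
      exact disjoint_right.1 (hg.dis _ (mem_sP.1 hz).1 _ (mA j hj).1 hne) hv
    change v ∈ W
    rw [hW, mem_sdiff, mem_union, mem_it3, mem_fi, not_or, not_or]
    exact ⟨mem_univ _, fun ⟨p, h⟩ => key _ (hm p).1 ((mA j hj).2.1 p) h,
      (mem_sdiff.1 (hg.inW j (mA j hj).1 hv)).2,
      fun ⟨z, hz, h⟩ => key z (hZ hz) ((mA j hj).2.2 z hz) h⟩
  have nt' : NoTri A g := fun j hj => nt j (mA j hj).1
  have hp' : ∀ j ∈ A, ∀ a b, g j = Sv.two a b → Un P R j a b ∨ ∃ κ, InC P R κ j a b :=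
    fun j hj a b e => by
      obtain ⟨o, ho⟩ := sP_ex hg (mA j hj).1 e
      exact hp _ ho (fun h => (mA j hj).2.2 _ h rfl) fun p h => (mA j hj).2.1 p (by rw [← h])
  refine ⟨disjoint_left.2 fun j hj hj' => ?_, disjoint_left.2 fun v hv hv' => ?_,
    hA ▸ hW ▸ ktest hg' nt' hp', ?_⟩
  · obtain ⟨p, -, rfl⟩ := mem_image.1 hj'
    rcases mem_ag3.1 hj with h | ⟨z, hz, h⟩
    · exact (mem_sdiff.1 (mem_sP.1 (hm p).1).1).2 h
    · exact (hm p).2 (sP_inj (hZ hz) (hm p).1 h ▸ hz)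
  · obtain ⟨p, hp⟩ := mem_fi.1 hv'
    rcases mem_it3.1 hv with h | ⟨z, hz, h⟩
    · rw [← sP_its (hm p).1] at hp
      exact (mem_sdiff.1 (hg.inW _ (mem_sP.1 (hm p).1).1 hp)).2 h
    · exact disjoint_left.1 (sP_dis hg (hZ hz) (hm p).1 fun e => (hm p).2 (e ▸ hz)) h hp
  · rcases le_total A.card c with hc | hc
    · exact ⟨A, hc, Or.inl (hA ▸ subset_rfl)⟩
    · obtain ⟨U, hU, rfl⟩ := exists_subset_card_eq hc
      refine ⟨U, le_rfl, Or.inr ?_⟩
      rw [show univ \ (fa R.mem ∪ ag3 (Φ ∪ Z.image toS) ∪ U) = A \ U by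
        rw [hA, sdiff_sdiff_left, sup_eq_union], ← hW]
      exact hS J V K P rk _ _ ⟨fun _ _ _ => Iff.rfl, fun _ => id⟩ (sol2 hg' nt' hU
        fun j hj a b e => (hp' j hj a b e).elim (fun h => h.1.2) fun ⟨κ, h⟩ => ⟨κ.1, h.2.2.1⟩)

end ERNec

open ERNec in
theorem rNecS (hE : ExtStmt) (_hN : NormS) : RNecS := by
  intro e c cT t0 c1 hS
  obtain ⟨L1, hL⟩ := hE t0 (fun h => 30 * h + c1) fun h => by omega
  refine ⟨cT + 2 * L1, fun L hLL J V K _ _ _ _ _ _ P rk Φ g hΦ hc hg nt hT => ?_⟩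
  have sy : ∀ x y, Rl P x y → Rl P y x := fun x y h => ⟨h.1.symm, h.2.2, h.2.1⟩
  obtain ⟨t, ht, h, -, hh, F, Bad, F1, F2, F3, B1, B2, B3, B4⟩ :=
    hL _ (sP P (univ \ ag3 Φ) g) (Rl P) sy (indep hT)
  obtain ⟨t', ht', h0, -, hh0, G, Bad0, G1, G2, G3, C1, C2, C3, C4⟩ :=
    hL _ ((sP P (univ \ ag3 Φ) g).filter fun x => x ∉ Bad ∧ (∀ τ r, x ≠ F τ r) ∧ ¬ P.mu x.1 ∧
      ∀ τ, (¬ ∃ r, P.mu (F τ r).1) →
        (univ.filter fun r => ¬ P.Ok (F τ r).1 (x.2.2 false) (x.2.2 true)).card ≤ 1) (Rl P) sy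
      fun T hT' => indep hT T (hT'.trans (filter_subset _ _))
  simp only [mem_filter] at G2
  have hm : ∀ p, R3.mem ⟨F, G, h, h0⟩ p ∈ sP P (univ \ ag3 Φ) g ∧
      R3.mem ⟨F, G, h, h0⟩ p ∉ Bad ∪ Bad0 := by
    rintro (p | p) <;> rw [mem_union, not_or]
    · exact ⟨F2 _ _, B3 _ _, fun h => (mem_filter.1 (C1 h)).2.2.1 _ _ rfl⟩
    · exact ⟨(G2 _ _).1, (G2 _ _).2.1, C3 _ _⟩
  have hd : DisM (R3.mem ⟨F, G, h, h0⟩) := by
    refine disM hg ?_ fun p => (hm p).1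
    rintro (p | p) (p' | p') e
    · rw [F1 e]
    · exact absurd e.symm ((G2 _ _).2.2.1 _ _)
    · exact absurd e ((G2 _ _).2.2.1 _ _)
    · rw [G1 e]
  have hF : ∀ τ, P.CFam (F τ) := fun τ => cfam hg (F2 τ) (F3 τ)
  have hZ : Bad ∪ Bad0 ⊆ sP P (univ \ ag3 Φ) g := union_subset B1 (C1.trans (filter_subset _ _))
  obtain ⟨d1, d2, kt, U, hU, hU'⟩ := assemble (R := ⟨F, G, h, h0⟩) hS rk c hg nt hZ hm
    fun x hx hb hne => by
      rw [mem_union, not_or] at hb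
      obtain ⟨τ, hτ⟩ := B4 x hx hb.1 fun τ r => hne (Sum.inl (τ, r))
      obtain ⟨x1, x3⟩ := conform hg hx hτ
      obtain ⟨r, hr⟩ := conform_ex (by omega) hτ
      have hmu : P.mu x.1 ↔ ∃ r, P.mu (F τ r).1 :=
        ⟨fun c => ⟨r, hr.1.1 c⟩, fun ⟨r', c⟩ => hr.1.2 ((hF τ).2.2 r' r c)⟩
      have hty : P.Ty ⟨F, G, h, h0⟩ τ x.1 := ⟨hmu, _, x3⟩
      by_cases hs : P.mu x.1
      · exact Or.inr ⟨(τ, (τ, r, false), (τ, r, false)), ⟨x1 _, Or.inl (hmu.1 hs)⟩,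
          ⟨x1 _, Or.inl (hmu.1 hs)⟩, hty, fun _ _ a b =>
            ⟨Sd_ne (h := h) (hF τ) (by omega) a.1 b.1, Or.inl (hmu.1 hs)⟩⟩
      have nh := (sP_own hg hx).2.1.resolve_left hs
      by_cases hu : ∀ τ, (¬ ∃ r, P.mu (F τ r).1) →
          (univ.filter fun r => ¬ P.Ok (F τ r).1 (x.2.2 false) (x.2.2 true)).card ≤ 1
      · obtain ⟨i, hi⟩ := C4 x
          (mem_filter.2 ⟨hx, hb.1, fun τ r => hne (Sum.inl (τ, r)), hs, hu⟩)
          hb.2 fun i r => hne (Sum.inr (i, r))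
        exact Or.inl ⟨⟨hs, τ, hty⟩, nh, i, (conform hg hx hi).1 _, (conform hg hx hi).1 _⟩
      · obtain ⟨τ', hτ'⟩ := not_forall.1 hu
        obtain ⟨s1, s2⟩ := Classical.not_imp.1 hτ'
        exact Or.inr (exists_class (R := ⟨F, G, h, h0⟩) (by simp only; omega) hd hF
          (sP_own hg hx).1 nh (x1 _) (x1 _) hty (fun c => hs (hmu.2 c)) s1 (not_le.1 s2))
  refine ⟨t, ht, t', ht', h, by omega, h0, by omega, F, G, _, U, ⟨hd, hF,
    fun i => cfam hg (fun r => (G2 i r).1) (G3 i), fun i r => (G2 i r).2.2.2.1,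
    fun i r => (G2 i r).2.2.2.2⟩, ?_, hU, phiOk hΦ hg hZ, d1, d2, kt, hU'⟩
  have h1 := card_union_le Φ ((Bad ∪ Bad0).image toS)
  have h2 := card_image_le (s := Bad ∪ Bad0) (f := toS)
  have h3 := card_union_le Bad Bad0
  omega

end Pool.Agent.Lib.MP_ef7581_lc.D3
end

-- part Pool.Agent.Lib.MP_ef7581_lc.ERAsg
section

/-!
Assignment of pair edges to the uncovered agents: a maximal family of units, a bounded selection
of units and Hall's theorem.
-/

set_option autoImplicit false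
set_option linter.unusedSectionVars false

namespace Pool.Agent.Lib.MP_ef7581_lc.D3.ERAsg

open Finset Classical D2

section Abs

variable {J V : Type} [Fintype J] [Fintype V] [DecidableEq J] [DecidableEq V]

def agU (U : Finset (Finset J × Finset V)) : Finset J := U.biUnion fun u => u.1
def edU (U : Finset (Finset J × Finset V)) : Finset V := U.biUnion fun u => u.2

def PD (U : Finset (Finset J × Finset V)) : Prop :=
  ∀ u ∈ U, ∀ u' ∈ U, u ≠ u' → Disjoint u.1 u'.1 ∧ Disjoint u.2 u'.2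

variable {U U' : Finset (Finset J × Finset V)}

theorem mem_agU {j : J} : j ∈ agU U ↔ ∃ u ∈ U, j ∈ u.1 := mem_biUnion
theorem mem_edU {x : V} : x ∈ edU U ↔ ∃ u ∈ U, x ∈ u.2 := mem_biUnion

theorem PD.mono (h : PD U) (hs : U' ⊆ U) : PD U' :=
  fun u hu u' hu' => h u (hs hu) u' (hs hu')

theorem agU_mono (hs : U' ⊆ U) : agU U' ⊆ agU U := biUnion_subset_biUnion_of_subset_left _ hs
theorem edU_mono (hs : U' ⊆ U) : edU U' ⊆ edU U := biUnion_subset_biUnion_of_subset_left _ hs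

theorem card_agU (h : PD U) (p : J → Prop) [DecidablePred p] :
    ((agU U).filter p).card = ∑ u ∈ U, (u.1.filter p).card := by
  rw [agU, filter_biUnion, card_biUnion]
  intro u hu u' hu' ne
  exact disjoint_filter_filter (h u hu u' hu' ne).1

theorem card_edU (h : PD U) (p : V → Prop) [DecidablePred p] :
    ((edU U).filter p).card = ∑ u ∈ U, (u.2.filter p).card := by
  rw [edU, filter_biUnion, card_biUnion]
  intro u hu u' hu' ne
  exact disjoint_filter_filter (h u hu u' hu' ne).2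

/-- Edges that serve a type of `T` minus agents all of whose types lie in `T`. -/
noncomputable def val {t : ℕ} (Ty : Fin t → J → Prop) (Sr : Fin t → V → Prop) (a : Finset J)
    (e : Finset V) (T : Finset (Fin t)) : ℤ :=
  ((e.filter fun x => ∃ τ ∈ T, Sr τ x).card : ℤ) -
    ((a.filter fun j => ∀ τ, Ty τ j → τ ∈ T).card : ℤ)

theorem val_ge {t : ℕ} (Ty : Fin t → J → Prop) (Sr : Fin t → V → Prop) (a : Finset J)
    (e : Finset V) (T : Finset (Fin t)) {n : ℕ} (h : a.card ≤ n) :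
    -(n : ℤ) ≤ val Ty Sr a e T := by
  have h1 := card_filter_le a fun j => ∀ τ, Ty τ j → τ ∈ T
  unfold val
  omega

theorem val_add {t : ℕ} (Ty : Fin t → J → Prop) (Sr : Fin t → V → Prop) {a : Finset J}
    {e : Finset V} (T : Finset (Fin t)) (h : PD U) (ha : Disjoint a (agU U))
    (he : Disjoint e (edU U)) :
    val Ty Sr (a ∪ agU U) (e ∪ edU U) T = val Ty Sr a e T + ∑ u ∈ U, val Ty Sr u.1 u.2 T := by
  unfold val
  rw [filter_union, filter_union, card_union_of_disjoint (disjoint_filter_filter ha),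
    card_union_of_disjoint (disjoint_filter_filter he), card_agU h, card_edU h, sum_sub_distrib]
  push_cast
  ring

theorem sel (hS : SelStmt) (hH : HallStmt) (t0 D0 : ℕ) : ∃ K : ℕ, ∀ t, t < t0 →
    ∀ (J V : Type) [Fintype J] [Fintype V] [DecidableEq J] [DecidableEq V] (Ou : Finset J)
      (E : Finset V) (Ty : Fin t → J → Prop) (Sr : Fin t → V → Prop)
      (U : Finset (Finset J × Finset V)) (ow : J → V → Prop), PD U →
      (∀ u ∈ U, u.1 ⊆ Ou ∧ u.2 ⊆ E ∧ u.1.card ≤ 2) → (Ou \ agU U).card ≤ D0 →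
      (∀ j j' x, ow j x → ow j' x → j = j') →
      (∀ j ∈ Ou, ∃ x ∈ E, ow j x ∧ ∃ τ, Ty τ j ∧ Sr τ x) →
      ∃ U' ⊆ U, U'.card ≤ K ∧ ∃ fh : J → Option V,
        (∀ j ∈ (Ou \ agU U) ∪ agU U', ∃ y ∈ (E \ edU U) ∪ edU U', fh j = some y ∧
          ∃ τ, Ty τ j ∧ Sr τ y) ∧
        ∀ i ∈ (Ou \ agU U) ∪ agU U', ∀ j ∈ (Ou \ agU U) ∪ agU U', fh i = fh j → i = j := by
  choose Kf hK using fun t : ℕ => hS (Finset (Fin t)) (D0 + 2)
  refine ⟨(range t0).sup Kf, fun t ht J V _ _ _ _ Ou E Ty Sr U ow hU hu hL o1 o2 => ?_⟩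
  have sA : agU U ⊆ Ou := fun j hj => by
    obtain ⟨u, a, b⟩ := mem_agU.1 hj
    exact (hu u a).1 b
  have sE : edU U ⊆ E := fun j hj => by
    obtain ⟨u, a, b⟩ := mem_edU.1 hj
    exact (hu u a).2.1 b
  obtain ⟨U', s1, s2, s3⟩ := hK t _ U (fun u T => val Ty Sr u.1 u.2 T)
    (fun T => val Ty Sr (Ou \ agU U) (E \ edU U) T)
    (fun u a T => val_ge Ty Sr _ _ T (le_trans (hu u a).2.2 (by omega)))
    (fun T => val_ge Ty Sr _ _ T (by omega)) (fun T => by
      rw [← val_add Ty Sr T hU sdiff_disjoint sdiff_disjoint, sdiff_union_of_subset sA,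
        sdiff_union_of_subset sE]
      have : (Ou.filter fun j => ∀ τ, Ty τ j → τ ∈ T).card ≤
          (E.filter fun x => ∃ τ ∈ T, Sr τ x).card := by
        refine card_le_card_of_forall_subsingleton ow (fun j hj => ?_) fun x _ j hj j' hj' => ?_
        · rw [mem_filter] at hj
          obtain ⟨x, a, b, τ, c, d⟩ := o2 j hj.1
          exact ⟨x, mem_filter.2 ⟨a, τ, hj.2 τ c, d⟩, b⟩
        · exact o1 _ _ _ hj.2 hj'.2
      unfold val
      omega)
  refine ⟨U', s1, le_trans s2 (le_sup (mem_range.2 ht)), ?_⟩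
  obtain ⟨s', fh, h1, h2, h3, h4⟩ := hH J V ((Ou \ agU U) ∪ agU U') ((E \ edU U) ∪ edU U')
    (fun j y => ∃ τ, Ty τ j ∧ Sr τ y) 0 (fun S hS' => by
      have a := s3 (univ.filter fun τ => ∃ j ∈ S, Ty τ j)
      rw [← val_add Ty Sr _ (hU.mono s1) (sdiff_disjoint.mono_right (agU_mono s1))
        (sdiff_disjoint.mono_right (edU_mono s1))] at a
      have b : S.card ≤ (((Ou \ agU U) ∪ agU U').filter fun j => ∀ τ, Ty τ j →
          τ ∈ univ.filter fun τ => ∃ j ∈ S, Ty τ j).card :=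
        card_le_card fun j hj => mem_filter.2 ⟨hS' hj, fun τ c =>
          mem_filter.2 ⟨mem_univ _, j, hj, c⟩⟩
      have c : S.card ≤ (((E \ edU U) ∪ edU U').filter fun x =>
          ∃ τ ∈ univ.filter fun τ => ∃ j ∈ S, Ty τ j, Sr τ x).card := by
        unfold val at a
        omega
      refine le_trans c (le_trans (card_le_card fun y hy => ?_) (Nat.le_add_right _ _))
      obtain ⟨c1, τ, c2, c3⟩ := mem_filter.1 hy
      obtain ⟨-, j, c4, c5⟩ := mem_filter.1 c2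
      exact (@mem_filter _ _ (_) _ _).2 ⟨c1, j, c4, τ, c5, c3⟩)
  have e : s' = (Ou \ agU U) ∪ agU U' := eq_of_subset_of_card_le h1 (by omega)
  subst e
  exact ⟨fh, h3, h4⟩

/-- A unit: at most two agents that are served by the ends of their edges. -/
structure Un (Ou : Finset J) (E : Finset V) (In : V → V → Prop) (sv : J → Finset V → Prop)
    (f : J → Finset V) (u : Finset J × Finset V) : Prop where
  a : u.1 ⊆ Ou
  e : u.2 ⊆ E
  c2 : u.1.card ≤ 2
  ce : u.2.card ≤ u.1.card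
  s : ∀ j ∈ u.1, (∀ v ∈ f j, ∃ x ∈ u.2, In v x) ∧ sv j (f j)
  d : ∀ i ∈ u.1, ∀ j ∈ u.1, i ≠ j → Disjoint (f i) (f j)

theorem Un.congr {Ou : Finset J} {E : Finset V} {In : V → V → Prop} {sv : J → Finset V → Prop}
    {f f' : J → Finset V} {u : Finset J × Finset V} (h : Un Ou E In sv f u)
    (hf : ∀ j ∈ u.1, f' j = f j) : Un Ou E In sv f' u :=
  ⟨h.a, h.e, h.c2, h.ce, fun j hj => by rw [hf j hj]; exact h.s j hj,
    fun i hi j hj ne => by rw [hf i hi, hf j hj]; exact h.d i hi j hj ne⟩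

theorem maxfam {Ou : Finset J} {E : Finset V} {In : V → V → Prop} {sv : J → Finset V → Prop}
    {U0 : Finset (Finset J × Finset V)} {f0 : J → Finset V} (p0 : PD U0)
    (h0 : ∀ u ∈ U0, Un Ou E In sv f0 u) :
    ∃ (U : Finset (Finset J × Finset V)) (f : J → Finset V), PD U ∧ (∀ u ∈ U, Un Ou E In sv f u) ∧
      edU U0 ⊆ edU U ∧ ∀ u f', Un Ou E In sv f' u → u.1.Nonempty → Disjoint u.1 (agU U) →
        Disjoint u.2 (edU U) → False := by
  obtain ⟨U, hU, hm⟩ := exists_max_image (univ.filter fun U : Finset (Finset J × Finset V) =>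
    PD U ∧ (∃ f, ∀ u ∈ U, Un Ou E In sv f u) ∧ edU U0 ⊆ edU U) (fun U => (agU U).card)
    ⟨U0, mem_filter.2 ⟨mem_univ _, p0, ⟨f0, h0⟩, Subset.rfl⟩⟩
  obtain ⟨-, p, ⟨f, hf⟩, sub⟩ := mem_filter.1 hU
  refine ⟨U, f, p, hf, sub, fun u f' hu ne d1 d2 => ?_⟩
  have dd : ∀ w ∈ U, Disjoint u.1 w.1 ∧ Disjoint u.2 w.2 := fun w hw =>
    ⟨d1.mono_right (subset_biUnion_of_mem (fun u : Finset J × Finset V => u.1) hw),
      d2.mono_right (subset_biUnion_of_mem (fun u : Finset J × Finset V => u.2) hw)⟩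
  have a := hm (insert u U) (mem_filter.2 ⟨mem_univ _, ?_,
    ⟨fun j => if j ∈ u.1 then f' j else f j, fun w hw => ?_⟩,
    sub.trans (edU_mono (subset_insert _ _))⟩)
  · have b : agU (insert u U) = u.1 ∪ agU U := biUnion_insert
    have c := ne.card_pos
    simp only [b, card_union_of_disjoint d1] at a
    omega
  · intro w hw w' hw' n
    rcases mem_insert.1 hw with e1 | e1 <;> rcases mem_insert.1 hw' with e2 | e2
    · exact (n (e1.trans e2.symm)).elim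
    · exact e1 ▸ dd _ e2
    · exact e2 ▸ ⟨(dd _ e1).1.symm, (dd _ e1).2.symm⟩
    · exact p _ e1 _ e2 n
  · rcases mem_insert.1 hw with rfl | hw
    · exact hu.congr fun j hj => if_pos hj
    · exact (hf w hw).congr fun j hj => if_neg fun c => disjoint_left.1 (dd w hw).1 c hj

theorem left_le {Ou : Finset J} {E : Finset V} {In : V → V → Prop} {sv : J → Finset V → Prop}
    {f : J → Finset V} (p : PD U) (h : ∀ u ∈ U, Un Ou E In sv f u) (hc : Ou.card ≤ E.card) :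
    (Ou \ agU U).card ≤ (E \ edU U).card := by
  have sA : agU U ⊆ Ou := fun j hj => by
    obtain ⟨u, a, b⟩ := mem_agU.1 hj
    exact (h u a).a b
  have a := card_agU p fun _ => True
  have b := card_edU p fun _ => True
  simp only [filter_true] at a b
  have c : ∑ u ∈ U, u.2.card ≤ ∑ u ∈ U, u.1.card := sum_le_sum fun u hu => (h u hu).ce
  have d := card_sdiff_add_card_eq_card sA
  have e := le_card_sdiff (edU U) E
  omega

/-! ### Pair edges -/

/-- The partner of an item. -/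
def pt (ν : Nd J V → Nd J V) (x : V) : V :=
  match ν (vx x) with
  | Sum.inr (Sum.inl y) => y
  | _ => x

variable {ν : Nd J V → Nd J V}

theorem pt_eq {x y : V} (h : ν (vx x) = vx y) : pt ν x = y := by
  unfold pt
  rw [h]

theorem pt_spec {x : V} (h : pt ν x ≠ x) : ν (vx x) = vx (pt ν x) := by
  unfold pt at h ⊢
  rcases hm : ν (vx x) with i | u | i <;> rw [hm] at h
  · exact (h rfl).elim
  · exact (h rfl).elim

theorem pt_pt (hν : ∀ x, ν (ν x) = x) (x : V) : pt ν (pt ν x) = x := by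
  by_cases h : pt ν x = x
  · rw [h, h]
  · refine pt_eq ?_
    rw [← pt_spec h, hν]

noncomputable def rk (x : V) : ℕ := (Fintype.equivFin V x).val

theorem rk_inj {x y : V} (h : rk x = rk y) : x = y :=
  (Fintype.equivFin V).injective (Fin.ext h)

/-- The names of the pair edges. -/
noncomputable def Ed (ν : Nd J V → Nd J V) : Finset V := univ.filter fun x => rk x < rk (pt ν x)

def In (ν : Nd J V → Nd J V) (v x : V) : Prop := v = x ∨ v = pt ν x

theorem Ed_ne {x : V} (h : x ∈ Ed ν) : x ≠ pt ν x := fun e => by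
  have a := (mem_filter.1 h).2
  rw [← e] at a
  omega

theorem Ed_spec {x : V} (h : x ∈ Ed ν) : ν (vx x) = vx (pt ν x) := pt_spec (Ed_ne h).symm

theorem In_unique (hν : ∀ x, ν (ν x) = x) {v x y : V} (hx : x ∈ Ed ν) (hy : y ∈ Ed ν)
    (a : In ν v x) (b : In ν v y) : x = y := by
  have c := (mem_filter.1 hx).2
  have d := (mem_filter.1 hy).2
  rcases a with rfl | a <;> rcases b with b | b
  · exact b
  · rw [b, pt_pt hν] at c
    omega
  · rw [← a, b] at c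
    rw [← b, a, pt_pt hν, ← a, b] at d
    omega
  · rw [← pt_pt hν x, ← a, b, pt_pt hν]

theorem name_ex (hν : ∀ x, ν (ν x) = x) {x y : V} (ne : x ≠ y) (h : ν (vx x) = vx y) :
    ∃ e ∈ Ed ν, (e = x ∧ pt ν e = y) ∨ (e = y ∧ pt ν e = x) := by
  have a := pt_eq h
  have b : pt ν y = x := by rw [← a, pt_pt hν]
  rcases lt_trichotomy (rk x) (rk y) with c | c | c
  · exact ⟨x, mem_filter.2 ⟨mem_univ _, by rwa [a]⟩, Or.inl ⟨rfl, a⟩⟩
  · exact (ne (rk_inj c)).elim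
  · exact ⟨y, mem_filter.2 ⟨mem_univ _, by rwa [b]⟩, Or.inr ⟨rfl, b⟩⟩

end Abs

section Geom

variable {J V K : Type} [Fintype J] [Fintype V] [Fintype K] [DecidableEq J] [DecidableEq V]
  [DecidableEq K] {P : G3 J V K} {t M t' M0 : ℕ} {R : R3 J V K t M t' M0}

theorem srv_symm {h2 : ℕ} {τ : Fin t} {x y : V} (h : P.Srv R h2 τ x y) : P.Srv R h2 τ y x := by
  rcases h with ⟨a, s, b, c⟩ | ⟨a, b, c⟩
  · exact Or.inl ⟨a, !s, c, by simpa using b⟩
  · refine Or.inr ⟨a, fun d => b (Geo.HH_symm d), ?_⟩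
    rcases c with c | c | c
    · refine Or.inl (le_trans c (card_le_card fun r hr => ?_))
      exact mem_filter.2 ⟨mem_univ _, G3.Ok_symm (mem_filter.1 hr).2⟩
    · exact Or.inr (Or.inr c)
    · exact Or.inr (Or.inl c)

theorem compat_symm {h2 : ℕ} {j : J} {x y : V} (h : P.Compat R h2 j x y) :
    P.Compat R h2 j y x := h.imp fun _ a => ⟨a.1, srv_symm a.2⟩

/-- Two agents of one type have at most one common junk item. -/
theorem ty_junk (hM : 2 * R.h + 2 ≤ M) {τ : Fin t} {j j' : J} (ne : j ≠ j') (a : P.Ty R τ j)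
    (b : P.Ty R τ j') : (univ.filter fun x => P.junk j x ∧ P.junk j' x).card ≤ 1 := by
  obtain ⟨o, -, a⟩ := a.2
  obtain ⟨o', -, b⟩ := b.2
  obtain ⟨r, -, hr⟩ := Geo.exists_not_mem (s := (univ : Finset (Fin M)))
    (U := (univ.filter fun r => ¬ ∀ s, P.colk j (o s) ((R.F τ r).2.2 s)) ∪
      univ.filter fun r => ¬ ∀ s, P.colk j' (o' s) ((R.F τ r).2.2 s))
    (lt_of_le_of_lt (card_union_le _ _) (by rw [card_univ, Fintype.card_fin]; omega))
  simp only [mem_union, mem_filter, mem_univ, true_and, not_or, not_not] at hr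
  refine card_le_one.2 fun x hx y hy => ?_
  by_contra hxy
  rw [mem_filter] at hx hy
  exact G3.colk_not_C (hr.2 false)
    (G3.coline ne hxy hx.2.1 hy.2.1 hx.2.2 hy.2.2 (hr.1 false))

/-- An edge that two multiple agents refuse, oriented so that each agent gets a coloured end. -/
theorem orient {j j' : J} {x y : V} (m : P.mu j) (m' : P.mu j') (ne : x ≠ y) (h : ¬ P.Ok j x y)
    (h' : ¬ P.Ok j' x y) (n1 : ¬ (P.junk j x ∧ P.junk j y)) (n2 : ¬ (P.junk j' x ∧ P.junk j' y))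
    (n3 : ¬ (P.junk j x ∧ P.junk j' x)) (n4 : ¬ (P.junk j y ∧ P.junk j' y)) :
    ∃ a b k k', ((a = x ∧ b = y) ∨ (a = y ∧ b = x)) ∧ P.colk j k a ∧ P.colk j' k' b ∧
      P.adt j k x ∧ P.adt j k y ∧ P.adt j' k' x ∧ P.adt j' k' y := by
  obtain ⟨k, a1, a2⟩ := G3.refuse ne (Or.inl m) h
  obtain ⟨k', b1, b2⟩ := G3.refuse ne (Or.inl m') h'
  by_cases c : ¬ P.junk j x ∧ ¬ P.junk j' y
  · exact ⟨x, y, k, k', Or.inl ⟨rfl, rfl⟩, ⟨a1, c.1⟩, ⟨b2, c.2⟩, a1, a2, b1, b2⟩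
  · exact ⟨y, x, k, k', Or.inr ⟨rfl, rfl⟩, ⟨a2, by tauto⟩, ⟨b1, by tauto⟩, a1, a2, b1, b2⟩

variable {h2 : ℕ} {A : Finset J} {W : Finset V} {B : Finset J} {g : J → Sv V} {od : Od3 J V K t}
  {μ ν : Nd J V → Nd J V} {nE d : ℕ}

/-- New pair edges with both ends next to one terminal. -/
noncomputable def NT (P : G3 J V K) (μ ν : Nd J V → Nd J V) (j : J) (k : K) : Finset V :=
  univ.filter fun x => ∃ y, x ≠ y ∧ ν (vx x) = vx y ∧ μ (vx x) ≠ vx y ∧ P.adt j k x ∧ P.adt j k y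

theorem mem_NT {j : J} {k : K} {x : V} (hx : x ∈ Ed ν) (n : μ (vx x) ≠ vx (pt ν x))
    (a : P.adt j k x) (b : P.adt j k (pt ν x)) : x ∈ NT P μ ν j k :=
  mem_filter.2 ⟨mem_univ _, _, Ed_ne hx, Ed_spec hx, n, a, b⟩

abbrev Sv0 (P : G3 J V K) : J → Finset V → Prop := P.Serv2 (P.pl univ univ)

theorem un_one {Ou : Finset J} {j : J} {x : V} (hj : j ∈ Ou) (hx : x ∈ Ed ν)
    (h : P.Ok j x (pt ν x)) :
    Un Ou (Ed ν) (In ν) (Sv0 P) (fun _ => {x, pt ν x}) ({j}, {x}) := by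
  refine ⟨by simpa using hj, by simpa using hx, by simp, by simp, fun i hi => ?_,
    fun i hi i' hi' n => ?_⟩
  · rw [mem_singleton.1 hi]
    refine ⟨fun v hv => ⟨x, mem_singleton_self _, ?_⟩, G3.serv_of_Ok (G3.wf_pl _ _) trivial h⟩
    simpa [In] using hv
  · exact (n ((mem_singleton.1 hi).trans (mem_singleton.1 hi').symm)).elim

theorem un_two (hν : ∀ x, ν (ν x) = x) {Ou : Finset J} {j j' : J} {x x' a b a' b' : V}
    (hj : j ∈ Ou) (hj' : j' ∈ Ou) (nj : j ≠ j') (hx : x ∈ Ed ν) (hx' : x' ∈ Ed ν) (nx : x ≠ x')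
    (o : (a = x ∧ b = pt ν x) ∨ (a = pt ν x ∧ b = x))
    (o' : (a' = x' ∧ b' = pt ν x') ∨ (a' = pt ν x' ∧ b' = x'))
    (p : P.Pr j a a') (p' : P.Pr j' b b') :
    Un Ou (Ed ν) (In ν) (Sv0 P) (fun i => if i = j then {a, a'} else {b, b'})
      ({j, j'}, {x, x'}) := by
  have ia : In ν a x := o.imp And.left And.left
  have ib : In ν b x := (o.imp And.right And.right).symm
  have ia' : In ν a' x' := o'.imp And.left And.left
  have ib' : In ν b' x' := (o'.imp And.right And.right).symm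
  have n1 : a ≠ b := by
    rcases o with ⟨rfl, rfl⟩ | ⟨rfl, rfl⟩
    · exact Ed_ne hx
    · exact (Ed_ne hx).symm
  have n2 : a' ≠ b' := by
    rcases o' with ⟨rfl, rfl⟩ | ⟨rfl, rfl⟩
    · exact Ed_ne hx'
    · exact (Ed_ne hx').symm
  have n3 : a ≠ b' := fun e => nx (In_unique hν hx hx' ia (e ▸ ib'))
  have n4 : a' ≠ b := fun e => nx (In_unique hν hx hx' ib (e ▸ ia'))
  have dj : Disjoint ({a, a'} : Finset V) {b, b'} := by
    simp [disjoint_left, n1, n2, n3, n4]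
  refine ⟨?_, ?_, card_le_two, ?_, fun i hi => ?_, fun i hi i' hi' n => ?_⟩
  · simp [insert_subset_iff, hj, hj']
  · simp [insert_subset_iff, hx, hx']
  · rw [card_pair nj]
    exact card_le_two
  · rcases mem_insert.1 hi with rfl | e
    · rw [if_pos rfl]
      refine ⟨fun v hv => ?_, G3.serv_of_Ok (G3.wf_pl _ _) trivial (Or.inr (Or.inr p))⟩
      rcases mem_insert.1 hv with rfl | e
      · exact ⟨x, by simp, ia⟩
      · exact ⟨x', by simp, mem_singleton.1 e ▸ ia'⟩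
    · rw [mem_singleton.1 e, if_neg nj.symm]
      refine ⟨fun v hv => ?_, G3.serv_of_Ok (G3.wf_pl _ _) trivial (Or.inr (Or.inr p'))⟩
      rcases mem_insert.1 hv with rfl | e
      · exact ⟨x, by simp, ib⟩
      · exact ⟨x', by simp, mem_singleton.1 e ▸ ib'⟩
  · simp only [mem_insert, mem_singleton] at hi hi'
    rcases hi with rfl | rfl <;> rcases hi' with rfl | rfl
    · exact (n rfl).elim
    · rw [if_pos rfl, if_neg nj.symm]
      exact dj
    · rw [if_pos rfl, if_neg nj.symm]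
      exact dj.symm
    · exact (n rfl).elim

theorem NT_le (ho : P.KOut R h2 A W od μ ν nE d) (j : J) (k : K) : (NT P μ ν j k).card ≤ d :=
  ho.jt j k

theorem strict_bound (ho : P.KOut R h2 A W od μ ν nE d) {j : J} (hs : ¬ P.mu j) {N : Finset V}
    (hN : ∀ x ∈ N, x ∈ Ed ν ∧ μ (vx x) ≠ vx (pt ν x) ∧ ¬ P.Ok j x (pt ν x)) :
    N.card ≤ 3 * d := by
  have a : N ⊆ (univ.filter fun x => ∃ y, x ≠ y ∧ ν (vx x) = vx y ∧ μ (vx x) ≠ vx y ∧ P.HH x y) ∪
      (NT P μ ν j (P.b j false) ∪ NT P μ ν j (P.b j true)) := fun x hx => by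
    obtain ⟨a, b, c⟩ := hN x hx
    by_cases e : P.HH x (pt ν x)
    · exact mem_union_left _ (mem_filter.2 ⟨mem_univ _, _, Ed_ne a, Ed_spec a, b, e⟩)
    obtain ⟨k, k1, k2⟩ := G3.refuse (Ed_ne a) (Or.inr e) c
    obtain ⟨o, rfl⟩ := G3.strict_tm hs k1
    refine mem_union_right _ ?_
    cases o
    · exact mem_union_left _ (mem_NT a b k1 k2)
    · exact mem_union_right _ (mem_NT a b k1 k2)
  have b := le_trans (card_le_card a) (card_union_le _ _)
  have c := card_union_le (NT P μ ν j (P.b j false)) (NT P μ ν j (P.b j true))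
  have e := ho.ja
  have f := NT_le ho j (P.b j false)
  have f' := NT_le ho j (P.b j true)
  omega

theorem multi_bound (ho : P.KOut R h2 A W od μ ν nE d) (hM : 2 * R.h + 2 ≤ M) {j j' : J}
    {τ : Fin t} (ne : j ≠ j') (m : P.mu j) (m' : P.mu j') (a : P.Ty R τ j) (a' : P.Ty R τ j')
    {N : Finset V} (hN : ∀ x ∈ N, x ∈ Ed ν ∧ μ (vx x) ≠ vx (pt ν x) ∧ ¬ P.Ok j x (pt ν x) ∧
      ¬ P.Ok j' x (pt ν x)) (hc : 4 * d + 2 < N.card) :
    ∃ x ∈ N, ∃ x' ∈ N, ∃ a b a' b', x ≠ x' ∧ ((a = x ∧ b = pt ν x) ∨ (a = pt ν x ∧ b = x)) ∧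
      ((a' = x' ∧ b' = pt ν x') ∨ (a' = pt ν x' ∧ b' = x')) ∧ P.Pr j a a' ∧ P.Pr j' b b' := by
  obtain ⟨Z, hZ, cZ⟩ : ∃ Z : Finset V, (∀ x, P.junk j x → P.junk j' x → x ∈ Z ∧ pt ν x ∈ Z) ∧
      Z.card ≤ 2 := by
    have b := ty_junk hM ne a a'
    refine ⟨(univ.filter fun x => P.junk j x ∧ P.junk j' x) ∪
      (univ.filter fun x => P.junk j x ∧ P.junk j' x).image (pt ν), fun x c e => ?_,
      le_trans (card_union_le _ _) (le_trans (Nat.add_le_add b (le_trans card_image_le b)) le_rfl)⟩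
    have f : x ∈ univ.filter fun x => P.junk j x ∧ P.junk j' x := mem_filter.2 ⟨mem_univ _, c, e⟩
    exact ⟨mem_union_left _ f, mem_union_right _ (mem_image_of_mem _ f)⟩
  obtain ⟨Bd, cB, hB⟩ : ∃ Bd : Finset V, Bd.card ≤ 2 * d + 2 ∧ ∀ x ∈ N, x ∉ Bd →
      ∃ a b k k', ((a = x ∧ b = pt ν x) ∨ (a = pt ν x ∧ b = x)) ∧ P.colk j k a ∧ P.colk j' k' b ∧
        P.adt j k x ∧ P.adt j k (pt ν x) ∧ P.adt j' k' x ∧ P.adt j' k' (pt ν x) := by
    refine ⟨Z ∪ (NT P μ ν j (P.b j false) ∪ NT P μ ν j' (P.b j' false)), ?_, fun x hx n => ?_⟩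
    · have b := card_union_le Z (NT P μ ν j (P.b j false) ∪ NT P μ ν j' (P.b j' false))
      have c := card_union_le (NT P μ ν j (P.b j false)) (NT P μ ν j' (P.b j' false))
      have f := NT_le ho j (P.b j false)
      have f' := NT_le ho j' (P.b j' false)
      omega
    · obtain ⟨b1, b2, b3, b4⟩ := hN x hx
      simp only [mem_union, not_or] at n
      refine orient m m' (Ed_ne b1) b3 b4 (fun c => n.2.1 (mem_NT b1 b2 c.1.1 c.2.1))
        (fun c => n.2.2 (mem_NT b1 b2 c.1.1 c.2.1)) (fun c => n.1 (hZ _ c.1 c.2).1)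
        fun c => n.1 ?_
      have e := (hZ _ c.1 c.2).2
      rwa [pt_pt ho.m.1] at e
  obtain ⟨x, hx, nx⟩ := Geo.exists_not_mem (s := N) (U := Bd) (by omega)
  obtain ⟨a, b, k, k', o, c1, c2, c3, c4, c5, c6⟩ := hB x hx nx
  obtain ⟨y, hy, ny⟩ := Geo.exists_not_mem (s := N) (U := Bd ∪ (NT P μ ν j k ∪ NT P μ ν j' k'))
    (by
      have b := card_union_le Bd (NT P μ ν j k ∪ NT P μ ν j' k')
      have c := card_union_le (NT P μ ν j k) (NT P μ ν j' k')
      have f := NT_le ho j k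
      have f' := NT_le ho j' k'
      omega)
  simp only [mem_union, not_or] at ny
  obtain ⟨a', b', l, l', o', d1, d2, d3, d4, d5, d6⟩ := hB y hy ny.1
  refine ⟨x, hx, y, hy, a, b, a', b', fun e => ny.2.1 ?_, o, o',
    G3.Pr_of_colk c1 (fun e => ny.2.1 ?_) (Or.inl m),
    G3.Pr_of_colk c2 (fun e => ny.2.2 ?_) (Or.inl m')⟩
  · exact e ▸ mem_NT (hN x hx).1 (hN x hx).2.1 c3 c4
  · rw [G3.colk_unique d1 e]
    exact mem_NT (hN y hy).1 (hN y hy).2.1 d3 d4
  · rw [G3.colk_unique d2 e]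
    exact mem_NT (hN y hy).1 (hN y hy).2.1 d5 d6

/-- The agents that keep their pair edge. -/
def Kp (B : Finset J) (g : J → Sv V) (ν : Nd J V → Nd J V) (j : J) : Prop :=
  j ∈ B ∧ ν (ag j) = ag j ∧ ∃ x y, g j = Sv.two x y ∧ ν (vx x) = vx y

theorem start (hc : P.KCtx R h2 A W B g od μ) (hν : ∀ x, ν (ν x) = x) :
    ∃ U0 : Finset (Finset J × Finset V), PD U0 ∧
      (∀ u ∈ U0, Un (A.filter fun j => ν (ag j) = ag j) (Ed ν) (In ν) (Sv0 P)
        (fun j => (g j).its) u) ∧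
      ∀ j, Kp B g ν j → ∀ x ∈ (g j).its, x ∈ Ed ν → x ∈ edU U0 := by
  refine ⟨(univ.filter fun j => Kp B g ν j).image fun j => ({j}, (g j).its ∩ Ed ν), ?_, ?_,
    fun j hj x a b => mem_edU.2 ⟨_, mem_image_of_mem _ (mem_filter.2 ⟨mem_univ _, hj⟩),
      mem_inter.2 ⟨a, b⟩⟩⟩
  · intro u hu u' hu' n
    obtain ⟨j, hj, rfl⟩ := mem_image.1 hu
    obtain ⟨j', hj', rfl⟩ := mem_image.1 hu'
    have ne : j ≠ j' := fun e => n (e ▸ rfl)
    exact ⟨disjoint_singleton.2 ne, (hc.st.dis j (mem_filter.1 hj).2.1 j' (mem_filter.1 hj').2.1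
      ne).mono inter_subset_left inter_subset_left⟩
  · intro u hu
    obtain ⟨j, hj, rfl⟩ := mem_image.1 hu
    obtain ⟨-, jB, fx, x, y, e, exy⟩ := mem_filter.1 hj
    have pr : P.Pr j x y := (G3.nrm_two (e ▸ hc.st.nrm j jB)).2.1
    obtain ⟨z, hz, o⟩ := name_ex hν pr.1 exy
    have iz : ∀ v ∈ (g j).its, In ν v z := fun v hv => by
      rw [e] at hv
      rcases o with ⟨rfl, rfl⟩ | ⟨rfl, rfl⟩
      · simpa [In, Sv.its] using hv
      · simpa [In, Sv.its, or_comm] using hv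
    have zi : z ∈ (g j).its := by
      rw [e]
      rcases o with ⟨rfl, -⟩ | ⟨rfl, -⟩ <;> simp [Sv.its]
    refine ⟨singleton_subset_iff.2 (mem_filter.2 ⟨hc.st.sub jB, fx⟩), inter_subset_right, by simp,
      ?_, fun i hi => ?_, fun i hi i' hi' n => ?_⟩
    · rw [card_singleton]
      refine card_le_one.2 fun a ha b hb => ?_
      rw [mem_inter] at ha hb
      exact (In_unique hν ha.2 hz (Or.inl rfl) (iz a ha.1)).trans
        (In_unique hν hb.2 hz (Or.inl rfl) (iz b hb.1)).symm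
    · rw [mem_singleton.1 hi]
      refine ⟨fun v hv => ⟨z, mem_inter.2 ⟨zi, hz⟩, iz v hv⟩, ?_⟩
      rw [e]
      exact G3.serv_of_Ok (G3.wf_pl _ _) trivial (Or.inr (Or.inr pr))
    · exact (n ((mem_singleton.1 hi).trans (mem_singleton.1 hi').symm)).elim

theorem old_bound (hc : P.KCtx R h2 A W B g od μ) (ho : P.KOut R h2 A W od μ ν nE d)
    {N : Finset V} (hN : ∀ x ∈ N, x ∈ Ed ν ∧ μ (vx x) = vx (pt ν x) ∧
      ∀ j, Kp B g ν j → x ∉ (g j).its) : N.card ≤ nE := by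
  refine le_trans (card_le_card_of_forall_subsingleton
    (fun x (n : Nd J V) => ∃ j, n = ag j ∧ (g j = Sv.two x (pt ν x) ∨ g j = Sv.two (pt ν x) x))
    (fun x hx => ?_) fun n _ x hx y hy => ?_) ho.en
  · obtain ⟨a, b, c⟩ := hN x hx
    obtain ⟨j, jB, o, e⟩ := (hc.im _ _ (fun e => Ed_ne a (by simpa using e))).1 b
    refine ⟨ag j, mem_filter.2 ⟨mem_univ _, Or.inl ⟨?_, fun f => c j ⟨jB, f, ?_⟩ ?_⟩⟩, j, rfl, e⟩
    · by_contra f
      have h := (hc.im _ _ (Ne.symm f)).1 rfl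
      rcases hm : μ (ag j) with i | u | i <;> rw [hm] at h
      · exact h
      · rcases h.2 with h | ⟨_, _, _, h⟩
        · rcases e with e | e <;> rw [e] at h <;> cases h
        · rw [o] at h
          cases h
      · exact h
    · rcases e with e | e
      · exact ⟨_, _, e, Ed_spec a⟩
      · exact ⟨_, _, e, by rw [← Ed_spec a, ho.m.1]⟩
    · rcases e with e | e <;> simp [e, Sv.its]
  · obtain ⟨x1, j, rfl, e⟩ := hx
    obtain ⟨y1, j', e0, e'⟩ := hy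
    cases e0
    refine In_unique ho.m.1 (hN x x1).1 (hN y y1).1 (Or.inl rfl) ?_
    rcases e with e | e <;> rcases e' with e' | e' <;> rw [e] at e' <;> injection e' with a b
    · exact Or.inl a
    · exact Or.inr a
    · exact Or.inr b
    · exact Or.inl b

/-- Few agents are left over by a maximal family of units. -/
theorem left_bound (hc : P.KCtx R h2 A W B g od μ) (ho : P.KOut R h2 A W od μ ν nE d)
    (hM : 2 * R.h + 2 ≤ M) {Ou L : Finset J} {E3 : Finset V} (sL : L ⊆ Ou) (sE : E3 ⊆ Ed ν)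
    (cL : L.card ≤ E3.card) (ty : ∀ j ∈ L, ∃ τ, P.Ty R τ j)
    (kp : ∀ x ∈ E3, ∀ j, Kp B g ν j → x ∉ (g j).its)
    (mx : ∀ u f', Un Ou (Ed ν) (In ν) (Sv0 P) f' u → u.1.Nonempty → u.1 ⊆ L → u.2 ⊆ E3 → False) :
    L.card ≤ t + nE + 4 * d + 2 := by
  by_contra hn
  have a := old_bound hc ho (N := E3.filter fun x => μ (vx x) = vx (pt ν x)) fun x hx =>
    ⟨sE (mem_filter.1 hx).1, (mem_filter.1 hx).2, kp x (mem_filter.1 hx).1⟩
  have b := card_filter_add_card_filter_not (s := E3) fun x => μ (vx x) = vx (pt ν x)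
  have no : ∀ j ∈ L, ∀ x ∈ E3, ¬ P.Ok j x (pt ν x) := fun j hj x hx h =>
    mx _ _ (un_one (sL hj) (sE hx) h) (singleton_nonempty _) (singleton_subset_iff.2 hj)
      (singleton_subset_iff.2 hx)
  have mu : ∀ j ∈ L, P.mu j := fun j hj => by
    by_contra hs
    have c := strict_bound ho hs (N := E3.filter fun x => ¬ μ (vx x) = vx (pt ν x)) fun x hx =>
      ⟨sE (mem_filter.1 hx).1, (mem_filter.1 hx).2, no j hj x (mem_filter.1 hx).1⟩
    omega
  obtain ⟨j, hj, j', hj', ne, τ, t1, t2⟩ : ∃ j ∈ L, ∃ j' ∈ L, j ≠ j' ∧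
      ∃ τ, P.Ty R τ j ∧ P.Ty R τ j' := by
    by_contra h
    have c := card_le_card_of_forall_subsingleton (s := L) (t := (univ : Finset (Fin t)))
      (fun j τ => P.Ty R τ j) (fun j hj => (ty j hj).imp fun τ e => ⟨mem_univ _, e⟩)
      fun τ _ j hj j' hj' => by
        by_contra ne
        exact h ⟨j, hj.1, j', hj'.1, ne, τ, hj.2, hj'.2⟩
    rw [card_univ, Fintype.card_fin] at c
    omega
  obtain ⟨x, hx, x', hx', a, b, a', b', nx, o, o', p, p'⟩ := multi_bound ho hM ne (mu j hj)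
    (mu j' hj') t1 t2 (N := E3.filter fun x => ¬ μ (vx x) = vx (pt ν x)) (fun x hx =>
      ⟨sE (mem_filter.1 hx).1, (mem_filter.1 hx).2, no j hj x (mem_filter.1 hx).1,
        no j' hj' x (mem_filter.1 hx).1⟩) (by omega)
  have e1 := (mem_filter.1 hx).1
  have e2 := (mem_filter.1 hx').1
  exact mx _ _ (un_two ho.m.1 (sL hj) (sL hj') ne (sE e1) (sE e2) nx o o' p p')
    (insert_nonempty _ _) (by simp [insert_subset_iff, hj, hj'])
    (by simp [insert_subset_iff, e1, e2])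

theorem own_names (ho : P.KOut R h2 A W od μ ν nE d) : ∃ ow : J → V → Prop,
    (∀ j j' x, ow j x → ow j' x → j = j') ∧ ∀ j ∈ A.filter fun j => ν (ag j) = ag j,
      ∃ x ∈ Ed ν, ow j x ∧ ∃ τ, P.Ty R τ j ∧ P.Srv R h2 τ x (pt ν x) := by
  obtain ⟨own, o1, o2⟩ := ho.own
  refine ⟨fun j e => e ∈ Ed ν ∧ ∃ x, own j x ∧ In ν x e, fun j j' e a b => ?_, fun j hj => ?_⟩
  · obtain ⟨he, x, a1, a2⟩ := a
    obtain ⟨-, x', b1, b2⟩ := b
    by_contra ne
    obtain ⟨c1, c2⟩ := o1 _ _ _ _ a1 b1 ne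
    rcases a2 with a2 | a2 <;> rcases b2 with b2 | b2
    · exact c1 (a2.trans b2.symm)
    · exact c2 (by rw [a2, b2, Ed_spec he])
    · exact c2 (by rw [a2, b2, ← Ed_spec he, ho.m.1])
    · exact c1 (a2.trans b2.symm)
  · obtain ⟨x, y, a, b, c, e⟩ := o2 j (mem_filter.1 hj).1 (mem_filter.1 hj).2
    obtain ⟨z, hz, o⟩ := name_ex ho.m.1 b c
    rcases o with ⟨rfl, rfl⟩ | ⟨rfl, rfl⟩
    · exact ⟨z, hz, ⟨hz, z, a, Or.inl rfl⟩, e⟩
    · exact ⟨z, hz, ⟨hz, _, a, Or.inr rfl⟩, compat_symm e⟩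

theorem In_edge (hν : ∀ x, ν (ν x) = x) {v x : V} (hx : x ∈ Ed ν) (h : In ν v x) :
    ∃ u, u ≠ v ∧ ν (vx v) = vx u := by
  rcases h with rfl | rfl
  · exact ⟨_, (Ed_ne hx).symm, Ed_spec hx⟩
  · exact ⟨x, Ed_ne hx, by rw [← Ed_spec hx, hν]⟩

end Geom

end Pool.Agent.Lib.MP_ef7581_lc.D3.ERAsg

namespace Pool.Agent.Lib.MP_ef7581_lc.D3

open Finset Classical D2 ERAsg

theorem rAsgS (hS : SelStmt) (hH : HallStmt) : RAsgS := by
  intro t0 nE d
  obtain ⟨Kc, hK⟩ := sel hS hH t0 (t0 + nE + 4 * d + 2)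
  refine ⟨t0 + nE + 4 * d + 2 + 2 * Kc, ?_⟩
  intro J V K _ _ _ _ _ _ P t M t' M0 R h2 A W B g od μ ν ht hM hc ho
  have hν := ho.m.1
  obtain ⟨ow, o1, o2⟩ := own_names ho
  obtain ⟨U0, p0, u0, k0⟩ := start hc hν
  obtain ⟨U, f, p, hu, sub, mx⟩ := maxfam p0 u0
  obtain ⟨Ou, hOu⟩ : ∃ Ou, Ou = A.filter fun j => ν (ag j) = ag j := ⟨_, rfl⟩
  rw [← hOu] at o2 hu mx
  have cL := left_le p hu (card_le_card_of_forall_subsingleton ow
    (fun j hj => (o2 j hj).imp fun x a => ⟨a.1, a.2.1⟩) fun x _ j hj j' hj' => o1 _ _ _ hj.2 hj'.2)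
  have cD := left_bound hc ho hM (Ou := Ou) sdiff_subset sdiff_subset cL
    (fun j hj => by
      obtain ⟨x, -, -, τ, a, -⟩ := o2 j (mem_sdiff.1 hj).1
      exact ⟨τ, a⟩)
    (fun x hx j a b => (mem_sdiff.1 hx).2 (sub (k0 j a x b (mem_sdiff.1 hx).1)))
    fun u f' a b c e => mx u f' a b (sdiff_disjoint.mono_left c) (sdiff_disjoint.mono_left e)
  obtain ⟨U', s1, s2, fh, f1, f2⟩ := hK t ht J V Ou (Ed ν) (P.Ty R)
    (fun τ x => P.Srv R h2 τ x (pt ν x)) U ow p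
    (fun u a => ⟨(hu u a).a, (hu u a).e, (hu u a).c2⟩) (by omega) o1 o2
  obtain ⟨O, hO⟩ : ∃ O, O = (Ou \ agU U) ∪ agU U' := ⟨_, rfl⟩
  rw [← hO] at f1 f2
  obtain ⟨F, F1, F2⟩ : ∃ F : J → Finset V, (∀ j, j ∉ O → F j = f j) ∧
      ∀ j ∈ O, ∀ y, fh j = some y → F j = {y, pt ν y} :=
    ⟨fun j => if j ∈ O then (fh j).elim ∅ fun y => {y, pt ν y} else f j,
      fun j a => if_neg a, fun j a y b => by simp [a, b]⟩
  have sE : (Ed ν \ edU U) ∪ edU U' ⊆ Ed ν := union_subset sdiff_subset fun x hx => by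
    obtain ⟨u, a, b⟩ := mem_edU.1 hx
    exact (hu u (s1 a)).e b
  have out : ∀ j ∈ Ou, j ∉ O → ∃ u ∈ U, u ∉ U' ∧ j ∈ u.1 := fun j a b => by
    rw [hO, mem_union, not_or, mem_sdiff, not_and, not_not] at b
    obtain ⟨u, c, e⟩ := mem_agU.1 (b.1 a)
    exact ⟨u, c, fun h => b.2 (mem_agU.2 ⟨u, h, e⟩), e⟩
  have mix : ∀ i ∈ O, ∀ j ∈ Ou, j ∉ O → Disjoint (F i) (F j) := fun i hi j hj nj => by
    obtain ⟨y, y1, y2, -⟩ := f1 i hi
    obtain ⟨u, a, b, c⟩ := out j hj nj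
    rw [F2 i hi y y2, F1 j nj]
    refine disjoint_left.2 fun v v1 v2 => ?_
    obtain ⟨x, x1, x2⟩ := ((hu u a).s j c).1 v v2
    have e : x = y := In_unique hν ((hu u a).e x1) (sE y1) x2 (by simpa [In] using v1)
    subst e
    rcases mem_union.1 y1 with h | h
    · exact (mem_sdiff.1 h).2 (mem_edU.2 ⟨u, a, x1⟩)
    · obtain ⟨w, w1, w2⟩ := mem_edU.1 h
      exact disjoint_left.1 (p u a w (s1 w1) fun e => b (e ▸ w1)).2 x1 w2
  refine ⟨O, F, ?_, fun i iA j jA ni nj ne => ?_, fun j jA nj => ?_⟩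
  · have a := card_agU (p.mono s1) fun _ => True
    simp only [filter_true] at a
    have b : ∑ u ∈ U', u.1.card ≤ U'.card • 2 :=
      sum_le_card_nsmul _ _ _ fun u h => (hu u (s1 h)).c2
    have c := card_union_le (Ou \ agU U) (agU U')
    rw [smul_eq_mul] at b
    rw [hO]
    omega
  · have hi : i ∈ Ou := hOu ▸ mem_filter.2 ⟨iA, ni⟩
    have hj : j ∈ Ou := hOu ▸ mem_filter.2 ⟨jA, nj⟩
    by_cases a : i ∈ O <;> by_cases b : j ∈ O
    · obtain ⟨y, y1, y2, -⟩ := f1 i a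
      obtain ⟨z, z1, z2, -⟩ := f1 j b
      rw [F2 i a y y2, F2 j b z z2]
      refine disjoint_left.2 fun v v1 v2 => ne (f2 i a j b ?_)
      rw [y2, z2, In_unique hν (sE y1) (sE z1) (v := v) (by simpa [In] using v1)
        (by simpa [In] using v2)]
    · exact mix i a j hj b
    · exact (mix j b i hi a).symm
    · obtain ⟨u, u1, -, u2⟩ := out i hi a
      obtain ⟨w, w1, -, w2⟩ := out j hj b
      rw [F1 i a, F1 j b]
      by_cases e : u = w
      · exact (hu u u1).d i u2 j (e ▸ w2) ne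
      refine disjoint_left.2 fun v v1 v2 => ?_
      obtain ⟨x, x1, x2⟩ := ((hu u u1).s i u2).1 v v1
      obtain ⟨y, y1, y2⟩ := ((hu w w1).s j w2).1 v v2
      have c : x = y := In_unique hν ((hu u u1).e x1) ((hu w w1).e y1) x2 y2
      exact disjoint_left.1 (p u u1 w w1 e).2 x1 (c ▸ y1)
  · have hj : j ∈ Ou := hOu ▸ mem_filter.2 ⟨jA, nj⟩
    by_cases a : j ∈ O
    · obtain ⟨y, y1, y2, y3⟩ := f1 j a
      rw [F2 j a y y2]
      exact ⟨fun v hv => In_edge hν (sE y1) (by simpa [In] using hv), fun b => (b a).elim,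
        fun _ => ⟨y, _, Ed_ne (sE y1), rfl, y3⟩⟩
    · obtain ⟨u, u1, -, u2⟩ := out j hj a
      rw [F1 j a]
      refine ⟨fun v hv => ?_, fun _ => ((hu u u1).s j u2).2, fun b => (a b).elim⟩
      obtain ⟨x, x1, x2⟩ := ((hu u u1).s j u2).1 v hv
      exact In_edge hν ((hu u u1).e x1) x2

end Pool.Agent.Lib.MP_ef7581_lc.D3
end
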