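import Mathlib
import Pool.Agent.Lib.MP_ef7581_lc.EGeo

/-!
Realisation in the consistent case for agents with several terminals.
-/

set_option autoImplicit false
set_option linter.unusedSectionVars false

namespace Pool.Agent.Lib.MP_ef7581_lc.D3

open Finset Classical D2

namespace ERReal

open G3

variable {J V K : Type} [Fintype J] [Fintype V] [Fintype K] [DecidableEq J] [DecidableEq V]
  [DecidableEq K] {P : G3 J V K}

/-! ### Assignments -/

/-- The set `s` serves `j`. -/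
def Sr (P : G3 J V K) (j : J) (s : Finset V) : Prop := P.Serv2 (P.pl univ univ) j s

/-- The agents of `B` can be served by items of `U`. -/
def Asg (P : G3 J V K) (B : Finset J) (U : Finset V) : Prop :=
  ∃ f : J → Finset V, (∀ j ∈ B, f j ⊆ U ∧ Sr P j (f j)) ∧
    ∀ i ∈ B, ∀ j ∈ B, i ≠ j → Disjoint (f i) (f j)

theorem sr_C {j : J} {v : V} {s : Finset V} (h : P.C j v) (hv : v ∈ s) : Sr P j s :=
  Or.inl ⟨v, hv, h⟩

theorem sr_Pr {j : J} {a b : V} {s : Finset V} (h : P.Pr j a b) (ha : a ∈ s) (hb : b ∈ s) :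
    Sr P j s := Or.inr ⟨trivial, a, ha, b, hb, h⟩

theorem sr_Ok {j : J} {a b : V} (h : P.Ok j a b) : Sr P j {a, b} :=
  serv_of_Ok (wf_pl _ _) trivial h

theorem sr_two {j : J} {a b : V} (h : P.Pr j a b) : Sr P j {a, b} :=
  sr_Ok (Or.inr (Or.inr h))

theorem Asg.empty (U : Finset V) : Asg P ∅ U := ⟨fun _ => ∅, by simp, by simp⟩

theorem Asg.single {j : J} {s : Finset V} (h : Sr P j s) : Asg P {j} s :=
  ⟨fun _ => s, fun _ hi => ⟨Subset.rfl, mem_singleton.1 hi ▸ h⟩, fun _ hi _ hk e =>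
    absurd ((mem_singleton.1 hi).trans (mem_singleton.1 hk).symm) e⟩

theorem Asg.mono {B B' : Finset J} {U U' : Finset V} (h : Asg P B U) (hB : B' ⊆ B)
    (hU : U ⊆ U') : Asg P B' U' := by
  obtain ⟨f, h1, h2⟩ := h
  exact ⟨f, fun j hj => ⟨(h1 j (hB hj)).1.trans hU, (h1 j (hB hj)).2⟩,
    fun i hi j hj => h2 i (hB hi) j (hB hj)⟩

theorem Asg.union {B B' : Finset J} {U U' : Finset V} (h : Asg P B U) (h' : Asg P B' U')
    (hd : Disjoint U U') : Asg P (B ∪ B') (U ∪ U') := by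
  obtain ⟨f, h1, h2⟩ := h
  obtain ⟨f', h3, h4⟩ := h'
  have k : ∀ j ∈ B ∪ B', j ∉ B → j ∈ B' := fun j hj e => (mem_union.1 hj).resolve_left e
  refine ⟨fun j => if j ∈ B then f j else f' j, fun j hj => ?_, fun i hi j hj e => ?_⟩
  · by_cases a : j ∈ B
    · simp only [if_pos a]
      exact ⟨(h1 j a).1.trans subset_union_left, (h1 j a).2⟩
    · simp only [if_neg a]
      exact ⟨(h3 j (k j hj a)).1.trans subset_union_right, (h3 j (k j hj a)).2⟩
  · by_cases a : i ∈ B <;> by_cases b : j ∈ B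
    · simp only [if_pos a, if_pos b]; exact h2 i a j b e
    · simp only [if_pos a, if_neg b]; exact hd.mono (h1 i a).1 (h3 j (k j hj b)).1
    · simp only [if_neg a, if_pos b]; exact hd.symm.mono (h3 i (k i hi a)).1 (h1 j b).1
    · simp only [if_neg a, if_neg b]; exact h4 i (k i hi a) j (k j hj b) e

theorem exists_inj (s t : Finset J) (h : s.card ≤ t.card) :
    ∃ f : J → J, (∀ j ∈ s, f j ∈ t) ∧ ∀ i ∈ s, ∀ j ∈ s, f i = f j → i = j := by
  obtain ⟨f, hf⟩ := Function.Embedding.exists_of_card_le_finset (α := s) (s := t) (by simpa using h)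
  refine ⟨fun j => if e : j ∈ s then f ⟨j, e⟩ else j, fun j hj => ?_, fun i hi j hj e => ?_⟩
  · simp only [dif_pos hj]; exact hf ⟨_, rfl⟩
  · simp only [dif_pos hi, dif_pos hj] at e
    exact congrArg Subtype.val (f.injective e)

/-- An element outside three small sets. -/
theorem pick {N : ℕ} (X Y Z : Finset (Fin N)) (h : X.card + Y.card + Z.card < N) :
    ∃ r, r ∉ X ∧ r ∉ Y ∧ r ∉ Z := by
  have k1 := card_union_le (X ∪ Y) Z
  have k2 := card_union_le X Y
  obtain ⟨r, -, hr⟩ := exists_mem_notMem_of_card_lt_card (s := X ∪ Y ∪ Z) (t := univ)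
    (by rw [card_univ, Fintype.card_fin]; omega)
  simp only [mem_union, not_or] at hr
  exact ⟨r, hr.1.1, hr.1.2, hr.2⟩

/-! ### Members -/

/-- The pair of a member. -/
def pr (m : M3 J V K) : Finset V := {m.2.2 false, m.2.2 true}

theorem sd_mem (m : M3 J V K) (s : Bool) : m.2.2 s ∈ pr m := by cases s <;> simp [pr]

theorem mem_pr {m : M3 J V K} {v : V} : v ∈ pr m ↔ ∃ s, v = m.2.2 s := by simp [pr]

theorem it_mem {ι : Type} [Fintype ι] (F : ι → M3 J V K) (r : ι) (s : Bool) :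
    (F r).2.2 s ∈ fi F := mem_image.2 ⟨(r, s), mem_univ _, rfl⟩

theorem pr_sub {ι : Type} [Fintype ι] (F : ι → M3 J V K) (r : ι) : pr (F r) ⊆ fi F :=
  fun v hv => by
    obtain ⟨s, rfl⟩ := mem_pr.1 hv
    exact it_mem F r s

theorem it_inj {ι : Type} {F : ι → M3 J V K} (h : DisM F) {r r' : ι} {s s' : Bool} :
    (F r).2.2 s = (F r').2.2 s' ↔ r = r' ∧ s = s' :=
  ⟨fun e => Prod.ext_iff.1 (h.2 (a₁ := (r, s)) (a₂ := (r', s')) e), fun e => by rw [e.1, e.2]⟩

theorem pr_dis {ι : Type} {F : ι → M3 J V K} (h : DisM F) {r r' : ι} (e : r ≠ r') :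
    Disjoint (pr (F r)) (pr (F r')) := disjoint_left.2 fun v h1 h2 => by
  obtain ⟨s, rfl⟩ := mem_pr.1 h1
  obtain ⟨s', a⟩ := mem_pr.1 h2
  exact e ((it_inj h).1 a).1

theorem Pr_of_two {j : J} {k k' : K} {a b : V} (ha : P.colk j k a) (hb : P.colk j k' b)
    (hk : k ≠ k') (h : P.mu j ∨ ¬ P.HH a b) : P.Pr j a b :=
  Pr_of_colk ha (fun c => hk (colk_unique hb c)) h

theorem fam_sr {N : ℕ} {F : Fin N → M3 J V K} (h : P.CFam F) (r r' : Fin N) :
    Sr P (F r).1 (pr (F r')) :=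
  sr_two (Pr_of_two (h.1 r r' false) (h.1 r r' true) (tm_ne h r false)
    ((h.2.1 r').2.1.imp (h.2.2 r' r) id))

theorem o_ne {o : Bool → K} (h : o false ≠ o true) (s : Bool) : o s ≠ o (!s) := by
  cases s
  · exact h
  · exact h.symm

/-! ### Small rearrangements -/

section Fit

variable {ι : Type} [Fintype ι] [DecidableEq ι]

/-- The agent `j` and the members of `T` are served by `S` and the items of `T`. -/
def Fit (P : G3 J V K) (F : ι → M3 J V K) (j : J) (S : Finset V) (T : Finset ι) : Prop :=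
  Asg P (insert j (T.image fun m => (F m).1)) (S ∪ T.biUnion fun m => pr (F m))

variable {F : ι → M3 J V K} {j : J} {S : Finset V} {x y : V}

theorem fit_zero (h : Sr P j S) : Fit P F j S ∅ := by
  simpa [Fit] using Asg.single h

theorem fit_one (hF : DisM F) (hx : x ∉ fi F) (hxy : x ≠ y) (hy : y ∉ fi F) (xS : x ∈ S)
    (yS : y ∈ S) {m : ι} {s : Bool} (h1 : P.Pr (F m).1 x ((F m).2.2 (!s)))
    (h2 : P.Pr j ((F m).2.2 s) y) : Fit P F j S {m} := by
  have w1 : ∀ m s, x ≠ (F m).2.2 s := fun m s e => hx (e ▸ it_mem F m s)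
  have w2 : ∀ m s, (F m).2.2 s ≠ y := fun m s e => hy (e ▸ it_mem F m s)
  refine ((Asg.single (sr_two h2)).union (Asg.single (sr_two h1)) ?_).mono ?_ ?_
  · simp [w1, w2, it_inj hF, hxy]
  · intro i hi
    simpa using hi
  · intro v hv
    simp only [mem_union, mem_insert, mem_singleton, singleton_biUnion] at hv ⊢
    rcases hv with (rfl | rfl) | rfl | rfl
    · exact Or.inr (sd_mem _ _)
    · exact Or.inl yS
    · exact Or.inl xS
    · exact Or.inr (sd_mem _ _)

theorem fit_two (hF : DisM F) (hS : Disjoint S (fi F)) {m m' : ι} (e : m ≠ m')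
    (h1 : Sr P (F m).1 S) (h2 : Sr P (F m').1 (pr (F m))) (h3 : Sr P j (pr (F m'))) :
    Fit P F j S {m, m'} := by
  refine (((Asg.single h3).union (Asg.single h2) (pr_dis hF e.symm)).union (Asg.single h1)
    ?_).mono ?_ ?_
  · exact (hS.mono_right (union_subset (pr_sub F m') (pr_sub F m))).symm
  · intro i hi
    simp only [image_insert, image_singleton, mem_union, mem_insert, mem_singleton] at hi ⊢
    tauto
  · intro v hv
    simp only [mem_union, biUnion_insert, singleton_biUnion] at hv ⊢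
    tauto

theorem fit_three (hF : DisM F) (hx : x ∉ fi F) (hxy : x ≠ y) (hy : y ∉ fi F)
    {m1 m2 m3 : ι} (e12 : m1 ≠ m2) (e13 : m1 ≠ m3) (e23 : m2 ≠ m3) {s : Bool}
    (h1 : P.Pr (F m1).1 ((F m1).2.2 (!s)) x) (h2 : P.Pr (F m2).1 ((F m2).2.2 s) y)
    (h3 : P.Pr (F m3).1 ((F m1).2.2 s) ((F m2).2.2 (!s))) (h4 : Sr P j (pr (F m3))) :
    Fit P F j {x, y} {m1, m2, m3} := by
  have w1 : ∀ m s, (F m).2.2 s ≠ x := fun m s e => hx (e ▸ it_mem F m s)
  have w2 : ∀ m s, (F m).2.2 s ≠ y := fun m s e => hy (e ▸ it_mem F m s)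
  have w3 : ∀ m s, x ≠ (F m).2.2 s := fun m s => (w1 m s).symm
  have w4 : ∀ m s, y ≠ (F m).2.2 s := fun m s => (w2 m s).symm
  refine ((((Asg.single h4).union (Asg.single (sr_two h1)) ?_).union (Asg.single (sr_two h2))
    ?_).union (Asg.single (sr_two h3)) ?_).mono ?_ ?_
  · simp [pr, w3, it_inj hF, e13]
  · simp [pr, w1, w4, it_inj hF, e23, e12.symm, hxy.symm]
  · simp [pr, w1, w2, it_inj hF, e23, e13, e12, e12.symm]
  · intro i hi
    simp only [image_insert, image_singleton, mem_union, mem_insert, mem_singleton] at hi ⊢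
    tauto
  · intro v hv
    simp only [mem_union, mem_insert, mem_singleton, biUnion_insert, singleton_biUnion] at hv ⊢
    rcases hv with ((hv | rfl | rfl) | rfl | rfl) | rfl | rfl
    · exact Or.inr (Or.inr (Or.inr hv))
    · exact Or.inr (Or.inl (sd_mem _ _))
    · exact Or.inl (Or.inl rfl)
    · exact Or.inr (Or.inr (Or.inl (sd_mem _ _)))
    · exact Or.inl (Or.inr rfl)
    · exact Or.inr (Or.inl (sd_mem _ _))
    · exact Or.inr (Or.inr (Or.inl (sd_mem _ _)))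

/-- Members keep their own pairs. -/
theorem asg_own (hF : DisM F) (h : ∀ m, Sr P (F m).1 (pr (F m))) (T : Finset ι) :
    Asg P (T.image fun m => (F m).1) (T.biUnion fun m => pr (F m)) := by
  induction T using Finset.induction_on with
  | empty => simpa using Asg.empty _
  | insert m T hm ih =>
    rw [image_insert, biUnion_insert, insert_eq]
    refine (Asg.single (h m)).union ih ?_
    rw [disjoint_biUnion_right]
    exact fun i hi => pr_dis hF fun e => hm (e ▸ hi)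

/-- The greedy construction. -/
theorem greedy (hF : DisM F) (h : ∀ m, Sr P (F m).1 (pr (F m))) (A : Finset J) (W : Finset V)
    (hW : Disjoint W (fi F)) (S : J → Finset V) (s1 : ∀ j ∈ A, S j ⊆ W)
    (s2 : ∀ i ∈ A, ∀ j ∈ A, i ≠ j → Disjoint (S i) (S j)) (p : ι → Prop) [DecidablePred p]
    (c c' : J → ℕ) (s3 : ∀ j ∈ A, ∀ U : Finset ι, U.card ≤ ∑ i ∈ A, c i →
      (U.filter p).card ≤ ∑ i ∈ A, c' i → ∃ T, Disjoint T U ∧ T.card ≤ c j ∧
        (T.filter p).card ≤ c' j ∧ Fit P F j (S j) T) : Asg P (A ∪ fa F) (W ∪ fi F) := by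
  have w : ∀ i ∈ A, ∀ m, Disjoint (S i) (pr (F m)) := fun i hi m =>
    hW.mono (s1 i hi) (pr_sub F m)
  have key : ∀ X : Finset J, X ⊆ A → ∃ U : Finset ι, U.card ≤ ∑ i ∈ X, c i ∧
      (U.filter p).card ≤ ∑ i ∈ X, c' i ∧
      Asg P (X ∪ U.image fun m => (F m).1) (X.biUnion S ∪ U.biUnion fun m => pr (F m)) := by
    intro X
    induction X using Finset.induction_on with
    | empty => exact fun _ => ⟨∅, by simp, by simp, by simpa using Asg.empty _⟩
    | insert j X hj ih =>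
      intro hX
      have hX' : X ⊆ A := (subset_insert j X).trans hX
      have hj' : j ∈ A := hX (mem_insert_self j X)
      obtain ⟨U, u1, u2, u3⟩ := ih hX'
      obtain ⟨T, t1, t2, t3, t4⟩ := s3 j hj' U (u1.trans (sum_le_sum_of_subset hX'))
        (u2.trans (sum_le_sum_of_subset hX'))
      refine ⟨T ∪ U, ?_, ?_, (Asg.union t4 u3 ?_).mono ?_ ?_⟩
      · rw [sum_insert hj]
        exact (card_union_le _ _).trans (add_le_add t2 u1)
      · rw [sum_insert hj, filter_union]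
        exact (card_union_le _ _).trans (add_le_add t3 u2)
      · simp only [disjoint_union_left, disjoint_union_right, disjoint_biUnion_left,
          disjoint_biUnion_right]
        exact ⟨fun i hi => ⟨s2 j hj' i (hX' hi) fun e => hj (e ▸ hi),
          fun m _ => (w i (hX' hi) m).symm⟩, fun m hm => ⟨w j hj' m,
          fun m' hm' => pr_dis hF fun e => disjoint_left.1 t1 hm' (e ▸ hm)⟩⟩
      · intro i hi
        simp only [image_union, mem_union, mem_insert] at hi ⊢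
        tauto
      · intro i hi
        simp only [biUnion_insert, union_biUnion, mem_union] at hi ⊢
        tauto
  obtain ⟨U, -, -, u3⟩ := key A Subset.rfl
  refine (u3.union (asg_own hF h (univ \ U)) ?_).mono ?_ ?_
  · simp only [disjoint_union_left, disjoint_biUnion_left, disjoint_biUnion_right]
    exact fun m hm => ⟨fun i hi => w i hi m, fun m' hm' => pr_dis hF fun e =>
      (mem_sdiff.1 hm).2 (e ▸ hm')⟩
  · intro i hi
    rcases mem_union.1 hi with a | a
    · exact mem_union_left _ (mem_union_left _ a)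
    · obtain ⟨m, -, rfl⟩ := mem_image.1 a
      by_cases b : m ∈ U
      · exact mem_union_left _ (mem_union_right _ (mem_image.2 ⟨m, b, rfl⟩))
      · exact mem_union_right _ (mem_image.2 ⟨m, mem_sdiff.2 ⟨mem_univ _, b⟩, rfl⟩)
  · exact union_subset (union_subset_union (biUnion_subset.2 s1)
      (biUnion_subset.2 fun m _ => pr_sub F m))
      ((biUnion_subset.2 fun m _ => pr_sub F m).trans subset_union_right)

end Fit

/-! ### The exchange of a hidden item -/

variable {t M t' M0 : ℕ} {R : R3 J V K t M t' M0}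

theorem mt_all (hG : P.RGood R) {τ : Fin t} (h : P.mt R τ) (r : Fin M) : P.mu (R.F τ r).1 := by
  obtain ⟨r', a⟩ := h
  exact (hG.cF τ).2.2 r' r a

theorem ag_ne (hG : P.RGood R) {τ : Fin t} {r r' : Fin M} (e : r ≠ r') :
    (R.F τ r).1 ≠ (R.F τ r').1 := fun h => e (by
  have := hG.dis.1 (a₁ := Sum.inl (τ, r)) (a₂ := Sum.inl (τ, r')) h
  simpa using this)

theorem ps_ind (hG : P.RGood R) {τ : Fin t} {s : Bool} {x y u v : V} {r r' : Fin M} (e : r ≠ r')
    (h1 : r ∈ P.PS R τ s x y) (h2 : r' ∈ P.PS R τ s x y) (hxy : x ≠ y) (n : ¬ P.HH x y)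
    (u1 : P.adt (R.F τ r).1 ((R.F τ r).2.1 s) u) (u2 : P.adt (R.F τ r').1 ((R.F τ r').2.1 s) u)
    (v1 : P.adt (R.F τ r).1 ((R.F τ r).2.1 s) v) (v2 : P.adt (R.F τ r').1 ((R.F τ r').2.1 s) v) :
    ¬ P.HH u v := by
  simp only [PS, mem_filter, mem_univ, true_and] at h1 h2
  refine ind_k ?_ h1.1 h2.1 h1.2 h2.2 hxy n u1 u2 v1 v2
  exact fun h => ag_ne hG e (Prod.ext_iff.1 h).1

/-- An item of the family is not adjacent to the items of a pair with two members in `PS`. -/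
theorem ps_sd (hG : P.RGood R) {τ : Fin t} {s : Bool} {x y : V}
    (h : 1 < (P.PS R τ s x y).card) (hxy : x ≠ y) (n : ¬ P.HH x y) (r : Fin M) :
    ¬ P.HH x ((R.F τ r).2.2 s) ∧ ¬ P.HH ((R.F τ r).2.2 s) y := by
  obtain ⟨r1, h1, r2, h2, e⟩ := one_lt_card.1 h
  have a1 := ((hG.cF τ).1 r1 r s).1
  have a2 := ((hG.cF τ).1 r2 r s).1
  have b1 := (mem_filter.1 h1).2
  have b2 := (mem_filter.1 h2).2
  exact ⟨ps_ind hG e h1 h2 hxy n b1.1 b2.1 a1 a2, ps_ind hG e h1 h2 hxy n a1 a2 b1.2 b2.2⟩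

theorem odd_ps {g : J → Sv V} {j : J} {x y : V} {o : Bool → K} {k : Fin t × Bool × Bool}
    (h : P.OddC R g j x y o k) : M ≤ 4 * (P.PS R k.1 k.2.1 x y).card := by
  obtain ⟨τ, s, b⟩ := k
  obtain ⟨-, -, -, -, -, -, h1, h2⟩ := h
  cases b
  · have := h1 rfl
    simp only at this ⊢
    omega
  · cases s
    · exact (h2 rfl).2.1
    · exact (h2 rfl).2.2

theorem gadget (hG : P.RGood R) {g : J → Sv V} {j j' : J} {x y x' y' : V} {o o' : Bool → K}
    {k : Fin t × Bool × Bool} (h1 : P.OddC R g j x y o k) (h2 : P.OddC R g j' x' y' o' k)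
    (n1 : P.Pr j x y) (n2 : P.Pr j' x' y') (U : Finset (Fin M))
    (hM : 10 * (R.h + U.card + 3) ≤ M) :
    P.Pr j x' y ∨ ∃ r ∉ U, P.Pr (R.F k.1 r).1 x' ((R.F k.1 r).2.2 (!k.2.1)) ∧
      P.Pr j ((R.F k.1 r).2.2 k.2.1) y := by
  have p1 := odd_ps h1
  have p2 := odd_ps h2
  obtain ⟨τ, s, b⟩ := k
  obtain ⟨-, t1, ⟨-, to1⟩, c1, c2, -, q1, -⟩ := h1
  obtain ⟨-, t2, -, -, -, w2, q2, q3⟩ := h2
  simp only at p1 p2 t1 to1 c1 c2 q1 t2 w2 q2 q3 ⊢
  have k1 := le_card_sdiff (((univ.filter fun r => P.junk (R.F τ r).1 x') ∪ univ.filter fun r =>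
    ¬ ∀ s, P.colk j (o s) ((R.F τ r).2.2 s)) ∪ U) (P.PS R τ s x' y')
  have k2 := card_union_le ((univ.filter fun r => P.junk (R.F τ r).1 x') ∪ univ.filter fun r =>
    ¬ ∀ s, P.colk j (o s) ((R.F τ r).2.2 s)) U
  have k3 := card_union_le (univ.filter fun r => P.junk (R.F τ r).1 x') (univ.filter fun r =>
    ¬ ∀ s, P.colk j (o s) ((R.F τ r).2.2 s))
  obtain ⟨r1, m1, r2, m2, e⟩ := one_lt_card.1 (show 1 < (P.PS R τ s x' y' \ (((univ.filter fun r =>
    P.junk (R.F τ r).1 x') ∪ univ.filter fun r =>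
    ¬ ∀ s, P.colk j (o s) ((R.F τ r).2.2 s)) ∪ U)).card by omega)
  simp only [PS, mem_sdiff, mem_union, mem_filter, mem_univ, true_and, not_or, not_not] at m1 m2
  by_cases hm : P.mu j
  · exact Or.inr ⟨r1, m1.2.2, Pr_of_two ⟨m1.1.1, m1.2.1.1⟩ ((hG.cF τ).1 r1 r1 (!s))
      (tm_ne (hG.cF τ) r1 s) (Or.inl (mt_all hG (t1.1 hm) r1)),
      Pr_of_colk (m1.2.1.2 s) c1 (Or.inl hm)⟩
  have hm' : ¬ P.mu j' := fun a => hm (t1.2 (t2.1 a))
  have e1 := n1.1
  have e2 := n2.1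
  have n1 := n1.2.1.resolve_left hm
  have n2 := n2.2.1.resolve_left hm'
  have c2 := c2.resolve_left hm
  have key : ∀ r, ((P.adt (R.F τ r).1 ((R.F τ r).2.1 s) x' ∧
      P.adt (R.F τ r).1 ((R.F τ r).2.1 s) y') ∧ (¬ P.junk (R.F τ r).1 x' ∧
      ∀ s, P.colk j (o s) ((R.F τ r).2.2 s)) ∧ r ∉ U) →
      ¬ P.HH x' ((R.F τ r).2.2 (!s)) → ∃ r ∉ U, P.Pr (R.F τ r).1 x' ((R.F τ r).2.2 (!s)) ∧
      P.Pr j ((R.F τ r).2.2 s) y := fun r m n =>
    ⟨r, m.2.2, Pr_of_two ⟨m.1.1, m.2.1.1⟩ ((hG.cF τ).1 r r (!s)) (tm_ne (hG.cF τ) r s) (Or.inr n),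
      Pr_of_colk (m.2.1.2 s) c1 (Or.inr (ps_sd hG (by omega) e1 n1 r).2)⟩
  by_cases a1 : P.HH x' ((R.F τ r1).2.2 (!s))
  swap
  · exact Or.inr (key r1 m1 a1)
  by_cases a2 : P.HH x' ((R.F τ r2).2.2 (!s))
  swap
  · exact Or.inr (key r2 m2 a2)
  cases b
  swap
  · refine absurd a1 (ps_sd hG ?_ e2 n2 r1).1
    have := (q3 rfl).2
    cases s
    · simp only [Bool.not_false]; omega
    · simp only [Bool.not_true]; omega
  left
  have u12 : ¬ P.HH ((R.F τ r1).2.2 (!s)) ((R.F τ r2).2.2 (!s)) := fun h =>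
    m1.2.1.1 (junk_of_two m1.1.1 (adt_of_edge h ((hG.cF τ).1 r1 r1 (!s)).1
      ((hG.cF τ).1 r1 r2 (!s)).1 a1 a2) (tm_ne (hG.cF τ) r1 s))
  have une : (R.F τ r1).2.2 (!s) ≠ (R.F τ r2).2.2 (!s) := fun h => e (by
    have := ((it_inj hG.dis (r := Sum.inl (τ, r1)) (r' := Sum.inl (τ, r2))).1 h).1
    simpa using this)
  have b1 := not_adt_of_two une u12 (m1.2.1.2 (!s)).1 (m2.2.1.2 (!s)).1 a1 a2
  have k4 := card_union_add_card_inter (P.PS R τ s x y) (P.PS R τ s x' y')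
  have k5 : (P.PS R τ s x y ∪ P.PS R τ s x' y').card ≤ M := by
    simpa using card_le_univ (P.PS R τ s x y ∪ P.PS R τ s x' y')
  have k6 := q1 rfl
  have k7 := q2 rfl
  obtain ⟨r3, m3, r4, m4, e'⟩ := one_lt_card.1
    (show 1 < (P.PS R τ s x y ∩ P.PS R τ s x' y').card by omega)
  rw [mem_inter] at m3 m4
  exact Pr_symm (Pr_of_colk ⟨c2.2, fun a => c1 (adt_of_junk a c2.1)⟩ b1 (Or.inr
    (ps_ind hG e' m3.1 m4.1 e1 n1 (mem_filter.1 m3.1).2.2 (mem_filter.1 m4.1).2.2
      (mem_filter.1 m3.2).2.1 (mem_filter.1 m4.2).2.1)))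

/-! ### The gadgets for the uncovered agents -/

/-- Indices of used base members. -/
def uF (U : Finset ((Fin t × Fin M) ⊕ (Fin t' × Fin M0))) : Finset (Fin M) :=
  U.toLeft.image Prod.snd

/-- Indices of used universal members. -/
def uG (U : Finset ((Fin t × Fin M) ⊕ (Fin t' × Fin M0))) : Finset (Fin M0) :=
  U.toRight.image Prod.snd

theorem card_uF (U : Finset ((Fin t × Fin M) ⊕ (Fin t' × Fin M0))) : (uF U).card ≤ U.card :=
  card_image_le.trans card_toLeft_le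

theorem card_uG (U : Finset ((Fin t × Fin M) ⊕ (Fin t' × Fin M0))) :
    (uG U).card ≤ (U.filter fun m => m.isRight = true).card := by
  refine card_image_le.trans (card_le_card_of_injOn Sum.inr (fun p hp => ?_)
    fun _ _ _ _ e => Sum.inr_injective e)
  simpa using hp

theorem not_uF {U : Finset ((Fin t × Fin M) ⊕ (Fin t' × Fin M0))} {r : Fin M} (h : r ∉ uF U)
    (τ : Fin t) : Sum.inl (τ, r) ∉ U := fun a => h (mem_image.2 ⟨(τ, r), mem_toLeft.2 a, rfl⟩)

theorem not_uG {U : Finset ((Fin t × Fin M) ⊕ (Fin t' × Fin M0))} {r : Fin M0} (h : r ∉ uG U)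
    (i : Fin t') : Sum.inr (i, r) ∉ U := fun a => h (mem_image.2 ⟨(i, r), mem_toRight.2 a, rfl⟩)

theorem mem_sr (hG : P.RGood R) (m : (Fin t × Fin M) ⊕ (Fin t' × Fin M0)) :
    Sr P (R.mem m).1 (pr (R.mem m)) := by
  rcases m with p | p
  · exact fam_sr (hG.cF p.1) p.2 p.2
  · exact fam_sr (hG.cG p.1) p.2 p.2

/-- An agent of type `τ` accepts the pair of a fresh member. -/
theorem ty_pick (hG : P.RGood R) {τ : Fin t} {j : J} (h : P.Ty R τ j) (Y Z : Finset (Fin M))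
    (hM : R.h + Y.card + Z.card ≤ M) : ∃ r, r ∉ Y ∧ r ∉ Z ∧ Sr P j (pr (R.F τ r)) := by
  obtain ⟨a, o, b, c⟩ := h
  obtain ⟨r, r1, r2, r3⟩ := pick (univ.filter fun r => ¬ ∀ s, P.colk j (o s) ((R.F τ r).2.2 s))
    Y Z (by omega)
  simp only [mem_filter, mem_univ, true_and, not_not] at r1
  exact ⟨r, r2, r3, sr_two (Pr_of_two (r1 false) (r1 true) b
    (((hG.cF τ).2.1 r).2.1.imp (fun d => a.2 ⟨r, d⟩) id))⟩

theorem fit_peU (hG : P.RGood R) {τ : Fin t} {j : J} (h : P.Ty R τ j) (hm : ¬ P.mt R τ) {x y : V}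
    (hp : P.peU R x y) (hS : Disjoint {x, y} (fi R.mem))
    (U : Finset ((Fin t × Fin M) ⊕ (Fin t' × Fin M0))) (c1 : R.h + U.card + 1 ≤ M)
    (c2 : 2 * R.h0 + (U.filter fun m => m.isRight = true).card + 1 ≤ M0) :
    ∃ T, Disjoint T U ∧ T.card ≤ 3 ∧ (T.filter fun m => m.isRight = true).card ≤ 1 ∧
      Fit P R.mem j {x, y} T := by
  obtain ⟨n, i, b1, b2⟩ := hp
  unfold Sd at b1 b2
  have k1 := card_uF U
  have k2 := card_uG U
  obtain ⟨q, q1, q2, q3⟩ := pick _ _ (uG U) (show (univ.filter fun r =>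
    ¬ P.colk (R.G i r).1 ((R.G i r).2.1 false) x).card + (univ.filter fun r =>
    ¬ P.colk (R.G i r).1 ((R.G i r).2.1 true) y).card + (uG U).card < M0 by omega)
  simp only [mem_filter, mem_univ, true_and, not_not] at q1 q2
  have k3 := hG.uni i q τ hm
  obtain ⟨r, r1, r2, r3⟩ := ty_pick hG h (uF U) (univ.filter fun r =>
    ¬ P.Ok (R.F τ r).1 ((R.G i q).2.2 false) ((R.G i q).2.2 true)) (by omega)
  simp only [mem_filter, mem_univ, true_and, not_not] at r2
  refine ⟨{Sum.inr (i, q), Sum.inl (τ, r)}, ?_, card_le_two.trans (by omega), ?_,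
    fit_two hG.dis hS (by simp) (sr_two (Pr_of_two q1 q2 (tm_ne (hG.cG i) q false) (Or.inr n)))
      (sr_Ok r2) r3⟩
  · simp [not_uF r1, not_uG q3]
  · simp [filter_insert, filter_singleton]

theorem fit_compat (hG : P.RGood R) {h2 : ℕ} {j : J} {x y : V} (hxy : x ≠ y)
    (h : P.Compat R h2 j x y) (hx : x ∉ fi R.mem) (hy : y ∉ fi R.mem)
    (U : Finset ((Fin t × Fin M) ⊕ (Fin t' × Fin M0))) (c0 : U.card + 2 ≤ h2)
    (c1 : R.h + U.card + 2 ≤ M)
    (c2 : 2 * R.h0 + (U.filter fun m => m.isRight = true).card + 1 ≤ M0) :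
    ∃ T, Disjoint T U ∧ T.card ≤ 3 ∧ (T.filter fun m => m.isRight = true).card ≤ 1 ∧
      Fit P R.mem j {x, y} T := by
  obtain ⟨τ, ty, hs⟩ := h
  have hS : Disjoint {x, y} (fi R.mem) := by simp [hx, hy]
  have k1 := card_uF U
  rcases hs with ⟨hm, s, a1, a2⟩ | ⟨hm, -, a | a | a⟩
  · unfold G3.Ab at a1 a2
    rw [Bool.not_not] at a2
    obtain ⟨r1, m1, n1⟩ := exists_mem_notMem_of_card_lt_card (s := uF U)
      (lt_of_lt_of_le (by omega) a1)
    have k2 := card_insert_le r1 (uF U)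
    obtain ⟨r2, m2, n2⟩ := exists_mem_notMem_of_card_lt_card (s := insert r1 (uF U))
      (lt_of_lt_of_le (by omega) a2)
    have k3 : ({r1, r2} : Finset (Fin M)).card ≤ 2 := card_le_two
    obtain ⟨r3, n3, n4, m3⟩ := ty_pick hG ty (uF U) {r1, r2} (by omega)
    simp only [mem_insert, mem_singleton, not_or] at n2 n4
    refine ⟨{Sum.inl (τ, r1), Sum.inl (τ, r2), Sum.inl (τ, r3)}, ?_, card_le_three, ?_,
      fit_three (s := s) hG.dis hx hxy hy (by simpa using Ne.symm n2.1)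
        (by simpa using Ne.symm n4.1) (by simpa using Ne.symm n4.2)
        (Pr_of_colk ((hG.cF τ).1 r1 r1 (!s)) (mem_filter.1 m1).2 (Or.inl (mt_all hG hm r1)))
        (Pr_of_colk ((hG.cF τ).1 r2 r2 s) (mem_filter.1 m2).2 (Or.inl (mt_all hG hm r2)))
        (Pr_of_two ((hG.cF τ).1 r3 r1 s) ((hG.cF τ).1 r3 r2 (!s)) (tm_ne (hG.cF τ) r3 s)
          (Or.inl (mt_all hG hm r3))) m3⟩
    · simp [not_uF n1, not_uF n2.2, not_uF n3]
    · simp [filter_insert, filter_singleton]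
  · obtain ⟨r1, m1, n1⟩ := exists_mem_notMem_of_card_lt_card (s := uF U)
      (lt_of_lt_of_le (by omega) a)
    obtain ⟨r3, n3, n4, m3⟩ := ty_pick hG ty (uF U) {r1} (by rw [card_singleton]; omega)
    rw [mem_singleton] at n4
    refine ⟨{Sum.inl (τ, r1), Sum.inl (τ, r3)}, ?_, card_le_two.trans (by omega), ?_,
      fit_two hG.dis hS (by simpa using Ne.symm n4) (sr_Ok (mem_filter.1 m1).2)
        (fam_sr (hG.cF τ) r3 r1) m3⟩
    · simp [not_uF n1, not_uF n3]
    · simp [filter_insert, filter_singleton]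
  · exact fit_peU hG ty hm a hS U (by omega) c2
  · rw [pair_comm] at hS ⊢
    exact fit_peU hG ty hm a hS U (by omega) c2

/-! ### The context -/

variable {h2 : ℕ} {A : Finset J} {W : Finset V} {B : Finset J} {g : J → Sv V} {od : Od3 J V K t}
  {μ ν : Nd J V → Nd J V} {nE d : ℕ}

theorem same (hK : P.KCtx R h2 A W B g od μ) {i j : J} (hi : i ∈ B) (hj : j ∈ B) {v : V}
    (h1 : v ∈ (g i).its) (h2 : v ∈ (g j).its) : i = j := by
  by_contra e
  exact disjoint_left.1 (hK.st.dis i hi j hj e) h1 h2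

theorem two_facts (hK : P.KCtx R h2 A W B g od μ) {j : J} (hj : j ∈ B) {x y : V}
    (h : g j = Sv.two x y ∨ g j = Sv.two y x) :
    (g j).its = {x, y} ∧ x ∈ W ∧ y ∈ W ∧ P.Pr j x y := by
  have h1 := hK.st.nrm j hj
  have h3 := hK.st.inW j hj
  rcases h with e | e <;> rw [e] at h1 h3 ⊢
  · exact ⟨rfl, h3 (by simp [Sv.its]), h3 (by simp [Sv.its]), (nrm_two h1).2.1⟩
  · exact ⟨pair_comm _ _, h3 (by simp [Sv.its]), h3 (by simp [Sv.its]), Pr_symm (nrm_two h1).2.1⟩

theorem odd_facts (hK : P.KCtx R h2 A W B g od μ) {j : J} {x y : V} {o : Bool → K}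
    {k : Fin t × Bool × Bool} (h : od j = some (x, y, o, k)) :
    j ∈ B ∧ (g j).its = {x, y} ∧ x ∈ W ∧ y ∈ W ∧ P.Pr j x y :=
  ⟨(hK.odd j x y o k h).1, two_facts hK (hK.odd j x y o k h).1 (hK.odd j x y o k h).2.1⟩

theorem hid_inj (hK : P.KCtx R h2 A W B g od μ) {i j : J} {x y y' : V} {o o' : Bool → K}
    {k k' : Fin t × Bool × Bool} (h : od i = some (x, y, o, k)) (h' : od j = some (x, y', o', k')) :
    i = j :=
  same hK (odd_facts hK h).1 (odd_facts hK h').1 (v := x) (by rw [(odd_facts hK h).2.1]; simp)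
    (by rw [(odd_facts hK h').2.1]; simp)

theorem hid_fix (hK : P.KCtx R h2 A W B g od μ) {j : J} {x y : V} {o : Bool → K}
    {k : Fin t × Bool × Bool} (h : od j = some (x, y, o, k)) : μ (vx x) = vx x := by
  by_contra e
  have h1 := (hK.im _ _ (Ne.symm e)).1 rfl
  obtain ⟨hj, h3, -, -, h4⟩ := odd_facts hK h
  have hx : x ∈ (g j).its := by rw [h3]; simp
  rcases hm : μ (vx x) with i | u | i <;> rw [hm] at h1
  · obtain ⟨hi, a | ⟨x', o', k', a⟩⟩ := h1
    · have := same hK hi hj (by rw [a]; simp [Sv.its]) hx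
      subst this
      rcases (hK.odd _ _ _ _ _ h).2.1 with b | b <;> rw [a] at b <;> cases b
    · have := same hK hi hj (by rw [(odd_facts hK a).2.1]; simp) hx
      subst this
      rw [h] at a
      cases a
      exact h4.1 rfl
  · obtain ⟨i, hi, a, b⟩ := h1
    have := same hK hi hj (by rw [(two_facts hK hi b).1]; simp) hx
    subst this
    rw [h] at a
    cases a
  · exact h1

theorem cov_ag (hK : P.KCtx R h2 A W B g od μ) (hO : P.KOut R h2 A W od μ ν nE d) {j : J}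
    (h : ν (ag j) ≠ ag j) : ∃ v, ν (ag j) = vx v ∧ v ∈ W ∧
      (P.C j v ∨ ∃ x o k, od j = some (x, v, o, k)) := by
  rcases hO.m.2 _ h with a | a
  · rcases hm : ν (ag j) with i | u | i <;> rw [hm] at a
    · exact a.elim
    · exact ⟨u, rfl, a.2.1, Or.inl a.2.2⟩
    · exact a.elim
  · have h1 := (hK.im _ _ (Ne.symm h)).1 a
    rcases hm : ν (ag j) with i | u | i <;> rw [hm] at h1
    · exact h1.elim
    · obtain ⟨hj, b | ⟨x, o, k, b⟩⟩ := h1
      · have h3 := hK.st.nrm j hj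
        have h4 := hK.st.inW j hj
        rw [b] at h3 h4
        exact ⟨u, rfl, h4 (by simp [Sv.its]), Or.inl h3⟩
      · exact ⟨u, rfl, (odd_facts hK b).2.2.2.1, Or.inr ⟨x, o, k, b⟩⟩
    · exact h1.elim

theorem edge_W (hK : P.KCtx R h2 A W B g od μ) (hO : P.KOut R h2 A W od μ ν nE d) {x y : V}
    (hxy : y ≠ x) (h : ν (vx x) = vx y) : x ∈ W := by
  have h1 := hO.m.2 (vx x) (by rw [h]; simpa using hxy)
  rw [h] at h1
  rcases h1 with a | a
  · exact a.1
  · obtain ⟨b, hb, -, h3⟩ := (hK.im _ _ (by simpa using hxy.symm)).1 a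
    exact (two_facts hK hb h3).2.1

/-! ### The covered agents -/

/-- The odd service of `j` is kept. -/
def Kept (od : Od3 J V K t) (ν : Nd J V → Nd J V) (j : J) : Prop :=
  ∃ x y o k, od j = some (x, y, o, k) ∧ ν (ag j) = vx y

/-- Kept odd services whose hidden item is covered. -/
noncomputable def Dm (od : Od3 J V K t) (ν : Nd J V → Nd J V) : Finset J :=
  univ.filter fun j => ∃ x y o k, od j = some (x, y, o, k) ∧ ν (ag j) = vx y ∧ ν (vx x) ≠ vx x

theorem card_Dm (hK : P.KCtx R h2 A W B g od μ) (hO : P.KOut R h2 A W od μ ν nE d) :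
    (Dm od ν).card ≤ nE := by
  refine le_trans (card_le_card_of_forall_subsingleton
    (fun j n => ∃ x y o k, od j = some (x, y, o, k) ∧ n = vx x) (fun j hj => ?_) ?_) hO.en
  · obtain ⟨x, y, o, k, h1, -, h3⟩ := (mem_filter.1 hj).2
    exact ⟨vx x, mem_filter.2 ⟨mem_univ _, Or.inl ⟨hid_fix hK h1, h3⟩⟩, x, y, o, k, h1, rfl⟩
  · rintro n - i ⟨-, x, y, o, k, h1, e⟩ j ⟨-, x', y', o', k', h3, e'⟩
    have : x = x' := by simpa using e.symm.trans e'
    subst this
    exact hid_inj hK h1 h3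

theorem exists_partner (hO : P.KOut R h2 A W od μ ν nE d) : ∃ σ : J → J,
    (∀ j x y o k, od j = some (x, y, o, k) → ν (ag j) = vx y →
      ∃ x' y' o', od (σ j) = some (x', y', o', k) ∧ ν (vx x') = vx x') ∧
    (∀ j, j ∉ Dm od ν → σ j = j) ∧
    ∀ i j, Kept od ν i → Kept od ν j → σ i = σ j → i = j := by
  have h1 : ∀ k, ∃ f : J → J, (∀ j ∈ univ.filter fun j => ∃ x y o, od j = some (x, y, o, k) ∧
      ν (ag j) = vx y ∧ ν (vx x) ≠ vx x, f j ∈ univ.filter fun j => ∃ x y o,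
        od j = some (x, y, o, k) ∧ ν (ag j) ≠ vx y ∧ ν (vx x) = vx x) ∧
      ∀ i ∈ univ.filter fun j => ∃ x y o, od j = some (x, y, o, k) ∧
        ν (ag j) = vx y ∧ ν (vx x) ≠ vx x, ∀ j ∈ univ.filter fun j => ∃ x y o,
        od j = some (x, y, o, k) ∧ ν (ag j) = vx y ∧ ν (vx x) ≠ vx x, f i = f j → i = j := by
    intro k
    refine exists_inj _ _ ?_
    have a1 := hO.cls k
    have a2 := card_sdiff_add_card_inter
      (univ.filter fun j => ∃ x y o, od j = some (x, y, o, k) ∧ ν (vx x) ≠ vx x)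
      (univ.filter fun j => ∃ x y o, od j = some (x, y, o, k) ∧ ν (ag j) ≠ vx y)
    have a3 := card_sdiff_add_card_inter
      (univ.filter fun j => ∃ x y o, od j = some (x, y, o, k) ∧ ν (ag j) ≠ vx y)
      (univ.filter fun j => ∃ x y o, od j = some (x, y, o, k) ∧ ν (vx x) ≠ vx x)
    rw [inter_comm] at a3
    have a4 := le_of_add_le_add_right ((a2.le.trans a1).trans a3.ge)
    refine le_trans (card_le_card ?_) (a4.trans (card_le_card ?_))
    · intro j hj
      simp only [mem_sdiff, mem_filter, mem_univ, true_and, not_exists, not_and, not_not] at hj ⊢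
      obtain ⟨x, y, o, b1, b2, b3⟩ := hj
      refine ⟨⟨x, y, o, b1, b3⟩, fun x' y' o' b4 => ?_⟩
      rw [b1] at b4
      cases b4
      exact b2
    · intro j hj
      simp only [mem_sdiff, mem_filter, mem_univ, true_and, not_exists, not_and, not_not] at hj ⊢
      obtain ⟨⟨x, y, o, b1, b2⟩, b3⟩ := hj
      exact ⟨x, y, o, b1, b2, b3 x y o b1⟩
  choose f hf1 hf2 using h1
  simp only [mem_filter, mem_univ, true_and] at hf1 hf2
  have h3 : ∀ j, ∃ i, (j ∉ Dm od ν → i = j) ∧ ∀ x y o k, od j = some (x, y, o, k) →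
      ν (ag j) = vx y → ν (vx x) ≠ vx x → i = f k j := fun j => by
    by_cases a : j ∈ Dm od ν
    · obtain ⟨x, y, o, k, b, -⟩ := (mem_filter.1 a).2
      refine ⟨f k j, fun e => absurd a e, fun x' y' o' k' b' _ _ => ?_⟩
      rw [b] at b'
      cases b'
      rfl
    · exact ⟨j, fun _ => rfl, fun x y o k b1 b2 b3 =>
        absurd (mem_filter.2 ⟨mem_univ _, x, y, o, k, b1, b2, b3⟩) a⟩
  choose σ hσ1 hσ2 using h3
  have h4 : ∀ j ∈ Dm od ν, ∃ x y o k x' y' o', od j = some (x, y, o, k) ∧ ν (ag j) = vx y ∧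
      ν (vx x) ≠ vx x ∧ σ j = f k j ∧ od (σ j) = some (x', y', o', k) ∧ ν (ag (σ j)) ≠ vx y' := by
    intro j hj
    obtain ⟨x, y, o, k, b1, b2, b3⟩ := (mem_filter.1 hj).2
    obtain ⟨x', y', o', c1, c2, -⟩ := hf1 k j ⟨x, y, o, b1, b2, b3⟩
    rw [← hσ2 j x y o k b1 b2 b3] at c1 c2
    exact ⟨x, y, o, k, x', y', o', b1, b2, b3, hσ2 j x y o k b1 b2 b3, c1, c2⟩
  have h5 : ∀ i j, i ∈ Dm od ν → j ∉ Dm od ν → Kept od ν j → σ i ≠ σ j := by
    rintro i j hi hj ⟨x, y, o, k, b1, b2⟩ e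
    obtain ⟨-, -, -, k', x', y', o', -, -, -, -, c1, c2⟩ := h4 i hi
    rw [e, hσ1 j hj] at c1 c2
    rw [b1] at c1
    cases c1
    exact c2 b2
  refine ⟨σ, fun j x y o k b1 b2 => ?_, hσ1, fun i j hi hj e => ?_⟩
  · by_cases b3 : ν (vx x) = vx x
    · refine ⟨x, y, o, ?_, b3⟩
      rw [hσ1 j fun a => ?_, b1]
      obtain ⟨x', y', o', k', c1, -, c3⟩ := (mem_filter.1 a).2
      rw [b1] at c1
      cases c1
      exact c3 b3
    · obtain ⟨x', y', o', c1, -, c3⟩ := hf1 k j ⟨x, y, o, b1, b2, b3⟩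
      exact ⟨x', y', o', by rw [hσ2 j x y o k b1 b2 b3, c1], c3⟩
  · by_cases a : i ∈ Dm od ν <;> by_cases b : j ∈ Dm od ν
    · obtain ⟨x, y, o, k, x', y', o', b1, b2, b3, b4, b5, -⟩ := h4 i a
      obtain ⟨u, v, p, l, u', v', p', c1, c2, c3, c4, c5, -⟩ := h4 j b
      rw [e, c5] at b5
      cases b5
      exact hf2 k i ⟨x, y, o, b1, b2, b3⟩ j ⟨u, v, p, c1, c2, c3⟩ (by rw [← b4, ← c4, e])
    · exact absurd e (h5 i j a b hj)
    · exact absurd e.symm (h5 j i b a hi)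
    · rwa [hσ1 i a, hσ1 j b] at e

/-- The base sets of the covered agents. -/
theorem exists_base (hK : P.KCtx R h2 A W B g od μ) (hO : P.KOut R h2 A W od μ ν nE d) {n : ℕ}
    (hM : 10 * (R.h + n + 3) ≤ M) : ∃ S : J → Finset V,
    (∀ j, ν (ag j) ≠ ag j → ∀ v ∈ S j, v ∈ W ∧ ¬ ∃ y, y ≠ v ∧ ν (vx v) = vx y) ∧
    (∀ i j, i ≠ j → Disjoint (S i) (S j)) ∧
    ∀ j, ν (ag j) ≠ ag j → Sr P j (S j) ∨ (j ∈ Dm od ν ∧
      ∀ U : Finset ((Fin t × Fin M) ⊕ (Fin t' × Fin M0)), U.card ≤ n →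
        Sr P j (S j) ∨ ∃ p, Sum.inl p ∉ U ∧ Fit P R.mem j (S j) {Sum.inl p}) := by
  obtain ⟨σ, s1, s2, s3⟩ := exists_partner hO
  have inv : ∀ j v, ν (ag j) = vx v → ν (vx v) = ag j := fun j v h => by rw [← h, hO.m.1]
  have hid : ∀ j v, Kept od ν j → (∃ y o k, od (σ j) = some (v, y, o, k)) → ν (vx v) = vx v := by
    rintro j v ⟨x, y, o, k, b1, b2⟩ ⟨y1, o1, k1, b3⟩
    obtain ⟨x', y', o', c1, c2⟩ := s1 j x y o k b1 b2
    rw [b3] at c1
    cases c1
    exact c2
  refine ⟨fun j => univ.filter fun v => ν (ag j) = vx v ∨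
    (Kept od ν j ∧ ∃ y o k, od (σ j) = some (v, y, o, k)), fun j hj v hv => ?_,
    fun i j e => disjoint_left.2 fun v h1 h3 => ?_, fun j hj => ?_⟩
  · rcases (mem_filter.1 hv).2 with a | ⟨a, b⟩
    · obtain ⟨u, b1, b2, -⟩ := cov_ag hK hO hj
      have : u = v := by simpa using b1.symm.trans a
      refine ⟨this ▸ b2, fun ⟨y, _, c⟩ => ?_⟩
      rw [inv j v a] at c
      cases c
    · refine ⟨?_, fun ⟨y, c1, c⟩ => c1 ?_⟩
      · obtain ⟨y, o, k, c⟩ := b
        exact (odd_facts hK c).2.2.1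
      · simpa using c.symm.trans (hid j v a b)
  · rcases (mem_filter.1 h1).2 with a | ⟨a, b⟩ <;> rcases (mem_filter.1 h3).2 with c | ⟨c, c'⟩
    · exact e (by simpa using (inv i v a).symm.trans (inv j v c))
    · have := (inv i v a).symm.trans (hid j v c c')
      cases this
    · have := (inv j v c).symm.trans (hid i v a b)
      cases this
    · obtain ⟨y, o, k, b⟩ := b
      obtain ⟨y', o', k', c'⟩ := c'
      exact e (s3 i j a c (hid_inj hK b c'))
  · obtain ⟨y, b1, b2, b3 | ⟨x, o, k, b3⟩⟩ := cov_ag hK hO hj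
    · exact Or.inl (sr_C b3 (mem_filter.2 ⟨mem_univ _, Or.inl b1⟩))
    obtain ⟨x', y', o', c1, c2⟩ := s1 j x y o k b3 b1
    have my : y ∈ univ.filter fun v => ν (ag j) = vx v ∨
        (Kept od ν j ∧ ∃ y o k, od (σ j) = some (v, y, o, k)) := mem_filter.2 ⟨mem_univ _, Or.inl b1⟩
    have mx : x' ∈ univ.filter fun v => ν (ag j) = vx v ∨
        (Kept od ν j ∧ ∃ y o k, od (σ j) = some (v, y, o, k)) :=
      mem_filter.2 ⟨mem_univ _, Or.inr ⟨⟨x, y, o, k, b3, b1⟩, y', o', k, c1⟩⟩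
    by_cases a : j ∈ Dm od ν
    swap
    · rw [s2 j a, b3] at c1
      cases c1
      exact Or.inl (sr_Pr (odd_facts hK b3).2.2.2.2 mx my)
    refine Or.inr ⟨a, fun U hU => ?_⟩
    have hne : x' ≠ y := fun e => by
      have := (inv j y b1).symm.trans (e ▸ c2)
      cases this
    have k1 := card_uF U
    rcases gadget hK.good (hK.odd _ _ _ _ _ b3).2 (hK.odd _ _ _ _ _ c1).2
      (odd_facts hK b3).2.2.2.2 (odd_facts hK c1).2.2.2.2 (uF U) (by omega) with h | ⟨r, hr, h, h'⟩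
    · exact Or.inl (sr_Pr h mx my)
    exact Or.inr ⟨(k.1, r), not_uF hr _, fit_one hK.good.dis
      (disjoint_left.1 hK.dW (odd_facts hK c1).2.2.1) hne (disjoint_left.1 hK.dW b2) mx my h h'⟩

theorem sum_ind (A X : Finset J) (n : ℕ) : ∑ i ∈ A, (if i ∈ X then n else 0) ≤ n * X.card := by
  rw [← sum_filter, sum_const, smul_eq_mul, mul_comm]
  exact Nat.mul_le_mul_left _ (card_le_card fun i hi => (mem_filter.1 hi).2)

end ERReal

open ERReal in
theorem rRealS : RRealS := by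
  intro J V K _ _ _ _ _ _ P t M t' M0 R h2 A W B g od μ ν nE d D hK hO hA c1 c2 c3
  obtain ⟨O, f, o1, o2, o3⟩ := hA
  obtain ⟨S, s1, s2, s3⟩ := exists_base hK hO (n := 3 * (D + nE)) c2
  have k1 := card_Dm hK hO
  have k2 := sum_ind A (O ∪ Dm od ν) 3
  have k3 := sum_ind A O 1
  have k4 := card_union_le O (Dm od ν)
  have fW : ∀ j ∈ A, ν (ag j) = ag j → f j ⊆ W := fun j hj a v hv => by
    obtain ⟨u, b1, b2⟩ := (o3 j hj a).1 v hv
    exact edge_W hK hO b1 b2
  have mix : ∀ i, ν (ag i) ≠ ag i → ∀ j ∈ A, ν (ag j) = ag j → Disjoint (S i) (f j) :=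
    fun i hi j hj a => disjoint_left.2 fun v h1 h3 => (s1 i hi v h1).2 ((o3 j hj a).1 v h3)
  obtain ⟨f', f1, f2⟩ := greedy hK.good.dis (mem_sr hK.good) A W hK.dW
    (fun j => if ν (ag j) = ag j then f j else S j) (fun j hj => by
      by_cases a : ν (ag j) = ag j
      · simp only [if_pos a]; exact fW j hj a
      · simp only [if_neg a]; exact fun v hv => (s1 j a v hv).1)
    (fun i hi j hj e => by
      by_cases a : ν (ag i) = ag i <;> by_cases b : ν (ag j) = ag j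
      · simp only [if_pos a, if_pos b]; exact o2 i hi j hj a b e
      · simp only [if_pos a, if_neg b]; exact (mix j b i hi a).symm
      · simp only [if_neg a, if_pos b]; exact mix i a j hj b
      · simp only [if_neg a, if_neg b]; exact s2 i j e)
    (fun m => m.isRight = true) (fun i => if i ∈ O ∪ Dm od ν then 3 else 0)
    (fun i => if i ∈ O then 1 else 0) (fun j hj U u1 u2 => by
      have z : ∀ s, Sr P j s → ∃ T : Finset ((Fin t × Fin M) ⊕ (Fin t' × Fin M0)),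
          Disjoint T U ∧ T.card ≤ (if j ∈ O ∪ Dm od ν then 3 else 0) ∧
          (T.filter fun m => m.isRight = true).card ≤ (if j ∈ O then 1 else 0) ∧
          Fit P R.mem j s T := fun s hs => ⟨∅, by simp, by simp, by simp, fit_zero hs⟩
      by_cases a : ν (ag j) = ag j
      · simp only [if_pos a]
        by_cases b : j ∈ O
        · obtain ⟨x, y, b1, b2, b3⟩ := (o3 j hj a).2.2 b
          have b4 := fW j hj a
          rw [b2] at b4 ⊢
          rw [if_pos b, if_pos (mem_union_left _ b)]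
          exact fit_compat hK.good b1 b3 (disjoint_left.1 hK.dW (b4 (by simp)))
            (disjoint_left.1 hK.dW (b4 (by simp))) U (by omega) (by omega) (by omega)
        · exact z _ ((o3 j hj a).2.1 b)
      · simp only [if_neg a]
        rcases s3 j a with b | ⟨b, b'⟩
        · exact z _ b
        rcases b' U (by omega) with c | ⟨p, c, c'⟩
        · exact z _ c
        · refine ⟨{Sum.inl p}, by simpa using c, ?_, by simp [filter_singleton], c'⟩
          rw [if_pos (mem_union_right _ b)]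
          simp)
  exact ⟨f', Subset.rfl, fun j hj => (f1 j hj).1, fun j hj => (f1 j hj).2, f2,
    fun _ _ h => h.elim⟩

end Pool.Agent.Lib.MP_ef7581_lc.D3
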