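import Mathlib
import Pool.Agent.Lib.MP_ef7581_lc.EGeo
import Pool.Agent.Lib.MP_ef7581_lc.DRSel

/-!
The consistent case for agents with several terminals: selection of boundedly many components of a
virtual solution.
-/

set_option autoImplicit false
set_option linter.unusedSectionVars false

namespace Pool.Agent.Lib.MP_ef7581_lc.D3

open Finset Classical D2
open D2.DRSel (cn mem_cn cn_mix eds mem_eds vx_inj mate eds_mono eds_inj eds_le eds_ge npe_eq Ed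
  ed_of Co cl_univ)

namespace ERSel

noncomputable section

theorem two_mem {N a b : ℕ} {s1 s2 s3 s4 : Finset (Fin N)} (h1 : s1.card ≤ a) (h2 : s2.card ≤ a)
    (h3 : s3.card ≤ b) (h4 : s4.card ≤ b) (h : 2 * a + 2 * b + 2 ≤ N) :
    ∃ r r', r ≠ r' ∧ ∀ z, z = r ∨ z = r' → z ∉ s1 ∧ z ∉ s2 ∧ z ∉ s3 ∧ z ∉ s4 := by
  have u1 := card_union_le (s1 ∪ s2 ∪ s3) s4
  have u2 := card_union_le (s1 ∪ s2) s3
  have u3 := card_union_le s1 s2
  have u4 := card_compl (s1 ∪ s2 ∪ s3 ∪ s4)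
  rw [Fintype.card_fin] at u4
  obtain ⟨r, hr, r', hr', hne⟩ := one_lt_card.1 (show 1 < (s1 ∪ s2 ∪ s3 ∪ s4)ᶜ.card by omega)
  simp only [mem_compl, mem_union, not_or, and_assoc] at hr hr'
  refine ⟨r, r', hne, ?_⟩
  rintro z (rfl | rfl)
  · exact hr
  · exact hr'

theorem four {a12 a21 a13 a31 a14 a41 a23 a32 a24 a42 a34 a43 : Prop} (c12 : a12 ∨ a21)
    (c13 : a13 ∨ a31) (c14 : a14 ∨ a41) (c23 : a23 ∨ a32) (c24 : a24 ∨ a42) (c34 : a34 ∨ a43)
    (u1 : ¬ (a21 ∧ a31) ∧ ¬ (a21 ∧ a41) ∧ ¬ (a31 ∧ a41))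
    (u2 : ¬ (a12 ∧ a32) ∧ ¬ (a12 ∧ a42) ∧ ¬ (a32 ∧ a42))
    (u3 : ¬ (a13 ∧ a23) ∧ ¬ (a13 ∧ a43) ∧ ¬ (a23 ∧ a43))
    (u4 : ¬ (a14 ∧ a24) ∧ ¬ (a14 ∧ a34) ∧ ¬ (a24 ∧ a34)) : False := by
  rcases c12 with h | h <;> rcases c13 with h | h <;> rcases c14 with h | h <;>
    rcases c23 with h | h <;> rcases c24 with h | h <;> rcases c34 with h | h <;> simp_all

variable {J V K : Type} [Fintype J] [Fintype V] [Fintype K] [DecidableEq J] [DecidableEq V]
  [DecidableEq K] {P : G3 J V K} {t M t' M0 : ℕ} {R : R3 J V K t M t' M0} {h2 : ℕ} {A : Finset J}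
  {W : Finset V} {μ ν : Nd J V → Nd J V}

theorem srv_symm {τ : Fin t} {x y : V} (h : P.Srv R h2 τ x y) : P.Srv R h2 τ y x := by
  rcases h with ⟨h0, s, a, b⟩ | ⟨h0, h1, h⟩
  · exact Or.inl ⟨h0, !s, b, by rwa [Bool.not_not]⟩
  refine Or.inr ⟨h0, fun a => h1 (Geo.HH_symm a), ?_⟩
  rcases h with h | h | h
  · refine Or.inl (h.trans (card_le_card fun r hr => ?_))
    rw [mem_filter] at hr ⊢
    exact ⟨hr.1, G3.Ok_symm hr.2⟩
  · exact Or.inr (Or.inr h)
  · exact Or.inr (Or.inl h)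

theorem EK_pe (h : IsM (P.EK A W fun _ _ => True) ν) {x y : V} (hxy : x ≠ y)
    (e : ν (vx x) = vx y) : x ∈ W ∧ y ∈ W := by
  have := h.2 (vx x) (by rw [e]; exact fun h => hxy (vx_inj h).symm)
  rw [e] at this
  exact ⟨this.1, this.2.1⟩

theorem EK_ag (h : IsM (P.EK A W fun _ _ => True) ν) {j : J} {y : V} (e : ν (ag j) = vx y) :
    P.C j y := by
  have := h.2 (ag j) (by rw [e]; simp)
  rw [e] at this
  exact this.2.2

theorem EK_shape (h : IsM (P.EK A W fun _ _ => True) ν) : Shape ν := by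
  refine ⟨fun j => ?_, fun j => ?_⟩
  · by_cases a : ν (ag j) = ag j
    · exact Or.inl a
    have b := h.2 _ a
    rcases hm : ν (ag j) with i | u | i <;> rw [hm] at b
    · exact b.elim
    · exact Or.inr (Or.inl ⟨u, rfl⟩)
    · exact b.elim
  · by_cases a : ν (dm j) = dm j
    · exact Or.inl a
    have b := h.2 _ a
    rcases hm : ν (dm j) with i | u | i <;> rw [hm] at b <;> exact b.elim

/-! ### Virtual solutions of least potential -/

/-- The mark of a family of multiple agents. -/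
def MM (P : G3 J V K) (R : R3 J V K t M t' M0) (m : Mk t t') : Prop :=
  ∃ τ, m = some (Sum.inl τ) ∧ P.mt R τ

/-- The data of a virtual solution. -/
structure VD (P : G3 J V K) (R : R3 J V K t M t' M0) (A : Finset J) (W : Finset V)
    (ν : Nd J V → Nd J V) (sd : V → Prop) (mk : V → Mk t t') (own : J → V → Prop) : Prop where
  m : IsM (P.EK A W fun _ _ => True) ν
  pe : ∀ x y, x ≠ y → ν (vx x) = vx y → (sd x ↔ ¬ sd y) ∧ mk x = mk y ∧
    (MM P R (mk x) ∨ ¬ P.HH x y) ∧ (sd x → P.Sm R false (mk x) x ∧ P.Sm R true (mk x) y)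
  inj : ∀ j j' x, own j x → own j' x → j = j'
  ow : ∀ j ∈ A, ν (ag j) = ag j →
    ∃ x y, own j x ∧ sd x ∧ x ≠ y ∧ ν (vx x) = vx y ∧ P.Tm R (mk x) j

/-- Two edges with the same key cannot be crossed. -/
def RO (P : G3 J V K) (R : R3 J V K t M t' M0) (ν : Nd J V → Nd J V) (sd : V → Prop)
    (mk : V → Mk t t') (χ : V → Bool) (C : Finset (Nd J V)) : Prop :=
  ∀ x1 y1 x2 y2, x1 ≠ x2 → Ed ν sd C x1 y1 → Ed ν sd C x2 y2 → (mk x1, χ x1) = (mk x2, χ x2) →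
    ¬ MM P R (mk x1) ∧ (P.HH x1 y2 ∨ P.HH x2 y1)

variable {sd : V → Prop} {mk : V → Mk t t'} {own : J → V → Prop}

theorem vs_cross (hC : CompStmt) (hμ : ∀ x, μ (μ x) = x) (D : VD P R A W ν sd mk own)
    {C : Finset (Nd J V)} {x1 y1 x2 y2 : V} (hne : x1 ≠ x2) (e1 : Ed ν sd C x1 y1)
    (e2 : Ed ν sd C x2 y2) (hm : mk x1 = mk x2) (a : MM P R (mk x1) ∨ ¬ P.HH x1 y2)
    (b : MM P R (mk x1) ∨ ¬ P.HH x2 y1) : P.VS R A W (cross (vx x1) (vx x2) ν) := by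
  obtain ⟨p1, q1, -, r1⟩ := D.pe _ _ e1.ne e1.e
  obtain ⟨p2, q2, -, r2⟩ := D.pe _ _ e2.ne e2.e
  have n1 : ¬ sd y1 := p1.1 e1.s
  have n2 : ¬ sd y2 := p2.1 e2.s
  have s1 := e1.s
  have s2 := e2.s
  obtain ⟨w1, w1'⟩ := EK_pe D.m e1.ne e1.e
  obtain ⟨w2, w2'⟩ := EK_pe D.m e2.ne e2.e
  obtain ⟨-, -, -, -, -, -, -, -, hx, -⟩ := hC _ μ ν hμ D.m.1
  obtain ⟨-, c0, c1, c2, c3, c4, c5, -, -, -, c6⟩ := hx (vx x1) (vx x2)
    (fun h => hne (vx_inj h)) (by rw [e1.e]; exact fun h => e1.ne (vx_inj h).symm)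
    (by rw [e2.e]; exact fun h => e2.ne (vx_inj h).symm)
    (by rw [e1.e]; exact fun h => n1 (vx_inj h ▸ s2))
  rw [e1.e, e2.e] at c5 c6
  rw [e2.e] at c1 c4
  rw [e1.e] at c2 c3
  refine ⟨c6 _ D.m ⟨w1, w2', Or.inl trivial⟩ ⟨w2', w1, Or.inl trivial⟩
    ⟨w2, w1', Or.inl trivial⟩ ⟨w1', w2, Or.inl trivial⟩, sd, mk, own, ?_, D.inj, ?_⟩
  · intro x y hxy e
    by_cases k1 : x = x1
    · subst k1
      obtain rfl := vx_inj (c1.symm.trans e)
      exact ⟨by tauto, hm.trans q2, a, fun _ => ⟨(r1 s1).1, hm ▸ (r2 s2).2⟩⟩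
    by_cases k2 : x = x2
    · subst k2
      obtain rfl := vx_inj (c2.symm.trans e)
      exact ⟨by tauto, hm.symm.trans q1, b.imp (fun h : MM P R _ => hm ▸ h) id,
        fun _ => ⟨(r2 s2).1, hm ▸ (r1 s1).2⟩⟩
    by_cases k3 : x = y1
    · subst k3
      obtain rfl := vx_inj (c3.symm.trans e)
      exact ⟨by tauto, q1.symm.trans hm,
        b.imp (fun h : MM P R _ => q1 ▸ h) fun h h' => h (Geo.HH_symm h'), fun h => absurd h n1⟩
    by_cases k4 : x = y2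
    · subst k4
      obtain rfl := vx_inj (c4.symm.trans e)
      exact ⟨by tauto, q2.symm.trans hm.symm, a.imp (fun h : MM P R _ => (hm.trans q2) ▸ h)
        fun h h' => h (Geo.HH_symm h'), fun h => absurd h n2⟩
    rw [c5 _ (fun h => k1 (vx_inj h)) (fun h => k2 (vx_inj h)) (fun h => k3 (vx_inj h))
      (fun h => k4 (vx_inj h))] at e
    exact D.pe x y hxy e
  · intro j hj e
    obtain ⟨x, y, o1, o2, o3, o4, o5⟩ := D.ow j hj ((c0 _).1 e)
    by_cases k1 : x = x1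
    · subst k1
      exact ⟨x, y2, o1, o2, fun h => n2 (h ▸ o2), c1, o5⟩
    by_cases k2 : x = x2
    · subst k2
      exact ⟨x, y1, o1, o2, fun h => n1 (h ▸ o2), c2, o5⟩
    refine ⟨x, y, o1, o2, o3, ?_, o5⟩
    rw [c5 _ (fun h => k1 (vx_inj h)) (fun h => k2 (vx_inj h)) (fun h => n1 (vx_inj h ▸ o2))
      (fun h => n2 (vx_inj h ▸ o2)), o4]

theorem exists_min (hC : CompStmt) (hμ : ∀ x, μ (μ x) = x) (h : ∃ ν, P.VS R A W ν) :
    ∃ (ν : Nd J V → Nd J V) (sd : V → Prop) (mk : V → Mk t t') (own : J → V → Prop)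
      (χ : V → Bool), VD P R A W ν sd mk own ∧ ∀ x, RO P R ν sd mk χ (cmp μ ν x) := by
  obtain ⟨ν, hν, hmin⟩ := exists_min_image (univ.filter fun ν => P.VS R A W ν) (pot μ)
    (by obtain ⟨ν, h⟩ := h; exact ⟨ν, by simpa using h⟩)
  obtain ⟨h1, sd, mk, own, h2, h3, h4⟩ := (mem_filter.1 hν).2
  have D : VD P R A W ν sd mk own := ⟨h1, h2, h3, h4⟩
  obtain ⟨-, c2, -, -, -, -, -, ⟨χ, hχ⟩, -⟩ := hC _ μ ν hμ h1.1
  refine ⟨ν, sd, mk, own, fun x => χ (vx x), D, fun x0 x1 y1 x2 y2 hne e1 e2 hk => ?_⟩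
  by_contra hn
  have hv := vs_cross hC hμ D hne e1 e2 (congrArg Prod.fst hk) (by tauto) (by tauto)
  have := hmin _ (mem_filter.2 ⟨mem_univ _, hv⟩)
  have := (hχ (vx x1) (vx x2) (fun h => hne (vx_inj h)) (congrArg Prod.snd hk)
    ((c2 _ _ e1.mem).trans (c2 _ _ e2.mem).symm)
    (by rw [e1.e]; exact fun h => e1.ne (vx_inj h).symm)
    (by rw [e2.e]; exact fun h => e2.ne (vx_inj h).symm)).2
  omega

section Ro

variable {χ : V → Bool} {C : Finset (Nd J V)}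

/-- Both ends of the edge are next to the terminal. -/
def Nx (P : G3 J V K) (j : J) (k : K) (x y : V) : Prop := P.adt j k x ∧ P.adt j k y

theorem ro0 (D : VD P R A W ν sd mk own) (h : RO P R ν sd mk χ C) {x1 y1 x2 y2 : V}
    (e1 : Ed ν sd C x1 y1) (e2 : Ed ν sd C x2 y2) (hk : (mk x1, χ x1) = (mk x2, χ x2))
    (hne : x1 ≠ x2) : ¬ P.HH x1 y1 :=
  (D.pe _ _ e1.ne e1.e).2.2.1.resolve_left (h _ _ _ _ hne e1 e2 hk).1

theorem ro1 (D : VD P R A W ν sd mk own) (h : RO P R ν sd mk χ C) {x1 y1 x2 y2 : V}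
    (e1 : Ed ν sd C x1 y1) (e2 : Ed ν sd C x2 y2) (hk : (mk x1, χ x1) = (mk x2, χ x2))
    {j j' : J} {o o' : K} (hj : j ≠ j') (a1 : Nx P j o x1 y1) (b1 : Nx P j' o' x1 y1)
    (a2 : Nx P j o x2 y2) (b2 : Nx P j' o' x2 y2) : x1 = x2 := by
  by_contra hne
  have hp : (j, o) ≠ (j', o') := fun e => hj (congrArg Prod.fst e)
  have n := ro0 D h e1 e2 hk hne
  rcases (h _ _ _ _ hne e1 e2 hk).2 with k | k
  · exact G3.ind_k hp a1.1 b1.1 a1.2 b1.2 e1.ne n a1.1 b1.1 a2.2 b2.2 k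
  · exact G3.ind_k hp a1.1 b1.1 a1.2 b1.2 e1.ne n a2.1 b2.1 a1.2 b1.2 k

theorem fam_inj (hg : P.RGood R) (τ : Fin t) {r r' : Fin M} (h : (R.F τ r).1 = (R.F τ r').1) :
    r = r' := by
  have := hg.dis.1 (a₁ := Sum.inl (τ, r)) (a₂ := Sum.inl (τ, r')) h
  simpa using this

/-- Members that have two given edges on the same side. -/
def cm (P : G3 J V K) (R : R3 J V K t M t' M0) (τ : Fin t) (x1 y1 x2 y2 : V) : Finset (Fin M) :=
  univ.filter fun r => ∃ o, Nx P (R.F τ r).1 o x1 y1 ∧ Nx P (R.F τ r).1 o x2 y2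

theorem cm_le (hg : P.RGood R) (D : VD P R A W ν sd mk own) (h : RO P R ν sd mk χ C)
    {x1 y1 x2 y2 : V} (e1 : Ed ν sd C x1 y1) (e2 : Ed ν sd C x2 y2)
    (hk : (mk x1, χ x1) = (mk x2, χ x2)) (hne : x1 ≠ x2) (τ : Fin t) :
    (cm P R τ x1 y1 x2 y2).card ≤ 1 := by
  refine card_le_one.2 fun r hr r' hr' => ?_
  obtain ⟨o, a1, a2⟩ := (mem_filter.1 hr).2
  obtain ⟨o', b1, b2⟩ := (mem_filter.1 hr').2
  by_contra hrr
  exact hne (ro1 D h e1 e2 hk (fun e => hrr (fam_inj hg τ e)) a1 b1 a2 b2)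

theorem ro2 (hg : P.RGood R) (hM : 4 * h2 + 4 ≤ M) (D : VD P R A W ν sd mk own)
    (h : RO P R ν sd mk χ C) {x1 y1 x2 y2 x3 y3 : V} (e1 : Ed ν sd C x1 y1)
    (e2 : Ed ν sd C x2 y2) (e3 : Ed ν sd C x3 y3) (k12 : (mk x1, χ x1) = (mk x2, χ x2))
    (k13 : (mk x1, χ x1) = (mk x3, χ x3)) (n12 : x1 ≠ x2) (n13 : x1 ≠ x3) (n23 : x2 ≠ x3)
    {τ : Fin t} (hs : ¬ P.mt R τ) (s1 : ¬ P.Srv R h2 τ x1 y1) (s2 : ¬ P.Srv R h2 τ x2 y2)
    (s3 : ¬ P.Srv R h2 τ x3 y3) : False := by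
  have c12 := cm_le hg D h e1 e2 k12 n12 τ
  have c13 := cm_le hg D h e1 e3 k13 n13 τ
  have c23 := cm_le hg D h e2 e3 (k12.symm.trans k13) n23 τ
  have m1 := ro0 D h e1 e2 k12 n12
  have m2 := ro0 D h e2 e1 k12.symm n12.symm
  have m3 := ro0 D h e3 e1 k13.symm n13.symm
  have t1 := not_le.1 fun h => s1 (Or.inr ⟨hs, m1, Or.inl h⟩)
  have t2 := not_le.1 fun h => s2 (Or.inr ⟨hs, m2, Or.inl h⟩)
  have t3 := not_le.1 fun h => s3 (Or.inr ⟨hs, m3, Or.inl h⟩)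
  set O1 := univ.filter fun r => P.Ok (R.F τ r).1 x1 y1 with hO1
  set O2 := univ.filter fun r => P.Ok (R.F τ r).1 x2 y2 with hO2
  set O3 := univ.filter fun r => P.Ok (R.F τ r).1 x3 y3 with hO3
  have hs : (univ : Finset (Fin M)) ⊆ ((O1 ∪ O2) ∪ O3) ∪
      ((cm P R τ x1 y1 x2 y2 ∪ cm P R τ x1 y1 x3 y3) ∪ cm P R τ x2 y2 x3 y3) := fun r _ => by
    simp only [hO1, hO2, hO3, cm, mem_union, mem_filter, mem_univ, true_and]
    by_cases a1 : P.Ok (R.F τ r).1 x1 y1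
    · tauto
    by_cases a2 : P.Ok (R.F τ r).1 x2 y2
    · tauto
    by_cases a3 : P.Ok (R.F τ r).1 x3 y3
    · tauto
    obtain ⟨k1, b1⟩ := G3.refuse e1.ne (Or.inr m1) a1
    obtain ⟨k2, b2⟩ := G3.refuse e2.ne (Or.inr m2) a2
    obtain ⟨k3, b3⟩ := G3.refuse e3.ne (Or.inr m3) a3
    obtain ⟨o1, rfl⟩ := G3.strict_tm (fun a => hs ⟨r, a⟩) b1.1
    obtain ⟨o2, rfl⟩ := G3.strict_tm (fun a => hs ⟨r, a⟩) b2.1
    obtain ⟨o3, rfl⟩ := G3.strict_tm (fun a => hs ⟨r, a⟩) b3.1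
    right
    by_cases g1 : o1 = o2
    · subst g1
      exact Or.inl (Or.inl ⟨_, b1, b2⟩)
    by_cases g2 : o1 = o3
    · subst g2
      exact Or.inl (Or.inr ⟨_, b1, b3⟩)
    have g3 : o2 = o3 := by
      revert g1 g2
      cases o1 <;> cases o2 <;> cases o3 <;> simp
    subst g3
    exact Or.inr ⟨_, b2, b3⟩
  have u0 := (card_le_card hs).trans (card_union_le _ _)
  have u1 := card_union_le (O1 ∪ O2) O3
  have u2 := card_union_le O1 O2
  have u3 := card_union_le (cm P R τ x1 y1 x2 y2 ∪ cm P R τ x1 y1 x3 y3) (cm P R τ x2 y2 x3 y3)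
  have u4 := card_union_le (cm P R τ x1 y1 x2 y2) (cm P R τ x1 y1 x3 y3)
  rw [card_univ, Fintype.card_fin] at u0
  omega

/-- Four items that cannot be absorbed are seen together by two members. -/
theorem nab4 (hM : 4 * h2 + 4 ≤ M) {τ : Fin t} {s1 s2 s3 s4 : Bool} {x1 x2 x3 x4 : V}
    (a1 : ¬ P.Ab R h2 τ s1 x1) (a2 : ¬ P.Ab R h2 τ s2 x2) (a3 : ¬ P.Ab R h2 τ s3 x3)
    (a4 : ¬ P.Ab R h2 τ s4 x4) : ∃ r r', r ≠ r' ∧ ∀ z, z = r ∨ z = r' →
      P.adt (R.F τ z).1 ((R.F τ z).2.1 (!s1)) x1 ∧ P.adt (R.F τ z).1 ((R.F τ z).2.1 (!s2)) x2 ∧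
      P.adt (R.F τ z).1 ((R.F τ z).2.1 (!s3)) x3 ∧ P.adt (R.F τ z).1 ((R.F τ z).2.1 (!s4)) x4 := by
  unfold G3.Ab at a1 a2 a3 a4
  obtain ⟨r, r', hne, h⟩ := two_mem (not_le.1 a1).le (not_le.1 a2).le (not_le.1 a3).le
    (not_le.1 a4).le (by omega)
  exact ⟨r, r', hne, fun z hz => by simpa using h z hz⟩

theorem junk_one (hg : P.RGood R) (hM : 4 * h2 + 4 ≤ M) {τ : Fin t} {x y : V}
    (a : ∀ s, ¬ P.Ab R h2 τ s x) (b : ∀ s, ¬ P.Ab R h2 τ s y) : x = y := by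
  obtain ⟨r, r', hne, h⟩ := nab4 hM (a false) (a true) (b false) (b true)
  obtain ⟨a1, a2, a3, a4⟩ := h r (Or.inl rfl)
  obtain ⟨b1, b2, b3, b4⟩ := h r' (Or.inr rfl)
  have n := fun z => G3.tm_ne (hg.cF τ) z true
  exact G3.fam_junk (hg.cF τ) (fun e => hne (fam_inj hg τ e)) (G3.junk_of_two a1 a2 (n r))
    (G3.junk_of_two a3 a4 (n r)) (G3.junk_of_two b1 b2 (n r')) (G3.junk_of_two b3 b4 (n r'))

/-- A bound for each class gives a bound for the component. -/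
theorem cls_le (D : VD P R A W ν sd mk own) (hc : Cl C ν) {Q : V → V → Prop}
    (hQ : ∀ u v, Q u v → Q v u) (χ : V → Bool) {n : ℕ}
    (h : ∀ s : Finset V, (∀ x ∈ s, ∃ y, Ed ν sd C x y ∧ Q x y) →
      (∀ x ∈ s, ∀ x' ∈ s, (mk x, χ x) = (mk x', χ x')) → s.card ≤ n) :
    (eds ν C Q).card ≤ 2 * (n * Fintype.card (Mk t t' × Bool)) := by
  have h1 := eds_le (Q := Q) (D := fun u _ => sd u) D.m.1 hc hQ fun u v a b c => by
    have := (D.pe u v a b).1
    tauto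
  have h2 := card_le_mul_card_image_of_maps_to (f := fun x => (mk x, χ x))
    (s := eds ν C fun u v => Q u v ∧ sd u) (t := univ) (fun _ _ => mem_univ _) n
    fun k _ => h _ (fun x hx => ed_of (mem_filter.1 hx).1) fun x hx x' hx' =>
      (mem_filter.1 hx).2.trans (mem_filter.1 hx').2.symm
  rw [card_univ] at h2
  omega

theorem nsrv_le (hg : P.RGood R) (hM : 4 * h2 + 4 ≤ M) (D : VD P R A W ν sd mk own)
    (h : RO P R ν sd mk χ C) (hc : Cl C ν) (τ : Fin t) :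
    (eds ν C fun u v => ¬ P.Srv R h2 τ u v).card ≤ 2 * (3 * Fintype.card (Mk t t' × Bool)) := by
  refine cls_le D hc (fun u v a b => a (srv_symm b)) χ fun s h1 hk => ?_
  choose! y e hy using h1
  by_cases hs : P.mt R τ
  · have side : ∀ o, (s.filter fun x => ¬ P.Ab R h2 τ o x ∧ ¬ P.Ab R h2 τ o (y x)).card ≤ 1 :=
      fun o => card_le_one.2 fun x1 a1 x2 a2 => by
        rw [mem_filter] at a1 a2
        obtain ⟨r, r', hne, k⟩ := nab4 hM a1.2.1 a1.2.2 a2.2.1 a2.2.2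
        obtain ⟨b1, b2, b3, b4⟩ := k r (Or.inl rfl)
        obtain ⟨c1, c2, c3, c4⟩ := k r' (Or.inr rfl)
        exact ro1 D h (e _ a1.1) (e _ a2.1) (hk _ a1.1 _ a2.1) (fun e => hne (fam_inj hg τ e))
          ⟨b1, b2⟩ ⟨c1, c2⟩ ⟨b3, b4⟩ ⟨c3, c4⟩
    have jk : (s.filter fun x => (∀ o, ¬ P.Ab R h2 τ o x) ∨ ∀ o, ¬ P.Ab R h2 τ o (y x)).card ≤ 1 :=
      card_le_one.2 fun x1 a1 x2 a2 => by
        rw [mem_filter] at a1 a2
        have e1 := e _ a1.1
        have e2 := e _ a2.1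
        rcases a1.2 with b | b <;> rcases a2.2 with c | c <;> have k := junk_one hg hM b c
        · exact k
        · exact absurd (k ▸ e1.s) ((D.pe _ _ e2.ne e2.e).1.1 e2.s)
        · exact absurd (k ▸ e2.s) ((D.pe _ _ e1.ne e1.e).1.1 e1.s)
        · exact vx_inj ((mate D.m.1 e1.e).symm.trans (k ▸ mate D.m.1 e2.e))
    have sub : s ⊆ ((s.filter fun x => ¬ P.Ab R h2 τ false x ∧ ¬ P.Ab R h2 τ false (y x)) ∪
        s.filter fun x => ¬ P.Ab R h2 τ true x ∧ ¬ P.Ab R h2 τ true (y x)) ∪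
        s.filter fun x => (∀ o, ¬ P.Ab R h2 τ o x) ∨ ∀ o, ¬ P.Ab R h2 τ o (y x) := fun x hx => by
      have a : ¬ (P.Ab R h2 τ false x ∧ P.Ab R h2 τ true (y x)) :=
        fun a => hy x hx (Or.inl ⟨hs, false, a⟩)
      have b : ¬ (P.Ab R h2 τ true x ∧ P.Ab R h2 τ false (y x)) :=
        fun a => hy x hx (Or.inl ⟨hs, true, a⟩)
      simp only [mem_union, mem_filter, hx, true_and, Bool.forall_bool]
      tauto
    have u0 := (card_le_card sub).trans ((card_union_le _ _).trans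
      (add_le_add ((card_union_le _ _).trans (add_le_add (side false) (side true))) jk))
    exact u0
  · by_contra hn
    obtain ⟨x1, a1, x2, a2, x3, a3, n12, n13, n23⟩ := two_lt_card.1 (show 2 < s.card by omega)
    exact ro2 hg hM D h (e _ a1) (e _ a2) (e _ a3) (hk _ a1 _ a2) (hk _ a1 _ a3) n12 n13 n23 hs
      (hy _ a1) (hy _ a2) (hy _ a3)

theorem hh_le (D : VD P R A W ν sd mk own) (h : RO P R ν sd mk χ C) (hc : Cl C ν) :
    (eds ν C P.HH).card ≤ 2 * (1 * Fintype.card (Mk t t' × Bool)) := by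
  refine cls_le D hc (fun u v => Geo.HH_symm) χ fun s h1 hk => card_le_one.2 fun x1 a1 x2 a2 => ?_
  obtain ⟨y1, e1, b1⟩ := h1 x1 a1
  obtain ⟨y2, e2, -⟩ := h1 x2 a2
  by_contra hne
  exact ro0 D h e1 e2 (hk _ a1 _ a2) hne b1

/-- The items seen on one side by most members are pairwise adjacent or pairwise non-adjacent. -/
theorem sd_dich {N h : ℕ} {F : Fin N → M3 J V K} (hF : P.CFam F) (hD : DisM F)
    (hN : 2 * h + 2 ≤ N) (s : Bool) :
    (∀ x y, P.Sd F h s x → P.Sd F h s y → x ≠ y → P.HH x y) ∨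
      ∀ x y, P.Sd F h s x → P.Sd F h s y → ¬ P.HH x y := by
  have key : ∀ x y, P.Sd F h s x → P.Sd F h s y → ∃ r r', ((F r).1, (F r).2.1 s) ≠
      ((F r').1, (F r').2.1 s) ∧ Nx P (F r).1 ((F r).2.1 s) x y ∧
        Nx P (F r').1 ((F r').2.1 s) x y := fun x y a b => by
    unfold G3.Sd at a b
    obtain ⟨r, r', hne, k⟩ := two_mem a.le b.le card_empty.le card_empty.le (by omega)
    simp only [mem_filter, mem_univ, true_and, not_not] at k
    exact ⟨r, r', fun e => hne (hD.1 (Prod.mk.inj e).1),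
      ⟨(k r (Or.inl rfl)).1.1, (k r (Or.inl rfl)).2.1.1⟩,
      (k r' (Or.inr rfl)).1.1, (k r' (Or.inr rfl)).2.1.1⟩
  obtain ⟨r0, r1, hne, -⟩ := two_mem (N := N) card_empty.le card_empty.le card_empty.le
    card_empty.le (by omega)
  have f := fun r r' => (hF.1 r r' s).1
  by_cases hh : P.HH ((F r0).2.2 s) ((F r1).2.2 s)
  · refine Or.inl fun x y a b n => ?_
    obtain ⟨r, r', c, d, e⟩ := key x y a b
    exact G3.line_k c (f r r0) (f r' r0) (f r r1) (f r' r1) hh d.1 e.1 d.2 e.2 n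
  · refine Or.inr fun x y a b => ?_
    obtain ⟨r, r', c, d, e⟩ := key x y a b
    exact G3.ind_k c (f r r0) (f r' r0) (f r r1) (f r' r1)
      (fun k => hne (congrArg Prod.fst (hD.2 (a₁ := (r0, s)) (a₂ := (r1, s)) k))) hh d.1 e.1 d.2 e.2

theorem sm_dich (hg : P.RGood R) (hM : 2 * R.h + 2 ≤ M) (hM0 : 2 * R.h0 + 2 ≤ M0) (m : Mk t t') :
    (∀ x y, P.Sm R false m x → P.Sm R false m y → x ≠ y → P.HH x y) ∨
      ∀ x y, P.Sm R false m x → P.Sm R false m y → ¬ P.HH x y := by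
  rcases m with _ | τ | i
  · exact Or.inr fun _ _ h => h.elim
  · refine sd_dich (hg.cF τ) ⟨fun r r' e => fam_inj hg τ e, fun p q e => ?_⟩ hM false
    have := hg.dis.2 (a₁ := (Sum.inl (τ, p.1), p.2)) (a₂ := (Sum.inl (τ, q.1), q.2)) e
    exact Prod.ext (by simpa using congrArg Prod.fst this) (Prod.mk.inj this).2
  · refine sd_dich (hg.cG i) ⟨fun r r' e => ?_, fun p q e => ?_⟩ hM0 false
    · simpa using hg.dis.1 (a₁ := Sum.inr (i, r)) (a₂ := Sum.inr (i, r')) e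
    · have := hg.dis.2 (a₁ := (Sum.inr (i, p.1), p.2)) (a₂ := (Sum.inr (i, q.1), q.2)) e
      exact Prod.ext (by simpa using congrArg Prod.fst this) (Prod.mk.inj this).2

theorem nx_le (hg : P.RGood R) (hM : 2 * R.h + 2 ≤ M) (hM0 : 2 * R.h0 + 2 ≤ M0)
    (D : VD P R A W ν sd mk own) (h : RO P R ν sd mk χ C) (hc : Cl C ν) (j : J) (k : K) :
    (eds ν C (Nx P j k)).card ≤ 2 * (3 * Fintype.card (Mk t t' × Bool)) := by
  refine cls_le D hc (fun u v a => ⟨a.2, a.1⟩) χ fun s h1 hk => ?_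
  choose! y e hy using h1
  by_contra hn
  obtain ⟨x1, a1, x2, a2, x3, a3, x4, a4, n12, n13, n14, n23, n24, n34⟩ :=
    three_lt_card.1 (not_le.1 hn)
  have sm : ∀ x ∈ s, P.Sm R false (mk x1) x := fun x hx => by
    rw [show mk x1 = mk x from congrArg Prod.fst (hk _ a1 _ hx)]
    exact ((D.pe _ _ (e x hx).ne (e x hx).e).2.2.2 (e x hx).s).1
  have cr : ∀ x ∈ s, ∀ x' ∈ s, x ≠ x' → P.HH x (y x') ∨ P.HH x' (y x) := fun x a x' b n =>
    (h _ _ _ _ n (e x a) (e x' b) (hk _ a _ b)).2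
  rcases sm_dich hg hM hM0 (mk x1) with hq | hq
  · have no : ∀ x ∈ s, ∀ x' ∈ s, x ≠ x' → ¬ P.HH x (y x') := fun x a x' b n c =>
      ro0 D h (e x' b) (e x a) (hk _ b _ a) n.symm (G3.cluster_k (hy x a).1 (hy x' b).1 (hy x' b).2
        (hq _ _ (sm x a) (sm x' b) n) c (e x' b).ne)
    exact (cr _ a1 _ a2 n12).elim (no _ a1 _ a2 n12) (no _ a2 _ a1 n12.symm)
  · have un : ∀ x ∈ s, ∀ x' ∈ s, ∀ z ∈ s, x ≠ x' → ¬ (P.HH x (y z) ∧ P.HH x' (y z)) :=
      fun x a x' b z c n d => hq _ _ (sm x a) (sm x' b) (G3.cluster_k (hy z c).2 (hy x a).1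
        (hy x' b).1 (Geo.HH_symm d.1) (Geo.HH_symm d.2) n)
    exact four (cr _ a1 _ a2 n12) (cr _ a1 _ a3 n13) (cr _ a1 _ a4 n14) (cr _ a2 _ a3 n23)
      (cr _ a2 _ a4 n24) (cr _ a3 _ a4 n34)
      ⟨un _ a2 _ a3 _ a1 n23, un _ a2 _ a4 _ a1 n24, un _ a3 _ a4 _ a1 n34⟩
      ⟨un _ a1 _ a3 _ a2 n13, un _ a1 _ a4 _ a2 n14, un _ a3 _ a4 _ a2 n34⟩
      ⟨un _ a1 _ a2 _ a3 n12, un _ a1 _ a4 _ a3 n14, un _ a2 _ a4 _ a3 n24⟩
      ⟨un _ a1 _ a2 _ a4 n12, un _ a1 _ a3 _ a4 n13, un _ a2 _ a3 _ a4 n23⟩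

end Ro

/-! ### The old matching -/

section Old

variable {B : Finset J} {g : J → Sv V} {od : Od3 J V K t}

theorem own_eq (Z : P.KCtx R h2 A W B g od μ) {i j : J} (hi : i ∈ B) (hj : j ∈ B) {v : V}
    (a : v ∈ (g i).its) (b : v ∈ (g j).its) : i = j := by
  by_contra h
  exact disjoint_left.1 (Z.st.dis i hi j hj h) a b

theorem odd_its (Z : P.KCtx R h2 A W B g od μ) {j : J} {x y : V} {o : Bool → K}
    {k : Fin t × Bool × Bool} (h : od j = some (x, y, o, k)) :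
    j ∈ B ∧ x ∈ (g j).its ∧ y ∈ (g j).its ∧ x ≠ y ∧ ¬ P.C j y ∧ ∀ v, g j ≠ Sv.one v := by
  obtain ⟨h1, h2, -⟩ := Z.odd j x y o k h
  have h3 := Z.st.nrm j h1
  rcases h2 with e | e <;> rw [e] at h3 <;> obtain ⟨-, a, k, k', -, b, c⟩ := G3.nrm_two h3
  · exact ⟨h1, by simp [e, Sv.its], by simp [e, Sv.its], a.1, G3.colk_not_C c, by simp [e]⟩
  · exact ⟨h1, by simp [e, Sv.its], by simp [e, Sv.its], a.1.symm, G3.colk_not_C b, by simp [e]⟩

theorem odd_ag (Z : P.KCtx R h2 A W B g od μ) {j : J} {x y : V} {o : Bool → K}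
    {k : Fin t × Bool × Bool} (h : od j = some (x, y, o, k)) : μ (ag j) = vx y :=
  (Z.im (ag j) (vx y) (by simp)).2 ⟨(odd_its Z h).1, Or.inr ⟨x, o, k, h⟩⟩

theorem odd_hid (Z : P.KCtx R h2 A W B g od μ) {j : J} {x y : V} {o : Bool → K}
    {k : Fin t × Bool × Bool} (h : od j = some (x, y, o, k)) : μ (vx x) = vx x := by
  by_contra hn
  have a := (Z.im _ _ (Ne.symm hn)).1 rfl
  obtain ⟨h1, h2, -, h4, -, h6⟩ := odd_its Z h
  rcases hm : μ (vx x) with i | u | i <;> rw [hm] at a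
  · obtain ⟨hi, e | ⟨x', o', k', e⟩⟩ := a
    · obtain rfl := own_eq Z hi h1 (v := x) (by simp [e, Sv.its]) h2
      exact h6 x e
    · obtain rfl := own_eq Z hi h1 (odd_its Z e).2.2.1 h2
      rw [h] at e
      simp only [Option.some.injEq, Prod.mk.injEq] at e
      exact h4 e.2.1.symm
  · obtain ⟨i, hi, e1, e2⟩ := a
    obtain rfl := own_eq Z hi h1 (v := x) (by rcases e2 with e | e <;> simp [e, Sv.its]) h2
    rw [h] at e1
    simp at e1
  · exact a.elim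

theorem unc_two (Z : P.KCtx R h2 A W B g od μ) {j : J} (hj : j ∈ B) (h : μ (ag j) = ag j) :
    ∃ a b, g j = Sv.two a b ∧ a ≠ b ∧ μ (vx a) = vx b ∧ P.Compat R h2 j a b := by
  have hn : od j = none := by
    rcases e : od j with _ | ⟨x, y, o, k⟩
    · rfl
    · have := odd_ag Z e
      rw [h] at this
      simp at this
  have h1 := Z.st.nrm j hj
  rcases e : g j with _ | c | ⟨a, b⟩ | ⟨a, z, b⟩ <;> rw [e] at h1
  · exact h1.elim
  · have := (Z.im (ag j) (vx c) (by simp)).2 ⟨hj, Or.inl e⟩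
    rw [h] at this
    simp at this
  · have hab : a ≠ b := (G3.nrm_two h1).2.1.1
    exact ⟨a, b, rfl, hab, (Z.im (vx a) (vx b) fun h => hab (vx_inj h)).2 ⟨j, hj, hn, Or.inl e⟩,
      Z.con j hj hn a b e⟩
  · exact absurd e (Z.nt j hj a z b)

theorem old_shape (Z : P.KCtx R h2 A W B g od μ) : Shape μ := by
  refine ⟨fun j => ?_, fun j => ?_⟩
  · by_cases a : μ (ag j) = ag j
    · exact Or.inl a
    have b := (Z.im _ _ (Ne.symm a)).1 rfl
    rcases hm : μ (ag j) with i | u | i <;> rw [hm] at b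
    · exact b.elim
    · exact Or.inr (Or.inl ⟨u, rfl⟩)
    · exact b.elim
  · by_cases a : μ (dm j) = dm j
    · exact Or.inl a
    have b := (Z.im _ _ (Ne.symm a)).1 rfl
    rcases hm : μ (dm j) with i | u | i <;> rw [hm] at b <;> exact b.elim

end Old

/-! ### The coordinates -/

def QT (P : G3 J V K) (R : R3 J V K t M t' M0) (h2 : ℕ) (T : Finset (Fin t)) (u v : V) : Prop :=
  ∃ τ ∈ T, P.Srv R h2 τ u v

def uT (P : G3 J V K) (R : R3 J V K t M t' M0) (A : Finset J) (T : Finset (Fin t)) (j : J)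
    (z : Nd J V) : Prop :=
  j ∈ A ∧ z = ag j ∧ ∀ τ, P.Ty R τ j → τ ∈ T

/-- The node of the hidden item. -/
def hidN (od : Od3 J V K t) (j : J) : Nd J V :=
  match od j with
  | some s => vx s.1
  | none => ag j

def remK (od : Od3 J V K t) (k : Fin t × Bool × Bool) (j : J) (z : Nd J V) : Prop :=
  ∃ x y o, od j = some (x, y, o, k) ∧ z ≠ vx y

def hidK (od : Od3 J V K t) (k : Fin t × Bool × Bool) (j : J) (z : Nd J V) : Prop :=
  ∃ x y o, od j = some (x, y, o, k) ∧ z ≠ vx x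

def val (P : G3 J V K) (R : R3 J V K t M t' M0) (h2 : ℕ) (A : Finset J) (od : Od3 J V K t)
    (m : Nd J V → Nd J V) (X : Finset (Nd J V)) : Co t → ℤ
  | Sum.inl T => ((eds m X (QT P R h2 T)).card : ℤ) - 2 * ((cn ag (uT P R A T) m X).card : ℤ)
  | Sum.inr k => ((cn ag (remK od k) m X).card : ℤ) - ((cn (hidN od) (hidK od k) m X).card : ℤ)

variable {B : Finset J} {g : J → Sv V} {od : Od3 J V K t}

theorem hidN_eq {j : J} {x y : V} {o : Bool → K} {k : Fin t × Bool × Bool}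
    (h : od j = some (x, y, o, k)) : hidN od j = vx x := by
  simp [hidN, h]

theorem QT_symm {T : Finset (Fin t)} (u v : V) (h : QT P R h2 T u v) : QT P R h2 T v u := by
  obtain ⟨τ, a, b⟩ := h
  exact ⟨τ, a, srv_symm b⟩

theorem val_mix (s : Finset (Finset (Nd J V)))
    (hs : ∀ C ∈ s, ∀ C' ∈ s, ∀ x, x ∈ C → x ∈ C' → C = C') (d : Co t) :
    val P R h2 A od (mix (s.biUnion id) μ ν) univ d = val P R h2 A od μ univ d +
      ∑ C ∈ s, (val P R h2 A od ν C d - val P R h2 A od μ C d) := by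
  rcases d with T | k
  · simp only [val, eds]
    rw [cn_mix _ _ μ ν s hs, cn_mix _ _ μ ν s hs, mul_add, mul_sum, add_sub_add_comm,
      ← sum_sub_distrib]
    congr 1
    exact sum_congr rfl fun C _ => by ring
  · simp only [val]
    rw [cn_mix _ _ μ ν s hs, cn_mix _ _ μ ν s hs, add_sub_add_comm, ← sum_sub_distrib]
    congr 1
    exact sum_congr rfl fun C _ => by ring

theorem val_base (Z : P.KCtx R h2 A W B g od μ) (d : Co t) :
    -(2 * ((A \ B).card : ℤ)) ≤ val P R h2 A od μ univ d := by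
  rcases d with T | k
  · have h1 := eds_ge (Q := QT P R h2 T) (D := fun u v => ∃ j ∈ B, g j = Sv.two u v) Z.inv
      (cl_univ μ) QT_symm (by
        rintro u v huv - ⟨i, hi, ei⟩ ⟨j, hj, ej⟩
        obtain rfl := own_eq Z hi hj (v := u) (by simp [ei, Sv.its]) (by simp [ej, Sv.its])
        rw [ei] at ej
        exact huv (Sv.two.inj ej).1)
    have h3 : ((cn ag (uT P R A T) μ univ).filter fun j => j ∈ B).card ≤
        (eds μ univ fun u v => QT P R h2 T u v ∧ ∃ j ∈ B, g j = Sv.two u v).card := by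
      refine card_le_card_of_forall_subsingleton (fun j u => ∃ v, g j = Sv.two u v) ?_ ?_
      · intro j hj
        obtain ⟨a1, a2⟩ := mem_filter.1 hj
        obtain ⟨-, -, a3, a4⟩ := mem_cn.1 a1
        obtain ⟨a, b, e, hab, hm, τ, c1, c2⟩ := unc_two Z a2 a3
        exact ⟨a, mem_eds.2 ⟨mem_univ _, b, hab, hm, ⟨τ, a4 τ c1, c2⟩, j, a2, e⟩, b, e⟩
      · rintro u - i ⟨hi, v, ei⟩ j ⟨hj, v', ej⟩
        exact own_eq Z (mem_filter.1 hi).2 (mem_filter.1 hj).2 (v := u) (by simp [ei, Sv.its])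
          (by simp [ej, Sv.its])
    have h4 : cn ag (uT P R A T) μ univ ⊆
        ((cn ag (uT P R A T) μ univ).filter fun j => j ∈ B) ∪ (A \ B) := fun j hj => by
      by_cases h : j ∈ B
      · exact mem_union_left _ (mem_filter.2 ⟨hj, h⟩)
      · exact mem_union_right _ (mem_sdiff.2 ⟨(mem_cn.1 hj).2.1, h⟩)
    have h5 := (card_le_card h4).trans (card_union_le _ _)
    simp only [val]
    omega
  · have h1 : cn (hidN od) (hidK od k) μ univ = ∅ := eq_empty_of_forall_notMem fun j hj => by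
      obtain ⟨-, x, y, o, e, h⟩ := mem_cn.1 hj
      rw [hidN_eq e] at h
      exact h (odd_hid Z e)
    simp only [val, h1, card_empty]
    omega

theorem ab_of_sd (hg : P.RGood R) (hM : R.h + h2 ≤ M) {τ : Fin t} {s : Bool} {x : V}
    (hx : P.Sd (R.F τ) R.h s x) : P.Ab R h2 τ s x := by
  unfold G3.Sd at hx
  unfold G3.Ab
  have hs : (univ : Finset (Fin M)) ⊆
      (univ.filter fun r => ¬ P.adt (R.F τ r).1 ((R.F τ r).2.1 (!s)) x) ∪
      univ.filter fun r => ¬ P.colk (R.F τ r).1 ((R.F τ r).2.1 s) x := fun r _ => by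
    simp only [mem_union, mem_filter, mem_univ, true_and]
    by_cases a : P.colk (R.F τ r).1 ((R.F τ r).2.1 s) x
    · exact Or.inl fun b => G3.tm_ne (hg.cF τ) r s (G3.colk_unique a b).symm
    · exact Or.inr a
  have u0 := (card_le_card hs).trans (card_union_le _ _)
  rw [card_univ, Fintype.card_fin] at u0
  omega

theorem srv_of_mark (hg : P.RGood R) (hM : 2 * R.h + h2 ≤ M) {τ : Fin t} {x y : V}
    (hx : P.Sd (R.F τ) R.h false x) (hy : P.Sd (R.F τ) R.h true y)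
    (n : P.mt R τ ∨ ¬ P.HH x y) : P.Srv R h2 τ x y := by
  by_cases hm : P.mt R τ
  · exact Or.inl ⟨hm, false, ab_of_sd hg (by omega) hx, ab_of_sd hg (by omega) hy⟩
  refine Or.inr ⟨hm, n.resolve_left hm, Or.inl ?_⟩
  unfold G3.Sd at hx hy
  have hs : (univ : Finset (Fin M)) ⊆ (univ.filter fun r => P.Ok (R.F τ r).1 x y) ∪
      ((univ.filter fun r => ¬ P.colk (R.F τ r).1 ((R.F τ r).2.1 false) x) ∪
        univ.filter fun r => ¬ P.colk (R.F τ r).1 ((R.F τ r).2.1 true) y) :=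
    fun r _ => by
      simp only [mem_union, mem_filter, mem_univ, true_and]
      by_cases a : P.colk (R.F τ r).1 ((R.F τ r).2.1 false) x
      · by_cases b : P.colk (R.F τ r).1 ((R.F τ r).2.1 true) y
        · exact Or.inl (Or.inr (Or.inr (G3.Pr_of_colk a (fun c => G3.tm_ne (hg.cF τ) r false
            (G3.colk_unique b c)) (Or.inr (n.resolve_left hm)))))
        · exact Or.inr (Or.inr b)
      · exact Or.inr (Or.inl a)
  have u0 := (card_le_card hs).trans ((card_union_le _ _).trans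
    (Nat.add_le_add_left (card_union_le _ _) _))
  rw [card_univ, Fintype.card_fin] at u0
  omega

theorem val_total (Z : P.KCtx R h2 A W B g od μ) (hM : 2 * R.h + h2 ≤ M)
    (D : VD P R A W ν sd mk own) (d : Co t) : 0 ≤ val P R h2 A od ν univ d := by
  rcases d with T | k
  · have h1 := eds_ge (Q := QT P R h2 T) (D := fun u _ => sd u) D.m.1 (cl_univ ν) QT_symm
      fun u v a b c => (D.pe u v a b).1.1 c
    have h3 : (cn ag (uT P R A T) ν univ).card ≤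
        (eds ν univ fun u v => QT P R h2 T u v ∧ sd u).card := by
      refine card_le_card_of_forall_subsingleton own ?_ ?_
      · intro j hj
        obtain ⟨-, a2, a3, a4⟩ := mem_cn.1 hj
        obtain ⟨x, y, o1, o2, o3, o4, o5⟩ := D.ow j a2 a3
        obtain ⟨hx, hy⟩ := (D.pe x y o3 o4).2.2.2 o2
        have hn := (D.pe x y o3 o4).2.2.1
        refine ⟨x, mem_eds.2 ⟨mem_univ _, y, o3, o4, ?_, o2⟩, o1⟩
        rcases hk : mk x with _ | τ | i <;> rw [hk] at hx hy o5 hn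
        · exact hx.elim
        · refine ⟨τ, a4 τ o5, srv_of_mark Z.good hM hx hy (hn.imp ?_ id)⟩
          rintro ⟨τ', e, h⟩
          cases e
          exact h
        · obtain ⟨hs, τ, h⟩ := o5
          have hn' : ¬ P.HH x y := hn.resolve_left fun ⟨_, e, _⟩ => by cases e
          exact ⟨τ, a4 τ h, Or.inr ⟨fun a => hs (h.1.2 a), hn', Or.inr (Or.inl ⟨hn', i, hx, hy⟩)⟩⟩
      · intro u _ i hi j hj
        exact D.inj i j u hi.2 hj.2
    simp only [val]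
    omega
  · have h1 : cn (hidN od) (hidK od k) ν univ ⊆ cn ag (remK od k) ν univ := fun j hj => by
      obtain ⟨-, x, y, o, e, -⟩ := mem_cn.1 hj
      exact mem_cn.2 ⟨mem_univ _, x, y, o, e, fun h => (odd_its Z e).2.2.2.2.1 (EK_ag D.m h)⟩
    have := card_le_card h1
    simp only [val]
    omega

theorem val_comp {χ : V → Bool} (hC : CompStmt) (hP : PeStmt)
    (Z : P.KCtx R h2 A W B g od μ) (hM : 4 * h2 + 4 ≤ M) (D : VD P R A W ν sd mk own)
    {x0 : Nd J V} (hx0 : μ x0 ≠ ν x0) (h : RO P R ν sd mk χ (cmp μ ν x0)) (d : Co t) :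
    -(6 * (Fintype.card (Mk t t' × Bool) : ℤ) + 6) ≤
      val P R h2 A od ν (cmp μ ν x0) d - val P R h2 A od μ (cmp μ ν x0) d := by
  obtain ⟨c1, -, -, c4, c5, -⟩ := hC _ μ ν Z.inv D.m.1
  have he := c5 x0
  rcases d with T | k
  · have h1 : (cn ag (uT P R A T) ν (cmp μ ν x0)).card ≤ (cmp μ ν x0 ∩ ends μ ν).card := by
      refine card_le_card_of_injOn ag (fun j hj => ?_) fun i _ j _ e => Sum.inl_injective e
      obtain ⟨a1, -, a3, -⟩ := mem_cn.1 (mem_coe.1 hj)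
      have := c4 _ _ hx0 a1
      rw [a3] at this
      exact mem_coe.2 (mem_inter.2 ⟨a1, mem_filter.2 ⟨mem_univ _, Or.inr ⟨this, a3⟩⟩⟩)
    have h3 := ((hP J V).2 μ ν Z.inv D.m.1 (old_shape Z) (EK_shape D.m) x0).1
    rw [npe_eq, npe_eq] at h3
    simp only [val]
    rcases T.eq_empty_or_nonempty with rfl | ⟨τ, hτ⟩
    · have : eds μ (cmp μ ν x0) (QT P R h2 ∅) = ∅ := eq_empty_of_forall_notMem fun u hu => by
        obtain ⟨-, v, -, -, τ, a, -⟩ := mem_eds.1 hu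
        simp at a
      rw [this, card_empty]
      omega
    · have h4 := card_le_card (eds_mono (m := μ) (X := cmp μ ν x0) (Q := QT P R h2 T)
        (Q' := fun _ _ => True) fun _ _ _ _ _ => trivial)
      have h5 : (eds ν (cmp μ ν x0) fun _ _ => True) ⊆ eds ν (cmp μ ν x0) (QT P R h2 T) ∪
          eds ν (cmp μ ν x0) fun u v => ¬ P.Srv R h2 τ u v := fun u hu => by
        obtain ⟨a1, v, a2, a3, -⟩ := mem_eds.1 hu
        by_cases hs : P.Srv R h2 τ u v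
        · exact mem_union_left _ (mem_eds.2 ⟨a1, v, a2, a3, τ, hτ, hs⟩)
        · exact mem_union_right _ (mem_eds.2 ⟨a1, v, a2, a3, hs⟩)
      have h6 := (card_le_card h5).trans (card_union_le _ _)
      have h7 := nsrv_le Z.good hM D h (c1 x0).2.2 τ
      omega
  · have h1 : (cn (hidN od) (hidK od k) ν (cmp μ ν x0)).card ≤ (cmp μ ν x0 ∩ ends μ ν).card := by
      refine card_le_card_of_injOn (hidN od) (fun j hj => ?_) fun i hi j hj e => ?_
      · obtain ⟨a1, x, y, o, e, a3⟩ := mem_cn.1 (mem_coe.1 hj)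
        rw [hidN_eq e] at a1 a3 ⊢
        exact mem_coe.2 (mem_inter.2 ⟨a1, mem_filter.2 ⟨mem_univ _, Or.inl ⟨odd_hid Z e, a3⟩⟩⟩)
      · obtain ⟨-, x, y, o, e1, -⟩ := mem_cn.1 (mem_coe.1 hi)
        obtain ⟨-, x', y', o', e2, -⟩ := mem_cn.1 (mem_coe.1 hj)
        rw [hidN_eq e1, hidN_eq e2] at e
        obtain rfl := vx_inj e
        exact own_eq Z (odd_its Z e1).1 (odd_its Z e2).1 (odd_its Z e1).2.1 (odd_its Z e2).2.1
    have h3 : cn ag (remK od k) μ (cmp μ ν x0) = ∅ := eq_empty_of_forall_notMem fun j hj => by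
      obtain ⟨-, x, y, o, e, h⟩ := mem_cn.1 hj
      exact h (odd_ag Z e)
    simp only [val, h3, card_empty]
    omega

/-! ### The outcome -/

theorem out_own (hH : HallStmt) {m : Nd J V → Nd J V} (hm : ∀ x, m (m x) = x)
    (hv : ∀ d, 0 ≤ val P R h2 A od m univ d) :
    ∃ own : J → V → Prop,
      (∀ j j' x x', own j x → own j' x' → j ≠ j' → x ≠ x' ∧ m (vx x) ≠ vx x') ∧
      ∀ j ∈ A, m (ag j) = ag j →
        ∃ x y, own j x ∧ x ≠ y ∧ m (vx x) = vx y ∧ P.Compat R h2 j x y := by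
  obtain ⟨rk, hrk⟩ : ∃ rk : V → ℕ, Function.Injective rk :=
    ⟨fun v => (Fintype.equivFin V v).val, fun a b h => (Fintype.equivFin V).injective (Fin.ext h)⟩
  obtain ⟨s', f, h1, h3, h4, h5⟩ := hH J V (A.filter fun j => m (ag j) = ag j)
    (eds m univ fun u v => rk u < rk v)
    (fun j u => ∃ v, u ≠ v ∧ m (vx u) = vx v ∧ P.Compat R h2 j u v) 0 (by
      intro O hO
      have a1 := hv (Sum.inl (univ.filter fun τ => ∃ j ∈ O, P.Ty R τ j))
      set T := univ.filter fun τ => ∃ j ∈ O, P.Ty R τ j with hT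
      simp only [val] at a1
      have a2 : O ⊆ cn ag (uT P R A T) m univ := fun j hj => by
        have := mem_filter.1 (hO hj)
        exact mem_cn.2 ⟨mem_univ _, this.1, this.2,
          fun τ h => mem_filter.2 ⟨mem_univ _, j, hj, h⟩⟩
      have a3 := card_le_card a2
      have a4 := eds_le (Q := QT P R h2 T) (D := fun u v => rk u < rk v) hm (cl_univ m) QT_symm
        fun u v a _ c => lt_of_le_of_ne (not_lt.1 c) fun e => a (hrk e).symm
      refine le_trans (show O.card ≤ (eds m univ fun u v => QT P R h2 T u v ∧ rk u < rk v).card by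
        omega) (card_le_card fun u hu => ?_)
      obtain ⟨b1, v, b2, b3, ⟨τ, b4, b5⟩, b6⟩ := mem_eds.1 hu
      obtain ⟨j, hj, b7⟩ := (mem_filter.1 b4).2
      simp only [mem_filter]
      exact ⟨mem_eds.2 ⟨b1, v, b2, b3, b6⟩, j, hj, v, b2, b3, τ, b7, b5⟩)
  have e := eq_of_subset_of_card_le h1 h3
  refine ⟨fun j x => j ∈ s' ∧ f j = some x, ?_, fun j hj hu => ?_⟩
  · rintro j j' x x' ⟨a1, a2⟩ ⟨b1, b2⟩ hne
    refine ⟨fun h => hne (h5 j a1 j' b1 (by rw [a2, b2, h])), fun h => ?_⟩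
    obtain ⟨y, c1, c2, -⟩ := h4 j a1
    obtain ⟨y', d1, d2, -⟩ := h4 j' b1
    obtain rfl : x = y := Option.some.inj (a2.symm.trans c2)
    obtain rfl : x' = y' := Option.some.inj (b2.symm.trans d2)
    obtain ⟨-, v, -, c3, c4⟩ := mem_eds.1 c1
    obtain ⟨-, v', -, d3, d4⟩ := mem_eds.1 d1
    obtain rfl := vx_inj (h.symm.trans c3)
    obtain rfl := vx_inj ((mate hm h).symm.trans d3)
    omega
  · have hs : j ∈ s' := e ▸ mem_filter.2 ⟨hj, hu⟩
    obtain ⟨x, -, c2, y, c3, c4, c5⟩ := h4 j hs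
    exact ⟨x, y, ⟨hs, c2⟩, c3, c4, c5⟩

theorem select (hC : CompStmt) (hP : PeStmt) (hH : HallStmt) {Bd K0 n : ℕ}
    (hS : ∀ (I : Type) (s : Finset I) (v : I → Co t → ℤ) (b : Co t → ℤ),
      (∀ i ∈ s, ∀ d, -(Bd : ℤ) ≤ v i d) → (∀ d, -(Bd : ℤ) ≤ b d) →
      (∀ d, 0 ≤ b d + ∑ i ∈ s, v i d) →
      ∃ s' ⊆ s, s'.card ≤ K0 ∧ ∀ d, 0 ≤ b d + ∑ i ∈ s', v i d)
    (Z : P.KCtx R h2 A W B g od μ) (hM : 2 * R.h + h2 + 2 ≤ M) (hM' : 4 * h2 + 4 ≤ M)
    (hM0 : 2 * R.h0 + 2 ≤ M0) (hn : Fintype.card (Mk t t' × Bool) ≤ n) (h1 : 6 * n + 6 ≤ Bd)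
    (h3 : 2 * (A \ B).card ≤ Bd) (h : ∃ ν, P.VS R A W ν) :
    ∃ ν, P.KOut R h2 A W od μ ν (K0 * 2) (K0 * (6 * n)) := by
  obtain ⟨ν, sd, mk, own, χ, D, hro⟩ := exists_min hC Z.inv h
  obtain ⟨c1, c2, -, -, c5, -⟩ := hC _ μ ν Z.inv D.m.1
  have hc : ∀ C ∈ ncomp μ ν, ∃ x, μ x ≠ ν x ∧ C = cmp μ ν x := fun C hC => by
    obtain ⟨x, a, b⟩ := mem_image.1 hC
    exact ⟨x, (mem_filter.1 a).2, b.symm⟩
  have hd : ∀ C ∈ ncomp μ ν, ∀ C' ∈ ncomp μ ν, ∀ x, x ∈ C → x ∈ C' → C = C' := by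
    intro C a C' b x c d
    obtain ⟨y, -, rfl⟩ := hc C a
    obtain ⟨y', -, rfl⟩ := hc C' b
    exact (c2 _ _ c).symm.trans (c2 _ _ d)
  have hall : mix ((ncomp μ ν).biUnion id) μ ν = ν := funext fun x => by
    by_cases hx : x ∈ (ncomp μ ν).biUnion id
    · exact mix_in hx
    · rw [mix_out hx]
      by_contra hne
      exact hx (mem_biUnion.2 ⟨cmp μ ν x, mem_image.2 ⟨x, mem_filter.2 ⟨mem_univ _, hne⟩, rfl⟩,
        (c1 x).1⟩)
  obtain ⟨s, hs, hK, hv⟩ := hS _ (ncomp μ ν)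
    (fun C d => val P R h2 A od ν C d - val P R h2 A od μ C d) (val P R h2 A od μ univ)
    (fun C hC' d => by
      obtain ⟨x, a, rfl⟩ := hc C hC'
      have := val_comp hC hP Z hM' D a (hro x) d
      omega)
    (fun d => by
      have := val_base Z d
      omega)
    (fun d => by
      rw [← val_mix _ hd, hall]
      exact val_total Z (by omega) D d)
  have hv' : ∀ d, 0 ≤ val P R h2 A od (mix (s.biUnion id) μ ν) univ d := fun d => by
    rw [val_mix _ fun C a C' b => hd C (hs a) C' (hs b)]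
    exact hv d
  have cl : ∀ C ∈ s, Cl C μ ∧ Cl C ν := fun C a => by
    obtain ⟨x, -, rfl⟩ := hc C (hs a)
    exact (c1 x).2
  have hm : IsM (fun x y => P.EK A W (fun _ _ => True) x y ∨ μ x = y)
      (mix (s.biUnion id) μ ν) := by
    refine IsM.mix ⟨Z.inv, fun x _ => Or.inr rfl⟩ (D.m.mono fun _ _ a => Or.inl a) ?_ ?_
    · intro x hx
      obtain ⟨C, a, b⟩ := mem_biUnion.1 hx
      exact mem_biUnion.2 ⟨C, a, (cl C a).1 x b⟩
    · intro x hx
      obtain ⟨C, a, b⟩ := mem_biUnion.1 hx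
      exact mem_biUnion.2 ⟨C, a, (cl C a).2 x b⟩
  have hnew : ∀ x, μ x ≠ mix (s.biUnion id) μ ν x →
      ∃ C ∈ s, x ∈ C ∧ mix (s.biUnion id) μ ν x = ν x := fun x hx => by
    by_cases h : x ∈ s.biUnion id
    · obtain ⟨C, a, b⟩ := mem_biUnion.1 h
      exact ⟨C, a, b, mix_in h⟩
    · exact absurd (mix_out h).symm hx
  have hQ : ∀ Q : V → V → Prop, (∀ x, (eds ν (cmp μ ν x) Q).card ≤ 6 * n) →
      (univ.filter fun x => ∃ y, x ≠ y ∧ mix (s.biUnion id) μ ν (vx x) = vx y ∧ μ (vx x) ≠ vx y ∧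
        Q x y).card ≤ K0 * (6 * n) := fun Q hQ => by
    refine le_trans (card_le_card (t := s.biUnion fun C => eds ν C Q) fun x hx => ?_)
      ((card_biUnion_le_card_mul _ _ (6 * n) fun C a => ?_).trans (Nat.mul_le_mul_right _ hK))
    · obtain ⟨y, a1, a2, a3, a4⟩ := (mem_filter.1 hx).2
      obtain ⟨C, b1, b2, b3⟩ := hnew (vx x) (by rwa [a2])
      exact mem_biUnion.2 ⟨C, b1, mem_eds.2 ⟨b2, y, a1, b3.symm.trans a2, a4⟩⟩
    · obtain ⟨x, -, rfl⟩ := hc C (hs a)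
      exact hQ x
  refine ⟨mix (s.biUnion id) μ ν, hm, ?_, out_own hH hm.1 hv', fun k => ?_, fun j k => ?_, ?_⟩
  · have a1 : ends μ (mix (s.biUnion id) μ ν) ⊆ s.biUnion fun C => C ∩ ends μ ν := fun x hx => by
      have a := (mem_filter.1 hx).2
      obtain ⟨C, b1, b2, b3⟩ := hnew x a.ne
      refine mem_biUnion.2 ⟨C, b1, mem_inter.2 ⟨b2, mem_filter.2 ⟨mem_univ _, ?_⟩⟩⟩
      unfold IsEnd at a ⊢
      rwa [b3] at a
    refine (card_le_card a1).trans ((card_biUnion_le_card_mul _ _ 2 fun C a => ?_).trans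
      (Nat.mul_le_mul_right _ hK))
    obtain ⟨x, -, rfl⟩ := hc C (hs a)
    exact c5 x
  · have a1 := hv' (Sum.inr k)
    simp only [val] at a1
    refine le_trans (card_le_card fun j hj => ?_) (le_trans (show (cn (hidN od) (hidK od k)
      (mix (s.biUnion id) μ ν) univ).card ≤ (cn ag (remK od k) (mix (s.biUnion id) μ ν) univ).card
      by omega) (card_le_card fun j hj => ?_))
    · obtain ⟨x, y, o, e, a⟩ := (mem_filter.1 hj).2
      exact mem_cn.2 ⟨mem_univ _, x, y, o, e, by rwa [hidN_eq e]⟩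
    · exact mem_filter.2 ⟨mem_univ _, (mem_cn.1 hj).2⟩
  · refine le_trans (card_le_card fun x hx => ?_) (hQ (Nx P j k) fun x => ?_)
    · exact mem_filter.2 ⟨mem_univ _, (mem_filter.1 hx).2⟩
    · have := nx_le Z.good (by omega) hM0 D (hro x) (c1 x).2.2 j k
      omega
  · refine le_trans (card_le_card fun x hx => ?_) (hQ P.HH fun x => ?_)
    · exact mem_filter.2 ⟨mem_univ _, (mem_filter.1 hx).2⟩
    · have := hh_le D (hro x) (c1 x).2.2
      omega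

end

end ERSel

open ERSel in
theorem rSelS (hC : CompStmt) (hP : PeStmt) (hS : SelStmt) (hH : HallStmt) : RSelS := by
  intro t0 cu
  choose Kf hK using fun t : ℕ => hS (Co t) (24 * t0 + 6 + 2 * cu)
  refine ⟨(∑ t ∈ range t0, Kf t) * 2, (∑ t ∈ range t0, Kf t) * (6 * (4 * t0)), ?_⟩
  intro J V K _ _ _ _ _ _ P t M t' M0 R h2 A W B g od μ ht ht' hM hM' hM0 Z hcu h
  have hle : Kf t ≤ ∑ t ∈ range t0, Kf t :=
    single_le_sum (f := Kf) (fun _ _ => Nat.zero_le _) (mem_range.2 ht)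
  refine select hC hP hH (Bd := 24 * t0 + 6 + 2 * cu) (fun I s v b a1 a2 a3 => ?_) Z hM hM' hM0 ?_
    (by omega) (by omega) h
  · obtain ⟨s', b1, b2, b3⟩ := hK t I s v b a1 a2 a3
    exact ⟨s', b1, b2.trans hle, b3⟩
  · simp only [Fintype.card_prod, Fintype.card_option, Fintype.card_sum, Fintype.card_fin,
      Fintype.card_bool]
    omega

end Pool.Agent.Lib.MP_ef7581_lc.D3
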