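import Pool.Agent.Lib.MP_ef7581_lc.EGeo
import Pool.Agent.Lib.MP_ef7581_lc.DOwn
import Mathlib
import Pool.Agent.Lib.MP_ef7581_lc.DCore

-- part Pool.Agent.Lib.MP_ef7581_lc.EOwn
section

/-!
Assignment of pair edges to uncovered agents by two Hall arguments (several terminals).
-/

set_option autoImplicit false
set_option linter.unusedSectionVars false

namespace Pool.Agent.Lib.MP_ef7581_lc.D3

open Finset Classical D2

namespace EOwn

open DOwn

variable {J V K : Type} [Fintype J] [Fintype V] [Fintype K] [DecidableEq J] [DecidableEq V]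
  [DecidableEq K]
variable {P : G3 J V K} {S : Sub J V} {e : ℕ} {ρ : Finset V} {Y : Px V} {B : Finset J}
  {g : J → Sv V} {μ ν : Nd J V → Nd J V} {Hh Hi : Finset (J × V × V)} {nE a3 δ : ℕ}

theorem pe_edge3 {X : Ax J V} (hm : IsM (P.En S e ρ X Y) ν) {u v : V} (h : v ≠ u)
    (hν : ν (vx u) = vx v) : u ∈ S.W ∧ v ∈ S.W ∧ (P.peE e ρ Y u v ∨ P.peE e ρ Y v u) := by
  have := hm.2 (vx u) (by rw [hν]; exact fun e => h (vx_inj e))
  rw [hν] at this
  exact ⟨this.1, this.2.1, this.2.2.2.imp And.left And.left⟩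

theorem EE_pe3 {X : Ax J V} (hm : IsM (P.En S e ρ X Y) ν) {p : V × V} (h : p ∈ EE P.base e ρ ν) :
    p.1 ∈ S.W ∧ p.2 ∈ S.W ∧ P.peE e ρ Y p.1 p.2 := by
  obtain ⟨h1, h2, h3⟩ := mem_EE.1 h
  obtain ⟨a1, a2, a3⟩ := pe_edge3 hm h2 h3
  exact ⟨a1, a2, a3.resolve_right fun h => h.2.1 h1.2⟩

theorem card_OO3 (hP : PeStmt) {X : Ax J V} (hm : IsM (P.En S e ρ X Y) ν)
    (hs : cov ν = 2 * S.A.card) : (OO S ν).card = (EE P.base e ρ ν).card := by
  have h1 := ((hP J V).1 ν hm.1 (G3.En_shape hm)).1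
  have h2 : (univ.filter fun j : J => ν (ag j) ≠ ag j) =
      S.A.filter fun j => ¬ ν (ag j) = ag j := by
    ext j
    simp only [mem_filter, mem_univ, true_and, ne_eq, iff_and_self]
    intro hj
    have := hm.2 (ag j) hj
    generalize ν (ag j) = y at this
    rcases y with i | v | i
    · exact this.elim
    · exact this.1
    · exact this.2.1
  have h3 := card_filter_add_card_filter_not (s := S.A) (fun j => ν (ag j) = ag j)
  set N := univ.filter fun v : V => vx v ∈ (univ : Finset (Nd J V)) ∧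
    ∃ u, u ≠ v ∧ ν (vx v) = vx u with hN
  have h4 : npe ν univ = N.card := by unfold npe; congr
  have mN : ∀ v, v ∈ N ↔ ∃ u, u ≠ v ∧ ν (vx v) = vx u := fun v => by simp [hN]
  have h5 := card_filter_add_card_filter_not (s := N) (fun v => P.Q0 e ρ v)
  have h6 : (N.filter fun v => P.Q0 e ρ v).card = (EE P.base e ρ ν).card := by
    refine card_eq_rel (fun v p => p.1 = v) (fun v hv => ?_) (fun p hp => ?_)
      (fun _ _ _ _ _ a b => a.symm.trans b) fun p hp p' hp' v a b => EE_fst hp hp' (a.trans b.symm)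
    · obtain ⟨a, b⟩ := mem_filter.1 hv
      obtain ⟨u, c, d⟩ := (mN v).1 a
      exact ⟨(v, u), mem_EE.2 ⟨b, c, d⟩, rfl⟩
    · obtain ⟨a, b, c⟩ := mem_EE.1 hp
      exact ⟨p.1, mem_filter.2 ⟨(mN _).2 ⟨p.2, b, c⟩, a⟩, rfl⟩
  have h7 : (N.filter fun v => ¬ P.Q0 e ρ v).card = (EE P.base e ρ ν).card := by
    refine card_eq_rel (fun v p => p.2 = v) (fun v hv => ?_) (fun p hp => ?_)
      (fun _ _ _ _ _ a b => a.symm.trans b)
      fun p hp p' hp' v a b => EE_snd hm.1 hp hp' (a.trans b.symm)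
    · obtain ⟨a, b⟩ := mem_filter.1 hv
      obtain ⟨u, c, d⟩ := (mN v).1 a
      have := ((pe_edge3 hm c d).2.2.resolve_left fun h => b h.1).1
      exact ⟨(u, v), mem_EE.2 ⟨this, c.symm, by rw [← d, hm.1]⟩, rfl⟩
    · obtain ⟨a, b, c⟩ := mem_EE.1 hp
      exact ⟨p.2, mem_filter.2 ⟨(mN _).2 ⟨p.1, b.symm, by rw [← c, hm.1]⟩,
        fun h => (EE_pe3 hm hp).2.2.2.1 h.2⟩, rfl⟩
  rw [h2] at h1
  unfold OO
  omega

theorem old_unique3 {j : J} {q z q' z' : V} (h : P.OldP e ρ B g j q z)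
    (h' : P.OldP e ρ B g j q' z') : q = q' ∧ z = z' := by
  obtain ⟨-, -, a, b, o, h1, h2, rfl, rfl, -⟩ := h
  obtain ⟨-, -, a', b', o', h1', h2', rfl, rfl, -⟩ := h'
  obtain rfl := Geo.rig_unique h2 h2'
  rw [h1] at h1'
  obtain ⟨rfl, rfl⟩ := Sv.two.inj h1'
  exact ⟨rfl, rfl⟩

theorem old_mem3 {j : J} {q z : V} (h : P.OldP e ρ B g j q z) : q ∈ (g j).its := by
  obtain ⟨-, -, a, b, o, h1, -, rfl, -⟩ := h
  rw [h1]
  cases o <;> simp [mi, Sv.its]

theorem old_owner3 (hs : P.PSt S B g) {j j' : J} {q z z' : V} (h : P.OldP e ρ B g j q z)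
    (h' : P.OldP e ρ B g j' q z') : j = j' := by
  by_contra hne
  exact disjoint_left.1 (hs.dis j h.1 j' h'.1 hne) (old_mem3 h) (old_mem3 h')

theorem ed_fst3 (c : P.RCtx S e ρ Y B g μ ν Hh Hi nE a3 δ) {p p' : V × V}
    (h : p ∈ EE P.base e ρ ν ∪ HE Hh) (h' : p' ∈ EE P.base e ρ ν ∪ HE Hh) (e1 : p.1 = p'.1) : p = p' := by
  rcases mem_union.1 h with h | h <;> rcases mem_union.1 h' with h' | h'
  · exact EE_fst h h' e1
  · obtain ⟨s, hs, rfl⟩ := mem_HE.1 h'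
    exact absurd (e1 ▸ (EE_pe3 c.m h).1) (c.hp.1 s hs).2.2.1
  · obtain ⟨s, hs, rfl⟩ := mem_HE.1 h
    exact absurd (e1 ▸ (EE_pe3 c.m h').1) (c.hp.1 s hs).2.2.1
  · obtain ⟨s, hs, rfl⟩ := mem_HE.1 h
    obtain ⟨s', hs', rfl⟩ := mem_HE.1 h'
    rw [dis_fst c.hp.2 hs hs' e1]

theorem ed_snd3 (c : P.RCtx S e ρ Y B g μ ν Hh Hi nE a3 δ) {p p' : V × V}
    (h : p ∈ EE P.base e ρ ν ∪ HE Hh) (h' : p' ∈ EE P.base e ρ ν ∪ HE Hh) (e1 : p.2 = p'.2) : p = p' := by
  rcases mem_union.1 h with h | h <;> rcases mem_union.1 h' with h' | h'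
  · exact EE_snd c.m.1 h h' e1
  · obtain ⟨s, hs, rfl⟩ := mem_HE.1 h'
    exact absurd (e1 ▸ (EE_pe3 c.m h).2.1) (c.hp.1 s hs).2.2.2.1
  · obtain ⟨s, hs, rfl⟩ := mem_HE.1 h
    exact absurd (e1 ▸ (EE_pe3 c.m h').2.1) (c.hp.1 s hs).2.2.2.1
  · obtain ⟨s, hs, rfl⟩ := mem_HE.1 h
    obtain ⟨s', hs', rfl⟩ := mem_HE.1 h'
    rw [dis_snd c.hp.2 hs hs' e1]

theorem OO_rigid3 (c : P.RCtx S e ρ Y B g μ ν Hh Hi nE a3 δ) {j : J} (h : j ∈ OO S ν) :
    P.rigid S e ρ j := by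
  by_contra hr
  exact c.cv j (mem_OO.1 h).1 (Or.inl hr) (mem_OO.1 h).2

end EOwn

open DOwn EOwn in
theorem ownS (hI : ImgS) (hH : HallStmt) (hP : PeStmt) : OwnS := by
  intro J V K _ _ _ _ _ _ P S e ρ Y B g μ ν Hh Hi nE a3 δ c
  obtain ⟨-, -, -, -, -, -, -, i8, -, i10, -⟩ :=
    (hI J V K P S e ρ Y B g c.cx.wf c.cx.fr c.cx.st c.cx.si).2 μ c.cx.im
  have hst := c.cx.st
  have oldE : ∀ j q z, P.OldP e ρ B g j q z → ν (vx q) = vx z → (q, z) ∈ EE P.base e ρ ν :=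
    fun j q z h hν => mem_EE.2 ⟨(i8 j q z h).1.1, (i8 j q z h).2.2.1.1.symm, hν⟩
  set O := OO S ν with hO
  set E := EE P.base e ρ ν with hE
  set K0 := O.filter fun j => ∃ p ∈ E, P.OldP e ρ B g j p.1 p.2 with hK0
  set KE := E.filter fun p => ∃ j ∈ O, P.OldP e ρ B g j p.1 p.2 with hKE
  have cO : O.card = E.card := card_OO3 hP c.m c.sz
  have cK : K0.card = KE.card := by
    refine card_eq_rel (fun j p => P.OldP e ρ B g j p.1 p.2) (fun j hj => ?_) (fun p hp => ?_)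
      (fun j _ j' _ p a b => old_owner3 hst a b)
      fun p _ p' _ j a b => Prod.ext (old_unique3 a b).1 (old_unique3 a b).2
    · obtain ⟨a, p, b, d⟩ := mem_filter.1 hj
      exact ⟨p, mem_filter.2 ⟨b, j, a, d⟩, d⟩
    · obtain ⟨a, j, b, d⟩ := mem_filter.1 hp
      exact ⟨j, mem_filter.2 ⟨b, p, a, d⟩, d⟩
  have c1 : (O \ K0).card = (E \ KE).card := by
    rw [card_sdiff_of_subset (filter_subset _ _), card_sdiff_of_subset (filter_subset _ _), cO, cK]
  -- first Hall argument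
  obtain ⟨s1, hs1, t1, ht1, e1, d1, pm1⟩ := hall2 hH (R := fun j p => P.Ok j p.1 p.2)
    (d := a3 + nE + 1) c1 fun A hA => by
      by_cases h1 : A.card ≤ 1
      · exact Or.inl (by omega)
      obtain ⟨j, hj, j', hj', hne⟩ := one_lt_card.1 (not_le.1 h1)
      refine Or.inr fun M hM hno => ?_
      have r := c.jb j j' hne (OO_rigid3 c (mem_sdiff.1 (hA hj)).1)
        (OO_rigid3 c (mem_sdiff.1 (hA hj')).1)
      have a1 := card_filter_add_card_filter_not (s := M) (fun p => μ (vx p.1) = vx p.2)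
      have a2 : (M.filter fun p => ¬ μ (vx p.1) = vx p.2).card ≤ a3 := by
        refine le_trans (card_le_rel (fun p q => p.1 = q) (fun p hp => ⟨p.1, ?_, rfl⟩)
          fun p hp p' hp' q a b => EE_fst (mem_sdiff.1 (hM (mem_filter.1 hp).1)).1
            (mem_sdiff.1 (hM (mem_filter.1 hp').1)).1 (a.trans b.symm)) r
        obtain ⟨b1, b2⟩ := mem_filter.1 hp
        obtain ⟨b3, b4, b5⟩ := mem_EE.1 (mem_sdiff.1 (hM b1)).1
        exact mem_filter.2 ⟨mem_univ _, b3, p.2, b4, b5, b2, hno p b1 j hj, hno p b1 j' hj'⟩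
      have a3' : (M.filter fun p => μ (vx p.1) = vx p.2).card ≤ nE := by
        refine le_trans (card_le_rel
          (fun p x => ∃ i, x = ag i ∧ P.OldP e ρ B g i p.1 p.2) (fun p hp => ?_) ?_) c.en
        · obtain ⟨b1, b2⟩ := mem_filter.1 hp
          obtain ⟨b6, b7⟩ := mem_sdiff.1 (hM b1)
          obtain ⟨b3, b4, b5⟩ := mem_EE.1 b6
          obtain ⟨i, hi⟩ := i10 p.1 p.2 b4.symm b2 b3
          refine ⟨ag i, mem_filter.2 ⟨mem_univ _, Or.inl ⟨(i8 _ _ _ hi).2.2.2.2.2.1, fun h => ?_⟩⟩,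
            i, rfl, hi⟩
          exact b7 (mem_filter.2 ⟨b6, i, mem_OO.2 ⟨hst.sub hi.1, h⟩, hi⟩)
        · rintro p - p' - x ⟨i, rfl, a⟩ ⟨i', h, b⟩
          obtain rfl := Sum.inl.inj h
          exact Prod.ext (old_unique3 a b).1 (old_unique3 a b).2
      have := card_le_card hA
      omega
  -- helpers
  have hiK : ∀ s ∈ Hi, s.1 ∈ K0 ∧ s.2 ∈ KE := fun s hs => by
    obtain ⟨a, b, d⟩ := c.hi s hs
    have m1 : s.1 ∈ O := mem_OO.2 ⟨hst.sub a.1, d⟩
    have m2 : s.2 ∈ E := oldE _ _ _ a b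
    exact ⟨mem_filter.2 ⟨m1, s.2, m2, a⟩, mem_filter.2 ⟨m2, s.1, m1, a⟩⟩
  have hsA : ∀ s ∈ Hh ∪ Hi, s.1 ∉ O \ K0 := fun s hs h => by
    rcases mem_union.1 hs with hs | hs
    · exact (c.hp.1 s hs).1 (mem_OO.1 (mem_sdiff.1 h).1).1
    · exact (mem_sdiff.1 h).2 (hiK s hs).1
  have hsE : ∀ s ∈ Hh ∪ Hi, s.2 ∉ E \ KE := fun s hs h => by
    rcases mem_union.1 hs with hs | hs
    · exact (c.hp.1 s hs).2.2.1 (EE_pe3 c.m (mem_sdiff.1 h).1).1
    · exact (mem_sdiff.1 h).2 (hiK s hs).2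
  have hsJ : ∀ s ∈ Hh ∪ Hi, P.rigid S e ρ s.1 ∧ ¬ P.junk s.1 s.2.2 := fun s hs => by
    rcases mem_union.1 hs with hs | hs
    · exact ⟨(c.hp.1 s hs).2.1, (c.hp.1 s hs).2.2.2.2.2⟩
    · exact ⟨(i8 _ _ _ (c.hi s hs).1).2.1, (i8 _ _ _ (c.hi s hs).1).2.2.2.1⟩
  have hsD : HE (Hh ∪ Hi) ⊆ E ∪ HE Hh := fun p hp => by
    obtain ⟨s, hs, rfl⟩ := mem_HE.1 hp
    rcases mem_union.1 hs with hs | hs
    · exact mem_union_right _ (mem_HE.2 ⟨s, hs, rfl⟩)
    · exact mem_union_left _ (mem_filter.1 (hiK s hs).2).1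
  have cH : (ag2 (Hh ∪ Hi)).card = (HE (Hh ∪ Hi)).card := by
    refine card_eq_rel (fun j p => (j, p) ∈ Hh ∪ Hi) (fun j hj => ?_) (fun p hp => ?_)
      (fun j _ j' _ p a b => ?_) fun p _ p' _ j a b => ?_
    · obtain ⟨s, hs, rfl⟩ := mem_ag2.1 hj
      exact ⟨s.2, mem_HE.2 ⟨s, hs, rfl⟩, hs⟩
    · obtain ⟨s, hs, rfl⟩ := mem_HE.1 hp
      exact ⟨s.1, mem_ag2.2 ⟨s, hs, rfl⟩, hs⟩
    · rcases mem_union.1 a with a | a <;> rcases mem_union.1 b with b | b
      · exact congrArg Prod.fst (dis_fst c.hp.2 a b rfl)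
      · exact absurd (EE_pe3 c.m (mem_filter.1 (hiK _ b).2).1).1 (c.hp.1 _ a).2.2.1
      · exact absurd (EE_pe3 c.m (mem_filter.1 (hiK _ a).2).1).1 (c.hp.1 _ b).2.2.1
      · exact old_owner3 hst (c.hi _ a).1 (c.hi _ b).1
    · rcases mem_union.1 a with a | a <;> rcases mem_union.1 b with b | b
      · by_contra hne
        exact (c.hp.2 _ a _ b fun h => hne (congrArg Prod.snd h)).1 rfl
      · exact absurd (hst.sub (c.hi _ b).1.1) (c.hp.1 _ a).1
      · exact absurd (hst.sub (c.hi _ a).1.1) (c.hp.1 _ b).1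
      · exact Prod.ext (old_unique3 (c.hi _ a).1 (c.hi _ b).1).1
          (old_unique3 (c.hi _ a).1 (c.hi _ b).1).2
  set A2 := ((O \ K0) \ s1) ∪ ag2 (Hh ∪ Hi) with hA2
  set E2 := ((E \ KE) \ t1) ∪ HE (Hh ∪ Hi) with hE2
  have c2 : A2.card = E2.card := by
    rw [card_union_of_disjoint, card_union_of_disjoint, e1, cH]
    · refine disjoint_right.2 fun p hp h => ?_
      obtain ⟨s, hs, rfl⟩ := mem_HE.1 hp
      exact hsE s hs (mem_sdiff.1 h).1
    · refine disjoint_right.2 fun j hj h => ?_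
      obtain ⟨s, hs, rfl⟩ := mem_ag2.1 hj
      exact hsA s hs (mem_sdiff.1 h).1
  have rA2 : ∀ j ∈ A2, P.rigid S e ρ j := fun j hj => by
    rcases mem_union.1 hj with h | h
    · exact OO_rigid3 c (mem_sdiff.1 (mem_sdiff.1 h).1).1
    · obtain ⟨s, hs, rfl⟩ := mem_ag2.1 h
      exact (hsJ s hs).1
  have sE2 : E2 ⊆ E ∪ HE Hh := union_subset
    (fun p hp => mem_union_left _ (mem_sdiff.1 (mem_sdiff.1 hp).1).1) hsD
  -- second Hall argument
  obtain ⟨s2, hs2, t2, ht2, e2, d2, pm2⟩ := hall2 hH (R := fun j p => ¬ P.junk j p.2)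
    (d := δ) c2 fun A hA => by
      by_cases hA0 : A.card = 0
      · exact Or.inl (by omega)
      have cA := card_le_card hA
      have key : ∀ M ⊆ E2, (∀ y ∈ M, ∀ x ∈ A, ¬ ¬ P.junk x y.2) → A.card ≤ 1 ∨ M.card ≤ 1 := by
        intro M hM hno
        by_contra hcon
        rw [not_or, not_le, not_le] at hcon
        obtain ⟨j, hj, j', hj', hne⟩ := one_lt_card.1 hcon.1
        obtain ⟨p, hp, p', hp', hne'⟩ := one_lt_card.1 hcon.2
        obtain ⟨-, -, o, ro⟩ := rA2 j (hA hj)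
        obtain ⟨-, -, o', ro'⟩ := rA2 j' (hA hj')
        exact hne' (ed_snd3 c (sE2 (hM hp)) (sE2 (hM hp')) (Geo.rig_junk c.cx.fr hne ro ro'
          (not_not.1 (hno p hp j hj)) (not_not.1 (hno p' hp' j hj))
          (not_not.1 (hno p hp j' hj')) (not_not.1 (hno p' hp' j' hj'))))
      refine Or.inr fun M hM hno => ?_
      have cM := card_le_card hM
      rcases c.ob with h | h
      · rcases key M hM hno with k | k <;> omega
      by_contra hcon
      rcases key M hM hno with k | k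
      · have eM : M = E2 := eq_of_subset_of_card_le hM (by omega)
        obtain ⟨j, hj⟩ := card_pos.1 (Nat.pos_of_ne_zero hA0)
        have : ∃ s ∈ Hh ∪ Hi, ¬ P.junk j s.2.2 := by
          rcases mem_union.1 (hA hj) with a | a
          · have := mem_OO.1 (mem_sdiff.1 (mem_sdiff.1 a).1).1
            exact h.1 j this.1 this.2
          · obtain ⟨s, hs, rfl⟩ := mem_ag2.1 a
            exact ⟨s, hs, (hsJ s hs).2⟩
        obtain ⟨s, hs, hj'⟩ := this
        exact hno s.2 (eM ▸ mem_union_right _ (mem_HE.2 ⟨s, hs, rfl⟩)) j hj hj'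
      · have eA : A = A2 := eq_of_subset_of_card_le hA (by omega)
        obtain ⟨p, hp⟩ := card_pos.1 (show 0 < M.card by omega)
        have : ∃ s ∈ Hh ∪ Hi, ¬ P.junk s.1 p.2 := by
          rcases mem_union.1 (hM hp) with a | a
          · have := mem_EE.1 (mem_sdiff.1 (mem_sdiff.1 a).1).1
            exact h.2 p.1 p.2 this.2.1 this.2.2 this.1
          · obtain ⟨s, hs, rfl⟩ := mem_HE.1 a
            exact ⟨s, hs, (hsJ s hs).2⟩
        obtain ⟨s, hs, hj'⟩ := this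
        exact hno p hp s.1 (eA ▸ mem_union_right _ (mem_ag2.2 ⟨s, hs, rfl⟩)) hj'
  -- assembly
  set R : J → V × V → Prop := fun j p => (j ∉ A2 → P.Ok j p.1 p.2) ∧
    (j ∉ A2 \ s2 → P.Ok j p.1 p.2 ∨ ¬ P.junk j p.2) with hR
  have p0 : PM (K0 \ ag2 (Hh ∪ Hi)) (KE \ HE (Hh ∪ Hi)) R := by
    refine (PM.of_rel (R := fun j p => P.OldP e ρ B g j p.1 p.2) (fun j hj => ?_)
      fun j j' p a b => old_owner3 (q := p.1) (z := p.2) (z' := p.2) hst a b).mono Subset.rfl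
      fun j _ p h => ?_
    · obtain ⟨a1, a2⟩ := mem_sdiff.1 hj
      obtain ⟨a, p, b, d⟩ := mem_filter.1 a1
      refine ⟨p, mem_sdiff.2 ⟨mem_filter.2 ⟨b, j, a, d⟩, fun h => ?_⟩, d⟩
      obtain ⟨s, hs, rfl⟩ := mem_HE.1 h
      rcases mem_union.1 hs with hs' | hs'
      · exact (c.hp.1 s hs').2.2.1 (EE_pe3 c.m b).1
      · exact a2 (mem_ag2.2 ⟨s, hs, old_owner3 hst (c.hi s hs').1 d⟩)
    · have : P.Ok j p.1 p.2 := Or.inr (Or.inr (i8 _ _ _ h).2.2.1)
      exact ⟨fun _ => this, fun _ => Or.inl this⟩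
  have p1 : PM s1 t1 R := pm1.mono Subset.rfl fun j _ p h => ⟨fun _ => h, fun _ => Or.inl h⟩
  have p2 : PM s2 t2 R := pm2.mono Subset.rfl fun j hj p h =>
    ⟨fun h' => absurd (hs2 hj) h', fun _ => Or.inr h⟩
  have p3 : PM (A2 \ s2) (E2 \ t2) R := (pm_all hH e2).mono Subset.rfl fun j hj p _ =>
    ⟨fun h' => absurd (mem_sdiff.1 hj).1 h', fun h' => absurd hj h'⟩
  have p23 := (p2.union p3 disjoint_sdiff).mono (E' := E2)
    (union_subset ht2 sdiff_subset) fun _ _ _ h => h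
  have p123 := p1.union p23 (disjoint_left.2 fun p hp h => by
    rcases mem_union.1 h with h | h
    · exact (mem_sdiff.1 h).2 hp
    · obtain ⟨s, hs, rfl⟩ := mem_HE.1 h
      exact hsE s hs (ht1 hp))
  obtain ⟨f, f1, f2⟩ := (p0.union p123 (disjoint_left.2 fun p hp h => by
    rcases mem_union.1 h with h | h
    · exact (mem_sdiff.1 (ht1 h)).2 (mem_sdiff.1 hp).1
    · rcases mem_union.1 h with h | h
      · exact (mem_sdiff.1 (mem_sdiff.1 h).1).2 (mem_sdiff.1 hp).1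
      · exact (mem_sdiff.1 hp).2 h)).mono (E' := E ∪ HE Hh) (union_subset
      (fun p hp => mem_union_left _ (mem_filter.1 (mem_sdiff.1 hp).1).1) (union_subset
      (fun p hp => mem_union_left _ (mem_sdiff.1 (ht1 hp)).1) sE2)) fun _ _ _ h => h
  set Al := K0 \ ag2 (Hh ∪ Hi) ∪ (s1 ∪ (s2 ∪ A2 \ s2)) with hAl
  refine ⟨fun j q z => j ∈ Al ∧ f j = some (q, z), A2, A2 \ s2, ?_, sdiff_subset, d2, ?_, ?_⟩
  · have a1 := card_union_le ((O \ K0) \ s1) (ag2 (Hh ∪ Hi))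
    have a2 : (ag2 (Hh ∪ Hi)).card ≤ (Hh ∪ Hi).card := card_image_le
    exact a1.trans (Nat.add_le_add d1 a2)
  · rintro j j' q z z' ⟨a1, a2⟩ ⟨b1, b2⟩
    obtain ⟨y, hy, a, -⟩ := f1 j a1
    obtain ⟨y', hy', b, -⟩ := f1 j' b1
    obtain rfl : y = (q, z) := Option.some.inj (a.symm.trans a2)
    obtain rfl : y' = (q, z') := Option.some.inj (b.symm.trans b2)
    exact f2 j a1 j' b1 (by rw [a, b, ed_fst3 c hy hy' rfl])
  · intro j hj
    have inA2 : j ∈ A2 → j ∈ Al := fun h => mem_union_right _ (mem_union_right _ (by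
      rw [union_sdiff_of_subset hs2]; exact h))
    have hAl' : j ∈ Al := by
      by_cases h1 : j ∈ ag2 (Hh ∪ Hi)
      · exact inA2 (mem_union_right _ h1)
      rcases hj with hj | hj
      · obtain ⟨s, hs, rfl⟩ := mem_ag2.1 hj
        exact absurd (mem_ag2.2 ⟨s, mem_union_left _ hs, rfl⟩) h1
      by_cases h2 : j ∈ K0
      · exact mem_union_left _ (mem_sdiff.2 ⟨h2, h1⟩)
      by_cases h3 : j ∈ s1
      · exact mem_union_right _ (mem_union_left _ h3)
      · exact inA2 (mem_union_left _ (mem_sdiff.2 ⟨mem_sdiff.2 ⟨mem_OO.2 hj, h2⟩, h3⟩))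
    obtain ⟨y, hy, a, r⟩ := f1 j hAl'
    refine ⟨y.1, y.2, ⟨hAl', a⟩, ?_, r.1, r.2⟩
    rcases mem_union.1 hy with h | h
    · exact Or.inl (mem_EE.1 h)
    · exact Or.inr (mem_HE.1 h)

end Pool.Agent.Lib.MP_ef7581_lc.D3
end

-- part Pool.Agent.Lib.MP_ef7581_lc.EReal
section

/-!
The realisation step for agents with several terminals: an auxiliary matching close to the image
of a state gives a state, with control of the unused items of the class `nf`.
-/

set_option autoImplicit false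
set_option linter.unusedSectionVars false

namespace Pool.Agent.Lib.MP_ef7581_lc.D3

open Finset Classical D2
open D2.DReal (greedy its_card_two mi_mem ma_mem card_end_items inv_eq XE mem_ends mem_pool mem_req
  cw_set)

variable {J V K : Type} [Fintype J] [Fintype V] [Fintype K] [DecidableEq J] [DecidableEq V]
  [DecidableEq K]

namespace EReal

variable {P : G3 J V K} {S : Sub J V} {e : ℕ} {ρ : Finset V} {Y : Px V} {B : Finset J}
  {g : J → Sv V} {μ ν : Nd J V → Nd J V} {X : Ax J V}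

theorem en_key (hm : IsM (P.En S e ρ X Y) ν) {j : J} {x : V} (h : ν (ag j) = vx x) :
    j ∈ S.A ∧ x ∈ S.W ∧ (S.lst j x ∨ P.mkE S e ρ j x ∨ P.ncE S e ρ Y j x) := by
  have b := hm.2 (ag j) (by rw [h]; simp)
  rw [h] at b
  exact ⟨b.1, b.2.1, b.2.2.imp id (Or.imp id fun t => t.2)⟩

/-- A key outside the list has many partners in the frame. -/
theorem key_part (hw : P.Wf S) (hf : P.Frame e ρ) (hm : IsM (P.En S e ρ X Y) ν) {j : J} {x : V}
    (h : ν (ag j) = vx x) (hl : ¬ S.lst j x) :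
    S.geo j ∧ e < (ρ.filter fun r => P.Pr j x r).card := by
  rcases (en_key hm h).2.2.resolve_left hl with ⟨hg, k, k1, k2⟩ | ⟨hg, hs, ⟨o, o1, o2⟩, hh, -⟩
  · exact ⟨hg, G3.keym_many hf k1 k2 fun c => hl ((hw.1 j hg x).2 c)⟩
  · exact ⟨hg, G3.key_many hf hs o1 o2 hh⟩

theorem en_dm (hm : IsM (P.En S e ρ X Y) ν) {j : J} (h : ν (ag j) = dm j) :
    j ∈ S.A ∧ S.geo j ∧ P.flex e ρ j := by
  have b := hm.2 (ag j) (by rw [h]; simp)
  rw [h] at b
  exact b.2

theorem en_pe (hm : IsM (P.En S e ρ X Y) ν) {q z : V} (hne : z ≠ q) (h : ν (vx q) = vx z) :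
    q ∈ S.W ∧ z ∈ S.W ∧ (P.peE e ρ Y q z ∨ P.peE e ρ Y z q) := by
  have b := hm.2 (vx q) (by rw [h]; simpa using hne)
  rw [h] at b
  exact ⟨b.1, b.2.1, b.2.2.2.imp (fun t => t.1) fun t => t.1⟩

theorem en_pe' (hm : IsM (P.En S e ρ X Y) ν) {q z : V} (hne : z ≠ q) (h : ν (vx q) = vx z)
    (hq : P.Q0 e ρ q) : P.peE e ρ Y q z :=
  (en_pe hm hne h).2.2.resolve_right fun t => t.2.1 hq.2

/-- The partner of a covered item. -/
theorem item_cases (hm : IsM (P.En S e ρ X Y) ν) {v : V} (h : ν (vx v) ≠ vx v) :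
    (∃ j, ν (ag j) = vx v) ∨ ∃ u, u ≠ v ∧ ν (vx v) = vx u := by
  have b := hm.2 _ h
  rcases hv : ν (vx v) with i | u | i <;> rw [hv] at b
  · exact Or.inl ⟨i, inv_eq hm.1 hv⟩
  · exact Or.inr ⟨u, fun e => h (by rw [hv, e]), rfl⟩
  · exact b.elim

theorem fixed_out (hm : IsM (P.En S e ρ X Y) ν) {v : V} (h : v ∉ S.W) : ν (vx v) = vx v := by
  by_contra hv
  rcases item_cases hm hv with ⟨j, hj⟩ | ⟨u, hu, hv⟩
  · exact h (en_key hm hj).2.1
  · exact h (en_pe hm hu hv).1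

theorem oldA_mem {j : J} {v : V} (h : P.OldA e ρ B g j v) : v ∈ (g j).its := by
  obtain ⟨-, h1 | ⟨a, b, o, h1, -, -, hx, -⟩ | ⟨b, k, h1, -⟩⟩ := h
  · rw [h1]; simp [Sv.its]
  · rw [h1]; exact hx ▸ mi_mem o a b
  · rw [h1]; simp [Sv.its]

/-- The old key of a pair agent is a coloured item of its service. -/
theorem old_key (cx : P.Ctx S e ρ Y B g μ) {j : J} {x : V} (h : μ (ag j) = vx x)
    (h2 : ∃ a b, g j = Sv.two a b) : x ∈ (g j).its ∧ ¬ S.lst j x := by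
  have b : P.OldA e ρ B g j x := (cx.im.2 (ag j) (vx x) (by simp)).1 h
  have hx := oldA_mem b
  refine ⟨hx, fun hl => ?_⟩
  obtain ⟨a, c, h2⟩ := h2
  have hn := cx.st.nrm j b.1
  rw [h2] at hn hx
  obtain ⟨hg, -, k, k', -, k1, k2⟩ := G3.nrm_two hn
  have hC := (cx.wf.1 j hg x).1 hl
  simp only [Sv.its, mem_insert, mem_singleton] at hx
  rcases hx with rfl | rfl
  · exact G3.colk_not_C k1 hC
  · exact G3.colk_not_C k2 hC

theorem same_agent (cx : P.Ctx S e ρ Y B g μ) {i j : J} {v : V} (hi : i ∈ B) (hj : j ∈ B)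
    (h1 : v ∈ (g i).its) (h2 : v ∈ (g j).its) : i = j := by
  by_contra hne
  exact disjoint_left.1 (cx.st.dis i hi j hj hne) h1 h2

/-- Hidden items of a covered agent are uncovered. -/
theorem hidden_fixed (hI : ImgS) (cx : P.Ctx S e ρ Y B g μ) {j : J} {v : V} (hj : j ∈ B)
    (hc : μ (ag j) ≠ ag j) (hv : v ∈ (g j).its) (hk : μ (ag j) ≠ vx v) : μ (vx v) = vx v := by
  have im := (hI J V K P S e ρ Y B g cx.wf cx.fr cx.st cx.si).2 μ cx.im
  by_contra hn
  rcases item_cases im.1 hn with ⟨i, hi⟩ | ⟨u, hu, hv'⟩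
  · have b : P.OldA e ρ B g i v := (cx.im.2 (ag i) (vx v) (by simp)).1 hi
    exact hk (same_agent cx b.1 hj (oldA_mem b) hv ▸ hi)
  · obtain ⟨i, hi⟩ : ∃ i, P.OldP e ρ B g i v u ∨ P.OldP e ρ B g i u v :=
      (cx.im.2 (vx v) (vx u) (by simpa using hu.symm)).1 hv'
    rcases hi with hi | hi
    · have k := im.2.2.2.2.2.2.2.1 i v u hi
      have : v ∈ (g i).its := by rw [k.2.2.2.2.1]; simp
      exact hc (same_agent cx hi.1 hj this hv ▸ k.2.2.2.2.2.1)
    · have k := im.2.2.2.2.2.2.2.1 i u v hi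
      have : v ∈ (g i).its := by rw [k.2.2.2.2.1]; simp
      exact hc (same_agent cx hi.1 hj this hv ▸ k.2.2.2.2.2.1)

theorem XE_card (cx : P.Ctx S e ρ Y B g μ) : (XE B g μ ν).card ≤ (ends μ ν).card := by
  refine card_le_card_of_forall_subsingleton
    (fun j n => n = dm j ∨ (j ∈ B ∧ ∃ v ∈ (g j).its, n = vx v)) (fun j hj => ?_) ?_
  · obtain ⟨n, h1, h2⟩ := (mem_filter.1 hj).2
    exact ⟨n, h1, h2⟩
  · rintro n - i ⟨-, hi⟩ j ⟨-, hj⟩
    rcases hi with hi | ⟨hi, v, hv, rfl⟩ <;> rcases hj with hj | ⟨hj, u, hu, hj'⟩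
    · rw [hi] at hj
      exact Sum.inr_injective (Sum.inr_injective hj)
    · rw [hi] at hj'
      simp at hj'
    · simp at hj
    · have : v = u := Sum.inl_injective (Sum.inr_injective hj')
      exact same_agent cx hi hj hv (this ▸ hu)

/-- A kept edge whose service is not intact. -/
theorem kept_XE (hI : ImgS) (cx : P.Ctx S e ρ Y B g μ) {j : J} (hc : ν (ag j) ≠ ag j)
    (hk : ν (ag j) = μ (ag j)) (hl : ∀ v, ν (ag j) = vx v → ¬ S.lst j v)
    (hn : ¬ Intact B g μ ν j) : j ∈ XE B g μ ν := by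
  have im := (hI J V K P S e ρ Y B g cx.wf cx.fr cx.st cx.si).2 μ cx.im
  have hc' : μ (ag j) ≠ ag j := hk ▸ hc
  have hB : j ∈ B := by
    by_contra h
    exact hc' (im.2.2.2.2.1 j h).1
  have h2 : ∃ a b, g j = Sv.two a b := by
    rcases cx.si j hB with ⟨c, h⟩ | ⟨a, b, h, -⟩
    · have hn := cx.st.nrm j hB
      rw [h] at hn
      exact absurd hn (hl c (hk.trans (im.2.2.2.2.2.2.1 j hB c h).2))
    · exact ⟨a, b, h⟩
  have : ∃ v ∈ (g j).its, μ (ag j) ≠ vx v ∧ ν (vx v) ≠ vx v := by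
    by_contra h
    exact hn ⟨hB, h2, hc', hk, fun v hv hne => by
      by_contra h'
      exact h ⟨v, hv, hne, h'⟩⟩
  obtain ⟨v, hv, h3, h4⟩ := this
  exact mem_filter.2 ⟨mem_univ _, vx v,
    mem_ends.2 (Or.inl ⟨hidden_fixed hI cx hB hc' hv h3, h4⟩), Or.inr ⟨hB, v, hv, rfl⟩⟩

/-- A new dummy edge. -/
theorem newdm_XE (hI : ImgS) (cx : P.Ctx S e ρ Y B g μ) (hν : ∀ x, ν (ν x) = x) {j : J}
    (hd : ν (ag j) = dm j) (hk : ν (ag j) ≠ μ (ag j)) : j ∈ XE B g μ ν := by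
  have im := (hI J V K P S e ρ Y B g cx.wf cx.fr cx.st cx.si).2 μ cx.im
  have h1 : μ (dm j) = dm j := by
    rcases (G3.En_shape im.1).2 j with h | h
    · exact h
    · exact absurd (hd.trans (inv_eq cx.im.1 h).symm) hk
  have h2 : ν (dm j) ≠ dm j := by
    rw [inv_eq hν hd]
    simp
  exact mem_filter.2 ⟨mem_univ _, dm j, mem_ends.2 (Or.inl ⟨h1, h2⟩), Or.inl rfl⟩

/-- Frame items outside the pool. -/
theorem frame_pool (hI : ImgS) (cx : P.Ctx S e ρ Y B g μ) :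
    (ρ \ PoolS S B g μ ν).card ≤
      (ρ.filter fun r => r ∉ S.W ∨ r ∈ itsB B g).card + (ends μ ν).card := by
  have im := (hI J V K P S e ρ Y B g cx.wf cx.fr cx.st cx.si).2 μ cx.im
  have h1 : ρ \ PoolS S B g μ ν ⊆
      (ρ.filter fun r => r ∉ S.W ∨ r ∈ itsB B g) ∪ ρ.filter fun v => IsEnd μ ν (vx v) := by
    intro r hr
    rw [mem_sdiff, mem_pool] at hr
    rw [mem_union, mem_filter, mem_filter]
    by_cases hb : r ∈ itsB B g
    · exact Or.inl ⟨hr.1, Or.inr hb⟩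
    by_cases hw : r ∈ S.W
    · refine Or.inr ⟨hr.1, Or.inl ⟨im.2.2.2.2.2.1 r hb, fun h => hr.2 ⟨hw, h, ?_⟩⟩⟩
      rintro ⟨j, hj, hv⟩
      exact hb (mem_biUnion.2 ⟨j, hj.1, hv⟩)
    · exact Or.inl ⟨hr.1, Or.inl hw⟩
  have h2 := card_le_card h1
  have h3 := card_union_le (ρ.filter fun r => r ∉ S.W ∨ r ∈ itsB B g)
    (ρ.filter fun v => IsEnd μ ν (vx v))
  have h4 := card_end_items μ ν (ρ.filter fun v => IsEnd μ ν (vx v))
    fun v hv => (mem_filter.1 hv).2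
  omega

/-- The size of the pool. -/
theorem pool_card (hP : PeStmt) (cx : P.Ctx S e ρ Y B g μ) (hm : IsM (P.En S e ρ X Y) ν)
    (sz : cov ν = 2 * S.A.card) :
    S.W.card + cw S ν + (Req S μ ν).card ≤ (PoolS S B g μ ν).card + 2 * S.A.card := by
  obtain ⟨c1, c2⟩ := (hP J V).1 ν hm.1 (G3.En_shape hm)
  obtain ⟨L, hL, cL⟩ := cw_set S ν
  obtain ⟨Ca, hCa, cCa⟩ : ∃ Ca : Finset J, (∀ j, j ∈ Ca ↔ ν (ag j) ≠ ag j) ∧
      cov ν = 2 * Ca.card + npe ν univ := ⟨_, fun j => by simp, c1⟩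
  obtain ⟨K, Cv, hK, hCv, cK⟩ : ∃ (K : Finset J) (Cv : Finset V),
      (∀ j, j ∈ K ↔ ∃ v, ν (ag j) = vx v) ∧ (∀ v, v ∈ Cv ↔ ν (vx v) ≠ vx v) ∧
      Cv.card = K.card + npe ν univ := ⟨_, _, fun j => by simp, fun j => by simp, c2⟩
  set IK := univ.filter fun j => Intact B g μ ν j ∧ ∃ v, ν (ag j) = vx v with hIK
  set ID := univ.filter fun j => Intact B g μ ν j ∧ ν (ag j) = dm j with hID
  set hid : J → Finset V := fun j => (g j).its.filter fun v => ν (vx v) = vx v with hhid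
  have s1 : S.W ⊆ PoolS S B g μ ν ∪ Cv ∪ IK.biUnion hid ∪ ID.biUnion hid := by
    intro v hv
    simp only [mem_union, mem_pool, hCv, mem_biUnion, hIK, hID, hhid, mem_filter, mem_univ,
      true_and]
    by_cases h1 : ν (vx v) = vx v
    · by_cases h2 : ∃ j, Intact B g μ ν j ∧ v ∈ (g j).its
      · obtain ⟨j, hj, hvj⟩ := h2
        rcases (G3.En_shape hm).1 j with h | h | h
        · exact absurd (hj.2.2.2.1.symm.trans h) hj.2.2.1
        · exact Or.inl (Or.inr ⟨j, ⟨hj, h⟩, hvj, h1⟩)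
        · exact Or.inr ⟨j, ⟨hj, h⟩, hvj, h1⟩
      · exact Or.inl (Or.inl (Or.inl ⟨hv, h1, h2⟩))
    · exact Or.inl (Or.inl (Or.inr h1))
  have s2 : (IK.biUnion hid).card ≤ IK.card * 1 := by
    refine card_biUnion_le_card_mul _ _ _ fun j hj => ?_
    obtain ⟨hj, x, hx⟩ := (mem_filter.1 hj).2
    have hx1 := (old_key cx (hj.2.2.2.1.symm.trans hx) hj.2.1).1
    have hx2 : hid j ⊆ (g j).its.erase x := fun v hv => by
      rw [hhid, mem_filter] at hv
      refine mem_erase.2 ⟨fun e => ?_, hv.1⟩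
      have := inv_eq hm.1 hx
      rw [← e, hv.2] at this
      simp at this
    have hx3 := card_le_card hx2
    have hx4 := card_erase_of_mem hx1
    have hx5 := its_card_two hj.2.1
    omega
  have s3 : (ID.biUnion hid).card ≤ ID.card * 2 := by
    refine card_biUnion_le_card_mul _ _ _ fun j hj => ?_
    exact (card_filter_le _ _).trans (its_card_two (mem_filter.1 hj).2.1.2.1)
  have s4 : K.card + ID.card ≤ Ca.card := by
    rw [← card_union_of_disjoint]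
    · refine card_le_card fun j hj => (hCa j).2 ?_
      rcases mem_union.1 hj with h | h
      · obtain ⟨v, hv⟩ := (hK j).1 h
        rw [hv]; simp
      · rw [(mem_filter.1 h).2.2]; simp
    · refine disjoint_left.2 fun j h1 h2 => ?_
      obtain ⟨v, hv⟩ := (hK j).1 h1
      have := (mem_filter.1 h2).2.2
      rw [hv] at this
      simp at this
  have s5 : L.card + (Req S μ ν).card + IK.card ≤ K.card := by
    rw [← card_union_of_disjoint, ← card_union_of_disjoint]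
    · refine card_le_card fun j hj => (hK j).2 ?_
      rcases mem_union.1 hj with h | h
      · rcases mem_union.1 h with h | h
        · obtain ⟨v, hv, -⟩ := (hL j).1 h
          exact ⟨v, hv⟩
        · obtain ⟨-, v, hv, -⟩ := mem_req.1 h
          exact ⟨v, hv⟩
      · exact (mem_filter.1 h).2.2
    · refine disjoint_left.2 fun j h1 h2 => ?_
      have hj := (mem_filter.1 h2).2.1
      rcases mem_union.1 h1 with h | h
      · obtain ⟨v, hv, hl⟩ := (hL j).1 h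
        exact (old_key cx (hj.2.2.2.1.symm.trans hv) hj.2.1).2 hl
      · obtain ⟨-, v, hv, -, hn⟩ := mem_req.1 h
        exact hn (hj.2.2.2.1.symm.trans hv)
    · refine disjoint_left.2 fun j h1 h2 => ?_
      obtain ⟨v, hv, hl⟩ := (hL j).1 h1
      obtain ⟨-, u, hu, hn, -⟩ := mem_req.1 h2
      have : u = v := Sum.inl_injective (Sum.inr_injective (hu.symm.trans hv))
      exact hn (this ▸ hl)
  have s6 := card_le_card s1
  have s7 := card_union_le (PoolS S B g μ ν ∪ Cv ∪ IK.biUnion hid) (ID.biUnion hid)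
  have s8 := card_union_le (PoolS S B g μ ν ∪ Cv) (IK.biUnion hid)
  have s9 := card_union_le (PoolS S B g μ ν) Cv
  omega

/-! ### Zones: the fixed parts of the services -/

/-- The pair `(q, z)` is a pair edge of `ν` or a helper edge. -/
def PEd (P : G3 J V K) (e : ℕ) (ρ : Finset V) (ν : Nd J V → Nd J V) (Hh : Finset (J × V × V))
    (q z : V) : Prop :=
  (P.Q0 e ρ q ∧ z ≠ q ∧ ν (vx q) = vx z) ∨ ∃ s ∈ Hh, s.2 = (q, z)

/-- The items reserved for agent `j`. -/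
def Zn (P : G3 J V K) (e : ℕ) (ρ : Finset V) (B : Finset J) (g : J → Sv V)
    (μ ν : Nd J V → Nd J V) (Hh : Finset (J × V × V)) (own : J → V → V → Prop) (j : J) (v : V) :
    Prop :=
  ν (ag j) = vx v ∨ (Intact B g μ ν j ∧ v ∈ (g j).its) ∨
    ∃ q z, own j q z ∧ PEd P e ρ ν Hh q z ∧ (v = q ∨ v = z)

variable {Hh : Finset (J × V × V)} {own : J → V → V → Prop}

theorem ped_pe (hm : IsM (P.En S e ρ X Y) ν) (hp : P.HelpOk S e ρ Y Hh) {q z : V}
    (h : PEd P e ρ ν Hh q z) : P.peE e ρ Y q z := by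
  rcases h with ⟨h1, h2, h3⟩ | ⟨s, hs, h⟩
  · exact en_pe' hm h2 h3 h1
  · have := (hp.1 s hs).2.2.2.2.1
    rw [h] at this
    exact this

/-- The four kinds of reserved items. -/
theorem zn_kind (cx : P.Ctx S e ρ Y B g μ) (hm : IsM (P.En S e ρ X Y) ν) (hp : P.HelpOk S e ρ Y Hh)
    {j : J} {v : V} (h : Zn P e ρ B g μ ν Hh own j v) :
    (v ∈ S.W ∧ ν (vx v) = ag j) ∨
      (v ∈ S.W ∧ ν (vx v) = vx v ∧ Intact B g μ ν j ∧ v ∈ (g j).its) ∨
      (v ∈ S.W ∧ (∃ u, u ≠ v ∧ ν (vx v) = vx u) ∧ ∃ q z, own j q z ∧ P.Q0 e ρ q ∧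
        ¬ P.heavy e ρ z ∧ ν (vx q) = vx z ∧ (v = q ∨ v = z)) ∨
      (v ∉ S.W ∧ v ∈ it2 Hh ∧ ∃ q z, own j q z ∧ (∃ s ∈ Hh, s.2 = (q, z)) ∧ (v = q ∨ v = z)) := by
  rcases h with h | ⟨hj, hv⟩ | ⟨q, z, ho, ⟨h1, h2, h3⟩ | ⟨s, hs, h1⟩, hv⟩
  · exact Or.inl ⟨(en_key hm h).2.1, inv_eq hm.1 h⟩
  · have hw := cx.st.inW j hj.1 hv
    by_cases hk : μ (ag j) = vx v
    · exact Or.inl ⟨hw, inv_eq hm.1 (hj.2.2.2.1.trans hk)⟩
    · exact Or.inr (Or.inl ⟨hw, hj.2.2.2.2 v hv hk, hj, hv⟩)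
  · have k := en_pe hm h2 h3
    have k' := en_pe' hm h2 h3 h1
    refine Or.inr (Or.inr (Or.inl ⟨?_, ?_, q, z, ho, h1, k'.2.1, h3, hv⟩))
    · rcases hv with rfl | rfl
      · exact k.1
      · exact k.2.1
    · rcases hv with rfl | rfl
      · exact ⟨z, h2, h3⟩
      · exact ⟨q, h2.symm, inv_eq hm.1 h3⟩
  · have k := hp.1 s hs
    have e1 : s.2.1 = q := by rw [h1]
    have e2 : s.2.2 = z := by rw [h1]
    refine Or.inr (Or.inr (Or.inr ⟨?_, ?_, q, z, ho, ⟨s, hs, h1⟩, hv⟩))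
    · rcases hv with rfl | rfl
      · exact e1 ▸ k.2.2.1
      · exact e2 ▸ k.2.2.2.1
    · refine mem_biUnion.2 ⟨s, hs, ?_⟩
      rw [e1, e2]
      simpa using hv

theorem zn_in (cx : P.Ctx S e ρ Y B g μ) (hm : IsM (P.En S e ρ X Y) ν) (hp : P.HelpOk S e ρ Y Hh)
    {j : J} {v : V} (h : Zn P e ρ B g μ ν Hh own j v) : v ∈ S.W ∪ it2 Hh := by
  rcases zn_kind cx hm hp h with h | h | h | h
  · exact mem_union_left _ h.1
  · exact mem_union_left _ h.1
  · exact mem_union_left _ h.1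
  · exact mem_union_right _ h.2.1

theorem zn_pool (cx : P.Ctx S e ρ Y B g μ) (hm : IsM (P.En S e ρ X Y) ν) (hp : P.HelpOk S e ρ Y Hh)
    {j : J} {v : V} (h : Zn P e ρ B g μ ν Hh own j v) : v ∉ PoolS S B g μ ν := by
  intro hv
  obtain ⟨h1, h2, h3⟩ := mem_pool.1 hv
  rcases zn_kind cx hm hp h with h | h | ⟨-, ⟨u, hu, h⟩, -⟩ | h
  · rw [h2] at h
    simp at h
  · exact h3 ⟨j, h.2.2⟩
  · rw [h2] at h
    exact hu (Sum.inl_injective (Sum.inr_injective h)).symm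
  · exact h.1 h1

theorem zn_unique (cx : P.Ctx S e ρ Y B g μ) (hm : IsM (P.En S e ρ X Y) ν) (hp : P.HelpOk S e ρ Y Hh)
    (ho : ∀ j j' q z z', own j q z → own j' q z' → j = j') {i j : J} {v : V}
    (hi : Zn P e ρ B g μ ν Hh own i v) (hj : Zn P e ρ B g μ ν Hh own j v) : i = j := by
  have inj : ∀ a b : V, (vx a : Nd J V) = vx b → a = b := fun a b h =>
    Sum.inl_injective (Sum.inr_injective h)
  rcases zn_kind cx hm hp hi with ⟨w1, a⟩ | ⟨w1, a, a1, a2⟩ | ⟨w1, ⟨u, hu, a⟩, q, z, a1, a2, a3,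
      a4, a5⟩ | ⟨w1, -, q, z, a1, ⟨s, hs, a2⟩, a3⟩ <;>
    rcases zn_kind cx hm hp hj with ⟨w2, b⟩ | ⟨w2, b, b1, b2⟩ | ⟨w2, ⟨u', hu', b⟩, q', z', b1, b2,
      b3, b4, b5⟩ | ⟨w2, -, q', z', b1, ⟨s', hs', b2⟩, b3⟩
  · exact Sum.inl_injective (a.symm.trans b)
  · rw [a] at b; simp at b
  · rw [a] at b; simp at b
  · exact absurd w1 w2
  · rw [a] at b; simp at b
  · exact same_agent cx a1.1 b1.1 a2 b2
  · exact absurd (inj _ _ (b.symm.trans a)) hu'
  · exact absurd w1 w2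
  · rw [a] at b; simp at b
  · exact absurd (inj _ _ (a.symm.trans b)) hu
  · have : q = q' := by
      rcases a5 with a5 | a5 <;> rcases b5 with b5 | b5
      · exact a5.symm.trans b5
      · exact absurd ((a5.symm.trans b5) ▸ a2.2) b3
      · exact absurd ((b5.symm.trans a5) ▸ b2.2) a3
      · have k1 := inv_eq hm.1 a4
        have k2 := inv_eq hm.1 b4
        rw [← a5] at k1
        rw [← b5] at k2
        exact inj _ _ (k1.symm.trans k2)
    exact ho i j q z z' a1 (this ▸ b1)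
  · exact absurd w1 w2
  · exact absurd w2 w1
  · exact absurd w2 w1
  · exact absurd w2 w1
  · have : s = s' := by
      by_contra hne
      have hd := (hp.2 s hs s' hs' hne).2
      rw [a2, b2] at hd
      exact (disjoint_left.1 hd : ∀ ⦃a⦄, a ∈ _ → a ∉ _) (a := v) (by simpa using a3)
        (by simpa using b3)
    have k : (q, z) = (q', z') := by rw [← a2, ← b2, this]
    have k1 : q = q' := congrArg Prod.fst k
    exact ho i j q z z' a1 (k1 ▸ b1)

/-! ### Every pair edge is owned -/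

theorem ped_fun (hm : IsM (P.En S e ρ X Y) ν) (hp : P.HelpOk S e ρ Y Hh) {q z z' : V}
    (h : PEd P e ρ ν Hh q z) (h' : PEd P e ρ ν Hh q z') : z = z' := by
  rcases h with ⟨-, h2, h3⟩ | ⟨s, hs, h⟩ <;> rcases h' with ⟨-, k2, k3⟩ | ⟨s', hs', k⟩
  · exact Sum.inl_injective (Sum.inr_injective (h3.symm.trans k3))
  · have t := (hp.1 s' hs').2.2.1
    rw [k] at t
    exact absurd (en_pe hm h2 h3).1 t
  · have t := (hp.1 s hs).2.2.1
    rw [h] at t
    exact absurd (en_pe hm k2 k3).1 t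
  · have : s = s' := by
      by_contra hne
      have hd := (hp.2 s hs s' hs' hne).2
      rw [h, k] at hd
      exact (disjoint_left.1 hd : ∀ ⦃a⦄, a ∈ _ → a ∉ _) (a := q) (by simp) (by simp)
    rw [this, k] at h
    exact (congrArg Prod.snd h).symm

theorem out_fixed (hm : IsM (P.En S e ρ X Y) ν) {j : J} (h : j ∉ S.A) : ν (ag j) = ag j := by
  rcases (G3.En_shape hm).1 j with k | ⟨x, k⟩ | k
  · exact k
  · exact absurd (en_key hm k).1 h
  · exact absurd (en_dm hm k).1 h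

/-- There are at most as many pair edges as uncovered agents. -/
theorem ped_card (hP : PeStmt) (hm : IsM (P.En S e ρ X Y) ν) (hp : P.HelpOk S e ρ Y Hh)
    (sz : cov ν = 2 * S.A.card) :
    (univ.filter fun q => ∃ z, PEd P e ρ ν Hh q z).card ≤
      ((S.A ∪ ag2 Hh).filter fun j => ν (ag j) = ag j).card := by
  obtain ⟨c1, -⟩ := (hP J V).1 ν hm.1 (G3.En_shape hm)
  obtain ⟨Ca, hCa, cCa⟩ : ∃ Ca : Finset J, (∀ j, j ∈ Ca ↔ ν (ag j) ≠ ag j) ∧
      cov ν = 2 * Ca.card + npe ν univ := ⟨_, fun j => by simp, c1⟩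
  obtain ⟨N, hN, cN⟩ : ∃ N : Finset V, (∀ v, v ∈ N ↔ ∃ u, u ≠ v ∧ ν (vx v) = vx u) ∧
      npe ν univ = N.card :=
    ⟨univ.filter fun v : V => vx v ∈ (univ : Finset (Nd J V)) ∧ ∃ u, u ≠ v ∧ ν (vx v) = vx u,
      fun v => by simp, by unfold npe; congr⟩
  set Q1 := N.filter fun q => P.Q0 e ρ q with hQ1
  set Z1 := N.filter fun z => ¬ P.heavy e ρ z with hZ1
  set UA := S.A.filter fun j => ν (ag j) = ag j with hUA
  have s1 : Q1.card ≤ Z1.card := by
    refine card_le_card_of_forall_subsingleton (fun q z => ν (vx q) = vx z) (fun q hq => ?_) ?_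
    · obtain ⟨q1, q2⟩ := mem_filter.1 hq
      obtain ⟨z, z1, z2⟩ := (hN q).1 q1
      exact ⟨z, mem_filter.2 ⟨(hN z).2 ⟨q, z1.symm, inv_eq hm.1 z2⟩, (en_pe' hm z1 z2 q2).2.1⟩, z2⟩
    · rintro z - q ⟨-, hq⟩ q' ⟨-, hq'⟩
      exact Sum.inl_injective (Sum.inr_injective ((inv_eq hm.1 hq).symm.trans (inv_eq hm.1 hq')))
  have s2 : Q1.card + Z1.card ≤ N.card := by
    rw [← card_union_of_disjoint]
    · exact card_le_card (union_subset (filter_subset _ _) (filter_subset _ _))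
    · exact disjoint_left.2 fun v h1 h2 => (mem_filter.1 h2).2 (mem_filter.1 h1).2.2
  have s3 : S.A ⊆ UA ∪ Ca := fun j hj => by
    by_cases h : ν (ag j) = ag j
    · exact mem_union_left _ (mem_filter.2 ⟨hj, h⟩)
    · exact mem_union_right _ ((hCa j).2 h)
  have s4 := card_le_card s3
  have s5 := card_union_le UA Ca
  have s6 : (ag2 Hh).card = Hh.card := card_image_of_injOn fun s hs s' hs' h => by
    by_contra hne
    exact (hp.2 s hs s' hs' hne).1 h
  have s7 : UA.card + (ag2 Hh).card ≤ ((S.A ∪ ag2 Hh).filter fun j => ν (ag j) = ag j).card := by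
    rw [← card_union_of_disjoint]
    · refine card_le_card fun j hj => ?_
      rcases mem_union.1 hj with h | h
      · exact mem_filter.2 ⟨mem_union_left _ (mem_filter.1 h).1, (mem_filter.1 h).2⟩
      · obtain ⟨s, hs, rfl⟩ := mem_image.1 h
        exact mem_filter.2 ⟨mem_union_right _ h, out_fixed hm (hp.1 s hs).1⟩
    · refine disjoint_left.2 fun j h1 h2 => ?_
      obtain ⟨s, hs, rfl⟩ := mem_image.1 h2
      exact (hp.1 s hs).1 (mem_filter.1 h1).1
  have s8 : (univ.filter fun q => ∃ z, PEd P e ρ ν Hh q z) ⊆ Q1 ∪ Hh.image fun s => s.2.1 := by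
    intro q hq
    obtain ⟨z, ⟨h1, h2, h3⟩ | ⟨s, hs, h⟩⟩ := (mem_filter.1 hq).2
    · exact mem_union_left _ (mem_filter.2 ⟨(hN q).2 ⟨z, h2, h3⟩, h1⟩)
    · exact mem_union_right _ (mem_image.2 ⟨s, hs, by rw [h]⟩)
  have s9 := card_le_card s8
  have s10 := card_union_le Q1 (Hh.image fun s => s.2.1)
  have s11 : (Hh.image fun s => s.2.1).card ≤ Hh.card := card_image_le
  omega

/-- One owned edge for each uncovered agent; then every edge is owned. -/
theorem own_norm (hP : PeStmt) (hm : IsM (P.En S e ρ X Y) ν) (hp : P.HelpOk S e ρ Y Hh)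
    (sz : cov ν = 2 * S.A.card) (D : J → V → V → Prop)
    (h1 : ∀ j j' q z z', own j q z → own j' q z' → j = j')
    (h2 : ∀ j, (j ∈ ag2 Hh ∨ (j ∈ S.A ∧ ν (ag j) = ag j)) → ∃ q z, own j q z ∧
      PEd P e ρ ν Hh q z ∧ D j q z) :
    ∃ ow : J → V → V → Prop, (∀ j j' q z z', ow j q z → ow j' q z' → j = j') ∧
      (∀ j q z q' z', ow j q z → ow j q' z' → q = q' ∧ z = z') ∧
      (∀ j ∈ S.A ∪ ag2 Hh, ν (ag j) = ag j → ∃ q z, ow j q z ∧ PEd P e ρ ν Hh q z ∧ D j q z) ∧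
      ∀ q z, PEd P e ρ ν Hh q z → ∃ j ∈ S.A ∪ ag2 Hh, ν (ag j) = ag j ∧ ow j q z := by
  set Un := (S.A ∪ ag2 Hh).filter fun j => ν (ag j) = ag j with hUn
  have h3 : ∀ j ∈ Un, ∃ q z, own j q z ∧ PEd P e ρ ν Hh q z ∧ D j q z := fun j hj =>
    h2 j ((mem_union.1 (mem_filter.1 hj).1).symm.imp id fun t => ⟨t, (mem_filter.1 hj).2⟩)
  choose qf zf hf using h3
  refine ⟨fun j q z => ∃ h : j ∈ Un, qf j h = q ∧ zf j h = z, ?_, ?_, fun j hj hu => ?_,
    fun q z h => ?_⟩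
  · rintro j j' q z z' ⟨a, rfl, -⟩ ⟨b, c, -⟩
    exact h1 j j' _ _ _ (hf j a).1 (c ▸ (hf j' b).1)
  · rintro j q z q' z' ⟨a, rfl, rfl⟩ ⟨b, c, d⟩
    exact ⟨c, d⟩
  · have a : j ∈ Un := mem_filter.2 ⟨hj, hu⟩
    exact ⟨_, _, ⟨a, rfl, rfl⟩, (hf j a).2⟩
  · obtain ⟨j, a, b⟩ := surj_on_of_inj_on_of_card_le
      (t := univ.filter fun q => ∃ z, PEd P e ρ ν Hh q z) qf
      (fun j a => mem_filter.2 ⟨mem_univ _, _, (hf j a).2.1⟩)
      (fun j j' a b c => h1 j j' _ _ _ (hf j a).1 (c ▸ (hf j' b).1)) (ped_card hP hm hp sz) q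
      (mem_filter.2 ⟨mem_univ _, z, h⟩)
    exact ⟨j, (mem_filter.1 a).1, (mem_filter.1 a).2, a, b.symm,
      ped_fun hm hp (hf j a).2.1 (b ▸ h)⟩

/-! ### Fills -/

/-- The fill `F` completes a service of `j`. -/
def Gd (P : G3 J V K) (S : Sub J V) (e : ℕ) (ρ : Finset V) (Y : Px V) (B : Finset J)
    (g : J → Sv V) (μ ν : Nd J V → Nd J V) (Hh : Finset (J × V × V)) (own : J → V → V → Prop)
    (Jt : Finset J) (j : J) (F : Finset V) : Prop :=
  ∃ b : Finset V, (∀ v ∈ b, Zn P e ρ B g μ ν Hh own j v) ∧ P.Serv3 S j (b ∪ F) ∧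
    (b ∪ F).card ≤ 2 + (if j ∈ Jt then 1 else 0) ∧
    (∀ v, ν (ag j) = vx v → v ∈ b ∧ (S.lst j v → b ∪ F = {v})) ∧
    (ν (ag j) = ag j → ∀ q z, own j q z → z ∈ b ∧ (q ∈ b ∨
      (S.geo j ∧ ¬ P.mu j ∧ ∃ r, b ∪ F = {r, z} ∧ P.Pr j r z ∧ ¬ Y.nf r)))

variable {Jt : Finset J}

theorem serv_mono {j : J} {s t : Finset V} (h : P.Serv2 S j s) (hst : s ⊆ t) : P.Serv3 S j t := by
  rcases h with ⟨v, hv, h⟩ | ⟨hg, a, ha, b, hb, h⟩
  · exact Or.inl (Or.inl ⟨v, hst hv, h⟩)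
  · exact Or.inl (Or.inr ⟨hg, a, hst ha, b, hst hb, h⟩)

theorem gd_intact (cx : P.Ctx S e ρ Y B g μ) {j : J} (hj : Intact B g μ ν j) :
    Gd P S e ρ Y B g μ ν Hh own Jt j ∅ := by
  refine ⟨(g j).its, fun v hv => Or.inr (Or.inl ⟨hj, hv⟩), ?_, ?_, fun v h1 => ?_,
    fun h => absurd (hj.2.2.2.1.symm.trans h) hj.2.2.1⟩
  · obtain ⟨a, b, h⟩ := hj.2.1
    have hn := cx.st.nrm j hj.1
    rw [h] at hn ⊢
    have k := G3.nrm_two hn
    exact Or.inl (Or.inr ⟨k.1, a, by simp [Sv.its], b, by simp [Sv.its], k.2.1⟩)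
  · have := its_card_two hj.2.1
    rw [union_empty]
    omega
  · have k := old_key cx (hj.2.2.2.1.symm.trans h1) hj.2.1
    exact ⟨k.1, fun t => absurd t k.2⟩

/-- A key `x` together with a partner `y`. -/
theorem gd_pair (hw : P.Wf S) {j : J} {x y : V} (hg : S.geo j) (hx : ν (ag j) = vx x)
    (h : P.Ok j x y) (hl : ¬ S.lst j x) : Gd P S e ρ Y B g μ ν Hh own Jt j {y} := by
  refine ⟨{x}, fun v hv => mem_singleton.1 hv ▸ Or.inl hx, ?_, ?_, fun v h1 => ?_, fun h1 => ?_⟩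
  · exact serv_mono (G3.serv_of_Ok hw hg h) fun v hv => by simpa using hv
  · have := card_union_le ({x} : Finset V) {y}
    simp only [card_singleton] at this
    omega
  · have : v = x := Sum.inl_injective (Sum.inr_injective (h1.symm.trans hx))
    subst this
    exact ⟨mem_singleton_self _, fun t => absurd t hl⟩
  · rw [hx] at h1
    simp at h1

theorem pick {p : V → Prop} {U : Finset V} (h : e < (ρ.filter p).card) (hU : U.card ≤ e) :
    ∃ r ∈ ρ, r ∉ U ∧ p r := by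
  obtain ⟨r, hr, hn⟩ := Geo.exists_not_mem (s := ρ.filter p) (U := U) (by omega)
  exact ⟨r, (mem_filter.1 hr).1, hn, (mem_filter.1 hr).2⟩

/-- Every agent that is not a request is served by its zone or is an exceptional demand. -/
theorem demand (hI : ImgS) (cx : P.Ctx S e ρ Y B g μ) (hm : IsM (P.En S e ρ (axAll J V) Y) ν)
    (hp : P.HelpOk S e ρ Y Hh) (cv : P.Cov S e ρ (axAll J V) ν) (hρ : ∀ r ∈ ρ, ¬ Y.nf r)
    {Dm : Finset J} (hf : ∀ j q z q' z', own j q z → own j q' z' → q = q' ∧ z = z')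
    (ho : ∀ j ∈ S.A ∪ ag2 Hh, ν (ag j) = ag j → ∃ q z, own j q z ∧
      PEd P e ρ ν Hh q z ∧ (j ∉ Dm → P.Ok j q z) ∧ (j ∉ Jt → P.Ok j q z ∨ ¬ P.junk j z))
    {j : J} (hj : j ∈ S.A ∪ ag2 Hh) (hr : j ∉ Req S μ ν) :
    Gd P S e ρ Y B g μ ν Hh own Jt j ∅ ∨ (j ∈ XE B g μ ν ∪ Dm ∧ ∀ U : Finset V, U.card ≤ e →
      ∃ F, Disjoint F U ∧ F.card ≤ 2 ∧ F ⊆ ρ ∧ Gd P S e ρ Y B g μ ν Hh own Jt j F) := by
  rcases (G3.En_shape hm).1 j with h | ⟨x, h⟩ | h
  · have hl : ∀ {c : V → Prop} (v : V), ν (ag j) = vx v → c v := fun v hv => by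
      rw [h] at hv
      simp at hv
    have hrig : P.rigid S e ρ j := by
      rcases mem_union.1 hj with hA | hA
      · by_contra hn
        exact cv j hA (Or.inl hn) h
      · obtain ⟨s, hs, rfl⟩ := mem_image.1 hA
        exact (hp.1 s hs).2.1
    obtain ⟨q, z, h1, h2, h3, h4⟩ := ho j hj h
    have hpe := ped_pe hm hp h2
    have zq : Zn P e ρ B g μ ν Hh own j q := Or.inr (Or.inr ⟨q, z, h1, h2, Or.inl rfl⟩)
    have zz : Zn P e ρ B g μ ν Hh own j z := Or.inr (Or.inr ⟨q, z, h1, h2, Or.inr rfl⟩)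
    have zb : ∀ v ∈ ({q, z} : Finset V), Zn P e ρ B g μ ν Hh own j v := fun v hv => by
      rcases mem_insert.1 hv with rfl | hv
      · exact zq
      · exact mem_singleton.1 hv ▸ zz
    have zo : ∀ {c : V → V → Prop} (q' z' : V), own j q' z' →
        z' ∈ ({q, z} : Finset V) ∧ (q' ∈ ({q, z} : Finset V) ∨ c q' z') := fun q' z' t => by
      obtain ⟨rfl, rfl⟩ := hf j q z q' z' h1 t
      exact ⟨by simp, Or.inl (by simp)⟩
    obtain ⟨hg, hs, o, ho'⟩ := hrig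
    by_cases hok : P.Ok j q z
    · refine Or.inl ⟨{q, z}, zb, serv_mono (G3.serv_of_Ok cx.wf hg hok) subset_union_left, ?_,
        hl, fun _ => zo⟩
      have := card_le_two (a := q) (b := z)
      rw [union_empty]
      omega
    refine Or.inr ⟨mem_union_right _ (by by_contra hn; exact hok (h3 hn)), fun U hU => ?_⟩
    rcases G3.pe_cases cx.fr hs ho' hpe with k | k | k
    · exact absurd k hok
    · have hJ : j ∈ Jt := by
        by_contra hn
        exact ((h4 hn).resolve_left hok) k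
      obtain ⟨r, r1, r2, r3⟩ := pick (G3.triple_many cx.fr hs ho' hpe.1 k hpe.2.1 hpe.2.2.1) hU
      refine ⟨{r}, disjoint_singleton_left.2 r2, by simp, singleton_subset_iff.2 r1, {q, z}, zb,
        Or.inr ⟨hg, q, by simp, z, by simp, r, by simp, r3⟩, ?_, hl, fun _ => zo⟩
      have c1 := card_le_two (a := q) (b := z)
      have c2 := card_union_le ({q, z} : Finset V) {r}
      rw [card_singleton] at c2
      rw [if_pos hJ]
      omega
    · obtain ⟨r, r1, r2, r3⟩ := pick (G3.key_many cx.fr hs ho' k hpe.2.1) hU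
      refine ⟨{r}, disjoint_singleton_left.2 r2, by simp, singleton_subset_iff.2 r1, {z},
        fun v hv => mem_singleton.1 hv ▸ zz,
        Or.inl (Or.inr ⟨hg, z, by simp, r, by simp, r3⟩), ?_, hl, fun _ q' z' t => ?_⟩
      · have := card_union_le ({z} : Finset V) {r}
        simp only [card_singleton] at this
        omega
      · obtain ⟨rfl, rfl⟩ := hf j q z q' z' h1 t
        refine ⟨by simp, Or.inr ⟨hg, hs, r, ?_, G3.Pr_symm r3, hρ r r1⟩⟩
        ext v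
        simp only [mem_union, mem_singleton, mem_insert]
        tauto
  · have k := en_key hm h
    have inj : ∀ v, ν (ag j) = vx v → v = x := fun v hv =>
      Sum.inl_injective (Sum.inr_injective (hv.symm.trans h))
    by_cases hx : S.lst j x
    · refine Or.inl ⟨{x}, fun v hv => mem_singleton.1 hv ▸ Or.inl h,
        Or.inl (Or.inl ⟨x, by simp, hx⟩), ?_, fun v hv => ?_, fun t => ?_⟩
      · rw [union_empty, card_singleton]
        omega
      · rw [inj v hv, union_empty]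
        exact ⟨mem_singleton_self _, fun _ => rfl⟩
      · rw [h] at t
        simp at t
    have hl : ∀ v, ν (ag j) = vx v → ¬ S.lst j v := fun v hv => inj v hv ▸ hx
    by_cases hin : Intact B g μ ν j
    · exact Or.inl (gd_intact cx hin)
    have hk : μ (ag j) = vx x := by
      by_contra hn
      exact hr (mem_req.2 ⟨k.1, x, h, hx, hn⟩)
    obtain ⟨hg, hh⟩ := key_part cx.wf cx.fr hm h hx
    refine Or.inr ⟨mem_union_left _ (kept_XE hI cx (by rw [h]; simp) (h.trans hk.symm) hl hin),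
      fun U hU => ?_⟩
    obtain ⟨r, r1, r2, r3⟩ := pick hh hU
    exact ⟨{r}, disjoint_singleton_left.2 r2, by simp, singleton_subset_iff.2 r1,
      gd_pair cx.wf hg h (Or.inr (Or.inr r3)) hx⟩
  · have k := en_dm hm h
    have hl : ∀ {c : V → Prop} (v : V), ν (ag j) = vx v → c v := fun v hv => by
      rw [h] at hv
      simp at hv
    by_cases hin : Intact B g μ ν j
    · exact Or.inl (gd_intact cx hin)
    refine Or.inr ⟨mem_union_left _ ?_, fun U hU => ?_⟩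
    · by_cases hk : ν (ag j) = μ (ag j)
      · exact kept_XE hI cx (by rw [h]; simp) hk hl hin
      · exact newdm_XE hI cx hm.1 h hk
    · obtain ⟨a, ha, b, hb, aU, bU, hok⟩ := G3.flex_serv cx.fr k.2.2 hU
      refine ⟨{a, b}, ?_, card_le_two, ?_, ∅, by simp,
        serv_mono (G3.serv_of_Ok cx.wf k.2.1 hok) subset_union_right, ?_, hl, fun t => ?_⟩
      · simp [disjoint_left, aU, bU]
      · intro v hv
        rcases mem_insert.1 hv with rfl | hv
        · exact ha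
        · exact mem_singleton.1 hv ▸ hb
      · have := card_le_two (a := a) (b := b)
        rw [empty_union]
        omega
      · rw [h] at t
        simp at t

/-- Fillers for the requests. -/
theorem fill_req (hI : ImgS) (hH : HallStmt) (hP : PeStmt) (cx : P.Ctx S e ρ Y B g μ)
    (hm : IsM (P.En S e ρ X Y) ν) (sz : cov ν = 2 * S.A.card) {a1 a2 nE n nr : ℕ}
    (hA : P.RectA S Y B g μ ν a1 a2) (hρ : ∀ r ∈ ρ, ¬ Y.nf r)
    (hw : (ρ.filter fun r => r ∉ S.W ∨ r ∈ itsB B g).card ≤ nr)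
    (en : (ends μ ν).card ≤ nE) (U : Finset V) (hU : U.card ≤ n) (c1 : nr + nE + n + a1 ≤ e)
    (c2 : 2 * S.A.card + n + a2 + nE + unf S.W Y.nf ν ≤ cw S ν + S.W.card) :
    ∃ y : J → Option V, (∀ j ∈ Req S μ ν,
      ∃ v ∈ ((PoolS S B g μ ν).filter fun v => ¬ Y.nf v) \ U, y j = some v ∧
      ∃ x, ν (ag j) = vx x ∧ P.Ok j x v) ∧
      ∀ i ∈ Req S μ ν, ∀ j ∈ Req S μ ν, y i = y j → i = j := by
  obtain ⟨s', y, h1, h2, h3, h4⟩ := hH J V (Req S μ ν)
    (((PoolS S B g μ ν).filter fun v => ¬ Y.nf v) \ U)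
    (fun j v => ∃ x, ν (ag j) = vx x ∧ P.Ok j x v) 0 (by
      intro R hR
      have key : ∀ N : Finset V, (∀ v, v ∈ PoolS S B g μ ν → ¬ Y.nf v → v ∉ U →
          (∃ j ∈ R, ∃ x, ν (ag j) = vx x ∧ P.Ok j x v) → v ∈ N) → R.card ≤ N.card := by
        intro N hN
        rcases R.eq_empty_or_nonempty with rfl | ⟨j, hj⟩
        · simp
        by_cases hc : R.card < a1
        · obtain ⟨-, x, hx, hl, -⟩ := mem_req.1 (hR hj)
          have k1 := (key_part cx.wf cx.fr hm hx hl).2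
          have k2 : (ρ.filter fun r => P.Pr j x r) ⊆ N ∪ U ∪ (ρ \ PoolS S B g μ ν) := by
            intro r hr
            rw [mem_filter] at hr
            by_cases p1 : r ∈ PoolS S B g μ ν
            · by_cases p2 : r ∈ U
              · exact mem_union_left _ (mem_union_right _ p2)
              · exact mem_union_left _ (mem_union_left _ (hN r p1 (hρ r hr.1) p2
                  ⟨j, hj, x, hx, Or.inr (Or.inr hr.2)⟩))
            · exact mem_union_right _ (mem_sdiff.2 ⟨hr.1, p1⟩)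
          have k3 := card_le_card k2
          have k4 := card_union_le (N ∪ U) (ρ \ PoolS S B g μ ν)
          have k5 := card_union_le N U
          have k6 := frame_pool (ν := ν) hI cx
          omega
        · set T := (PoolS S B g μ ν).filter fun v => (μ (vx v) = vx v ∧ ¬ Y.nf v) ∧
            ∀ j ∈ R, ∀ x, ν (ag j) = vx x → ¬ P.Ok j x v with hT
          have k1 : T.card < a2 := by
            refine (hA R hR T (filter_subset _ _) (fun v hv => (mem_filter.1 hv).2.1)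
              fun j hj x hx v hv => (mem_filter.1 hv).2.2 j hj x hx).resolve_left hc
          set E := (PoolS S B g μ ν).filter fun v => IsEnd μ ν (vx v) with hE
          have k2 : E.card ≤ (ends μ ν).card :=
            card_end_items μ ν E fun v hv => (mem_filter.1 hv).2
          obtain ⟨Z, hZ, cZ⟩ : ∃ Z : Finset V, (∀ v ∈ S.W, Y.nf v → ν (vx v) = vx v → v ∈ Z) ∧
              unf S.W Y.nf ν = Z.card :=
            ⟨S.W.filter fun v => Y.nf v ∧ ν (vx v) = vx v,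
              fun v a b c => mem_filter.2 ⟨a, b, c⟩, by unfold unf; congr⟩
          have k3 : PoolS S B g μ ν ⊆ N ∪ U ∪ T ∪ E ∪ Z := by
            intro v hv
            simp only [mem_union, hT, hE, mem_filter]
            by_cases p0 : Y.nf v
            · exact Or.inr (hZ v (mem_pool.1 hv).1 p0 (mem_pool.1 hv).2.1)
            refine Or.inl ?_
            by_cases p1 : μ (vx v) = vx v
            · by_cases p2 : v ∈ U
              · exact Or.inl (Or.inl (Or.inr p2))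
              by_cases p3 : ∃ j ∈ R, ∃ x, ν (ag j) = vx x ∧ P.Ok j x v
              · exact Or.inl (Or.inl (Or.inl (hN v hv p0 p2 p3)))
              · exact Or.inl (Or.inr ⟨hv, ⟨p1, p0⟩,
                  fun j hj x hx hok => p3 ⟨j, hj, x, hx, hok⟩⟩)
            · exact Or.inr ⟨hv, Or.inr ⟨p1, (mem_pool.1 hv).2.1⟩⟩
          have k4 := card_le_card k3
          have k0 := card_union_le (N ∪ U ∪ T ∪ E) Z
          have k5 := card_union_le (N ∪ U ∪ T) E
          have k6 := card_union_le (N ∪ U) T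
          have k7 := card_union_le N U
          have k8 := pool_card hP cx hm sz
          have k9 := card_le_card hR
          omega
      exact key _ fun v h0 h1 h2 h3 => by
        simp only [mem_filter, mem_sdiff]
        exact ⟨⟨⟨h0, h1⟩, h2⟩, h3⟩)
  have : s' = Req S μ ν := eq_of_subset_of_card_le h1 (by omega)
  subst this
  exact ⟨y, h3, h4⟩

/-- An uncovered reserved item of `W` is not of the class `nf`. -/
theorem zn_nf (hI : ImgS) (cx : P.Ctx S e ρ Y B g μ) (hm : IsM (P.En S e ρ X Y) ν)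
    (hp : P.HelpOk S e ρ Y Hh) (hh : ∀ j ∈ B, ∀ v ∈ (g j).its, μ (vx v) = vx v → ¬ Y.nf v)
    {j : J} {v : V} (h : Zn P e ρ B g μ ν Hh own j v) (hw : v ∈ S.W) (hv : ν (vx v) = vx v) :
    ¬ Y.nf v := by
  rcases zn_kind cx hm hp h with h | ⟨-, -, h1, h2⟩ | ⟨-, ⟨u, hu, h⟩, -⟩ | h
  · rw [hv] at h
    simp at h
  · refine hh j h1.1 v h2 (hidden_fixed hI cx h1.1 h1.2.2.1 h2 fun t => ?_)
    have := inv_eq hm.1 (h1.2.2.2.1.trans t)
    rw [hv] at this
    simp at this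
  · rw [hv] at h
    exact absurd (Sum.inl_injective (Sum.inr_injective h)).symm hu
  · exact absurd hw h.1

/-- A covered item or an item of a helper is a key or an end of a pair edge. -/
theorem used_cases (hm : IsM (P.En S e ρ X Y) ν) {v : V} (h : ν (vx v) ≠ vx v ∨ v ∈ it2 Hh) :
    (∃ j ∈ S.A, ν (ag j) = vx v) ∨ ∃ q z, PEd P e ρ ν Hh q z ∧ (v = q ∨ v = z) := by
  rcases h with h | h
  · rcases item_cases hm h with ⟨j, hj⟩ | ⟨u, hu, k⟩
    · exact Or.inl ⟨j, (en_key hm hj).1, hj⟩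
    · rcases (en_pe hm hu k).2.2 with t | t
      · exact Or.inr ⟨v, u, Or.inl ⟨t.1, hu, k⟩, Or.inl rfl⟩
      · exact Or.inr ⟨u, v, Or.inl ⟨t.1, hu.symm, inv_eq hm.1 k⟩, Or.inr rfl⟩
  · obtain ⟨s, hs, hv⟩ := mem_biUnion.1 h
    exact Or.inr ⟨s.2.1, s.2.2, Or.inr ⟨s, hs, rfl⟩, by simpa using hv⟩

/-- Gluing zones and fills. -/
theorem glue (hI : ImgS) (cx : P.Ctx S e ρ Y B g μ) (hm : IsM (P.En S e ρ (axAll J V) Y) ν)
    (hp : P.HelpOk S e ρ Y Hh) (hh : ∀ j ∈ B, ∀ v ∈ (g j).its, μ (vx v) = vx v → ¬ Y.nf v)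
    (ho : ∀ j j' q z z', own j q z → own j' q z' → j = j')
    (hs : ∀ q z, PEd P e ρ ν Hh q z → ∃ j ∈ S.A ∪ ag2 Hh, ν (ag j) = ag j ∧ own j q z)
    (F : J → Finset V)
    (h1 : ∀ j ∈ S.A ∪ ag2 Hh, F j ⊆ PoolS S B g μ ν ∧ (∀ v ∈ F j, ¬ Y.nf v) ∧
      Gd P S e ρ Y B g μ ν Hh own Jt j (F j))
    (h2 : ∀ i ∈ S.A ∪ ag2 Hh, ∀ j ∈ S.A ∪ ag2 Hh, i ≠ j → Disjoint (F i) (F j)) :
    ∃ f, St (S.add (ag2 Hh) (it2 Hh)) (P.Serv3 S) (S.A ∪ ag2 Hh) f ∧
      use (S.A ∪ ag2 Hh) f + cw S ν ≤ 2 * (S.A.card + Hh.card) + Jt.card ∧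
      (frn (S.W ∪ it2 Hh) Y.nf (S.A ∪ ag2 Hh) f = unf S.W Y.nf ν ∨
        P.Exc S Y (S.A ∪ ag2 Hh) f) := by
  have hb : ∀ j, ∃ b : Finset V, j ∈ S.A ∪ ag2 Hh →
      (∀ v ∈ b, Zn P e ρ B g μ ν Hh own j v) ∧ P.Serv3 S j (b ∪ F j) ∧
      (b ∪ F j).card ≤ 2 + (if j ∈ Jt then 1 else 0) ∧
      (∀ v, ν (ag j) = vx v → v ∈ b ∧ (S.lst j v → b ∪ F j = {v})) ∧
      (ν (ag j) = ag j → ∀ q z, own j q z → z ∈ b ∧ (q ∈ b ∨
        (S.geo j ∧ ¬ P.mu j ∧ ∃ r, b ∪ F j = {r, z} ∧ P.Pr j r z ∧ ¬ Y.nf r))) := fun j => by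
    by_cases hj : j ∈ S.A ∪ ag2 Hh
    · obtain ⟨b, hb⟩ := (h1 j hj).2.2
      exact ⟨b, fun _ => hb⟩
    · exact ⟨∅, fun h => absurd h hj⟩
  choose b hb using hb
  refine ⟨fun j => b j ∪ F j, ⟨subset_rfl, fun j hj => ?_, fun j hj => (hb j hj).2.1,
    fun i hi j hj hij => ?_, fun v _ hq => absurd hq (cx.wf.2 v)⟩, ?_, ?_⟩
  · refine union_subset (fun v hv => zn_in cx hm hp ((hb j hj).1 v hv)) fun v hv => ?_
    exact mem_union_left _ (mem_pool.1 ((h1 j hj).1 hv)).1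
  · refine disjoint_left.2 fun v p1 p2 => ?_
    rcases mem_union.1 p1 with p1 | p1 <;> rcases mem_union.1 p2 with p2 | p2
    · exact hij (zn_unique cx hm hp ho ((hb i hi).1 v p1) ((hb j hj).1 v p2))
    · exact zn_pool cx hm hp ((hb i hi).1 v p1) ((h1 j hj).1 p2)
    · exact zn_pool cx hm hp ((hb j hj).1 v p2) ((h1 i hi).1 p1)
    · exact disjoint_left.1 (h2 i hi j hj hij) p1 p2
  · obtain ⟨L, hL, cL⟩ := cw_set S ν
    have s1 : ∀ j ∈ S.A ∪ ag2 Hh, (b j ∪ F j).card + (if j ∈ L then 1 else 0) ≤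
        2 + (if j ∈ Jt then 1 else 0) := fun j hj => by
      by_cases p : j ∈ L
      · obtain ⟨v, p1, p2⟩ := (hL j).1 p
        rw [((hb j hj).2.2.2.1 v p1).2 p2, if_pos p, card_singleton]
        omega
      · rw [if_neg p]
        exact (hb j hj).2.2.1
    have s2 := sum_le_sum s1
    rw [sum_add_distrib, sum_add_distrib, sum_const, sum_boole, sum_boole, smul_eq_mul] at s2
    have s3 : L.card ≤ ((S.A ∪ ag2 Hh).filter fun j => j ∈ L).card :=
      card_le_card fun j hj => by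
        obtain ⟨v, p1, -⟩ := (hL j).1 hj
        exact mem_filter.2 ⟨mem_union_left _ (en_key hm p1).1, hj⟩
    have s4 : ((S.A ∪ ag2 Hh).filter fun j => j ∈ Jt).card ≤ Jt.card :=
      card_le_card fun j hj => (mem_filter.1 hj).2
    have s5 := card_union_le S.A (ag2 Hh)
    have s6 : (ag2 Hh).card ≤ Hh.card := card_image_le
    simp only [Nat.cast_id] at s2
    show (∑ j ∈ S.A ∪ ag2 Hh, (b j ∪ F j).card) + cw S ν ≤ _
    omega
  · by_cases hx : P.Exc S Y (S.A ∪ ag2 Hh) fun j => b j ∪ F j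
    · exact Or.inr hx
    refine Or.inl ?_
    have used : ∀ v, Y.nf v → (ν (vx v) ≠ vx v ∨ v ∈ it2 Hh) →
        ∃ j ∈ S.A ∪ ag2 Hh, v ∈ b j ∪ F j := fun v hv h => by
      rcases used_cases hm h with ⟨j, hj, k⟩ | ⟨q, z, k, kv⟩
      · exact ⟨j, mem_union_left _ hj,
          mem_union_left _ ((hb j (mem_union_left _ hj)).2.2.2.1 v k).1⟩
      · obtain ⟨j, hj, j1, j2⟩ := hs q z k
        obtain ⟨t1, t2⟩ := (hb j hj).2.2.2.2 j1 q z j2
        rcases kv with rfl | rfl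
        · rcases t2 with t2 | ⟨hg, hu, r, r1, r2, r3⟩
          · exact ⟨j, hj, mem_union_left _ t2⟩
          · exact absurd ⟨(ped_pe hm hp k).2.2.2.resolve_right fun t => t.1 hv,
              j, hj, hg, hu, r, z, r1, r2, r3⟩ hx
        · exact ⟨j, hj, mem_union_left _ t1⟩
    unfold frn unf
    congr 1
    ext v
    simp only [mem_filter]
    constructor
    · rintro ⟨p1, p2, p3⟩
      have n : ¬ (ν (vx v) ≠ vx v ∨ v ∈ it2 Hh) := fun h => by
        obtain ⟨j, hj, k⟩ := used v p2 h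
        exact p3 j hj k
      rw [not_or, not_not] at n
      exact ⟨(mem_union.1 p1).resolve_right n.2, p2, n.1⟩
    · rintro ⟨p1, p2, p3⟩
      refine ⟨mem_union_left _ p1, p2, fun j hj k => ?_⟩
      rcases mem_union.1 k with k | k
      · exact zn_nf hI cx hm hp hh ((hb j hj).1 v k) p1 p3 p2
      · exact (h1 j hj).2.1 v k p2

theorem main (hI : ImgS) (hO : OwnS) (hH : HallStmt) (hP : PeStmt) : RealS := by
  intro J V K _ _ _ _ _ _ P S e ρ Y B g μ ν Hh Hi nE a1 a2 a3 nH δ nr hR hA hρ hh hw hn c1 c2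
  obtain ⟨own0, Dm, Jt, cD, -, cJ, hq1, hq2⟩ := hO J V K P S e ρ Y B g μ ν Hh Hi nE a3 δ hR
  obtain ⟨own, ho1, ho0, ho2, ho3⟩ := own_norm hP hR.m hR.hp hR.sz
    (fun j q z => (j ∉ Dm → P.Ok j q z) ∧ (j ∉ Jt → P.Ok j q z ∨ ¬ P.junk j z)) hq1 hq2
  have cx := hR.cx
  have en := hR.en
  set X := (S.A ∪ ag2 Hh).filter fun j => j ∉ Req S μ ν ∧
    ¬ Gd P S e ρ Y B g μ ν Hh own Jt j ∅ with hX
  have dem : ∀ j ∈ X, j ∈ XE B g μ ν ∪ Dm ∧ ∀ U : Finset V, U.card ≤ e →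
      ∃ F, Disjoint F U ∧ F.card ≤ 2 ∧ F ⊆ ρ ∧ Gd P S e ρ Y B g μ ν Hh own Jt j F :=
    fun j hj => by
      obtain ⟨p1, p2, p3⟩ := mem_filter.1 hj
      exact (demand hI cx hR.m hR.hp hR.cv hρ ho0 ho2 p1 p2).resolve_left p3
  have cX : X.card ≤ 2 * nE + a3 + 1 + nH := by
    have k1 : X.card ≤ (XE B g μ ν ∪ Dm).card := card_le_card fun j hj => (dem j hj).1
    have k2 := card_union_le (XE B g μ ν) Dm
    have k3 := XE_card (ν := ν) cx
    omega
  have cU := frame_pool (ν := ν) hI cx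
  obtain ⟨fl, f1, f2⟩ := greedy (fun j F => F ⊆ ρ ∧ Gd P S e ρ Y B g μ ν Hh own Jt j F) e
    (ρ \ PoolS S B g μ ν) X (by omega) fun j hj => (dem j hj).2
  have cF : (X.biUnion fl).card ≤ 2 * (2 * nE + a3 + 1 + nH) := by
    have := card_biUnion_le_card_mul X fl 2 fun j hj => (f1 j hj).2.1
    omega
  obtain ⟨y, y1, y2⟩ := fill_req hI hH hP cx hR.m hR.sz hA hρ hw en (X.biUnion fl) cF c1 c2
  have flP : ∀ j ∈ X, fl j ⊆ PoolS S B g μ ν := fun j hj v hv => by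
    by_contra hn
    exact disjoint_left.1 (f1 j hj).1 hv (mem_sdiff.2 ⟨(f1 j hj).2.2.1 hv, hn⟩)
  have mix : ∀ i ∈ Req S μ ν, ∀ j ∈ X, Disjoint (y i).toFinset (fl j) := fun i hi j hj => by
    obtain ⟨v, hv, p, -⟩ := y1 i hi
    rw [p, Option.toFinset_some, disjoint_singleton_left]
    exact fun h => (mem_sdiff.1 hv).2 (mem_biUnion.2 ⟨j, hj, h⟩)
  obtain ⟨f, g1, g2, g3⟩ := glue (Jt := Jt) hI cx hR.m hR.hp hh ho1 ho3
    (fun j => if j ∈ Req S μ ν then (y j).toFinset else if j ∈ X then fl j else ∅)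
    (fun j hj => by
      by_cases p1 : j ∈ Req S μ ν
      · obtain ⟨v, hv, p, x, hx, hok⟩ := y1 j p1
        obtain ⟨-, x', hx', hl, -⟩ := mem_req.1 p1
        have inj : x = x' := Sum.inl_injective (Sum.inr_injective (hx.symm.trans hx'))
        subst inj
        have hv' := mem_filter.1 (mem_sdiff.1 hv).1
        simp only [if_pos p1, p, Option.toFinset_some]
        exact ⟨singleton_subset_iff.2 hv'.1, fun u hu => mem_singleton.1 hu ▸ hv'.2,
          gd_pair cx.wf (key_part cx.wf cx.fr hR.m hx hl).1 hx hok hl⟩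
      by_cases p2 : j ∈ X
      · simp only [if_neg p1, if_pos p2]
        exact ⟨flP j p2, fun v hv => hρ v ((f1 j p2).2.2.1 hv), (f1 j p2).2.2.2⟩
      · simp only [if_neg p1, if_neg p2]
        refine ⟨empty_subset _, by simp, ?_⟩
        by_contra hn
        exact p2 (mem_filter.2 ⟨hj, p1, hn⟩))
    (fun i _ j _ hij => by
      by_cases p1 : i ∈ Req S μ ν <;> by_cases q1 : j ∈ Req S μ ν
      · obtain ⟨v, -, p, -⟩ := y1 i p1
        obtain ⟨u, -, q, -⟩ := y1 j q1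
        simp only [if_pos p1, if_pos q1, p, q, Option.toFinset_some, disjoint_singleton]
        exact fun h => hij (y2 i p1 j q1 (by rw [p, q, h]))
      · simp only [if_pos p1, if_neg q1]
        split_ifs with q2
        · exact mix i p1 j q2
        · exact disjoint_empty_right _
      · simp only [if_neg p1, if_pos q1]
        split_ifs with p2
        · exact (mix j q1 i p2).symm
        · exact disjoint_empty_left _
      · simp only [if_neg p1, if_neg q1]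
        split_ifs with p2 q2 q2
        · exact f2 i p2 j q2 hij
        · exact disjoint_empty_right _
        · exact disjoint_empty_left _
        · exact disjoint_empty_left _)
  exact ⟨f, g1, by omega, g3⟩

end EReal

theorem realS (hI : ImgS) (hO : OwnS) (hH : HallStmt) (hP : PeStmt) : RealS :=
  EReal.main hI hO hH hP

end Pool.Agent.Lib.MP_ef7581_lc.D3
end
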