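import Pool.Agent.Lib.MP_ef7581_lc.EGeo
import Pool.Agent.Lib.MP_ef7581_lc.DCore
import Mathlib
import Pool.Agent.Lib.MP_ef7581_lc.DUA

-- part Pool.Agent.Lib.MP_ef7581_lc.ECore
section

/-!
A best auxiliary matching has few nontrivial components (agents with several terminals).
-/

set_option autoImplicit false
set_option linter.unusedSectionVars false

namespace Pool.Agent.Lib.MP_ef7581_lc.D3

open Finset Classical D2 D2.DCore

noncomputable section

namespace ECore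

section Gen

variable {α : Type} [Fintype α] [DecidableEq α]

/-- Four disjoint zero sets give two disjoint zero sets with even change. -/
theorem two_even (G : α → α → ℤ) {μ ν : α → α} {T : Finset α} (Y : Fin (3 + 1) → Finset α)
    (hY : ∀ i, ZeroSet μ ν T (Y i)) (hd : ∀ i j, i ≠ j → Disjoint (Y i) (Y j)) :
    ∃ Z1 Z2, ZeroSet μ ν T Z1 ∧ ZeroSet μ ν T Z2 ∧ Disjoint Z1 Z2 ∧ chg G μ ν Z1 % 2 = 0 ∧
      chg G μ ν Z2 % 2 = 0 := by
  by_contra hn
  have u : ∀ j k, j ≠ k → chg G μ ν (Y j) % 2 = 1 → chg G μ ν (Y k) % 2 = 1 →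
      chg G μ ν (Y j ∪ Y k) % 2 = 0 := fun j k h a b => by
    rw [chg_union _ _ _ (hd j k h)]; omega
  have h2 : ∀ i j, i ≠ j → chg G μ ν (Y i) % 2 = 0 → chg G μ ν (Y j) % 2 = 1 :=
    fun i j h a => by
      by_contra b
      exact hn ⟨Y i, Y j, hY i, hY j, hd i j h, a, by omega⟩
  have h3 : ∀ i j k, i ≠ j → i ≠ k → j ≠ k → chg G μ ν (Y i) % 2 = 1 :=
    fun i j k a b c => by
      by_contra d
      have d' : chg G μ ν (Y i) % 2 = 0 := by omega
      exact hn ⟨Y i, Y j ∪ Y k, hY i, zero_union (hY j) (hY k) (hd j k c),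
        disjoint_union_right.2 ⟨hd i j a, hd i k b⟩, d', u j k c (h2 i j a d') (h2 i k b d')⟩
  refine hn ⟨Y 0 ∪ Y 1, Y 2 ∪ Y 3, zero_union (hY 0) (hY 1) (hd 0 1 (by decide)),
    zero_union (hY 2) (hY 3) (hd 2 3 (by decide)), ?_, u 0 1 (by decide)
      (h3 0 1 2 (by decide) (by decide) (by decide)) (h3 1 0 2 (by decide) (by decide) (by decide)),
    u 2 3 (by decide) (h3 2 0 1 (by decide) (by decide) (by decide))
      (h3 3 0 1 (by decide) (by decide) (by decide))⟩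
  exact disjoint_union_left.2
    ⟨disjoint_union_right.2 ⟨hd 0 2 (by decide), hd 0 3 (by decide)⟩,
      disjoint_union_right.2 ⟨hd 1 2 (by decide), hd 1 3 (by decide)⟩⟩

end Gen

variable {J V K : Type} [Fintype J] [Fintype V] [Fintype K] [DecidableEq J] [DecidableEq V]
  [DecidableEq K]

/-- The functional counting uncovered items of a class. -/
def Gu (W : Finset V) (nf : V → Prop) : Nd J V → Nd J V → ℤ
  | Sum.inr (Sum.inl v), y => if v ∈ W ∧ nf v ∧ y = vx v then 1 else 0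
  | Sum.inl _, _ => 0
  | Sum.inr (Sum.inr _), _ => 0

theorem sm_Gu (W : Finset V) (nf : V → Prop) (m : Nd J V → Nd J V) :
    sm (Gu W nf) m = (unf W nf m : ℤ) := by
  rw [sm, Fintype.sum_sum_type, Fintype.sum_sum_type]
  simp only [Gu, sum_const_zero, add_zero, zero_add, unf, sum_boole]
  congr 2
  ext v
  simp only [mem_filter, mem_univ, true_and]

theorem unf_px0 (W : Finset V) (m : Nd J V → Nd J V) : unf W (px0 V).nf m = 0 := by
  simp [unf, px0]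

variable {P : G3 J V K} {S : Sub J V} {e : ℕ} {ρ : Finset V}

theorem exists_best {X : Ax J V} {Y : Px V} {μ : Nd J V → Nd J V} {w : ℕ}
    (h : ∃ ν, P.Cls S e ρ X Y μ w ν) : ∃ ν, P.Best S e ρ X Y μ w ν := by
  obtain ⟨ν0, h0⟩ := h
  obtain ⟨ν, hν, hm⟩ := exists_min_image (univ.filter fun ν => P.Cls S e ρ X Y μ w ν)
    (fun ν => toLex (newc μ ν, toLex (OrderDual.toDual (ends μ ν).card, pot μ ν)))
    ⟨ν0, mem_filter.2 ⟨mem_univ _, h0⟩⟩
  refine ⟨ν, (mem_filter.1 hν).2, fun ν' h' => ?_⟩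
  have := hm ν' (mem_filter.2 ⟨mem_univ _, h'⟩)
  rw [Prod.Lex.toLex_le_toLex, Prod.Lex.toLex_le_toLex] at this
  rcases this with h1 | ⟨h1, h2 | ⟨h2, h3⟩⟩
  · exact Or.inl h1
  · exact Or.inr ⟨h1, Or.inl h2⟩
  · exact Or.inr ⟨h1, Or.inr ⟨(OrderDual.toDual.injective h2).symm, h3⟩⟩

/-- Undoing a zero set with even change leaves the class. -/
theorem best_gain (hC : CompStmt) {X : Ax J V} {Y : Px V} {μ ν : Nd J V → Nd J V} {w : ℕ}
    (hb : P.Best S e ρ X Y μ w ν) (hμ : ∀ x, μ (μ x) = x) {T Z : Finset (Nd J V)}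
    (hZ : ZeroSet μ ν T Z) (hcv : P.Cov S e ρ X (mix Z ν μ))
    (hp : chg (Gu S.W Y.nf) μ ν Z % 2 = 0) :
    (cw S ν : ℤ) - chg (Gw S.lst) μ ν Z < w := by
  obtain ⟨⟨c1, c2, c3, c4, c5⟩, hm⟩ := hb
  obtain ⟨-, -, -, -, -, -, -, -, -, z, -⟩ := hC _ μ ν hμ c1.1
  obtain ⟨z1, -, z3⟩ := z T Z hZ
  by_contra hn
  have m1 : IsM (fun x y => P.En S e ρ X Y x y ∨ μ x = y) μ := ⟨hμ, fun x _ => Or.inr rfl⟩
  have h1 := sm_mix_r (Gw S.lst) μ ν Z
  rw [sm_Gw, sm_Gw] at h1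
  have h2 := sm_mix_r (Gu S.W Y.nf) μ ν Z
  rw [sm_Gu, sm_Gu] at h2
  have := hm (mix Z ν μ) ⟨c1.mix m1 hZ.2.1 hZ.1, z1.trans c2, by omega, hcv, by omega⟩
  omega

theorem chg_px0 (W : Finset V) (μ ν : Nd J V → Nd J V) (Z : Finset (Nd J V)) :
    chg (Gu W (px0 V).nf) μ ν Z = 0 := by
  have h2 := sm_mix_r (Gu W (px0 V).nf) μ ν Z
  rw [sm_Gu, sm_Gu, unf_px0, unf_px0] at h2
  omega

theorem pst_res {B B' : Finset J} {U : Finset V} {g : J → Sv V} (h : P.PSt S B g)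
    (hB : B' ⊆ B) (hU : Disjoint U (itsB B' g)) : P.PSt (S.res B' U) B' g where
  sub := Subset.rfl
  inW := fun j hj v hv => mem_sdiff.2 ⟨h.inW j (hB hj) hv,
    fun hu => disjoint_left.1 hU hu (mem_itsB hj hv)⟩
  nrm := fun j hj => by
    have := h.nrm j (hB hj)
    revert this
    cases g j <;> exact id
  dis := fun i hi j hj => h.dis i (hB hi) j (hB hj)

/-- Gluing a state on `B'` with the old services outside `B'`. -/
theorem glue (hN : NormS) (hw : P.Wf S) {B B' : Finset J} {U : Finset V} {g : J → Sv V}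
    (hg : P.Min3 S B g) (hB : B' ⊆ B) (h1 : itsB (B \ B') g ⊆ U) {f : J → Finset V}
    (hf : St (S.res B' U) (P.Serv3 S) B' f) : use B' (fun j => (g j).its) ≤ use B' f := by
  obtain ⟨-, -, -, -, n5, -⟩ := hN J V K P S B hw
  have s0 := n5 g hg.1
  have out : ∀ i ∈ B, i ∉ B' → ∀ j ∈ B', Disjoint (g i).its (f j) := fun i hi hi' j hj =>
    disjoint_left.2 fun v hv hv' =>
      (mem_sdiff.1 (hf.inW j hj hv')).2 (h1 (mem_itsB (mem_sdiff.2 ⟨hi, hi'⟩) hv))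
  have st : St S (P.Serv3 S) B fun j => if j ∈ B' then f j else (g j).its := by
    refine ⟨s0.sub, fun j hj => ?_, fun j hj => ?_, fun i hi j hj hne => ?_,
      fun v _ hq => (hw.2 v hq).elim⟩
    · split_ifs with h
      · exact (hf.inW j h).trans sdiff_subset
      · exact s0.inW j hj
    · split_ifs with h
      · exact hf.srv j h
      · exact s0.srv j hj
    · split_ifs with h h' h'
      · exact hf.dis i h j h' hne
      · exact (out j hj h' i h).symm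
      · exact out i hi h j h'
      · exact s0.dis i hi j hj hne
  have := hg.2 _ st
  rw [use_split hB, use_split hB (fun j => if j ∈ B' then f j else (g j).its)] at this
  have e1 : use (B \ B') (fun j => if j ∈ B' then f j else (g j).its) =
      use (B \ B') fun j => (g j).its :=
    sum_congr rfl fun j hj => by simp only [if_neg (mem_sdiff.1 hj).2]
  have e2 : use B' (fun j => if j ∈ B' then f j else (g j).its) = use B' f :=
    sum_congr rfl fun j hj => by simp only [if_pos hj]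
  omega

/-- Edges between nodes that survive in the smaller instance. -/
theorem en_res {A' B' : Finset J} {U U' : Finset V} {X : Ax J V} {Y : Px V} {x y : Nd J V}
    (h : P.En (S.rem A' U') e ρ X Y x y) (ha : ∀ j ∈ S.A \ A', x = ag j ∨ y = ag j → j ∈ B')
    (hv : ∀ v ∈ S.W \ U', x = vx v ∨ y = vx v → v ∈ S.W \ U) :
    P.En (S.res B' U) e ρ (axAll J V) (px0 V) x y := by
  have h := G3.En_px0 (G3.En_all h)
  rcases x with i | u | i <;> rcases y with j | v | j <;> simp only [G3.En] at h ⊢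
  · exact ⟨ha _ h.1 (Or.inl rfl), hv _ h.2.1 (Or.inr rfl), h.2.2⟩
  · exact ⟨h.1, ha _ h.2.1 (Or.inl rfl), h.2.2⟩
  · exact ⟨ha _ h.1 (Or.inr rfl), hv _ h.2.1 (Or.inl rfl), h.2.2⟩
  · exact ⟨hv _ h.1 (Or.inl rfl), hv _ h.2.1 (Or.inr rfl), h.2.2⟩
  · exact ⟨h.1, ha _ h.2.1 (Or.inr rfl), h.2.2⟩

theorem simple_px0 {Y : Px V} {B : Finset J} {g : J → Sv V} (h : P.Simple e ρ Y B g) :
    P.Simple e ρ (px0 V) B g := fun j hj =>
  (h j hj).imp id fun ⟨a, b, h1, h2, h3, _⟩ => ⟨a, b, h1, h2, h3, Or.inr (Or.inr ⟨id, id⟩)⟩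

end ECore

open ECore

theorem r0S (hC : CompStmt) (hN : NormS) (hI : ImgS) (hO : OptS) (hR : RealS) : R0S := by
  intro J V K _ _ _ _ _ _ P S e nr ρ B B' U g μ he hw hf hg hB hU1 hU2 hsi him hρ hu hex
  obtain ⟨ν, hb⟩ := ECore.exists_best hex
  have ps : P.PSt (S.res B' U) B' g := ECore.pst_res hg.1 hB hU2
  have hw' : P.Wf (S.res B' U) := hw
  obtain ⟨i1, i2, i3, i4, -⟩ :=
    (hI J V K P (S.res B' U) e ρ (px0 V) B' g hw' hf ps hsi).2 μ him
  obtain ⟨c1, c2, c3, c4, -⟩ := hb.1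
  have c2' : cov ν = 2 * B'.card := c2
  have cwe : ∀ m, cw (S.res B' U) m = cw S m := fun _ => rfl
  have cμ : P.Cov (S.res B' U) e ρ (axAll J V) μ := fun j hj h => i4 j hj (h.resolve_right id)
  have gain : ∀ Y, ZeroSet μ ν ∅ Y →
      (cw S ν : ℤ) - chg (Gw S.lst) μ ν Y < cw S μ + 2 := fun Y hY => by
    have := ECore.best_gain hC hb him.1 hY
      (fun j hj h => mix_ne (fun _ => cμ j hj h) fun _ => c4 j hj h) (by rw [chg_px0]; rfl)
    exact_mod_cast this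
  obtain ⟨-, -, -, -, -, k6, -, -, -, -, k11⟩ := hC _ μ ν him.1 c1.1
  have hK : (ncomp μ ν).card ≤ 4 := by
    refine k11 2 0 ∅ (by omega) (by omega) ?_
    rintro ⟨Y, hY, hd⟩
    have d1 := hd 0 1 (by decide)
    have d2 : Disjoint (Y 0 ∪ Y 1) (Y 2) :=
      disjoint_union_left.2 ⟨hd 0 2 (by decide), hd 1 2 (by decide)⟩
    have z := zero_union (zero_union (hY 0) (hY 1) d1) (hY 2) d2
    have e1 := chg_compl (Gw S.lst) μ ν (Y 0 ∪ Y 1 ∪ Y 2)
    rw [chg_union _ _ _ d2, chg_union _ _ _ d1, sm_Gw, sm_Gw] at e1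
    have g0 := gain _ (hY 0)
    have g1 := gain _ (hY 1)
    have g2 := gain _ (hY 2)
    rw [cwe] at c3
    rcases zero_compl him.1 c1.1 (c2'.trans i2.symm) z with h | h
    · rw [chg_zero _ h] at e1
      omega
    · have := gain _ h
      omega
  have cx : P.Ctx (S.res B' U) e ρ (px0 V) B' g μ := ⟨hw', hf, ps, hsi, him⟩
  obtain ⟨ra, jb⟩ := hO J V K P (S.res B' U) e ρ (px0 V) B' g μ ν (axAll J V) _ 4 0 cx hb hK
    (fun _ _ h => h.elim) (fun _ _ _ _ h => h.elim) (Or.inl trivial)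
  have rc : P.RCtx (S.res B' U) e ρ (px0 V) B' g μ ν ∅ ∅ 8 8 1 :=
    ⟨cx, ⟨fun s hs => absurd hs (notMem_empty s), fun s hs => absurd hs (notMem_empty s)⟩,
      fun s hs => absurd hs (notMem_empty s),
      ⟨c1.1, fun x hx => (c1.2 x hx).elim id fun h => h ▸ i1.2 x (h ▸ hx)⟩, c2, c4, by omega, jb,
      Or.inl rfl⟩
  have eW : (S.res B' U).W = S.W \ U := rfl
  have eA : (S.res B' U).A = B' := rfl
  rw [cwe] at c3 i3
  obtain ⟨f, f1, f2, -⟩ := hR J V K P (S.res B' U) e ρ (px0 V) B' g μ ν ∅ ∅ 8 29 11 8 0 1 nr rc ra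
    (fun _ _ => id) (fun _ _ _ _ _ => id) (le_trans (card_le_card fun r hr => mem_filter.2 (mem_filter.1 hr)) hρ) (by simp) (by omega)
    (by rw [unf_px0, eW, eA, cwe]; omega)
  have ea : ag2 (∅ : Finset (J × V × V)) = ∅ := image_empty _
  have ei : it2 (∅ : Finset (J × V × V)) = ∅ := biUnion_empty
  rw [ea, union_empty, eA, cwe, card_empty] at f2
  simp only [ea, ei, Sub.add, union_empty] at f1
  have := ECore.glue hN hw hg hB hU1 (f := f) f1
  omega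

theorem coreS (hC : CompStmt) (hI : ImgS) (h0 : R0S) : CoreS := by
  intro J V K _ _ _ _ _ _ P S e nr ρ Y B B' g Γ μ X w κ he hw hf hAB hg hρ hΓ hB hκ hsi hd1 hd2
    him hmc hu hex
  obtain ⟨ν, hb⟩ := ECore.exists_best hex
  refine ⟨ν, hb, ?_⟩
  obtain ⟨U, hU⟩ : ∃ U, U = it2 Γ ∪ itsB (B \ B') g := ⟨_, rfl⟩
  have hU1 : itsB (B \ B') g ⊆ U := hU ▸ subset_union_right
  have hU2 : Disjoint U (itsB B' g) := by
    rw [hU, disjoint_union_left]
    refine ⟨hd2, disjoint_left.2 fun v h1 h2 => ?_⟩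
    obtain ⟨i, hi, hv⟩ := mem_biUnion.1 h1
    obtain ⟨j, hj, hv'⟩ := mem_biUnion.1 h2
    rw [mem_sdiff] at hi
    exact disjoint_left.1 (hg.1.dis i hi.1 j (hB hj) fun h => hi.2 (h ▸ hj)) hv hv'
  have ps : P.PSt (S.res B' U) B' g := ECore.pst_res hg.1 hB hU2
  have hw' : P.Wf (S.res B' U) := hw
  have hs0 := simple_px0 hsi
  obtain ⟨i1, i2, -, i4, -⟩ := (hI J V K P (S.res B' U) e ρ (px0 V) B' g hw' hf ps hs0).2 μ him
  obtain ⟨c1, c2, c3, c4, -⟩ := hb.1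
  have c2' : cov ν = 2 * (S.A \ ag2 Γ).card := c2
  have cG := card_it2 Γ
  have hr := h0 J V K P S e (nr + 12) ρ B B' U g μ (by omega) hw hf hg hB hU1 hU2 hs0 him (by
      refine le_trans (card_le_card
        (t := (ρ.filter fun r => r ∉ S.W ∨ r ∈ itsB B g) ∪ it2 Γ) fun v hv => ?_)
        ((card_union_le _ _).trans (by omega))
      rw [mem_filter, mem_sdiff, hU, mem_union] at hv
      rw [mem_union, mem_filter]
      have a1 := @itsB_mono _ _ _ _ _ _ B B' hB g v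
      have a2 := @itsB_mono _ _ _ _ _ _ B (B \ B') sdiff_subset g v
      tauto) (by
      have a1 := le_card_sdiff U S.W
      have a2 : U.card ≤ (it2 Γ).card + (itsB (B \ B') g).card := hU ▸ card_union_le _ _
      have a3 := card_itsB (B \ B') g
      have a4 := use_split hB fun j => (g j).its
      omega)
  have hBA : B' ⊆ S.A \ ag2 Γ := fun j hj => mem_sdiff.2
    ⟨hg.1.sub (hB hj), disjoint_left.1 hd1 hj⟩
  have cA : ((S.A \ ag2 Γ) \ B').card ≤ κ + 1 := by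
    refine le_trans (card_le_card (t := (S.A \ B) ∪ (B \ B')) fun j hj => ?_)
      ((card_union_le _ _).trans (by omega))
    simp only [mem_sdiff, mem_union] at hj ⊢
    tauto
  have cA' := card_sdiff_add_card_eq_card hBA
  obtain ⟨T, hT⟩ : ∃ T : Finset (Nd J V),
      T = ((S.A \ ag2 Γ) \ B').image ag ∪ (itsB (B \ B') g).image vx := ⟨_, rfl⟩
  have cT : T.card ≤ 4 * κ + 1 := by
    have a1 : T.card ≤ _ := hT ▸ card_union_le _ _
    have a2 := card_image_le (s := (S.A \ ag2 Γ) \ B') (f := (ag : J → Nd J V))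
    have a3 := card_image_le (s := itsB (B \ B') g) (f := (vx : V → Nd J V))
    have a4 := card_itsB' (B \ B') g
    omega
  have Ta : ∀ j ∈ S.A \ ag2 Γ, ag j ∉ T → j ∈ B' := fun j hj h => by
    by_contra hn
    exact h (hT ▸ mem_union_left _ (mem_image_of_mem _ (mem_sdiff.2 ⟨hj, hn⟩)))
  have Tv : ∀ v, vx v ∉ T → v ∉ itsB (B \ B') g := fun v h hn =>
    h (hT ▸ mem_union_right _ (mem_image_of_mem _ hn))
  have gain : ∀ Z, ZeroSet μ ν T Z → chg (Gu (S.rem (ag2 Γ) (it2 Γ)).W Y.nf) μ ν Z % 2 = 0 →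
      1 ≤ chg (Gw S.lst) μ ν Z := fun Z hZ hp => by
    have nT : ∀ x ∈ Z, x ∉ T := fun x hx => disjoint_left.1 hZ.2.2.1 hx
    have : (cw (S.rem (ag2 Γ) (it2 Γ)) ν : ℤ) - chg (Gw S.lst) μ ν Z < w :=
      ECore.best_gain hC hb him.1 hZ
        (fun j hj h => mix_ne (fun hx => h.elim (i4 j (Ta j hj (nT _ hx)))
          (hmc j (Ta j hj (nT _ hx)))) fun _ => c4 j hj h) hp
    omega
  obtain ⟨-, -, -, -, -, -, -, -, -, k10, k11⟩ := hC _ μ ν him.1 c1.1
  refine le_trans (k11 3 (κ + 1) T (by omega) (by omega) ?_) (by omega)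
  rintro ⟨Y4, hY, hd⟩
  obtain ⟨Z1, Z2, z1, z2, d1, p1, p2⟩ :=
    two_even (Gu (S.rem (ag2 Γ) (it2 Γ)).W Y.nf) Y4 hY hd
  have z := zero_union z1 z2 d1
  have e1 := sm_mix_l (Gw S.lst) μ ν (Z1 ∪ Z2)
  rw [chg_union _ _ _ d1, sm_Gw, sm_Gw] at e1
  have g0 := gain _ z1 p1
  have g1 := gain _ z2 p2
  generalize Z1 ∪ Z2 = Z at z e1
  have nT : ∀ x ∈ Z, x ∉ T := fun x hx => disjoint_left.1 z.2.2.1 hx
  have m1 : IsM (fun x y => P.En (S.rem (ag2 Γ) (it2 Γ)) e ρ X Y x y ∨ μ x = y) μ :=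
    ⟨him.1, fun x _ => Or.inr rfl⟩
  refine hr ⟨mix Z μ ν, ⟨(m1.mix c1 z.1 z.2.1).1, fun x hx => ?_⟩, (k10 T Z z).2.1.trans i2, ?_,
    fun j hj h => ?_, by rw [unf_px0]; rfl⟩
  · by_cases hZ : x ∈ Z
    · rw [mix_in hZ] at hx ⊢
      have hy := z.2.1 x hZ
      refine (c1.2 x hx).imp
        (fun h => ECore.en_res h (fun j hj h' => Ta j hj ?_) fun v hv h' => ?_) id
      · rcases h' with h' | h'
        · exact h' ▸ nT _ hZ
        · exact h' ▸ nT _ hy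
      · have : v ∉ itsB (B \ B') g := by
          refine Tv v ?_
          rcases h' with h' | h'
          · exact h' ▸ nT _ hZ
          · exact h' ▸ nT _ hy
        rw [mem_sdiff] at hv ⊢
        refine ⟨hv.1, ?_⟩
        rw [hU, mem_union]
        exact fun h => h.elim hv.2 this
    · exact Or.inr (mix_out hZ).symm
  · show cw S μ + 2 ≤ cw S (mix Z μ ν)
    omega
  · have h' := h.resolve_right id
    exact mix_ne (fun _ => c4 j (hBA hj) (Or.inl h')) fun _ => i4 j hj h'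

end

end Pool.Agent.Lib.MP_ef7581_lc.D3
end

-- part Pool.Agent.Lib.MP_ef7581_lc.EUA
section

/-!
The absorbing case with agents of two terminals: soundness and necessity of the test.
-/

set_option autoImplicit false
set_option linter.unusedSectionVars false

namespace Pool.Agent.Lib.MP_ef7581_lc.D3

open Finset Classical D2 D2.DUA

namespace EUA

variable {J V K : Type} [Fintype J] [Fintype V] [Fintype K] [DecidableEq J] [DecidableEq V]
  [DecidableEq K] {P : G3 J V K} {c ty : ℕ} {F : Fin (NU c) → Mb J V}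

theorem mem_W {Φ : Finset (J × V × V × V)} {D : Finset V} {Wt : Finset (J × V × V)} (v : V) :
    v ∈ (P.SU c F Φ D Wt).W ↔
      (v ∈ fitF F → v ∈ Geo.expo c F) ∧ v ∉ it3 Φ ∧ v ∉ D ∧ v ∉ it2 Wt := by
  simp only [G3.SU, G3.pl, mem_sdiff, mem_univ, mem_union, true_and]
  grind

theorem mem_A {Φ : Finset (J × V × V × V)} {D : Finset V} {Wt : Finset (J × V × V)} (j : J) :
    j ∈ (P.SU c F Φ D Wt).A ↔ j ∉ fagF F ∧ j ∉ ag3 Φ ∧ j ∉ ag2 Wt := by
  simp only [G3.SU, G3.pl, mem_sdiff, mem_univ, mem_union, true_and]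
  grind

theorem wf_SU (Φ : Finset (J × V × V × V)) (D : Finset V) (Wt : Finset (J × V × V)) :
    P.Wf (P.SU c F Φ D Wt) := G3.wf_pl _ _

theorem it2_empty : it2 (∅ : Finset (J × V × V)) = ∅ := by simp [it2]

theorem ag2_empty : ag2 (∅ : Finset (J × V × V)) = ∅ := by simp [ag2]

/-! ### Soundness -/

theorem ex_phi {Φ : Finset (J × V × V × V)} (h : P.PhiOk Φ) :
    Ex (P.Serv3 (P.pl univ univ)) (ag3 Φ) (it3 Φ) :=
  Ex.family Φ (fun s => s.1) (fun s => {s.2.1, s.2.2.1, s.2.2.2}) h.1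
    fun s hs s' hs' hne => (h.2 s hs s' hs' hne).2

theorem feas_of_ex (h : Ex (P.Serv3 (P.pl univ univ)) univ univ) : P.Feas := by
  obtain ⟨f, h1, h2, h3⟩ := h
  refine ⟨f, ⟨Subset.rfl, h1, h2, h3, fun _ _ h => h.elim⟩, ?_⟩
  have h4 := use_eq h3
  have h5 := card_le_univ ((univ : Finset J).biUnion f)
  change use univ f + 0 ≤ (univ : Finset V).card
  rw [card_univ]
  omega

/-- Services found in the geometry of two terminals. -/
theorem ex_of_base {A : Finset J} {W : Finset V} {S : Sub J V} {f : J → Finset V}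
    (hs : ∀ j ∈ A, ¬ P.mu j) (hW : S.W = W)
    (h : St S (P.base.Serv2 (P.base.pl univ univ)) A f) :
    Ex (P.Serv3 (P.pl univ univ)) A W :=
  ⟨f, hW ▸ h.inW, fun j hj => Or.inl (G3.serv2_of_base (hs j hj) (h.srv j hj)), h.dis⟩

/-- The three groups of services together solve the instance. -/
theorem feas_glue {Φ : Finset (J × V × V × V)} (hΦ : P.PhiOk Φ) {A1 A2 : Finset J}
    {W1 W2 : Finset V} (e1 : Ex (P.Serv3 (P.pl univ univ)) A1 W1)
    (e2 : Ex (P.Serv3 (P.pl univ univ)) A2 W2) (d1 : ∀ x ∈ W1, x ∉ W2)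
    (d2 : ∀ x ∈ W1, x ∉ it3 Φ) (d3 : ∀ x ∈ W2, x ∉ it3 Φ)
    (hc : ∀ j, j ∉ A1 → j ∉ ag3 Φ → j ∈ A2) : P.Feas := by
  have e3 := (e1.glue e2 (disjoint_left.2 d1)).glue (ex_phi hΦ) (by
    rw [disjoint_union_left]
    exact ⟨disjoint_left.2 d2, disjoint_left.2 d3⟩)
  refine feas_of_ex (e3.mono (fun j _ => ?_) (subset_univ _))
  have := hc j
  simp only [mem_union]
  tauto

theorem sound_core (hA : UAStmt) (hF : P.base.PFam ty F) (hmu : ∀ r, ¬ P.mu (F r).1)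
    {Φ : Finset (J × V × V × V)} {D : Finset V} {Wt : Finset (J × V × V)} {l : ℕ}
    (hΦ : P.PhiOk Φ) (d1 : Disjoint (it3 Φ) (fitF F)) (d2 : Disjoint (it2 Wt) (it3 Φ))
    (hv : ∀ v, v ∉ fitF F → v ∉ it3 Φ → v ∉ D → ¬ P.base.waste F v ∧ ¬ P.base.star c F v)
    (hw : Wt = ∅ ∨ ∃ s, Wt = {s} ∧ P.base.WitU c F s) (hw' : ∀ j ∈ ag2 Wt, ¬ P.mu j)
    (hs : P.Sol3 (P.SU c F Φ D Wt) l)
    (hZ : ∀ (n : ℕ) (Z' : Finset V), n ≤ c → n + l ≤ Z'.card + c →
      ∃ Z ⊆ Z', n ≤ Z.card ∧ Z.card ≤ c + 1 ∧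
        (ty ≠ 3 ∨ Even (Z.filter fun z => P.base.hard c F z).card ∨ Wt ≠ ∅)) : P.Feas := by
  obtain ⟨f, hf, hu⟩ := hs
  set S := P.SU c F Φ D Wt with hS
  have mW : ∀ v, v ∈ S.W ↔ (v ∈ fitF F → v ∈ Geo.expo c F) ∧ v ∉ it3 Φ ∧ v ∉ D ∧ v ∉ it2 Wt :=
    fun v => mem_W v
  set Us := S.A.biUnion f with hUs
  have us : Us ⊆ S.W := biUnion_subset.2 hf.inW
  rw [use_eq hf.dis, ← hUs] at hu
  have c1 := card_sdiff_add_card_eq_card us
  have c2 : S.W \ Us ⊆ (S.W \ (Us ∪ Geo.expo c F)) ∪ (Geo.expo c F \ Us) := fun x hx => by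
    simp only [mem_union, mem_sdiff] at hx ⊢
    grind
  have c3 := (card_le_card c2).trans (card_union_le _ _)
  have c4 := card_sdiff_add_card_inter (Geo.expo c F) Us
  have c5 := expo_card_le (F := F)
  obtain ⟨Z, z1, z2, z3, z4⟩ := hZ (Geo.expo c F ∩ Us).card (S.W \ (Us ∪ Geo.expo c F))
    (by omega) (by omega)
  have mZ : ∀ v ∈ Z, v ∉ fitF F ∧ v ∉ it3 Φ ∧ v ∉ D ∧ v ∉ it2 Wt ∧ v ∉ Us := fun v h => by
    have h1 := z1 h
    simp only [mem_union, mem_sdiff, not_or] at h1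
    have h2 := (mW v).1 h1.1
    grind
  obtain ⟨f1, hf1⟩ := hA J V P.base c ty F Wt Z (Geo.expo c F ∩ Us) hF hw
    (disjoint_left.2 fun v h => (mZ v h).1) (disjoint_left.2 fun v h => (mZ v h).2.2.2.1)
    (fun v h => hv v (mZ v h).1 (mZ v h).2.1 (mZ v h).2.2.1) inter_subset_left z2 z3 z4
  have e1 : Ex (P.Serv3 (P.pl univ univ)) (fagF F ∪ ag2 Wt)
      ((fitF F \ (Geo.expo c F ∩ Us)) ∪ Z ∪ it2 Wt) := ex_of_base (fun j hj => by
    rcases mem_union.1 hj with hj | hj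
    · obtain ⟨r, rfl⟩ := mem_fagF.1 hj
      exact hmu r
    · exact hw' j hj) rfl hf1
  have e2 : Ex (P.Serv3 (P.pl univ univ)) S.A Us :=
    ⟨f, fun j hj => subset_biUnion_of_mem f hj, hf.srv, hf.dis⟩
  refine feas_glue hΦ e1 e2 (fun x hx hx' => ?_) (fun x hx hx' => ?_)
    (fun x hx => ((mW x).1 (us hx)).2.1) fun j h1 h2 => ?_
  · have q1 := (mW x).1 (us hx')
    have q2 := mZ x
    simp only [mem_union, mem_sdiff, mem_inter] at hx
    grind
  · have q2 := mZ x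
    have q3 : x ∉ fitF F := disjoint_left.1 d1 hx'
    have q4 : x ∉ it2 Wt := disjoint_right.1 d2 hx'
    simp only [mem_union, mem_sdiff] at hx
    grind
  · rw [mem_union, not_or] at h1
    exact (mem_A j).2 ⟨h1.1, h2, h1.2⟩

/-- One more unused item repairs the parity. -/
theorem sound_more (hA : UAStmt) (hF : P.base.PFam ty F) (hmu : ∀ r, ¬ P.mu (F r).1)
    {Φ : Finset (J × V × V × V)} {D : Finset V} (hΦ : P.PhiOk Φ)
    (d1 : Disjoint (it3 Φ) (fitF F))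
    (hv : ∀ v, v ∉ fitF F → v ∉ it3 Φ → v ∉ D → ¬ P.base.waste F v ∧ ¬ P.base.star c F v)
    (hs : P.Sol3 (P.SU c F Φ D ∅) (c + 1)) : P.Feas := by
  refine sound_core hA hF hmu hΦ d1 (by simp [it2]) hv (Or.inl rfl) (by simp [ag2]) hs
    fun n Z' a1 a2 => ?_
  obtain ⟨Z, z1, z2⟩ := exists_subset_card_eq (s := Z') (n := n + 1) (by omega)
  rcases Nat.even_or_odd (Z.filter fun z => P.base.hard c F z).card with hp | ⟨k, hk⟩
  · exact ⟨Z, z1, by omega, by omega, Or.inr (Or.inl hp)⟩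
  obtain ⟨q, hq⟩ := card_pos.1 (show 0 < (Z.filter fun z => P.base.hard c F z).card by omega)
  have c1 := card_erase_of_mem (mem_filter.1 hq).1
  refine ⟨Z.erase q, (erase_subset _ _).trans z1, by omega, by omega, Or.inr (Or.inl ?_)⟩
  rw [filter_erase, card_erase_of_mem hq]
  exact ⟨k, by omega⟩

/-- Exactly `c` unused items, with the right parity or with a witness among the services. -/
theorem sound_par (hA : UAStmt) (hX : UAX) (hF : P.base.PFam ty F)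
    (hmu : ∀ r, ¬ P.mu (F r).1) {Φ : Finset (J × V × V × V)} {D : Finset V} (hΦ : P.PhiOk Φ)
    (d1 : Disjoint (it3 Φ) (fitF F))
    (hv : ∀ v, v ∉ fitF F → v ∉ it3 Φ → v ∉ D → ¬ P.base.waste F v ∧ ¬ P.base.star c F v)
    {f : J → Finset V}
    (hf : St (P.SU c F Φ D ∅) (P.Serv3 (P.SU c F Φ D ∅)) (P.SU c F Φ D ∅).A f)
    (hu : use (P.SU c F Φ D ∅).A f + c = (P.SU c F Φ D ∅).W.card)
    (hp : Even (frn (P.SU c F Φ D ∅).W (P.hardO c F) (P.SU c F Φ D ∅).A f) ∨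
      ∃ j ∈ (P.SU c F Φ D ∅).A, ¬ P.mu j ∧ ∃ a b o, f j = {a, b} ∧ P.col j o a ∧
        P.col j (!o) b ∧ ¬ P.HH a b ∧ P.hardO c F a) : P.Feas := by
  set S := P.SU c F Φ D ∅ with hS
  have mW : ∀ v, v ∈ S.W ↔ (v ∈ fitF F → v ∈ Geo.expo c F) ∧ v ∉ it3 Φ ∧ v ∉ D := fun v => by
    rw [hS, mem_W, it2_empty]
    simp
  have mA : ∀ j, j ∈ S.A ↔ j ∉ fagF F ∧ j ∉ ag3 Φ := fun j => by
    rw [hS, mem_A, ag2_empty]
    simp
  set Us := S.A.biUnion f with hUs
  have us : Us ⊆ S.W := biUnion_subset.2 hf.inW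
  rw [use_eq hf.dis, ← hUs] at hu
  have c1 := card_sdiff_add_card_eq_card us
  obtain ⟨Z, hZ⟩ : ∃ Z, Z = S.W \ (Us ∪ Geo.expo c F) := ⟨_, rfl⟩
  obtain ⟨X, hX'⟩ : ∃ X, X = Geo.expo c F ∩ Us := ⟨_, rfl⟩
  have c2 : S.W \ Us ⊆ Z ∪ (Geo.expo c F \ Us) := fun x hx => by
    simp only [hZ, mem_union, mem_sdiff] at hx ⊢
    grind
  have c3 := (card_le_card c2).trans (card_union_le _ _)
  have c4 := card_sdiff_add_card_inter (Geo.expo c F) Us
  have c5 := expo_card_le (F := F)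
  have c6 : Z.card ≤ (S.W \ Us).card := card_le_card fun x hx => by
    simp only [hZ, mem_union, mem_sdiff] at hx ⊢
    grind
  rw [← hX'] at c4
  have mZ : ∀ v, v ∈ Z ↔ v ∉ fitF F ∧ v ∉ it3 Φ ∧ v ∉ D ∧ v ∉ Us := fun v => by
    have h1 := mW v
    have h2 : v ∈ Geo.expo c F → v ∈ fitF F := fun h => expo_sub h
    simp only [hZ, mem_union, mem_sdiff, not_or]
    grind
  have mX : ∀ v, v ∈ X ↔ v ∈ fitF F ∧ v ∈ Us := fun v => by
    have h1 : v ∈ Us → v ∈ fitF F → v ∈ Geo.expo c F := fun h => ((mW v).1 (us h)).1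
    have h2 : v ∈ Geo.expo c F → v ∈ fitF F := fun h => expo_sub h
    simp only [hX', mem_inter]
    grind
  have xe : X ⊆ Geo.expo c F := hX' ▸ inter_subset_left
  have zf : Disjoint Z (fitF F) := disjoint_left.2 fun v h => ((mZ v).1 h).1
  have zv : ∀ z ∈ Z, ¬ P.base.waste F z ∧ ¬ P.base.star c F z := fun v h =>
    hv v ((mZ v).1 h).1 ((mZ v).1 h).2.1 ((mZ v).1 h).2.2.1
  have fm : ∀ j ∈ fagF F, ¬ P.mu j := fun j hj => by
    obtain ⟨r, rfl⟩ := mem_fagF.1 hj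
    exact hmu r
  by_cases hq : ty ≠ 3 ∨ Even (Z.filter fun z => P.base.hard c F z).card
  · obtain ⟨f1, hf1⟩ := hA J V P.base c ty F ∅ Z X hF (Or.inl rfl) zf (by simp [it2]) zv xe
      (by omega) (by omega) (hq.imp_right Or.inl)
    have e1 : Ex (P.Serv3 (P.pl univ univ)) (fagF F ∪ ag2 (∅ : Finset (J × V × V)))
        ((fitF F \ X) ∪ Z ∪ it2 (∅ : Finset (J × V × V))) :=
      ex_of_base (by rw [ag2_empty, union_empty]; exact fm) rfl hf1
    rw [ag2_empty, it2_empty, union_empty, union_empty] at e1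
    have e2 : Ex (P.Serv3 (P.pl univ univ)) S.A Us :=
      ⟨f, fun j hj => subset_biUnion_of_mem f hj, hf.srv, hf.dis⟩
    refine feas_glue hΦ e1 e2 (fun x hx hx' => ?_) (fun x hx hx' => ?_)
      (fun x hx => ((mW x).1 (us hx)).2.1) fun j h1 h2 => (mA j).2 ⟨h1, h2⟩
    · have q1 := mX x
      have q2 := mZ x
      simp only [mem_union, mem_sdiff] at hx
      grind
    · have q2 := mZ x
      have q3 : x ∉ fitF F := disjoint_left.1 d1 hx'
      simp only [mem_union, mem_sdiff] at hx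
      grind
  rw [not_or, not_not] at hq
  obtain ⟨rfl, hq⟩ := hq
  have ez : frn S.W (P.hardO c F) S.A f = (Z.filter fun z => P.base.hard c F z).card := by
    unfold frn
    congr 1
    ext v
    have q1 := mZ v
    have q2 := mW v
    have q3 : v ∈ Us ↔ ∃ j ∈ S.A, v ∈ f j := mem_biUnion
    simp only [mem_filter, G3.hardO]
    grind
  rw [ez] at hp
  obtain ⟨j, hj, j1, a, b, o, j2, j3, j4, j5, j6, j7⟩ := hp.resolve_left hq
  have fu : f j ⊆ Us := subset_biUnion_of_mem f hj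
  have au : a ∈ Us := fu (by simp [j2])
  have bu : b ∈ Us := fu (by simp [j2])
  have aw := (mW a).1 (us au)
  have bw := (mW b).1 (us bu)
  have jA := (mA j).1 hj
  have jm : ∀ i ∈ fagF F ∪ {j}, ¬ P.mu i := fun i hi => by
    rcases mem_union.1 hi with hi | hi
    · exact fm i hi
    · exact mem_singleton.1 hi ▸ j1
  have e1 : Ex (P.Serv3 (P.pl univ univ)) (fagF F ∪ {j}) ((fitF F \ X) ∪ Z ∪ {a, b}) := by
    by_cases hb : b ∈ fitF F
    · obtain ⟨f1, hf1⟩ := hX J V P.base c F (j, a, b) Z X hF ⟨o, j3, j4⟩ j5 j6 jA.1 j7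
        ((mX b).2 ⟨hb, bu⟩) zf (fun h => ((mZ a).1 h).2.2.2 au) zv xe (by omega) (by omega)
      exact ex_of_base jm rfl hf1
    · have bv := hv b hb bw.2.1 bw.2.2
      have i2 : it2 ({(j, a, b)} : Finset (J × V × V)) = {a, b} := by simp [it2]
      have a2 : ag2 ({(j, a, b)} : Finset (J × V × V)) = {j} := by simp [ag2]
      obtain ⟨f1, hf1⟩ := hA J V P.base c 3 F {(j, a, b)} Z X hF
        (Or.inr ⟨_, rfl, ⟨o, j3, j4⟩, j5, j6, bv.1, bv.2, jA.1, j7, hb⟩) zf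
        (by
          rw [i2, ← j2]
          exact disjoint_left.2 fun v h h' => ((mZ v).1 h).2.2.2 (fu h'))
        zv xe (by omega) (by omega) (Or.inr (Or.inr (by simp)))
      rw [i2, a2] at hf1
      exact ex_of_base jm rfl hf1
  have e2 : Ex (P.Serv3 (P.pl univ univ)) (S.A.erase j) ((S.A.erase j).biUnion f) :=
    ⟨f, fun i hi => subset_biUnion_of_mem f hi, fun i hi => hf.srv i (mem_of_mem_erase hi),
      fun i hi k hk => hf.dis i (mem_of_mem_erase hi) k (mem_of_mem_erase hk)⟩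
  have u2 : ∀ x ∈ (S.A.erase j).biUnion f, x ∈ Us ∧ x ∉ ({a, b} : Finset V) := fun x hx => by
    obtain ⟨i, hi, hx⟩ := mem_biUnion.1 hx
    rw [mem_erase] at hi
    exact ⟨mem_biUnion.2 ⟨i, hi.2, hx⟩, j2 ▸ disjoint_left.1 (hf.dis i hi.2 j hj hi.1) hx⟩
  refine feas_glue hΦ e1 e2 (fun x hx hx' => ?_) (fun x hx hx' => ?_)
    (fun x hx => ((mW x).1 (us (u2 x hx).1)).2.1) fun i h1 h2 => ?_
  · have q1 := mX x
    have q2 := mZ x
    have q3 := u2 x hx'
    simp only [mem_union, mem_sdiff] at hx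
    grind
  · have q2 := mZ x
    have q3 : x ∉ fitF F := disjoint_left.1 d1 hx'
    have q4 : x ∈ ({a, b} : Finset V) → x ∉ it3 Φ := fun h => ((mW x).1 (us (fu (j2 ▸ h)))).2.1
    simp only [mem_union, mem_sdiff] at hx
    grind
  · rw [mem_union, not_or, mem_singleton] at h1
    exact mem_erase.2 ⟨h1.2, (mA i).2 ⟨h1.1, h2⟩⟩

/-! ### Necessity -/

theorem enc_its (v0 : V) {S : Sub J V} {j : J} {s : Sv V} (h : P.Nrm S j s) :
    ({(enc v0 s).1, (enc v0 s).2.1, (enc v0 s).2.2} : Finset V) = s.its := by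
  cases s with
  | non => exact h.elim
  | one x => simp [enc, Sv.its]
  | two a b => simp [enc, Sv.its]
  | three a z b => simp [enc, Sv.its]

/-- Services of a state can be moved to the list of fixed services. -/
theorem phi_ext (v0 : V) {Φ : Finset (J × V × V × V)} {g : J → Sv V} {T : Finset J}
    (hΦ : P.PhiOk Φ) (hg : P.PSt (P.pl (univ \ ag3 Φ) (univ \ it3 Φ)) (univ \ ag3 Φ) g)
    (hs : ∀ j ∈ univ \ ag3 Φ, P.Serv3 (P.pl univ univ) j (g j).its) (hT : T ⊆ univ \ ag3 Φ) :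
    ∃ Φ' : Finset (J × V × V × V), P.PhiOk Φ' ∧ Φ'.card ≤ Φ.card + T.card ∧
      ag3 Φ' = ag3 Φ ∪ T ∧ it3 Φ' = it3 Φ ∪ itsB T g := by
  have e : ∀ j ∈ T, ({(enc v0 (g j)).1, (enc v0 (g j)).2.1, (enc v0 (g j)).2.2} : Finset V) =
      (g j).its := fun j hj => enc_its v0 (hg.nrm j (hT hj))
  have cr : ∀ s ∈ Φ, ∀ j ∈ T, s.1 ≠ j ∧
      Disjoint ({s.2.1, s.2.2.1, s.2.2.2} : Finset V) (g j).its := fun s hs' j hj => by
    refine ⟨fun h => (mem_sdiff.1 (hT hj)).2 (mem_image.2 ⟨s, hs', h⟩), ?_⟩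
    rw [disjoint_left]
    exact fun x hx hx' => (mem_sdiff.1 (hg.inW j (hT hj) hx')).2 (mem_biUnion.2 ⟨s, hs', hx⟩)
  refine ⟨Φ ∪ T.image fun j => (j, enc v0 (g j)), ⟨fun s hs' => ?_, fun s h1 s' h2 hne => ?_⟩,
    (card_union_le _ _).trans (Nat.add_le_add_left card_image_le _), ?_, ?_⟩
  · rcases mem_union.1 hs' with h | h
    · exact hΦ.1 s h
    · obtain ⟨j, hj, rfl⟩ := mem_image.1 h
      dsimp only
      rw [e j hj]
      exact hs j (hT hj)
  · rcases mem_union.1 h1 with h1 | h1 <;> rcases mem_union.1 h2 with h2 | h2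
    · exact hΦ.2 s h1 s' h2 hne
    · obtain ⟨j, hj, rfl⟩ := mem_image.1 h2
      dsimp only
      rw [e j hj]
      exact cr s h1 j hj
    · obtain ⟨j, hj, rfl⟩ := mem_image.1 h1
      dsimp only
      rw [e j hj]
      exact ⟨(cr s' h2 j hj).1.symm, (cr s' h2 j hj).2.symm⟩
    · obtain ⟨i, hi, rfl⟩ := mem_image.1 h1
      obtain ⟨j, hj, rfl⟩ := mem_image.1 h2
      have hij : i ≠ j := fun h => hne (by rw [h])
      dsimp only
      rw [e i hi, e j hj]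
      exact ⟨hij, hg.dis i (hT hi) j (hT hj) hij⟩
  · unfold ag3
    rw [image_union, image_image]
    congr 1
    exact image_id
  · unfold it3 itsB
    rw [union_biUnion, image_biUnion]
    congr 1
    exact biUnion_congr rfl e

theorem use_le {S : Sub J V} {sv : J → Finset V → Prop} {f : J → Finset V} {E : Finset V}
    (hf : St S sv S.A f) (h1 : E ⊆ S.W) (h2 : ∀ j ∈ S.A, Disjoint (f j) E) :
    use S.A f + E.card ≤ S.W.card := by
  have c1 := card_union_of_disjoint ((disjoint_biUnion_left S.A f E).2 h2)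
  have c2 := card_le_card (union_subset (biUnion_subset.2 hf.inW) h1)
  rw [use_eq hf.dis]
  omega

/-- If a state leaves exactly `E.card` items and does not use `E`, the unused items are `E`. -/
theorem unused_eq {S : Sub J V} {sv : J → Finset V → Prop} {f : J → Finset V} {E : Finset V}
    (hf : St S sv S.A f) (h1 : E ⊆ S.W) (h2 : ∀ j ∈ S.A, Disjoint (f j) E)
    (h3 : S.W.card ≤ use S.A f + E.card) (v : V) :
    (v ∈ S.W ∧ ∀ j ∈ S.A, v ∉ f j) ↔ v ∈ E := by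
  have us : S.A.biUnion f ⊆ S.W := biUnion_subset.2 hf.inW
  have c1 := card_sdiff_add_card_eq_card us
  rw [use_eq hf.dis] at h3
  have h4 : E ⊆ S.W \ S.A.biUnion f := fun x hx => mem_sdiff.2 ⟨h1 hx, fun h => by
    obtain ⟨j, hj, h⟩ := mem_biUnion.1 h
    exact disjoint_left.1 (h2 j hj) h hx⟩
  rw [eq_of_subset_of_card_le h4 (by omega)]
  simp

theorem frn_eq {W E : Finset V} {nf : V → Prop} {B : Finset J} {f : J → Finset V}
    (h : ∀ v, v ∈ E ↔ v ∈ W ∧ nf v ∧ ∀ j ∈ B, v ∉ f j) : frn W nf B f = E.card := by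
  unfold frn
  refine congrArg Finset.card ?_
  ext v
  rw [mem_filter, h]

theorem nec_main (hU : UnitStmt) (hNec : NecS) {e cT L : ℕ} (hS : SLN e)
    (hL : cT + NU c * NU c + 1 ≤ L) (rk : J → ℕ) {Φ : Finset (J × V × V × V)} {g : J → Sv V}
    (hΦ : P.PhiOk Φ) (hc : Φ.card ≤ cT)
    (hg : P.PSt (P.pl (univ \ ag3 Φ) (univ \ it3 Φ)) (univ \ ag3 Φ) g)
    (hnt : NoTri (univ \ ag3 Φ) g)
    (hs : ∀ j ∈ univ \ ag3 Φ, P.Serv2 (P.pl univ univ) j (g j).its) (hF : P.base.PFam ty F)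
    (hm : ∀ r, (F r).1 ∈ univ \ ag3 Φ ∧ ¬ P.mu (F r).1 ∧
      (g (F r).1).its = {(F r).2.2.1, (F r).2.2.2}) :
    P.UTest rk e c L := by
  obtain ⟨u1, u2, -⟩ := hU J V P.base c ty F hF
  obtain ⟨Bd, mB, cB⟩ : ∃ Bd : Finset V, (∀ v, v ∈ Bd ↔ P.base.waste F v ∨ P.base.star c F v) ∧
      Bd.card ≤ NU c * NU c + 1 :=
    ⟨(univ.filter fun z => P.base.waste F z) ∪ univ.filter fun z => P.base.star c F z, by simp,
      (card_union_le _ _).trans (by omega)⟩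
  obtain ⟨T, mT⟩ : ∃ T : Finset J, ∀ j, j ∈ T ↔
      j ∉ ag3 Φ ∧ j ∉ fagF F ∧ ¬ Disjoint (g j).its Bd :=
    ⟨univ.filter fun j => j ∉ ag3 Φ ∧ j ∉ fagF F ∧ ¬ Disjoint (g j).its Bd, by simp⟩
  have mA : ∀ j, j ∉ ag3 Φ → j ∈ univ \ ag3 Φ := fun j h => mem_sdiff.2 ⟨mem_univ _, h⟩
  have hT : T ⊆ univ \ ag3 Φ := fun j hj => mA j ((mT j).1 hj).1
  have cT' : T.card ≤ Bd.card := few_meet (f := fun j => (g j).its) Bd
    (fun i hi j hj => hg.dis i (hT hi) j (hT hj)) fun j hj => ((mT j).1 hj).2.2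
  have pos : 0 < NU c := by unfold NU; omega
  obtain ⟨Φ', p1, p2, p3, p4⟩ :=
    phi_ext (F ⟨0, pos⟩).2.2.1 hΦ hg (fun j hj => Or.inl (hs j hj)) hT
  have nΦ : ∀ j, j ∉ ag3 Φ → ∀ v ∈ (g j).its, v ∉ it3 Φ := fun j hj v hv =>
    (mem_sdiff.1 (hg.inW j (mA j hj) hv)).2
  have fit : ∀ v ∈ fitF F, ∃ r, v ∈ (g (F r).1).its := fun v hv => by
    obtain ⟨r, h⟩ := mem_fitF.1 hv
    exact ⟨r, by rw [(hm r).2.2]; simpa using h⟩
  have nF : ∀ j, j ∉ ag3 Φ → j ∉ fagF F → ∀ v ∈ (g j).its, v ∉ fitF F := fun j h1 h2 v hv hv' => by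
    obtain ⟨r, hr⟩ := fit v hv'
    exact disjoint_left.1 (hg.dis j (mA j h1) _ (hm r).1 fun e => h2 (mem_fagF.2 ⟨r, e.symm⟩))
      hv hr
  have dI : Disjoint (it3 Φ') (fitF F) := by
    rw [p4, disjoint_left]
    intro v hv hv'
    rcases mem_union.1 hv with hv | hv
    · obtain ⟨r, hr⟩ := fit v hv'
      exact nΦ _ (mem_sdiff.1 (hm r).1).2 v hr hv
    · obtain ⟨j, hj, hv⟩ := mem_biUnion.1 hv
      exact nF j ((mT j).1 hj).1 ((mT j).1 hj).2.1 v hv hv'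
  have dA : Disjoint (ag3 Φ') (fagF F) := by
    rw [p3, disjoint_left]
    intro j hj hj'
    rcases mem_union.1 hj with hj | hj
    · obtain ⟨r, rfl⟩ := mem_fagF.1 hj'
      exact (mem_sdiff.1 (hm r).1).2 hj
    · exact ((mT j).1 hj).2.1 hj'
  have rem : ∀ j, j ∉ fagF F → j ∉ ag3 Φ' → j ∉ ag3 Φ ∧
      ∀ v ∈ (g j).its, v ∉ fitF F ∧ v ∉ it3 Φ' ∧ v ∉ Bd := fun j h1 h2 => by
    rw [p3, mem_union, not_or] at h2
    refine ⟨h2.1, fun v hv => ⟨nF j h2.1 h1 v hv, ?_, fun hb => h2.2 ((mT j).2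
      ⟨h2.1, h1, fun hd => disjoint_left.1 hd hv hb⟩)⟩⟩
    rw [p4, mem_union, not_or]
    refine ⟨nΦ j h2.1 v hv, fun h => ?_⟩
    obtain ⟨i, hi, hv'⟩ := mem_biUnion.1 h
    exact disjoint_left.1 (hg.dis j (mA j h2.1) i (hT hi) fun e => h2.2 (e ▸ hi)) hv hv'
  have core : ∀ Wt : Finset (J × V × V), Disjoint (it2 Wt) (fitF F) →
      (∀ j, j ∉ fagF F → j ∉ ag3 Φ' → j ∉ ag2 Wt → Disjoint (g j).its (it2 Wt)) →
      St (P.SU c F Φ' (Bd \ fitF F) Wt) (P.Serv2 (P.SU c F Φ' (Bd \ fitF F) Wt))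
        (P.SU c F Φ' (Bd \ fitF F) Wt).A (fun j => (g j).its) ∧
      Geo.expo c F ⊆ (P.SU c F Φ' (Bd \ fitF F) Wt).W ∧
      ∀ j ∈ (P.SU c F Φ' (Bd \ fitF F) Wt).A, Disjoint (g j).its (Geo.expo c F) :=
    fun Wt k1 k2 => by
    refine ⟨⟨Subset.rfl, fun j hj v hv => ?_, fun j hj => ?_, fun i hi j hj hij => ?_,
      fun _ _ h => h.elim⟩, fun v hv => ?_, fun j hj => ?_⟩
    · have a := (mem_A j).1 hj
      have b := (rem j a.1 a.2.1).2 v hv
      exact (mem_W v).2 ⟨fun h => absurd h b.1, b.2.1, fun h => b.2.2 (mem_sdiff.1 h).1,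
        disjoint_left.1 (k2 j a.1 a.2.1 a.2.2) hv⟩
    · have a := (mem_A j).1 hj
      exact hs j (mA j (rem j a.1 a.2.1).1)
    · have a := (mem_A i).1 hi
      have b := (mem_A j).1 hj
      exact hg.dis i (mA i (rem i a.1 a.2.1).1) j (mA j (rem j b.1 b.2.1).1) hij
    · have a := expo_sub hv
      exact (mem_W v).2 ⟨fun _ => hv, disjoint_right.1 dI a, fun h => (mem_sdiff.1 h).2 a,
        disjoint_right.1 k1 a⟩
    · have a := (mem_A j).1 hj
      exact disjoint_left.2 fun v hv h => ((rem j a.1 a.2.1).2 v hv).1 (expo_sub h)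
  have ec := expo_card hF.dis
  refine ⟨ty, F, Φ', Bd \ fitF F, hF, fun r => (hm r).2.1, by omega,
    (card_le_card sdiff_subset).trans (by omega), p1, dA, dI, sdiff_disjoint,
    fun v h1 _ h3 => ?_, ?_⟩
  · have : v ∉ Bd := fun h => h3 (mem_sdiff.2 ⟨h, h1⟩)
    rw [mB, not_or] at this
    exact this
  by_cases hw : ∃ j, j ∉ fagF F ∧ j ∉ ag3 Φ' ∧ ¬ P.mu j ∧ ∃ a b, g j = Sv.two a b ∧
      (P.base.hard c F a ∨ P.base.hard c F b)
  · obtain ⟨j, j1, j2, j0, a, b, j3, j4⟩ := hw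
    have n := hg.nrm j (mA j (rem j j1 j2).1)
    rw [j3] at n
    obtain ⟨-, n1, n2, n3⟩ := n.2.resolve_right fun h => j0 h.1
    have ra := (rem j j1 j2).2 a (by simp [j3, Sv.its])
    have rb := (rem j j1 j2).2 b (by simp [j3, Sv.its])
    have ba := ra.2.2
    have bb' := rb.2.2
    rw [mB, not_or] at ba bb'
    obtain ⟨s, s1, s2, s3⟩ : ∃ s : J × V × V, P.base.WitU c F s ∧ s.1 = j ∧
        ({s.2.1, s.2.2} : Finset V) = (g j).its := by
      rcases j4 with j4 | j4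
      · exact ⟨(j, a, b), ⟨⟨true, n1, n2⟩, n3, j4, bb'.1, bb'.2, j1, ra.1, rb.1⟩, rfl,
          by simp [j3, Sv.its]⟩
      · exact ⟨(j, b, a), ⟨⟨false, n2, n1⟩, fun h => n3 (Geo.HH_symm h), j4, ba.1, ba.2, j1, rb.1,
          ra.1⟩, rfl, by simp [j3, Sv.its, pair_comm]⟩
    have i2 : it2 {s} = (g j).its := by rw [← s3]; simp [it2]
    obtain ⟨k1, k2, k3⟩ := core {s} (wit_dis s1) fun i i1 i3 i4 => by
      rw [i2]
      exact hg.dis i (mA i (rem i i1 i3).1) j (mA j (rem j j1 j2).1) fun h =>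
        i4 (by simp [ag2, s2, h])
    have k4 := use_le k1 k2 k3
    rw [ec] at k4
    exact Or.inl ⟨s, s1, s2 ▸ j0, s2 ▸ j2, ((rem j j1 j2).2 _ (by rw [← s3]; simp)).2.1,
      ((rem j j1 j2).2 _ (by rw [← s3]; simp)).2.1,
      hS J V K P rk _ c (wf_SU _ _ _) ⟨_, k1, k4⟩⟩
  refine Or.inr ?_
  obtain ⟨k1, k2, k3⟩ := core ∅ (by rw [it2_empty]; exact disjoint_empty_left _)
    fun _ _ _ _ => by rw [it2_empty]; exact disjoint_empty_right _
  set S := P.SU c F Φ' (Bd \ fitF F) ∅ with hS'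
  have wf : P.Wf S := wf_SU _ _ _
  have k4 := use_le k1 k2 k3
  rw [ec] at k4
  by_cases h2 : P.Sol2 S (c + 1)
  · exact Or.inl (hS J V K P rk _ _ wf h2)
  have k5 : ∀ f, St S (P.Serv2 S) S.A f → S.W.card ≤ use S.A f + c := fun f hf => by
    by_contra hn
    exact h2 ⟨f, hf, by omega⟩
  have sA : ∀ j ∈ S.A, j ∈ univ \ ag3 Φ := fun j hj =>
    mA j (rem j ((mem_A j).1 hj).1 ((mem_A j).1 hj).2.1).1
  have mn : P.Min2 S S.A g := by
    refine ⟨⟨Subset.rfl, k1.inW, fun j hj => ?_, k1.dis⟩, fun j hj => hnt j (sA j hj),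
      fun f hf => ?_⟩
    · have n := hg.nrm j (sA j hj)
      rcases hj' : g j with _ | x | ⟨x, y⟩ | ⟨x, z, y⟩ <;> rw [hj'] at n <;> exact n
    · have := k5 f hf
      omega
  have un := unused_eq k1 k2 k3 (by rw [ec]; exact k5 _ k1)
  have nh : ∀ j ∈ S.A, ¬ P.mu j → ∀ a b, g j = Sv.two a b →
      ¬ P.hardO c F a ∧ ¬ P.hardO c F b := fun j hj hmu a b hab =>
    ⟨fun h => hw ⟨j, ((mem_A j).1 hj).1, ((mem_A j).1 hj).2.1, hmu, a, b, hab, Or.inl h.1⟩,
      fun h => hw ⟨j, ((mem_A j).1 hj).1, ((mem_A j).1 hj).2.1, hmu, a, b, hab, Or.inr h.1⟩⟩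
  have ne : ∀ v ∈ Geo.expo c F, ¬ P.hardO c F v := fun v hv h => h.2 (expo_sub hv)
  refine Or.inr ⟨hS J V K P rk _ c wf ⟨_, k1, k4⟩,
    hNec J V K P S e c _ g wf mn k4 (fun j hj hmu a b hab => ?_) ?_,
    hNec J V K P S e c _ g wf mn k4 (fun j hj hmu a b hab => ?_) ?_⟩
  · exact ⟨iff_false_intro (nh j hj hmu a b hab).1, iff_false_intro (nh j hj hmu a b hab).2⟩
  · have : frn S.W (P.hardO c F) S.A (fun j => (g j).its) = 0 := by
      unfold frn
      rw [card_eq_zero, filter_eq_empty_iff]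
      exact fun v hv h => ne v ((un v).1 ⟨hv, h.2⟩) h.1
    rw [this]
  · exact ⟨iff_true_intro (nh j hj hmu a b hab).1, iff_true_intro (nh j hj hmu a b hab).2⟩
  · have : frn S.W (fun v => ¬ P.hardO c F v) S.A (fun j => (g j).its) = c := by
      refine (frn_eq fun v => ?_).trans ec
      exact ⟨fun h => ⟨((un v).2 h).1, ne v h, ((un v).2 h).2⟩,
        fun h => (un v).1 ⟨h.1, h.2.2⟩⟩
    rw [this]

end EUA

open EUA

theorem uSoundS (h1 : UAStmt) (h2 : UAX) : USoundS := by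
  intro e c L hS hP J V K _ _ _ _ _ _ P rk hrk
    ⟨ty, F, Φ, D, hF, hmu, _, _, hΦ, _, d1, _, hv, hm⟩
  rcases hm with ⟨s, s1, s0, -, s2, s3, ht⟩ | ht | ⟨ht, t1, t2⟩
  · refine sound_core h1 hF hmu hΦ d1 (by simp [it2, s2, s3]) hv (Or.inr ⟨s, rfl, s1⟩)
      (by simpa [ag2] using s0) (hS J V K P rk _ c hrk (wf_SU _ _ _) le_rfl ht)
      fun n Z' a1 a2 => ?_
    obtain ⟨Z, z1, z2⟩ := exists_subset_card_eq (s := Z') (n := n) (by omega)
    exact ⟨Z, z1, by omega, by omega, Or.inr (Or.inr (by simp))⟩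
  · exact sound_more h1 hF hmu hΦ d1 hv
      (hS J V K P rk _ (c + 1) hrk (wf_SU _ _ _) (by omega) ht)
  · rcases hP J V K P _ c (P.hardO c F) (wf_SU _ _ _) le_rfl
      (hS J V K P rk _ c hrk (wf_SU _ _ _) le_rfl ht) t1 t2 with h | ⟨f, hf, hu, hp⟩
    · exact sound_more h1 hF hmu hΦ d1 hv h
    · exact sound_par h1 h2 hF hmu hΦ d1 hv hf hu hp

theorem uNecS (hN : NormS) (hNec : NecS) (h : UnitStmt) : UNecS := by
  intro e c cT hS
  refine ⟨cT + NU c * NU c + 1,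
    fun L hL J V K _ _ _ _ _ _ P rk Φ g ty F hΦ hc hg hnt hF hm => ?_⟩
  obtain ⟨-, -, -, -, -, h6, -⟩ := hN J V K P _ (univ \ ag3 Φ)
    (G3.wf_pl (P := P) (univ \ ag3 Φ) (univ \ it3 Φ))
  exact nec_main h hNec hS hL rk hΦ hc hg hnt (h6 g hg hnt).srv hF hm

end Pool.Agent.Lib.MP_ef7581_lc.D3
end
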