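import Mathlib
import Pool.Agent.Lib.MP_ef7581_lc.POracle

/-!
Coded instances of the abstract problem; the basic predicates are polynomial-time decidable.
-/

set_option autoImplicit false

namespace Pool.Agent.Lib.MP_ef7581_lc

open Pool.Agent.Shared.PolyTime Finset

/-- Code of a colour. -/
def cc : Option Bool → ℕ
  | none => 0
  | some false => 1
  | some true => 2

instance encCol : Enc (Option Bool) := ⟨fun o => Enc.enc (cc o)⟩

/-- An instance of the abstract problem with numbered agents and vertices. -/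
structure CI : Type where
  k : ℕ
  n : ℕ
  P : AP (Fin k) (Fin n)

/-- The data of an instance. -/
def CI.code (c : CI) : ℕ × ℕ × List (List Prop) × List (List (Option Bool)) :=
  (c.k, c.n, tabT fun u => tabT fun v => c.P.H u v, tabT fun j => tabT fun v => c.P.col j v)

noncomputable instance encCI : Enc CI := ⟨fun c => Enc.enc c.code⟩

/-- Agents, vertices and nodes of a family of instances. -/
abbrev FJ {γ : Type} (c : γ → CI) : γ → Type := fun a => Fin (c a).k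
abbrev FV {γ : Type} (c : γ → CI) : γ → Type := fun a => Fin (c a).n
abbrev FN {γ : Type} (c : γ → CI) : γ → Type := fun a => Nd (Fin (c a).k) (Fin (c a).n)

variable {γ : Type} [Enc γ]

theorem pf_cc {f : γ → Option Bool} (hf : PF f) : PF fun a => cc (f a) := hf

theorem pf_eqO {f g : γ → Option Bool} (hf : PF f) (hg : PF g) : PF fun a => f a = g a :=
  pf_iff (pf_eq (pf_cc hf) (pf_cc hg)) fun a => by
    rcases f a with _ | _ | _ <;> rcases g a with _ | _ | _ <;> simp [cc]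

theorem pf_neO {f g : γ → Option Bool} (hf : PF f) (hg : PF g) : PF fun a => f a ≠ g a :=
  pf_not (pf_eqO hf hg)

theorem pf_toCI {c : γ → CI} (h : PF fun a => (c a).code) : PF c := h

variable {c : γ → CI}

theorem pf_code (hc : PF c) : PF fun a => (c a).code := hc
theorem pf_k (hc : PF c) : PF fun a => (c a).k := (pf_code hc).fst
theorem pf_n (hc : PF c) : PF fun a => (c a).n := (pf_code hc).snd.fst
theorem pf_Nk (hc : PF c) : PF fun a => Num.N (Fin (c a).k) := pf_k hc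
theorem pf_Nn (hc : PF c) : PF fun a => Num.N (Fin (c a).n) := pf_n hc
theorem pf_NN (hc : PF c) : PF fun a => Num.N (FN c a) :=
  pf_Nsum (pf_Nk hc) (pf_Nsum (pf_Nn hc) (pf_Nk hc))

theorem pf_H (hc : PF c) {u v : ∀ a, Fin (c a).n} (hu : PF fun a => idx (u a))
    (hv : PF fun a => idx (v a)) : PF fun a => (c a).P.H (u a) (v a) :=
  (PF.getD (PF.getD (pf_code hc).snd.snd.fst hu (PF.const [])) hv (PF.const False)).of_eq
    fun a => by simp only [CI.code, getD_tabT]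

theorem pf_col (hc : PF c) {j : ∀ a, Fin (c a).k} {v : ∀ a, Fin (c a).n}
    (hj : PF fun a => idx (j a)) (hv : PF fun a => idx (v a)) :
    PF fun a => (c a).P.col (j a) (v a) :=
  (PF.getD (PF.getD (pf_code hc).snd.snd.snd hj (PF.const [])) hv (PF.const none)).of_eq
    fun a => by simp only [CI.code, getD_tabT]

theorem pf_ag {j : ∀ a, Fin (c a).k} (hj : PF fun a => idx (j a)) :
    PF fun a => idx (ag (j a) : FN c a) := hj

theorem pf_vx (hc : PF c) {v : ∀ a, Fin (c a).n} (hv : PF fun a => idx (v a)) :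
    PF fun a => idx (vx (v a) : FN c a) := pf_inr (pf_Nk hc) (pf_inl hv)

theorem pf_node {β : Type} [Enc β] [Inhabited β] (hc : PF c) (f : ∀ a, FN c a → β)
    (h1 : PF fun p : Pt (FJ c) => f p.a (ag p.x)) (h2 : PF fun p : Pt (FV c) => f p.a (vx p.x))
    (h3 : PF fun p : Pt (FJ c) => f p.a (dm p.x)) : PF fun p : Pt (FN c) => f p.a p.x :=
  pf_cases f (pf_Nk hc) (pf_Nsum (pf_Nn hc) (pf_Nk hc)) h1
    (pf_cases (fun a y => f a (Sum.inr y)) (pf_Nn hc) (pf_Nk hc) h2 h3)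

theorem pf_node2 {β : Type} [Enc β] [Inhabited β] (hc : PF c) (f : ∀ a, FN c a → FN c a → β)
    (h11 : PF fun p : Pt2 (FJ c) (FJ c) => f p.a.a (ag p.a.x) (ag p.x))
    (h12 : PF fun p : Pt2 (FJ c) (FV c) => f p.a.a (ag p.a.x) (vx p.x))
    (h13 : PF fun p : Pt2 (FJ c) (FJ c) => f p.a.a (ag p.a.x) (dm p.x))
    (h21 : PF fun p : Pt2 (FV c) (FJ c) => f p.a.a (vx p.a.x) (ag p.x))
    (h22 : PF fun p : Pt2 (FV c) (FV c) => f p.a.a (vx p.a.x) (vx p.x))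
    (h23 : PF fun p : Pt2 (FV c) (FJ c) => f p.a.a (vx p.a.x) (dm p.x))
    (h31 : PF fun p : Pt2 (FJ c) (FJ c) => f p.a.a (dm p.a.x) (ag p.x))
    (h32 : PF fun p : Pt2 (FJ c) (FV c) => f p.a.a (dm p.a.x) (vx p.x))
    (h33 : PF fun p : Pt2 (FJ c) (FJ c) => f p.a.a (dm p.a.x) (dm p.x)) :
    PF fun p : Pt2 (FN c) (FN c) => f p.a.a p.a.x p.x := by
  have k1 := pf_node (c := fun p : Pt (FJ c) => c p.a) (hc.comp (pt_a PF.id'))
    (fun p y => f p.a (ag p.x) y) h11 h12 h13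
  have k2 := pf_node (c := fun p : Pt (FV c) => c p.a) (hc.comp (pt_a PF.id'))
    (fun p y => f p.a (vx p.x) y) h21 h22 h23
  have k3 := pf_node (c := fun p : Pt (FJ c) => c p.a) (hc.comp (pt_a PF.id'))
    (fun p y => f p.a (dm p.x) y) h31 h32 h33
  exact pf_swap (fun a x y => f a y x) (pf_node (c := fun p : Pt (FN c) => c p.a)
    (hc.comp (pt_a PF.id')) (fun p y => f p.a y p.x) (pf_swap (fun a x y => f a (ag x) y) k1)
    (pf_swap (fun a x y => f a (vx x) y) k2) (pf_swap (fun a x y => f a (dm x) y) k3))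

/-- A polynomial-time family of auxiliary graphs. -/
structure PR (c : γ → CI) (R : ∀ a, Rx (Fin (c a).k) (Fin (c a).n)) : Prop where
  nc : PF fun p : Pt2 (FJ c) (FV c) => (R p.a.a).nc p.a.x p.x
  pe : PF fun p : Pt2 (FV c) (FV c) => (R p.a.a).pe p.a.x p.x
  du : PF fun p : Pt (FJ c) => (R p.a).du p.x

theorem pr_R0 : PR c fun _ => AP.R0 _ _ := ⟨PF.const False, PF.const False, PF.const False⟩

theorem pf_c2 {S T : γ → Type} [∀ a, Num (S a)] [∀ a, Num (T a)] (hc : PF c) :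
    PF fun p : Pt2 S T => c p.a.a := hc.comp (pt_a (pt_a PF.id'))

theorem pf_x1 {S T : γ → Type} [∀ a, Num (S a)] [∀ a, Num (T a)] :
    PF fun p : Pt2 S T => idx p.a.x := pt_x (pt_a PF.id')

theorem pf_x2 {S : γ → Type} [∀ a, Num (S a)] : PF fun p : Pt S => idx p.x := pt_x PF.id'

theorem pf_E (hc : PF c) {R : ∀ a, Rx (Fin (c a).k) (Fin (c a).n)} (hR : PR c R) :
    PF fun p : Pt2 (FN c) (FN c) => (c p.a.a).P.E (R p.a.a) p.a.x p.x := by
  have h12 : PF fun p : Pt2 (FJ c) (FV c) => (c p.a.a).P.E (R p.a.a) (ag p.a.x) (vx p.x) :=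
    pf_or (pf_eqO (pf_col (pf_c2 hc) pf_x1 pf_x2) (PF.const none)) hR.nc
  have h13 : PF fun p : Pt2 (FJ c) (FJ c) => (c p.a.a).P.E (R p.a.a) (ag p.a.x) (dm p.x) :=
    pf_and (pf_eqT pf_x1 pf_x2) (hR.du.comp (pt_a PF.id'))
  exact pf_node2 hc (fun a => (c a).P.E (R a)) (PF.const False) h12 h13
    (pf_swap (fun a x y => (c a).P.E (R a) (ag x) (vx y)) h12)
    (pf_or hR.pe (pf_swap (fun a => (R a).pe) hR.pe)) (PF.const False)
    (pf_swap (fun a x y => (c a).P.E (R a) (ag x) (dm y)) h13) (PF.const False) (PF.const False)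

theorem pf_om (hc : PF c) {l : γ → ℕ} (hl : PF l) :
    PF fun p : Pt2 (FN c) (FN c) => (c p.a.a).P.om (l p.a.a) p.a.x p.x := by
  have h0 : ∀ (S T : γ → Type) [∀ a, Num (S a)] [∀ a, Num (T a)] (i : ℕ),
      PF fun p : Pt2 S T => l p.a.a + i := fun S T _ _ i =>
    (hl.comp (pt_a (pt_a PF.id'))).add (PF.const i)
  have h12 : PF fun p : Pt2 (FJ c) (FV c) => (c p.a.a).P.om (l p.a.a) (ag p.a.x) (vx p.x) :=
    pf_ite (pf_eqO (pf_col (pf_c2 hc) pf_x1 pf_x2) (PF.const none)) (h0 _ _ 2) (h0 _ _ 1)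
  exact pf_node2 hc (fun a => (c a).P.om (l a)) (h0 _ _ 1) h12 (h0 _ _ 1)
    (pf_swap (fun a x y => (c a).P.om (l a) (ag x) (vx y)) h12) (h0 _ _ 1) (h0 _ _ 1) (h0 _ _ 1)
    (h0 _ _ 1) (h0 _ _ 1)

theorem om_symm {J V : Type} (P : AP J V) (l : ℕ) (x y : Nd J V) : P.om l x y = P.om l y x := by
  rcases x with i | u | i <;> rcases y with j | v | j <;> rfl

theorem pf_Phi (hc : PF c) {R : ∀ a, Rx (Fin (c a).k) (Fin (c a).n)} (hR : PR c R) {l : γ → ℕ}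
    (hl : PF l) : PF fun a => (c a).P.Phi (R a) (l a) := by
  have hk := pf_k hc
  have hn := pf_n hc
  refine pf_iff (pf_maxw (E := fun a => (c a).P.E (R a)) (ω := fun a => (c a).P.om (l a))
    (t := fun a => 2 * ((l a + 3) * (c a).k) - 2 * (c a).n) (pf_NN hc) (pf_E hc hR)
    (pf_om hc hl) (by fun_prop) (fun _ _ _ => AP.E_symm) fun a => om_symm _ _) fun a => ?_
  simp only [AP.Phi, Fintype.card_fin, tsub_le_iff_right]

theorem pf_covC (hc : PF c) {t : γ → ℕ} (ht : PF t) :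
    PF fun a => ∃ m, (c a).P.CM m ∧ t a ≤ cov m :=
  pf_cov (E := fun a => (c a).P.E (AP.R0 _ _)) (pf_NN hc) (pf_E hc pr_R0) ht
    fun _ _ _ => AP.E_symm

theorem pf_C0 (hc : PF c) : PF fun a => (c a).P.C0 := by
  have hk := pf_k hc
  have hn := pf_n hc
  refine pf_iff (pf_covC hc (t := fun a => 4 * (c a).k - 2 * (c a).n) (by fun_prop)) fun a => ?_
  simp only [AP.C0, Fintype.card_fin, tsub_le_iff_right]

theorem pf_Crit (hc : PF c) : PF fun a => (c a).P.Crit := by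
  have hk := pf_k hc
  have hn := pf_n hc
  refine pf_iff (pf_not (pf_covC hc (t := fun a => 4 * (c a).k + 1 - 2 * (c a).n) (by fun_prop)))
    fun a => ?_
  simp only [AP.Crit, Fintype.card_fin, not_exists, not_and]
  exact forall_congr' fun m => imp_congr_right fun _ => by omega

theorem pf_Miss (hc : PF c) {z : ∀ a, FN c a} (hz : PF fun a => idx (z a)) :
    PF fun a => ∃ m, (c a).P.MaxC m ∧ m (z a) = z a := by
  have h1 : PF fun q : γ × ℕ => ∃ m, IsM (fun x y => (c q.1).P.E (AP.R0 _ _) x y ∧ x ≠ z q.1 ∧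
      y ≠ z q.1) m ∧ q.2 ≤ cov m := by
    have hc' : PF fun q : γ × ℕ => c q.1 := hc.comp PF.id'.fst
    refine pf_cov (T := fun q : γ × ℕ => FN c q.1) (E := fun q x y =>
      (c q.1).P.E (AP.R0 _ _) x y ∧ x ≠ z q.1 ∧ y ≠ z q.1) (pf_NN hc') ?_ PF.id'.snd
      fun _ _ _ h => ⟨AP.E_symm h.1, h.2.2, h.2.1⟩
    exact pf_and (pf_E hc' pr_R0) (pf_and (pf_neT pf_x1 (hz.comp (pt_a (pt_a PF.id')).fst))
      (pf_neT pf_x2 (hz.comp (pt_a (pt_a PF.id')).fst)))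
  have h2 : PF fun q : γ × ℕ => ¬ ∃ m, (c q.1).P.CM m ∧ q.2 + 1 ≤ cov m :=
    pf_not (pf_covC (hc.comp PF.id'.fst) (PF.id'.snd.add (PF.const 1)))
  refine pf_iff (pf_exle (pf_NN hc) (q := fun a t => (∃ m, IsM (fun x y =>
    (c a).P.E (AP.R0 _ _) x y ∧ x ≠ z a ∧ y ≠ z a) m ∧ t ≤ cov m) ∧
    ¬ ∃ m, (c a).P.CM m ∧ t + 1 ≤ cov m) (pf_and h1 h2)) fun a => ⟨?_, ?_⟩
  · rintro ⟨m, k1, k2⟩
    refine ⟨cov m, card_eq_N (T := FN c a) ▸ card_le_univ _, ⟨m, ⟨k1.1.1, fun x hx =>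
      ⟨k1.1.2 x hx, fun e => hx (e ▸ k2), fun e => hx ?_⟩⟩, le_rfl⟩, ?_⟩
    · rw [e, ← k2, ← e, k1.1.1]
    · rintro ⟨m', k3, k4⟩
      have := k1.2 m' k3
      omega
  · rintro ⟨t, -, ⟨m, k1, k2⟩, k3⟩
    refine ⟨m, ⟨k1.mono fun _ _ h => h.1, fun m' hm' => ?_⟩, ?_⟩
    · by_contra h
      exact k3 ⟨m', hm', by omega⟩
    · by_contra h
      exact (k1.2 _ h).2.1 rfl

theorem pf_W (hc : PF c) {v : ∀ a, Fin (c a).n} (hv : PF fun a => idx (v a)) :
    PF fun a => (c a).P.W (v a) := pf_Miss hc (pf_vx hc hv)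

theorem pf_JD (hc : PF c) {j : ∀ a, Fin (c a).k} (hj : PF fun a => idx (j a)) :
    PF fun a => (c a).P.JD (j a) := pf_Miss hc (pf_ag hj)

theorem pf_c1 {S : γ → Type} [∀ a, Num (S a)] (hc : PF c) : PF fun p : Pt S => c p.a :=
  hc.comp (pt_a PF.id')

theorem pf_JA (hc : PF c) {j : ∀ a, Fin (c a).k} (hj : PF fun a => idx (j a)) :
    PF fun a => (c a).P.JA (j a) :=
  pf_ex (pf_Nn hc) (pf_and (pf_W (pf_c1 hc) pf_x2)
    (pf_eqO (pf_col (pf_c1 hc) (hj.comp (pt_a PF.id')) pf_x2) (PF.const none)))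

section Two

variable (hc : PF c) {x v : ∀ a, Fin (c a).n} (hx : PF fun a => idx (x a))
  (hv : PF fun a => idx (v a))

include hc hx hv

theorem pf_Xs : PF fun a => (c a).P.Xs (x a) (v a) :=
  pf_and (pf_W hc hv) (pf_all (pf_Nk hc) (pf_imp (pf_JD (pf_c1 hc) pf_x2)
    (pf_eqO (pf_col (pf_c1 hc) pf_x2 (hv.comp (pt_a PF.id')))
      (pf_col (pf_c1 hc) pf_x2 (hx.comp (pt_a PF.id'))))))

theorem pf_Ys : PF fun a => (c a).P.Ys (x a) (v a) :=
  pf_and (pf_W hc hv) (pf_all (pf_Nk hc) (pf_imp (pf_JD (pf_c1 hc) pf_x2)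
    (pf_neO (pf_col (pf_c1 hc) pf_x2 (hv.comp (pt_a PF.id')))
      (pf_col (pf_c1 hc) pf_x2 (hx.comp (pt_a PF.id'))))))

theorem pf_Ks : PF fun a => (c a).P.Ks (x a) (v a) := pf_or (pf_Xs hc hx hv) (pf_Ys hc hx hv)

theorem pf_Fs : PF fun a => (c a).P.Fs (x a) (v a) :=
  pf_and (pf_W hc hv) (pf_not (pf_Ks hc hx hv))

theorem pf_TwoStruct : PF fun a => (c a).P.TwoStruct (x a) (v a) :=
  pf_and (pf_W hc hx) (pf_and (pf_Fs hc hx hv) (pf_all (pf_Nn hc) (pf_imp (pf_W (pf_c1 hc) pf_x2)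
    (pf_or (pf_Ks (pf_c1 hc) (hx.comp (pt_a PF.id')) pf_x2)
      (pf_Ks (pf_c1 hc) (hv.comp (pt_a PF.id')) pf_x2)))))

end Two

theorem pr_Gam (hc : PF c) {Z : ∀ a, Fin (c a).n → Prop} {Maj : ∀ a, Fin (c a).k → Bool → Prop}
    (hZ : PF fun p : Pt (FV c) => Z p.a p.x)
    (hM : ∀ b, PF fun p : Pt (FJ c) => Maj p.a p.x b) :
    PR c fun a => (c a).P.Gam (Z a) (Maj a) := by
  have h1 : ∀ b : Bool, PF fun p : Pt2 (FJ c) (FV c) => Maj p.a.a p.a.x b ∧
      (((c p.a.a).P.col p.a.x p.x = some (!b) ∧ Z p.a.a p.x) ∨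
        ((c p.a.a).P.col p.a.x p.x = some b ∧ ¬ Z p.a.a p.x)) := fun b =>
    have hz := pf_at Z hZ (pt_a (pt_a (PF.id' (α := Pt2 (FJ c) (FV c))))) pf_x2
    pf_and ((hM b).comp (pt_a PF.id'))
      (pf_or (pf_and (pf_eqO (pf_col (pf_c2 hc) pf_x1 pf_x2) (PF.const _)) hz)
        (pf_and (pf_eqO (pf_col (pf_c2 hc) pf_x1 pf_x2) (PF.const _)) (pf_not hz)))
  exact ⟨pf_exBool (h1 false) (h1 true), pf_and (pf_not (hZ.comp (pt_a PF.id')))
    (pf_and (pf_at Z hZ (pt_a (pt_a PF.id')) pf_x2) (pf_not (pf_H (pf_c2 hc) pf_x1 pf_x2))),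
    pf_not (pf_exBool (hM false) (hM true))⟩

section Three

variable (hc : PF c) {x y z : ∀ a, Fin (c a).n} (hx : PF fun a => idx (x a))
  (hy : PF fun a => idx (y a)) (hz : PF fun a => idx (z a))

include hc hx

theorem pf_H1 : PF fun p : Pt (FV c) => ¬ (c p.a).P.H (x p.a) p.x :=
  pf_not (pf_H (pf_c1 hc) (hx.comp (pt_a PF.id')) pf_x2)

theorem pf_col1 (o : Option Bool) : PF fun p : Pt (FJ c) => (c p.a).P.col p.x (x p.a) = o :=
  pf_eqO (pf_col (pf_c1 hc) pf_x2 (hx.comp (pt_a PF.id'))) (PF.const o)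

theorem pf_peK : PF fun p : Pt2 (FV c) (FV c) => (c p.a.a).P.Xs (x p.a.a) p.a.x ∧
    (c p.a.a).P.Ys (x p.a.a) p.x ∧ ¬ (c p.a.a).P.H p.a.x p.x :=
  pf_and (pf_Xs (pf_c2 hc) (hx.comp (pt_a (pt_a PF.id'))) pf_x1)
    (pf_and (pf_Ys (pf_c2 hc) (hx.comp (pt_a (pt_a PF.id'))) pf_x2)
      (pf_not (pf_H (pf_c2 hc) pf_x1 pf_x2)))

theorem pr_GamK : PR c fun a => (c a).P.GamK (x a) :=
  ⟨pf_and (pf_JD (pf_c2 hc) pf_x1) (pf_Fs (pf_c2 hc) (hx.comp (pt_a (pt_a PF.id'))) pf_x2),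
    pf_peK hc hx, PF.const False⟩

theorem pr_GamF : PR c fun a => (c a).P.GamF (x a) :=
  ⟨PF.const False, pf_peK hc hx, PF.const False⟩

include hy

theorem pr_Gam2 : PR c fun a => (c a).P.Gam2 (x a) (y a) :=
  pr_Gam hc (pf_and (pf_H1 hc hx) (pf_H1 hc hy)) fun _ =>
    pf_and (pf_col1 hc hx _) (pf_col1 hc hy _)

include hz

theorem pr_GamA : PR c fun a => (c a).P.GamA (x a) (y a) (z a) :=
  pr_Gam hc (pf_and (pf_H1 hc hx) (pf_and (pf_H1 hc hy) (pf_H1 hc hz))) fun _ =>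
    pf_or (pf_and (pf_col1 hc hx _) (pf_col1 hc hy _))
      (pf_or (pf_and (pf_col1 hc hx _) (pf_col1 hc hz _))
        (pf_and (pf_col1 hc hy _) (pf_col1 hc hz _)))

theorem pr_GamB : PR c fun a => (c a).P.GamB (x a) (y a) (z a) :=
  pr_Gam hc (pf_and (pf_H1 hc hx) (pf_H1 hc hy)) fun _ =>
    pf_or (pf_and (pf_col1 hc hx _) (pf_col1 hc hy _))
      (pf_or (pf_and (pf_col1 hc hx _) (pf_and (pf_col1 hc hy _) (pf_not (pf_col1 hc hz _))))
        (pf_and (pf_col1 hc hy _) (pf_and (pf_col1 hc hx _) (pf_not (pf_col1 hc hz _)))))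

end Three

end Pool.Agent.Lib.MP_ef7581_lc
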