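import Mathlib
import Pool.Agent.Shared.Matching.Exact
import Pool.Agent.Lib.MP_ef7581_lc.POracle

/-!
The exact matching oracle on families of numbered types.
-/

set_option autoImplicit false

namespace Pool.Agent.Lib.MP_ef7581_lc

open Pool.Agent.Shared.PolyTime Pool.Agent.Shared.Matching Finset

/-- The structure required by the exact matching oracle. -/
structure TH {T : Type} (cls : T → ℕ) (E B : T → T → Prop) : Prop where
  sE : ∀ x y, E x y → E y x
  sB : ∀ x y, B x y → B y x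
  h1 : ∀ x y, E x y → cls x ≤ cls y → (cls x = 0 ∧ cls y = 1) ∨ (cls x = 0 ∧ cls y = 2) ∨
    (cls x = 2 ∧ cls y = 3) ∨ (cls x = 3 ∧ cls y = 4)
  h2 : ∀ x y, E x y → B x y → cls x ≤ cls y → cls x = 0 ∧ cls y = 2
  h3 : ∀ x y y', cls x = 0 → cls y = 2 → cls y' = 2 → E x y → E x y'

variable {γ : Type} [Enc γ] {T : γ → Type} [∀ a, Num (T a)] [∀ a, Fintype (T a)]

theorem pf_exactPM {E B : ∀ a, T a → T a → Prop} {cls : ∀ a, T a → ℕ} {b : γ → ℕ}
    (hN : PF fun a => Num.N (T a)) (hE : PF fun p : Pt2 T T => E p.a.a p.a.x p.x)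
    (hB : PF fun p : Pt2 T T => B p.a.a p.a.x p.x) (hc : PF fun p : Pt T => cls p.a p.x)
    (hb : PF b) (H : ∀ a, TH (cls a) (E a) (B a)) :
    PF fun a => ∃ m, IsM (E a) m ∧ (∀ x, m x ≠ x) ∧
      cnt (fun x => cls a x = 0 ∧ B a x (m x)) = b a := by
  classical
  obtain ⟨F, hF, sF⟩ := exists_exactOracle
  let w : ∀ a, T a → T a → ℕ := fun a x y => if E a x y then (if B a x y then 2 else 1) else 0
  have w0 : ∀ a x y, w a x y ≠ 0 ↔ E a x y := fun a x y => by
    simp only [w]; split_ifs <;> simp [*]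
  have w2 : ∀ a x y, w a x y = 2 ↔ E a x y ∧ B a x y := fun a x y => by
    simp only [w]; split_ifs <;> simp [*]
  have hW : PF fun a => mat (w a) :=
    pf_mat hN (pf_ite hE (pf_ite hB (PF.const 2) (PF.const 1)) (PF.const 0))
  refine pf_ofBool (hF.comp ((pf_tabT hN hc).pair (hW.pair hb))) fun a => ?_
  have hyp : ExactHyp (mat (w a)).length (fun i => (tabT (cls a)).getD i 0) (mat (w a)) := by
    rw [length_mat]
    refine ⟨wt_mat_symm fun x y => ?_, fun i hi j hj => ?_, fun i hi j hj => ?_,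
      fun i hi j hj j' hj' => ?_⟩
    · have h1 : E a x y ↔ E a y x := ⟨(H a).sE _ _, (H a).sE _ _⟩
      have h2 : B a x y ↔ B a y x := ⟨(H a).sB _ _, (H a).sB _ _⟩
      simp only [w, h1, h2]
    all_goals
      obtain ⟨x, rfl⟩ := exists_idx hi
      obtain ⟨y, rfl⟩ := exists_idx hj
    · simp only [wt_mat, getD_tabT, w0]
      exact (H a).h1 x y
    · simp only [wt_mat, getD_tabT, w2]
      exact fun h => (H a).h2 x y h.1 h.2
    · obtain ⟨y', rfl⟩ := exists_idx hj'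
      simp only [wt_mat, getD_tabT, w0]
      exact (H a).h3 x y y'
  have hcnt : ∀ (m : T a → T a) (m' : ℕ → ℕ), (∀ x, m' (idx x) = idx (m x)) → (∀ x, E a x (m x)) →
      blueCount (Num.N (T a)) (fun i => (tabT (cls a)).getD i 0) (mat (w a)) m' =
        cnt (fun x => cls a x = 0 ∧ B a x (m x)) := fun m m' h1 h2 => by
    unfold blueCount
    rw [cnt_eq, card_filter, card_filter, sum_range_idx]
    refine sum_congr rfl fun x _ => ?_
    simp only [h1, getD_tabT, wt_mat, w2, h2, true_and]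
  rw [sF _ _ _ hyp, length_mat]
  constructor
  · rintro ⟨m, h1, h2, h3⟩
    obtain ⟨m', k1, k2⟩ := exists_untyped h1.1
    refine ⟨m', ⟨length_mat (w a) ▸ k1, fun i hi => ?_⟩, ?_⟩
    · obtain ⟨x, rfl⟩ := exists_idx hi
      rw [k2, wt_mat, w0]
      exact ⟨fun e => h2 x (idx_inj.1 e), h1.2 x (h2 x)⟩
    · rw [hcnt m m' k2 fun x => h1.2 x (h2 x), h3]
  · rintro ⟨m', ⟨h1, h2⟩, h3⟩
    obtain ⟨m, k1, k2⟩ := exists_typed h1
    have k3 : ∀ x, m x ≠ x ∧ E a x (m x) := fun x => by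
      have := h2 _ (idx_lt x)
      rw [k2, wt_mat, w0] at this
      exact ⟨fun e => this.1 (by rw [e]), this.2⟩
    exact ⟨m, ⟨k1, fun x _ => (k3 x).2⟩, fun x => (k3 x).1,
      by rw [← hcnt m m' k2 fun x => (k3 x).2, h3]⟩

/-- Blue edges of the extended graph. -/
def ExtB {T D : Type} (B : T → T → Prop) : T ⊕ D → T ⊕ D → Prop
  | Sum.inl x, Sum.inl y => B x y
  | _, _ => False

theorem TH.ext {T : Type} {cls cl : T → ℕ} {E B : T → T → Prop} (H : TH cls E B) {L : List ℕ}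
    (hL : ∀ x, cl x ∈ L → cls x = 4) :
    TH (Sum.elim cls fun _ => 3) (Ext E cl L) (ExtB B) := by
  have key : ∀ x (d : Fin L.length), cl x = L.getD d 0 → cls x = 4 := fun x d h =>
    hL x (by rw [h, List.getD_eq_getElem _ _ d.2]; exact List.getElem_mem _)
  refine ⟨Ext_symm H.sE _ _, ?_, ?_, ?_, ?_⟩
  · rintro (x | x) (y | y) h
    exacts [H.sB _ _ h, h, h, h]
  · rintro (x | x) (y | y) h
    · exact H.h1 x y h
    · have := key x y h
      simp [this]
    · have := key y x h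
      simp [this]
    · exact h.elim
  · rintro (x | x) (y | y) h h'
    exacts [H.h2 x y h h', h'.elim, h'.elim, h'.elim]
  · rintro (x | x) (y | y) (y' | y') <;> simp
    exact H.h3 x y y'

theorem count_res {T D : Type} [Fintype T] [Fintype D] (cls : T → ℕ) (B : T → T → Prop)
    {m : T → T} {M : T ⊕ D → T ⊕ D} (h : Res m M) :
    cnt (fun z => Sum.elim cls (fun _ => 3) z = 0 ∧ ExtB B z (M z)) =
      cnt fun x => cls x = 0 ∧ m x ≠ x ∧ B x (m x) := by
  rw [cnt_sum, cnt_false (p := fun x => Sum.elim cls (fun _ => 3) (Sum.inr x) = 0 ∧ _) (by simp),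
    add_zero]
  refine cnt_congr fun x => ?_
  rcases h x with ⟨h1, h2⟩ | ⟨h1, d, h2⟩ <;> simp [h1, h2, ExtB]

/-- Exact matching with prescribed numbers of unmatched nodes. -/
theorem pf_exactDefi {E B : ∀ a, T a → T a → Prop} {cls cl : ∀ a, T a → ℕ} {b : γ → ℕ}
    {L : γ → List ℕ} (hN : PF fun a => Num.N (T a)) (hE : PF fun p : Pt2 T T => E p.a.a p.a.x p.x)
    (hB : PF fun p : Pt2 T T => B p.a.a p.a.x p.x) (hc : PF fun p : Pt T => cls p.a p.x)
    (hc' : PF fun p : Pt T => cl p.a p.x) (hL : PF L) (hb : PF b)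
    (H : ∀ a, TH (cls a) (E a) (B a)) (H' : ∀ a x, cl a x ∈ L a → cls a x = 4) :
    PF fun a => ∃ m, IsM (E a) m ∧ Defi (cl a) (L a) m ∧
      cnt (fun x => cls a x = 0 ∧ m x ≠ x ∧ B a x (m x)) = b a := by
  refine pf_iff (pf_exactPM (T := fun a => T a ⊕ Fin (L a).length)
    (E := fun a => Ext (E a) (cl a) (L a)) (B := fun a => ExtB (B a))
    (cls := fun a => Sum.elim (cls a) fun _ => 3) (pf_Nsum hN hL.length) (pf_Ext hN hE hc' hL)
    (pf_cases2 (f := fun a => ExtB (B a)) hN hL.length hB (PF.const False) (PF.const False)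
      (PF.const False))
    (pf_cases (fun a => Sum.elim (cls a) fun _ => 3) hN hL.length hc (PF.const 3)) hb
    fun a => (H a).ext (H' a)) fun a => ⟨?_, ?_⟩
  · rintro ⟨m, h1, h2, h3⟩
    obtain ⟨M, k1, k2, k3⟩ := ext_of_defi h1 h2
    exact ⟨M, k1, k2, by rw [← h3, ← count_res _ _ k3]⟩
  · rintro ⟨M, h1, h2, h3⟩
    obtain ⟨m, k1, k2, k3⟩ := defi_of_ext h1 h2
    exact ⟨m, k1, k2, by rw [← h3, ← count_res _ _ k3]⟩

end Pool.Agent.Lib.MP_ef7581_lc
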