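import Mathlib
import Pool.Agent.Lib.MP_ef7581_lc.POracle

/-!
Counting lemmas, the normal form of a solution in the critical case, and the reformulation of
`Flex` through numbers of unmatched nodes.
-/

set_option autoImplicit false

namespace Pool.Agent.Lib.MP_ef7581_lc

open Finset

section Cnt

variable {S T : Type} [Fintype S] [Fintype T]

theorem cnt_two {p q r : T → Prop} (h : ∀ x, r x ↔ p x ∨ q x) (hd : ∀ x, p x → ¬ q x) :
    cnt r = cnt p + cnt q := by
  rw [cnt_split r p]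
  congr 1 <;> refine cnt_congr fun x => ?_ <;> have := h x <;> have := hd x <;> tauto

theorem cnt_mono {p q : T → Prop} (h : ∀ x, p x → q x) : cnt p ≤ cnt q := by
  rw [cnt_split q p, cnt_congr (p := fun x => q x ∧ p x) (q := p) fun x => by have := h x; tauto]
  omega

theorem cnt_le_of_rel {p : S → Prop} {q : T → Prop} (r : S → T → Prop)
    (h1 : ∀ x, p x → ∃ y, q y ∧ r x y) (h3 : ∀ x x' y, r x y → r x' y → x = x')
    (h4 : ∀ x y y', r x y → r x y' → y = y') : cnt p ≤ cnt q := by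
  rw [cnt_rel (q := fun y => q y ∧ ∃ x, p x ∧ r x y) r
    (fun x hx => by obtain ⟨y, a, b⟩ := h1 x hx; exact ⟨y, ⟨a, x, hx, b⟩, b⟩) (fun y hy => hy.2)
    (fun x x' y _ _ => h3 x x' y) fun x y y' _ => h4 x y y']
  exact cnt_mono fun _ h => h.1

/-- The list with `d i` copies of `i`. -/
def Lst (d : List ℕ) : List ℕ :=
  (List.range d.length).flatMap fun i => List.replicate (d.getD i 0) i

theorem count_Lst (d : List ℕ) (c : ℕ) : (Lst d).count c = d.getD c 0 := by
  have : ∀ N, ((List.range N).flatMap fun i => List.replicate (d.getD i 0) i).count c =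
      if c < N then d.getD c 0 else 0 := by
    intro N
    induction N with
    | zero => simp
    | succ N ih =>
      rw [List.range_succ, List.flatMap_append, List.count_append, ih]
      simp only [List.flatMap_cons, List.flatMap_nil, List.append_nil, List.count_replicate,
        beq_iff_eq]
      split_ifs <;> first | omega | simp_all
  rw [Lst, this]
  split_ifs with h
  · rfl
  · rw [List.getD_eq_default _ _ (by omega)]

theorem defi_Lst {cl : T → ℕ} {d : List ℕ} (h : ∀ x, cl x < d.length) (m : T → T) :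
    Defi cl (Lst d) m ↔
      (List.range d.length).map (fun c => cnt fun x => cl x = c ∧ m x = x) = d := by
  simp only [Defi, count_Lst]
  constructor
  · intro k
    refine List.ext_getElem (by simp) fun i h1 h2 => ?_
    rw [List.getElem_map, List.getElem_range, k, List.getD_eq_getElem _ _ h2]
  · intro k c
    rcases lt_or_ge c d.length with hc | hc
    · rw [← k, List.getD_eq_getElem _ _ (by simpa using hc), List.getElem_map, List.getElem_range]
    · rw [List.getD_eq_default _ _ hc]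
      exact cnt_false fun x hx => by have := h x; omega

end Cnt

theorem disj_of_chan {J V : Type} [Fintype V] (R : ℕ → J → V → Prop) (lab : V → ℕ)
    (h1 : ∀ i j v, R i j v → lab v = i) (h2 : ∀ i j j' v, R i j v → R i j' v → j = j') :
    ∃ f : J → Finset V, AP.Disj f ∧ ∀ i j v, R i j v → v ∈ f j := by
  classical
  refine ⟨fun j => {v | ∃ i, R i j v}, fun j j' hj => disjoint_left.2 fun v a b => hj ?_,
    fun i j v h => mem_filter.2 ⟨mem_univ _, i, h⟩⟩
  obtain ⟨-, i, a⟩ := mem_filter.1 a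
  obtain ⟨-, i', b⟩ := mem_filter.1 b
  obtain rfl : i = i' := (h1 i j v a).symm.trans (h1 i' j' v b)
  exact h2 i j j' v a b

/-- A function on nodes. -/
def ncl {J V : Type} (fa : J → ℕ) (fv : V → ℕ) (r : ℕ) : Nd J V → ℕ :=
  Sum.elim fa (Sum.elim fv fun _ => r)

namespace AP

variable {J V : Type} {P : AP J V}

section Cases

variable {R : Rx J V} {m : Nd J V → Nd J V} (h : IsM (P.E R) m)

include h

theorem flip {x y : Nd J V} (e : m x = y) : m y = x := by rw [← e, h.1]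

theorem vx_cases (v : V) : m (vx v) = vx v ∨ (∃ j, m (vx v) = ag j ∧ (P.col j v = none ∨ R.nc j v)) ∨
    ∃ u, u ≠ v ∧ m (vx v) = vx u ∧ (R.pe v u ∨ R.pe u v) := by
  by_cases h1 : m (vx v) = vx v
  · exact Or.inl h1
  have h2 := h.2 _ h1
  rcases h3 : m (vx v) with i | u | i <;> rw [h3] at h2 h1
  · exact Or.inr (Or.inl ⟨i, rfl, h2⟩)
  · exact Or.inr (Or.inr ⟨u, fun e => h1 (e ▸ rfl), rfl, h2⟩)
  · exact h2.elim

variable (hd : ∀ j, ¬ R.du j)

include hd

theorem ag_cases (j : J) :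
    m (ag j) = ag j ∨ ∃ v, m (ag j) = vx v ∧ (P.col j v = none ∨ R.nc j v) := by
  by_cases h1 : m (ag j) = ag j
  · exact Or.inl h1
  have h2 := h.2 _ h1
  rcases h3 : m (ag j) with i | v | i <;> rw [h3] at h2
  · exact h2.elim
  · exact Or.inr ⟨v, rfl, h2⟩
  · exact (hd _ h2.2).elim

theorem dm_fix (j : J) : m (dm j) = dm j := by
  by_contra h1
  have h2 := h.2 _ h1
  rcases h3 : m (dm j) with i | u | i <;> rw [h3] at h2
  · exact hd _ h2.2
  · exact h2
  · exact h2

theorem count_nodes [Fintype J] [Fintype V] :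
    cnt (fun v => m (vx v) = vx v) + cnt (fun v => ∃ u, u ≠ v ∧ m (vx v) = vx u) +
      Fintype.card J = Fintype.card V + cnt fun j => m (ag j) = ag j := by
  have a1 := cnt_compl fun j => m (ag j) = ag j
  have a2 := cnt_compl fun v => m (vx v) = vx v
  have a3 : cnt (fun v => ¬ m (vx v) = vx v) = cnt (fun v => ∃ j, m (vx v) = ag j) +
      cnt fun v => ∃ u, u ≠ v ∧ m (vx v) = vx u := by
    refine cnt_two (fun v => ⟨fun k => ?_, ?_⟩) ?_
    · rcases vx_cases h v with e | ⟨j, e, -⟩ | ⟨u, e1, e2, -⟩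
      exacts [absurd e k, Or.inl ⟨j, e⟩, Or.inr ⟨u, e1, e2⟩]
    · rintro (⟨j, e⟩ | ⟨u, e1, e⟩) <;> simp [*]
    · rintro v ⟨j, e⟩ ⟨u, -, e'⟩
      simp [e] at e'
  have a4 : cnt (fun j => ¬ m (ag j) = ag j) = cnt fun v => ∃ j, m (vx v) = ag j := by
    refine cnt_rel (fun j v => m (ag j) = vx v) (fun j hj => ?_) ?_ (fun j j' v _ _ e e' => ?_)
      fun j v v' _ e e' => by simpa [e] using e'
    · obtain ⟨v, e, -⟩ := (ag_cases h hd j).resolve_left hj
      exact ⟨v, ⟨j, flip h e⟩, e⟩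
    · rintro v ⟨j, e⟩
      exact ⟨j, by simp [flip h e], flip h e⟩
    · simpa [flip h e] using flip h e'
  omega

end Cases

variable [Fintype J] [Fintype V]

theorem cnt_nd (p : Nd J V → Prop) :
    cnt p = cnt (fun j => p (ag j)) + cnt (fun v => p (vx v)) + cnt fun j => p (dm j) := by
  rw [cnt_sum, cnt_sum, add_assoc]

theorem cnt_cl_ag {fa : J → ℕ} {fv : V → ℕ} {r c : ℕ} (m : Nd J V → Nd J V) {p : J → Prop}
    (h1 : ∀ j, fa j = c ↔ p j) (h2 : ∀ v, fv v ≠ c) (h3 : r ≠ c) :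
    cnt (fun z => ncl fa fv r z = c ∧ m z = z) = cnt fun j => p j ∧ m (ag j) = ag j := by
  simp [cnt_nd, ncl, h1, h2, h3, cnt_false]

theorem cnt_cl_vx {fa : J → ℕ} {fv : V → ℕ} {r c : ℕ} (m : Nd J V → Nd J V) {p : V → Prop}
    (h1 : ∀ j, fa j ≠ c) (h2 : ∀ v, fv v = c ↔ p v) (h3 : r ≠ c) :
    cnt (fun z => ncl fa fv r z = c ∧ m z = z) = cnt fun v => p v ∧ m (vx v) = vx v := by
  simp [cnt_nd, ncl, h1, h2, h3, cnt_false]

theorem cnt_cl_dm {fa : J → ℕ} {fv : V → ℕ} {r : ℕ} {m : Nd J V → Nd J V}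
    (h1 : ∀ j, fa j ≠ r) (h2 : ∀ v, fv v ≠ r) (h3 : ∀ j, m (dm j) = dm j) :
    cnt (fun z => ncl fa fv r z = r ∧ m z = z) = Fintype.card J := by
  simp [cnt_nd, ncl, h1, h2, h3, cnt_false, cnt_true]

theorem cnt_cl_zero {fa : J → ℕ} {fv : V → ℕ} {r c : ℕ} {m : Nd J V → Nd J V} (h3 : r ≠ c) :
    cnt (fun z => ncl fa fv r z = c ∧ m z = z) = 0 ↔
      (∀ j, fa j = c → m (ag j) ≠ ag j) ∧ ∀ v, fv v = c → m (vx v) ≠ vx v := by
  simp [cnt_eq_zero, ncl, h3]

variable [DecidableEq J] [DecidableEq V]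

theorem Ks.W {x v : V} (h : P.Ks x v) : P.W v := h.elim And.left And.left

open Classical in
variable (P) in
/-- Classes of vertices for `Flex`. -/
noncomputable def clF (x v : V) : ℕ := if P.Ks x v then 1 else if P.W v then 2 else 3

theorem clF_spec (x v : V) : (P.clF x v = 1 ↔ P.Ks x v) ∧ (P.clF x v = 2 ↔ P.Fs x v) ∧
    (P.clF x v = 3 ↔ ¬ P.W v) ∧ 0 < P.clF x v ∧ P.clF x v < 4 := by
  have := @Ks.W _ _ P _ _ _ _ x v
  unfold clF Fs
  split_ifs <;> simp_all

omit [Fintype J] in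
theorem unc_eq (p : V → Prop) (m : Nd J V → Nd J V) :
    unc p m = cnt fun v => p v ∧ m (vx v) = vx v := by
  unfold unc cnt
  congr

theorem flex_iff (x : V) : P.Flex x ↔ ∃ d0, d0 ≤ Fintype.card J ∧ ∃ a, a ≤ Fintype.card V ∧
    ∃ b, b ≤ Fintype.card V ∧ ∃ d, d ≤ Fintype.card V ∧
      (∃ m, IsM (P.E (P.GamF x)) m ∧
        Defi (ncl (fun _ => 0) (P.clF x) 4) (Lst [d0, a, b, d, Fintype.card J]) m) ∧
      Fintype.card V = Fintype.card J + d0 ∧ a ≤ b ∧
        (a + b + d + Fintype.card J < Fintype.card V + d0 ∨ a < b) := by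
  have key : ∀ m, IsM (P.E (P.GamF x)) m →
      (∀ d0 a b d, Defi (ncl (fun _ => 0) (P.clF x) 4) (Lst [d0, a, b, d, Fintype.card J]) m ↔
        cnt (fun j => m (ag j) = ag j) = d0 ∧ unc (P.Ks x) m = a ∧ unc (P.Fs x) m = b ∧
          unc (fun v => ¬ P.W v) m = d) ∧
      P.cw m + cnt (fun j => m (ag j) = ag j) = Fintype.card J ∧
      ((∃ u v, u ≠ v ∧ m (vx u) = vx v) ↔ unc (P.Ks x) m + unc (P.Fs x) m +
        unc (fun v => ¬ P.W v) m + Fintype.card J <
          Fintype.card V + cnt fun j => m (ag j) = ag j) := by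
    intro m hm
    have hd : ∀ j, ¬ (P.GamF x).du j := fun _ h => h
    have sp := clF_spec (P := P) x
    refine ⟨fun d0 a b d => ?_, ?_, ?_⟩
    · rw [defi_Lst]
      · simp only [List.length_cons, List.length_nil, List.range_succ, List.range_zero,
          List.nil_append, List.cons_append, List.map_cons, List.map_nil, List.cons.injEq]
        rw [cnt_cl_ag m (p := fun _ => True) (by simp) (fun v => (sp v).2.2.2.1.ne') (by simp),
          cnt_cl_vx m (by simp) (fun v => (sp v).1) (by simp),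
          cnt_cl_vx m (by simp) (fun v => (sp v).2.1) (by simp),
          cnt_cl_vx m (by simp) (fun v => (sp v).2.2.1) (by simp),
          cnt_cl_dm (by simp) (fun v => (sp v).2.2.2.2.ne) (dm_fix hm hd)]
        simp [unc_eq]
      · rintro (j | v | j)
        · simp [ncl]
        · have := (sp v).2.2.2.2
          simp only [ncl, Sum.elim_inr, Sum.elim_inl, List.length_cons, List.length_nil]
          omega
        · simp [ncl]
    · rw [← cnt_compl fun j => m (ag j) = ag j, add_comm, cw, ← cnt_eq]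
      congr 1
      refine cnt_congr fun j => ⟨?_, fun k => ?_⟩
      · rintro ⟨v, e, -⟩
        simp [e]
      · obtain ⟨v, e, k⟩ := (ag_cases hm hd j).resolve_left k
        exact ⟨v, e, k.resolve_right id⟩
    · have a1 := count_nodes hm hd
      have a2 := cnt_split (fun v => m (vx v) = vx v) P.W
      have a3 : cnt (fun v => m (vx v) = vx v ∧ P.W v) = unc (P.Ks x) m + unc (P.Fs x) m := by
        rw [unc_eq, unc_eq]
        refine cnt_two (fun v => ?_) fun v a b => b.1.2 a.1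
        have := @Ks.W _ _ P _ _ _ _ x v
        unfold Fs
        tauto
      have a4 : cnt (fun v => m (vx v) = vx v ∧ ¬ P.W v) = unc (fun v => ¬ P.W v) m := by
        rw [unc_eq]
        exact cnt_congr fun v => and_comm
      have a5 : (∃ u v, u ≠ v ∧ m (vx u) = vx v) ↔
          cnt (fun v => ∃ u, u ≠ v ∧ m (vx v) = vx u) ≠ 0 := by
        simp only [Ne, cnt_eq_zero, not_forall, not_not]
        exact exists_congr fun u => exists_congr fun v => and_congr_left' (not_congr eq_comm)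
      rw [a5]
      omega
  constructor
  · rintro ⟨m, hm, h1, h2, h3⟩
    obtain ⟨k1, k2, k3⟩ := key m hm
    have hu : ∀ p, unc p m ≤ Fintype.card V := fun p => unc_eq p m ▸ cnt_le _
    exact ⟨_, cnt_le _, _, hu _, _, hu _, _, hu _,
      ⟨m, hm, (k1 _ _ _ _).2 ⟨rfl, rfl, rfl, rfl⟩⟩, by omega, h2, h3.imp_left k3.1⟩
  · rintro ⟨d0, -, a, -, b, -, d, -, ⟨m, hm, h⟩, h1, h2, h3⟩
    obtain ⟨k1, k2, k3⟩ := key m hm
    obtain ⟨rfl, rfl, rfl, rfl⟩ := (k1 _ _ _ _).1 h
    exact ⟨m, hm, by omega, h2, h3.imp_left k3.2⟩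

variable (P) in
/-- Normal form of a solution in the critical case. -/
structure NF where
  C : J → Prop
  φ : J → V
  ψ : J → V
  hC : ∀ j, C j → P.col j (φ j) = none ∧ ψ j = φ j
  hN : ∀ j, ¬ C j → P.col j (φ j) ≠ P.col j (ψ j) ∧ ¬ P.H (φ j) (ψ j) ∧ P.JD j ∧ P.W (φ j) ∧
    P.W (ψ j)
  disj : ∀ i j, i ≠ j → φ i ≠ φ j ∧ φ i ≠ ψ j ∧ ψ i ≠ ψ j
  all : ∀ v, ∃ j, v = φ j ∨ v = ψ j
  num : cnt (fun j => ¬ C j) + Fintype.card J = Fintype.card V
  ja : ∀ j, P.JA j → P.W (φ j)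

theorem NF.orient (N : P.NF) (ρ : J → V → V → Prop)
    (h : ∀ j, ¬ N.C j → ρ j (N.φ j) (N.ψ j) ∨ ρ j (N.ψ j) (N.φ j)) :
    ∃ N' : P.NF, ∀ j, ¬ N'.C j → ρ j (N'.φ j) (N'.ψ j) := by
  classical
  refine ⟨⟨N.C, fun j => if ρ j (N.φ j) (N.ψ j) then N.φ j else N.ψ j,
    fun j => if ρ j (N.φ j) (N.ψ j) then N.ψ j else N.φ j, fun j hj => ?_, fun j hj => ?_,
    fun i j hij => ?_, fun v => ?_, N.num, fun j hj => ?_⟩, fun j hj => ?_⟩
  · obtain ⟨a, b⟩ := N.hC j hj
    simp [a, b]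
  · obtain ⟨a, b, c, d, e⟩ := N.hN j hj
    split_ifs
    exacts [⟨a, b, c, d, e⟩, ⟨a.symm, fun k => b (P.symm _ _ k), c, e, d⟩]
  · obtain ⟨a, b, c⟩ := N.disj i j hij
    have d := (N.disj j i hij.symm).2.1.symm
    split_ifs
    exacts [⟨a, b, c⟩, ⟨b, a, d⟩, ⟨d, c, b⟩, ⟨c, d, a⟩]
  · obtain ⟨j, k⟩ := N.all v
    refine ⟨j, ?_⟩
    split_ifs
    exacts [k, k.symm]
  · have := N.ja j hj
    by_cases k : N.C j
    · simp [(N.hC j k).2, this]
    · exact absurd (N.hN j k).2.2.1 hj.not_JD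
  · have := h j hj
    dsimp only
    split_ifs with k
    exacts [k, this.resolve_left k]

theorem exists_nf (hc : P.Crit) {f : J → Finset V} (hd : Disj f) (ρ : J → V → V → Prop)
    (h : ∀ j, (∃ c ∈ f j, P.col j c = none) ∨
      ∃ u ∈ f j, ∃ v ∈ f j, P.col j u ≠ P.col j v ∧ ¬ P.H u v ∧ ρ j u v) :
    ∃ N : P.NF, ∀ j, ¬ N.C j → ρ j (N.φ j) (N.ψ j) := by
  have : ∀ j, ∃ u ∈ f j, ∃ v ∈ f j, ((P.col j u = none ∧ v = u) ∨
      (P.col j u = some true ∧ P.col j v = some false ∧ ¬ P.H u v)) ∧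
      (P.col j u ≠ none → ρ j u v ∨ ρ j v u) := fun j => by
    rcases h j with ⟨u, hu, h⟩ | ⟨u, hu, v, hv, h1, h2, h3⟩
    · exact ⟨u, hu, u, hu, Or.inl ⟨h, rfl⟩, fun k => absurd h k⟩
    · rcases e1 : P.col j u with _ | _ | _
      · exact ⟨u, hu, u, hu, Or.inl ⟨e1, rfl⟩, fun k => absurd e1 k⟩
      all_goals rcases e2 : P.col j v with _ | _ | _
      · exact ⟨v, hv, v, hv, Or.inl ⟨e2, rfl⟩, fun k => absurd e2 k⟩
      · exact absurd (e1.trans e2.symm) h1
      · exact ⟨v, hv, u, hu, Or.inr ⟨e2, e1, fun h => h2 (P.symm _ _ h)⟩, fun _ => Or.inr h3⟩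
      · exact ⟨v, hv, v, hv, Or.inl ⟨e2, rfl⟩, fun k => absurd e2 k⟩
      · exact ⟨u, hu, v, hv, Or.inr ⟨e1, e2, h2⟩, fun _ => Or.inl h3⟩
      · exact absurd (e1.trans e2.symm) h1
  choose a ha b hb hk hr using this
  let S : P.Sol := ⟨a, b, fun i j hij => by
    have := disjoint_left.1 (hd i j hij)
    exact ⟨fun e => this (ha i) (e ▸ ha j), fun e => this (ha i) (e ▸ hb j),
      fun e => this (hb i) (e ▸ hb j)⟩, hk⟩
  obtain ⟨c1, c2⟩ := Sol.crit (S := S) hc
  obtain ⟨m, h0, h1, -, -, h4⟩ := S.build (R := R0 J V) ag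
    (fun j => if S.C j then vx (S.a j) else ag j) S.own_ag
    (fun j => by split_ifs; exacts [S.own_a j, S.own_ag j])
    (fun j h => by
      by_cases hj : S.C j
      · simp only [if_pos hj]
        exact Or.inl hj
      · simp [hj] at h)
  have h5 : cov m = 2 * S.w := by
    rw [cov_eq_wt2, h4, Sol.w, card_filter, mul_sum]
    exact sum_congr rfl fun j _ => by by_cases hj : S.C j <;> simp [hj]
  have h6 : P.MaxC m := ⟨h0, fun m' hm' => by have := hc m' hm'; omega⟩
  refine NF.orient ⟨S.C, a, b, fun j hj => ⟨hj, Sol.b_eq hj⟩, fun j hj => ?_, S.disj,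
    S.all_used c1.le, ?_, fun j hj => ?_⟩ ρ fun j hj => hr j hj
  · obtain ⟨k1, k2, k3⟩ := Sol.pair hj
    exact ⟨by rw [show P.col j (a j) = _ from k1, show P.col j (b j) = _ from k2]; simp, k3, c2 j hj⟩
  · have := cnt_compl S.C
    rw [cnt_eq, ← Sol.w] at this
    omega
  · obtain ⟨v, k1, k2⟩ := dm1 h6 hj
    rw [h1] at k2
    split_ifs at k2
    cases k2
    exact k1

namespace NF

variable (N : P.NF)

/-- The nodes that belong to agent `j`. -/
def Own (j : J) (z : Nd J V) : Prop := z = ag j ∨ z = dm j ∨ z = vx (N.φ j) ∨ z = vx (N.ψ j)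

theorem own_ag (j : J) : N.Own j (ag j) := Or.inl rfl
theorem own_dm (j : J) : N.Own j (dm j) := Or.inr (Or.inl rfl)
theorem own_φ (j : J) : N.Own j (vx (N.φ j)) := Or.inr (Or.inr (Or.inl rfl))
theorem own_ψ (j : J) : N.Own j (vx (N.ψ j)) := Or.inr (Or.inr (Or.inr rfl))

variable {N} in
theorem own_unique {i j : J} {z : Nd J V} (hi : N.Own i z) (hj : N.Own j z) : i = j := by
  by_contra hij
  obtain ⟨a, b, c⟩ := N.disj i j hij
  have d := (N.disj j i (Ne.symm hij)).2.1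
  rcases hi with rfl | rfl | rfl | rfl <;> rcases hj with h | h | h | h <;> simp_all

theorem φ_inj : Function.Injective N.φ := fun i j e => by
  by_contra h
  exact (N.disj i j h).1 e

theorem ψ_inj : Function.Injective N.ψ := fun i j e => by
  by_contra h
  exact (N.disj i j h).2.2 e

theorem φ_ne_ψ {j : J} (h : ¬ N.C j) : N.φ j ≠ N.ψ j := fun e => (N.hN j h).1 (by rw [e])

theorem build {E : Nd J V → Nd J V → Prop} (sE : ∀ x y, E x y → E y x) (x y : J → Nd J V)
    (hx : ∀ j, N.Own j (x j)) (hy : ∀ j, N.Own j (y j)) (hE : ∀ j, x j ≠ y j → E (x j) (y j)) :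
    ∃ m, IsM E m ∧ (∀ j, m (x j) = y j) ∧ (∀ j, m (y j) = x j) ∧
      ∀ j z, N.Own j z → z ≠ x j → z ≠ y j → m z = z := by
  have hd : ∀ i j, i ≠ j → x i ≠ x j ∧ x i ≠ y j ∧ y i ≠ y j := fun i j hij =>
    ⟨fun e => hij (own_unique (hx i) (e ▸ hx j)), fun e => hij (own_unique (hx i) (e ▸ hy j)),
      fun e => hij (own_unique (hy i) (e ▸ hy j))⟩
  obtain ⟨m, h0, h1, h2, h3⟩ := exists_match x y hd
  refine ⟨m, ⟨h0, fun z hz => ?_⟩, h1, h2, fun j z hz e1 e2 => ?_⟩
  · rcases h3 z with h | ⟨j, rfl | rfl⟩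
    · exact absurd h hz
    · rw [h1] at hz ⊢
      exact hE j hz.symm
    · rw [h2] at hz ⊢
      exact sE _ _ (hE j hz)
  · rcases h3 z with h | ⟨i, rfl | rfl⟩
    · exact h
    · exact absurd (own_unique (hx i) hz ▸ rfl) e1
    · exact absurd (own_unique (hy i) hz ▸ rfl) e2

end NF

end AP

end Pool.Agent.Lib.MP_ef7581_lc
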