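import Mathlib
import Pool.Agent.Lib.MP_ef7581_lc.PMath

/-!
Reformulation of `ExactSol` as an exact matching problem.
-/

set_option autoImplicit false

namespace Pool.Agent.Lib.MP_ef7581_lc

open Finset

theorem col3 {a b c : Option Bool} (ha : a ≠ none) (hb : b ≠ none) (hc : c ≠ none) :
    a = b ∨ a = c ∨ b = c := by
  rcases a with _ | _ | _ <;> rcases b with _ | _ | _ <;> rcases c with _ | _ | _ <;> simp_all

namespace AP

variable {J V : Type} {P : AP J V} [Fintype J] [Fintype V] [DecidableEq J] [DecidableEq V]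

theorem not_H_FK {x u v : V} (hx : P.W x) (hu : P.Fs x u) (hv : P.Ks x v) : ¬ P.H u v := by
  intro h
  have k : ∀ j, P.JD j → P.col j u ≠ P.col j v := fun j hj => P.compat j u v h (dm0 hj hu.1)
  refine hu.2 ?_
  rcases hv with hv | hv
  · exact Or.inr ⟨hu.1, fun j hj => hv.2 j hj ▸ k j hj⟩
  · refine Or.inl ⟨hu.1, fun j hj => ?_⟩
    rcases col3 (dm0 hj hu.1) (dm0 hj hv.1) (dm0 hj hx) with e | e | e
    exacts [absurd e (k j hj), e, absurd e (hv.2 j hj)]

theorem maxC_count (h0 : P.C0) (hc : P.Crit) :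
    cnt (fun j => ¬ P.JA j) + Fintype.card J = Fintype.card V + cnt fun v => ¬ P.W v := by
  obtain ⟨μ, hμ⟩ := P.exists_maxC
  obtain ⟨m, h1, h2⟩ := h0
  have a1 := hμ.2 m h1
  have a2 := hc μ hμ.1
  have hd : ∀ j, ¬ (R0 J V).du j := fun _ h => h
  have a3 := count_nodes hμ.1 hd
  rw [cnt_false (p := fun v => ∃ u, u ≠ v ∧ μ (vx v) = vx u) (by
    rintro v ⟨u, e1, e2⟩
    rcases hμ.cm.vx_cases v with e | ⟨j, e, -⟩ <;> simp_all)] at a3
  have a4 : cov μ = cnt (fun j => ¬ μ (ag j) = ag j) + cnt fun v => ¬ μ (vx v) = vx v := by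
    rw [cov, ← cnt_eq, cnt_nd, cnt_false (p := fun j => μ (dm j) ≠ dm j)
      fun j h => h (hμ.cm.dm_fix j), add_zero]
  have a5 := cnt_compl fun j => μ (ag j) = ag j
  have a6 := cnt_compl fun v => μ (vx v) = vx v
  have a7 := cnt_split (fun j => ¬ P.JA j) fun j => μ (ag j) = ag j
  have a8 : cnt (fun j => ¬ P.JA j ∧ μ (ag j) = ag j) = cnt fun j => μ (ag j) = ag j :=
    cnt_congr fun j => ⟨And.right, fun h => ⟨fun k => k.not_JD ⟨μ, hμ, h⟩, h⟩⟩
  have a9 : cnt (fun j => ¬ P.JA j ∧ ¬ μ (ag j) = ag j) = cnt fun v => ¬ P.W v := by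
    refine cnt_rel (fun j v => μ (ag j) = vx v) (fun j hj => ?_) (fun v hv => ?_)
      (fun j j' v _ _ e e' => ?_) fun j v v' _ e e' => by simpa [e] using e'
    · obtain ⟨v, e, -⟩ := (hμ.cm.ag_cases j).resolve_left hj.2
      exact ⟨v, fun k => hj.1 (dm2 hμ e k), e⟩
    · obtain ⟨j, e⟩ := dm3 hμ hv
      have e' := hμ.cm.flip.1 e
      refine ⟨j, ⟨fun k => ?_, by simp [e']⟩, e'⟩
      obtain ⟨u, k1, k2⟩ := dm1 hμ k
      rw [e'] at k2
      cases k2
      exact hv k1
    · simpa [hμ.cm.flip.2 e] using hμ.cm.flip.2 e'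
  omega

variable (P) in
/-- Agent-vertex edges only. -/
def RX (x : V) : Rx J V := ⟨fun j v => P.JD j ∧ P.Fs x v, fun _ _ => False, fun _ => False⟩

variable (P) in
/-- Agents of `JA` are only joined to `W`. -/
def Keep : Nd J V → Nd J V → Prop
  | Sum.inl j, Sum.inr (Sum.inl v) => P.JA j → P.W v
  | Sum.inr (Sum.inl v), Sum.inl j => P.JA j → P.W v
  | _, _ => True

variable (P) in
/-- The graph of the exact matching problem. -/
def EX (x : V) (y z : Nd J V) : Prop := P.E (P.RX x) y z ∧ P.Keep y z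

variable (P) in
/-- Blue edges. -/
def BX (x : V) : Nd J V → Nd J V → Prop
  | Sum.inl j, Sum.inr (Sum.inl v) => P.JD j ∧ P.Fs x v ∧ P.col j v = P.col j x
  | Sum.inr (Sum.inl v), Sum.inl j => P.JD j ∧ P.Fs x v ∧ P.col j v = P.col j x
  | _, _ => False

open Classical in
variable (P) in
/-- Node classes of the oracle. -/
noncomputable def clsX (x : V) : Nd J V → ℕ :=
  ncl (fun j => if P.JA j then 3 else 0)
    (fun v => if P.Ks x v then 4 else if P.W v then 2 else 1) 4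

open Classical in
variable (P) in
/-- Classes of vertices for the unmatched nodes. -/
noncomputable def clX (x v : V) : ℕ := if P.Xs x v then 1 else if P.Ys x v then 2 else 0

theorem EX_symm {x : V} (y z : Nd J V) (h : P.EX x y z) : P.EX x z y := by
  refine ⟨E_symm h.1, ?_⟩
  have := h.2
  rcases y with i | u | i <;> rcases z with j | v | j <;> exact this

theorem clX_spec (x v : V) : (P.clX x v = 1 ↔ P.Xs x v) ∧
    (P.clX x v = 2 ↔ ¬ P.Xs x v ∧ P.Ys x v) ∧ (P.clX x v = 0 ↔ ¬ P.Ks x v) ∧ P.clX x v < 3 := by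
  unfold clX Ks
  split_ifs <;> simp_all

theorem exact_key {x : V} {m : Nd J V → Nd J V} (hm : IsM (P.EX x) m) (r b : ℕ) :
    (Defi (ncl (fun _ => 0) (P.clX x) 3) (Lst [0, r, b, Fintype.card J]) m ↔
      ((∀ j, m (ag j) ≠ ag j) ∧ ∀ v, ¬ P.Ks x v → m (vx v) ≠ vx v) ∧
        cnt (fun v => P.Xs x v ∧ m (vx v) = vx v) = r ∧
        cnt (fun v => (¬ P.Xs x v ∧ P.Ys x v) ∧ m (vx v) = vx v) = b) ∧
    cnt (fun z => P.clsX x z = 0 ∧ m z ≠ z ∧ P.BX x z (m z)) =
      cnt fun j => ∃ v, m (ag j) = vx v ∧ P.JD j ∧ P.Fs x v ∧ P.col j v = P.col j x := by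
  have sp := clX_spec (P := P) x
  constructor
  · rw [defi_Lst]
    · simp only [List.length_cons, List.length_nil, List.range_succ, List.range_zero,
        List.nil_append, List.cons_append, List.map_cons, List.map_nil, List.cons.injEq]
      rw [cnt_cl_zero (by simp), cnt_cl_vx m (by simp) (fun v => (sp v).1) (by simp),
        cnt_cl_vx m (by simp) (fun v => (sp v).2.1) (by simp),
        cnt_cl_dm (by simp) (fun v => (sp v).2.2.2.ne)
          (dm_fix (hm.mono fun _ _ h => h.1) fun _ h => h)]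
      simp [fun v => (sp v).2.2.1]
    · rintro (j | v | j)
      · simp [ncl]
      · have := (sp v).2.2.2
        simp only [ncl, Sum.elim_inr, Sum.elim_inl, List.length_cons, List.length_nil]
        omega
      · simp [ncl]
  · rw [cnt_nd, cnt_false (p := fun v => P.clsX x (vx v) = 0 ∧ _) (fun v h => by
      have := h.1
      simp only [clsX, ncl, Sum.elim_inr, Sum.elim_inl] at this
      split_ifs at this), cnt_false (p := fun j => P.clsX x (dm j) = 0 ∧ _) (by simp [clsX, ncl])]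
    refine cnt_congr fun j => ?_
    rcases e : m (ag j) with i | v | i
    · simp [BX]
    · have := @JA.not_JD _ _ P _ _ _ _ j
      simp only [clsX, ncl, Sum.elim_inl, BX, ite_eq_right_iff, Sum.inr.injEq, Sum.inl.injEq,
        exists_eq_left', ne_eq, reduceCtorEq, not_false_eq_true, true_and]
      tauto
    · simp [BX]

theorem exact_iff (h0 : P.C0) (hc : P.Crit) {x : V} (hx : P.W x) :
    P.ExactSol x ↔ ∃ r, r ≤ Fintype.card V ∧ ∃ b, b ≤ Fintype.card V ∧ ∃ m, IsM (P.EX x) m ∧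
      Defi (ncl (fun _ => 0) (P.clX x) 3) (Lst [0, r, b, Fintype.card J]) m ∧
      cnt (fun z => P.clsX x z = 0 ∧ m z ≠ z ∧ P.BX x z (m z)) = b := by
  constructor
  · rintro ⟨f, hd, hf⟩
    obtain ⟨N, hN⟩ := exists_nf hc hd (fun _ u v => P.Fs x u ∧ P.Ks x v) fun j =>
      (hf j).imp_right fun ⟨u, hu, v, hv, a, b, c⟩ => ⟨u, hu, v, hv, c, not_H_FK hx a b, a, b⟩
    obtain ⟨m, hm, h1, h2, h3⟩ := N.build (E := P.EX x) EX_symm ag (fun j => vx (N.φ j)) N.own_ag
      N.own_φ fun j _ => ⟨by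
        by_cases hj : N.C j
        exacts [Or.inl (N.hC j hj).1, Or.inr ⟨(N.hN j hj).2.2.1, (hN j hj).1⟩], N.ja j⟩
    have un : ∀ v, m (vx v) = vx v ↔ ∃ j, ¬ N.C j ∧ v = N.ψ j := fun v => by
      constructor
      · intro e
        obtain ⟨j, rfl | rfl⟩ := N.all v
        · simp [h2] at e
        · exact ⟨j, fun hj => by simp [(N.hC j hj).2, h2] at e, rfl⟩
      · rintro ⟨j, hj, rfl⟩
        exact h3 j _ (N.own_ψ j) (by simp) (by simpa using (N.φ_ne_ψ hj).symm)
    refine ⟨_, cnt_le _, _, cnt_le _, m, hm, ((exact_key hm _ _).1).2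
      ⟨⟨fun j => by simp [h1], fun v hv e => ?_⟩, rfl, rfl⟩, ?_⟩
    · obtain ⟨j, hj, rfl⟩ := (un v).1 e
      exact hv (hN j hj).2
    · rw [(exact_key hm 0 0).2]
      symm
      refine cnt_image N.ψ N.ψ_inj fun v => ?_
      simp only [h1, un, Sum.inr.injEq, Sum.inl.injEq, exists_eq_left']
      constructor
      · rintro ⟨⟨-, k⟩, j, hj, rfl⟩
        obtain ⟨a, -, c, d, e⟩ := N.hN j hj
        refine ⟨j, ⟨c, (hN j hj).1, ?_⟩, rfl⟩
        rcases col3 (dm0 c d) (dm0 c e) (dm0 c hx) with e | e | e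
        exacts [absurd e a, e, absurd e (k.2 j c)]
      · rintro ⟨j, ⟨a, b, c⟩, rfl⟩
        have hj : ¬ N.C j := fun hj => dm0 a b.1 (N.hC j hj).1
        have k : ¬ P.Xs x (N.ψ j) := fun k => (N.hN j hj).1 (c.trans (k.2 j a).symm)
        exact ⟨⟨k, (hN j hj).2.resolve_left k⟩, j, hj, rfl⟩
  · rintro ⟨r, -, b, -, m, hm, h1, h2⟩
    obtain ⟨⟨k1, k2⟩, k3, k4⟩ := ((exact_key hm r b).1).1 h1
    rw [(exact_key hm r b).2] at h2
    have hm' : IsM (P.E (P.RX x)) m := hm.mono fun _ _ h => h.1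
    have hd : ∀ j, ¬ (P.RX x).du j := fun _ h => h
    have hφ : ∀ j, ∃ v, m (ag j) = vx v ∧ (P.col j v = none ∨ (P.JD j ∧ P.Fs x v)) ∧
        (P.JA j → P.W v) := fun j => by
      obtain ⟨v, e, k⟩ := (ag_cases hm' hd j).resolve_left (k1 j)
      have := (hm.2 _ (k1 j)).2
      rw [e] at this
      exact ⟨v, e, k, this⟩
    choose φ p1 p2 p3 using hφ
    simp only [p1, Sum.inr.injEq, Sum.inl.injEq, exists_eq_left'] at h2
    have a1 := count_nodes hm' hd
    rw [cnt_false (p := fun v => ∃ u, u ≠ v ∧ m (vx v) = vx u) (by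
      rintro v ⟨u, e1, e2⟩
      rcases vx_cases hm' v with e | ⟨j, e, -⟩ | ⟨u, -, -, e⟩
      · simp_all
      · simp_all
      · exact e.elim id id), cnt_false k1] at a1
    have a2 : cnt (fun v => m (vx v) = vx v) = r + b := by
      rw [← k3, ← k4]
      refine cnt_two (fun v => ?_) fun v a b => b.1.1 a.1
      have := k2 v
      unfold Ks at this
      tauto
    have a3 := maxC_count h0 hc
    have a4 := cnt_split (fun j => ¬ P.JA j) fun j => P.W (φ j)
    have a5 : cnt (fun v => ¬ P.W v) = cnt fun j => ¬ P.JA j ∧ ¬ P.W (φ j) := by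
      refine cnt_image φ (fun i j e => ?_) fun v => ⟨fun hv => ?_, ?_⟩
      · simpa [← e, flip hm' (p1 i)] using flip hm' (p1 j)
      · rcases vx_cases hm' v with e | ⟨j, e, -⟩ | ⟨u, -, -, e⟩
        · exact absurd e (k2 v fun k => hv k.W)
        · have : φ j = v := by simpa [p1] using flip hm' e
          subst this
          exact ⟨j, ⟨fun k => hv (p3 j k), hv⟩, rfl⟩
        · exact (e.elim id id).elim
      · rintro ⟨j, hj, rfl⟩
        exact hj.2
    have a6 : cnt (fun j => ¬ P.JA j ∧ P.W (φ j)) =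
        cnt (fun j => P.JD j ∧ P.Fs x (φ j) ∧ P.col j (φ j) = P.col j x) +
          cnt fun j => P.JD j ∧ P.Fs x (φ j) ∧ P.col j (φ j) ≠ P.col j x := by
      refine cnt_two (fun j => ⟨fun k => ?_, fun k => ?_⟩) fun j a b => b.2.2 a.2.2
      · have := (p2 j).resolve_left fun e => k.1 ⟨_, k.2, e⟩
        tauto
      · have : P.JD j ∧ P.Fs x (φ j) := by tauto
        exact ⟨fun e => e.not_JD this.1, this.2.1⟩
    have : Nonempty V := ⟨x⟩
    obtain ⟨gB, b1, b2⟩ := exists_inj (h2.trans k4.symm).le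
    obtain ⟨gR, r1, r2⟩ := exists_inj
      (p := fun j => P.JD j ∧ P.Fs x (φ j) ∧ P.col j (φ j) ≠ P.col j x)
      (q := fun v => P.Xs x v ∧ m (vx v) = vx v) (by omega)
    have sp := clX_spec (P := P) x
    obtain ⟨f, f1, f2⟩ := disj_of_chan (fun i j v => match i with
        | 0 => v = φ j
        | 1 => (P.JD j ∧ P.Fs x (φ j) ∧ P.col j (φ j) ≠ P.col j x) ∧ v = gR j
        | 2 => (P.JD j ∧ P.Fs x (φ j) ∧ P.col j (φ j) = P.col j x) ∧ v = gB j
        | _ => False) (fun v => if m (vx v) = vx v then P.clX x v else 0)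
      (by
        rintro (_ | _ | _ | i) j v h
        · obtain rfl : v = φ j := h
          simp [flip hm' (p1 j)]
        · obtain ⟨h, rfl⟩ := h
          rw [if_pos (r1 j h).2, (sp _).1.2 (r1 j h).1]
        · obtain ⟨h, rfl⟩ := h
          rw [if_pos (b1 j h).2, (sp _).2.1.2 (b1 j h).1]
        · exact h.elim)
      (by
        rintro (_ | _ | _ | i) j j' v h h'
        · have e : φ j = φ j' := h.symm.trans h'
          simpa [← e, flip hm' (p1 j)] using flip hm' (p1 j')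
        · exact r2 j j' h.1 h'.1 (h.2.symm.trans h'.2)
        · exact b2 j j' h.1 h'.1 (h.2.symm.trans h'.2)
        · exact h.elim)
    refine ⟨f, f1, fun j => (p2 j).imp (fun e => ⟨_, f2 0 j _ rfl, e⟩) fun k => ?_⟩
    by_cases e : P.col j (φ j) = P.col j x
    · have := b1 j ⟨k.1, k.2, e⟩
      exact ⟨_, f2 0 j _ rfl, _, f2 2 j _ ⟨⟨k.1, k.2, e⟩, rfl⟩, k.2, Or.inr this.1.2,
        e ▸ (this.1.2.2 j k.1).symm⟩
    · have := r1 j ⟨k.1, k.2, e⟩
      exact ⟨_, f2 0 j _ rfl, _, f2 1 j _ ⟨⟨k.1, k.2, e⟩, rfl⟩, k.2, Or.inl this.1,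
        this.1.2 j k.1 ▸ e⟩

end AP

end Pool.Agent.Lib.MP_ef7581_lc
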