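import Mathlib
import Pool.Agent.Lib.MP_ef7581_lc.PMathX

/-!
Feasibility in the case of two structures, through numbers of unmatched nodes.
-/

set_option autoImplicit false

namespace Pool.Agent.Lib.MP_ef7581_lc

open Finset

namespace AP

variable {J V : Type} {P : AP J V} [Fintype J] [Fintype V] [DecidableEq J] [DecidableEq V]

open Classical in
variable (P) in
/-- Classes of vertices. -/
noncomputable def vc (a b v : V) : ℕ :=
  if P.Xs a v then 3 else if P.Ys a v then 4 else if P.Xs b v then 5 else if P.Ys b v then 6 else 0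

open Classical in
variable (P) in
/-- Classes of agents. -/
noncomputable def ac (a b : V) (j : J) : ℕ :=
  if P.JD j then (if P.col j a = P.col j b then 1 else 2) else 0

variable (P) in
/-- Pair edges inside each of the two structures. -/
def RT (a b : V) : Rx J V where
  nc _ _ := False
  pe u v := ((P.vc a b u = 3 ∧ P.vc a b v = 4) ∨ (P.vc a b u = 5 ∧ P.vc a b v = 6)) ∧ ¬ P.H u v
  du _ := False

theorem ac_spec (a b : V) (j : J) : (P.ac a b j = 1 ↔ P.JD j ∧ P.col j a = P.col j b) ∧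
    (P.ac a b j = 2 ↔ P.JD j ∧ P.col j a ≠ P.col j b) ∧ (P.ac a b j = 0 ↔ ¬ P.JD j) ∧
    P.ac a b j < 3 := by
  unfold ac
  split_ifs <;> simp_all

theorem vc_range (a b v : V) : P.vc a b v = 0 ∨ P.vc a b v = 3 ∨ P.vc a b v = 4 ∨
    P.vc a b v = 5 ∨ P.vc a b v = 6 := by
  unfold vc
  split_ifs <;> simp

theorem vc_zero {a b : V} (h : P.TwoStruct a b) (v : V) : P.vc a b v = 0 ↔ ¬ P.W v := by
  have h1 := h.2.2 v
  have h2 := @Ks.W _ _ P _ _ _ _ a v
  have h3 := @Ks.W _ _ P _ _ _ _ b v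
  unfold Ks at h1 h2 h3
  unfold vc
  split_ifs <;> simp_all

theorem vc_col {a b v : V} {j : J} (hj : P.JD j) : (P.vc a b v = 3 → P.col j v = P.col j a) ∧
    (P.vc a b v = 4 → P.col j v ≠ P.col j a) ∧ (P.vc a b v = 5 → P.col j v = P.col j b) ∧
    (P.vc a b v = 6 → P.col j v ≠ P.col j b) := by
  unfold vc
  split_ifs with h1 h2 h3 h4
  · simp [h1.2 j hj]
  · simp [h2.2 j hj]
  · simp [h3.2 j hj]
  · simp [h4.2 j hj]
  · simp

/-- Which pairs of classes have different colours for `j`. -/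
theorem table {a b : V} (h : P.TwoStruct a b) {j : J} (hj : P.JD j) {u v : V}
    (hu : P.vc a b u ≠ 0) (huv : P.vc a b u ≤ P.vc a b v) : P.col j u ≠ P.col j v ↔
      (P.vc a b u = 3 ∧ P.vc a b v = 4) ∨ (P.vc a b u = 5 ∧ P.vc a b v = 6) ∨
      (P.ac a b j = 1 ∧ ((P.vc a b u = 3 ∧ P.vc a b v = 6) ∨ (P.vc a b u = 4 ∧ P.vc a b v = 5))) ∨
      (P.ac a b j = 2 ∧ ((P.vc a b u = 3 ∧ P.vc a b v = 5) ∨
        (P.vc a b u = 4 ∧ P.vc a b v = 6))) := by
  have c1 := dm0 hj h.1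
  have c2 := dm0 hj h.2.1.1
  have c3 := dm0 hj (not_not.1 (mt (vc_zero h u).2 hu))
  have c4 := dm0 hj (not_not.1 (mt (vc_zero h v).2 (by omega)))
  have d1 := vc_col (a := a) (b := b) (v := u) hj
  have d2 := vc_col (a := a) (b := b) (v := v) hj
  rw [(ac_spec a b j).1, (ac_spec a b j).2.1]
  have r1 := vc_range (P := P) a b u
  have r2 := vc_range (P := P) a b v
  generalize P.vc a b u = s at *
  generalize P.vc a b v = t at *
  generalize P.col j u = cu at *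
  generalize P.col j v = cv at *
  generalize P.col j a = ca at *
  generalize P.col j b = cb at *
  simp only [hj, true_and]
  obtain ⟨xa, rfl⟩ := Option.ne_none_iff_exists'.1 c1
  obtain ⟨xb, rfl⟩ := Option.ne_none_iff_exists'.1 c2
  obtain ⟨xu, rfl⟩ := Option.ne_none_iff_exists'.1 c3
  obtain ⟨xv, rfl⟩ := Option.ne_none_iff_exists'.1 c4
  rcases r1 with rfl | rfl | rfl | rfl | rfl <;> rcases r2 with rfl | rfl | rfl | rfl | rfl <;>
    first
    | omega
    | (cases xu <;> cases xv <;> cases xa <;> cases xb <;> simp at d1 d2 ⊢)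

theorem cross_not_H {a b : V} (h : P.TwoStruct a b) {u v : V}
    (hu : P.vc a b u = 3 ∨ P.vc a b u = 4) (hv : P.vc a b v = 5 ∨ P.vc a b v = 6) :
    ¬ P.H u v := by
  intro k
  have wu : P.W u := not_not.1 (mt (vc_zero h u).2 (by omega))
  have key : ∀ j, P.JD j → _ := fun j hj =>
    (table h hj (u := u) (v := v) (by omega) (by omega)).1 (P.compat j u v k (dm0 hj wu))
  have e1 : ∃ j, P.JD j ∧ P.ac a b j = 1 := by
    by_contra e
    exact h.2.1.2 (Or.inr ⟨h.2.1.1, fun j hj e' => e ⟨j, hj, (ac_spec a b j).1.2 ⟨hj, e'.symm⟩⟩⟩)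
  have e2 : ∃ j, P.JD j ∧ P.ac a b j = 2 := by
    by_contra e
    exact h.2.1.2 (Or.inl ⟨h.2.1.1, fun j hj => by
      by_contra e'
      exact e ⟨j, hj, (ac_spec a b j).2.1.2 ⟨hj, fun e'' => e' e''.symm⟩⟩⟩)
  obtain ⟨j1, k1, l1⟩ := e1
  obtain ⟨j2, k2, l2⟩ := e2
  have := key j1 k1
  have := key j2 k2
  omega

theorem two_key {a b : V} {m : Nd J V → Nd J V} (hm : IsM (P.E (P.RT a b)) m)
    (s o d3 d4 d5 d6 : ℕ) :
    Defi (ncl (P.ac a b) (P.vc a b) 7) (Lst [0, s, o, d3, d4, d5, d6, Fintype.card J]) m ↔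
      ((∀ j, P.ac a b j = 0 → m (ag j) ≠ ag j) ∧ ∀ v, P.vc a b v = 0 → m (vx v) ≠ vx v) ∧
        cnt (fun j => P.ac a b j = 1 ∧ m (ag j) = ag j) = s ∧
        cnt (fun j => P.ac a b j = 2 ∧ m (ag j) = ag j) = o ∧
        cnt (fun v => P.vc a b v = 3 ∧ m (vx v) = vx v) = d3 ∧
        cnt (fun v => P.vc a b v = 4 ∧ m (vx v) = vx v) = d4 ∧
        cnt (fun v => P.vc a b v = 5 ∧ m (vx v) = vx v) = d5 ∧
        cnt (fun v => P.vc a b v = 6 ∧ m (vx v) = vx v) = d6 := by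
  have s1 := fun j => (ac_spec (P := P) a b j).2.2.2
  have s2 := vc_range (P := P) a b
  have t1 : ∀ c, 3 ≤ c → ∀ j, P.ac a b j ≠ c := fun c hc j => by have := s1 j; omega
  have t2 : ∀ c, c = 1 ∨ c = 2 ∨ c = 7 → ∀ v, P.vc a b v ≠ c := fun c hc v => by
    have := s2 v; omega
  rw [defi_Lst]
  · simp only [List.length_cons, List.length_nil, List.range_succ, List.range_zero,
      List.nil_append, List.cons_append, List.map_cons, List.map_nil, List.cons.injEq]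
    rw [cnt_cl_zero (by simp), cnt_cl_ag m (fun _ => Iff.rfl) (t2 1 (by simp)) (by simp),
      cnt_cl_ag m (fun _ => Iff.rfl) (t2 2 (by simp)) (by simp),
      cnt_cl_vx m (t1 3 (by simp)) (fun _ => Iff.rfl) (by simp),
      cnt_cl_vx m (t1 4 (by simp)) (fun _ => Iff.rfl) (by simp),
      cnt_cl_vx m (t1 5 (by simp)) (fun _ => Iff.rfl) (by simp),
      cnt_cl_vx m (t1 6 (by simp)) (fun _ => Iff.rfl) (by simp),
      cnt_cl_dm (t1 7 (by simp)) (t2 7 (by simp)) (dm_fix hm fun _ h => h)]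
    simp
  · rintro (j | v | j)
    · have := s1 j
      simp only [ncl, Sum.elim_inl, List.length_cons, List.length_nil]
      omega
    · have := s2 v
      simp only [ncl, Sum.elim_inr, Sum.elim_inl, List.length_cons, List.length_nil]
      omega
    · simp [ncl]

theorem two_of_feasible (hc : P.Crit) {a b : V} (h : P.TwoStruct a b) (hf : P.Feasible) :
    ∃ n1, n1 ≤ Fintype.card J ∧ ∃ n2, n2 ≤ Fintype.card J ∧ ∃ n3, n3 ≤ Fintype.card J ∧
      ∃ n4, n4 ≤ Fintype.card J ∧ ∃ s, s ≤ Fintype.card J ∧ ∃ o, o ≤ Fintype.card J ∧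
      (∃ m, IsM (P.E (P.RT a b)) m ∧ Defi (ncl (P.ac a b) (P.vc a b) 7)
        (Lst [0, s, o, n1 + n3, n2 + n4, n2 + n3, n1 + n4, Fintype.card J]) m) ∧
      n1 + n2 ≤ s ∧ n3 + n4 ≤ o ∧ Fintype.card J + s + o ≤ Fintype.card V := by
  classical
  obtain ⟨f, hd, hf⟩ := hf
  obtain ⟨N0, -⟩ := exists_nf hc hd (fun _ _ _ => True) fun j => by
    obtain ⟨u, hu, k | ⟨v, hv, k⟩⟩ := hf j
    exacts [Or.inl ⟨u, hu, k⟩, Or.inr ⟨u, hu, v, hv, k.1, k.2, trivial⟩]
  obtain ⟨N, hN⟩ := N0.orient (fun _ u v => P.vc a b u ≤ P.vc a b v) fun _ _ => le_total _ _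
  have tb := fun j (hj : ¬ N.C j) => (table h (N.hN j hj).2.2.1
    (mt (vc_zero h _).1 (not_not.2 (N.hN j hj).2.2.2.1)) (hN j hj)).1 (N.hN j hj).1
  let U : J → Prop := fun j => ¬ N.C j ∧ ((P.vc a b (N.φ j) = 3 ∧ P.vc a b (N.ψ j) = 4) ∨
    (P.vc a b (N.φ j) = 5 ∧ P.vc a b (N.ψ j) = 6))
  obtain ⟨m, hm, h1, h2, h3⟩ := N.build (E := P.E (P.RT a b)) (fun _ _ => E_symm)
    (fun j => if U j then vx (N.ψ j) else ag j)
    (fun j => if N.C j ∨ U j then vx (N.φ j) else ag j)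
    (fun j => by split_ifs; exacts [N.own_ψ j, N.own_ag j])
    (fun j => by split_ifs; exacts [N.own_φ j, N.own_ag j])
    (fun j k => by
      by_cases hk : U j
      · simp only [hk, or_true, if_true]
        exact Or.inr ⟨hk.2, (N.hN j hk.1).2.1⟩
      · by_cases hj : N.C j
        · simp only [hk, hj, true_or, if_true, if_false]
          exact Or.inl (N.hC j hj).1
        · simp [hk, hj] at k)
  have c1 : ∀ j, m (ag j) = ag j ↔ ¬ N.C j := fun j => by
    by_cases hj : N.C j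
    · have : m (ag j) = vx (N.φ j) := by simpa [U, hj] using h1 j
      simp [this, hj]
    · by_cases hk : U j
      · simpa [hj] using h3 j _ (N.own_ag j) (by simp [hk]) (by simp [hk])
      · simpa [hk, hj] using h1 j
  have c2 : ∀ j, (m (vx (N.φ j)) = vx (N.φ j) ↔ ¬ N.C j ∧ ¬ U j) ∧
      (m (vx (N.ψ j)) = vx (N.ψ j) ↔ ¬ N.C j ∧ ¬ U j) := fun j => by
    by_cases hj : N.C j
    · have : m (vx (N.φ j)) = ag j := by simpa [U, hj] using h2 j
      simp [(N.hC j hj).2, this, hj]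
    · by_cases hk : U j
      · have e1 : m (vx (N.φ j)) = vx (N.ψ j) := by simpa [hk] using h2 j
        have e2 : m (vx (N.ψ j)) = vx (N.φ j) := by simpa [hk] using h1 j
        simp [e1, e2, hk, N.φ_ne_ψ hj, (N.φ_ne_ψ hj).symm]
      · simpa [hj, hk] using And.intro (h3 j _ (N.own_φ j) (by simp [hk]) (by simp [hk, hj]))
          (h3 j _ (N.own_ψ j) (by simp [hk]) (by simp [hk, hj]))
  let T : ℕ → ℕ → J → Prop := fun s t j =>
    ¬ N.C j ∧ P.vc a b (N.φ j) = s ∧ P.vc a b (N.ψ j) = t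
  have c3 : ∀ c, c = 3 ∨ c = 4 →
      cnt (fun v => P.vc a b v = c ∧ m (vx v) = vx v) = cnt (T c 6) + cnt (T c 5) := by
    intro c hc
    rw [← cnt_two (r := fun j => T c 6 j ∨ T c 5 j) (fun _ => Iff.rfl)
      fun j k1 k2 => by have := k1.2.2; have := k2.2.2; omega]
    refine cnt_image N.φ N.φ_inj fun v => ⟨fun ⟨k1, k2⟩ => ?_, ?_⟩
    · obtain ⟨j, rfl | rfl⟩ := N.all v
      · obtain ⟨k3, k4⟩ := (c2 j).1.1 k2
        have := tb j k3
        simp only [U, k3, not_false_eq_true, true_and] at k4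
        exact ⟨j, by simp only [T, k3, not_false_eq_true, true_and]; omega, rfl⟩
      · obtain ⟨k3, k4⟩ := (c2 j).2.1 k2
        have := tb j k3
        simp only [U, k3, not_false_eq_true, true_and] at k4
        omega
    · rintro ⟨j, k | k, rfl⟩ <;>
        exact ⟨k.2.1, (c2 j).1.2 ⟨k.1, fun e => by have := e.2; have := k.2; omega⟩⟩
  have c4 : ∀ c, c = 5 ∨ c = 6 →
      cnt (fun v => P.vc a b v = c ∧ m (vx v) = vx v) = cnt (T 3 c) + cnt (T 4 c) := by
    intro c hc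
    rw [← cnt_two (r := fun j => T 3 c j ∨ T 4 c j) (fun _ => Iff.rfl)
      fun j k1 k2 => by have := k1.2.1; have := k2.2.1; omega]
    refine cnt_image N.ψ N.ψ_inj fun v => ⟨fun ⟨k1, k2⟩ => ?_, ?_⟩
    · obtain ⟨j, rfl | rfl⟩ := N.all v
      · obtain ⟨k3, k4⟩ := (c2 j).1.1 k2
        have := tb j k3
        simp only [U, k3, not_false_eq_true, true_and] at k4
        omega
      · obtain ⟨k3, k4⟩ := (c2 j).2.1 k2
        have := tb j k3
        simp only [U, k3, not_false_eq_true, true_and] at k4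
        exact ⟨j, by simp only [T, k3, not_false_eq_true, true_and]; omega, rfl⟩
    · rintro ⟨j, k | k, rfl⟩ <;>
        exact ⟨k.2.2, (c2 j).2.2 ⟨k.1, fun e => by have := e.2; have := k.2; omega⟩⟩
  have c5 : ∀ c s t s' t', s ≠ s' → (∀ j, ¬ N.C j → T s t j ∨ T s' t' j → P.ac a b j = c) →
      cnt (T s t) + cnt (T s' t') ≤ cnt fun j => P.ac a b j = c ∧ m (ag j) = ag j := by
    intro c s t s' t' h1 h2
    rw [← cnt_two (r := fun j => T s t j ∨ T s' t' j) (fun _ => Iff.rfl)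
      fun j k1 k2 => h1 (k1.2.1.symm.trans k2.2.1)]
    refine cnt_mono fun j k => ?_
    have hj : ¬ N.C j := k.elim And.left And.left
    exact ⟨h2 j hj k, (c1 j).2 hj⟩
  refine ⟨cnt (T 3 6), cnt_le _, cnt (T 4 5), cnt_le _, cnt (T 3 5), cnt_le _, cnt (T 4 6),
    cnt_le _, _, cnt_le _, _, cnt_le _, ⟨m, hm, (two_key hm _ _ _ _ _ _).2 ⟨⟨fun j k e => ?_,
    fun v k e => ?_⟩, rfl, rfl, c3 3 (by simp), by rw [c3 4 (by simp), add_comm],
    by rw [c4 5 (by simp), add_comm], c4 6 (by simp)⟩⟩, c5 _ _ _ _ _ (by simp) fun j hj k => ?_,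
    c5 _ _ _ _ _ (by simp) fun j hj k => ?_, ?_⟩
  · exact (ac_spec a b j).2.2.1.1 k (N.hN j ((c1 j).1 e)).2.2.1
  · obtain ⟨j, rfl | rfl⟩ := N.all v
    · exact (vc_zero h _).1 k (N.hN j ((c2 j).1.1 e).1).2.2.2.1
    · exact (vc_zero h _).1 k (N.hN j ((c2 j).2.1 e).1).2.2.2.2
  · have := tb j hj
    simp only [T, hj, not_false_eq_true, true_and] at k
    omega
  · have := tb j hj
    simp only [T, hj, not_false_eq_true, true_and] at k
    omega
  · rw [← N.num, add_assoc, add_comm, ← cnt_two (r := fun j => ¬ N.C j) (fun j => ?_)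
      fun j k1 k2 => by have := k1.1; have := k2.1; omega]
    rw [c1]
    refine ⟨fun hj => ?_, fun k => k.elim And.right And.right⟩
    have k1 := (ac_spec (P := P) a b j).2.2
    have k2 := mt k1.1.1 (not_not.2 (N.hN j hj).2.2.1)
    simp only [hj, not_false_eq_true, and_true]
    omega

theorem feasible_of_two {a b : V} (h : P.TwoStruct a b) {n1 n2 n3 n4 s o : ℕ}
    {m : Nd J V → Nd J V} (hm : IsM (P.E (P.RT a b)) m)
    (hd : Defi (ncl (P.ac a b) (P.vc a b) 7)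
      (Lst [0, s, o, n1 + n3, n2 + n4, n2 + n3, n1 + n4, Fintype.card J]) m)
    (h1 : n1 + n2 ≤ s) (h2 : n3 + n4 ≤ o) (h3 : Fintype.card J + s + o ≤ Fintype.card V) :
    P.Feasible := by
  classical
  obtain ⟨⟨z1, z2⟩, k1, k2, k3, k4, k5, k6⟩ := (two_key hm _ _ _ _ _ _).1 hd
  have hdu : ∀ j, ¬ (P.RT a b).du j := fun _ h => h
  obtain ⟨q1, e1⟩ := exists_sub (a := n1) (p := fun j => P.ac a b j = 1 ∧ m (ag j) = ag j)
    (by omega)
  have f1 := cnt_split (fun j => P.ac a b j = 1 ∧ m (ag j) = ag j) q1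
  obtain ⟨q2, e2⟩ := exists_sub (a := n2)
    (p := fun j => (P.ac a b j = 1 ∧ m (ag j) = ag j) ∧ ¬ q1 j) (by omega)
  have f2 := cnt_split (fun j => (P.ac a b j = 1 ∧ m (ag j) = ag j) ∧ ¬ q1 j) q2
  obtain ⟨q3, e3⟩ := exists_sub (a := n3) (p := fun j => P.ac a b j = 2 ∧ m (ag j) = ag j)
    (by omega)
  have f3 := cnt_split (fun j => P.ac a b j = 2 ∧ m (ag j) = ag j) q3
  obtain ⟨q4, e4⟩ := exists_sub (a := n4)
    (p := fun j => (P.ac a b j = 2 ∧ m (ag j) = ag j) ∧ ¬ q3 j) (by omega)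
  have f4 := cnt_split (fun j => (P.ac a b j = 2 ∧ m (ag j) = ag j) ∧ ¬ q3 j) q4
  obtain ⟨κ, κ1, κ2, κ3, κ4, κ5, κ6⟩ : ∃ κ : J → ℕ, cnt (fun j => κ j = 1) = n1 ∧
      cnt (fun j => κ j = 2) = n2 ∧ cnt (fun j => κ j = 3) = n3 ∧ cnt (fun j => κ j = 4) = n4 ∧
      cnt (fun j => κ j = 5) + (n1 + n2 + n3 + n4) = s + o ∧
      ∀ j, m (ag j) = ag j → (P.ac a b j = 1 ∧ (κ j = 1 ∨ κ j = 2 ∨ κ j = 5)) ∨
        (P.ac a b j = 2 ∧ (κ j = 3 ∨ κ j = 4 ∨ κ j = 5)) := by
    refine ⟨fun j => if m (ag j) = ag j then (if P.ac a b j = 1 then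
      (if q1 j then 1 else if q2 j then 2 else 5) else if P.ac a b j = 2 then
      (if q3 j then 3 else if q4 j then 4 else 5) else 0) else 0, ?_, ?_, ?_, ?_, ?_, fun j hj => ?_⟩
    · rw [← e1]
      exact cnt_congr fun j => by beta_reduce; split_ifs <;> simp [*]
    · rw [← e2]
      exact cnt_congr fun j => by beta_reduce; split_ifs <;> simp [*]
    · rw [← e3]
      exact cnt_congr fun j => by beta_reduce; split_ifs <;> simp [*]
    · rw [← e4]
      exact cnt_congr fun j => by beta_reduce; split_ifs <;> simp [*]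
    · rw [cnt_two (p := fun j => ((P.ac a b j = 1 ∧ m (ag j) = ag j) ∧ ¬ q1 j) ∧ ¬ q2 j)
        (q := fun j => ((P.ac a b j = 2 ∧ m (ag j) = ag j) ∧ ¬ q3 j) ∧ ¬ q4 j)
        (fun j => by beta_reduce; split_ifs <;> simp [*])
        fun j k k' => by have := k.1.1.1; have := k'.1.1.1; omega]
      omega
    · have := mt (z1 j) (not_not.2 hj)
      have := (ac_spec (P := P) a b j).2.2.2
      simp only [hj, if_true]
      split_ifs <;> omega
  have two : ∀ c c', c ≠ c' → cnt (fun j => κ j = c ∨ κ j = c') =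
      cnt (fun j => κ j = c) + cnt fun j => κ j = c' := fun c c' hc =>
    cnt_two (fun _ => Iff.rfl) fun j k k' => hc (k.symm.trans k')
  have : Nonempty V := ⟨a⟩
  obtain ⟨g3, a3, b3⟩ := exists_inj (p := fun j => κ j = 1 ∨ κ j = 3)
    (q := fun v => P.vc a b v = 3 ∧ m (vx v) = vx v) (by rw [two _ _ (by simp)]; omega)
  obtain ⟨g4, a4, b4⟩ := exists_inj (p := fun j => κ j = 2 ∨ κ j = 4)
    (q := fun v => P.vc a b v = 4 ∧ m (vx v) = vx v) (by rw [two _ _ (by simp)]; omega)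
  obtain ⟨g5, a5, b5⟩ := exists_inj (p := fun j => κ j = 2 ∨ κ j = 3)
    (q := fun v => P.vc a b v = 5 ∧ m (vx v) = vx v) (by rw [two _ _ (by simp)]; omega)
  obtain ⟨g6, a6, b6⟩ := exists_inj (p := fun j => κ j = 1 ∨ κ j = 4)
    (q := fun v => P.vc a b v = 6 ∧ m (vx v) = vx v) (by rw [two _ _ (by simp)]; omega)
  have pe : ∀ u v, u ≠ v → m (vx v) = vx u → (P.RT a b).pe v u ∨ (P.RT a b).pe u v := by
    intro u v k e
    rcases vx_cases hm v with e' | ⟨j, e', -⟩ | ⟨w, -, e', k'⟩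
    · simp_all
    · simp_all
    · obtain rfl : u = w := by simpa [e] using e'
      exact k'
  obtain ⟨g1, a1, b1⟩ := exists_inj (p := fun j => κ j = 5)
    (q := fun v => (∃ u, u ≠ v ∧ m (vx v) = vx u) ∧ (P.vc a b v = 3 ∨ P.vc a b v = 5)) (by
      have t1 := count_nodes hm hdu
      have t2 := cnt_split (fun v => ∃ u, u ≠ v ∧ m (vx v) = vx u)
        fun v => P.vc a b v = 3 ∨ P.vc a b v = 5
      have t3 : cnt (fun v => (∃ u, u ≠ v ∧ m (vx v) = vx u) ∧
          ¬ (P.vc a b v = 3 ∨ P.vc a b v = 5)) ≤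
          cnt fun v => (∃ u, u ≠ v ∧ m (vx v) = vx u) ∧ (P.vc a b v = 3 ∨ P.vc a b v = 5) := by
        refine cnt_le_of_rel (fun v u => m (vx v) = vx u) ?_ (fun v v' u e e' => ?_)
          fun v u u' e e' => by simpa [e] using e'
        · rintro v ⟨⟨u, k, e⟩, k'⟩
          refine ⟨u, ⟨⟨v, k.symm, flip hm e⟩, ?_⟩, e⟩
          rcases pe u v k e with t | t <;> have := t.1 <;> omega
        · simpa [flip hm e] using flip hm e'
      have t4 : cnt (fun j => m (ag j) = ag j) = s + o := by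
        rw [← k1, ← k2]
        refine cnt_two (fun j => ⟨fun k => ?_, fun k => k.elim And.right And.right⟩)
          fun j k k' => by have := k.1; have := k'.1; omega
        have := κ6 j k
        tauto
      have t5 : cnt (fun v => m (vx v) = vx v) ≤ n1 + n3 + (n2 + n4) + (n2 + n3 + (n1 + n4)) := by
        rw [← k3, ← k4, ← k5, ← k6, ← cnt_two (fun _ => Iff.rfl), ← cnt_two (fun _ => Iff.rfl),
          ← cnt_two (fun _ => Iff.rfl)]
        · refine cnt_mono fun v k => ?_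
          have := mt (z2 v) (not_not.2 k)
          have := vc_range (P := P) a b v
          simp only [k, and_true]
          omega
        all_goals
          intro v
          have := vc_range (P := P) a b v
          omega
      omega)
  obtain ⟨f, f1, f2⟩ := disj_of_chan (fun i j v => match i with
      | 0 => m (ag j) = vx v
      | 1 => κ j = 5 ∧ v = g1 j
      | 2 => κ j = 5 ∧ m (vx (g1 j)) = vx v
      | 3 => (κ j = 1 ∨ κ j = 3) ∧ v = g3 j
      | 4 => (κ j = 2 ∨ κ j = 4) ∧ v = g4 j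
      | 5 => (κ j = 2 ∨ κ j = 3) ∧ v = g5 j
      | 6 => (κ j = 1 ∨ κ j = 4) ∧ v = g6 j
      | _ => False) (fun v => if m (vx v) = vx v then P.vc a b v else
        if ∃ j, m (vx v) = ag j then 0 else if P.vc a b v = 3 ∨ P.vc a b v = 5 then 1 else 2)
    (by
      rintro (_ | _ | _ | _ | _ | _ | _ | i) j v k
      · simp [flip hm (show m (ag j) = vx v from k)]
      · obtain ⟨k, rfl⟩ := k
        obtain ⟨⟨u, t1, t2⟩, t3⟩ := a1 j k
        simp [t1, t2, t3]
      · obtain ⟨⟨u, t1, t2⟩, t3⟩ := a1 j k.1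
        obtain rfl : u = v := by simpa [t2] using k.2
        have : ¬ (P.vc a b u = 3 ∨ P.vc a b u = 5) := by
          rcases pe u _ t1 t2 with t | t <;> have := t.1 <;> omega
        simp only [flip hm t2, this]
        simp [t1.symm]
      · obtain ⟨k, rfl⟩ := k
        rw [if_pos (a3 j k).2, (a3 j k).1]
      · obtain ⟨k, rfl⟩ := k
        rw [if_pos (a4 j k).2, (a4 j k).1]
      · obtain ⟨k, rfl⟩ := k
        rw [if_pos (a5 j k).2, (a5 j k).1]
      · obtain ⟨k, rfl⟩ := k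
        rw [if_pos (a6 j k).2, (a6 j k).1]
      · exact k.elim)
    (by
      rintro (_ | _ | _ | _ | _ | _ | _ | i) j j' v k k'
      · simpa [flip hm (show m (ag j) = vx v from k)] using flip hm (show m (ag j') = vx v from k')
      · exact b1 j j' k.1 k'.1 (k.2.symm.trans k'.2)
      · exact b1 j j' k.1 k'.1 (by simpa [flip hm k.2] using flip hm k'.2)
      · exact b3 j j' k.1 k'.1 (k.2.symm.trans k'.2)
      · exact b4 j j' k.1 k'.1 (k.2.symm.trans k'.2)
      · exact b5 j j' k.1 k'.1 (k.2.symm.trans k'.2)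
      · exact b6 j j' k.1 k'.1 (k.2.symm.trans k'.2)
      · exact k.elim)
  refine ⟨f, f1, fun j => ?_⟩
  rcases ag_cases hm hdu j with e | ⟨v, e, k⟩
  swap
  · exact ⟨v, f2 0 j v e, Or.inl (k.resolve_right id)⟩
  have hj : P.JD j := not_not.1 (mt (ac_spec a b j).2.2.1.2 (mt (z1 j) (not_not.2 e)))
  have k := κ6 j e
  have cross : ∀ u ∈ f j, ∀ v ∈ f j,
      (P.ac a b j = 1 ∧ ((P.vc a b u = 3 ∧ P.vc a b v = 6) ∨ (P.vc a b u = 4 ∧ P.vc a b v = 5))) ∨
      (P.ac a b j = 2 ∧ ((P.vc a b u = 3 ∧ P.vc a b v = 5) ∨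
        (P.vc a b u = 4 ∧ P.vc a b v = 6))) → P.Serv j (f j) := fun u hu v hv t =>
    ⟨u, hu, Or.inr ⟨v, hv, (table h hj (by omega) (by omega)).2 (Or.inr (Or.inr t)),
      cross_not_H h (by omega) (by omega)⟩⟩
  have hκ : κ j = 1 ∨ κ j = 2 ∨ κ j = 3 ∨ κ j = 4 ∨ κ j = 5 := by omega
  rcases hκ with t | t | t | t | t
  · exact cross _ (f2 3 j _ ⟨Or.inl t, rfl⟩) _ (f2 6 j _ ⟨Or.inl t, rfl⟩) (Or.inl
      ⟨by omega, Or.inl ⟨(a3 j (Or.inl t)).1, (a6 j (Or.inl t)).1⟩⟩)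
  · exact cross _ (f2 4 j _ ⟨Or.inl t, rfl⟩) _ (f2 5 j _ ⟨Or.inl t, rfl⟩) (Or.inl
      ⟨by omega, Or.inr ⟨(a4 j (Or.inl t)).1, (a5 j (Or.inl t)).1⟩⟩)
  · exact cross _ (f2 3 j _ ⟨Or.inr t, rfl⟩) _ (f2 5 j _ ⟨Or.inr t, rfl⟩) (Or.inr
      ⟨by omega, Or.inl ⟨(a3 j (Or.inr t)).1, (a5 j (Or.inr t)).1⟩⟩)
  · exact cross _ (f2 4 j _ ⟨Or.inr t, rfl⟩) _ (f2 6 j _ ⟨Or.inr t, rfl⟩) (Or.inr
      ⟨by omega, Or.inr ⟨(a4 j (Or.inr t)).1, (a6 j (Or.inr t)).1⟩⟩)
  · obtain ⟨⟨u, t1, t2⟩, t3⟩ := a1 j t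
    have t4 : (P.RT a b).pe (g1 j) u := (pe u _ t1 t2).resolve_right fun t => by
      have := t.1
      omega
    have t5 := t4.1
    exact ⟨_, f2 1 j _ ⟨t, rfl⟩, Or.inr ⟨u, f2 2 j _ ⟨t, t2⟩,
      (table h hj (by omega) (by omega)).2 (by omega), t4.2⟩⟩

end AP

end Pool.Agent.Lib.MP_ef7581_lc
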