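import Mathlib
import Pool.Agent.Lib.MP_ef7581_lc.PBase
import Pool.Agent.Lib.MP_ef7581_lc.PExact
import Pool.Agent.Lib.MP_ef7581_lc.PMathT

/-!
The characterisation `Char` is decidable in polynomial time.
-/

set_option autoImplicit false

namespace Pool.Agent.Lib.MP_ef7581_lc

open Pool.Agent.Shared.PolyTime Finset

variable {γ : Type} [Enc γ] {c : γ → CI}

attribute [fun_prop] pf_k pf_n

theorem pf_Lst {d : γ → List ℕ} (hd : PF d) : PF fun a => Lst (d a) := by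
  unfold Lst
  fun_prop

theorem pf_ncl (hc : PF c) (fa : ∀ a, Fin (c a).k → ℕ) (fv : ∀ a, Fin (c a).n → ℕ) (r : ℕ)
    (h1 : PF fun p : Pt (FJ c) => fa p.a p.x) (h2 : PF fun p : Pt (FV c) => fv p.a p.x) :
    PF fun p : Pt (FN c) => ncl (fa p.a) (fv p.a) r p.x :=
  pf_node hc (fun a => ncl (fa a) (fv a) r) h1 h2 (PF.const r)

theorem pf_flexAux (hc : PF c) {x : ∀ a, Fin (c a).n} (hx : PF fun a => idx (x a))
    {d : γ → List ℕ} (hd : PF d) : PF fun a => ∃ m, IsM ((c a).P.E ((c a).P.GamF (x a))) m ∧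
      Defi (ncl (fun _ => 0) ((c a).P.clF (x a)) 4) (Lst (d a)) m :=
  pf_defi (E := fun a => (c a).P.E ((c a).P.GamF (x a))) (pf_NN hc) (pf_E hc (pr_GamF hc hx))
    (pf_ncl hc (fun _ _ => 0) (fun a => (c a).P.clF (x a)) 4 (PF.const 0)
      (pf_ite (pf_Ks (pf_c1 hc) (hx.comp (pt_a PF.id')) pf_x2)
      (PF.const 1) (pf_ite (pf_W (pf_c1 hc) pf_x2) (PF.const 2) (PF.const 3))))
    (pf_Lst hd) fun _ _ _ => AP.E_symm

theorem pf_Flex (hc : PF c) {x : ∀ a, Fin (c a).n} (hx : PF fun a => idx (x a)) :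
    PF fun a => (c a).P.Flex (x a) := by
  have hk := pf_k hc
  have hn := pf_n hc
  simp only [AP.flex_iff, Fintype.card_fin]
  refine pf_exle hk (pf_exle (by fun_prop) (pf_exle (by fun_prop) (pf_exle (by fun_prop)
    (pf_and (pf_flexAux (by fun_prop) (hx.comp (by fun_prop)) (by fun_prop))
      (pf_and (pf_eq (by fun_prop) (by fun_prop)) (pf_and (pf_le (by fun_prop) (by fun_prop))
        (pf_or (pf_lt (by fun_prop) (by fun_prop)) (pf_lt (by fun_prop) (by fun_prop)))))))))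

theorem th_EX {J V : Type} [Fintype J] [Fintype V] [DecidableEq J] [DecidableEq V] (P : AP J V)
    (x : V) : TH (P.clsX x) (P.EX x) (P.BX x) := by
  classical
  have k1 : ∀ j, (P.JA j ∧ P.clsX x (ag j) = 3) ∨ (¬ P.JA j ∧ P.clsX x (ag j) = 0) := fun j => by
    by_cases h : P.JA j <;> simp [AP.clsX, ncl, h]
  have k2 : ∀ v, (P.W v ∧ ¬ P.Fs x v ∧ P.clsX x (vx v) = 4) ∨ (P.Fs x v ∧ P.clsX x (vx v) = 2) ∨
      (¬ P.W v ∧ P.clsX x (vx v) = 1) := fun v => by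
    have := @AP.Ks.W _ _ P _ _ _ _ x v
    by_cases h : P.Ks x v <;> by_cases h' : P.W v <;> simp_all [AP.clsX, ncl, AP.Fs]
  have k3 : ∀ j, P.clsX x (dm j) = 4 := fun _ => rfl
  have k4 : ∀ j v, P.EX x (ag j) (vx v) →
      ((P.clsX x (ag j) = 3 ∧ (P.clsX x (vx v) = 4 ∨ P.clsX x (vx v) = 2)) ∨
      (P.clsX x (ag j) = 0 ∧ (P.clsX x (vx v) = 1 ∨ P.clsX x (vx v) = 2))) ∧
      (P.clsX x (ag j) = 0 → P.clsX x (vx v) = 2 → P.JD j) := by
    intro j v h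
    have h1 : P.col j v = none ∨ (P.JD j ∧ P.Fs x v) := h.1
    have h2 : P.JA j → P.W v := h.2
    have h3 : P.W v → P.col j v = none → P.JA j := fun a b => ⟨v, a, b⟩
    have h4 : P.Fs x v → P.W v := And.left
    rcases k1 j with ⟨a1, a2⟩ | ⟨a1, a2⟩ <;> rcases k2 v with ⟨b1, b2, b3⟩ | ⟨b1, b2⟩ | ⟨b1, b2⟩ <;>
      simp_all
  have k6 : ∀ j, P.clsX x (ag j) = 3 ∨ P.clsX x (ag j) = 0 := fun j =>
    (k1 j).imp And.right And.right
  have k7 : ∀ v, P.clsX x (vx v) ≠ 0 := fun v => by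
    rcases k2 v with ⟨-, -, b⟩ | ⟨-, b⟩ | ⟨-, b⟩ <;> simp [b]
  refine ⟨AP.EX_symm, ?_, ?_, ?_, ?_⟩
  · rintro (i | u | i) (j | v | j) h <;> exact h
  · rintro (i | u | i) (j | v | j) h
    · exact h.1.elim
    · have := (k4 i v h).1; simp only [ag, vx] at this; omega
    · exact h.1.2.elim
    · have := (k4 j u (AP.EX_symm _ _ h)).1; simp only [ag, vx] at this; omega
    · exact h.1.elim False.elim False.elim
    · exact h.1.elim
    · exact h.1.2.elim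
    · exact h.1.elim
    · exact h.1.elim
  · have k5 : ∀ j v, P.BX x (ag j) (vx v) → P.clsX x (ag j) = 0 ∧ P.clsX x (vx v) = 2 := by
      intro j v h
      have h1 := @AP.JA.not_JD _ _ P _ _ _ _ j
      have h2 := h.1
      have h3 := h.2.1
      have h4 := h3.1
      have := k1 j
      have := k2 v
      tauto
    rintro (i | u | i) (j | v | j) - h
    any_goals exact h.elim
    · exact fun _ => k5 i v h
    · have := k5 j u h; simp only [ag, vx] at this; omega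
  · have k8 : ∀ z, P.clsX x z = 2 → ∃ v, z = vx v := by
      rintro (j | v | j) h
      · have := k6 j; simp only [ag] at this; omega
      · exact ⟨v, rfl⟩
      · have := k3 j; simp only [dm] at this; omega
    intro z y y' h1 h2 h3 h
    obtain ⟨v, rfl⟩ := k8 y h2
    obtain ⟨v', rfl⟩ := k8 y' h3
    rcases z with i | u | i
    · have h5 : P.Fs x v' := by have := k2 v'; rw [h3] at this; simpa using this
      exact ⟨Or.inr ⟨(k4 i v h).2 h1 h2, h5⟩, fun _ => h5.1⟩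
    · exact absurd h1 (k7 u)
    · exact h.1.elim

theorem pf_exactAux (hc : PF c) {x : ∀ a, Fin (c a).n} (hx : PF fun a => idx (x a))
    {r b : γ → ℕ} (hr : PF r) (hb : PF b) : PF fun a => ∃ m, IsM ((c a).P.EX (x a)) m ∧
      Defi (ncl (fun _ => 0) ((c a).P.clX (x a)) 3) (Lst [0, r a, b a, (c a).k]) m ∧
      cnt (fun z => (c a).P.clsX (x a) z = 0 ∧ m z ≠ z ∧ (c a).P.BX (x a) z (m z)) = b a := by
  have hk := pf_k hc
  have x1 : PF fun p : Pt (FV c) => idx (x p.a) := hx.comp (pt_a PF.id')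
  have x2 : PF fun p : Pt2 (FJ c) (FV c) => idx (x p.a.a) := hx.comp (pt_a (pt_a PF.id'))
  have hK : PF fun p : Pt2 (FJ c) (FV c) => (c p.a.a).P.Keep (ag p.a.x) (vx p.x) :=
    pf_imp (pf_JA (pf_c2 hc) pf_x1) (pf_W (pf_c2 hc) pf_x2)
  have hB : PF fun p : Pt2 (FJ c) (FV c) => (c p.a.a).P.BX (x p.a.a) (ag p.a.x) (vx p.x) :=
    pf_and (pf_JD (pf_c2 hc) pf_x1) (pf_and (pf_Fs (pf_c2 hc) x2 pf_x2)
      (pf_eqO (pf_col (pf_c2 hc) pf_x1 pf_x2) (pf_col (pf_c2 hc) pf_x1 x2)))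
  refine pf_exactDefi (E := fun a => (c a).P.EX (x a)) (B := fun a => (c a).P.BX (x a))
    (cls := fun a => (c a).P.clsX (x a)) (pf_NN hc)
    (pf_and (pf_E hc (R := fun a => (c a).P.RX (x a)) ⟨pf_and
      (pf_JD (pf_c2 hc) pf_x1) (pf_Fs (pf_c2 hc) x2 pf_x2), PF.const False, PF.const False⟩)
      (pf_node2 hc (fun a => (c a).P.Keep) (PF.const True) hK (PF.const True)
        (pf_swap (fun a y z => (c a).P.Keep (ag y) (vx z)) hK) (PF.const True) (PF.const True)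
        (PF.const True) (PF.const True) (PF.const True)))
    (pf_node2 hc (fun a => (c a).P.BX (x a)) (PF.const False) hB (PF.const False)
      (pf_swap (fun a y z => (c a).P.BX (x a) (ag y) (vx z)) hB) (PF.const False) (PF.const False)
      (PF.const False) (PF.const False) (PF.const False))
    (pf_node hc (fun a => (c a).P.clsX (x a)) (pf_ite (pf_JA (pf_c1 hc) pf_x2) (PF.const 3) (PF.const 0))
      (pf_ite (pf_Ks (pf_c1 hc) x1 pf_x2) (PF.const 4)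
        (pf_ite (pf_W (pf_c1 hc) pf_x2) (PF.const 2) (PF.const 1))) (PF.const 4))
    (pf_ncl hc (fun _ _ => 0) (fun a => (c a).P.clX (x a)) 3 (PF.const 0) (pf_ite (pf_Xs (pf_c1 hc) x1 pf_x2) (PF.const 1)
      (pf_ite (pf_Ys (pf_c1 hc) x1 pf_x2) (PF.const 2) (PF.const 0))))
    (pf_Lst (by fun_prop)) hb (fun a => th_EX _ _) fun a z hz => ?_
  have h0 : ncl (fun _ => 0) ((c a).P.clX (x a)) 3 z ≠ 0 := fun e => by
    rw [e, ← List.count_pos_iff, count_Lst] at hz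
    exact absurd hz (by simp)
  rcases z with j | v | j
  · exact absurd rfl h0
  · have : (c a).P.Ks (x a) v := not_not.1 (mt (AP.clX_spec _ _).2.2.1.2 h0)
    simp [AP.clsX, ncl, this]
  · rfl

theorem pf_exactG (hc : PF c) {x : ∀ a, Fin (c a).n} (hx : PF fun a => idx (x a)) :
    PF fun a => ((c a).P.C0 ∧ (c a).P.Crit ∧ (c a).P.W (x a)) ∧ (c a).P.ExactSol (x a) := by
  have key : PF fun a => ∃ r, r ≤ (c a).n ∧ ∃ b, b ≤ (c a).n ∧ ∃ m, IsM ((c a).P.EX (x a)) m ∧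
      Defi (ncl (fun _ => 0) ((c a).P.clX (x a)) 3) (Lst [0, r, b, (c a).k]) m ∧
      cnt (fun z => (c a).P.clsX (x a) z = 0 ∧ m z ≠ z ∧ (c a).P.BX (x a) z (m z)) = b :=
    pf_exle (by fun_prop) (pf_exle (by fun_prop)
      (pf_exactAux (by fun_prop) (hx.comp (by fun_prop)) (by fun_prop) (by fun_prop)))
  refine pf_iff (pf_and (pf_and (pf_C0 hc) (pf_and (pf_Crit hc) (pf_W hc hx))) key)
    fun a => and_congr_right fun h => ?_
  simp only [AP.exact_iff h.1 h.2.1 h.2.2, Fintype.card_fin]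

section Two

variable (hc : PF c) {x y : ∀ a, Fin (c a).n} (hx : PF fun a => idx (x a))
  (hy : PF fun a => idx (y a))

include hc hx hy

theorem pf_vc {v : ∀ a, Fin (c a).n} (hv : PF fun a => idx (v a)) :
    PF fun a => (c a).P.vc (x a) (y a) (v a) :=
  pf_ite (pf_Xs hc hx hv) (PF.const 3) (pf_ite (pf_Ys hc hx hv) (PF.const 4)
    (pf_ite (pf_Xs hc hy hv) (PF.const 5) (pf_ite (pf_Ys hc hy hv) (PF.const 6) (PF.const 0))))

theorem pf_ac {j : ∀ a, Fin (c a).k} (hj : PF fun a => idx (j a)) :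
    PF fun a => (c a).P.ac (x a) (y a) (j a) :=
  pf_ite (pf_JD hc hj) (pf_ite (pf_eqO (pf_col hc hj hx) (pf_col hc hj hy)) (PF.const 1)
    (PF.const 2)) (PF.const 0)

theorem pf_twoAux {d : γ → List ℕ} (hd : PF d) :
    PF fun a => ∃ m, IsM ((c a).P.E ((c a).P.RT (x a) (y a))) m ∧
      Defi (ncl ((c a).P.ac (x a) (y a)) ((c a).P.vc (x a) (y a)) 7) (Lst (d a)) m := by
  have h1 := pf_vc (pf_c2 (S := FV c) (T := FV c) hc) (hx.comp (pt_a (pt_a PF.id')))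
    (hy.comp (pt_a (pt_a PF.id'))) pf_x1
  have h2 := pf_vc (pf_c2 (S := FV c) (T := FV c) hc) (hx.comp (pt_a (pt_a PF.id')))
    (hy.comp (pt_a (pt_a PF.id'))) pf_x2
  exact pf_defi (E := fun a => (c a).P.E ((c a).P.RT (x a) (y a))) (pf_NN hc)
    (pf_E hc (R := fun a => (c a).P.RT (x a) (y a))
      ⟨PF.const False, pf_and (pf_or (pf_and (pf_eq h1 (PF.const 3)) (pf_eq h2 (PF.const 4)))
      (pf_and (pf_eq h1 (PF.const 5)) (pf_eq h2 (PF.const 6))))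
      (pf_not (pf_H (pf_c2 hc) pf_x1 pf_x2)), PF.const False⟩)
    (pf_ncl hc (fun a => (c a).P.ac (x a) (y a)) (fun a => (c a).P.vc (x a) (y a)) 7
      (pf_ac (pf_c1 hc) (hx.comp (pt_a PF.id')) (hy.comp (pt_a PF.id')) pf_x2)
      (pf_vc (pf_c1 hc) (hx.comp (pt_a PF.id')) (hy.comp (pt_a PF.id')) pf_x2))
    (pf_Lst hd) fun _ _ _ => AP.E_symm

theorem pf_twoG :
    PF fun a => ((c a).P.Crit ∧ (c a).P.TwoStruct (x a) (y a)) ∧ (c a).P.Feasible := by
  have hk := pf_k hc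
  have hn := pf_n hc
  have key : PF fun a => ∃ n1, n1 ≤ (c a).k ∧ ∃ n2, n2 ≤ (c a).k ∧ ∃ n3, n3 ≤ (c a).k ∧
      ∃ n4, n4 ≤ (c a).k ∧ ∃ s, s ≤ (c a).k ∧ ∃ o, o ≤ (c a).k ∧
      (∃ m, IsM ((c a).P.E ((c a).P.RT (x a) (y a))) m ∧
        Defi (ncl ((c a).P.ac (x a) (y a)) ((c a).P.vc (x a) (y a)) 7)
        (Lst [0, s, o, n1 + n3, n2 + n4, n2 + n3, n1 + n4, (c a).k]) m) ∧
      n1 + n2 ≤ s ∧ n3 + n4 ≤ o ∧ (c a).k + s + o ≤ (c a).n :=
    pf_exle hk (pf_exle (by fun_prop) (pf_exle (by fun_prop) (pf_exle (by fun_prop)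
      (pf_exle (by fun_prop) (pf_exle (by fun_prop)
      (pf_and (pf_twoAux (by fun_prop) (hx.comp (by fun_prop)) (hy.comp (by fun_prop))
        (by fun_prop)) (pf_and (pf_le (by fun_prop) (by fun_prop))
        (pf_and (pf_le (by fun_prop) (by fun_prop)) (pf_le (by fun_prop) (by fun_prop))))))))))
  refine pf_iff (pf_and (pf_and (pf_Crit hc) (pf_TwoStruct hc hx hy)) key)
    fun a => and_congr_right fun h => ⟨fun hf => ?_, ?_⟩
  · simpa only [Fintype.card_fin] using AP.two_of_feasible h.1 h.2 hf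
  · rintro ⟨n1, -, n2, -, n3, -, n4, -, s, -, o, -, ⟨m, h1, h2⟩, h3, h4, h5⟩
    exact AP.feasible_of_two h.2 h1 (by simpa only [Fintype.card_fin] using h2) h3 h4
      (by simpa only [Fintype.card_fin] using h5)

end Two

theorem pf_Char (hc : PF c) : PF fun a => (c a).P.Char := by
  have hn := pf_n hc
  have h1 : PF fun a => ∀ l, l ≤ (c a).n → ∀ x y z, (c a).P.Phi ((c a).P.GamA x y z) l ∧
      (c a).P.Phi ((c a).P.GamB x y z) l := by
    have hc' : PF fun q : γ × ℕ => c q.1 := hc.comp PF.id'.fst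
    refine pf_allle hn (pf_all (pf_Nn hc') (pf_all (pf_Nn (pf_c1 hc')) (pf_all
      (pf_Nn (pf_c1 (pf_c1 hc'))) (pf_and ?_ ?_))))
    · exact pf_Phi (pf_c1 (pf_c1 (pf_c1 hc'))) (pr_GamA (pf_c1 (pf_c1 (pf_c1 hc')))
        (pt_x (pt_a (pt_a PF.id'))) (pt_x (pt_a PF.id')) pf_x2) (pt_a (pt_a (pt_a PF.id'))).snd
    · exact pf_Phi (pf_c1 (pf_c1 (pf_c1 hc'))) (pr_GamB (pf_c1 (pf_c1 (pf_c1 hc')))
        (pt_x (pt_a (pt_a PF.id'))) (pt_x (pt_a PF.id')) pf_x2) (pt_a (pt_a (pt_a PF.id'))).snd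
  have h2 : PF fun a => ∀ x y, (c a).P.Phi ((c a).P.Gam2 x y) 0 :=
    pf_all (pf_Nn hc) (pf_all (pf_Nn (pf_c1 hc))
      (pf_Phi (pf_c1 (pf_c1 hc)) (pr_Gam2 (pf_c1 (pf_c1 hc)) (pt_x (pt_a PF.id')) pf_x2)
        (PF.const 0)))
  have h3 : PF fun a => ∀ x, (c a).P.W x → (c a).P.Phi ((c a).P.GamK x) 0 ∧ ((c a).P.Flex x ∨
      (((c a).P.C0 ∧ (c a).P.Crit ∧ (c a).P.W x) ∧ (c a).P.ExactSol x)) :=
    pf_all (pf_Nn hc) (pf_imp (pf_W (pf_c1 hc) pf_x2)
      (pf_and (pf_Phi (pf_c1 hc) (pr_GamK (pf_c1 hc) pf_x2) (PF.const 0))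
        (pf_or (pf_Flex (pf_c1 hc) pf_x2) (pf_exactG (pf_c1 hc) pf_x2))))
  have h4 : PF fun a => ∀ x y, (c a).P.TwoStruct x y →
      ((c a).P.Crit ∧ (c a).P.TwoStruct x y) ∧ (c a).P.Feasible :=
    pf_all (pf_Nn hc) (pf_all (pf_Nn (pf_c1 hc))
      (pf_imp (pf_TwoStruct (pf_c1 (pf_c1 hc)) (pt_x (pt_a PF.id')) pf_x2)
        (pf_twoG (pf_c1 (pf_c1 hc)) (pt_x (pt_a PF.id')) pf_x2)))
  refine pf_iff (pf_and (pf_C0 hc) (pf_and h1 (pf_imp (pf_Crit hc) (pf_and h2 (pf_and h3 h4)))))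
    fun a => ?_
  unfold AP.Char
  rw [Fintype.card_fin]
  refine and_congr_right fun k0 => and_congr_right' (imp_congr_right fun k1 =>
    and_congr_right' (and_congr (forall_congr' fun x => imp_congr_right fun k2 => ?_)
      (forall₂_congr fun x y => imp_congr_right fun k2 => ?_)))
  · simp only [k0, k1, k2, true_and]
  · simp only [k1, k2, true_and]

end Pool.Agent.Lib.MP_ef7581_lc
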