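import Mathlib
import Pool.Agent.Shared.PolyTime.GraphEnc

/-!
Instances of Disjoint Paths on 3P1-free graphs.
-/

set_option autoImplicit false

namespace Pool.Agent.Lib.MP_ef7581_lc

open Pool.Agent.Shared.PolyTime

/-- An instance of Disjoint Paths whose graph is 3P1-free: a graph on `Fin n` with no induced
edgeless subgraph on three vertices, and `k` terminal pairs, the `2k` terminals being distinct. -/
structure Inst where
  n : ℕ
  G : SimpleGraph (Fin n)
  k : ℕ
  s : Fin k → Fin n
  t : Fin k → Fin n
  distinct : Function.Injective (Sum.elim s t)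
  free : IsEmpty ((⊥ : SimpleGraph (Fin 3)) ↪g G)

/-- Binary code: the adjacency matrix, followed by the list of terminal pairs. -/
noncomputable def Inst.code (I : Inst) : List Bool :=
  encPair (encGraph I.G)
    (encList (fun i : Fin I.k => encPair (encNat (I.s i).val) (encNat (I.t i).val))
      (List.finRange I.k))

/-- Yes-instances: there are pairwise vertex-disjoint paths, the `i`-th joining `s i` and `t i`. -/
def Inst.Yes (I : Inst) : Prop :=
  ∃ P : (i : Fin I.k) → I.G.Path (I.s i) (I.t i),
    ∀ i j, i ≠ j → ∀ v, v ∈ (P i).1.support → v ∉ (P j).1.support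

end Pool.Agent.Lib.MP_ef7581_lc
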