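import Mathlib
import Pool.Agent.Lib.MP_ef7581_lc.Stmt
import Pool.Agent.Lib.MP_ef7581_lc.Sound

/-!
Reduction of Disjoint Paths on 3P1-free graphs to the abstract problem.
-/

set_option autoImplicit false

namespace Pool.Agent.Lib.MP_ef7581_lc

open Finset SimpleGraph

namespace Inst

variable (I : Inst)

theorem no_triple {x y z : Fin I.n} (h1 : x ≠ y) (h2 : x ≠ z) (h3 : y ≠ z) (a1 : ¬ I.G.Adj x y)
    (a2 : ¬ I.G.Adj x z) (a3 : ¬ I.G.Adj y z) : False := by
  have b1 : ¬ I.G.Adj y x := fun h => a1 h.symm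
  have b2 : ¬ I.G.Adj z x := fun h => a2 h.symm
  have b3 : ¬ I.G.Adj z y := fun h => a3 h.symm
  refine I.free.false ⟨⟨![x, y, z], fun i j h => ?_⟩, fun {i j} => ?_⟩
  · fin_cases i <;> fin_cases j <;> simp_all [eq_comm]
  · fin_cases i <;> fin_cases j <;> simp [*]

theorem s_inj {i j : Fin I.k} (h : I.s i = I.s j) : i = j :=
  Sum.inl_injective (I.distinct (a₁ := Sum.inl i) (a₂ := Sum.inl j) h)

theorem t_inj {i j : Fin I.k} (h : I.t i = I.t j) : i = j :=
  Sum.inr_injective (I.distinct (a₁ := Sum.inr i) (a₂ := Sum.inr j) h)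

theorem s_ne_t (i j : Fin I.k) : I.s i ≠ I.t j := fun h =>
  Sum.inl_ne_inr (I.distinct (a₁ := Sum.inl i) (a₂ := Sum.inr j) h)

/-- Enumerations of the non-adjacent terminal pairs and of the non-terminals. -/
structure Enum (J V : Type) where
  ι : J → Fin I.k
  κ : V → Fin I.n
  ι_inj : Function.Injective ι
  κ_inj : Function.Injective κ
  ι_range : ∀ i, (∃ j, ι j = i) ↔ ¬ I.G.Adj (I.s i) (I.t i)
  κ_range : ∀ v, (∃ u, κ u = v) ↔ ∀ i, v ≠ I.s i ∧ v ≠ I.t i

/-- The enumeration by subtypes. -/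
def enumSub : I.Enum {i : Fin I.k // ¬ I.G.Adj (I.s i) (I.t i)}
    {v : Fin I.n // ∀ i, v ≠ I.s i ∧ v ≠ I.t i} where
  ι := Subtype.val
  κ := Subtype.val
  ι_inj := Subtype.val_injective
  κ_inj := Subtype.val_injective
  ι_range _ := ⟨fun ⟨j, h⟩ => h ▸ j.2, fun h => ⟨⟨_, h⟩, rfl⟩⟩
  κ_range _ := ⟨fun ⟨j, h⟩ => h ▸ j.2, fun h => ⟨⟨_, h⟩, rfl⟩⟩

open Classical in
/-- The colour of vertex `v` for the pair `i`. -/
noncomputable def color (i : Fin I.k) (v : Fin I.n) : Option Bool :=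
  if I.G.Adj (I.s i) v then (if I.G.Adj (I.t i) v then none else some false) else some true

variable {I}

theorem color_none {i : Fin I.k} {v : Fin I.n} :
    I.color i v = none ↔ I.G.Adj (I.s i) v ∧ I.G.Adj (I.t i) v := by
  unfold color; split_ifs <;> simp [*]

theorem color_false {i : Fin I.k} {v : Fin I.n} :
    I.color i v = some false ↔ I.G.Adj (I.s i) v ∧ ¬ I.G.Adj (I.t i) v := by
  unfold color; split_ifs <;> simp [*]

theorem color_true {i : Fin I.k} {v : Fin I.n} :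
    I.color i v = some true ↔ ¬ I.G.Adj (I.s i) v := by
  unfold color; split_ifs <;> simp [*]

theorem walk_cross {n : ℕ} {G : SimpleGraph (Fin n)} {s t x : Fin n} (p : G.Walk x t)
    (hs : s ∉ p.support) (hx : G.Adj s x) (hxt : x ≠ t) :
    ∃ y ∈ p.support, y ≠ t ∧ G.Adj s y ∧
      (G.Adj t y ∨ ∃ z ∈ p.support, z ≠ t ∧ ¬ G.Adj s z ∧ G.Adj y z) := by
  induction p with
  | nil => exact absurd rfl hxt
  | @cons x x' t h p ih =>
    rw [Walk.support_cons, List.mem_cons, not_or] at hs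
    by_cases h1 : x' = t
    · exact ⟨x, by simp, hxt, hx, Or.inl (h1 ▸ h.symm)⟩
    by_cases h2 : G.Adj s x'
    · obtain ⟨y, y1, y2, y3, y4⟩ := ih hs.2 h2 h1
      refine ⟨y, by simp [y1], y2, y3, y4.imp_right ?_⟩
      rintro ⟨z, z1, z2⟩
      exact ⟨z, by simp [z1], z2⟩
    · exact ⟨x, by simp, hxt, hx, Or.inr ⟨x', by simp, h1, h2, h⟩⟩

namespace Enum

variable {J V : Type} (e : I.Enum J V)

theorem nonadj (j : J) : ¬ I.G.Adj (I.s (e.ι j)) (I.t (e.ι j)) := (e.ι_range _).1 ⟨j, rfl⟩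

theorem nonterm (u : V) (i : Fin I.k) : e.κ u ≠ I.s i ∧ e.κ u ≠ I.t i :=
  (e.κ_range _).1 ⟨u, rfl⟩ i

theorem adj_t {j : J} {u : V} (h : ¬ I.G.Adj (I.s (e.ι j)) (e.κ u)) :
    I.G.Adj (I.t (e.ι j)) (e.κ u) := by
  by_contra h'
  exact I.no_triple (I.s_ne_t _ _) (e.nonterm u _).1.symm (e.nonterm u _).2.symm (e.nonadj j) h h'

/-- The abstract problem of an instance. -/
noncomputable def toAP : AP J V where
  H u v := u ≠ v ∧ ¬ I.G.Adj (e.κ u) (e.κ v)
  col j v := I.color (e.ι j) (e.κ v)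
  symm _ _ h := ⟨h.1.symm, fun h' => h.2 h'.symm⟩
  irrefl _ h := h.1 rfl
  tri _ _ _ h1 h2 h3 :=
    I.no_triple (e.κ_inj.ne h1.1) (e.κ_inj.ne h3.1) (e.κ_inj.ne h2.1) h1.2 h3.2 h2.2
  compat j u v h h1 h2 := by
    rcases h3 : I.color (e.ι j) (e.κ u) with _ | _ | _
    · exact h1 h3
    · exact I.no_triple (e.nonterm u _).2.symm (e.nonterm v _).2.symm (e.κ_inj.ne h.1)
        (color_false.1 h3).2 (color_false.1 (h2.symm.trans h3)).2 h.2
    · exact I.no_triple (e.nonterm u _).1.symm (e.nonterm v _).1.symm (e.κ_inj.ne h.1)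
        (color_true.1 h3) (color_true.1 (h2.symm.trans h3)) h.2

theorem feasible_of_yes [Fintype V] (h : I.Yes) : e.toAP.Feasible := by
  classical
  obtain ⟨p, hp⟩ := h
  refine ⟨fun j => {u | e.κ u ∈ (p (e.ι j)).1.support}, fun i j hij => ?_, fun j => ?_⟩
  · rw [Finset.disjoint_left]
    intro u h1 h2
    exact hp _ _ (e.ι_inj.ne hij) _ (mem_filter.1 h1).2 (mem_filter.1 h2).2
  have inner : ∀ y ∈ (p (e.ι j)).1.support, y ≠ I.s (e.ι j) → y ≠ I.t (e.ι j) → ∃ u, e.κ u = y := by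
    intro y hy h1 h2
    refine (e.κ_range y).2 fun i => ?_
    by_cases hi : e.ι j = i
    · exact hi ▸ ⟨h1, h2⟩
    · exact ⟨fun h => hp _ _ hi y hy (by rw [h]; exact Walk.start_mem_support _),
        fun h => hp _ _ hi y hy (by rw [h]; exact Walk.end_mem_support _)⟩
  obtain ⟨x, hx, q, hq⟩ := Walk.exists_eq_cons_of_ne (I.s_ne_t _ _) (p (e.ι j)).1
  have hs : I.s (e.ι j) ∉ q.support := by
    have := (p (e.ι j)).2
    rw [hq, Walk.cons_isPath_iff] at this
    exact this.2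
  have hsub : ∀ y ∈ q.support, y ∈ (p (e.ι j)).1.support := fun y hy => by
    rw [hq]; simp [hy]
  obtain ⟨y, y1, y2, y3, y4⟩ := walk_cross q hs hx fun h => e.nonadj j (h ▸ hx)
  obtain ⟨u, rfl⟩ := inner y (hsub y y1) (fun h => hs (h ▸ y1)) y2
  refine ⟨u, mem_filter.2 ⟨mem_univ _, hsub _ y1⟩, ?_⟩
  rcases y4 with h | ⟨z, z1, z2, z3, z4⟩
  · exact Or.inl (color_none.2 ⟨y3, h⟩)
  · obtain ⟨v, rfl⟩ := inner z (hsub z z1) (fun h => hs (h ▸ z1)) z2
    exact Or.inr ⟨v, mem_filter.2 ⟨mem_univ _, hsub _ z1⟩,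
      fun h => color_true.1 (h.trans (color_true.2 z3)) y3, fun h => h.2 z4⟩

theorem yes_of_feasible (h : e.toAP.Feasible) : I.Yes := by
  classical
  obtain ⟨S⟩ := h.sol
  let Own : Fin I.k → Fin I.n → Prop := fun i v =>
    v = I.s i ∨ v = I.t i ∨ ∃ j, e.ι j = i ∧ (v = e.κ (S.a j) ∨ v = e.κ (S.b j))
  have uniq : ∀ i i' v, Own i v → Own i' v → i = i' := by
    rintro i i' v (rfl | rfl | ⟨j, rfl, h1⟩) (h | h | ⟨j', rfl, h⟩)
    · exact I.s_inj h
    · exact absurd h (I.s_ne_t _ _)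
    · exact h.elim (absurd ·.symm (e.nonterm _ _).1) (absurd ·.symm (e.nonterm _ _).1)
    · exact absurd h.symm (I.s_ne_t _ _)
    · exact I.t_inj h
    · exact h.elim (absurd ·.symm (e.nonterm _ _).2) (absurd ·.symm (e.nonterm _ _).2)
    · subst h
      exact h1.elim (absurd ·.symm (e.nonterm _ _).1) (absurd ·.symm (e.nonterm _ _).1)
    · subst h
      exact h1.elim (absurd ·.symm (e.nonterm _ _).2) (absurd ·.symm (e.nonterm _ _).2)
    · by_contra hne
      have hj : j ≠ j' := fun h => hne (h ▸ rfl)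
      obtain ⟨a, b, c⟩ := S.disj j j' hj
      have d := (S.disj j' j hj.symm).2.1
      rcases h1 with rfl | rfl <;> rcases h with h | h
      exacts [a (e.κ_inj h), b (e.κ_inj h), d (e.κ_inj h).symm, c (e.κ_inj h)]
  have : ∀ i, ∃ w : I.G.Walk (I.s i) (I.t i), ∀ v ∈ w.support, Own i v := fun i => by
    by_cases hi : I.G.Adj (I.s i) (I.t i)
    · exact ⟨hi.toWalk, fun v hv => by
        simp only [Adj.toWalk, Walk.support_cons, Walk.support_nil, List.mem_cons,
          List.not_mem_nil, or_false] at hv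
        exact hv.imp_right Or.inl⟩
    obtain ⟨j, rfl⟩ := (e.ι_range i).2 hi
    rcases S.kind j with ⟨h1, -⟩ | ⟨h1, h2, h3⟩
    · obtain ⟨c1, c2⟩ := color_none.1 h1
      refine ⟨Walk.cons c1 (Walk.cons c2.symm Walk.nil), fun v hv => ?_⟩
      simp only [Walk.support_cons, Walk.support_nil, List.mem_cons, List.not_mem_nil,
        or_false] at hv
      rcases hv with h | h | h
      exacts [Or.inl h, Or.inr (Or.inr ⟨j, rfl, Or.inl h⟩), Or.inr (Or.inl h)]
    · have c1 := (color_false.1 h2).1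
      have c2 := e.adj_t (color_true.1 h1)
      have c3 : I.G.Adj (e.κ (S.a j)) (e.κ (S.b j)) := by
        by_contra h
        refine h3 ⟨fun h' => ?_, h⟩
        rw [h', h2] at h1
        cases h1
      refine ⟨Walk.cons c1 (Walk.cons c3.symm (Walk.cons c2.symm Walk.nil)), fun v hv => ?_⟩
      simp only [Walk.support_cons, Walk.support_nil, List.mem_cons, List.not_mem_nil,
        or_false] at hv
      rcases hv with h | h | h | h
      exacts [Or.inl h, Or.inr (Or.inr ⟨j, rfl, Or.inr h⟩), Or.inr (Or.inr ⟨j, rfl, Or.inl h⟩),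
        Or.inr (Or.inl h)]
  choose w hw using this
  exact ⟨fun i => (w i).toPath, fun i j hij v h1 h2 => hij (uniq i j v
    (hw i v (Walk.support_toPath_subset_support _ h1)) (hw j v (Walk.support_toPath_subset_support _ h2)))⟩

theorem yes_iff [Fintype V] : I.Yes ↔ e.toAP.Feasible := ⟨e.feasible_of_yes, e.yes_of_feasible⟩

end Enum

end Inst

end Pool.Agent.Lib.MP_ef7581_lc
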