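import Mathlib
import Pool.Agent.Shared.PolyTime.Graph
import Pool.Agent.Lib.MP_ef7581_lc.PChar
import Pool.Agent.Lib.MP_ef7581_lc.Reduce

/-!
The coded abstract problem of an instance is computable in polynomial time; the decider.
-/

set_option autoImplicit false

namespace Pool.Agent.Lib.MP_ef7581_lc

open Pool.Agent.Shared.PolyTime Finset

section Sel

variable {T : Type} [Num T]

open Classical in
/-- The list of the elements with property `q`. -/
noncomputable def selL (q : T → Prop) : List T := (tabT fun x => x).filter fun x => decide (q x)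

theorem mem_selL {q : T → Prop} {x : T} : x ∈ selL q ↔ q x := by
  have : x ∈ tabT fun x : T => x := List.mem_map.2 ⟨Num.e x, List.mem_finRange _, by simp⟩
  simp [selL, this]

theorem nodup_selL (q : T → Prop) : (selL q).Nodup :=
  ((List.nodup_finRange _).map Num.e.symm.injective).filter _

theorem get_selL_inj (q : T → Prop) : Function.Injective (selL q).get :=
  List.nodup_iff_injective_get.1 (nodup_selL q)

theorem get_selL_range (q : T → Prop) (x : T) : (∃ i, (selL q).get i = x) ↔ q x := by
  rw [← List.mem_iff_get, mem_selL]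

end Sel

section Fam

variable {γ : Type} [Enc γ] {T : γ → Type} [∀ a, Num (T a)] {q : ∀ a, T a → Prop}

theorem pf_selL (hN : PF fun a => Num.N (T a)) (hq : PF fun p : Pt T => q p.a p.x) :
    PF fun a => (selL (q a)).map idx := by
  classical
  have h : PF fun p : Pt T => if q p.a p.x then [idx p.x] else [] :=
    pf_ite hq (PF.cons pf_x2 (PF.const [])) (PF.const [])
  refine (pf_tabT (f := fun a x => if q a x then [idx x] else []) hN h).flatten.of_eq fun a => ?_
  unfold selL tabT
  generalize List.finRange _ = l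
  induction l with
  | nil => rfl
  | cons i l ih => by_cases k : q a (Num.e.symm i) <;> simp [k, ih]

theorem pf_selN (hN : PF fun a => Num.N (T a)) (hq : PF fun p : Pt T => q p.a p.x) :
    PF fun a => (selL (q a)).length := (pf_selL hN hq).length.of_eq fun _ => List.length_map _

theorem pf_selGet (hN : PF fun a => Num.N (T a)) (hq : PF fun p : Pt T => q p.a p.x)
    {δ : Type} [Enc δ] {g : δ → γ} (hg : PF g) {i : ∀ c, Fin (selL (q (g c))).length}
    (hi : PF fun c => idx (i c)) : PF fun c => idx ((selL (q (g c))).get (i c)) :=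
  (PF.getD ((pf_selL hN hq).comp hg) hi (PF.const 0)).of_eq fun c => by
    rw [List.getD_eq_getElem _ _ (by simp [idx_fin])]
    simp [idx_fin]

end Fam

noncomputable instance encInst : Enc Inst := ⟨Inst.code⟩

theorem encList_map {α β : Type} (e : β → List Bool) (f : α → β) (l : List α) :
    encList e (l.map f) = encList (fun a => e (f a)) l := by
  induction l with
  | nil => rfl
  | cons a l ih => simp [encList, ih]

theorem pf_data : PF fun I : Inst =>
    (adjMatrix I.G, tabT fun i : Fin I.k => ((I.s i).val, (I.t i).val)) :=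
  ⟨fun x => x, PT.var 0, fun I => by
    change I.code = encPair _ (encList _ (List.map _ _))
    rw [encList_map]
    rfl⟩

theorem pf_In : PF fun I : Inst => I.n := pf_data.fst.length.of_eq fun I => by simp [adjMatrix]
theorem pf_Ik : PF fun I : Inst => I.k :=
  pf_data.snd.length.of_eq fun I => by simp only [length_tabT, N_fin]

section

variable {γ : Type} [Enc γ] {g : γ → Inst} (hg : PF g)

include hg

theorem pf_Adj {u v : ∀ a, Fin (g a).n} (hu : PF fun a => idx (u a)) (hv : PF fun a => idx (v a)) :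
    PF fun a => (g a).G.Adj (u a) (v a) :=
  pf_ofBool (PF.entry (pf_data.fst.comp hg) hu hv) fun a => by
    simp [entry_adjMatrix, idx_fin]

theorem pf_s {i : ∀ a, Fin (g a).k} (hi : PF fun a => idx (i a)) :
    PF fun a => idx ((g a).s (i a)) :=
  (PF.getD (pf_data.snd.comp hg) hi (PF.const (0, 0))).fst.of_eq fun a => by
    rw [getD_tabT]; rfl

theorem pf_t {i : ∀ a, Fin (g a).k} (hi : PF fun a => idx (i a)) :
    PF fun a => idx ((g a).t (i a)) :=
  (PF.getD (pf_data.snd.comp hg) hi (PF.const (0, 0))).snd.of_eq fun a => by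
    rw [getD_tabT]; rfl

end

/-- Non-adjacent terminal pairs. -/
def Inst.qJ (I : Inst) (i : Fin I.k) : Prop := ¬ I.G.Adj (I.s i) (I.t i)

/-- Non-terminals. -/
def Inst.qV (I : Inst) (v : Fin I.n) : Prop := ∀ i, v ≠ I.s i ∧ v ≠ I.t i

/-- The enumeration by lists. -/
noncomputable def Inst.enumL (I : Inst) :
    I.Enum (Fin (selL I.qJ).length) (Fin (selL I.qV).length) where
  ι := (selL I.qJ).get
  κ := (selL I.qV).get
  ι_inj := get_selL_inj _
  κ_inj := get_selL_inj _
  ι_range := get_selL_range _
  κ_range := get_selL_range _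

/-- The coded abstract problem of an instance. -/
noncomputable def Inst.toCI (I : Inst) : CI := ⟨_, _, I.enumL.toAP⟩

theorem pf_qJ : PF fun p : Pt fun I : Inst => Fin I.k => p.a.qJ p.x :=
  pf_not (pf_Adj (pt_a PF.id') (pf_s (pt_a PF.id') pf_x2) (pf_t (pt_a PF.id') pf_x2))

theorem pf_qV : PF fun p : Pt fun I : Inst => Fin I.n => p.a.qV p.x :=
  pf_all (pf_Ik.comp (pt_a PF.id')) (pf_and
    (pf_neT (pt_x (pt_a PF.id')) (pf_s (pt_a (pt_a PF.id')) pf_x2))
    (pf_neT (pt_x (pt_a PF.id')) (pf_t (pt_a (pt_a PF.id')) pf_x2)))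

theorem pf_inst_toCI : PF Inst.toCI := by
  have hk : PF fun I : Inst => (selL I.qJ).length := pf_selN pf_Ik pf_qJ
  have hn : PF fun I : Inst => (selL I.qV).length := pf_selN pf_In pf_qV
  have h1 : PF fun p : Pt2 (FV Inst.toCI) (FV Inst.toCI) => p.a.a.toCI.P.H p.a.x p.x :=
    pf_and (pf_neT pf_x1 pf_x2) (pf_not (pf_Adj (pt_a (pt_a PF.id'))
      (pf_selGet pf_In pf_qV (pt_a (pt_a PF.id')) pf_x1)
      (pf_selGet pf_In pf_qV (pt_a (pt_a PF.id')) pf_x2)))
  have h2 : PF fun p : Pt2 (FJ Inst.toCI) (FV Inst.toCI) => p.a.a.toCI.P.col p.a.x p.x :=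
    have a : PF fun p : Pt2 (FJ Inst.toCI) (FV Inst.toCI) => p.a.a := pt_a (pt_a PF.id')
    have b := pf_selGet pf_Ik pf_qJ a pf_x1
    have d := pf_selGet pf_In pf_qV a pf_x2
    pf_ite (pf_Adj a (pf_s a b) d)
      (pf_ite (pf_Adj a (pf_t a b) d) (PF.const none) (PF.const (some false)))
      (PF.const (some true))
  exact pf_toCI (hk.pair (hn.pair (PF.pair
    (pf_tabT (f := fun (I : Inst) u => tabT fun v => I.toCI.P.H u v) hn
      (pf_tabT (f := fun (p : Pt (FV Inst.toCI)) v => p.a.toCI.P.H p.x v)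
        (hn.comp (pt_a PF.id')) h1))
    (pf_tabT (f := fun (I : Inst) j => tabT fun v => I.toCI.P.col j v) hk
      (pf_tabT (f := fun (p : Pt (FJ Inst.toCI)) v => p.a.toCI.P.col p.x v)
        (hn.comp (pt_a PF.id')) h2)))))

/-- The decider, given that the characterisation implies feasibility. -/
theorem inP_of_complete
    (hcomp : ∀ (k n : ℕ) (P : AP (Fin k) (Fin n)), P.Char → P.Feasible) :
    ∃ f : Inst → Bool,
      Nonempty (Turing.TM2ComputableInPolyTime Inst.code (fun b : Bool => [b]) f) ∧
      ∀ I : Inst, f I = true ↔ I.Yes := by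
  classical
  refine ⟨fun I => decide I.toCI.P.Char, PF.tm2 (pf_toBool (pf_Char pf_inst_toCI)) Inst.code
    (fun b : Bool => [b]) _ id (fun _ => rfl) (fun _ => rfl), fun I => ?_⟩
  rw [decide_eq_true_iff, I.enumL.yes_iff]
  exact ⟨hcomp _ _ _, AP.char_of_feasible _⟩

end Pool.Agent.Lib.MP_ef7581_lc
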