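import Mathlib
import Pool.Agent.Lib.MP_ef7581_lc.Complete
import Pool.Agent.Lib.MP_ef7581_lc.PMain

/-!
Disjoint Paths restricted to 3P1-free graphs is decidable in polynomial time.
-/

set_option autoImplicit false

open Pool.Agent.Lib.MP_ef7581_lc

theorem Pool.Agent.Lib.MP_ef7581_lc.threeP1InP_retired :
    ∃ f : Inst → Bool,
      Nonempty (Turing.TM2ComputableInPolyTime Inst.code (fun b : Bool => [b]) f) ∧
      ∀ I : Inst, f I = true ↔ I.Yes :=
  inP_of_complete fun _ _ P => P.feasible_of_char
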